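import Pool.Agent.SDL.ThreePoint

set_option autoImplicit false

/-!
# ZBuild: the three point function as an expression

The function `Zs` of `ThreePoint.lean` for a certificate with integer data, built from constants,
sums and products in an arbitrary type of expressions.
-/

open scoped RealInnerProductSpace

namespace Pool.Agent.SDL

/-- Operations of a type of expressions. -/
structure EOps (E : Type) where
  /-- constants -/
  cst : ℤ → E
  /-- sum -/
  ad : E → E → E
  /-- product -/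
  mu : E → E → E

/-- The values of the expressions. -/
structure EOps.IsEv {E : Type} (o : EOps E) (ev : E → ℝ) : Prop where
  cst : ∀ z, ev (o.cst z) = z
  ad : ∀ a b, ev (o.ad a b) = ev a + ev b
  mu : ∀ a b, ev (o.mu a b) = ev a * ev b

section build

variable {E : Type} (o : EOps E)

/-- A polynomial with integer coefficients. -/
def hor (x : E) : List ℤ → E
  | [] => o.cst 0
  | [c] => o.cst c
  | c :: l => o.ad (o.cst c) (o.mu x (hor x l))

/-- The value of a polynomial. -/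
def pv (x : ℝ) : List ℤ → ℝ
  | [] => 0
  | c :: l => c + x * pv x l

theorem ev_hor {ev : E → ℝ} (H : o.IsEv ev) (x : E) (l : List ℤ) :
    ev (hor o x l) = pv (ev x) l := by
  fun_induction hor o x l with
  | case1 => rw [H.cst, pv]; simp
  | case2 c => rw [H.cst, pv, pv, mul_zero, add_zero]
  | case3 c l h ih => rw [H.ad, H.cst, H.mu, ih, pv]

/-- Sums. -/
def sumE : List E → E
  | [] => o.cst 0
  | [a] => a
  | a :: l => o.ad a (sumE l)

theorem ev_sumE {ev : E → ℝ} (H : o.IsEv ev) (l : List E) :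
    ev (sumE o l) = (l.map ev).sum := by
  fun_induction sumE o l with
  | case1 => rw [H.cst]; simp
  | case2 a => simp
  | case3 a l h ih => rw [H.ad, ih, List.map_cons, List.sum_cons]

/-- The kernels. -/
def SkE : ℕ → E → E → E → E
  | 0, _, _, _ => o.cst 1
  | 1, u, v, t => o.ad t (o.mu (o.cst (-1)) (o.mu u v))
  | (k + 2), u, v, t =>
      o.ad (o.mu (o.ad (o.mu (o.cst 2) t) (o.mu (o.cst (-2)) (o.mu u v))) (SkE (k + 1) u v t))
        (o.mu (o.mu (o.ad (o.mu u u) (o.cst (-1))) (o.ad (o.cst 1) (o.mu (o.cst (-1)) (o.mu v v))))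
          (SkE k u v t))

theorem ev_SkE {ev : E → ℝ} (H : o.IsEv ev) (k : ℕ) (u v t : E) :
    ev (SkE o k u v t) = Sk k (ev u) (ev v) (ev t) := by
  induction k using Nat.twoStepInduction with
  | zero => simp [SkE, Sk, H.cst]
  | one => simp [SkE, Sk, H.cst, H.ad, H.mu]; ring
  | more k h0 h1 =>
    simp only [SkE, Sk, H.cst, H.ad, H.mu, h0, h1]
    push_cast
    ring

/-- Powers. -/
def powE (x : E) : ℕ → E
  | 0 => o.cst 1
  | (k + 1) => o.mu x (powE x k)

theorem ev_powE {ev : E → ℝ} (H : o.IsEv ev) (x : E) (k : ℕ) :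
    ev (powE o x k) = ev x ^ k := by
  induction k with
  | zero => simp [powE, H.cst]
  | succ k ih => rw [powE, H.mu, ih, pow_succ]; ring

/-- One square of a certificate: the weight `w0 + w1 X` (`X` the mark of the pole) and the feature
`g0 u + Y * g1 u`. -/
structure Sq where
  /-- weight, constant part -/
  w0 : ℤ
  /-- weight, coefficient of the mark of the pole -/
  w1 : ℤ
  /-- feature without mark -/
  g0 : List ℤ
  /-- feature with mark -/
  g1 : List ℤ
  /-- constant at the pole (order zero only) -/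
  p0 : ℤ
  /-- constant at the pole, coefficient of the mark -/
  p1 : ℤ

/-- The weight. -/
def Sq.d (s : Sq) (X : ℝ) : ℝ := s.w0 + s.w1 * X

/-- The feature. -/
def Sq.g (s : Sq) (u Y : ℝ) : ℝ := pv u s.g0 + Y * pv u s.g1

/-- The constant at the pole. -/
def Sq.a (s : Sq) (k : ℕ) (X : ℝ) : ℝ := if k = 0 then s.p0 + s.p1 * X else 0

/-- The constant at the pole as an expression. -/
def Sq.aE (s : Sq) (X : E) : E := o.ad (o.cst s.p0) (o.mu (o.cst s.p1) X)

/-- The weight as an expression. -/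
def Sq.dE (s : Sq) (X : E) : E := o.ad (o.cst s.w0) (o.mu (o.cst s.w1) X)

/-- The feature as an expression. -/
def Sq.gE (s : Sq) (u Y : E) : E := o.ad (hor o u s.g0) (o.mu Y (hor o u s.g1))

theorem Sq.ev_dE {ev : E → ℝ} (H : o.IsEv ev) (s : Sq) (X : E) :
    ev (s.dE o X) = s.d (ev X) := by
  rw [Sq.dE, H.ad, H.mu, H.cst, H.cst, Sq.d]

theorem Sq.ev_gE {ev : E → ℝ} (H : o.IsEv ev) (s : Sq) (u Y : E) :
    ev (s.gE o u Y) = s.g (ev u) (ev Y) := by
  rw [Sq.gE, H.ad, H.mu, ev_hor o H, ev_hor o H, Sq.g]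

/-- The squares of the order `k` for one pole. -/
def mainE (l : List Sq) (k : ℕ) (u v t X Y W : E) : E :=
  o.mu (sumE o (l.map fun s => o.mu (s.dE o X) (o.mu (s.gE o u Y) (s.gE o v W))))
    (SkE o k u v t)

theorem ev_mainE {ev : E → ℝ} (H : o.IsEv ev) (l : List Sq) (k : ℕ) (u v t X Y W : E) :
    ev (mainE o l k u v t X Y W) =
      (l.map fun s => s.d (ev X) * (s.g (ev u) (ev Y) * s.g (ev v) (ev W) *
        Sk k (ev u) (ev v) (ev t))).sum := by
  rw [mainE, H.mu, ev_sumE o H, ev_SkE o H, ← List.sum_map_mul_right, List.map_map]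
  congr 1
  apply List.map_congr_left
  intro s _
  simp only [Function.comp, H.mu, Sq.ev_dE o H, Sq.ev_gE o H]
  ring

/-- The terms of the pairs of the order `k` for one pole. -/
def pairE (l : List Sq) (k : ℕ) (u X Y : E) : E :=
  match k with
  | 0 => sumE o (l.map fun s => o.mu (s.dE o X)
      (o.mu (s.gE o u Y) (o.ad (s.gE o u Y) (o.mu (o.cst 2) (s.aE o X)))))
  | (k + 1) => o.mu (sumE o (l.map fun s => o.mu (s.dE o X) (o.mu (s.gE o u Y) (s.gE o u Y))))
      (powE o (o.ad (o.cst 1) (o.mu (o.cst (-1)) (o.mu u u))) (k + 1))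

theorem ev_pairE {ev : E → ℝ} (H : o.IsEv ev) (l : List Sq) (k : ℕ) (u X Y : E) :
    ev (pairE o l k u X Y) =
      (l.map fun s => s.d (ev X) * (2 * s.a k (ev X) * s.g (ev u) (ev Y) +
        s.g (ev u) (ev Y) ^ 2 * (1 - ev u ^ 2) ^ k)).sum := by
  cases k with
  | zero =>
    simp only [pairE]
    rw [ev_sumE o H, List.map_map]
    congr 1
    apply List.map_congr_left
    intro s _
    simp only [Function.comp, H.mu, H.ad, H.cst, Sq.ev_dE o H, Sq.ev_gE o H, Sq.a, Sq.aE, if_true]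
    push_cast
    ring
  | succ k =>
    simp only [pairE]
    rw [H.mu, ev_sumE o H, ev_powE o H, ← List.sum_map_mul_right, List.map_map]
    congr 1
    apply List.map_congr_left
    intro s _
    have h0 : ¬ (k + 1 = 0) := by omega
    simp only [Function.comp, H.mu, H.ad, H.cst, Sq.ev_dE o H, Sq.ev_gE o H, Sq.a, if_neg h0]
    push_cast
    ring

/-- The terms of one point of the order `k`. -/
def oneE (l : List Sq) (k : ℕ) (X : E) : E :=
  match k with
  | 0 => sumE o (l.map fun s => o.mu (s.dE o X)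
      (o.mu (s.aE o X) (s.aE o X)))
  | (_ + 1) => o.cst 0

theorem ev_oneE {ev : E → ℝ} (H : o.IsEv ev) (l : List Sq) (k : ℕ) (X : E) :
    ev (oneE o l k X) = (l.map fun s => s.d (ev X) * s.a k (ev X) ^ 2).sum := by
  cases k with
  | zero =>
    simp only [oneE]
    rw [ev_sumE o H, List.map_map]
    congr 1
    apply List.map_congr_left
    intro s _
    simp only [Function.comp, H.mu, H.ad, H.cst, Sq.ev_dE o H, Sq.a, Sq.aE, if_true]
    ring
  | succ k =>
    simp only [oneE]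
    rw [H.cst]
    have h0 : ¬ (k + 1 = 0) := by omega
    have : (l.map fun s => s.d (ev X) * s.a (k + 1) (ev X) ^ 2) = l.map fun _ => (0 : ℝ) := by
      apply List.map_congr_left
      intro s _
      rw [Sq.a, if_neg h0]
      ring
    rw [this]
    simp

/-- All orders. -/
def allE (f : List Sq → ℕ → E) : List (List Sq) → ℕ → List E
  | [], _ => []
  | l :: c, k => f l k :: allE f c (k + 1)

end build

/-- The squares with their orders. -/
def flat : List (List Sq) → ℕ → List (ℕ × Sq)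
  | [], _ => []
  | l :: c, k => (l.map fun s => (k, s)) ++ flat c (k + 1)

section build2

variable {E : Type} (o : EOps E)

theorem ev_allE {ev : E → ℝ} (H : o.IsEv ev) (f : List Sq → ℕ → E) (F : ℕ × Sq → ℝ)
    (hf : ∀ l k, ev (f l k) = (l.map fun s => F (k, s)).sum) (c : List (List Sq)) (k : ℕ) :
    ev (sumE o (allE f c k)) = ((flat c k).map F).sum := by
  rw [ev_sumE o H]
  induction c generalizing k with
  | nil => simp [allE, flat]
  | cons l c ih =>
    rw [allE, flat, List.map_cons, List.sum_cons, ih, hf, List.map_append, List.sum_append,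
      List.map_map]
    rfl

/-- The value of the main terms of a pole. -/
noncomputable def mainR (c : List (List Sq)) (u v t X Y W : ℝ) : ℝ :=
  ((flat c 0).map fun p => p.2.d X * (p.2.g u Y * p.2.g v W * Sk p.1 u v t)).sum

/-- The value of the pair terms of a pole. -/
noncomputable def pairR (c : List (List Sq)) (u X Y : ℝ) : ℝ :=
  ((flat c 0).map fun p => p.2.d X * (2 * p.2.a p.1 X * p.2.g u Y +
    p.2.g u Y ^ 2 * (1 - u ^ 2) ^ p.1)).sum

/-- The value of the one point terms of a pole. -/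
noncomputable def oneR (c : List (List Sq)) (X : ℝ) : ℝ :=
  ((flat c 0).map fun p => p.2.d X * p.2.a p.1 X ^ 2).sum

/-- The main terms as an expression. -/
def mainA (c : List (List Sq)) (u v t X Y W : E) : E :=
  sumE o (allE (fun l k => mainE o l k u v t X Y W) c 0)

/-- The pair terms as an expression. -/
def pairA (c : List (List Sq)) (u X Y : E) : E :=
  sumE o (allE (fun l k => pairE o l k u X Y) c 0)

/-- The one point terms as an expression. -/
def oneA (c : List (List Sq)) (X : E) : E :=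
  sumE o (allE (fun l k => oneE o l k X) c 0)

theorem ev_mainA {ev : E → ℝ} (H : o.IsEv ev) (c : List (List Sq)) (u v t X Y W : E) :
    ev (mainA o c u v t X Y W) = mainR c (ev u) (ev v) (ev t) (ev X) (ev Y) (ev W) :=
  ev_allE o H _ (fun p => p.2.d (ev X) * (p.2.g (ev u) (ev Y) * p.2.g (ev v) (ev W) *
    Sk p.1 (ev u) (ev v) (ev t))) (fun l k => ev_mainE o H l k u v t X Y W) c 0

theorem ev_pairA {ev : E → ℝ} (H : o.IsEv ev) (c : List (List Sq)) (u X Y : E) :
    ev (pairA o c u X Y) = pairR c (ev u) (ev X) (ev Y) :=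
  ev_allE o H _ (fun p => p.2.d (ev X) * (2 * p.2.a p.1 (ev X) * p.2.g (ev u) (ev Y) +
    p.2.g (ev u) (ev Y) ^ 2 * (1 - ev u ^ 2) ^ p.1)) (fun l k => ev_pairE o H l k u X Y) c 0

theorem ev_oneA {ev : E → ℝ} (H : o.IsEv ev) (c : List (List Sq)) (X : E) :
    ev (oneA o c X) = oneR c (ev X) :=
  ev_allE o H _ (fun p => p.2.d (ev X) * p.2.a p.1 (ev X) ^ 2)
    (fun l k => ev_oneE o H l k X) c 0

/-- The terms of one pole. `N` the number of points, `L` the total mark. -/
def poleE (c : List (List Sq)) (N L : ℤ) (rE qE : E → E → E → E) (sE : E → E)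
    (u v t X Y W : E) : E :=
  o.ad (o.mu (o.cst (2 * (N - 1) * (N - 2))) (mainA o c u v t X Y W))
    (o.ad (o.mu (o.cst (N - 1)) (o.ad (rE u X Y) (rE v X W)))
      (o.ad (o.mu (o.cst 2) (sE X))
        (o.mu (o.cst (2 * (N - 1))) (o.mu (qE t Y W)
          (o.ad (o.mu (o.cst (N - 2)) X) (o.ad Y (o.ad W (o.cst (-L)))))))))

/-- The three point function, times `(N - 1) (N - 2)`. -/
def ZE (c : List (List Sq)) (N L : ℤ) (rE qE : E → E → E → E) (sE : E → E)
    (u v t X Y W : E) : E :=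
  o.ad (poleE o c N L rE qE sE u v t X Y W)
    (o.ad (poleE o c N L rE qE sE u t v Y X W) (poleE o c N L rE qE sE v t u W X Y))

/-- The terms of one pole. -/
noncomputable def poleR (c : List (List Sq)) (N L : ℝ) (r q : ℝ → ℝ → ℝ → ℝ) (s : ℝ → ℝ)
    (u v t X Y W : ℝ) : ℝ :=
  2 * (N - 1) * (N - 2) * mainR c u v t X Y W + (N - 1) * (r u X Y + r v X W) + 2 * s X +
    2 * (N - 1) * (q t Y W * ((N - 2) * X + Y + W - L))

/-- The three point function, times `(N - 1) (N - 2)`. -/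
noncomputable def ZR (c : List (List Sq)) (N L : ℝ) (r q : ℝ → ℝ → ℝ → ℝ) (s : ℝ → ℝ)
    (u v t X Y W : ℝ) : ℝ :=
  poleR c N L r q s u v t X Y W + poleR c N L r q s u t v Y X W + poleR c N L r q s v t u W X Y

theorem ev_poleE {ev : E → ℝ} (H : o.IsEv ev) (c : List (List Sq)) (N L : ℤ)
    (rE qE : E → E → E → E) (sE : E → E) (r q : ℝ → ℝ → ℝ → ℝ) (s : ℝ → ℝ)
    (hr : ∀ u X Y, ev (rE u X Y) = r (ev u) (ev X) (ev Y))
    (hq : ∀ u X Y, ev (qE u X Y) = q (ev u) (ev X) (ev Y)) (hs : ∀ X, ev (sE X) = s (ev X))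
    (u v t X Y W : E) :
    ev (poleE o c N L rE qE sE u v t X Y W) =
      poleR c N L r q s (ev u) (ev v) (ev t) (ev X) (ev Y) (ev W) := by
  rw [poleE, poleR]
  simp only [H.ad, H.mu, H.cst, ev_mainA o H, hr, hq, hs]
  push_cast
  ring

theorem ev_ZE {ev : E → ℝ} (H : o.IsEv ev) (c : List (List Sq)) (N L : ℤ)
    (rE qE : E → E → E → E) (sE : E → E) (r q : ℝ → ℝ → ℝ → ℝ) (s : ℝ → ℝ)
    (hr : ∀ u X Y, ev (rE u X Y) = r (ev u) (ev X) (ev Y))
    (hq : ∀ u X Y, ev (qE u X Y) = q (ev u) (ev X) (ev Y)) (hs : ∀ X, ev (sE X) = s (ev X))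
    (u v t X Y W : E) :
    ev (ZE o c N L rE qE sE u v t X Y W) =
      ZR c N L r q s (ev u) (ev v) (ev t) (ev X) (ev Y) (ev W) := by
  rw [ZE, ZR, H.ad, H.ad, ev_poleE o H c N L rE qE sE r q s hr hq hs,
    ev_poleE o H c N L rE qE sE r q s hr hq hs, ev_poleE o H c N L rE qE sE r q s hr hq hs]
  ring

end build2

/-- The data of `Zs` from a certificate. -/
noncomputable def kB (c : List (List Sq)) (b : Fin (flat c 0).length) : ℕ := ((flat c 0).get b).1

/-- The weights. -/
noncomputable def dB (c : List (List Sq)) (b : Fin (flat c 0).length) (X : ℝ) : ℝ :=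
  ((flat c 0).get b).2.d X

/-- The constants at the pole. -/
noncomputable def aB (c : List (List Sq)) (b : Fin (flat c 0).length) (X : ℝ) : ℝ :=
  ((flat c 0).get b).2.a ((flat c 0).get b).1 X

/-- The features. -/
noncomputable def gB (c : List (List Sq)) (b : Fin (flat c 0).length) (u Y : ℝ) : ℝ :=
  ((flat c 0).get b).2.g u Y

theorem sum_get {α : Type} (l : List α) (F : α → ℝ) :
    ∑ b : Fin l.length, F (l.get b) = (l.map F).sum := by
  rw [← List.sum_ofFn]
  congr 1
  apply List.ext_getElem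
  · simp
  · intro i h1 h2
    simp

theorem ZR_eq (c : List (List Sq)) (N L : ℝ) (h1 : N - 1 ≠ 0) (h2 : N - 2 ≠ 0)
    (q : ℝ → ℝ → ℝ → ℝ) (c1 : ℝ → ℝ) (c2 : ℝ → ℝ → ℝ → ℝ) (hq : ∀ t Y W, q t Y W = q t W Y)
    (u v t X Y W : ℝ) :
    ZR c N L (fun u X Y => pairR c u X Y + c2 u X Y) q (fun X => oneR c X + c1 X) u v t X Y W =
      (N - 1) * (N - 2) *
        Zs (kB c) (dB c) (aB c) (gB c) q c1 c2 N L u v t X Y W := by
  have hZ : ∀ u v t X Y W : ℝ, (N - 1) * (N - 2) *
      Zo (kB c) (dB c) (aB c) (gB c) q c1 c2 N L u v t X Y W =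
      (N - 1) * (N - 2) * mainR c u v t X Y W + (N - 1) * (pairR c u X Y + c2 u X Y) +
        (oneR c X + c1 X) + (N - 1) * (q t Y W * ((N - 2) * X + Y + W - L)) := by
    intro u v t X Y W
    have e1 := sum_get (flat c 0) fun p =>
      p.2.d X * (p.2.g u Y * p.2.g v W * Sk p.1 u v t)
    have e2 := sum_get (flat c 0) fun p => p.2.d X * (2 * p.2.a p.1 X * p.2.g u Y +
      p.2.g u Y ^ 2 * (1 - u ^ 2) ^ p.1)
    have e3 := sum_get (flat c 0) fun p => p.2.d X * p.2.a p.1 X ^ 2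
    rw [Zo]
    simp only [Finset.sum_add_distrib, ← Finset.sum_div, kB, dB, aB, gB]
    rw [e1, e2, e3, mainR, pairR, oneR]
    field_simp
    ring
  have hS : ∀ k (u v t : ℝ), Sk k u v t = Sk k v u t := fun k u v t => Sk_symm k u v t
  have hm : ∀ u v t X Y W : ℝ, mainR c v u t X W Y = mainR c u v t X Y W := by
    intro u v t X Y W
    rw [mainR, mainR]
    congr 1
    apply List.map_congr_left
    intro p _
    rw [hS p.1 v u t]
    ring
  rw [Zs]
  simp only [mul_add (( N - 1) * (N - 2)), hZ]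
  rw [ZR, poleR, poleR, poleR, hm u v t X Y W, hm u t v Y X W, hm v t u W X Y, hq t W Y,
    hq v W X, hq u Y X]
  ring

theorem mainR_swap (c : List (List Sq)) (u v t X Y W : ℝ) :
    mainR c v u t X W Y = mainR c u v t X Y W := by
  rw [mainR, mainR]
  congr 1
  apply List.map_congr_left
  intro p _
  rw [Sk_symm p.1 v u t]
  ring

/-- The symmetry of the three point function: the last two points. -/
theorem ZR_swap (c : List (List Sq)) (N L : ℝ) (r q : ℝ → ℝ → ℝ → ℝ) (s : ℝ → ℝ)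
    (hq : ∀ t Y W, q t Y W = q t W Y) (u v t X Y W : ℝ) :
    ZR c N L r q s v u t X W Y = ZR c N L r q s u v t X Y W := by
  simp only [ZR, poleR]
  rw [mainR_swap c u v t X Y W, hq t W Y]
  ring

/-- The symmetry of the three point function: the first two points. -/
theorem ZR_swap' (c : List (List Sq)) (N L : ℝ) (r q : ℝ → ℝ → ℝ → ℝ) (s : ℝ → ℝ)
    (hq : ∀ t Y W, q t Y W = q t W Y) (u v t X Y W : ℝ) :
    ZR c N L r q s u t v Y X W = ZR c N L r q s u v t X Y W := by
  simp only [ZR, poleR]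
  rw [mainR_swap c v t u W X Y, hq u Y X]
  ring

section final

variable {ι : Type*} [Fintype ι] [DecidableEq ι]

/-- The three point bound in the form used for the certificates. `N` is the number of points, `L`
the total mark, `r`, `q`, `s` arbitrary functions. -/
theorem exists_ZR_nonneg (c : List (List Sq)) (h3 : 3 ≤ Fintype.card ι)
    (n : ι → EuclideanSpace ℝ (Fin 3)) (hn : ∀ i, ‖n i‖ = 1) (x : ι → ℝ)
    (r q : ℝ → ℝ → ℝ → ℝ) (s : ℝ → ℝ) (hq : ∀ t Y W, q t Y W = q t W Y)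
    (hw : ∀ p ∈ flat c 0, ∀ i, 0 ≤ p.2.d (x i))
    (h2p : 0 ≤ ∑ i, ((s (x i) - oneR c (x i)) + ∑ j ∈ Finset.univ.erase i,
      (r ⟪n i, n j⟫ (x i) (x j) - pairR c ⟪n i, n j⟫ (x i) (x j)))) :
    ∃ i j m, i ≠ j ∧ i ≠ m ∧ j ≠ m ∧ ⟪n j, n m⟫ ≤ ⟪n i, n m⟫ ∧ ⟪n i, n m⟫ ≤ ⟪n i, n j⟫ ∧
      0 ≤ ZR c (Fintype.card ι) (∑ l, x l) r q s ⟪n i, n j⟫ ⟪n i, n m⟫ ⟪n j, n m⟫
        (x i) (x j) (x m) := by
  have hN : (3 : ℝ) ≤ Fintype.card ι := by exact_mod_cast h3
  obtain ⟨i, j, m, hij, him, hjm, h0⟩ := exists_Zs_nonneg (kB c) (dB c) (aB c) (gB c) q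
    (fun X => s X - oneR c X) (fun u X Y => r u X Y - pairR c u X Y) h3 n hn x
    (fun b i => hw _ (List.get_mem _ _) i)
    (fun b hb X => by
      have hb' : ¬ (((flat c 0).get b).1 = 0) := hb
      rw [aB, Sq.a, if_neg hb'])
    h2p
  have e1 := ZR_eq c (Fintype.card ι) (∑ l, x l) (by linarith) (by linarith) q
    (fun X => s X - oneR c X) (fun u X Y => r u X Y - pairR c u X Y) hq
    ⟪n i, n j⟫ ⟪n i, n m⟫ ⟪n j, n m⟫ (x i) (x j) (x m)
  have e2 : (fun u X Y => pairR c u X Y + (r u X Y - pairR c u X Y)) = r := by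
    funext u X Y
    ring
  have e3 : (fun X => oneR c X + (s X - oneR c X)) = s := by
    funext X
    ring
  rw [e2, e3] at e1
  have h1 : 0 ≤ ZR c (Fintype.card ι) (∑ l, x l) r q s ⟪n i, n j⟫ ⟪n i, n m⟫ ⟪n j, n m⟫
      (x i) (x j) (x m) := by
    rw [e1]
    exact mul_nonneg (mul_nonneg (by linarith) (by linarith)) h0
  -- the order of the three points
  have sw : ∀ i j m, 0 ≤ ZR c (Fintype.card ι) (∑ l, x l) r q s ⟪n i, n j⟫ ⟪n i, n m⟫
      ⟪n j, n m⟫ (x i) (x j) (x m) →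
      0 ≤ ZR c (Fintype.card ι) (∑ l, x l) r q s ⟪n i, n m⟫ ⟪n i, n j⟫ ⟪n m, n j⟫
        (x i) (x m) (x j) := by
    intro i j m h
    rw [real_inner_comm (n j) (n m), ZR_swap c _ _ r q s hq]
    exact h
  have sw' : ∀ i j m, 0 ≤ ZR c (Fintype.card ι) (∑ l, x l) r q s ⟪n i, n j⟫ ⟪n i, n m⟫
      ⟪n j, n m⟫ (x i) (x j) (x m) →
      0 ≤ ZR c (Fintype.card ι) (∑ l, x l) r q s ⟪n j, n i⟫ ⟪n j, n m⟫ ⟪n i, n m⟫
        (x j) (x i) (x m) := by
    intro i j m h
    rw [real_inner_comm (n i) (n j), ZR_swap' c _ _ r q s hq]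
    exact h
  have key : ∀ i j m, i ≠ j → i ≠ m → j ≠ m → ⟪n j, n m⟫ ≤ ⟪n i, n m⟫ →
      ⟪n j, n m⟫ ≤ ⟪n i, n j⟫ →
      0 ≤ ZR c (Fintype.card ι) (∑ l, x l) r q s ⟪n i, n j⟫ ⟪n i, n m⟫ ⟪n j, n m⟫
        (x i) (x j) (x m) →
      ∃ i j m, i ≠ j ∧ i ≠ m ∧ j ≠ m ∧ ⟪n j, n m⟫ ≤ ⟪n i, n m⟫ ∧ ⟪n i, n m⟫ ≤ ⟪n i, n j⟫ ∧
      0 ≤ ZR c (Fintype.card ι) (∑ l, x l) r q s ⟪n i, n j⟫ ⟪n i, n m⟫ ⟪n j, n m⟫
        (x i) (x j) (x m) := by
    intro i j m hij him hjm ha hb h
    rcases le_total ⟪n i, n m⟫ ⟪n i, n j⟫ with hc | hc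
    · exact ⟨i, j, m, hij, him, hjm, ha, hc, h⟩
    · refine ⟨i, m, j, him, hij, hjm.symm, ?_, hc, sw i j m h⟩
      rw [real_inner_comm (n j) (n m)]
      exact hb
  rcases le_total ⟪n j, n m⟫ ⟪n i, n m⟫ with ha | ha
  · rcases le_total ⟪n j, n m⟫ ⟪n i, n j⟫ with hb | hb
    · exact key i j m hij him hjm ha hb h1
    · -- the side `ij` is the smallest
      have h2 := sw i j m h1
      have h3' := sw' i m j h2
      refine key m i j him.symm hjm.symm hij ?_ ?_ h3'
      · rw [real_inner_comm (n j) (n m)]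
        exact hb
      · rw [real_inner_comm (n i) (n m)]
        exact hb.trans ha
  · rcases le_total ⟪n i, n m⟫ ⟪n i, n j⟫ with hb | hb
    · -- the side `im` is the smallest
      have h2 := sw' i j m h1
      refine key j i m hij.symm hjm him ha ?_ h2
      rw [real_inner_comm (n i) (n j)]
      exact hb
    · have h2 := sw i j m h1
      have h3' := sw' i m j h2
      refine key m i j him.symm hjm.symm hij ?_ ?_ h3'
      · rw [real_inner_comm (n j) (n m)]
        exact hb.trans ha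
      · rw [real_inner_comm (n i) (n m)]
        exact hb

end final

end Pool.Agent.SDL
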