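import Pool.Agent.SDL.AffMult

set_option autoImplicit false

/-!
# AffEx: the polynomials of an affine certificate as expressions

The marks are substituted, so the expressions are small.
-/

namespace Pool.Agent.SDL

/-- The value of a mark. -/
def mkv (X : Bool) : ℝ := if X then 1 else 0

/-- Sum of polynomials. -/
def addL : List ℤ → List ℤ → List ℤ
  | [], m => m
  | a :: l, [] => a :: l
  | a :: l, b :: m => (a + b) :: addL l m

theorem pv_addL (x : ℝ) (l m : List ℤ) : pv x (addL l m) = pv x l + pv x m := by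
  fun_induction addL l m with
  | case1 => simp [pv]
  | case2 => simp [pv]
  | case3 a l b m ih => rw [pv, pv, pv, ih]; push_cast; ring

/-- Multiple of a polynomial. -/
def smulL (a : ℤ) (l : List ℤ) : List ℤ := l.map fun b => a * b

theorem pv_smulL (x : ℝ) (a : ℤ) (l : List ℤ) : pv x (smulL a l) = a * pv x l := by
  induction l with
  | nil => simp [smulL, pv]
  | cons b l ih =>
    have h1 : smulL a (b :: l) = (a * b) :: smulL a l := rfl
    rw [h1, pv, pv, ih]
    push_cast
    ring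

/-- The weight for the mark `X`. -/
def Sq.wt (s : Sq) (X : Bool) : ℤ := if X then s.w0 + s.w1 else s.w0

/-- The feature for the mark `Y`. -/
def Sq.ft (s : Sq) (Y : Bool) : List ℤ := if Y then addL s.g0 s.g1 else s.g0

/-- The constant for the mark `X`. -/
def Sq.cs (s : Sq) (X : Bool) : ℤ := if X then s.p0 + s.p1 else s.p0

theorem Sq.wt_eq (s : Sq) (X : Bool) : (s.wt X : ℝ) = s.d (mkv X) := by
  cases X <;> simp [Sq.wt, Sq.d, mkv]

theorem Sq.ft_eq (s : Sq) (Y : Bool) (u : ℝ) : pv u (s.ft Y) = s.g u (mkv Y) := by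
  cases Y <;> simp [Sq.ft, Sq.g, mkv, pv_addL]

theorem Sq.cs_eq (s : Sq) (X : Bool) : (s.cs X : ℝ) = s.a 0 (mkv X) := by
  cases X <;> simp [Sq.cs, Sq.a, mkv]

/-- The squares with nonzero weight. -/
def Sq.sel (l : List Sq) (X : Bool) : List Sq := l.filter fun s => s.wt X != 0

theorem Sq.sum_sel (l : List Sq) (X : Bool) (F : Sq → ℝ) (h : ∀ s, s.d (mkv X) = 0 → F s = 0) :
    ((Sq.sel l X).map F).sum = (l.map F).sum := by
  induction l with
  | nil => rfl
  | cons s l ih =>
    rw [Sq.sel, List.filter_cons]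
    by_cases hs : s.wt X = 0
    · have h1 : (s.wt X != 0) = false := by simp [hs]
      rw [h1, if_neg (by simp), List.map_cons, List.sum_cons, h s (by rw [← s.wt_eq, hs]; simp),
        zero_add]
      exact ih
    · have h1 : (s.wt X != 0) = true := by simp [hs]
      rw [h1, if_pos rfl, List.map_cons, List.sum_cons, List.map_cons, List.sum_cons]
      congr 1

section build

variable {E : Type} (o : EOps E)

/-- The main terms of the order `k`. -/
def mainB (l : List Sq) (k : ℕ) (u v t : E) (X Y W : Bool) : E :=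
  o.mu (sumE o ((Sq.sel l X).map fun s => o.mu (o.cst (s.wt X))
    (o.mu (hor o u (s.ft Y)) (hor o v (s.ft W))))) (SkE o k u v t)

theorem ev_mainB {ev : E → ℝ} (H : o.IsEv ev) (l : List Sq) (k : ℕ) (u v t : E)
    (X Y W : Bool) :
    ev (mainB o l k u v t X Y W) =
      (l.map fun s => s.d (mkv X) * (s.g (ev u) (mkv Y) * s.g (ev v) (mkv W) *
        Sk k (ev u) (ev v) (ev t))).sum := by
  rw [mainB, H.mu, ev_sumE o H, ev_SkE o H, ← List.sum_map_mul_right, List.map_map,
    ← Sq.sum_sel l X]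
  · congr 1
    apply List.map_congr_left
    intro s _
    simp only [Function.comp, H.mu, H.cst, ev_hor o H, Sq.wt_eq, Sq.ft_eq]
    ring
  · intro s h
    rw [h]
    ring

/-- The pair terms of the order `k`. -/
def pairB (l : List Sq) (k : ℕ) (u : E) (X Y : Bool) : E :=
  match k with
  | 0 => sumE o ((Sq.sel l X).map fun s => o.mu (o.cst (s.wt X))
      (o.mu (hor o u (s.ft Y)) (hor o u (addL [2 * s.cs X] (s.ft Y)))))
  | (k + 1) => o.mu (sumE o ((Sq.sel l X).map fun s => o.mu (o.cst (s.wt X))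
      (o.mu (hor o u (s.ft Y)) (hor o u (s.ft Y)))))
      (powE o (o.ad (o.cst 1) (o.mu (o.cst (-1)) (o.mu u u))) (k + 1))

theorem ev_pairB {ev : E → ℝ} (H : o.IsEv ev) (l : List Sq) (k : ℕ) (u : E) (X Y : Bool) :
    ev (pairB o l k u X Y) =
      (l.map fun s => s.d (mkv X) * (2 * s.a k (mkv X) * s.g (ev u) (mkv Y) +
        s.g (ev u) (mkv Y) ^ 2 * (1 - ev u ^ 2) ^ k)).sum := by
  cases k with
  | zero =>
    simp only [pairB]
    rw [ev_sumE o H, List.map_map, ← Sq.sum_sel l X]
    · congr 1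
      apply List.map_congr_left
      intro s _
      simp only [Function.comp, H.mu, H.cst, ev_hor o H, Sq.wt_eq, pv_addL, Sq.ft_eq, pv]
      push_cast
      rw [Sq.cs_eq]
      ring
    · intro s h
      rw [h]
      ring
  | succ k =>
    simp only [pairB]
    rw [H.mu, ev_sumE o H, ev_powE o H, ← List.sum_map_mul_right, List.map_map,
      ← Sq.sum_sel l X]
    · congr 1
      apply List.map_congr_left
      intro s _
      have h0 : ¬ (k + 1 = 0) := by omega
      simp only [Function.comp, H.mu, H.ad, H.cst, ev_hor o H, Sq.wt_eq, Sq.ft_eq, Sq.a,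
        if_neg h0]
      push_cast
      ring
    · intro s h
      rw [h]
      ring

/-- The main terms of a pole. -/
def mainC (c : List (List Sq)) (u v t : E) (X Y W : Bool) : E :=
  sumE o (allE (fun l k => mainB o l k u v t X Y W) c 0)

/-- The pair terms of a pole. -/
def pairC (c : List (List Sq)) (u : E) (X Y : Bool) : E :=
  sumE o (allE (fun l k => pairB o l k u X Y) c 0)

theorem ev_mainC {ev : E → ℝ} (H : o.IsEv ev) (c : List (List Sq)) (u v t : E)
    (X Y W : Bool) :
    ev (mainC o c u v t X Y W) = mainR c (ev u) (ev v) (ev t) (mkv X) (mkv Y) (mkv W) :=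
  ev_allE o H _ (fun p => p.2.d (mkv X) * (p.2.g (ev u) (mkv Y) * p.2.g (ev v) (mkv W) *
    Sk p.1 (ev u) (ev v) (ev t))) (fun l k => ev_mainB o H l k u v t X Y W) c 0

theorem ev_pairC {ev : E → ℝ} (H : o.IsEv ev) (c : List (List Sq)) (u : E) (X Y : Bool) :
    ev (pairC o c u X Y) = pairR c (ev u) (mkv X) (mkv Y) :=
  ev_allE o H _ (fun p => p.2.d (mkv X) * (2 * p.2.a p.1 (mkv X) * p.2.g (ev u) (mkv Y) +
    p.2.g (ev u) (mkv Y) ^ 2 * (1 - ev u ^ 2) ^ p.1))
    (fun l k => ev_pairB o H l k u X Y) c 0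

/-- The matrix entry of one order of the two point kernel. -/
def Tw.vz (l : List Tw) (X Y : Bool) : ℤ :=
  (l.map fun p => p.D * ((if X then p.a + p.b else p.a) * (if Y then p.a + p.b else p.a))).sum

theorem Tw.vz_eq (l : List Tw) (X Y : Bool) : ((Tw.vz l X Y : ℤ) : ℝ) =
    Tw.val l (mkv X) (mkv Y) := by
  rw [Tw.vz, Tw.val]
  push_cast [List.map_map]
  congr 1
  apply List.map_congr_left
  intro p _
  cases X <;> cases Y <;> simp [mkv]

/-- The two point kernel as a polynomial. -/
def KL : List (List Tw) → ℕ → Bool → Bool → List ℤ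
  | [], _, _, _ => []
  | l :: e, k, X, Y => addL (smulL (Tw.vz l X Y) (legL k)) (KL e (k + 1) X Y)

theorem pv_KL (e : List (List Tw)) (k : ℕ) (u : ℝ) (X Y : Bool) :
    pv u (KL e k X Y) = KR e k u (mkv X) (mkv Y) := by
  induction e generalizing k with
  | nil => simp [KL, KR, pv]
  | cons l e ih => rw [KL, KR, pv_addL, pv_smulL, ih, Tw.vz_eq]

namespace Cert

variable (C : Cert)

/-- `Z0` as an expression. -/
def Z0E (N : ℕ) (u v t : E) : E :=
  o.ad (o.mu (o.cst (2 * ((N : ℤ) - 1) * ((N : ℤ) - 2)))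
      (o.ad (mainC o C.c u v t false false false)
        (o.ad (mainC o C.c u t v false false false) (mainC o C.c v t u false false false))))
    (o.ad (o.cst (6 * C.s0))
      (o.ad (hor o u (addL (smulL (2 * ((N : ℤ) - 1)) C.r0) (smulL (-(2 * ((N : ℤ) - 1))) C.q0)))
        (o.ad (hor o v (addL (smulL (2 * ((N : ℤ) - 1)) C.r0) (smulL (-(2 * ((N : ℤ) - 1))) C.q0)))
          (hor o t (addL (smulL (2 * ((N : ℤ) - 1)) C.r0) (smulL (-(2 * ((N : ℤ) - 1))) C.q0))))))

/-- `Z1` as an expression. -/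
def Z1E (N : ℕ) (u v t : E) : E :=
  o.ad (o.mu (o.cst (2 * ((N : ℤ) - 1) * ((N : ℤ) - 2)))
      (o.ad (mainC o C.c u v t true false false)
        (o.ad (mainC o C.c u t v false true false) (mainC o C.c v t u false true false))))
    (o.ad (o.cst (6 * C.s0 + 2 * C.s1))
      (o.ad (hor o u (smulL (2 * ((N : ℤ) - 1)) (addL C.r0 C.r1)))
        (o.ad (hor o v (smulL (2 * ((N : ℤ) - 1)) (addL C.r0 C.r1)))
          (hor o t (addL (smulL (2 * ((N : ℤ) - 1)) C.r0)
            (smulL (2 * ((N : ℤ) - 1) * ((N : ℤ) - 3)) C.q0))))))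

/-- `P0` as an expression. -/
def P0E (u : E) : E :=
  o.ad (pairC o C.c u false false)
    (hor o u (addL (KL C.e 0 false false) (smulL (-1) C.r0)))

/-- `P1` as an expression. -/
def P1E (u : E) : E :=
  o.ad (pairC o C.c u true false) (o.ad (pairC o C.c u false true)
    (hor o u (addL (addL (KL C.e 0 true false) (KL C.e 0 false true))
      (smulL (-2) (addL C.r0 C.r1)))))

theorem ev_Z0E {ev : E → ℝ} (H : o.IsEv ev) (N : ℕ) (u v t : E) :
    ev (C.Z0E o N u v t) = C.Z0 N (ev u) (ev v) (ev t) := by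
  simp only [Z0E, Z0, ZR, poleR, H.ad, H.mu, H.cst, ev_hor o H, ev_mainC o H, pv_addL, pv_smulL,
    mkv, r, q, s]
  push_cast
  ring

theorem ev_Z1E {ev : E → ℝ} (H : o.IsEv ev) (N : ℕ) (u v t : E) :
    ev (C.Z1E o N u v t) = C.Z1 N (ev u) (ev v) (ev t) := by
  simp only [Z1E, Z1, ZR, poleR, H.ad, H.mu, H.cst, ev_hor o H, ev_mainC o H, pv_addL, pv_smulL,
    mkv, r, q, s]
  push_cast
  ring

theorem ev_P0E {ev : E → ℝ} (H : o.IsEv ev) (u : E) :
    ev (C.P0E o u) = C.P0 (ev u) := by
  simp only [P0E, P0, H.ad, ev_hor o H, ev_pairC o H, pv_addL, pv_smulL, pv_KL, mkv]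
  push_cast
  ring

theorem ev_P1E {ev : E → ℝ} (H : o.IsEv ev) (u : E) :
    ev (C.P1E o u) = C.P1 (ev u) := by
  simp only [P1E, P1, H.ad, ev_hor o H, ev_pairC o H, pv_addL, pv_smulL, pv_KL, mkv]
  push_cast
  ring

end Cert

end build

end Pool.Agent.SDL
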