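import Pool.Agent.SDL.N16

set_option autoImplicit false
set_option linter.unusedSimpArgs false

/-!
# N15: the total lift of fifteen points of the shell

A two point (Delsarte) certificate of degree nine with lifts.
-/

open scoped RealInnerProductSpace

namespace Pool.Agent.SDL

open Pool.Agent.SDC Leg

theorem Pck.inner_ge {ι : Type} {n : ι → E3} {h : ι → ℝ} (H : Pck n h) (i j : ι) :
    -1 ≤ ⟪n i, n j⟫ := by
  have := abs_real_inner_le_norm (n i) (n j)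
  rw [H.1 i, H.1 j, mul_one, abs_le] at this
  exact this.1

theorem Pck.inner_le' {ι : Type} {n : ι → E3} {h : ι → ℝ} (H : Pck n h) {i j : ι} (hij : i ≠ j)
    (hi : h i - 1 ≤ 0.25841) (hj : h j - 1 ≤ 0.25841) :
    ⟪n i, n j⟫ ≤ (1 + (h i - 1) + (h j - 1)) / 2 - 1.11 * ((h i - 1) * (h j - 1)) := by
  have h1 := H.2.2 i j hij
  obtain ⟨x, hx⟩ : ∃ x, x = h i - 1 := ⟨_, rfl⟩
  obtain ⟨y, hy⟩ : ∃ y, y = h j - 1 := ⟨_, rfl⟩
  have x0 : 0 ≤ x := by linarith [H.2.1 i]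
  have y0 : 0 ≤ y := by linarith [H.2.1 j]
  rw [← hx, ← hy]
  rw [← hx] at hi
  rw [← hy] at hj
  have e1 : h i = 1 + x := by linarith
  have e2 : h j = 1 + y := by linarith
  by_contra hc
  push Not at hc
  rw [e1, e2] at h1
  have p1 : 0 < (1 + x) * (1 + y) := by positivity
  have p2 := mul_lt_mul_of_pos_left hc p1
  have p3 : 0 ≤ x * y * (3 + x + y - 2.22 * ((1 + x) * (1 + y))) := by
    apply mul_nonneg (mul_nonneg x0 y0)
    nlinarith [mul_nonneg (sub_nonneg.mpr hi) (sub_nonneg.mpr hj), mul_nonneg x0 y0]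
  nlinarith

namespace N15

/-- The coefficient `F0` of the kernel. -/
noncomputable def F0 (u : ℝ) : ℝ :=
  (26971 / 10000 : ℝ) * L1 u + (34851 / 10000 : ℝ) * L2 u + (31553 / 10000 : ℝ) * L3 u + (18893 / 10000 : ℝ) * L4 u + (3361 / 5000 : ℝ) * L5 u + (521 / 10000 : ℝ) * L8 u + (1049 / 10000 : ℝ) * L9 u

/-- The coefficient `F1` of the kernel. -/
noncomputable def F1 (u : ℝ) : ℝ :=
  (-10281 / 2500 : ℝ) * L1 u + (-20613 / 5000 : ℝ) * L2 u + (-2489 / 1250 : ℝ) * L3 u + (-1219 / 2500 : ℝ) * L4 u + (4809 / 10000 : ℝ) * L5 u + (-23 / 100 : ℝ) * L8 u + (11 / 2000 : ℝ) * L9 u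

/-- The coefficient `F2` of the kernel. -/
noncomputable def F2 (u : ℝ) : ℝ :=
  (1263 / 200 : ℝ) * L1 u + (5017 / 1000 : ℝ) * L2 u + (13097 / 10000 : ℝ) * L3 u + (16 / 125 : ℝ) * L4 u + (879 / 2500 : ℝ) * L5 u + (127 / 125 : ℝ) * L8 u + (7 / 5000 : ℝ) * L9 u

theorem V1_0 (u : ℝ) (h1 : (-1 : ℝ) ≤ u) (h2 : u ≤ (-29 / 32 : ℝ)) : (F0 u + (9831 / 10000 : ℝ)) ≤ 0 := by
  have h3 : (0:ℝ) ≤ u - (-1 : ℝ) := by linarith
  have h4 : (0:ℝ) ≤ (-29 / 32 : ℝ) - u := by linarith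
  have e : -((F0 u + (9831 / 10000 : ℝ))) = (1611884046319616 / 4100625 : ℝ) * ((-29 / 32 : ℝ) - u) ^ 9
      + (10927702471081984 / 4100625 : ℝ) * (u - (-1 : ℝ)) ^ 1 * ((-29 / 32 : ℝ) - u) ^ 8
      + (6480900564975616 / 820125 : ℝ) * (u - (-1 : ℝ)) ^ 2 * ((-29 / 32 : ℝ) - u) ^ 7
      + (55021852816310272 / 4100625 : ℝ) * (u - (-1 : ℝ)) ^ 3 * ((-29 / 32 : ℝ) - u) ^ 6
      + (11754274252128256 / 820125 : ℝ) * (u - (-1 : ℝ)) ^ 4 * ((-29 / 32 : ℝ) - u) ^ 5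
      + (40806931785097216 / 4100625 : ℝ) * (u - (-1 : ℝ)) ^ 5 * ((-29 / 32 : ℝ) - u) ^ 4
      + (3669927841209856 / 820125 : ℝ) * (u - (-1 : ℝ)) ^ 6 * ((-29 / 32 : ℝ) - u) ^ 3
      + (5139815373908908 / 4100625 : ℝ) * (u - (-1 : ℝ)) ^ 7 * ((-29 / 32 : ℝ) - u) ^ 2
      + (65267859934933 / 328050 : ℝ) * (u - (-1 : ℝ)) ^ 8 * ((-29 / 32 : ℝ) - u) ^ 1
      + (12957718716544117 / 933120000 : ℝ) * (u - (-1 : ℝ)) ^ 9 := by
    simp only [F0, F1, F2, L1, L2, L3, L4, L5, L8, L9]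
    ring
  have h5 : 0 ≤ -((F0 u + (9831 / 10000 : ℝ))) := by
    rw [e]
    positivity
  linarith

theorem V1_1 (u : ℝ) (h1 : (-29 / 32 : ℝ) ≤ u) (h2 : u ≤ (-13 / 16 : ℝ)) : (F0 u + (9831 / 10000 : ℝ)) ≤ 0 := by
  have h3 : (0:ℝ) ≤ u - (-29 / 32 : ℝ) := by linarith
  have h4 : (0:ℝ) ≤ (-13 / 16 : ℝ) - u := by linarith
  have e : -((F0 u + (9831 / 10000 : ℝ))) = (12957718716544117 / 933120000 : ℝ) * ((-13 / 16 : ℝ) - u) ^ 9
      + (214146608872931077 / 4199040000 : ℝ) * (u - (-29 / 32 : ℝ)) ^ 1 * ((-13 / 16 : ℝ) - u) ^ 8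
      + (36614369566128901 / 524880000 : ℝ) * (u - (-29 / 32 : ℝ)) ^ 2 * ((-13 / 16 : ℝ) - u) ^ 7
      + (31906253092068961 / 262440000 : ℝ) * (u - (-29 / 32 : ℝ)) ^ 3 * ((-13 / 16 : ℝ) - u) ^ 6
      + (105793685735191331 / 262440000 : ℝ) * (u - (-29 / 32 : ℝ)) ^ 4 * ((-13 / 16 : ℝ) - u) ^ 5
      + (105998026930316579 / 131220000 : ℝ) * (u - (-29 / 32 : ℝ)) ^ 5 * ((-13 / 16 : ℝ) - u) ^ 4
      + (28868261536223329 / 32805000 : ℝ) * (u - (-29 / 32 : ℝ)) ^ 6 * ((-13 / 16 : ℝ) - u) ^ 3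
      + (8818039631393029 / 16402500 : ℝ) * (u - (-29 / 32 : ℝ)) ^ 7 * ((-13 / 16 : ℝ) - u) ^ 2
      + (5739537777160453 / 32805000 : ℝ) * (u - (-29 / 32 : ℝ)) ^ 8 * ((-13 / 16 : ℝ) - u) ^ 1
      + (389532293158429 / 16402500 : ℝ) * (u - (-29 / 32 : ℝ)) ^ 9 := by
    simp only [F0, F1, F2, L1, L2, L3, L4, L5, L8, L9]
    ring
  have h5 : 0 ≤ -((F0 u + (9831 / 10000 : ℝ))) := by
    rw [e]
    positivity
  linarith

theorem V1_2 (u : ℝ) (h1 : (-13 / 16 : ℝ) ≤ u) (h2 : u ≤ (-5 / 8 : ℝ)) : (F0 u + (9831 / 10000 : ℝ)) ≤ 0 := by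
  have h3 : (0:ℝ) ≤ u - (-13 / 16 : ℝ) := by linarith
  have h4 : (0:ℝ) ≤ (-5 / 8 : ℝ) - u := by linarith
  have e : -((F0 u + (9831 / 10000 : ℝ))) = (389532293158429 / 8398080000 : ℝ) * ((-5 / 8 : ℝ) - u) ^ 9
      + (477783413811713 / 839808000 : ℝ) * (u - (-13 / 16 : ℝ)) ^ 1 * ((-5 / 8 : ℝ) - u) ^ 8
      + (296646435713153 / 104976000 : ℝ) * (u - (-13 / 16 : ℝ)) ^ 2 * ((-5 / 8 : ℝ) - u) ^ 7
      + (1948062622843873 / 262440000 : ℝ) * (u - (-13 / 16 : ℝ)) ^ 3 * ((-5 / 8 : ℝ) - u) ^ 6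
      + (3040770296687651 / 262440000 : ℝ) * (u - (-13 / 16 : ℝ)) ^ 4 * ((-5 / 8 : ℝ) - u) ^ 5
      + (297508028028679 / 26244000 : ℝ) * (u - (-13 / 16 : ℝ)) ^ 5 * ((-5 / 8 : ℝ) - u) ^ 4
      + (46183856394797 / 6561000 : ℝ) * (u - (-13 / 16 : ℝ)) ^ 6 * ((-5 / 8 : ℝ) - u) ^ 3
      + (44276178749317 / 16402500 : ℝ) * (u - (-13 / 16 : ℝ)) ^ 7 * ((-5 / 8 : ℝ) - u) ^ 2
      + (19163571239173 / 32805000 : ℝ) * (u - (-13 / 16 : ℝ)) ^ 8 * ((-5 / 8 : ℝ) - u) ^ 1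
      + (298966700639 / 5467500 : ℝ) * (u - (-13 / 16 : ℝ)) ^ 9 := by
    simp only [F0, F1, F2, L1, L2, L3, L4, L5, L8, L9]
    ring
  have h5 : 0 ≤ -((F0 u + (9831 / 10000 : ℝ))) := by
    rw [e]
    positivity
  linarith

theorem V1_3 (u : ℝ) (h1 : (-5 / 8 : ℝ) ≤ u) (h2 : u ≤ (-1 / 4 : ℝ)) : (F0 u + (9831 / 10000 : ℝ)) ≤ 0 := by
  have h3 : (0:ℝ) ≤ u - (-5 / 8 : ℝ) := by linarith
  have h4 : (0:ℝ) ≤ (-1 / 4 : ℝ) - u := by linarith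
  have e : -((F0 u + (9831 / 10000 : ℝ))) = (298966700639 / 2799360000 : ℝ) * ((-1 / 4 : ℝ) - u) ^ 9
      + (2526365756293 / 4199040000 : ℝ) * (u - (-5 / 8 : ℝ)) ^ 1 * ((-1 / 4 : ℝ) - u) ^ 8
      + (485914892389 / 524880000 : ℝ) * (u - (-5 / 8 : ℝ)) ^ 2 * ((-1 / 4 : ℝ) - u) ^ 7
      + (14730185089 / 262440000 : ℝ) * (u - (-5 / 8 : ℝ)) ^ 3 * ((-1 / 4 : ℝ) - u) ^ 6
      + (3932474339 / 262440000 : ℝ) * (u - (-5 / 8 : ℝ)) ^ 4 * ((-1 / 4 : ℝ) - u) ^ 5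
      + (250709559011 / 131220000 : ℝ) * (u - (-5 / 8 : ℝ)) ^ 5 * ((-1 / 4 : ℝ) - u) ^ 4
      + (85561595521 / 32805000 : ℝ) * (u - (-5 / 8 : ℝ)) ^ 6 * ((-1 / 4 : ℝ) - u) ^ 3
      + (22230997861 / 16402500 : ℝ) * (u - (-5 / 8 : ℝ)) ^ 7 * ((-1 / 4 : ℝ) - u) ^ 2
      + (9989681797 / 32805000 : ℝ) * (u - (-5 / 8 : ℝ)) ^ 8 * ((-1 / 4 : ℝ) - u) ^ 1
      + (435679261 / 16402500 : ℝ) * (u - (-5 / 8 : ℝ)) ^ 9 := by
    simp only [F0, F1, F2, L1, L2, L3, L4, L5, L8, L9]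
    ring
  have h5 : 0 ≤ -((F0 u + (9831 / 10000 : ℝ))) := by
    rw [e]
    positivity
  linarith

theorem V1_4 (u : ℝ) (h1 : (-1 / 4 : ℝ) ≤ u) (h2 : u ≤ (1 / 8 : ℝ)) : (F0 u + (9831 / 10000 : ℝ)) ≤ 0 := by
  have h3 : (0:ℝ) ≤ u - (-1 / 4 : ℝ) := by linarith
  have h4 : (0:ℝ) ≤ (1 / 8 : ℝ) - u := by linarith
  have e : -((F0 u + (9831 / 10000 : ℝ))) = (435679261 / 16402500 : ℝ) * ((1 / 8 : ℝ) - u) ^ 9
      + (5694771599 / 32805000 : ℝ) * (u - (-1 / 4 : ℝ)) ^ 1 * ((1 / 8 : ℝ) - u) ^ 8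
      + (5051357069 / 16402500 : ℝ) * (u - (-1 / 4 : ℝ)) ^ 2 * ((1 / 8 : ℝ) - u) ^ 7
      + (3614910107 / 32805000 : ℝ) * (u - (-1 / 4 : ℝ)) ^ 3 * ((1 / 8 : ℝ) - u) ^ 6
      + (208108877779 / 131220000 : ℝ) * (u - (-1 / 4 : ℝ)) ^ 4 * ((1 / 8 : ℝ) - u) ^ 5
      + (2134554857593 / 262440000 : ℝ) * (u - (-1 / 4 : ℝ)) ^ 5 * ((1 / 8 : ℝ) - u) ^ 4
      + (3974242751321 / 262440000 : ℝ) * (u - (-1 / 4 : ℝ)) ^ 6 * ((1 / 8 : ℝ) - u) ^ 3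
      + (7047363272663 / 524880000 : ℝ) * (u - (-1 / 4 : ℝ)) ^ 7 * ((1 / 8 : ℝ) - u) ^ 2
      + (24081752045477 / 4199040000 : ℝ) * (u - (-1 / 4 : ℝ)) ^ 8 * ((1 / 8 : ℝ) - u) ^ 1
      + (7937099935927 / 8398080000 : ℝ) * (u - (-1 / 4 : ℝ)) ^ 9 := by
    simp only [F0, F1, F2, L1, L2, L3, L4, L5, L8, L9]
    ring
  have h5 : 0 ≤ -((F0 u + (9831 / 10000 : ℝ))) := by
    rw [e]
    positivity
  linarith

theorem V1_5 (u : ℝ) (h1 : (1 / 8 : ℝ) ≤ u) (h2 : u ≤ (1 / 2 : ℝ)) : (F0 u + (9831 / 10000 : ℝ)) ≤ 0 := by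
  have h3 : (0:ℝ) ≤ u - (1 / 8 : ℝ) := by linarith
  have h4 : (0:ℝ) ≤ (1 / 2 : ℝ) - u := by linarith
  have e : -((F0 u + (9831 / 10000 : ℝ))) = (7937099935927 / 8398080000 : ℝ) * ((1 / 2 : ℝ) - u) ^ 9
      + (23676073688933 / 2099520000 : ℝ) * (u - (1 / 8 : ℝ)) ^ 1 * ((1 / 2 : ℝ) - u) ^ 8
      + (7579439651263 / 131220000 : ℝ) * (u - (1 / 8 : ℝ)) ^ 2 * ((1 / 2 : ℝ) - u) ^ 7
      + (5433016811681 / 32805000 : ℝ) * (u - (1 / 8 : ℝ)) ^ 3 * ((1 / 2 : ℝ) - u) ^ 6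
      + (4761321123977 / 16402500 : ℝ) * (u - (1 / 8 : ℝ)) ^ 4 * ((1 / 2 : ℝ) - u) ^ 5
      + (1304024572771 / 4100625 : ℝ) * (u - (1 / 8 : ℝ)) ^ 5 * ((1 / 2 : ℝ) - u) ^ 4
      + (870950122136 / 4100625 : ℝ) * (u - (1 / 8 : ℝ)) ^ 6 * ((1 / 2 : ℝ) - u) ^ 3
      + (324215897248 / 4100625 : ℝ) * (u - (1 / 8 : ℝ)) ^ 7 * ((1 / 2 : ℝ) - u) ^ 2
      + (51696131552 / 4100625 : ℝ) * (u - (1 / 8 : ℝ)) ^ 8 * ((1 / 2 : ℝ) - u) ^ 1
      + (19603328 / 1366875 : ℝ) * (u - (1 / 8 : ℝ)) ^ 9 := by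
    simp only [F0, F1, F2, L1, L2, L3, L4, L5, L8, L9]
    ring
  have h5 : 0 ≤ -((F0 u + (9831 / 10000 : ℝ))) := by
    rw [e]
    positivity
  linarith

theorem V1 (u : ℝ) (h1 : (-1 : ℝ) ≤ u) (h2 : u ≤ (1 / 2 : ℝ)) : (F0 u + (9831 / 10000 : ℝ)) ≤ 0 := by
  rcases le_total u (-29 / 32 : ℝ) with h | h
  · exact V1_0 u (by linarith) h
  rcases le_total u (-13 / 16 : ℝ) with h | h
  · exact V1_1 u (by linarith) h
  rcases le_total u (-5 / 8 : ℝ) with h | h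
  · exact V1_2 u (by linarith) h
  rcases le_total u (-1 / 4 : ℝ) with h | h
  · exact V1_3 u (by linarith) h
  rcases le_total u (1 / 8 : ℝ) with h | h
  · exact V1_4 u (by linarith) h
  exact V1_5 u (by linarith) h2

theorem V2_0 (u : ℝ) (h1 : (-1 : ℝ) ≤ u) (h2 : u ≤ (-29 / 32 : ℝ)) : (F0 u + (9831 / 10000 : ℝ)) + (25841 / 100000 : ℝ) * (F1 u - (19799 / 10000 : ℝ) - (-1201 / 2000 : ℝ) * (25841 / 100000 : ℝ)) ≤ 0 := by
  have h3 : (0:ℝ) ≤ u - (-1 : ℝ) := by linarith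
  have h4 : (0:ℝ) ≤ (-29 / 32 : ℝ) - u := by linarith
  have e : -((F0 u + (9831 / 10000 : ℝ)) + (25841 / 100000 : ℝ) * (F1 u - (19799 / 10000 : ℝ) - (-1201 / 2000 : ℝ) * (25841 / 100000 : ℝ))) = (21072937675907831693312 / 24027099609375 : ℝ) * ((-29 / 32 : ℝ) - u) ^ 9
      + (50357881175035070119936 / 8009033203125 : ℝ) * (u - (-1 : ℝ)) ^ 1 * ((-29 / 32 : ℝ) - u) ^ 8
      + (159205500118069353119744 / 8009033203125 : ℝ) * (u - (-1 : ℝ)) ^ 2 * ((-29 / 32 : ℝ) - u) ^ 7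
      + (10781161462026645536768 / 296630859375 : ℝ) * (u - (-1 : ℝ)) ^ 3 * ((-29 / 32 : ℝ) - u) ^ 6
      + (338916399345535681839104 / 8009033203125 : ℝ) * (u - (-1 : ℝ)) ^ 4 * ((-29 / 32 : ℝ) - u) ^ 5
      + (260326549929767761199104 / 8009033203125 : ℝ) * (u - (-1 : ℝ)) ^ 5 * ((-29 / 32 : ℝ) - u) ^ 4
      + (131782864912140044435236 / 8009033203125 : ℝ) * (u - (-1 : ℝ)) ^ 6 * ((-29 / 32 : ℝ) - u) ^ 3
      + (84705327531007571190113 / 16018066406250 : ℝ) * (u - (-1 : ℝ)) ^ 7 * ((-29 / 32 : ℝ) - u) ^ 2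
      + (16045744076047337106980803 / 16402500000000000 : ℝ) * (u - (-1 : ℝ)) ^ 8 * ((-29 / 32 : ℝ) - u) ^ 1
      + (124936221450305819170860857 / 1574640000000000000 : ℝ) * (u - (-1 : ℝ)) ^ 9 := by
    simp only [F0, F1, F2, L1, L2, L3, L4, L5, L8, L9]
    ring
  have h5 : 0 ≤ -((F0 u + (9831 / 10000 : ℝ)) + (25841 / 100000 : ℝ) * (F1 u - (19799 / 10000 : ℝ) - (-1201 / 2000 : ℝ) * (25841 / 100000 : ℝ))) := by
    rw [e]
    positivity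
  linarith

theorem V2_1 (u : ℝ) (h1 : (-29 / 32 : ℝ) ≤ u) (h2 : u ≤ (-13 / 16 : ℝ)) : (F0 u + (9831 / 10000 : ℝ)) + (25841 / 100000 : ℝ) * (F1 u - (19799 / 10000 : ℝ) - (-1201 / 2000 : ℝ) * (25841 / 100000 : ℝ)) ≤ 0 := by
  have h3 : (0:ℝ) ≤ u - (-29 / 32 : ℝ) := by linarith
  have h4 : (0:ℝ) ≤ (-13 / 16 : ℝ) - u := by linarith
  have e : -((F0 u + (9831 / 10000 : ℝ)) + (25841 / 100000 : ℝ) * (F1 u - (19799 / 10000 : ℝ) - (-1201 / 2000 : ℝ) * (25841 / 100000 : ℝ))) = (124936221450305819170860857 / 1574640000000000000 : ℝ) * ((-13 / 16 : ℝ) - u) ^ 9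
      + (118076759134160063800889723 / 262440000000000000 : ℝ) * (u - (-29 / 32 : ℝ)) ^ 1 * ((-13 / 16 : ℝ) - u) ^ 8
      + (34821364700906175886548299 / 32805000000000000 : ℝ) * (u - (-29 / 32 : ℝ)) ^ 2 * ((-13 / 16 : ℝ) - u) ^ 7
      + (7291493926433569264090901 / 5467500000000000 : ℝ) * (u - (-29 / 32 : ℝ)) ^ 3 * ((-13 / 16 : ℝ) - u) ^ 6
      + (15633843469773065044843117 / 16402500000000000 : ℝ) * (u - (-29 / 32 : ℝ)) ^ 4 * ((-13 / 16 : ℝ) - u) ^ 5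
      + (3353980864267834868110621 / 8201250000000000 : ℝ) * (u - (-29 / 32 : ℝ)) ^ 5 * ((-13 / 16 : ℝ) - u) ^ 4
      + (321081185596677294839791 / 2050312500000000 : ℝ) * (u - (-29 / 32 : ℝ)) ^ 6 * ((-13 / 16 : ℝ) - u) ^ 3
      + (94996739055062944854107 / 1025156250000000 : ℝ) * (u - (-29 / 32 : ℝ)) ^ 7 * ((-13 / 16 : ℝ) - u) ^ 2
      + (86789282708497553640491 / 2050312500000000 : ℝ) * (u - (-29 / 32 : ℝ)) ^ 8 * ((-13 / 16 : ℝ) - u) ^ 1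
      + (23759924231288363899561 / 3075468750000000 : ℝ) * (u - (-29 / 32 : ℝ)) ^ 9 := by
    simp only [F0, F1, F2, L1, L2, L3, L4, L5, L8, L9]
    ring
  have h5 : 0 ≤ -((F0 u + (9831 / 10000 : ℝ)) + (25841 / 100000 : ℝ) * (F1 u - (19799 / 10000 : ℝ) - (-1201 / 2000 : ℝ) * (25841 / 100000 : ℝ))) := by
    rw [e]
    positivity
  linarith

theorem V2_2 (u : ℝ) (h1 : (-13 / 16 : ℝ) ≤ u) (h2 : u ≤ (-5 / 8 : ℝ)) : (F0 u + (9831 / 10000 : ℝ)) + (25841 / 100000 : ℝ) * (F1 u - (19799 / 10000 : ℝ) - (-1201 / 2000 : ℝ) * (25841 / 100000 : ℝ)) ≤ 0 := by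
  have h3 : (0:ℝ) ≤ u - (-13 / 16 : ℝ) := by linarith
  have h4 : (0:ℝ) ≤ (-5 / 8 : ℝ) - u := by linarith
  have e : -((F0 u + (9831 / 10000 : ℝ)) + (25841 / 100000 : ℝ) * (F1 u - (19799 / 10000 : ℝ) - (-1201 / 2000 : ℝ) * (25841 / 100000 : ℝ))) = (23759924231288363899561 / 1574640000000000000 : ℝ) * ((-5 / 8 : ℝ) - u) ^ 9
      + (63525017686548860727779 / 262440000000000000 : ℝ) * (u - (-13 / 16 : ℝ)) ^ 1 * ((-5 / 8 : ℝ) - u) ^ 8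
      + (53944749262215862074827 / 32805000000000000 : ℝ) * (u - (-13 / 16 : ℝ)) ^ 2 * ((-5 / 8 : ℝ) - u) ^ 7
      + (87093900454724930595319 / 16402500000000000 : ℝ) * (u - (-13 / 16 : ℝ)) ^ 3 * ((-5 / 8 : ℝ) - u) ^ 6
      + (156672433462412615604541 / 16402500000000000 : ℝ) * (u - (-13 / 16 : ℝ)) ^ 4 * ((-5 / 8 : ℝ) - u) ^ 5
      + (85220720965140954781333 / 8201250000000000 : ℝ) * (u - (-13 / 16 : ℝ)) ^ 5 * ((-5 / 8 : ℝ) - u) ^ 4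
      + (1601091023556318629527 / 227812500000000 : ℝ) * (u - (-13 / 16 : ℝ)) ^ 6 * ((-5 / 8 : ℝ) - u) ^ 3
      + (2972550180690460201811 / 1025156250000000 : ℝ) * (u - (-13 / 16 : ℝ)) ^ 7 * ((-5 / 8 : ℝ) - u) ^ 2
      + (1373479029496064726843 / 2050312500000000 : ℝ) * (u - (-13 / 16 : ℝ)) ^ 8 * ((-5 / 8 : ℝ) - u) ^ 1
      + (204762890471050233953 / 3075468750000000 : ℝ) * (u - (-13 / 16 : ℝ)) ^ 9 := by
    simp only [F0, F1, F2, L1, L2, L3, L4, L5, L8, L9]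
    ring
  have h5 : 0 ≤ -((F0 u + (9831 / 10000 : ℝ)) + (25841 / 100000 : ℝ) * (F1 u - (19799 / 10000 : ℝ) - (-1201 / 2000 : ℝ) * (25841 / 100000 : ℝ))) := by
    rw [e]
    positivity
  linarith

theorem V2_3 (u : ℝ) (h1 : (-5 / 8 : ℝ) ≤ u) (h2 : u ≤ (-1 / 4 : ℝ)) : (F0 u + (9831 / 10000 : ℝ)) + (25841 / 100000 : ℝ) * (F1 u - (19799 / 10000 : ℝ) - (-1201 / 2000 : ℝ) * (25841 / 100000 : ℝ)) ≤ 0 := by
  have h3 : (0:ℝ) ≤ u - (-5 / 8 : ℝ) := by linarith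
  have h4 : (0:ℝ) ≤ (-1 / 4 : ℝ) - u := by linarith
  have e : -((F0 u + (9831 / 10000 : ℝ)) + (25841 / 100000 : ℝ) * (F1 u - (19799 / 10000 : ℝ) - (-1201 / 2000 : ℝ) * (25841 / 100000 : ℝ))) = (204762890471050233953 / 1574640000000000000 : ℝ) * ((-1 / 4 : ℝ) - u) ^ 9
      + (234693492371693689367 / 262440000000000000 : ℝ) * (u - (-5 / 8 : ℝ)) ^ 1 * ((-1 / 4 : ℝ) - u) ^ 8
      + (65068511608107039371 / 32805000000000000 : ℝ) * (u - (-5 / 8 : ℝ)) ^ 2 * ((-1 / 4 : ℝ) - u) ^ 7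
      + (7697584302883874929 / 5467500000000000 : ℝ) * (u - (-5 / 8 : ℝ)) ^ 3 * ((-1 / 4 : ℝ) - u) ^ 6
      + (2670501632449347493 / 16402500000000000 : ℝ) * (u - (-5 / 8 : ℝ)) ^ 4 * ((-1 / 4 : ℝ) - u) ^ 5
      + (6219272820095657809 / 8201250000000000 : ℝ) * (u - (-5 / 8 : ℝ)) ^ 5 * ((-1 / 4 : ℝ) - u) ^ 4
      + (3101603335866842239 / 2050312500000000 : ℝ) * (u - (-5 / 8 : ℝ)) ^ 6 * ((-1 / 4 : ℝ) - u) ^ 3
      + (945687315728650703 / 1025156250000000 : ℝ) * (u - (-5 / 8 : ℝ)) ^ 7 * ((-1 / 4 : ℝ) - u) ^ 2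
      + (461544120561657539 / 2050312500000000 : ℝ) * (u - (-5 / 8 : ℝ)) ^ 8 * ((-1 / 4 : ℝ) - u) ^ 1
      + (64994877335179069 / 3075468750000000 : ℝ) * (u - (-5 / 8 : ℝ)) ^ 9 := by
    simp only [F0, F1, F2, L1, L2, L3, L4, L5, L8, L9]
    ring
  have h5 : 0 ≤ -((F0 u + (9831 / 10000 : ℝ)) + (25841 / 100000 : ℝ) * (F1 u - (19799 / 10000 : ℝ) - (-1201 / 2000 : ℝ) * (25841 / 100000 : ℝ))) := by
    rw [e]
    positivity
  linarith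

theorem V2_4 (u : ℝ) (h1 : (-1 / 4 : ℝ) ≤ u) (h2 : u ≤ (1 / 8 : ℝ)) : (F0 u + (9831 / 10000 : ℝ)) + (25841 / 100000 : ℝ) * (F1 u - (19799 / 10000 : ℝ) - (-1201 / 2000 : ℝ) * (25841 / 100000 : ℝ)) ≤ 0 := by
  have h3 : (0:ℝ) ≤ u - (-1 / 4 : ℝ) := by linarith
  have h4 : (0:ℝ) ≤ (1 / 8 : ℝ) - u := by linarith
  have e : -((F0 u + (9831 / 10000 : ℝ)) + (25841 / 100000 : ℝ) * (F1 u - (19799 / 10000 : ℝ) - (-1201 / 2000 : ℝ) * (25841 / 100000 : ℝ))) = (64994877335179069 / 3075468750000000 : ℝ) * ((1 / 8 : ℝ) - u) ^ 9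
      + (318394407460491289 / 2050312500000000 : ℝ) * (u - (-1 / 4 : ℝ)) ^ 1 * ((1 / 8 : ℝ) - u) ^ 8
      + (373088463323985703 / 1025156250000000 : ℝ) * (u - (-1 / 4 : ℝ)) ^ 2 * ((1 / 8 : ℝ) - u) ^ 7
      + (89156116421106221 / 227812500000000 : ℝ) * (u - (-1 / 4 : ℝ)) ^ 3 * ((1 / 8 : ℝ) - u) ^ 6
      + (15169585375572867809 / 8201250000000000 : ℝ) * (u - (-1 / 4 : ℝ)) ^ 4 * ((1 / 8 : ℝ) - u) ^ 5
      + (131839050000973833743 / 16402500000000000 : ℝ) * (u - (-1 / 4 : ℝ)) ^ 5 * ((1 / 8 : ℝ) - u) ^ 4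
      + (249413255058193489787 / 16402500000000000 : ℝ) * (u - (-1 / 4 : ℝ)) ^ 6 * ((1 / 8 : ℝ) - u) ^ 3
      + (461166161103861438121 / 32805000000000000 : ℝ) * (u - (-1 / 4 : ℝ)) ^ 7 * ((1 / 8 : ℝ) - u) ^ 2
      + (1657336419885484869367 / 262440000000000000 : ℝ) * (u - (-1 / 4 : ℝ)) ^ 8 * ((1 / 8 : ℝ) - u) ^ 1
      + (1737395997321038265203 / 1574640000000000000 : ℝ) * (u - (-1 / 4 : ℝ)) ^ 9 := by
    simp only [F0, F1, F2, L1, L2, L3, L4, L5, L8, L9]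
    ring
  have h5 : 0 ≤ -((F0 u + (9831 / 10000 : ℝ)) + (25841 / 100000 : ℝ) * (F1 u - (19799 / 10000 : ℝ) - (-1201 / 2000 : ℝ) * (25841 / 100000 : ℝ))) := by
    rw [e]
    positivity
  linarith

theorem V2_5 (u : ℝ) (h1 : (1 / 8 : ℝ) ≤ u) (h2 : u ≤ (1 / 2 : ℝ)) : (F0 u + (9831 / 10000 : ℝ)) + (25841 / 100000 : ℝ) * (F1 u - (19799 / 10000 : ℝ) - (-1201 / 2000 : ℝ) * (25841 / 100000 : ℝ)) ≤ 0 := by
  have h3 : (0:ℝ) ≤ u - (1 / 8 : ℝ) := by linarith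
  have h4 : (0:ℝ) ≤ (1 / 2 : ℝ) - u := by linarith
  have e : -((F0 u + (9831 / 10000 : ℝ)) + (25841 / 100000 : ℝ) * (F1 u - (19799 / 10000 : ℝ) - (-1201 / 2000 : ℝ) * (25841 / 100000 : ℝ))) = (1737395997321038265203 / 1574640000000000000 : ℝ) * ((1 / 2 : ℝ) - u) ^ 9
      + (1777425786038814963121 / 131220000000000000 : ℝ) * (u - (1 / 8 : ℝ)) ^ 1 * ((1 / 2 : ℝ) - u) ^ 8
      + (589670328324001623749 / 8201250000000000 : ℝ) * (u - (1 / 8 : ℝ)) ^ 2 * ((1 / 2 : ℝ) - u) ^ 7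
      + (147465288113237931163 / 683437500000000 : ℝ) * (u - (1 / 8 : ℝ)) ^ 3 * ((1 / 2 : ℝ) - u) ^ 6
      + (411734683913316224023 / 1025156250000000 : ℝ) * (u - (1 / 8 : ℝ)) ^ 4 * ((1 / 2 : ℝ) - u) ^ 5
      + (122556266809488294287 / 256289062500000 : ℝ) * (u - (1 / 8 : ℝ)) ^ 5 * ((1 / 2 : ℝ) - u) ^ 4
      + (11582361322238650201 / 32036132812500 : ℝ) * (u - (1 / 8 : ℝ)) ^ 6 * ((1 / 2 : ℝ) - u) ^ 3
      + (1326908051805507901 / 8009033203125 : ℝ) * (u - (1 / 8 : ℝ)) ^ 7 * ((1 / 2 : ℝ) - u) ^ 2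
      + (329013229180530569 / 8009033203125 : ℝ) * (u - (1 / 8 : ℝ)) ^ 8 * ((1 / 2 : ℝ) - u) ^ 1
      + (97503010340959148 / 24027099609375 : ℝ) * (u - (1 / 8 : ℝ)) ^ 9 := by
    simp only [F0, F1, F2, L1, L2, L3, L4, L5, L8, L9]
    ring
  have h5 : 0 ≤ -((F0 u + (9831 / 10000 : ℝ)) + (25841 / 100000 : ℝ) * (F1 u - (19799 / 10000 : ℝ) - (-1201 / 2000 : ℝ) * (25841 / 100000 : ℝ))) := by
    rw [e]
    positivity
  linarith

theorem V2 (u : ℝ) (h1 : (-1 : ℝ) ≤ u) (h2 : u ≤ (1 / 2 : ℝ)) : (F0 u + (9831 / 10000 : ℝ)) + (25841 / 100000 : ℝ) * (F1 u - (19799 / 10000 : ℝ) - (-1201 / 2000 : ℝ) * (25841 / 100000 : ℝ)) ≤ 0 := by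
  rcases le_total u (-29 / 32 : ℝ) with h | h
  · exact V2_0 u (by linarith) h
  rcases le_total u (-13 / 16 : ℝ) with h | h
  · exact V2_1 u (by linarith) h
  rcases le_total u (-5 / 8 : ℝ) with h | h
  · exact V2_2 u (by linarith) h
  rcases le_total u (-1 / 4 : ℝ) with h | h
  · exact V2_3 u (by linarith) h
  rcases le_total u (1 / 8 : ℝ) with h | h
  · exact V2_4 u (by linarith) h
  exact V2_5 u (by linarith) h2

theorem V3_0 (u : ℝ) (h1 : (-1 : ℝ) ≤ u) (h2 : u ≤ (-13 / 16 : ℝ)) : (F0 u + (9831 / 10000 : ℝ)) + 2 * (25841 / 100000 : ℝ) * (F1 u - (19799 / 10000 : ℝ) - (-1201 / 2000 : ℝ) * (25841 / 100000 : ℝ)) + (25841 / 100000 : ℝ) ^ 2 * (F2 u - (-2677 / 1000 : ℝ)) ≤ 0 := by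
  have h3 : (0:ℝ) ≤ u - (-1 : ℝ) := by linarith
  have h4 : (0:ℝ) ≤ (-13 / 16 : ℝ) - u := by linarith
  have e : -((F0 u + (9831 / 10000 : ℝ)) + 2 * (25841 / 100000 : ℝ) * (F1 u - (19799 / 10000 : ℝ) - (-1201 / 2000 : ℝ) * (25841 / 100000 : ℝ)) + (25841 / 100000 : ℝ) ^ 2 * (F2 u - (-2677 / 1000 : ℝ))) = (295252984192814809088 / 120135498046875 : ℝ) * ((-13 / 16 : ℝ) - u) ^ 9
      + (578377123528668348416 / 40045166015625 : ℝ) * (u - (-1 : ℝ)) ^ 1 * ((-13 / 16 : ℝ) - u) ^ 8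
      + (1475467823290857644032 / 40045166015625 : ℝ) * (u - (-1 : ℝ)) ^ 2 * ((-13 / 16 : ℝ) - u) ^ 7
      + (85316107377008522752 / 1601806640625 : ℝ) * (u - (-1 : ℝ)) ^ 3 * ((-13 / 16 : ℝ) - u) ^ 6
      + (1910784508752778331248 / 40045166015625 : ℝ) * (u - (-1 : ℝ)) ^ 4 * ((-13 / 16 : ℝ) - u) ^ 5
      + (1088278481184042818381 / 40045166015625 : ℝ) * (u - (-1 : ℝ)) ^ 5 * ((-13 / 16 : ℝ) - u) ^ 4
      + (4141641636319448671919 / 427148437500000 : ℝ) * (u - (-1 : ℝ)) ^ 6 * ((-13 / 16 : ℝ) - u) ^ 3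
      + (2636050106801375427949 / 1281445312500000 : ℝ) * (u - (-1 : ℝ)) ^ 7 * ((-13 / 16 : ℝ) - u) ^ 2
      + (124870373525851431567443 / 524880000000000000 : ℝ) * (u - (-1 : ℝ)) ^ 8 * ((-13 / 16 : ℝ) - u) ^ 1
      + (1700219580907851965128409 / 125971200000000000000 : ℝ) * (u - (-1 : ℝ)) ^ 9 := by
    simp only [F0, F1, F2, L1, L2, L3, L4, L5, L8, L9]
    ring
  have h5 : 0 ≤ -((F0 u + (9831 / 10000 : ℝ)) + 2 * (25841 / 100000 : ℝ) * (F1 u - (19799 / 10000 : ℝ) - (-1201 / 2000 : ℝ) * (25841 / 100000 : ℝ)) + (25841 / 100000 : ℝ) ^ 2 * (F2 u - (-2677 / 1000 : ℝ))) := by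
    rw [e]
    positivity
  linarith

theorem V3_1 (u : ℝ) (h1 : (-13 / 16 : ℝ) ≤ u) (h2 : u ≤ (-5 / 8 : ℝ)) : (F0 u + (9831 / 10000 : ℝ)) + 2 * (25841 / 100000 : ℝ) * (F1 u - (19799 / 10000 : ℝ) - (-1201 / 2000 : ℝ) * (25841 / 100000 : ℝ)) + (25841 / 100000 : ℝ) ^ 2 * (F2 u - (-2677 / 1000 : ℝ)) ≤ 0 := by
  have h3 : (0:ℝ) ≤ u - (-13 / 16 : ℝ) := by linarith
  have h4 : (0:ℝ) ≤ (-5 / 8 : ℝ) - u := by linarith
  have e : -((F0 u + (9831 / 10000 : ℝ)) + 2 * (25841 / 100000 : ℝ) * (F1 u - (19799 / 10000 : ℝ) - (-1201 / 2000 : ℝ) * (25841 / 100000 : ℝ)) + (25841 / 100000 : ℝ) ^ 2 * (F2 u - (-2677 / 1000 : ℝ))) = (1700219580907851965128409 / 125971200000000000000 : ℝ) * ((-5 / 8 : ℝ) - u) ^ 9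
      + (105843801689498632687507 / 20995200000000000000 : ℝ) * (u - (-13 / 16 : ℝ)) ^ 1 * ((-5 / 8 : ℝ) - u) ^ 8
      + (509659479384658246429339 / 2624400000000000000 : ℝ) * (u - (-13 / 16 : ℝ)) ^ 2 * ((-5 / 8 : ℝ) - u) ^ 7
      + (2005123703447734731956519 / 1312200000000000000 : ℝ) * (u - (-13 / 16 : ℝ)) ^ 3 * ((-5 / 8 : ℝ) - u) ^ 6
      + (1115102165379391190741641 / 262440000000000000 : ℝ) * (u - (-13 / 16 : ℝ)) ^ 4 * ((-5 / 8 : ℝ) - u) ^ 5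
      + (4093791336505734004365797 / 656100000000000000 : ℝ) * (u - (-13 / 16 : ℝ)) ^ 5 * ((-5 / 8 : ℝ) - u) ^ 4
      + (99007375746892676202791 / 18225000000000000 : ℝ) * (u - (-13 / 16 : ℝ)) ^ 6 * ((-5 / 8 : ℝ) - u) ^ 3
      + (233366814292871220182467 / 82012500000000000 : ℝ) * (u - (-13 / 16 : ℝ)) ^ 7 * ((-5 / 8 : ℝ) - u) ^ 2
      + (136988185495934617564363 / 164025000000000000 : ℝ) * (u - (-13 / 16 : ℝ)) ^ 8 * ((-5 / 8 : ℝ) - u) ^ 1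
      + (5223136688128689637373 / 49207500000000000 : ℝ) * (u - (-13 / 16 : ℝ)) ^ 9 := by
    simp only [F0, F1, F2, L1, L2, L3, L4, L5, L8, L9]
    ring
  have h5 : 0 ≤ -((F0 u + (9831 / 10000 : ℝ)) + 2 * (25841 / 100000 : ℝ) * (F1 u - (19799 / 10000 : ℝ) - (-1201 / 2000 : ℝ) * (25841 / 100000 : ℝ)) + (25841 / 100000 : ℝ) ^ 2 * (F2 u - (-2677 / 1000 : ℝ))) := by
    rw [e]
    positivity
  linarith

theorem V3_2 (u : ℝ) (h1 : (-5 / 8 : ℝ) ≤ u) (h2 : u ≤ (-1 / 4 : ℝ)) : (F0 u + (9831 / 10000 : ℝ)) + 2 * (25841 / 100000 : ℝ) * (F1 u - (19799 / 10000 : ℝ) - (-1201 / 2000 : ℝ) * (25841 / 100000 : ℝ)) + (25841 / 100000 : ℝ) ^ 2 * (F2 u - (-2677 / 1000 : ℝ)) ≤ 0 := by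
  have h3 : (0:ℝ) ≤ u - (-5 / 8 : ℝ) := by linarith
  have h4 : (0:ℝ) ≤ (-1 / 4 : ℝ) - u := by linarith
  have e : -((F0 u + (9831 / 10000 : ℝ)) + 2 * (25841 / 100000 : ℝ) * (F1 u - (19799 / 10000 : ℝ) - (-1201 / 2000 : ℝ) * (25841 / 100000 : ℝ)) + (25841 / 100000 : ℝ) ^ 2 * (F2 u - (-2677 / 1000 : ℝ))) = (5223136688128689637373 / 25194240000000000000 : ℝ) * ((-1 / 4 : ℝ) - u) ^ 9
      + (49026482734928208058711 / 20995200000000000000 : ℝ) * (u - (-5 / 8 : ℝ)) ^ 1 * ((-1 / 4 : ℝ) - u) ^ 8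
      + (29140288553659153960411 / 2624400000000000000 : ℝ) * (u - (-5 / 8 : ℝ)) ^ 2 * ((-1 / 4 : ℝ) - u) ^ 7
      + (13135216769416347448721 / 437400000000000000 : ℝ) * (u - (-5 / 8 : ℝ)) ^ 3 * ((-1 / 4 : ℝ) - u) ^ 6
      + (67985418426610164427061 / 1312200000000000000 : ℝ) * (u - (-5 / 8 : ℝ)) ^ 4 * ((-1 / 4 : ℝ) - u) ^ 5
      + (7584636786845827415389 / 131220000000000000 : ℝ) * (u - (-5 / 8 : ℝ)) ^ 5 * ((-1 / 4 : ℝ) - u) ^ 4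
      + (6660418994523112836047 / 164025000000000000 : ℝ) * (u - (-5 / 8 : ℝ)) ^ 6 * ((-1 / 4 : ℝ) - u) ^ 3
      + (1398280986398176696303 / 82012500000000000 : ℝ) * (u - (-5 / 8 : ℝ)) ^ 7 * ((-1 / 4 : ℝ) - u) ^ 2
      + (632808973486675364851 / 164025000000000000 : ℝ) * (u - (-5 / 8 : ℝ)) ^ 8 * ((-1 / 4 : ℝ) - u) ^ 1
      + (88372216254328017533 / 246037500000000000 : ℝ) * (u - (-5 / 8 : ℝ)) ^ 9 := by
    simp only [F0, F1, F2, L1, L2, L3, L4, L5, L8, L9]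
    ring
  have h5 : 0 ≤ -((F0 u + (9831 / 10000 : ℝ)) + 2 * (25841 / 100000 : ℝ) * (F1 u - (19799 / 10000 : ℝ) - (-1201 / 2000 : ℝ) * (25841 / 100000 : ℝ)) + (25841 / 100000 : ℝ) ^ 2 * (F2 u - (-2677 / 1000 : ℝ))) := by
    rw [e]
    positivity
  linarith

theorem V3_3 (u : ℝ) (h1 : (-1 / 4 : ℝ) ≤ u) (h2 : u ≤ (-1 / 16 : ℝ)) : (F0 u + (9831 / 10000 : ℝ)) + 2 * (25841 / 100000 : ℝ) * (F1 u - (19799 / 10000 : ℝ) - (-1201 / 2000 : ℝ) * (25841 / 100000 : ℝ)) + (25841 / 100000 : ℝ) ^ 2 * (F2 u - (-2677 / 1000 : ℝ)) ≤ 0 := by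
  have h3 : (0:ℝ) ≤ u - (-1 / 4 : ℝ) := by linarith
  have h4 : (0:ℝ) ≤ (-1 / 16 : ℝ) - u := by linarith
  have e : -((F0 u + (9831 / 10000 : ℝ)) + 2 * (25841 / 100000 : ℝ) * (F1 u - (19799 / 10000 : ℝ) - (-1201 / 2000 : ℝ) * (25841 / 100000 : ℝ)) + (25841 / 100000 : ℝ) ^ 2 * (F2 u - (-2677 / 1000 : ℝ))) = (88372216254328017533 / 480541992187500 : ℝ) * ((-1 / 16 : ℝ) - u) ^ 9
      + (957890919091228950743 / 640722656250000 : ℝ) * (u - (-1 / 4 : ℝ)) ^ 1 * ((-1 / 16 : ℝ) - u) ^ 8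
      + (669754532005099642331 / 128144531250000 : ℝ) * (u - (-1 / 4 : ℝ)) ^ 2 * ((-1 / 16 : ℝ) - u) ^ 7
      + (26218312092102078976123 / 2562890625000000 : ℝ) * (u - (-1 / 4 : ℝ)) ^ 3 * ((-1 / 16 : ℝ) - u) ^ 6
      + (250483433692986896250977 / 20503125000000000 : ℝ) * (u - (-1 / 4 : ℝ)) ^ 4 * ((-1 / 16 : ℝ) - u) ^ 5
      + (745080487966887134479297 / 82012500000000000 : ℝ) * (u - (-1 / 4 : ℝ)) ^ 5 * ((-1 / 16 : ℝ) - u) ^ 4
      + (74923553923520913183427 / 18225000000000000 : ℝ) * (u - (-1 / 4 : ℝ)) ^ 6 * ((-1 / 16 : ℝ) - u) ^ 3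
      + (139053499278033030185083 / 131220000000000000 : ℝ) * (u - (-1 / 4 : ℝ)) ^ 7 * ((-1 / 16 : ℝ) - u) ^ 2
      + (1480758229842594990955063 / 10497600000000000000 : ℝ) * (u - (-1 / 4 : ℝ)) ^ 8 * ((-1 / 16 : ℝ) - u) ^ 1
      + (1224888920327734707872093 / 125971200000000000000 : ℝ) * (u - (-1 / 4 : ℝ)) ^ 9 := by
    simp only [F0, F1, F2, L1, L2, L3, L4, L5, L8, L9]
    ring
  have h5 : 0 ≤ -((F0 u + (9831 / 10000 : ℝ)) + 2 * (25841 / 100000 : ℝ) * (F1 u - (19799 / 10000 : ℝ) - (-1201 / 2000 : ℝ) * (25841 / 100000 : ℝ)) + (25841 / 100000 : ℝ) ^ 2 * (F2 u - (-2677 / 1000 : ℝ))) := by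
    rw [e]
    positivity
  linarith

theorem V3_4 (u : ℝ) (h1 : (-1 / 16 : ℝ) ≤ u) (h2 : u ≤ (1 / 8 : ℝ)) : (F0 u + (9831 / 10000 : ℝ)) + 2 * (25841 / 100000 : ℝ) * (F1 u - (19799 / 10000 : ℝ) - (-1201 / 2000 : ℝ) * (25841 / 100000 : ℝ)) + (25841 / 100000 : ℝ) ^ 2 * (F2 u - (-2677 / 1000 : ℝ)) ≤ 0 := by
  have h3 : (0:ℝ) ≤ u - (-1 / 16 : ℝ) := by linarith
  have h4 : (0:ℝ) ≤ (1 / 8 : ℝ) - u := by linarith
  have e : -((F0 u + (9831 / 10000 : ℝ)) + 2 * (25841 / 100000 : ℝ) * (F1 u - (19799 / 10000 : ℝ) - (-1201 / 2000 : ℝ) * (25841 / 100000 : ℝ)) + (25841 / 100000 : ℝ) ^ 2 * (F2 u - (-2677 / 1000 : ℝ))) = (1224888920327734707872093 / 125971200000000000000 : ℝ) * ((1 / 8 : ℝ) - u) ^ 9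
      + (713150301298014141706153 / 20995200000000000000 : ℝ) * (u - (-1 / 16 : ℝ)) ^ 1 * ((1 / 8 : ℝ) - u) ^ 8
      + (532703827173484763497687 / 2624400000000000000 : ℝ) * (u - (-1 / 16 : ℝ)) ^ 2 * ((1 / 8 : ℝ) - u) ^ 7
      + (383320248185786311687729 / 262440000000000000 : ℝ) * (u - (-1 / 16 : ℝ)) ^ 3 * ((1 / 8 : ℝ) - u) ^ 6
      + (6792483066792979888487969 / 1312200000000000000 : ℝ) * (u - (-1 / 16 : ℝ)) ^ 4 * ((1 / 8 : ℝ) - u) ^ 5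
      + (6500582911517239359685919 / 656100000000000000 : ℝ) * (u - (-1 / 16 : ℝ)) ^ 5 * ((1 / 8 : ℝ) - u) ^ 4
      + (604665035449610602179737 / 54675000000000000 : ℝ) * (u - (-1 / 16 : ℝ)) ^ 6 * ((1 / 8 : ℝ) - u) ^ 3
      + (594385426582724800452841 / 82012500000000000 : ℝ) * (u - (-1 / 16 : ℝ)) ^ 7 * ((1 / 8 : ℝ) - u) ^ 2
      + (85090621361796072755051 / 32805000000000000 : ℝ) * (u - (-1 / 16 : ℝ)) ^ 8 * ((1 / 8 : ℝ) - u) ^ 1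
      + (96498885920783135659747 / 246037500000000000 : ℝ) * (u - (-1 / 16 : ℝ)) ^ 9 := by
    simp only [F0, F1, F2, L1, L2, L3, L4, L5, L8, L9]
    ring
  have h5 : 0 ≤ -((F0 u + (9831 / 10000 : ℝ)) + 2 * (25841 / 100000 : ℝ) * (F1 u - (19799 / 10000 : ℝ) - (-1201 / 2000 : ℝ) * (25841 / 100000 : ℝ)) + (25841 / 100000 : ℝ) ^ 2 * (F2 u - (-2677 / 1000 : ℝ))) := by
    rw [e]
    positivity
  linarith

theorem V3_5 (u : ℝ) (h1 : (1 / 8 : ℝ) ≤ u) (h2 : u ≤ (1 / 2 : ℝ)) : (F0 u + (9831 / 10000 : ℝ)) + 2 * (25841 / 100000 : ℝ) * (F1 u - (19799 / 10000 : ℝ) - (-1201 / 2000 : ℝ) * (25841 / 100000 : ℝ)) + (25841 / 100000 : ℝ) ^ 2 * (F2 u - (-2677 / 1000 : ℝ)) ≤ 0 := by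
  have h3 : (0:ℝ) ≤ u - (1 / 8 : ℝ) := by linarith
  have h4 : (0:ℝ) ≤ (1 / 2 : ℝ) - u := by linarith
  have e : -((F0 u + (9831 / 10000 : ℝ)) + 2 * (25841 / 100000 : ℝ) * (F1 u - (19799 / 10000 : ℝ) - (-1201 / 2000 : ℝ) * (25841 / 100000 : ℝ)) + (25841 / 100000 : ℝ) ^ 2 * (F2 u - (-2677 / 1000 : ℝ))) = (96498885920783135659747 / 125971200000000000000 : ℝ) * ((1 / 2 : ℝ) - u) ^ 9
      + (110759216619516964290617 / 10497600000000000000 : ℝ) * (u - (1 / 8 : ℝ)) ^ 1 * ((1 / 2 : ℝ) - u) ^ 8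
      + (8089208819874841007681 / 131220000000000000 : ℝ) * (u - (1 / 8 : ℝ)) ^ 2 * ((1 / 2 : ℝ) - u) ^ 7
      + (10952305010159576691779 / 54675000000000000 : ℝ) * (u - (1 / 8 : ℝ)) ^ 3 * ((1 / 2 : ℝ) - u) ^ 6
      + (32720728651922764213223 / 82012500000000000 : ℝ) * (u - (1 / 8 : ℝ)) ^ 4 * ((1 / 2 : ℝ) - u) ^ 5
      + (10351850765066314029223 / 20503125000000000 : ℝ) * (u - (1 / 8 : ℝ)) ^ 5 * ((1 / 2 : ℝ) - u) ^ 4
      + (1038966377370019744697 / 2562890625000000 : ℝ) * (u - (1 / 8 : ℝ)) ^ 6 * ((1 / 2 : ℝ) - u) ^ 3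
      + (25453145879505912049 / 128144531250000 : ℝ) * (u - (1 / 8 : ℝ)) ^ 7 * ((1 / 2 : ℝ) - u) ^ 2
      + (34376379397350452377 / 640722656250000 : ℝ) * (u - (1 / 8 : ℝ)) ^ 8 * ((1 / 2 : ℝ) - u) ^ 1
      + (2896813214880379267 / 480541992187500 : ℝ) * (u - (1 / 8 : ℝ)) ^ 9 := by
    simp only [F0, F1, F2, L1, L2, L3, L4, L5, L8, L9]
    ring
  have h5 : 0 ≤ -((F0 u + (9831 / 10000 : ℝ)) + 2 * (25841 / 100000 : ℝ) * (F1 u - (19799 / 10000 : ℝ) - (-1201 / 2000 : ℝ) * (25841 / 100000 : ℝ)) + (25841 / 100000 : ℝ) ^ 2 * (F2 u - (-2677 / 1000 : ℝ))) := by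
    rw [e]
    positivity
  linarith

theorem V3 (u : ℝ) (h1 : (-1 : ℝ) ≤ u) (h2 : u ≤ (1 / 2 : ℝ)) : (F0 u + (9831 / 10000 : ℝ)) + 2 * (25841 / 100000 : ℝ) * (F1 u - (19799 / 10000 : ℝ) - (-1201 / 2000 : ℝ) * (25841 / 100000 : ℝ)) + (25841 / 100000 : ℝ) ^ 2 * (F2 u - (-2677 / 1000 : ℝ)) ≤ 0 := by
  rcases le_total u (-13 / 16 : ℝ) with h | h
  · exact V3_0 u (by linarith) h
  rcases le_total u (-5 / 8 : ℝ) with h | h
  · exact V3_1 u (by linarith) h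
  rcases le_total u (-1 / 4 : ℝ) with h | h
  · exact V3_2 u (by linarith) h
  rcases le_total u (-1 / 16 : ℝ) with h | h
  · exact V3_3 u (by linarith) h
  rcases le_total u (1 / 8 : ℝ) with h | h
  · exact V3_4 u (by linarith) h
  exact V3_5 u (by linarith) h2

theorem V4_0 (u : ℝ) (h1 : (1 / 2 : ℝ) ≤ u) (h2 : u ≤ (125841 / 200000 : ℝ)) : (F0 u + (9831 / 10000 : ℝ)) + (2 * u - 1) * (F1 u - (19799 / 10000 : ℝ)) - (-1201 / 2000 : ℝ) * (2 * u - 1) ^ 2 ≤ 0 := by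
  have h3 : (0:ℝ) ≤ u - (1 / 2 : ℝ) := by linarith
  have h4 : (0:ℝ) ≤ (125841 / 200000 : ℝ) - u := by linarith
  have e : -((F0 u + (9831 / 10000 : ℝ)) + (2 * u - 1) * (F1 u - (19799 / 10000 : ℝ)) - (-1201 / 2000 : ℝ) * (2 * u - 1) ^ 2) = (215368593750000000000000000000000000000000000000000 / 132767922792893673586613164382609802201890401 : ℝ) * ((125841 / 200000 : ℝ) - u) ^ 10
      + (2423156531525000000000000000000000000000000000000000 / 132767922792893673586613164382609802201890401 : ℝ) * (u - (1 / 2 : ℝ)) ^ 1 * ((125841 / 200000 : ℝ) - u) ^ 9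
      + (11063953707701469359375000000000000000000000000000000 / 132767922792893673586613164382609802201890401 : ℝ) * (u - (1 / 2 : ℝ)) ^ 2 * ((125841 / 200000 : ℝ) - u) ^ 8
      + (28372728096041046723515000000000000000000000000000000 / 132767922792893673586613164382609802201890401 : ℝ) * (u - (1 / 2 : ℝ)) ^ 3 * ((125841 / 200000 : ℝ) - u) ^ 7
      + (46823025673763015938655124296875000000000000000000000 / 132767922792893673586613164382609802201890401 : ℝ) * (u - (1 / 2 : ℝ)) ^ 4 * ((125841 / 200000 : ℝ) - u) ^ 6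
      + (53499203898388007429326418442214500000000000000000000 / 132767922792893673586613164382609802201890401 : ℝ) * (u - (1 / 2 : ℝ)) ^ 5 * ((125841 / 200000 : ℝ) - u) ^ 5
      + (43801307042604861857990646605708865433437500000000000 / 132767922792893673586613164382609802201890401 : ℝ) * (u - (1 / 2 : ℝ)) ^ 6 * ((125841 / 200000 : ℝ) - u) ^ 4
      + (25510953269363241738517225891962827433982750000000000 / 132767922792893673586613164382609802201890401 : ℝ) * (u - (1 / 2 : ℝ)) ^ 7 * ((125841 / 200000 : ℝ) - u) ^ 3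
      + (9950607217635704189448375137712203522418872988671875 / 132767922792893673586613164382609802201890401 : ℝ) * (u - (1 / 2 : ℝ)) ^ 8 * ((125841 / 200000 : ℝ) - u) ^ 2
      + (4527072377093928701369300983965206351175768378007025 / 265535845585787347173226328765219604403780802 : ℝ) * (u - (1 / 2 : ℝ)) ^ 9 * ((125841 / 200000 : ℝ) - u) ^ 1
      + (5512079608928724347528483538492229579716366047738706859 / 3398858823498078043817297008194810936368394265600 : ℝ) * (u - (1 / 2 : ℝ)) ^ 10 := by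
    simp only [F0, F1, F2, L1, L2, L3, L4, L5, L8, L9]
    ring
  have h5 : 0 ≤ -((F0 u + (9831 / 10000 : ℝ)) + (2 * u - 1) * (F1 u - (19799 / 10000 : ℝ)) - (-1201 / 2000 : ℝ) * (2 * u - 1) ^ 2) := by
    rw [e]
    positivity
  linarith

theorem V4 (u : ℝ) (h1 : (1 / 2 : ℝ) ≤ u) (h2 : u ≤ (125841 / 200000 : ℝ)) : (F0 u + (9831 / 10000 : ℝ)) + (2 * u - 1) * (F1 u - (19799 / 10000 : ℝ)) - (-1201 / 2000 : ℝ) * (2 * u - 1) ^ 2 ≤ 0 := by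
  exact V4_0 u (by linarith) h2

theorem V5_0 (u : ℝ) (h1 : (125841 / 200000 : ℝ) ≤ u) (h2 : u ≤ (137 / 200 : ℝ)) : (F0 u + (9831 / 10000 : ℝ)) + (2 * u - 1 + (111 / 50 : ℝ) * ((25841 / 100000 : ℝ) * (2 * u - 1 - (25841 / 100000 : ℝ)))) * (F1 u - (19799 / 10000 : ℝ)) + ((25841 / 100000 : ℝ) * (2 * u - 1 - (25841 / 100000 : ℝ))) * (F2 u - (-2677 / 1000 : ℝ) + 2 * (-1201 / 2000 : ℝ)) - (-1201 / 2000 : ℝ) * (2 * u - 1 + (111 / 50 : ℝ) * ((25841 / 100000 : ℝ) * (2 * u - 1 - (25841 / 100000 : ℝ)))) ^ 2 ≤ 0 := by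
  have h3 : (0:ℝ) ≤ u - (125841 / 200000 : ℝ) := by linarith
  have h4 : (0:ℝ) ≤ (137 / 200 : ℝ) - u := by linarith
  have e : -((F0 u + (9831 / 10000 : ℝ)) + (2 * u - 1 + (111 / 50 : ℝ) * ((25841 / 100000 : ℝ) * (2 * u - 1 - (25841 / 100000 : ℝ)))) * (F1 u - (19799 / 10000 : ℝ)) + ((25841 / 100000 : ℝ) * (2 * u - 1 - (25841 / 100000 : ℝ))) * (F2 u - (-2677 / 1000 : ℝ) + 2 * (-1201 / 2000 : ℝ)) - (-1201 / 2000 : ℝ) * (2 * u - 1 + (111 / 50 : ℝ) * ((25841 / 100000 : ℝ) * (2 * u - 1 - (25841 / 100000 : ℝ)))) ^ 2) = (5512079608928724347528483538492229579716366047738706859 / 766465729219655126796114969511353531402265600 : ℝ) * ((137 / 200 : ℝ) - u) ^ 10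
      + (1465247414234376040132263666216200287761589509218796690069135431 / 3832328646098275633980574847556767657011328000000000 : ℝ) * (u - (125841 / 200000 : ℝ)) ^ 1 * ((137 / 200 : ℝ) - u) ^ 9
      + (12148652414196161664029767075555098552607277055961408381268903 / 3832328646098275633980574847556767657011328000000 : ℝ) * (u - (125841 / 200000 : ℝ)) ^ 2 * ((137 / 200 : ℝ) - u) ^ 8
      + (11941755779268759372656878466657972066069935130564055397071 / 958082161524568908495143711889191914252832000 : ℝ) * (u - (125841 / 200000 : ℝ)) ^ 3 * ((137 / 200 : ℝ) - u) ^ 7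
      + (27874039518503587829911024105376458915207120961144107243 / 958082161524568908495143711889191914252832 : ℝ) * (u - (125841 / 200000 : ℝ)) ^ 4 * ((137 / 200 : ℝ) - u) ^ 6
      + (10532349451953984550469371653285232576444004108991419125 / 239520540381142227123785927972297978563208 : ℝ) * (u - (125841 / 200000 : ℝ)) ^ 5 * ((137 / 200 : ℝ) - u) ^ 5
      + (1331399924539232346435860727702893681528844886823765625 / 29940067547642778390473240996537247320401 : ℝ) * (u - (125841 / 200000 : ℝ)) ^ 6 * ((137 / 200 : ℝ) - u) ^ 4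
      + (899446879149475797347924244725191456855088128093750000 / 29940067547642778390473240996537247320401 : ℝ) * (u - (125841 / 200000 : ℝ)) ^ 7 * ((137 / 200 : ℝ) - u) ^ 3
      + (391093027950166909764228397534518223750032718750000000 / 29940067547642778390473240996537247320401 : ℝ) * (u - (125841 / 200000 : ℝ)) ^ 8 * ((137 / 200 : ℝ) - u) ^ 2
      + (99268765307861755786380205637202643047492187500000000 / 29940067547642778390473240996537247320401 : ℝ) * (u - (125841 / 200000 : ℝ)) ^ 9 * ((137 / 200 : ℝ) - u) ^ 1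
      + (11203089439121475068501975687192002867187500000000000 / 29940067547642778390473240996537247320401 : ℝ) * (u - (125841 / 200000 : ℝ)) ^ 10 := by
    simp only [F0, F1, F2, L1, L2, L3, L4, L5, L8, L9]
    ring
  have h5 : 0 ≤ -((F0 u + (9831 / 10000 : ℝ)) + (2 * u - 1 + (111 / 50 : ℝ) * ((25841 / 100000 : ℝ) * (2 * u - 1 - (25841 / 100000 : ℝ)))) * (F1 u - (19799 / 10000 : ℝ)) + ((25841 / 100000 : ℝ) * (2 * u - 1 - (25841 / 100000 : ℝ))) * (F2 u - (-2677 / 1000 : ℝ) + 2 * (-1201 / 2000 : ℝ)) - (-1201 / 2000 : ℝ) * (2 * u - 1 + (111 / 50 : ℝ) * ((25841 / 100000 : ℝ) * (2 * u - 1 - (25841 / 100000 : ℝ)))) ^ 2) := by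
    rw [e]
    positivity
  linarith

theorem V5 (u : ℝ) (h1 : (125841 / 200000 : ℝ) ≤ u) (h2 : u ≤ (137 / 200 : ℝ)) : (F0 u + (9831 / 10000 : ℝ)) + (2 * u - 1 + (111 / 50 : ℝ) * ((25841 / 100000 : ℝ) * (2 * u - 1 - (25841 / 100000 : ℝ)))) * (F1 u - (19799 / 10000 : ℝ)) + ((25841 / 100000 : ℝ) * (2 * u - 1 - (25841 / 100000 : ℝ))) * (F2 u - (-2677 / 1000 : ℝ) + 2 * (-1201 / 2000 : ℝ)) - (-1201 / 2000 : ℝ) * (2 * u - 1 + (111 / 50 : ℝ) * ((25841 / 100000 : ℝ) * (2 * u - 1 - (25841 / 100000 : ℝ)))) ^ 2 ≤ 0 := by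
  exact V5_0 u (by linarith) h2

theorem V6_0 (u : ℝ) (h1 : (1 / 2 : ℝ) ≤ u) (h2 : u ≤ (137 / 200 : ℝ)) : (F1 u - (19799 / 10000 : ℝ)) - 4 * (-1201 / 2000 : ℝ) * (25841 / 100000 : ℝ) ≤ 0 := by
  have h3 : (0:ℝ) ≤ u - (1 / 2 : ℝ) := by linarith
  have h4 : (0:ℝ) ≤ (137 / 200 : ℝ) - u := by linarith
  have e : -((F1 u - (19799 / 10000 : ℝ)) - 4 * (-1201 / 2000 : ℝ) * (25841 / 100000 : ℝ)) = (936605663753750000000 / 129961739795077 : ℝ) * ((137 / 200 : ℝ) - u) ^ 9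
      + (9564734274838437500000 / 129961739795077 : ℝ) * (u - (1 / 2 : ℝ)) ^ 1 * ((137 / 200 : ℝ) - u) ^ 8
      + (43111060266232187500000 / 129961739795077 : ℝ) * (u - (1 / 2 : ℝ)) ^ 2 * ((137 / 200 : ℝ) - u) ^ 7
      + (112624051359724859375000 / 129961739795077 : ℝ) * (u - (1 / 2 : ℝ)) ^ 3 * ((137 / 200 : ℝ) - u) ^ 6
      + (188010222121315253203125 / 129961739795077 : ℝ) * (u - (1 / 2 : ℝ)) ^ 4 * ((137 / 200 : ℝ) - u) ^ 5
      + (832239367274706355408125 / 519846959180308 : ℝ) * (u - (1 / 2 : ℝ)) ^ 5 * ((137 / 200 : ℝ) - u) ^ 4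
      + (1221459942402023000116875 / 1039693918360616 : ℝ) * (u - (1 / 2 : ℝ)) ^ 6 * ((137 / 200 : ℝ) - u) ^ 3
      + (2293361602461479508817175 / 4158775673442464 : ℝ) * (u - (1 / 2 : ℝ)) ^ 7 * ((137 / 200 : ℝ) - u) ^ 2
      + (9999971539292356953577291 / 66540410775079424 : ℝ) * (u - (1 / 2 : ℝ)) ^ 8 * ((137 / 200 : ℝ) - u) ^ 1
      + (120596360509247612914095043 / 6654041077507942400 : ℝ) * (u - (1 / 2 : ℝ)) ^ 9 := by
    simp only [F0, F1, F2, L1, L2, L3, L4, L5, L8, L9]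
    ring
  have h5 : 0 ≤ -((F1 u - (19799 / 10000 : ℝ)) - 4 * (-1201 / 2000 : ℝ) * (25841 / 100000 : ℝ)) := by
    rw [e]
    positivity
  linarith

theorem V6 (u : ℝ) (h1 : (1 / 2 : ℝ) ≤ u) (h2 : u ≤ (137 / 200 : ℝ)) : (F1 u - (19799 / 10000 : ℝ)) - 4 * (-1201 / 2000 : ℝ) * (25841 / 100000 : ℝ) ≤ 0 := by
  exact V6_0 u (by linarith) h2

theorem V7_0 (u : ℝ) (h1 : (1 / 2 : ℝ) ≤ u) (h2 : u ≤ (137 / 200 : ℝ)) : (111 / 50 : ℝ) * (F1 u - (19799 / 10000 : ℝ)) + (F2 u - (-2677 / 1000 : ℝ) + 2 * (-1201 / 2000 : ℝ)) - 2 * (111 / 50 : ℝ) * (-1201 / 2000 : ℝ) * (2 * u - 1 + (111 / 50 : ℝ) * (25841 / 100000 : ℝ) ^ 2) ≤ 0 := by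
  have h3 : (0:ℝ) ≤ u - (1 / 2 : ℝ) := by linarith
  have h4 : (0:ℝ) ≤ (137 / 200 : ℝ) - u := by linarith
  have e : -((111 / 50 : ℝ) * (F1 u - (19799 / 10000 : ℝ)) + (F2 u - (-2677 / 1000 : ℝ) + 2 * (-1201 / 2000 : ℝ)) - 2 * (111 / 50 : ℝ) * (-1201 / 2000 : ℝ) * (2 * u - 1 + (111 / 50 : ℝ) * (25841 / 100000 : ℝ) ^ 2)) = (865789557349136787520 / 129961739795077 : ℝ) * ((137 / 200 : ℝ) - u) ^ 9
      + (8275997782043012337680 / 129961739795077 : ℝ) * (u - (1 / 2 : ℝ)) ^ 1 * ((137 / 200 : ℝ) - u) ^ 8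
      + (35429681857464055600720 / 129961739795077 : ℝ) * (u - (1 / 2 : ℝ)) ^ 2 * ((137 / 200 : ℝ) - u) ^ 7
      + (89070929830640096714180 / 129961739795077 : ℝ) * (u - (1 / 2 : ℝ)) ^ 3 * ((137 / 200 : ℝ) - u) ^ 6
      + (289558491154018959989415 / 259923479590154 : ℝ) * (u - (1 / 2 : ℝ)) ^ 4 * ((137 / 200 : ℝ) - u) ^ 5
      + (1261086805340888244144735 / 1039693918360616 : ℝ) * (u - (1 / 2 : ℝ)) ^ 5 * ((137 / 200 : ℝ) - u) ^ 4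
      + (1837719558381856790521305 / 2079387836721232 : ℝ) * (u - (1 / 2 : ℝ)) ^ 6 * ((137 / 200 : ℝ) - u) ^ 3
      + (3452749246182619360294717 / 8317551346884928 : ℝ) * (u - (1 / 2 : ℝ)) ^ 7 * ((137 / 200 : ℝ) - u) ^ 2
      + (379054894566734040268686641 / 3327020538753971200 : ℝ) * (u - (1 / 2 : ℝ)) ^ 8 * ((137 / 200 : ℝ) - u) ^ 1
      + (4626011621988517469423977593 / 332702053875397120000 : ℝ) * (u - (1 / 2 : ℝ)) ^ 9 := by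
    simp only [F0, F1, F2, L1, L2, L3, L4, L5, L8, L9]
    ring
  have h5 : 0 ≤ -((111 / 50 : ℝ) * (F1 u - (19799 / 10000 : ℝ)) + (F2 u - (-2677 / 1000 : ℝ) + 2 * (-1201 / 2000 : ℝ)) - 2 * (111 / 50 : ℝ) * (-1201 / 2000 : ℝ) * (2 * u - 1 + (111 / 50 : ℝ) * (25841 / 100000 : ℝ) ^ 2)) := by
    rw [e]
    positivity
  linarith

theorem V7 (u : ℝ) (h1 : (1 / 2 : ℝ) ≤ u) (h2 : u ≤ (137 / 200 : ℝ)) : (111 / 50 : ℝ) * (F1 u - (19799 / 10000 : ℝ)) + (F2 u - (-2677 / 1000 : ℝ) + 2 * (-1201 / 2000 : ℝ)) - 2 * (111 / 50 : ℝ) * (-1201 / 2000 : ℝ) * (2 * u - 1 + (111 / 50 : ℝ) * (25841 / 100000 : ℝ) ^ 2) ≤ 0 := by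
  exact V7_0 u (by linarith) h2

/-- The pair inequality for the kernel. -/
theorem pair_ineq (l m u : ℝ) (hl0 : 0 ≤ l) (hl1 : l ≤ 0.25841) (hm0 : 0 ≤ m) (hm1 : m ≤ 0.25841)
    (hu0 : -1 ≤ u) (hu1 : u ≤ (1 + l + m) / 2 - 1.11 * (l * m)) :
    F0 u + F1 u * (l + m) + F2 u * (l * m) ≤ -(9831 / 10000) + 19799 / 10000 * (l + m) +
      (-2677 / 1000) * (l * m) + (-1201 / 2000) * (l ^ 2 + m ^ 2) := by
  have a1 : 0 ≤ 25841 / 100000 - l := by norm_num at hl1 ⊢; linarith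
  have a2 : 0 ≤ 25841 / 100000 - m := by norm_num at hm1 ⊢; linarith
  have a3 : 0 ≤ l * m := mul_nonneg hl0 hm0
  rcases le_total u (1 / 2) with hu | hu
  · have v1 := V1 u (by linarith) hu
    have v2 := V2 u (by linarith) hu
    have v3 := V3 u (by linarith) hu
    have b1 := mul_nonneg (mul_nonneg a1 a2) (neg_nonneg.mpr v1)
    have b2 := mul_nonneg (add_nonneg (mul_nonneg hl0 a2) (mul_nonneg hm0 a1)) (neg_nonneg.mpr v2)
    have b3 := mul_nonneg a3 (neg_nonneg.mpr v3)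
    have d1 := mul_nonneg hl0 a1
    have d2 := mul_nonneg hm0 a2
    have b4 : 0 ≤ (25841 / 100000 : ℝ) ^ 2 * (-((F0 u + 9831 / 10000) +
        (F1 u - 19799 / 10000 - (-1201 / 2000) * (25841 / 100000)) * (l + m) +
          (F2 u - (-2677 / 1000)) * (l * m))) := by
      have e := add_nonneg (add_nonneg b1 b2) b3
      refine le_of_le_of_eq e ?_
      ring
    have b5 := nonneg_of_mul_nonneg_right b4 (by norm_num)
    nlinarith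
  · have hu2 : u ≤ 137 / 200 := by nlinarith [mul_nonneg a1 a2]
    have v6 := V6 u (by linarith) (by linarith)
    have v7 := V7 u (by linarith) (by linarith)
    have hq : l * m ≤ (25841 / 100000 : ℝ) ^ 2 := by nlinarith [mul_nonneg a1 a2]
    set q : ℝ := l * m with hqdef
    set p : ℝ := l + m with hpdef
    have hpp : l ^ 2 + m ^ 2 = p ^ 2 - 2 * q := by rw [hpdef, hqdef]; ring
    rw [hpp]
    have hp2 : p ≤ 2 * (25841 / 100000) := by linarith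
    have hp' : 2 * u - 1 + 111 / 50 * q ≤ p := by norm_num at hu1 ⊢; linarith
    set p' : ℝ := 2 * u - 1 + 111 / 50 * q with hp'def
    have g1 : 0 ≤ (p - p') * -(F1 u - 19799 / 10000 - 4 * (-1201 / 2000) * (25841 / 100000)) :=
      mul_nonneg (by linarith) (neg_nonneg.mpr v6)
    have g2 : 0 ≤ (p - p') * (4 * (25841 / 100000) - p - p') :=
      mul_nonneg (by linarith) (by linarith)
    have g3 : (F0 u + 9831 / 10000) + (F1 u - 19799 / 10000) * p +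
        (F2 u - (-2677 / 1000) + 2 * (-1201 / 2000)) * q - (-1201 / 2000) * p ^ 2 ≤
        (F0 u + 9831 / 10000) + (F1 u - 19799 / 10000) * p' +
        (F2 u - (-2677 / 1000) + 2 * (-1201 / 2000)) * q - (-1201 / 2000) * p' ^ 2 := by
      nlinarith
    have key : ∀ q0 : ℝ, 0 ≤ q0 → q0 ≤ q →
        (F0 u + 9831 / 10000) + (F1 u - 19799 / 10000) * p' +
        (F2 u - (-2677 / 1000) + 2 * (-1201 / 2000)) * q - (-1201 / 2000) * p' ^ 2 ≤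
        (F0 u + 9831 / 10000) + (F1 u - 19799 / 10000) * (2 * u - 1 + 111 / 50 * q0) +
        (F2 u - (-2677 / 1000) + 2 * (-1201 / 2000)) * q0 -
          (-1201 / 2000) * (2 * u - 1 + 111 / 50 * q0) ^ 2 := by
      intro q0 h0 h1
      have g4 := mul_nonneg (sub_nonneg.mpr h1) (neg_nonneg.mpr v7)
      have g5 : 0 ≤ (q - q0) * (2 * (25841 / 100000 : ℝ) ^ 2 - q - q0) :=
        mul_nonneg (by linarith) (by linarith)
      rw [hp'def]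
      nlinarith
    rcases le_total u ((1 + 0.25841) / 2) with hu3 | hu3
    · have v4 := V4 u (by linarith) (by norm_num at hu3 ⊢; linarith)
      have k := key 0 le_rfl a3
      rw [mul_zero, add_zero, mul_zero, add_zero] at k
      linarith
    · have v5 := V5 u (by norm_num at hu3 ⊢; linarith) (by linarith)
      have c3 : 25841 / 100000 * (2 * u - 1 - 25841 / 100000) ≤ q := by
        have := mul_nonneg a1 a2
        nlinarith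
      have k := key (25841 / 100000 * (2 * u - 1 - 25841 / 100000))
        (mul_nonneg (by norm_num) (by norm_num at hu3 ⊢; linarith)) c3
      linarith

theorem kernel_pos {ι : Type} [Fintype ι] (n : ι → EuclideanSpace ℝ (Fin 3))
    (hn : ∀ i, ‖n i‖ = 1) (l : ι → ℝ) :
    0 ≤ ∑ i, ∑ j, (F0 ⟪n i, n j⟫ + F1 ⟪n i, n j⟫ * (l i + l j) +
      F2 ⟪n i, n j⟫ * (l i * l j)) := by
  have k1 := psd_mat psd_L1 (A := 26971 / 10000) (B := -10281 / 2500) (C := 1263 / 200) (by norm_num)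
    (by norm_num) (by norm_num) n hn l
  have k2 := psd_mat psd_L2 (A := 34851 / 10000) (B := -20613 / 5000) (C := 5017 / 1000) (by norm_num)
    (by norm_num) (by norm_num) n hn l
  have k3 := psd_mat psd_L3 (A := 31553 / 10000) (B := -2489 / 1250) (C := 13097 / 10000) (by norm_num)
    (by norm_num) (by norm_num) n hn l
  have k4 := psd_mat psd_L4 (A := 18893 / 10000) (B := -1219 / 2500) (C := 16 / 125) (by norm_num)
    (by norm_num) (by norm_num) n hn l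
  have k5 := psd_mat psd_L5 (A := 3361 / 5000) (B := 4809 / 10000) (C := 879 / 2500) (by norm_num)
    (by norm_num) (by norm_num) n hn l
  have k8 := psd_mat psd_L8 (A := 521 / 10000) (B := -23 / 100) (C := 127 / 125) (by norm_num)
    (by norm_num) (by norm_num) n hn l
  have k9 := psd_mat psd_L9 (A := 1049 / 10000) (B := 11 / 2000) (C := 7 / 5000) (by norm_num)
    (by norm_num) (by norm_num) n hn l
  refine le_of_le_of_eq
    (add_nonneg (add_nonneg (add_nonneg (add_nonneg (add_nonneg (add_nonneg k1 k2) k3) k4) k5) k8) k9) ?_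
  simp only [← Finset.sum_add_distrib]
  refine Finset.sum_congr rfl fun i _ => Finset.sum_congr rfl fun j _ => ?_
  unfold F0 F1 F2
  ring

end N15

open N15 in
/-- **Fifteen points.**  The total lift of fifteen points of the shell is at least 3 (R - 1). -/
theorem lift_ge_fifteen {ι : Type} [Fintype ι] {n : ι → E3} {h : ι → ℝ} (H : Pck n h)
    (hR : ∀ i, h i ≤ R) (hN : Fintype.card ι = 15) :
    (R - 1) * ((Fintype.card ι : ℝ) - 12) ≤ ∑ i, (h i - 1) := by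
  by_contra hlt
  push Not at hlt
  have hN' : (Fintype.card ι : ℝ) = 15 := by rw [hN]; norm_num
  set l : ι → ℝ := fun i => h i - 1 with hl
  have l0 : ∀ i, 0 ≤ l i := fun i => by rw [hl]; linarith [H.2.1 i]
  have l1 : ∀ i, l i ≤ 0.25841 := fun i => by
    have := hR i
    have := R_hi'
    rw [hl]
    norm_num at *
    linarith
  have hpair : ∀ i j, i ≠ j → F0 ⟪n i, n j⟫ + F1 ⟪n i, n j⟫ * (l i + l j) +
      F2 ⟪n i, n j⟫ * (l i * l j) ≤ -(9831 / 10000) + 19799 / 10000 * (l i + l j) +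
      (-2677 / 1000) * (l i * l j) + (-1201 / 2000) * (l i ^ 2 + l j ^ 2) := fun i j hij =>
    pair_ineq (l i) (l j) ⟪n i, n j⟫ (l0 i) (l1 i) (l0 j) (l1 j) (Pck.inner_ge H i j)
      (Pck.inner_le' H hij (l1 i) (l1 j))
  have key := two_point_bound n H.1 l F0 F1 F2 _ _ _ _ (kernel_pos n H.1 l) hpair
  have f0 : F0 1 = 12.0560 := by
    simp only [F0, L1, L2, L3, L4, L5, L8, L9]; norm_num
  have f1 : F1 1 = -10.4574 := by
    simp only [F1, L1, L2, L3, L4, L5, L8, L9]; norm_num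
  have f2 : F2 1 = 14.1387 := by
    simp only [F2, L1, L2, L3, L4, L5, L8, L9]; norm_num
  rw [f0, f1, f2, hN'] at key
  rw [hN'] at hlt
  set S : ℝ := ∑ i, l i with hS
  have hS0 : 0 ≤ S := Finset.sum_nonneg fun i _ => l0 i
  have hS1 : S ≤ 0.25841 * 3 := by
    have := R_hi'
    norm_num at *
    linarith
  have hS2 : ∑ i, l i ^ 2 ≤ 0.25841 * S := by
    rw [hS, Finset.mul_sum]
    refine Finset.sum_le_sum fun i _ => ?_
    rw [pow_two]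
    exact mul_le_mul_of_nonneg_right (l1 i) (l0 i)
  norm_num at key hS1 hS2
  nlinarith [mul_nonneg (sub_nonneg.mpr hS1) hS0]

/-- **Fifteen or more points.**  The total lift of `N ≥ 15` points of the shell is at least
(R - 1) (N - 12). -/
theorem lift_ge_of_fifteen {ι : Type} [Fintype ι] {n : ι → E3} {h : ι → ℝ} (H : Pck n h)
    (hR : ∀ i, h i ≤ R) (hN : 15 ≤ Fintype.card ι) :
    (R - 1) * ((Fintype.card ι : ℝ) - 12) ≤ ∑ i, (h i - 1) := by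
  rcases eq_or_lt_of_le hN with h15 | h16
  · exact lift_ge_fifteen H hR h15.symm
  · exact lift_ge_of_sixteen H hR h16

end Pool.Agent.SDL
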