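import Pool.Agent.SDL.P_DMN

set_option autoImplicit false

/-!
# SDL: parity of the number of near sides

The relation `NS` (a common side inside of the open ball of radius `RO`) is symmetric and never
joins a facet with `h < R` to a facet with `h ≥ R`. So, if there is an odd number of facets with
`h < R`, one of them has a number of near sides different from five.
-/

open MeasureTheory Set Real
open scoped RealInnerProductSpace

namespace Pool.Agent.SDL

open Pool.Agent.SDC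

section par

variable {ι : Type}

/-- `NS` is symmetric. -/
theorem NS_symm (n : ι → E3) (h : ι → ℝ) (i : ι) (ϱ : ℝ) (j : ι) (H : NS n h i ϱ j) :
    NS n h j ϱ i := by
  obtain ⟨hij, x, hx, h1, h2, h3⟩ := H
  exact ⟨hij.symm, x, hx, h2, h1, fun k hk1 hk2 => h3 k hk2 hk1⟩

theorem NS_comm (n : ι → E3) (h : ι → ℝ) (i : ι) (ϱ : ℝ) (j : ι) :
    NS n h i ϱ j ↔ NS n h j ϱ i := ⟨NS_symm n h i ϱ j, NS_symm n h j ϱ i⟩

/-- The Gram determinant of two unit vectors and `x`. -/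
theorem gram3 {a b x : E3} {h p : ℝ} (ha : ‖a‖ = 1) (hb : ‖b‖ = 1) (hxa : ⟪a, x⟫ = h)
    (hxb : ⟪b, x⟫ = p) :
    h ^ 2 + p ^ 2 - 2 * h * p * ⟪a, b⟫ ≤ (1 - ⟪a, b⟫ ^ 2) * ‖x‖ ^ 2 := by
  have haa : ⟪a, a⟫ = 1 := by
    rw [real_inner_self_eq_norm_sq, ha]
    norm_num
  have hbb : ⟪b, b⟫ = 1 := by
    rw [real_inner_self_eq_norm_sq, hb]
    norm_num
  have hxx : ⟪x, x⟫ = ‖x‖ ^ 2 := real_inner_self_eq_norm_sq x
  have hyy : ‖b - ⟪a, b⟫ • a‖ ^ 2 = 1 - ⟪a, b⟫ ^ 2 := by
    rw [← real_inner_self_eq_norm_sq]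
    simp only [inner_sub_left, inner_sub_right, inner_smul_left, inner_smul_right, haa, hbb,
      real_inner_comm a b, conj_trivial]
    ring
  have hzz : ‖x - h • a‖ ^ 2 = ‖x‖ ^ 2 - h ^ 2 := by
    rw [← real_inner_self_eq_norm_sq]
    simp only [inner_sub_left, inner_sub_right, inner_smul_left, inner_smul_right, haa, hxx,
      real_inner_comm a x, hxa, conj_trivial]
    ring
  have hyz : ⟪b - ⟪a, b⟫ • a, x - h • a⟫ = p - h * ⟪a, b⟫ := by
    simp only [inner_sub_left, inner_sub_right, inner_smul_left, inner_smul_right, haa, hxa, hxb,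
      real_inner_comm a b, conj_trivial]
    ring
  have hcs : (p - h * ⟪a, b⟫) ^ 2 ≤ (1 - ⟪a, b⟫ ^ 2) * (‖x‖ ^ 2 - h ^ 2) := by
    rw [← hyz, ← hyy, ← hzz, ← mul_pow]
    exact sq_le_sq' (neg_le_of_abs_le (abs_real_inner_le_norm _ _))
      (real_inner_le_norm _ _)
  nlinarith

/-- The square of the distance of the line of a side from the origin is at most `‖x‖²` for every
point `x` of the line. -/
theorem NS_Dq {n : ι → E3} {h : ι → ℝ} (hn : ∀ i, ‖n i‖ = 1)
    (hd : ∀ i j, i ≠ j → 1 ≤ h i ^ 2 + h j ^ 2 - 2 * h i * h j * ⟪n i, n j⟫) {i j : ι} {ϱ : ℝ}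
    (H : NS n h i ϱ j) :
    ⟪n i, n j⟫ ^ 2 < 1 ∧ Dq (h i) (h j) ⟪n i, n j⟫ < ϱ ^ 2 := by
  obtain ⟨hij, x, hx, h1, h2, _⟩ := H
  have g := gram3 (hn i) (hn j) h1 h2
  have d := hd i j hij
  have hs : 0 < (1 - ⟪n i, n j⟫ ^ 2) * ‖x‖ ^ 2 := by linarith
  have hs1 : 0 < 1 - ⟪n i, n j⟫ ^ 2 := by
    by_contra hc
    push Not at hc
    have := mul_nonneg (neg_nonneg.mpr hc) (sq_nonneg ‖x‖)
    linarith
  refine ⟨by linarith, ?_⟩
  rw [Dq, div_lt_iff₀ hs1]
  have hx2 : ‖x‖ ^ 2 < ϱ ^ 2 := pow_lt_pow_left₀ hx (norm_nonneg x) two_ne_zero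
  nlinarith

/-- The norm of a point of a side is at least the height. -/
theorem NS_lt {n : ι → E3} {h : ι → ℝ} (hn : ∀ i, ‖n i‖ = 1) {i j : ι} {ϱ : ℝ}
    (H : NS n h i ϱ j) : h i < ϱ := by
  obtain ⟨_, x, hx, h1, _, _⟩ := H
  have := real_inner_le_norm (n i) x
  rw [hn i, one_mul, h1] at this
  linarith

/-- `dmn_aux` for `h² < 2`. -/
theorem dmn_aux' (h p α : ℝ) (h1 : 1 ≤ h) (h2 : h ^ 2 < 2) (hp : 1 ≤ p)
    (hQ : 1 ≤ h ^ 2 + p ^ 2 - 2 * h * p * α) :
    4 * (1 - α ^ 2) ≤ (4 - h ^ 2) * (h ^ 2 + p ^ 2 - 2 * h * p * α) := by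
  have hp2 : 0 < p ^ 2 := by positivity
  have hh2 : 0 < h ^ 2 := by positivity
  obtain ⟨P, hP⟩ : ∃ P, P = 2 * p ^ 2 - 2 * h * p * α := ⟨_, rfl⟩
  obtain ⟨m, hm⟩ : ∃ m, m = 2 - h ^ 2 := ⟨_, rfl⟩
  obtain ⟨X, hX⟩ : ∃ X, X = 2 * h * p * α - h ^ 2 := ⟨_, rfl⟩
  obtain ⟨s, hs⟩ : ∃ s, s = 4 * p ^ 2 * (1 - α ^ 2) := ⟨_, rfl⟩
  have hm0 : 0 < m := by linarith
  have ha1 : 0 ≤ P - m - X := by
    rw [hP, hm, hX]
    linarith
  have ha2 : 0 ≤ P - m + X := by
    rw [hP, hm, hX]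
    nlinarith
  have hPm : m ≤ P := by linarith
  have e1 : h ^ 2 * s = h ^ 2 * (2 * P + h ^ 2) - X ^ 2 := by
    rw [hs, hP, hX]
    ring
  have e2 : s ≤ 2 * P + h ^ 2 := by
    have : h ^ 2 * s ≤ h ^ 2 * (2 * P + h ^ 2) := by
      rw [e1]
      linarith [sq_nonneg X]
    exact le_of_mul_le_mul_left this hh2
  have e3 : m ^ 2 * s ≤ (4 - h ^ 2) * P ^ 2 := by
    have f1 : m ^ 2 * s ≤ m ^ 2 * (2 * P + h ^ 2) :=
      mul_le_mul_of_nonneg_left e2 (sq_nonneg m)
    have f2 : 0 ≤ (P - m) * (2 * P * m + h ^ 2 * (P + m)) := by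
      apply mul_nonneg (by linarith)
      have : 0 < P := by linarith
      positivity
    have f3 : (4 - h ^ 2) * P ^ 2 - m ^ 2 * (2 * P + h ^ 2) =
        (P - m) * (2 * P * m + h ^ 2 * (P + m)) := by
      have : h ^ 2 = 2 - m := by linarith
      rw [this]
      ring
    linarith
  have e4 : p ^ 2 * (4 * (1 - α ^ 2)) ≤
      p ^ 2 * ((4 - h ^ 2) * (h ^ 2 + p ^ 2 - 2 * h * p * α)) := by
    have g1 : p ^ 2 * (4 * (1 - α ^ 2)) = s := by
      rw [hs]
      ring
    have g2 : 4 * (p ^ 2 * (h ^ 2 + p ^ 2 - 2 * h * p * α)) = h ^ 2 * s + P ^ 2 := by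
      rw [hs, hP]
      ring
    have g3 : 4 * s = m ^ 2 * s + (4 - h ^ 2) * h ^ 2 * s := by
      rw [hm]
      ring
    have g4 : 4 * s ≤ 4 * (p ^ 2 * ((4 - h ^ 2) * (h ^ 2 + p ^ 2 - 2 * h * p * α))) := by
      have : 4 * (p ^ 2 * ((4 - h ^ 2) * (h ^ 2 + p ^ 2 - 2 * h * p * α))) =
          (4 - h ^ 2) * (h ^ 2 * s + P ^ 2) := by
        rw [← g2]
        ring
      rw [this]
      linarith
    linarith
  exact le_of_mul_le_mul_left e4 hp2

/-- The square of the distance of the line of a side is at least `4/(4 - h²)`. -/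
theorem NS_Dq_ge {n : ι → E3} {h : ι → ℝ} (hP : Pck n h) {i j : ι} {ϱ : ℝ}
    (hϱ : ϱ ^ 2 ≤ 2) (H : NS n h i ϱ j) :
    4 / (4 - h i ^ 2) ≤ Dq (h i) (h j) ⟪n i, n j⟫ := by
  obtain ⟨hn, h1, hd⟩ := hP
  have hi : h i < ϱ := NS_lt hn H
  have hi2 : h i ^ 2 < 2 :=
    lt_of_lt_of_le (pow_lt_pow_left₀ hi (by linarith [h1 i]) two_ne_zero) hϱ
  obtain ⟨a1, _⟩ := NS_Dq hn hd H
  have key := dmn_aux' (h i) (h j) _ (h1 i) hi2 (h1 j) (hd i j H.1)
  rw [Dq, div_le_div_iff₀ (by linarith) (by linarith)]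
  linarith

/-- A facet with `h < R` and a facet with `h ≥ R` have no side in common inside of the ball. -/
theorem NS_low_high' {n : ι → E3} {h : ι → ℝ} (hP : Pck n h) {i j : ι} (hj : R ≤ h j)
    {ϱ : ℝ} (hϱ : ϱ ^ 2 ≤ 1.655) : ¬ NS n h i ϱ j := by
  intro H
  have H' := NS_symm _ _ _ _ _ H
  have b1 := NS_Dq_ge hP (by linarith) H'
  obtain ⟨hn, h1, hd⟩ := hP
  have hjR : h j < ϱ := NS_lt hn H'
  obtain ⟨a1, a2⟩ := NS_Dq hn hd H'
  have hj2 : R ^ 2 ≤ h j ^ 2 := pow_le_pow_left₀ (by linarith [R_lo']) hj 2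
  have hj3 : h j ^ 2 < 1.655 :=
    lt_of_lt_of_le (pow_lt_pow_left₀ hjR (by linarith [h1 j]) two_ne_zero) hϱ
  have : (1.655 : ℝ) < 4 / (4 - h j ^ 2) := by
    rw [lt_div_iff₀ (by linarith)]
    linarith [R_sq_lo]
  linarith

theorem NS_low_high {n : ι → E3} {h : ι → ℝ} (hP : Pck n h) {i j : ι} (hj : R ≤ h j) :
    ¬ NS n h i RO j := NS_low_high' hP hj (by rw [RO_sq]; norm_num)

end par

/-! ## Abstract parity -/

/-- A symmetric irreflexive relation on a finite type: the number of elements with an odd number of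
neighbours is even. -/
theorem even_card_odd {V : Type} [Fintype V] (r : V → V → Prop) [DecidableRel r]
    (hs : ∀ a b, r a b → r b a) (hi : ∀ a, ¬ r a a) :
    Even (Finset.univ.filter fun a => Odd (Finset.univ.filter (r a)).card).card := by
  classical
  let G : SimpleGraph V := { Adj := r, symm := ⟨fun a b h => hs a b h⟩, loopless := ⟨hi⟩ }
  have h := G.even_card_odd_degree_vertices
  have e : ∀ a, G.degree a = (Finset.univ.filter (r a)).card := by
    intro a
    rw [← SimpleGraph.card_neighborFinset_eq_degree]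
    congr 1
    ext b
    simp [G]
  simpa [e] using h

/-- A symmetric irreflexive relation which is regular of an odd degree on a finite set: the number
of elements is even. -/
theorem even_of_regular {V : Type} (L : Finset V) (r : V → V → Prop) [DecidableRel r]
    (hs : ∀ a ∈ L, ∀ b ∈ L, r a b → r b a) (hi : ∀ a ∈ L, ¬ r a a) (d : ℕ) (hd : Odd d)
    (h : ∀ a ∈ L, (L.filter (r a)).card = d) : Even L.card := by
  classical
  have key := even_card_odd (V := {x // x ∈ L}) (fun a b => r a.1 b.1)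
    (fun a b h => hs a.1 a.2 b.1 b.2 h) (fun a => hi a.1 a.2)
  have e : ∀ a : {x // x ∈ L},
      (Finset.univ.filter (fun b : {x // x ∈ L} => r a.1 b.1)).card = d := by
    intro a
    rw [← h a.1 a.2]
    rw [← Finset.card_map (Function.Embedding.subtype _)]
    congr 1
    ext b
    simp [and_comm]
  have e2 : (Finset.univ.filter fun a : {x // x ∈ L} =>
      Odd (Finset.univ.filter (fun b : {x // x ∈ L} => r a.1 b.1)).card) = Finset.univ := by
    ext a
    simp only [Finset.mem_filter, Finset.mem_univ, true_and, iff_true]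
    rw [e a]
    exact hd
  rw [e2] at key
  simpa using key

/-! ## The parity lemma -/

/-- An odd number of facets with `h < R`: one of them has a number of near sides which is different
from five. `N i` = the finite set of the near sides of the facet `i`. -/
theorem exists_not_five' {ι : Type} (n : ι → E3) (h : ι → ℝ) (hP : Pck n h) {ϱ : ℝ}
    (hϱ : ϱ ^ 2 ≤ 1.655) (L : Finset ι)
    (hL : ∀ i, i ∈ L ↔ h i < R) (N : ι → Finset ι) (hN : ∀ i ∈ L, ∀ j, j ∈ N i ↔ NS n h i ϱ j)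
    (hodd : Odd L.card) : ∃ i ∈ L, (N i).card ≠ 5 := by
  classical
  by_contra hc
  push Not at hc
  have := even_of_regular L (NS n h · ϱ ·) (fun a _ b _ H => NS_symm _ _ _ _ _ H)
    (fun a _ H => H.1 rfl) 5 (by decide) (fun a ha => by
      rw [← hc a ha]
      congr 1
      ext b
      rw [Finset.mem_filter, hN a ha b]
      constructor
      · exact fun H => H.2
      · intro H
        refine ⟨?_, H⟩
        rw [hL]
        by_contra hb
        exact NS_low_high' hP (not_lt.mp hb) hϱ H)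
  exact (Nat.not_even_iff_odd.mpr hodd) this

theorem exists_not_five {ι : Type} (n : ι → E3) (h : ι → ℝ) (hP : Pck n h) (L : Finset ι)
    (hL : ∀ i, i ∈ L ↔ h i < R) (N : ι → Finset ι) (hN : ∀ i ∈ L, ∀ j, j ∈ N i ↔ NS n h i RO j)
    (hodd : Odd L.card) : ∃ i ∈ L, (N i).card ≠ 5 :=
  exists_not_five' n h hP (by rw [RO_sq]; norm_num) L hL N hN hodd

/-- The number of the low facets with an odd number of near sides is even. -/
theorem even_odd_facets' {ι : Type} (n : ι → E3) (h : ι → ℝ) (hP : Pck n h) {ϱ : ℝ}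
    (hϱ : ϱ ^ 2 ≤ 1.655) (L : Finset ι)
    (hL : ∀ i, i ∈ L ↔ h i < R) (N : ι → Finset ι)
    (hN : ∀ i ∈ L, ∀ j, j ∈ N i ↔ NS n h i ϱ j) :
    Even (L.filter fun i => Odd (N i).card).card := by
  classical
  have key := even_card_odd (V := {x // x ∈ L}) (fun a b => NS n h a.1 ϱ b.1)
    (fun a b H => NS_symm _ _ _ _ _ H) (fun a H => H.1 rfl)
  have e : ∀ a : {x // x ∈ L},
      (Finset.univ.filter (fun b : {x // x ∈ L} => NS n h a.1 ϱ b.1)).card = (N a.1).card := by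
    intro a
    rw [← Finset.card_map (Function.Embedding.subtype _)]
    congr 1
    ext b
    rw [hN a.1 a.2 b]
    simp only [Finset.mem_map, Finset.mem_filter, Finset.mem_univ, true_and,
      Function.Embedding.coe_subtype, Subtype.exists, exists_and_right, exists_eq_right]
    constructor
    · rintro ⟨_, H⟩
      exact H
    · intro H
      refine ⟨?_, H⟩
      rw [hL]
      by_contra hb
      exact NS_low_high' hP (not_lt.mp hb) hϱ H
  simp only [e] at key
  rw [← Finset.card_map (Function.Embedding.subtype _)] at key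
  convert key using 2
  ext b
  simp [and_comm]

theorem even_odd_facets {ι : Type} (n : ι → E3) (h : ι → ℝ) (hP : Pck n h) (L : Finset ι)
    (hL : ∀ i, i ∈ L ↔ h i < R) (N : ι → Finset ι)
    (hN : ∀ i ∈ L, ∀ j, j ∈ N i ↔ NS n h i RO j) :
    Even (L.filter fun i => Odd (N i).card).card :=
  even_odd_facets' n h hP (by rw [RO_sq]; norm_num) L hL N hN

end Pool.Agent.SDL
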