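import Pool.Agent.SDL.Assembly
import Pool.Agent.SDL.Par
import Pool.Agent.SDL.N15

set_option autoImplicit false

/-!
# SDL targets, part 3: the full soft dodecahedral theorem (S10021)

The paper proof is in the rows 2752, 2764, 2768 (helper29) and 2761 (helper10, master row) of the
table `ideas`. Constants: total lift of 13 points at least `0.19`, of 14 points at least `0.472`.
-/

open MeasureTheory Set Real
open scoped RealInnerProductSpace

namespace Pool.Agent.SDL

open Pool.Agent.SDC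

/-! ## Definitions -/

/-- The outer radius, `1.2845..`, between `RO` and `2/√(4-R²) = 1.2865..`. -/
noncomputable def RP : ℝ := √(33 / 20)

open Classical in
/-- The number of the sides of the facet `i` which meet the open ball of radius `RP`. -/
noncomputable def ns {ι : Type} [Fintype ι] (n : ι → E3) (h : ι → ℝ) (i : ι) : ℕ :=
  (Finset.univ.filter fun j => NS n h i RP j).card

/-- The credits of a facet with `m` sides in the ball of radius `RP`: `5 - m`, at most three, for
`m ≤ 5`, one for `m = 6`, three for `m ≥ 7`. -/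
def crd (m : ℕ) : ℕ := if m ≤ 5 then min 3 (5 - m) else if m = 6 then 1 else 3

/-- Only used for the chord and for the high facets. -/
noncomputable def gu (t : ℝ) : ℝ := if t < 1.21 then max 0 (0.025 + 1.1 * (t - 1.15)) else 0.108

/-- The number of the chord. `(1 - 3 * gu t) * Lm t = 0.175`. -/
noncomputable def Lm (t : ℝ) : ℝ := 0.175 / (1 - 3 * gu t)

/-- The value of a credit, in units of `(π/3) β`. -/
noncomputable def gv (t : ℝ) : ℝ := if t < 1.21 then max 0 (1.2 * (t - 1.151)) else 0.0887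

/-- The number of the chord for the assembly. `(1 - 3 * gv t) * Lv t = 0.19`, `Lm t ≤ Lv t`. -/
noncomputable def Lv (t : ℝ) : ℝ := 0.19 / (1 - 3 * gv t)

/-- The integral over the facet `i` in the ball of radius `RP`; `- FI` is the cost. -/
noncomputable def FI {ι : Type} (t : ℝ) (n : ι → E3) (h : ι → ℝ) (i : ι) (e f : E3) : ℝ :=
  ∫ w in {w | w ∈ Qs n h i e f ∧ h i * cc (nr w) < RP}, G t (kap t) (bet t) (h i) (nr w)

theorem RP_sq : RP ^ 2 = 33 / 20 := Real.sq_sqrt (by norm_num)

theorem RP_pos : 0 < RP := Real.sqrt_pos.mpr (by norm_num)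

theorem RO_lt_RP : RO < RP := Real.sqrt_lt_sqrt (by norm_num) (by norm_num)

/-! ## One facet -/

/-- RP. Beyond `R` the integrand is `≥ 0` (`tBET`: `t³ + β ≤ (1-κ) R³`), so the integral to `RP` is
at least the integral to `RO`. -/
def T_RP : Prop := ∀ (ι : Type) [Fintype ι] (n : ι → E3) (h : ι → ℝ) (i : ι) (e f : E3) (t : ℝ),
  Pck n h → Irr n h → Onb (n i) e f → 1 ≤ t → t < R →
  ∫ w in {w | w ∈ Qs n h i e f ∧ h i * cc (nr w) < RO}, G t (kap t) (bet t) (h i) (nr w) ≤
    FI t n h i e f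

/-- F. The chord. PROOF. For `t < 1.1272` this is the chord `0.175`. For `t ≥ 1.21`,
`Lm t = 0.25887.. > R - 1`, and `wt` (T_FBD) is below the chord to `R` by convexity.
Numerically the smallest possible chord numbers are `0.165` (t ≤ 1.1),
`0.1743` (1.13), `0.184` (1.15), `0.1895` (1.16), `0.195` (1.17), `0.199` (1.1756), `0.202` (1.18),
`0.208` (1.19), `0.2137` (1.20), `0.2197` (1.21), against `Lm t = 0.175, 0.1766, 0.1892, 0.1962,
0.2037, 0.2082, 0.2119, 0.2207, 0.2303, 0.2407`. -/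
def T_F : Prop := ∀ (ι : Type) [Fintype ι] (n : ι → E3) (h : ι → ℝ) (i : ι) (e f : E3) (t : ℝ),
  Pck n h → Irr n h → Onb (n i) e f → 1 ≤ t → t < R → h i < 1 + Lm t →
  -(π / 3 * bet t * (1 - (h i - 1) / Lm t)) ≤ FI t n h i e f

/-- H. High facets. PROOF. All the sides have `Dq ≥ ρ² = 4/(4-h²)` (DMN), `1 + Lm t ≥ 1.175`,
`h ≥ t`, and `G ≥ 0` beyond `ρ` (`ρ³ (1-κ) ≥ t³ + β`; the zero of `G` is at most `1.2026` for
`t² ≤ W0`). So `FI` is at least the integral over the disc of radius `rr h (min ρ RP)`, this is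
`- 2 π (ρ - h) (X/ρ - (1-κ) h (ρ+h)/2)`, `X = t³ + β`. (Numerically the minimum, at
`h = 1 + Lm t`, of `FI/(π β/3)` is `0.008` (t = 1), `0.013` (1.125), `0.020` (1.13; needed `0.009`),
`0.085` (1.15; `0.075`), `0.135` (1.16; `0.108`), `0.214` (1.17; `0.141`), `0.338` (1.18; `0.174`),
`0.669` (1.20; `0.240`), `0.94` (1.21; `0.273`). For `t ≥ 1.21` there is nothing to prove,
`1 + Lm t > R`.) -/
def T_H : Prop := ∀ (ι : Type) [Fintype ι] (n : ι → E3) (h : ι → ℝ) (i : ι) (e f : E3) (t : ℝ),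
  Pck n h → Irr n h → Onb (n i) e f → 1 ≤ t → t < R → 1 + Lm t ≤ h i → h i < R →
  π / 3 * bet t * (3 * gu t) ≤ FI t n h i e f

/-- P. The number of sides is not five. (For `t ≤ 1.151` we have `gv t = 0`, this follows from F and
H.) The smallest margins (numerically, in units of `π β/3`, radius `RP`) are, for `n = 4`, about
`0.04` (1.15), `0.038` (1.165), `0.045` (1.18), `0.033` (1.21), larger for `t ≥ 1.22`; for the other
numbers of sides they are at least `0.058`. -/
def T_P : Prop := ∀ (ι : Type) [Fintype ι] (n : ι → E3) (h : ι → ℝ) (i : ι) (e f : E3) (t : ℝ),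
  Pck n h → Irr n h → Onb (n i) e f → 1.151 ≤ t → t < R → h i < 1 + Lv t → ns n h i ≠ 5 →
  -(π / 3 * bet t * (1 - (h i - 1) / Lv t - gv t * crd (ns n h i))) ≤ FI t n h i e f

/-! ## Combinatorics -/

/-- E13. In every family of 13 facets below `R`, for every symmetric relation contained in `NS`, the
sum of the credits is at least three. PROOF. If the sum is at most two then by parity the degree
sequence is `(4,5^12)` or `(5^12,6)`. (1) `Pos n`: otherwise there is `u`, `‖u‖ = 1`, with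
`⟪n k,u⟫ ≤ 0` for all `k`. Let `x` be the facet of degree four (arbitrary in the second case) and
choose such a `u` with `⟪n x,u⟫` minimal. Then some `k ≠ x` has `⟪n x,u⟫ ≤ ⟪n k,u⟫` (otherwise
`⟪n k,u⟫ < 0` for all `k ≠ x`, and one could move `u` a little in the direction `- n x`), so the
maximum of the `⟪n k,u⟫` is attained at some `k ≠ x`. The tangent directions at `n k` of its (at
least) five neighbours are in a closed half plane (the one opposite to `u`) and have mutual gaps
`≥ arccos (0.65)` (GAP, `Dq < 33/20`): ARC type argument, `5 arccos 0.65 + arccos (-0.65) > 2π`.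
(2) `NS` is stable under small changes of the heights. So for a generic `g` near `h`
(`exists_generic'`), `Good n g`, and
`NS` is contained in `Adj n g`. `∑ card (nb n g i) = 66` (`card_darts`). `(5^12,6)`: `no_hex`.
`(4,5^12)`: `nb` is `NS` and one edge `{a,b}`; either `(5^12,6)` again, or `(4,5^10,6^2)` with
adjacent sixes `a`, `b`: does not exist (helper4's search, 212 nodes). -/
def T_E13 : Prop := ∀ (ι : Type) [Fintype ι] (n : ι → E3) (h : ι → ℝ) (g : ι → Finset ι),
  Fintype.card ι = 13 → Pck n h → (∀ i, h i < R) → (∀ i j, j ∈ g i → i ∈ g j) →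
  (∀ i j, j ∈ g i → NS n h i RP j) → 3 ≤ ∑ i, crd (g i).card

/-- E14. In every family of 14 facets below `R`, for every symmetric relation contained in `NS`, the
sum of the credits is at least two. PROOF. Parity leaves only the case that all the degrees are
five. Then as E13: `∑ card (nb n g i) = 72`, `nb` is `NS` and one edge, so it has the degrees
`(5^12,6^2)` with adjacent sixes: does not exist (35 nodes). -/
def T_E14 : Prop := ∀ (ι : Type) [Fintype ι] (n : ι → E3) (h : ι → ℝ) (g : ι → Finset ι),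
  Fintype.card ι = 14 → Pck n h → (∀ i, h i < R) → (∀ i j, j ∈ g i → i ∈ g j) →
  (∀ i j, j ∈ g i → NS n h i RP j) → 2 ≤ ∑ i, crd (g i).card

/-! ## Total lift -/

/-- D13. -/
def T_D13 : Prop := ∀ (ι : Type) [Fintype ι] (n : ι → E3) (h : ι → ℝ), Fintype.card ι = 13 →
  Pck n h → (∀ i, h i ≤ R) → 0.19 ≤ ∑ i, (h i - 1)

/-- D14. -/
def T_D14 : Prop := ∀ (ι : Type) [Fintype ι] (n : ι → E3) (h : ι → ℝ), Fintype.card ι = 14 →
  Pck n h → (∀ i, h i ≤ R) → 0.472 ≤ ∑ i, (h i - 1)

/-! ## Assembly -/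

/-- MXW. Arbitrary weights. PROOF. As MX1 (see `P_MX1.lean`), `tSUM` for `ϱ = RP`. -/
def T_MXW : Prop := ∀ (ι : Type) [Fintype ι] (n : ι → E3) (h : ι → ℝ) (t : ℝ) (w : ι → ℝ),
  Pck n h → Irr n h → 1 ≤ t → t < R →
  (∀ i (e f : E3), Onb (n i) e f → -(π / 3 * bet t * w i) ≤ FI t n h i e f) → ∑ i, w i ≤ 12 →
  (volume (Poly n h ∩ Metric.closedBall 0 t)).toReal ≤
    (1 - kap t) * (volume (Poly n h ∩ Metric.closedBall 0 RP)).toReal

/-- ALL (uses RP, MXW, F, H, P, E13, E14, D13, D14, FBD, `lift_ge_of_fifteen`). PROOF. `p_IRR`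
removes `Irr` (as in `P_MX3`). Let `A` be the set of the `i` with `h i < R`, `N` its cardinality.
The facets
outside of `A` get `w = 0` (`T_FBD`: `wt ≤ 0` for `h ≥ R`). (1) `N ≤ 12`: `w i = 1` on `A`
(`T_FBD`: `wt ≤ 1`). (2) `N ≥ 15`: `w i = max (wt (h i)) 0 ≤ 1 - (h i - 1)/(R - 1)` (convexity of
`wt`) and `lift_ge_of_fifteen` for the subtype `A`. (3) `N = 13` or `14`. Let `B` be the set of the
`i ∈ A` with `1 + Lv t ≤ h i`. On `B`: `w = - 3 gu t` (H). (3a) `B` nonempty: on `A \ B`,
`w = 1 - (h i - 1)/Lv t` (F, H). If `A \ B` has at most 12 elements: the sum is at most `12`. Otherwise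
`N = 14`, `A \ B` has 13 elements, D13 gives `13 - 0.19/Lv t - 3 gu t ≤ 12`. (3b) `B` empty:
`w i = 1 - (h i - 1)/Lv t - gv t * crd (ns n h i)` (F, H if `ns = 5` or `t < 1.151`, or P), and
`ns n h i` is the degree of the graph `NS` restricted to `A` (as `NS_low_high`: for `h i < R ≤ h j`,
`Dq ≥ 4/(4 - (h j)²) ≥ 4/(4 - R²) > 33/20`). D13 and E13:
`13 - 0.19/Lv t - 3 gv t ≤ 12`. D14 and E14: `14 - 0.472/Lv t - 2 gv t ≤ 12`, that is
`(2 - 2 gv t) * Lv t ≤ 0.472`. (E13, E14, D13, D14 for the subtype `A`.) -/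
def T_ALL : Prop := ∀ (ι : Type) [Fintype ι] (n : ι → E3) (h : ι → ℝ), Pck n h →
  ∀ t : ℝ, 1 ≤ t → t < R →
  (volume (Poly n h ∩ Metric.closedBall 0 t)).toReal ≤
    (1 - kap t) * (volume (Poly n h ∩ Metric.closedBall 0 RP)).toReal

/-- FIN (uses ALL). PROOF. As MX3, VX, NW. -/
def T_FIN : Prop := ∀ (X : Set E3), (∀ x ∈ X, ∀ y ∈ X, x ≠ y → (2 : ℝ) ≤ dist x y) →
  ∀ c ∈ X, ∀ r : ℝ, 0 ≤ r → Ineq X c r

end Pool.Agent.SDL
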