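import Pool.Agent.SDL.AffCert

set_option autoImplicit false

/-!
# AffReg: regions

The inequalities of an affine certificate from inequalities without marks, region by region.
-/

open scoped RealInnerProductSpace

namespace Pool.Agent.SDL

/-- The one dimensional inequalities of the pairs. -/
theorem Cert.hP_of (C : Cert) (L : ℝ) (hL : 0 < L)
    (h0 : ∀ u, -1 ≤ u → u ≤ 1 / 2 → C.P0 u ≤ 0)
    (h1 : ∀ u, -1 ≤ u → u ≤ (1 + L) / 2 → u ≤ 1 → C.P1 u ≤ 0)
    (h2 : ∀ u, 1 / 2 ≤ u → u ≤ (1 + L) / 2 → u ≤ 1 →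
      2 * (L - (2 * u - 1)) * C.P0 u + (2 * u - 1) * C.P1 u ≤ 0) :
    ∀ u s, -1 ≤ u → u ≤ 1 → 0 ≤ s → s ≤ 1 → 2 * u - 1 ≤ L * s →
      2 * (1 - s) * C.P0 u + s * C.P1 u ≤ 0 := by
  intro u s hu0 hu1 hs0 hs1 hus
  have hLs : L * s ≤ L := by nlinarith
  have hu2 : u ≤ (1 + L) / 2 := by linarith
  have g1 := h1 u hu0 hu2 hu1
  rcases le_total u (1 / 2) with hu | hu
  · have g0 := h0 u hu0 hu
    nlinarith [mul_nonneg (sub_nonneg.mpr hs1) (neg_nonneg.mpr g0),
      mul_nonneg hs0 (neg_nonneg.mpr g1)]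
  · have g2 := h2 u hu hu2 hu1
    -- a combination of the two vertices of the mark domain
    have key : (L - (2 * u - 1)) * (2 * (1 - s) * C.P0 u + s * C.P1 u) =
        (1 - s) * (2 * (L - (2 * u - 1)) * C.P0 u + (2 * u - 1) * C.P1 u) +
          (L * s - (2 * u - 1)) * C.P1 u := by ring
    have hle : (L - (2 * u - 1)) * (2 * (1 - s) * C.P0 u + s * C.P1 u) ≤ 0 := by
      rw [key]
      nlinarith [mul_nonneg (sub_nonneg.mpr hs1) (neg_nonneg.mpr g2),
        mul_nonneg (sub_nonneg.mpr hus) (neg_nonneg.mpr g1)]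
    rcases eq_or_lt_of_le (show 0 ≤ L - (2 * u - 1) by linarith) with h3 | h3
    · have hs : s = 1 := by
        have : L ≤ L * s := by linarith
        nlinarith
      rw [hs]
      linarith
    · by_contra hc
      push Not at hc
      nlinarith [mul_pos h3 hc]

/-- Marks are eliminated by multipliers. -/
theorem aff_mult {L u v t a b d Z Za Zb Zd m1 m2 m3 : ℝ}
    (ha : 0 ≤ a) (hb : 0 ≤ b) (hd : 0 ≤ d) (hs : a + b + d ≤ 1)
    (hu : 2 * u - 1 ≤ L * (a + b)) (hv : 2 * v - 1 ≤ L * (a + d)) (ht : 2 * t - 1 ≤ L * (b + d))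
    (hm1 : 0 ≤ m1) (hm2 : 0 ≤ m2) (hm3 : 0 ≤ m3)
    (h0 : Z - m1 * (2 * u - 1) - m2 * (2 * v - 1) - m3 * (2 * t - 1) < 0)
    (h1 : Za + m1 * (L - (2 * u - 1)) + m2 * (L - (2 * v - 1)) - m3 * (2 * t - 1) < 0)
    (h2 : Zb + m1 * (L - (2 * u - 1)) - m2 * (2 * v - 1) + m3 * (L - (2 * t - 1)) < 0)
    (h3 : Zd - m1 * (2 * u - 1) + m2 * (L - (2 * v - 1)) + m3 * (L - (2 * t - 1)) < 0) :
    (1 - a - b - d) * Z + a * Za + b * Zb + d * Zd < 0 := by
  have e : (1 - a - b - d) * Z + a * Za + b * Zb + d * Zd =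
      (1 - a - b - d) * (Z - m1 * (2 * u - 1) - m2 * (2 * v - 1) - m3 * (2 * t - 1)) +
      a * (Za + m1 * (L - (2 * u - 1)) + m2 * (L - (2 * v - 1)) - m3 * (2 * t - 1)) +
      b * (Zb + m1 * (L - (2 * u - 1)) - m2 * (2 * v - 1) + m3 * (L - (2 * t - 1))) +
      d * (Zd - m1 * (2 * u - 1) + m2 * (L - (2 * v - 1)) + m3 * (L - (2 * t - 1))) -
      m1 * (L * (a + b) - (2 * u - 1)) - m2 * (L * (a + d) - (2 * v - 1)) -
        m3 * (L * (b + d) - (2 * t - 1)) := by ring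
  have k1 : 0 ≤ m1 * (L * (a + b) - (2 * u - 1)) := mul_nonneg hm1 (by linarith)
  have k2 : 0 ≤ m2 * (L * (a + d) - (2 * v - 1)) := mul_nonneg hm2 (by linarith)
  have k3 : 0 ≤ m3 * (L * (b + d) - (2 * t - 1)) := mul_nonneg hm3 (by linarith)
  -- a convex combination of negative numbers is negative
  have conv : ∀ w x y z p q r s : ℝ, 0 ≤ p → 0 ≤ q → 0 ≤ r → 0 ≤ s → p + q + r + s = 1 →
      w < 0 → x < 0 → y < 0 → z < 0 → p * w + q * x + r * y + s * z < 0 := by
    intro w x y z p q r s hp hq hr hs hsum hw hx hy hz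
    have n1 : p * w ≤ 0 := mul_nonpos_of_nonneg_of_nonpos hp hw.le
    have n2 : q * x ≤ 0 := mul_nonpos_of_nonneg_of_nonpos hq hx.le
    have n3 : r * y ≤ 0 := mul_nonpos_of_nonneg_of_nonpos hr hy.le
    have n4 : s * z ≤ 0 := mul_nonpos_of_nonneg_of_nonpos hs hz.le
    by_contra hc
    push Not at hc
    have z1 : p * w = 0 := by linarith
    have z2 : q * x = 0 := by linarith
    have z3 : r * y = 0 := by linarith
    have z4 : s * z = 0 := by linarith
    rcases mul_eq_zero.1 z1 with h | h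
    · rcases mul_eq_zero.1 z2 with h' | h'
      · rcases mul_eq_zero.1 z3 with h'' | h''
        · rcases mul_eq_zero.1 z4 with h''' | h'''
          · linarith
          · linarith
        · linarith
      · linarith
    · linarith
  have c := conv _ _ _ _ (1 - a - b - d) a b d (by linarith) ha hb hd (by ring) h0 h1 h2 h3
  rw [e]
  linarith

section regions

/-- The domain of a region: Gram determinant. -/
def Gm (u v t : ℝ) : Prop := 0 ≤ 1 + 2 * u * v * t - u ^ 2 - v ^ 2 - t ^ 2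

/-- The inequalities of the four regions (number of the sides greater than `1 / 2`). The
multiplier of the packing condition of the first side is `m1 u v t` (region 1: `u` the close
side), `m2 u v t` (region 2: `u`, `v` the close sides), `m3 u v t` (region 3). -/
structure Cert.Reg (C : Cert) (N : ℕ) (L : ℝ) (m1 m2 m3 : ℝ → ℝ → ℝ → ℝ) : Prop where
  s1 : ∀ u v t, m1 u v t = m1 u t v
  s3 : ∀ u v t, m3 u v t = m3 u t v
  p1 : ∀ u v t, 1 / 2 ≤ u → u ≤ (1 + L) / 2 → -1 ≤ v → -1 ≤ t → v ≤ 1 / 2 → t ≤ 1 / 2 →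
    Gm u v t → 0 ≤ m1 u v t
  p2 : ∀ u v t, 1 / 2 ≤ u → u ≤ (1 + L) / 2 → 1 / 2 ≤ v → v ≤ (1 + L) / 2 → -1 ≤ t →
    t ≤ 1 / 2 → Gm u v t → 0 ≤ m2 u v t
  p3 : ∀ u v t, 1 / 2 ≤ u → u ≤ (1 + L) / 2 → 1 / 2 ≤ v → v ≤ (1 + L) / 2 →
    1 / 2 ≤ t → t ≤ (1 + L) / 2 → Gm u v t → 0 ≤ m3 u v t
  a0 : ∀ u v t, -1 ≤ u → -1 ≤ v → -1 ≤ t → u ≤ 1 / 2 → v ≤ 1 / 2 → t ≤ 1 / 2 → Gm u v t →
    C.Z0 N u v t < 0
  a1 : ∀ u v t, -1 ≤ u → -1 ≤ v → -1 ≤ t → u ≤ 1 / 2 → v ≤ 1 / 2 → t ≤ 1 / 2 → Gm u v t →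
    C.Z1 N u v t < 0
  b0 : ∀ u v t, 1 / 2 ≤ u → u ≤ (1 + L) / 2 → -1 ≤ v → -1 ≤ t → v ≤ 1 / 2 → t ≤ 1 / 2 →
    Gm u v t → C.Z0 N u v t - m1 u v t * (2 * u - 1) < 0
  b1 : ∀ u v t, 1 / 2 ≤ u → u ≤ (1 + L) / 2 → -1 ≤ v → -1 ≤ t → v ≤ 1 / 2 → t ≤ 1 / 2 →
    Gm u v t → C.Z1 N u v t + m1 u v t * (L - (2 * u - 1)) < 0
  b3 : ∀ u v t, 1 / 2 ≤ u → u ≤ (1 + L) / 2 → -1 ≤ v → -1 ≤ t → v ≤ 1 / 2 → t ≤ 1 / 2 →
    Gm u v t → C.Z1 N v t u - m1 u v t * (2 * u - 1) < 0
  c0 : ∀ u v t, 1 / 2 ≤ u → u ≤ (1 + L) / 2 → 1 / 2 ≤ v → v ≤ (1 + L) / 2 → -1 ≤ t →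
    t ≤ 1 / 2 → Gm u v t →
    C.Z0 N u v t - m2 u v t * (2 * u - 1) - m2 v u t * (2 * v - 1) < 0
  c1 : ∀ u v t, 1 / 2 ≤ u → u ≤ (1 + L) / 2 → 1 / 2 ≤ v → v ≤ (1 + L) / 2 → -1 ≤ t →
    t ≤ 1 / 2 → Gm u v t →
    C.Z1 N u v t + m2 u v t * (L - (2 * u - 1)) + m2 v u t * (L - (2 * v - 1)) < 0
  c2 : ∀ u v t, 1 / 2 ≤ u → u ≤ (1 + L) / 2 → 1 / 2 ≤ v → v ≤ (1 + L) / 2 → -1 ≤ t →
    t ≤ 1 / 2 → Gm u v t →
    C.Z1 N u t v + m2 u v t * (L - (2 * u - 1)) - m2 v u t * (2 * v - 1) < 0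
  d0 : ∀ u v t, 1 / 2 ≤ u → u ≤ (1 + L) / 2 → 1 / 2 ≤ v → v ≤ (1 + L) / 2 →
    1 / 2 ≤ t → t ≤ (1 + L) / 2 → Gm u v t →
    C.Z0 N u v t - m3 u v t * (2 * u - 1) - m3 v u t * (2 * v - 1) -
      m3 t u v * (2 * t - 1) < 0
  d1 : ∀ u v t, 1 / 2 ≤ u → u ≤ (1 + L) / 2 → 1 / 2 ≤ v → v ≤ (1 + L) / 2 →
    1 / 2 ≤ t → t ≤ (1 + L) / 2 → Gm u v t →
    C.Z1 N u v t + m3 u v t * (L - (2 * u - 1)) + m3 v u t * (L - (2 * v - 1)) -
      m3 t u v * (2 * t - 1) < 0

theorem Cert.hT_of_reg (C : Cert) (N : ℕ) (L : ℝ) (hL : 0 < L) {m1 m2 m3 : ℝ → ℝ → ℝ → ℝ}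
    (H : C.Reg N L m1 m2 m3) :
    ∀ u v t a b d, -1 ≤ t → t ≤ v → v ≤ u → u ≤ 1 → 0 ≤ a → 0 ≤ b → 0 ≤ d → a + b + d ≤ 1 →
      0 ≤ 1 + 2 * u * v * t - u ^ 2 - v ^ 2 - t ^ 2 → 2 * u - 1 ≤ L * (a + b) →
      2 * v - 1 ≤ L * (a + d) → 2 * t - 1 ≤ L * (b + d) →
      (1 - a - b - d) * C.Z0 N u v t + a * C.Z1 N u v t + b * C.Z1 N u t v +
        d * C.Z1 N v t u < 0 := by
  intro u v t a b d ht1 htv hvu hu1 ha hb hd hs hG hu hv ht
  have gub : ∀ w s : ℝ, 2 * w - 1 ≤ L * s → s ≤ 1 → w ≤ (1 + L) / 2 := by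
    intro w s h1 h2
    nlinarith
  have huL := gub u (a + b) hu (by linarith)
  have hvL := gub v (a + d) hv (by linarith)
  have htL := gub t (b + d) ht (by linarith)
  -- permutations of the Gram determinant
  have G1 : Gm u v t := hG
  have G2 : Gm u t v := by unfold Gm; nlinarith
  have G3 : Gm v t u := by unfold Gm; nlinarith
  have G4 : Gm v u t := by unfold Gm; nlinarith
  have G5 : Gm t u v := by unfold Gm; nlinarith
  rcases le_total u (1 / 2) with hu2 | hu2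
  · -- region 0
    refine aff_mult (m1 := 0) (m2 := 0) (m3 := 0) ha hb hd hs hu hv ht le_rfl le_rfl le_rfl
      ?_ ?_ ?_ ?_
    · have := H.a0 u v t (by linarith) (by linarith) ht1 hu2 (by linarith) (by linarith) G1
      linarith
    · have := H.a1 u v t (by linarith) (by linarith) ht1 hu2 (by linarith) (by linarith) G1
      linarith
    · have := H.a1 u t v (by linarith) (by linarith) (by linarith) hu2 (by linarith)
        (by linarith) G2
      linarith
    · have := H.a1 v t u (by linarith) (by linarith) (by linarith) (by linarith) (by linarith)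
        hu2 G3
      linarith
  · rcases le_total v (1 / 2) with hv2 | hv2
    · -- region 1
      refine aff_mult (m1 := m1 u v t) (m2 := 0) (m3 := 0) ha hb hd hs hu hv ht
        (H.p1 u v t hu2 huL (by linarith) ht1 hv2 (by linarith) G1)
        le_rfl le_rfl ?_ ?_ ?_ ?_
      · have := H.b0 u v t hu2 huL (by linarith) ht1 hv2 (by linarith) G1
        linarith
      · have := H.b1 u v t hu2 huL (by linarith) ht1 hv2 (by linarith) G1
        linarith
      · have := H.b1 u t v hu2 huL ht1 (by linarith) (by linarith) hv2 G2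
        rw [← H.s1] at this
        linarith
      · have := H.b3 u v t hu2 huL (by linarith) ht1 hv2 (by linarith) G1
        linarith
    · rcases le_total t (1 / 2) with ht2 | ht2
      · -- region 2
        refine aff_mult (m1 := m2 u v t) (m2 := m2 v u t) (m3 := 0) ha hb hd hs hu hv ht
          (H.p2 u v t hu2 huL hv2 hvL ht1 ht2 G1) (H.p2 v u t hv2 hvL hu2 huL ht1 ht2 G4)
          le_rfl ?_ ?_ ?_ ?_
        · have := H.c0 u v t hu2 huL hv2 hvL ht1 ht2 G1
          linarith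
        · have := H.c1 u v t hu2 huL hv2 hvL ht1 ht2 G1
          linarith
        · have := H.c2 u v t hu2 huL hv2 hvL ht1 ht2 G1
          linarith
        · have h := H.c2 v u t hv2 hvL hu2 huL ht1 ht2 G4
          linarith
      · -- region 3
        refine aff_mult (m1 := m3 u v t) (m2 := m3 v u t) (m3 := m3 t u v) ha hb hd hs hu hv ht
          (H.p3 u v t hu2 huL hv2 hvL ht2 htL G1) (H.p3 v u t hv2 hvL hu2 huL ht2 htL G4)
          (H.p3 t u v ht2 htL hu2 huL hv2 hvL G5) ?_ ?_ ?_ ?_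
        · have := H.d0 u v t hu2 huL hv2 hvL ht2 htL G1
          linarith
        · have := H.d1 u v t hu2 huL hv2 hvL ht2 htL G1
          linarith
        · have h := H.d1 u t v hu2 huL ht2 htL hv2 hvL G2
          rw [H.s3 u t v] at h
          linarith
        · have h := H.d1 v t u hv2 hvL ht2 htL hu2 huL G3
          rw [H.s3 v t u, H.s3 t v u] at h
          linarith

/-- The triple inequality at one point of the sides, for all marks. -/
def Cert.TP (C : Cert) (N : ℕ) (L u v t : ℝ) : Prop :=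
  ∀ a b d : ℝ, 0 ≤ a → 0 ≤ b → 0 ≤ d → a + b + d ≤ 1 → 2 * u - 1 ≤ L * (a + b) →
    2 * v - 1 ≤ L * (a + d) → 2 * t - 1 ≤ L * (b + d) →
    (1 - a - b - d) * C.Z0 N u v t + a * C.Z1 N u v t + b * C.Z1 N u t v +
      d * C.Z1 N v t u < 0

/-- The triple inequality from the point by point one. -/
theorem Cert.hT_of_TP (C : Cert) (N : ℕ) (L : ℝ)
    (H : ∀ u v t, -1 ≤ t → t ≤ v → v ≤ u → u ≤ 1 → Gm u v t → u ≤ (1 + L) / 2 → C.TP N L u v t)
    (hL : 0 < L) :
    ∀ u v t a b d, -1 ≤ t → t ≤ v → v ≤ u → u ≤ 1 → 0 ≤ a → 0 ≤ b → 0 ≤ d → a + b + d ≤ 1 →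
      0 ≤ 1 + 2 * u * v * t - u ^ 2 - v ^ 2 - t ^ 2 → 2 * u - 1 ≤ L * (a + b) →
      2 * v - 1 ≤ L * (a + d) → 2 * t - 1 ≤ L * (b + d) →
      (1 - a - b - d) * C.Z0 N u v t + a * C.Z1 N u v t + b * C.Z1 N u t v +
        d * C.Z1 N v t u < 0 := by
  intro u v t a b d ht1 htv hvu hu1 ha hb hd hs hG hu hv ht
  exact H u v t ht1 htv hvu hu1 hG (by nlinarith) a b d ha hb hd hs hu hv ht

/-- One point: four vertices of the simplex of the marks (always sufficient). -/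
theorem Cert.TP_of_vert0 (C : Cert) (N : ℕ) (L u v t : ℝ)
    (h0 : C.Z0 N u v t < 0) (h1 : C.Z1 N u v t < 0) (h2 : C.Z1 N u t v < 0)
    (h3 : C.Z1 N v t u < 0) : C.TP N L u v t := by
  intro a b d ha hb hd hs hu hv ht
  refine aff_mult (m1 := 0) (m2 := 0) (m3 := 0) ha hb hd hs hu hv ht le_rfl le_rfl le_rfl
      ?_ ?_ ?_ ?_ <;> linarith

/-- One point: multipliers (always sufficient). -/
theorem Cert.TP_of_mult (C : Cert) (N : ℕ) (L u v t : ℝ) (m1 m2 m3 : ℝ) (p1 : 0 ≤ m1)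
    (p2 : 0 ≤ m2) (p3 : 0 ≤ m3)
    (h0 : C.Z0 N u v t - m1 * (2 * u - 1) - m2 * (2 * v - 1) - m3 * (2 * t - 1) < 0)
    (h1 : C.Z1 N u v t + m1 * (L - (2 * u - 1)) + m2 * (L - (2 * v - 1)) -
      m3 * (2 * t - 1) < 0)
    (h2 : C.Z1 N u t v + m1 * (L - (2 * u - 1)) - m2 * (2 * v - 1) +
      m3 * (L - (2 * t - 1)) < 0)
    (h3 : C.Z1 N v t u - m1 * (2 * u - 1) + m2 * (L - (2 * v - 1)) +
      m3 * (L - (2 * t - 1)) < 0) : C.TP N L u v t := by
  intro a b d ha hb hd hs hu hv ht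
  exact aff_mult (m1 := m1) (m2 := m2) (m3 := m3) ha hb hd hs hu hv ht p1 p2 p3 h0 h1 h2 h3

/-- One point with one close side `u`: the six vertices of the mark domain (always sufficient
for `1 / 2 ≤ u ≤ (1 + L) / 2`). -/
theorem Cert.TP_of_vert1 (C : Cert) (N : ℕ) (L u v t : ℝ) (hu1 : 1 / 2 ≤ u)
    (hu2 : u ≤ (1 + L) / 2)
    (h1 : C.Z1 N u v t < 0) (h1' : C.Z1 N u t v < 0)
    (h2 : (L - (2 * u - 1)) * C.Z0 N u v t + (2 * u - 1) * C.Z1 N u v t < 0)
    (h2' : (L - (2 * u - 1)) * C.Z0 N u v t + (2 * u - 1) * C.Z1 N u t v < 0)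
    (h3 : (2 * u - 1) * C.Z1 N u v t + (L - (2 * u - 1)) * C.Z1 N v t u < 0)
    (h3' : (2 * u - 1) * C.Z1 N u t v + (L - (2 * u - 1)) * C.Z1 N v t u < 0) :
    C.TP N L u v t := by
  intro a b d ha hb hd hs hu hv ht
  generalize C.Z0 N u v t = Z at *
  generalize C.Z1 N u v t = A at *
  generalize C.Z1 N u t v = B at *
  generalize C.Z1 N v t u = D at *
  have he0 : 0 ≤ 2 * u - 1 := by linarith
  have heL : 0 ≤ L - (2 * u - 1) := by linarith
  generalize 2 * u - 1 = e at *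
  have hL : 0 ≤ L := by linarith
  -- the total mark of the close side is positive, or `e = 0`
  rcases eq_or_lt_of_le heL with hE | hE
  · -- `e = L`
    have heq : e = L := by linarith
    subst heq
    simp only [sub_self, zero_mul, zero_add, add_zero] at h2 h2' h3 h3'
    rcases eq_or_lt_of_le hL with h0 | h0
    · rw [← h0] at h2
      simp at h2
    · have hab : a + b = 1 := by
        have : 1 ≤ a + b := by
          by_contra hc
          push Not at hc
          nlinarith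
        linarith
      have hd0 : d = 0 := by linarith
      subst hd0
      have hb' : b = 1 - a := by linarith
      subst hb'
      rcases eq_or_lt_of_le ha with ha' | ha'
      · subst ha'
        linarith
      · nlinarith [mul_pos ha' (neg_pos.mpr h1), mul_nonneg hb (neg_nonneg.mpr h1'.le)]
  · rcases eq_or_lt_of_le he0 with h0 | h0
    · subst h0
      simp only [zero_mul, add_zero, zero_add, sub_zero] at h2 h3 hE
      have hZ : Z < 0 := by
        by_contra hc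
        push Not at hc
        nlinarith [mul_nonneg hE.le hc]
      have hD : D < 0 := by
        by_contra hc
        push Not at hc
        nlinarith [mul_nonneg hE.le hc]
      have := aff_mult (Z := Z) (Za := A) (Zb := B) (Zd := D) (m1 := 0) (m2 := 0) (m3 := 0)
        (u := 0) (v := 0) (t := 0) (L := L) ha hb hd hs (by nlinarith) (by nlinarith)
        (by nlinarith) le_rfl le_rfl le_rfl (by linarith) (by linarith) (by linarith)
        (by linarith)
      exact this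
    · -- general case: `s = a + b > 0`
      have hLp : 0 < L := by linarith
      have hsp : 0 < a + b := by
        by_contra hc
        push Not at hc
        nlinarith
      -- a multiple of the value is a combination of the six vertices
      have key : (a + b) * (L - e) * ((1 - a - b - d) * Z + a * A + b * B + d * D) =
          a * ((1 - a - b - d) * ((L - e) * Z + e * A) + (L * (a + b) - e) * A +
            d * (e * A + (L - e) * D)) +
          b * ((1 - a - b - d) * ((L - e) * Z + e * B) + (L * (a + b) - e) * B +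
            d * (e * B + (L - e) * D)) := by ring
      have hq : 0 ≤ L * (a + b) - e := by linarith
      have hr : 0 ≤ 1 - a - b - d := by linarith
      -- each bracket is negative
      have br : ∀ X Y W : ℝ, X < 0 → Y < 0 → W < 0 →
          (1 - a - b - d) * X + (L * (a + b) - e) * Y + d * W < 0 := by
        intro X Y W hX hY hW
        have n1 : (1 - a - b - d) * X ≤ 0 := mul_nonpos_of_nonneg_of_nonpos hr hX.le
        have n2 : (L * (a + b) - e) * Y ≤ 0 := mul_nonpos_of_nonneg_of_nonpos hq hY.le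
        have n3 : d * W ≤ 0 := mul_nonpos_of_nonneg_of_nonpos hd hW.le
        by_contra hc
        push Not at hc
        have z1 : (1 - a - b - d) * X = 0 := by linarith
        have z2 : (L * (a + b) - e) * Y = 0 := by linarith
        have z3 : d * W = 0 := by linarith
        rcases mul_eq_zero.1 z1 with h | h
        · rcases mul_eq_zero.1 z2 with h' | h'
          · rcases mul_eq_zero.1 z3 with h'' | h''
            · have : a + b = 1 := by linarith
              rw [this] at h'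
              linarith
            · linarith
          · linarith
        · linarith
      have b1 := br _ _ _ h2 h1 h3
      have b2 := br _ _ _ h2' h1' h3'
      have hneg : (a + b) * (L - e) * ((1 - a - b - d) * Z + a * A + b * B + d * D) < 0 := by
        rw [key]
        rcases eq_or_lt_of_le ha with ha' | ha'
        · subst ha'
          have hb' : 0 < b := by linarith
          have := mul_neg_of_pos_of_neg hb' b2
          linarith
        · have c1 := mul_neg_of_pos_of_neg ha' b1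
          have c2 := mul_nonpos_of_nonneg_of_nonpos hb b2.le
          linarith
      by_contra hc
      push Not at hc
      have := mul_nonneg (mul_pos hsp hE).le hc
      linarith

/-- Affine certificate, point by point. -/
theorem Cert.lift_ge_of_TP (C : Cert) (N : ℕ) (L : ℝ) (hL : 0 < L) (h3 : 3 ≤ N)
    (hok : C.ok N = true)
    (H : ∀ u v t, -1 ≤ t → t ≤ v → v ≤ u → u ≤ 1 → Gm u v t → u ≤ (1 + L) / 2 → C.TP N L u v t)
    (hP : ∀ u s, -1 ≤ u → u ≤ 1 → 0 ≤ s → s ≤ 1 → 2 * u - 1 ≤ L * s →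
      2 * (1 - s) * C.P0 u + s * C.P1 u ≤ 0)
    {ι : Type} [Fintype ι] {n : ι → Pool.Agent.SDC.E3} {h : ι → ℝ}
    (hN : Fintype.card ι = N) (HP : Pck n h) : L ≤ ∑ i, (h i - 1) :=
  C.lift_ge N L hL h3 hok hP (C.hT_of_TP N L H hL) n h hN HP

/-- Affine certificate, region by region. -/
theorem Cert.lift_ge_of_reg (C : Cert) (N : ℕ) (L : ℝ) (hL : 0 < L) (h3 : 3 ≤ N)
    (hok : C.ok N = true) {m1 m2 m3 : ℝ → ℝ → ℝ → ℝ} (H : C.Reg N L m1 m2 m3)
    (h0 : ∀ u, -1 ≤ u → u ≤ 1 / 2 → C.P0 u ≤ 0)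
    (h1 : ∀ u, -1 ≤ u → u ≤ (1 + L) / 2 → u ≤ 1 → C.P1 u ≤ 0)
    (h2 : ∀ u, 1 / 2 ≤ u → u ≤ (1 + L) / 2 → u ≤ 1 →
      2 * (L - (2 * u - 1)) * C.P0 u + (2 * u - 1) * C.P1 u ≤ 0)
    {ι : Type} [Fintype ι] {n : ι → Pool.Agent.SDC.E3} {h : ι → ℝ}
    (hN : Fintype.card ι = N) (HP : Pck n h) : L ≤ ∑ i, (h i - 1) :=
  C.lift_ge N L hL h3 hok (C.hP_of L hL h0 h1 h2) (C.hT_of_reg N L hL H) n h hN HP

end regions

end Pool.Agent.SDL
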