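import Pool.Agent.SDL.CMap2

set_option autoImplicit false

/-!
# CMapE: the neighbours of a facet form one cycle; there is no polyhedron with one hexagon and
pentagons otherwise
-/

open MeasureTheory Set Real
open scoped RealInnerProductSpace

namespace Pool.Agent.SDL

open Pool.Agent.SDC

section poly

variable {ι : Type} {n : ι → E3} {h : ι → ℝ}

/-- The neighbours form one cycle. -/
theorem Good.cyc [Fintype ι] (G : Good n h) (i : ι) (S : Finset ι) (hS : S ⊆ nb n h i)
    (hne : S.Nonempty) (hcl : ∀ j ∈ S, nx n h i j ∈ S) : S = nb n h i := by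
  classical
  obtain ⟨e, f, ho, hd⟩ := exists_frame (n i) (G.nn i)
  obtain ⟨θ, h1, -, h3, h4, h5, h6⟩ := G.circle i ho hd 0
  obtain ⟨j1, hj1⟩ := G.exists_adj i
  have hν : ∀ j ∈ nb n h i, nx n h i j ∈ nb n h i := by
    intro j hj
    rw [mem_nb] at hj ⊢
    exact G.nx_mem hj
  obtain ⟨j0, hj0, e0, hw⟩ := circle_wrap ⟨j1, mem_nb.mpr hj1⟩ h1 h3 hν h4 h5 h6
  have himg : ∀ T : Finset ι, T ⊆ nb n h i → (∀ j ∈ T, nx n h i j ∈ T) →
      T.image (nx n h i) = T ∧ Set.InjOn (nx n h i) (T : Set ι) := by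
    intro T hT hTc
    have hinj : Set.InjOn (nx n h i) (T : Set ι) := by
      intro j hj k hk e
      exact G.nx_inj (mem_nb.mp (hT hj)) (mem_nb.mp (hT hk)) e
    refine ⟨?_, hinj⟩
    apply Finset.eq_of_subset_of_card_le
    · intro k hk
      rw [Finset.mem_image] at hk
      obtain ⟨j, hj, rfl⟩ := hk
      exact hTc j hj
    · rw [Finset.card_image_of_injOn hinj]
  have key : ∀ T : Finset ι, T ⊆ nb n h i → T.Nonempty → (∀ j ∈ T, nx n h i j ∈ T) →
      j0 ∈ T := by
    intro T hT hTne hTc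
    by_contra hcon
    obtain ⟨a1, a2⟩ := himg T hT hTc
    have b1 : ∑ j ∈ T, θ (nx n h i j) = ∑ j ∈ T, θ j := by
      conv_rhs => rw [← a1]
      rw [Finset.sum_image a2]
    have b2 : ∑ j ∈ T, Ang n i j (nx n h i j) = 0 := by
      have : ∀ j ∈ T, Ang n i j (nx n h i j) = θ (nx n h i j) - θ j := fun j hj =>
        hw j (hT hj) (fun e => hcon (e ▸ hj))
      rw [Finset.sum_congr rfl this, Finset.sum_sub_distrib, b1, sub_self]
    have b3 : 0 < ∑ j ∈ T, Ang n i j (nx n h i j) :=
      Finset.sum_pos (fun j hj => (h4 j (hT hj)).1) hTne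
    linarith
  by_contra hSne
  have hj0S := key S hS hne hcl
  have hcomp : (nb n h i \ S).Nonempty := by
    rw [Finset.nonempty_iff_ne_empty]
    intro e1
    rw [Finset.sdiff_eq_empty_iff_subset] at e1
    exact hSne (Finset.Subset.antisymm hS e1)
  have hcl2 : ∀ j ∈ nb n h i \ S, nx n h i j ∈ nb n h i \ S := by
    intro j hj
    rw [Finset.mem_sdiff] at hj ⊢
    refine ⟨hν j hj.1, fun hjS => hj.2 ?_⟩
    obtain ⟨a1, -⟩ := himg S hS hcl
    rw [← a1, Finset.mem_image] at hjS
    obtain ⟨k, hk, e1⟩ := hjS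
    have := G.nx_inj (mem_nb.mp (hS hk)) (mem_nb.mp hj.1) e1
    rwa [← this]
  have := key _ Finset.sdiff_subset hcomp hcl2
  rw [Finset.mem_sdiff] at this
  exact this.2 hj0S

/-- The orbit of a neighbour. -/
theorem Good.orbit [Fintype ι] (G : Good n h) {i j : ι} (H : Adj n h i j) {p : ℕ}
    (hp : (nb n h i).card = p) :
    (nx n h i)^[p] j = j ∧ (∀ a < p, ∀ b < p, (nx n h i)^[a] j = (nx n h i)^[b] j → a = b) ∧
    (∀ k, Adj n h i k ↔ ∃ a < p, k = (nx n h i)^[a] j) := by
  classical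
  have hν : ∀ k ∈ nb n h i, nx n h i k ∈ nb n h i := by
    intro k hk
    rw [mem_nb] at hk ⊢
    exact G.nx_mem hk
  let g : {x // x ∈ nb n h i} → {x // x ∈ nb n h i} := fun x => ⟨nx n h i x.1, hν x.1 x.2⟩
  have hg : Function.Injective g := by
    intro x y e
    have e1 : nx n h i x.1 = nx n h i y.1 := congrArg Subtype.val e
    exact Subtype.ext (G.nx_inj (mem_nb.mp x.2) (mem_nb.mp y.2) e1)
  set x0 : {x // x ∈ nb n h i} := ⟨j, mem_nb.mpr H⟩ with hx0
  have hit : ∀ a : ℕ, (g^[a] x0).1 = (nx n h i)^[a] j := by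
    intro a
    induction a with
    | zero => rfl
    | succ a ih =>
      rw [Function.iterate_succ_apply', Function.iterate_succ_apply', ← ih]
  have hper : x0 ∈ Function.periodicPts g := hg.mem_periodicPts x0
  set q := Function.minimalPeriod g x0 with hq
  have hq0 : 0 < q := Function.minimalPeriod_pos_of_mem_periodicPts hper
  have hqj : g^[q] x0 = x0 := Function.iterate_minimalPeriod
  have hinj : Set.InjOn (fun a => g^[a] x0) (Set.Iio q) :=
    Function.iterate_injOn_Iio_minimalPeriod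
  set T : Finset ι := (Finset.range q).image fun a => (nx n h i)^[a] j with hT
  have hTS : T ⊆ nb n h i := by
    intro k hk
    rw [hT, Finset.mem_image] at hk
    obtain ⟨a, -, rfl⟩ := hk
    rw [← hit]
    exact (g^[a] x0).2
  have hTcl : ∀ k ∈ T, nx n h i k ∈ T := by
    intro k hk
    rw [hT, Finset.mem_image] at hk ⊢
    obtain ⟨a, ha, rfl⟩ := hk
    rw [Finset.mem_range] at ha
    by_cases ha2 : a + 1 < q
    · exact ⟨a + 1, Finset.mem_range.mpr ha2, by rw [Function.iterate_succ_apply']⟩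
    · have ha3 : a.succ = q := by omega
      refine ⟨0, Finset.mem_range.mpr hq0, ?_⟩
      have e1 : (nx n h i)^[q] j = j := by
        rw [← hit, hqj]
      rw [← Function.iterate_succ_apply' (nx n h i) a j, ha3, e1]
      rfl
  have hTn : T = nb n h i := G.cyc i T hTS
    ⟨j, by rw [hT, Finset.mem_image]; exact ⟨0, Finset.mem_range.mpr hq0, rfl⟩⟩ hTcl
  have hinj2 : Set.InjOn (fun a => (nx n h i)^[a] j) (Finset.range q : Set ℕ) := by
    intro a ha b hb e
    rw [Finset.mem_coe, Finset.mem_range] at ha hb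
    apply hinj ha hb
    apply Subtype.ext
    simp only [hit]
    exact e
  have hcard : q = p := by
    rw [← hp, ← hTn, hT, Finset.card_image_of_injOn hinj2, Finset.card_range]
  rw [hcard] at hqj hinj2 hT
  refine ⟨by rw [← hit, hqj], ?_, ?_⟩
  · intro a ha b hb e
    exact hinj2 (by simpa using ha) (by simpa using hb) e
  · intro k
    rw [← mem_nb, ← hTn, hT, Finset.mem_image]
    constructor
    · rintro ⟨a, ha, rfl⟩
      exact ⟨a, Finset.mem_range.mp ha, rfl⟩
    · rintro ⟨a, ha, rfl⟩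
      exact ⟨a, Finset.mem_range.mpr ha, rfl⟩

/-- A path of four neighbours of a pentagon. -/
theorem Good.five [Fintype ι] (G : Good n h) {i a b c d e : ι} (hp : (nb n h i).card = 5)
    (H : Adj n h i a) (h1 : nx n h i a = b) (h2 : nx n h i b = c) (h3 : nx n h i c = d)
    (h4 : nx n h i d = e) :
    nx n h i e = a ∧ a ≠ b ∧ a ≠ c ∧ a ≠ d ∧ a ≠ e ∧ b ≠ c ∧ b ≠ d ∧ b ≠ e ∧ c ≠ d ∧ c ≠ e ∧
      d ≠ e ∧ ∀ k, Adj n h i k ↔ (k = a ∨ k = b ∨ k = c ∨ k = d ∨ k = e) := by
  obtain ⟨o1, o2, o3⟩ := G.orbit H hp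
  have e0 : (nx n h i)^[0] a = a := rfl
  have e1 : (nx n h i)^[1] a = b := h1
  have e2 : (nx n h i)^[2] a = c := by rw [Function.iterate_succ_apply', e1, h2]
  have e3 : (nx n h i)^[3] a = d := by rw [Function.iterate_succ_apply', e2, h3]
  have e4 : (nx n h i)^[4] a = e := by rw [Function.iterate_succ_apply', e3, h4]
  have e5 : nx n h i e = a := by
    rw [← e4, ← Function.iterate_succ_apply' (nx n h i) 4 a]
    exact o1
  have key : ∀ s t : ℕ, s < 5 → t < 5 → s ≠ t → (nx n h i)^[s] a ≠ (nx n h i)^[t] a :=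
    fun s t hs ht hst e => hst (o2 s hs t ht e)
  refine ⟨e5, ?_, ?_, ?_, ?_, ?_, ?_, ?_, ?_, ?_, ?_, ?_⟩
  · have := key 0 1 (by norm_num) (by norm_num) (by norm_num)
    rwa [e0, e1] at this
  · have := key 0 2 (by norm_num) (by norm_num) (by norm_num)
    rwa [e0, e2] at this
  · have := key 0 3 (by norm_num) (by norm_num) (by norm_num)
    rwa [e0, e3] at this
  · have := key 0 4 (by norm_num) (by norm_num) (by norm_num)
    rwa [e0, e4] at this
  · have := key 1 2 (by norm_num) (by norm_num) (by norm_num)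
    rwa [e1, e2] at this
  · have := key 1 3 (by norm_num) (by norm_num) (by norm_num)
    rwa [e1, e3] at this
  · have := key 1 4 (by norm_num) (by norm_num) (by norm_num)
    rwa [e1, e4] at this
  · have := key 2 3 (by norm_num) (by norm_num) (by norm_num)
    rwa [e2, e3] at this
  · have := key 2 4 (by norm_num) (by norm_num) (by norm_num)
    rwa [e2, e4] at this
  · have := key 3 4 (by norm_num) (by norm_num) (by norm_num)
    rwa [e3, e4] at this
  · intro k
    rw [o3]
    constructor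
    · rintro ⟨s, hs, rfl⟩
      interval_cases s
      · exact Or.inl e0
      · exact Or.inr (Or.inl e1)
      · exact Or.inr (Or.inr (Or.inl e2))
      · exact Or.inr (Or.inr (Or.inr (Or.inl e3)))
      · exact Or.inr (Or.inr (Or.inr (Or.inr e4)))
    · rintro (r | r | r | r | r)
      · exact ⟨0, by norm_num, by rw [r, e0]⟩
      · exact ⟨1, by norm_num, by rw [r, e1]⟩
      · exact ⟨2, by norm_num, by rw [r, e2]⟩
      · exact ⟨3, by norm_num, by rw [r, e3]⟩
      · exact ⟨4, by norm_num, by rw [r, e4]⟩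

/-- There is no polyhedron with one hexagon and pentagons otherwise. -/
theorem Good.no_hex [Fintype ι] (G : Good n h) (o : ι) (ho : (nb n h o).card = 6)
    (h5 : ∀ i, i ≠ o → (nb n h i).card = 5) : False := by
  classical
  obtain ⟨r0, hr0⟩ := G.exists_adj o
  obtain ⟨o1, o2, o3⟩ := G.orbit hr0 ho
  -- the ring
  let r : ZMod 6 → ι := fun m => (nx n h o)^[m.val] r0
  have hrA : ∀ m, Adj n h o (r m) := fun m => (o3 _).mpr ⟨m.val, ZMod.val_lt m, rfl⟩
  have hrinj : ∀ a b, r a = r b → a = b := fun a b e =>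
    ZMod.val_injective 6 (o2 a.val (ZMod.val_lt a) b.val (ZMod.val_lt b) e)
  have hrn : ∀ m, nx n h o (r m) = r (m + 1) := by
    intro m
    change nx n h o ((nx n h o)^[m.val] r0) = (nx n h o)^[(m + 1).val] r0
    rw [← Function.iterate_succ_apply' (nx n h o) m.val r0]
    fin_cases m
    · rfl
    · rfl
    · rfl
    · rfl
    · rfl
    · exact o1
  have hrsurj : ∀ k, Adj n h o k → ∃ m, k = r m := by
    intro k hk
    obtain ⟨a, ha, rfl⟩ := (o3 k).mp hk
    refine ⟨(a : ZMod 6), ?_⟩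
    change (nx n h o)^[a] r0 = (nx n h o)^[(a : ZMod 6).val] r0
    rw [ZMod.val_natCast, Nat.mod_eq_of_lt ha]
  have hro : ∀ m, r m ≠ o := fun m e => (hrA m).1 e.symm
  have hr5 : ∀ m, (nb n h (r m)).card = 5 := fun m => h5 _ (hro m)
  -- the second ring
  let c : ZMod 6 → ι := fun m => nx n h (r (m + 1)) (r m)
  have f1 : ∀ m, nx n h (r m) (r (m + 1)) = o := by
    intro m
    rw [← hrn m]
    exact G.rot2 (hrA m)
  have a1 : ∀ m, Adj n h (r m) (r (m + 1)) := by
    intro m
    rw [← hrn m]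
    exact G.rot1 (hrA m)
  have f2 : ∀ m, nx n h (r m) o = r (m - 1) := by
    intro m
    have := G.rot3 (hrA (m - 1))
    rwa [hrn, sub_add_cancel] at this
  have f3 : ∀ m, nx n h (r m) (r (m - 1)) = c (m - 1) := by
    intro m
    change nx n h (r m) (r (m - 1)) = nx n h (r (m - 1 + 1)) (r (m - 1))
    rw [sub_add_cancel]
  have a2 : ∀ m, Adj n h (r (m + 1)) (r m) := fun m => adj_symm (a1 m)
  have a3 : ∀ m, Adj n h (r m) (c m) := fun m => G.rot1 (a2 m)
  have f5 : ∀ m, nx n h (r m) (c m) = r (m + 1) := fun m => G.rot2 (a2 m)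
  have q1 : ∀ m, nx n h (c m) (r (m + 1)) = r m := fun m => G.rot3 (a2 m)
  -- the pentagon `r m`
  have P : ∀ m, nx n h (r m) (c (m - 1)) = c m ∧ r (m + 1) ≠ r (m - 1) ∧ r (m + 1) ≠ c (m - 1) ∧
      r (m + 1) ≠ c m ∧ o ≠ c (m - 1) ∧ o ≠ c m ∧ r (m - 1) ≠ c (m - 1) ∧ r (m - 1) ≠ c m ∧
      c (m - 1) ≠ c m ∧
      ∀ k, Adj n h (r m) k ↔ (k = r (m + 1) ∨ k = o ∨ k = r (m - 1) ∨ k = c (m - 1) ∨ k = c m) := by
    intro m
    obtain ⟨g0, g1, g2, g3, g4, g5, g6, g7, g8, g9, g10, g11⟩ :=
      G.five (hr5 m) (a1 m) (f1 m) (f2 m) (f3 m) (e := nx n h (r m) (c (m - 1))) rfl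
    have ha : Adj n h (r m) (nx n h (r m) (c (m - 1))) := (g11 _).mpr (by simp)
    have hx : nx n h (r m) (c (m - 1)) = c m := by
      apply G.nx_inj ha (a3 m)
      rw [g0, f5]
    rw [hx] at g4 g7 g9 g10 g11
    exact ⟨hx, g2, g3, g4, g6, g7, g8, g9, g10, g11⟩
  have q2 : ∀ m, nx n h (c m) (r m) = c (m - 1) := by
    intro m
    have := G.rot3 (((P m).2.2.2.2.2.2.2.2.2 (c (m - 1))).mpr (by simp))
    rwa [(P m).1] at this
  have q3 : ∀ m, nx n h (c m) (c (m + 1)) = r (m + 1) := by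
    intro m
    have h1 := (P (m + 1)).1
    have h2 : Adj n h (r (m + 1)) (c (m + 1 - 1)) :=
      ((P (m + 1)).2.2.2.2.2.2.2.2.2 _).mpr (by simp)
    have h3 := G.rot2 h2
    rwa [h1, add_sub_cancel_right] at h3
  have a4 : ∀ m, Adj n h (c m) (c (m + 1)) := by
    intro m
    have h1 := (P (m + 1)).1
    have h2 : Adj n h (r (m + 1)) (c (m + 1 - 1)) :=
      ((P (m + 1)).2.2.2.2.2.2.2.2.2 _).mpr (by simp)
    have h3 := G.rot1 h2
    rwa [h1, add_sub_cancel_right] at h3
  -- `c m` is not in the ring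
  have hstep : ∀ m j, c m = r j → c (m + 1) = r (j - 1) := by
    have rule : ∀ m j, c m = r j → c (j - 1) = r (m + 1) ∧ c j = r m := by
      intro m j e
      have b1 : Adj n h (r j) (r (m + 1)) := by
        rw [← e]
        exact adj_symm (((P (m + 1)).2.2.2.2.2.2.2.2.2 _).mpr (by
          rw [add_sub_cancel_right]
          simp))
      have b2 : nx n h (r j) (r (m + 1)) = r m := by rw [← e, q1]
      rcases ((P j).2.2.2.2.2.2.2.2.2 _).mp b1 with b | b | b | b | b
      · exfalso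
        have b3 : m = j := by
          have := hrinj _ _ b
          exact add_right_cancel this
        rw [b3] at e
        have := (a3 j).1
        exact this e.symm
      · exact absurd b (hro _)
      · exfalso
        have b3 : j = m + 2 := by
          have := hrinj _ _ b
          linear_combination -this
        have b4 := (P (m + 1)).2.2.1
        rw [add_sub_cancel_right] at b4
        apply b4
        rw [e, b3]
        congr 1
        ring
      · refine ⟨b.symm, ?_⟩
        rw [b, (P j).1] at b2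
        exact b2
      · exfalso
        rw [b, f5] at b2
        have b3 : m = j + 1 := (hrinj _ _ b2).symm
        have b4 := (P m).2.2.2.2.2.2.2.1
        apply b4
        rw [e, b3]
        congr 1
        ring
    intro m j e
    have h1 := (rule m j e).1
    have h2 := (rule _ _ h1).2
    exact h2
  have hnot : ∀ m j, c m ≠ r j := by
    intro m j e
    have h1 := hstep m j e
    have h2 := hstep _ _ h1
    -- `c x = r y` is impossible for `y = x, x + 1, x + 2, x - 1`
    have imp : ∀ x y, c x = r y → y ≠ x ∧ y ≠ x + 1 ∧ y ≠ x + 2 ∧ y ≠ x - 1 := by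
      intro x y e
      refine ⟨?_, ?_, ?_, ?_⟩
      · rintro rfl
        exact (a3 y).1 e.symm
      · rintro rfl
        exact (P x).2.2.2.1 e.symm
      · rintro rfl
        have b4 := (P (x + 1)).2.2.1
        rw [add_sub_cancel_right] at b4
        apply b4
        rw [e]
        congr 1
        ring
      · rintro rfl
        exact (P x).2.2.2.2.2.2.2.1 e.symm
    have i0 := imp _ _ e
    have i1 := imp _ _ h1
    have i2 := imp _ _ h2
    have dec : ∀ m j : ZMod 6, (j ≠ m ∧ j ≠ m + 1 ∧ j ≠ m + 2 ∧ j ≠ m - 1) →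
        (j - 1 ≠ m + 1 ∧ j - 1 ≠ m + 1 + 1 ∧ j - 1 ≠ m + 1 + 2 ∧ j - 1 ≠ m + 1 - 1) →
        (j - 1 - 1 ≠ m + 1 + 1 ∧ j - 1 - 1 ≠ m + 1 + 1 + 1 ∧ j - 1 - 1 ≠ m + 1 + 1 + 2 ∧
          j - 1 - 1 ≠ m + 1 + 1 - 1) → False := by decide
    exact dec m j i0 i1 i2
  have hco : ∀ m, c m ≠ o := fun m => (P m).2.2.2.2.2.1.symm
  -- the pentagon `c m`
  have Q : ∀ m, nx n h (c m) (nx n h (c m) (c (m - 1))) = c (m + 1) ∧
      r (m + 1) ≠ nx n h (c m) (c (m - 1)) ∧ r m ≠ nx n h (c m) (c (m - 1)) ∧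
      ∀ k, Adj n h (c m) k ↔ (k = c (m + 1) ∨ k = r (m + 1) ∨ k = r m ∨ k = c (m - 1) ∨
        k = nx n h (c m) (c (m - 1))) := by
    intro m
    obtain ⟨g0, g1, g2, g3, g4, g5, g6, g7, g8, g9, g10, g11⟩ :=
      G.five (h5 _ (hco m)) (a4 m) (q3 m) (q1 m) (q2 m) (e := nx n h (c m) (c (m - 1))) rfl
    exact ⟨g0, g7, g9, g11⟩
  have hcinj : ∀ i j, c i = c j → i = j := by
    intro i j e
    have b1 : Adj n h (c i) (r (j + 1)) := by
      rw [e]
      exact ((Q j).2.2.2 _).mpr (by simp)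
    have b2 : nx n h (c i) (r (j + 1)) = r j := by rw [e, q1]
    rcases ((Q i).2.2.2 _).mp b1 with b | b | b | b | b
    · exact absurd b.symm (hnot _ _)
    · exact (add_right_cancel (hrinj _ _ b)).symm
    · exfalso
      rw [b, q2] at b2
      exact hnot _ _ b2
    · exact absurd b.symm (hnot _ _)
    · exfalso
      rw [b, (Q i).1] at b2
      exact hnot _ _ b2
  -- the fifth neighbour of `c m` is the same for all `m`
  have hz : ∀ m, nx n h (c m) (c (m - 1)) = nx n h (c (m + 1)) (c (m + 1 - 1)) := by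
    intro m
    have b1 : Adj n h (c m) (nx n h (c m) (c (m - 1))) := ((Q m).2.2.2 _).mpr (by simp)
    have b2 := G.rot3 b1
    rw [(Q m).1] at b2
    rw [add_sub_cancel_right]
    exact b2.symm
  have hzz : ∀ m, nx n h (c m) (c (m - 1)) = nx n h (c 0) (c (0 - 1)) := by
    intro m
    have k1 := hz 0
    have k2 := hz 1
    have k3 := hz 2
    have k4 := hz 3
    have k5 := hz 4
    fin_cases m
    · rfl
    · exact k1.symm
    · exact (k1.trans k2).symm
    · exact (k1.trans (k2.trans k3)).symm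
    · exact (k1.trans (k2.trans (k3.trans k4))).symm
    · exact (k1.trans (k2.trans (k3.trans (k4.trans k5)))).symm
  set z := nx n h (c 0) (c (0 - 1)) with hzd
  have hzadj : ∀ m, Adj n h z (c m) := by
    intro m
    have b1 : Adj n h (c m) (nx n h (c m) (c (m - 1))) := ((Q m).2.2.2 _).mpr (by simp)
    rw [hzz] at b1
    exact adj_symm b1
  have hzo : z ≠ o := by
    intro e
    have b1 := hzadj 0
    rw [e] at b1
    obtain ⟨m, hm⟩ := hrsurj _ b1
    exact hnot _ _ hm
  have hcard := h5 z hzo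
  have h6 : (Finset.univ.image c).card = 6 := by
    rw [Finset.card_image_of_injective _ (fun a b e => hcinj a b e), Finset.card_univ, ZMod.card]
  have hsub : Finset.univ.image c ⊆ nb n h z := by
    intro k hk
    rw [Finset.mem_image] at hk
    obtain ⟨m, -, rfl⟩ := hk
    exact mem_nb.mpr (hzadj m)
  have := Finset.card_le_card hsub
  omega

end poly

end Pool.Agent.SDL
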