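import Pool.Agent.SDL.CGen
import Pool.Agent.SDL.CMapE

set_option autoImplicit false

/-!
# CDel: the Delaunay triangulation of a finite set of directions
-/

open MeasureTheory Set Real
open scoped RealInnerProductSpace

namespace Pool.Agent.SDL

open Pool.Agent.SDC

section poly

variable {ι : Type} {n : ι → E3} {h : ι → ℝ}

/-- The combinatorial map of a triangulation of the sphere with vertices `n i`: `nb i` = the
neighbours of `i`, `nx i j` = the next neighbour of `i` after `j`. -/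
structure IsCM [Fintype ι] (n : ι → E3) (nb : ι → Finset ι) (nx : ι → ι → ι) : Prop where
  ne : ∀ i j, j ∈ nb i → i ≠ j
  symm : ∀ i j, j ∈ nb i → i ∈ nb j
  mem : ∀ i j, j ∈ nb i → nx i j ∈ nb i
  mem' : ∀ i j, j ∈ nb i → nx i j ∈ nb j
  rot : ∀ i j, j ∈ nb i → nx j (nx i j) = i
  rot' : ∀ i j, j ∈ nb i → nx (nx i j) i = j
  inj : ∀ i j k, j ∈ nb i → k ∈ nb i → nx i j = nx i k → j = k
  det : ∀ i j, j ∈ nb i → 0 < det3 (n i) (n j) (n (nx i j))
  ang0 : ∀ i j, j ∈ nb i → 0 < Ang n i j (nx i j)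
  angpi : ∀ i j, j ∈ nb i → Ang n i j (nx i j) < π
  ang : ∀ i, ∑ j ∈ nb i, Ang n i j (nx i j) = 2 * π
  card : ∑ i, ((nb i).card : ℝ) + 12 = 6 * Fintype.card ι
  cyc : ∀ i, ∀ S : Finset ι, S ⊆ nb i → S.Nonempty → (∀ j ∈ S, nx i j ∈ S) → S = nb i
  no_hex : ∀ o, (nb o).card = 6 → ∃ i, i ≠ o ∧ (nb i).card ≠ 5
  exists_nb : ∀ i, ∃ j, j ∈ nb i

/-- The Delaunay triangulation: `IsCM` and empty circumcircles. -/
structure IsDT [Fintype ι] (n : ι → E3) (nb : ι → Finset ι) (nx : ι → ι → ι) : Prop extends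
    IsCM n nb nx where
  circ : ∀ i j, j ∈ nb i → ∃ v, ⟪n i, v⟫ = 1 ∧ ⟪n j, v⟫ = 1 ∧ ⟪n (nx i j), v⟫ = 1 ∧
    ∀ l, ⟪n l, v⟫ ≤ 1

theorem Good.isCM [Fintype ι] [Nonempty ι] (G : Good n h) : IsCM n (nb n h) (nx n h) where
  ne i j hj := (mem_nb.mp hj).1
  symm i j hj := mem_nb.mpr (adj_symm (mem_nb.mp hj))
  mem i j hj := mem_nb.mpr (G.nx_mem (mem_nb.mp hj))
  mem' i j hj := mem_nb.mpr (G.rot1 (mem_nb.mp hj))
  rot i j hj := G.rot2 (mem_nb.mp hj)
  rot' i j hj := G.rot3 (mem_nb.mp hj)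
  inj i j k hj hk e := G.nx_inj (mem_nb.mp hj) (mem_nb.mp hk) e
  det i j hj := (G.vx (mem_nb.mp hj)).1
  ang0 i j hj := ((G.sum_Ang i).1 j hj).1
  angpi i j hj := ((G.sum_Ang i).1 j hj).2
  ang i := (G.sum_Ang i).2
  card := G.card_darts
  cyc i S := G.cyc i S
  no_hex o ho := by
    by_contra hcon
    push Not at hcon
    exact G.no_hex o ho hcon
  exists_nb i := by
    obtain ⟨j, hj⟩ := G.exists_adj i
    exact ⟨j, mem_nb.mpr hj⟩

/-- Heights near one. -/
theorem exists_near_one [Fintype ι] (hn : ∀ i, ‖n i‖ = 1) (hinj : Function.Injective n)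
    (hP : Pos n) (ε : ℝ) (hε : 0 < ε) : ∃ g : ι → ℝ, (∀ i, |g i - 1| < ε) ∧ Good n g := by
  set U : Set (ι → ℝ) := {g | (∀ i, |g i - 1| < ε) ∧ (∀ i, 0 < g i) ∧
    ∀ i j, i ≠ j → g i * ⟪n j, n i⟫ < g j} with hU
  have hlt : ∀ i j, i ≠ j → ⟪n j, n i⟫ < 1 := by
    intro i j hij
    exact (inner_lt_one_iff_real_of_norm_eq_one (hn j) (hn i)).mpr
      fun e => hij (hinj e).symm
  have hUo : IsOpen U := by
    have h1 : U = (⋂ i, {g : ι → ℝ | |g i - 1| < ε}) ∩ ((⋂ i, {g : ι → ℝ | 0 < g i}) ∩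
        ⋂ i, ⋂ j, {g : ι → ℝ | i ≠ j → g i * ⟪n j, n i⟫ < g j}) := by
      ext g
      simp [hU]
    rw [h1]
    refine (isOpen_iInter_of_finite fun i => isOpen_lt (by fun_prop) continuous_const).inter
      ((isOpen_iInter_of_finite fun i => isOpen_lt continuous_const (by fun_prop)).inter
        (isOpen_iInter_of_finite fun i => isOpen_iInter_of_finite fun j => ?_))
    by_cases hij : i = j
    · have : {g : ι → ℝ | i ≠ j → g i * ⟪n j, n i⟫ < g j} = Set.univ := by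
        ext g
        simp [hij]
      rw [this]
      exact isOpen_univ
    · have : {g : ι → ℝ | i ≠ j → g i * ⟪n j, n i⟫ < g j} =
          {g | g i * ⟪n j, n i⟫ < g j} := by
        ext g
        simp [hij]
      rw [this]
      exact isOpen_lt (by fun_prop) (by fun_prop)
  have hUne : U.Nonempty := by
    refine ⟨fun _ => 1, fun i => by simpa using hε, fun i => one_pos, fun i j hij => ?_⟩
    rw [one_mul]
    exact hlt i j hij
  obtain ⟨g, hg, hgen⟩ := exists_generic' n U hUo hUne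
  refine ⟨g, hg.1, ⟨hn, hg.2.1, ?_, hP, hgen.sim⟩⟩
  intro i
  refine ⟨g i • n i, ?_, fun k hk => ?_⟩
  · rw [inner_smul_right, real_inner_self_eq_norm_sq, hn i]
    ring
  · rw [inner_smul_right]
    exact hg.2.2 i k hk.symm

/-- Existence of the Delaunay triangulation. -/
theorem exists_DT [Fintype ι] [Nonempty ι] (hn : ∀ i, ‖n i‖ = 1) (hinj : Function.Injective n)
    (hP : Pos n) : ∃ (nb : ι → Finset ι) (nx : ι → ι → ι), IsDT n nb nx := by
  classical
  choose g hg G using fun m : ℕ => exists_near_one hn hinj hP (1 / (m + 1 : ℝ)) (by positivity)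
  obtain ⟨⟨nb0, nx0⟩, hinf⟩ := Finite.exists_infinite_fiber
    (fun m : ℕ => ((nb n (g m), nx n (g m)) : (ι → Finset ι) × (ι → ι → ι)))
  rw [Set.infinite_coe_iff] at hinf
  have hfib : ∀ M : ℕ, ∃ m, M ≤ m ∧ nb n (g m) = nb0 ∧ nx n (g m) = nx0 := by
    intro M
    obtain ⟨m, hm, hM⟩ := hinf.exists_gt M
    rw [Set.mem_preimage, Set.mem_singleton_iff, Prod.mk.injEq] at hm
    exact ⟨m, hM.le, hm.1, hm.2⟩
  obtain ⟨m0, -, e1, e2⟩ := hfib 0
  have hcm : IsCM n nb0 nx0 := by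
    rw [← e1, ← e2]
    exact (G m0).isCM
  refine ⟨nb0, nx0, hcm, ?_⟩
  intro i j hj
  have hD := hcm.det i j hj
  set k := nx0 i j with hk
  set D := det3 (n i) (n j) (n k) with hDd
  have hineq : ∀ l, det3 (n j) (n k) (n l) + det3 (n k) (n i) (n l) + det3 (n i) (n j) (n l)
      ≤ D := by
    intro l
    by_contra hcon
    rw [not_le] at hcon
    set a := det3 (n j) (n k) (n l)
    set b := det3 (n k) (n i) (n l)
    set c := det3 (n i) (n j) (n l)
    have hcont : Continuous (fun x : ι → ℝ => x i * a + x j * b + x k * c - x l * D) := by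
      fun_prop
    have hopen : IsOpen {x : ι → ℝ | 0 < x i * a + x j * b + x k * c - x l * D} :=
      isOpen_lt continuous_const hcont
    have hmem : (fun _ => (1 : ℝ)) ∈
        {x : ι → ℝ | 0 < x i * a + x j * b + x k * c - x l * D} := by
      change 0 < 1 * a + 1 * b + 1 * c - 1 * D
      linarith
    obtain ⟨ε, hε, hball⟩ := Metric.isOpen_iff.mp hopen _ hmem
    obtain ⟨M, hM⟩ := exists_nat_one_div_lt hε
    obtain ⟨m, hm, e3, e4⟩ := hfib M
    have hgm : g m ∈ Metric.ball (fun _ => (1 : ℝ)) ε := by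
      rw [Metric.mem_ball]
      rw [dist_pi_lt_iff hε]
      intro q
      rw [Real.dist_eq]
      refine (hg m q).trans_le (le_trans ?_ hM.le)
      apply one_div_le_one_div_of_le (by positivity)
      have : (M : ℝ) ≤ m := by exact_mod_cast hm
      linarith
    have hpos := hball hgm
    have hjm : j ∈ nb n (g m) i := by rw [e3]; exact hj
    have hV := (G m).vx (mem_nb.mp hjm)
    rw [e4] at hV
    obtain ⟨-, v, hv, v1, v2, v3⟩ := hV
    have e5 := cramer (n i) (n j) (n k) v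
    have e6 : D * ⟪n l, v⟫ = g m i * a + g m j * b + g m k * c := by
      rw [← inner_smul_right, e5, inner_add_right, inner_add_right, inner_smul_right,
        inner_smul_right, inner_smul_right, inner_cr, inner_cr, inner_cr, v1, v2, v3]
    have e7 := hv l
    have e8 := mul_le_mul_of_nonneg_left e7 hD.le
    have hpos' : 0 < g m i * a + g m j * b + g m k * c - g m l * D := hpos
    linarith
  refine ⟨D⁻¹ • (cr (n j) (n k) + cr (n k) (n i) + cr (n i) (n j)), ?_, ?_, ?_, ?_⟩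
  · rw [inner_smul_right, inner_add_right, inner_add_right, inner_cr, inner_cr, inner_cr,
      det3_self3, det3_self2, det3_rot, ← hDd]
    field_simp
    ring
  · rw [inner_smul_right, inner_add_right, inner_add_right, inner_cr, inner_cr, inner_cr,
      det3_self2, det3_self3, ← det3_rot, ← det3_rot, det3_rot, ← hDd]
    field_simp
    ring
  · rw [inner_smul_right, inner_add_right, inner_add_right, inner_cr, inner_cr, inner_cr,
      det3_self3, det3_self2, ← hDd]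
    field_simp
    ring
  · intro l
    rw [inner_smul_right, inner_add_right, inner_add_right, inner_cr, inner_cr, inner_cr]
    rw [inv_mul_le_iff₀ hD, mul_one]
    exact hineq l

/-! ## Sums over a combinatorial map -/

variable {nb : ι → Finset ι} {nx : ι → ι → ι}

/-- The rotation of the triangles. -/
theorem IsCM.sum_rot [Fintype ι] (C : IsCM n nb nx) (g : ι → ι → ι → ℝ) :
    ∑ i, ∑ j ∈ nb i, g i j (nx i j) = ∑ i, ∑ j ∈ nb i, g j (nx i j) i := by
  classical
  rw [Finset.sum_sigma', Finset.sum_sigma']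
  refine Finset.sum_nbij' (fun d => ⟨nx d.1 d.2, d.1⟩) (fun d => ⟨d.2, nx d.1 d.2⟩)
    ?_ ?_ ?_ ?_ ?_
  · rintro ⟨i, j⟩ hd
    rw [Finset.mem_sigma] at hd ⊢
    exact ⟨Finset.mem_univ _, C.symm _ _ (C.mem _ _ hd.2)⟩
  · rintro ⟨i, j⟩ hd
    rw [Finset.mem_sigma] at hd ⊢
    exact ⟨Finset.mem_univ _, C.mem' _ _ hd.2⟩
  · rintro ⟨i, j⟩ hd
    rw [Finset.mem_sigma] at hd
    simp only [C.rot' _ _ hd.2]
  · rintro ⟨i, j⟩ hd
    rw [Finset.mem_sigma] at hd
    simp only [C.rot _ _ hd.2]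
  · rintro ⟨i, j⟩ hd
    rw [Finset.mem_sigma] at hd
    simp only [C.rot' _ _ hd.2]

/-- Triangle inequalities can be summed. -/
theorem IsCM.sum_tri [Fintype ι] (C : IsCM n nb nx) (g : ι → ι → ι → ℝ)
    (hg : ∀ i j, j ∈ nb i → g i j (nx i j) + g j (nx i j) i + g (nx i j) i j ≤ 0) :
    ∑ i, ∑ j ∈ nb i, g i j (nx i j) ≤ 0 := by
  have h1 := C.sum_rot g
  have h2 := C.sum_rot (fun i j k => g j k i)
  have h3 : ∑ i, ∑ j ∈ nb i, (g i j (nx i j) + g j (nx i j) i + g (nx i j) i j) ≤ 0 :=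
    Finset.sum_nonpos fun i _ => Finset.sum_nonpos fun j hj => hg i j hj
  simp only [Finset.sum_add_distrib] at h3
  linarith

/-- The rotation at a vertex. -/
theorem IsCM.sum_nx [Fintype ι] (C : IsCM n nb nx) (i : ι) (f : ι → ℝ) :
    ∑ j ∈ nb i, f (nx i j) = ∑ j ∈ nb i, f j := by
  classical
  have hνi : Set.InjOn (nx i) (nb i : Set ι) := by
    intro j hj k hk e
    exact C.inj i j k hj hk e
  have h1 : (nb i).image (nx i) = nb i := by
    apply Finset.eq_of_subset_of_card_le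
    · intro k hk
      rw [Finset.mem_image] at hk
      obtain ⟨j, hj, rfl⟩ := hk
      exact C.mem i j hj
    · rw [Finset.card_image_of_injOn hνi]
  conv_rhs => rw [← h1]
  rw [Finset.sum_image hνi]

/-- The flip of the edges. -/
theorem IsCM.sum_flip [Fintype ι] (C : IsCM n nb nx) (g : ι → ι → ℝ) :
    ∑ i, ∑ j ∈ nb i, g i j = ∑ i, ∑ j ∈ nb i, g j i := by
  classical
  rw [Finset.sum_sigma', Finset.sum_sigma']
  refine Finset.sum_nbij' (fun d => ⟨d.2, d.1⟩) (fun d => ⟨d.2, d.1⟩) ?_ ?_ ?_ ?_ ?_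
  · rintro ⟨i, j⟩ hd
    rw [Finset.mem_sigma] at hd ⊢
    exact ⟨Finset.mem_univ _, C.symm _ _ hd.2⟩
  · rintro ⟨i, j⟩ hd
    rw [Finset.mem_sigma] at hd ⊢
    exact ⟨Finset.mem_univ _, C.symm _ _ hd.2⟩
  · rintro ⟨i, j⟩ _
    rfl
  · rintro ⟨i, j⟩ _
    rfl
  · rintro ⟨i, j⟩ _
    rfl

/-- The circumcentre and the covering radius: if every direction is at an angle of cosine at least
`c > 0` from some `n l`, then the vertex has norm at most `1 / c`. -/
theorem norm_circ [Finite ι] {c : ℝ} (hc : 0 < c) (hcov : ∀ u : E3, ‖u‖ = 1 → ∃ l, c ≤ ⟪n l, u⟫)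
    {v : E3} (hv : ∀ l, ⟪n l, v⟫ ≤ 1) : c * ‖v‖ ≤ 1 := by
  by_cases h0 : v = 0
  · rw [h0, norm_zero, mul_zero]
    exact zero_le_one
  · have hn0 : 0 < ‖v‖ := norm_pos_iff.mpr h0
    obtain ⟨l, hl⟩ := hcov (‖v‖⁻¹ • v) (by
      rw [norm_smul, norm_inv, norm_norm]
      field_simp)
    rw [inner_smul_right] at hl
    have h1 := hv l
    have h2 : c * ‖v‖ ≤ ‖v‖⁻¹ * ⟪n l, v⟫ * ‖v‖ := mul_le_mul_of_nonneg_right hl hn0.le
    have h3 : ‖v‖⁻¹ * ⟪n l, v⟫ * ‖v‖ = ⟪n l, v⟫ := by field_simp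
    linarith

end poly

end Pool.Agent.SDL
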