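import Pool.Agent.SDL.CSearch
import Pool.Agent.SDL.CDel

set_option autoImplicit false

/-!
# CNo: maps which do not exist
-/

open scoped RealInnerProductSpace

namespace Pool.Agent.SDL

open Pool.Agent.SDC CS

section

variable {ι : Type} [Fintype ι] {n : ι → E3} {nb : ι → Finset ι} {nx : ι → ι → ι}

theorem IsCM.cm (D : IsCM n nb nx) : CM nb nx :=
  ⟨D.ne, D.symm, D.mem, D.mem', D.rot, D.rot', D.inj, D.cyc⟩

theorem IsCM.hcard (D : IsCM n nb nx) : ∑ v, (nb v).card + 12 = 6 * Fintype.card ι := by
  have := D.card
  exact_mod_cast this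

end

section

variable {V : Type} [DecidableEq V] [Fintype V] {nb : V → Finset V} {nx : V → V → V}

/-- Two adjacent vertices with prescribed degrees, the others of degree three, four, five. -/
theorem no_two (C : CM nb nx) (hcard : ∑ v, (nb v).card + 12 = 6 * Fintype.card V) {u v : V}
    (huv : v ∈ nb u) {d0 d1 r3 r4 r5 : ℕ} (hu : (nb u).card = d0) (hv : (nb v).card = d1)
    (hdeg : ∀ w, w ≠ u → w ≠ v → (nb w).card = 3 ∨ (nb w).card = 4 ∨ (nb w).card = 5)
    (h3 : (Finset.univ.filter fun w => (w ≠ u ∧ w ≠ v) ∧ (nb w).card = 3).card = r3)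
    (h4 : (Finset.univ.filter fun w => (w ≠ u ∧ w ≠ v) ∧ (nb w).card = 4).card = r4)
    (h5 : (Finset.univ.filter fun w => (w ≠ u ∧ w ≠ v) ∧ (nb w).card = 5).card = r5)
    {k : ℕ} (hs : search k (init2 d0 d1 r3 r4 r5) = true) : False := by
  have huv' : u ≠ v := C.ne _ _ huv
  let φ : ℕ → V := fun x => if x = 0 then u else v
  have e0 : φ 0 = u := rfl
  have e1 : φ 1 = v := rfl
  have hfor : ∀ w, (∀ x < 2, φ x ≠ w) ↔ (w ≠ u ∧ w ≠ v) := by
    intro w
    constructor
    · intro h
      exact ⟨fun e => h 0 (by norm_num) (by rw [e0, e]), fun e => h 1 (by norm_num) (by rw [e1, e])⟩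
    · rintro ⟨h1, h2⟩ x hx
      interval_cases x
      · rw [e0]
        exact h1.symm
      · rw [e1]
        exact h2.symm
  apply search_sound C hcard k (init2 d0 d1 r3 r4 r5) φ 2 _ _ _ hs
  · refine ⟨?_, rfl, ?_⟩
    · intro x hx y hy e
      interval_cases x <;> interval_cases y
      · rfl
      · exact absurd e huv'
      · exact absurd e.symm huv'
      · rfl
    · intro a ha
      interval_cases a
      · refine ⟨rfl, hu, rfl, (by
          change ([[1]] : List (List ℕ)).flatten.Nodup
          simp), ?_, ?_, ?_, ?_⟩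
        · intro P hP
          have : P = [1] := List.mem_singleton.mp hP
          rw [this]
          exact List.cons_ne_nil _ _
        · intro P hP
          have : P = [1] := List.mem_singleton.mp hP
          rw [this]
          trivial
        · intro x hx
          have : x = 1 := by
            change x ∈ ([[1]] : List (List ℕ)).flatten at hx
            simpa using hx
          rw [this, e0, e1]
          exact ⟨by norm_num, huv⟩
        · intro h
          exact absurd h (by
            change ¬ (false = true)
            simp)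
      · refine ⟨rfl, hv, rfl, (by
          change ([[0]] : List (List ℕ)).flatten.Nodup
          simp), ?_, ?_, ?_, ?_⟩
        · intro P hP
          have : P = [0] := List.mem_singleton.mp hP
          rw [this]
          exact List.cons_ne_nil _ _
        · intro P hP
          have : P = [0] := List.mem_singleton.mp hP
          rw [this]
          trivial
        · intro x hx
          have : x = 0 := by
            change x ∈ ([[0]] : List (List ℕ)).flatten at hx
            simpa using hx
          rw [this, e0, e1]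
          exact ⟨by norm_num, C.symm _ _ huv⟩
        · intro h
          exact absurd h (by
            change ¬ (false = true)
            simp)
  · refine ⟨?_, ?_, ?_, ?_⟩
    · intro w hw
      rw [hfor] at hw
      exact hdeg w hw.1 hw.2
    · simp only [hfor]
      exact h3
    · simp only [hfor]
      exact h4
    · simp only [hfor]
      exact h5
  · refine ⟨rfl, rfl, rfl, rfl, rfl, rfl, rfl, rfl, rfl, rfl, rfl, rfl, rfl, rfl, rfl, trivial⟩

set_option maxRecDepth 100000 in
theorem s_462 : search (nat_lit 60)
    (init2 (nat_lit 6) (nat_lit 6) (nat_lit 0) (nat_lit 1) (nat_lit 10)) = true := by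
  decide +kernel

set_option maxRecDepth 100000 in
theorem s_562 : search (nat_lit 60)
    (init2 (nat_lit 6) (nat_lit 6) (nat_lit 0) (nat_lit 0) (nat_lit 12)) = true := by
  decide +kernel

/-- There is no map with one vertex of degree four, two adjacent vertices of degree six, the others
of degree five. -/
theorem no_462 (C : CM nb nx) (hcard : ∑ v, (nb v).card + 12 = 6 * Fintype.card V) {u v w : V}
    (huv : v ∈ nb u) (hu : (nb u).card = 6) (hv : (nb v).card = 6) (hw : (nb w).card = 4)
    (h5 : ∀ x, x ≠ u → x ≠ v → x ≠ w → (nb x).card = 5) : False := by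
  have huv' : u ≠ v := C.ne _ _ huv
  have hwu : w ≠ u := by
    rintro rfl
    omega
  have hwv : w ≠ v := by
    rintro rfl
    omega
  have e3 : (Finset.univ.filter fun x => (x ≠ u ∧ x ≠ v) ∧ (nb x).card = 3) = ∅ := by
    apply Finset.filter_false_of_mem
    rintro x - ⟨⟨h1, h2⟩, h3⟩
    by_cases h4 : x = w
    · rw [h4] at h3
      omega
    · have := h5 x h1 h2 h4
      omega
  have e4 : (Finset.univ.filter fun x => (x ≠ u ∧ x ≠ v) ∧ (nb x).card = 4) = {w} := by
    ext x
    rw [Finset.mem_filter, Finset.mem_singleton]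
    constructor
    · rintro ⟨-, ⟨h1, h2⟩, h3⟩
      by_contra h4
      have := h5 x h1 h2 h4
      omega
    · rintro rfl
      exact ⟨Finset.mem_univ _, ⟨hwu, hwv⟩, hw⟩
  have e5 : (Finset.univ.filter fun x => (x ≠ u ∧ x ≠ v) ∧ (nb x).card = 5) =
      Finset.univ \ {u, v, w} := by
    ext x
    rw [Finset.mem_filter, Finset.mem_sdiff, Finset.mem_insert, Finset.mem_insert,
      Finset.mem_singleton]
    constructor
    · rintro ⟨-, ⟨h1, h2⟩, h3⟩
      refine ⟨Finset.mem_univ _, ?_⟩
      rintro (h | h | h)
      · exact h1 h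
      · exact h2 h
      · rw [h] at h3
        omega
    · rintro ⟨-, h⟩
      push Not at h
      exact ⟨Finset.mem_univ _, ⟨h.1, h.2.1⟩, h5 x h.1 h.2.1 h.2.2⟩
  have hc3 : ({u, v, w} : Finset V).card = 3 := by
    rw [Finset.card_insert_of_notMem, Finset.card_pair hwv.symm]
    rw [Finset.mem_insert, Finset.mem_singleton]
    rintro (h | h)
    · exact huv' h
    · exact hwu h.symm
  have hc : Fintype.card V = 13 := by
    have h6 : ∑ x, (nb x).card = ∑ x ∈ ({u, v, w} : Finset V), (nb x).card +
        ∑ x ∈ Finset.univ \ {u, v, w}, (nb x).card := by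
      rw [add_comm, Finset.sum_sdiff (Finset.subset_univ _)]
    have h7 : ∑ x ∈ ({u, v, w} : Finset V), (nb x).card = 16 := by
      have hu3 : u ∉ ({v, w} : Finset V) := by
        rw [Finset.mem_insert, Finset.mem_singleton]
        rintro (h | h)
        · exact huv' h
        · exact hwu h.symm
      rw [Finset.sum_insert hu3, Finset.sum_pair hwv.symm, hu, hv, hw]
      norm_num
    have h8 : ∑ x ∈ Finset.univ \ {u, v, w}, (nb x).card =
        (Finset.univ \ {u, v, w} : Finset V).card * 5 := by
      rw [Finset.sum_const_nat]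
      intro x hx
      rw [Finset.mem_sdiff, Finset.mem_insert, Finset.mem_insert, Finset.mem_singleton] at hx
      have h := hx.2
      push Not at h
      exact h5 x h.1 h.2.1 h.2.2
    have h9 : (Finset.univ \ {u, v, w} : Finset V).card = Fintype.card V - 3 := by
      rw [Finset.card_sdiff_of_subset (Finset.subset_univ _), hc3, Finset.card_univ]
    have h10 : 3 ≤ Fintype.card V := by
      rw [← hc3]
      exact Finset.card_le_univ _
    omega
  have hd : ∀ x, x ≠ u → x ≠ v → (nb x).card = 3 ∨ (nb x).card = 4 ∨ (nb x).card = 5 := by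
    intro x h1 h2
    by_cases h3 : x = w
    · rw [h3]
      exact Or.inr (Or.inl hw)
    · exact Or.inr (Or.inr (h5 x h1 h2 h3))
  refine no_two C hcard huv hu hv hd (by rw [e3, Finset.card_empty])
    (by rw [e4, Finset.card_singleton]) ?_ s_462
  rw [e5, Finset.card_sdiff_of_subset (Finset.subset_univ _), hc3, Finset.card_univ, hc]

/-- There is no map with two adjacent vertices of degree six, the others of degree five. -/
theorem no_562 (C : CM nb nx) (hcard : ∑ v, (nb v).card + 12 = 6 * Fintype.card V) {u v : V}
    (huv : v ∈ nb u) (hu : (nb u).card = 6) (hv : (nb v).card = 6)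
    (h5 : ∀ x, x ≠ u → x ≠ v → (nb x).card = 5) : False := by
  have huv' : u ≠ v := C.ne _ _ huv
  have e3 : (Finset.univ.filter fun x => (x ≠ u ∧ x ≠ v) ∧ (nb x).card = 3) = ∅ := by
    apply Finset.filter_false_of_mem
    rintro x - ⟨⟨h1, h2⟩, h3⟩
    have := h5 x h1 h2
    omega
  have e4 : (Finset.univ.filter fun x => (x ≠ u ∧ x ≠ v) ∧ (nb x).card = 4) = ∅ := by
    apply Finset.filter_false_of_mem
    rintro x - ⟨⟨h1, h2⟩, h3⟩
    have := h5 x h1 h2
    omega
  have e5 : (Finset.univ.filter fun x => (x ≠ u ∧ x ≠ v) ∧ (nb x).card = 5) =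
      Finset.univ \ {u, v} := by
    ext x
    rw [Finset.mem_filter, Finset.mem_sdiff, Finset.mem_insert, Finset.mem_singleton]
    constructor
    · rintro ⟨-, ⟨h1, h2⟩, h3⟩
      refine ⟨Finset.mem_univ _, ?_⟩
      rintro (h | h)
      · exact h1 h
      · exact h2 h
    · rintro ⟨-, h⟩
      push Not at h
      exact ⟨Finset.mem_univ _, ⟨h.1, h.2⟩, h5 x h.1 h.2⟩
  have hc : Fintype.card V = 14 := by
    have h6 : ∑ x, (nb x).card = ∑ x ∈ ({u, v} : Finset V), (nb x).card +
        ∑ x ∈ Finset.univ \ {u, v}, (nb x).card := by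
      rw [add_comm, Finset.sum_sdiff (Finset.subset_univ _)]
    have h7 : ∑ x ∈ ({u, v} : Finset V), (nb x).card = 12 := by
      rw [Finset.sum_pair huv', hu, hv]
    have h8 : ∑ x ∈ Finset.univ \ {u, v}, (nb x).card =
        (Finset.univ \ {u, v} : Finset V).card * 5 := by
      rw [Finset.sum_const_nat]
      intro x hx
      rw [Finset.mem_sdiff, Finset.mem_insert, Finset.mem_singleton] at hx
      have h := hx.2
      push Not at h
      exact h5 x h.1 h.2
    have h9 : (Finset.univ \ {u, v} : Finset V).card = Fintype.card V - 2 := by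
      rw [Finset.card_sdiff_of_subset (Finset.subset_univ _), Finset.card_pair huv',
        Finset.card_univ]
    have h10 : 2 ≤ Fintype.card V := by
      rw [← Finset.card_pair huv']
      exact Finset.card_le_univ _
    omega
  refine no_two C hcard huv hu hv (fun x h1 h2 => Or.inr (Or.inr (h5 x h1 h2)))
    (by rw [e3, Finset.card_empty]) (by rw [e4, Finset.card_empty]) ?_ s_562
  rw [e5, Finset.card_sdiff_of_subset (Finset.subset_univ _), Finset.card_pair huv',
    Finset.card_univ, hc]

end

end Pool.Agent.SDL
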