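import Pool.Agent.SDL.CMap

set_option autoImplicit false

/-!
# CGen: a packing can be perturbed so that no four planes have a point in common
-/

open MeasureTheory Set Real
open scoped RealInnerProductSpace

namespace Pool.Agent.SDL

open Pool.Agent.SDC

section poly

variable {ι : Type} {n : ι → E3} {h : ι → ℝ}

/-- No point lies on four of the planes. -/
def Gen4 (n : ι → E3) (h : ι → ℝ) : Prop :=
  ∀ v : E3, ∀ i j k l : ι, i ≠ j → i ≠ k → j ≠ k → ⟪n i, v⟫ = h i → ⟪n j, v⟫ = h j →
    ⟪n k, v⟫ = h k → ⟪n l, v⟫ = h l → l = i ∨ l = j ∨ l = k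

theorem Gen4.sim (H : Gen4 n h) : Sim n h := fun v _ => H v

/-- A linear relation between four vectors. -/
theorem four_dep (a b c d : E3) : ∃ w : Fin 4 → ℝ, w ≠ 0 ∧
    w 0 • a + w 1 • b + w 2 • c + w 3 • d = 0 := by
  by_cases h : det3 a b c = 0
  · have hnot : ¬ LinearIndependent ℝ ![a, b, c] := by
      intro hli
      have h1 := cramer a b c
      -- the vectors span, so the vector products vanish
      have hz : cr a b = 0 := by
        apply LOW_zero hli
        · rw [inner_cr, det3_self2]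
        · rw [inner_cr, det3_self3]
        · rw [inner_cr, h]
      have hz2 : cr b c = 0 := by
        apply LOW_zero hli
        · rw [inner_cr, det3_rot, h]
        · rw [inner_cr, det3_self2]
        · rw [inner_cr, det3_self3]
      have hz3 : cr c a = 0 := by
        apply LOW_zero hli
        · rw [inner_cr, det3_self3]
        · rw [inner_cr, ← det3_rot, h]
        · rw [inner_cr, det3_self2]
      -- then `a` is proportional to `b`
      have hb : b ≠ 0 := hli.ne_zero 1
      have e2 : ⟪b, b⟫ • a + (-⟪a, b⟫) • b + (0 : ℝ) • c = 0 := by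
        have h0 : a 1 * b 2 - a 2 * b 1 = 0 := by
          have := congrArg (fun x : E3 => x 0) hz
          simpa [cr0] using this
        have h1 : a 2 * b 0 - a 0 * b 2 = 0 := by
          have := congrArg (fun x : E3 => x 1) hz
          simpa [cr1] using this
        have h2 : a 0 * b 1 - a 1 * b 0 = 0 := by
          have := congrArg (fun x : E3 => x 2) hz
          simpa [cr2] using this
        apply ext3 <;>
          simp only [PiLp.add_apply, PiLp.smul_apply, smul_eq_mul, inner3, PiLp.zero_apply]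
        · linear_combination b 1 * h2 - b 2 * h1
        · linear_combination b 2 * h0 - b 0 * h2
        · linear_combination b 0 * h1 - b 1 * h0
      rw [Fintype.linearIndependent_iff] at hli
      have h3 := hli ![⟪b, b⟫, -⟪a, b⟫, 0] (by
        rw [Fin.sum_univ_three]
        exact e2) 0
      exact hb (inner_self_eq_zero.mp h3)
    rw [Fintype.not_linearIndependent_iff] at hnot
    obtain ⟨g, hg, i, hi⟩ := hnot
    refine ⟨![g 0, g 1, g 2, 0], ?_, ?_⟩
    · intro e
      apply hi
      fin_cases i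
      · exact congrFun e 0
      · exact congrFun e 1
      · exact congrFun e 2
    · rw [Fin.sum_univ_three] at hg
      have e : (![g 0, g 1, g 2, 0] : Fin 4 → ℝ) 3 = 0 := rfl
      rw [e, zero_smul, add_zero]
      exact hg
  · refine ⟨![det3 d b c, det3 a d c, det3 a b d, - det3 a b c], ?_, ?_⟩
    · intro e
      have := congrFun e 3
      exact h (neg_eq_zero.mp this)
    · have := cramer' a b c d
      change det3 d b c • a + det3 a d c • b + det3 a b d • c + (- det3 a b c) • d = 0
      rw [neg_smul, this]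
      simp

/-- Almost all heights are generic. -/
theorem exists_generic' [Fintype ι] (n : ι → E3) (U : Set (ι → ℝ)) (hUo : IsOpen U)
    (hUne : U.Nonempty) : ∃ h' ∈ U, Gen4 n h' := by
  classical
  choose w hw0 hw using fun p : ι × ι × ι × ι => four_dep (n p.1) (n p.2.1) (n p.2.2.1)
    (n p.2.2.2)
  let φ : ι × ι × ι × ι → (ι → ℝ) → ℝ := fun p x =>
    w p 0 * x p.1 + w p 1 * x p.2.1 + w p 2 * x p.2.2.1 + w p 3 * x p.2.2.2
  let dist4 : ι × ι × ι × ι → Prop := fun p => p.1 ≠ p.2.1 ∧ p.1 ≠ p.2.2.1 ∧ p.2.1 ≠ p.2.2.1 ∧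
    p.2.2.2 ≠ p.1 ∧ p.2.2.2 ≠ p.2.1 ∧ p.2.2.2 ≠ p.2.2.1
  have hφc : ∀ p, Continuous (φ p) := by
    intro p
    simp only [φ]
    fun_prop
  -- a direction in which `φ p` is not constant
  have hdir : ∀ p, dist4 p → ∃ d : ι → ℝ, ∀ x : ι → ℝ, ∀ s : ℝ, φ p (x + s • d) = φ p x + s := by
    intro p hp
    obtain ⟨p1, p2, p3, p4, p5, p6⟩ := hp
    have hex : ∃ m, w p m ≠ 0 := by
      by_contra hcon
      push Not at hcon
      exact hw0 p (funext hcon)
    obtain ⟨m, hm⟩ := hex
    have hgen : ∀ q : ι, ∀ c : ℝ, c ≠ 0 →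
        (∀ x : ι → ℝ, ∀ s : ℝ, φ p (x + s • Pi.single q c⁻¹) = φ p x + s * (φ p (Pi.single q c⁻¹)))
        := by
      intro q c _ x s
      simp only [φ, Pi.add_apply, Pi.smul_apply, smul_eq_mul]
      ring
    fin_cases m
    · refine ⟨Pi.single p.1 (w p 0)⁻¹, fun x s => ?_⟩
      rw [hgen p.1 (w p 0) hm]
      have : φ p (Pi.single p.1 (w p 0)⁻¹) = 1 := by
        simp only [φ]
        rw [Pi.single_eq_same, Pi.single_eq_of_ne p1.symm, Pi.single_eq_of_ne p2.symm,
          Pi.single_eq_of_ne p4, mul_inv_cancel₀ (by exact hm)]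
        ring
      rw [this, mul_one]
    · refine ⟨Pi.single p.2.1 (w p 1)⁻¹, fun x s => ?_⟩
      rw [hgen p.2.1 (w p 1) hm]
      have : φ p (Pi.single p.2.1 (w p 1)⁻¹) = 1 := by
        simp only [φ]
        rw [Pi.single_eq_same, Pi.single_eq_of_ne p1, Pi.single_eq_of_ne p3.symm,
          Pi.single_eq_of_ne p5, mul_inv_cancel₀ (by exact hm)]
        ring
      rw [this, mul_one]
    · refine ⟨Pi.single p.2.2.1 (w p 2)⁻¹, fun x s => ?_⟩
      rw [hgen p.2.2.1 (w p 2) hm]
      have : φ p (Pi.single p.2.2.1 (w p 2)⁻¹) = 1 := by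
        simp only [φ]
        rw [Pi.single_eq_same, Pi.single_eq_of_ne p2, Pi.single_eq_of_ne p3,
          Pi.single_eq_of_ne p6, mul_inv_cancel₀ (by exact hm)]
        ring
      rw [this, mul_one]
    · refine ⟨Pi.single p.2.2.2 (w p 3)⁻¹, fun x s => ?_⟩
      rw [hgen p.2.2.2 (w p 3) hm]
      have : φ p (Pi.single p.2.2.2 (w p 3)⁻¹) = 1 := by
        simp only [φ]
        rw [Pi.single_eq_same, Pi.single_eq_of_ne p4.symm, Pi.single_eq_of_ne p5.symm,
          Pi.single_eq_of_ne p6.symm, mul_inv_cancel₀ (by exact hm)]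
        ring
      rw [this, mul_one]
  have hdense1 : ∀ p, Dense {x : ι → ℝ | dist4 p → φ p x ≠ 0} := by
    intro p
    by_cases hd : dist4 p
    · obtain ⟨d, hd2⟩ := hdir p hd
      intro x
      rw [Metric.mem_closure_iff]
      intro ε hε
      by_cases hx : φ p x = 0
      · have hc : Filter.Tendsto (fun s : ℝ => dist x (x + s • d)) (nhds 0) (nhds 0) := by
          have : Continuous (fun s : ℝ => dist x (x + s • d)) := by fun_prop
          have h2 := this.tendsto 0
          simpa using h2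
        have h3 : ∀ᶠ s in nhdsWithin (0 : ℝ) (Ioi 0), dist x (x + s • d) < ε :=
          (hc.eventually (gt_mem_nhds hε)).filter_mono nhdsWithin_le_nhds
        obtain ⟨s, hs1, hs2⟩ := (h3.and self_mem_nhdsWithin).exists
        have hs0 : (0 : ℝ) < s := hs2
        refine ⟨x + s • d, fun _ => ?_, hs1⟩
        rw [hd2, hx, zero_add]
        exact hs0.ne'
      · exact ⟨x, fun _ => hx, by rwa [dist_self]⟩
    · have : {x : ι → ℝ | dist4 p → φ p x ≠ 0} = Set.univ := by
        ext x
        simp [hd]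
      rw [this]
      exact dense_univ
  have hopen1 : ∀ p, IsOpen {x : ι → ℝ | dist4 p → φ p x ≠ 0} := by
    intro p
    by_cases hd : dist4 p
    · have : {x : ι → ℝ | dist4 p → φ p x ≠ 0} = {x | φ p x ≠ 0} := by
        ext x
        simp [hd]
      rw [this]
      exact isOpen_ne_fun (hφc p) continuous_const
    · have : {x : ι → ℝ | dist4 p → φ p x ≠ 0} = Set.univ := by
        ext x
        simp [hd]
      rw [this]
      exact isOpen_univ
  have hdense : Dense (⋂ p, {x : ι → ℝ | dist4 p → φ p x ≠ 0}) :=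
    dense_iInter_of_isOpen hopen1 hdense1
  obtain ⟨h', hh'U, hh'g⟩ := hdense.inter_open_nonempty U hUo hUne
  rw [mem_iInter] at hh'g
  refine ⟨h', hh'U, ?_⟩
  intro v i j k l hij hik hjk e1 e2 e3 e4
  by_contra hcon
  push Not at hcon
  have h1 := hh'g (i, j, k, l)
  have h2 : φ (i, j, k, l) h' ≠ 0 := h1 ⟨hij, hik, hjk, hcon.1, hcon.2.1, hcon.2.2⟩
  apply h2
  have h3 := hw (i, j, k, l)
  have h4 : ⟪w (i, j, k, l) 0 • n i + w (i, j, k, l) 1 • n j + w (i, j, k, l) 2 • n k +
      w (i, j, k, l) 3 • n l, v⟫ = 0 := by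
    rw [h3, inner_zero_left]
  rw [inner_add_left, inner_add_left, inner_add_left, real_inner_smul_left,
    real_inner_smul_left, real_inner_smul_left, real_inner_smul_left, e1, e2, e3, e4] at h4
  exact h4

/-- Perturbation of the heights. -/
theorem exists_generic [Fintype ι] (hp : Pck n h) (O : Set (ι → ℝ)) (hO : IsOpen O)
    (hh : h ∈ O) : ∃ h' ∈ O, (∀ i, h i < h' i) ∧ Pck n h' ∧ Gen4 n h' := by
  classical
  -- the open set
  set U : Set (ι → ℝ) := O ∩ {x | (∀ i, h i < x i) ∧
    ∀ i j, i ≠ j → 1 < x i ^ 2 + x j ^ 2 - 2 * x i * x j * ⟪n i, n j⟫} with hU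
  have hUo : IsOpen U := by
    refine hO.inter ?_
    have h1 : {x : ι → ℝ | (∀ i, h i < x i) ∧
        ∀ i j, i ≠ j → 1 < x i ^ 2 + x j ^ 2 - 2 * x i * x j * ⟪n i, n j⟫} =
        (⋂ i, {x : ι → ℝ | h i < x i}) ∩ ⋂ i, ⋂ j, {x : ι → ℝ | i ≠ j →
          1 < x i ^ 2 + x j ^ 2 - 2 * x i * x j * ⟪n i, n j⟫} := by
      ext x
      simp
    rw [h1]
    refine (isOpen_iInter_of_finite fun i => isOpen_lt continuous_const
      (continuous_apply i)).inter (isOpen_iInter_of_finite fun i =>
        isOpen_iInter_of_finite fun j => ?_)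
    by_cases hij : i = j
    · have : {x : ι → ℝ | i ≠ j → 1 < x i ^ 2 + x j ^ 2 - 2 * x i * x j * ⟪n i, n j⟫} =
          Set.univ := by
        ext x
        simp [hij]
      rw [this]
      exact isOpen_univ
    · have : {x : ι → ℝ | i ≠ j → 1 < x i ^ 2 + x j ^ 2 - 2 * x i * x j * ⟪n i, n j⟫} =
          {x | 1 < x i ^ 2 + x j ^ 2 - 2 * x i * x j * ⟪n i, n j⟫} := by
        ext x
        simp [hij]
      rw [this]
      exact isOpen_lt continuous_const (by fun_prop)
  have hUne : U.Nonempty := by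
    have hc : Filter.Tendsto (fun s : ℝ => (1 + s) • h) (nhds 0) (nhds h) := by
      have : Continuous (fun s : ℝ => (1 + s) • h) := by fun_prop
      have h2 := this.tendsto 0
      simpa using h2
    have h3 : ∀ᶠ s in nhdsWithin (0 : ℝ) (Ioi 0), (1 + s) • h ∈ O :=
      (hc.eventually (hO.mem_nhds hh)).filter_mono nhdsWithin_le_nhds
    obtain ⟨s, hs1, hs2⟩ := (h3.and self_mem_nhdsWithin).exists
    have hs0 : (0 : ℝ) < s := hs2
    refine ⟨(1 + s) • h, hs1, ?_, ?_⟩
    · intro i
      rw [Pi.smul_apply, smul_eq_mul]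
      have := hp.2.1 i
      nlinarith
    · intro i j hij
      simp only [Pi.smul_apply, smul_eq_mul]
      have h4 := hp.2.2 i j hij
      have h5 : ((1 + s) * h i) ^ 2 + ((1 + s) * h j) ^ 2
          - 2 * ((1 + s) * h i) * ((1 + s) * h j) * ⟪n i, n j⟫ =
          (1 + s) ^ 2 * (h i ^ 2 + h j ^ 2 - 2 * h i * h j * ⟪n i, n j⟫) := by ring
      rw [h5]
      have h6 : 1 < (1 + s) ^ 2 := by nlinarith
      nlinarith
  obtain ⟨h', hh'U, hh'g⟩ := exists_generic' n U hUo hUne
  refine ⟨h', hh'U.1, hh'U.2.1, ⟨hp.1, fun i => ?_, fun i j hij => (hh'U.2.2 i j hij).le⟩, hh'g⟩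
  exact (hp.2.1 i).trans (hh'U.2.1 i).le

end poly

end Pool.Agent.SDL
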