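import Pool.Agent.SDL.Par
import Pool.Agent.SDL.CGen

set_option autoImplicit false

/-!
# SDL: near sides are stable (step 2 of E13, E14)

A side which meets the open ball is stable under small changes of the heights, so for generic
heights near the given ones the near sides are sides of a `Good` polyhedron.
-/

open MeasureTheory Set Real Filter Topology
open scoped RealInnerProductSpace

namespace Pool.Agent.SDL

open Pool.Agent.SDC

section

variable {ι : Type} {n : ι → E3} {h : ι → ℝ}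

/-- Near sides are stable under small changes of the heights. -/
theorem NS_eventually [Finite ι] (hn : ∀ i, ‖n i‖ = 1) {i j : ι} {ϱ : ℝ}
    (hα : ⟪n i, n j⟫ ^ 2 < 1) (H : NS n h i ϱ j) : ∀ᶠ h' in 𝓝 h, NS n h' i ϱ j := by
  obtain ⟨hij, x, hx, h1, h2, h3⟩ := H
  have hs : 0 < 1 - ⟪n i, n j⟫ ^ 2 := by linarith
  have hii : ⟪n i, n i⟫ = 1 := by
    rw [real_inner_self_eq_norm_sq, hn i]
    norm_num
  have hjj : ⟪n j, n j⟫ = 1 := by
    rw [real_inner_self_eq_norm_sq, hn j]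
    norm_num
  set φ : (ι → ℝ) → E3 := fun g => x +
    (((g i - h i) - ⟪n i, n j⟫ * (g j - h j)) / (1 - ⟪n i, n j⟫ ^ 2)) • n i +
    (((g j - h j) - ⟪n i, n j⟫ * (g i - h i)) / (1 - ⟪n i, n j⟫ ^ 2)) • n j with hφ
  have hc : Continuous φ := by
    rw [hφ]
    fun_prop
  have hφh : φ h = x := by
    rw [hφ]
    simp
  have e1 : ∀ g, ⟪n i, φ g⟫ = g i := by
    intro g
    rw [hφ]
    simp only [inner_add_right, inner_smul_right, hii, h1]
    field_simp
    ring
  have e2 : ∀ g, ⟪n j, φ g⟫ = g j := by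
    intro g
    rw [hφ]
    simp only [inner_add_right, inner_smul_right, hjj, h2, real_inner_comm (n i) (n j)]
    field_simp
    ring
  have f1 : ∀ᶠ g in 𝓝 h, ‖φ g‖ < ϱ := by
    have : Tendsto (fun g => ‖φ g‖) (𝓝 h) (𝓝 ‖x‖) := by
      have := (hc.norm).tendsto h
      rwa [hφh] at this
    exact this.eventually_lt_const hx
  have f2 : ∀ᶠ g in 𝓝 h, ∀ k, k ≠ i → k ≠ j → ⟪n k, φ g⟫ < g k := by
    rw [eventually_all]
    intro k
    by_cases hk1 : k = i
    · exact Eventually.of_forall fun g hc => absurd hk1 hc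
    by_cases hk2 : k = j
    · exact Eventually.of_forall fun g _ hc => absurd hk2 hc
    have h4 := h3 k hk1 hk2
    have c1 : Continuous fun g : ι → ℝ => ⟪n k, φ g⟫ := continuous_const.inner hc
    have c2 : Continuous fun g : ι → ℝ => g k := continuous_apply k
    have h5 : ⟪n k, φ h⟫ < h k := by
      rw [hφh]
      exact h4
    exact ((c1.tendsto h).eventually_lt (c2.tendsto h) h5).mono fun g hg _ _ => hg
  filter_upwards [f1, f2] with g g1 g2
  exact ⟨hij, φ g, g1, e1 g, e2 g, g2⟩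

/-- A facet with a side is not redundant. -/
theorem irr_of_adj [Finite ι] {i j : ι} (hn : ∀ i, ‖n i‖ = 1)
    (hα : ⟪n i, n j⟫ ^ 2 < 1) (hij : i ≠ j) {x : E3} (h1 : ⟪n i, x⟫ = h i)
    (h2 : ⟪n j, x⟫ = h j) (h3 : ∀ k, k ≠ i → k ≠ j → ⟪n k, x⟫ < h k) :
    ∃ y, ⟪n i, y⟫ = h i ∧ ∀ k, k ≠ i → ⟪n k, y⟫ < h k := by
  have hs : 0 < 1 - ⟪n i, n j⟫ ^ 2 := by linarith
  have hii : ⟪n i, n i⟫ = 1 := by
    rw [real_inner_self_eq_norm_sq, hn i]
    norm_num
  have hjj : ⟪n j, n j⟫ = 1 := by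
    rw [real_inner_self_eq_norm_sq, hn j]
    norm_num
  set φ : ℝ → E3 := fun s => x + s • (⟪n i, n j⟫ • n i - n j) with hφ
  have hc : Continuous φ := by
    rw [hφ]
    fun_prop
  have hφ0 : φ 0 = x := by
    rw [hφ]
    simp
  have e1 : ∀ s, ⟪n i, φ s⟫ = h i := by
    intro s
    rw [hφ]
    simp only [inner_add_right, inner_smul_right, inner_sub_right, hii, h1]
    ring
  have e2 : ∀ s, ⟪n j, φ s⟫ = h j - s * (1 - ⟪n i, n j⟫ ^ 2) := by
    intro s
    rw [hφ]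
    simp only [inner_add_right, inner_smul_right, inner_sub_right, hjj, h2,
      real_inner_comm (n i) (n j)]
    ring
  have f2 : ∀ᶠ s in 𝓝[>] (0 : ℝ), ∀ k, k ≠ i → ⟪n k, φ s⟫ < h k := by
    rw [eventually_all]
    intro k
    by_cases hk1 : k = i
    · exact Eventually.of_forall fun g hc => absurd hk1 hc
    by_cases hk2 : k = j
    · subst hk2
      filter_upwards [self_mem_nhdsWithin] with s hs0 _
      have hs0' : (0 : ℝ) < s := hs0
      rw [e2 s]
      have := mul_pos hs0' hs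
      linarith
    have h4 := h3 k hk1 hk2
    have c1 : Continuous fun s : ℝ => ⟪n k, φ s⟫ := continuous_const.inner hc
    have h5 : ⟪n k, φ 0⟫ < h k := by
      rw [hφ0]
      exact h4
    exact (((c1.tendsto 0).eventually_lt_const h5).filter_mono nhdsWithin_le_nhds).mono
      fun g hg _ => hg
  obtain ⟨s, hs⟩ := f2.exists
  exact ⟨φ s, e1 s, hs⟩

/-- Generic heights near the given ones: a `Good` polyhedron which has all the near sides. The
heights can be chosen in any given neighbourhood `O`. -/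
theorem exists_good [Fintype ι] (hn : ∀ i, ‖n i‖ = 1) (hp : ∀ i, 0 < h i)
    (hd : ∀ i j, i ≠ j → 1 ≤ h i ^ 2 + h j ^ 2 - 2 * h i * h j * ⟪n i, n j⟫) (hpos : Pos n)
    {ϱ : ℝ} (g : ι → Finset ι) (hg : ∀ i, ∀ j ∈ g i, NS n h i ϱ j)
    (hne : ∀ i, (g i).Nonempty) {O : Set (ι → ℝ)} (hO : O ∈ 𝓝 h) :
    ∃ h' ∈ O, Good n h' ∧ (∀ i, ∀ j ∈ g i, NS n h' i ϱ j) ∧ ∀ i, g i ⊆ nb n h' i := by
  have hα : ∀ i, ∀ j ∈ g i, ⟪n i, n j⟫ ^ 2 < 1 := fun i j hj => (NS_Dq hn hd (hg i j hj)).1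
  have f1 : ∀ᶠ h' in 𝓝 h, ∀ i, ∀ j, j ∈ g i → NS n h' i ϱ j := by
    rw [eventually_all]
    intro i
    rw [eventually_all]
    intro j
    by_cases hj : j ∈ g i
    · exact (NS_eventually hn (hα i j hj) (hg i j hj)).mono fun _ H _ => H
    · exact Eventually.of_forall fun _ hc => absurd hc hj
  have f2 : ∀ᶠ h' in 𝓝 h, ∀ i, 0 < h' i := by
    rw [eventually_all]
    intro i
    exact ((continuous_apply i).tendsto h).eventually_const_lt (hp i)
  obtain ⟨U, hU1, hU2, hU3⟩ := mem_nhds_iff.1 (f1.and (f2.and (eventually_mem_set.2 hO)))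
  obtain ⟨h', hh', hgen⟩ := exists_generic' n U hU2 ⟨h, hU3⟩
  obtain ⟨g1, g2, g3⟩ := hU1 hh'
  refine ⟨h', g3, ⟨hn, g2, fun i => ?_, hpos, hgen.sim⟩, fun i j hj => g1 i j hj,
    fun i j hj => ?_⟩
  · obtain ⟨j, hj⟩ := hne i
    obtain ⟨hij, x, _, x1, x2, x3⟩ := g1 i j hj
    exact irr_of_adj hn (hα i j hj) hij x1 x2 x3
  · rw [mem_nb]
    obtain ⟨hij, x, _, x1, x2, x3⟩ := g1 i j hj
    exact ⟨hij, x, x1, x2, x3⟩

end

end Pool.Agent.SDL
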