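import Pool.Agent.SDL.Defs

set_option autoImplicit false

/-!
# CMap: the combinatorial map of a simple bounded polyhedron with its angles

`Vx n h i j k`: the planes `i, j, k` meet in a vertex, in the positive orientation.
`nx n h i j`: the next neighbour of `i` after `j`.
-/

open MeasureTheory Set Real
open scoped RealInnerProductSpace

namespace Pool.Agent.SDL

open Pool.Agent.SDC

/-! ## Coordinates -/

theorem inner3 (x y : E3) : ⟪x, y⟫ = x 0 * y 0 + x 1 * y 1 + x 2 * y 2 := by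
  rw [PiLp.inner_apply, Fin.sum_univ_three]
  simp only [RCLike.inner_apply, conj_trivial]
  ring

theorem ext3 {x y : E3} (h0 : x 0 = y 0) (h1 : x 1 = y 1) (h2 : x 2 = y 2) : x = y := by
  ext i
  fin_cases i
  · exact h0
  · exact h1
  · exact h2

/-- The triple product. -/
noncomputable def det3 (a b c : E3) : ℝ :=
  a 0 * (b 1 * c 2 - b 2 * c 1) + a 1 * (b 2 * c 0 - b 0 * c 2) + a 2 * (b 0 * c 1 - b 1 * c 0)

/-- The vector product. -/
noncomputable def cr (a b : E3) : E3 :=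
  !₂[a 1 * b 2 - a 2 * b 1, a 2 * b 0 - a 0 * b 2, a 0 * b 1 - a 1 * b 0]

theorem cr0 (a b : E3) : cr a b 0 = a 1 * b 2 - a 2 * b 1 := rfl

theorem cr1 (a b : E3) : cr a b 1 = a 2 * b 0 - a 0 * b 2 := rfl

theorem cr2 (a b : E3) : cr a b 2 = a 0 * b 1 - a 1 * b 0 := rfl

theorem inner_cr (a b c : E3) : ⟪c, cr a b⟫ = det3 a b c := by
  rw [inner3, cr0, cr1, cr2, det3]
  ring

theorem det3_rot (a b c : E3) : det3 b c a = det3 a b c := by
  rw [det3, det3]
  ring

theorem det3_swap (a b c : E3) : det3 b a c = - det3 a b c := by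
  rw [det3, det3]
  ring

theorem det3_self1 (a c : E3) : det3 a a c = 0 := by
  rw [det3]
  ring

theorem det3_self2 (a c : E3) : det3 a c a = 0 := by
  rw [det3]
  ring

theorem det3_self3 (a c : E3) : det3 c a a = 0 := by
  rw [det3]
  ring

/-- Cramer's rule. -/
theorem cramer (a b c w : E3) :
    det3 a b c • w = ⟪a, w⟫ • cr b c + ⟪b, w⟫ • cr c a + ⟪c, w⟫ • cr a b := by
  simp only [inner3, det3]
  apply ext3 <;> simp only [PiLp.add_apply, PiLp.smul_apply, smul_eq_mul, cr0, cr1, cr2] <;> ring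

/-- Cramer's rule, dual form. -/
theorem cramer' (a b c w : E3) :
    det3 a b c • w = det3 w b c • a + det3 a w c • b + det3 a b w • c := by
  simp only [det3]
  apply ext3 <;> simp only [PiLp.add_apply, PiLp.smul_apply, smul_eq_mul] <;> ring

theorem norm_cr (a b : E3) (ha : ‖a‖ = 1) (hb : ‖b‖ = 1) :
    ‖cr a b‖ ^ 2 = 1 - ⟪a, b⟫ ^ 2 := by
  have h1 : ⟪a, a⟫ = 1 := by rw [real_inner_self_eq_norm_sq, ha]; norm_num
  have h2 : ⟪b, b⟫ = 1 := by rw [real_inner_self_eq_norm_sq, hb]; norm_num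
  rw [← real_inner_self_eq_norm_sq, inner3, cr0, cr1, cr2]
  have h3 : (1 : ℝ) = ⟪a, a⟫ * ⟪b, b⟫ := by rw [h1, h2]; norm_num
  rw [h3]
  simp only [inner3]
  ring

section poly

variable {ι : Type} {n : ι → E3} {h : ι → ℝ}

/-- The planes `i, j, k` meet in a vertex, in the positive orientation. -/
def Vx (n : ι → E3) (h : ι → ℝ) (i j k : ι) : Prop :=
  0 < det3 (n i) (n j) (n k) ∧ ∃ v ∈ Poly n h, ⟪n i, v⟫ = h i ∧ ⟪n j, v⟫ = h j ∧ ⟪n k, v⟫ = h k

/-- At most three planes meet at every point of the polyhedron. -/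
def Sim (n : ι → E3) (h : ι → ℝ) : Prop :=
  ∀ v ∈ Poly n h, ∀ i j k l : ι, i ≠ j → i ≠ k → j ≠ k → ⟪n i, v⟫ = h i → ⟪n j, v⟫ = h j →
    ⟪n k, v⟫ = h k → ⟪n l, v⟫ = h l → l = i ∨ l = j ∨ l = k

/-- The normals span the space positively. -/
def Pos (n : ι → E3) : Prop := ∀ u : E3, u ≠ 0 → ∃ k, 0 < ⟪n k, u⟫

theorem Vx.rot {i j k : ι} (H : Vx n h i j k) : Vx n h j k i := by
  obtain ⟨h1, v, hv, h2, h3, h4⟩ := H
  exact ⟨by rw [det3_rot]; exact h1, v, hv, h3, h4, h2⟩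

theorem Vx.ne1 {i j k : ι} (H : Vx n h i j k) : i ≠ j := by
  intro e
  have := H.1
  rw [e, det3_self1] at this
  exact lt_irrefl _ this

theorem Vx.ne2 {i j k : ι} (H : Vx n h i j k) : j ≠ k := H.rot.ne1

theorem Vx.ne3 {i j k : ι} (H : Vx n h i j k) : k ≠ i := H.rot.rot.ne1

/-- `ε` small. -/
theorem small_step [Finite ι] (v d : E3) :
    ∃ ε : ℝ, 0 < ε ∧ ∀ m, ⟪n m, v⟫ < h m → ⟪n m, v + ε • d⟫ < h m := by
  have h1 : ∀ m, ∀ᶠ ε in nhdsWithin (0 : ℝ) (Ioi 0), ⟪n m, v⟫ < h m → ⟪n m, v + ε • d⟫ < h m := by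
    intro m
    by_cases hm : ⟪n m, v⟫ < h m
    · have hc : Filter.Tendsto (fun ε : ℝ => ⟪n m, v + ε • d⟫) (nhds 0) (nhds ⟪n m, v⟫) := by
        have : Continuous (fun ε : ℝ => ⟪n m, v + ε • d⟫) := by fun_prop
        have h2 := this.tendsto 0
        simpa using h2
      have h3 : ∀ᶠ ε in nhdsWithin (0 : ℝ) (Ioi 0), ⟪n m, v + ε • d⟫ < h m :=
        (hc.eventually (gt_mem_nhds hm)).filter_mono nhdsWithin_le_nhds
      filter_upwards [h3] with ε hε _ using hε
    · exact Filter.Eventually.of_forall fun ε h2 => absurd h2 hm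
  have h2 := Filter.eventually_all.mpr h1
  obtain ⟨ε, h3, h4⟩ := (h2.and self_mem_nhdsWithin).exists
  exact ⟨ε, h4, h3⟩

/-- The two planes of a vertex have a side in common. -/
theorem Vx.adj [Finite ι] (hs : Sim n h) {i j k : ι} (H : Vx n h i j k) : Adj n h i j := by
  obtain ⟨v, hv, h2, h3, h4⟩ := H.2
  obtain ⟨ε, he, hε⟩ := small_step (n := n) (h := h) v (- cr (n i) (n j))
  have e1 : ⟪n i, cr (n i) (n j)⟫ = 0 := by rw [inner_cr, det3_self2]
  have e2 : ⟪n j, cr (n i) (n j)⟫ = 0 := by rw [inner_cr, det3_self3]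
  refine ⟨H.ne1, v + ε • (- cr (n i) (n j)), ?_, ?_, ?_⟩
  · rw [inner_add_right, inner_smul_right, inner_neg_right, e1, h2]
    ring
  · rw [inner_add_right, inner_smul_right, inner_neg_right, e2, h3]
    ring
  · intro m hmi hmj
    by_cases hmk : m = k
    · rw [hmk, inner_add_right, inner_smul_right, inner_neg_right, inner_cr, h4]
      have := mul_pos he H.1
      linarith
    · apply hε
      refine lt_of_le_of_ne (hv m) fun e => ?_
      rcases hs v hv i j k m H.ne1 H.ne3.symm H.ne2 h2 h3 h4 e with r | r | r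
      · exact hmi r
      · exact hmj r
      · exact hmk r

theorem adj_symm {i j : ι} (H : Adj n h i j) : Adj n h j i := by
  obtain ⟨h1, x, h2, h3, h4⟩ := H
  exact ⟨h1.symm, x, h3, h2, fun k a b => h4 k b a⟩

theorem adj_poly {i j : ι} {x : E3} (h2 : ⟪n i, x⟫ = h i) (h3 : ⟪n j, x⟫ = h j)
    (h4 : ∀ k, k ≠ i → k ≠ j → ⟪n k, x⟫ < h k) : x ∈ Poly n h := by
  intro k
  by_cases a : k = i
  · rw [a, h2]
  · by_cases b : k = j
    · rw [b, h3]
    · exact (h4 k a b).le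

/-- The normals of two adjacent facets are not parallel. -/
theorem adj_cr (hn : ∀ i, ‖n i‖ = 1) (hh : ∀ i, 0 < h i) (hI : Irr n h) {i j : ι}
    (H : Adj n h i j) : cr (n i) (n j) ≠ 0 := by
  intro e
  obtain ⟨h1, x, h2, h3, h4⟩ := H
  have e1 := norm_cr (n i) (n j) (hn i) (hn j)
  rw [e, norm_zero] at e1
  have e2 : (⟪n i, n j⟫ - 1) * (⟪n i, n j⟫ + 1) = 0 := by linarith
  rcases mul_eq_zero.mp e2 with e3 | e3
  · have e4 : ⟪n i, n j⟫ = 1 := by linarith
    have e5 : n i = n j := (inner_eq_one_iff_of_norm_eq_one (hn i) (hn j)).mp e4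
    obtain ⟨y, hy1, hy2⟩ := hI i
    have := hy2 j h1.symm
    rw [← e5] at this h3
    linarith
  · have e4 : ⟪n i, n j⟫ = -1 := by linarith
    have e5 : n i = - n j := by
      have h6 : ⟪n i, - n j⟫ = 1 := by rw [inner_neg_right, e4]; norm_num
      exact (inner_eq_one_iff_of_norm_eq_one (hn i) (by rw [norm_neg, hn j])).mp h6
    rw [e5, inner_neg_left] at h2
    linarith [hh i, hh j]

/-- The exit point of a ray. -/
theorem exit_pt [Finite ι] (hP : Pos n) {x u : E3} (hx : x ∈ Poly n h) (hu : u ≠ 0) :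
    ∃ s : ℝ, 0 ≤ s ∧ x + s • u ∈ Poly n h ∧ ∃ k, ⟪n k, x + s • u⟫ = h k ∧ 0 < ⟪n k, u⟫ := by
  classical
  have : Fintype ι := Fintype.ofFinite ι
  obtain ⟨k0, hk0⟩ := hP u hu
  obtain ⟨k, hk, hmin⟩ := Finset.exists_min_image
    (Finset.univ.filter fun k => 0 < ⟪n k, u⟫) (fun k => (h k - ⟪n k, x⟫) / ⟪n k, u⟫)
    ⟨k0, by simpa using hk0⟩
  rw [Finset.mem_filter] at hk
  have hs : 0 ≤ (h k - ⟪n k, x⟫) / ⟪n k, u⟫ :=
    div_nonneg (sub_nonneg.mpr (hx k)) hk.2.le
  refine ⟨(h k - ⟪n k, x⟫) / ⟪n k, u⟫, hs, ?_, k, ?_, hk.2⟩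
  · intro m
    rw [inner_add_right, inner_smul_right]
    by_cases hm : 0 < ⟪n m, u⟫
    · have h1 := hmin m (by simpa using hm)
      rw [le_div_iff₀ hm] at h1
      linarith
    · have h1 : (h k - ⟪n k, x⟫) / ⟪n k, u⟫ * ⟪n m, u⟫ ≤ 0 :=
        mul_nonpos_of_nonneg_of_nonpos hs (not_lt.mp hm)
      have := hx m
      linarith
  · rw [inner_add_right, inner_smul_right, div_mul_cancel₀ _ hk.2.ne']
    ring

/-- Existence of the next neighbour. -/
theorem exists_Vx [Finite ι] (hn : ∀ i, ‖n i‖ = 1) (hh : ∀ i, 0 < h i) (hI : Irr n h)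
    (hP : Pos n) {i j : ι} (H : Adj n h i j) : ∃ k, Vx n h i j k := by
  have hu := adj_cr hn hh hI H
  obtain ⟨h1, x, h2, h3, h4⟩ := H
  obtain ⟨s, hs, hv, k, hk, hk2⟩ := exit_pt hP (adj_poly h2 h3 h4) hu
  rw [inner_cr] at hk2
  refine ⟨k, hk2, _, hv, ?_, ?_, hk⟩
  · rw [inner_add_right, inner_smul_right, inner_cr, det3_self2, h2]
    ring
  · rw [inner_add_right, inner_smul_right, inner_cr, det3_self3, h3]
    ring

/-- Uniqueness of the next neighbour. -/
theorem Vx.uniq (hs : Sim n h) {i j k k' : ι} (H : Vx n h i j k) (H' : Vx n h i j k') :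
    k = k' := by
  obtain ⟨v, hv, h2, h3, h4⟩ := H.2
  obtain ⟨v', hv', h2', h3', h4'⟩ := H'.2
  have e0 : ⟪n i, v' - v⟫ = 0 := by rw [inner_sub_right, h2, h2', sub_self]
  have e1 : ⟪n j, v' - v⟫ = 0 := by rw [inner_sub_right, h3, h3', sub_self]
  have e2 := cramer (n i) (n j) (n k) (v' - v)
  rw [e0, e1, zero_smul, zero_smul, zero_add, zero_add] at e2
  have e3 : ⟪n k, v' - v⟫ ≤ 0 := by
    rw [inner_sub_right, h4]
    have := hv' k
    linarith
  have e4 : 0 ≤ ⟪n k', v' - v⟫ := by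
    rw [inner_sub_right, h4']
    have := hv k'
    linarith
  have e5 : det3 (n i) (n j) (n k) * ⟪n k', v' - v⟫
      = ⟪n k, v' - v⟫ * det3 (n i) (n j) (n k') := by
    rw [← inner_smul_right, e2, inner_smul_right, inner_cr]
  have e6 : ⟪n k, v' - v⟫ = 0 := by
    by_contra hne
    have h5 : ⟪n k, v' - v⟫ < 0 := lt_of_le_of_ne e3 hne
    have h6 := mul_neg_of_neg_of_pos h5 H'.1
    have h7 := mul_nonneg H.1.le e4
    linarith
  rw [e6, zero_smul] at e2
  have e7 : v' - v = 0 := (smul_eq_zero.mp e2).resolve_left H.1.ne'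
  rw [sub_eq_zero] at e7
  rw [e7] at h4'
  rcases hs v hv i j k k' H.ne1 H.ne3.symm H.ne2 h2 h3 h4 h4' with r | r | r
  · exact absurd r H'.ne3
  · exact absurd r.symm H'.ne2
  · exact r.symm

open Classical in
/-- The next neighbour of `i` after `j`. -/
noncomputable def nx (n : ι → E3) (h : ι → ℝ) (i j : ι) : ι :=
  if H : ∃ k, Vx n h i j k then H.choose else j

theorem nx_Vx [Finite ι] (hn : ∀ i, ‖n i‖ = 1) (hh : ∀ i, 0 < h i) (hI : Irr n h)
    (hP : Pos n) {i j : ι} (H : Adj n h i j) : Vx n h i j (nx n h i j) := by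
  have h1 := exists_Vx hn hh hI hP H
  rw [nx, dif_pos h1]
  exact h1.choose_spec

theorem nx_eq (hs : Sim n h) {i j k : ι} (H : Vx n h i j k) : nx n h i j = k := by
  have h1 : ∃ k, Vx n h i j k := ⟨k, H⟩
  rw [nx, dif_pos h1]
  exact h1.choose_spec.uniq hs H

/-! ## Angles -/

/-- A positively oriented orthonormal frame. -/
theorem exists_frame (a : E3) (ha : ‖a‖ = 1) : ∃ e f : E3, Onb a e f ∧ det3 a e f = 1 := by
  obtain ⟨e, f0, he⟩ := p_ONB a ha
  have h1 : ‖cr a e‖ ^ 2 = 1 := by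
    rw [norm_cr a e ha he.ee, he.ne]
    norm_num
  refine ⟨e, cr a e, ⟨ha, he.ee, ?_, he.ne, ?_, ?_⟩, ?_⟩
  · nlinarith [norm_nonneg (cr a e)]
  · rw [inner_cr, det3_self2]
  · rw [inner_cr, det3_self3]
  · rw [← inner_cr, real_inner_self_eq_norm_sq, h1]

theorem frame_det {a e f : E3} (H : Onb a e f) (hd : det3 a e f = 1) (x y : E3) :
    det3 a x y = ⟪e, x⟫ * ⟪f, y⟫ - ⟪f, x⟫ * ⟪e, y⟫ := by
  have hx := ((p_CRD a e f H).2 x).2
  have hy := ((p_CRD a e f H).2 y).2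
  generalize ⟪a, x⟫ = x0 at *
  generalize ⟪e, x⟫ = x1 at *
  generalize ⟪f, x⟫ = x2 at *
  generalize ⟪a, y⟫ = y0 at *
  generalize ⟪e, y⟫ = y1 at *
  generalize ⟪f, y⟫ = y2 at *
  have h1 : det3 a x y = (x1 * y2 - x2 * y1) * det3 a e f := by
    rw [hx, hy]
    simp only [det3, PiLp.add_apply, PiLp.smul_apply, smul_eq_mul]
    ring
  rw [h1, hd, mul_one]

theorem frame_inner {a e f : E3} (H : Onb a e f) (x y : E3) :
    ⟪x, y⟫ = ⟪a, x⟫ * ⟪a, y⟫ + ⟪e, x⟫ * ⟪e, y⟫ + ⟪f, x⟫ * ⟪f, y⟫ := by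
  have hx := ((p_CRD a e f H).2 x).2
  nth_rewrite 1 [hx]
  rw [inner_add_left, inner_add_left, real_inner_smul_left, real_inner_smul_left,
    real_inner_smul_left]

/-- The angle at `i` between the neighbours `j` and `k`. -/
noncomputable def Ang (n : ι → E3) (i j k : ι) : ℝ :=
  arccos ((⟪n j, n k⟫ - ⟪n i, n j⟫ * ⟪n i, n k⟫) /
    (√(1 - ⟪n i, n j⟫ ^ 2) * √(1 - ⟪n i, n k⟫ ^ 2)))

/-- Polar coordinates of the plane. -/
theorem exists_polar (a x y : ℝ) (_ : 0 < x ^ 2 + y ^ 2) :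
    ∃ θ : ℝ, a < θ ∧ θ ≤ a + 2 * π ∧ x = √(x ^ 2 + y ^ 2) * cos θ ∧
      y = √(x ^ 2 + y ^ 2) * sin θ := by
  have h1 : ‖(⟨x, y⟩ : ℂ)‖ = √(x ^ 2 + y ^ 2) := by
    rw [Complex.norm_def, Complex.normSq_mk]
    congr 1
    ring
  have hm := toIocMod_mem_Ioc Real.two_pi_pos a (Complex.arg ⟨x, y⟩)
  have he : toIocMod Real.two_pi_pos a (Complex.arg ⟨x, y⟩) = Complex.arg ⟨x, y⟩ -
      (toIocDiv Real.two_pi_pos a (Complex.arg ⟨x, y⟩) : ℝ) * (2 * π) := by
    rw [← self_sub_toIocDiv_zsmul, zsmul_eq_mul]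
  refine ⟨toIocMod Real.two_pi_pos a (Complex.arg ⟨x, y⟩), hm.1, hm.2, ?_, ?_⟩
  · rw [he, Real.cos_sub_int_mul_two_pi, ← h1, Complex.norm_mul_cos_arg]
  · rw [he, Real.sin_sub_int_mul_two_pi, ← h1, Complex.norm_mul_sin_arg]

/-- The last point of the circle is the only one where the base point is passed. -/
theorem circle_wrap {J : Finset ι} (hJ : J.Nonempty) {a : ℝ} {θ : ι → ℝ} {ν : ι → ι} {g : ι → ℝ}
    (hθ : ∀ j ∈ J, a < θ j ∧ θ j ≤ a + 2 * π) (hi : ∀ j ∈ J, ∀ k ∈ J, θ j = θ k → j = k)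
    (hν : ∀ j ∈ J, ν j ∈ J) (hg0 : ∀ j ∈ J, 0 < g j ∧ g j < π)
    (hg : ∀ j ∈ J, g j = θ (ν j) - θ j ∨ g j = θ (ν j) - θ j + 2 * π)
    (hb : ∀ j ∈ J, ∀ m ∈ J, ∀ r, (r = θ m - θ j ∨ r = θ m - θ j + 2 * π) → 0 < r → r < g j →
      False) :
    ∃ j0 ∈ J, g j0 = θ (ν j0) - θ j0 + 2 * π ∧ ∀ j ∈ J, j ≠ j0 → g j = θ (ν j) - θ j := by
  obtain ⟨j0, hj0, hmax⟩ := Finset.exists_max_image J θ hJ
  refine ⟨j0, hj0, ?_, ?_⟩
  · rcases hg j0 hj0 with h2 | h2
    · exfalso
      have h3 := hmax (ν j0) (hν j0 hj0)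
      have h4 := (hg0 j0 hj0).1
      linarith
    · exact h2
  · intro j hj hjj
    rcases hg j hj with h2 | h2
    · exact h2
    · exfalso
      have h3 := hmax j hj
      have h4 : θ j ≠ θ j0 := fun e => hjj (hi j hj j0 hj0 e)
      have h5 : θ j < θ j0 := lt_of_le_of_ne h3 h4
      apply hb j hj j0 hj0 (θ j0 - θ j) (Or.inl rfl) (by linarith)
      rw [h2]
      have h6 := (hθ (ν j) (hν j hj)).1
      have h7 := (hθ j0 hj0).2
      linarith

/-- The sum of the gaps on the circle. -/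
theorem circle_sum {J : Finset ι} {θ : ι → ℝ} {ν : ι → ι} {g : ι → ℝ}
    (hν : ∀ j ∈ J, ν j ∈ J) (hνi : ∀ j ∈ J, ∀ k ∈ J, ν j = ν k → j = k)
    (hw : ∃ j0 ∈ J, g j0 = θ (ν j0) - θ j0 + 2 * π ∧
      ∀ j ∈ J, j ≠ j0 → g j = θ (ν j) - θ j) :
    ∑ j ∈ J, g j = 2 * π := by
  classical
  obtain ⟨j0, hj0, h0, hw⟩ := hw
  have hsum : ∑ j ∈ J, θ (ν j) = ∑ j ∈ J, θ j := by
    have h1 : J.image ν = J := by
      apply Finset.eq_of_subset_of_card_le
      · intro k hk
        rw [Finset.mem_image] at hk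
        obtain ⟨j, hj, rfl⟩ := hk
        exact hν j hj
      · rw [Finset.card_image_of_injOn]
        intro j hj k hk
        exact hνi j hj k hk
    conv_rhs => rw [← h1]
    rw [Finset.sum_image]
    intro j hj k hk
    exact hνi j hj k hk
  have h1 : ∀ j ∈ J, g j = θ (ν j) - θ j + if j = j0 then 2 * π else 0 := by
    intro j hj
    split_ifs with hjj
    · rw [hjj, h0]
    · rw [hw j hj hjj, add_zero]
  rw [Finset.sum_congr rfl h1, Finset.sum_add_distrib, Finset.sum_sub_distrib, hsum,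
    Finset.sum_ite_eq' J j0, if_pos hj0]
  ring

/-- Exactly one passage from the second to the first half of the circle. -/
theorem circle_cross {J : Finset ι} {a : ℝ} {θ : ι → ℝ} {ν : ι → ι} {g : ι → ℝ}
    (hθ : ∀ j ∈ J, a < θ j ∧ θ j ≤ a + 2 * π) (hν : ∀ j ∈ J, ν j ∈ J)
    (hg0 : ∀ j ∈ J, 0 < g j ∧ g j < π)
    (hw : ∃ j0 ∈ J, g j0 = θ (ν j0) - θ j0 + 2 * π ∧
      ∀ j ∈ J, j ≠ j0 → g j = θ (ν j) - θ j) :
    ∃ j0 ∈ J, ∀ j ∈ J, (a + π < θ j ∧ θ (ν j) < a + π) ↔ j = j0 := by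
  obtain ⟨j0, hj0, h0, hw⟩ := hw
  refine ⟨j0, hj0, fun j hj => ⟨fun h1 => ?_, ?_⟩⟩
  · by_contra hjj
    have h2 := hw j hj hjj
    have h3 := (hg0 j hj).1
    linarith [h1.1, h1.2]
  · rintro rfl
    have h1 := hθ j hj
    have h2 := hθ _ (hν j hj)
    have h3 := (hg0 j hj).2
    constructor <;> linarith [h1.2, h2.1]

/-- The hypotheses on the polyhedron. -/
structure Good (n : ι → E3) (h : ι → ℝ) : Prop where
  nn : ∀ i, ‖n i‖ = 1
  hh : ∀ i, 0 < h i
  irr : Irr n h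
  pos : Pos n
  sim : Sim n h

theorem Good.vx [Finite ι] (G : Good n h) {i j : ι} (H : Adj n h i j) :
    Vx n h i j (nx n h i j) := nx_Vx G.nn G.hh G.irr G.pos H

/-- No neighbour in between. -/
theorem no_between {i j k m : ι} (H : Vx n h i j k) (Hm : Adj n h i m)
    (h1 : 0 < det3 (n i) (n j) (n m)) (h2 : 0 < det3 (n i) (n m) (n k)) : False := by
  obtain ⟨hD, v, hv, v1, v2, v3⟩ := H
  obtain ⟨him, x, x1, x2, x3⟩ := Hm
  have hmj : m ≠ j := by
    rintro rfl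
    rw [det3_self3] at h1
    exact lt_irrefl _ h1
  have hmk : m ≠ k := by
    rintro rfl
    rw [det3_self3] at h2
    exact lt_irrefl _ h2
  have hji : j ≠ i := by
    rintro rfl
    rw [det3_self1] at hD
    exact lt_irrefl _ hD
  have hki : k ≠ i := by
    rintro rfl
    rw [det3_self2] at hD
    exact lt_irrefl _ hD
  have e1 := cramer' (n i) (n j) (n k) (n m)
  have e2 : det3 (n i) (n j) (n k) * ⟪n m, v - x⟫ =
      det3 (n i) (n m) (n k) * ⟪n j, v - x⟫ + det3 (n i) (n j) (n m) * ⟪n k, v - x⟫ := by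
    rw [← real_inner_smul_left, e1, inner_add_left, inner_add_left, real_inner_smul_left,
      real_inner_smul_left, real_inner_smul_left]
    have : ⟪n i, v - x⟫ = 0 := by rw [inner_sub_right, v1, x1, sub_self]
    rw [this]
    ring
  have e3 : 0 < ⟪n j, v - x⟫ := by
    rw [inner_sub_right, v2]
    have := x3 j hji hmj.symm
    linarith
  have e4 : 0 < ⟪n k, v - x⟫ := by
    rw [inner_sub_right, v3]
    have := x3 k hki hmk.symm
    linarith
  have e5 : ⟪n m, v - x⟫ ≤ 0 := by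
    rw [inner_sub_right, x2]
    have := hv m
    linarith
  have e6 := mul_pos h2 e3
  have e7 := mul_pos h1 e4
  have e8 := mul_nonpos_of_nonneg_of_nonpos hD.le e5
  linarith

/-- Two different sides have different directions. -/
theorem no_parallel {a : E3} {i j k : ι} (hjk : j ≠ k) (Hj : Adj n h i j) (Hk : Adj n h i k)
    (hL : ∀ w, ⟪n i, w⟫ = 0 → ⟪n k, w⟫ = ⟪a, a⟫ * ⟪n j, w⟫) : False := by
  obtain ⟨hij, x, x1, x2, x3⟩ := Hj
  obtain ⟨hik, y, y1, y2, y3⟩ := Hk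
  have e1 := hL (y - x) (by rw [inner_sub_right, x1, y1, sub_self])
  rw [inner_sub_right, inner_sub_right, x2, y2] at e1
  have e2 := x3 k hik.symm hjk.symm
  have e3 := y3 j hij.symm hjk
  have e4 : 0 ≤ ⟪a, a⟫ := real_inner_self_nonneg
  nlinarith

open Classical in
/-- The neighbours. -/
noncomputable def nb [Fintype ι] (n : ι → E3) (h : ι → ℝ) (i : ι) : Finset ι :=
  Finset.univ.filter fun j => Adj n h i j

theorem mem_nb [Fintype ι] {i j : ι} : j ∈ nb n h i ↔ Adj n h i j := by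
  simp [nb]

theorem Good.nx_mem [Finite ι] (G : Good n h) {i j : ι} (H : Adj n h i j) :
    Adj n h i (nx n h i j) :=
  adj_symm ((G.vx H).rot.rot.adj G.sim)

theorem Good.nx_inj [Finite ι] (G : Good n h) {i j k : ι} (H : Adj n h i j) (H' : Adj n h i k)
    (e : nx n h i j = nx n h i k) : j = k := by
  have h1 := (G.vx H).rot.rot
  have h2 := (G.vx H').rot.rot
  rw [← e] at h2
  exact h1.uniq G.sim h2

theorem Good.one_sub_pos (G : Good n h) {i j : ι} (H : Adj n h i j) : 0 < 1 - ⟪n i, n j⟫ ^ 2 := by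
  rw [← norm_cr (n i) (n j) (G.nn i) (G.nn j)]
  have := norm_pos_iff.mpr (adj_cr G.nn G.hh G.irr H)
  positivity

/-- The neighbours of a facet on the circle. -/
theorem Good.circle [Fintype ι] (G : Good n h) (i : ι) {e f : E3} (ho : Onb (n i) e f)
    (hd : det3 (n i) e f = 1) (a : ℝ) :
    ∃ θ : ι → ℝ, (∀ j ∈ nb n h i, a < θ j ∧ θ j ≤ a + 2 * π) ∧
      (∀ j ∈ nb n h i, ⟪e, n j⟫ = √(1 - ⟪n i, n j⟫ ^ 2) * cos (θ j) ∧
        ⟪f, n j⟫ = √(1 - ⟪n i, n j⟫ ^ 2) * sin (θ j)) ∧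
      (∀ j ∈ nb n h i, ∀ k ∈ nb n h i, θ j = θ k → j = k) ∧
      (∀ j ∈ nb n h i, 0 < Ang n i j (nx n h i j) ∧ Ang n i j (nx n h i j) < π) ∧
      (∀ j ∈ nb n h i, Ang n i j (nx n h i j) = θ (nx n h i j) - θ j ∨
        Ang n i j (nx n h i j) = θ (nx n h i j) - θ j + 2 * π) ∧
      ∀ j ∈ nb n h i, ∀ m ∈ nb n h i, ∀ r, (r = θ m - θ j ∨ r = θ m - θ j + 2 * π) → 0 < r →
        r < Ang n i j (nx n h i j) → False := by
  have hsq : ∀ j, ⟪e, n j⟫ ^ 2 + ⟪f, n j⟫ ^ 2 = 1 - ⟪n i, n j⟫ ^ 2 := by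
    intro j
    have h1 := ((p_CRD (n i) e f ho).2 (n j)).1
    rw [G.nn j] at h1
    linarith
  have hpol : ∀ j : ι, ∃ θ : ℝ, Adj n h i j → (a < θ ∧ θ ≤ a + 2 * π ∧
      ⟪e, n j⟫ = √(1 - ⟪n i, n j⟫ ^ 2) * cos θ ∧ ⟪f, n j⟫ = √(1 - ⟪n i, n j⟫ ^ 2) * sin θ) := by
    intro j
    by_cases H : Adj n h i j
    · have h1 := exists_polar a ⟪e, n j⟫ ⟪f, n j⟫ (by rw [hsq]; exact G.one_sub_pos H)
      rw [hsq] at h1
      obtain ⟨θ, hθ⟩ := h1
      exact ⟨θ, fun _ => hθ⟩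
    · exact ⟨0, fun h => absurd h H⟩
  choose θ hθ using hpol
  have hL : ∀ j, Adj n h i j → 0 < √(1 - ⟪n i, n j⟫ ^ 2) := fun j H =>
    Real.sqrt_pos.mpr (G.one_sub_pos H)
  have hdet : ∀ j k, Adj n h i j → Adj n h i k → det3 (n i) (n j) (n k) =
      √(1 - ⟪n i, n j⟫ ^ 2) * √(1 - ⟪n i, n k⟫ ^ 2) * sin (θ k - θ j) := by
    intro j k Hj Hk
    rw [frame_det ho hd, (hθ j Hj).2.2.1, (hθ j Hj).2.2.2, (hθ k Hk).2.2.1, (hθ k Hk).2.2.2,
      sin_sub]
    ring
  have hcos : ∀ j k, Adj n h i j → Adj n h i k → Ang n i j k = arccos (cos (θ k - θ j)) := by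
    intro j k Hj Hk
    have h1 := frame_inner ho (n j) (n k)
    rw [(hθ j Hj).2.2.1, (hθ j Hj).2.2.2, (hθ k Hk).2.2.1, (hθ k Hk).2.2.2] at h1
    have h2 := (hL j Hj).ne'
    have h3 := (hL k Hk).ne'
    rw [Ang, h1, cos_sub]
    congr 1
    field_simp
    ring
  have hsin : ∀ j k, Adj n h i j → Adj n h i k →
      (0 < det3 (n i) (n j) (n k) ↔ 0 < sin (θ k - θ j)) := by
    intro j k Hj Hk
    rw [hdet j k Hj Hk]
    have := mul_pos (hL j Hj) (hL k Hk)
    exact ⟨fun h => (mul_pos_iff_of_pos_left this).mp h, fun h => mul_pos this h⟩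
  have hpi := Real.pi_pos
  have key : ∀ j ∈ nb n h i, (0 < Ang n i j (nx n h i j) ∧ Ang n i j (nx n h i j) < π) ∧
      (Ang n i j (nx n h i j) = θ (nx n h i j) - θ j ∨
        Ang n i j (nx n h i j) = θ (nx n h i j) - θ j + 2 * π) := by
    intro j hj
    rw [mem_nb] at hj
    have hk := G.nx_mem hj
    have hs := (hsin j _ hj hk).mp (G.vx hj).1
    obtain ⟨a1, a2, -, -⟩ := hθ j hj
    obtain ⟨b1, b2, -, -⟩ := hθ _ hk
    rw [hcos j _ hj hk]
    generalize θ (nx n h i j) = y at *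
    generalize θ j = x at *
    rcases lt_trichotomy (y - x) 0 with hlt | heq | hgt
    · have h1 : cos (y - x) = cos (y - x + 2 * π) := (Real.cos_add_two_pi _).symm
      have h2 : sin (y - x) = sin (y - x + 2 * π) := (Real.sin_add_two_pi _).symm
      have h3 : y - x + 2 * π < π := by
        by_contra hcon
        have h4 : sin (y - x + 2 * π) ≤ 0 := by
          have h5 : sin (y - x + 2 * π) = - sin (y - x + 2 * π - π) := by
            rw [Real.sin_sub_pi, neg_neg]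
          have h6 : 0 ≤ sin (y - x + 2 * π - π) :=
            Real.sin_nonneg_of_nonneg_of_le_pi (by linarith) (by linarith)
          linarith
        linarith
      rw [h1, Real.arccos_cos (by linarith) h3.le]
      exact ⟨⟨by linarith, h3⟩, Or.inr rfl⟩
    · rw [heq, Real.sin_zero] at hs
      exact absurd hs (lt_irrefl _)
    · have h3 : y - x < π := by
        by_contra hcon
        have h4 : sin (y - x) ≤ 0 := by
          have h5 : sin (y - x) = - sin (y - x - π) := by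
            rw [Real.sin_sub_pi, neg_neg]
          have h6 : 0 ≤ sin (y - x - π) :=
            Real.sin_nonneg_of_nonneg_of_le_pi (by linarith) (by linarith)
          linarith
        linarith
      rw [Real.arccos_cos hgt.le h3.le]
      exact ⟨⟨hgt, h3⟩, Or.inl rfl⟩
  refine ⟨θ, ?_, ?_, ?_, ?_, ?_, ?_⟩
  · intro j hj
    exact ⟨(hθ j (mem_nb.mp hj)).1, (hθ j (mem_nb.mp hj)).2.1⟩
  · intro j hj
    exact (hθ j (mem_nb.mp hj)).2.2
  · intro j hj k hk e1
    by_contra hjk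
    rw [mem_nb] at hj hk
    have hLj := hL j hj
    have hLk := hL k hk
    set c : ℝ := √(1 - ⟪n i, n k⟫ ^ 2) / √(1 - ⟪n i, n j⟫ ^ 2) with hc
    have hc0 : 0 < c := div_pos hLk hLj
    have ha : ⟪√c • n i, √c • n i⟫ = c := by
      rw [real_inner_smul_left, real_inner_smul_right, real_inner_self_eq_norm_sq, G.nn i]
      rw [one_pow, mul_one, Real.mul_self_sqrt hc0.le]
    refine no_parallel (a := √c • n i) hjk hj hk fun w hw => ?_
    rw [ha, frame_inner ho (n k) w, frame_inner ho (n j) w, hw, (hθ j hj).2.2.1,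
      (hθ j hj).2.2.2, (hθ k hk).2.2.1, (hθ k hk).2.2.2, e1, hc]
    field_simp
    ring
  · intro j hj
    exact (key j hj).1
  · intro j hj
    exact (key j hj).2
  · intro j hj m hm r hr hr0 hrg
    have hg := key j hj
    rw [mem_nb] at hj hm
    have hk := G.nx_mem hj
    have hrs : sin (θ m - θ j) = sin r := by
      rcases hr with rfl | rfl
      · rfl
      · rw [Real.sin_add_two_pi]
    have hgs : sin (θ (nx n h i j) - θ m) = sin (Ang n i j (nx n h i j) - r) := by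
      rcases hg.2 with e1 | e1 <;> rcases hr with rfl | rfl <;> rw [e1]
      · congr 1
        ring
      · have : θ (nx n h i j) - θ j - (θ m - θ j + 2 * π) = θ (nx n h i j) - θ m - 2 * π := by
          ring
        rw [this, Real.sin_sub_two_pi]
      · have : θ (nx n h i j) - θ j + 2 * π - (θ m - θ j) = θ (nx n h i j) - θ m + 2 * π := by
          ring
        rw [this, Real.sin_add_two_pi]
      · congr 1
        ring
    have h1 : 0 < sin (θ m - θ j) := by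
      rw [hrs]
      exact Real.sin_pos_of_pos_of_lt_pi hr0 (by linarith [hg.1.2])
    have h2 : 0 < sin (θ (nx n h i j) - θ m) := by
      rw [hgs]
      exact Real.sin_pos_of_pos_of_lt_pi (by linarith) (by linarith [hg.1.2])
    exact no_between (G.vx hj) hm ((hsin j m hj hm).mpr h1) ((hsin m _ hm hk).mpr h2)

/-- Every facet has a neighbour. -/
theorem Good.exists_adj [Finite ι] (G : Good n h) (i : ι) : ∃ j, Adj n h i j := by
  obtain ⟨y, hy, hlt⟩ := G.irr i
  have hyP : y ∈ Poly n h := by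
    intro k
    by_cases hk : k = i
    · rw [hk, hy]
    · exact (hlt k hk).le
  obtain ⟨e, f, ho, hd⟩ := exists_frame (n i) (G.nn i)
  have he0 : e ≠ 0 := by
    intro e0
    have := ho.ee
    rw [e0, norm_zero] at this
    norm_num at this
  obtain ⟨s, hs, hv, k, hk, hk2⟩ := exit_pt G.pos hyP he0
  set v := y + s • e with hv0
  have hvi : ⟪n i, v⟫ = h i := by
    rw [hv0, inner_add_right, inner_smul_right, ho.ne, hy]
    ring
  have hki : k ≠ i := by
    rintro rfl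
    rw [ho.ne] at hk2
    exact lt_irrefl _ hk2
  by_cases hex : ∃ l, l ≠ i ∧ l ≠ k ∧ ⟪n l, v⟫ = h l
  · obtain ⟨l, hli, hlk, hl⟩ := hex
    have hdet : det3 (n i) (n k) (n l) ≠ 0 := by
      intro h0
      have e1 := cramer (n i) (n k) (n l) (cr (n i) (n k))
      have hu : cr (n i) (n k) = 0 := by
        apply p_THR p_L3 ι n h G.irr i k l hki.symm hli.symm hlk.symm v (cr (n i) (n k)) hvi hk hl
        · rw [inner_cr, det3_self2]
        · rw [inner_cr, det3_self3]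
        · rw [inner_cr, h0]
      have hu2 : cr (n k) (n l) = 0 := by
        apply p_THR p_L3 ι n h G.irr i k l hki.symm hli.symm hlk.symm v (cr (n k) (n l)) hvi hk hl
        · rw [inner_cr, det3_rot, h0]
        · rw [inner_cr, det3_self2]
        · rw [inner_cr, det3_self3]
      have e3 : ⟪n i, n k⟫ ^ 2 = 1 := by
        have := norm_cr (n i) (n k) (G.nn i) (G.nn k)
        rw [hu, norm_zero] at this
        linarith
      have e4 : ⟪n k, n l⟫ ^ 2 = 1 := by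
        have := norm_cr (n k) (n l) (G.nn k) (G.nn l)
        rw [hu2, norm_zero] at this
        linarith
      obtain ⟨y', hy', hlt'⟩ := G.irr i
      have key : ∀ m, m ≠ i → ⟪n m, v⟫ = h m → ⟪n i, n m⟫ ^ 2 = 1 → False := by
        intro m hmi hmv hm
        have hm2 : (⟪n i, n m⟫ - 1) * (⟪n i, n m⟫ + 1) = 0 := by linarith
        rcases mul_eq_zero.mp hm2 with e5 | e5
        · have e6 : ⟪n i, n m⟫ = 1 := by linarith
          have e7 : n i = n m :=
            (inner_eq_one_iff_of_norm_eq_one (G.nn i) (G.nn m)).mp e6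
          have := hlt m hmi
          rw [← e7] at this hmv
          linarith
        · have e6 : ⟪n i, - n m⟫ = 1 := by rw [inner_neg_right]; linarith
          have e7 : n i = - n m :=
            (inner_eq_one_iff_of_norm_eq_one (G.nn i) (by rw [norm_neg, G.nn m])).mp e6
          rw [e7, inner_neg_left] at hvi
          linarith [G.hh i, G.hh m]
      exact key k hki hk e3
    rcases lt_or_gt_of_ne hdet with h1 | h1
    · have hV : Vx n h k i l := ⟨by rw [det3_swap]; linarith, v, hv, hk, hvi, hl⟩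
      exact ⟨k, adj_symm (hV.adj G.sim)⟩
    · have hV : Vx n h i k l := ⟨h1, v, hv, hvi, hk, hl⟩
      exact ⟨k, hV.adj G.sim⟩
  · push Not at hex
    exact ⟨k, hki.symm, v, hvi, hk, fun l h1 h2 => lt_of_le_of_ne (hv l) (hex l h1 h2)⟩

/-- The sum of the angles at a facet. -/
theorem Good.sum_Ang [Fintype ι] (G : Good n h) (i : ι) :
    (∀ j ∈ nb n h i, 0 < Ang n i j (nx n h i j) ∧ Ang n i j (nx n h i j) < π) ∧
    ∑ j ∈ nb n h i, Ang n i j (nx n h i j) = 2 * π := by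
  obtain ⟨e, f, ho, hd⟩ := exists_frame (n i) (G.nn i)
  obtain ⟨θ, h1, -, h3, h4, h5, h6⟩ := G.circle i ho hd 0
  obtain ⟨j1, hj1⟩ := G.exists_adj i
  have hν : ∀ j ∈ nb n h i, nx n h i j ∈ nb n h i := by
    intro j hj
    rw [mem_nb] at hj ⊢
    exact G.nx_mem hj
  refine ⟨h4, circle_sum hν ?_ (circle_wrap ⟨j1, mem_nb.mpr hj1⟩ h1 h3 hν h4 h5 h6)⟩
  intro j hj k hk
  rw [mem_nb] at hj hk
  exact G.nx_inj hj hk

end poly

end Pool.Agent.SDL
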