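import Pool.Agent.SDL.CDel

set_option autoImplicit false

/-!
# Sat: saturation of a packing in the shell

Every finite packing with heights in `[1, R]` can be completed by points of height `R` such that the
directions cover the sphere with caps of angular radius less than `arccos (R / 2)`.
-/

open MeasureTheory Set Real
open scoped RealInnerProductSpace

namespace Pool.Agent.SDL

open Pool.Agent.SDC

section poly

variable {ι : Type} {n : ι → E3} {h : ι → ℝ}

theorem R_hi2 : R < 1.2585 := by linarith [R_hi']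

/-- Different points of a packing in the shell have different directions. -/
theorem Pck.inj (H : Pck n h) (hR : ∀ i, h i ≤ R) : Function.Injective n := by
  intro i j hij
  by_contra hne
  have h1 := H.2.2 i j hne
  have h2 : ⟪n i, n j⟫ = 1 := by
    rw [← hij, real_inner_self_eq_norm_sq, H.1 i]
    norm_num
  rw [h2] at h1
  have h3 : (h i - h j) ^ 2 < 1 := by
    rw [sq_lt_one_iff_abs_lt_one, abs_lt]
    constructor <;> linarith [H.2.1 i, H.2.1 j, hR i, hR j, R_hi2]
  nlinarith

/-- The distances of the points. -/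
theorem Pck.dist_le (H : Pck n h) {i j : ι} (hij : i ≠ j) :
    1 ≤ ‖h i • n i - h j • n j‖ := by
  have h1 := H.2.2 i j hij
  have h2 : ‖h i • n i - h j • n j‖ ^ 2 = h i ^ 2 + h j ^ 2 - 2 * h i * h j * ⟪n i, n j⟫ := by
    rw [norm_sub_sq_real, norm_smul, norm_smul, H.1 i, H.1 j, inner_smul_left, inner_smul_right]
    simp only [Real.norm_eq_abs, mul_one, sq_abs, conj_trivial]
    ring
  by_contra hlt
  push Not at hlt
  have h3 := norm_nonneg (h i • n i - h j • n j)
  nlinarith

/-- The number of the points of a packing in the shell is bounded. -/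
theorem exists_card_bound : ∃ M : ℕ, ∀ (κ : Type) (_ : Fintype κ) (n : κ → E3) (h : κ → ℝ),
    Pck n h → (∀ i, h i ≤ R) → Fintype.card κ ≤ M := by
  classical
  have hc : IsCompact (Metric.closedBall (0 : E3) R) := isCompact_closedBall 0 R
  obtain ⟨t, ht, hcov⟩ := Metric.totallyBounded_iff.mp hc.totallyBounded (1 / 2) (by norm_num)
  refine ⟨ht.toFinset.card, ?_⟩
  intro κ _ n h H hR
  have hmem : ∀ i, ∃ y ∈ t, h i • n i ∈ Metric.ball y (1 / 2) := by
    intro i
    have h1 : h i • n i ∈ Metric.closedBall (0 : E3) R := by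
      rw [mem_closedBall_zero_iff, norm_smul, H.1 i, mul_one, Real.norm_eq_abs,
        abs_of_pos (by linarith [H.2.1 i])]
      exact hR i
    have h2 := hcov h1
    simpa using h2
  choose f hf hfb using hmem
  have hfi : Function.Injective f := by
    intro i j hij
    by_contra hne
    have h1 := H.dist_le hne
    have h2 := hfb i
    have h3 := hfb j
    rw [← hij] at h3
    rw [Metric.mem_ball] at h2 h3
    have h4 := dist_triangle_right (h i • n i) (h j • n j) (f i)
    rw [dist_eq_norm] at h4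
    linarith
  calc Fintype.card κ = (Finset.univ.image f).card := by
        rw [Finset.card_image_of_injective _ hfi, Finset.card_univ]
    _ ≤ ht.toFinset.card := by
        apply Finset.card_le_card
        intro y hy
        rw [Finset.mem_image] at hy
        obtain ⟨i, -, rfl⟩ := hy
        exact ht.mem_toFinset.mpr (hf i)

/-- A saturated packing in the shell: no point of height `R` can be added. -/
def Satd (n : ι → E3) (h : ι → ℝ) : Prop :=
  ∀ u : E3, ‖u‖ = 1 → ∃ l, R ^ 2 + h l ^ 2 - 1 < 2 * R * h l * ⟪n l, u⟫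

/-- Saturation. -/
theorem exists_sat [Fintype ι] (H : Pck n h) (hR : ∀ i, h i ≤ R) :
    ∃ (m : ℕ) (e : Fin m → E3), Pck (Sum.elim n e) (Sum.elim h fun _ => R) ∧
      Satd (Sum.elim n e) (Sum.elim h fun _ => R) := by
  classical
  obtain ⟨M, hM⟩ := exists_card_bound
  set S : Set ℕ := {m | ∃ e : Fin m → E3, Pck (Sum.elim n e) (Sum.elim h fun _ => R)} with hS
  have hR' : ∀ (m : ℕ) (i : ι ⊕ Fin m), Sum.elim h (fun _ => R) i ≤ R := by
    intro m i
    rcases i with i | i
    · exact hR i
    · exact le_refl R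
  have hbdd : BddAbove S := by
    refine ⟨M, ?_⟩
    rintro m ⟨e, he⟩
    have h1 := hM _ inferInstance _ _ he (hR' m)
    rw [Fintype.card_sum, Fintype.card_fin] at h1
    omega
  have hne : S.Nonempty := by
    refine ⟨0, fun i => i.elim0, ⟨?_, ?_, ?_⟩⟩
    · rintro (i | i)
      · exact H.1 i
      · exact i.elim0
    · rintro (i | i)
      · exact H.2.1 i
      · exact i.elim0
    · rintro (i | i) (j | j) hij
      · exact H.2.2 i j fun e => hij (by rw [e])
      · exact j.elim0
      · exact i.elim0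
      · exact i.elim0
  obtain ⟨e, he⟩ := Nat.sSup_mem hne hbdd
  refine ⟨sSup S, e, he, ?_⟩
  intro u hu
  by_contra hcon
  push Not at hcon
  have h1 : sSup S + 1 ∈ S := by
    refine ⟨Fin.cons u e, ⟨?_, ?_, ?_⟩⟩
    · rintro (i | i)
      · exact H.1 i
      · refine Fin.cases ?_ (fun k => ?_) i
        · exact hu
        · exact he.1 (Sum.inr k)
    · rintro (i | i)
      · exact H.2.1 i
      · exact R_one.le
    · have key : ∀ l : ι ⊕ Fin (sSup S), 1 ≤ (Sum.elim h (fun _ => R) l) ^ 2 + R ^ 2 -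
          2 * (Sum.elim h (fun _ => R) l) * R * ⟪Sum.elim n e l, u⟫ := by
        intro l
        have := hcon l
        linarith
      rintro (i | i) (j | j) hij
      · exact H.2.2 i j fun e => hij (by rw [e])
      · refine Fin.cases ?_ (fun k => ?_) j
        · exact key (Sum.inl i)
        · exact he.2.2 (Sum.inl i) (Sum.inr k) (by simp)
      · refine Fin.cases ?_ (fun k => ?_) i
        · have := key (Sum.inl j)
          simp only [Sum.elim_inl, Sum.elim_inr, Fin.cons_zero] at this ⊢
          rw [real_inner_comm]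
          linarith
        · exact he.2.2 (Sum.inr k) (Sum.inl j) (by simp)
      · revert hij
        refine Fin.cases ?_ (fun k => ?_) i
        · refine Fin.cases ?_ (fun k' => ?_) j
          · intro hij
            exact absurd rfl hij
          · intro _
            have := key (Sum.inr k')
            simp only [Sum.elim_inr, Fin.cons_zero, Fin.cons_succ] at this ⊢
            rw [real_inner_comm]
            linarith
        · refine Fin.cases ?_ (fun k' => ?_) j
          · intro _
            exact key (Sum.inr k)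
          · intro hij
            have h2 : k ≠ k' := fun e => hij (by rw [e])
            exact he.2.2 (Sum.inr k) (Sum.inr k') (by simpa using h2)
  have h2 := le_csSup hbdd h1
  omega

/-- The covering radius of a saturated packing. -/
theorem Satd.cov (S : Satd n h) (h1 : ∀ i, 1 ≤ h i) (u : E3) (hu : ‖u‖ = 1) :
    ∃ l, R / 2 < ⟪n l, u⟫ := by
  obtain ⟨l, hl⟩ := S u hu
  refine ⟨l, ?_⟩
  have h2 := h1 l
  have h3 : R ^ 2 * h l ≤ R ^ 2 + h l ^ 2 - 1 := by
    nlinarith [R_sq_hi]
  have h4 : 0 < 2 * R * h l := by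
    have := R_pos
    positivity
  have h5 : 2 * R * h l * (R / 2) < 2 * R * h l * ⟪n l, u⟫ := by
    refine lt_of_le_of_lt ?_ hl
    linarith
  exact lt_of_mul_lt_mul_left h5 h4.le

theorem Satd.pos (S : Satd n h) (h1 : ∀ i, 1 ≤ h i) : Pos n := by
  intro u hu
  have hn0 : 0 < ‖u‖ := norm_pos_iff.mpr hu
  obtain ⟨l, hl⟩ := S.cov h1 (‖u‖⁻¹ • u) (by
    rw [norm_smul, norm_inv, norm_norm]
    field_simp)
  refine ⟨l, ?_⟩
  rw [inner_smul_right] at hl
  have h2 : 0 < ‖u‖⁻¹ * ⟪n l, u⟫ := by linarith [R_pos]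
  exact (pos_iff_pos_of_mul_pos h2).mp (inv_pos.mpr hn0)

/-- The distances with the lifts `h - 1`. -/
theorem Pck.inner_le (H : Pck n h) {i j : ι} (hij : i ≠ j) :
    2 * ⟪n i, n j⟫ ≤ 1 + (h i - 1) + (h j - 1) := by
  have h1 := H.2.2 i j hij
  have h2 := H.2.1 i
  have h3 := H.2.1 j
  have h4 : 0 < h i * h j := by positivity
  have h5 : h i * h j * (2 * ⟪n i, n j⟫) ≤ h i * h j * (1 + (h i - 1) + (h j - 1)) := by
    have h6 : 0 ≤ (h i - 1) * (h j - 1) * (h i + h j + 1) := by
      have : 0 ≤ (h i - 1) * (h j - 1) := mul_nonneg (by linarith) (by linarith)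
      positivity
    nlinarith
  exact le_of_mul_le_mul_left h5 h4

/-- The Delaunay triangulation of a saturated packing: all circumradii are less than
`arccos (R / 2)`. -/
theorem exists_DT_sat [Fintype ι] [Nonempty ι] (H : Pck n h) (hR : ∀ i, h i ≤ R)
    (S : Satd n h) : ∃ (nb : ι → Finset ι) (nx : ι → ι → ι), IsDT n nb nx ∧
      ∀ i j, j ∈ nb i → ∃ v, ⟪n i, v⟫ = 1 ∧ ⟪n j, v⟫ = 1 ∧ ⟪n (nx i j), v⟫ = 1 ∧
        (∀ l, ⟪n l, v⟫ ≤ 1) ∧ R * ‖v‖ ≤ 2 := by
  obtain ⟨nb, nx, D⟩ := exists_DT H.1 (H.inj hR) (S.pos H.2.1)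
  refine ⟨nb, nx, D, ?_⟩
  intro i j hj
  obtain ⟨v, h1, h2, h3, h4⟩ := D.circ i j hj
  refine ⟨v, h1, h2, h3, h4, ?_⟩
  have h5 := norm_circ (c := R / 2) (by linarith [R_pos])
    (fun u hu => by
      obtain ⟨l, hl⟩ := S.cov H.2.1 u hu
      exact ⟨l, hl.le⟩) h4
  linarith

theorem Satd.nonempty (S : Satd n h) : Nonempty ι := by
  obtain ⟨l, -⟩ := S (EuclideanSpace.single 0 1) (by simp)
  exact ⟨l⟩

/-- The circumradii of a triangulation are less than `arccos (R / 2)`. -/
def CircB (n : ι → E3) (nb : ι → Finset ι) (nx : ι → ι → ι) : Prop :=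
  ∀ i j, j ∈ nb i → ∃ v, ⟪n i, v⟫ = 1 ∧ ⟪n j, v⟫ = 1 ∧ ⟪n (nx i j), v⟫ = 1 ∧
    (∀ l, ⟪n l, v⟫ ≤ 1) ∧ R * ‖v‖ ≤ 2

/-- The sums over the completed family. -/
theorem sum_sat [Fintype ι] (m : ℕ) (f : ℝ → ℝ) (h : ι → ℝ) :
    ∑ i, f (Sum.elim h (fun _ : Fin m => R) i) = ∑ i, f (h i) + m * f R := by
  rw [Fintype.sum_sum_type]
  simp

/-- The reduction to saturated packings and their Delaunay triangulations: `V` is the loss of a
point, for instance `V h = 1 - wt h`. -/
theorem sat_red [Fintype ι] (H : Pck n h) (hR : ∀ i, h i ≤ R) (V : ℝ → ℝ) (hV : V R = 1)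
    (main : ∀ (κ : Type) (_ : Fintype κ) (n' : κ → E3) (h' : κ → ℝ) (nb : κ → Finset κ)
      (nx : κ → κ → κ), Pck n' h' → (∀ i, h' i ≤ R) → Satd n' h' → IsDT n' nb nx →
      CircB n' nb nx → (Fintype.card κ : ℝ) - 12 ≤ ∑ i, V (h' i)) :
    (Fintype.card ι : ℝ) - 12 ≤ ∑ i, V (h i) := by
  obtain ⟨m, e, he, hs⟩ := exists_sat H hR
  have hR' : ∀ i : ι ⊕ Fin m, Sum.elim h (fun _ => R) i ≤ R := by
    rintro (i | i)
    · exact hR i
    · exact le_refl R
  have := hs.nonempty
  obtain ⟨nb, nx, D, hc⟩ := exists_DT_sat he hR' hs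
  have h1 := main _ inferInstance _ _ nb nx he hR' hs D hc
  rw [sum_sat m V h, hV, Fintype.card_sum, Fintype.card_fin] at h1
  push_cast at h1
  linarith

end poly

end Pool.Agent.SDL
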