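import Pool.Agent.SDL.Targets3
import Pool.Agent.SDL.Sat
import Pool.Agent.SDL.CMap

set_option autoImplicit false

/-!
# The normals of a family with many near sides span the space positively (step 1 of E13, E14)
-/

open MeasureTheory Set Real
open scoped RealInnerProductSpace

namespace Pool.Agent.SDL

open Pool.Agent.SDC

/-- `4 π / 15 < arccos 0.65`. -/
theorem arccos65 : 4 * π / 15 < arccos 0.65 := by
  have hpi := Real.pi_lt_d4
  have hpi0 := Real.pi_pos
  have h1 : 4 * π / 15 ≤ 0.8378 := by linarith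
  have h2 := Real.one_sub_sq_div_two_le_cos (x := 0.4189)
  have h3 : cos (0.8378 : ℝ) = 2 * cos 0.4189 ^ 2 - 1 := by
    rw [← Real.cos_two_mul]
    norm_num
  have h4 : (0.65 : ℝ) < cos (4 * π / 15) := by
    have h5 : cos (0.8378 : ℝ) ≤ cos (4 * π / 15) :=
      Real.cos_le_cos_of_nonneg_of_le_pi (by positivity) (by linarith [Real.pi_gt_three]) h1
    have h6 : (0.65 : ℝ) < cos (0.8378 : ℝ) := by
      rw [h3]
      nlinarith
    linarith
  rw [← Real.arccos_cos (x := 4 * π / 15) (by positivity) (by linarith)]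
  exact Real.arccos_lt_arccos (by norm_num) h4 (Real.cos_le_one _)

section poly

variable {ι : Type} {n : ι → E3} {h : ι → ℝ}

/-- The facts about a near side, without `Irr`. -/
theorem NS_facts (H : Pck n h) {i j : ι} (hi : h i < R) (hj : h j < R) {ϱ : ℝ}
    (hN : NS n h i ϱ j) :
    ⟪n i, n j⟫ ^ 2 < 1 ∧ Dq (h i) (h j) ⟪n i, n j⟫ < ϱ ^ 2 := by
  obtain ⟨hij, x, hx, x1, x2, -⟩ := hN
  have hi1 := H.2.1 i
  have hj1 := H.2.1 j
  have hα1 : |⟪n i, n j⟫| ≤ 1 := by
    have := abs_real_inner_le_norm (n i) (n j)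
    rwa [H.1 i, H.1 j, one_mul] at this
  have hg := gram3 (H.1 i) (H.1 j) x1 x2
  have hp := H.2.2 i j hij
  have hα : ⟪n i, n j⟫ ^ 2 < 1 := by
    have h1 : ⟪n i, n j⟫ ^ 2 ≤ 1 := by
      rw [← sq_abs]
      nlinarith [abs_nonneg ⟪n i, n j⟫]
    rcases h1.eq_or_lt with h2 | h2
    · exfalso
      rw [h2] at hg
      linarith
    · exact h2
  refine ⟨hα, ?_⟩
  have h1 : 0 < 1 - ⟪n i, n j⟫ ^ 2 := by linarith
  rw [Dq, div_lt_iff₀ h1]
  have h2 : ‖x‖ ^ 2 < ϱ ^ 2 := by nlinarith [norm_nonneg x]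
  nlinarith

/-- Six directions: five with mutual gaps at least `arccos 0.65` do not fit into a half plane. -/
theorem no_half (S : Finset ι) (hS : 5 ≤ S.card) (θ : ι → ℝ) (φ : ℝ)
    (h1 : ∀ j ∈ S, ∀ k ∈ S, j ≠ k → cos (θ j - θ k) ≤ 0.65)
    (h2 : ∀ j ∈ S, cos (θ j - φ) ≤ 0) : False := by
  classical
  set T : Finset (ι ⊕ Bool) := S.map ⟨Sum.inl, Sum.inl_injective⟩ ∪
    (Finset.univ : Finset Bool).map ⟨Sum.inr, Sum.inr_injective⟩ with hT
  set Θ : ι ⊕ Bool → ℝ := Sum.elim θ (fun b => if b then φ + π / 6 else φ - π / 6) with hΘ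
  set z : ι ⊕ Bool → ℝ := Sum.elim (fun _ => 0.65) (fun _ => 1 / 2) with hz
  have hin : ∀ a ∈ T, (∃ j ∈ S, a = Sum.inl j) ∨ ∃ b : Bool, a = Sum.inr b := by
    intro a ha
    rw [hT, Finset.mem_union, Finset.mem_map, Finset.mem_map] at ha
    rcases ha with ⟨j, hj, rfl⟩ | ⟨b, -, rfl⟩
    · exact Or.inl ⟨j, hj, rfl⟩
    · exact Or.inr ⟨b, rfl⟩
  have hpm : ∀ j ∈ S, ∀ b : Bool, cos (θ j - (if b then φ + π / 6 else φ - π / 6)) ≤ 1 / 2 := by
    intro j hj b
    have h3 := h2 j hj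
    have h4 : sin (θ j - φ) ≤ 1 := Real.sin_le_one _
    have h5 : -1 ≤ sin (θ j - φ) := Real.neg_one_le_sin _
    have h6 : 0 ≤ √3 := Real.sqrt_nonneg 3
    have h7 := mul_nonpos_of_nonneg_of_nonpos h6 h3
    cases b
    · have e : θ j - (if false = true then φ + π / 6 else φ - π / 6) = (θ j - φ) + π / 6 := by
        simp only [Bool.false_eq_true, if_false]
        ring
      rw [e, Real.cos_add, Real.cos_pi_div_six, Real.sin_pi_div_six]
      linarith
    · have e : θ j - (if true = true then φ + π / 6 else φ - π / 6) = (θ j - φ) - π / 6 := by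
        simp only [if_true]
        ring
      rw [e, Real.cos_sub, Real.cos_pi_div_six, Real.sin_pi_div_six]
      linarith
  have hsum := p_ARC (ι ⊕ Bool) T Θ z (by
    intro a ha
    rcases hin a ha with ⟨j, hj, rfl⟩ | ⟨b, rfl⟩
    · simp only [hz, Sum.elim_inl]
      norm_num
    · simp only [hz, Sum.elim_inr]
      norm_num) (by
    intro a ha c hc hac
    rcases hin a ha with ⟨j, hj, rfl⟩ | ⟨b, rfl⟩
    · rcases hin c hc with ⟨k, hk, rfl⟩ | ⟨b', rfl⟩
      · simp only [hz, hΘ, Sum.elim_inl]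
        have := h1 j hj k hk (fun e => hac (by rw [e]))
        linarith
      · simp only [hz, hΘ, Sum.elim_inl, Sum.elim_inr]
        have := hpm j hj b'
        linarith
    · rcases hin c hc with ⟨k, hk, rfl⟩ | ⟨b', rfl⟩
      · simp only [hz, hΘ, Sum.elim_inl, Sum.elim_inr]
        have := hpm k hk b
        rw [← Real.cos_neg, neg_sub]
        linarith
      · simp only [hz, hΘ, Sum.elim_inr]
        have hbb : b ≠ b' := fun e => hac (by rw [e])
        have h8 : cos ((if b then φ + π / 6 else φ - π / 6) -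
            (if b' then φ + π / 6 else φ - π / 6)) = 1 / 2 := by
          cases b <;> cases b'
          · exact absurd rfl hbb
          · simp only [Bool.false_eq_true, if_false, if_true]
            rw [show φ - π / 6 - (φ + π / 6) = -(π / 3) by ring, Real.cos_neg,
              Real.cos_pi_div_three]
          · simp only [Bool.false_eq_true, if_false, if_true]
            rw [show φ + π / 6 - (φ - π / 6) = π / 3 by ring, Real.cos_pi_div_three]
          · exact absurd rfl hbb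
        rw [h8]
        norm_num)
  have hdisj : Disjoint (S.map ⟨Sum.inl, Sum.inl_injective⟩)
      ((Finset.univ : Finset Bool).map (⟨Sum.inr, Sum.inr_injective⟩ : Bool ↪ ι ⊕ Bool)) := by
    rw [Finset.disjoint_left]
    intro a ha hb
    rw [Finset.mem_map] at ha hb
    obtain ⟨j, -, rfl⟩ := ha
    obtain ⟨b, -, hb⟩ := hb
    exact Sum.inr_ne_inl hb
  rw [hT, Finset.sum_union hdisj, Finset.sum_map, Finset.sum_map] at hsum
  simp only [hz, Function.Embedding.coeFn_mk, Sum.elim_inl, Sum.elim_inr, Finset.sum_const,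
    nsmul_eq_mul, Finset.card_univ, Fintype.card_bool] at hsum
  have ha : arccos (1 / 2) = π / 3 := by
    rw [← Real.cos_pi_div_three, Real.arccos_cos (by positivity) (by linarith [Real.pi_pos])]
  rw [ha] at hsum
  have h65 := arccos65
  have hc : (5 : ℝ) ≤ S.card := by exact_mod_cast hS
  have h9 : 5 * arccos 0.65 ≤ S.card * arccos 0.65 :=
    mul_le_mul_of_nonneg_right hc (Real.arccos_nonneg _)
  push_cast at hsum
  linarith

/-- A facet with five near sides is not extreme. -/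
theorem not_extreme (H : Pck n h) (hR : ∀ i, h i < R) (k : ι) (S : Finset ι)
    (hS : ∀ j ∈ S, NS n h k RP j) (hcard : 5 ≤ S.card) {u : E3} (hu : u ≠ 0)
    (hk : ⟪n k, u⟫ ≤ 0) (hj : ∀ j ∈ S, ⟪n j, u⟫ ≤ ⟪n k, u⟫) : False := by
  obtain ⟨e, f, ho, hd⟩ := exists_frame (n k) (H.1 k)
  have hsq : ∀ j, ⟪e, n j⟫ ^ 2 + ⟪f, n j⟫ ^ 2 = 1 - ⟪n k, n j⟫ ^ 2 := by
    intro j
    have h1 := ((p_CRD (n k) e f ho).2 (n j)).1
    rw [H.1 j] at h1
    linarith
  have hfac : ∀ j ∈ S, ⟪n k, n j⟫ ^ 2 < 1 ∧ Dq (h k) (h j) ⟪n k, n j⟫ < RP ^ 2 := fun j hj =>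
    NS_facts H (hR k) (hR j) (hS j hj)
  have hpol : ∀ j : ι, ∃ θ : ℝ, j ∈ S → (⟪e, n j⟫ = √(1 - ⟪n k, n j⟫ ^ 2) * cos θ ∧
      ⟪f, n j⟫ = √(1 - ⟪n k, n j⟫ ^ 2) * sin θ) := by
    intro j
    by_cases hjS : j ∈ S
    · have h1 := (hfac j hjS).1
      obtain ⟨θ, -, -, h2, h3⟩ := exists_polar 0 ⟪e, n j⟫ ⟪f, n j⟫ (by rw [hsq]; linarith)
      rw [hsq] at h2 h3
      exact ⟨θ, fun _ => ⟨h2, h3⟩⟩
    · exact ⟨0, fun h0 => absurd h0 hjS⟩
  choose θ hθ using hpol
  have hs : ∀ j ∈ S, 0 < √(1 - ⟪n k, n j⟫ ^ 2) := fun j hj =>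
    Real.sqrt_pos.mpr (by linarith [(hfac j hj).1])
  have hkj : ∀ j ∈ S, k ≠ j := fun j hj => (hS j hj).1
  -- the gaps
  have hgap : ∀ j ∈ S, ∀ l ∈ S, j ≠ l → cos (θ j - θ l) ≤ 0.65 := by
    intro j hj l hl hjl
    have h1 := (p_GAP (h k) (h j) (h l) ⟪n k, n j⟫ ⟪n k, n l⟫ ⟪n j, n l⟫ (H.2.1 k)
      ((hR k).trans R_lt_RO) (H.2.1 j) (H.2.1 l) (hfac j hj).1 (hfac l hl).1
      (H.2.2 k j (hkj j hj)) (H.2.2 k l (hkj l hl)) (H.2.2 j l hjl)).1
    have h2 := frame_inner ho (n j) (n l)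
    rw [(hθ j hj).1, (hθ j hj).2, (hθ l hl).1, (hθ l hl).2] at h2
    have h3 := (hfac j hj).2
    have h4 := (hfac l hl).2
    rw [RP_sq] at h3 h4
    have h5 := mul_pos (hs j hj) (hs l hl)
    have h6 : √(1 - ⟪n k, n j⟫ ^ 2) * √(1 - ⟪n k, n l⟫ ^ 2) * cos (θ j - θ l) ≤
        √(1 - ⟪n k, n j⟫ ^ 2) * √(1 - ⟪n k, n l⟫ ^ 2) *
          ((Dq (h k) (h j) ⟪n k, n j⟫ + Dq (h k) (h l) ⟪n k, n l⟫) / 2 - 1) := by
      rw [Real.cos_sub]
      linarith
    have h7 := le_of_mul_le_mul_left h6 h5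
    linarith
  -- the direction u
  have hE := frame_inner ho
  by_cases hut : ⟪e, u⟫ ^ 2 + ⟪f, u⟫ ^ 2 = 0
  · have he : ⟪e, u⟫ = 0 := by nlinarith [sq_nonneg ⟪e, u⟫, sq_nonneg ⟪f, u⟫]
    have hf : ⟪f, u⟫ = 0 := by nlinarith [sq_nonneg ⟪e, u⟫, sq_nonneg ⟪f, u⟫]
    have hku : ⟪n k, u⟫ ≠ 0 := by
      intro h0
      have h1 := hE u u
      rw [h0, he, hf] at h1
      apply hu
      rw [← inner_self_eq_zero (𝕜 := ℝ), h1]
      ring
    obtain ⟨j, hjS⟩ : S.Nonempty := Finset.card_pos.mp (by omega)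
    have h1 := hj j hjS
    have h2 := hE (n j) u
    rw [he, hf] at h2
    have h3 := (hfac j hjS).1
    have h4 : ⟪n k, u⟫ < 0 := lt_of_le_of_ne hk hku
    have h5 : ⟪n k, n j⟫ < 1 := by nlinarith
    have h6 : ⟪n j, u⟫ = ⟪n k, n j⟫ * ⟪n k, u⟫ := by rw [h2]; ring
    nlinarith
  · have hpos : 0 < ⟪e, u⟫ ^ 2 + ⟪f, u⟫ ^ 2 := lt_of_le_of_ne (by positivity) (Ne.symm hut)
    obtain ⟨φ, -, -, h1, h2⟩ := exists_polar 0 ⟪e, u⟫ ⟪f, u⟫ hpos
    set s := √(⟪e, u⟫ ^ 2 + ⟪f, u⟫ ^ 2) with hsdef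
    have hs0 : 0 < s := Real.sqrt_pos.mpr hpos
    refine no_half S hcard θ φ hgap ?_
    intro j hjS
    have h3 := hj j hjS
    have h4 := hE (n j) u
    rw [(hθ j hjS).1, (hθ j hjS).2, h1, h2] at h4
    have h5 := (hfac j hjS).1
    have h6 : ⟪n k, n j⟫ < 1 := by nlinarith
    have h7 := hs j hjS
    have h8 : √(1 - ⟪n k, n j⟫ ^ 2) * s * cos (θ j - φ) ≤ 0 := by
      rw [Real.cos_sub]
      have h9 : ⟪n k, n j⟫ * ⟪n k, u⟫ ≥ ⟪n k, u⟫ := by nlinarith
      nlinarith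
    by_contra hcon
    push Not at hcon
    have := mul_pos (mul_pos h7 hs0) hcon
    linarith

/-- If all facets but one have at least five near sides, the normals span the space
positively. -/
theorem pos_of_deg [Fintype ι] {g : ι → Finset ι} (H : Pck n h) (hR : ∀ i, h i < R)
    (hg : ∀ i, ∀ j ∈ g i, NS n h i RP j) (x : ι) (hdeg : ∀ i, i ≠ x → 5 ≤ (g i).card)
    (hcard : 2 ≤ Fintype.card ι) : Pos n := by
  classical
  intro u0 hu0
  by_contra hcon
  push Not at hcon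
  -- the compact set of the bad directions
  set K : Set E3 := {u | ‖u‖ = 1 ∧ ∀ k, ⟪n k, u⟫ ≤ 0} with hK
  have hKc : IsCompact K := by
    refine (isCompact_sphere (0 : E3) 1).of_isClosed_subset ?_ ?_
    · rw [hK, Set.ofPred_and]
      refine IsClosed.inter (isClosed_eq continuous_norm continuous_const) ?_
      have : {u : E3 | ∀ k, ⟪n k, u⟫ ≤ 0} = ⋂ k, {u : E3 | ⟪n k, u⟫ ≤ 0} := by
        ext u
        simp
      rw [this]
      exact isClosed_iInter fun k =>
        isClosed_le (continuous_const.inner continuous_id) continuous_const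
    · intro u hu
      rw [mem_sphere_iff_norm, sub_zero]
      exact hu.1
  have hun0 : 0 < ‖u0‖ := norm_pos_iff.mpr hu0
  have hKne : K.Nonempty := by
    refine ⟨(‖u0‖)⁻¹ • u0, ?_, ?_⟩
    · rw [norm_smul, norm_inv, norm_norm, inv_mul_cancel₀ hun0.ne']
    · intro k
      rw [real_inner_smul_right]
      exact mul_nonpos_of_nonneg_of_nonpos (inv_nonneg.mpr hun0.le) (hcon k)
  obtain ⟨u, huK, hmin⟩ := hKc.exists_isMinOn hKne
    (f := fun u => ⟪n x, u⟫) (continuous_const.inner continuous_id).continuousOn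
  have hun : ‖u‖ = 1 := huK.1
  have hu : u ≠ 0 := by
    intro h0
    rw [h0, norm_zero] at hun
    exact zero_ne_one hun
  -- some other facet is at least as high as x
  obtain ⟨k1, hk1x, hk1⟩ : ∃ k, k ≠ x ∧ ⟪n x, u⟫ ≤ ⟪n k, u⟫ := by
    by_contra hno
    push Not at hno
    obtain ⟨k2, hk2⟩ : ∃ k2 : ι, k2 ≠ x := Fintype.exists_ne_of_one_lt_card hcard x
    have hx0 := huK.2 x
    set c := ⟪n x, u⟫ with hc
    have hcm : -1 < c := by
      have h1 := hno k2 hk2
      have h2 : |⟪n k2, u⟫| ≤ 1 := by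
        have := abs_real_inner_le_norm (n k2) u
        rwa [H.1 k2, hun, one_mul] at this
      linarith [(abs_le.mp h2).1]
    -- a small step
    have hneg : ∀ k, k ≠ x → ⟪n k, u⟫ < 0 := fun k hk => lt_of_lt_of_le (hno k hk) hx0
    have hne : (Finset.univ.filter fun k : ι => k ≠ x).Nonempty :=
      ⟨k2, by simp [hk2]⟩
    obtain ⟨k3, hk3, hmax⟩ := Finset.exists_max_image _ (fun k => ⟪n k, u⟫) hne
    have hk3x : k3 ≠ x := (Finset.mem_filter.mp hk3).2
    set δ := -⟪n k3, u⟫ with hδ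
    have hδ0 : 0 < δ := by
      rw [hδ]
      linarith [hneg k3 hk3x]
    have hδ1 : ∀ k, k ≠ x → ⟪n k, u⟫ ≤ -δ := by
      intro k hk
      rw [hδ, neg_neg]
      exact hmax k (by simp [hk])
    set v : E3 := u - δ • n x with hv
    have hvx : ⟪n x, v⟫ = c - δ := by
      rw [hv, inner_sub_right, real_inner_smul_right, real_inner_self_eq_norm_sq, H.1 x, ← hc]
      ring
    have hvk : ∀ k, ⟪n k, v⟫ ≤ 0 := by
      intro k
      by_cases hk : k = x
      · rw [hk, hvx]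
        linarith
      · rw [hv, inner_sub_right, real_inner_smul_right]
        have h1 : |⟪n k, n x⟫| ≤ 1 := by
          have := abs_real_inner_le_norm (n k) (n x)
          rwa [H.1 k, H.1 x, one_mul] at this
        have h2 := (abs_le.mp h1).1
        have h3 := hδ1 k hk
        nlinarith
    have hvn : ‖v‖ ^ 2 = 1 - 2 * δ * c + δ ^ 2 := by
      rw [hv, ← real_inner_self_eq_norm_sq, inner_sub_left, inner_sub_right, inner_sub_right,
        real_inner_smul_left, real_inner_smul_left, real_inner_smul_right,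
        real_inner_smul_right, real_inner_self_eq_norm_sq, real_inner_self_eq_norm_sq, hun,
        H.1 x, real_inner_comm (n x) u, ← hc]
      ring
    have hvn1 : 0 < ‖v‖ ^ 2 := by
      rw [hvn]
      nlinarith
    have hvp : 0 < ‖v‖ := by
      rcases (norm_nonneg v).eq_or_lt with h0 | h0
      · rw [← h0] at hvn1
        norm_num at hvn1
      · exact h0
    have hvK : (‖v‖)⁻¹ • v ∈ K := by
      refine ⟨?_, ?_⟩
      · rw [norm_smul, norm_inv, norm_norm, inv_mul_cancel₀ hvp.ne']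
      · intro k
        rw [real_inner_smul_right]
        exact mul_nonpos_of_nonneg_of_nonpos (inv_nonneg.mpr hvp.le) (hvk k)
    have hle := hmin hvK
    simp only [mem_ofPred_eq] at hle
    rw [real_inner_smul_right, hvx, ← hc, inv_mul_eq_div, le_div_iff₀ hvp] at hle
    -- c ‖v‖ ≤ c - δ
    have h1 : (c - δ) ^ 2 ≤ (c * ‖v‖) ^ 2 := by
      have h2 : c - δ ≤ 0 := by linarith
      have h3 : c * ‖v‖ ≤ c - δ := hle
      nlinarith
    rw [mul_pow, hvn] at h1
    have h4 : 0 < 1 - c ^ 2 := by nlinarith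
    have h5 : 0 < δ ^ 2 - 2 * δ * c := by nlinarith
    nlinarith [mul_pos h4 h5]
  obtain ⟨k, hk, hmax⟩ := Finset.exists_max_image (Finset.univ.filter fun k : ι => k ≠ x)
    (fun k => ⟪n k, u⟫) ⟨k1, by simp [hk1x]⟩
  have hkx : k ≠ x := (Finset.mem_filter.mp hk).2
  refine not_extreme H hR k (g k) (hg k) (hdeg k hkx) hu (huK.2 k) ?_
  intro j _
  by_cases hjx : j = x
  · rw [hjx]
    exact hk1.trans (hmax k1 (by simp [hk1x]))
  · exact hmax j (by simp [hjx])

end poly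

end Pool.Agent.SDL
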