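import Pool.Agent.SDL.Targets3
import Pool.Agent.SDL.CNo
import Pool.Agent.SDL.Pert
import Pool.Agent.SDL.PosDeg

set_option autoImplicit false

/-!
# SDL: E13 and E14

The degrees of the relation of near sides of thirteen or fourteen facets below `R`: parity, one
missing edge, and the nonexistence of the three maps.
-/

open scoped RealInnerProductSpace

namespace Pool.Agent.SDL

open Pool.Agent.SDC

section

variable {ι : Type} [Fintype ι]

/-- The sum of the degrees is even. -/
theorem even_sum_card (g : ι → Finset ι) (hs : ∀ i j, j ∈ g i → i ∈ g j) (hi : ∀ i, i ∉ g i) :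
    Even (∑ i, (g i).card) := by
  classical
  let G : SimpleGraph ι := { Adj := fun a b => b ∈ g a, symm := ⟨fun a b h => hs a b h⟩,
                             loopless := ⟨hi⟩ }
  have h := G.sum_degrees_eq_twice_card_edges
  have e : ∀ a, G.degree a = (g a).card := by
    intro a
    rw [← SimpleGraph.card_neighborFinset_eq_degree]
    congr 1
    ext b
    simp [G]
  simp only [e] at h
  rw [h]
  exact even_two_mul _

theorem crd_par {k : ℕ} (hk : crd k ≤ 2) : Even (crd k + k + 1) ∧ (crd k = 0 → k = 5) ∧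
    (crd k = 1 → k = 4 ∨ k = 6) := by
  unfold crd at *
  split_ifs at * with h1 h2
  · refine ⟨?_, ?_, ?_⟩
    · have : k = 3 ∨ k = 4 ∨ k = 5 := by omega
      rcases this with rfl | rfl | rfl <;> decide
    · omega
    · omega
  · subst h2
    exact ⟨by decide, fun h => absurd h (by norm_num), fun _ => Or.inr rfl⟩
  · omega

/-- If the sum of the credits is at most two, its parity is that of the number of elements. -/
theorem sum_crd_par (g : ι → Finset ι) (hs : ∀ i j, j ∈ g i → i ∈ g j) (hi : ∀ i, i ∉ g i)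
    (h2 : ∑ i, crd (g i).card ≤ 2) : Even (∑ i, crd (g i).card + Fintype.card ι) := by
  have h3 : ∀ i, crd (g i).card ≤ 2 := fun i =>
    (Finset.single_le_sum (f := fun i => crd (g i).card) (fun _ _ => Nat.zero_le _)
      (Finset.mem_univ i)).trans h2
  have h4 : Even (∑ i, (crd (g i).card + (g i).card + 1)) :=
    Finset.even_sum _ fun i _ => (crd_par (h3 i)).1
  have h5 := even_sum_card g hs hi
  rw [Finset.sum_add_distrib, Finset.sum_add_distrib, Finset.sum_const, Finset.card_univ,
    smul_eq_mul, mul_one] at h4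
  have h6 : Even ((∑ i, crd (g i).card + Fintype.card ι) + ∑ i, (g i).card) := by
    have e : (∑ i, crd (g i).card + Fintype.card ι) + ∑ i, (g i).card =
      ∑ i, crd (g i).card + ∑ i, (g i).card + Fintype.card ι := by ring
    rw [e]
    exact h4
  exact (Nat.even_add.mp h6).mpr h5

/-- One missing edge. -/
theorem extra_edge [DecidableEq ι] {g nb : ι → Finset ι} (hg : ∀ i j, j ∈ g i → i ∈ g j)
    (hnb : ∀ i j, j ∈ nb i → i ∈ nb j) (hne : ∀ i j, j ∈ nb i → i ≠ j) (hsub : ∀ i, g i ⊆ nb i)
    (hsum : ∑ i, (nb i).card = ∑ i, (g i).card + 2) :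
    ∃ a b, a ≠ b ∧ b ∈ nb a ∧ (nb a).card = (g a).card + 1 ∧ (nb b).card = (g b).card + 1 ∧
      ∀ i, i ≠ a → i ≠ b → (nb i).card = (g i).card := by
  have hD : ∀ i, (nb i).card = (g i).card + (nb i \ g i).card := by
    intro i
    rw [Finset.card_sdiff_of_subset (hsub i)]
    have := Finset.card_le_card (hsub i)
    omega
  have hS : ∑ i, (nb i \ g i).card = 2 := by
    have : ∑ i, (nb i).card = ∑ i, (g i).card + ∑ i, (nb i \ g i).card := by
      rw [← Finset.sum_add_distrib]
      exact Finset.sum_congr rfl fun i _ => hD i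
    omega
  have hsym : ∀ i j, j ∈ nb i \ g i → i ∈ nb j \ g j := by
    intro i j hj
    rw [Finset.mem_sdiff] at hj ⊢
    exact ⟨hnb _ _ hj.1, fun h => hj.2 (hg _ _ h)⟩
  obtain ⟨a, ha⟩ : ∃ a, (nb a \ g a).Nonempty := by
    by_contra hcon
    push Not at hcon
    have : ∑ i, (nb i \ g i).card = 0 := by
      apply Finset.sum_eq_zero
      intro i _
      rw [hcon i, Finset.card_empty]
    omega
  obtain ⟨b, hb⟩ := ha
  have hab : a ≠ b := hne _ _ (Finset.mem_sdiff.mp hb).1
  have ha1 : 1 ≤ (nb a \ g a).card := Finset.card_pos.mpr ⟨b, hb⟩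
  have hb1 : 1 ≤ (nb b \ g b).card := Finset.card_pos.mpr ⟨a, hsym _ _ hb⟩
  have h1 : ∑ i, (nb i \ g i).card = ∑ i ∈ ({a, b} : Finset ι), (nb i \ g i).card +
      ∑ i ∈ Finset.univ \ {a, b}, (nb i \ g i).card := by
    rw [add_comm, Finset.sum_sdiff (Finset.subset_univ _)]
  rw [Finset.sum_pair hab] at h1
  have h2 : ∑ i ∈ Finset.univ \ {a, b}, (nb i \ g i).card = 0 := by omega
  rw [Finset.sum_eq_zero_iff] at h2
  refine ⟨a, b, hab, (Finset.mem_sdiff.mp hb).1, ?_, ?_, ?_⟩
  · rw [hD a]
    omega
  · rw [hD b]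
    omega
  · intro i h3 h4
    have := h2 i (by
      rw [Finset.mem_sdiff, Finset.mem_insert, Finset.mem_singleton]
      exact ⟨Finset.mem_univ _, fun h => h.elim h3 h4⟩)
    rw [hD i]
    omega

theorem no_hex' [Nonempty ι] {n : ι → E3} {h : ι → ℝ} (G : Good n h) {o : ι}
    (ho : (nb n h o).card = 6) (h5 : ∀ i, i ≠ o → (nb n h i).card = 5) : False := by
  obtain ⟨i, h1, h2⟩ := G.isCM.no_hex o ho
  exact h2 (h5 i h1)

end

theorem p_E13 : T_E13 := by
  classical
  intro ι _ n h g hc hP hR hs hN
  have hne : Nonempty ι := Fintype.card_pos_iff.mp (by omega)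
  have hirr : ∀ i, i ∉ g i := fun i hi => (hN i i hi).1 rfl
  by_contra hcon
  push Not at hcon
  have h2 : ∑ i, crd (g i).card ≤ 2 := by omega
  have hpar := sum_crd_par g hs hirr h2
  rw [hc] at hpar
  have h1 : ∑ i, crd (g i).card = 1 := by
    rcases hpar with ⟨r, hr⟩
    omega
  have h3 : ∀ i, crd (g i).card ≤ 2 := fun i =>
    (Finset.single_le_sum (f := fun i => crd (g i).card) (fun _ _ => Nat.zero_le _)
      (Finset.mem_univ i)).trans h2
  -- the exceptional facet
  obtain ⟨o, ho⟩ : ∃ o, crd (g o).card ≠ 0 := by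
    by_contra hc2
    push Not at hc2
    rw [Finset.sum_eq_zero fun i _ => hc2 i] at h1
    omega
  have hsplit : ∑ i, crd (g i).card = crd (g o).card +
      ∑ i ∈ Finset.univ.erase o, crd (g i).card :=
    (Finset.add_sum_erase _ _ (Finset.mem_univ o)).symm
  have ho1 : crd (g o).card = 1 := by omega
  have hz : ∑ i ∈ Finset.univ.erase o, crd (g i).card = 0 := by omega
  rw [Finset.sum_eq_zero_iff] at hz
  have h5 : ∀ i, i ≠ o → (g i).card = 5 := fun i hi =>
    (crd_par (h3 i)).2.1 (hz i (Finset.mem_erase.mpr ⟨hi, Finset.mem_univ _⟩))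
  have ho46 := (crd_par (h3 o)).2.2 ho1
  have hpos : Pos n := pos_of_deg hP hR (fun i j hj => hN i j hj) o
    (fun i hi => by rw [h5 i hi]) (by omega)
  have hgne : ∀ i, (g i).Nonempty := by
    intro i
    rw [← Finset.card_pos]
    by_cases hi : i = o
    · rw [hi]
      omega
    · rw [h5 i hi]
      norm_num
  obtain ⟨h', -, G, -, hsub⟩ := exists_good hP.1 (fun i => by linarith [hP.2.1 i]) hP.2.2 hpos g
    (fun i j hj => hN i j hj) hgne Filter.univ_mem
  have D := G.isCM
  have hcard := D.hcard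
  rw [hc] at hcard
  have hgs : ∑ i, (g i).card = (g o).card + 60 := by
    rw [← Finset.add_sum_erase _ _ (Finset.mem_univ o)]
    congr 1
    rw [Finset.sum_const_nat (m := 5) (fun i hi => h5 i (Finset.ne_of_mem_erase hi)),
      Finset.card_erase_of_mem (Finset.mem_univ _), Finset.card_univ, hc]
  rcases ho46 with h4 | h6
  · obtain ⟨a, b, hab, hba, ha, hb, hrest⟩ := extra_edge hs D.symm D.ne hsub (by omega)
    by_cases hao : a = o
    · subst hao
      refine no_hex' G (o := b) (by rw [hb, h5 b hab.symm]) ?_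
      intro i hi
      by_cases hia : i = a
      · rw [hia, ha, h4]
      · rw [hrest i hia hi, h5 i hia]
    · by_cases hbo : b = o
      · subst hbo
        refine no_hex' G (o := a) (by rw [ha, h5 a hao]) ?_
        intro i hi
        by_cases hib : i = b
        · rw [hib, hb, h4]
        · rw [hrest i hi hib, h5 i hib]
      · refine no_462 D.cm D.hcard hba (by rw [ha, h5 a hao]) (by rw [hb, h5 b hbo])
          (w := o) ?_ ?_
        · rw [hrest o (fun e => hao e.symm) (fun e => hbo e.symm), h4]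
        · intro i h6 h7 h8
          rw [hrest i h6 h7, h5 i h8]
  · -- no missing edge
    have heq : ∀ i, (nb n h' i).card = (g i).card := by
      have hle : ∀ i ∈ Finset.univ, (g i).card ≤ (nb n h' i).card := fun i _ =>
        Finset.card_le_card (hsub i)
      have hsum : ∑ i, (g i).card = ∑ i, (nb n h' i).card := by omega
      intro i
      exact ((Finset.sum_eq_sum_iff_of_le hle).mp hsum i (Finset.mem_univ i)).symm
    refine no_hex' G (o := o) (by rw [heq, h6]) ?_
    intro i hi
    rw [heq, h5 i hi]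

theorem p_E14 : T_E14 := by
  classical
  intro ι _ n h g hc hP hR hs hN
  have hne : Nonempty ι := Fintype.card_pos_iff.mp (by omega)
  have hirr : ∀ i, i ∉ g i := fun i hi => (hN i i hi).1 rfl
  by_contra hcon
  push Not at hcon
  have h2 : ∑ i, crd (g i).card ≤ 2 := by omega
  have hpar := sum_crd_par g hs hirr h2
  rw [hc] at hpar
  have h1 : ∑ i, crd (g i).card = 0 := by
    rcases hpar with ⟨r, hr⟩
    omega
  have h3 : ∀ i, crd (g i).card ≤ 2 := fun i =>
    (Finset.single_le_sum (f := fun i => crd (g i).card) (fun _ _ => Nat.zero_le _)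
      (Finset.mem_univ i)).trans h2
  rw [Finset.sum_eq_zero_iff] at h1
  have h5 : ∀ i, (g i).card = 5 := fun i => (crd_par (h3 i)).2.1 (h1 i (Finset.mem_univ i))
  obtain ⟨o⟩ := id hne
  have hpos : Pos n := pos_of_deg hP hR (fun i j hj => hN i j hj) o
    (fun i _ => by rw [h5 i]) (by omega)
  have hgne : ∀ i, (g i).Nonempty := by
    intro i
    rw [← Finset.card_pos, h5 i]
    norm_num
  obtain ⟨h', -, G, -, hsub⟩ := exists_good hP.1 (fun i => by linarith [hP.2.1 i]) hP.2.2 hpos g
    (fun i j hj => hN i j hj) hgne Filter.univ_mem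
  have D := G.isCM
  have hcard := D.hcard
  rw [hc] at hcard
  have hgs : ∑ i, (g i).card = 70 := by
    rw [Finset.sum_const_nat (m := 5) (fun i _ => h5 i), Finset.card_univ, hc]
  obtain ⟨a, b, hab, hba, ha, hb, hrest⟩ := extra_edge hs D.symm D.ne hsub (by omega)
  refine no_562 D.cm D.hcard hba (by rw [ha, h5 a]) (by rw [hb, h5 b]) ?_
  intro i h6 h7
  rw [hrest i h6 h7, h5 i]

end Pool.Agent.SDL
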