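import Pool.Agent.SDL.AsmC

set_option autoImplicit false

/-!
# SDL: the targets F and H for `t ≥ 1.21`

For `t ≥ 1.21` the number `Lm t` of the chord is larger than `R - 1`, so F is the chord of the
weight `wt` and H is void.
-/

open MeasureTheory Set Real
open scoped RealInnerProductSpace

namespace Pool.Agent.SDL

open Pool.Agent.SDC

theorem Lm_hi {t : ℝ} (ht : 1.21 ≤ t) : R - 1 < Lm t := by
  have h1 : gu t = 0.108 := by
    unfold gu
    rw [if_neg (not_lt.2 ht)]
  rw [Lm, h1]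
  have := R_hi'
  norm_num at *
  linarith

/-- F for `t ≥ 1.21`. -/
theorem p_F_hi {ι : Type} [Fintype ι] (n : ι → E3) (h : ι → ℝ) (i : ι) (e f : E3) (t : ℝ)
    (hP : Pck n h) (hI : Irr n h) (hO : Onb (n i) e f) (ht : 1.21 ≤ t) (htR : t < R)
    (hi : h i < 1 + Lm t) :
    -(π / 3 * bet t * (1 - (h i - 1) / Lm t)) ≤ FI t n h i e f := by
  have ht1 : 1 ≤ t := by norm_num at ht ⊢; linarith
  have hR1 : 0 < R - 1 := by linarith [R_lo']
  have hL := Lm_hi ht
  have hL0 : 0 < Lm t := Lm_pos t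
  have hh1 : 1 ≤ h i := hP.2.1 i
  refine (FB_wt hP hI ht1 htR i).mono ht1 htR ?_ e f hO
  have h0 : 0 ≤ 1 - (h i - 1) / Lm t := by
    rw [sub_nonneg, div_le_one hL0]
    linarith
  refine max_le ?_ h0
  rcases le_or_gt (h i) R with h1 | h1
  · refine (wt_le_chord hh1 h1).trans ?_
    have : (h i - 1) / Lm t ≤ (h i - 1) / (R - 1) :=
      div_le_div_of_nonneg_left (by linarith) hR1 hL.le
    linarith
  · refine le_trans ?_ h0
    rw [← WT_R]
    exact WT_anti h1.le

/-- H for `t ≥ 1.21`. -/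
theorem p_H_hi {t h : ℝ} (ht : 1.21 ≤ t) (h1 : 1 + Lm t ≤ h) (h2 : h < R) : False := by
  linarith [Lm_hi ht]

end Pool.Agent.SDL
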