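import Pool.Agent.SDL.Targets2

set_option autoImplicit false

open MeasureTheory Set Real
open scoped RealInnerProductSpace

namespace Pool.Agent.SDL

open Pool.Agent.SDC

/-- Half angles: the cosine of a sum of two half angles. -/
theorem ARC_cos (x y : ℝ) (hx : 0 ≤ x) (hx2 : x ≤ π / 2) (hy : 0 ≤ y) (hy2 : y ≤ π / 2) :
    (cos x + cos y) / 2 ≤ cos ((x + y) / 2) := by
  rw [cos_add_cos]
  have h1 : 0 ≤ cos ((x + y) / 2) := by
    apply cos_nonneg_of_mem_Icc
    constructor <;> linarith [Real.pi_pos]
  have h2 : cos ((x - y) / 2) ≤ 1 := cos_le_one _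
  nlinarith

/-- Distance on the circle and the cosine. -/
theorem ARC_dist (a b r : ℝ) (hr : r ≤ π) (_hp : Fact (0 < 2 * π))
    (h : dist (a : AddCircle (2 * π)) (b : AddCircle (2 * π)) ≤ r) :
    cos r ≤ cos (a - b) := by
  rw [dist_eq_norm, ← AddCircle.coe_sub, AddCircle.norm_eq] at h
  set m : ℤ := round ((2 * π)⁻¹ * (a - b)) with hm
  have h1 : cos (a - b) = cos |a - b - m * (2 * π)| := by
    rw [cos_abs, cos_sub_int_mul_two_pi]
  rw [h1]
  exact cos_le_cos_of_nonneg_of_le_pi (abs_nonneg _) hr h

theorem p_ARC : T_ARC := by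
  intro J S θ z hz hd
  have hp : Fact (0 < 2 * π) := ⟨by positivity⟩
  have hps : ∀ j ∈ S, 0 ≤ arccos (z j) ∧ arccos (z j) ≤ π / 2 := by
    intro j hj
    refine ⟨arccos_nonneg _, ?_⟩
    rw [arccos_le_pi_div_two]
    exact (hz j hj).1.le
  have key : ∀ s : ℝ, 0 < s → s < 1 → s * ∑ j ∈ S, arccos (z j) ≤ 2 * π := by
    intro s hs hs1
    have hdis : Set.PairwiseDisjoint (S : Set J)
        (fun j => Metric.closedBall (θ j : AddCircle (2 * π)) (s * arccos (z j) / 2)) := by
      intro j hj k hk hjk
      rw [Function.onFun, Set.disjoint_left]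
      intro x hx hx'
      rw [Metric.mem_closedBall] at hx hx'
      have h1 := hps j hj
      have h2 := hps k hk
      have h3 : dist (θ j : AddCircle (2 * π)) (θ k : AddCircle (2 * π)) ≤
          s * arccos (z j) / 2 + s * arccos (z k) / 2 := by
        refine (dist_triangle_left _ _ x).trans ?_
        exact add_le_add hx hx'
      have hpi := Real.pi_pos
      have hzj : 0 < arccos (z j) := arccos_pos.mpr (hz j hj).2
      have h4 : s * arccos (z j) / 2 + s * arccos (z k) / 2 <
          (arccos (z j) + arccos (z k)) / 2 := by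
        nlinarith
      have h5 := ARC_dist _ _ _ (by linarith) hp h3
      have h6 : cos ((arccos (z j) + arccos (z k)) / 2) <
          cos (s * arccos (z j) / 2 + s * arccos (z k) / 2) := by
        apply cos_lt_cos_of_nonneg_of_le_pi _ (by linarith) h4
        have := mul_nonneg hs.le h1.1
        have := mul_nonneg hs.le h2.1
        linarith
      have h7 := ARC_cos (arccos (z j)) (arccos (z k)) h1.1 h1.2 h2.1 h2.2
      rw [cos_arccos (by linarith [(hz j hj).1]) (hz j hj).2.le,
        cos_arccos (by linarith [(hz k hk).1]) (hz k hk).2.le] at h7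
      linarith [hd j hj k hk hjk]
    have hmeas : ∀ j ∈ S, MeasurableSet
        (Metric.closedBall (θ j : AddCircle (2 * π)) (s * arccos (z j) / 2)) :=
      fun j _ => measurableSet_closedBall
    have h1 := measure_biUnion_finset hdis hmeas (μ := (volume : Measure (AddCircle (2 * π))))
    have h2 : volume (⋃ j ∈ S, Metric.closedBall (θ j : AddCircle (2 * π))
        (s * arccos (z j) / 2)) ≤ ENNReal.ofReal (2 * π) := by
      rw [← AddCircle.measure_univ]
      exact measure_mono (subset_univ _)
    rw [h1] at h2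
    have h3 : ∑ j ∈ S, volume (Metric.closedBall (θ j : AddCircle (2 * π))
        (s * arccos (z j) / 2)) = ENNReal.ofReal (s * ∑ j ∈ S, arccos (z j)) := by
      rw [Finset.mul_sum, ENNReal.ofReal_sum_of_nonneg]
      · apply Finset.sum_congr rfl
        intro j hj
        rw [AddCircle.volume_closedBall]
        congr 1
        rw [min_eq_right]
        · ring
        · have h1 := hps j hj
          have hpi := Real.pi_pos
          nlinarith
      · intro j hj
        exact mul_nonneg hs.le (hps j hj).1
    rw [h3] at h2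
    exact (ENNReal.ofReal_le_ofReal_iff (by positivity)).mp h2
  have hnn : 0 ≤ ∑ j ∈ S, arccos (z j) := Finset.sum_nonneg fun j hj => (hps j hj).1
  by_contra hcon
  push Not at hcon
  have hpos : 0 < ∑ j ∈ S, arccos (z j) := lt_trans (by positivity) hcon
  have hpi := Real.pi_pos
  set A := ∑ j ∈ S, arccos (z j) with hA
  have h1 := key ((1 + 2 * π / A) / 2) (by positivity) (by
    have : 2 * π / A < 1 := by
      rw [div_lt_one hpos]
      exact hcon
    linarith)
  have h2 : (1 + 2 * π / A) / 2 * A = (A + 2 * π) / 2 := by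
    field_simp
  rw [h2] at h1
  linarith

end Pool.Agent.SDL
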