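import Pool.Agent.SDL.Targets

set_option autoImplicit false

open MeasureTheory Set Real
open scoped RealInnerProductSpace

namespace Pool.Agent.SDL

open Pool.Agent.SDC

private theorem bm_X (t : ℝ) (ht : 1 ≤ t) (htR : t < R) :
    t ^ 3 + bet t ≤ (1 - kap t) * R ^ 3 := by
  have hG := (tBET t ht htR).2
  have hcc : cc rv = R := by
    rw [cc, ← R_sq', Real.sqrt_sq R_pos.le]
  have hR3 : 0 < R ^ 3 := pow_pos R_pos 3
  have ht3 : t ^ 3 ≤ R ^ 3 := pow_le_pow_left₀ (by linarith) htR.le 3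
  have hmax : max ((1 : ℝ) ^ 3 - t ^ 3 / R ^ 3) 0 = 1 - t ^ 3 / R ^ 3 := by
    rw [one_pow, max_eq_left]
    rw [sub_nonneg, div_le_one hR3]
    exact ht3
  rw [G, hcc, hmax, one_pow, mul_one] at hG
  have h1 : t ^ 3 / R ^ 3 + bet t / R ^ 3 ≤ 1 - kap t := by linarith
  rw [← add_div, div_le_iff₀ hR3] at h1
  exact h1

private theorem bm_form (t ρ : ℝ) (hρ : 0 < ρ) (hlt : t < ρ) :
    bb t ρ = (1 - kap t) * ρ ^ 2 / 2 - 3 * t ^ 2 / 2 + (t ^ 3 + bet t) / ρ := by
  unfold bb Bf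
  rw [if_neg (not_le.mpr hlt)]
  field_simp
  ring

theorem p_BM : T_BM := by
  intro t ht htR x hx y hy hxy
  have hx' : R ≤ x := hx
  have hy' : R ≤ y := hy
  have hR := R_pos
  have hx0 : 0 < x := by linarith
  have hy0 : 0 < y := by linarith
  rw [bm_form t x hx0 (by linarith), bm_form t y hy0 (by linarith)]
  have hX := bm_X t ht htR
  have hβ : 0 ≤ bet t := (tBET t ht htR).1
  set k := 1 - kap t with hk
  set X := t ^ 3 + bet t with hXd
  have hX0 : 0 < X := by
    have : 0 < t ^ 3 := by positivity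
    linarith
  have hR3 : 0 < R ^ 3 := by positivity
  have hk0 : 0 < k := by
    by_contra hcon
    have : k * R ^ 3 ≤ 0 := mul_nonpos_of_nonpos_of_nonneg (not_lt.mp hcon) hR3.le
    linarith
  have hxx : R * R ≤ x * x := mul_self_le_mul_self hR.le hx'
  have hxyR : R * R ≤ x * y := mul_le_mul hx' hy' hR.le hx0.le
  have h3 : R ^ 3 ≤ x * y * (x + y) / 2 := by
    have h4 : R * R * R ≤ x * y * ((x + y) / 2) :=
      mul_le_mul hxyR (by linarith) hR.le (by positivity)
    calc R ^ 3 = R * R * R := by ring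
      _ ≤ x * y * ((x + y) / 2) := h4
      _ = x * y * (x + y) / 2 := by ring
  have h5 : X ≤ k * (x * y * (x + y) / 2) :=
    hX.trans (mul_le_mul_of_nonneg_left h3 hk0.le)
  have h6 : k * y ^ 2 / 2 - 3 * t ^ 2 / 2 + X / y - (k * x ^ 2 / 2 - 3 * t ^ 2 / 2 + X / x) =
      (y - x) * (k * (x * y * (x + y) / 2) - X) / (x * y) := by
    field_simp
    ring
  have h7 : 0 ≤ (y - x) * (k * (x * y * (x + y) / 2) - X) / (x * y) := by
    apply div_nonneg
    · exact mul_nonneg (by linarith) (by linarith)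
    · positivity
  linarith

end Pool.Agent.SDL
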