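import Pool.Agent.SDL.Targets

set_option autoImplicit false

/-!
# SDL, target BQ: bounds of `bet`
-/

open MeasureTheory Set Real

namespace Pool.Agent.SDL

open Pool.Agent.SDC

/-- The lower bound of the cube. -/
theorem BQ_lower {r t : ℝ} (hr : 0 < r) (ht : 0 < t) (htr : t < r) :
    r ^ 3 - 3 / 2 * r * (r ^ 2 - t ^ 2) + 3 * (r ^ 2 - t ^ 2) ^ 2 / (8 * r) ≤ t ^ 3 := by
  have h1 : t ^ 3 - (r ^ 3 - 3 / 2 * r * (r ^ 2 - t ^ 2) + 3 * (r ^ 2 - t ^ 2) ^ 2 / (8 * r)) =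
      (r - t) ^ 3 * (r + 3 * t) / (8 * r) := by
    field_simp
    ring
  have h2 : 0 ≤ (r - t) ^ 3 * (r + 3 * t) / (8 * r) := by
    have : 0 < r - t := by linarith
    positivity
  linarith

/-- The upper bound of the cube. -/
theorem BQ_upper {r t : ℝ} (hr : 0 < r) (ht : 0 < t) (htr : t < r) :
    t ^ 3 ≤ r ^ 3 - 3 / 2 * r * (r ^ 2 - t ^ 2) + 3 * (r ^ 2 - t ^ 2) ^ 2 / (8 * r)
      + (r ^ 2 - t ^ 2) ^ 3 / (8 * r ^ 3) := by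
  have h1 : r ^ 3 - 3 / 2 * r * (r ^ 2 - t ^ 2) + 3 * (r ^ 2 - t ^ 2) ^ 2 / (8 * r)
      + (r ^ 2 - t ^ 2) ^ 3 / (8 * r ^ 3) - t ^ 3 =
      (r - t) ^ 3 * (3 * r * t ^ 2 + t ^ 3) / (8 * r ^ 3) := by
    field_simp
    ring
  have h2 : 0 ≤ (r - t) ^ 3 * (3 * r * t ^ 2 + t ^ 3) / (8 * r ^ 3) := by
    have : 0 < r - t := by linarith
    positivity
  linarith

/-- The closed form of `bet`. -/
theorem BQ_form {t q : ℝ} (hq : 0 ≤ q) (h : q ^ 2 * (R ^ 2 - W0) = t ^ 2 - W0) :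
    t ^ 3 + bet t = R * ((1 - kap t) * W0 + (R ^ 2 - W0) * q ^ 3) := by
  have hA : 0 < R ^ 2 - W0 := by linarith [W0_lt]
  have h1 : max (t ^ 2 - W0) 0 = q ^ 2 * (R ^ 2 - W0) := by
    rw [h, max_eq_left]
    rw [← h]
    positivity
  have h2 : √(max (t ^ 2 - W0) 0) = q * √(R ^ 2 - W0) := by
    rw [h1, Real.sqrt_mul (sq_nonneg q), Real.sqrt_sq hq]
  have h3 : √(R ^ 2 - W0) ^ 2 = R ^ 2 - W0 := Real.sq_sqrt hA.le
  have h4 : 0 < √(R ^ 2 - W0) := Real.sqrt_pos.mpr hA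
  have h5 : √(max (t ^ 2 - W0) 0) ^ 3 / √(R ^ 2 - W0) = (R ^ 2 - W0) * q ^ 3 := by
    rw [h2, div_eq_iff h4.ne']
    calc (q * √(R ^ 2 - W0)) ^ 3 = √(R ^ 2 - W0) ^ 2 * q ^ 3 * √(R ^ 2 - W0) := by ring
      _ = (R ^ 2 - W0) * q ^ 3 * √(R ^ 2 - W0) := by rw [h3]
  rw [bet, gg, h5]
  ring

/-- Target BQ. -/
theorem p_BQ : T_BQ := by
  intro t q _ ht htR hq h
  have hR : 0 < R := R_pos
  have h0 : 0 < t := by linarith
  have hf := BQ_form hq h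
  have h1 := BQ_lower hR h0 htR
  have h2 := BQ_upper hR h0 htR
  have he : R ^ 2 - t ^ 2 = (R ^ 2 - W0) * (1 - q ^ 2) := by linarith
  have e2 : 3 * (R ^ 2 - W0) ^ 2 / (8 * R) * (1 - q ^ 2) ^ 2 =
      3 * (R ^ 2 - t ^ 2) ^ 2 / (8 * R) := by
    rw [he]
    ring
  have e3 : (R ^ 2 - W0) ^ 3 / (8 * R ^ 3) * (1 - q ^ 2) ^ 3 =
      (R ^ 2 - t ^ 2) ^ 3 / (8 * R ^ 3) := by
    rw [he]
    ring
  have e1 : R * (R ^ 2 - W0) / 2 * (1 - q) ^ 2 * (1 + 2 * q) =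
      R * ((R ^ 2 - W0) * q ^ 3 + W0) - (R ^ 3 - 3 / 2 * R * (R ^ 2 - t ^ 2)) := by
    rw [he]
    ring
  have hb : bet t = R * ((R ^ 2 - W0) * q ^ 3 + W0) - kap t * R * W0 - t ^ 3 := by
    linear_combination hf
  refine ⟨?_, ?_, hf⟩
  · rw [e1, e2, hb]
    linarith
  · rw [e1, e2, e3, hb]
    linarith

end Pool.Agent.SDL
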