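import Pool.Agent.SDL.Targets

set_option autoImplicit false

/-!
# SDL: job C1

The constants of the two ranges of `t` together.
-/

open MeasureTheory Set Real
open scoped RealInnerProductSpace

namespace Pool.Agent.SDL

open Pool.Agent.SDC

theorem p_C1 (hc1a : T_C1A) (hc1g : T_C1G) (hc1b : T_C1B) (_hbm : T_BM) : T_C1 := by
  intro t ht htR
  rcases le_total (t ^ 2) W0 with h | h
  · obtain ⟨h1, h2, h3, h4⟩ := hc1a t ht h
    exact ⟨0.00455 * (1 - kap t), mul_nonneg (by norm_num) h1, h2, h3, h4⟩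
  · have hA : 0 < R ^ 2 - W0 := sub_pos.mpr W0_lt
    obtain ⟨q, hq0, hq⟩ : ∃ q : ℝ, 0 ≤ q ∧ q ^ 2 * (R ^ 2 - W0) = t ^ 2 - W0 := by
      refine ⟨√((t ^ 2 - W0) / (R ^ 2 - W0)), Real.sqrt_nonneg _, ?_⟩
      rw [Real.sq_sqrt (div_nonneg (sub_nonneg.mpr h) hA.le), div_mul_cancel₀ _ hA.ne']
    obtain ⟨h1, h2, _⟩ := hc1g t q h ht htR hq0 hq
    exact ⟨0.1119 * (R ^ 2 - W0) ^ 2 * (1 - q ^ 3) ^ 2,
      mul_nonneg (mul_nonneg (by norm_num) (sq_nonneg _)) (sq_nonneg _), h1, h2,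
      hc1b t q h ht htR hq0 hq⟩

end Pool.Agent.SDL
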