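import Pool.Agent.SDL.Targets

set_option autoImplicit false

/-! # SDL: the constants for large radii (C1B) -/

open MeasureTheory Set Real
open scoped RealInnerProductSpace

namespace Pool.Agent.SDL

open Pool.Agent.SDC

lemma C1B_RO_lo : (1.274754 : ℝ) < RO := by
  nlinarith [RO_sq, RO_pos]

lemma C1B_RO_hi : RO < (1.274755 : ℝ) := by
  nlinarith [RO_sq, RO_pos]

/-- The difference of the reciprocals of the radii. -/
lemma C1B_diff : (0.0101891 : ℝ) < 1 / R - 1 / RO ∧ 1 / R - 1 / RO < (0.0101904 : ℝ) := by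
  have h1 : 1 / R < (0.79465485 : ℝ) := by
    rw [div_lt_iff₀ R_pos]
    nlinarith [R_lo']
  have h2 : (0.79465419 : ℝ) < 1 / R := by
    rw [lt_div_iff₀ R_pos]
    nlinarith [R_hi']
  have h3 : 1 / RO < (0.78446509 : ℝ) := by
    rw [div_lt_iff₀ RO_pos]
    nlinarith [C1B_RO_lo]
  have h4 : (0.78446445 : ℝ) < 1 / RO := by
    rw [lt_div_iff₀ RO_pos]
    nlinarith [C1B_RO_hi]
  constructor <;> linarith

lemma C1B_A_lo : (0.201626 : ℝ) < R ^ 2 - W0 := by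
  rw [R_sq, W0]
  linarith [s5_hi']

lemma C1B_A_hi : R ^ 2 - W0 < (0.201627 : ℝ) := by
  rw [R_sq, W0]
  linarith [s5_lo']

lemma C1B_W_lo : (1.381966 : ℝ) < W0 := by
  rw [W0]
  linarith [s5_hi']

lemma C1B_W_hi : W0 < (1.3819661 : ℝ) := by
  rw [W0]
  linarith [s5_lo']

lemma C1B_RW : (1.739077 : ℝ) < R * W0 ∧ R * W0 < (1.739079 : ℝ) := by
  have h1 := C1B_W_lo
  have h2 := C1B_W_hi
  have h3 := R_lo'
  have h4 := R_hi'
  constructor <;> nlinarith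

/-- The constant of the multiplier `β`. -/
lemma C1B_bc : (0.243023 : ℝ) < 2 * π * (1 - 1 / R) - π / 3 ∧
    2 * π * (1 - 1 / R) - π / 3 < (0.243029 : ℝ) := by
  have h1 : 1 / R < (0.79465485 : ℝ) := by
    rw [div_lt_iff₀ R_pos]
    nlinarith [R_lo']
  have h2 : (0.79465419 : ℝ) < 1 / R := by
    rw [lt_div_iff₀ R_pos]
    nlinarith [R_hi']
  have h3 := Real.pi_gt_d6
  have h4 := Real.pi_lt_d6
  constructor <;> nlinarith

/-- The two constants of the step. -/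
lemma C1B_d1 : (0.00298 : ℝ) ≤ (RO ^ 2 - R ^ 2) / 2 - R * W0 * (1 / R - 1 / RO) ∧
    (RO ^ 2 - R ^ 2) / 2 - R * W0 * (1 / R - 1 / RO) ≤ (0.00299 : ℝ) := by
  obtain ⟨h1, h2⟩ := C1B_diff
  obtain ⟨h3, h4⟩ := C1B_RW
  have h5 := R_sq_lo
  have h6 := R_sq_hi
  rw [RO_sq]
  constructor <;> nlinarith

lemma C1B_d2 : R * (R ^ 2 - W0) * (1 / R - 1 / RO) ≤ (0.00259 : ℝ) := by
  obtain ⟨h1, h2⟩ := C1B_diff
  have h3 := C1B_A_lo
  have h4 := C1B_A_hi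
  have h5 := R_lo'
  have h6 := R_hi'
  have h7 : R * (R ^ 2 - W0) ≤ 0.25373 := by nlinarith
  have h8 : 0 ≤ R * (R ^ 2 - W0) := by
    have := R_pos
    positivity [this]
  nlinarith

lemma C1B_alp {t : ℝ} (h1 : 1 ≤ t) :
    alp t = Bf t R - kap t * rv ^ 2 / 2 - bet t * (1 - 1 / R) := by
  have h := tHCL.2 t (kap t) (bet t) 1 rv (by linarith) one_pos rv_pos.le
  rw [cc_rv, div_one] at h
  have h4 : Bf t 1 = 0 := by
    rw [Bf, if_pos h1]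
  rw [h4] at h
  rw [alp, h]
  ring

lemma C1B_Dl {t q : ℝ} (h1 : 1 ≤ t) (h2 : t < R)
    (h3 : t ^ 3 + bet t = R * ((1 - kap t) * W0 + (R ^ 2 - W0) * q ^ 3)) :
    Dl t = (1 - kap t) * ((RO ^ 2 - R ^ 2) / 2 - R * W0 * (1 / R - 1 / RO)) -
      R * (R ^ 2 - W0) * (1 / R - 1 / RO) * q ^ 3 := by
  obtain ⟨-, -, hB⟩ := p_BF
  have e1 : Dl t = (1 - kap t) * ((RO ^ 2 - R ^ 2) / 2) -
      (t ^ 3 + bet t) * (1 / R - 1 / RO) := by
    rw [Dl, bb, bb, hB t R (by linarith) h2.le, hB t RO (by linarith) (by linarith [R_lt_RO])]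
    ring
  rw [e1, h3]
  ring

theorem p_C1B (hku : T_KU) (hbq : T_BQ) (hc1g : T_C1G) (hpq : T_PQ) : T_C1B := by
  intro t q hW ht1 htR hq0 hq
  obtain ⟨hq1, hk1⟩ := hku t q hW ht1 htR hq0 hq
  obtain ⟨hb1, -, hb3⟩ := hbq t q hW ht1 htR hq0 hq
  obtain ⟨-, -, hg3⟩ := hc1g t q hW ht1 htR hq0 hq
  have hκ := (tKAP t ht1 htR).1
  have hidn := tIDN t ht1 htR
  rw [C1B_alp ht1] at hidn
  rw [C1B_Dl ht1 htR hb3]
  have hP := hpq q hq0 hq1.le
  obtain ⟨hd1, hd1'⟩ := C1B_d1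
  have hd2 := C1B_d2
  obtain ⟨hbc1, hbc2⟩ := C1B_bc
  obtain ⟨hRW1, hRW2⟩ := C1B_RW
  have hA1 := C1B_A_lo
  have hA2 := C1B_A_hi
  set κ := kap t with hκdef
  set β := bet t with hβdef
  set A := R ^ 2 - W0 with hA
  set d1 := (RO ^ 2 - R ^ 2) / 2 - R * W0 * (1 / R - 1 / RO) with hd1def
  set d2 := R * A * (1 / R - 1 / RO) with hd2def
  set bc := 2 * π * (1 - 1 / R) - π / 3 with hbc
  have hpi1 := Real.pi_gt_d6
  have hpi2 := Real.pi_lt_d6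
  have hR0 := R_pos
  -- the functional
  have hJ : - 10 * J0 t = 2 * π * Bf t R - π * κ * rv ^ 2 - β * bc := by
    rw [hbc]
    linear_combination (-(1 / 12 : ℝ)) * hidn
  have hrv : rv ^ 2 ≤ 0.5835926 := by
    have := R_sq_hi
    rw [R_sq'] at this
    linarith
  have hrv0 : 0 ≤ rv ^ 2 := sq_nonneg _
  have hK0 : 0 ≤ Kq q := by linarith
  -- the coefficient of `κ`
  have hc : π * rv ^ 2 - bc * (R * W0) + 0.703 * d1 ≤ 1.413 := by
    have h1 : π * rv ^ 2 ≤ 3.141593 * 0.5835926 :=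
      mul_le_mul hpi2.le hrv hrv0 (by norm_num)
    have h2 : 0.243023 * 1.739077 ≤ bc * (R * W0) :=
      mul_le_mul hbc1.le hRW1.le (by norm_num) (by linarith)
    norm_num at h1 h2 ⊢
    linarith
  have hcκ : κ * (π * rv ^ 2 - bc * (R * W0) + 0.703 * d1) ≤ 0.08168 * Kq q := by
    have h1 : κ * (π * rv ^ 2 - bc * (R * W0) + 0.703 * d1) ≤ κ * 1.413 :=
      mul_le_mul_of_nonneg_left hc hκ
    have h2 : κ * 1.413 ≤ 0.0578 * Kq q * 1.413 := mul_le_mul_of_nonneg_right hk1 (by norm_num)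
    linarith
  -- the terms in `q`
  have hA2sq : A ^ 2 ≤ 0.0406535 := by nlinarith only [hA1, hA2]
  have hA1sq : (0.040653 : ℝ) ≤ A ^ 2 := by nlinarith only [hA1, hA2]
  have hq3 : 0 ≤ q ^ 3 := by positivity
  have t1 : 4.68 * (0.1119 * A ^ 2 * (1 - q ^ 3) ^ 2) ≤ 0.0213 * (1 - q ^ 3) ^ 2 := by
    have h1 : 0 ≤ (1 - q ^ 3) ^ 2 := sq_nonneg _
    have h2 := mul_le_mul_of_nonneg_right hA2sq h1
    linarith only [h1, h2]
  have t2 : d2 * q ^ 3 ≤ 0.00259 * q ^ 3 := mul_le_mul_of_nonneg_right hd2 hq3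
  -- `Bf` and `β`
  have hS : 0 ≤ (1 - q ^ 2) ^ 2 := sq_nonneg _
  have hT : 0 ≤ (1 - q) ^ 2 * (1 + 2 * q) := by positivity
  have hbc0 : 0 ≤ bc := by linarith
  have h5 : β * bc ≤ (R * A / 2 * (1 - q) ^ 2 * (1 + 2 * q)
      - 3 * A ^ 2 / (8 * R) * (1 - q ^ 2) ^ 2 - κ * R * W0) * bc :=
    mul_le_mul_of_nonneg_right hb1 hbc0
  have h6 : 2 * π * (3 * A ^ 2 / (8 * R ^ 2) * (1 - q ^ 2) ^ 2) ≤ 2 * π * Bf t R :=
    mul_le_mul_of_nonneg_left hg3 (by linarith)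
  have h7 : (0.0634 : ℝ) ≤ 2 * π * (3 * A ^ 2 / (8 * R ^ 2)) + bc * (3 * A ^ 2 / (8 * R)) := by
    have a1 : (0.0096266 : ℝ) ≤ 3 * A ^ 2 / (8 * R ^ 2) := by
      rw [le_div_iff₀ (by positivity)]
      linarith only [R_sq_hi, hA1sq]
    have a2 : (0.0121143 : ℝ) ≤ 3 * A ^ 2 / (8 * R) := by
      rw [le_div_iff₀ (by positivity)]
      linarith only [R_hi', hA1sq]
    have a3 : 6.283184 * 0.0096266 ≤ 2 * π * (3 * A ^ 2 / (8 * R ^ 2)) :=
      mul_le_mul (by linarith) a1 (by norm_num) (by linarith)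
    have a4 : 0.243023 * 0.0121143 ≤ bc * (3 * A ^ 2 / (8 * R)) :=
      mul_le_mul hbc1.le a2 (by norm_num) hbc0
    norm_num at a3 a4 ⊢
    linarith
  have h8 : bc * (R * A / 2) ≤ 0.03084 := by
    have a1 : R * A / 2 ≤ 0.126865 := by
      have a0 := mul_le_mul R_hi'.le hA2.le (show 0 ≤ A by linarith only [hA1]) (by norm_num)
      norm_num at a0
      linarith only [a0]
    have a2 : 0 ≤ R * A / 2 := by
      have : 0 ≤ A := by linarith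
      positivity
    have a3 : bc * (R * A / 2) ≤ 0.243029 * 0.126865 :=
      mul_le_mul hbc2.le a1 a2 (by norm_num)
    norm_num at a3 ⊢
    linarith
  have h9 : 0.0634 * (1 - q ^ 2) ^ 2 ≤
      (2 * π * (3 * A ^ 2 / (8 * R ^ 2)) + bc * (3 * A ^ 2 / (8 * R))) * (1 - q ^ 2) ^ 2 :=
    mul_le_mul_of_nonneg_right h7 hS
  have h10 : bc * (R * A / 2) * ((1 - q) ^ 2 * (1 + 2 * q)) ≤
      0.03084 * ((1 - q) ^ 2 * (1 + 2 * q)) := mul_le_mul_of_nonneg_right h8 hT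
  rw [hJ]
  linear_combination hP + t1 + hcκ + 0.703 * t2 + 0.703 * hd1 + h5 + h6 + h9 + h10

end Pool.Agent.SDL
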