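import Pool.Agent.SDL.Targets

set_option autoImplicit false

/-!
# SDL, target C1G
-/

open MeasureTheory Set Real
open scoped RealInnerProductSpace

namespace Pool.Agent.SDL

open Pool.Agent.SDC

/-- The polynomial inequality behind C1G. -/
theorem C1G_poly (A r b δ : ℝ) (hA1 : 0.2016259 < A) (hA2 : A < 0.2016267)
    (hr1 : 1.258408 < r) (hbA : b ≤ A) (hd0 : 0 ≤ δ) (hd1 : δ ≤ 0.26) :
    0 ≤ 0.1119 * (r - δ) * b ^ 2 - δ * b + δ ^ 2 * (1.5 * r - δ / 2) := by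
  have hmono : 0.1119 * (1.258408 - δ) * b ^ 2 - δ * b + δ ^ 2 * (1.5 * 1.258408 - δ / 2) ≤
      0.1119 * (r - δ) * b ^ 2 - δ * b + δ ^ 2 * (1.5 * r - δ / 2) := by
    nlinarith [mul_nonneg (sub_nonneg.mpr hr1.le) (sq_nonneg b),
      mul_nonneg (sub_nonneg.mpr hr1.le) (sq_nonneg δ)]
  refine le_trans ?_ hmono
  rcases le_total δ 0.0565 with h | h
  · -- the discriminant is negative
    set c : ℝ := 0.1119 * (1.258408 - δ) with hc
    have hc0 : 0 < c := by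
      rw [hc]
      linarith
    have hdisc : 0 ≤ 4 * c * (1.5 * 1.258408 - δ / 2) - 1 := by
      rw [hc]
      nlinarith
    have h1 : 0 ≤ 4 * c * (c * b ^ 2 - δ * b + δ ^ 2 * (1.5 * 1.258408 - δ / 2)) := by
      have : 4 * c * (c * b ^ 2 - δ * b + δ ^ 2 * (1.5 * 1.258408 - δ / 2)) =
          (2 * c * b - δ) ^ 2 + δ ^ 2 * (4 * c * (1.5 * 1.258408 - δ / 2) - 1) := by ring
      rw [this]
      positivity
    exact nonneg_of_mul_nonneg_right h1 (by positivity)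
  · -- decreasing in `b`
    have h1 : 0 ≤ (A - b) * (δ - 0.1119 * (1.258408 - δ) * (A + b)) := by
      apply mul_nonneg (by linarith)
      have : 0.1119 * (1.258408 - δ) * (A + b) ≤ 0.1119 * (1.258408 - δ) * (0.2016267 * 2) := by
        apply mul_le_mul_of_nonneg_left (by linarith)
        linarith
      nlinarith
    have h2 : 0 ≤ 0.1119 * (1.258408 - δ) * A ^ 2 - δ * A + δ ^ 2 * (1.5 * 1.258408 - δ / 2) := by
      have hA3 : (0.2016259 : ℝ) ^ 2 ≤ A ^ 2 := by nlinarith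
      have h3 : 0.1119 * (1.258408 - δ) * (0.2016259 : ℝ) ^ 2 ≤
          0.1119 * (1.258408 - δ) * A ^ 2 := by
        apply mul_le_mul_of_nonneg_left hA3
        linarith
      have h4 : δ * A ≤ δ * 0.2016267 := mul_le_mul_of_nonneg_left hA2.le hd0
      nlinarith [sq_nonneg (δ - 0.0558), mul_nonneg (sub_nonneg.mpr hd1) (sq_nonneg (δ - 0.0558))]
    nlinarith

theorem C1G_e2 : 0.1119 * (9 / 4) ≤ 1.1 * (3 / (8 * R ^ 2)) := by
  have hR := R_pos
  have hRs2 := R_sq_hi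
  have h : (1.1 : ℝ) * (3 / (8 * R ^ 2)) = 3.3 / (8 * R ^ 2) := by
    rw [← mul_div_assoc]
    norm_num
  rw [h, le_div_iff₀ (by positivity)]
  linarith

theorem C1G_s (s : ℝ) (hs0 : 0 ≤ s) (hs1 : s ≤ 1) : (1 - s) ^ 2 * (2 + s) / 2 ≤ 1 := by
  have h : 1 - (1 - s) ^ 2 * (2 + s) / 2 = s * (3 - s ^ 2) / 2 := by ring
  have h2 : 0 ≤ s * (3 - s ^ 2) / 2 := by
    apply div_nonneg _ (by norm_num)
    apply mul_nonneg hs0
    nlinarith
  linarith

theorem C1G_k (t : ℝ) (ht1 : 1 ≤ t) (htR : t < R) : kap t ≤ 1 := by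
  have hkb := le_trans (tKAP t ht1 htR).2 (p_KB t ht1 htR)
  have hs0 : 0 ≤ √(t ^ 2 - 1) / rv := div_nonneg (sqrt_nonneg _) rv_pos.le
  have hs1 : √(t ^ 2 - 1) / rv ≤ 1 := by
    rw [div_le_one rv_pos, Real.sqrt_le_left rv_pos.le]
    have h1 := R_sq'
    have h2 : t ^ 2 ≤ R ^ 2 := pow_le_pow_left₀ (by linarith) htR.le 2
    linarith
  exact le_trans hkb (C1G_s _ hs0 hs1)

/-- The formula for the difference of `bb`. -/
theorem C1G_form (t q ρ A : ℝ) (ht0 : 0 < t) (hA : A = R ^ 2 - W0)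
    (hX : t ^ 3 + bet t = R * ((1 - kap t) * W0 + A * q ^ 3)) (hρt : t ≤ ρ) (htR : t < R) :
    bb t R - bb t ρ = (R - ρ) / ρ * ((1 - kap t) *
      (A - 3 / 2 * R * (R - ρ) + (R - ρ) ^ 2 / 2) - A * q ^ 3) := by
  have hBf1 := p_BF.2.2 t ρ ht0 hρt
  have hBf2 := p_BF.2.2 t R ht0 htR.le
  have hρ0 : 0 < ρ := by linarith
  have hR := R_pos
  have hβ : bet t = R * ((1 - kap t) * (R ^ 2 - A) + A * q ^ 3) - t ^ 3 := by
    rw [show R ^ 2 - A = W0 by rw [hA]; ring]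
    linarith
  unfold bb
  rw [hBf1, hBf2, hβ]
  generalize kap t = κ
  generalize R = r at *
  field_simp
  ring

theorem p_C1G (hbq : T_BQ) : T_C1G := by
  intro t q hW ht1 htR hq0 hq
  obtain ⟨_, _, hX⟩ := hbq t q hW ht1 htR hq0 hq
  have hR := R_pos
  have hR1 := R_lo'
  have hR2 := R_hi'
  have hRs1 := R_sq_lo
  have hRs2 := R_sq_hi
  have hW1 : (1.381966 : ℝ) < W0 := by
    rw [W0]
    linarith [s5_hi']
  have hW2 : W0 < (1.38196605 : ℝ) := by
    rw [W0]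
    linarith [s5_lo']
  set A : ℝ := R ^ 2 - W0 with hA
  have hA1 : 0.2016259 < A := by
    rw [hA]
    linarith
  have hA2 : A < 0.2016267 := by
    rw [hA]
    linarith
  have ht0 : 0 < t := by linarith
  -- `q < 1`
  have hq1 : q < 1 := by
    by_contra hcon
    push Not at hcon
    have h1 : 1 ≤ q ^ 2 := one_le_pow₀ hcon
    have h2 : t ^ 2 < R ^ 2 := pow_lt_pow_left₀ htR ht0.le (by norm_num)
    have h3 : A ≤ q ^ 2 * A := le_mul_of_one_le_left (by linarith) h1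
    rw [hq] at h3
    rw [hA] at h3
    linarith
  have hRt : R ^ 2 - t ^ 2 = A * (1 - q ^ 2) := by
    rw [hA] at hq ⊢
    linarith
  -- the third claim
  have hBfR : Bf t R = (R - t) ^ 2 * (R + 2 * t) / (2 * R) := by
    unfold Bf
    rw [if_neg (by linarith)]
  have h3 : 3 * A ^ 2 / (8 * R ^ 2) * (1 - q ^ 2) ^ 2 ≤ Bf t R := by
    have e1 : 3 * A ^ 2 / (8 * R ^ 2) * (1 - q ^ 2) ^ 2 =
        3 * (R ^ 2 - t ^ 2) ^ 2 / (8 * R ^ 2) := by
      rw [hRt]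
      ring
    rw [e1, hBfR, div_le_div_iff₀ (by positivity) (by positivity)]
    have e2 : 0 ≤ (R - t) ^ 2 * ((R - t) * (R + 3 * t)) := by
      apply mul_nonneg (sq_nonneg _)
      apply mul_nonneg <;> linarith
    have e3 : (R - t) ^ 2 * (R + 2 * t) * (8 * R ^ 2) - 3 * (R ^ 2 - t ^ 2) ^ 2 * (2 * R) =
        2 * R * ((R - t) ^ 2 * ((R - t) * (R + 3 * t))) := by ring
    have e4 : 0 ≤ 2 * R * ((R - t) ^ 2 * ((R - t) * (R + 3 * t))) := by positivity
    linarith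
  -- the first claim
  have h1 : 0.1119 * A ^ 2 * (1 - q ^ 3) ^ 2 ≤ 1.1 * Bf t R := by
    refine le_trans ?_ (mul_le_mul_of_nonneg_left h3 (by norm_num))
    have e1 : (1 - q ^ 3) ^ 2 ≤ 9 / 4 * (1 - q ^ 2) ^ 2 := by
      have f1 : 0 ≤ 1 - q ^ 3 := by
        have : q ^ 3 ≤ 1 := pow_le_one₀ hq0 hq1.le
        linarith
      have f2 : 1 - q ^ 3 ≤ 3 / 2 * (1 - q ^ 2) := by
        have : 0 ≤ (1 - q) * ((1 - q) * (q + 1 / 2)) := by
          apply mul_nonneg (by linarith)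
          apply mul_nonneg <;> linarith
        have h' : 3 / 2 * (1 - q ^ 2) - (1 - q ^ 3) = (1 - q) * ((1 - q) * (q + 1 / 2)) := by
          ring
        linarith
      calc (1 - q ^ 3) ^ 2 ≤ (3 / 2 * (1 - q ^ 2)) ^ 2 := by
            apply pow_le_pow_left₀ f1 f2
        _ = 9 / 4 * (1 - q ^ 2) ^ 2 := by ring
    have e2 : 0.1119 * (9 / 4) ≤ 1.1 * (3 / (8 * R ^ 2)) := C1G_e2
    calc 0.1119 * A ^ 2 * (1 - q ^ 3) ^ 2 ≤ 0.1119 * A ^ 2 * (9 / 4 * (1 - q ^ 2) ^ 2) := by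
          apply mul_le_mul_of_nonneg_left e1 (by positivity)
      _ = 0.1119 * (9 / 4) * (A ^ 2 * (1 - q ^ 2) ^ 2) := by ring
      _ ≤ 1.1 * (3 / (8 * R ^ 2)) * (A ^ 2 * (1 - q ^ 2) ^ 2) := by
          apply mul_le_mul_of_nonneg_right e2 (by positivity)
      _ = 1.1 * (3 * A ^ 2 / (8 * R ^ 2) * (1 - q ^ 2) ^ 2) := by ring
  -- the multipliers
  obtain ⟨hk0, hk1⟩ := tKAP t ht1 htR
  have hk2 : kap t ≤ 1 := C1G_k t ht1 htR
  have hbet : 0 ≤ bet t := (tBET t ht1 htR).1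
  have hq3 : 0 ≤ q ^ 3 := by positivity
  have hq3' : q ^ 3 ≤ 1 := pow_le_one₀ hq0 hq1.le
  -- the second claim for `ρ ≥ t`
  have h2a : ∀ ρ, t ≤ ρ → ρ ≤ R →
      bb t R - bb t ρ ≤ 0.1119 * A ^ 2 * (1 - q ^ 3) ^ 2 := by
    intro ρ hρt hρR
    have hρ0 : 0 < ρ := by linarith
    set δ : ℝ := R - ρ with hδ
    have hρ : ρ = R - δ := by rw [hδ]; ring
    have hδ0 : 0 ≤ δ := by linarith
    have hδ1 : δ ≤ 0.26 := by linarith
    have hb1 : A * (1 - q ^ 3) ≤ A := by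
      apply mul_le_of_le_one_right (by linarith)
      linarith
    have hpoly := C1G_poly A R (A * (1 - q ^ 3)) δ hA1 hA2 hR1 hb1 hδ0 hδ1
    -- the formula
    have hform : bb t R - bb t ρ =
        δ / ρ * ((1 - kap t) * (A - 3 / 2 * R * δ + δ ^ 2 / 2) - A * q ^ 3) :=
      C1G_form t q ρ A ht0 hA hX hρt htR
    rw [hform]
    have hM : 0 ≤ 0.1119 * A ^ 2 * (1 - q ^ 3) ^ 2 := by positivity
    have hbr : (1 - kap t) * (A - 3 / 2 * R * δ + δ ^ 2 / 2) - A * q ^ 3 ≤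
        max 0 (A * (1 - q ^ 3) - 3 / 2 * R * δ + δ ^ 2 / 2) := by
      rcases le_total (A - 3 / 2 * R * δ + δ ^ 2 / 2) 0 with h | h
      · refine le_trans ?_ (le_max_left _ _)
        have e1 : (1 - kap t) * (A - 3 / 2 * R * δ + δ ^ 2 / 2) ≤ 0 :=
          mul_nonpos_of_nonneg_of_nonpos (by linarith) h
        have e2 : 0 ≤ A * q ^ 3 := mul_nonneg (by linarith) hq3
        linarith
      · refine le_trans ?_ (le_max_right _ _)
        have e1 : (1 - kap t) * (A - 3 / 2 * R * δ + δ ^ 2 / 2) ≤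
            1 * (A - 3 / 2 * R * δ + δ ^ 2 / 2) :=
          mul_le_mul_of_nonneg_right (by linarith) h
        linarith
    have hdρ : 0 ≤ δ / ρ := div_nonneg hδ0 hρ0.le
    refine le_trans (mul_le_mul_of_nonneg_left hbr hdρ) ?_
    rcases le_total (A * (1 - q ^ 3) - 3 / 2 * R * δ + δ ^ 2 / 2) 0 with h | h
    · rw [max_eq_left h, mul_zero]
      exact hM
    · rw [max_eq_right h, div_mul_eq_mul_div, div_le_iff₀ hρ0, hρ]
      have e5 : 0.1119 * A ^ 2 * (1 - q ^ 3) ^ 2 * (R - δ) -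
          δ * (A * (1 - q ^ 3) - 3 / 2 * R * δ + δ ^ 2 / 2) =
          0.1119 * (R - δ) * (A * (1 - q ^ 3)) ^ 2 - δ * (A * (1 - q ^ 3)) +
            δ ^ 2 * (1.5 * R - δ / 2) := by ring
      linarith
  refine ⟨h1, ?_, h3⟩
  intro ρ hρ1 hρR
  rcases le_total t ρ with h | h
  · exact h2a ρ h hρR
  · have h4 := h2a t le_rfl htR.le
    have h5 : bb t t ≤ bb t ρ := by
      have e1 : Bf t t = 0 := by
        unfold Bf
        rw [if_pos le_rfl]
      have e2 : Bf t ρ = 0 := by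
        unfold Bf
        rw [if_pos h]
      unfold bb
      rw [e1, e2]
      have hρ0 : 0 < ρ := by linarith
      have e3 : bet t / t ≤ bet t / ρ := div_le_div_of_nonneg_left hbet hρ0 h
      have e4 : kap t * ρ ^ 2 ≤ kap t * t ^ 2 := by
        apply mul_le_mul_of_nonneg_left _ hk0
        exact pow_le_pow_left₀ hρ0.le h 2
      linarith
    linarith

end Pool.Agent.SDL
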