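import Pool.Agent.SDL.Targets2

set_option autoImplicit false

/-!
# SDL: proof of DMN
-/

open MeasureTheory Set Real
open scoped RealInnerProductSpace

namespace Pool.Agent.SDL

open Pool.Agent.SDC

/-- The polynomial inequality behind `DMN`. -/
theorem dmn_aux (h p α : ℝ) (h1 : 1 ≤ h) (h2 : h ^ 2 < 13 / 8) (hp : 1 ≤ p)
    (hQ : 1 ≤ h ^ 2 + p ^ 2 - 2 * h * p * α) :
    4 * (1 - α ^ 2) ≤ (4 - h ^ 2) * (h ^ 2 + p ^ 2 - 2 * h * p * α) := by
  have hp2 : 0 < p ^ 2 := by positivity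
  have hh2 : 0 < h ^ 2 := by positivity
  obtain ⟨P, hP⟩ : ∃ P, P = 2 * p ^ 2 - 2 * h * p * α := ⟨_, rfl⟩
  obtain ⟨m, hm⟩ : ∃ m, m = 2 - h ^ 2 := ⟨_, rfl⟩
  obtain ⟨X, hX⟩ : ∃ X, X = 2 * h * p * α - h ^ 2 := ⟨_, rfl⟩
  obtain ⟨s, hs⟩ : ∃ s, s = 4 * p ^ 2 * (1 - α ^ 2) := ⟨_, rfl⟩
  have hm0 : 0 < m := by linarith
  have ha1 : 0 ≤ P - m - X := by
    rw [hP, hm, hX]
    linarith
  have ha2 : 0 ≤ P - m + X := by
    rw [hP, hm, hX]
    nlinarith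
  have hPm : m ≤ P := by linarith
  have e1 : h ^ 2 * s = h ^ 2 * (2 * P + h ^ 2) - X ^ 2 := by
    rw [hs, hP, hX]
    ring
  have e2 : s ≤ 2 * P + h ^ 2 := by
    have : h ^ 2 * s ≤ h ^ 2 * (2 * P + h ^ 2) := by
      rw [e1]
      linarith [sq_nonneg X]
    exact le_of_mul_le_mul_left this hh2
  have e3 : m ^ 2 * s ≤ (4 - h ^ 2) * P ^ 2 := by
    have f1 : m ^ 2 * s ≤ m ^ 2 * (2 * P + h ^ 2) :=
      mul_le_mul_of_nonneg_left e2 (sq_nonneg m)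
    have f2 : 0 ≤ (P - m) * (2 * P * m + h ^ 2 * (P + m)) := by
      apply mul_nonneg (by linarith)
      have : 0 < P := by linarith
      positivity
    have f3 : (4 - h ^ 2) * P ^ 2 - m ^ 2 * (2 * P + h ^ 2) =
        (P - m) * (2 * P * m + h ^ 2 * (P + m)) := by
      have : h ^ 2 = 2 - m := by linarith
      rw [this]
      ring
    linarith
  have e4 : p ^ 2 * (4 * (1 - α ^ 2)) ≤
      p ^ 2 * ((4 - h ^ 2) * (h ^ 2 + p ^ 2 - 2 * h * p * α)) := by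
    have g1 : p ^ 2 * (4 * (1 - α ^ 2)) = s := by
      rw [hs]
      ring
    have g2 : 4 * (p ^ 2 * (h ^ 2 + p ^ 2 - 2 * h * p * α)) = h ^ 2 * s + P ^ 2 := by
      rw [hs, hP]
      ring
    have g3 : 4 * s = m ^ 2 * s + (4 - h ^ 2) * h ^ 2 * s := by
      rw [hm]
      ring
    have g4 : 4 * s ≤ 4 * (p ^ 2 * ((4 - h ^ 2) * (h ^ 2 + p ^ 2 - 2 * h * p * α))) := by
      have : 4 * (p ^ 2 * ((4 - h ^ 2) * (h ^ 2 + p ^ 2 - 2 * h * p * α))) =
          (4 - h ^ 2) * (h ^ 2 * s + P ^ 2) := by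
        rw [← g2]
        ring
      rw [this]
      linarith
    linarith
  exact le_of_mul_le_mul_left e4 hp2

theorem p_DMN : T_DMN := by
  intro h p α h1 hR hp hα hQ
  have hh : h ^ 2 < 13 / 8 := by
    rw [← RO_sq]
    exact pow_lt_pow_left₀ hR (by linarith) (by norm_num)
  have hc : 0 < 1 - α ^ 2 := by linarith
  have h4 : 0 < 4 - h ^ 2 := by linarith
  have hpos : 0 < h := by linarith
  have hppos : 0 < p := by linarith
  have key := dmn_aux h p α h1 hh hp hQ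
  have A : 4 / (4 - h ^ 2) ≤ Dq h p α := by
    rw [Dq, div_le_div_iff₀ h4 hc]
    linarith
  have B : 1 < 4 / (4 - h ^ 2) := by
    rw [lt_div_iff₀ h4]
    nlinarith
  refine ⟨A, lt_of_lt_of_le B A, ?_, ?_⟩
  · have h5 : 2 * p * (h * α) < 2 * p * p := by nlinarith
    exact lt_of_mul_lt_mul_left h5 (by positivity)
  · rw [Dq, div_pow, Real.sq_sqrt hc.le]
    field_simp
    ring

end Pool.Agent.SDL
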