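import Pool.Agent.SDL.Targets2

set_option autoImplicit false

/-!
# SDL: FAX, one facet in the plane, with the foot inside
-/

open MeasureTheory Set Real
open scoped RealInnerProductSpace

namespace Pool.Agent.SDL

open Pool.Agent.SDC

/-- The integral over a set between `(0,x)` and `(0,x]`. -/
theorem FAX_aux_set {A : Set ℝ} {x : ℝ} (hx : 0 ≤ x) (h1 : Ioo 0 x ⊆ A) (h2 : A ⊆ Ioc 0 x)
    (f : ℝ → ℝ) : ∫ s in A, f s = ∫ s in (0 : ℝ)..x, f s := by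
  rw [intervalIntegral.integral_of_le hx]
  refine setIntegral_congr_set ?_
  refine Filter.EventuallyLE.antisymm (LE.le.eventuallyLE h2) ?_
  refine Filter.EventuallyLE.trans ?_ (LE.le.eventuallyLE h1)
  exact (Ioo_ae_eq_Ioc (a := (0 : ℝ)) (b := x)).symm.le

/-- The end of the segment on one ray. -/
theorem FAX_aux_min {J : Type} [Fintype J] (b a : J → ℝ) {ρ : ℝ} (hρ : 0 < ρ)
    (ha : ∀ j, 0 < a j) : ∃ x, 0 < x ∧ x ≤ ρ ∧ (∀ j, x * b j ≤ a j) ∧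
      (x = ρ ∨ x < ρ ∧ ∃ j, 0 < b j ∧ x * b j = a j) ∧
      Ioo 0 x ⊆ {s : ℝ | 0 < s ∧ s < ρ ∧ ∀ j, s * b j ≤ a j} ∧
      {s : ℝ | 0 < s ∧ s < ρ ∧ ∀ j, s * b j ≤ a j} ⊆ Ioc 0 x := by
  classical
  set F : Finset ℝ := insert ρ ((Finset.univ.filter fun j => 0 < b j).image
    fun j => a j / b j) with hF
  have hne : F.Nonempty := ⟨ρ, Finset.mem_insert_self _ _⟩
  have hmem : F.min' hne ∈ F := F.min'_mem hne
  have hle : ∀ y ∈ F, F.min' hne ≤ y := fun y hy => F.min'_le y hy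
  set x := F.min' hne with hx
  have hxρ : x ≤ ρ := hle ρ (Finset.mem_insert_self _ _)
  have hpos : 0 < x := by
    rcases Finset.mem_insert.1 hmem with h | h
    · rw [h]; exact hρ
    · obtain ⟨j, hj, hj'⟩ := Finset.mem_image.1 h
      rw [← hj']
      exact div_pos (ha j) (Finset.mem_filter.1 hj).2
  have hall : ∀ j, x * b j ≤ a j := by
    intro j
    rcases lt_or_ge 0 (b j) with hb | hb
    · rw [← le_div_iff₀ hb]
      refine hle _ (Finset.mem_insert_of_mem (Finset.mem_image.2 ⟨j, ?_, rfl⟩))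
      exact Finset.mem_filter.2 ⟨Finset.mem_univ j, hb⟩
    · have := mul_nonpos_of_nonneg_of_nonpos hpos.le hb
      linarith [ha j]
  refine ⟨x, hpos, hxρ, hall, ?_, ?_, ?_⟩
  · rcases eq_or_lt_of_le hxρ with h | h
    · exact Or.inl h
    · refine Or.inr ⟨h, ?_⟩
      rcases Finset.mem_insert.1 hmem with h' | h'
      · exact absurd h' h.ne
      · obtain ⟨j, hj, hj'⟩ := Finset.mem_image.1 h'
        have hb := (Finset.mem_filter.1 hj).2
        refine ⟨j, hb, ?_⟩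
        rw [← hj']
        exact div_mul_cancel₀ _ hb.ne'
  · rintro s ⟨hs0, hsx⟩
    refine ⟨hs0, lt_of_lt_of_le hsx hxρ, fun j => ?_⟩
    rcases lt_or_ge 0 (b j) with hb | hb
    · exact le_trans (mul_le_mul_of_nonneg_right hsx.le hb.le) (hall j)
    · have := mul_nonpos_of_nonneg_of_nonpos hs0.le hb
      linarith [ha j]
  · rintro s ⟨hs0, hsρ, hs⟩
    refine ⟨hs0, ?_⟩
    rcases Finset.mem_insert.1 hmem with h | h
    · rw [h]; exact hsρ.le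
    · obtain ⟨j, hj, hj'⟩ := Finset.mem_image.1 h
      have hb := (Finset.mem_filter.1 hj).2
      rw [← hj', le_div_iff₀ hb]
      exact hs j

/-- The inequality on one ray. -/
theorem FAX_aux_ray {J : Type} [Fintype J] {θ a : J → ℝ} {ρ v : ℝ} {g : ℝ → ℝ}
    (hρ : 0 < ρ) (ha : ∀ j, 0 < a j) (hI : v ≤ ∫ s in (0 : ℝ)..ρ, g s * s) (S : Finset J)
    (hS : ∀ j, (∃ w : ℝ × ℝ, nr w < ρ ∧ w.1 * cos (θ j) + w.2 * sin (θ j) = a j ∧
      ∀ k, k ≠ j → w.1 * cos (θ k) + w.2 * sin (θ k) < a k) → j ∈ S) {ψ : ℝ}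
    (hE : ¬ ∃ j k, j ≠ k ∧ ∃ s, 0 < s ∧ (∀ l, s * cos (ψ - θ l) ≤ a l) ∧
      s * cos (ψ - θ j) = a j ∧ s * cos (ψ - θ k) = a k) :
    v - ∑ j ∈ S, Us g v (a j) (cos (ψ - θ j)) ≤
      ∫ s in {s : ℝ | 0 < s ∧ s < ρ ∧ ∀ j, s * cos (ψ - θ j) ≤ a j}, g s * s := by
  have hsum : 0 ≤ ∑ j ∈ S, Us g v (a j) (cos (ψ - θ j)) :=
    Finset.sum_nonneg fun j _ => FAC_aux_Us_nonneg _ _ _ _
  obtain ⟨x, hx0, hxρ, hall, hx, hA1, hA2⟩ := FAX_aux_min (fun j => cos (ψ - θ j)) a hρ ha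
  rw [FAX_aux_set hx0.le hA1 hA2]
  rcases hx with h | ⟨hlt, j, hb, hj⟩
  · rw [h]
    linarith
  · have hjS : j ∈ S := by
      refine hS j ⟨(x * cos ψ, x * sin ψ), ?_, ?_, ?_⟩
      · rw [FC3_aux_nr hx0]
        exact hlt
      · simp only [FAC_aux_cos]
        exact hj
      · intro k hk
        simp only [FAC_aux_cos]
        refine lt_of_le_of_ne (hall k) ?_
        intro hk'
        exact hE ⟨j, k, hk.symm, x, hx0, hall, hj, hk'⟩
    have hle : Us g v (a j) (cos (ψ - θ j)) ≤ ∑ j ∈ S, Us g v (a j) (cos (ψ - θ j)) :=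
      Finset.single_le_sum (f := fun j => Us g v (a j) (cos (ψ - θ j)))
        (fun j _ => FAC_aux_Us_nonneg _ _ _ _) hjS
    have hU : Us g v (a j) (cos (ψ - θ j)) = max (v - ∫ r in (0 : ℝ)..x, g r * r) 0 := by
      have h3 : a j / cos (ψ - θ j) = x := by
        rw [← hj]
        exact mul_div_cancel_right₀ _ (ne_of_gt hb)
      unfold Us
      rw [if_pos hb, h3]
    have h4 := le_max_left (v - ∫ r in (0 : ℝ)..x, g r * r) 0
    rw [hU] at hle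
    linarith

theorem p_FAX : T_FAX := by
  classical
  intro J _ θ a ρ v τ g S hg hρ ha hI hτ hS huniq
  set Q : Set (ℝ × ℝ) := {w | ∀ l, w.1 * cos (θ l) + w.2 * sin (θ l) ≤ a l} with hQdef
  have hQ : MeasurableSet Q := by
    have : Q = ⋂ l, {w : ℝ × ℝ | w.1 * cos (θ l) + w.2 * sin (θ l) ≤ a l} := by
      ext w
      simp [hQdef]
    rw [this]
    exact MeasurableSet.iInter fun l =>
      measurableSet_le (by fun_prop) measurable_const
  obtain ⟨hK, hKint⟩ := p_FC3 Q ρ g hQ hρ hg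
  have hlhs : {w : ℝ × ℝ | (∀ l, w.1 * cos (θ l) + w.2 * sin (θ l) ≤ a l) ∧ nr w < ρ} =
      {w | w ∈ Q ∧ nr w < ρ} := rfl
  rw [hlhs, hKint]
  have hset : ∀ ψ : ℝ, {s : ℝ | 0 < s ∧ s < ρ ∧ (s * cos ψ, s * sin ψ) ∈ Q} =
      {s : ℝ | 0 < s ∧ s < ρ ∧ ∀ j, s * cos (ψ - θ j) ≤ a j} := by
    intro ψ
    ext s
    simp only [hQdef, Set.mem_ofPred_eq, FAC_aux_cos]
  simp only [hset] at hK ⊢
  have hfin := p_FC4 J θ a Q (by
    intro j k hjk w hw w' hw' e1 e2 e3 e4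
    exact huniq j k hjk w w' hw hw' e1 e2 e3 e4)
  set E : Set ℝ := {ψ : ℝ | ψ ∈ Ioo (-π) π ∧ ∃ j k, j ≠ k ∧ ∃ s, 0 < s ∧
    (s * cos ψ, s * sin ψ) ∈ Q ∧ s * cos (ψ - θ j) = a j ∧ s * cos (ψ - θ k) = a k} with hEdef
  have hUc : ∀ j ∈ S, Continuous (fun ψ => Us g v (a j) (cos (ψ - θ j))) ∧
      ∫ ψ in Ioo (-π) π, Us g v (a j) (cos (ψ - θ j)) ≤ 2 * τ j := fun j hj =>
    p_FC2 g v (τ j) (a j) (θ j) hg (ha j) ⟨ρ, hρ, hI⟩ (hτ j hj)
  have hUi : ∀ j ∈ S, IntegrableOn (fun ψ => Us g v (a j) (cos (ψ - θ j))) (Ioo (-π) π) := by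
    intro j hj
    exact ((hUc j hj).1.integrableOn_Icc (a := -π) (b := π)).mono_set Ioo_subset_Icc_self
  have hsumi : IntegrableOn (fun ψ => ∑ j ∈ S, Us g v (a j) (cos (ψ - θ j))) (Ioo (-π) π) :=
    integrable_finsetSum S hUi
  have hvol : volume (Ioo (-π) π) = ENNReal.ofReal (2 * π) := by
    rw [Real.volume_Ioo]
    congr 1
    ring
  have hci : IntegrableOn (fun _ : ℝ => v) (Ioo (-π) π) := by
    refine integrableOn_const ?_
    rw [hvol]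
    exact ENNReal.ofReal_ne_top
  have hmono : ∫ ψ in Ioo (-π) π, (v - ∑ j ∈ S, Us g v (a j) (cos (ψ - θ j))) ≤
      ∫ ψ in Ioo (-π) π, ∫ s in {s : ℝ | 0 < s ∧ s < ρ ∧ ∀ j, s * cos (ψ - θ j) ≤ a j},
        g s * s := by
    refine setIntegral_mono_ae_restrict (hci.sub hsumi) hK ?_
    have hnull : ∀ᵐ ψ ∂(volume.restrict (Ioo (-π) π)), ψ ∉ E := by
      refine ae_restrict_of_ae ?_
      exact (Set.Finite.measure_zero hfin volume) |> measure_eq_zero_iff_ae_notMem.1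
    filter_upwards [hnull, ae_restrict_mem measurableSet_Ioo] with ψ hψ hψ'
    refine FAX_aux_ray hρ ha (hI ρ le_rfl) S hS ?_
    rintro ⟨j, k, hjk, s, hs0, hall, e1, e2⟩
    refine hψ ⟨hψ', j, k, hjk, s, hs0, ?_, e1, e2⟩
    simp only [hQdef, Set.mem_ofPred_eq, FAC_aux_cos]
    exact hall
  have hleft : ∫ ψ in Ioo (-π) π, (v - ∑ j ∈ S, Us g v (a j) (cos (ψ - θ j))) =
      2 * π * v - ∑ j ∈ S, ∫ ψ in Ioo (-π) π, Us g v (a j) (cos (ψ - θ j)) := by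
    rw [integral_sub hci hsumi, integral_finsetSum S hUi]
    congr 1
    rw [setIntegral_const]
    have hr : (volume : Measure ℝ).real (Ioo (-π) π) = 2 * π := by
      rw [Measure.real, hvol, ENNReal.toReal_ofReal (by positivity)]
    rw [hr, smul_eq_mul]
  have hsumle : ∑ j ∈ S, ∫ ψ in Ioo (-π) π, Us g v (a j) (cos (ψ - θ j)) ≤
      2 * ∑ j ∈ S, τ j := by
    rw [Finset.mul_sum]
    exact Finset.sum_le_sum fun j hj => (hUc j hj).2
  rw [hleft] at hmono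
  linarith

end Pool.Agent.SDL
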