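import Pool.Agent.SDL.Targets2

set_option autoImplicit false

/-!
# SDL: the target T_FBA (high facets)
-/

open MeasureTheory Set Real
open scoped RealInnerProductSpace

namespace Pool.Agent.SDL

open Pool.Agent.SDC

theorem FBA_self {ι : Type} (n : ι → E3) (h : ι → ℝ) (i : ι) (h1 : ‖n i‖ = 1)
    (h0 : 0 < h i) : ad n h i i = 0 := by
  unfold ad
  rw [real_inner_self_eq_norm_sq, h1, div_self h0.ne']
  norm_num

theorem p_FBA (hfcx : T_FCX) (hdsc : T_DSC) (hnsf : T_NSF) : T_FBA := by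
  classical
  intro ι _ n h i e f t hP hI hO ht1 htR hiRO hti hi2
  have hh1 : 1 ≤ h i := hP.2.1 i
  have hh0 : 0 < h i := by linarith
  have hgc : Continuous (G t (kap t) (bet t) (h i)) := tHCL.1 _ _ _ _
  have hv : ∀ r, 0 ≤ r → - (bet t / 6 * max (wt (h i)) 0) ≤
      ∫ s in (0 : ℝ)..r, G t (kap t) (bet t) (h i) s * s := fun r hr =>
    hdsc t (h i) r ht1 htR hti hi2 hr
  have had : ∀ j, 0 ≤ ad n h i j := by
    intro j
    by_cases hj : i = j
    · subst hj
      rw [FBA_self n h i (hP.1 i) hh0]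
    · exact (hnsf ι n h i j hP hI hiRO hj).2.1
  have key := hfcx ι n h i e f RO (- (bet t / 6 * max (wt (h i)) 0)) (fun _ => 0)
    (G t (kap t) (bet t) (h i)) Finset.univ hP.1 (fun j => by linarith [hP.2.1 j]) hI hO hgc hiRO
    (fun j hj => (hnsf ι n h i j hP hI hiRO hj.symm).1)
    (fun r hr => hv r ((Real.sqrt_nonneg _).trans hr))
    (by
      intro j _
      have hz : ∀ ψ ∈ uIcc (0 : ℝ) (π / 2), max (- (bet t / 6 * max (wt (h i)) 0) -
          ∫ s in (0 : ℝ)..(ad n h i j / cos ψ), G t (kap t) (bet t) (h i) s * s) 0 =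
          (fun _ : ℝ => (0 : ℝ)) ψ := by
        intro ψ hψ
        rw [uIcc_of_le (by positivity)] at hψ
        have hc : 0 ≤ cos ψ := cos_nonneg_of_mem_Icc ⟨by linarith [hψ.1, Real.pi_pos], hψ.2⟩
        have h2 := hv (ad n h i j / cos ψ) (div_nonneg (had j) hc)
        exact max_eq_right (by linarith)
      rw [intervalIntegral.integral_congr hz]
      simp)
    (fun j _ => Finset.mem_univ j)
  have h3 : - (π / 3 * bet t * max (wt (h i)) 0) =
      2 * π * (- (bet t / 6 * max (wt (h i)) 0)) - 2 * ∑ j ∈ (Finset.univ : Finset ι), (0 : ℝ) := by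
    rw [Finset.sum_const_zero]
    ring
  rw [h3]
  exact key

end Pool.Agent.SDL
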