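import Pool.Agent.SDL.Targets2

set_option autoImplicit false

/-!
# SDL: the target T_FBB (low facets with at most five near sides)
-/

open MeasureTheory Set Real
open scoped RealInnerProductSpace

namespace Pool.Agent.SDL

open Pool.Agent.SDC

theorem FBB_rr {h u u' : ℝ} (h0 : 0 < h) (hu : 0 ≤ u) (huu : u ≤ u') : rr h u ≤ rr h u' := by
  unfold rr
  apply Real.sqrt_le_sqrt
  have h1 : u ^ 2 ≤ u' ^ 2 := pow_le_pow_left₀ hu huu 2
  have h2 : u ^ 2 / h ^ 2 ≤ u' ^ 2 / h ^ 2 := div_le_div_of_nonneg_right h1 (by positivity)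
  linarith

theorem FBB_mono {g : ℝ → ℝ} (hg : Continuous g) {ρ r : ℝ} (h0 : 0 ≤ ρ) (hr : ρ ≤ r)
    (hpos : ∀ s, ρ ≤ s → 0 ≤ g s) :
    ∫ s in (0 : ℝ)..ρ, g s * s ≤ ∫ s in (0 : ℝ)..r, g s * s := by
  have hc : Continuous fun s : ℝ => g s * s := hg.mul continuous_id
  have h1 := intervalIntegral.integral_add_adjacent_intervals
    (hc.intervalIntegrable (μ := volume) 0 ρ) (hc.intervalIntegrable (μ := volume) ρ r)
  have h2 : 0 ≤ ∫ s in ρ..r, g s * s := by
    apply intervalIntegral.integral_nonneg hr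
    intro s hs
    exact mul_nonneg (hpos s hs.1) (h0.trans hs.1)
  linarith

theorem p_FBB (hfcx : T_FCX) (hcb : T_CB) (hnsf : T_NSF) : T_FBB := by
  classical
  intro ι _ n h i e f t S S' hP hI hO ht1 htR hlow hS hSS hcard hfar
  have hh1 : 1 ≤ h i := hP.2.1 i
  have hRlo := R_lo'
  have hRRO := R_lt_RO
  have hiR : h i < R := by
    rcases hlow with h1 | h1
    · linarith
    · linarith
  have hiRO : h i < RO := hiR.trans hRRO
  have ht0 : 0 < t := by linarith
  have hh0 : 0 < h i := by linarith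
  obtain ⟨ρ, τ, hρ0, hρR, hGρ, hτ0, hτ, hmain⟩ := hcb t (h i) ht1 htR hh1 hlow
  have hκ : 0 ≤ kap t := (tKAP t ht1 htR).1
  have hβ : 0 ≤ bet t := (tBET t ht1 htR).1
  have hgc : Continuous (G t (kap t) (bet t) (h i)) := tHCL.1 _ _ _ _
  have hGpos : ∀ s, ρ ≤ s → 0 ≤ G t (kap t) (bet t) (h i) s := by
    intro s hs
    exact p_SGN t (kap t) (bet t) (h i) ρ s ht0 hh0 hκ hβ hρ0.le hs hGρ
  have hmono : ∀ r, ρ ≤ r → HH t (h i) ρ ≤ HH t (h i) r := by
    intro r hr
    exact FBB_mono hgc hρ0.le hr hGpos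
  have hρRO : ρ ≤ rr (h i) RO := hρR.trans (FBB_rr hh0 R_pos.le hRRO.le)
  have key := hfcx ι n h i e f RO (HH t (h i) ρ) (fun j => if j ∈ S' then τ else 0)
    (G t (kap t) (bet t) (h i)) S hP.1 (fun j => by linarith [hP.2.1 j]) hI hO hgc hiRO
    (fun j hj => (hnsf ι n h i j hP hI hiRO hj.symm).1)
    (fun r hr => hmono r (hρRO.trans hr))
    (by
      intro j hj
      have hNS : NS n h i RO j := (hS j).2 hj
      have had := (hnsf ι n h i j hP hI hiRO hNS.1).2.2 RO hNS
      by_cases hj' : j ∈ S'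
      · simp only [hj', if_true]
        exact hτ (ad n h i j) had.2.1
      · simp only [hj', if_false]
        have hge : ρ ≤ ad n h i j := hρR.trans (hfar j hj hj')
        apply le_of_eq
        apply intervalIntegral.integral_zero_ae
        have hne : ∀ᵐ ψ : ℝ, ψ ≠ π / 2 := by
          rw [ae_iff]
          simp
        filter_upwards [hne] with ψ hψ hmem
        rw [uIoc_of_le (by positivity)] at hmem
        have hlt : ψ < π / 2 := lt_of_le_of_ne hmem.2 hψ
        have hcos : 0 < cos ψ := cos_pos_of_mem_Ioo ⟨by linarith [hmem.1, Real.pi_pos], hlt⟩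
        have hle : ad n h i j ≤ ad n h i j / cos ψ := by
          rw [le_div_iff₀ hcos]
          nlinarith [cos_le_one ψ, had.2.1]
        have h3 := hmono (ad n h i j / cos ψ) (hge.trans hle)
        apply max_eq_right
        have h4 : HH t (h i) (ad n h i j / cos ψ) =
          ∫ s in (0 : ℝ)..(ad n h i j / cos ψ), G t (kap t) (bet t) (h i) s * s := rfl
        linarith)
    (fun j hj => (hS j).1 hj)
  have hsum : ∑ j ∈ S, (if j ∈ S' then τ else 0) = S'.card * τ := by
    rw [Finset.sum_ite_mem, Finset.inter_eq_right.2 hSS, Finset.sum_const, nsmul_eq_mul]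
  have hle5 : (S'.card : ℝ) * τ ≤ 5 * τ := by
    apply mul_le_mul_of_nonneg_right _ hτ0
    exact_mod_cast hcard
  rw [hsum] at key
  have hwt : π / 3 * bet t * wt (h i) ≤ π / 3 * bet t * max (wt (h i)) 0 := by
    apply mul_le_mul_of_nonneg_left (le_max_left _ _)
    positivity
  linarith

end Pool.Agent.SDL
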