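import Pool.Agent.SDL.Targets2

set_option autoImplicit false

/-!
# SDL: FBC, low facets with at least six near sides
-/

open MeasureTheory Set Real
open scoped RealInnerProductSpace

namespace Pool.Agent.SDL

open Pool.Agent.SDC

/-- The radius of the section. -/
theorem FBC_rr {h u : ℝ} (h0 : 0 < h) (hu : h ≤ u) :
    0 ≤ rr h u ∧ h * cc (rr h u) = u := by
  have hle : 1 ≤ u ^ 2 / h ^ 2 := by
    rw [one_le_div (by positivity)]
    exact pow_le_pow_left₀ h0.le hu 2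
  have hrr2 : rr h u ^ 2 = u ^ 2 / h ^ 2 - 1 := by
    rw [rr, Real.sq_sqrt (by linarith)]
  refine ⟨Real.sqrt_nonneg _, ?_⟩
  rw [cc, hrr2, add_sub_cancel, ← div_pow, Real.sqrt_sq (div_nonneg (by linarith) h0.le)]
  field_simp

/-- The radius of the section is monotone in the radius of the ball. -/
theorem FBC_rr_mono {h u u' : ℝ} (h0 : 0 < h) (hu0 : 0 ≤ u) (hu : u ≤ u') :
    rr h u ≤ rr h u' := by
  rw [rr, rr]
  apply Real.sqrt_le_sqrt
  apply sub_le_sub_right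
  apply div_le_div_of_nonneg_right _ (by positivity)
  exact pow_le_pow_left₀ hu0 hu 2

/-- The step is nonnegative. -/
theorem FBC_Dl {t : ℝ} (ht1 : 1 ≤ t) (htR : t < R) : 0 ≤ Dl t := by
  obtain ⟨hb0, hG⟩ := tBET t ht1 htR
  have ht0 : 0 < t := by linarith
  have hR0 := R_pos
  have hRO := RO_pos
  have hlt := R_lt_RO
  have e1 : Bf t R = R ^ 2 / 2 + t ^ 3 / R - 3 / 2 * t ^ 2 := p_BF.2.2 t R ht0 htR.le
  have e2 : Bf t RO = RO ^ 2 / 2 + t ^ 3 / RO - 3 / 2 * t ^ 2 :=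
    p_BF.2.2 t RO ht0 (htR.le.trans hlt.le)
  have h3 : t ^ 3 + bet t ≤ (1 - kap t) * R ^ 3 := by
    rw [G, cc_rv] at hG
    have h4 : t ^ 3 / R ^ 3 ≤ 1 := by
      rw [div_le_one (by positivity)]
      exact pow_le_pow_left₀ ht0.le htR.le 3
    rw [max_eq_left (by linarith)] at hG
    have h5 : (t ^ 3 + bet t) / R ^ 3 ≤ 1 - kap t := by
      rw [add_div]
      linarith
    rwa [div_le_iff₀ (by positivity)] at h5
  have hk : 0 ≤ 1 - kap t := by
    have h4 : 0 ≤ (1 - kap t) * R ^ 3 := le_trans (by positivity) h3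
    exact nonneg_of_mul_nonneg_left h4 (by positivity)
  have e3 : Dl t = (RO - R) * ((1 - kap t) * (RO + R) / 2 - (t ^ 3 + bet t) / (R * RO)) := by
    rw [Dl, bb, bb, e1, e2]
    field_simp
    ring
  rw [e3]
  apply mul_nonneg (by linarith)
  have h6 : (t ^ 3 + bet t) / (R * RO) ≤ (1 - kap t) * R := by
    rw [div_le_iff₀ (by positivity)]
    refine h3.trans ?_
    have h7 : R ^ 2 * R ≤ R ^ 2 * RO := mul_le_mul_of_nonneg_left hlt.le (by positivity)
    calc (1 - kap t) * R ^ 3 = (1 - kap t) * (R ^ 2 * R) := by ring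
      _ ≤ (1 - kap t) * (R ^ 2 * RO) := mul_le_mul_of_nonneg_left h7 hk
      _ = _ := by ring
  have h8 : (1 - kap t) * R ≤ (1 - kap t) * (RO + R) / 2 := by
    have := mul_nonneg hk (by linarith : 0 ≤ RO - R)
    linarith
  linarith

/-- `HH` is monotone beyond a radius where the density is nonnegative. -/
theorem FBC_HH {t h ρ r r' : ℝ} (ht1 : 1 ≤ t) (htR : t < R) (h0 : 0 < h) (hρ : 0 < ρ)
    (hG : 0 ≤ G t (kap t) (bet t) h ρ) (hr : ρ ≤ r) (hrr : r ≤ r') :
    HH t h r ≤ HH t h r' := by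
  obtain ⟨hk0, -⟩ := tKAP t ht1 htR
  obtain ⟨hb0, -⟩ := tBET t ht1 htR
  have hc : Continuous fun s => G t (kap t) (bet t) h s * s :=
    (tHCL.1 t (kap t) (bet t) h).mul continuous_id
  have h1 := intervalIntegral.integral_add_adjacent_intervals
    (hc.intervalIntegrable (μ := volume) 0 r) (hc.intervalIntegrable (μ := volume) r r')
  have h2 : 0 ≤ ∫ s in r..r', G t (kap t) (bet t) h s * s := by
    apply intervalIntegral.integral_nonneg hrr
    intro s hs
    have hs0 : ρ ≤ s := hr.trans hs.1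
    exact mul_nonneg (p_SGN t (kap t) (bet t) h ρ s (by linarith) h0 hk0 hb0 hρ.le hs0 hG)
      (hρ.le.trans hs0)
  rw [HH, HH, H, H]
  linarith

/-- FBC. -/
theorem p_FBC (hfcx : T_FCX) (hcb : T_CB) (hhb : T_HB) (hsix : T_SIX) (htaj : T_TAJ)
    (hc1 : T_C1) (hc2 : T_C2) (hnsf : T_NSF) : T_FBC := by
  intro ι _ n h i e f t S S' hP hI hO ht1 htR hlow hS hSS' hcard had
  have hh1 : 1 ≤ h i := hP.2.1 i
  have hh0 : 0 < h i := by linarith
  have hR1 := R_lo
  have hhR : h i < R := by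
    rcases hlow with h1 | h1
    · exact h1.trans htR
    · linarith
  have hhRO : h i < RO := hhR.trans R_lt_RO
  have ht0 : 0 < t := by linarith
  have hb0 := (tBET t ht1 htR).1
  have hD0 := FBC_Dl ht1 htR
  -- the facts about the sides
  have hNS : ∀ j ∈ S, i ≠ j ∧ ⟪n i, n j⟫ ^ 2 < 1 ∧ 0 < ad n h i j ∧
      ad n h i j < rr (h i) RO := by
    intro j hj
    have h1 := (hS j).mpr hj
    exact ⟨h1.1, (hnsf ι n h i j hP hI hhRO h1.1).2.2 RO h1⟩
  obtain ⟨-, -, hsum1, hsum2⟩ := hsix ι n h i S S' hP hhR (fun hi => (hNS i hi).1 rfl)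
    (fun j hj => ⟨(hNS j hj).2.1, (hNS j hj).2.2.2⟩) hSS' hcard had
  obtain ⟨gM, hg0, hg1, hg2, hg3⟩ := hc1 t ht1 htR
  obtain ⟨ρ', τ', hρ0, hρR, hGρ, -, -, -⟩ := hcb t (h i) ht1 htR hh1 hlow
  have hfin := hc2 t (h i) gM ht1 htR hh1 hhR.le
    (hlow.imp (fun h1 => h1.le) (fun h1 => h1.le)) hg0 hg1 hg3
  -- the facet
  have hmain := hfcx ι n h i e f RO (HH t (h i) (rr (h i) RO))
    (fun j => h i * (gM * arccos (ad n h i j / rr (h i) R) +
      Dl t * arccos (ad n h i j / rr (h i) RO)))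
    (G t (kap t) (bet t) (h i)) S hP.1 (fun k => by linarith [hP.2.1 k]) hI hO
    (tHCL.1 t (kap t) (bet t) (h i)) hhRO
    (fun j hj => (hnsf ι n h i j hP hI hhRO (Ne.symm hj)).1)
    (fun r hr => FBC_HH ht1 htR hh0 hρ0 hGρ
      (hρR.trans (FBC_rr_mono hh0 (by linarith) R_lt_RO.le)) hr)
    (fun j hj => htaj t (h i) gM (ad n h i j) ht1 htR hh1 hhR.le hg0 hg2 (hNS j hj).2.2.1)
    (fun j hj => (hS j).mp hj)
  refine le_trans ?_ hmain
  -- the two values of HH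
  have hv : HH t (h i) (rr (h i) RO) = HH t (h i) (rr (h i) R) + h i * Dl t := by
    rw [hhb t (h i) (rr (h i) RO) ht0 hh0 (FBC_rr hh0 hhRO.le).1,
      hhb t (h i) (rr (h i) R) ht0 hh0 (FBC_rr hh0 hhR.le).1, (FBC_rr hh0 hhRO.le).2,
      (FBC_rr hh0 hhR.le).2, Dl]
    ring
  have hs : ∑ j ∈ S, h i * (gM * arccos (ad n h i j / rr (h i) R) +
      Dl t * arccos (ad n h i j / rr (h i) RO)) ≤ h i * (2.34 * gM + 2.79 * Dl t) := by
    rw [← Finset.mul_sum, Finset.sum_add_distrib, ← Finset.mul_sum, ← Finset.mul_sum]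
    apply mul_le_mul_of_nonneg_left _ hh0.le
    have h1 := mul_le_mul_of_nonneg_left hsum1 hg0
    have h2 := mul_le_mul_of_nonneg_left hsum2 hD0
    linarith
  have hm : π / 3 * bet t * wt (h i) ≤ π / 3 * bet t * max (wt (h i)) 0 :=
    mul_le_mul_of_nonneg_left (le_max_left _ _) (by positivity)
  rw [hv]
  linarith

end Pool.Agent.SDL
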