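import Pool.Agent.SDL.Targets2
import Pool.Agent.SDC.P_FCT
import Pool.Agent.SDC.P_FRM

set_option autoImplicit false

/-!
# SDL, target FCX: one facet in space
-/

open MeasureTheory Set Real
open scoped RealInnerProductSpace

namespace Pool.Agent.SDL

open Pool.Agent.SDC

/-- The norm of a point of the plane of the facet. -/
theorem FCX_norm {n0 e f : E3} (ho : Onb n0 e f) {c : ℝ} (hc : 0 < c) (w : ℝ × ℝ) :
    ‖c • (n0 + w.1 • e + w.2 • f)‖ = c * cc (nr w) := by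
  have hnn : ⟪n0, n0⟫ = 1 := by
    rw [real_inner_self_eq_norm_sq, ho.nn]
    norm_num
  have hee : ⟪e, e⟫ = 1 := by
    rw [real_inner_self_eq_norm_sq, ho.ee]
    norm_num
  have hff : ⟪f, f⟫ = 1 := by
    rw [real_inner_self_eq_norm_sq, ho.ff]
    norm_num
  have hen : ⟪e, n0⟫ = 0 := by rw [real_inner_comm]; exact ho.ne
  have hfn : ⟪f, n0⟫ = 0 := by rw [real_inner_comm]; exact ho.nf
  have hfe : ⟪f, e⟫ = 0 := by rw [real_inner_comm]; exact ho.ef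
  have hs := ((p_CRD n0 e f ho).2 (c • (n0 + w.1 • e + w.2 • f))).1
  rw [FCT_inner, FCT_inner, FCT_inner, hnn, ho.ne, ho.nf, hen, hee, ho.ef, hfn, hfe, hff] at hs
  rw [FRM_cc, ← Real.sqrt_sq (norm_nonneg (c • (n0 + w.1 • e + w.2 • f))), hs,
    show (c * (1 + w.1 * 0 + w.2 * 0)) ^ 2 + (c * (0 + w.1 * 1 + w.2 * 0)) ^ 2 +
      (c * (0 + w.1 * 0 + w.2 * 1)) ^ 2 = c ^ 2 * (1 + w.1 ^ 2 + w.2 ^ 2) by ring,
    Real.sqrt_mul (by positivity), Real.sqrt_sq hc.le]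

/-- The section of the ball. -/
theorem FCX_rr {h ϱ r : ℝ} (hh : 0 < h) (hϱ : h < ϱ) (hr : 0 ≤ r) :
    h * cc r < ϱ ↔ r < rr h ϱ := by
  have h1 : (1 : ℝ) < ϱ ^ 2 / h ^ 2 := by
    rw [one_lt_div (by positivity)]
    nlinarith
  have hd : ϱ ^ 2 / h ^ 2 * h ^ 2 = ϱ ^ 2 := div_mul_cancel₀ _ (by positivity)
  have hc0 : 0 ≤ cc r := Real.sqrt_nonneg _
  have hcs : cc r ^ 2 = 1 + r ^ 2 := Real.sq_sqrt (by positivity)
  have hq : h * cc r < ϱ ↔ (h * cc r) ^ 2 < ϱ ^ 2 :=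
    (pow_lt_pow_iff_left₀ (by positivity) (by linarith) two_ne_zero).symm
  rw [rr, Real.lt_sqrt hr, hq, mul_pow, hcs]
  constructor
  · intro h2
    by_contra h3
    rw [not_lt] at h3
    have h4 : (ϱ ^ 2 / h ^ 2 - 1) * h ^ 2 ≤ r ^ 2 * h ^ 2 :=
      mul_le_mul_of_nonneg_right h3 (by positivity)
    nlinarith
  · intro h2
    have h4 : r ^ 2 * h ^ 2 < (ϱ ^ 2 / h ^ 2 - 1) * h ^ 2 :=
      mul_lt_mul_of_pos_right h2 (by positivity)
    nlinarith

theorem p_FCX (hfax : T_FAX) : T_FCX := by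
  classical
  intro ι _ n h i e f ϱ v τ g S hn hh hI hO hg hhϱ hft hv hτ hNS
  have hii : ⟪n i, n i⟫ = 1 := by
    rw [real_inner_self_eq_norm_sq, hn i]
    norm_num
  have hhi := hh i
  -- the value of the constraint
  have hVi : ∀ x y : ℝ, h i * (⟪n i, n i⟫ + x * ⟪n i, e⟫ + y * ⟪n i, f⟫) = h i := by
    intro x y
    rw [hii, hO.ne, hO.nf]
    ring
  have hVo : ∀ k, n k = - n i → ∀ x y : ℝ,
      h i * (⟪n k, n i⟫ + x * ⟪n k, e⟫ + y * ⟪n k, f⟫) < h k := by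
    intro k hk x y
    rw [hk, inner_neg_left, inner_neg_left, inner_neg_left, hii, hO.ne, hO.nf]
    linarith [hh k]
  let J : Type := {j : ι // j ≠ i ∧ n j ≠ - n i}
  have hpol : ∀ j : J, ∃ L θ : ℝ, 0 < L ∧ ⟪n j.1, e⟫ = L * cos θ ∧ ⟪n j.1, f⟫ = L * sin θ := by
    intro j
    refine FCT_polar _ _ ?_
    rintro ⟨h1, h2⟩
    rcases FCT_pm hO (hn j.1) h1 h2 with h3 | h3
    · exact FCT_inj hI j.2.1 h3
    · exact j.2.2 h3
  choose L θ hL hc hsn using hpol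
  have hLs : ∀ j : J, √(1 - ⟪n i, n j.1⟫ ^ 2) = L j := by
    intro j
    have hs := ((p_CRD (n i) e f hO).2 (n j.1)).1
    rw [hn j.1, real_inner_comm (n j.1) e, real_inner_comm (n j.1) f, hc j, hsn j] at hs
    have h1 : 1 - ⟪n i, n j.1⟫ ^ 2 = L j ^ 2 := by
      linear_combination hs + L j ^ 2 * Real.sin_sq_add_cos_sq (θ j)
    rw [h1, Real.sqrt_sq (hL j).le]
  let a : J → ℝ := fun j => ad n h i j.1
  have ha : ∀ j : J, a j = (h j.1 / h i - ⟪n j.1, n i⟫) / L j := by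
    intro j
    show (h j.1 / h i - ⟪n i, n j.1⟫) / √(1 - ⟪n i, n j.1⟫ ^ 2) = _
    rw [hLs j, real_inner_comm (n j.1) (n i)]
  have hapos : ∀ j : J, 0 < a j := by
    intro j
    rw [ha j]
    refine div_pos ?_ (hL j)
    have h1 := hft j.1 j.2.1
    rw [real_inner_comm] at h1
    rw [sub_pos, lt_div_iff₀ hhi, mul_comm]
    exact h1
  have hkey : ∀ (j : J) (w : ℝ × ℝ),
      h j.1 - h i * (⟪n j.1, n i⟫ + w.1 * ⟪n j.1, e⟫ + w.2 * ⟪n j.1, f⟫) =
        (h i * L j) * (a j - (w.1 * cos (θ j) + w.2 * sin (θ j))) := by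
    intro j w
    have h1 : L j ≠ 0 := (hL j).ne'
    have h2 : h i ≠ 0 := hhi.ne'
    rw [hc j, hsn j, ha j]
    field_simp
    ring
  have hpos : ∀ j : J, 0 < h i * L j := fun j => mul_pos hhi (hL j)
  have hle : ∀ (j : J) (w : ℝ × ℝ), (w.1 * cos (θ j) + w.2 * sin (θ j) ≤ a j ↔
      h i * (⟪n j.1, n i⟫ + w.1 * ⟪n j.1, e⟫ + w.2 * ⟪n j.1, f⟫) ≤ h j.1) := by
    intro j w
    rw [← sub_nonneg, ← sub_nonneg (b := h i * _), hkey j w]
    exact (mul_nonneg_iff_of_pos_left (hpos j)).symm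
  have hlt : ∀ (j : J) (w : ℝ × ℝ), (w.1 * cos (θ j) + w.2 * sin (θ j) < a j ↔
      h i * (⟪n j.1, n i⟫ + w.1 * ⟪n j.1, e⟫ + w.2 * ⟪n j.1, f⟫) < h j.1) := by
    intro j w
    rw [← sub_pos, ← sub_pos (b := h i * _), hkey j w]
    exact (mul_pos_iff_of_pos_left (hpos j)).symm
  have heq : ∀ (j : J) (w : ℝ × ℝ), (w.1 * cos (θ j) + w.2 * sin (θ j) = a j ↔
      h i * (⟪n j.1, n i⟫ + w.1 * ⟪n j.1, e⟫ + w.2 * ⟪n j.1, f⟫) = h j.1) := by
    intro j w
    rw [eq_comm, ← sub_eq_zero, eq_comm (b := h j.1), ← sub_eq_zero (b := h i * _), hkey j w,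
      mul_eq_zero]
    constructor
    · intro h1
      exact Or.inr h1
    · intro h1
      rcases h1 with h1 | h1
      · exact absurd h1 (hpos j).ne'
      · exact h1
  have hnr : ∀ w : ℝ × ℝ, (h i * cc (nr w) < ϱ ↔ nr w < rr (h i) ϱ) :=
    fun w => FCX_rr hhi hhϱ (Real.sqrt_nonneg _)
  -- the region
  have hset : {w : ℝ × ℝ | w ∈ Qs n h i e f ∧ h i * cc (nr w) < ϱ} =
      {w : ℝ × ℝ | (∀ l : J, w.1 * cos (θ l) + w.2 * sin (θ l) ≤ a l) ∧
        nr w < rr (h i) ϱ} := by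
    ext w
    simp only [mem_ofPred_eq, Qs, hnr w]
    refine and_congr_left fun _ => ⟨?_, ?_⟩
    · intro h1 l
      exact (hle l w).2 (h1 l.1)
    · intro h1 j
      by_cases hji : j = i
      · rw [hji, hVi]
      · by_cases hjo : n j = - n i
        · exact (hVo j hjo _ _).le
        · exact (hle ⟨j, hji, hjo⟩ w).1 (h1 ⟨j, hji, hjo⟩)
  -- two constraints meet in at most one point
  have huniq : ∀ j k : J, j ≠ k → ∀ w w' : ℝ × ℝ,
      (∀ l, w.1 * cos (θ l) + w.2 * sin (θ l) ≤ a l) →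
      (∀ l, w'.1 * cos (θ l) + w'.2 * sin (θ l) ≤ a l) →
      w.1 * cos (θ j) + w.2 * sin (θ j) = a j → w.1 * cos (θ k) + w.2 * sin (θ k) = a k →
      w'.1 * cos (θ j) + w'.2 * sin (θ j) = a j →
      w'.1 * cos (θ k) + w'.2 * sin (θ k) = a k → w = w' := by
    intro j k hjk w w' _ _ e1 e2 e3 e4
    rw [heq] at e1 e2 e3 e4
    have hjk' : j.1 ≠ k.1 := fun h1 => hjk (Subtype.ext h1)
    have hdir : ∀ l : J, h i * (⟪n l.1, n i⟫ + w.1 * ⟪n l.1, e⟫ + w.2 * ⟪n l.1, f⟫) = h l.1 →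
        h i * (⟪n l.1, n i⟫ + w'.1 * ⟪n l.1, e⟫ + w'.2 * ⟪n l.1, f⟫) = h l.1 →
        ⟪n l.1, (w.1 - w'.1) • e + (w.2 - w'.2) • f⟫ = 0 := by
      intro l h1 h2
      rw [FCT_inner']
      have h3 : h i * ((w.1 - w'.1) * ⟪n l.1, e⟫ + (w.2 - w'.2) * ⟪n l.1, f⟫) = 0 := by
        linear_combination h1 - h2
      rcases mul_eq_zero.1 h3 with h4 | h4
      · exact absurd h4 hhi.ne'
      · exact h4
    have hu := p_THR p_L3 ι n h hI i j.1 k.1 (Ne.symm j.2.1) (Ne.symm k.2.1) hjk'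
      (h i • (n i + w.1 • e + w.2 • f)) ((w.1 - w'.1) • e + (w.2 - w'.2) • f)
      (by rw [FCT_inner, hVi]) (by rw [FCT_inner, e1]) (by rw [FCT_inner, e2])
      (by rw [FCT_inner', hO.ne, hO.nf]; ring) (hdir j e1 e3) (hdir k e2 e4)
    have hee : ⟪e, e⟫ = 1 := by
      rw [real_inner_self_eq_norm_sq, hO.ee]
      norm_num
    have hff : ⟪f, f⟫ = 1 := by
      rw [real_inner_self_eq_norm_sq, hO.ff]
      norm_num
    have hfe : ⟪f, e⟫ = 0 := by
      rw [real_inner_comm]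
      exact hO.ef
    have h5 : ⟪e, (w.1 - w'.1) • e + (w.2 - w'.2) • f⟫ = 0 := by
      rw [hu, inner_zero_right]
    have h6 : ⟪f, (w.1 - w'.1) • e + (w.2 - w'.2) • f⟫ = 0 := by
      rw [hu, inner_zero_right]
    rw [FCT_inner', hee, hO.ef] at h5
    rw [FCT_inner', hfe, hff] at h6
    refine Prod.ext ?_ ?_
    · linarith
    · linarith
  -- the radius
  have hρ : 0 < rr (h i) ϱ := by
    refine Real.sqrt_pos.2 ?_
    rw [sub_pos, one_lt_div (by positivity)]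
    nlinarith
  have hmain := hfax J θ a (rr (h i) ϱ) v (fun j => τ j.1) g
    (S.subtype fun j => j ≠ i ∧ n j ≠ - n i) hg hρ hapos hv
    (by
      intro j hj
      exact hτ j.1 (Finset.mem_subtype.1 hj))
    (by
      rintro j ⟨w, hwρ, hw, hwk⟩
      refine Finset.mem_subtype.2 (hNS j.1 ⟨Ne.symm j.2.1, h i • (n i + w.1 • e + w.2 • f), ?_,
        ?_, ?_, ?_⟩)
      · rw [FCX_norm hO hhi]
        exact (hnr w).2 hwρ
      · rw [FCT_inner, hVi]
      · rw [FCT_inner]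
        exact (heq j w).1 hw
      · intro k hki hkj
        rw [FCT_inner]
        by_cases hko : n k = - n i
        · exact hVo k hko _ _
        · refine (hlt ⟨k, hki, hko⟩ w).1 (hwk ⟨k, hki, hko⟩ ?_)
          intro h1
          exact hkj (congrArg Subtype.val h1))
    huniq
  have hτ0 : ∀ j ∈ S, 0 ≤ τ j := by
    intro j hj
    refine le_trans ?_ (hτ j hj)
    exact intervalIntegral.integral_nonneg (by positivity) fun ψ _ => le_max_right _ _
  have hsum : ∑ j ∈ S.subtype (fun j => j ≠ i ∧ n j ≠ - n i), τ j.1 ≤ ∑ j ∈ S, τ j := by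
    rw [Finset.sum_subtype_eq_sum_filter (f := τ)]
    refine Finset.sum_le_sum_of_subset_of_nonneg (Finset.filter_subset _ _) ?_
    intro j hj _
    exact hτ0 j hj
  rw [hset]
  linarith

end Pool.Agent.SDL
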