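import Pool.Agent.SDL.Targets2

set_option autoImplicit false

/-!
# SDL, target GAP: two neighbours of a facet
-/

open MeasureTheory Set Real
open scoped RealInnerProductSpace

namespace Pool.Agent.SDL

open Pool.Agent.SDC

/-- The letters of one neighbour: `s² = 4 p² (1 - α²)`, `0 < s`. -/
private theorem GAP_s {p α : ℝ} (hp : 1 ≤ p) (hα : α ^ 2 < 1) :
    0 < 2 * p * √(1 - α ^ 2) ∧ (2 * p * √(1 - α ^ 2)) ^ 2 = 4 * p ^ 2 * (1 - α ^ 2) := by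
  have h1 : 0 < √(1 - α ^ 2) := Real.sqrt_pos.mpr (by linarith)
  refine ⟨by positivity, ?_⟩
  rw [mul_pow, Real.sq_sqrt (by linarith)]
  ring

/-- `Dq s² = h² s² + P²`. -/
private theorem GAP_Dq {h p α : ℝ} (hα : α ^ 2 < 1) :
    Dq h p α * (4 * p ^ 2 * (1 - α ^ 2)) =
      h ^ 2 * (4 * p ^ 2 * (1 - α ^ 2)) + (2 * p ^ 2 - 2 * h * p * α) ^ 2 := by
  have h1 : 1 - α ^ 2 ≠ 0 := by
    intro h2
    linarith
  have h3 : Dq h p α * (1 - α ^ 2) = h ^ 2 + p ^ 2 - 2 * h * p * α := by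
    unfold Dq
    exact div_mul_cancel₀ _ h1
  have h4 : Dq h p α * (4 * p ^ 2 * (1 - α ^ 2)) = 4 * p ^ 2 * (Dq h p α * (1 - α ^ 2)) := by
    ring
  rw [h4, h3]
  ring

/-- `|X| ≤ a`. -/
private theorem GAP_X {h p α : ℝ} (hp : 1 ≤ p) (H : 1 ≤ h ^ 2 + p ^ 2 - 2 * h * p * α) :
    |2 * h * p * α - h ^ 2| ≤ 2 * p ^ 2 - 2 * h * p * α - 2 + h ^ 2 := by
  rw [abs_le]
  constructor
  · nlinarith
  · linarith

/-- `((a + h²)/h)² ≤ (Dq - 1) s²`. -/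
private theorem GAP_side {h p α : ℝ} (hh : 1 ≤ h) (hp : 1 ≤ p) (hα : α ^ 2 < 1)
    (H : 1 ≤ h ^ 2 + p ^ 2 - 2 * h * p * α) :
    ((2 * p ^ 2 - 2 * h * p * α - 2 + 2 * h ^ 2) / h) ^ 2 ≤
      (Dq h p α - 1) * (4 * p ^ 2 * (1 - α ^ 2)) := by
  have h0 : 0 < h := by linarith
  have hX := GAP_X hp H
  have hX2 : (2 * h * p * α - h ^ 2) ^ 2 ≤ (2 * p ^ 2 - 2 * h * p * α - 2 + h ^ 2) ^ 2 :=
    sq_le_sq' (by linarith [(abs_le.mp hX).1]) (abs_le.mp hX).2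
  rw [sub_mul, GAP_Dq hα, div_pow, div_le_iff₀ (by positivity)]
  have h3 : 0 ≤ (h ^ 2 - 1) * ((2 * p ^ 2 - 2 * h * p * α - 2 + h ^ 2) ^ 2 -
      (2 * h * p * α - h ^ 2) ^ 2) := by
    apply mul_nonneg
    · nlinarith
    · linarith
  nlinarith [h3]

/-- `s ≤ 2.0225` if `Dq < R²`. -/
private theorem GAP_sle {h p α : ℝ} (hh : 1 ≤ h) (hR : h < RO) (hp : 1 ≤ p) (hα : α ^ 2 < 1)
    (H : 1 ≤ h ^ 2 + p ^ 2 - 2 * h * p * α) (hD : Dq h p α < R ^ 2) :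
    2 * p * √(1 - α ^ 2) ≤ 2.0225 := by
  obtain ⟨hs0, hs2⟩ := GAP_s hp hα
  have hDq := GAP_Dq (h := h) (p := p) hα
  rw [← hs2] at hDq
  generalize 2 * p * √(1 - α ^ 2) = s at *
  have h0 : 0 < h := by linarith
  have hh2 : h ^ 2 < 13 / 8 := by
    rw [← RO_sq]
    nlinarith
  have hX := GAP_X hp H
  have hP : 0 < 2 * p ^ 2 - 2 * h * p * α := by
    have := abs_nonneg (2 * h * p * α - h ^ 2)
    linarith
  obtain ⟨A, hA⟩ : ∃ A, A = (2 * p ^ 2 - 2 * h * p * α) / s := ⟨_, rfl⟩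
  have hA0 : 0 < A := by
    rw [hA]
    positivity
  have hAs : A * s = 2 * p ^ 2 - 2 * h * p * α := by
    rw [hA]
    exact div_mul_cancel₀ _ hs0.ne'
  have hs20 : s ^ 2 ≠ 0 := by positivity
  have hDA : Dq h p α = h ^ 2 + A ^ 2 := by
    apply mul_right_cancel₀ hs20
    rw [hDq, ← hAs]
    ring
  have hsA : (s - A) ^ 2 ≤ Dq h p α := by
    have e1 : (s - A) ^ 2 + (2 * p * α - h) ^ 2 = h ^ 2 + A ^ 2 := by
      have e2 : (s - A) ^ 2 = s ^ 2 - 2 * (A * s) + A ^ 2 := by ring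
      rw [e2, hAs, hs2]
      ring
    rw [hDA, ← e1]
    linarith [sq_nonneg (2 * p * α - h)]
  have h5 : A < rv := by
    have h6 : A ^ 2 < rv ^ 2 := by
      have := R_sq'
      nlinarith
    exact lt_of_pow_lt_pow_left₀ 2 rv_pos.le h6
  have h7 : s - A < R := by
    apply lt_of_pow_lt_pow_left₀ 2 R_pos.le
    linarith
  have := rv_hi
  have := R_hi'
  linarith

/-- The main inequality. -/
private theorem GAP_main {h p q α β δ : ℝ} (hh : 1 ≤ h) (hp : 1 ≤ p) (hq : 1 ≤ q)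
    (hα : α ^ 2 < 1) (hβ : β ^ 2 < 1) (H1 : 1 ≤ h ^ 2 + p ^ 2 - 2 * h * p * α)
    (H2 : 1 ≤ h ^ 2 + q ^ 2 - 2 * h * q * β) (H3 : 1 ≤ p ^ 2 + q ^ 2 - 2 * p * q * δ) :
    4 * p * q * (δ - α * β) ≤ ((Dq h p α + Dq h q β) / 2 - 1) *
      ((2 * p * √(1 - α ^ 2)) * (2 * q * √(1 - β ^ 2))) - 2 * (h ^ 2 - 1) := by
  have h0 : 0 < h := by linarith
  obtain ⟨hs0, hs2⟩ := GAP_s hp hα
  obtain ⟨ht0, ht2⟩ := GAP_s hq hβ
  have hu := GAP_side hh hp hα H1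
  have hv := GAP_side hh hq hβ H2
  rw [← hs2] at hu
  rw [← ht2] at hv
  have hX := GAP_X hp H1
  have hY := GAP_X hq H2
  have hXY : -((2 * h * p * α - h ^ 2) * (2 * h * q * β - h ^ 2)) ≤
      (2 * p ^ 2 - 2 * h * p * α - 2 + h ^ 2) * (2 * q ^ 2 - 2 * h * q * β - 2 + h ^ 2) := by
    have h1 := mul_le_mul hX hY (abs_nonneg _) ((abs_nonneg _).trans hX)
    rw [← abs_mul] at h1
    exact (neg_le_abs _).trans h1
  have hu0 : 0 ≤ (2 * p ^ 2 - 2 * h * p * α - 2 + 2 * h ^ 2) / h := by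
    apply div_nonneg _ h0.le
    have := (abs_nonneg _).trans hX
    nlinarith
  have hv0 : 0 ≤ (2 * q ^ 2 - 2 * h * q * β - 2 + 2 * h ^ 2) / h := by
    apply div_nonneg _ h0.le
    have := (abs_nonneg _).trans hY
    nlinarith
  have huv : (2 * p ^ 2 - 2 * h * p * α - 2 + 2 * h ^ 2) / h *
      ((2 * q ^ 2 - 2 * h * q * β - 2 + 2 * h ^ 2) / h) =
      ((2 * p ^ 2 - 2 * h * p * α - 2 + h ^ 2) * (2 * q ^ 2 - 2 * h * q * β - 2 + h ^ 2)) / h ^ 2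
        + (2 * p ^ 2 - 2 * h * p * α - 2 + h ^ 2) + (2 * q ^ 2 - 2 * h * q * β - 2 + h ^ 2)
        + h ^ 2 := by
    field_simp
    ring
  have hlow : 4 * p * q * (δ - α * β) ≤ (2 * p ^ 2 - 2 * h * p * α - 2 + 2 * h ^ 2) / h *
      ((2 * q ^ 2 - 2 * h * q * β - 2 + 2 * h ^ 2) / h) - 2 * (h ^ 2 - 1) := by
    rw [huv]
    have h1 : -((2 * h * p * α - h ^ 2) * (2 * h * q * β - h ^ 2)) / h ^ 2 ≤
        ((2 * p ^ 2 - 2 * h * p * α - 2 + h ^ 2) *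
          (2 * q ^ 2 - 2 * h * q * β - 2 + h ^ 2)) / h ^ 2 :=
      div_le_div_of_nonneg_right hXY (by positivity)
    have h2 : -((2 * h * p * α - h ^ 2) * (2 * h * q * β - h ^ 2)) / h ^ 2 =
        -(4 * p * q * (α * β)) + 2 * h * p * α + 2 * h * q * β - h ^ 2 := by
      field_simp
      ring
    rw [h2] at h1
    linarith
  refine hlow.trans ?_
  generalize 2 * p * √(1 - α ^ 2) = s at *
  generalize 2 * q * √(1 - β ^ 2) = t at *
  generalize (2 * p ^ 2 - 2 * h * p * α - 2 + 2 * h ^ 2) / h = u at *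
  generalize (2 * q ^ 2 - 2 * h * q * β - 2 + 2 * h ^ 2) / h = v at *
  generalize Dq h p α = D at *
  generalize Dq h q β = D' at *
  have hD : 0 ≤ D - 1 := by
    by_contra h1
    push Not at h1
    have : (D - 1) * s ^ 2 < 0 := mul_neg_of_neg_of_pos h1 (by positivity)
    nlinarith [sq_nonneg u]
  have hD' : 0 ≤ D' - 1 := by
    by_contra h1
    push Not at h1
    have : (D' - 1) * t ^ 2 < 0 := mul_neg_of_neg_of_pos h1 (by positivity)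
    nlinarith [sq_nonneg v]
  have h2 : (u * v) ^ 2 ≤ (((D + D') / 2 - 1) * (s * t)) ^ 2 := by
    have h3 := mul_le_mul hu hv (sq_nonneg v) (by positivity)
    have h4 : (D - 1) * (D' - 1) ≤ ((D + D') / 2 - 1) ^ 2 := by
      nlinarith [sq_nonneg (D - D')]
    have h5 := mul_le_mul_of_nonneg_right h4 (sq_nonneg (s * t))
    calc (u * v) ^ 2 = u ^ 2 * v ^ 2 := by ring
      _ ≤ (D - 1) * s ^ 2 * ((D' - 1) * t ^ 2) := h3
      _ = (D - 1) * (D' - 1) * (s * t) ^ 2 := by ring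
      _ ≤ ((D + D') / 2 - 1) ^ 2 * (s * t) ^ 2 := h5
      _ = (((D + D') / 2 - 1) * (s * t)) ^ 2 := by ring
  have h6 : 0 ≤ ((D + D') / 2 - 1) * (s * t) := by
    apply mul_nonneg
    · linarith
    · positivity
  have h7 : u * v ≤ ((D + D') / 2 - 1) * (s * t) := le_of_sq_le_sq h2 h6
  linarith

/-- GAP: two neighbours of a facet. -/
theorem p_GAP : T_GAP := by
  intro h p q α β δ hh hR hp hq hα hβ H1 H2 H3
  have hm := GAP_main hh hp hq hα hβ H1 H2 H3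
  have hpq : 0 < 4 * p * q := by positivity
  have e1 : (2 * p * √(1 - α ^ 2)) * (2 * q * √(1 - β ^ 2)) =
      4 * p * q * (√(1 - α ^ 2) * √(1 - β ^ 2)) := by ring
  have hh2 : 0 ≤ h ^ 2 - 1 := by nlinarith
  constructor
  · apply le_of_mul_le_mul_left _ hpq
    rw [e1] at hm
    calc 4 * p * q * (δ - α * β) ≤ ((Dq h p α + Dq h q β) / 2 - 1) *
          (4 * p * q * (√(1 - α ^ 2) * √(1 - β ^ 2))) - 2 * (h ^ 2 - 1) := hm
      _ ≤ ((Dq h p α + Dq h q β) / 2 - 1) *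
          (4 * p * q * (√(1 - α ^ 2) * √(1 - β ^ 2))) := by linarith
      _ = _ := by ring
  · intro hD hD'
    have h1 := GAP_sle hh hR hp hα H1 hD
    have h2 := GAP_sle hh hR hq hβ H2 hD'
    have h3 := (GAP_s hp hα).1
    have h4 := (GAP_s hq hβ).1
    have h5 : (2 * p * √(1 - α ^ 2)) * (2 * q * √(1 - β ^ 2)) ≤ 2.0225 * 2.0225 :=
      mul_le_mul h1 h2 h4.le (by norm_num)
    have h6 := mul_le_mul_of_nonneg_left h5 hh2
    apply le_of_mul_le_mul_left _ hpq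
    have e2 : 4 * p * q * (√(1 - α ^ 2) * √(1 - β ^ 2) *
        ((Dq h p α + Dq h q β) / 2 - 1 - 0.48 * (h ^ 2 - 1))) =
        ((Dq h p α + Dq h q β) / 2 - 1) *
          ((2 * p * √(1 - α ^ 2)) * (2 * q * √(1 - β ^ 2))) -
        0.48 * ((h ^ 2 - 1) * ((2 * p * √(1 - α ^ 2)) * (2 * q * √(1 - β ^ 2)))) := by
      ring
    rw [e2]
    refine hm.trans ?_
    have h7 : 0.48 * ((h ^ 2 - 1) * ((2 * p * √(1 - α ^ 2)) * (2 * q * √(1 - β ^ 2)))) ≤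
        2 * (h ^ 2 - 1) := by
      nlinarith
    linarith

end Pool.Agent.SDL
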