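import Pool.Agent.SDL.Targets

set_option autoImplicit false

open MeasureTheory Set Real
open scoped RealInnerProductSpace

namespace Pool.Agent.SDL

open Pool.Agent.SDC

private theorem Bf_scale (t h c : ℝ) (hh : 0 < h) (hc : 0 < c) :
    h ^ 3 * Bf (t / h) c = h * Bf t (h * c) := by
  unfold Bf
  by_cases h1 : c ≤ t / h
  · have h2 : h * c ≤ t := by
      rw [le_div_iff₀ hh] at h1
      linarith
    rw [if_pos h1, if_pos h2]
    ring
  · have h2 : ¬ h * c ≤ t := by
      intro h3
      apply h1
      rw [le_div_iff₀ hh]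
      linarith
    rw [if_neg h1, if_neg h2]
    field_simp

theorem p_HB : T_HB := by
  intro t h r ht hh hr
  have hcc : 0 < cc r := by
    unfold cc
    positivity
  have hcs : cc r ^ 2 = 1 + r ^ 2 := by
    unfold cc
    exact Real.sq_sqrt (by positivity)
  have e1 := Bf_scale t h (cc r) hh hcc
  have e2 := Bf_scale t h 1 hh one_pos
  rw [mul_one] at e2
  have e3 := tHCL.2 t (kap t) (bet t) h r ht hh hr
  have e4 : h * (bet t / (h * cc r)) = bet t / cc r := by
    field_simp
  unfold HH
  rw [e3]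
  unfold bb
  have e5 : h ^ 3 * (Bf (t / h) (cc r) - Bf (t / h) 1) =
      h * Bf t (h * cc r) - h * Bf t h := by
    rw [mul_sub, e1, e2]
  rw [e5]
  have e6 : h * (Bf t (h * cc r) + bet t / (h * cc r) - kap t * (h * cc r) ^ 2 / 2 - Bf t h) =
      h * Bf t (h * cc r) - h * Bf t h + h * (bet t / (h * cc r))
        - kap t * h ^ 3 * cc r ^ 2 / 2 := by
    ring
  rw [e6, e4, hcs]
  ring

end Pool.Agent.SDL
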