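import Pool.Agent.SDL.Targets

set_option autoImplicit false

/-!
# SDL: the target KEX
-/

open MeasureTheory Set Real

namespace Pool.Agent.SDL

open Pool.Agent.SDC

theorem KEX_sq : ∫ ψ in (0 : ℝ)..(π / 5), (a0 / cos ψ) ^ 2 / 2 = S0 := by
  have h1 : ∀ ψ ∈ uIcc (0 : ℝ) (π / 5),
      HasDerivAt (fun x => a0 ^ 2 / 2 * tan x) ((a0 / cos ψ) ^ 2 / 2) ψ := by
    intro ψ hψ
    have h2 : cos ψ ≠ 0 := (OM_cos hψ).ne'
    have h3 := (Real.hasDerivAt_tan h2).const_mul (a0 ^ 2 / 2)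
    refine h3.congr_deriv ?_
    rw [div_pow]
    ring
  rw [intervalIntegral.integral_eq_sub_of_hasDerivAt h1 OM_sq_cont.intervalIntegrable, tan_zero,
    S0]
  ring

/-- The distances of the points of the side are at least `√W0`. -/
theorem KEX_cc {ψ : ℝ} (h : 0 < cos ψ) : W0 ≤ cc (a0 / cos ψ) ^ 2 := by
  have h1 : cc (a0 / cos ψ) ^ 2 = 1 + (a0 / cos ψ) ^ 2 := by
    rw [cc]
    exact Real.sq_sqrt (by positivity)
  rw [h1, W0_eq, div_pow]
  have h2 : cos ψ ^ 2 ≤ 1 := cos_sq_le_one ψ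
  have h3 : 0 < cos ψ ^ 2 := by positivity
  have h4 : a0 ^ 2 ≤ a0 ^ 2 / cos ψ ^ 2 := by
    rw [le_div_iff₀ h3]
    nlinarith [sq_nonneg a0]
  linarith

theorem p_KEX : T_KEX := by
  refine ⟨KEX_sq, ?_⟩
  intro t ht htW
  have ht0 : 0 < t := by linarith
  have hB : ∀ ψ ∈ uIcc (0 : ℝ) (π / 5), Bf t (cc (a0 / cos ψ)) =
      (a0 / cos ψ) ^ 2 / 2 + t ^ 3 * (1 / cc (a0 / cos ψ)) + (1 / 2 - 3 / 2 * t ^ 2) := by
    intro ψ hψ
    have h1 : 0 < cos ψ := OM_cos hψ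
    have h2 : t ≤ cc (a0 / cos ψ) :=
      (sq_le_sq₀ ht0.le (cc_pos _).le).mp (htW.trans (KEX_cc h1))
    rw [p_BF.2.2 t _ ht0 h2]
    have h3 : cc (a0 / cos ψ) ^ 2 = 1 + (a0 / cos ψ) ^ 2 := by
      rw [cc]
      exact Real.sq_sqrt (by positivity)
    rw [h3]
    ring
  have i1 : IntervalIntegrable (fun ψ => (a0 / cos ψ) ^ 2 / 2) volume 0 (π / 5) :=
    OM_sq_cont.intervalIntegrable
  have i2 : IntervalIntegrable (fun ψ => t ^ 3 * (1 / cc (a0 / cos ψ))) volume 0 (π / 5) :=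
    OM_ii.const_mul _
  have hI : ∫ ψ in (0 : ℝ)..(π / 5), Bf t (cc (a0 / cos ψ)) =
      S0 + t ^ 3 * (π / 6) + (1 / 2 - 3 / 2 * t ^ 2) * (π / 5) := by
    rw [intervalIntegral.integral_congr hB, intervalIntegral.integral_add (i1.add i2)
      intervalIntegrable_const, intervalIntegral.integral_add i1 i2,
      intervalIntegral.integral_const_mul, OM_int, KEX_sq, intervalIntegral.integral_const,
      smul_eq_mul]
    ring
  have hK : kap t * S0 = ∫ ψ in (0 : ℝ)..(π / 5), Bf t (cc (a0 / cos ψ)) := by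
    rw [kap, KEX_sq]
    exact div_mul_cancel₀ _ S0_pos.ne'
  rw [sub_mul, hK, hI]
  ring

end Pool.Agent.SDL
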