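import Pool.Agent.SDL.Targets

set_option autoImplicit false

/-! # SDL: the upper bound of `kap` for large radii (KU) -/

open MeasureTheory Set Real
open scoped RealInnerProductSpace

namespace Pool.Agent.SDL

open Pool.Agent.SDC

/-- The antiderivative of `(y² - q²)² (1 - 0.345 y²)`. -/
noncomputable def KU_Q (q y : ℝ) : ℝ :=
  y ^ 5 / 5 - 2 * q ^ 2 * y ^ 3 / 3 + q ^ 4 * y
    - 0.345 * (y ^ 7 / 7 - 2 * q ^ 2 * y ^ 5 / 5 + q ^ 4 * y ^ 3 / 3)

lemma KU_Q_deriv (q y : ℝ) :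
    HasDerivAt (KU_Q q) ((y ^ 2 - q ^ 2) ^ 2 * (1 - 0.345 * y ^ 2)) y := by
  have h3 := hasDerivAt_pow 3 y
  have h5 := hasDerivAt_pow 5 y
  have h7 := hasDerivAt_pow 7 y
  have h1 := hasDerivAt_id' y
  have h := ((((h5.div_const 5).sub ((h3.const_mul (2 * q ^ 2)).div_const 3)).add
    (h1.const_mul (q ^ 4))).sub ((((h7.div_const 7).sub
      ((h5.const_mul (2 * q ^ 2)).div_const 5)).add
      ((h3.const_mul (q ^ 4)).div_const 3)).const_mul 0.345))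
  refine h.congr_deriv ?_
  norm_num
  ring

lemma KU_Q_one (q : ℝ) : KU_Q q 1 - KU_Q q q = Kq q := by
  unfold KU_Q Kq
  ring

/-- The elementary upper bound of `Bf`. -/
lemma KU_Bf {t c : ℝ} (ht : 0 < t) (htc : t ≤ c) :
    Bf t c ≤ 3 / (8 * t ^ 2) * (c ^ 2 - t ^ 2) ^ 2 := by
  have hc : 0 < c := by linarith
  unfold Bf
  split_ifs with h
  · positivity
  · rw [div_mul_eq_mul_div, div_le_div_iff₀ (by positivity) (by positivity)]
    have h1 : 0 ≤ 2 * (c - t) ^ 2 * ((c - t) * (3 * c ^ 2 + 9 * c * t + 8 * t ^ 2)) := by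
      have : 0 ≤ c - t := by linarith
      positivity
    nlinarith [h1]

/-- The square of the distance, in the coordinate `y`. -/
lemma KU_cc {ψ : ℝ} (hψ : cos ψ ≠ 0) :
    cc (a0 / cos ψ) ^ 2 = W0 + (R ^ 2 - W0) * (tan ψ / tan (π / 5)) ^ 2 := by
  have hT := tan36_pos
  have hA : R ^ 2 - W0 = a0 ^ 2 * tan (π / 5) ^ 2 := by rw [← a0_tan, mul_pow]
  rw [cc_sq, hA, W0_eq, div_pow, div_pow]
  have h1 : (1 : ℝ) + tan ψ ^ 2 = (cos ψ ^ 2)⁻¹ := by
    rw [Real.tan_eq_sin_div_cos]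
    field_simp
    linarith [Real.sin_sq_add_cos_sq ψ]
  have h2 : a0 ^ 2 * tan (π / 5) ^ 2 * (tan ψ ^ 2 / tan (π / 5) ^ 2) = a0 ^ 2 * tan ψ ^ 2 := by
    field_simp
  rw [h2, div_eq_mul_inv, ← h1]
  ring

/-- The constant of the bound. -/
lemma KU_const {t : ℝ} (ht : 0 < t) (hW : W0 ≤ t ^ 2) :
    3 / (8 * t ^ 2) * (R ^ 2 - W0) ^ 2 ≤ 0.0578 * (a0 ^ 2 / 2) := by
  rw [div_mul_eq_mul_div, div_le_iff₀ (by positivity)]
  have hA0 : 0 < R ^ 2 - W0 := by linarith [W0_lt]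
  have hA1 : R ^ 2 - W0 < 0.201627 := by
    rw [R_sq, W0]
    linarith [s5_lo']
  have ha : (0.381965 : ℝ) < a0 ^ 2 := by
    rw [a0_sq]
    linarith [s5_hi']
  have hw : (1.381965 : ℝ) < W0 := by
    rw [W0]
    linarith [s5_hi']
  have h4 : (R ^ 2 - W0) ^ 2 < 0.0406535 := by
    have := mul_self_lt_mul_self hA0.le hA1
    rw [pow_two]
    norm_num at this ⊢
    linarith
  have h5 : (0.381965 : ℝ) * 1.381965 ≤ a0 ^ 2 * t ^ 2 :=
    mul_le_mul ha.le (by linarith) (by norm_num) (by positivity)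
  norm_num at h5 h4 ⊢
  linarith

theorem p_KU (hkex : T_KEX) : T_KU := by
  intro t q hW h1 htR hq hqt
  have hA : 0 < R ^ 2 - W0 := by linarith [W0_lt]
  have ht : 0 < t := by linarith
  have hpi := Real.pi_pos
  have hT := tan36_pos
  set T : ℝ := tan (π / 5) with hTdef
  set A : ℝ := R ^ 2 - W0 with hAdef
  have hq1 : q < 1 := by
    by_contra hcon
    push Not at hcon
    have h2 : t ^ 2 < R ^ 2 := by nlinarith
    have h3 : 1 * A ≤ q ^ 2 * A := mul_le_mul_of_nonneg_right (by nlinarith) hA.le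
    linarith
  refine ⟨hq1, ?_⟩
  -- the point where the density starts
  set ψq : ℝ := arctan (q * T) with hψq
  have hψ0 : 0 ≤ ψq := by
    rw [hψq, ← Real.arctan_zero]
    exact Real.arctan_mono (by positivity)
  have hψ1 : ψq ≤ π / 5 := by
    have h2 : arctan T = π / 5 := by
      rw [hTdef]
      exact Real.arctan_tan (by linarith) (by linarith)
    rw [← h2, hψq]
    exact Real.arctan_mono (by nlinarith)
  have htanq : tan ψq = q * T := by rw [hψq, Real.tan_arctan]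
  have hcos : ∀ ψ ∈ Icc (0 : ℝ) (π / 5), 0 < cos ψ := fun ψ hψ =>
    cos_pos_of_mem_Ioo ⟨by linarith [hψ.1], by linarith [hψ.2]⟩
  have htan : ∀ ψ φ : ℝ, 0 ≤ ψ → ψ ≤ φ → φ ≤ π / 5 → tan ψ ≤ tan φ := by
    intro ψ φ h2 h3 h4
    have hs := Real.strictMonoOn_tan.monotoneOn
    exact hs ⟨by linarith, by linarith⟩ ⟨by linarith, by linarith⟩ h3
  -- continuity
  have hcont : ContinuousOn (fun ψ => Bf t (cc (a0 / cos ψ))) (Icc (0 : ℝ) (π / 5)) := by
    have hcc : Continuous cc := by unfold cc; fun_prop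
    intro ψ hψ
    have h2 : ContinuousAt (Bf t) (cc (a0 / cos ψ)) :=
      (p_BF.2.1 t _ ht (cc_pos _)).continuousAt
    have h3 : ContinuousOn (fun ψ => cc (a0 / cos ψ)) (Icc (0 : ℝ) (π / 5)) :=
      hcc.comp_continuousOn KAP_cont
    exact ContinuousAt.comp_continuousWithinAt (g := Bf t) (f := fun ψ => cc (a0 / cos ψ)) h2
      (h3 ψ hψ)
  have hint : ∀ a b : ℝ, 0 ≤ a → a ≤ b → b ≤ π / 5 →
      IntervalIntegrable (fun ψ => Bf t (cc (a0 / cos ψ))) volume a b := by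
    intro a b h2 h3 h4
    apply ContinuousOn.intervalIntegrable
    rw [uIcc_of_le h3]
    exact hcont.mono (Icc_subset_Icc h2 h4)
  -- the first part vanishes
  have hI1 : ∫ ψ in (0 : ℝ)..ψq, Bf t (cc (a0 / cos ψ)) = 0 := by
    rw [intervalIntegral.integral_congr (g := fun _ => (0 : ℝ)), intervalIntegral.integral_zero]
    intro ψ hψ
    rw [uIcc_of_le hψ0] at hψ
    have hψ' : ψ ∈ Icc (0 : ℝ) (π / 5) := ⟨hψ.1, hψ.2.trans hψ1⟩
    have h2 := KU_cc (hcos ψ hψ').ne'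
    have h3 : tan ψ / T ≤ q := by
      rw [div_le_iff₀ hT, ← htanq]
      exact htan _ _ hψ.1 hψ.2 hψ1
    have h4 : 0 ≤ tan ψ / T := by
      apply div_nonneg _ hT.le
      have := htan 0 ψ le_rfl hψ.1 hψ'.2
      rwa [Real.tan_zero] at this
    have h5 : (tan ψ / T) ^ 2 ≤ q ^ 2 := pow_le_pow_left₀ h4 h3 2
    have h6 : cc (a0 / cos ψ) ≤ t := by
      apply le_of_sq_le_sq _ ht.le
      rw [h2]
      nlinarith
    show Bf t (cc (a0 / cos ψ)) = 0
    unfold Bf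
    rw [if_pos h6]
  -- the second part
  have hderiv : ∀ ψ ∈ Icc (0 : ℝ) (π / 5), HasDerivAt (fun ψ => KU_Q q (tan ψ / T))
      (((tan ψ / T) ^ 2 - q ^ 2) ^ 2 * (1 - 0.345 * (tan ψ / T) ^ 2) *
        ((1 / cos ψ ^ 2) / T)) ψ := by
    intro ψ hψ
    have h2 := (Real.hasDerivAt_tan (hcos ψ hψ).ne').div_const T
    exact (KU_Q_deriv q (tan ψ / T)).comp ψ h2
  have htcont : ContinuousOn (fun ψ => tan ψ) (Icc (0 : ℝ) (π / 5)) := fun ψ hψ =>
    (Real.hasDerivAt_tan (hcos ψ hψ).ne').continuousAt.continuousWithinAt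
  have hdcont : ContinuousOn (fun ψ => ((tan ψ / T) ^ 2 - q ^ 2) ^ 2 *
      (1 - 0.345 * (tan ψ / T) ^ 2) * ((1 / cos ψ ^ 2) / T)) (Icc (0 : ℝ) (π / 5)) := by
    have h2 : ContinuousOn (fun ψ => tan ψ / T) (Icc (0 : ℝ) (π / 5)) := htcont.div_const T
    have h3 : ContinuousOn (fun ψ : ℝ => (1 / cos ψ ^ 2) / T) (Icc (0 : ℝ) (π / 5)) := by
      apply ContinuousOn.div_const
      apply ContinuousOn.div continuousOn_const (continuous_cos.pow 2).continuousOn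
      intro ψ hψ
      exact (pow_pos (hcos ψ hψ) 2).ne'
    exact ((((h2.pow 2).sub continuousOn_const).pow 2).mul
      (continuousOn_const.sub (continuousOn_const.mul (h2.pow 2)))).mul h3
  have hFTC : ∫ ψ in ψq..(π / 5), ((tan ψ / T) ^ 2 - q ^ 2) ^ 2 *
      (1 - 0.345 * (tan ψ / T) ^ 2) * ((1 / cos ψ ^ 2) / T) = Kq q := by
    rw [intervalIntegral.integral_eq_sub_of_hasDerivAt (f := fun ψ => KU_Q q (tan ψ / T))]
    · have h2 : tan (π / 5) / T = 1 := div_self hT.ne'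
      have h3 : tan ψq / T = q := by
        rw [htanq]
        field_simp
      simp only [h2, h3]
      exact KU_Q_one q
    · intro ψ hψ
      rw [uIcc_of_le hψ1] at hψ
      exact hderiv ψ ⟨hψ0.trans hψ.1, hψ.2⟩
    · apply ContinuousOn.intervalIntegrable
      rw [uIcc_of_le hψ1]
      exact hdcont.mono (Icc_subset_Icc hψ0 le_rfl)
  have hdint : IntervalIntegrable (fun ψ => ((tan ψ / T) ^ 2 - q ^ 2) ^ 2 *
      (1 - 0.345 * (tan ψ / T) ^ 2) * ((1 / cos ψ ^ 2) / T)) volume ψq (π / 5) := by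
    apply ContinuousOn.intervalIntegrable
    rw [uIcc_of_le hψ1]
    exact hdcont.mono (Icc_subset_Icc hψ0 le_rfl)
  have hT2 : T ^ 2 = 5 - 2 * √5 := tan36_sq
  have hpt : ∀ ψ ∈ Icc ψq (π / 5), ((tan ψ / T) ^ 2 - q ^ 2) ^ 2 ≤
      T * (((tan ψ / T) ^ 2 - q ^ 2) ^ 2 *
      (1 - 0.345 * (tan ψ / T) ^ 2) * ((1 / cos ψ ^ 2) / T)) := by
    intro ψ hψ
    have hψ' : ψ ∈ Icc (0 : ℝ) (π / 5) := ⟨hψ0.trans hψ.1, hψ.2⟩
    have hc := hcos ψ hψ'
    have h2 : (1 : ℝ) / cos ψ ^ 2 = 1 + T ^ 2 * (tan ψ / T) ^ 2 := by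
      rw [div_pow, mul_div_cancel₀ _ (pow_pos hT 2).ne', Real.tan_eq_sin_div_cos]
      field_simp
      linarith [Real.sin_sq_add_cos_sq ψ]
    have h3 : tan ψ / T ≤ 1 := by
      rw [div_le_one hT]
      exact htan _ _ hψ'.1 hψ.2 le_rfl
    have h4 : 0 ≤ tan ψ / T := by
      apply div_nonneg _ hT.le
      have := htan 0 ψ le_rfl hψ'.1 hψ'.2
      rwa [Real.tan_zero] at this
    rw [h2]
    set y : ℝ := tan ψ / T
    have h5 : y ^ 2 ≤ 1 := by nlinarith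
    have h6 : 0.527 < T ^ 2 := by
      rw [hT2]
      linarith [s5_hi']
    have h7 : (1 : ℝ) ≤ (1 - 0.345 * y ^ 2) * (1 + T ^ 2 * y ^ 2) := by
      have h8 : 0 ≤ y ^ 2 * (T ^ 2 - 0.345 - 0.345 * T ^ 2 * y ^ 2) := by
        apply mul_nonneg (sq_nonneg _)
        have h9 : (0.52786 : ℝ) < T ^ 2 := by
          rw [hT2]
          linarith [s5_hi']
        nlinarith
      nlinarith
    have h8 : T * ((y ^ 2 - q ^ 2) ^ 2 * (1 - 0.345 * y ^ 2) * ((1 + T ^ 2 * y ^ 2) / T)) =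
        (y ^ 2 - q ^ 2) ^ 2 * ((1 - 0.345 * y ^ 2) * (1 + T ^ 2 * y ^ 2)) := by
      field_simp
    rw [h8]
    exact le_mul_of_one_le_right (sq_nonneg _) h7
  have hI2 : ∫ ψ in ψq..(π / 5), Bf t (cc (a0 / cos ψ)) ≤
      3 / (8 * t ^ 2) * A ^ 2 * T * Kq q := by
    rw [← hFTC, ← intervalIntegral.integral_const_mul]
    apply intervalIntegral.integral_mono_on hψ1 (hint _ _ hψ0 hψ1 le_rfl)
      (hdint.const_mul _)
    intro ψ hψ
    have hψ' : ψ ∈ Icc (0 : ℝ) (π / 5) := ⟨hψ0.trans hψ.1, hψ.2⟩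
    have hc := hcos ψ hψ'
    have h2 := KU_cc hc.ne'
    have h3 : q ≤ tan ψ / T := by
      rw [le_div_iff₀ hT, ← htanq]
      exact htan _ _ hψ0 hψ.1 hψ.2
    have h4 : t ≤ cc (a0 / cos ψ) := by
      apply le_of_sq_le_sq _ (cc_pos _).le
      rw [h2]
      have h5 : q ^ 2 ≤ (tan ψ / T) ^ 2 := pow_le_pow_left₀ hq h3 2
      nlinarith
    have h5 := KU_Bf ht h4
    have h6 : cc (a0 / cos ψ) ^ 2 - t ^ 2 = A * ((tan ψ / T) ^ 2 - q ^ 2) := by
      rw [h2]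
      linarith
    rw [h6, mul_pow] at h5
    have h7 := hpt ψ hψ
    have h8 : 0 ≤ 3 / (8 * t ^ 2) * A ^ 2 := by positivity
    have h9 := mul_le_mul_of_nonneg_left h7 h8
    linarith
  have hK0 : 0 ≤ Kq q := by
    rw [← hFTC]
    apply intervalIntegral.integral_nonneg hψ1
    intro ψ hψ
    have h2 := hpt ψ hψ
    have h3 := (sq_nonneg ((tan ψ / T) ^ 2 - q ^ 2)).trans h2
    exact nonneg_of_mul_nonneg_right h3 hT
  have hkap : kap t * S0 ≤ 3 / (8 * t ^ 2) * A ^ 2 * T * Kq q := by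
    have h2 : kap t * S0 = ∫ ψ in (0 : ℝ)..(π / 5), Bf t (cc (a0 / cos ψ)) := by
      rw [kap, hkex.1, div_mul_cancel₀ _ S0_pos.ne']
    rw [h2, ← intervalIntegral.integral_add_adjacent_intervals (hint 0 ψq le_rfl hψ0 hψ1)
      (hint ψq (π / 5) hψ0 hψ1 le_rfl), hI1, zero_add]
    exact hI2
  have hfin : 3 / (8 * t ^ 2) * A ^ 2 * T * Kq q ≤ 0.0578 * Kq q * S0 := by
    have h2 : S0 = a0 ^ 2 * T / 2 := rfl
    have h4 : 0 ≤ T * Kq q := mul_nonneg hT.le hK0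
    have h5 := mul_le_mul_of_nonneg_right (KU_const ht hW) h4
    calc 3 / (8 * t ^ 2) * A ^ 2 * T * Kq q = 3 / (8 * t ^ 2) * A ^ 2 * (T * Kq q) := by ring
      _ ≤ 0.0578 * (a0 ^ 2 / 2) * (T * Kq q) := h5
      _ = 0.0578 * Kq q * S0 := by rw [h2]; ring
  exact le_of_mul_le_mul_right (hkap.trans hfin) S0_pos

end Pool.Agent.SDL
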