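import Pool.Agent.SDL.Targets2

set_option autoImplicit false

/-!
# SDL: facts about the sides of a facet (target NSF)
-/

open MeasureTheory Set Real
open scoped RealInnerProductSpace

namespace Pool.Agent.SDL

open Pool.Agent.SDC

theorem NSF_foot {h p α : ℝ} (h1 : 1 ≤ h) (h2 : h < RO) (hp : 1 ≤ p)
    (hq : 1 ≤ h ^ 2 + p ^ 2 - 2 * h * p * α) : h * α < p := by
  have hh : h ^ 2 < 13 / 8 := by
    rw [← RO_sq]
    exact pow_lt_pow_left₀ h2 (by linarith) two_ne_zero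
  have hp2 : 1 ≤ p ^ 2 := by nlinarith
  have h3 : 2 * p * (h * α) < 2 * p * p := by nlinarith
  exact lt_of_mul_lt_mul_left h3 (by linarith)

/-- The target NSF. -/
theorem p_NSF (_hdmn : T_DMN) : T_NSF := by
  intro ι n h i j hP _ hi hij
  obtain ⟨hn, h1, hd⟩ := hP
  have hα : h i * ⟪n i, n j⟫ < h j := NSF_foot (h1 i) hi (h1 j) (hd i j hij)
  have hi0 : 0 < h i := by linarith [h1 i]
  have hnum : 0 < h j / h i - ⟪n i, n j⟫ := by
    rw [sub_pos, lt_div_iff₀ hi0]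
    linarith [mul_comm (h i) ⟪n i, n j⟫]
  refine ⟨hα, div_nonneg hnum.le (Real.sqrt_nonneg _), ?_⟩
  rintro ϱ ⟨_, x, hx, hxi, hxj, _⟩
  have hii : ⟪n i, n i⟫ = 1 := by
    rw [real_inner_self_eq_norm_sq, hn i]
    norm_num
  have hjj : ⟪n j, n j⟫ = 1 := by
    rw [real_inner_self_eq_norm_sq, hn j]
    norm_num
  have hxx : ⟪x, x⟫ = ‖x‖ ^ 2 := real_inner_self_eq_norm_sq x
  -- the Gram matrix of `n j - α n i` and `x - h n i`
  have hyy : ‖n j - ⟪n i, n j⟫ • n i‖ ^ 2 = 1 - ⟪n i, n j⟫ ^ 2 := by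
    rw [← real_inner_self_eq_norm_sq]
    simp only [inner_sub_left, inner_sub_right, inner_smul_left, inner_smul_right, hii, hjj,
      real_inner_comm (n i) (n j), conj_trivial]
    ring
  have hzz : ‖x - h i • n i‖ ^ 2 = ‖x‖ ^ 2 - h i ^ 2 := by
    rw [← real_inner_self_eq_norm_sq]
    simp only [inner_sub_left, inner_sub_right, inner_smul_left, inner_smul_right, hii, hxx,
      real_inner_comm (n i) x, hxi, conj_trivial]
    ring
  have hyz : ⟪n j - ⟪n i, n j⟫ • n i, x - h i • n i⟫ = h j - h i * ⟪n i, n j⟫ := by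
    simp only [inner_sub_left, inner_sub_right, inner_smul_left, inner_smul_right, hii, hxi, hxj,
      real_inner_comm (n i) (n j), conj_trivial]
    ring
  have hpos : 0 < h j - h i * ⟪n i, n j⟫ := by linarith
  have hcs : (h j - h i * ⟪n i, n j⟫) ^ 2 ≤
      (1 - ⟪n i, n j⟫ ^ 2) * (‖x‖ ^ 2 - h i ^ 2) := by
    rw [← hyz, ← hyy, ← hzz, ← mul_pow]
    exact sq_le_sq' (neg_le_of_abs_le (abs_real_inner_le_norm _ _))
      (real_inner_le_norm _ _)
  have hs0 : 0 ≤ 1 - ⟪n i, n j⟫ ^ 2 := by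
    rw [← hyy]
    positivity
  have hs : 0 < 1 - ⟪n i, n j⟫ ^ 2 := by
    rcases hs0.lt_or_eq with hlt | heq
    · exact hlt
    · rw [← heq, zero_mul] at hcs
      nlinarith
  have hsq : 0 < √(1 - ⟪n i, n j⟫ ^ 2) := Real.sqrt_pos.mpr hs
  have hadp : 0 < ad n h i j := div_pos hnum hsq
  refine ⟨by linarith, hadp, ?_⟩
  rw [rr]
  apply Real.lt_sqrt_of_sq_lt
  have had : ad n h i j ^ 2 =
      (h j - h i * ⟪n i, n j⟫) ^ 2 / ((1 - ⟪n i, n j⟫ ^ 2) * h i ^ 2) := by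
    rw [ad, div_pow, Real.sq_sqrt hs.le]
    field_simp
  rw [had]
  have hϱ : ‖x‖ ^ 2 < ϱ ^ 2 := pow_lt_pow_left₀ hx (norm_nonneg x) two_ne_zero
  have hh2 : 0 < h i ^ 2 := by positivity
  rw [div_lt_iff₀ (mul_pos hs hh2)]
  have e : (ϱ ^ 2 / h i ^ 2 - 1) * ((1 - ⟪n i, n j⟫ ^ 2) * h i ^ 2) =
      (1 - ⟪n i, n j⟫ ^ 2) * (ϱ ^ 2 - h i ^ 2) := by
    field_simp
  rw [e]
  exact lt_of_le_of_lt hcs (mul_lt_mul_of_pos_left (by linarith) hs)

end Pool.Agent.SDL
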