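import Pool.Agent.SDL.Targets

set_option autoImplicit false

namespace Pool.Agent.SDL

open Pool.Agent.SDC

/-- PQ: Bernstein form of degree 7 on `[0,1]`. -/
theorem p_PQ : T_PQ := by
  intro q h0 h1
  have h2 : 0 ≤ 1 - q := by linarith
  have key : 0 ≤ (365609 / 350000000) * (1 - q) ^ 7 +
      (365609 / 50000000) * q ^ 1 * (1 - q) ^ 6 +
      (925141 / 30000000) * q ^ 2 * (1 - q) ^ 5 +
      (18050279 / 300000000) * q ^ 3 * (1 - q) ^ 4 +
      (4962893 / 150000000) * q ^ 4 * (1 - q) ^ 3 +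
      (15307 / 6250000) * q ^ 5 * (1 - q) ^ 2 +
      (14763 / 2000000) * q ^ 6 * (1 - q) ^ 1 +
      (27417 / 100000000) * q ^ 7 := by
    positivity
  unfold Kq
  refine le_of_sub_nonneg (key.trans_eq ?_)
  ring

end Pool.Agent.SDL
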