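import Pool.Agent.SDL.Targets2

set_option autoImplicit false

/-!
# SDL: facets with at least six near sides (target SIX)
-/

open MeasureTheory Set Real
open scoped RealInnerProductSpace

namespace Pool.Agent.SDL

open Pool.Agent.SDC

theorem six_polar (x y : ℝ) : ∃ θ : ℝ, x = √(x ^ 2 + y ^ 2) * cos θ ∧
    y = √(x ^ 2 + y ^ 2) * sin θ := by
  refine ⟨Complex.arg ⟨x, y⟩, ?_, ?_⟩
  · have h := Complex.norm_mul_cos_arg (⟨x, y⟩ : ℂ)
    rw [Complex.norm_eq_sqrt_sq_add_sq] at h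
    exact h.symm
  · have h := Complex.norm_mul_sin_arg (⟨x, y⟩ : ℂ)
    rw [Complex.norm_eq_sqrt_sq_add_sq] at h
    exact h.symm

theorem six_c92 : (0.5836 : ℝ) ≤ cos 0.92 := by
  have h1 := Real.one_sub_sq_div_two_le_cos (x := 0.46)
  have h2 : cos (0.92 : ℝ) = 2 * cos 0.46 ^ 2 - 1 := by
    rw [← Real.cos_two_mul]
    norm_num
  rw [h2]
  nlinarith

theorem six_c87 : (0.625 : ℝ) ≤ cos 0.87 := by
  have h1 := Real.one_sub_sq_div_two_le_cos (x := 0.435)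
  have h2 : cos (0.87 : ℝ) = 2 * cos 0.435 ^ 2 - 1 := by
    rw [← Real.cos_two_mul]
    norm_num
  rw [h2]
  nlinarith

theorem six_c8 : cos (0.8 : ℝ) ≤ 0.7 := by
  have h1 := Real.cos_bound (x := 0.4) (by rw [abs_of_pos] <;> norm_num)
  have h2 : cos (0.8 : ℝ) = 2 * cos 0.4 ^ 2 - 1 := by
    rw [← Real.cos_two_mul]
    norm_num
  rw [abs_le] at h1
  have h3 := h1.2
  rw [abs_of_pos (by norm_num : (0 : ℝ) < 0.4)] at h3
  have h4 : cos (0.4 : ℝ) ≤ 0.9214 := by norm_num at h3 ⊢; linarith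
  have h5 : 0 ≤ cos (0.4 : ℝ) := by
    apply Real.cos_nonneg_of_mem_Icc
    have := Real.pi_gt_three
    constructor <;> linarith
  rw [h2]
  nlinarith

/-- The bound of the angle of a side. -/
theorem six_one {y D Q C ψ lam ψ0 : ℝ} (hy : 1 ≤ y) (hyQ : y < Q)
    (hD : 4 - 4 * y + y ^ 2 ≤ (D - y) * (4 - y)) (hy4 : y < 4)
    (hpol : 0.52 * ((Q - y) * (4 - y)) ≤ 4 - 4 * y + y ^ 2)
    (hC : (Q - y) * C = D - y) (hψ : cos ψ ^ 2 = C) (hψ0 : 0 ≤ ψ) (hψπ : ψ ≤ π / 2)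
    (hlam : 0 ≤ lam) (hlam1 : lam ≤ 0.6) (hps : 0 ≤ ψ0) (hps1 : ψ0 ≤ 0.5)
    (htg : ∀ x, 0 ≤ x → x ≤ 0.8 → (Q - 1) * cos x ^ 2 ≤ cos (π / 3 + lam * (x - ψ0))) :
    π / 3 + lam * (ψ - ψ0) ≤ arccos (D - 1 - 0.48 * (y - 1)) := by
  have hπ3 := Real.pi_gt_three
  have hπ4 := Real.pi_lt_four
  have hQ : 0 < Q - y := by linarith
  have h4 : 0 < 4 - y := by linarith
  have hC52 : 0.52 ≤ C := by
    have h1 : 0.52 * ((Q - y) * (4 - y)) ≤ ((Q - y) * C) * (4 - y) := by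
      rw [hC]
      linarith
    by_contra hcon
    push Not at hcon
    have h2 : 0 < (Q - y) * (4 - y) := mul_pos hQ h4
    nlinarith
  have hψ8 : ψ ≤ 0.8 := by
    by_contra hcon
    push Not at hcon
    have h1 : cos ψ ≤ cos 0.8 := by
      apply Real.cos_le_cos_of_nonneg_of_le_pi (by norm_num) (by linarith) hcon.le
    have h2 : 0 ≤ cos ψ := Real.cos_nonneg_of_mem_Icc ⟨by linarith, hψπ⟩
    have h3 := six_c8
    have h4 : cos ψ ^ 2 ≤ 0.49 := by nlinarith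
    rw [hψ] at h4
    linarith
  have ht := htg ψ hψ0 hψ8
  rw [hψ] at ht
  have hz : D - 1 - 0.48 * (y - 1) ≤ (Q - 1) * C := by
    have : D = y + (Q - y) * C := by linarith
    rw [this]
    nlinarith
  have hx0 : 0 ≤ π / 3 + lam * (ψ - ψ0) := by nlinarith
  have hxπ : π / 3 + lam * (ψ - ψ0) ≤ π := by nlinarith
  calc π / 3 + lam * (ψ - ψ0) = arccos (cos (π / 3 + lam * (ψ - ψ0))) :=
        (Real.arccos_cos hx0 hxπ).symm
    _ ≤ arccos (D - 1 - 0.48 * (y - 1)) := Real.arccos_le_arccos (hz.trans ht)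

theorem p_SIX (hgap : T_GAP) (hdmn : T_DMN) (harc : T_ARC) (htg : T_TG) : T_SIX := by
  intro ι n h i S S' hP hiR hiS hS hSS hcard hS'
  obtain ⟨hn, hh, hpk⟩ := hP
  have hπ3 := Real.pi_gt_three
  have hπ4 := Real.pi_lt_four
  have h1 := hh i
  have h0 : 0 < h i := by linarith
  have hRO : h i < RO := hiR.trans R_lt_RO
  have hy1 : 1 ≤ h i ^ 2 := by nlinarith
  have hyR : h i ^ 2 < R ^ 2 := by nlinarith [R_pos]
  have hyO : h i ^ 2 < 13 / 8 := by rw [← RO_sq]; nlinarith [RO_pos]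
  have hne : ∀ j ∈ S, i ≠ j := fun j hj hij => hiS (hij ▸ hj)
  -- the facts about one side
  have hd : ∀ j ∈ S, 4 / (4 - h i ^ 2) ≤ Dq (h i) (h j) ⟪n i, n j⟫ ∧
      1 < Dq (h i) (h j) ⟪n i, n j⟫ ∧ h i * ⟪n i, n j⟫ < h j ∧
      h i ^ 2 * (1 + ad n h i j ^ 2) = Dq (h i) (h j) ⟪n i, n j⟫ := fun j hj =>
    hdmn (h i) (h j) ⟪n i, n j⟫ h1 hRO (hh j) (hS j hj).1 (hpk i j (hne j hj))
  have hap : ∀ j ∈ S, 0 < ad n h i j := by
    intro j hj
    have h2 := (hd j hj).2.2.1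
    have h3 := (hS j hj).1
    rw [ad]
    apply div_pos
    · rw [sub_pos, lt_div_iff₀ h0]
      linarith
    · exact Real.sqrt_pos.mpr (by linarith)
  have hrr : ∀ u : ℝ, h i ^ 2 < u ^ 2 → rr (h i) u ^ 2 = u ^ 2 / h i ^ 2 - 1 ∧
      0 < rr (h i) u := by
    intro u hu
    have h2 : 0 < u ^ 2 / h i ^ 2 - 1 := by
      rw [sub_pos, lt_div_iff₀ (by positivity)]
      linarith
    exact ⟨Real.sq_sqrt h2.le, Real.sqrt_pos.mpr h2⟩
  have hDlt : ∀ u : ℝ, h i ^ 2 < u ^ 2 → ∀ j ∈ S, ad n h i j < rr (h i) u →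
      Dq (h i) (h j) ⟪n i, n j⟫ < u ^ 2 := by
    intro u hu j hj hlt
    obtain ⟨e1, e2⟩ := hrr u hu
    have h2 := hap j hj
    rw [← (hd j hj).2.2.2]
    have h3 : ad n h i j ^ 2 < u ^ 2 / h i ^ 2 - 1 := by
      rw [← e1]
      nlinarith
    have h4 : h i ^ 2 * (1 + ad n h i j ^ 2) < h i ^ 2 * (u ^ 2 / h i ^ 2) := by
      apply mul_lt_mul_of_pos_left _ (by positivity)
      linarith
    have h5 : h i ^ 2 * (u ^ 2 / h i ^ 2) = u ^ 2 := by field_simp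
    linarith
  have hDO : ∀ j ∈ S, Dq (h i) (h j) ⟪n i, n j⟫ < 13 / 8 := by
    intro j hj
    rw [← RO_sq]
    exact hDlt RO (by rw [RO_sq]; exact hyO) j hj (hS j hj).2
  -- the directions
  obtain ⟨e, f, hef⟩ := p_ONB (n i) (hn i)
  obtain ⟨-, hcrd⟩ := p_CRD (n i) e f hef
  have hθ : ∀ j, ∃ θ : ℝ, ⟪e, n j⟫ = √(1 - ⟪n i, n j⟫ ^ 2) * cos θ ∧
      ⟪f, n j⟫ = √(1 - ⟪n i, n j⟫ ^ 2) * sin θ := by
    intro j
    have h2 := (hcrd (n j)).1
    rw [hn j] at h2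
    have h3 : 1 - ⟪n i, n j⟫ ^ 2 = ⟪e, n j⟫ ^ 2 + ⟪f, n j⟫ ^ 2 := by linarith
    rw [h3]
    exact six_polar _ _
  choose θ hθ1 hθ2 using hθ
  have hin : ∀ j k, ⟪n j, n k⟫ - ⟪n i, n j⟫ * ⟪n i, n k⟫ =
      √(1 - ⟪n i, n j⟫ ^ 2) * √(1 - ⟪n i, n k⟫ ^ 2) * cos (θ j - θ k) := by
    intro j k
    have h2 : ⟪n j, n k⟫ = ⟪n i, n j⟫ * ⟪n i, n k⟫ + ⟪e, n j⟫ * ⟪e, n k⟫ +
        ⟪f, n j⟫ * ⟪f, n k⟫ := by
      conv_lhs => rw [(hcrd (n j)).2]
      rw [inner_add_left, inner_add_left, inner_smul_left, inner_smul_left, inner_smul_left]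
      simp
    rw [h2, hθ1 j, hθ2 j, hθ1 k, hθ2 k, Real.cos_sub]
    ring
  have hsq : ∀ j ∈ S, 0 < √(1 - ⟪n i, n j⟫ ^ 2) := fun j hj =>
    Real.sqrt_pos.mpr (by linarith [(hS j hj).1])
  have hg : ∀ j ∈ S, ∀ k ∈ S, j ≠ k → _ := fun j hj k hk hjk =>
    hgap (h i) (h j) (h k) ⟪n i, n j⟫ ⟪n i, n k⟫ ⟪n j, n k⟫ h1 hRO (hh j) (hh k)
      (hS j hj).1 (hS k hk).1 (hpk i j (hne j hj)) (hpk i k (hne k hk)) (hpk j k hjk)
  have hdiv : ∀ j ∈ S, ∀ k ∈ S, ∀ c : ℝ, ⟪n j, n k⟫ - ⟪n i, n j⟫ * ⟪n i, n k⟫ ≤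
      √(1 - ⟪n i, n j⟫ ^ 2) * √(1 - ⟪n i, n k⟫ ^ 2) * c → cos (θ j - θ k) ≤ c := by
    intro j hj k hk c hc
    rw [hin] at hc
    exact le_of_mul_le_mul_left hc (mul_pos (hsq j hj) (hsq k hk))
  -- the first sum
  have hA := harc ι S θ (fun j => Dq (h i) (h j) ⟪n i, n j⟫ - 1)
    (fun j hj => ⟨by linarith [(hd j hj).2.1], by linarith [hDO j hj]⟩)
    (fun j hj k hk hjk => hdiv j hj k hk _ (by
      have := (hg j hj k hk hjk).1
      convert this using 2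
      ring))
  have hDR' : ∀ j ∈ S', Dq (h i) (h j) ⟪n i, n j⟫ < R ^ 2 := fun j hj =>
    hDlt R hyR j (hSS hj) (hS' j hj)
  have hlow1 : ∀ j ∈ S', 0.92 ≤ arccos (Dq (h i) (h j) ⟪n i, n j⟫ - 1) := by
    intro j hj
    calc (0.92 : ℝ) = arccos (cos 0.92) :=
          (Real.arccos_cos (by norm_num) (by linarith)).symm
      _ ≤ _ := Real.arccos_le_arccos (by
          have := hDR' j hj
          have h3 := R_sq_hi
          have h4 := six_c92
          linarith)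
  have hlow2 : ∀ j ∈ S, 0.87 ≤ arccos (Dq (h i) (h j) ⟪n i, n j⟫ - 1) := by
    intro j hj
    calc (0.87 : ℝ) = arccos (cos 0.87) :=
          (Real.arccos_cos (by norm_num) (by linarith)).symm
      _ ≤ _ := Real.arccos_le_arccos (by
          have := hDO j hj
          have h4 := six_c87
          linarith)
  classical
  have hcS : S.card ≤ 6 := by
    by_contra hcon
    push Not at hcon
    have h2 : ∑ j ∈ S, (if j ∈ S' then (0.92 : ℝ) else 0.87) ≤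
        ∑ j ∈ S, arccos (Dq (h i) (h j) ⟪n i, n j⟫ - 1) := by
      apply Finset.sum_le_sum
      intro j hj
      split_ifs with hc
      · exact hlow1 j hc
      · exact hlow2 j hj
    have h3 : ∑ j ∈ S, (if j ∈ S' then (0.92 : ℝ) else 0.87) =
        ∑ j ∈ S, ((0.87 : ℝ) + if j ∈ S' then (0.05 : ℝ) else 0) := by
      apply Finset.sum_congr rfl
      intro j _
      split_ifs <;> norm_num
    rw [h3, Finset.sum_add_distrib, Finset.sum_const, ← Finset.sum_filter,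
      Finset.sum_const] at h2
    have h4 : S.filter (fun j => j ∈ S') = S' := by
      ext j
      simp only [Finset.mem_filter]
      exact ⟨fun hj => hj.2, fun hj => ⟨hSS hj, hj⟩⟩
    rw [h4, nsmul_eq_mul, nsmul_eq_mul] at h2
    have h5 : (7 : ℝ) ≤ S.card := by exact_mod_cast hcon
    have h6 : (6 : ℝ) ≤ S'.card := by exact_mod_cast hcard
    have h7 := Real.pi_lt_d2
    nlinarith
  have hSeq : S' = S := Finset.eq_of_subset_of_card_le hSS (by omega)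
  have hc6 : S.card = 6 := by
    rw [← hSeq] at hcS ⊢
    omega
  have hDR : ∀ j ∈ S, Dq (h i) (h j) ⟪n i, n j⟫ < R ^ 2 := by
    rw [← hSeq]
    exact hDR'
  have hSR : ∀ j ∈ S, ad n h i j < rr (h i) R := by
    rw [← hSeq]
    exact hS'
  -- the second sum
  have hpos4 : 0 < 4 - h i ^ 2 := by linarith
  have hD4 : ∀ j ∈ S, 4 ≤ Dq (h i) (h j) ⟪n i, n j⟫ * (4 - h i ^ 2) := by
    intro j hj
    have := (hd j hj).1
    rwa [div_le_iff₀ hpos4] at this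
  have hB := harc ι S θ (fun j => Dq (h i) (h j) ⟪n i, n j⟫ - 1 - 0.48 * (h i ^ 2 - 1))
    (fun j hj => ⟨by
      have h2 := hD4 j hj
      by_contra hcon
      push Not at hcon
      nlinarith, by
      have := hDO j hj
      nlinarith⟩)
    (fun j hj k hk hjk => hdiv j hj k hk _ (by
      have := (hg j hj k hk hjk).2 (hDR j hj) (hDR k hk)
      convert this using 2
      ring))
  -- one side and one radius
  have hcos : ∀ u : ℝ, h i ^ 2 < u ^ 2 → ∀ j ∈ S, ad n h i j < rr (h i) u →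
      (u ^ 2 - h i ^ 2) * cos (arccos (ad n h i j / rr (h i) u)) ^ 2 =
        Dq (h i) (h j) ⟪n i, n j⟫ - h i ^ 2 := by
    intro u hu j hj hlt
    obtain ⟨e1, e2⟩ := hrr u hu
    have h2 := hap j hj
    rw [Real.cos_arccos (by linarith [div_pos h2 e2]) (by rw [div_le_one e2]; exact hlt.le),
      div_pow, e1, ← (hd j hj).2.2.2]
    have h3 : u ^ 2 - h i ^ 2 ≠ 0 := by linarith
    have h4 : u ^ 2 / h i ^ 2 - 1 = (u ^ 2 - h i ^ 2) / h i ^ 2 := by field_simp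
    rw [h4]
    field_simp
    ring
  have hψ : ∀ u : ℝ, h i ^ 2 < u ^ 2 → ∀ j ∈ S,
      0 ≤ arccos (ad n h i j / rr (h i) u) ∧ arccos (ad n h i j / rr (h i) u) ≤ π / 2 := by
    intro u hu j hj
    refine ⟨Real.arccos_nonneg _, Real.arccos_le_pi_div_two.mpr ?_⟩
    exact (div_pos (hap j hj) (hrr u hu).2).le
  refine ⟨hc6, hSR, ?_, ?_⟩
  · have h2 : ∑ j ∈ S, (π / 3 + 0.472 * (arccos (ad n h i j / rr (h i) R) - 0.39)) ≤
        ∑ j ∈ S, arccos (Dq (h i) (h j) ⟪n i, n j⟫ - 1 - 0.48 * (h i ^ 2 - 1)) := by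
      apply Finset.sum_le_sum
      intro j hj
      have hp := hψ R hyR j hj
      have h5 := R_sq_lo
      have h6 := R_sq_hi
      exact six_one (Q := R ^ 2) hy1 hyR (by nlinarith [hD4 j hj]) (by linarith)
        (by nlinarith [sq_nonneg (h i ^ 2 - 1.142)]) (hcos R hyR j hj (hSR j hj)) rfl
        hp.1 hp.2 (by norm_num) (by norm_num) (by norm_num) (by norm_num)
        (fun x hx0 hx8 => (htg x hx0 hx8).1)
    have h3 := h2.trans hB
    rw [Finset.sum_add_distrib, Finset.sum_const, ← Finset.mul_sum, Finset.sum_sub_distrib,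
      Finset.sum_const, hc6, nsmul_eq_mul, nsmul_eq_mul] at h3
    norm_num at h3 ⊢
    linarith
  · have h2 : ∑ j ∈ S, (π / 3 + 0.577 * (arccos (ad n h i j / rr (h i) RO) - 0.465)) ≤
        ∑ j ∈ S, arccos (Dq (h i) (h j) ⟪n i, n j⟫ - 1 - 0.48 * (h i ^ 2 - 1)) := by
      apply Finset.sum_le_sum
      intro j hj
      have hyO' : h i ^ 2 < RO ^ 2 := by rw [RO_sq]; exact hyO
      have hp := hψ RO hyO' j hj
      have hc := hcos RO hyO' j hj (hS j hj).2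
      rw [RO_sq] at hc
      exact six_one (Q := 13 / 8) hy1 hyO (by nlinarith [hD4 j hj]) (by linarith)
        (by nlinarith [sq_nonneg (h i ^ 2 - 1.12)]) hc rfl
        hp.1 hp.2 (by norm_num) (by norm_num) (by norm_num) (by norm_num)
        (fun x hx0 hx8 => by
          have := (htg x hx0 hx8).2
          norm_num at this ⊢
          linarith)
    have h3 := h2.trans hB
    rw [Finset.sum_add_distrib, Finset.sum_const, ← Finset.mul_sum, Finset.sum_sub_distrib,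
      Finset.sum_const, hc6, nsmul_eq_mul, nsmul_eq_mul] at h3
    norm_num at h3 ⊢
    linarith

end Pool.Agent.SDL
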