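import Pool.Agent.SDL.Targets2

set_option autoImplicit false

/-!
# SDL: `TAJ`, the contribution of a side of a facet with six sides
-/

open MeasureTheory Set Real
open scoped RealInnerProductSpace

namespace Pool.Agent.SDL

open Pool.Agent.SDC

private theorem taj_rr_sq (h u : ℝ) (hh : 0 < h) (hu : h ≤ u) :
    rr h u ^ 2 = u ^ 2 / h ^ 2 - 1 := by
  unfold rr
  apply Real.sq_sqrt
  have h1 : 1 ≤ u ^ 2 / h ^ 2 := by
    rw [le_div_iff₀ (by positivity)]
    nlinarith
  linarith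

private theorem taj_cc (h u : ℝ) (hh : 0 < h) (hu : h ≤ u) : h * cc (rr h u) = u := by
  have h1 : cc (rr h u) = u / h := by
    unfold cc
    rw [taj_rr_sq h u hh hu, show 1 + (u ^ 2 / h ^ 2 - 1) = (u / h) ^ 2 by rw [div_pow]; ring]
    exact Real.sqrt_sq (div_nonneg (hh.le.trans hu) hh.le)
  rw [h1]
  field_simp

/-- If `h cc r ≤ u` then `r ≤ rr h u`. -/
private theorem taj_le (h u r : ℝ) (hh : 0 < h) (hu : h ≤ u) (_ : 0 ≤ r)
    (hc : h * cc r ≤ u) : r ≤ rr h u := by
  have h1 := taj_rr_sq h u hh hu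
  have h2 : 0 ≤ rr h u := Real.sqrt_nonneg _
  have h3 : (h * cc r) ^ 2 ≤ u ^ 2 := by
    have h4 := cc_pos r
    have h5 : 0 ≤ h * cc r := by positivity
    nlinarith
  rw [mul_pow, cc_sq] at h3
  have h6 : 1 + r ^ 2 ≤ u ^ 2 / h ^ 2 := by
    rw [le_div_iff₀ (by positivity)]
    linarith
  nlinarith

/-- The angle. -/
private theorem taj_arc (a ψ ρ : ℝ) (ha : 0 < a) (h0 : 0 < ψ) (h1 : ψ < π / 2)
    (h : a / cos ψ ≤ ρ) : ψ ∈ Ioc 0 (arccos (a / ρ)) := by
  have hc : 0 < cos ψ := cos_pos_of_mem_Ioo ⟨by linarith, h1⟩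
  have hρ : 0 < ρ := lt_of_lt_of_le (by positivity) h
  refine ⟨h0, ?_⟩
  have h2 : a / ρ ≤ cos ψ := by
    rw [div_le_iff₀ hρ]
    rw [div_le_iff₀ hc] at h
    linarith
  have h3 := Real.arccos_le_arccos h2
  rwa [Real.arccos_cos h0.le (by linarith [Real.pi_pos])] at h3

private theorem taj_int (c A : ℝ) (hc : 0 ≤ c) :
    ∫ ψ, (Ioc (0 : ℝ) c).indicator (fun _ => A) ψ = A * c := by
  rw [integral_indicator measurableSet_Ioc, setIntegral_const]
  simp [hc, mul_comm]

private theorem taj_intble (c A : ℝ) :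
    Integrable (fun ψ => (Ioc (0 : ℝ) c).indicator (fun _ => A) ψ) := by
  rw [integrable_indicator_iff measurableSet_Ioc]
  exact integrableOn_const (by simp)

theorem p_TAJ (hhb : T_HB) (hbm : T_BM) : T_TAJ := by
  intro t h gM a ht htR hh hhR hg hM ha
  have hh0 : 0 < h := by linarith
  have hhO : h ≤ RO := by linarith [R_lt_RO]
  have hbmt := hbm t ht htR
  have hDl : 0 ≤ Dl t := by
    unfold Dl
    have h1 := hbmt (show R ∈ Ici R from le_refl R) (show RO ∈ Ici R from R_lt_RO.le) R_lt_RO.le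
    linarith
  set A : ℝ := h * gM with hA
  set B : ℝ := h * Dl t with hB
  have hA0 : 0 ≤ A := by positivity
  have hB0 : 0 ≤ B := by positivity
  set c1 : ℝ := arccos (a / rr h R) with hc1
  set c2' : ℝ := arccos (a / rr h RO) with hc2
  have hc10 : 0 ≤ c1 := arccos_nonneg _
  have hc20 : 0 ≤ c2' := arccos_nonneg _
  let g : ℝ → ℝ := fun ψ => (Ioc (0 : ℝ) c1).indicator (fun _ => A) ψ +
    (Ioc (0 : ℝ) c2').indicator (fun _ => B) ψ
  have hgi : Integrable g := (taj_intble c1 A).add (taj_intble c2' B)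
  have hg0 : ∀ ψ, 0 ≤ g ψ := by
    intro ψ
    have h1 : 0 ≤ (Ioc (0 : ℝ) c1).indicator (fun _ => A) ψ :=
      indicator_nonneg (fun _ _ => hA0) ψ
    have h2 : 0 ≤ (Ioc (0 : ℝ) c2').indicator (fun _ => B) ψ :=
      indicator_nonneg (fun _ _ => hB0) ψ
    exact add_nonneg h1 h2
  have hrro : 0 ≤ rr h RO := Real.sqrt_nonneg _
  have key : ∀ ψ ∈ Ioo (0 : ℝ) (π / 2),
      max (HH t h (rr h RO) - HH t h (a / cos ψ)) 0 ≤ g ψ := by
    intro ψ hψ
    have hc : 0 < cos ψ := cos_pos_of_mem_Ioo ⟨by linarith [hψ.1, Real.pi_pos], hψ.2⟩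
    have hr : 0 < a / cos ψ := by positivity
    have e1 := hhb t h (rr h RO) (by linarith) hh0 hrro
    have e2 := hhb t h (a / cos ψ) (by linarith) hh0 hr.le
    rw [taj_cc h RO hh0 hhO] at e1
    have e3 : HH t h (rr h RO) - HH t h (a / cos ψ) =
        h * (bb t RO - bb t (h * cc (a / cos ψ))) := by
      rw [e1, e2]
      ring
    rw [e3]
    set ρ : ℝ := h * cc (a / cos ψ) with hρ
    have hρ1 : 1 ≤ ρ := by
      have h1 := cc_one (a / cos ψ)
      nlinarith
    apply max_le _ (hg0 ψ)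
    rcases le_or_gt ρ R with h1 | h1
    · have m1 : ψ ∈ Ioc 0 c1 :=
        taj_arc a ψ _ ha hψ.1 hψ.2 (taj_le h R _ hh0 hhR hr.le h1)
      have m2 : ψ ∈ Ioc 0 c2' :=
        taj_arc a ψ _ ha hψ.1 hψ.2 (taj_le h RO _ hh0 hhO hr.le (by linarith [R_lt_RO]))
      have e4 : g ψ = A + B := by
        simp only [g, indicator_of_mem m1, indicator_of_mem m2]
      rw [e4, hA, hB, ← mul_add]
      apply mul_le_mul_of_nonneg_left _ hh0.le
      have h2 := hM ρ hρ1 h1
      unfold Dl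
      linarith
    · rcases le_or_gt ρ RO with h2 | h2
      · have m2 : ψ ∈ Ioc 0 c2' :=
          taj_arc a ψ _ ha hψ.1 hψ.2 (taj_le h RO _ hh0 hhO hr.le h2)
        have e4 : B ≤ g ψ := by
          have h3 : 0 ≤ (Ioc (0 : ℝ) c1).indicator (fun _ => A) ψ :=
            indicator_nonneg (fun _ _ => hA0) ψ
          simp only [g, indicator_of_mem m2]
          linarith
        apply le_trans _ e4
        rw [hB]
        apply mul_le_mul_of_nonneg_left _ hh0.le
        have h3 := hbmt (show R ∈ Ici R from le_refl R) (show ρ ∈ Ici R from h1.le) h1.le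
        unfold Dl
        linarith
      · have h3 := hbmt (show RO ∈ Ici R from R_lt_RO.le)
          (show ρ ∈ Ici R from h1.le) h2.le
        apply le_trans _ (hg0 ψ)
        have h4 : bb t RO - bb t ρ ≤ 0 := by linarith
        exact mul_nonpos_of_nonneg_of_nonpos hh0.le h4
  rw [intervalIntegral.integral_of_le (by positivity), integral_Ioc_eq_integral_Ioo]
  have s1 : ∫ ψ in Ioo (0 : ℝ) (π / 2), max (HH t h (rr h RO) - HH t h (a / cos ψ)) 0 ≤
      ∫ ψ in Ioo (0 : ℝ) (π / 2), g ψ := by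
    apply integral_mono_of_nonneg
    · exact ae_of_all _ (fun ψ => le_max_right _ _)
    · exact hgi.integrableOn
    · exact ae_restrict_of_forall_mem measurableSet_Ioo key
  have s2 : ∫ ψ in Ioo (0 : ℝ) (π / 2), g ψ ≤ ∫ ψ, g ψ :=
    setIntegral_le_integral hgi (ae_of_all _ hg0)
  have s3 : ∫ ψ, g ψ = A * c1 + B * c2' := by
    simp only [g]
    rw [integral_add (taj_intble c1 A) (taj_intble c2' B), taj_int c1 A hc10,
      taj_int c2' B hc20]
  have s4 : h * (gM * c1 + Dl t * c2') = A * c1 + B * c2' := by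
    rw [hA, hB]
    ring
  rw [s4, ← s3]
  exact s1.trans s2

end Pool.Agent.SDL
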