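import Pool.Agent.SDL.Targets

set_option autoImplicit false

/-!
# SDL targets, parts B (geometry of the sides), C (one facet), D (assembly), E (lattices).
The proof of every target is in its docstring.
-/

open MeasureTheory Set Real
open scoped RealInnerProductSpace

namespace Pool.Agent.SDL

open Pool.Agent.SDC

/-! ## Part B: geometry of the sides -/

/-- The square of the distance from the origin of the line where the planes at distance `h` and `p`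
with normals of inner product `α` meet. -/
noncomputable def Dq (h p α : ℝ) : ℝ := (h ^ 2 + p ^ 2 - 2 * h * p * α) / (1 - α ^ 2)

/-- GAP. Two neighbours of a facet. `α, β` = the inner products of the normal of the facet with the
two neighbours, `δ` = the inner product of the neighbours. PROOF. Put `P = 2p²-2hpα`,
`X = 2hpα - h²`, `m = 2 - h²`, `a = P - m`, `s = 2p√(1-α²)`; the same for the second neighbour:
`P', X', a', s'` with `q, β`. (1) `a - X = 2p²-4hpα+2h²-2 ≥ 0`, `a + X = 2p²-2 ≥ 0`: `|X| ≤ a`.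
(2) `4pq(δ-αβ) ≤ 2p²+2q²-2-4pqαβ = P + P' - m - X X'/h² ≤ a + a' + m + a a'/h² =
(a+h²)(a'+h²)/h² - (2h²-2)`. (3) `s² = 2P + h² - X²/h²`, ` (Dq h p α) s² = h²s² + P²`, so
` (Dq-1)s² = P² + (h²-1)(2P + h² - X²/h²) ≥ P² + (h²-1)(2P + h² - a²/h²) = (a+h²)²/h²` (identity,
`P = a + 2 - h²`). So `0 ≤ (a+h²)/h ≤ √(Dq-1) s` and
`4pq(δ-αβ) ≤ √(Dq-1)√(Dq'-1) s s' - (2h²-2) ≤ ((Dq+Dq')/2 - 1) s s' - (2h²-2)`,
`s s' = 4pq√(1-α²)√(1-β²)`. This is the first part. (4) If `Dq < R²`, put `A = P/s > 0`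
(`P ≥ m > 0`), `Dq = h² + A²`, ` (s-A)² ≤ (s-A)² + (2pα-h)² = Dq`, so `s ≤ A + √Dq ≤ rv + R ≤
2.0225` (`A² = Dq - h² ≤ R² - 1`). The same for `s'`; `2 (h²-1)/(s s') ≥ 0.48 (h²-1)`. -/
def T_GAP : Prop := ∀ h p q α β δ : ℝ, 1 ≤ h → h < RO → 1 ≤ p → 1 ≤ q → α ^ 2 < 1 → β ^ 2 < 1 →
  1 ≤ h ^ 2 + p ^ 2 - 2 * h * p * α → 1 ≤ h ^ 2 + q ^ 2 - 2 * h * q * β →
  1 ≤ p ^ 2 + q ^ 2 - 2 * p * q * δ →
  δ - α * β ≤ √(1 - α ^ 2) * √(1 - β ^ 2) * ((Dq h p α + Dq h q β) / 2 - 1) ∧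
  (Dq h p α < R ^ 2 → Dq h q β < R ^ 2 → δ - α * β ≤
    √(1 - α ^ 2) * √(1 - β ^ 2) * ((Dq h p α + Dq h q β) / 2 - 1 - 0.48 * (h ^ 2 - 1)))

/-- DMN. PROOF. With the letters of GAP: `Dq = h² + P²/s²`, `s² ≤ 2P + h²`, `P ≥ m + |X| ≥ m > 0`,
`P²/(2P+h²)` is monotone in `P > 0`, so `Dq ≥ h² + (2-h²)²/(4-h²) = 4/(4-h²) > 1`. Next,
`h²(1 + (p/h-α)²/(1-α²)) = Dq` (identity). `2hpα ≤ h²+p²-1 < 2p²`, as `h² - 1 < 5/8 < p²`. -/
def T_DMN : Prop := ∀ h p α : ℝ, 1 ≤ h → h < RO → 1 ≤ p → α ^ 2 < 1 →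
  1 ≤ h ^ 2 + p ^ 2 - 2 * h * p * α →
  4 / (4 - h ^ 2) ≤ Dq h p α ∧ 1 < Dq h p α ∧ h * α < p ∧
    h ^ 2 * (1 + ((p / h - α) / √(1 - α ^ 2)) ^ 2) = Dq h p α

/-- ARC. Disjoint arcs. PROOF. `ψ j = arccos (z j) ∈ (0, π/2)`. Let
`C j = {x | cos (x - θ j) > cos (ψ j/2)}`, with period `2π`, and `volume (C j ∩ Ioc (-π) π) = ψ j`
(translate: periodicity of the integral of the indicator; for `θ = 0` it is ` (-ψ j/2, ψ j/2)`). The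
`C j`, `j ∈ S`, are disjoint: if `x ∈ C j ∩ C k` then modulo `2π`, `x - θ j` is `a` with `|a| <
ψ j/2` and `x - θ k` is `b` with `|b| < ψ k/2`, so `cos (θ j - θ k) = cos (b - a) >
cos ((ψ j + ψ k)/2) ≥ (cos (ψ j) + cos (ψ k))/2 = (z j + z k)/2` (the last inequality:
`cos x + cos y = 2 cos ((x+y)/2) cos ((x-y)/2)`). The sum of the measures is at most `2π`. -/
def T_ARC : Prop := ∀ (J : Type) (S : Finset J) (θ z : J → ℝ),
  (∀ j ∈ S, 0 < z j ∧ z j < 1) →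
  (∀ j ∈ S, ∀ k ∈ S, j ≠ k → cos (θ j - θ k) ≤ (z j + z k) / 2) →
  ∑ j ∈ S, arccos (z j) ≤ 2 * π

/-- TG. Two inequalities in one variable. PROOF. (First.) `f ψ = cos (π/3 + 0.472 (ψ-0.39)) -
(R²-1)(1 + cos 2ψ)/2`, `R² - 1 ∈ (0.583592, 0.5835926)`. `f(0.39) ≥ 0.00075`, `f'(0.39) =
-0.472 sin (π/3) + (R²-1) sin 0.78 ∈ [0.0015, 0.0018]`, `f'' = -0.472² cos(..) + 2(R²-1) cos 2ψ ≥ 0`
on `[0, 0.74]` (so there `f ≥ f(0.39) - 0.0018·0.39 > 0`), and `f' ≥ 0` on `[0.74, 0.8]`. The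
minimum of `f` is `0.00076`. The second is similar, with minimum `0.00068` near `0.465`. Or use
Taylor polynomials of `cos`, `sin` about `0` (`Real.cos_bound`, `Real.sin_bound`) on a subdivision
of `[0,0.8]` and the derivative bound. -/
def T_TG : Prop := ∀ ψ : ℝ, 0 ≤ ψ → ψ ≤ 0.8 →
  (R ^ 2 - 1) * cos ψ ^ 2 ≤ cos (π / 3 + 0.472 * (ψ - 0.39)) ∧
  5 / 8 * cos ψ ^ 2 ≤ cos (π / 3 + 0.577 * (ψ - 0.465))

/-- SIX (uses GAP, DMN, ARC, TG). At least six near sides. PROOF. Write `h = h i`, `α j =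
⟪n i,n j⟫`, `D j = Dq h (h j) (α j) = h²(1 + (ad n h i j)²)` (DMN), `4/(4-h²) ≤ D j < 13/8`. With a
frame (`p_ONB`) of `n i`, `⟪n j,n k⟫ - α j α k = √(1-α j²)√(1-α k²) cos (θ j - θ k)`. (1) GAP, first
part, and ARC for `z j = D j - 1 ∈ (0,5/8)`: `∑ j ∈ S, arccos (D j - 1) ≤ 2π`. If `7 ≤ card S`, the
sum is at least `6 arccos (R²-1) + arccos (5/8) > 2π` (`cos 0.947 > R²-1`, `cos 0.895 > 5/8`:
`6·0.947 + 0.895 = 6.577`). So `card S = 6`, `S' = S`. (2) ARC for `z j = D j - 1 -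
0.48 (h²-1) ∈ (0,1)` (GAP, second part; `z j > 0`: `h²/(4-h²) ≥ h²/3 > 0.48 (h²-1)`). Let
`ψ j = arccos (ad/rr h R)`, `cos²(ψ j) = (D j - h²)/(R² - h²)`, `sin²(ψ j) = (R²-D j)/(R²-h²) ≤
0.48` (as `R²(4-y) - 4 ≤ 0.48 (R²-y)(4-y)`, `y = h² ∈ [1,R²)`), so `ψ j ≤ 0.8` and
`z j = (R²-1) cos²(ψ j) + (h²-1)(0.52 - cos²(ψ j)) ≤ (R²-1) cos²(ψ j) ≤
cos (π/3 + 0.472 (ψ j-0.39))` (TG), `arccos (z j) ≥ π/3 + 0.472 (ψ j - 0.39)`. Sum: `2π ≥ 2π + 0.472 (∑ ψ j - 2.34)`. (3) The same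
with `R² , 0.472, 0.39` replaced by `13/8, 0.577, 0.465`; here `sin² ≤ 0.48` is
`0 ≤ 0.62 - 1.075 y + 0.48 y²`. -/
def T_SIX : Prop := ∀ (ι : Type) (n : ι → E3) (h : ι → ℝ) (i : ι) (S S' : Finset ι),
  Pck n h → h i < R → i ∉ S →
  (∀ j ∈ S, ⟪n i, n j⟫ ^ 2 < 1 ∧ ad n h i j < rr (h i) RO) →
  S' ⊆ S → 6 ≤ S'.card → (∀ j ∈ S', ad n h i j < rr (h i) R) →
  S.card = 6 ∧ (∀ j ∈ S, ad n h i j < rr (h i) R) ∧
    ∑ j ∈ S, arccos (ad n h i j / rr (h i) R) ≤ 2.34 ∧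
    ∑ j ∈ S, arccos (ad n h i j / rr (h i) RO) ≤ 2.79

/-! ## Part C: one facet -/

/-- FAX. One facet in the plane, with the foot inside. PROOF. As `T_FAC` (see `SDC/P_FAC.lean`), but
simpler. Let `I r = ∫ s in 0..r, g s * s`, `Q` = the set of all `w` which satisfy the constraints.
`p_FC3` (`nr w < ρ`). For a direction `ψ` outside of the finite set of `p_FC4` let
`b j = cos (ψ - θ j)`; `{s | 0 < s ∧ s < ρ ∧ ∀ j, s b j ≤ a j}` is ` (0,x)` or ` (0,x]` with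
`x = min ρ (min over b j > 0 of a j/b j) > 0`, so the inner integral is `I x`. If `x = ρ` it is
`≥ v`. Otherwise exactly one constraint `j` is tight at `w = x (cos ψ, sin ψ)`, `nr w = x < ρ`, so
`j ∈ S`, and `I x ≥ v - max (v - I x) 0 = v - Us g v (a j) (cos (ψ - θ j))`. So in all cases
`I x ≥ v - ∑ j ∈ S, Us g v (a j) (cos (ψ - θ j))`; integrate over ` (-π,π)` with `p_FC2`. -/
def T_FAX : Prop := ∀ (J : Type) [Fintype J] (θ a : J → ℝ) (ρ v : ℝ) (τ : J → ℝ) (g : ℝ → ℝ)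
  (S : Finset J), Continuous g → 0 < ρ → (∀ j, 0 < a j) →
  (∀ r, ρ ≤ r → v ≤ ∫ s in (0 : ℝ)..r, g s * s) →
  (∀ j ∈ S,
    ∫ ψ in (0 : ℝ)..(π / 2), max (v - ∫ s in (0 : ℝ)..(a j / cos ψ), g s * s) 0 ≤ τ j) →
  (∀ j, (∃ w : ℝ × ℝ, nr w < ρ ∧ w.1 * cos (θ j) + w.2 * sin (θ j) = a j ∧
      ∀ k, k ≠ j → w.1 * cos (θ k) + w.2 * sin (θ k) < a k) → j ∈ S) →
  (∀ j k, j ≠ k → ∀ w w' : ℝ × ℝ, (∀ l, w.1 * cos (θ l) + w.2 * sin (θ l) ≤ a l) →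
    (∀ l, w'.1 * cos (θ l) + w'.2 * sin (θ l) ≤ a l) →
    w.1 * cos (θ j) + w.2 * sin (θ j) = a j →
    w.1 * cos (θ k) + w.2 * sin (θ k) = a k → w'.1 * cos (θ j) + w'.2 * sin (θ j) = a j →
    w'.1 * cos (θ k) + w'.2 * sin (θ k) = a k → w = w') →
  2 * π * v - 2 * ∑ j ∈ S, τ j ≤
    ∫ w in {w : ℝ × ℝ | (∀ l, w.1 * cos (θ l) + w.2 * sin (θ l) ≤ a l) ∧ nr w < ρ}, g (nr w)

/-- FCX (uses FAX). One facet in space. PROOF. As `T_FCT` (see `SDC/P_FCT.lean`), with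
`J = {j // j ≠ i ∧ n j ≠ - n i}`, `a j = ad n h i j > 0` (by the hypothesis on the foot). For
`0 ≤ r`, `h i * cc r < ϱ ↔ r < rr (h i) ϱ`, and `0 < rr (h i) ϱ`. If only the constraint `j` of `J`
is tight at `w`, `nr w < rr (h i) ϱ`, then `x = h i (n i + w.1 e + w.2 f)` has norm
`h i * cc (nr w) < ϱ` and shows `NS n h i ϱ j`. Every `τ j`, `j ∈ S`, is `≥ 0` (an integral of a
nonnegative function is a lower bound), so the sum over `{j ∈ S | j ∈ J}` is at most the sum over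
`S`. -/
def T_FCX : Prop := ∀ (ι : Type) [Fintype ι] (n : ι → E3) (h : ι → ℝ) (i : ι) (e f : E3)
  (ϱ v : ℝ) (τ : ι → ℝ) (g : ℝ → ℝ) (S : Finset ι), (∀ i, ‖n i‖ = 1) → (∀ i, 0 < h i) →
  Irr n h → Onb (n i) e f → Continuous g → h i < ϱ →
  (∀ j, j ≠ i → h i * ⟪n i, n j⟫ < h j) →
  (∀ r, rr (h i) ϱ ≤ r → v ≤ ∫ s in (0 : ℝ)..r, g s * s) →
  (∀ j ∈ S,
    ∫ ψ in (0 : ℝ)..(π / 2), max (v - ∫ s in (0 : ℝ)..(ad n h i j / cos ψ), g s * s) 0 ≤ τ j) →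
  (∀ j, NS n h i ϱ j → j ∈ S) →
  2 * π * v - 2 * ∑ j ∈ S, τ j ≤
    ∫ w in {w | w ∈ Qs n h i e f ∧ h i * cc (nr w) < ϱ}, g (nr w)

/-- TAJ (uses HB, BM). The contribution of a side of a facet with six sides. PROOF. For
`0 ≤ ψ < π/2` let `r = a/cos ψ`, `ρ = h cc r ≥ 1`. By HB (`h cc (rr h RO) = RO`) the integrand is
`max (h (bb t RO - bb t ρ)) 0`. It is `≤ h (gM + Dl t)` if `ρ ≤ R`, `≤ h Dl t` if `R ≤ ρ ≤ RO` (BM),
and `0` if `ρ ≥ RO` (BM). `ρ ≤ R ↔ r ≤ rr h R ↔ ψ ≤ arccos (a/rr h R)`, the same for `RO`. (The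
value at `ψ = π/2` is irrelevant. The left integrand is continuous on `[0,π/2)` and bounded.) -/
def T_TAJ : Prop := ∀ t h gM a : ℝ, 1 ≤ t → t < R → 1 ≤ h → h ≤ R → 0 ≤ gM →
  (∀ ρ, 1 ≤ ρ → ρ ≤ R → bb t R - bb t ρ ≤ gM) → 0 < a →
  ∫ ψ in (0 : ℝ)..(π / 2), max (HH t h (rr h RO) - HH t h (a / cos ψ)) 0 ≤
    h * (gM * arccos (a / rr h R) + Dl t * arccos (a / rr h RO))

/-- NSF (uses DMN). Facts about the sides. PROOF. Foot: DMN or directly. If `NS n h i ϱ j` then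
`⟪n i,n j⟫² < 1`: otherwise `n j = ± n i` (norms); `n j = n i` contradicts the foot inequalities
or `Irr`; `n j = - n i` gives `h j = - h i`. The point `x` of `NS` has `⟪n i,x⟫ = h i`,
`⟪n j,x⟫ = h j`, so `‖x‖² ≥ Dq (h i) (h j) ⟪n i,n j⟫ = h i² (1 + ad²)` (the Gram determinant of
`n i, n j, x` is `≥ 0`, or Cauchy-Schwarz with `n i` and the normalized `n j - α n i`), hence
`ad < rr (h i) ϱ`. -/
def T_NSF : Prop := ∀ (ι : Type) (n : ι → E3) (h : ι → ℝ) (i j : ι), Pck n h → Irr n h →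
  h i < RO → i ≠ j → h i * ⟪n i, n j⟫ < h j ∧ 0 ≤ ad n h i j ∧
    ∀ ϱ, NS n h i ϱ j → ⟪n i, n j⟫ ^ 2 < 1 ∧ 0 < ad n h i j ∧ ad n h i j < rr (h i) ϱ

/-- FBA (uses FCX, DSC, NSF). High facets. PROOF. FCX with `g = G t κ β (h i)`, `ϱ = RO`,
`v = - (β/6) max (wt (h i)) 0`, `S = univ`, `τ = 0`: by DSC `v ≤ HH t (h i) r` for all `r ≥ 0`
(`H` is the integral by definition), and `ad / cos ψ ≥ 0` (`NSF`; `ad n h i i = 0`). `2πv` is the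
left side. -/
def T_FBA : Prop := ∀ (ι : Type) [Fintype ι] (n : ι → E3) (h : ι → ℝ) (i : ι) (e f : E3)
  (t : ℝ), Pck n h → Irr n h → Onb (n i) e f → 1 ≤ t → t < R → h i < RO → t ≤ h i →
  1.02 ≤ h i → - (π / 3 * bet t * max (wt (h i)) 0) ≤
    ∫ w in {w | w ∈ Qs n h i e f ∧ h i * cc (nr w) < RO}, G t (kap t) (bet t) (h i) (nr w)

/-- FBB (uses FCX, CB, NSF). Low facets with at most five near sides. PROOF. `ρ', τ'` of CB for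
`h = h i`; FCX with `g = G t κ β h`, `ϱ = RO`, `v = HH t h ρ'`, the given `S`, and `τ j = τ'` for
`j ∈ S'`, `τ j = 0` for `j ∈ S`, `j ∉ S'`. As `0 ≤ G` at `ρ'`, `0 ≤ G` on `[ρ',∞)` (`p_SGN`,
`tKAP`, `tBET`), so `v ≤ HH t h r` for all `r ≥ ρ'`, and `ρ' ≤ rr h R ≤ rr h RO`; for `j ∉ S'`,
`ad ≥ rr h R ≥ ρ'`, so the integrand vanishes for `ψ < π/2`. Result `≥ 2πv - 10 τ' ≥
- (π/3) β wt h`. -/
def T_FBB : Prop := ∀ (ι : Type) [Fintype ι] (n : ι → E3) (h : ι → ℝ) (i : ι) (e f : E3)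
  (t : ℝ) (S S' : Finset ι), Pck n h → Irr n h → Onb (n i) e f → 1 ≤ t → t < R →
  (h i < t ∨ h i < 1.02) → (∀ j, NS n h i RO j ↔ j ∈ S) → S' ⊆ S → S'.card ≤ 5 →
  (∀ j ∈ S, j ∉ S' → rr (h i) R ≤ ad n h i j) →
  - (π / 3 * bet t * max (wt (h i)) 0) ≤
    ∫ w in {w | w ∈ Qs n h i e f ∧ h i * cc (nr w) < RO}, G t (kap t) (bet t) (h i) (nr w)

/-- FBC (uses FCX, CB, HB, SIX, TAJ, C1, C2, NSF). Low facets with at least six near sides. PROOF.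
`h = h i < R`. SIX (hypotheses by NSF; `i ∉ S`). `gM` of C1. FCX with `g = G t κ β h`, `ϱ = RO`,
`v = HH t h (rr h RO)`, `τ j = h (gM arccos (ad/rr h R) + Dl t arccos (ad/rr h RO))` (TAJ). For
`r ≥ rr h RO`: `v ≤ HH t h r`, as `0 ≤ G` at `ρ'` of CB, `ρ' ≤ rr h R ≤ rr h RO`, `p_SGN`. So the
integral is `≥ 2πv - 2h (2.34 gM + 2.79 Dl t)` (`0 ≤ Dl t` by BM or from the definition), and
`v = HH t h (rr h R) + h Dl t` (HB). C2. -/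
def T_FBC : Prop := ∀ (ι : Type) [Fintype ι] (n : ι → E3) (h : ι → ℝ) (i : ι) (e f : E3)
  (t : ℝ) (S S' : Finset ι), Pck n h → Irr n h → Onb (n i) e f → 1 ≤ t → t < R →
  (h i < t ∨ h i < 1.02) → (∀ j, NS n h i RO j ↔ j ∈ S) → S' ⊆ S → 6 ≤ S'.card →
  (∀ j ∈ S', ad n h i j < rr (h i) R) →
  - (π / 3 * bet t * max (wt (h i)) 0) ≤
    ∫ w in {w | w ∈ Qs n h i e f ∧ h i * cc (nr w) < RO}, G t (kap t) (bet t) (h i) (nr w)

/-- FBD (uses FBA, FBB, FBC). Every facet. PROOF. If `h i ≥ RO` the region is empty (`cc ≥ 1`) and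
the left side is `≤ 0` (`tBET`). Otherwise FBA, or `S` = the set of the `j` with `NS n h i RO j`
(classical), `S'` = the set of the `j ∈ S` with `ad n h i j < rr (h i) R`, and FBB or FBC. -/
def T_FBD : Prop := ∀ (ι : Type) [Fintype ι] (n : ι → E3) (h : ι → ℝ) (i : ι) (e f : E3)
  (t : ℝ), Pck n h → Irr n h → Onb (n i) e f → 1 ≤ t → t < R →
  - (π / 3 * bet t * max (wt (h i)) 0) ≤
    ∫ w in {w | w ∈ Qs n h i e f ∧ h i * cc (nr w) < RO}, G t (kap t) (bet t) (h i) (nr w)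

/-! ## Part D: assembly -/

/-- MX1 (uses FBD). PROOF. As `T_MA1` (see `SDC/P_MA1.lean`), with `tSUM` for `ϱ = RO`, `κ = kap t`,
`β = bet t`, frames by `p_ONB`: the last bracket is `≥ 0`, as `t³ + β ≤ (1-κ)R³ ≤ (1-κ)RO³`
(`tBET`), and by FBD `4πβ + ∑ .. ≥ 4πβ - (π/3) β ∑ i, max (wt (h i)) 0 ≥ 0`. `n` is injective by
`Irr`. -/
def T_MX1 : Prop := ∀ (ι : Type) [Fintype ι] (n : ι → E3) (h : ι → ℝ), Pck n h → Irr n h →
  ∑ i, max (wt (h i)) 0 ≤ 12 → ∀ t : ℝ, 1 ≤ t → t < R →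
  (volume (Poly n h ∩ Metric.closedBall 0 t)).toReal ≤
    (1 - kap t) * (volume (Poly n h ∩ Metric.closedBall 0 RO)).toReal

/-- MX3 (uses MX1). PROOF. First `p_IRR` removes the hypothesis `Irr` of MX1 (the subfamily
satisfies `Pck`, and the sum gets smaller, the terms are `≥ 0`). Then as `T_MA3` (see
`SDC/P_MA3.lean`), with `RO` for `R` in the hypothesis on `K` (`tDOD`). -/
def T_MX3 : Prop := ∀ (ι : Type) [Fintype ι] (n : ι → E3) (h : ι → ℝ), Pck n h →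
  ∑ i, max (wt (h i)) 0 ≤ 12 → ∀ (K : Set E3),
  K ∩ Metric.closedBall 0 RO = Poly n h ∩ Metric.closedBall 0 RO → ∀ t : ℝ, 1 ≤ t →
  volume (K ∩ Metric.closedBall 0 t) / volume K ≤
    volume (Dod ∩ Metric.closedBall 0 t) / volume Dod

/-- The packing inequality for the cell of `c`, for the radius `1 + r`. -/
def Ineq (X : Set E3) (c : E3) (r : ℝ) : Prop :=
  volume ({x : E3 | ∀ y ∈ X, dist x c ≤ dist x y} ∩ Metric.closedBall c (1 + r))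
      / volume {x : E3 | ∀ y ∈ X, dist x c ≤ dist x y}
    ≤ volume (Dod ∩ Metric.closedBall (0 : E3) (1 + r)) / volume Dod

/-- VX (uses MX3). PROOF. As `T_VOR` (see `SDC/P_VOR.lean`). Index type: the subtype of `S`,
`n y = (y-c)/‖y-c‖`, `h y = ‖y-c‖/2 ≥ 1`; `h i² + h j² - 2 h i h j ⟪n i,n j⟫ = ‖y i - y j‖²/4`. -/
def T_VX : Prop := ∀ (X : Set E3), (∀ x ∈ X, ∀ y ∈ X, x ≠ y → (2 : ℝ) ≤ dist x y) →
  ∀ c ∈ X, ∀ S : Finset E3, (∀ y ∈ S, y ∈ X) → c ∉ S →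
  ∑ y ∈ S, max (wt (dist y c / 2)) 0 ≤ 12 →
  (∀ x, dist x c ≤ RO → (∀ y ∈ S, dist x c ≤ dist x y) → ∀ y ∈ X, dist x c ≤ dist x y) →
  ∀ r : ℝ, 0 ≤ r → Ineq X c r

/-- NW (uses VX, WT). PROOF. The set `{y ∈ X | y ≠ c ∧ dist y c < 2 RO}` is finite (`p_FIN`), VX for
it; the terms with `dist y c ≥ 2R` vanish (`wt` is antitone, `wt R = 0`), for the others `wt ≥ 0`.
If `dist x c ≤ RO` and `2 RO ≤ dist y c` then `dist x y ≥ RO ≥ dist x c`. -/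
def T_NW : Prop := ∀ (X : Set E3), (∀ x ∈ X, ∀ y ∈ X, x ≠ y → (2 : ℝ) ≤ dist x y) →
  ∀ c ∈ X, (∀ S : Finset E3, (∀ y ∈ S, y ∈ X ∧ y ≠ c ∧ dist y c < 2 * R) →
    ∑ y ∈ S, wt (dist y c / 2) ≤ 12) →
  ∀ r : ℝ, 0 ≤ r → Ineq X c r

/-! ## Part E: lattices -/

/-- A superbase of `L` (four vectors of `L` with sum zero which generate `L`). -/
def SB (L : AddSubgroup E3) (v : Fin 4 → E3) : Prop :=
  (∀ i, v i ∈ L) ∧ ∑ i, v i = 0 ∧ ∀ w ∈ L, ∃ a : Fin 4 → ℤ, w = ∑ i, a i • v i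

/-- LSB. Every lattice of rank three has a superbase. PROOF. `L` is discrete (norms `≥ 2`), so with
`DiscreteTopology L` and `IsZLattice ℝ L` for the corresponding `Submodule ℤ E3`, it is free of rank
`3 = finrank E3` (`ZLattice.module_free`, `ZLattice.rank`), with a basis `b 0, b 1, b 2`; take
`v i = b i`, `v 3 = - b 0 - b 1 - b 2`. -/
def T_LSB : Prop := ∀ L : AddSubgroup E3, (∀ v ∈ L, v ≠ 0 → 2 ≤ ‖v‖) →
  Submodule.span ℝ (L : Set E3) = ⊤ → ∃ v, SB L v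

/-- OSB (uses LSB). Selling: there is an obtuse superbase. PROOF. For given `C` there are finitely
many `v` with `SB L v` and `∑ i, ‖v i‖² ≤ C` (finitely many points of `L` in a ball: `p_FIN`). So
there is a superbase `v` with the smallest `∑ i, ‖v i‖²`. If `⟪v i,v j⟫ > 0` for some `i ≠ j`, let
`v' i = - v i`, `v' j = v j`, `v' k = v k + v i` for the other two `k`. This is a superbase and
`∑ ‖v'‖² = ∑ ‖v‖² + 2‖v i‖² + 2⟪v i, v k + v l⟫ = ∑ ‖v‖² - 2⟪v i,v j⟫`. -/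
def T_OSB : Prop := ∀ L : AddSubgroup E3, (∀ v ∈ L, v ≠ 0 → 2 ≤ ‖v‖) →
  Submodule.span ℝ (L : Set E3) = ⊤ → ∃ v, SB L v ∧ ∀ i j, i ≠ j → ⟪v i, v j⟫ ≤ 0

/-- LVC. The cell is determined by the fourteen vectors `∑ i ∈ A, v i`. PROOF. Let `w ∈ L`,
`w = ∑ a i • v i`; subtract `min a` from all `a i` (`∑ v i = 0`), so `a i ≥ 0` and some `a i = 0`.
Induction on `∑ a i`: if all `a i = 0` then `w = 0`. Otherwise `A = {i | 1 ≤ a i}` is nonempty and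
proper, `w = w' + V`, `V = ∑ i ∈ A, v i`, `w' = ∑ i ∈ A, (a i - 1) • v i`, and
`⟪w',V⟫ = - ⟪w', ∑ j ∉ A, v j⟫ = - ∑ i ∈ A, ∑ j ∉ A, (a i - 1)⟪v i,v j⟫ ≥ 0`. By induction
`⟪x,w'⟫ ≤ ‖w'‖²/2`, so `⟪x,w⟫ ≤ (‖w'‖² + ‖V‖²)/2 ≤ ‖w‖²/2`. -/
def T_LVC : Prop := ∀ (L : AddSubgroup E3) (v : Fin 4 → E3), SB L v →
  (∀ i j, i ≠ j → ⟪v i, v j⟫ ≤ 0) → ∀ x : E3,
  (∀ A : Finset (Fin 4), A ≠ ∅ → A ≠ Finset.univ →
    ⟪x, ∑ i ∈ A, v i⟫ ≤ ‖∑ i ∈ A, v i‖ ^ 2 / 2) →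
  ∀ w ∈ L, ⟪x, w⟫ ≤ ‖w‖ ^ 2 / 2

/-- LWT (uses WT). The weights of the fourteen vectors. PROOF. Let `N A = ‖∑ i ∈ A, v i‖²`;
`N A = N Aᶜ`. For `A` nonempty, proper: `∑ i ∈ A, v i ≠ 0` (otherwise `v` would satisfy two
independent linear relations, and the span of `L`, which is the span of the four `v i`, would have
dimension `≤ 2`), so `N A ≥ 4`. `N {0,1} + N {0,2} + N {0,3} = N {0} + N {1} + N {2} + N {3} ≥ 16`
(expand; `v 1 + v 2 + v 3 = - v 0`). By WT `f A := max (wt (√(N A)/2)) 0 ≤ max ((8 - N A)/4) 0 ≤ 1`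
(for `N A ≥ 8`, `√(N A)/2 ≥ √2 ≥ R`, so `wt ≤ 0`). The three `f {0,j}` have the sum `≤ 2` (if all
three `N ≤ 8`: ` (24 - 16)/4`; otherwise one is `0`), the four `f {i}` have the sum `≤ 4`. The
fourteen terms are twice these seven. -/
def T_LWT : Prop := ∀ (L : AddSubgroup E3) (v : Fin 4 → E3), SB L v →
  (∀ v ∈ L, v ≠ 0 → 2 ≤ ‖v‖) → Submodule.span ℝ (L : Set E3) = ⊤ →
  (∀ A : Finset (Fin 4), A ≠ ∅ → A ≠ Finset.univ → ∑ i ∈ A, v i ≠ 0) ∧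
  ∑ A ∈ (Finset.univ : Finset (Finset (Fin 4))).filter (fun A => A ≠ ∅ ∧ A ≠ Finset.univ),
    max (wt (‖∑ i ∈ A, v i‖ / 2)) 0 ≤ 12

/-- LRK. Lattices of smaller rank: the cell has infinite volume. PROOF. Take `u ≠ 0` orthogonal to
`L`. The cell `V = {x | ∀ w ∈ L, ‖x‖ ≤ ‖x - w‖}` contains the ball of radius `1` and is invariant
under translations by `s u`; so it contains infinitely many disjoint balls of radius `1/2`. -/
def T_LRK : Prop := ∀ L : AddSubgroup E3, (∀ v ∈ L, v ≠ 0 → 2 ≤ ‖v‖) →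
  Submodule.span ℝ (L : Set E3) ≠ ⊤ →
  volume {x : E3 | ∀ w ∈ L, ‖x‖ ≤ ‖x - w‖} = ⊤

/-- LAT (uses VX, OSB, LVC, LWT, LRK). All lattice packings. PROOF. `X = c + L` (`c - a ∈ L`). If
the span of `L` is not everything, translate LRK by `c`: the volume of the cell is `⊤` and the left
side of `Ineq` is `0` (`ENNReal.div_top`). Otherwise take `v` from OSB and VX for `S` = the image of
the fourteen sets `A` under `A ↦ c + ∑ i ∈ A, v i` (the sum over the image is at most the sum over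
the sets `A`, the terms are `≥ 0`); `‖x-c‖ ≤ ‖x-c-w‖ ↔ ⟪x-c,w⟫ ≤ ‖w‖²/2`; LVC. -/
def T_LAT : Prop := ∀ (L : AddSubgroup E3), (∀ v ∈ L, v ≠ 0 → 2 ≤ ‖v‖) →
  ∀ (a : E3) (c : E3), c - a ∈ L → ∀ r : ℝ, 0 ≤ r → Ineq {x | x - a ∈ L} c r

end Pool.Agent.SDL
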