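/-
# SDL: the two inequalities in one variable
-/
import Pool.Agent.SDL.Targets2

open MeasureTheory Set Real
open scoped RealInnerProductSpace

namespace Pool.Agent.SDL

open Pool.Agent.SDC

/-- An upper bound of the cosine. -/
theorem TG_cos (x : ℝ) (h0 : 0 ≤ x) (h1 : x ≤ 1) :
    cos x ≤ 1 - x ^ 2 / 2 + x ^ 4 / 24 - x ^ 6 / 1152 := by
  have h2 : cos x = 1 - 2 * sin (x / 2) ^ 2 := by
    have h3 := Real.cos_two_mul (x / 2)
    have h4 := Real.sin_sq_add_cos_sq (x / 2)
    rw [show 2 * (x / 2) = x by ring] at h3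
    linarith
  have h5 : x / 2 - (x / 2) ^ 3 / 6 ≤ sin (x / 2) := Real.sin_ge_sub_cube (by linarith)
  have h6 : 0 ≤ x / 2 - (x / 2) ^ 3 / 6 := by
    have : 0 ≤ x * (1 - x ^ 2 / 24) := mul_nonneg h0 (by nlinarith)
    nlinarith
  have h7 : (x / 2 - (x / 2) ^ 3 / 6) ^ 2 ≤ sin (x / 2) ^ 2 := pow_le_pow_left₀ h6 h5 2
  rw [h2]
  nlinarith

/-- A lower bound of the cosine near `π/3`. -/
theorem TG_rhs (t : ℝ) (ht : |t| ≤ 0.27) :
    1 / 2 - t ^ 2 / 4 - 0.866025 * (t - t ^ 3 / 6) - 0.00002 ≤ cos (π / 3 + t) := by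
  rw [Real.cos_add, Real.cos_pi_div_three, Real.sin_pi_div_three]
  have h1 : 1 - t ^ 2 / 2 ≤ cos t := Real.one_sub_sq_div_two_le_cos
  have h2 := Real.sin_bound (x := t) (by linarith)
  have h3 : |t| ^ 5 ≤ 0.27 ^ 5 := pow_le_pow_left₀ (abs_nonneg t) ht 5
  have h4 := (abs_le.mp h2).2
  obtain ⟨h5, h6⟩ := abs_le.mp ht
  have h7 : sin t ≤ t - t ^ 3 / 6 + 0.000015 := by norm_num at h3 ⊢; linarith
  have h8 : (1.73205 : ℝ) < √3 := by rw [Real.lt_sqrt (by norm_num)]; norm_num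
  have h9 : √3 < (1.73206 : ℝ) := by rw [Real.sqrt_lt' (by norm_num)]; norm_num
  have h10 : t - t ^ 3 / 6 ≤ 0.27 := by
    have hb : 0 ≤ 1 - t ^ 2 / 6 := by nlinarith
    rcases le_total 0 t with h | h
    · have := pow_nonneg h 3
      linarith
    · have := mul_nonneg (neg_nonneg.2 h) hb
      nlinarith
  have h11 : √3 / 2 * sin t ≤ √3 / 2 * (t - t ^ 3 / 6 + 0.000015) :=
    mul_le_mul_of_nonneg_left h7 (by linarith)
  have h12 : (√3 / 2 - 0.866025) * (t - t ^ 3 / 6) ≤ (√3 / 2 - 0.866025) * 0.27 :=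
    mul_le_mul_of_nonneg_left h10 (by linarith)
  nlinarith

/-- The polynomial of the first inequality. -/
theorem TG_polA (s : ℝ) (h1 : -0.39 ≤ s) (h2 : s ≤ 0.41) :
    0.5835926 * (1 - (s + 0.39) ^ 2 / 2 + (s + 0.39) ^ 4 / 24 - (s + 0.39) ^ 6 / 1152) ^ 2 ≤
      1 / 2 - (0.472 * s) ^ 2 / 4 - 0.866025 * (0.472 * s - (0.472 * s) ^ 3 / 6) - 0.00002 := by
  have hs : |s| ≤ 0.41 := abs_le.mpr ⟨by linarith, by linarith⟩
  have b2 := abs_le.mp ((abs_pow s 2).trans_le (pow_le_pow_left₀ (abs_nonneg s) hs 2))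
  have b3 := abs_le.mp ((abs_pow s 3).trans_le (pow_le_pow_left₀ (abs_nonneg s) hs 3))
  have b4 := abs_le.mp ((abs_pow s 4).trans_le (pow_le_pow_left₀ (abs_nonneg s) hs 4))
  have b5 := abs_le.mp ((abs_pow s 5).trans_le (pow_le_pow_left₀ (abs_nonneg s) hs 5))
  have b6 := abs_le.mp ((abs_pow s 6).trans_le (pow_le_pow_left₀ (abs_nonneg s) hs 6))
  have b7 := abs_le.mp ((abs_pow s 7).trans_le (pow_le_pow_left₀ (abs_nonneg s) hs 7))
  have b8 := abs_le.mp ((abs_pow s 8).trans_le (pow_le_pow_left₀ (abs_nonneg s) hs 8))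
  have b9 := abs_le.mp ((abs_pow s 9).trans_le (pow_le_pow_left₀ (abs_nonneg s) hs 9))
  have b10 := abs_le.mp ((abs_pow s 10).trans_le (pow_le_pow_left₀ (abs_nonneg s) hs 10))
  norm_num at b2 b3 b4 b5 b6 b7 b8 b9 b10
  have hq : 0 ≤
      1060899920138371644423397247541 / 4096000000000000000000000000000 -
      1060867938690932041626212927 / 4096000000000000000000000000 * s -
      68405612838411107577827411 / 491520000000000000000000000 * s ^ 2 +
      55621788109598459721817 / 1024000000000000000000000 * s ^ 3 +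
      3513286264060163776363 / 184320000000000000000000 * s ^ 4 -
      455099148100339223 / 102400000000000000000 * s ^ 5 -
      6074506291189171 / 4915200000000000000 * s ^ 6 + 5857807804537 / 36864000000000000 * s ^ 7 +
      418053641047 / 11059200000000000 * s ^ 8 - 37933519 / 18432000000000 * s ^ 9 -
      2917963 / 6635520000000 * s ^ 10 := by
    linarith [b2.1, b2.2, b3.1, b3.2, b4.1, b4.2, b5.1, b5.2, b6.1, b6.2, b7.1, b7.2, b8.1,
      b8.2, b9.1, b9.2, b10.1, b10.2]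
  have hk : 0 ≤ 60604075293484353516310304162117 / 81920000000000000000000000000000000 +
      334956074787605717187255114009 / 204800000000000000000000000000000 * s + 1 / 10 * s ^ 2 := by
    nlinarith [sq_nonneg (s + 1 / 100)]
  have hm := mul_nonneg (sq_nonneg s) hq
  linarith

/-- The polynomial of the second inequality. -/
theorem TG_polB (s : ℝ) (h1 : -0.465 ≤ s) (h2 : s ≤ 0.335) :
    5 / 8 * (1 - (s + 0.465) ^ 2 / 2 + (s + 0.465) ^ 4 / 24 - (s + 0.465) ^ 6 / 1152) ^ 2 ≤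
      1 / 2 - (0.577 * s) ^ 2 / 4 - 0.866025 * (0.577 * s - (0.577 * s) ^ 3 / 6) - 0.00002 := by
  have hs : |s| ≤ 0.465 := abs_le.mpr ⟨by linarith, by linarith⟩
  have b2 := abs_le.mp ((abs_pow s 2).trans_le (pow_le_pow_left₀ (abs_nonneg s) hs 2))
  have b3 := abs_le.mp ((abs_pow s 3).trans_le (pow_le_pow_left₀ (abs_nonneg s) hs 3))
  have b4 := abs_le.mp ((abs_pow s 4).trans_le (pow_le_pow_left₀ (abs_nonneg s) hs 4))
  have b5 := abs_le.mp ((abs_pow s 5).trans_le (pow_le_pow_left₀ (abs_nonneg s) hs 5))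
  have b6 := abs_le.mp ((abs_pow s 6).trans_le (pow_le_pow_left₀ (abs_nonneg s) hs 6))
  have b7 := abs_le.mp ((abs_pow s 7).trans_le (pow_le_pow_left₀ (abs_nonneg s) hs 7))
  have b8 := abs_le.mp ((abs_pow s 8).trans_le (pow_le_pow_left₀ (abs_nonneg s) hs 8))
  have b9 := abs_le.mp ((abs_pow s 9).trans_le (pow_le_pow_left₀ (abs_nonneg s) hs 9))
  have b10 := abs_le.mp ((abs_pow s 10).trans_le (pow_le_pow_left₀ (abs_nonneg s) hs 10))
  norm_num at b2 b3 b4 b5 b6 b7 b8 b9 b10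
  have hq : 0 ≤
      255086391804897069597270343 / 1342177280000000000000000000 -
      206144973169691437585583 / 671088640000000000000000 * s -
      5056614902277752358137 / 40265318400000000000000 * s ^ 2 +
      2800340006697361297 / 41943040000000000000 * s ^ 3 +
      66861411221024809 / 3774873600000000000 * s ^ 4 - 5785315657847 / 1048576000000000 * s ^ 5 -
      30163565737 / 25165824000000 * s ^ 6 + 18856897 / 94371840000 * s ^ 7 +
      544861 / 14155776000 * s ^ 8 - 31 / 11796480 * s ^ 9 - 5 / 10616832 * s ^ 10 := by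
    linarith [b2.1, b2.2, b3.1, b3.2, b4.1, b4.2, b5.1, b5.2, b6.1, b6.2, b7.1, b7.2, b8.1,
      b8.2, b9.1, b9.2, b10.1, b10.2]
  have hk : 0 ≤ 69906845713120184096812378079 / 107374182400000000000000000000000 +
      166979154218597473596703809 / 134217728000000000000000000000 * s + 1 / 10 * s ^ 2 := by
    nlinarith [sq_nonneg (s + 1 / 100)]
  have hm := mul_nonneg (sq_nonneg s) hq
  linarith

theorem p_TG : T_TG := by
  intro ψ h0 h1
  have hc := TG_cos ψ h0 (by linarith)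
  have hc0 : 0 ≤ cos ψ := Real.cos_nonneg_of_mem_Icc
    ⟨by linarith [Real.pi_pos], by linarith [Real.pi_gt_three]⟩
  have hc2 := pow_le_pow_left₀ hc0 hc 2
  constructor
  · have hR : R ^ 2 - 1 ≤ 0.5835926 := by
      rw [R_sq]
      have : (2.2360679 : ℝ) < √5 := by rw [Real.lt_sqrt (by norm_num)]; norm_num
      linarith
    have hp := TG_polA (ψ - 0.39) (by linarith) (by linarith)
    have hr := TG_rhs (0.472 * (ψ - 0.39)) (abs_le.mpr ⟨by linarith, by linarith⟩)
    rw [show ψ - 0.39 + 0.39 = ψ by ring] at hp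
    have h3 : (R ^ 2 - 1) * cos ψ ^ 2 ≤ 0.5835926 * cos ψ ^ 2 :=
      mul_le_mul_of_nonneg_right hR (sq_nonneg _)
    linarith
  · have hp := TG_polB (ψ - 0.465) (by linarith) (by linarith)
    have hr := TG_rhs (0.577 * (ψ - 0.465)) (abs_le.mpr ⟨by linarith, by linarith⟩)
    rw [show ψ - 0.465 + 0.465 = ψ by ring] at hp
    linarith

end Pool.Agent.SDL
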