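import Pool.Agent.SDL.Targets2

set_option autoImplicit false

/-!
# SDL, target VX: the result for packings
-/

open MeasureTheory Set Real
open scoped RealInnerProductSpace

namespace Pool.Agent.SDL

open Pool.Agent.SDC

theorem VX_half (v c y : E3) (hyc : y ≠ c) :
    dist (v + c) c ≤ dist (v + c) y ↔ ⟪(1 / ‖y - c‖) • (y - c), v⟫ ≤ ‖y - c‖ / 2 := by
  have hw : 0 < ‖y - c‖ := norm_pos_iff.mpr (sub_ne_zero.mpr hyc)
  have e1 : dist (v + c) c = ‖v‖ := by
    rw [dist_eq_norm, add_sub_cancel_right]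
  have e2 : dist (v + c) y = ‖v - (y - c)‖ := by
    rw [dist_eq_norm]
    congr 1
    abel
  have e3 : ‖v - (y - c)‖ ^ 2 = ‖v‖ ^ 2 - 2 * ⟪v, y - c⟫ + ‖y - c‖ ^ 2 :=
    norm_sub_sq_real v (y - c)
  have e4 : ⟪(1 / ‖y - c‖) • (y - c), v⟫ = ⟪v, y - c⟫ / ‖y - c‖ := by
    rw [real_inner_smul_left, real_inner_comm]
    ring
  rw [e1, e2, e4, div_le_div_iff₀ hw two_pos,
    ← pow_le_pow_iff_left₀ (norm_nonneg v) (norm_nonneg (v - (y - c))) two_ne_zero, e3]
  constructor
  · intro h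
    nlinarith
  · intro h
    nlinarith

theorem VX_inner (a b : E3) (ha : a ≠ 0) (hb : b ≠ 0) :
    (‖a‖ / 2) ^ 2 + (‖b‖ / 2) ^ 2
      - 2 * (‖a‖ / 2) * (‖b‖ / 2) * ⟪(1 / ‖a‖) • a, (1 / ‖b‖) • b⟫ = ‖a - b‖ ^ 2 / 4 := by
  have h1 : 0 < ‖a‖ := norm_pos_iff.mpr ha
  have h2 : 0 < ‖b‖ := norm_pos_iff.mpr hb
  rw [norm_sub_sq_real, real_inner_smul_left, real_inner_smul_right]
  field_simp
  ring

/-- VX: the result for packings. -/
theorem p_VX (hmx3 : T_MX3) : T_VX := by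
  intro X hX c hc S hSX hcS hsum hS r hr
  have hSc : ∀ y ∈ S, y ≠ c := fun y hy h => hcS (h ▸ hy)
  set V : Set E3 := {x : E3 | ∀ y ∈ X, dist x c ≤ dist x y} with hV
  have hp : Pck (fun i : S => (1 / ‖(i : E3) - c‖) • ((i : E3) - c))
      (fun i : S => ‖(i : E3) - c‖ / 2) := by
    refine ⟨fun i => ?_, fun i => ?_, fun i j hij => ?_⟩
    · have hw : 0 < ‖(i : E3) - c‖ := norm_pos_iff.mpr (sub_ne_zero.mpr (hSc i i.2))
      simp only
      rw [norm_smul, norm_div, norm_one, norm_norm]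
      field_simp
    · have h1 := hX i (hSX i i.2) c hc (hSc i i.2)
      rw [dist_eq_norm] at h1
      simp only
      linarith
    · have hne : (i : E3) ≠ (j : E3) := fun h => hij (Subtype.ext h)
      have h1 := hX i (hSX i i.2) j (hSX j j.2) hne
      rw [dist_eq_norm] at h1
      have h2 := VX_inner ((i : E3) - c) ((j : E3) - c) (sub_ne_zero.mpr (hSc i i.2))
        (sub_ne_zero.mpr (hSc j j.2))
      have h3 : (i : E3) - c - ((j : E3) - c) = (i : E3) - (j : E3) := by abel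
      rw [h3] at h2
      simp only
      rw [h2]
      nlinarith
  have hs : ∑ i : S, max (wt (‖(i : E3) - c‖ / 2)) 0 ≤ 12 := by
    rw [Finset.sum_coe_sort S (fun y : E3 => max (wt (‖y - c‖ / 2)) 0)]
    refine le_trans (le_of_eq ?_) hsum
    exact Finset.sum_congr rfl fun y _ => by rw [dist_eq_norm]
  have hK : ((fun v : E3 => v + c) ⁻¹' V) ∩ Metric.closedBall 0 RO =
      Poly (fun i : S => (1 / ‖(i : E3) - c‖) • ((i : E3) - c))
        (fun i : S => ‖(i : E3) - c‖ / 2) ∩ Metric.closedBall 0 RO := by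
    ext v
    constructor
    · rintro ⟨h1, h2⟩
      refine ⟨fun i => ?_, h2⟩
      exact (VX_half v c i (hSc i i.2)).1 (h1 i (hSX i i.2))
    · rintro ⟨h1, h2⟩
      refine ⟨?_, h2⟩
      have h3 : dist (v + c) c ≤ RO := by
        rw [dist_eq_norm, add_sub_cancel_right]
        exact mem_closedBall_zero_iff.1 h2
      exact hS (v + c) h3 fun y hy => (VX_half v c y (hSc y hy)).2 (h1 ⟨y, hy⟩)
  have key := hmx3 S _ _ hp hs ((fun v : E3 => v + c) ⁻¹' V) hK (1 + r) (by linarith)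
  have e1 : volume ((fun v : E3 => v + c) ⁻¹' V) = volume V :=
    measure_preimage_add_right volume c V
  have e2 : ((fun v : E3 => v + c) ⁻¹' V) ∩ Metric.closedBall 0 (1 + r) =
      (fun v : E3 => v + c) ⁻¹' (V ∩ Metric.closedBall c (1 + r)) := by
    ext v
    simp [dist_eq_norm]
  have e3 : volume ((fun v : E3 => v + c) ⁻¹' (V ∩ Metric.closedBall c (1 + r))) =
      volume (V ∩ Metric.closedBall c (1 + r)) :=
    measure_preimage_add_right volume c _
  rw [e2, e3, e1] at key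
  exact key

end Pool.Agent.SDL
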