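import Pool.Agent.SDL.Targets2
import Pool.Agent.SDL.P_FBA
import Pool.Agent.SDL.P_FBB
import Pool.Agent.SDL.P_FBC
import Pool.Agent.SDL.P_FAX
import Pool.Agent.SDL.P_FCX
import Pool.Agent.SDL.P_NSF
import Pool.Agent.SDL.P_DMN
import Pool.Agent.SDL.P_HB
import Pool.Agent.SDL.P_SIX
import Pool.Agent.SDL.P_GAP
import Pool.Agent.SDL.P_ARC
import Pool.Agent.SDL.P_TG
import Pool.Agent.SDL.P_TAJ
import Pool.Agent.SDL.P_BM
import Pool.Agent.SDL.P_C1
import Pool.Agent.SDL.P_C1A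
import Pool.Agent.SDL.P_C1G
import Pool.Agent.SDL.P_C1B
import Pool.Agent.SDL.P_KEX
import Pool.Agent.SDL.P_KU
import Pool.Agent.SDL.P_BQ
import Pool.Agent.SDL.P_PQ
import Pool.Agent.SDL.P_VX

set_option autoImplicit false

/-!
# SDL: the assembly for arbitrary weights of the facets and one radius `t`

`CBc t h c`: the local lemma holds at height `h` with the bound `c`. From this: the bounds of one
facet (`facet5`, `facet6`, `facet_disc`), the main inequality for weights `w i` of the facets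
(`MXwt`), its consequence for the cells of a packing (`cell_of_vol`), and the versions for a weight
which depends on the height only (`FW`, `MXf`, `NWf`).
-/

open MeasureTheory Set Real
open scoped RealInnerProductSpace

namespace Pool.Agent.SDL

open Pool.Agent.SDC

/-- The local lemma at the height `h` with the bound `c`. -/
def CBc (t h c : ℝ) : Prop := ∃ ρ' τ', 0 < ρ' ∧ ρ' ≤ rr h R ∧ 0 ≤ G t (kap t) (bet t) h ρ' ∧
  0 ≤ τ' ∧ (∀ a, 0 < a →
    ∫ ψ in (0 : ℝ)..(π / 2), max (HH t h ρ' - HH t h (a / cos ψ)) 0 ≤ τ') ∧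
  - 2 * π * HH t h ρ' + 10 * τ' ≤ c

/-- The part of the facet `i` of the functional. -/
noncomputable def FO {ι : Type} (n : ι → E3) (h : ι → ℝ) (t : ℝ) (i : ι) (e f : E3) : ℝ :=
  ∫ w in {w | w ∈ Qs n h i e f ∧ h i * cc (nr w) < RO}, G t (kap t) (bet t) (h i) (nr w)

section facet

variable {ι : Type} [Fintype ι]

/-- A facet of height at least `RO`. -/
theorem facet_high (n : ι → E3) (h : ι → ℝ) (i : ι) (e f : E3) (t : ℝ) (hRO : RO ≤ h i) :
    FO n h t i e f = 0 := by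
  have he : {w | w ∈ Qs n h i e f ∧ h i * cc (nr w) < RO} = ∅ := by
    rw [Set.eq_empty_iff_forall_notMem]
    rintro w ⟨-, hw⟩
    have h1 := cc_one (nr w)
    have h2 : h i * 1 ≤ h i * cc (nr w) :=
      mul_le_mul_of_nonneg_left h1 (by linarith [RO_pos])
    linarith
  rw [FO, he, Measure.restrict_empty, integral_zero_measure]

/-- A facet, by the bound on every ray. -/
theorem facet_disc (n : ι → E3) (h : ι → ℝ) (i : ι) (e f : E3) (t v : ℝ) (hP : Pck n h)
    (hI : Irr n h) (hO : Onb (n i) e f) (hiRO : h i < RO)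
    (hv : ∀ r, 0 ≤ r → - v ≤ HH t (h i) r) : - (2 * π * v) ≤ FO n h t i e f := by
  classical
  have hh1 : 1 ≤ h i := hP.2.1 i
  have hh0 : 0 < h i := by linarith
  have hgc : Continuous (G t (kap t) (bet t) (h i)) := tHCL.1 _ _ _ _
  have had : ∀ j, 0 ≤ ad n h i j := by
    intro j
    by_cases hj : i = j
    · subst hj
      rw [FBA_self n h i (hP.1 i) hh0]
    · exact (p_NSF p_DMN ι n h i j hP hI hiRO hj).2.1
  have key := p_FCX p_FAX ι n h i e f RO (- v) (fun _ => 0)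
    (G t (kap t) (bet t) (h i)) Finset.univ hP.1 (fun j => by linarith [hP.2.1 j]) hI hO hgc hiRO
    (fun j hj => (p_NSF p_DMN ι n h i j hP hI hiRO hj.symm).1)
    (fun r hr => hv r ((Real.sqrt_nonneg _).trans hr))
    (by
      intro j _
      have hz : ∀ ψ ∈ uIcc (0 : ℝ) (π / 2), max (- v -
          ∫ s in (0 : ℝ)..(ad n h i j / cos ψ), G t (kap t) (bet t) (h i) s * s) 0 =
          (fun _ : ℝ => (0 : ℝ)) ψ := by
        intro ψ hψ
        rw [uIcc_of_le (by positivity)] at hψ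
        have hc : 0 ≤ cos ψ := cos_nonneg_of_mem_Icc ⟨by linarith [hψ.1, Real.pi_pos], hψ.2⟩
        have h2 := hv (ad n h i j / cos ψ) (div_nonneg (had j) hc)
        have h3 : HH t (h i) (ad n h i j / cos ψ) =
          ∫ s in (0 : ℝ)..(ad n h i j / cos ψ), G t (kap t) (bet t) (h i) s * s := rfl
        exact max_eq_right (by linarith)
      rw [intervalIntegral.integral_congr hz]
      simp)
    (fun j _ => Finset.mem_univ j)
  have h3 : - (2 * π * v) =
      2 * π * (- v) - 2 * ∑ j ∈ (Finset.univ : Finset ι), (0 : ℝ) := by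
    rw [Finset.sum_const_zero]
    ring
  rw [h3]
  exact key

/-- A facet with at most five near sides. -/
theorem facet5 (n : ι → E3) (h : ι → ℝ) (i : ι) (e f : E3) (t c : ℝ) (S S' : Finset ι)
    (hP : Pck n h) (hI : Irr n h) (hO : Onb (n i) e f) (ht1 : 1 ≤ t) (htR : t < R)
    (hiR : h i < R) (hcb : CBc t (h i) c) (hS : ∀ j, NS n h i RO j ↔ j ∈ S) (hSS : S' ⊆ S)
    (hcard : S'.card ≤ 5) (hfar : ∀ j ∈ S, j ∉ S' → rr (h i) R ≤ ad n h i j) :
    - c ≤ FO n h t i e f := by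
  classical
  have hh1 : 1 ≤ h i := hP.2.1 i
  have hRRO := R_lt_RO
  have hiRO : h i < RO := hiR.trans hRRO
  have ht0 : 0 < t := by linarith
  have hh0 : 0 < h i := by linarith
  obtain ⟨ρ, τ, hρ0, hρR, hGρ, hτ0, hτ, hmain⟩ := hcb
  have hκ : 0 ≤ kap t := (tKAP t ht1 htR).1
  have hβ : 0 ≤ bet t := (tBET t ht1 htR).1
  have hgc : Continuous (G t (kap t) (bet t) (h i)) := tHCL.1 _ _ _ _
  have hGpos : ∀ s, ρ ≤ s → 0 ≤ G t (kap t) (bet t) (h i) s := by
    intro s hs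
    exact p_SGN t (kap t) (bet t) (h i) ρ s ht0 hh0 hκ hβ hρ0.le hs hGρ
  have hmono : ∀ r, ρ ≤ r → HH t (h i) ρ ≤ HH t (h i) r := by
    intro r hr
    exact FBB_mono hgc hρ0.le hr hGpos
  have hρRO : ρ ≤ rr (h i) RO := hρR.trans (FBB_rr hh0 R_pos.le hRRO.le)
  have key := p_FCX p_FAX ι n h i e f RO (HH t (h i) ρ) (fun j => if j ∈ S' then τ else 0)
    (G t (kap t) (bet t) (h i)) S hP.1 (fun j => by linarith [hP.2.1 j]) hI hO hgc hiRO
    (fun j hj => (p_NSF p_DMN ι n h i j hP hI hiRO hj.symm).1)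
    (fun r hr => hmono r (hρRO.trans hr))
    (by
      intro j hj
      have hNS : NS n h i RO j := (hS j).2 hj
      have had := (p_NSF p_DMN ι n h i j hP hI hiRO hNS.1).2.2 RO hNS
      by_cases hj' : j ∈ S'
      · simp only [hj', if_true]
        exact hτ (ad n h i j) had.2.1
      · simp only [hj', if_false]
        have hge : ρ ≤ ad n h i j := hρR.trans (hfar j hj hj')
        apply le_of_eq
        apply intervalIntegral.integral_zero_ae
        have hne : ∀ᵐ ψ : ℝ, ψ ≠ π / 2 := by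
          rw [ae_iff]
          simp
        filter_upwards [hne] with ψ hψ hmem
        rw [uIoc_of_le (by positivity)] at hmem
        have hlt : ψ < π / 2 := lt_of_le_of_ne hmem.2 hψ
        have hcos : 0 < cos ψ := cos_pos_of_mem_Ioo ⟨by linarith [hmem.1, Real.pi_pos], hlt⟩
        have hle : ad n h i j ≤ ad n h i j / cos ψ := by
          rw [le_div_iff₀ hcos]
          nlinarith [cos_le_one ψ, had.2.1]
        have h3 := hmono (ad n h i j / cos ψ) (hge.trans hle)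
        apply max_eq_right
        have h4 : HH t (h i) (ad n h i j / cos ψ) =
          ∫ s in (0 : ℝ)..(ad n h i j / cos ψ), G t (kap t) (bet t) (h i) s * s := rfl
        linarith)
    (fun j hj => (hS j).1 hj)
  have hsum : ∑ j ∈ S, (if j ∈ S' then τ else 0) = S'.card * τ := by
    rw [Finset.sum_ite_mem, Finset.inter_eq_right.2 hSS, Finset.sum_const, nsmul_eq_mul]
  have hle5 : (S'.card : ℝ) * τ ≤ 5 * τ := by
    apply mul_le_mul_of_nonneg_right _ hτ0
    exact_mod_cast hcard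
  rw [hsum] at key
  rw [FO]
  linarith

/-- The sides are at distance at least `2/√(4-h²)`. -/
theorem ad_ge (n : ι → E3) (h : ι → ℝ) (i j : ι) (ϱ : ℝ) (hP : Pck n h) (hI : Irr n h)
    (hiRO : h i < RO) (hNS : NS n h i ϱ j) : rr (h i) √(4 / (4 - h i ^ 2)) ≤ ad n h i j := by
  have hh1 : 1 ≤ h i := hP.2.1 i
  have hh0 : 0 < h i := by linarith
  obtain ⟨h1, h2, -⟩ := (p_NSF p_DMN ι n h i j hP hI hiRO hNS.1).2.2 ϱ hNS
  obtain ⟨d1, -, -, d2⟩ := p_DMN (h i) (h j) ⟪n i, n j⟫ hh1 hiRO (hP.2.1 j) h1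
    (hP.2.2 i j hNS.1)
  have h3 : h i ^ 2 * (1 + ad n h i j ^ 2) = Dq (h i) (h j) ⟪n i, n j⟫ := d2
  have h4 : 0 < 4 - h i ^ 2 := by
    have := RO_hi
    nlinarith
  rw [rr, Real.sq_sqrt (by positivity)]
  apply Real.sqrt_le_iff.2
  refine ⟨h2.le, ?_⟩
  rw [sub_le_iff_le_add, div_le_iff₀ (by positivity)]
  linarith

/-- A facet, by the bound on the rays beyond `r0`, if no side is nearer than `r0`. The outer radius
is `ϱ`. -/
theorem facet_ray (n : ι → E3) (h : ι → ℝ) (i : ι) (e f : E3) (t v r0 ϱ : ℝ) (hP : Pck n h)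
    (hI : Irr n h) (hO : Onb (n i) e f) (hiRO : h i < RO) (hiϱ : h i < ϱ)
    (h0 : r0 ≤ rr (h i) ϱ) (h1 : ∀ j, NS n h i ϱ j → r0 ≤ ad n h i j)
    (hv : ∀ r, r0 ≤ r → - v ≤ HH t (h i) r) : - (2 * π * v) ≤
    ∫ w in {w | w ∈ Qs n h i e f ∧ h i * cc (nr w) < ϱ}, G t (kap t) (bet t) (h i) (nr w) := by
  classical
  have hh1 : 1 ≤ h i := hP.2.1 i
  have hh0 : 0 < h i := by linarith
  have hgc : Continuous (G t (kap t) (bet t) (h i)) := tHCL.1 _ _ _ _
  have key := p_FCX p_FAX ι n h i e f ϱ (- v) (fun _ => 0)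
    (G t (kap t) (bet t) (h i)) (Finset.univ.filter fun j => NS n h i ϱ j) hP.1
    (fun j => by linarith [hP.2.1 j]) hI hO hgc hiϱ
    (fun j hj => (p_NSF p_DMN ι n h i j hP hI hiRO hj.symm).1)
    (fun r hr => hv r (h0.trans hr))
    (by
      intro j hj
      have hNS : NS n h i ϱ j := (Finset.mem_filter.1 hj).2
      have had := (p_NSF p_DMN ι n h i j hP hI hiRO hNS.1).2.2 ϱ hNS
      have hge := h1 j hNS
      apply le_of_eq
      apply intervalIntegral.integral_zero_ae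
      have hne : ∀ᵐ ψ : ℝ, ψ ≠ π / 2 := by
        rw [ae_iff]
        simp
      filter_upwards [hne] with ψ hψ hmem
      rw [uIoc_of_le (by positivity)] at hmem
      have hlt : ψ < π / 2 := lt_of_le_of_ne hmem.2 hψ
      have hcos : 0 < cos ψ := cos_pos_of_mem_Ioo ⟨by linarith [hmem.1, Real.pi_pos], hlt⟩
      have hle : ad n h i j ≤ ad n h i j / cos ψ := by
        rw [le_div_iff₀ hcos]
        nlinarith [cos_le_one ψ, had.2.1]
      have h3 := hv (ad n h i j / cos ψ) (hge.trans hle)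
      have h4 : HH t (h i) (ad n h i j / cos ψ) =
        ∫ s in (0 : ℝ)..(ad n h i j / cos ψ), G t (kap t) (bet t) (h i) s * s := rfl
      exact max_eq_right (by linarith))
    (fun j hj => Finset.mem_filter.2 ⟨Finset.mem_univ j, hj⟩)
  have h3 : - (2 * π * v) =
      2 * π * (- v) - 2 * ∑ j ∈ (Finset.univ.filter fun j => NS n h i ϱ j), (0 : ℝ) := by
    rw [Finset.sum_const_zero]
    ring
  rw [h3]
  exact key

/-- The constant of the facets with six near sides. -/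
theorem wC1 : T_C1 :=
  p_C1 (p_C1A p_KEX) (p_C1G p_BQ) (p_C1B (p_KU p_KEX) p_BQ (p_C1G p_BQ) p_PQ) p_BM

/-- A facet with at least six near sides, for an explicit `gM`. -/
theorem facet6g (n : ι → E3) (h : ι → ℝ) (i : ι) (e f : E3) (t c c' gM : ℝ) (S S' : Finset ι)
    (hP : Pck n h) (hI : Irr n h) (hO : Onb (n i) e f) (ht1 : 1 ≤ t) (htR : t < R)
    (hiR : h i < R) (hcb : CBc t (h i) c') (hg0 : 0 ≤ gM)
    (hg2 : ∀ ρ, 1 ≤ ρ → ρ ≤ R → bb t R - bb t ρ ≤ gM)
    (hfin : - 2 * π * HH t (h i) (rr (h i) R) - 2 * π * h i * Dl t +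
        2 * h i * (2.34 * gM + 2.79 * Dl t) ≤ c)
    (hS : ∀ j, NS n h i RO j ↔ j ∈ S) (hSS' : S' ⊆ S)
    (hcard : 6 ≤ S'.card) (had : ∀ j ∈ S', ad n h i j < rr (h i) R) :
    - c ≤ FO n h t i e f := by
  have hh1 : 1 ≤ h i := hP.2.1 i
  have hh0 : 0 < h i := by linarith
  have hhRO : h i < RO := hiR.trans R_lt_RO
  have ht0 : 0 < t := by linarith
  have hb0 := (tBET t ht1 htR).1
  have hD0 := FBC_Dl ht1 htR
  -- the facts about the sides
  have hNS : ∀ j ∈ S, i ≠ j ∧ ⟪n i, n j⟫ ^ 2 < 1 ∧ 0 < ad n h i j ∧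
      ad n h i j < rr (h i) RO := by
    intro j hj
    have h1 := (hS j).mpr hj
    exact ⟨h1.1, (p_NSF p_DMN ι n h i j hP hI hhRO h1.1).2.2 RO h1⟩
  obtain ⟨-, -, hsum1, hsum2⟩ := p_SIX p_GAP p_DMN p_ARC p_TG ι n h i S S' hP hiR
    (fun hi => (hNS i hi).1 rfl)
    (fun j hj => ⟨(hNS j hj).2.1, (hNS j hj).2.2.2⟩) hSS' hcard had
  obtain ⟨ρ', τ', hρ0, hρR, hGρ, -, -, -⟩ := hcb
  -- the facet
  have hmain := p_FCX p_FAX ι n h i e f RO (HH t (h i) (rr (h i) RO))
    (fun j => h i * (gM * arccos (ad n h i j / rr (h i) R) +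
      Dl t * arccos (ad n h i j / rr (h i) RO)))
    (G t (kap t) (bet t) (h i)) S hP.1 (fun k => by linarith [hP.2.1 k]) hI hO
    (tHCL.1 t (kap t) (bet t) (h i)) hhRO
    (fun j hj => (p_NSF p_DMN ι n h i j hP hI hhRO (Ne.symm hj)).1)
    (fun r hr => FBC_HH ht1 htR hh0 hρ0 hGρ
      (hρR.trans (FBC_rr_mono hh0 R_pos.le R_lt_RO.le)) hr)
    (fun j hj => p_TAJ p_HB p_BM t (h i) gM (ad n h i j) ht1 htR hh1 hiR.le hg0 hg2
      (hNS j hj).2.2.1)
    (fun j hj => (hS j).mp hj)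
  rw [FO]
  refine le_trans ?_ hmain
  -- the two values of HH
  have hv : HH t (h i) (rr (h i) RO) = HH t (h i) (rr (h i) R) + h i * Dl t := by
    rw [p_HB t (h i) (rr (h i) RO) ht0 hh0 (FBC_rr hh0 hhRO.le).1,
      p_HB t (h i) (rr (h i) R) ht0 hh0 (FBC_rr hh0 hiR.le).1, (FBC_rr hh0 hhRO.le).2,
      (FBC_rr hh0 hiR.le).2, Dl]
    ring
  have hs : ∑ j ∈ S, h i * (gM * arccos (ad n h i j / rr (h i) R) +
      Dl t * arccos (ad n h i j / rr (h i) RO)) ≤ h i * (2.34 * gM + 2.79 * Dl t) := by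
    rw [← Finset.mul_sum, Finset.sum_add_distrib, ← Finset.mul_sum, ← Finset.mul_sum]
    apply mul_le_mul_of_nonneg_left _ hh0.le
    have h1 := mul_le_mul_of_nonneg_left hsum1 hg0
    have h2 := mul_le_mul_of_nonneg_left hsum2 hD0
    linarith
  rw [hv]
  linarith

/-- A facet with at least six near sides. -/
theorem facet6 (n : ι → E3) (h : ι → ℝ) (i : ι) (e f : E3) (t c c' : ℝ) (S S' : Finset ι)
    (hP : Pck n h) (hI : Irr n h) (hO : Onb (n i) e f) (ht1 : 1 ≤ t) (htR : t < R)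
    (hiR : h i < R) (hcb : CBc t (h i) c')
    (hc2 : ∀ gM, 0 ≤ gM → gM ≤ 1.1 * Bf t R → 4.68 * gM - 0.703 * Dl t ≤ - 10 * J0 t →
      - 2 * π * HH t (h i) (rr (h i) R) - 2 * π * h i * Dl t +
        2 * h i * (2.34 * gM + 2.79 * Dl t) ≤ c)
    (hS : ∀ j, NS n h i RO j ↔ j ∈ S) (hSS' : S' ⊆ S)
    (hcard : 6 ≤ S'.card) (had : ∀ j ∈ S', ad n h i j < rr (h i) R) :
    - c ≤ FO n h t i e f := by
  obtain ⟨gM, hg0, hg1, hg2, hg3⟩ := wC1 t ht1 htR
  exact facet6g n h i e f t c c' gM S S' hP hI hO ht1 htR hiR hcb hg0 hg2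
    (hc2 gM hg0 hg1 hg3) hS hSS' hcard had

/-! ## The main inequality -/

/-- **The main inequality for arbitrary weights of the facets.** -/
theorem MXwt (n : ι → E3) (h : ι → ℝ) (hP : Pck n h) (hI : Irr n h) {t : ℝ} (ht1 : 1 ≤ t)
    (htR : t < R) (w : ι → ℝ)
    (hw : ∀ i e f, Onb (n i) e f → - (π / 3 * bet t * w i) ≤ FO n h t i e f)
    (hW : ∑ i, w i ≤ 12) :
    (volume (Poly n h ∩ Metric.closedBall 0 t)).toReal ≤
      (1 - kap t) * (volume (Poly n h ∩ Metric.closedBall 0 RO)).toReal := by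
  obtain ⟨hn, hh, -⟩ := id hP
  have h0 : ∀ i, 0 < h i := fun i => lt_of_lt_of_le one_pos (hh i)
  have ht0 : 0 < t := lt_of_lt_of_le one_pos ht1
  choose e f hef using fun i => p_ONB (n i) (hn i)
  have hS := tSUM ι n e f h t (kap t) (bet t) RO h0 (MA1_inj hI) hef ht0
    (htR.le.trans R_lt_RO.le)
  obtain ⟨hβ, hG⟩ := tBET t ht1 htR
  have hbr := MA1_bracket ht0.le htR hG
  have hR := R_pos
  have hR3 : 0 < R ^ 3 := by positivity
  have ht3 : 0 < t ^ 3 := by positivity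
  have hk1 : 0 ≤ 1 - kap t := by
    by_contra hneg
    have h1 : (1 - kap t) * R ^ 3 < 0 := mul_neg_of_neg_of_pos (not_le.1 hneg) hR3
    linarith
  have hRR : R ^ 3 ≤ RO ^ 3 := pow_le_pow_left₀ hR.le R_lt_RO.le 3
  have hbr' : 0 ≤ (1 - kap t) * RO ^ 3 - t ^ 3 - bet t := by
    have h1 := mul_le_mul_of_nonneg_left hRR hk1
    linarith
  have hfac : ∑ i, -(π / 3 * bet t * w i) ≤
      ∑ i, ∫ w in {w | w ∈ Qs n h i (e i) (f i) ∧ h i * cc (nr w) < RO},
        G t (kap t) (bet t) (h i) (nr w) :=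
    Finset.sum_le_sum fun i _ => hw i (e i) (f i) (hef i)
  have hsum : ∑ i, -(π / 3 * bet t * w i) = -(π / 3 * bet t * ∑ i, w i) := by
    rw [Finset.sum_neg_distrib, ← Finset.mul_sum]
  have hc : 0 ≤ π / 3 * bet t := by positivity
  have h12 : π / 3 * bet t * ∑ i, w i ≤ π / 3 * bet t * 12 :=
    mul_le_mul_of_nonneg_left hW hc
  have hlast : 0 ≤ 3 * (volume (Metric.closedBall (0 : E3) 1 ∩ Cinf n h RO)).toReal *
      ((1 - kap t) * RO ^ 3 - t ^ 3 - bet t) :=
    mul_nonneg (mul_nonneg (by norm_num) ENNReal.toReal_nonneg) hbr'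
  rw [hsum] at hfac
  linarith

end facet

/-! ## Weights which depend on the height only -/

/-- `w` is an admissible weight of the facets for the radius `t`. -/
def FW (t : ℝ) (w : ℝ → ℝ) : Prop :=
  ∀ (ι : Type) [Fintype ι] (n : ι → E3) (h : ι → ℝ) (i : ι) (e f : E3),
    Pck n h → Irr n h → Onb (n i) e f → - (π / 3 * bet t * w (h i)) ≤ FO n h t i e f

/-- How to prove that a weight is admissible. -/
theorem FW_of {t : ℝ} {w : ℝ → ℝ} (ht1 : 1 ≤ t) (htR : t < R) (hw0 : ∀ h, 0 ≤ w h)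
    (hdisc : ∀ h r, t ≤ h → 1.02 ≤ h → h < RO → 0 ≤ r → - (bet t / 6 * w h) ≤ HH t h r)
    (hcb : ∀ h, 1 ≤ h → h < R → (h < t ∨ h < 1.02) → CBc t h (π / 3 * bet t * w h))
    (hc2 : ∀ h gM, 1 ≤ h → h < R → (h < t ∨ h < 1.02) → 0 ≤ gM → gM ≤ 1.1 * Bf t R →
      4.68 * gM - 0.703 * Dl t ≤ - 10 * J0 t →
      - 2 * π * HH t h (rr h R) - 2 * π * h * Dl t + 2 * h * (2.34 * gM + 2.79 * Dl t) ≤
        π / 3 * bet t * w h) : FW t w := by
  classical
  intro ι _ n h i e f hP hI hO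
  have hβ := (tBET t ht1 htR).1
  have hh1 : 1 ≤ h i := hP.2.1 i
  have hR1 := R_lo'
  rcases le_or_gt RO (h i) with hRO | hRO
  · rw [facet_high n h i e f t hRO]
    have h3 := hw0 (h i)
    have h4 : 0 ≤ π / 3 * bet t * w (h i) := by positivity
    linarith
  · by_cases hc : t ≤ h i ∧ 1.02 ≤ h i
    · have h5 := facet_disc n h i e f t (bet t / 6 * w (h i)) hP hI hO hRO
        (fun r hr => hdisc (h i) r hc.1 hc.2 hRO hr)
      have e1 : - (2 * π * (bet t / 6 * w (h i))) = - (π / 3 * bet t * w (h i)) := by ring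
      rw [← e1]
      exact h5
    · have hc' : h i < t ∨ h i < 1.02 := by
        rcases not_and_or.mp hc with hc | hc
        · exact Or.inl (not_le.mp hc)
        · exact Or.inr (not_le.mp hc)
      have hiR : h i < R := by
        rcases hc' with h1 | h1 <;> linarith
      have hcb' := hcb (h i) hh1 hiR hc'
      obtain ⟨S, hS⟩ : ∃ S : Finset ι, ∀ j, NS n h i RO j ↔ j ∈ S :=
        ⟨Finset.univ.filter fun j => NS n h i RO j, fun j => by simp⟩
      obtain ⟨S', hS'⟩ : ∃ S' : Finset ι, ∀ j, j ∈ S' ↔ (j ∈ S ∧ ad n h i j < rr (h i) R) :=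
        ⟨S.filter fun j => ad n h i j < rr (h i) R, fun j => by simp⟩
      have hsub : S' ⊆ S := fun j hj => ((hS' j).mp hj).1
      rcases Nat.lt_or_ge S'.card 6 with h6 | h6
      · refine facet5 n h i e f t _ S S' hP hI hO ht1 htR hiR hcb' hS hsub (by omega) ?_
        intro j hj hj'
        by_contra hlt
        exact hj' ((hS' j).mpr ⟨hj, not_le.mp hlt⟩)
      · exact facet6 n h i e f t _ _ S S' hP hI hO ht1 htR hiR hcb'
          (fun gM g0 g1 g2 => hc2 (h i) gM hh1 hiR hc' g0 g1 g2) hS hsub h6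
          fun j hj => ((hS' j).mp hj).2

/-- The main inequality for a weight of the height, without irredundancy. -/
theorem MXf {ι : Type} [Fintype ι] (n : ι → E3) (h : ι → ℝ) (hP : Pck n h) {t : ℝ}
    (ht1 : 1 ≤ t) (htR : t < R) {w : ℝ → ℝ} (hw0 : ∀ h, 0 ≤ w h) (hw : FW t w)
    (hsum : ∑ i, w (h i) ≤ 12) :
    (volume (Poly n h ∩ Metric.closedBall 0 t)).toReal ≤
      (1 - kap t) * (volume (Poly n h ∩ Metric.closedBall 0 RO)).toReal := by
  obtain ⟨s, hs1, hs2⟩ := p_IRR ι n h (fun i => lt_of_lt_of_le one_pos (hP.2.1 i))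
  classical
  have : Fintype s := Fintype.ofFinite s
  rw [← hs1]
  have hPs : Pck (fun i : s => n i) (fun i : s => h i) :=
    ⟨fun i => hP.1 i, fun i => hP.2.1 i,
      fun i j hij => hP.2.2 i j (fun he => hij (Subtype.ext he))⟩
  apply MXwt (fun i : s => n i) (fun i : s => h i) hPs hs2 ht1 htR (fun i : s => w (h i))
  · intro i e f hO
    exact hw s (fun i : s => n i) (fun i : s => h i) i e f hPs hs2 hO
  · refine le_trans ?_ hsum
    have h2 : ∑ i ∈ s.toFinset, w (h i) = ∑ i : s, w (h i) :=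
      Finset.sum_subtype s.toFinset (fun x => Set.mem_toFinset) (fun i => w (h i))
    rw [← h2]
    exact Finset.sum_le_sum_of_subset_of_nonneg (Finset.subset_univ _)
      (fun _ _ _ => hw0 _)

/-! ## The ratio form and the cells of a packing -/

/-- The ratio form. -/
theorem ratio_of_vol {ι : Type} [Fintype ι] (n : ι → E3) (h : ι → ℝ) (K : Set E3)
    (hK : K ∩ Metric.closedBall 0 RO = Poly n h ∩ Metric.closedBall 0 RO) {t : ℝ} (ht : 1 ≤ t)
    (htR : t < R)
    (h3 : (volume (Poly n h ∩ Metric.closedBall 0 t)).toReal ≤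
      (1 - kap t) * (volume (Poly n h ∩ Metric.closedBall 0 RO)).toReal) :
    volume (K ∩ Metric.closedBall 0 t) / volume K ≤
      volume (Dod ∩ Metric.closedBall 0 t) / volume Dod := by
  obtain ⟨⟨hD0, hDt⟩, hkR, hD⟩ := tDOD
  have h4 := hD t ht htR.le
  have hDp : 0 < (volume Dod).toReal := ENNReal.toReal_pos hD0 hDt
  have hk : 0 ≤ 1 - kap t := by
    by_contra hneg
    push Not at hneg
    have h5 : (1 - kap t) * (volume Dod).toReal < 0 := mul_neg_of_neg_of_pos hneg hDp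
    have h6 : 0 ≤ (volume (Dod ∩ Metric.closedBall 0 t)).toReal := ENNReal.toReal_nonneg
    linarith
  have h5 : volume (Dod ∩ Metric.closedBall 0 t) = ENNReal.ofReal (1 - kap t) * volume Dod := by
    have h6 : volume (Dod ∩ Metric.closedBall 0 t) ≠ ⊤ :=
      ne_top_of_le_ne_top hDt (measure_mono inter_subset_left)
    rw [← ENNReal.ofReal_toReal h6, h4, ENNReal.ofReal_mul hk, ENNReal.ofReal_toReal hDt]
  rw [h5, ENNReal.mul_div_cancel_right hD0 hDt]
  apply ENNReal.div_le_of_le_mul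
  have hbt : Metric.closedBall (0 : E3) t ⊆ Metric.closedBall 0 RO :=
    Metric.closedBall_subset_closedBall (htR.le.trans R_lt_RO.le)
  have h6 : K ∩ Metric.closedBall 0 t = Poly n h ∩ Metric.closedBall 0 t := by
    have h7 : ∀ A : Set E3, A ∩ Metric.closedBall 0 t =
        (A ∩ Metric.closedBall 0 RO) ∩ Metric.closedBall 0 t := fun A => by
      rw [inter_assoc, inter_eq_right.mpr hbt]
    rw [h7 K, hK, ← h7]
  rw [h6]
  have hfin : ∀ s : ℝ, volume (Poly n h ∩ Metric.closedBall (0 : E3) s) ≠ ⊤ := fun s =>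
    ne_top_of_le_ne_top (measure_closedBall_lt_top (x := (0 : E3)) (r := s)).ne
      (measure_mono inter_subset_right)
  calc volume (Poly n h ∩ Metric.closedBall 0 t)
      = ENNReal.ofReal (volume (Poly n h ∩ Metric.closedBall 0 t)).toReal :=
        (ENNReal.ofReal_toReal (hfin t)).symm
    _ ≤ ENNReal.ofReal ((1 - kap t) * (volume (Poly n h ∩ Metric.closedBall 0 RO)).toReal) :=
        ENNReal.ofReal_le_ofReal h3
    _ = ENNReal.ofReal (1 - kap t) * volume (Poly n h ∩ Metric.closedBall 0 RO) := by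
        rw [ENNReal.ofReal_mul hk, ENNReal.ofReal_toReal (hfin RO)]
    _ ≤ ENNReal.ofReal (1 - kap t) * volume K := by
        rw [← hK]
        gcongr
        exact inter_subset_left

/-- The normals and heights of the finite set `S` of points seen from `c`. -/
noncomputable def nS (c : E3) (S : Finset E3) : S → E3 :=
  fun i => (1 / ‖(i : E3) - c‖) • ((i : E3) - c)

/-- The heights. -/
noncomputable def hS (c : E3) (S : Finset E3) : S → ℝ := fun i => ‖(i : E3) - c‖ / 2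

theorem pck_S {X : Set E3} (hX : ∀ x ∈ X, ∀ y ∈ X, x ≠ y → (2 : ℝ) ≤ dist x y) {c : E3}
    (hc : c ∈ X) {S : Finset E3} (hSX : ∀ y ∈ S, y ∈ X) (hcS : c ∉ S) :
    Pck (nS c S) (hS c S) := by
  have hSc : ∀ y ∈ S, y ≠ c := fun y hy h => hcS (h ▸ hy)
  refine ⟨fun i => ?_, fun i => ?_, fun i j hij => ?_⟩
  · have hw : 0 < ‖(i : E3) - c‖ := norm_pos_iff.mpr (sub_ne_zero.mpr (hSc i i.2))
    rw [nS, norm_smul, norm_div, norm_one, norm_norm]
    field_simp
  · have h1 := hX i (hSX i i.2) c hc (hSc i i.2)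
    rw [dist_eq_norm] at h1
    rw [hS]
    linarith
  · have hne : (i : E3) ≠ (j : E3) := fun h => hij (Subtype.ext h)
    have h1 := hX i (hSX i i.2) j (hSX j j.2) hne
    rw [dist_eq_norm] at h1
    have h2 := VX_inner ((i : E3) - c) ((j : E3) - c) (sub_ne_zero.mpr (hSc i i.2))
      (sub_ne_zero.mpr (hSc j j.2))
    have h3 : (i : E3) - c - ((j : E3) - c) = (i : E3) - (j : E3) := by abel
    rw [h3] at h2
    simp only [nS, hS]
    rw [h2]
    nlinarith

/-- From the volume inequality for the polyhedron to the cell of the packing. -/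
theorem cell_of_vol {X : Set E3} {c : E3} {S : Finset E3} (hSX : ∀ y ∈ S, y ∈ X) (hcS : c ∉ S)
    (hcell : ∀ x, dist x c ≤ RO → (∀ y ∈ S, dist x c ≤ dist x y) → ∀ y ∈ X, dist x c ≤ dist x y)
    {r : ℝ} (hr : 0 ≤ r) (hrR : 1 + r < R)
    (hvol : (volume (Poly (nS c S) (hS c S) ∩ Metric.closedBall 0 (1 + r))).toReal ≤
      (1 - kap (1 + r)) * (volume (Poly (nS c S) (hS c S) ∩ Metric.closedBall 0 RO)).toReal) :
    Ineq X c r := by
  have hSc : ∀ y ∈ S, y ≠ c := fun y hy h => hcS (h ▸ hy)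
  set V : Set E3 := {x : E3 | ∀ y ∈ X, dist x c ≤ dist x y} with hV
  have hK : ((fun v : E3 => v + c) ⁻¹' V) ∩ Metric.closedBall 0 RO =
      Poly (nS c S) (hS c S) ∩ Metric.closedBall 0 RO := by
    ext v
    constructor
    · rintro ⟨h1, h2⟩
      refine ⟨fun i => ?_, h2⟩
      exact (VX_half v c i (hSc i i.2)).1 (h1 i (hSX i i.2))
    · rintro ⟨h1, h2⟩
      refine ⟨?_, h2⟩
      have h3 : dist (v + c) c ≤ RO := by
        rw [dist_eq_norm, add_sub_cancel_right]
        exact mem_closedBall_zero_iff.1 h2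
      exact hcell (v + c) h3 fun y hy => (VX_half v c y (hSc y hy)).2 (h1 ⟨y, hy⟩)
  have key := ratio_of_vol _ _ _ hK (by linarith) hrR hvol
  have e1 : volume ((fun v : E3 => v + c) ⁻¹' V) = volume V :=
    measure_preimage_add_right volume c V
  have e2 : ((fun v : E3 => v + c) ⁻¹' V) ∩ Metric.closedBall 0 (1 + r) =
      (fun v : E3 => v + c) ⁻¹' (V ∩ Metric.closedBall c (1 + r)) := by
    ext v
    simp [dist_eq_norm]
  have e3 : volume ((fun v : E3 => v + c) ⁻¹' (V ∩ Metric.closedBall c (1 + r))) =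
      volume (V ∩ Metric.closedBall c (1 + r)) :=
    measure_preimage_add_right volume c _
  rw [e2, e3, e1] at key
  exact key

/-- The finite set of the neighbours at distance less than `2 RO` determines the cell. -/
theorem near_set {X : Set E3} (hX : ∀ x ∈ X, ∀ y ∈ X, x ≠ y → (2 : ℝ) ≤ dist x y) (c : E3) :
    ∃ S : Finset E3, (∀ y, y ∈ S ↔ y ≠ c ∧ y ∈ X ∧ dist y c < 2 * RO) ∧
    ∀ x, dist x c ≤ RO → (∀ y ∈ S, dist x c ≤ dist x y) → ∀ y ∈ X, dist x c ≤ dist x y := by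
  classical
  have hfinO : {y | y ∈ X ∧ dist y c < 2 * RO}.Finite := p_FIN X hX c (2 * RO)
  have hmem : ∀ y, y ∈ hfinO.toFinset.erase c ↔ y ≠ c ∧ y ∈ X ∧ dist y c < 2 * RO := by
    intro y
    rw [Finset.mem_erase, Set.Finite.mem_toFinset]
    exact Iff.rfl
  refine ⟨hfinO.toFinset.erase c, hmem, ?_⟩
  intro x hx hS y hy
  by_cases hyc : y = c
  · rw [hyc]
  · by_cases hd : dist y c < 2 * RO
    · exact hS y ((hmem y).mpr ⟨hyc, hy, hd⟩)
    · have h1 := dist_triangle y x c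
      rw [dist_comm y x] at h1
      linarith [not_lt.mp hd]

/-- **The cell version for a weight of the height.** -/
theorem NWf {X : Set E3} (hX : ∀ x ∈ X, ∀ y ∈ X, x ≠ y → (2 : ℝ) ≤ dist x y) {c : E3}
    (hc : c ∈ X) {r : ℝ} (hr : 0 ≤ r) (hrR : 1 + r < R) {w : ℝ → ℝ} (hw0 : ∀ h, 0 ≤ w h)
    (hw : FW (1 + r) w)
    (hsum : ∀ S : Finset E3, (∀ y ∈ S, y ∈ X ∧ y ≠ c ∧ dist y c < 2 * RO) →
      ∑ y ∈ S, w (dist y c / 2) ≤ 12) : Ineq X c r := by
  obtain ⟨S, hmem, hcell⟩ := near_set hX c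
  have hSX : ∀ y ∈ S, y ∈ X := fun y hy => ((hmem y).mp hy).2.1
  have hcS : c ∉ S := fun h => ((hmem c).mp h).1 rfl
  refine cell_of_vol hSX hcS hcell hr hrR ?_
  apply MXf _ _ (pck_S hX hc hSX hcS) (by linarith) hrR hw0 hw
  have h1 := hsum S fun y hy => ⟨((hmem y).mp hy).2.1, ((hmem y).mp hy).1, ((hmem y).mp hy).2.2⟩
  refine le_trans (le_of_eq ?_) h1
  rw [← Finset.sum_coe_sort S (fun y : E3 => w (dist y c / 2))]
  exact Finset.sum_congr rfl fun y _ => by rw [hS, dist_eq_norm]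

end Pool.Agent.SDL
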