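import Pool.Agent.SDL.Slope
import Pool.Agent.SDL.Wts

set_option autoImplicit false

/-!
# SDL: the local lemma with a linear bound, from a lower bound of the slope
-/

open MeasureTheory Set Real
open scoped RealInnerProductSpace

namespace Pool.Agent.SDL

open Pool.Agent.SDC

/-- The local lemma at `Opt`, with the exact value. -/
theorem CBc_opt {t h u c : ℝ} (ht1 : 1 ≤ t) (htR : t < R) (hh1 : 1 ≤ h) (hu : Opt t h u)
    (hc : Cst t h u ≤ c) : CBc t h c := by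
  obtain ⟨h1, h2, h3, h4, h5⟩ := opt_CB ht1 htR hh1 hu
  refine ⟨rr h u, _, h1, h2, h3, ?_, h4, h5.le.trans hc⟩
  refine le_trans ?_ (h4 1 one_pos)
  apply intervalIntegral.integral_nonneg (by positivity)
  intro ψ _
  exact le_max_right _ _

/-- The linear bound of the local lemma from a lower bound of the slope. -/
theorem CBc_of_slope {t s : ℝ} (ht1 : 1 ≤ t) (htR : t < R)
    (hN : ∀ h u, 1 ≤ h → h < t → h < u → t < u → u ≤ R →
      u * ggu t (kap t) u (h ^ 2 * s2 + u ^ 2 * c2) = t ^ 3 + bet t →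
      max (t ^ 2 - h ^ 2) 0 * (R ^ 2 - 1) ≤ (t ^ 2 - 1) * (u ^ 2 - h ^ 2) →
      s * (π / 3 * bet t) ≤ 15 * ∫ ψ in (0 : ℝ)..(π / 5),
        (max (h ^ 2 + (u ^ 2 - h ^ 2) * (c2 / cos ψ ^ 2) - t ^ 2) 0
          - kap t * ((u ^ 2 - h ^ 2) * (c2 / cos ψ ^ 2)))) :
    ∀ h, 1 ≤ h → h < t → CBc t h (π / 3 * bet t * (1 - s * (h - 1))) := by
  intro h h1 h2
  obtain ⟨u, h3, h4, h5, -, h7, h8⟩ := tRPX t h ht1 htR h1 (Or.inl h2)
  have hu : Opt t h u := ⟨h3, h4, h5, h7, h8⟩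
  exact CBc_opt ht1 htR h1 hu (slope_main (b := h) ht1 htR h2
    (fun h' u' a1 a2 a3 => hN h' u' a1 (by linarith) a3.1 a3.2.1 a3.2.2.1 a3.2.2.2.1
      a3.2.2.2.2) h u h1 le_rfl hu)

end Pool.Agent.SDL
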