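import Pool.Agent.SDL.P3_F6
import Pool.Agent.SDL.SlopeC

set_option autoImplicit false

/-!
# SDL: the target F for `W0 ≤ t²`, `t < 1.21`, from the bound of the slope
-/

open MeasureTheory Set Real
open scoped RealInnerProductSpace

namespace Pool.Agent.SDL

open Pool.Agent.SDC

/-- The bound of the slope at the best pentagon. -/
def SlopeBd (t s : ℝ) : Prop := ∀ h u, 1 ≤ h → h < t → h < u → t < u → u ≤ R →
  u * ggu t (kap t) u (h ^ 2 * s2 + u ^ 2 * c2) = t ^ 3 + bet t →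
  max (t ^ 2 - h ^ 2) 0 * (R ^ 2 - 1) ≤ (t ^ 2 - 1) * (u ^ 2 - h ^ 2) →
  s * (π / 3 * bet t) ≤ 15 * ∫ ψ in (0 : ℝ)..(π / 5),
    (max (h ^ 2 + (u ^ 2 - h ^ 2) * (c2 / cos ψ ^ 2) - t ^ 2) 0
      - kap t * ((u ^ 2 - h ^ 2) * (c2 / cos ψ ^ 2)))

/-- F for `W0 ≤ t²`, `t < 1.21`. -/
theorem F_mid_of {t : ℝ} (ht1 : 1 ≤ t) (htR : t < R) (hW : W0 ≤ t ^ 2) (ht : t < 1.21)
    (hN : SlopeBd t (1 / Lm t)) {ι : Type} [Fintype ι] (n : ι → E3) (h : ι → ℝ) (i : ι)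
    (e f : E3) (hP : Pck n h) (hI : Irr n h) (hO : Onb (n i) e f) (hi : h i < 1 + Lm t) :
    -(π / 3 * bet t * (1 - (h i - 1) / Lm t)) ≤ FI t n h i e f := by
  classical
  have hh1 : 1 ≤ h i := hP.2.1 i
  rcases le_or_gt t (h i) with hth | hth
  · exact F_disc_hi n h i e f t hP hI hO ht1 htR hW ht hth hi
  have hiR : h i < R := hth.trans htR
  obtain ⟨S, hS⟩ : ∃ S : Finset ι, ∀ j, NS n h i RO j ↔ j ∈ S :=
    ⟨Finset.univ.filter fun j => NS n h i RO j, fun j => by simp⟩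
  obtain ⟨S', hS'⟩ : ∃ S' : Finset ι, ∀ j, j ∈ S' ↔ (j ∈ S ∧ ad n h i j < rr (h i) R) :=
    ⟨S.filter fun j => ad n h i j < rr (h i) R, fun j => by simp⟩
  have hsub : S' ⊆ S := fun j hj => ((hS' j).mp hj).1
  rcases Nat.lt_or_ge S'.card 6 with h6 | h6
  · have hcb := CBc_of_slope ht1 htR hN (h i) hh1 hth
    have h1 := facet5 n h i e f t _ S S' hP hI hO ht1 htR hiR hcb hS hsub (by omega) (by
      intro j hj hj'
      by_contra hlt
      exact hj' ((hS' j).mpr ⟨hj, not_le.mp hlt⟩))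
    have h2 := p_RP ι n h i e f t hP hI hO ht1 htR
    have e1 : (1 : ℝ) / Lm t * (h i - 1) = (h i - 1) / Lm t := by ring
    rw [e1] at h1
    exact h1.trans h2
  · exact F_six_hi n h i e f t S S' hP hI hO ht1 htR hW ht hth hS hsub h6
      fun j hj => ((hS' j).mp hj).2

end Pool.Agent.SDL
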