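import Pool.Agent.SDL.SlopePI1
import Pool.Agent.SDL.P3_Fmid

set_option autoImplicit false

/-!
# SDL: the slope of the best pentagon for `W0 ≤ t²`, part 3: the bound of the slope
-/

open MeasureTheory Set Real

namespace Pool.Agent.SDL

open Pool.Agent.SDC

/-- The slope `(4.72 - 3.3 t)/0.175` is at most linear in `x²`. -/
theorem slope_lin {t x : ℝ} (ht1 : 1 ≤ t) (h0 : 0 ≤ x) (h1 : x ≤ 0.6384)
    (hx : x ^ 2 * (R ^ 2 - W0) = t ^ 2 - W0) :
    (4.72 - 3.3 * t) / 0.175 ≤ 4.8036 - 1.593429 * x ^ 2 := by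
  have hW := W0_lo'
  have hA := A_lo'
  have hx2 : 0 ≤ x ^ 2 := sq_nonneg x
  have hx3 : x ^ 2 ≤ 0.41 := by nlinarith
  have e1 : 1.17557 + 0.0845 * x ^ 2 ≤ t := by
    apply le_of_sq_le_sq _ (by linarith)
    have e2 : 0.201626 * x ^ 2 ≤ (R ^ 2 - W0) * x ^ 2 := mul_le_mul_of_nonneg_right hA.le hx2
    have e3 : x ^ 2 * x ^ 2 ≤ 0.41 * x ^ 2 := mul_le_mul_of_nonneg_right hx3 hx2
    nlinarith
  rw [div_le_iff₀ (by norm_num)]
  linarith

/-- The function `ggu` at the best pentagon. -/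
theorem ggu_q {t κ u W P q : ℝ} (hP0 : 0 < P) (hP : u ^ 2 = W + P) (hq0 : 0 ≤ q)
    (hq : q ^ 2 * P = t ^ 2 - W) : ggu t κ u W = (1 - κ) * W + P * q ^ 3 := by
  have h1 : max (t ^ 2 - W) 0 = q ^ 2 * P := by
    rw [← hq]
    exact max_eq_left (by positivity)
  have h2 : u ^ 2 - W = P := by linarith
  have h3 : √(q ^ 2 * P) = q * √P := by
    rw [Real.sqrt_mul (sq_nonneg q), Real.sqrt_sq hq0]
  have h4 : 0 < √P := Real.sqrt_pos.mpr hP0
  have h5 : √P ^ 2 = P := Real.sq_sqrt hP0.le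
  rw [ggu, h1, h2, h3]
  congr 1
  rw [div_eq_iff h4.ne']
  calc (q * √P) ^ 3 = √P ^ 2 * q ^ 3 * √P := by ring
    _ = P * q ^ 3 * √P := by rw [h5]

/-- **The bound of the slope.** -/
theorem slopeBd_mid {t s : ℝ} (ht1 : 1 ≤ t) (htR : t < R) (hW : W0 ≤ t ^ 2) (ht : t < 1.21)
    (hs : s ≤ (4.72 - 3.3 * t) / 0.175) : SlopeBd t s := by
  intro h u hh1 hht hhu htu huR hu5 hu6
  have hA1 := A_lo'
  have hA2 := A_hi'
  have hW1 := W0_lo'
  have hW2 := W0_hi'
  have hR0 := R_pos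
  have hR2 := R_sq_lo
  have hR2' := R_sq_hi
  have hc := c2_pos'
  have hs2 := s2_pos'
  have hT := tan36_pos
  have hh0 : 0 < h := by linarith
  have hu0 : 0 < u := by linarith
  have hhu2 : h ^ 2 < u ^ 2 := pow_lt_pow_left₀ hhu hh0.le (by norm_num)
  -- the parameter `x`
  obtain ⟨x, hx0, hx⟩ : ∃ x, 0 ≤ x ∧ x ^ 2 * (R ^ 2 - W0) = t ^ 2 - W0 := by
    refine ⟨√((t ^ 2 - W0) / (R ^ 2 - W0)), Real.sqrt_nonneg _, ?_⟩
    rw [Real.sq_sqrt (div_nonneg (by linarith) (by linarith)),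
      div_mul_cancel₀ _ (by linarith)]
  have hx1 : x ≤ 0.6384 := by
    apply le_of_sq_le_sq _ (by norm_num)
    have e1 : x ^ 2 * 0.201626 ≤ x ^ 2 * (R ^ 2 - W0) :=
      mul_le_mul_of_nonneg_left hA1.le (sq_nonneg x)
    have e2 : t ^ 2 ≤ 1.21 ^ 2 := pow_le_pow_left₀ (by linarith) ht.le 2
    norm_num at e2 ⊢
    linarith
  have hx3 : 0 ≤ x ^ 3 := pow_nonneg hx0 3
  have hx2 : 0 ≤ x ^ 2 := sq_nonneg x
  have hκ0 := (tKAP t ht1 htR).1
  have hκ1 := kap_hi ht1 htR hW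
  have hkl : kl x ≤ kap t := kap_lo hW ht1 htR hx0 hx1 hx
  obtain ⟨b1, -, b3⟩ := p_BQ t x hW ht1 htR hx0 hx
  have hβ0 := (tBET t ht1 htR).1
  have hS := hs.trans (slope_lin ht1 hx0 hx1 hx)
  set S := 4.8036 - 1.593429 * x ^ 2 with hSdef
  set κ := kap t with hκ
  set β := bet t with hβ
  have hβS : s * (π / 3 * β) ≤ S * (π / 3 * β) := by
    apply mul_le_mul_of_nonneg_right hS
    positivity
  -- the other quantities
  obtain ⟨P, hPdef⟩ : ∃ P, P = s2 * (u ^ 2 - h ^ 2) := ⟨_, rfl⟩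
  obtain ⟨W, hWdef⟩ : ∃ W, W = h ^ 2 * s2 + u ^ 2 * c2 := ⟨_, rfl⟩
  obtain ⟨D, hDdef⟩ : ∃ D, D = (1 - κ) * W0 + (R ^ 2 - W0) * x ^ 3 := ⟨_, rfl⟩
  have hP0 : 0 < P := by
    rw [hPdef]
    exact mul_pos hs2 (by linarith)
  have hP : u ^ 2 = W + P := by
    rw [hPdef, hWdef]
    linear_combination (-(u ^ 2)) * s2_add_c2
  have hAx : 0 ≤ (R ^ 2 - W0) * x ^ 3 := mul_nonneg (by linarith) hx3
  have hk1 : 0 ≤ 1 - κ := by linarith
  have hDk : (1 - κ) * W0 ≤ D := by
    rw [hDdef]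
    linarith
  have hD0 : 0 < D := by
    have : 0 < (1 - κ) * W0 := mul_pos (by linarith) (by linarith)
    linarith
  have hD : D = (1 - κ) * (t ^ 2 - (R ^ 2 - W0) * x ^ 2) + (R ^ 2 - W0) * x ^ 3 := by
    rw [hDdef]
    linear_combination (1 - κ) * hx
  have hRT : R ^ 2 - t ^ 2 = (R ^ 2 - W0) * (1 - x ^ 2) := by
    linear_combination hx
  rw [← hWdef] at hu5
  rw [b3, ← hDdef] at hu5
  rcases le_or_gt W (t ^ 2) with hWT | hWT
  · -- the ball of radius `t` reaches the sides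
    obtain ⟨q, hq0, hq⟩ : ∃ q, 0 ≤ q ∧ q ^ 2 * P = t ^ 2 - W := by
      refine ⟨√((t ^ 2 - W) / P), Real.sqrt_nonneg _, ?_⟩
      rw [Real.sq_sqrt (div_nonneg (by linarith only [hWT]) hP0.le),
        div_mul_cancel₀ _ hP0.ne']
    -- `q ≤ x`
    have hqx : q ≤ x := by
      apply le_of_sq_le_sq _ hx0
      have hht2 : h ^ 2 ≤ t ^ 2 := pow_le_pow_left₀ hh0.le hht.le 2
      rw [max_eq_left (by linarith only [hht2])] at hu6
      have e1 : (R ^ 2 - W0) * (u ^ 2 - h ^ 2) = P * (R ^ 2 - 1) := by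
        rw [RW_eq, hPdef]
        ring
      have e2 : (u ^ 2 - h ^ 2) * (R ^ 2 - t ^ 2) ≤ (u ^ 2 - t ^ 2) * (R ^ 2 - 1) := by
        linarith only [hu6]
      have e3 : u ^ 2 - t ^ 2 = P * (1 - q ^ 2) := by linarith only [hP, hq]
      rw [hRT, e3] at e2
      have e4 : P * (R ^ 2 - 1) * (1 - x ^ 2) ≤ P * (R ^ 2 - 1) * (1 - q ^ 2) := by
        calc P * (R ^ 2 - 1) * (1 - x ^ 2) =
              (u ^ 2 - h ^ 2) * ((R ^ 2 - W0) * (1 - x ^ 2)) := by
              rw [← e1]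
              ring
          _ ≤ P * (1 - q ^ 2) * (R ^ 2 - 1) := e2
          _ = _ := by ring
      have e5 : 0 < P * (R ^ 2 - 1) := mul_pos hP0 (by linarith only [hR2])
      have e6 := le_of_mul_le_mul_left e4 e5
      linarith only [e6]
    have hg := ggu_q (κ := κ) hP0 hP hq0 hq
    rw [hg] at hu5
    have hst := stat_q hu0 hR0 hP hq hD0 hD hRT hu5
    rw [hDdef, ← zf_wf, ← zf_wf] at hst
    have hrem := rem_kap hq0 hqx hx1 hκ0 (by linarith only [hκ1]) hst
    have hcore := PI_core hq0 hqx hx1 hkl b1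
    rw [← hSdef] at hcore
    have hz1 := zf_pos hx0 hx1
    have hzq := zf_le hq0 hqx hx1
    have hzq0 : 0 < zf x q := by linarith only [hz1, hzq]
    have hS0 : 0 ≤ S := by
      have e1 : x ^ 2 ≤ 0.6384 ^ 2 := pow_le_pow_left₀ hx0 hx1 2
      norm_num at e1
      linarith only [hSdef, e1]
    have hY : 0 ≤ QV q - κ * (c2 / s2) := by
      by_contra hcon
      push Not at hcon
      have e1 : 15 * tan (π / 5) * (R ^ 2 - W0) * zf x x * (QV q - κ * (c2 / s2)) < 0 := by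
        apply mul_neg_of_pos_of_neg _ hcon
        have : 0 < R ^ 2 - W0 := by linarith
        have : 0 < zf x x := by linarith
        positivity
      have e2 : 0 ≤ S * (π / 3 * β) * zf x q := by
        positivity
      linarith only [e1, e2, hcore]
    have hfin : S * (π / 3 * β) ≤ 15 * (P * tan (π / 5) * (QV q - κ * (c2 / s2))) := by
      have e1 : 15 * tan (π / 5) * (QV q - κ * (c2 / s2)) * ((R ^ 2 - W0) * zf x x) ≤
          15 * tan (π / 5) * (QV q - κ * (c2 / s2)) * (P * zf x q) := by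
        apply mul_le_mul_of_nonneg_left hrem
        positivity
      have e2 : S * (π / 3 * β) * zf x q ≤
          15 * (P * tan (π / 5) * (QV q - κ * (c2 / s2))) * zf x q := by
        linarith only [e1, hcore]
      exact le_of_mul_le_mul_right e2 hzq0
    have hint := int_lo (t := t) (h := h) (u := u) (κ := κ) (q := q) (w := 0) hhu2 hq0
      (by linarith only [hqx, hx1]) le_rfl (Or.inl rfl) (by
        rw [← hWdef, ← hPdef]
        linarith only [hq])
    rw [← hPdef, zero_mul, zero_add] at hint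
    linarith only [hint, hfin, hβS]
  · -- it does not
    have hg : ggu t κ u W = (1 - κ) * W := by
      rw [ggu, max_eq_right (by linarith only [hWT]), Real.sqrt_zero]
      simp
    rw [hg] at hu5
    have hst := stat_0 hu0 hR0 hP hD0 hD hRT hu5
    rw [hDdef, ← zf_wf, ← hDdef] at hst
    have hcore := PI_core le_rfl hx0 hx1 hkl b1
    rw [← hSdef] at hcore
    have hz1 := zf_pos hx0 hx1
    have hz0 := zf_le le_rfl hx0 hx1
    have hzw := zw_nonneg le_rfl hx0 hx1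
    have ez : zf x 0 = W0 + (R ^ 2 - W0) * x ^ 3 := by
      unfold zf
      ring
    have ew : wf 0 = W0 := by
      unfold wf
      ring
    have hQ0 : QV 0 = 0.2531 := by
      unfold QV
      norm_num
    set Y := QV 0 - κ * (c2 / s2) with hYdef
    have hcs := cs_hi
    have hcs0 : 0 ≤ c2 / s2 := (div_pos hc hs2).le
    have hY0 : 0 ≤ Y := by
      have : κ * (c2 / s2) ≤ 0.036 * 1.89443 := mul_le_mul hκ1 hcs hcs0 (by norm_num)
      norm_num at this
      rw [hYdef, hQ0]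
      linarith only [this]
    have hY1 : Y ≤ 0.2531 := by
      have : 0 ≤ κ * (c2 / s2) := mul_nonneg hκ0 hcs0
      rw [hYdef, hQ0]
      linarith only [this]
    have hint := int_lo (t := t) (h := h) (u := u) (κ := κ) (q := 0) (w := W - t ^ 2) hhu2
      le_rfl zero_le_one (by linarith only [hWT]) (Or.inr rfl) (by
        rw [← hWdef]
        ring)
    rw [← hPdef, ← hYdef] at hint
    rw [ez] at hcore hz0
    rw [ez, ew] at hzw
    set D1 := W0 + (R ^ 2 - W0) * x ^ 3 with hD1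
    have hD1p : 0 < D1 := by linarith only [hz0, hz1]
    have hDD : D = D1 - κ * W0 := by
      rw [hDdef, hD1]
      ring
    -- `D * (lower bound of the integral)`
    have e1 : tan (π / 5) * Y ≤ 0.1839 := by
      calc tan (π / 5) * Y ≤ 0.726543 * 0.2531 :=
            mul_le_mul tan36_hi.le hY1 hY0 (by norm_num)
        _ ≤ 0.1839 := by norm_num
    have e2 : 2 * R ^ 2 * (1 - κ) ≤ 2.292 * D := by
      have : 2 * R ^ 2 * (1 - κ) ≤ 2.292 * ((1 - κ) * W0) := by
        have f1 : 2 * R ^ 2 ≤ 2.292 * W0 := by linarith only [hR2', hW1]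
        have := mul_le_mul_of_nonneg_right f1 hk1
        linarith only [this]
      linarith only [this, hDk]
    have e3 : tan (π / 5) * Y * (D + 2 * R ^ 2 * (1 - κ)) ≤ D * (π / 5) := by
      have f1 : tan (π / 5) * Y * (D + 2 * R ^ 2 * (1 - κ)) ≤ 0.1839 * (3.292 * D) := by
        apply mul_le_mul e1 (by linarith only [e2]) _ (by norm_num)
        have : 0 ≤ 2 * R ^ 2 * (1 - κ) := by positivity
        linarith only [this, hD0]
      have f2 : 0.62 * D ≤ D * (π / 5) := by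
        have f3 := Real.pi_gt_d6
        have f4 : 0.62 ≤ π / 5 := by linarith only [f3]
        have f5 := mul_le_mul_of_nonneg_right f4 hD0.le
        linarith only [f5]
      linarith only [f1, f2, hD0]
    have e4 : tan (π / 5) * Y * ((R ^ 2 - W0) * (zf x x - κ * wf x)) ≤
        D * ((W - t ^ 2) * (π / 5) + P * tan (π / 5) * Y) := by
      have f1 := mul_le_mul_of_nonneg_left hst (mul_nonneg hT.le hY0)
      have f2 := mul_le_mul_of_nonneg_left e3 (show 0 ≤ W - t ^ 2 by linarith only [hWT])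
      linarith only [f1, f2]
    -- compare with `z`
    have e5 : zf x x * D ≤ (zf x x - κ * wf x) * D1 := by
      have := mul_le_mul_of_nonneg_left hzw hκ0
      rw [hDD]
      linarith only [this]
    have e6 : S * (π / 3 * β) * (D1 * D) ≤
        15 * ((W - t ^ 2) * (π / 5) + P * tan (π / 5) * Y) * (D1 * D) := by
      have g0 : 0 ≤ 15 * tan (π / 5) * (R ^ 2 - W0) * Y := by
        have : 0 < R ^ 2 - W0 := by linarith
        positivity
      have g1 := mul_le_mul_of_nonneg_right hcore hD0.le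
      have g2 := mul_le_mul_of_nonneg_left e5 g0
      have g3 := mul_le_mul_of_nonneg_right e4 hD1p.le
      linarith only [g1, g2, g3]
    have e7 := le_of_mul_le_mul_right e6 (mul_pos hD1p hD0)
    linarith only [e7, hint, hβS]

/-- The bound of the slope for the number `Lm t`. -/
theorem slopeBd_Lm {t : ℝ} (ht1 : 1 ≤ t) (htR : t < R) (hW : W0 ≤ t ^ 2) (ht : t < 1.21) :
    SlopeBd t (1 / Lm t) := by
  apply slopeBd_mid ht1 htR hW ht
  have h1 : 1.15 ≤ t := by
    have := W0_lo'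
    nlinarith
  rw [Lm_mid h1 ht, one_div_div]

/-- F for `W0 ≤ t²`, `t < 1.21`. -/
theorem p_F_mid {t : ℝ} (ht1 : 1 ≤ t) (htR : t < R) (hW : W0 ≤ t ^ 2) (ht : t < 1.21)
    {ι : Type} [Fintype ι] (n : ι → E3) (h : ι → ℝ) (i : ι)
    (e f : E3) (hP : Pck n h) (hI : Irr n h) (hO : Onb (n i) e f) (hi : h i < 1 + Lm t) :
    -(π / 3 * bet t * (1 - (h i - 1) / Lm t)) ≤ FI t n h i e f :=
  F_mid_of ht1 htR hW ht (slopeBd_Lm ht1 htR hW ht) n h i e f hP hI hO hi

end Pool.Agent.SDL
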