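import Pool.Agent.SDL.P3_Flow
import Pool.Agent.SDL.P3_Fhi
import Pool.Agent.SDL.SlopePI

set_option autoImplicit false

/-!
# SDL: the target `T_F`
-/

open MeasureTheory Set Real
open scoped RealInnerProductSpace

namespace Pool.Agent.SDL

open Pool.Agent.SDC

/-- **The chord of one facet** (target F of `Targets3`). -/
theorem p_F : T_F := by
  intro ι _ n h i e f t hP hI hO ht1 htR hi
  rcases le_or_gt (t ^ 2) W0 with h1 | h1
  · exact p_F_low ι n h i e f t hP hI hO ht1 h1 hi
  · rcases lt_or_ge t 1.21 with h2 | h2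
    · exact p_F_mid ht1 htR h1.le h2 n h i e f hP hI hO hi
    · exact p_F_hi n h i e f t hP hI hO h2 htR hi

end Pool.Agent.SDL
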