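import Pool.Agent.SDL.Targets3

set_option autoImplicit false

/-!
# SDL: high facets (the target T_H)
-/

open MeasureTheory Set Real
open scoped RealInnerProductSpace

namespace Pool.Agent.SDL

open Pool.Agent.SDC

/-! ## A facet contains a disc -/

theorem H_Gpos {t κ β h r : ℝ} (hX : t ^ 3 + β ≤ (1 - κ) * (h * cc r) ^ 3) :
    0 ≤ G t κ β h r := by
  have hc : 0 < cc r := cc_pos r
  have h3 : 0 ≤ ((1 - κ) * (h * cc r) ^ 3 - t ^ 3 - β) / cc r ^ 3 :=
    div_nonneg (by linarith) (by positivity)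
  have h4 : ((1 - κ) * (h * cc r) ^ 3 - t ^ 3 - β) / cc r ^ 3 =
      h ^ 3 - t ^ 3 / cc r ^ 3 - κ * h ^ 3 - β / cc r ^ 3 := by
    field_simp
    ring
  rw [G]
  have h5 := le_max_left (h ^ 3 - t ^ 3 / cc r ^ 3) 0
  linarith

theorem H_ccrr {h u : ℝ} (h0 : 0 < h) (hu : h ≤ u) : h * cc (rr h u) = u := by
  have hu0 : 0 ≤ u := h0.le.trans hu
  have h1 : 0 ≤ u ^ 2 / h ^ 2 - 1 := by
    rw [sub_nonneg, le_div_iff₀ (by positivity), one_mul]
    exact pow_le_pow_left₀ h0.le hu 2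
  have h2 : 1 + (u ^ 2 / h ^ 2 - 1) = (u / h) ^ 2 := by
    rw [div_pow]
    ring
  rw [cc, rr, Real.sq_sqrt h1, h2, Real.sqrt_sq (by positivity)]
  field_simp

/-- The facet `i` contains a disc: its sides have the distance `≥ m` from the origin. -/
theorem H_disc {ι : Type} [Fintype ι] (n : ι → E3) (h : ι → ℝ) (i : ι) (e f : E3) {t m : ℝ}
    (hP : Pck n h) (hI : Irr n h) (hO : Onb (n i) e f) (ht1 : 1 ≤ t) (htR : t < R)
    (hiR : h i < R) (him : h i < m) (hmR : m ≤ RP) (hm4 : m ^ 2 * (4 - h i ^ 2) ≤ 4)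
    (hX : t ^ 3 + bet t ≤ (1 - kap t) * m ^ 3) :
    2 * π * HH t (h i) (rr (h i) m) ≤ FI t n h i e f := by
  classical
  have hh1 : 1 ≤ h i := hP.2.1 i
  have hh0 : 0 < h i := by linarith
  have hiRO : h i < RO := hiR.trans R_lt_RO
  have ht0 : 0 < t := by linarith
  have hκ : 0 ≤ kap t := (tKAP t ht1 htR).1
  have hβ : 0 ≤ bet t := (tBET t ht1 htR).1
  have hgc : Continuous (G t (kap t) (bet t) (h i)) := tHCL.1 _ _ _ _
  have hρ0 : 0 ≤ rr (h i) m := Real.sqrt_nonneg _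
  have hGρ : 0 ≤ G t (kap t) (bet t) (h i) (rr (h i) m) :=
    H_Gpos (by rw [H_ccrr hh0 him.le]; exact hX)
  have hGpos : ∀ s, rr (h i) m ≤ s → 0 ≤ G t (kap t) (bet t) (h i) s := fun s hs =>
    p_SGN t (kap t) (bet t) (h i) (rr (h i) m) s ht0 hh0 hκ hβ hρ0 hs hGρ
  have hmono : ∀ r, rr (h i) m ≤ r → HH t (h i) (rr (h i) m) ≤ HH t (h i) r := fun r hr =>
    FBB_mono hgc hρ0 hr hGpos
  have hρP : rr (h i) m ≤ rr (h i) RP := FBB_rr hh0 (by linarith) hmR
  have key := tFCX ι n h i e f RP (HH t (h i) (rr (h i) m)) (fun _ => 0)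
    (G t (kap t) (bet t) (h i)) (Finset.univ.filter fun j => NS n h i RP j) hP.1
    (fun j => by linarith [hP.2.1 j]) hI hO hgc (him.trans_le hmR)
    (fun j hj => (tNSF ι n h i j hP hI hiRO hj.symm).1)
    (fun r hr => hmono r (hρP.trans hr))
    (by
      intro j hj
      have hNS : NS n h i RP j := (Finset.mem_filter.1 hj).2
      have had := (tNSF ι n h i j hP hI hiRO hNS.1).2.2 RP hNS
      have hdm := p_DMN (h i) (h j) ⟪n i, n j⟫ hh1 hiRO (hP.2.1 j) had.1 (hP.2.2 i j hNS.1)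
      have hge : rr (h i) m ≤ ad n h i j := by
        have h1 : h i ^ 2 * (1 + ad n h i j ^ 2) = Dq (h i) (h j) ⟪n i, n j⟫ := hdm.2.2.2
        have hh2 : h i ^ 2 < 4 := by
          have := pow_lt_pow_left₀ hiRO hh0.le two_ne_zero
          rw [RO_sq] at this
          linarith
        have h2 : m ^ 2 ≤ 4 / (4 - h i ^ 2) := by
          rw [le_div_iff₀ (by linarith)]
          exact hm4
        have h3 : m ^ 2 / h i ^ 2 ≤ 1 + ad n h i j ^ 2 := by
          rw [div_le_iff₀ (by positivity)]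
          linarith [hdm.1]
        rw [rr]
        exact Real.sqrt_le_iff.2 ⟨had.2.1.le, by linarith⟩
      apply le_of_eq
      apply intervalIntegral.integral_zero_ae
      have hne : ∀ᵐ ψ : ℝ, ψ ≠ π / 2 := by
        rw [ae_iff]
        simp
      filter_upwards [hne] with ψ hψ hmem
      rw [uIoc_of_le (by positivity)] at hmem
      have hlt : ψ < π / 2 := lt_of_le_of_ne hmem.2 hψ
      have hcos : 0 < cos ψ := cos_pos_of_mem_Ioo ⟨by linarith [hmem.1, Real.pi_pos], hlt⟩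
      have hle : ad n h i j ≤ ad n h i j / cos ψ := by
        rw [le_div_iff₀ hcos]
        exact mul_le_of_le_one_right had.2.1.le (cos_le_one ψ)
      have h3 := hmono (ad n h i j / cos ψ) (hge.trans hle)
      apply max_eq_right
      have h4 : HH t (h i) (ad n h i j / cos ψ) =
        ∫ s in (0 : ℝ)..(ad n h i j / cos ψ), G t (kap t) (bet t) (h i) s * s := rfl
      linarith)
    (fun j hj => Finset.mem_filter.2 ⟨Finset.mem_univ j, hj⟩)
  rw [Finset.sum_const_zero, mul_zero, sub_zero] at key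
  exact key

/-- The integral over a disc. -/
theorem H_HH {t h m : ℝ} (ht0 : 0 < t) (hth : t ≤ h) (hm : h < m) :
    HH t h (rr h m) =
      (m - h) * ((1 - kap t) * h * (m + h) / 2 - (t ^ 3 + bet t) / m) := by
  have hh0 : 0 < h := by linarith
  have hm0 : 0 < m := by linarith
  obtain ⟨-, -, hBF⟩ := p_BF
  rw [tHB t h (rr h m) ht0 hh0 (Real.sqrt_nonneg _), H_ccrr hh0 hm.le, bb,
    hBF t m ht0 (by linarith), hBF t h ht0 hth]
  field_simp
  ring

/-! ## Polynomial inequalities -/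

theorem H_M (x : ℝ) (h0 : 0 ≤ x) (h1 : x ≤ 0.083409) :
    (1.2357 + 0.554 * x) ^ 2 * (4 - (1.175 + x) ^ 2) ≤ 4 := by
  have hv : 0 ≤ 0.083409 - x := by linarith
  linarith [pow_nonneg hv 4, mul_nonneg h0 (pow_nonneg hv 3),
    mul_nonneg (pow_nonneg h0 2) (pow_nonneg hv 2), mul_nonneg (pow_nonneg h0 3) hv,
    pow_nonneg h0 4]

/-- The value of the disc, `Q = R * W0`. -/
theorem H_V1 (x Q : ℝ) (hQ : Q ≤ 1.73908) (h0 : 0 ≤ x) (h1 : x ≤ 0.02) :
    0.00053 + 0.138 * x ≤ (1.2357 + 0.554 * x - (1.175 + x)) *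
      ((1.175 + x) * (1.2357 + 0.554 * x + (1.175 + x)) / 2 - Q / (1.2357 + 0.554 * x)) := by
  have hm : 0 < 1.2357 + 0.554 * x := by linarith
  have hv : 0 ≤ 0.02 - x := by linarith
  have hp : (1.2357 + 0.554 * x) * (0.00053 + 0.138 * x) ≤
      (0.0607 - 0.446 * x) *
        ((1.175 + x) * (1.2357 + 0.554 * x) * (2.4107 + 1.554 * x) / 2 - 1.73908) := by
    linarith [pow_nonneg hv 4, mul_nonneg h0 (pow_nonneg hv 3),
      mul_nonneg (pow_nonneg h0 2) (pow_nonneg hv 2), mul_nonneg (pow_nonneg h0 3) hv,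
      pow_nonneg h0 4]
  have hq : 0 ≤ (0.0607 - 0.446 * x) * (1.73908 - Q) :=
    mul_nonneg (by linarith) (by linarith)
  have e : (1.2357 + 0.554 * x - (1.175 + x)) *
      ((1.175 + x) * (1.2357 + 0.554 * x + (1.175 + x)) / 2 - Q / (1.2357 + 0.554 * x)) =
      ((0.0607 - 0.446 * x) *
        ((1.175 + x) * (1.2357 + 0.554 * x) * (2.4107 + 1.554 * x) / 2 - Q)) /
        (1.2357 + 0.554 * x) := by
    field_simp
    ring
  rw [e, le_div_iff₀ hm]
  linarith

theorem H_V2 (x Q : ℝ) (hQ : Q ≤ 1.73908) (h0 : 0.02 ≤ x) (h1 : x ≤ 0.083409) :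
    0.0033 ≤ (1.2357 + 0.554 * x - (1.175 + x)) *
      ((1.175 + x) * (1.2357 + 0.554 * x + (1.175 + x)) / 2 - Q / (1.2357 + 0.554 * x)) := by
  have hm : 0 < 1.2357 + 0.554 * x := by linarith
  have hu : 0 ≤ x - 0.02 := by linarith
  have hv : 0 ≤ 0.083409 - x := by linarith
  have hp : (1.2357 + 0.554 * x) * 0.0033 ≤
      (0.0607 - 0.446 * x) *
        ((1.175 + x) * (1.2357 + 0.554 * x) * (2.4107 + 1.554 * x) / 2 - 1.73908) := by
    linarith [pow_nonneg hv 4, mul_nonneg hu (pow_nonneg hv 3),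
      mul_nonneg (pow_nonneg hu 2) (pow_nonneg hv 2), mul_nonneg (pow_nonneg hu 3) hv,
      pow_nonneg hu 4]
  have hq : 0 ≤ (0.0607 - 0.446 * x) * (1.73908 - Q) :=
    mul_nonneg (by linarith) (by linarith)
  have e : (1.2357 + 0.554 * x - (1.175 + x)) *
      ((1.175 + x) * (1.2357 + 0.554 * x + (1.175 + x)) / 2 - Q / (1.2357 + 0.554 * x)) =
      ((0.0607 - 0.446 * x) *
        ((1.175 + x) * (1.2357 + 0.554 * x) * (2.4107 + 1.554 * x) / 2 - Q)) /
        (1.2357 + 0.554 * x) := by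
    field_simp
    ring
  rw [e, le_div_iff₀ hm]
  linarith

theorem H_V3 (x Q : ℝ) (hQ : Q ≤ 1.73908) (h0 : 0.0331 ≤ x) (h1 : x ≤ 0.083409) :
    0.0046 ≤ (1.2357 + 0.554 * x - (1.175 + x)) *
      ((1.175 + x) * (1.2357 + 0.554 * x + (1.175 + x)) / 2 - Q / (1.2357 + 0.554 * x)) := by
  have hm : 0 < 1.2357 + 0.554 * x := by linarith
  have hu : 0 ≤ x - 0.0331 := by linarith
  have hv : 0 ≤ 0.083409 - x := by linarith
  have hp : (1.2357 + 0.554 * x) * 0.0046 ≤
      (0.0607 - 0.446 * x) *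
        ((1.175 + x) * (1.2357 + 0.554 * x) * (2.4107 + 1.554 * x) / 2 - 1.73908) := by
    linarith [pow_nonneg hv 4, mul_nonneg hu (pow_nonneg hv 3),
      mul_nonneg (pow_nonneg hu 2) (pow_nonneg hv 2), mul_nonneg (pow_nonneg hu 3) hv,
      pow_nonneg hu 4]
  have hq : 0 ≤ (0.0607 - 0.446 * x) * (1.73908 - Q) :=
    mul_nonneg (by linarith) (by linarith)
  have e : (1.2357 + 0.554 * x - (1.175 + x)) *
      ((1.175 + x) * (1.2357 + 0.554 * x + (1.175 + x)) / 2 - Q / (1.2357 + 0.554 * x)) =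
      ((0.0607 - 0.446 * x) *
        ((1.175 + x) * (1.2357 + 0.554 * x) * (2.4107 + 1.554 * x) / 2 - Q)) /
        (1.2357 + 0.554 * x) := by
    field_simp
    ring
  rw [e, le_div_iff₀ hm]
  linarith

theorem H_T1 (t : ℝ) (h0 : 1.127 ≤ t) (h1 : t ≤ 1.176) :
    (1.1 * t - 1.24) * (1 - 3 * (1.1 * t - 1.24)) *
        (1.73908 * (9 * t ^ 2 - 5 * t ^ 3 - 3) - 1.32502 * t ^ 3) ≤
      2 * (0.00053 * (1 - 3 * (1.1 * t - 1.24)) + 0.07245 * (1.1 * t - 1.24)) *
        (9 * t ^ 2 - 5 * t ^ 3 - 3) := by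
  rcases le_total t 1.15 with h | h
  · have hu : 0 ≤ t - 1.127 := by linarith
    have hv : 0 ≤ 1.15 - t := by linarith
    linarith [pow_nonneg hv 5, mul_nonneg hu (pow_nonneg hv 4),
      mul_nonneg (pow_nonneg hu 2) (pow_nonneg hv 3), mul_nonneg (pow_nonneg hu 3)
      (pow_nonneg hv 2), mul_nonneg (pow_nonneg hu 4) hv, pow_nonneg hu 5]
  · have hu : 0 ≤ t - 1.15 := by linarith
    have hv : 0 ≤ 1.176 - t := by linarith
    linarith [pow_nonneg hv 5, mul_nonneg hu (pow_nonneg hv 4),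
      mul_nonneg (pow_nonneg hu 2) (pow_nonneg hv 3), mul_nonneg (pow_nonneg hu 3)
      (pow_nonneg hv 2), mul_nonneg (pow_nonneg hu 4) hv, pow_nonneg hu 5]

theorem H_T2 (t : ℝ) (h0 : 1.127 ≤ t) (h1 : t ≤ 1.176) :
    (1.1 * t - 1.24) * (1.73908 * (9 * t ^ 2 - 5 * t ^ 3 - 3) - 1.32502 * t ^ 3) ≤
      2 * 0.0033 * (9 * t ^ 2 - 5 * t ^ 3 - 3) := by
  have hu : 0 ≤ t - 1.127 := by linarith
  have hv : 0 ≤ 1.176 - t := by linarith
  linarith [pow_nonneg hv 4, mul_nonneg hu (pow_nonneg hv 3),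
    mul_nonneg (pow_nonneg hu 2) (pow_nonneg hv 2), mul_nonneg (pow_nonneg hu 3) hv,
    pow_nonneg hu 4]

theorem H_Q (q : ℝ) (h0 : 0 ≤ q) (h1 : q ≤ 0.64) :
    (0.0532 + 0.0944 * q ^ 2) *
        (0.12687 * (1 - q) ^ 2 * (1 + 2 * q) - 0.0121 * (1 - q ^ 2) ^ 2) ≤
      2 * (0.9912 * 0.0046 - 0.0367 * 0.2538 * q ^ 3) := by
  have hv : 0 ≤ 0.64 - q := by linarith
  linarith [pow_nonneg hv 6, mul_nonneg h0 (pow_nonneg hv 5),
    mul_nonneg (pow_nonneg h0 2) (pow_nonneg hv 4), mul_nonneg (pow_nonneg h0 3)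
    (pow_nonneg hv 3), mul_nonneg (pow_nonneg h0 4) (pow_nonneg hv 2),
    mul_nonneg (pow_nonneg h0 5) hv, pow_nonneg h0 6]

/-! ## The two cases -/

/-- The case `t² ≤ W0`. -/
theorem H_A (t x k S Q s : ℝ) (ht : 1 ≤ t) (ht1 : t ≤ 1.1756) (hx0 : 0 ≤ x)
    (hx1 : x ≤ 0.083409) (hk : 0 < k) (hS : 1.32502 ≤ S)
    (hkS : k * S = 9 * t ^ 2 - 5 * t ^ 3 - 3) (hQ : Q ≤ 1.73908)
    (hs : s = max 0 (0.025 + 1.1 * (t - 1.15))) (hsx : 0.525 * s ≤ x * (1 - 3 * s)) :
    (k * Q - t ^ 3) * s / 2 ≤ k * ((1.2357 + 0.554 * x - (1.175 + x)) *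
      ((1.175 + x) * (1.2357 + 0.554 * x + (1.175 + x)) / 2 - Q / (1.2357 + 0.554 * x))) := by
  have hD := ds1_D t ht ht1
  have hV1 := H_V1 x Q hQ hx0
  have hV2 := fun h => H_V2 x Q hQ h hx1
  generalize (1.2357 + 0.554 * x - (1.175 + x)) *
      ((1.175 + x) * (1.2357 + 0.554 * x + (1.175 + x)) / 2 - Q / (1.2357 + 0.554 * x)) = V at *
  have hV0 : 0 ≤ V := by
    rcases le_total x 0.02 with h | h
    · linarith [hV1 h]
    · linarith [hV2 h]
  rcases le_total (0.025 + 1.1 * (t - 1.15)) 0 with h | h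
  · rw [max_eq_left h] at hs
    rw [hs]
    have := mul_nonneg hk.le hV0
    linarith
  · rw [max_eq_right h] at hs
    have hs0 : 0 ≤ s := by linarith
    have hs' : s = 1.1 * t - 1.24 := by linarith
    have ht0 : 1.127 ≤ t := by linarith
    have hT1 := H_T1 t ht0 (by linarith)
    have hT2 := H_T2 t ht0 (by linarith)
    rw [← hs'] at hT1 hT2
    have h3 : 0 ≤ t ^ 3 := by positivity
    have hs1 : 0 < 1 - 3 * s := by linarith
    -- multiply by `S`
    have key : (Q * (9 * t ^ 2 - 5 * t ^ 3 - 3) - S * t ^ 3) * s ≤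
        2 * (9 * t ^ 2 - 5 * t ^ 3 - 3) * V := by
      generalize 9 * t ^ 2 - 5 * t ^ 3 - 3 = D at *
      have g1 : Q * D - S * t ^ 3 ≤ 1.73908 * D - 1.32502 * t ^ 3 := by
        have k1 := mul_le_mul_of_nonneg_right hQ (show 0 ≤ D by linarith)
        have k2 := mul_le_mul_of_nonneg_right hS h3
        linarith
      have g2 := mul_le_mul_of_nonneg_right g1 hs0
      rcases le_total x 0.02 with h' | h'
      · have g3 : 0.00053 * (1 - 3 * s) + 0.07245 * s ≤ V * (1 - 3 * s) := by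
          have k3 := mul_le_mul_of_nonneg_right (hV1 h') hs1.le
          linarith
        have g4 : (0.00053 * (1 - 3 * s) + 0.07245 * s) * D ≤ V * (1 - 3 * s) * D :=
          mul_le_mul_of_nonneg_right g3 (by linarith)
        have g5 : (Q * D - S * t ^ 3) * s * (1 - 3 * s) ≤ 2 * D * V * (1 - 3 * s) := by
          have k5 := mul_le_mul_of_nonneg_right g2 hs1.le
          linarith
        exact le_of_mul_le_mul_right g5 hs1
      · have g3 : 0.0033 * D ≤ V * D := mul_le_mul_of_nonneg_right (hV2 h') (by linarith)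
        linarith
    rw [← hkS] at key
    have hSpos : 0 < S := by linarith
    have e4 : S * ((k * Q - t ^ 3) * s) ≤ S * (2 * (k * V)) := by linarith
    have e5 := le_of_mul_le_mul_left e4 hSpos
    linarith

/-- The case `t² ≥ W0`. -/
theorem H_B (t x q k A Q r β s : ℝ) (ht0 : 1.17557 ≤ t) (hx1 : x ≤ 0.083409)
    (hx0 : 0.0331 ≤ x) (hk : 0.9912 ≤ k)
    (hQ : Q ≤ 1.73908) (hA0 : 0.2016259 < A) (hA1 : A < 0.2016267)
    (hq0 : 0 ≤ q) (hq1 : q ≤ 0.64)
    (hqA' : t ^ 2 - 1.3819661 ≤ q ^ 2 * A) (hr0 : 1.258408 < r) (hr1 : r < 1.258409)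
    (hβ : β ≤ r * A / 2 * (1 - q) ^ 2 * (1 + 2 * q) - 3 * A ^ 2 / (8 * r) * (1 - q ^ 2) ^ 2)
    (hs : s = 0.025 + 1.1 * (t - 1.15)) :
    β * s / 2 ≤ (1.2357 + 0.554 * x - (1.175 + x)) *
      (k * (1.175 + x) * (1.2357 + 0.554 * x + (1.175 + x)) / 2 -
        (k * Q + r * A * q ^ 3) / (1.2357 + 0.554 * x)) := by
  have hV3 := H_V3 x Q hQ hx0 hx1
  have hm : 0 < 1.2357 + 0.554 * x := by linarith
  have e : (1.2357 + 0.554 * x - (1.175 + x)) *
      (k * (1.175 + x) * (1.2357 + 0.554 * x + (1.175 + x)) / 2 -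
        (k * Q + r * A * q ^ 3) / (1.2357 + 0.554 * x)) =
      k * ((1.2357 + 0.554 * x - (1.175 + x)) *
      ((1.175 + x) * (1.2357 + 0.554 * x + (1.175 + x)) / 2 - Q / (1.2357 + 0.554 * x))) -
      (0.0607 - 0.446 * x) / (1.2357 + 0.554 * x) * (r * A * q ^ 3) := by
    field_simp
    ring
  rw [e]
  generalize (1.2357 + 0.554 * x - (1.175 + x)) *
      ((1.175 + x) * (1.2357 + 0.554 * x + (1.175 + x)) / 2 - Q / (1.2357 + 0.554 * x)) = V at *
  have h1 : (0.0607 - 0.446 * x) / (1.2357 + 0.554 * x) ≤ 0.0367 := by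
    rw [div_le_iff₀ hm]
    linarith
  have hrA0' := mul_le_mul hr1.le hA1.le (show 0 ≤ A by linarith only [hA0]) (by norm_num)
  have hrA : r * A ≤ 0.2538 := by
    norm_num at hrA0'
    linarith only [hrA0']
  have hrA0 : 0 < r * A := by positivity
  have hq3 : 0 ≤ q ^ 3 := by positivity
  have h2 : (0.0607 - 0.446 * x) / (1.2357 + 0.554 * x) * (r * A * q ^ 3) ≤
      0.0367 * (0.2538 * q ^ 3) := by
    have k1 : r * A * q ^ 3 ≤ 0.2538 * q ^ 3 := mul_le_mul_of_nonneg_right hrA hq3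
    have k2 : 0 ≤ r * A * q ^ 3 := by positivity
    exact mul_le_mul h1 k1 k2 (by norm_num)
  have h3 : 0.9912 * 0.0046 ≤ k * V := mul_le_mul hk hV3 (by norm_num) (by linarith)
  -- the bound of `β`
  have hβ' : β ≤ 0.12687 * (1 - q) ^ 2 * (1 + 2 * q) - 0.0121 * (1 - q ^ 2) ^ 2 := by
    have c1 : r * A / 2 ≤ 0.12687 := by
      norm_num at hrA0'
      linarith only [hrA0']
    have c2 : 0.0121 ≤ 3 * A ^ 2 / (8 * r) := by
      have c0 := mul_le_mul hA0.le hA0.le (by norm_num) (show 0 ≤ A by linarith only [hA0])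
      norm_num at c0
      rw [le_div_iff₀ (by linarith)]
      linarith only [c0, hr1]
    have c3 : r * A / 2 * ((1 - q) ^ 2 * (1 + 2 * q)) ≤ 0.12687 * ((1 - q) ^ 2 * (1 + 2 * q)) :=
      mul_le_mul_of_nonneg_right c1 (by positivity)
    have c4 : 0.0121 * (1 - q ^ 2) ^ 2 ≤ 3 * A ^ 2 / (8 * r) * (1 - q ^ 2) ^ 2 :=
      mul_le_mul_of_nonneg_right c2 (by positivity)
    linarith
  have hb0 : 0 ≤ 0.12687 * (1 - q) ^ 2 * (1 + 2 * q) - 0.0121 * (1 - q ^ 2) ^ 2 := by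
    have : 0.12687 * (1 - q) ^ 2 * (1 + 2 * q) - 0.0121 * (1 - q ^ 2) ^ 2 =
        (1 - q) ^ 2 * (0.12687 * (1 + 2 * q) - 0.0121 * (1 + q) ^ 2) := by ring
    rw [this]
    exact mul_nonneg (sq_nonneg _) (by nlinarith only [hq0, hq1])
  -- the bound of `s`
  have ht : t ≤ 1.17558 + 0.0858 * q ^ 2 := by
    have h4 : t ^ 2 ≤ (1.17558 + 0.0858 * q ^ 2) ^ 2 := by
      linarith [sq_nonneg (q ^ 2), sq_nonneg q, mul_nonneg (sq_nonneg q)
        (show 0 ≤ 0.2016267 - A by linarith)]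
    exact le_of_sq_le_sq h4 (by positivity)
  have hs1 : s ≤ 0.0532 + 0.0944 * q ^ 2 := by linarith [sq_nonneg q]
  have hs0 : 0 ≤ s := by linarith
  have h5 : β * s ≤ (0.0532 + 0.0944 * q ^ 2) *
      (0.12687 * (1 - q) ^ 2 * (1 + 2 * q) - 0.0121 * (1 - q ^ 2) ^ 2) := by
    calc β * s ≤ (0.12687 * (1 - q) ^ 2 * (1 + 2 * q) - 0.0121 * (1 - q ^ 2) ^ 2) * s :=
          mul_le_mul_of_nonneg_right hβ' hs0
      _ ≤ (0.12687 * (1 - q) ^ 2 * (1 + 2 * q) - 0.0121 * (1 - q ^ 2) ^ 2) *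
          (0.0532 + 0.0944 * q ^ 2) := mul_le_mul_of_nonneg_left hs1 hb0
      _ = _ := mul_comm _ _
  have h6 := H_Q q hq0 hq1
  linarith

/-! ## The target -/

/-- A value of a credit which is at least `gu t`, for `t < 1.21`. -/
noncomputable def guo (t : ℝ) : ℝ := max 0 (0.025 + 1.1 * (t - 1.15))

theorem H_Lm {t h : ℝ} (ht : t < 1.21) (h1 : 0.175 ≤ (h - 1) * (1 - 3 * guo t)) :
    0 ≤ h - 1.175 ∧ 0.525 * guo t ≤ (h - 1.175) * (1 - 3 * guo t) ∧ t ≤ h := by
  have hs0 : 0 ≤ guo t := le_max_left _ _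
  have hs2 : 0.025 + 1.1 * (t - 1.15) ≤ guo t := le_max_right _ _
  have hs1 : guo t ≤ 0.091 := max_le (by norm_num) (by linarith)
  have h2 : 0.525 * guo t ≤ (h - 1.175) * (1 - 3 * guo t) := by linarith
  have h3 : 0 ≤ h - 1.175 := by
    by_contra hc
    have := mul_neg_of_neg_of_pos (not_le.1 hc) (show 0 < 1 - 3 * guo t by linarith)
    linarith
  have h4 : 0 ≤ (h - 1.175) * guo t := mul_nonneg h3 hs0
  exact ⟨h3, h2, by linarith⟩

theorem H_Kq {q : ℝ} (h0 : 0 ≤ q) (h1 : q ≤ 0.64) : Kq q ≤ 0.15072 := by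
  have hv : 0 ≤ 0.64 - q := by linarith
  have h2 : 0 ≤ q ^ 2 := by positivity
  have h5 : 0 ≤ q ^ 5 := by positivity
  have e1 : q ^ 4 ≤ 0.4096 * q ^ 2 := by
    have : q ^ 2 ≤ 0.4096 := by nlinarith
    nlinarith
  have e2 : q ^ 7 ≤ q ^ 5 := by
    have : q ^ 2 ≤ 1 := by nlinarith
    nlinarith
  rw [Kq]
  linarith

/-- High facets, with a large value of a credit. -/
theorem H_high {ι : Type} [Fintype ι] (n : ι → E3) (h : ι → ℝ) (i : ι) (e f : E3) {t : ℝ}
    (hP : Pck n h) (hI : Irr n h) (hO : Onb (n i) e f) (ht1 : 1 ≤ t) (ht : t < 1.21)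
    (hh : 0.175 ≤ (h i - 1) * (1 - 3 * guo t)) (hhR : h i < R) :
    π / 3 * bet t * (3 * guo t) ≤ FI t n h i e f := by
  obtain ⟨hx0, hsx, hth⟩ := H_Lm ht hh
  have htR : t < R := by linarith [R_lo]
  have hgu : guo t = max 0 (0.025 + 1.1 * (t - 1.15)) := rfl
  have hRhi := R_hi'
  have hRlo := R_lo'
  have ht0 : 0 < t := by linarith
  obtain ⟨x, hx⟩ : ∃ x, x = h i - 1.175 := ⟨_, rfl⟩
  have hhx : h i = 1.175 + x := by linarith
  rw [← hx] at hx0 hsx
  have hx1 : x ≤ 0.083409 := by linarith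
  have hs0 : 0 ≤ guo t := by
    rw [hgu]
    exact le_max_left _ _
  have hs2 : 0.025 + 1.1 * (t - 1.15) ≤ guo t := by
    rw [hgu]
    exact le_max_right _ _
  have hs1 : guo t ≤ 0.091 := by
    rw [hgu]
    exact max_le (by norm_num) (by linarith)
  have him : h i < 1.2357 + 0.554 * x := by linarith
  have hmR : 1.2357 + 0.554 * x ≤ RP := by
    rw [RP]
    exact Real.le_sqrt_of_sq_le (by nlinarith only [hx0, hx1])
  have hm4 : (1.2357 + 0.554 * x) ^ 2 * (4 - h i ^ 2) ≤ 4 := by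
    rw [hhx]
    exact H_M x hx0 hx1
  have hβ := (tBET t ht1 htR).1
  have hκ := (tKAP t ht1 htR).1
  have hQ := ds1_RW
  -- the two cases
  have key : t ^ 3 + bet t ≤ (1 - kap t) * (1.2357 + 0.554 * x) ^ 3 ∧
      bet t * guo t / 2 ≤ HH t (h i) (rr (h i) (1.2357 + 0.554 * x)) := by
    rw [H_HH ht0 hth him, hhx]
    rcases le_total (t ^ 2) W0 with hW | hW
    · obtain ⟨-, hk⟩ := tKEX
      have hkt := hk t ht1 hW
      have hmax : max (t ^ 2 - W0) 0 = 0 := max_eq_right (by linarith)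
      have hbet : bet t = (1 - kap t) * (R * W0) - t ^ 3 := by
        rw [bet, gg, hmax, Real.sqrt_zero]
        ring
      have hS0 := S0_lo
      have hS0' := S0_pos
      have hπ := Real.pi_lt_d6
      have hπ0 := Real.pi_pos
      have hS : 1.32502 ≤ 30 * S0 / π := by
        rw [le_div_iff₀ hπ0]
        linarith
      have hkS : (1 - kap t) * (30 * S0 / π) = 9 * t ^ 2 - 5 * t ^ 3 - 3 := by
        rw [mul_div_assoc', div_eq_iff hπ0.ne']
        linarith
      have ht1' : t ≤ 1.1756 := by nlinarith only [W0_hi, hW, ht0]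
      have hDt := ds1_D t ht1 ht1'
      have hkpos : 0 < 1 - kap t := by
        by_contra hc
        have : (1 - kap t) * (30 * S0 / π) ≤ 0 :=
          mul_nonpos_of_nonpos_of_nonneg (not_lt.mp hc) (by positivity)
        linarith
      constructor
      · rw [hbet]
        have h1 : (1.2357 : ℝ) ^ 3 ≤ (1.2357 + 0.554 * x) ^ 3 :=
          pow_le_pow_left₀ (by norm_num) (by linarith) 3
        norm_num at h1
        have h2 : (1 - kap t) * (R * W0) ≤ (1 - kap t) * (1.2357 + 0.554 * x) ^ 3 :=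
          mul_le_mul_of_nonneg_left (by norm_num; linarith) hkpos.le
        linarith
      · have h3 := H_A t x (1 - kap t) (30 * S0 / π) (R * W0) (guo t) ht1 ht1' hx0 hx1 hkpos hS
          hkS hQ.2.le hgu hsx
        have h4 : (1.2357 + 0.554 * x - (1.175 + x)) *
            ((1 - kap t) * (1.175 + x) * (1.2357 + 0.554 * x + (1.175 + x)) / 2 -
              (t ^ 3 + bet t) / (1.2357 + 0.554 * x)) =
            (1 - kap t) * ((1.2357 + 0.554 * x - (1.175 + x)) *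
            ((1.175 + x) * (1.2357 + 0.554 * x + (1.175 + x)) / 2 -
              R * W0 / (1.2357 + 0.554 * x))) := by
          rw [hbet]
          ring
        rw [h4, hbet]
        exact h3
    · have hA : 0 < R ^ 2 - W0 := by linarith [W0_lt]
      have hr : 0 ≤ (t ^ 2 - W0) / (R ^ 2 - W0) := div_nonneg (by linarith) hA.le
      obtain ⟨q, hq0, hq⟩ : ∃ q : ℝ, 0 ≤ q ∧ q ^ 2 * (R ^ 2 - W0) = t ^ 2 - W0 :=
        ⟨√((t ^ 2 - W0) / (R ^ 2 - W0)), Real.sqrt_nonneg _, by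
          rw [Real.sq_sqrt hr, div_mul_cancel₀ _ hA.ne']⟩
      obtain ⟨hq1, hk⟩ := tKU t q hW ht1 htR hq0 hq
      obtain ⟨hb, -, hX⟩ := tBQ t q hW ht1 htR hq0 hq
      have hW1 : (1.381966 : ℝ) < W0 := by
        rw [W0]
        linarith [s5_hi']
      have hW2 : W0 < (1.3819661 : ℝ) := by
        rw [W0]
        linarith [s5_lo']
      have hA1 : (0.2016259 : ℝ) < R ^ 2 - W0 := by linarith [R_sq_lo]
      have hA2 : R ^ 2 - W0 < (0.2016267 : ℝ) := by linarith [R_sq_hi]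
      have ht2 : 1.17557 ≤ t := by
        apply le_of_sq_le_sq _ ht0.le
        norm_num
        linarith
      have hq2 : q ≤ 0.64 := by
        have : q ^ 2 * 0.2016259 ≤ 1.21 ^ 2 - 1.381966 := by
          have h1 : q ^ 2 * 0.2016259 ≤ q ^ 2 * (R ^ 2 - W0) :=
            mul_le_mul_of_nonneg_left hA1.le (sq_nonneg q)
          have h2 : t ^ 2 ≤ 1.21 ^ 2 := pow_le_pow_left₀ ht0.le ht.le 2
          linarith
        apply le_of_sq_le_sq _ (by norm_num)
        norm_num at this ⊢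
        linarith
      have hKq := H_Kq hq0 hq2
      have hk1 : 0.9912 ≤ 1 - kap t := by linarith
      have hs3 : guo t = 0.025 + 1.1 * (t - 1.15) := by
        rw [hgu]
        exact max_eq_right (by linarith)
      have hx2 : 0.0331 ≤ x := by
        have h1 : 0.053127 ≤ guo t := by linarith
        have h2 := mul_nonneg hx0 (sub_nonneg.2 h1)
        linarith
      have hkW : 0 ≤ kap t * R * W0 := by
        have := R_pos
        positivity
      constructor
      · rw [hX]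
        have h1 : (1.254 : ℝ) ^ 3 ≤ (1.2357 + 0.554 * x) ^ 3 :=
          pow_le_pow_left₀ (by norm_num) (by linarith) 3
        norm_num at h1
        have h2 : R * (R ^ 2 - W0) * q ^ 3 ≤ 0.2538 * 0.64 ^ 3 := by
          have h3 : R * (R ^ 2 - W0) ≤ 0.2538 := by
            have := mul_le_mul hRhi.le hA2.le hA.le (by norm_num)
            norm_num at this
            linarith
          have h4 : q ^ 3 ≤ 0.64 ^ 3 := pow_le_pow_left₀ hq0 hq2 3
          exact mul_le_mul h3 h4 (by positivity) (by norm_num)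
        have h5 : 0.9912 * 0.2 ≤ (1 - kap t) * ((1.2357 + 0.554 * x) ^ 3 - R * W0) :=
          mul_le_mul hk1 (by norm_num; linarith) (by norm_num) (by linarith)
        norm_num at h2 h5 ⊢
        linarith
      · have h3 := H_B t x q (1 - kap t) (R ^ 2 - W0) (R * W0) R (bet t) (guo t) ht2 hx1
          hx2 hk1 hQ.2.le hA1 hA2 hq0 hq2 (by linarith) hRlo hRhi (by linarith) hs3
        have h4 : t ^ 3 + bet t = (1 - kap t) * (R * W0) + R * (R ^ 2 - W0) * q ^ 3 := by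
          rw [hX]
          ring
        rw [h4]
        exact h3
  have h5 := H_disc n h i e f hP hI hO ht1 htR hhR him hmR hm4 key.1
  have h6 : π / 3 * bet t * (3 * guo t) = 2 * π * (bet t * guo t / 2) := by ring
  rw [h6]
  exact (mul_le_mul_of_nonneg_left key.2 (by positivity)).trans h5

theorem p_H : T_H := by
  intro ι _ n h i e f t hP hI hO ht1 htR hh hhR
  have hR := R_hi'
  by_cases ht : t < 1.21
  · have hgu : gu t = max 0 (0.025 + 1.1 * (t - 1.15)) := by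
      rw [gu, if_pos ht]
    have hle : gu t ≤ guo t := by
      rw [hgu]
      exact le_refl _
    have hs1 : guo t ≤ 0.091 := max_le (by norm_num) (by linarith)
    have h1 : 0.175 ≤ (h i - 1) * (1 - 3 * guo t) := by
      have h2 : 0.175 / (1 - 3 * gu t) ≤ h i - 1 := by
        rw [Lm] at hh
        linarith
      rw [div_le_iff₀ (by linarith)] at h2
      rw [guo, ← hgu]
      exact h2
    have h3 := H_high n h i e f hP hI hO ht1 ht h1 hhR
    have h4 : π / 3 * bet t * (3 * gu t) ≤ π / 3 * bet t * (3 * guo t) := by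
      have h5 := (tBET t ht1 htR).1
      exact mul_le_mul_of_nonneg_left (by linarith) (by positivity)
    exact h4.trans h3
  · exfalso
    rw [Lm, gu, if_neg ht] at hh
    norm_num at hh
    linarith

end Pool.Agent.SDL
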