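import Pool.Agent.SDL.P4Int

set_option autoImplicit false

/-!
# SDL: the inequality for facets with four sides, `1.2 ≤ t`
-/

open MeasureTheory Set Real

namespace Pool.Agent.SDL.P4I

open Pool.Agent.SDC Pool.Agent.SDL

/-! ## Numbers -/

theorem s5_lo7 : (2.2360679 : ℝ) < √5 := Real.lt_sqrt_of_sq_lt (by norm_num)

theorem s5_hi7 : √5 < (2.2360680 : ℝ) := (Real.sqrt_lt' (by norm_num)).mpr (by norm_num)

theorem R_lo6 : (1.258408 : ℝ) < R := by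
  have h1 := R_sq
  nlinarith [s5_hi7, R_pos]

theorem R_hi6 : R < (1.258409 : ℝ) := by
  have h1 := R_sq
  nlinarith [s5_lo7, R_pos]

theorem W0_lo7 : (1.381966 : ℝ) < W0 := by
  rw [W0]
  linarith [s5_hi7]

theorem W0_hi7 : W0 < (1.38196605 : ℝ) := by
  rw [W0]
  linarith [s5_lo7]

theorem A_lo7 : (0.201626 : ℝ) < R ^ 2 - W0 := by
  rw [W0, R_sq]
  linarith [s5_hi7]

theorem A_hi7 : R ^ 2 - W0 < (0.20162655 : ℝ) := by
  rw [W0, R_sq]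
  linarith [s5_lo7]

theorem w0_lo7 : (0.9860966 : ℝ) < w0 := by
  nlinarith [w0_sq, w0_pos]

theorem w0_hi7 : w0 < (0.9860967 : ℝ) := by
  nlinarith [w0_sq, w0_pos]

theorem RP_lo7 : (1.2845232 : ℝ) < RP := by
  nlinarith [RP_sq, RP_pos]

theorem RP_hi7 : RP < (1.2845233 : ℝ) := by
  nlinarith [RP_sq, RP_pos]

theorem sin_eps4 : sin (2 * (π / 4 - ps4)) = 0.014 := by
  rw [show 2 * (π / 4 - ps4) = π / 2 - 2 * ps4 by ring, Real.sin_pi_div_two_sub,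
    Real.cos_two_mul, cos_ps4_sq]
  norm_num

theorem eps4_lo : 0.007 ≤ π / 4 - ps4 := by
  have h1 := Real.sin_le (x := 2 * (π / 4 - ps4)) (by linarith [ps4_lt])
  rw [sin_eps4] at h1
  linarith

theorem eps4_hi : π / 4 - ps4 ≤ 0.007004 := by
  by_contra h
  push Not at h
  have h1 : sin (0.014008) < sin (2 * (π / 4 - ps4)) := by
    apply Real.sin_lt_sin_of_lt_of_le_pi_div_two
    · linarith [Real.pi_pos]
    · linarith [ps4_pos]
    · linarith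
  rw [sin_eps4] at h1
  have h2 := Real.sin_gt_sub_cube (x := 0.014008) (by norm_num)
  have h3 : (0.014 : ℝ) < 0.014008 - 0.014008 ^ 3 / 6 := by norm_num
  linarith

/-! ## The arctangent -/

theorem atan_lb {a b : ℝ} (ha : 0 < a) (h3 : 1 ≤ 3 * a ^ 2) (hab : a ≤ b) :
    (b - a) / (1 + a ^ 2) - a * (b - a) ^ 2 / (1 + a ^ 2) ^ 2 ≤ arctan b - arctan a := by
  have hd : ∀ x ∈ uIcc a b, HasDerivAt
      (fun x => (x - a) / (1 + a ^ 2) - a * (x - a) ^ 2 / (1 + a ^ 2) ^ 2)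
      (1 / (1 + a ^ 2) - a * (2 * (x - a)) / (1 + a ^ 2) ^ 2) x := fun x _ => by
    have h1 := (((hasDerivAt_id x).sub_const a).div_const (1 + a ^ 2)).sub
      (((((hasDerivAt_id x).sub_const a).pow 2).const_mul a).div_const ((1 + a ^ 2) ^ 2))
    refine h1.congr_deriv ?_
    norm_num
  have hi : ∫ x in a..b, (1 / (1 + a ^ 2) - a * (2 * (x - a)) / (1 + a ^ 2) ^ 2) =
      (b - a) / (1 + a ^ 2) - a * (b - a) ^ 2 / (1 + a ^ 2) ^ 2 := by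
    rw [intervalIntegral.integral_eq_sub_of_hasDerivAt hd
      (Continuous.intervalIntegrable (by fun_prop) _ _)]
    ring
  rw [← hi, ← integral_one_div_one_add_sq]
  apply intervalIntegral.integral_mono_on hab
  · exact Continuous.intervalIntegrable (by fun_prop) _ _
  · apply Continuous.intervalIntegrable
    apply Continuous.div (by fun_prop) (by fun_prop)
    intro x
    positivity
  · intro x hx
    have h1 : 1 / (1 + x ^ 2) - (1 / (1 + a ^ 2) - a * (2 * (x - a)) / (1 + a ^ 2) ^ 2) =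
        (x - a) ^ 2 * (a * (2 * x + a) - 1) / ((1 + x ^ 2) * (1 + a ^ 2) ^ 2) := by
      field_simp
      ring
    have h2 : 0 ≤ a * (2 * x + a) - 1 := by
      nlinarith [mul_nonneg ha.le (sub_nonneg.mpr hx.1)]
    have h4 : 0 ≤ (x - a) ^ 2 * (a * (2 * x + a) - 1) / ((1 + x ^ 2) * (1 + a ^ 2) ^ 2) := by
      positivity
    linarith

theorem atan_cub {y : ℝ} (hy : 0 ≤ y) : y - y ^ 3 / 3 ≤ arctan y := by
  have hd : ∀ x ∈ uIcc 0 y, HasDerivAt (fun x : ℝ => x - x ^ 3 / 3) (1 - x ^ 2) x :=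
    fun x _ => by
    have h1 := (hasDerivAt_id x).sub ((hasDerivAt_pow 3 x).div_const 3)
    refine h1.congr_deriv ?_
    norm_num
  have hi : ∫ x in (0 : ℝ)..y, (1 - x ^ 2) = y - y ^ 3 / 3 := by
    rw [intervalIntegral.integral_eq_sub_of_hasDerivAt hd
      (Continuous.intervalIntegrable (by fun_prop) _ _)]
    ring
  have h0 : arctan y = ∫ x in (0 : ℝ)..y, 1 / (1 + x ^ 2) := by
    rw [integral_one_div_one_add_sq, arctan_zero, sub_zero]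
  rw [← hi, h0]
  apply intervalIntegral.integral_mono_on hy
  · exact Continuous.intervalIntegrable (by fun_prop) _ _
  · apply Continuous.intervalIntegrable
    apply Continuous.div (by fun_prop) (by fun_prop)
    intro x
    positivity
  · intro x hx
    rw [le_div_iff₀ (by positivity)]
    nlinarith [sq_nonneg (x ^ 2)]

/-- The quotient. -/
theorem x04_lo : 0.767675 < w0 / RP := by
  rw [lt_div_iff₀ RP_pos]
  linarith [w0_lo7, RP_hi7]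

theorem x04_hi : w0 / RP < 0.767676 := by
  rw [div_lt_iff₀ RP_pos]
  linarith [w0_hi7, RP_lo7]

theorem Z4_zero : 5.23772 ≤ 8 * arctan (w0 / RP) := by
  have h1 := Real.pi_gt_d6
  have hx := x04_lo
  have hx0 : 0 < w0 / RP := by linarith
  have ht := tan36_pos
  have hth := tan36_hi
  have h5 : arctan (tan (π / 5)) = π / 5 := by
    rw [Real.arctan_tan]
    · linarith [Real.pi_pos]
    · linarith [Real.pi_pos]
  have h6 := Real.arctan_mono hx.le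
  have h7 : arctan (0.026404 : ℝ) ≤ arctan (0.767675) - π / 5 := by
    have h8 : (0.767675 : ℝ) * (-tan (π / 5)) < 1 := by nlinarith
    have h9 := Real.arctan_add h8
    rw [Real.arctan_neg, h5] at h9
    have h10 : (0.026404 : ℝ) ≤ (0.767675 + -tan (π / 5)) / (1 - 0.767675 * -tan (π / 5)) := by
      rw [le_div_iff₀ (by nlinarith)]
      nlinarith
    have h11 := Real.arctan_mono h10
    linarith
  have h12 := atan_cub (y := 0.026404) (by norm_num)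
  have h13 : (0.0263978 : ℝ) ≤ 0.026404 - 0.026404 ^ 3 / 3 := by norm_num
  linarith

/-- The solid angle. -/
theorem Z4_lb {l : ℝ} (h0 : 0 ≤ l) :
    5.2813 + 3.9077 * l - 1.4329 * l ^ 2 ≤
      8 * arctan ((1 + l) * w0 / RP) + 8 * (π / 4 - ps4) * ((1 + l) / RP) := by
  have hx1 := x04_lo
  have hx2 := x04_hi
  set x := w0 / RP with hx
  have hx0 : 0 < x := by linarith
  have h1 := Z4_zero
  rw [← hx] at h1
  have h2 := atan_lb (a := x) (b := (1 + l) * x) hx0 (by nlinarith) (by nlinarith)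
  have h3 : 0.483018 ≤ x / (1 + x ^ 2) := by
    rw [le_div_iff₀ (by positivity)]
    nlinarith
  have h4 : x ^ 3 / (1 + x ^ 2) ^ 2 ≤ 0.17911 := by
    rw [div_le_iff₀ (by positivity)]
    have e1 : x ^ 2 ≤ 0.767676 ^ 2 := by nlinarith
    have e2 : 0.767675 ^ 2 ≤ x ^ 2 := by nlinarith
    have e3 : x ^ 3 ≤ 0.767676 ^ 3 := by
      have : x ^ 3 = x ^ 2 * x := by ring
      rw [this]
      nlinarith
    have e4 : (1 + 0.767675 ^ 2) ^ 2 ≤ (1 + x ^ 2) ^ 2 := by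
      apply pow_le_pow_left₀ (by norm_num)
      linarith
    have e5 : (0.767676 : ℝ) ^ 3 ≤ 0.17911 * (1 + 0.767675 ^ 2) ^ 2 := by norm_num
    nlinarith
  have h5 : ((1 + l) * x - x) / (1 + x ^ 2) = l * (x / (1 + x ^ 2)) := by ring
  have h6 : x * ((1 + l) * x - x) ^ 2 / (1 + x ^ 2) ^ 2 =
      l ^ 2 * (x ^ 3 / (1 + x ^ 2) ^ 2) := by ring
  rw [h5, h6] at h2
  have h7 := mul_le_mul_of_nonneg_left h3 h0
  have h8 := mul_le_mul_of_nonneg_left h4 (sq_nonneg l)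
  have h9 : (1 + l) * w0 / RP = (1 + l) * x := by
    rw [hx]
    ring
  rw [h9]
  have h10 : 0.77849 * (1 + l) ≤ (1 + l) / RP := by
    rw [le_div_iff₀ RP_pos]
    nlinarith [RP_hi7, RP_pos]
  have h11 : 8 * 0.007 * (0.77849 * (1 + l)) ≤ 8 * (π / 4 - ps4) * ((1 + l) / RP) := by
    have := eps4_lo
    apply mul_le_mul (by linarith) h10 (by positivity) (by linarith)
  nlinarith

/-! ## The reduction -/

/-- An upper bound of the coefficient of `bet`. -/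
noncomputable def cU4 (g l : ℝ) : ℝ :=
  1.0471977 * (5 + g + l * (1 - 3 * g) * (100 / 19)) - (5.2813 + 3.9077 * l - 1.4329 * l ^ 2)

/-- The part of `Bf`. -/
theorem F8_lb {t h C p A1 AY AT : ℝ} (ht : 0 < t) (hh0 : 0 < h) (hh : h ^ 2 < 33 / 20)
    (hC : 0 ≤ C) (hp : 0 ≤ p) (hpw : p ≤ 0.9860966)
    (hF : A1 + AY * h ^ 2 - AT * t ^ 2 ≤
      8 * (G4 (t ^ 2) (h ^ 2) C (p ^ 2) w0 - G4 (t ^ 2) (h ^ 2) C (p ^ 2) p) +
      0.056 * (3 / 2 * (C * (493 / 507 - p ^ 2) * (1 + 493 / 507) * (33 / 20 - t ^ 2) -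
        (C * (493 / 507 - p ^ 2) * (1 + 493 / 507)) ^ 2 * (33 / 20)))) :
    A1 + AY * h ^ 2 - AT * t ^ 2 ≤
      8 * (∫ ψ in (0 : ℝ)..ps4, Bf t √(y4 (h ^ 2) ψ)) + 8 * (π / 4 - ps4) * Bf t RP := by
  have h1 := Bf_int (Y := h ^ 2) ht (by positivity) hh.le hC hp (hpw.trans w0_lo7.le)
  have hv : 0 ≤ C * (493 / 507 - p ^ 2) * (1 + 493 / 507) := by
    have : 0 ≤ 493 / 507 - p ^ 2 := by nlinarith
    positivity
  have h2 := Bf_lb ht RP_pos hv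
  rw [RP_sq] at h2
  have h3 : 0 ≤ Bf t RP := p_BF.1 t RP ht RP_pos
  have h4 := mul_le_mul_of_nonneg_right eps4_lo h3
  nlinarith

theorem RW_lo4 : 1.739 ≤ R * W0 := by
  have h1 := mul_le_mul R_lo6.le W0_lo7.le (by norm_num) R_pos.le
  linarith

theorem P4B_core {t q h g A1 AY AT B K : ℝ} (ht1 : 1 ≤ t) (htR : t < R) (hW : W0 ≤ t ^ 2)
    (hq0 : 0 ≤ q) (hq : q ^ 2 * (R ^ 2 - W0) = t ^ 2 - W0) (hh1 : 1 ≤ h) (hh2 : h ≤ 1.22)
    (hg0 : 0 ≤ g) (hg1 : g ≤ 0.0887)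
    (hF : A1 + AY * h ^ 2 - AT * t ^ 2 ≤
      8 * (∫ ψ in (0 : ℝ)..ps4, Bf t √(y4 (h ^ 2) ψ)) + 8 * (π / 4 - ps4) * Bf t RP)
    (hB : R * W0 + R * (R ^ 2 - W0) * q ^ 3 - t ^ 3 ≤ B) (hK : kap t ≤ K)
    (hc0 : 0 ≤ cU4 g (h - 1))
    (hK0 : 0 ≤ 4 * 0.506956 * h * (33 / 20 - h ^ 2) - 1.739 * cU4 g (h - 1))
    (hP : 0 ≤ h * (A1 + AY * h ^ 2 - AT * t ^ 2) - B * cU4 g (h - 1) -
      K * (4 * 0.506956 * h * (33 / 20 - h ^ 2) - 1.739 * cU4 g (h - 1))) :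
    2 * π * bet t - π * kap t * h ^ 3 - h * ((2 * π - 8 * ps4) * bb t RP +
      8 * ∫ ψ in (0 : ℝ)..ps4, bb t √(y4 (h ^ 2) ψ)) ≤
      π / 3 * bet t * (1 - (h - 1) * (1 - 3 * g) / 0.19 - g) := by
  have hh0 : 0 < h := by linarith
  have hh : h ^ 2 < 33 / 20 := by nlinarith
  have ht0 : 0 < t := by linarith
  have hβ : 0 ≤ bet t := (tBET t ht1 htR).1
  have hκ : 0 ≤ kap t := (tKAP t ht1 htR).1
  have hbq := (p_BQ t q hW ht1 htR hq0 hq).2.2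
  -- the closed form
  have h1 := bb_int ht0 hh0 hh
  have h2 : bb t RP = Bf t RP + bet t / RP - kap t * (33 / 20) / 2 := by
    rw [bb, RP_sq]
  have h3 := Z4_lb (l := h - 1) (by linarith)
  rw [show 1 + (h - 1) = h by ring] at h3
  have hε1 := eps4_hi
  have hε0 := eps4_lo
  set ε := π / 4 - ps4 with hε
  have hps : ps4 = π / 4 - ε := by linarith
  set a := arctan (h * w0 / RP) with ha
  set I := ∫ ψ in (0 : ℝ)..ps4, Bf t √(y4 (h ^ 2) ψ) with hI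
  set J := ∫ ψ in (0 : ℝ)..ps4, bb t √(y4 (h ^ 2) ψ) with hJ
  have h4 : h * ((2 * π - 8 * ps4) * bb t RP + 8 * J) =
      h * (8 * I + 8 * ε * Bf t RP) + bet t * (8 * a + 8 * ε * (h / RP)) -
        kap t * (π * h ^ 3 + 4 * h * (ε + 0.507 * w0) * (33 / 20 - h ^ 2)) := by
    rw [h2, hps]
    rw [hps] at h1
    linear_combination 8 * h1
  rw [h4]
  have h5 : 0 ≤ 33 / 20 - h ^ 2 := by linarith
  have h6 : 4 * h * (ε + 0.507 * w0) * (33 / 20 - h ^ 2) ≤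
      4 * 0.506956 * h * (33 / 20 - h ^ 2) := by
    apply mul_le_mul_of_nonneg_right _ h5
    have : ε + 0.507 * w0 ≤ 0.506956 := by linarith [w0_hi7]
    have := mul_le_mul_of_nonneg_left this hh0.le
    linarith
  have h7 : π / 3 * (5 + g + (h - 1) * (1 - 3 * g) / 0.19) ≤
      1.0471977 * (5 + g + (h - 1) * (1 - 3 * g) / 0.19) := by
    have h8 : 0 ≤ 5 + g + (h - 1) * (1 - 3 * g) / 0.19 := by
      have : 0 ≤ (h - 1) * (1 - 3 * g) / 0.19 :=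
        div_nonneg (mul_nonneg (by linarith) (by linarith)) (by norm_num)
      linarith
    apply mul_le_mul_of_nonneg_right _ h8
    linarith [Real.pi_lt_d6]
  have h9 : π / 3 * (5 + g + (h - 1) * (1 - 3 * g) / 0.19) - (8 * a + 8 * ε * (h / RP)) ≤
      cU4 g (h - 1) := by
    rw [cU4]
    have e1 : (h - 1) * (1 - 3 * g) / 0.19 = (h - 1) * (1 - 3 * g) * (100 / 19) := by ring
    rw [e1] at h7 ⊢
    linarith
  have h10 := mul_le_mul_of_nonneg_left h9 hβ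
  have h11 := mul_le_mul_of_nonneg_left h6 hκ
  have h12 := mul_le_mul_of_nonneg_left hF hh0.le
  have h13 := mul_le_mul_of_nonneg_right hK hK0
  have h14 := mul_le_mul_of_nonneg_right hB hc0
  have h15 : bet t = R * W0 + R * (R ^ 2 - W0) * q ^ 3 - t ^ 3 - kap t * (R * W0) := by
    linarith
  have h16 := RW_lo4
  have h17 := mul_le_mul_of_nonneg_right h16 (mul_nonneg hκ hc0)
  have h18 : bet t * cU4 g (h - 1) = (R * W0 + R * (R ^ 2 - W0) * q ^ 3 - t ^ 3) *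
      cU4 g (h - 1) - R * W0 * (kap t * cU4 g (h - 1)) := by
    rw [h15]
    ring
  linear_combination h10 + h18 + h11 + h14 + h17 + h13 + h12 + hP

/-! ## The intervals -/

theorem P4B_F_I1 {t Y : ℝ} (hY : 0 ≤ Y) :
    0.117307 + 0.00913 * Y - 0.08362 * t ^ 2 ≤
      8 * (G4 (t ^ 2) Y 0.0514 (0.562 ^ 2) w0 - G4 (t ^ 2) Y 0.0514 (0.562 ^ 2) 0.562) +
      0.056 * (3 / 2 * (0.0514 * (493 / 507 - 0.562 ^ 2) * (1 + 493 / 507) * (33 / 20 - t ^ 2) -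
        (0.0514 * (493 / 507 - 0.562 ^ 2) * (1 + 493 / 507)) ^ 2 * (33 / 20))) := by
  have e := w0_sq
  have e3 : w0 ^ 3 = 493 / 507 * w0 := by rw [← e]; ring
  have e5 : w0 ^ 5 = (493 / 507) ^ 2 * w0 := by rw [← e]; ring
  have e7 : w0 ^ 7 = (493 / 507) ^ 3 * w0 := by rw [← e]; ring
  have e9 : w0 ^ 9 = (493 / 507) ^ 4 * w0 := by rw [← e]; ring
  have h1 := w0_lo7
  have h2 := w0_hi7
  rw [G4, G4, e3, e5, e7, e9]
  have h3 := mul_nonneg (sub_nonneg.mpr h1.le) hY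
  have h4 := mul_nonneg (sub_nonneg.mpr h2.le) hY
  have h5 := mul_nonneg (sub_nonneg.mpr h1.le) (sq_nonneg t)
  have h6 := mul_nonneg (sub_nonneg.mpr h2.le) (sq_nonneg t)
  have h7 := sq_nonneg t
  linarith

theorem P4B_B_I1 {t q : ℝ} (ht : 0 < t) (hW : W0 ≤ t ^ 2)
    (hq : q ^ 2 * (R ^ 2 - W0) = t ^ 2 - W0) (ha : 0.536 ≤ q) (hb : q ≤ 0.639) :
    R * W0 + R * (R ^ 2 - W0) * q ^ 3 - t ^ 3 ≤ 1.0521 - 0.695683 * t ^ 2 := by
  have ha' := sub_nonneg.mpr ha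
  have hb' := sub_nonneg.mpr hb
  have h1 : q ^ 3 ≤ -0.099837 + 0.88351 * q ^ 2 := by
    have g0 := pow_nonneg hb' 3
    have g1 := mul_nonneg ha' (pow_nonneg hb' 2)
    have g2 := mul_nonneg (pow_nonneg ha' 2) hb'
    have g3 := pow_nonneg ha' 3
    linarith
  have hRA : 0 ≤ R * (R ^ 2 - W0) := mul_nonneg R_pos.le (by linarith [A_lo7])
  have h2 := mul_le_mul_of_nonneg_left h1 hRA
  have h3 : R * (R ^ 2 - W0) * q ^ 2 = R * (t ^ 2 - W0) := by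
    rw [mul_assoc, mul_comm (R ^ 2 - W0), hq]
  have h4 : 0 ≤ (t - 1.205) ^ 2 * (t + 1.205 / 2) := by positivity
  have h5 := mul_le_mul_of_nonneg_right R_hi6.le (sub_nonneg.mpr hW)
  have h6 := mul_le_mul R_hi6.le W0_hi7.le (by linarith [W0_lo7]) (by norm_num)
  have h7 := mul_le_mul R_lo6.le A_lo7.le (by norm_num) R_pos.le
  linarith [W0_lo7]

theorem P4B_K_I1 {t q : ℝ} (ht1 : 1 ≤ t) (htR : t < R) (hW : W0 ≤ t ^ 2) (hq0 : 0 ≤ q)
    (hq : q ^ 2 * (R ^ 2 - W0) = t ^ 2 - W0) (ha : 0.536 ≤ q) (hb : q ≤ 0.639)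
    (hTa : 1.44 ≤ t ^ 2) : kap t ≤ 0.0774687 - 0.05185 * t ^ 2 := by
  have ha' := sub_nonneg.mpr ha
  have hb' := sub_nonneg.mpr hb
  have h0 := (p_KU p_KEX t q hW ht1 htR hq0 hq).2
  have h1 : Kq q ≤ 0.100584 - 0.18088 * q ^ 2 := by
    rw [Kq]
    have g0 := pow_nonneg hb' 7
    have g1 := mul_nonneg ha' (pow_nonneg hb' 6)
    have g2 := mul_nonneg (pow_nonneg ha' 2) (pow_nonneg hb' 5)
    have g3 := mul_nonneg (pow_nonneg ha' 3) (pow_nonneg hb' 4)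
    have g4 := mul_nonneg (pow_nonneg ha' 4) (pow_nonneg hb' 3)
    have g5 := mul_nonneg (pow_nonneg ha' 5) (pow_nonneg hb' 2)
    have g6 := mul_nonneg (pow_nonneg ha' 6) hb'
    have g7 := pow_nonneg ha' 7
    linarith
  have h2 := mul_le_mul_of_nonneg_left A_hi7.le (sq_nonneg q)
  rw [hq] at h2
  linarith [W0_hi7]

theorem P4B_I1a {t q h : ℝ} (ht1 : 1 ≤ t) (htR : t < R) (hW : W0 ≤ t ^ 2) (hq0 : 0 ≤ q)
    (hq : q ^ 2 * (R ^ 2 - W0) = t ^ 2 - W0) (ha : 0.536 ≤ q) (hb : q ≤ 0.639)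
    (hTa : 1.44 ≤ t ^ 2) (hTb : t ^ 2 ≤ 1.4641) (hh1 : 1 ≤ h) (hh2 : h ≤ 1.2) :
    2 * π * bet t - π * kap t * h ^ 3 - h * ((2 * π - 8 * ps4) * bb t RP +
      8 * ∫ ψ in (0 : ℝ)..ps4, bb t √(y4 (h ^ 2) ψ)) ≤
      π / 3 * bet t * (1 - (h - 1) * (1 - 3 * 0.0588) / 0.19 - 0.0588) := by
  have hF := F8_lb (C := 0.0514) (p := 0.562) (by linarith : 0 < t) (by linarith : 0 < h)
    (by nlinarith) (by norm_num) (by norm_num) (by norm_num) (P4B_F_I1 (t := t) (sq_nonneg h))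
  have ha' := sub_nonneg.mpr hh1
  have hb' := sub_nonneg.mpr hh2
  have hTa' := sub_nonneg.mpr hTa
  have hTb' := sub_nonneg.mpr hTb
  have g0 := pow_nonneg hb' 3
  have g1 := mul_nonneg ha' (pow_nonneg hb' 2)
  have g2 := mul_nonneg (pow_nonneg ha' 2) hb'
  have g3 := pow_nonneg ha' 3
  refine P4B_core ht1 htR hW hq0 hq hh1 (by linarith) (by norm_num) (by norm_num) hF
    (P4B_B_I1 (by linarith) hW hq ha hb) (P4B_K_I1 ht1 htR hW hq0 hq ha hb hTa) ?_ ?_ ?_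
  · rw [cU4]
    clear hF
    have f0 := pow_nonneg hb' 2
    have f1 := mul_nonneg ha' hb'
    have f2 := pow_nonneg ha' 2
    linarith
  · rw [cU4]
    clear hF
    linarith
  · rw [cU4]
    clear hF
    have u0 := mul_nonneg hTa' g0
    have u1 := mul_nonneg hTa' g1
    have u2 := mul_nonneg hTa' g2
    have u3 := mul_nonneg hTa' g3
    have v0 := mul_nonneg hTb' g0
    have v1 := mul_nonneg hTb' g1
    have v2 := mul_nonneg hTb' g2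
    have v3 := mul_nonneg hTb' g3
    linarith

theorem P4B_I1b {t q h : ℝ} (ht1 : 1 ≤ t) (htR : t < R) (hW : W0 ≤ t ^ 2) (hq0 : 0 ≤ q)
    (hq : q ^ 2 * (R ^ 2 - W0) = t ^ 2 - W0) (ha : 0.536 ≤ q) (hb : q ≤ 0.639)
    (hTa : 1.44 ≤ t ^ 2) (hTb : t ^ 2 ≤ 1.4641) (hh1 : 1 ≤ h) (hh2 : h ≤ 1.2) :
    2 * π * bet t - π * kap t * h ^ 3 - h * ((2 * π - 8 * ps4) * bb t RP +
      8 * ∫ ψ in (0 : ℝ)..ps4, bb t √(y4 (h ^ 2) ψ)) ≤
      π / 3 * bet t * (1 - (h - 1) * (1 - 3 * 0.0708) / 0.19 - 0.0708) := by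
  have hF := F8_lb (C := 0.0514) (p := 0.562) (by linarith : 0 < t) (by linarith : 0 < h)
    (by nlinarith) (by norm_num) (by norm_num) (by norm_num) (P4B_F_I1 (t := t) (sq_nonneg h))
  have ha' := sub_nonneg.mpr hh1
  have hb' := sub_nonneg.mpr hh2
  have hTa' := sub_nonneg.mpr hTa
  have hTb' := sub_nonneg.mpr hTb
  have g0 := pow_nonneg hb' 3
  have g1 := mul_nonneg ha' (pow_nonneg hb' 2)
  have g2 := mul_nonneg (pow_nonneg ha' 2) hb'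
  have g3 := pow_nonneg ha' 3
  refine P4B_core ht1 htR hW hq0 hq hh1 (by linarith) (by norm_num) (by norm_num) hF
    (P4B_B_I1 (by linarith) hW hq ha hb) (P4B_K_I1 ht1 htR hW hq0 hq ha hb hTa) ?_ ?_ ?_
  · rw [cU4]
    clear hF
    have f0 := pow_nonneg hb' 2
    have f1 := mul_nonneg ha' hb'
    have f2 := pow_nonneg ha' 2
    linarith
  · rw [cU4]
    clear hF
    linarith
  · rw [cU4]
    clear hF
    have u0 := mul_nonneg hTa' g0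
    have u1 := mul_nonneg hTa' g1
    have u2 := mul_nonneg hTa' g2
    have u3 := mul_nonneg hTa' g3
    have v0 := mul_nonneg hTb' g0
    have v1 := mul_nonneg hTb' g1
    have v2 := mul_nonneg hTb' g2
    have v3 := mul_nonneg hTb' g3
    linarith

theorem P4B_F_I2 {t Y : ℝ} (hY : 0 ≤ Y) :
    0.085403 + 0.005324 * Y - 0.059185 * t ^ 2 ≤
      8 * (G4 (t ^ 2) Y 0.0514 (0.645 ^ 2) w0 - G4 (t ^ 2) Y 0.0514 (0.645 ^ 2) 0.645) +
      0.056 * (3 / 2 * (0.0514 * (493 / 507 - 0.645 ^ 2) * (1 + 493 / 507) * (33 / 20 - t ^ 2) -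
        (0.0514 * (493 / 507 - 0.645 ^ 2) * (1 + 493 / 507)) ^ 2 * (33 / 20))) := by
  have e := w0_sq
  have e3 : w0 ^ 3 = 493 / 507 * w0 := by rw [← e]; ring
  have e5 : w0 ^ 5 = (493 / 507) ^ 2 * w0 := by rw [← e]; ring
  have e7 : w0 ^ 7 = (493 / 507) ^ 3 * w0 := by rw [← e]; ring
  have e9 : w0 ^ 9 = (493 / 507) ^ 4 * w0 := by rw [← e]; ring
  have h1 := w0_lo7
  have h2 := w0_hi7
  rw [G4, G4, e3, e5, e7, e9]
  have h3 := mul_nonneg (sub_nonneg.mpr h1.le) hY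
  have h4 := mul_nonneg (sub_nonneg.mpr h2.le) hY
  have h5 := mul_nonneg (sub_nonneg.mpr h1.le) (sq_nonneg t)
  have h6 := mul_nonneg (sub_nonneg.mpr h2.le) (sq_nonneg t)
  have h7 := sq_nonneg t
  linarith

theorem P4B_T_I2 {t q : ℝ} (hq : q ^ 2 * (R ^ 2 - W0) = t ^ 2 - W0) (ha : 0.638 ≤ q)
    (hb : q ≤ 0.77) : 1.464 ≤ t ^ 2 ∧ t ^ 2 ≤ 1.5016 := by
  have h1 : (0.638 : ℝ) ^ 2 ≤ q ^ 2 := pow_le_pow_left₀ (by norm_num) ha 2
  have h2 : q ^ 2 ≤ (0.77 : ℝ) ^ 2 := pow_le_pow_left₀ (by linarith) hb 2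
  have h3 := mul_le_mul h1 A_lo7.le (by norm_num) (sq_nonneg q)
  have h4 := mul_le_mul h2 A_hi7.le (by linarith [A_lo7]) (by norm_num)
  rw [hq] at h3 h4
  constructor
  · linarith [W0_lo7]
  · linarith [W0_hi7]

theorem P4B_B_I2 {t q : ℝ} (ht : 0 < t) (hW : W0 ≤ t ^ 2)
    (hq : q ^ 2 * (R ^ 2 - W0) = t ^ 2 - W0) (ha : 0.638 ≤ q) (hb : q ≤ 0.77) :
    R * W0 + R * (R ^ 2 - W0) * q ^ 3 - t ^ 3 ≤ 0.757198 - 0.494219 * t ^ 2 := by
  have ha' := sub_nonneg.mpr ha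
  have hb' := sub_nonneg.mpr hb
  have h1 : q ^ 3 ≤ -0.171405 + 1.0591 * q ^ 2 := by
    have g0 := pow_nonneg hb' 3
    have g1 := mul_nonneg ha' (pow_nonneg hb' 2)
    have g2 := mul_nonneg (pow_nonneg ha' 2) hb'
    have g3 := pow_nonneg ha' 3
    linarith
  have hRA : 0 ≤ R * (R ^ 2 - W0) := mul_nonneg R_pos.le (by linarith [A_lo7])
  have h2 := mul_le_mul_of_nonneg_left h1 hRA
  have h3 : R * (R ^ 2 - W0) * q ^ 2 = R * (t ^ 2 - W0) := by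
    rw [mul_assoc, mul_comm (R ^ 2 - W0), hq]
  have h4 : 0 ≤ (t - 1.218) ^ 2 * (t + 1.218 / 2) := by positivity
  have h5 := mul_le_mul_of_nonneg_right R_hi6.le (sub_nonneg.mpr hW)
  have h6 := mul_le_mul R_hi6.le W0_hi7.le (by linarith [W0_lo7]) (by norm_num)
  have h7 := mul_le_mul R_lo6.le A_lo7.le (by norm_num) R_pos.le
  linarith [W0_lo7]

theorem P4B_K_I2 {t q : ℝ} (ht1 : 1 ≤ t) (htR : t < R) (hW : W0 ≤ t ^ 2) (hq0 : 0 ≤ q)
    (hq : q ^ 2 * (R ^ 2 - W0) = t ^ 2 - W0) (ha : 0.638 ≤ q) (hb : q ≤ 0.77)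
    (hTa : 1.464 ≤ t ^ 2) : kap t ≤ 0.0437345 - 0.02881 * t ^ 2 := by
  have ha' := sub_nonneg.mpr ha
  have hb' := sub_nonneg.mpr hb
  have h0 := (p_KU p_KEX t q hW ht1 htR hq0 hq).2
  have h1 : Kq q ≤ 0.067818 - 0.1005 * q ^ 2 := by
    rw [Kq]
    have g0 := pow_nonneg hb' 7
    have g1 := mul_nonneg ha' (pow_nonneg hb' 6)
    have g2 := mul_nonneg (pow_nonneg ha' 2) (pow_nonneg hb' 5)
    have g3 := mul_nonneg (pow_nonneg ha' 3) (pow_nonneg hb' 4)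
    have g4 := mul_nonneg (pow_nonneg ha' 4) (pow_nonneg hb' 3)
    have g5 := mul_nonneg (pow_nonneg ha' 5) (pow_nonneg hb' 2)
    have g6 := mul_nonneg (pow_nonneg ha' 6) hb'
    have g7 := pow_nonneg ha' 7
    linarith
  have h2 := mul_le_mul_of_nonneg_left A_hi7.le (sq_nonneg q)
  rw [hq] at h2
  linarith [W0_hi7]

theorem P4B_I2 {t q h : ℝ} (ht1 : 1 ≤ t) (htR : t < R) (hW : W0 ≤ t ^ 2) (hq0 : 0 ≤ q)
    (hq : q ^ 2 * (R ^ 2 - W0) = t ^ 2 - W0) (ha : 0.638 ≤ q) (hb : q ≤ 0.77)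
    (hTa : 1.464 ≤ t ^ 2) (hTb : t ^ 2 ≤ 1.5016) (hh1 : 1 ≤ h) (hh2 : h ≤ 1.22) :
    2 * π * bet t - π * kap t * h ^ 3 - h * ((2 * π - 8 * ps4) * bb t RP +
      8 * ∫ ψ in (0 : ℝ)..ps4, bb t √(y4 (h ^ 2) ψ)) ≤
      π / 3 * bet t * (1 - (h - 1) * (1 - 3 * 0.0887) / 0.19 - 0.0887) := by
  have hF := F8_lb (C := 0.0514) (p := 0.645) (by linarith : 0 < t) (by linarith : 0 < h)
    (by nlinarith) (by norm_num) (by norm_num) (by norm_num) (P4B_F_I2 (t := t) (sq_nonneg h))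
  have ha' := sub_nonneg.mpr hh1
  have hb' := sub_nonneg.mpr hh2
  have hTa' := sub_nonneg.mpr hTa
  have hTb' := sub_nonneg.mpr hTb
  have g0 := pow_nonneg hb' 3
  have g1 := mul_nonneg ha' (pow_nonneg hb' 2)
  have g2 := mul_nonneg (pow_nonneg ha' 2) hb'
  have g3 := pow_nonneg ha' 3
  refine P4B_core ht1 htR hW hq0 hq hh1 (by linarith) (by norm_num) (by norm_num) hF
    (P4B_B_I2 (by linarith) hW hq ha hb) (P4B_K_I2 ht1 htR hW hq0 hq ha hb hTa) ?_ ?_ ?_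
  · rw [cU4]
    clear hF
    have f0 := pow_nonneg hb' 2
    have f1 := mul_nonneg ha' hb'
    have f2 := pow_nonneg ha' 2
    linarith
  · rw [cU4]
    clear hF
    linarith
  · rw [cU4]
    clear hF
    have u0 := mul_nonneg hTa' g0
    have u1 := mul_nonneg hTa' g1
    have u2 := mul_nonneg hTa' g2
    have u3 := mul_nonneg hTa' g3
    have v0 := mul_nonneg hTb' g0
    have v1 := mul_nonneg hTb' g1
    have v2 := mul_nonneg hTb' g2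
    have v3 := mul_nonneg hTb' g3
    linarith

theorem P4B_F_I3 {t Y : ℝ} (hY : 0 ≤ Y) :
    0.054685 + 0.002516 * Y - 0.036727 * t ^ 2 ≤
      8 * (G4 (t ^ 2) Y 0.0514 (0.73 ^ 2) w0 - G4 (t ^ 2) Y 0.0514 (0.73 ^ 2) 0.73) +
      0.056 * (3 / 2 * (0.0514 * (493 / 507 - 0.73 ^ 2) * (1 + 493 / 507) * (33 / 20 - t ^ 2) -
        (0.0514 * (493 / 507 - 0.73 ^ 2) * (1 + 493 / 507)) ^ 2 * (33 / 20))) := by
  have e := w0_sq
  have e3 : w0 ^ 3 = 493 / 507 * w0 := by rw [← e]; ring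
  have e5 : w0 ^ 5 = (493 / 507) ^ 2 * w0 := by rw [← e]; ring
  have e7 : w0 ^ 7 = (493 / 507) ^ 3 * w0 := by rw [← e]; ring
  have e9 : w0 ^ 9 = (493 / 507) ^ 4 * w0 := by rw [← e]; ring
  have h1 := w0_lo7
  have h2 := w0_hi7
  rw [G4, G4, e3, e5, e7, e9]
  have h3 := mul_nonneg (sub_nonneg.mpr h1.le) hY
  have h4 := mul_nonneg (sub_nonneg.mpr h2.le) hY
  have h5 := mul_nonneg (sub_nonneg.mpr h1.le) (sq_nonneg t)
  have h6 := mul_nonneg (sub_nonneg.mpr h2.le) (sq_nonneg t)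
  have h7 := sq_nonneg t
  linarith

theorem P4B_T_I3 {t q : ℝ} (hq : q ^ 2 * (R ^ 2 - W0) = t ^ 2 - W0) (ha : 0.77 ≤ q)
    (hb : q ≤ 0.88) : 1.5015 ≤ t ^ 2 ∧ t ^ 2 ≤ 1.5382 := by
  have h1 : (0.77 : ℝ) ^ 2 ≤ q ^ 2 := pow_le_pow_left₀ (by norm_num) ha 2
  have h2 : q ^ 2 ≤ (0.88 : ℝ) ^ 2 := pow_le_pow_left₀ (by linarith) hb 2
  have h3 := mul_le_mul h1 A_lo7.le (by norm_num) (sq_nonneg q)
  have h4 := mul_le_mul h2 A_hi7.le (by linarith [A_lo7]) (by norm_num)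
  rw [hq] at h3 h4
  constructor
  · linarith [W0_lo7]
  · linarith [W0_hi7]

theorem P4B_B_I3 {t q : ℝ} (ht : 0 < t) (hW : W0 ≤ t ^ 2)
    (hq : q ^ 2 * (R ^ 2 - W0) = t ^ 2 - W0) (ha : 0.77 ≤ q) (hb : q ≤ 0.88) :
    R * W0 + R * (R ^ 2 - W0) * q ^ 3 - t ^ 3 ≤ 0.454992 - 0.292903 * t ^ 2 := by
  have ha' := sub_nonneg.mpr ha
  have hb' := sub_nonneg.mpr hb
  have h1 : q ^ 3 ≤ -0.27827 + 1.23934 * q ^ 2 := by
    have g0 := pow_nonneg hb' 3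
    have g1 := mul_nonneg ha' (pow_nonneg hb' 2)
    have g2 := mul_nonneg (pow_nonneg ha' 2) hb'
    have g3 := pow_nonneg ha' 3
    linarith
  have hRA : 0 ≤ R * (R ^ 2 - W0) := mul_nonneg R_pos.le (by linarith [A_lo7])
  have h2 := mul_le_mul_of_nonneg_left h1 hRA
  have h3 : R * (R ^ 2 - W0) * q ^ 2 = R * (t ^ 2 - W0) := by
    rw [mul_assoc, mul_comm (R ^ 2 - W0), hq]
  have h4 : 0 ≤ (t - 1.235) ^ 2 * (t + 1.235 / 2) := by positivity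
  have h5 := mul_le_mul_of_nonneg_right R_hi6.le (sub_nonneg.mpr hW)
  have h6 := mul_le_mul R_hi6.le W0_hi7.le (by linarith [W0_lo7]) (by norm_num)
  have h7 := mul_le_mul R_lo6.le A_lo7.le (by norm_num) R_pos.le
  linarith [W0_lo7]

theorem P4B_K_I3 {t q : ℝ} (ht1 : 1 ≤ t) (htR : t < R) (hW : W0 ≤ t ^ 2) (hq0 : 0 ≤ q)
    (hq : q ^ 2 * (R ^ 2 - W0) = t ^ 2 - W0) (ha : 0.77 ≤ q) (hb : q ≤ 0.88)
    (hTa : 1.5015 ≤ t ^ 2) : kap t ≤ 0.0168273 - 0.01089 * t ^ 2 := by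
  have ha' := sub_nonneg.mpr ha
  have hb' := sub_nonneg.mpr hb
  have h0 := (p_KU p_KEX t q hW ht1 htR hq0 hq).2
  have h1 : Kq q ≤ 0.030761 - 0.038 * q ^ 2 := by
    rw [Kq]
    have g0 := pow_nonneg hb' 7
    have g1 := mul_nonneg ha' (pow_nonneg hb' 6)
    have g2 := mul_nonneg (pow_nonneg ha' 2) (pow_nonneg hb' 5)
    have g3 := mul_nonneg (pow_nonneg ha' 3) (pow_nonneg hb' 4)
    have g4 := mul_nonneg (pow_nonneg ha' 4) (pow_nonneg hb' 3)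
    have g5 := mul_nonneg (pow_nonneg ha' 5) (pow_nonneg hb' 2)
    have g6 := mul_nonneg (pow_nonneg ha' 6) hb'
    have g7 := pow_nonneg ha' 7
    linarith
  have h2 := mul_le_mul_of_nonneg_left A_hi7.le (sq_nonneg q)
  rw [hq] at h2
  linarith [W0_hi7]

theorem P4B_I3 {t q h : ℝ} (ht1 : 1 ≤ t) (htR : t < R) (hW : W0 ≤ t ^ 2) (hq0 : 0 ≤ q)
    (hq : q ^ 2 * (R ^ 2 - W0) = t ^ 2 - W0) (ha : 0.77 ≤ q) (hb : q ≤ 0.88)
    (hTa : 1.5015 ≤ t ^ 2) (hTb : t ^ 2 ≤ 1.5382) (hh1 : 1 ≤ h) (hh2 : h ≤ 1.22) :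
    2 * π * bet t - π * kap t * h ^ 3 - h * ((2 * π - 8 * ps4) * bb t RP +
      8 * ∫ ψ in (0 : ℝ)..ps4, bb t √(y4 (h ^ 2) ψ)) ≤
      π / 3 * bet t * (1 - (h - 1) * (1 - 3 * 0.0887) / 0.19 - 0.0887) := by
  have hF := F8_lb (C := 0.0514) (p := 0.73) (by linarith : 0 < t) (by linarith : 0 < h)
    (by nlinarith) (by norm_num) (by norm_num) (by norm_num) (P4B_F_I3 (t := t) (sq_nonneg h))
  have ha' := sub_nonneg.mpr hh1
  have hb' := sub_nonneg.mpr hh2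
  have hTa' := sub_nonneg.mpr hTa
  have hTb' := sub_nonneg.mpr hTb
  have g0 := pow_nonneg hb' 3
  have g1 := mul_nonneg ha' (pow_nonneg hb' 2)
  have g2 := mul_nonneg (pow_nonneg ha' 2) hb'
  have g3 := pow_nonneg ha' 3
  refine P4B_core ht1 htR hW hq0 hq hh1 (by linarith) (by norm_num) (by norm_num) hF
    (P4B_B_I3 (by linarith) hW hq ha hb) (P4B_K_I3 ht1 htR hW hq0 hq ha hb hTa) ?_ ?_ ?_
  · rw [cU4]
    clear hF
    have f0 := pow_nonneg hb' 2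
    have f1 := mul_nonneg ha' hb'
    have f2 := pow_nonneg ha' 2
    linarith
  · rw [cU4]
    clear hF
    linarith
  · rw [cU4]
    clear hF
    have u0 := mul_nonneg hTa' g0
    have u1 := mul_nonneg hTa' g1
    have u2 := mul_nonneg hTa' g2
    have u3 := mul_nonneg hTa' g3
    have v0 := mul_nonneg hTb' g0
    have v1 := mul_nonneg hTb' g1
    have v2 := mul_nonneg hTb' g2
    have v3 := mul_nonneg hTb' g3
    linarith

theorem P4B_F_I4 {t Y : ℝ} (hY : 0 ≤ Y) :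
    0.025591 + 0.000703 * Y - 0.016551 * t ^ 2 ≤
      8 * (G4 (t ^ 2) Y 0.0514 (0.825 ^ 2) w0 - G4 (t ^ 2) Y 0.0514 (0.825 ^ 2) 0.825) +
      0.056 * (3 / 2 * (0.0514 * (493 / 507 - 0.825 ^ 2) * (1 + 493 / 507) * (33 / 20 - t ^ 2) -
        (0.0514 * (493 / 507 - 0.825 ^ 2) * (1 + 493 / 507)) ^ 2 * (33 / 20))) := by
  have e := w0_sq
  have e3 : w0 ^ 3 = 493 / 507 * w0 := by rw [← e]; ring
  have e5 : w0 ^ 5 = (493 / 507) ^ 2 * w0 := by rw [← e]; ring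
  have e7 : w0 ^ 7 = (493 / 507) ^ 3 * w0 := by rw [← e]; ring
  have e9 : w0 ^ 9 = (493 / 507) ^ 4 * w0 := by rw [← e]; ring
  have h1 := w0_lo7
  have h2 := w0_hi7
  rw [G4, G4, e3, e5, e7, e9]
  have h3 := mul_nonneg (sub_nonneg.mpr h1.le) hY
  have h4 := mul_nonneg (sub_nonneg.mpr h2.le) hY
  have h5 := mul_nonneg (sub_nonneg.mpr h1.le) (sq_nonneg t)
  have h6 := mul_nonneg (sub_nonneg.mpr h2.le) (sq_nonneg t)
  have h7 := sq_nonneg t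
  linarith

theorem P4B_T_I4 {t q : ℝ} (hq : q ^ 2 * (R ^ 2 - W0) = t ^ 2 - W0) (ha : 0.88 ≤ q)
    (hb : q ≤ 1) : 1.5381 ≤ t ^ 2 ∧ t ^ 2 ≤ 1.5836 := by
  have h1 : (0.88 : ℝ) ^ 2 ≤ q ^ 2 := pow_le_pow_left₀ (by norm_num) ha 2
  have h2 : q ^ 2 ≤ (1 : ℝ) ^ 2 := pow_le_pow_left₀ (by linarith) hb 2
  have h3 := mul_le_mul h1 A_lo7.le (by norm_num) (sq_nonneg q)
  have h4 := mul_le_mul h2 A_hi7.le (by linarith [A_lo7]) (by norm_num)
  rw [hq] at h3 h4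
  constructor
  · linarith [W0_lo7]
  · linarith [W0_hi7]

theorem P4B_B_I4 {t q : ℝ} (ht : 0 < t) (hW : W0 ≤ t ^ 2)
    (hq : q ^ 2 * (R ^ 2 - W0) = t ^ 2 - W0) (ha : 0.88 ≤ q) (hb : q ≤ 1) :
    R * W0 + R * (R ^ 2 - W0) * q ^ 3 - t ^ 3 ≤ 0.155688 - 0.098227 * t ^ 2 := by
  have ha' := sub_nonneg.mpr ha
  have hb' := sub_nonneg.mpr hb
  have h1 : q ^ 3 ≤ -0.411917 + 1.41192 * q ^ 2 := by
    have g0 := pow_nonneg hb' 3
    have g1 := mul_nonneg ha' (pow_nonneg hb' 2)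
    have g2 := mul_nonneg (pow_nonneg ha' 2) hb'
    have g3 := pow_nonneg ha' 3
    linarith
  have hRA : 0 ≤ R * (R ^ 2 - W0) := mul_nonneg R_pos.le (by linarith [A_lo7])
  have h2 := mul_le_mul_of_nonneg_left h1 hRA
  have h3 : R * (R ^ 2 - W0) * q ^ 2 = R * (t ^ 2 - W0) := by
    rw [mul_assoc, mul_comm (R ^ 2 - W0), hq]
  have h4 : 0 ≤ (t - 1.25) ^ 2 * (t + 1.25 / 2) := by positivity
  have h5 := mul_le_mul_of_nonneg_right R_hi6.le (sub_nonneg.mpr hW)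
  have h6 := mul_le_mul R_hi6.le W0_hi7.le (by linarith [W0_lo7]) (by norm_num)
  have h7 := mul_le_mul R_lo6.le A_lo7.le (by norm_num) R_pos.le
  linarith [W0_lo7]

theorem P4B_K_I4 {t q : ℝ} (ht1 : 1 ≤ t) (htR : t < R) (hW : W0 ≤ t ^ 2) (hq0 : 0 ≤ q)
    (hq : q ^ 2 * (R ^ 2 - W0) = t ^ 2 - W0) (ha : 0.88 ≤ q) (hb : q ≤ 1)
    (hTa : 1.5381 ≤ t ^ 2) : kap t ≤ 0.0026611 - 0.00168 * t ^ 2 := by
  have ha' := sub_nonneg.mpr ha
  have hb' := sub_nonneg.mpr hb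
  have h0 := (p_KU p_KEX t q hW ht1 htR hq0 hq).2
  have h1 : Kq q ≤ 0.005893 - 0.00589 * q ^ 2 := by
    rw [Kq]
    have g0 := pow_nonneg hb' 7
    have g1 := mul_nonneg ha' (pow_nonneg hb' 6)
    have g2 := mul_nonneg (pow_nonneg ha' 2) (pow_nonneg hb' 5)
    have g3 := mul_nonneg (pow_nonneg ha' 3) (pow_nonneg hb' 4)
    have g4 := mul_nonneg (pow_nonneg ha' 4) (pow_nonneg hb' 3)
    have g5 := mul_nonneg (pow_nonneg ha' 5) (pow_nonneg hb' 2)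
    have g6 := mul_nonneg (pow_nonneg ha' 6) hb'
    have g7 := pow_nonneg ha' 7
    linarith
  have h2 := mul_le_mul_of_nonneg_left A_hi7.le (sq_nonneg q)
  rw [hq] at h2
  linarith [W0_hi7]

theorem P4B_I4 {t q h : ℝ} (ht1 : 1 ≤ t) (htR : t < R) (hW : W0 ≤ t ^ 2) (hq0 : 0 ≤ q)
    (hq : q ^ 2 * (R ^ 2 - W0) = t ^ 2 - W0) (ha : 0.88 ≤ q) (hb : q ≤ 1)
    (hTa : 1.5381 ≤ t ^ 2) (hTb : t ^ 2 ≤ 1.5836) (hh1 : 1 ≤ h) (hh2 : h ≤ 1.22) :
    2 * π * bet t - π * kap t * h ^ 3 - h * ((2 * π - 8 * ps4) * bb t RP +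
      8 * ∫ ψ in (0 : ℝ)..ps4, bb t √(y4 (h ^ 2) ψ)) ≤
      π / 3 * bet t * (1 - (h - 1) * (1 - 3 * 0.0887) / 0.19 - 0.0887) := by
  have hF := F8_lb (C := 0.0514) (p := 0.825) (by linarith : 0 < t) (by linarith : 0 < h)
    (by nlinarith) (by norm_num) (by norm_num) (by norm_num) (P4B_F_I4 (t := t) (sq_nonneg h))
  have ha' := sub_nonneg.mpr hh1
  have hb' := sub_nonneg.mpr hh2
  have hTa' := sub_nonneg.mpr hTa
  have hTb' := sub_nonneg.mpr hTb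
  have g0 := pow_nonneg hb' 3
  have g1 := mul_nonneg ha' (pow_nonneg hb' 2)
  have g2 := mul_nonneg (pow_nonneg ha' 2) hb'
  have g3 := pow_nonneg ha' 3
  refine P4B_core ht1 htR hW hq0 hq hh1 (by linarith) (by norm_num) (by norm_num) hF
    (P4B_B_I4 (by linarith) hW hq ha hb) (P4B_K_I4 ht1 htR hW hq0 hq ha hb hTa) ?_ ?_ ?_
  · rw [cU4]
    clear hF
    have f0 := pow_nonneg hb' 2
    have f1 := mul_nonneg ha' hb'
    have f2 := pow_nonneg ha' 2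
    linarith
  · rw [cU4]
    clear hF
    linarith
  · rw [cU4]
    clear hF
    have u0 := mul_nonneg hTa' g0
    have u1 := mul_nonneg hTa' g1
    have u2 := mul_nonneg hTa' g2
    have u3 := mul_nonneg hTa' g3
    have v0 := mul_nonneg hTb' g0
    have v1 := mul_nonneg hTb' g1
    have v2 := mul_nonneg hTb' g2
    have v3 := mul_nonneg hTb' g3
    linarith

/-! ## The theorem -/

/-- The variable `q`. -/
theorem P4B_q {t : ℝ} (hW : W0 ≤ t ^ 2) :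
    ∃ q : ℝ, 0 ≤ q ∧ q ^ 2 * (R ^ 2 - W0) = t ^ 2 - W0 := by
  have hA : 0 < R ^ 2 - W0 := by linarith [A_lo7]
  refine ⟨√((t ^ 2 - W0) / (R ^ 2 - W0)), Real.sqrt_nonneg _, ?_⟩
  rw [Real.sq_sqrt (div_nonneg (by linarith) hA.le), div_mul_cancel₀ _ hA.ne']

/-- The interval `[1.2, 1.21]`. -/
theorem P4B_low {t h g : ℝ} (ht : 1.2 ≤ t) (htb : t ≤ 1.21) (hg0 : 0.0588 ≤ g)
    (hg1 : g ≤ 0.0708) (hh1 : 1 ≤ h) (hh2 : h ≤ 1.2) :
    2 * π * bet t - π * kap t * h ^ 3 - h * ((2 * π - 8 * ps4) * bb t RP +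
      8 * ∫ ψ in (0 : ℝ)..ps4, bb t √(y4 (h ^ 2) ψ)) ≤
      π / 3 * bet t * (1 - (h - 1) * (1 - 3 * g) / 0.19 - g) := by
  have htR : t < R := by linarith [R_lo6]
  have hTa : 1.44 ≤ t ^ 2 := by nlinarith
  have hTb : t ^ 2 ≤ 1.4641 := by nlinarith
  have hW : W0 ≤ t ^ 2 := by linarith [W0_hi7]
  obtain ⟨q, hq0, hq⟩ := P4B_q hW
  have ha : 0.536 ≤ q := by
    by_contra hc
    push Not at hc
    have h1 : q ^ 2 ≤ 0.536 ^ 2 := pow_le_pow_left₀ hq0 hc.le 2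
    have h2 := mul_le_mul h1 A_hi7.le (by linarith [A_lo7]) (by norm_num)
    rw [hq] at h2
    linarith [W0_hi7]
  have hb : q ≤ 0.639 := by
    by_contra hc
    push Not at hc
    have h1 : (0.639 : ℝ) ^ 2 ≤ q ^ 2 := pow_le_pow_left₀ (by norm_num) hc.le 2
    have h2 := mul_le_mul h1 A_lo7.le (by norm_num) (sq_nonneg q)
    rw [hq] at h2
    linarith [W0_lo7]
  have e1 := P4B_I1a (by linarith) htR hW hq0 hq ha hb hTa hTb hh1 hh2
  have e2 := P4B_I1b (by linarith) htR hW hq0 hq ha hb hTa hTb hh1 hh2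
  have e3 := mul_le_mul_of_nonneg_left e1 (sub_nonneg.mpr hg1)
  have e4 := mul_le_mul_of_nonneg_left e2 (sub_nonneg.mpr hg0)
  linear_combination (250 / 3) * e3 + (250 / 3) * e4

/-- The interval `[1.21, R)`. -/
theorem P4B_high {t h : ℝ} (ht : 1.21 ≤ t) (htR : t < R) (hh1 : 1 ≤ h) (hh2 : h ≤ 1.22) :
    2 * π * bet t - π * kap t * h ^ 3 - h * ((2 * π - 8 * ps4) * bb t RP +
      8 * ∫ ψ in (0 : ℝ)..ps4, bb t √(y4 (h ^ 2) ψ)) ≤
      π / 3 * bet t * (1 - (h - 1) * (1 - 3 * 0.0887) / 0.19 - 0.0887) := by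
  have ht1 : 1 ≤ t := by linarith
  have hTa : 1.4641 ≤ t ^ 2 := by nlinarith
  have hW : W0 ≤ t ^ 2 := by linarith [W0_hi7]
  obtain ⟨q, hq0, hq⟩ := P4B_q hW
  have ha : 0.638 ≤ q := by
    by_contra hc
    push Not at hc
    have h1 : q ^ 2 ≤ 0.638 ^ 2 := pow_le_pow_left₀ hq0 hc.le 2
    have h2 := mul_le_mul h1 A_hi7.le (by linarith [A_lo7]) (by norm_num)
    rw [hq] at h2
    linarith [W0_hi7]
  have hb : q ≤ 1 := (p_KU p_KEX t q hW ht1 htR hq0 hq).1.le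
  rcases le_total q 0.77 with h1 | h1
  · obtain ⟨h2, h3⟩ := P4B_T_I2 hq ha h1
    exact P4B_I2 ht1 htR hW hq0 hq ha h1 h2 h3 hh1 hh2
  rcases le_total q 0.88 with h4 | h4
  · obtain ⟨h2, h3⟩ := P4B_T_I3 hq h1 h4
    exact P4B_I3 ht1 htR hW hq0 hq h1 h4 h2 h3 hh1 hh2
  · obtain ⟨h2, h3⟩ := P4B_T_I4 hq h4 hb
    exact P4B_I4 ht1 htR hW hq0 hq h4 hb h2 h3 hh1 hh2

end Pool.Agent.SDL.P4I

namespace Pool.Agent.SDL

open Pool.Agent.SDC P4I

/-- The inequality for facets with four sides, `1.2 ≤ t`. -/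
theorem P4B {t h : ℝ} (ht : 1.2 ≤ t) (htR : t < R) (hh1 : 1 ≤ h)
    (hh2 : h ≤ 1.2 ∨ (1.21 ≤ t ∧ h ≤ 1.22)) :
    2 * π * bet t - π * kap t * h ^ 3 - h * ((2 * π - 8 * arccos (√0.507)) * bb t RP +
      8 * ∫ ψ in (0 : ℝ)..arccos (√0.507), bb t (√(h ^ 2 * (1 - 0.507 / cos ψ ^ 2) +
        33 / 20 * (0.507 / cos ψ ^ 2)))) ≤
      π / 3 * bet t * (1 - (h - 1) / Lv t - gv t) := by
  change 2 * π * bet t - π * kap t * h ^ 3 - h * ((2 * π - 8 * ps4) * bb t RP +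
      8 * ∫ ψ in (0 : ℝ)..ps4, bb t √(y4 (h ^ 2) ψ)) ≤ _
  have hL : (h - 1) / Lv t = (h - 1) * (1 - 3 * gv t) / 0.19 := by
    rw [Lv, div_div_eq_mul_div]
  rw [hL]
  rcases lt_or_ge t 1.21 with h3 | h3
  · have hg : gv t = 1.2 * (t - 1.151) := by
      rw [gv, if_pos h3, max_eq_right (by linarith)]
    apply P4B_low ht h3.le (by rw [hg]; linarith) (by rw [hg]; linarith) hh1
    rcases hh2 with h4 | h4
    · exact h4
    · linarith [h4.1]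
  · have hg : gv t = 0.0887 := by
      rw [gv, if_neg (not_lt.mpr h3)]
    rw [hg]
    apply P4B_high h3 htR hh1
    rcases hh2 with h4 | h4
    · linarith
    · exact h4.2

end Pool.Agent.SDL
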