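import Pool.Agent.SDL.P4C_Num

set_option autoImplicit false

/-!
# SDL: the facets with four sides for `1.1436 ≤ t ≤ 1.2`
-/

open MeasureTheory Set Real

namespace Pool.Agent.SDL

open Pool.Agent.SDC

theorem P4C_wt_bd {t l : ℝ} (ht1 : 1.1436 ≤ t) (ht2 : t ≤ 1.2) (hl0 : 0 ≤ l)
    (hl1 : l ≤ 0.18) : 0 ≤ P4C_wt t l ∧ P4C_wt t l ≤ 1.01 := by
  rw [P4C_wt]
  have h1 : 0 ≤ (4.72 - 3.3 * t) / 0.175 := div_nonneg (by linarith) (by norm_num)
  constructor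
  · have h2 : l * ((4.72 - 3.3 * t) / 0.175) ≤ 0.18 * ((4.72 - 3.3 * t) / 0.175) :=
      mul_le_mul_of_nonneg_right hl1 h1
    have h3 : 0.18 * ((4.72 - 3.3 * t) / 0.175) = 0.18 / 0.175 * (4.72 - 3.3 * t) := by ring
    have h4 : (0.18 : ℝ) / 0.175 = 36 / 35 := by norm_num
    rw [h3, h4] at h2
    linarith
  · have h2 : 0 ≤ l * ((4.72 - 3.3 * t) / 0.175) := mul_nonneg hl0 h1
    linarith

theorem P4C_ph_bd {l : ℝ} (hl0 : 0 ≤ l) (hl1 : l ≤ 0.18) :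
    0 ≤ P4C_ph l ∧ P4C_ph l ≤ 1.002 := by
  rw [P4C_ph]
  constructor
  · have : 0 ≤ l ^ 2 := sq_nonneg l
    linarith
  · have : l ^ 2 ≤ l * 0.18 := by
      rw [pow_two]
      exact mul_le_mul_of_nonneg_left hl1 hl0
    linarith

theorem P4C_g_bd {t l : ℝ} (ht1 : 1.1436 ≤ t) (ht2 : t ≤ 1.2) (hl0 : 0 ≤ l)
    (hl1 : l ≤ 0.18) : |3.14159 / 3 * P4C_wt t l - P4C_ph l| ≤ 1.1 := by
  obtain ⟨a1, a2⟩ := P4C_wt_bd ht1 ht2 hl0 hl1
  obtain ⟨b1, b2⟩ := P4C_ph_bd hl0 hl1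
  rw [abs_le]
  constructor
  · have : 0 ≤ 3.14159 / 3 * P4C_wt t l := mul_nonneg (by norm_num) a1
    linarith
  · linarith

/-- The inequality for one value of `t`, in terms of the bounds of the constants. -/
theorem P4C_mul {g x x0 e : ℝ} (hg : |g| ≤ 1.1) (hx : |x - x0| ≤ e) :
    x0 * g - 1.1 * e ≤ x * g := by
  have h1 : |(x - x0) * g| ≤ e * 1.1 := by
    rw [abs_mul]
    exact mul_le_mul hx hg (abs_nonneg _) ((abs_nonneg _).trans hx)
  have h2 := (abs_le.mp h1).1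
  have h3 : (x - x0) * g = x * g - x0 * g := by ring
  linarith

theorem P4C_keyA {t l : ℝ} (ht1 : 1.1436 ≤ t) (htW : t ^ 2 ≤ W0) (hl0 : 0 ≤ l)
    (hl1 : l ≤ 0.18) :
    0 < 3.14159 / 3 * bet t * P4C_wt t l - (t ^ 3 + bet t) * P4C_ph l
      + 2.0278 * (1 - kap t) * (1 + l) * (1.65 - (1 + l) ^ 2)
      + 3.14159 * (2 * t ^ 3 - 3 * t ^ 2 * (1 + l) + (1 + l) ^ 3) - P4C_c8 t l - 0.00102 := by
  have hW : W0 < (1.3819661 : ℝ) := by
    rw [W0]
    linarith [s5_lo']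
  have ht2 : t ≤ 1.1756 := by
    apply le_of_sq_le_sq _ (by norm_num)
    have : (1.1756 : ℝ) ^ 2 = 1.38203536 := by norm_num
    rw [this]
    linarith
  have hk := tKEX.2 t (by linarith) htW
  have hmax : max (t ^ 2 - W0) 0 = 0 := max_eq_right (by linarith)
  have hbet : bet t = (1 - kap t) * (R * W0) - t ^ 3 := by
    rw [bet, gg, hmax, Real.sqrt_zero]
    ring
  have hpoly := P4C_polyA ht1 ht2 hl0 hl1
  have hga := P4C_polyG ht1 (by linarith) hl0 hl1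
  have hg := P4C_g_bd ht1 (by linarith) hl0 hl1
  obtain ⟨r1, r2⟩ := ds1_RW
  set g := 3.14159 / 3 * P4C_wt t l - P4C_ph l with hgdef
  have hr : |R * W0 - 1.7390776| ≤ 0.0000025 := by
    rw [abs_le]
    constructor <;> linarith
  have hrg := P4C_mul hg hr
  set p := 9 * t ^ 2 - 5 * t ^ 3 - 3 with hp
  have hp0 : 0 ≤ p := by
    have e1 : 0 ≤ t - 1.1436 := by linarith
    have e2 : 0 ≤ 1.1756 - t := by linarith
    rw [hp]
    nlinarith [mul_nonneg e1 e2, mul_nonneg (mul_nonneg e1 e2) (by linarith : 0 ≤ t)]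
  have hkp : 0.75469 * p ≤ 1 - kap t := by
    have e1 := Real.pi_gt_d6
    have e2 := S0_hi
    have e3 := S0_pos
    have e4 : 3.141592 / 30 * p ≤ (1 - kap t) * S0 := by
      rw [hk]
      apply mul_le_mul_of_nonneg_right _ hp0
      linarith
    have e5 : 0 ≤ 1 - kap t := by
      by_contra hc
      have e6 : (1 - kap t) * S0 < 0 := mul_neg_of_neg_of_pos (not_le.mp hc) e3
      have e7 : 0 ≤ 3.141592 / 30 * p := mul_nonneg (by norm_num) hp0
      linarith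
    have e6 : (1 - kap t) * S0 ≤ (1 - kap t) * 0.138758 :=
      mul_le_mul_of_nonneg_left e2.le e5
    linarith
  have hk0 : 0 ≤ 1 - kap t := le_trans (mul_nonneg (by norm_num) hp0) hkp
  have h1 : 0.75469 * p * (P4C_ga t l - 0.000004) ≤ (1 - kap t) * (P4C_ga t l - 0.000004) :=
    mul_le_mul_of_nonneg_right hkp hga.le
  have h2 : (1 - kap t) * (P4C_ga t l - 0.000004) ≤
      (1 - kap t) * (R * W0 * g + 2.0278 * (1 + l) * (1.65 - (1 + l) ^ 2)) := by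
    apply mul_le_mul_of_nonneg_left _ hk0
    rw [P4C_ga, ← hgdef]
    linarith
  have h3 : 3.14159 / 3 * bet t * P4C_wt t l - (t ^ 3 + bet t) * P4C_ph l
      + 2.0278 * (1 - kap t) * (1 + l) * (1.65 - (1 + l) ^ 2)
      + 3.14159 * (2 * t ^ 3 - 3 * t ^ 2 * (1 + l) + (1 + l) ^ 3) - P4C_c8 t l - 0.00102 =
      (1 - kap t) * (R * W0 * g + 2.0278 * (1 + l) * (1.65 - (1 + l) ^ 2))
      + P4C_bs t l 0.00102 := by
    rw [hbet, hgdef, P4C_bs]
    ring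
  rw [h3]
  linarith

theorem P4C_keyB {t l e : ℝ} (ht1 : 1.1436 ≤ t) (ht2 : t ≤ 1.2) (htW : W0 ≤ t ^ 2)
    (hl0 : 0 ≤ l) (hl1 : l ≤ 0.18) (he : (t < 1.18 ∧ e = 0.00102) ∨ (1.18 ≤ t ∧ e = 0)) :
    0 < 3.14159 / 3 * bet t * P4C_wt t l - (t ^ 3 + bet t) * P4C_ph l
      + 2.0278 * (1 - kap t) * (1 + l) * (1.65 - (1 + l) ^ 2)
      + 3.14159 * (2 * t ^ 3 - 3 * t ^ 2 * (1 + l) + (1 + l) ^ 3) - P4C_c8 t l - e := by
  have hR := R_lo'
  have hR' := R_hi'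
  have hW1 : (1.381966 : ℝ) < W0 := by
    rw [W0]
    linarith [s5_hi']
  have hW2 : W0 < (1.3819661 : ℝ) := by
    rw [W0]
    linarith [s5_lo']
  have hA1 : (0.201626 : ℝ) < R ^ 2 - W0 := by
    rw [R_sq, W0]
    linarith [s5_hi']
  have hA2 : R ^ 2 - W0 < (0.2016266 : ℝ) := by
    rw [R_sq, W0]
    linarith [s5_lo']
  set A := R ^ 2 - W0 with hA
  have hA0 : 0 < A := by linarith
  have hq0 : 0 ≤ (t ^ 2 - W0) / A := div_nonneg (by linarith) hA0.le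
  set q := √((t ^ 2 - W0) / A) with hq
  have hqn : 0 ≤ q := Real.sqrt_nonneg _
  have hq2 : q ^ 2 * A = t ^ 2 - W0 := by
    rw [hq, Real.sq_sqrt hq0]
    field_simp
  have htR : t < R := by linarith
  obtain ⟨q1, hku⟩ := tKU t q htW (by linarith) htR hqn (by rw [← hA]; exact hq2)
  obtain ⟨-, -, hX⟩ := tBQ t q htW (by linarith) htR hqn (by rw [← hA]; exact hq2)
  rw [← hA] at hX
  have hqs : 0 ≤ q ^ 2 := sq_nonneg q
  have hc1 : 1.381966 + 0.201626 * q ^ 2 ≤ t ^ 2 := by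
    have : q ^ 2 * 0.201626 ≤ q ^ 2 * A := mul_le_mul_of_nonneg_left hA1.le hqs
    linarith
  have hc2 : t ^ 2 ≤ 1.3819661 + 0.2016266 * q ^ 2 := by
    have : q ^ 2 * A ≤ q ^ 2 * 0.2016266 := mul_le_mul_of_nonneg_left hA2.le hqs
    linarith
  have ht0 : 0 ≤ t := by linarith
  have ht3 : 1.1755 ≤ t := by
    apply le_of_sq_le_sq _ ht0
    have : (1.1755 : ℝ) ^ 2 = 1.38180025 := by norm_num
    rw [this]
    linarith
  have hpoly : 0 < (1 - 0.0578 * Kq q) * (P4C_ga t l - 0.000004)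
      + (3.14159 / 3 * P4C_wt t l - P4C_ph l) * (0.253729 * q ^ 3) - 0.000002
      + P4C_bs t l e := by
    rcases he with ⟨h1, rfl⟩ | ⟨h1, rfl⟩
    · have hq5 : q ≤ 0.2275 := by
        apply le_of_sq_le_sq _ (by norm_num)
        have e1 : (0.2275 : ℝ) ^ 2 = 0.05175625 := by norm_num
        have e2 : t ^ 2 ≤ 1.18 ^ 2 := pow_le_pow_left₀ ht0 h1.le 2
        have e3 : (1.18 : ℝ) ^ 2 = 1.3924 := by norm_num
        rw [e1]
        rw [e3] at e2
        linarith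
      exact P4C_polyB1 hqn hq5 ht3 (by linarith) hl0 hl1 hc1 hc2
    · have hq5 : q ≤ 0.5366 := by
        apply le_of_sq_le_sq _ (by norm_num)
        have e1 : (0.5366 : ℝ) ^ 2 = 0.28793956 := by norm_num
        have e2 : t ^ 2 ≤ 1.2 ^ 2 := pow_le_pow_left₀ ht0 ht2 2
        have e3 : (1.2 : ℝ) ^ 2 = 1.44 := by norm_num
        rw [e1]
        rw [e3] at e2
        linarith
      have hq6 : 0.2274 ≤ q := by
        apply le_of_sq_le_sq _ hqn
        have e1 : (0.2274 : ℝ) ^ 2 = 0.05171076 := by norm_num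
        have e2 : (1.18 : ℝ) ^ 2 ≤ t ^ 2 := pow_le_pow_left₀ (by norm_num) h1 2
        have e3 : (1.18 : ℝ) ^ 2 = 1.3924 := by norm_num
        rw [e1]
        rw [e3] at e2
        linarith
      exact P4C_polyB2 hq6 hq5 (by linarith) ht2 hl0 hl1 hc1 hc2
  have hga := P4C_polyG ht1 ht2 hl0 hl1
  have hg := P4C_g_bd ht1 ht2 hl0 hl1
  obtain ⟨r1, r2⟩ := ds1_RW
  set g := 3.14159 / 3 * P4C_wt t l - P4C_ph l with hgdef
  have hr : |R * W0 - 1.7390776| ≤ 0.0000025 := by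
    rw [abs_le]
    constructor <;> linarith
  have hrg := P4C_mul hg hr
  have hra : |R * A - 0.253729| ≤ 0.0000018 := by
    have e1 : R * A ≤ 1.258409 * 0.2016266 :=
      mul_le_mul hR'.le hA2.le hA0.le (by norm_num)
    have e2 : 1.258408 * 0.201626 ≤ R * A :=
      mul_le_mul hR.le hA1.le (by norm_num) (by linarith)
    rw [abs_le]
    constructor
    · norm_num at e2 ⊢
      linarith
    · norm_num at e1 ⊢
      linarith
  have hrag := P4C_mul hg hra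
  have hq3 : 0 ≤ q ^ 3 := by positivity
  have hq31 : q ^ 3 ≤ 1 := pow_le_one₀ hqn q1.le
  have hk1 : 1 - 0.0578 * Kq q ≤ 1 - kap t := by linarith
  have hk0 : 0 ≤ 1 - kap t := by linarith [RPX_kap1 (by linarith : 1 ≤ t) htR]
  have h1 : (1 - 0.0578 * Kq q) * (P4C_ga t l - 0.000004) ≤
      (1 - kap t) * (P4C_ga t l - 0.000004) :=
    mul_le_mul_of_nonneg_right hk1 hga.le
  have h2 : (1 - kap t) * (P4C_ga t l - 0.000004) ≤
      (1 - kap t) * (R * W0 * g + 2.0278 * (1 + l) * (1.65 - (1 + l) ^ 2)) := by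
    apply mul_le_mul_of_nonneg_left _ hk0
    rw [P4C_ga, ← hgdef]
    linarith
  have h4 : g * (0.253729 * q ^ 3) - 0.000002 ≤ R * A * g * q ^ 3 := by
    have e1 := mul_le_mul_of_nonneg_right hrag hq3
    have e2 : (0.253729 * g - 1.1 * 0.0000018) * q ^ 3 =
        g * (0.253729 * q ^ 3) - 0.00000198 * q ^ 3 := by ring
    rw [e2] at e1
    linarith
  have hbet : bet t = R * ((1 - kap t) * W0 + A * q ^ 3) - t ^ 3 := by linarith
  have h3 : 3.14159 / 3 * bet t * P4C_wt t l - (t ^ 3 + bet t) * P4C_ph l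
      + 2.0278 * (1 - kap t) * (1 + l) * (1.65 - (1 + l) ^ 2)
      + 3.14159 * (2 * t ^ 3 - 3 * t ^ 2 * (1 + l) + (1 + l) ^ 3) - P4C_c8 t l - e =
      (1 - kap t) * (R * W0 * g + 2.0278 * (1 + l) * (1.65 - (1 + l) ^ 2))
      + R * A * g * q ^ 3 + P4C_bs t l e := by
    rw [hbet, hgdef, P4C_bs]
    ring
  rw [h3]
  linarith

theorem P4C_key {t l : ℝ} (ht1 : 1.1436 ≤ t) (ht2 : t ≤ 1.2) (hl0 : 0 ≤ l)
    (hl1 : l ≤ 0.18) :
    0 < 3.14159 / 3 * bet t * P4C_wt t l - (t ^ 3 + bet t) * P4C_ph l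
      + 2.0278 * (1 - kap t) * (1 + l) * (1.65 - (1 + l) ^ 2)
      + 3.14159 * (2 * t ^ 3 - 3 * t ^ 2 * (1 + l) + (1 + l) ^ 3) - P4C_c8 t l
      - (if t < 1.18 then 0.00102 else 0) := by
  rcases le_total (t ^ 2) W0 with hW | hW
  · have h1 := P4C_keyA ht1 hW hl0 hl1
    have h2 : t < 1.18 := by
      have hW' : W0 < (1.3819661 : ℝ) := by
        rw [W0]
        linarith [s5_lo']
      apply lt_of_pow_lt_pow_left₀ 2 (by norm_num)
      have : (1.18 : ℝ) ^ 2 = 1.3924 := by norm_num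
      rw [this]
      linarith
    rw [if_pos h2]
    exact h1
  · apply P4C_keyB ht1 ht2 hW hl0 hl1
    rcases lt_or_ge t 1.18 with h | h
    · exact Or.inl ⟨h, if_pos h⟩
    · exact Or.inr ⟨h, if_neg (not_lt.mpr h)⟩

/-- **The bound of the cost of four sides for `1.1436 ≤ t ≤ 1.2`.** -/
theorem P4C {t h : ℝ} (ht1 : 1.1436 ≤ t) (ht2 : t ≤ 1.2) (h1 : 1 ≤ h) (h2 : h ≤ 1.18) :
    2 * π * bet t - π * kap t * h ^ 3 - h * ((2 * π - 8 * arccos √0.507) * bb t RP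
      + 8 * ∫ ψ in (0 : ℝ)..arccos √0.507,
        bb t √(h ^ 2 * (1 - 0.507 / cos ψ ^ 2) + 33 / 20 * (0.507 / cos ψ ^ 2)))
      + (if t < 1.18 then 0.00102 else 0) ≤
    π / 3 * bet t * (1 - (h - 1) * ((4.72 - 3.3 * t) / 0.175)
      - (0.0074 + 1.163 * (t - 1.15))) := by
  have htR : t < R := by linarith [R_lo']
  have hRRP : R < RP := R_lt_RO.trans RO_lt_RP
  have hRP : (1.2 : ℝ) < RP := by linarith [R_lo']
  have hIP := P4C_IP (t := t) (h := h) (K := 0.2821) (by linarith) (by linarith) h1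
    (by linarith) (by norm_num) (by nlinarith)
  have hB := (tBET t (by linarith) htR).1
  have hk0 : 0 ≤ 1 - kap t := by linarith [RPX_kap1 (by linarith : 1 ≤ t) htR]
  have hX : 0 ≤ t ^ 3 + bet t := by
    have : 0 ≤ t ^ 3 := pow_nonneg (by linarith) 3
    linarith
  have hl0 : 0 ≤ h - 1 := by linarith
  have hl1 : h - 1 ≤ 0.18 := by linarith
  have hkey := P4C_key ht1 ht2 hl0 hl1
  have e1 : (1 : ℝ) + (h - 1) = h := by ring
  rw [e1] at hkey
  have hphi := mul_le_mul_of_nonneg_left (P4C_phi_le h1 h2) hX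
  have hC := P4C_C_num (by linarith : (1.14 : ℝ) ≤ t) ht2 h1 h2
  obtain ⟨w1, -⟩ := P4C_wt_bd ht1 ht2 hl0 hl1
  have hw : P4C_wt t (h - 1) = 1 - (h - 1) * ((4.72 - 3.3 * t) / 0.175)
      - (0.0074 + 1.163 * (t - 1.15)) := rfl
  rw [← hw]
  have hpi := Real.pi_gt_d6
  have hpw : 3.14159 / 3 * bet t * P4C_wt t (h - 1) ≤ π / 3 * bet t * P4C_wt t (h - 1) := by
    apply mul_le_mul_of_nonneg_right _ w1
    apply mul_le_mul_of_nonneg_right _ hB
    linarith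
  have hps : 3.14159 * ((t - h) ^ 2 * (h + 2 * t)) ≤ π * ((t - h) ^ 2 * (h + 2 * t)) := by
    apply mul_le_mul_of_nonneg_right (by linarith)
    exact mul_nonneg (sq_nonneg _) (by linarith)
  have hh : h ^ 2 ≤ 33 / 20 := by nlinarith
  have htan : 0.49995 ≤ 0.507 * tan P4C_a := by
    apply le_of_sq_le_sq _ (mul_nonneg (by norm_num) P4C_tan_pos.le)
    rw [mul_pow, P4C_tan_sq]
    norm_num
  have h4 : 2.0278 * (1 - kap t) * h * (1.65 - h ^ 2) ≤
      4 * (1 - kap t) * h * (33 / 20 - h ^ 2) * ((π / 4 - P4C_a) + 0.507 * tan P4C_a) := by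
    have e2 := P4C_eps
    have e3 : (2.0278 : ℝ) / 4 ≤ (π / 4 - P4C_a) + 0.507 * tan P4C_a := by linarith
    have e4 : 0 ≤ 4 * (1 - kap t) * h * (33 / 20 - h ^ 2) :=
      mul_nonneg (mul_nonneg (mul_nonneg (by norm_num) hk0) (by linarith)) (by linarith)
    have e5 := mul_le_mul_of_nonneg_left e3 e4
    have e6 : 4 * (1 - kap t) * h * (33 / 20 - h ^ 2) * (2.0278 / 4) =
        2.0278 * (1 - kap t) * h * (1.65 - h ^ 2) := by ring
    linarith
  have e7 : (t - h) ^ 2 * (h + 2 * t) = 2 * t ^ 3 - 3 * t ^ 2 * h + h ^ 3 := by ring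
  rw [e7] at hps hIP
  have hI : (2 * π - 8 * arccos √0.507) * bb t RP + 8 * ∫ ψ in (0 : ℝ)..arccos √0.507,
        bb t √(h ^ 2 * (1 - 0.507 / cos ψ ^ 2) + 33 / 20 * (0.507 / cos ψ ^ 2)) =
      (2 * π - 8 * P4C_a) * bb t RP + 8 * ∫ ψ in (0 : ℝ)..P4C_a, bb t √(P4C_w (h ^ 2) ψ) := rfl
  rw [hI]
  linarith

end Pool.Agent.SDL
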