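import Pool.Agent.SDL.P3_P4A

set_option autoImplicit false

/-!
# SDL: a facet with at most four sides in the ball of radius `RP`: the bound of the integral
-/

open MeasureTheory Set Real
open scoped RealInnerProductSpace

namespace Pool.Agent.SDL

open Pool.Agent.SDC

theorem psi4_cos_le {ψ : ℝ} (h0 : 0 ≤ ψ) (h1 : ψ ≤ psi4) : √0.507 ≤ cos ψ := by
  rw [← psi4_cos]
  exact cos_le_cos_of_nonneg_of_le_pi h0 (by linarith [psi4_lt, Real.pi_pos]) h1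

theorem psi4_sec {ψ : ℝ} (h0 : 0 ≤ ψ) (h1 : ψ ≤ psi4) :
    0 < cos ψ ∧ 0.507 ≤ 0.507 / cos ψ ^ 2 ∧ 0.507 / cos ψ ^ 2 ≤ 1 := by
  have h2 := psi4_cos_le h0 h1
  have h3 := sq507_pos
  have hc : 0 < cos ψ := h3.trans_le h2
  have h4 : 0.507 ≤ cos ψ ^ 2 := by
    have := pow_le_pow_left₀ h3.le h2 2
    rwa [Real.sq_sqrt (by norm_num)] at this
  have h5 : cos ψ ^ 2 ≤ 1 := by
    have := cos_le_one ψ
    nlinarith
  refine ⟨hc, ?_, ?_⟩
  · rw [le_div_iff₀ (by positivity)]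
    nlinarith
  · rw [div_le_one (by positivity)]
    exact h4

/-- The range of `w4`. -/
theorem w4_mem {Y ψ : ℝ} (hY : 1 ≤ Y) (hY2 : Y ≤ 33 / 20) (h0 : 0 ≤ ψ) (h1 : ψ ≤ psi4) :
    1 ≤ w4 Y ψ ∧ w4 Y ψ ≤ 33 / 20 := by
  obtain ⟨hc, h2, h3⟩ := psi4_sec h0 h1
  rw [w4]
  obtain ⟨g, hg⟩ : ∃ g, g = 0.507 / cos ψ ^ 2 := ⟨_, rfl⟩
  rw [← hg] at h2 h3 ⊢
  have h4 : 0 ≤ (33 / 20 - Y) * g := mul_nonneg (by linarith) (by linarith)
  have h5 : 0 ≤ (33 / 20 - Y) * (1 - g) := mul_nonneg (by linarith) (by linarith)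
  constructor <;> linarith

theorem P4_pt {t h ψ : ℝ} (ht : 1 ≤ t) (htR : t < R) (h1 : 1 ≤ h) (hht : h ≤ t)
    (hψ0 : 0 ≤ ψ) (hψ1 : ψ ≤ psi4) :
    HH t h (rr h RP) - HH t h (√0.507 * rr h RP / cos ψ) =
      h * (bb t RP - bb t √(w4 (h ^ 2) ψ)) := by
  have hh0 : 0 < h := by linarith
  have hP := R_lt_RP'
  have hhP : h < RP := by linarith
  obtain ⟨hρ0, hρ2, hρc⟩ := CBx_rr hh0 hhP
  obtain ⟨hc, -, -⟩ := psi4_sec hψ0 hψ1
  have hs := sq507_pos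
  have hr0 : 0 ≤ √0.507 * rr h RP / cos ψ := by positivity
  rw [p_HB t h (rr h RP) (by linarith) hh0 hρ0.le, (FBC_rr hh0 hhP.le).2,
    p_HB t h (√0.507 * rr h RP / cos ψ) (by linarith) hh0 hr0]
  have e1 : h * cc (√0.507 * rr h RP / cos ψ) = √(w4 (h ^ 2) ψ) := by
    have e2 : w4 (h ^ 2) ψ = h ^ 2 * (1 + (√0.507 * rr h RP / cos ψ) ^ 2) := by
      have e3 : (√0.507 * rr h RP / cos ψ) ^ 2 = 0.507 / cos ψ ^ 2 * rr h RP ^ 2 := by
        rw [div_pow, mul_pow, Real.sq_sqrt (by norm_num)]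
        ring
      have e4 : h ^ 2 * rr h RP ^ 2 = 33 / 20 - h ^ 2 := by
        rw [← RP_sq, ← hρ2]
        ring
      rw [e3, w4, mul_add, mul_left_comm, e4]
      ring
    rw [e2, Real.sqrt_mul (by positivity), Real.sqrt_sq hh0.le, cc]
  rw [e1]
  ring

/-- The bound for one side. -/
theorem P4_T {t h a : ℝ} (ht : 1 ≤ t) (htR : t < R) (h1 : 1 ≤ h) (hht : h ≤ t)
    (ha0 : 0 < a) (ha : h ^ 2 + 0.507 * (33 / 20 - h ^ 2) ≤ h ^ 2 * (1 + a ^ 2)) :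
    ∫ ψ in (0 : ℝ)..(π / 2), max (HH t h (rr h RP) - HH t h (a / cos ψ)) 0 ≤
      h * IT t (h ^ 2) + E4 t h := by
  refine (P4_main ht htR h1 hht ha0 ha).trans (le_of_eq ?_)
  rw [IT, ← intervalIntegral.integral_const_mul]
  congr 1
  apply intervalIntegral.integral_congr
  intro ψ hψ
  rw [uIcc_of_le psi4_pos.le] at hψ
  exact P4_pt ht htR h1 hht hψ.1 hψ.2

theorem DMN_507 {y : ℝ} (h2 : y < 4) :
    y + 0.507 * (33 / 20 - y) ≤ 4 / (4 - y) := by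
  rw [le_div_iff₀ (by linarith)]
  nlinarith [sq_nonneg (y - 1.15157)]

theorem IT_nonneg {t h : ℝ} (ht : 1 ≤ t) (htR : t < R) (h1 : 1 ≤ h) (hht : h ≤ t) :
    0 ≤ h * IT t (h ^ 2) + E4 t h := by
  refine le_trans ?_ (P4_T ht htR h1 hht (a := 4) (by norm_num) ?_)
  · apply intervalIntegral.integral_nonneg (by positivity)
    intro ψ _
    exact le_max_right _ _
  · nlinarith

/-- The bound of the integral over a facet, linear in the number of the near sides. -/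
theorem P4_FI {ι : Type} [Fintype ι] (n : ι → E3) (h : ι → ℝ) (i : ι) (e f : E3) {t : ℝ}
    (hP : Pck n h) (hI : Irr n h) (hO : Onb (n i) e f) (ht : 1 ≤ t) (htR : t < R)
    (hht : h i ≤ t) :
    2 * π * HH t (h i) (rr (h i) RP) -
      2 * (ns n h i : ℝ) * (h i * IT t (h i ^ 2) + E4 t (h i)) ≤ FI t n h i e f := by
  classical
  have hh1 : 1 ≤ h i := hP.2.1 i
  have hh0 : 0 < h i := by linarith
  have hRP := R_lt_RP'
  have hiP : h i < RP := by linarith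
  have hiRO : h i < RO := by linarith [R_lt_RO]
  have ht0 : 0 < t := by linarith
  have hκ : 0 ≤ kap t := (tKAP t ht htR).1
  have hβ : 0 ≤ bet t := (tBET t ht htR).1
  have hgc : Continuous (G t (kap t) (bet t) (h i)) := tHCL.1 _ _ _ _
  have hρ0 : 0 ≤ rr (h i) RP := Real.sqrt_nonneg _
  have hGρ : 0 ≤ G t (kap t) (bet t) (h i) (rr (h i) RP) :=
    G_nonneg_far ht htR (by rw [(FBC_rr hh0 hiP.le).2]; exact hRP.le)
  have hGpos : ∀ s, rr (h i) RP ≤ s → 0 ≤ G t (kap t) (bet t) (h i) s := fun s hs =>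
    p_SGN t (kap t) (bet t) (h i) (rr (h i) RP) s ht0 hh0 hκ hβ hρ0 hs hGρ
  have hh2 : h i ^ 2 < 1.6 := by
    have : h i ^ 2 < R ^ 2 := pow_lt_pow_left₀ (by linarith) hh0.le two_ne_zero
    linarith [R_sq_hi]
  have key := p_FCX p_FAX ι n h i e f RP (HH t (h i) (rr (h i) RP))
    (fun _ => h i * IT t (h i ^ 2) + E4 t (h i))
    (G t (kap t) (bet t) (h i)) (Finset.univ.filter fun j => NS n h i RP j) hP.1
    (fun j => by linarith [hP.2.1 j]) hI hO hgc hiP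
    (fun j hj => (p_NSF p_DMN ι n h i j hP hI hiRO hj.symm).1)
    (fun r hr => FBB_mono hgc hρ0 hr hGpos)
    (by
      intro j hj
      have hNS : NS n h i RP j := (Finset.mem_filter.1 hj).2
      obtain ⟨h1, h2, -⟩ := (p_NSF p_DMN ι n h i j hP hI hiRO hNS.1).2.2 RP hNS
      obtain ⟨d1, -, -, d2⟩ := p_DMN (h i) (h j) ⟪n i, n j⟫ hh1 hiRO (hP.2.1 j) h1
        (hP.2.2 i j hNS.1)
      have h3 : h i ^ 2 * (1 + ad n h i j ^ 2) = Dq (h i) (h j) ⟪n i, n j⟫ := d2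
      apply P4_T ht htR hh1 hht h2
      rw [h3]
      exact (DMN_507 (by linarith)).trans d1)
    (fun j hj => Finset.mem_filter.2 ⟨Finset.mem_univ j, hj⟩)
  rw [Finset.sum_const, nsmul_eq_mul] at key
  have e1 : (((Finset.univ.filter fun j => NS n h i RP j).card : ℕ) : ℝ) = (ns n h i : ℝ) := rfl
  rw [e1] at key
  refine le_trans (le_of_eq ?_) key
  ring

/-! ## The integrals -/

theorem w4_cont (Y : ℝ) : ContinuousOn (fun ψ => √(w4 Y ψ)) (uIcc 0 psi4) := by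
  rw [uIcc_of_le psi4_pos.le]
  apply ContinuousOn.sqrt
  have h1 : ContinuousOn (fun ψ : ℝ => 0.507 / cos ψ ^ 2) (Icc 0 psi4) := by
    apply continuousOn_const.div (continuous_cos.pow 2).continuousOn
    intro ψ hψ
    exact (pow_pos (psi4_sec hψ.1 hψ.2).1 2).ne'
  unfold w4
  exact (continuousOn_const.mul (continuousOn_const.sub h1)).add (continuousOn_const.mul h1)

theorem bb_contOn (t : ℝ) (ht : 0 < t) : ContinuousOn (bb t) (Ioi 0) := by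
  intro ρ hρ
  have hρ0 : 0 < ρ := hρ
  have h1 : ContinuousAt (Bf t) ρ := (p_BF.2.1 t ρ ht hρ0).continuousAt
  apply ContinuousAt.continuousWithinAt
  unfold bb
  exact (h1.add (continuousAt_const.div continuousAt_id hρ0.ne')).sub
    ((continuousAt_const.mul (continuousAt_id.pow 2)).div_const 2)

theorem bbw_int {t Y : ℝ} (ht : 0 < t) (hY : 1 ≤ Y) (hY2 : Y ≤ 33 / 20) :
    IntervalIntegrable (fun ψ => bb t √(w4 Y ψ)) volume 0 psi4 := by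
  apply ContinuousOn.intervalIntegrable
  apply (bb_contOn t ht).comp (w4_cont Y)
  intro ψ hψ
  rw [uIcc_of_le psi4_pos.le] at hψ
  have := (w4_mem hY hY2 hψ.1 hψ.2).1
  exact Real.sqrt_pos.mpr (by linarith)

theorem IP4_IT {t Y : ℝ} (ht : 0 < t) (hY : 1 ≤ Y) (hY2 : Y ≤ 33 / 20) :
    IP4 t Y = 2 * π * bb t RP - 8 * IT t Y := by
  rw [IP4, IT, intervalIntegral.integral_sub intervalIntegrable_const (bbw_int ht hY hY2),
    intervalIntegral.integral_const, smul_eq_mul]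
  ring

/-- A facet with four near sides. -/
theorem P4_four {ι : Type} [Fintype ι] (n : ι → E3) (h : ι → ℝ) (i : ι) (e f : E3) {t : ℝ}
    (hP : Pck n h) (hI : Irr n h) (hO : Onb (n i) e f) (ht : 1 ≤ t) (htR : t < R)
    (hht : h i ≤ t) (hns : ns n h i = 4) :
    -(2 * π * bet t - π * kap t * h i ^ 3 - h i * IP4 t (h i ^ 2) + 8 * E4 t (h i)) ≤
      FI t n h i e f := by
  have hh1 : 1 ≤ h i := hP.2.1 i
  have hh2 : h i ^ 2 < 1.6 := by
    have : h i ^ 2 < R ^ 2 := pow_lt_pow_left₀ (by linarith) (by linarith) two_ne_zero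
    linarith [R_sq_hi]
  have h1 := P4_FI n h i e f hP hI hO ht htR hht
  rw [P4_HH ht hh1 hht htR, hns] at h1
  rw [IP4_IT (by linarith) (by nlinarith) (by linarith)]
  push_cast at h1
  linarith

/-! ## Convexity -/

/-- The derivative of `y ↦ bb t √y`. -/
noncomputable def bd (t ρ : ℝ) : ℝ :=
  (1 / 2) * (max (1 - t ^ 3 / ρ ^ 3) 0 - kap t - bet t / ρ ^ 3)

/-- The derivative of `IP4`. -/
noncomputable def IP4d (t Y : ℝ) : ℝ :=
  8 * ∫ ψ in (0 : ℝ)..psi4, (1 - 0.507 / cos ψ ^ 2) * bd t √(w4 Y ψ)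

/-- The tangent inequality. -/
theorem bb_tan {t ρ ρ0 : ℝ} (ht : 0 < t) (hβ : 0 ≤ bet t) (hρ : 0 < ρ) (hρ0 : 0 < ρ0) :
    bb t ρ0 + bd t ρ0 * (ρ ^ 2 - ρ0 ^ 2) ≤ bb t ρ := by
  -- the part with `β`
  have h1 : ∀ X ρ : ℝ, 0 ≤ X → 0 < ρ →
      X / ρ0 - X / ρ0 ^ 3 / 2 * (ρ ^ 2 - ρ0 ^ 2) ≤ X / ρ := by
    intro X ρ hX hρ
    have h2 : X / ρ - (X / ρ0 - X / ρ0 ^ 3 / 2 * (ρ ^ 2 - ρ0 ^ 2)) =
        X * ((ρ - ρ0) ^ 2 * (ρ + 2 * ρ0)) / (2 * ρ * ρ0 ^ 3) := by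
      field_simp
      ring
    have h3 : 0 ≤ X * ((ρ - ρ0) ^ 2 * (ρ + 2 * ρ0)) / (2 * ρ * ρ0 ^ 3) := by positivity
    linarith
  have h2 := h1 (bet t) ρ hβ hρ
  have h3 := h1 (t ^ 3) ρ (by positivity) hρ
  have h3' := h1 (t ^ 3) t (by positivity) ht
  have ht3 : t ^ 3 / t = t ^ 2 := by
    field_simp
  rw [bb, bb, bd]
  -- the part `Bf`
  have h4 : Bf t ρ0 + (1 / 2) * max (1 - t ^ 3 / ρ0 ^ 3) 0 * (ρ ^ 2 - ρ0 ^ 2) ≤ Bf t ρ := by
    have hB0 := p_BF.1 t ρ ht hρ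
    rcases le_total t ρ0 with h5 | h5
    · have h6 : t ^ 3 / ρ0 ^ 3 ≤ 1 := by
        rw [div_le_one (by positivity)]
        exact pow_le_pow_left₀ ht.le h5 3
      rw [max_eq_left (by linarith), p_BF.2.2 t ρ0 ht h5]
      rcases le_total t ρ with h7 | h7
      · rw [p_BF.2.2 t ρ ht h7]
        linarith
      · have h8 : (1 - t ^ 3 / ρ0 ^ 3) * ρ ^ 2 ≤ (1 - t ^ 3 / ρ0 ^ 3) * t ^ 2 := by
          apply mul_le_mul_of_nonneg_left _ (by linarith)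
          exact pow_le_pow_left₀ hρ.le h7 2
        rw [ht3] at h3'
        linarith
    · have h6 : 1 ≤ t ^ 3 / ρ0 ^ 3 := by
        rw [one_le_div (by positivity)]
        exact pow_le_pow_left₀ hρ0.le h5 3
      rw [max_eq_right (by linarith), Bf, if_pos h5]
      linarith
  have e1 : (1 / 2) * (max (1 - t ^ 3 / ρ0 ^ 3) 0 - kap t - bet t / ρ0 ^ 3) *
      (ρ ^ 2 - ρ0 ^ 2) = (1 / 2) * max (1 - t ^ 3 / ρ0 ^ 3) 0 * (ρ ^ 2 - ρ0 ^ 2) -
        kap t * (ρ ^ 2 - ρ0 ^ 2) / 2 - bet t / ρ0 ^ 3 / 2 * (ρ ^ 2 - ρ0 ^ 2) := by ring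
  rw [e1]
  linarith

theorem bd_contOn (t : ℝ) : ContinuousOn (bd t) (Ioi 0) := by
  intro ρ hρ
  have hρ0 : 0 < ρ := hρ
  apply ContinuousAt.continuousWithinAt
  unfold bd
  have h1 : ContinuousAt (fun ρ : ℝ => t ^ 3 / ρ ^ 3) ρ :=
    continuousAt_const.div (continuousAt_id.pow 3) (pow_pos hρ0 3).ne'
  have h2 : ContinuousAt (fun ρ : ℝ => bet t / ρ ^ 3) ρ :=
    continuousAt_const.div (continuousAt_id.pow 3) (pow_pos hρ0 3).ne'
  exact continuousAt_const.mul ((((continuousAt_const.sub h1).max continuousAt_const).sub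
    continuousAt_const).sub h2)

theorem bdw_int {t Y : ℝ} (hY : 1 ≤ Y) (hY2 : Y ≤ 33 / 20) :
    IntervalIntegrable (fun ψ => (1 - 0.507 / cos ψ ^ 2) * bd t √(w4 Y ψ)) volume 0 psi4 := by
  apply ContinuousOn.intervalIntegrable
  apply ContinuousOn.mul
  · apply continuousOn_const.sub
    rw [uIcc_of_le psi4_pos.le]
    apply continuousOn_const.div (continuous_cos.pow 2).continuousOn
    intro ψ hψ
    exact (pow_pos (psi4_sec hψ.1 hψ.2).1 2).ne'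
  · apply (bd_contOn t).comp (w4_cont Y)
    intro ψ hψ
    rw [uIcc_of_le psi4_pos.le] at hψ
    have := (w4_mem hY hY2 hψ.1 hψ.2).1
    exact Real.sqrt_pos.mpr (by linarith)

/-- Convexity in `Y = h²`. -/
theorem P4_conv {t Y Y0 : ℝ} (ht : 0 < t) (hβ : 0 ≤ bet t) (hY : 1 ≤ Y) (hY2 : Y ≤ 33 / 20)
    (hY0 : 1 ≤ Y0) (hY02 : Y0 ≤ 33 / 20) :
    IP4 t Y0 + IP4d t Y0 * (Y - Y0) ≤ IP4 t Y := by
  have h1 : ∫ ψ in (0 : ℝ)..psi4, (bb t √(w4 Y0 ψ) +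
      (Y - Y0) * ((1 - 0.507 / cos ψ ^ 2) * bd t √(w4 Y0 ψ))) ≤
      ∫ ψ in (0 : ℝ)..psi4, bb t √(w4 Y ψ) := by
    apply intervalIntegral.integral_mono_on psi4_pos.le
      ((bbw_int ht hY0 hY02).add ((bdw_int hY0 hY02).const_mul _)) (bbw_int ht hY hY2)
    intro ψ hψ
    obtain ⟨h2, -⟩ := w4_mem hY hY2 hψ.1 hψ.2
    obtain ⟨h3, -⟩ := w4_mem hY0 hY02 hψ.1 hψ.2
    have h4 := bb_tan (ρ := √(w4 Y ψ)) (ρ0 := √(w4 Y0 ψ)) ht hβ
      (Real.sqrt_pos.mpr (by linarith)) (Real.sqrt_pos.mpr (by linarith))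
    rw [Real.sq_sqrt (by linarith), Real.sq_sqrt (by linarith)] at h4
    have h5 : w4 Y ψ - w4 Y0 ψ = (Y - Y0) * (1 - 0.507 / cos ψ ^ 2) := by
      rw [w4, w4]
      ring
    rw [h5] at h4
    refine le_trans (le_of_eq ?_) h4
    ring
  rw [intervalIntegral.integral_add (bbw_int ht hY0 hY02) ((bdw_int hY0 hY02).const_mul _),
    intervalIntegral.integral_const_mul] at h1
  rw [IP4, IP4, IP4d]
  linarith

end Pool.Agent.SDL
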