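import Pool.Agent.SDL.AsmG

set_option autoImplicit false

/-!
# SDL: assembly by the number of low facets

A facet is low if `h < R`. With at most twelve low facets, and with at least fifteen, the weights of
`FB_wt` suffice. For thirteen and fourteen low facets we need a lower bound for the total lift
(`LiftN`), a lower bound for the total credit (`CrdN`), where the credit of a facet depends on
the number of its near sides, and the facet lemma `FL`.
-/

open MeasureTheory Set Real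
open scoped RealInnerProductSpace

namespace Pool.Agent.SDL

open Pool.Agent.SDC

/-- The chord of the weight. -/
theorem wt_le_chord {h : ℝ} (h1 : 1 ≤ h) (h2 : h ≤ R) : wt h ≤ 1 - (h - 1) / (R - 1) := by
  have hR1 : 1 < R := by linarith [R_lo']
  have hc : ConcaveOn ℝ (Icc 1 R) (fun x => arctan (x / √3)) := by
    have := (WT_conc.comp_linearMap (LinearMap.mulLeft ℝ (1 / √3)))
    refine (this.subset ?_ (convex_Icc _ _)).congr ?_
    · intro x hx
      show 0 ≤ 1 / √3 * x
      have := hx.1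
      positivity
    · intro x _
      show arctan (1 / √3 * x) = arctan (x / √3)
      congr 1
      ring
  have h3 := WT_chord hc hR1 ⟨h1, h2⟩
  have h4 : wt R = 0 := WT_R
  have h5 := WT_one
  rw [wt] at h4 h5 ⊢
  have h6 := mul_le_mul_of_nonneg_left h3 (by positivity : 0 ≤ 30 / π)
  have e1 : (R - h) / (R - 1) + (h - 1) / (R - 1) = 1 := by
    rw [← add_div, div_eq_one_iff_eq (by linarith)]
    ring
  have e3 : 1 - (h - 1) / (R - 1) = (R - h) / (R - 1) := by linarith
  rw [e3]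
  have e4 : 30 / π * ((R - h) / (R - 1) * arctan (1 / √3) + (h - 1) / (R - 1) * arctan (R / √3))
      = (R - h) / (R - 1) * (30 / π * arctan (1 / √3)) +
        (h - 1) / (R - 1) * (30 / π * arctan (R / √3)) := by ring
  rw [e4] at h6
  have e5 : 30 / π * arctan (1 / √3) = 5 := by linarith
  have e6 : 30 / π * arctan (R / √3) = 6 := by linarith
  rw [e5, e6] at h6
  linarith

/-! ## Lower bounds for the total lift -/

/-- `L` is a lower bound for the total lift of `N` points with heights at most `R`. -/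
def LiftN (N : ℕ) (L : ℝ) : Prop := ∀ (ι : Type) [Fintype ι] (n : ι → E3) (h : ι → ℝ),
  Pck n h → (∀ i, h i ≤ R) → Fintype.card ι = N → L ≤ ∑ i, (h i - 1)

theorem Pck.sub {ι : Type} {n : ι → E3} {h : ι → ℝ} (hP : Pck n h) (p : ι → Prop) :
    Pck (fun i : {i // p i} => n i) (fun i : {i // p i} => h i) :=
  ⟨fun i => hP.1 i, fun i => hP.2.1 i, fun i j hij => hP.2.2 i j (fun he => hij (Subtype.ext he))⟩

theorem LiftN.le_sum {N : ℕ} {L : ℝ} (H : LiftN N L) {ι : Type} {n : ι → E3} {h : ι → ℝ}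
    (hP : Pck n h) (s : Finset ι) (hs : ∀ i ∈ s, h i ≤ R) (hc : s.card = N) :
    L ≤ ∑ i ∈ s, (h i - 1) := by
  have key := H {i // i ∈ s} _ _ (hP.sub (fun i => i ∈ s)) (fun i => hs i i.2)
    (by rw [Fintype.card_coe, hc])
  rw [Finset.sum_coe_sort s (fun i => h i - 1)] at key
  exact key

theorem lift_sum {ι : Type} {n : ι → E3} {h : ι → ℝ}
    (hP : Pck n h) (s : Finset ι) (hs : ∀ i ∈ s, h i ≤ R) (hc : 15 ≤ s.card) :
    (R - 1) * ((s.card : ℝ) - 12) ≤ ∑ i ∈ s, (h i - 1) := by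
  have key := lift_ge_of_fifteen (hP.sub (fun i => i ∈ s)) (fun i => hs i i.2)
    (by rw [Fintype.card_coe]; exact hc)
  rw [Finset.sum_coe_sort s (fun i => h i - 1), Fintype.card_coe] at key
  exact key

/-! ## Credits -/

theorem crd_pos {k : ℕ} (hk : k ≠ 5) : 1 ≤ crd k := by
  unfold crd
  split_ifs <;> omega

theorem crd_le (k : ℕ) : crd k ≤ 3 := by
  unfold crd
  split_ifs <;> omega

/-- The total credit of `N` low facets is at least `C`. -/
def CrdN (N C : ℕ) : Prop := ∀ (ι : Type) [Fintype ι] (n : ι → E3) (h : ι → ℝ), Pck n h →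
  Irr n h → ∀ s : Finset ι, (∀ i, i ∈ s ↔ h i < R) → s.card = N → C ≤ ∑ i ∈ s, crd (ns n h i)

theorem CrdN_zero (N : ℕ) : CrdN N 0 := fun _ _ _ _ _ _ _ _ _ => Nat.zero_le _

/-- Parity. -/
theorem CrdN_odd (N : ℕ) (hN : Odd N) : CrdN N 1 := by
  classical
  intro ι _ n h hP _ s hs hc
  obtain ⟨i, hi, h6⟩ := exists_not_five' n h hP (by rw [RP_sq]; norm_num) s hs
    (fun i => Finset.univ.filter fun j => NS n h i RP j) (fun i _ j => by simp)
    (by rw [hc]; exact hN)
  replace h6 : ns n h i ≠ 5 := by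
    rw [ns]
    convert h6
  exact (crd_pos h6).trans (Finset.single_le_sum (f := fun i => crd (ns n h i))
    (fun _ _ => Nat.zero_le _) hi)

/-! ## The facet lemma and the assembly -/

/-- The facet lemma for the radius `t`: the facets with lift less than `Lam` have the weight
`1 - lift / Lam - g * credit`, the low facets with a larger lift have the weight `- b`. -/
def FL (t Lam g b : ℝ) : Prop := ∀ (ι : Type) [Fintype ι] (n : ι → E3) (h : ι → ℝ), Pck n h →
  Irr n h → ∀ i, h i < R →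
    (h i < 1 + Lam → FB n h t i (1 - (h i - 1) / Lam - g * crd (ns n h i))) ∧
    (1 + Lam ≤ h i → FB n h t i (-b))

/-- Few low facets. -/
theorem asm_few {ι : Type} [Fintype ι] {n : ι → E3} {h : ι → ℝ} (hP : Pck n h)
    (hI : Irr n h) {t : ℝ} (ht1 : 1 ≤ t) (htR : t < R) (s : Finset ι)
    (hs : ∀ i, i ∈ s ↔ h i < R) (hc : s.card ≤ 12) : InqP n h t := by
  classical
  refine inq_of_weights hP hI ht1 htR _ (fun i => FB_wt hP hI ht1 htR i) ?_
  calc ∑ i, max (wt (h i)) 0 ≤ ∑ i, (if i ∈ s then (1 : ℝ) else 0) := by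
        refine Finset.sum_le_sum fun i _ => ?_
        split_ifs with hi
        · refine max_le ?_ zero_le_one
          rw [← WT_one]
          exact WT_anti (hP.2.1 i)
        · rw [hs, not_lt] at hi
          refine max_le ?_ le_rfl
          rw [← WT_R]
          exact WT_anti hi
    _ = s.card := by simp
    _ ≤ 12 := by exact_mod_cast hc

/-- Many low facets. -/
theorem asm_many {ι : Type} [Fintype ι] {n : ι → E3} {h : ι → ℝ} (hP : Pck n h)
    (hI : Irr n h) {t : ℝ} (ht1 : 1 ≤ t) (htR : t < R) (s : Finset ι)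
    (hs : ∀ i, i ∈ s ↔ h i < R) (hc : 15 ≤ s.card) : InqP n h t := by
  classical
  have hR1 : 0 < R - 1 := by linarith [R_lo']
  refine inq_of_weights hP hI ht1 htR _ (fun i => FB_wt hP hI ht1 htR i) ?_
  have key := lift_sum hP s (fun i hi => ((hs i).1 hi).le) hc
  calc ∑ i, max (wt (h i)) 0 ≤ ∑ i, (if i ∈ s then 1 - (h i - 1) / (R - 1) else 0) := by
        refine Finset.sum_le_sum fun i _ => ?_
        split_ifs with hi
        · have hi' := (hs i).1 hi
          refine max_le (wt_le_chord (hP.2.1 i) hi'.le) ?_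
          rw [sub_nonneg, div_le_one hR1]
          linarith
        · rw [hs, not_lt] at hi
          refine max_le ?_ le_rfl
          rw [← WT_R]
          exact WT_anti hi
    _ = ∑ i ∈ s, (1 - (h i - 1) / (R - 1)) := by simp
    _ = s.card - (∑ i ∈ s, (h i - 1)) / (R - 1) := by
        rw [Finset.sum_sub_distrib, Finset.sum_div]
        simp
    _ ≤ 12 := by
        have : (s.card : ℝ) - 12 ≤ (∑ i ∈ s, (h i - 1)) / (R - 1) := by
          rw [le_div_iff₀ hR1]
          linarith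
        linarith

/-- The sum of the weights of the facet lemma. -/
theorem asm_FL {ι : Type} [Fintype ι] {n : ι → E3} {h : ι → ℝ} (hP : Pck n h)
    (hI : Irr n h) {t Lam g b : ℝ} (ht1 : 1 ≤ t) (htR : t < R) (hF : FL t Lam g b)
    (s a : Finset ι) (hs : ∀ i, i ∈ s ↔ h i < R) (ha : ∀ i, i ∈ a ↔ h i < R ∧ h i < 1 + Lam)
    (h12 : ∑ i ∈ a, (1 - (h i - 1) / Lam - g * crd (ns n h i)) - b * ((s.card : ℝ) - a.card)
      ≤ 12) : InqP n h t := by
  classical
  have has : a ⊆ s := by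
    intro i hi
    rw [hs]
    exact ((ha i).1 hi).1
  refine inq_of_weights hP hI ht1 htR (fun i => if i ∈ a then 1 - (h i - 1) / Lam - g * crd (ns n h i)
    else if i ∈ s then -b else 0) (fun i => ?_) ?_
  · show FB n h t i _
    split_ifs with h1 h2
    · rw [ha] at h1
      exact (hF ι n h hP hI i h1.1).1 h1.2
    · rw [hs] at h2
      refine (hF ι n h hP hI i h2).2 ?_
      by_contra hc
      exact h1 ((ha i).2 ⟨h2, not_le.1 hc⟩)
    · refine (FB_wt hP hI ht1 htR i).mono ht1 htR ?_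
      rw [hs, not_lt] at h2
      refine max_le ?_ le_rfl
      rw [← WT_R]
      exact WT_anti h2
  · refine le_trans (le_of_eq ?_) h12
    rw [← Finset.sum_add_sum_compl a]
    have e1 : ∑ i ∈ a, (if i ∈ a then 1 - (h i - 1) / Lam - g * crd (ns n h i)
        else if i ∈ s then -b else 0) = ∑ i ∈ a, (1 - (h i - 1) / Lam - g * crd (ns n h i)) :=
      Finset.sum_congr rfl fun i hi => by rw [if_pos hi]
    have e2 : ∑ i ∈ aᶜ, (if i ∈ a then 1 - (h i - 1) / Lam - g * crd (ns n h i)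
        else if i ∈ s then -b else 0) = ∑ i ∈ aᶜ, (if i ∈ s then -b else 0) :=
      Finset.sum_congr rfl fun i hi => by rw [if_neg (Finset.mem_compl.1 hi)]
    rw [e1, e2, ← Finset.sum_filter]
    have e3 : aᶜ.filter (fun i => i ∈ s) = s \ a := by
      ext i
      simp [and_comm]
    rw [e3, Finset.sum_const, Finset.card_sdiff_of_subset has, nsmul_eq_mul,
      Nat.cast_sub (Finset.card_le_card has)]
    ring

/-- The sum over at most twelve facets. -/
theorem asm_twelve {ι : Type} [Fintype ι] {n : ι → E3} {h : ι → ℝ} (hP : Pck n h) {Lam g : ℝ}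
    (hL : 0 < Lam) (hg : 0 ≤ g) (a : Finset ι) (hc : a.card ≤ 12) :
    ∑ i ∈ a, (1 - (h i - 1) / Lam - g * crd (ns n h i)) ≤ 12 := by
  calc ∑ i ∈ a, (1 - (h i - 1) / Lam - g * crd (ns n h i)) ≤ ∑ i ∈ a, (1 : ℝ) := by
        refine Finset.sum_le_sum fun i _ => ?_
        have h1 : 0 ≤ (h i - 1) / Lam := div_nonneg (by linarith [hP.2.1 i]) hL.le
        have h2 : 0 ≤ g * crd (ns n h i) := by positivity
        linarith
    _ = a.card := by simp
    _ ≤ 12 := by exact_mod_cast hc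

/-- The sum over a set of facets with total lift at least `L` and total credit at least `C`. -/
theorem asm_sum {ι : Type} [Fintype ι] {n : ι → E3} {h : ι → ℝ} {Lam g L : ℝ} {C : ℕ}
    (hL : 0 < Lam) (hg : 0 ≤ g) (a : Finset ι) (h1 : L ≤ ∑ i ∈ a, (h i - 1))
    (h2 : C ≤ ∑ i ∈ a, crd (ns n h i)) :
    ∑ i ∈ a, (1 - (h i - 1) / Lam - g * crd (ns n h i)) ≤ a.card - L / Lam - g * C := by
  rw [Finset.sum_sub_distrib, Finset.sum_sub_distrib, ← Finset.sum_div, ← Finset.mul_sum]
  have h3 : L / Lam ≤ (∑ i ∈ a, (h i - 1)) / Lam := div_le_div_of_nonneg_right h1 hL.le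
  have h4 : g * (C : ℝ) ≤ g * ∑ i ∈ a, (crd (ns n h i) : ℝ) := by
    refine mul_le_mul_of_nonneg_left ?_ hg
    exact_mod_cast h2
  simp only [Finset.sum_const, nsmul_eq_mul, mul_one]
  linarith

/-- Thirteen low facets. -/
theorem asm_thirteen {ι : Type} [Fintype ι] {n : ι → E3} {h : ι → ℝ} (hP : Pck n h)
    (hI : Irr n h) {t Lam g b L : ℝ} {C : ℕ} (ht1 : 1 ≤ t) (htR : t < R)
    (hF : FL t Lam g b) (hL : 0 < Lam) (hg : 0 ≤ g) (hb : 0 ≤ b) (hD : LiftN 13 L)
    (hC : CrdN 13 C) (h1 : 1 ≤ L / Lam + g * C) (s : Finset ι) (hs : ∀ i, i ∈ s ↔ h i < R)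
    (hc : s.card = 13) : InqP n h t := by
  classical
  set a : Finset ι := s.filter (fun i => h i < 1 + Lam) with ha
  have ha' : ∀ i, i ∈ a ↔ h i < R ∧ h i < 1 + Lam := by
    intro i
    rw [ha, Finset.mem_filter, hs]
  have has : a ⊆ s := Finset.filter_subset _ _
  have hcard := Finset.card_le_card has
  refine asm_FL hP hI ht1 htR hF s a hs ha' ?_
  have hb0 : 0 ≤ b * ((s.card : ℝ) - a.card) := by
    refine mul_nonneg hb (sub_nonneg.2 ?_)
    exact_mod_cast hcard
  rcases Nat.lt_or_ge a.card 13 with h2 | h2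
  · have := asm_twelve (h := h) (n := n) hP hL hg a (by omega)
    linarith
  · have e : a = s := Finset.eq_of_subset_of_card_le has (by omega)
    rw [e] at hb0 ⊢
    have h3 := asm_sum (n := n) hL hg s (hD.le_sum hP s (fun i hi => ((hs i).1 hi).le) hc)
      (hC ι n h hP hI s hs hc)
    rw [hc] at h3 hb0 ⊢
    push_cast at h3 hb0 ⊢
    linarith

/-- Fourteen low facets. -/
theorem asm_fourteen {ι : Type} [Fintype ι] {n : ι → E3} {h : ι → ℝ} (hP : Pck n h)
    (hI : Irr n h) {t Lam g b L L' : ℝ} {C : ℕ} (ht1 : 1 ≤ t) (htR : t < R)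
    (hF : FL t Lam g b) (hL : 0 < Lam) (hg : 0 ≤ g) (hb : 0 ≤ b) (hD : LiftN 14 L)
    (hD' : LiftN 13 L') (hC : CrdN 14 C) (h1 : 2 ≤ L / Lam + g * C) (h2 : 1 ≤ L' / Lam + b)
    (s : Finset ι) (hs : ∀ i, i ∈ s ↔ h i < R)
    (hc : s.card = 14) : InqP n h t := by
  classical
  set a : Finset ι := s.filter (fun i => h i < 1 + Lam) with ha
  have ha' : ∀ i, i ∈ a ↔ h i < R ∧ h i < 1 + Lam := by
    intro i
    rw [ha, Finset.mem_filter, hs]
  have has : a ⊆ s := Finset.filter_subset _ _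
  have hcard := Finset.card_le_card has
  refine asm_FL hP hI ht1 htR hF s a hs ha' ?_
  have hb0 : 0 ≤ b * ((s.card : ℝ) - a.card) := by
    refine mul_nonneg hb (sub_nonneg.2 ?_)
    exact_mod_cast hcard
  rcases Nat.lt_or_ge a.card 13 with h3 | h3
  · have := asm_twelve (h := h) (n := n) hP hL hg a (by omega)
    linarith
  · rcases Nat.lt_or_ge a.card 14 with h4 | h4
    · have h5 : a.card = 13 := by omega
      have h6 := asm_sum (n := n) (C := 0) hL hg a
        (hD'.le_sum hP a (fun i hi => ((ha' i).1 hi).1.le) h5) (Nat.zero_le _)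
      rw [hc] at hb0 ⊢
      rw [h5] at h6 hb0 ⊢
      push_cast at h6 hb0 ⊢
      linarith
    · have e : a = s := Finset.eq_of_subset_of_card_le has (by omega)
      rw [e] at hb0 ⊢
      have h5 := asm_sum (n := n) hL hg s (hD.le_sum hP s (fun i hi => ((hs i).1 hi).le) hc)
        (hC ι n h hP hI s hs hc)
      rw [hc] at h5 hb0 ⊢
      push_cast at h5 hb0 ⊢
      linarith

/-- The data for one radius. -/
theorem asm_all {t : ℝ} (ht1 : 1 ≤ t) (htR : t < R) {L13 L14 : ℝ} {C13 C14 : ℕ}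
    (hD : LiftN 13 L13) (hD' : LiftN 14 L14) (hC : CrdN 13 C13) (hC' : CrdN 14 C14)
    (H13 : ∃ Lam g b : ℝ, FL t Lam g b ∧ 0 < Lam ∧ 0 ≤ g ∧ 0 ≤ b ∧ 1 ≤ L13 / Lam + g * C13)
    (H14 : ∃ Lam g b : ℝ, FL t Lam g b ∧ 0 < Lam ∧ 0 ≤ g ∧ 0 ≤ b ∧
      2 ≤ L14 / Lam + g * C14 ∧ 1 ≤ L13 / Lam + b) : AllP t := by
  classical
  intro ι _ n h hP hI
  set s : Finset ι := Finset.univ.filter (fun i => h i < R) with hs
  have hs' : ∀ i, i ∈ s ↔ h i < R := by
    intro i
    rw [hs, Finset.mem_filter]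
    simp
  rcases Nat.lt_or_ge s.card 13 with h1 | h1
  · exact asm_few hP hI ht1 htR s hs' (by omega)
  rcases Nat.lt_or_ge s.card 14 with h2 | h2
  · obtain ⟨Lam, g, b, f1, f2, f3, f4, f5⟩ := H13
    exact asm_thirteen hP hI ht1 htR f1 f2 f3 f4 hD hC f5 s hs' (by omega)
  rcases Nat.lt_or_ge s.card 15 with h3 | h3
  · obtain ⟨Lam, g, b, f1, f2, f3, f4, f5, f6⟩ := H14
    exact asm_fourteen hP hI ht1 htR f1 f2 f3 f4 hD' hD hC' f5 f6 s hs' (by omega)
  · exact asm_many hP hI ht1 htR s hs' h3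

/-- The facet lemma which follows from the weights of `FB_wt`. -/
theorem FL_wt {t : ℝ} (ht1 : 1 ≤ t) (htR : t < R) (b : ℝ) : FL t (R - 1) 0 b := by
  intro ι _ n h hP hI i hi
  have hR1 : 0 < R - 1 := by linarith [R_lo']
  refine ⟨fun _ => (FB_wt hP hI ht1 htR i).mono ht1 htR ?_, fun hc => absurd hc (by linarith)⟩
  rw [zero_mul, sub_zero]
  refine max_le (wt_le_chord (hP.2.1 i) hi.le) ?_
  rw [sub_nonneg, div_le_one hR1]
  linarith

/-! ## The targets -/

theorem gu_nonneg (t : ℝ) : 0 ≤ gu t := by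
  unfold gu
  split_ifs
  · exact le_max_left _ _
  · norm_num

theorem gu_le (t : ℝ) : gu t ≤ 0.108 := by
  unfold gu
  split_ifs
  · exact max_le (by norm_num) (by linarith)
  · exact le_rfl

theorem gu_zero {t : ℝ} (ht : t ≤ 1.12) : gu t = 0 := by
  unfold gu
  rw [if_pos (by linarith)]
  exact max_eq_left (by linarith)

theorem gu_pos3 (t : ℝ) : 0 < 1 - 3 * gu t := by linarith [gu_le t]

theorem Lm_pos (t : ℝ) : 0 < Lm t := div_pos (by norm_num) (gu_pos3 t)

theorem Lm_eq (t : ℝ) : 0.175 / Lm t = 1 - 3 * gu t := by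
  rw [Lm, div_div_eq_mul_div, mul_div_assoc, mul_comm, div_mul_cancel₀ _ (by norm_num)]

theorem gv_nonneg (t : ℝ) : 0 ≤ gv t := by
  unfold gv
  split_ifs
  · exact le_max_left _ _
  · norm_num

theorem gv_le (t : ℝ) : gv t ≤ 0.0887 := by
  unfold gv
  split_ifs
  · exact max_le (by norm_num) (by linarith)
  · exact le_rfl

theorem gv_zero {t : ℝ} (ht : t ≤ 1.151) : gv t = 0 := by
  unfold gv
  rw [if_pos (by linarith)]
  exact max_eq_left (by linarith)

theorem gv_pos3 (t : ℝ) : 0 < 1 - 3 * gv t := by linarith [gv_le t]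

theorem Lv_pos (t : ℝ) : 0 < Lv t := div_pos (by norm_num) (gv_pos3 t)

theorem Lv_eq (t : ℝ) : 0.19 / Lv t = 1 - 3 * gv t := by
  rw [Lv, div_div_eq_mul_div, mul_div_assoc, mul_comm, div_mul_cancel₀ _ (by norm_num)]

theorem gv_ge (t : ℝ) : 0.175 * (1 - 3 * gv t) ≤ 0.19 * (1 - 3 * gu t) := by
  unfold gu gv
  split_ifs with h
  · have h4 : 0 ≤ max 0 (1.2 * (t - 1.151)) := le_max_left _ _
    rcases le_total (0.025 + 1.1 * (t - 1.15)) 0 with h1 | h1
    · have h2 : max 0 (0.025 + 1.1 * (t - 1.15)) = 0 := max_eq_left h1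
      rw [h2]
      linarith
    · have h2 : max 0 (0.025 + 1.1 * (t - 1.15)) = 0.025 + 1.1 * (t - 1.15) := max_eq_right h1
      have h3 : 1.2 * (t - 1.151) ≤ max 0 (1.2 * (t - 1.151)) := le_max_right _ _
      rw [h2]
      linarith
  · norm_num

theorem gv_le_gu (t : ℝ) : gv t ≤ gu t := by
  unfold gu gv
  split_ifs with h
  · exact max_le (le_max_left _ _) (le_trans (by linarith) (le_max_right _ _))
  · norm_num

theorem Lm_le_Lv (t : ℝ) : Lm t ≤ Lv t := by
  unfold Lm Lv
  rw [div_le_div_iff₀ (gu_pos3 t) (gv_pos3 t)]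
  exact gv_ge t

/-- F for the chord `Lv`, for the facets below `R`. -/
theorem F_Lv (hF : T_F) (hH : T_H) {ι : Type} [Fintype ι] {n : ι → E3} {h : ι → ℝ} {i : ι}
    {e f : E3} {t : ℝ} (hP : Pck n h) (hI : Irr n h) (hef : Onb (n i) e f) (ht1 : 1 ≤ t)
    (htR : t < R) (hi : h i < R) (hl : h i < 1 + Lv t) :
    -(π / 3 * bet t * (1 - (h i - 1) / Lv t)) ≤ FI t n h i e f := by
  have hb : 0 ≤ π / 3 * bet t :=
    mul_nonneg (div_nonneg Real.pi_pos.le (by norm_num)) (bet_nonneg ht1 htR)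
  have h1 : 0 ≤ h i - 1 := by linarith [hP.2.1 i]
  rcases lt_or_ge (h i) (1 + Lm t) with h2 | h2
  · refine le_trans ?_ (hF ι n h i e f t hP hI hef ht1 htR h2)
    rw [neg_le_neg_iff]
    refine mul_le_mul_of_nonneg_left ?_ hb
    have : (h i - 1) / Lv t ≤ (h i - 1) / Lm t :=
      div_le_div_of_nonneg_left h1 (Lm_pos t) (Lm_le_Lv t)
    linarith
  · refine le_trans ?_ (hH ι n h i e f t hP hI hef ht1 htR h2 hi)
    have h3 : 0 ≤ 1 - (h i - 1) / Lv t := by
      rw [sub_nonneg, div_le_one (Lv_pos t)]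
      linarith
    have h4 := mul_nonneg hb h3
    have h5 := mul_nonneg hb (mul_nonneg (by norm_num : (0 : ℝ) ≤ 3) (gu_nonneg t))
    linarith

/-- The facet lemma from the targets. -/
theorem FL_of (hF : T_F) (hH : T_H) (hPt : T_P) {t : ℝ} (ht1 : 1 ≤ t) (htR : t < R) :
    FL t (Lv t) (gv t) (3 * gu t) := by
  intro ι _ n h hP hI i hi
  refine ⟨fun hl e f hef => ?_, fun hl e f hef => ?_⟩
  · by_cases h5 : ns n h i = 5
    · have h6 := F_Lv hF hH hP hI hef ht1 htR hi hl
      rw [h5]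
      have : crd 5 = 0 := by decide
      rw [this, Nat.cast_zero, mul_zero, sub_zero]
      exact h6
    · rcases lt_or_ge t 1.151 with h7 | h7
      · have h6 := F_Lv hF hH hP hI hef ht1 htR hi hl
        rw [gv_zero h7.le, zero_mul, sub_zero]
        exact h6
      · exact hPt ι n h i e f t hP hI hef h7 htR hl h5
  · have h6 := hH ι n h i e f t hP hI hef ht1 htR (by linarith [Lm_le_Lv t]) hi
    have e1 : -(π / 3 * bet t * -(3 * gu t)) = π / 3 * bet t * (3 * gu t) := by ring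
    rw [e1]
    exact h6

/-- The number of near sides of a low facet only depends on the low facets. -/
theorem crd_sub {ι : Type} [Fintype ι] {n : ι → E3} {h : ι → ℝ} (hP : Pck n h) (s : Finset ι)
    (hs : ∀ i, i ∈ s ↔ h i < R) (g : {i // i ∈ s} → Finset {i // i ∈ s})
    (hg : ∀ i j, j ∈ g i ↔ NS n h i.1 RP j.1) (i : {i // i ∈ s}) :
    (g i).card = ns n h i.1 := by
  classical
  rw [ns, ← Finset.card_map (Function.Embedding.subtype _)]
  congr 1
  ext b
  simp only [Finset.mem_map, Finset.mem_filter, Finset.mem_univ, true_and,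
    Function.Embedding.coe_subtype, Subtype.exists, exists_and_right, exists_eq_right]
  constructor
  · rintro ⟨hb, H⟩
    exact (hg i ⟨b, hb⟩).1 H
  · intro H
    have hb : b ∈ s := by
      rw [hs]
      by_contra hc
      exact NS_low_high' hP (not_lt.mp hc) (by rw [RP_sq]; norm_num) H
    exact ⟨hb, (hg i ⟨b, hb⟩).2 H⟩

theorem CrdN_of {N C : ℕ} (H : ∀ (ι : Type) [Fintype ι] (n : ι → E3) (h : ι → ℝ)
    (g : ι → Finset ι), Fintype.card ι = N → Pck n h → (∀ i, h i < R) →
    (∀ i j, j ∈ g i → i ∈ g j) → (∀ i j, j ∈ g i → NS n h i RP j) → C ≤ ∑ i, crd (g i).card) :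
    CrdN N C := by
  classical
  intro ι _ n h hP _ s hs hc
  have key := H {i // i ∈ s} (fun i => n i) (fun i => h i)
    (fun i => Finset.univ.filter fun j => NS n h i.1 RP j.1) (by rw [Fintype.card_coe, hc])
    (hP.sub (fun i => i ∈ s)) (fun i => (hs i).1 i.2)
    (fun i j hij => by
      rw [Finset.mem_filter] at hij ⊢
      exact ⟨Finset.mem_univ _, NS_symm _ _ _ _ _ hij.2⟩)
    (fun i j hij => by
      obtain ⟨h1, x, hx, h2, h3, h4⟩ := (Finset.mem_filter.1 hij).2
      exact ⟨fun he => h1 (by rw [he]), x, hx, h2, h3, fun k hk1 hk2 =>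
        h4 k (fun he => hk1 (Subtype.ext he)) (fun he => hk2 (Subtype.ext he))⟩)
  have e : ∀ i : {i // i ∈ s},
      crd (Finset.univ.filter fun j : {i // i ∈ s} => NS n h i.1 RP j.1).card =
        crd (ns n h i.1) := by
    intro i
    rw [crd_sub hP s hs (fun i => Finset.univ.filter fun j : {i // i ∈ s} => NS n h i.1 RP j.1)
      (fun i j => by simp) i]
  simp only [e] at key
  rw [Finset.sum_coe_sort s (fun i => crd (ns n h i))] at key
  exact key

theorem AllP_of (hF : T_F) (hH : T_H) (hPt : T_P) (h13 : T_E13) (h14 : T_E14) (d13 : T_D13)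
    (d14 : T_D14) {t : ℝ} (ht1 : 1 ≤ t) (htR : t < R) : AllP t := by
  have hd : LiftN 13 0.19 := fun ι _ n h hP hR hc => d13 ι n h hc hP hR
  have hd' : LiftN 14 0.472 := fun ι _ n h hP hR hc => d14 ι n h hc hP hR
  have hl := Lv_eq t
  have v0 := gv_nonneg t
  have v1 := gv_le t
  have v2 := gv_le_gu t
  have hFL := FL_of hF hH hPt ht1 htR
  have e2 : 0.472 / Lv t = 0.472 / 0.19 * (0.19 / Lv t) := by
    field_simp
  refine asm_all ht1 htR hd hd' (CrdN_of h13) (CrdN_of h14)
    ⟨Lv t, gv t, 3 * gu t, hFL, Lv_pos t, v0, by linarith, ?_⟩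
    ⟨Lv t, gv t, 3 * gu t, hFL, Lv_pos t, v0, by linarith, ?_, ?_⟩
  · rw [hl]
    push_cast
    linarith
  · rw [e2, hl]
    push_cast
    norm_num at *
    linarith
  · rw [hl]
    linarith

theorem p_ALL (hF : T_F) (hH : T_H) (hPt : T_P) (h13 : T_E13) (h14 : T_E14) (d13 : T_D13)
    (d14 : T_D14) : T_ALL := by
  intro ι _ n h hP t ht1 htR
  exact (AllP_of hF hH hPt h13 h14 d13 d14 ht1 htR).inq hP

theorem p_FIN (hF : T_F) (hH : T_H) (hPt : T_P) (h13 : T_E13) (h14 : T_E14) (d13 : T_D13)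
    (d14 : T_D14) : T_FIN := by
  intro X hX c hc r hr
  exact ineq_of_all (fun t ht1 htR => AllP_of hF hH hPt h13 h14 d13 d14 ht1 htR) X hX c hc r hr

end Pool.Agent.SDL
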