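import Pool.Agent.SDL.P3_PDb
import Pool.Agent.SDL.AsmC

set_option autoImplicit false

/-!
# SDL: the large heights of the target P

For every facet and every number of its sides: the heights `t ≤ h`; `1.18 ≤ h` for `t ≤ 1.2`;
`1.2 ≤ h` for `1.2 ≤ t ≤ 1.235`; and `1.216 ≤ h`.
-/

open MeasureTheory Set Real
open scoped RealInnerProductSpace

namespace Pool.Agent.SDL

open Pool.Agent.SDC

/-- The facet `i` contains a disc: its sides have the distance `≥ m` from the origin. -/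
theorem pd_disc {ι : Type} [Fintype ι] (n : ι → E3) (h : ι → ℝ) (i : ι) (e f : E3) {t m : ℝ}
    (hP : Pck n h) (hI : Irr n h) (hO : Onb (n i) e f) (ht1 : 1 ≤ t) (htR : t < R)
    (hiRO : h i < RO) (him : h i < m) (hmR : m ≤ RP) (hm4 : m ^ 2 * (4 - h i ^ 2) ≤ 4)
    (hX : t ^ 3 + bet t ≤ (1 - kap t) * m ^ 3) :
    2 * π * HH t (h i) (rr (h i) m) ≤ FI t n h i e f := by
  have hh1 : 1 ≤ h i := hP.2.1 i
  have hh0 : 0 < h i := by linarith
  have ht0 : 0 < t := by linarith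
  have hκ : 0 ≤ kap t := (tKAP t ht1 htR).1
  have hβ : 0 ≤ bet t := (tBET t ht1 htR).1
  have hgc : Continuous (G t (kap t) (bet t) (h i)) := tHCL.1 _ _ _ _
  have hρ0 : 0 ≤ rr (h i) m := Real.sqrt_nonneg _
  have hGρ : 0 ≤ G t (kap t) (bet t) (h i) (rr (h i) m) :=
    H_Gpos (by rw [H_ccrr hh0 him.le]; exact hX)
  have hGpos : ∀ s, rr (h i) m ≤ s → 0 ≤ G t (kap t) (bet t) (h i) s := fun s hs =>
    p_SGN t (kap t) (bet t) (h i) (rr (h i) m) s ht0 hh0 hκ hβ hρ0 hs hGρ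
  have hmono : ∀ r, rr (h i) m ≤ r → HH t (h i) (rr (h i) m) ≤ HH t (h i) r := fun r hr =>
    FBB_mono hgc hρ0 hr hGpos
  have h4 : 0 < 4 - h i ^ 2 := by
    have := RO_hi
    nlinarith
  have hm1 : m ≤ √(4 / (4 - h i ^ 2)) := by
    apply Real.le_sqrt_of_sq_le
    rw [le_div_iff₀ h4]
    exact hm4
  have key := facet_ray n h i e f t (- HH t (h i) (rr (h i) m)) (rr (h i) m) RP hP hI hO hiRO
    (him.trans_le hmR) (FBB_rr hh0 (by linarith) hmR)
    (fun j hj => (FBB_rr hh0 (by linarith) hm1).trans (ad_ge n h i j RP hP hI hiRO hj))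
    (fun r hr => by rw [neg_neg]; exact hmono r hr)
  rw [FI]
  linarith

/-- Beyond the disc the integrand is nonnegative. -/
theorem pd_X {t h : ℝ} (ht : 1.15 ≤ t) (htR : t < R)
    (hr : t ≤ h ∨ (t ≤ 1.2 ∧ 1.18 ≤ h) ∨ (1.2 ≤ t ∧ t ≤ 1.235 ∧ 1.2 ≤ h) ∨ 1.216 ≤ h) :
    t ^ 3 + bet t ≤ (1 - kap t) * mD h ^ 3 := by
  have ht1 : 1 ≤ t := by linarith
  have hR := R_hi'
  have hmd : mD h = 5 / 4 + 75 / 128 * (h - 6 / 5) := rfl
  have hh : 1.15 ≤ h := by
    rcases hr with h1 | h1 | h1 | h1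
    · linarith
    · linarith [h1.2]
    · linarith [h1.2.2]
    · linarith
  have hm0 : 1.2207 ≤ mD h := by
    rw [hmd]
    linarith
  rcases le_or_gt (t ^ 2) W0 with hW | hW
  · rw [bet_low hW]
    apply mul_le_mul_of_nonneg_left _ (kap_low ht1 hW).le
    have h1 : (1.2207 : ℝ) ^ 3 ≤ mD h ^ 3 := pow_le_pow_left₀ (by norm_num) hm0 3
    linarith [ds1_RW.2]
  · have hκ := kap88 ht1 htR hW.le
    have hκ0 := (tKAP t ht1 htR).1
    have hRW := RW_pos
    have hb := b17 ht1 htR hW.le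
    have hb2 : bet t ≤ 17 * (1.2585 - t) ^ 2 := by
      have h1 : 0 ≤ kap t * (R * W0) := mul_nonneg hκ0 hRW.le
      have h2 : (R - t) ^ 2 ≤ (1.2585 - t) ^ 2 :=
        pow_le_pow_left₀ (by linarith) (by linarith) 2
      linarith
    have ht2 : 1.1755 ≤ t := by
      have h1 : (1.381965 : ℝ) < W0 := by
        rw [W0]
        linarith [s5_hi']
      by_contra hcon
      push Not at hcon
      nlinarith
    -- it is enough to bound the cube of `mD h`
    have hfin : ∀ c : ℝ, 0 ≤ c → c ≤ mD h ^ 3 → t ^ 3 + 17 * (1.2585 - t) ^ 2 ≤ 0.9912 * c →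
        t ^ 3 + bet t ≤ (1 - kap t) * mD h ^ 3 := by
      intro c hc0 hc1 hc2
      have h1 : 0.9912 * c ≤ (1 - kap t) * mD h ^ 3 :=
        mul_le_mul (by linarith) hc1 hc0 (by linarith)
      linarith
    rcases hr with h1 | h1 | h1 | h1
    · -- `t ≤ h`
      have h2 : mD t ≤ mD h := by
        rw [mD, mD]
        linarith
      have h3 : 0 ≤ mD t := by
        rw [mD]
        linarith
      apply hfin (mD t ^ 3) (by positivity) (pow_le_pow_left₀ h3 h2 3)
      have hu : 0 ≤ t - 1.1755 := by linarith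
      have hv : 0 ≤ 1.2585 - t := by linarith
      rw [mD]
      linarith [pow_nonneg hv 3, mul_nonneg hu (pow_nonneg hv 2),
        mul_nonneg (pow_nonneg hu 2) hv, pow_nonneg hu 3]
    · obtain ⟨h2, h3⟩ := h1
      have h4 : (1.238 : ℝ) ^ 3 ≤ mD h ^ 3 := by
        apply pow_le_pow_left₀ (by norm_num)
        rw [hmd]
        linarith
      apply hfin _ (by norm_num) h4
      have hu : 0 ≤ t - 1.1755 := by linarith
      have hv : 0 ≤ 1.2 - t := by linarith
      linarith [pow_nonneg hv 3, mul_nonneg hu (pow_nonneg hv 2),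
        mul_nonneg (pow_nonneg hu 2) hv, pow_nonneg hu 3]
    · obtain ⟨h2, h3, h4⟩ := h1
      have h5 : (1.25 : ℝ) ^ 3 ≤ mD h ^ 3 := by
        apply pow_le_pow_left₀ (by norm_num)
        rw [hmd]
        linarith
      apply hfin _ (by norm_num) h5
      have hu : 0 ≤ t - 1.2 := by linarith
      have hv : 0 ≤ 1.235 - t := by linarith
      linarith [pow_nonneg hv 3, mul_nonneg hu (pow_nonneg hv 2),
        mul_nonneg (pow_nonneg hu 2) hv, pow_nonneg hu 3]
    · have h2 : R ^ 3 ≤ mD h ^ 3 := by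
        apply pow_le_pow_left₀ R_pos.le
        rw [hmd]
        linarith
      have h3 := MA1_bracket (by linarith : 0 ≤ t) htR (tBET t ht1 htR).2
      have h4 := mul_le_mul_of_nonneg_left h2 (show 0 ≤ 1 - kap t by linarith)
      linarith

/-- The cases of the weight. -/
theorem pd_s {t : ℝ} (ht : 1.151 ≤ t) :
    (t < 1.21 ∧ 1 - 3 * gv t = 5.1436 - 3.6 * t) ∨ (1.21 ≤ t ∧ 1 - 3 * gv t = 0.7339) := by
  rcases lt_or_ge t 1.21 with h | h
  · left
    refine ⟨h, ?_⟩
    rw [gv, if_pos h, max_eq_right (by linarith)]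
    ring
  · right
    refine ⟨h, ?_⟩
    rw [gv, if_neg (by linarith)]
    norm_num

/-- **Large heights.** The target P, for every facet in the regions. -/
theorem PD_all {ι : Type} [Fintype ι] (n : ι → E3) (h : ι → ℝ) (i : ι) (e f : E3) {t : ℝ}
    (hP : Pck n h) (hI : Irr n h) (hO : Onb (n i) e f) (ht : 1.151 ≤ t) (htR : t < R)
    (hL : h i < 1 + Lv t)
    (hr : t ≤ h i ∨ (t ≤ 1.2 ∧ 1.18 ≤ h i) ∨ (1.2 ≤ t ∧ t ≤ 1.235 ∧ 1.2 ≤ h i) ∨
      1.216 ≤ h i) :
    -(π / 3 * bet t * (1 - (h i - 1) / Lv t - gv t * crd (ns n h i))) ≤ FI t n h i e f := by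
  have hs := pd_s ht
  have hs0 : 0.7339 ≤ 1 - 3 * gv t := by
    rcases hs with h1 | h1 <;> linarith [h1.1, h1.2]
  have hLv : Lv t ≤ 0.258891 := by
    rw [Lv, div_le_iff₀ (by linarith)]
    linarith
  have hLs : (1 - 3 * gv t) * (h i - 1) ≤ 0.19 := by
    have h1 : (1 - 3 * gv t) * Lv t = 0.19 := by
      rw [Lv, mul_div_cancel₀ _ (by linarith)]
    have h2 : (1 - 3 * gv t) * (h i - 1) ≤ (1 - 3 * gv t) * Lv t :=
      mul_le_mul_of_nonneg_left (by linarith) (by linarith)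
    linarith
  have hh : h i ≤ 1.2589 := by linarith
  have hm := mD_gt hh
  have hh1 : 1 ≤ h i := hP.2.1 i
  have ht1 : 1 ≤ t := by linarith
  have hβ := (tBET t ht1 htR).1
  have hRO := RO_lo
  -- the weight
  have hw : (1 - 3 * gv t) * (1 - 100 / 19 * (h i - 1)) = 1 - (h i - 1) / Lv t - 3 * gv t := by
    rw [Lv, div_div_eq_mul_div]
    ring
  have hcore : 0 ≤ 6 * HH t (h i) (rr (h i) (mD (h i))) +
      bet t * ((1 - 3 * gv t) * (1 - 100 / 19 * (h i - 1))) := by
    rcases le_or_gt t (h i) with hc | hc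
    · apply pd_core1 (by linarith) htR hc hh _ hLs
      rcases hs with h1 | h1
      · exact Or.inr (Or.inl ⟨ht, h1.1, h1.2⟩)
      · exact Or.inr (Or.inr h1)
    · have hr' : (t ≤ 1.2 ∧ 1.18 ≤ h i) ∨ (1.2 ≤ t ∧ t ≤ 1.235 ∧ 1.2 ≤ h i) ∨ 1.216 ≤ h i := by
        rcases hr with h1 | h1
        · linarith
        · exact h1
      have ht18 : 1.18 ≤ t := by
        rcases hr' with h1 | h1 | h1
        · linarith [h1.2]
        · linarith [h1.1]
        · linarith
      exact pd_core2 ht18 htR hc.le hs hLs hr'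
  rw [hw] at hcore
  have hdisc := pd_disc n h i e f hP hI hO ht1 htR (by linarith) (by linarith) (mD_le_RP hh1 hh)
    (mD_sq hh1) (pd_X (by linarith) htR hr)
  have hc3 : (crd (ns n h i) : ℝ) ≤ 3 := by
    exact_mod_cast crd_le (ns n h i)
  have hg := gv_nonneg t
  have h5 : bet t * (1 - (h i - 1) / Lv t - 3 * gv t) ≤
      bet t * (1 - (h i - 1) / Lv t - gv t * crd (ns n h i)) := by
    apply mul_le_mul_of_nonneg_left _ hβ
    nlinarith
  have h6 : - (π / 3 * (bet t * (1 - (h i - 1) / Lv t - gv t * crd (ns n h i)))) ≤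
      2 * π * HH t (h i) (rr (h i) (mD (h i))) := by
    have h7 : 0 ≤ π / 3 * (6 * HH t (h i) (rr (h i) (mD (h i))) +
        bet t * (1 - (h i - 1) / Lv t - gv t * crd (ns n h i))) :=
      mul_nonneg (by positivity) (by linarith)
    linarith
  linarith

end Pool.Agent.SDL
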