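import Pool.Agent.SDL.P6_C

set_option autoImplicit false

/-!
# SDL, P, at least six near sides: the five instances
-/

open MeasureTheory Set Real
open scoped RealInnerProductSpace

namespace Pool.Agent.SDL

open Pool.Agent.SDC

theorem c6_i0 {ψ z : ℝ} (hψ0 : 0 < ψ) (hψ1 : ψ < π / 2) (hC : 0.507 ≤ cos ψ ^ 2)
    (hz : z ≤ 0.65 * cos ψ ^ 2 ∨ (cos ψ ^ 2 ≤ 0.543 ∧ z ≤ 0.65 * cos ψ ^ 2 + 0.008)) :
    MM 1.2025 * PH 1.2025 ψ ≤ 0.0209 * (arccos z - 0.8632) :=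
  c6_gen (Mb := 0.00966229) (k1 := 0.0615754) (k2 := 0.0981) (k3 := 0.000545049) (k4 := 0.0000198264)
    (by norm_num) (by norm_num) ((MM_le (by norm_num) (by norm_num)).trans (by norm_num))
    (by norm_num) (by norm_num) (by norm_num) (by norm_num) (by norm_num) (by norm_num)
    (by norm_num) (by norm_num) (by norm_num)
    (fun s h0 h1 => c6_a0 s h0 (by nlinarith))
    (fun s h0 h1 h2 => c6_b0 s (by nlinarith) (by nlinarith)) (by norm_num) hψ0 hψ1 hC hz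

theorem c6_i1 {ψ z : ℝ} (hψ0 : 0 < ψ) (hψ1 : ψ < π / 2) (hC : 0.507 ≤ cos ψ ^ 2)
    (hz : z ≤ 0.65 * cos ψ ^ 2 ∨ (cos ψ ^ 2 ≤ 0.543 ∧ z ≤ 0.65 * cos ψ ^ 2 + 0.008)) :
    MM 1.212 * PH 1.212 ψ ≤ 0.01695 * (arccos z - 0.8632) :=
  c6_gen (Mb := 0.00759264) (k1 := 0.054516) (k2 := 0.097857) (k3 := 0.000377031) (k4 := 0.0000122729)
    (by norm_num) (by norm_num) ((MM_le (by norm_num) (by norm_num)).trans (by norm_num))
    (by norm_num) (by norm_num) (by norm_num) (by norm_num) (by norm_num) (by norm_num)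
    (by norm_num) (by norm_num) (by norm_num)
    (fun s h0 h1 => c6_a1 s h0 (by nlinarith))
    (fun s h0 h1 h2 => c6_b1 s (by nlinarith) (by nlinarith)) (by norm_num) hψ0 hψ1 hC hz

theorem c6_i2 {ψ z : ℝ} (hψ0 : 0 < ψ) (hψ1 : ψ < π / 2) (hC : 0.507 ≤ cos ψ ^ 2)
    (hz : z ≤ 0.65 * cos ψ ^ 2 ∨ (cos ψ ^ 2 ≤ 0.543 ∧ z ≤ 0.65 * cos ψ ^ 2 + 0.008)) :
    MM 1.222 * PH 1.222 ψ ≤ 0.0132 * (arccos z - 0.8632) :=
  c6_gen (Mb := 0.0056736) (k1 := 0.047064) (k2 := 0.097602) (k3 := 0.000241727) (k4 := 0.0000068709)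
    (by norm_num) (by norm_num) ((MM_le (by norm_num) (by norm_num)).trans (by norm_num))
    (by norm_num) (by norm_num) (by norm_num) (by norm_num) (by norm_num) (by norm_num)
    (by norm_num) (by norm_num) (by norm_num)
    (fun s h0 h1 => c6_a2 s h0 (by nlinarith))
    (fun s h0 h1 h2 => c6_b2 s (by nlinarith) (by nlinarith)) (by norm_num) hψ0 hψ1 hC hz

theorem c6_i3 {ψ z : ℝ} (hψ0 : 0 < ψ) (hψ1 : ψ < π / 2) (hC : 0.507 ≤ cos ψ ^ 2)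
    (hz : z ≤ 0.65 * cos ψ ^ 2 ∨ (cos ψ ^ 2 ≤ 0.543 ∧ z ≤ 0.65 * cos ψ ^ 2 + 0.008)) :
    MM 1.231 * PH 1.231 ψ ≤ 0.01018 * (arccos z - 0.8632) :=
  c6_gen (Mb := 0.00417786) (k1 := 0.0403392) (k2 := 0.097373) (k3 := 0.0001517) (k4 := 0.0000037344)
    (by norm_num) (by norm_num) ((MM_le (by norm_num) (by norm_num)).trans (by norm_num))
    (by norm_num) (by norm_num) (by norm_num) (by norm_num) (by norm_num) (by norm_num)
    (by norm_num) (by norm_num) (by norm_num)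
    (fun s h0 h1 => c6_a3 s h0 (by nlinarith))
    (fun s h0 h1 h2 => c6_b3 s (by nlinarith) (by nlinarith)) (by norm_num) hψ0 hψ1 hC hz

theorem c6_i4 {ψ z : ℝ} (hψ0 : 0 < ψ) (hψ1 : ψ < π / 2) (hC : 0.507 ≤ cos ψ ^ 2)
    (hz : z ≤ 0.65 * cos ψ ^ 2 ∨ (cos ψ ^ 2 ≤ 0.543 ∧ z ≤ 0.65 * cos ψ ^ 2 + 0.008)) :
    MM 1.239 * PH 1.239 ψ ≤ 0.00779 * (arccos z - 0.8632) :=
  c6_gen (Mb := 0.00303521) (k1 := 0.0343473) (k2 := 0.09717) (k3 := 0.000093355) (k4 := 0.0000019751)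
    (by norm_num) (by norm_num) ((MM_le (by norm_num) (by norm_num)).trans (by norm_num))
    (by norm_num) (by norm_num) (by norm_num) (by norm_num) (by norm_num) (by norm_num)
    (by norm_num) (by norm_num) (by norm_num)
    (fun s h0 h1 => c6_a4 s h0 (by nlinarith))
    (fun s h0 h1 h2 => c6_b4 s (by nlinarith) (by nlinarith)) (by norm_num) hψ0 hψ1 hC hz

end Pool.Agent.SDL
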