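import Pool.Agent.SDL.Targets3
import Pool.Agent.SDL.P_HB
import Pool.Agent.SDL.P_BM

set_option autoImplicit false

/-!
# SDL, P, at least six near sides: one side

The function `bb t RP - bb t ρ` is at most a combination of the functions `MM θ * EE θ (ρ²)`; the
integral over a side is largest at height one.
-/

open MeasureTheory Set Real
open scoped RealInnerProductSpace

namespace Pool.Agent.SDL

open Pool.Agent.SDC

/-! ## Definitions -/

/-- The shape function. -/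
noncomputable def EE (θ y : ℝ) : ℝ := 1 - (max ((y - θ ^ 2) / (33 / 20 - θ ^ 2)) 0) ^ 2

/-- The size. -/
noncomputable def MM (θ : ℝ) : ℝ := (RP - θ) ^ 2 * (RP + 2 * θ) / (2 * RP)

/-- The integral over a side at height one, `ψ` is half of the angle of the side in the ball of
radius `RP`. -/
noncomputable def PH (θ ψ : ℝ) : ℝ :=
  ∫ x in (0 : ℝ)..ψ, EE θ (1 + 0.65 * cos ψ ^ 2 / cos x ^ 2)

/-! ## The pointwise bound -/

theorem MM_nonneg {θ : ℝ} (h0 : 0 ≤ θ) : 0 ≤ MM θ := by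
  have := RP_pos
  unfold MM
  positivity

theorem EE_anti {θ y y' : ℝ} (hθ : θ ^ 2 < 33 / 20) (h : y ≤ y') : EE θ y' ≤ EE θ y := by
  have h0 : 0 < 33 / 20 - θ ^ 2 := by linarith
  have h1 : (y - θ ^ 2) / (33 / 20 - θ ^ 2) ≤ (y' - θ ^ 2) / (33 / 20 - θ ^ 2) :=
    div_le_div_of_nonneg_right (by linarith) h0.le
  have h2 : max ((y - θ ^ 2) / (33 / 20 - θ ^ 2)) 0 ≤
      max ((y' - θ ^ 2) / (33 / 20 - θ ^ 2)) 0 := max_le_max h1 le_rfl
  have h3 := pow_le_pow_left₀ (le_max_right _ _) h2 2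
  unfold EE
  linarith

theorem EE_nonneg {θ y : ℝ} (hθ : θ ^ 2 < 33 / 20) (h : y ≤ 33 / 20) : 0 ≤ EE θ y := by
  have h0 : 0 < 33 / 20 - θ ^ 2 := by linarith
  have h1 : max ((y - θ ^ 2) / (33 / 20 - θ ^ 2)) 0 ≤ 1 := by
    apply max_le _ zero_le_one
    rw [div_le_one h0]
    linarith
  have h3 := pow_le_pow_left₀ (le_max_right _ _) h1 2
  unfold EE
  linarith

theorem MM_EE {θ ρ : ℝ} (hθ : 0 < θ) (hθ2 : θ < RP) (hρ : 0 < ρ) (hρ2 : ρ ≤ RP) :
    (33 / 20 - ρ ^ 2) / 2 - θ ^ 3 * (1 / ρ - 1 / RP) ≤ MM θ * EE θ (ρ ^ 2) := by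
  have hu := RP_pos
  have hu2 := RP_sq
  have e1 : (33 / 20 - ρ ^ 2) / 2 - θ ^ 3 * (1 / ρ - 1 / RP) =
      MM θ - (ρ - θ) ^ 2 * (ρ + 2 * θ) / (2 * ρ) := by
    rw [← hu2, MM]
    field_simp
    ring
  rw [e1]
  have hM := MM_nonneg hθ.le
  have h0 : 0 < 33 / 20 - θ ^ 2 := by
    rw [← hu2]
    nlinarith
  rcases le_or_gt ρ θ with h | h
  · have e2 : EE θ (ρ ^ 2) = 1 := by
      rw [EE, max_eq_right]
      · norm_num
      · apply div_nonpos_of_nonpos_of_nonneg _ h0.le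
        nlinarith
    rw [e2, mul_one]
    have : 0 ≤ (ρ - θ) ^ 2 * (ρ + 2 * θ) / (2 * ρ) := by positivity
    linarith
  · have e2 : EE θ (ρ ^ 2) = 1 - ((ρ ^ 2 - θ ^ 2) / (RP ^ 2 - θ ^ 2)) ^ 2 := by
      rw [EE, max_eq_left, hu2]
      apply div_nonneg _ h0.le
      nlinarith
    have e3 : MM θ * ((ρ ^ 2 - θ ^ 2) / (RP ^ 2 - θ ^ 2)) ^ 2 =
        (ρ - θ) ^ 2 * ((ρ + θ) ^ 2 * (RP + 2 * θ) / (2 * RP * (RP + θ) ^ 2)) := by
      have h3 : RP - θ ≠ 0 := by linarith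
      have h4 : RP + θ ≠ 0 := by positivity
      have h5 : RP ^ 2 - θ ^ 2 = (RP - θ) * (RP + θ) := by ring
      rw [MM, h5]
      field_simp
      ring
    have h6 : (ρ + θ) ^ 2 * (RP + 2 * θ) / (2 * RP * (RP + θ) ^ 2) ≤
        (ρ + 2 * θ) / (2 * ρ) := by
      rw [div_le_div_iff₀ (by positivity) (by positivity)]
      have a1 : ρ * (RP + 2 * θ) ≤ RP * (ρ + 2 * θ) := by nlinarith
      have a2 : (ρ + θ) ^ 2 ≤ (RP + θ) ^ 2 := pow_le_pow_left₀ (by positivity) (by linarith) 2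
      have a3 := mul_le_mul a1 a2 (by positivity) (by positivity)
      nlinarith
    have h7 := mul_le_mul_of_nonneg_left h6 (sq_nonneg (ρ - θ))
    have e4 : MM θ * EE θ (ρ ^ 2) = MM θ - MM θ * ((ρ ^ 2 - θ ^ 2) / (RP ^ 2 - θ ^ 2)) ^ 2 := by
      rw [e2]
      ring
    rw [e4, e3]
    have e5 : (ρ - θ) ^ 2 * (ρ + 2 * θ) / (2 * ρ) =
        (ρ - θ) ^ 2 * ((ρ + 2 * θ) / (2 * ρ)) := by ring
    rw [e5]
    linarith

/-- The form of `bb` beyond `t`. -/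
theorem bb_form {t ρ : ℝ} (hρ : 0 < ρ) (hlt : t ≤ ρ) :
    bb t ρ = (1 - kap t) * ρ ^ 2 / 2 - 3 * t ^ 2 / 2 + (t ^ 3 + bet t) / ρ := by
  unfold bb Bf
  split_ifs with h
  · have h1 : ρ = t := le_antisymm h hlt
    rw [h1]
    rw [h1] at hρ
    field_simp
    ring
  · field_simp
    ring

/-- The bound of `bb t RP - bb t ρ`. -/
theorem p6_bb {t w1 w2 θ1 θ2 ρ : ℝ} (ht1 : 1 ≤ t) (htR : t < R) (hw1 : 0 ≤ w1) (hw2 : 0 ≤ w2)
    (hw : w1 + w2 = 1 - kap t) (hX : w1 * θ1 ^ 3 + w2 * θ2 ^ 3 ≤ t ^ 3 + bet t)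
    (h1 : 0 < θ1) (h2 : 0 < θ2) (h1' : θ1 < RP) (h2' : θ2 < RP) (hρ : 0 < ρ) (hρ2 : ρ ≤ RP) :
    bb t RP - bb t ρ ≤ w1 * (MM θ1 * EE θ1 (ρ ^ 2)) + w2 * (MM θ2 * EE θ2 (ρ ^ 2)) := by
  have hu := RP_pos
  have hu2 := RP_sq
  have hR := R_lt_RO.trans RO_lt_RP
  -- beyond `t`
  have key : ∀ r : ℝ, t ≤ r → r ≤ RP →
      bb t RP - bb t r ≤ w1 * (MM θ1 * EE θ1 (r ^ 2)) + w2 * (MM θ2 * EE θ2 (r ^ 2)) := by
    intro r hr1 hr2
    have hr0 : 0 < r := by linarith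
    rw [bb_form hu (by linarith), bb_form hr0 hr1, ← hw]
    have a1 := mul_le_mul_of_nonneg_left (MM_EE h1 h1' hr0 hr2) hw1
    have a2 := mul_le_mul_of_nonneg_left (MM_EE h2 h2' hr0 hr2) hw2
    have a3 : 0 ≤ 1 / r - 1 / RP := by
      rw [sub_nonneg]
      exact one_div_le_one_div_of_le hr0 hr2
    have a4 := mul_le_mul_of_nonneg_right hX a3
    rw [hu2]
    have e1 : (t ^ 3 + bet t) / RP = (t ^ 3 + bet t) * (1 / RP) := by ring
    have e2 : (t ^ 3 + bet t) / r = (t ^ 3 + bet t) * (1 / r) := by ring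
    rw [e1, e2]
    nlinarith
  rcases le_or_gt t ρ with h | h
  · exact key ρ h hρ2
  · have k1 := key t le_rfl (by linarith)
    have hb : bb t t ≤ bb t ρ := by
      have b0 := (tBET t ht1 htR).1
      have k0 := (tKAP t ht1 htR).1
      unfold bb Bf
      rw [if_pos le_rfl, if_pos h.le]
      have c1 : bet t / t ≤ bet t / ρ := div_le_div_of_nonneg_left b0 hρ h.le
      have c2 : kap t * ρ ^ 2 ≤ kap t * t ^ 2 :=
        mul_le_mul_of_nonneg_left (pow_le_pow_left₀ hρ.le h.le 2) k0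
      linarith
    have hsq : ρ ^ 2 ≤ t ^ 2 := pow_le_pow_left₀ hρ.le h.le 2
    have hθ1 : θ1 ^ 2 < 33 / 20 := by
      rw [← hu2]
      exact pow_lt_pow_left₀ h1' h1.le two_ne_zero
    have hθ2 : θ2 ^ 2 < 33 / 20 := by
      rw [← hu2]
      exact pow_lt_pow_left₀ h2' h2.le two_ne_zero
    have m1 := mul_le_mul_of_nonneg_left (mul_le_mul_of_nonneg_left (EE_anti hθ1 hsq)
      (MM_nonneg h1.le)) hw1
    have m2 := mul_le_mul_of_nonneg_left (mul_le_mul_of_nonneg_left (EE_anti hθ2 hsq)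
      (MM_nonneg h2.le)) hw2
    linarith

/-! ## One side -/

theorem p6_rr_sq {h u : ℝ} (hh : 0 < h) (hu : h ≤ u) : rr h u ^ 2 = u ^ 2 / h ^ 2 - 1 := by
  unfold rr
  apply Real.sq_sqrt
  have h1 : 1 ≤ u ^ 2 / h ^ 2 := by
    rw [le_div_iff₀ (by positivity)]
    nlinarith
  linarith

theorem p6_cc {h u : ℝ} (hh : 0 < h) (hu : h ≤ u) : h * cc (rr h u) = u := by
  have h1 : cc (rr h u) = u / h := by
    unfold cc
    rw [p6_rr_sq hh hu, show 1 + (u ^ 2 / h ^ 2 - 1) = (u / h) ^ 2 by rw [div_pow]; ring]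
    exact Real.sqrt_sq (div_nonneg (hh.le.trans hu) hh.le)
  rw [h1]
  field_simp

theorem EE_cont (θ : ℝ) : Continuous (EE θ) := by
  unfold EE
  fun_prop

theorem PH_cont (θ ψ : ℝ) (hψ : ψ < π / 2) :
    ContinuousOn (fun x => EE θ (1 + 0.65 * cos ψ ^ 2 / cos x ^ 2)) (Icc 0 ψ) := by
  apply (EE_cont θ).comp_continuousOn
  apply ContinuousOn.add continuousOn_const
  apply ContinuousOn.div continuousOn_const (Real.continuous_cos.pow 2).continuousOn
  intro x hx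
  have : 0 < cos x := cos_pos_of_mem_Ioo ⟨by linarith [hx.1, Real.pi_pos], by linarith [hx.2]⟩
  exact pow_ne_zero 2 this.ne'

/-- One side. -/
theorem p6_side {t h a w1 w2 θ1 θ2 : ℝ} (ht1 : 1 ≤ t) (htR : t < R) (hh : 1 ≤ h) (hhR : h < RP)
    (hw1 : 0 ≤ w1) (hw2 : 0 ≤ w2) (hw : w1 + w2 = 1 - kap t)
    (hX : w1 * θ1 ^ 3 + w2 * θ2 ^ 3 ≤ t ^ 3 + bet t)
    (h1 : 0 < θ1) (h2 : 0 < θ2) (h1' : θ1 < RP) (h2' : θ2 < RP) (ha : 0 < a)
    (har : a < rr h RP) :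
    ∫ ψ in (0 : ℝ)..(π / 2), max (HH t h (rr h RP) - HH t h (a / cos ψ)) 0 ≤
      h * (w1 * (MM θ1 * PH θ1 (arccos (a / rr h RP))) +
        w2 * (MM θ2 * PH θ2 (arccos (a / rr h RP)))) := by
  have hu := RP_pos
  have hu2 := RP_sq
  have hπ := Real.pi_pos
  have hh0 : 0 < h := by linarith
  have hr0 : 0 < rr h RP := ha.trans har
  set ψ0 : ℝ := arccos (a / rr h RP) with hψ0
  have hd0 : 0 < a / rr h RP := by positivity
  have hd1 : a / rr h RP < 1 := by rwa [div_lt_one hr0]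
  have hcψ : cos ψ0 = a / rr h RP := Real.cos_arccos (by linarith) hd1.le
  have hψp : 0 ≤ ψ0 := Real.arccos_nonneg _
  have hψq : ψ0 < π / 2 := Real.arccos_lt_pi_div_two.mpr hd0
  have hθ1 : θ1 ^ 2 < 33 / 20 := by
    rw [← hu2]
    exact pow_lt_pow_left₀ h1' h1.le two_ne_zero
  have hθ2 : θ2 ^ 2 < 33 / 20 := by
    rw [← hu2]
    exact pow_lt_pow_left₀ h2' h2.le two_ne_zero
  -- the majorant
  let F : ℝ → ℝ := fun x =>
    h * (w1 * (MM θ1 * EE θ1 (1 + 0.65 * cos ψ0 ^ 2 / cos x ^ 2)) +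
      w2 * (MM θ2 * EE θ2 (1 + 0.65 * cos ψ0 ^ 2 / cos x ^ 2)))
  have hc1 := PH_cont θ1 ψ0 hψq
  have hc2 := PH_cont θ2 ψ0 hψq
  have hFc : ContinuousOn F (Icc 0 ψ0) := by
    apply ContinuousOn.mul continuousOn_const
    exact (continuousOn_const.mul (continuousOn_const.mul hc1)).add
      (continuousOn_const.mul (continuousOn_const.mul hc2))
  let g : ℝ → ℝ := (Ioc (0 : ℝ) ψ0).indicator F
  have hgi : Integrable g := by
    rw [integrable_indicator_iff measurableSet_Ioc]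
    exact (hFc.integrableOn_Icc).mono_set Ioc_subset_Icc_self
  have hy : ∀ x ∈ Ioc (0 : ℝ) ψ0, 0 < cos x ∧ cos ψ0 ^ 2 / cos x ^ 2 ≤ 1 := by
    intro x hx
    have c0 : 0 < cos x := cos_pos_of_mem_Ioo ⟨by linarith [hx.1], by linarith [hx.2]⟩
    refine ⟨c0, ?_⟩
    rw [div_le_one (by positivity)]
    apply pow_le_pow_left₀ (by rw [hcψ]; exact hd0.le)
    exact Real.cos_le_cos_of_nonneg_of_le_pi hx.1.le (by linarith) hx.2
  have hF0 : ∀ x ∈ Ioc (0 : ℝ) ψ0, 0 ≤ F x := by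
    intro x hx
    obtain ⟨c0, c1⟩ := hy x hx
    have hy2 : 1 + 0.65 * cos ψ0 ^ 2 / cos x ^ 2 ≤ 33 / 20 := by
      rw [mul_div_assoc]
      linarith
    have e1 := EE_nonneg hθ1 hy2
    have e2 := EE_nonneg hθ2 hy2
    have m1 := MM_nonneg h1.le
    have m2 := MM_nonneg h2.le
    show 0 ≤ h * (w1 * (MM θ1 * EE θ1 _) + w2 * (MM θ2 * EE θ2 _))
    positivity
  have hg0 : ∀ ψ, 0 ≤ g ψ := fun ψ => indicator_nonneg hF0 ψ
  have key : ∀ ψ ∈ Ioo (0 : ℝ) (π / 2),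
      max (HH t h (rr h RP) - HH t h (a / cos ψ)) 0 ≤ g ψ := by
    intro ψ hψ
    have hc : 0 < cos ψ := cos_pos_of_mem_Ioo ⟨by linarith [hψ.1], hψ.2⟩
    have hr : 0 < a / cos ψ := by positivity
    have e1 := p_HB t h (rr h RP) (by linarith) hh0 hr0.le
    have e2 := p_HB t h (a / cos ψ) (by linarith) hh0 hr.le
    rw [p6_cc hh0 hhR.le] at e1
    have e3 : HH t h (rr h RP) - HH t h (a / cos ψ) =
        h * (bb t RP - bb t (h * cc (a / cos ψ))) := by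
      rw [e1, e2]
      ring
    rw [e3]
    set ρ : ℝ := h * cc (a / cos ψ) with hρ
    have hcp := cc_pos (a / cos ψ)
    have hρ0 : 0 < ρ := by positivity
    have hρ2 : ρ ^ 2 = h ^ 2 + (33 / 20 - h ^ 2) * (cos ψ0 ^ 2 / cos ψ ^ 2) := by
      have f1 : rr h RP ^ 2 = (33 / 20 - h ^ 2) / h ^ 2 := by
        rw [p6_rr_sq hh0 hhR.le, hu2]
        field_simp
      have f2 : a = rr h RP * cos ψ0 := by
        rw [hcψ]
        field_simp
      rw [hρ, mul_pow, cc_sq, f2, div_pow, mul_pow, f1]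
      field_simp
    apply max_le _ (hg0 ψ)
    rcases le_or_gt ψ ψ0 with hle | hgt
    · have hmem : ψ ∈ Ioc 0 ψ0 := ⟨hψ.1, hle⟩
      obtain ⟨-, c1⟩ := hy ψ hmem
      have hgF : g ψ = F ψ := indicator_of_mem hmem _
      rw [hgF]
      apply mul_le_mul_of_nonneg_left _ hh0.le
      have hh2 : 1 ≤ h ^ 2 := by nlinarith
      have hh3 : h ^ 2 < 33 / 20 := by
        rw [← hu2]
        nlinarith
      have hle2 : 1 + 0.65 * cos ψ0 ^ 2 / cos ψ ^ 2 ≤ ρ ^ 2 := by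
        rw [hρ2, mul_div_assoc]
        linarith [mul_nonneg (sub_nonneg.2 hh2) (sub_nonneg.2 c1)]
      have hρR : ρ ≤ RP := by
        apply le_of_sq_le_sq _ hu.le
        rw [hρ2, hu2]
        linarith [mul_nonneg (sub_nonneg.2 hh3.le) (sub_nonneg.2 c1)]
      have b1 := p6_bb ht1 htR hw1 hw2 hw hX h1 h2 h1' h2' hρ0 hρR
      have m1 := mul_le_mul_of_nonneg_left (mul_le_mul_of_nonneg_left (EE_anti hθ1 hle2)
        (MM_nonneg h1.le)) hw1
      have m2 := mul_le_mul_of_nonneg_left (mul_le_mul_of_nonneg_left (EE_anti hθ2 hle2)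
        (MM_nonneg h2.le)) hw2
      linarith
    · apply le_trans _ (hg0 ψ)
      have c1 : 1 ≤ cos ψ0 ^ 2 / cos ψ ^ 2 := by
        rw [one_le_div (by positivity)]
        apply pow_le_pow_left₀ hc.le
        exact Real.cos_le_cos_of_nonneg_of_le_pi hψp (by linarith [hψ.2]) hgt.le
      have hh3 : h ^ 2 < 33 / 20 := by
        rw [← hu2]
        nlinarith
      have hρR : RP ≤ ρ := by
        apply le_of_sq_le_sq _ hρ0.le
        rw [hρ2, hu2]
        linarith [mul_nonneg (sub_nonneg.2 hh3.le) (sub_nonneg.2 c1)]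
      have hR := R_lt_RO.trans RO_lt_RP
      have h3 := p_BM t ht1 htR (show RP ∈ Ici R from hR.le)
        (show ρ ∈ Ici R from hR.le.trans hρR) hρR
      have h4 : bb t RP - bb t ρ ≤ 0 := by linarith
      exact mul_nonpos_of_nonneg_of_nonpos hh0.le h4
  rw [intervalIntegral.integral_of_le (by positivity), integral_Ioc_eq_integral_Ioo]
  have s1 : ∫ ψ in Ioo (0 : ℝ) (π / 2), max (HH t h (rr h RP) - HH t h (a / cos ψ)) 0 ≤
      ∫ ψ in Ioo (0 : ℝ) (π / 2), g ψ := by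
    apply integral_mono_of_nonneg
    · exact ae_of_all _ (fun ψ => le_max_right _ _)
    · exact hgi.integrableOn
    · exact ae_restrict_of_forall_mem measurableSet_Ioo key
  have s2 : ∫ ψ in Ioo (0 : ℝ) (π / 2), g ψ ≤ ∫ ψ, g ψ :=
    setIntegral_le_integral hgi (ae_of_all _ hg0)
  have s3 : ∫ ψ, g ψ = h * (w1 * (MM θ1 * PH θ1 ψ0) + w2 * (MM θ2 * PH θ2 ψ0)) := by
    rw [integral_indicator measurableSet_Ioc, ← intervalIntegral.integral_of_le hψp]
    have i1 : IntervalIntegrable (fun x => EE θ1 (1 + 0.65 * cos ψ0 ^ 2 / cos x ^ 2)) volume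
        0 ψ0 := ContinuousOn.intervalIntegrable_of_Icc hψp hc1
    have i2 : IntervalIntegrable (fun x => EE θ2 (1 + 0.65 * cos ψ0 ^ 2 / cos x ^ 2)) volume
        0 ψ0 := ContinuousOn.intervalIntegrable_of_Icc hψp hc2
    simp only [F]
    rw [intervalIntegral.integral_const_mul, intervalIntegral.integral_add
      ((i1.const_mul _).const_mul _) ((i2.const_mul _).const_mul _)]
    rw [intervalIntegral.integral_const_mul, intervalIntegral.integral_const_mul,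
      intervalIntegral.integral_const_mul, intervalIntegral.integral_const_mul, PH, PH]
  rw [← s3]
  exact s1.trans s2

end Pool.Agent.SDL
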