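import Pool.Agent.SDL.Targets

set_option autoImplicit false

open MeasureTheory Set Real
open scoped RealInnerProductSpace

namespace Pool.Agent.SDL

open Pool.Agent.SDC

/-- `Kq` is nonnegative on `[0, 1]`. -/
theorem KB2_Kq {q : ℝ} (h0 : 0 ≤ q) (h1 : q ≤ 1) : 0 ≤ Kq q := by
  have e : Kq q = (1 - q) ^ 3 *
      (211 / 1400 + 633 / 1400 * q + 986 / 2625 * q ^ 2 - 69 / 875 * q ^ 3 - 23 / 875 * q ^ 4) := by
    rw [Kq]
    ring
  rw [e]
  have h3 : 0 ≤ (1 - q) ^ 3 := pow_nonneg (by linarith) 3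
  have h4 : q ^ 3 ≤ q ^ 2 := by
    have : 0 ≤ q ^ 2 * (1 - q) := mul_nonneg (by positivity) (by linarith)
    nlinarith
  have h5 : q ^ 4 ≤ q ^ 2 := by
    have : 0 ≤ q ^ 2 * (1 - q) * (1 + q) :=
      mul_nonneg (mul_nonneg (by positivity) (by linarith)) (by linarith)
    nlinarith
  have h6 : 0 ≤ q ^ 2 := by positivity
  exact mul_nonneg h3 (by linarith)

/-- The polynomial inequality. -/
theorem KB2_poly {q : ℝ} (h0 : 0 ≤ q) (h1 : q ≤ 1) :
    0.0578 * Kq q * (1.9929 + 0.23 * 1.73908) ≤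
      0.23 * (0.12686 * ((1 - q) ^ 2 * (1 + 2 * q)) - 0.01212 * (1 - q ^ 2) ^ 2
        - 0.00052 * (1 - q ^ 2) ^ 3) := by
  have e : 0.23 * (0.12686 * ((1 - q) ^ 2 * (1 + 2 * q)) - 0.01212 * (1 - q ^ 2) ^ 2
        - 0.00052 * (1 - q ^ 2) ^ 3) - 0.0578 * Kq q * (1.9929 + 0.23 * 1.73908) =
      (1 - q) ^ 2 * (0.23 * (0.12686 * (1 + 2 * q) - 0.01212 * (1 + q) ^ 2
        - 0.00052 * ((1 - q) * (1 + q) ^ 3)) - 0.0578 * (1.9929 + 0.23 * 1.73908) * ((1 - q) *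
        (211 / 1400 + 633 / 1400 * q + 986 / 2625 * q ^ 2 - 69 / 875 * q ^ 3
          - 23 / 875 * q ^ 4))) := by
    rw [Kq]
    ring
  have h4 : q ^ 4 ≤ q ^ 3 := by
    have : 0 ≤ q ^ 3 * (1 - q) := mul_nonneg (by positivity) (by linarith)
    nlinarith
  have h5 : q ^ 5 ≤ q ^ 3 := by
    have : 0 ≤ q ^ 3 * (1 - q) * (1 + q) :=
      mul_nonneg (mul_nonneg (by positivity) (by linarith)) (by linarith)
    nlinarith
  have h6 : 0 ≤ q ^ 2 := by positivity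
  have h7 : 0 ≤ q ^ 3 := by positivity
  have p : 0 ≤ 0.23 * (0.12686 * (1 + 2 * q) - 0.01212 * (1 + q) ^ 2
        - 0.00052 * ((1 - q) * (1 + q) ^ 3)) - 0.0578 * (1.9929 + 0.23 * 1.73908) * ((1 - q) *
        (211 / 1400 + 633 / 1400 * q + 986 / 2625 * q ^ 2 - 69 / 875 * q ^ 3
          - 23 / 875 * q ^ 4)) := by
    ring_nf
    norm_num at *
    linarith
  have := mul_nonneg (sq_nonneg (1 - q)) p
  linarith

theorem p_KB2 (hku : T_KU) (hbq : T_BQ) : T_KB2 := by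
  intro t hW h1 h2
  have hA : 0 < R ^ 2 - W0 := by linarith [W0_lt]
  have hr : 0 ≤ (t ^ 2 - W0) / (R ^ 2 - W0) := div_nonneg (by linarith) hA.le
  obtain ⟨q, hq0, hq⟩ : ∃ q : ℝ, 0 ≤ q ∧ q ^ 2 * (R ^ 2 - W0) = t ^ 2 - W0 :=
    ⟨√((t ^ 2 - W0) / (R ^ 2 - W0)), Real.sqrt_nonneg _, by
      rw [Real.sq_sqrt hr, div_mul_cancel₀ _ hA.ne']⟩
  obtain ⟨hq1, hk⟩ := hku t q hW h1 h2 hq0 hq
  obtain ⟨-, hb, -⟩ := hbq t q hW h1 h2 hq0 hq
  -- the constants
  have hW1 : (1.3819659 : ℝ) < W0 := by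
    rw [W0]
    linarith [s5_hi']
  have hW2 : W0 < (1.3819661 : ℝ) := by
    rw [W0]
    linarith [s5_lo']
  have hA1 : (0.2016259 : ℝ) < R ^ 2 - W0 := by linarith [R_sq_lo]
  have hA2 : R ^ 2 - W0 < (0.2016267 : ℝ) := by linarith [R_sq_hi]
  generalize hAd : R ^ 2 - W0 = A at *
  have hR1 := R_lo'
  have hR2 := R_hi'
  have hRp := R_pos
  have c1 : (0.12686 : ℝ) ≤ R * A / 2 := by
    have := mul_le_mul hR1.le hA1.le (by norm_num) hRp.le
    norm_num at this ⊢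
    linarith
  have hA22 : A ^ 2 ≤ 0.0406534 := by nlinarith
  have hA3 : A ^ 3 ≤ 0.0081969 := by
    have : A ^ 3 = A ^ 2 * A := by ring
    rw [this]
    have := mul_le_mul hA22 hA2.le hA.le (by norm_num)
    norm_num at this ⊢
    linarith
  have hR3l : (1.9928 : ℝ) ≤ R ^ 3 := by
    have : R ^ 3 = R ^ 2 * R := by ring
    rw [this]
    have := mul_le_mul R_sq_lo.le hR1.le (by norm_num) (by positivity)
    norm_num at this ⊢
    linarith
  have hR3u : R ^ 3 ≤ (1.9929 : ℝ) := by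
    have : R ^ 3 = R ^ 2 * R := by ring
    rw [this]
    have := mul_le_mul R_sq_hi.le hR2.le hRp.le (by norm_num)
    norm_num at this ⊢
    linarith
  have c2' : 3 * A ^ 2 / (8 * R) ≤ 0.01212 := by
    rw [div_le_iff₀ (by positivity)]
    norm_num at hA22 hR1 ⊢
    linarith
  have c3' : A ^ 3 / (8 * R ^ 3) ≤ 0.00052 := by
    rw [div_le_iff₀ (by positivity)]
    norm_num at hA3 hR3l ⊢
    linarith
  have c4 : R * W0 ≤ 1.73908 := by
    have := mul_le_mul hR2.le hW2.le (by linarith) (by norm_num)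
    norm_num at this ⊢
    linarith
  have ht3 : t ^ 3 ≤ R ^ 3 := pow_le_pow_left₀ (by linarith) h2.le 3
  have ht3' : 0 < t ^ 3 := by positivity
  have hRW : 0 < R * W0 := mul_pos hRp (by linarith)
  -- the bound
  have hKq := KB2_Kq hq0 hq1.le
  have hm : 0 < t ^ 3 + 0.23 * (R * W0) := by positivity
  have s1 : kap t * (t ^ 3 + 0.23 * (R * W0)) ≤ 0.0578 * Kq q * (1.9929 + 0.23 * 1.73908) := by
    calc kap t * (t ^ 3 + 0.23 * (R * W0)) ≤ 0.0578 * Kq q * (t ^ 3 + 0.23 * (R * W0)) :=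
          mul_le_mul_of_nonneg_right hk hm.le
      _ ≤ _ := mul_le_mul_of_nonneg_left (by linarith) (by positivity)
  have s2' := KB2_poly hq0 hq1.le
  have n1 : 0 ≤ (1 - q) ^ 2 * (1 + 2 * q) := by positivity
  have n2 : 0 ≤ (1 - q ^ 2) ^ 2 := by positivity
  have n3 : 0 ≤ (1 - q ^ 2) ^ 3 := pow_nonneg (by nlinarith) 3
  have m1 := mul_le_mul_of_nonneg_right c1 n1
  have m2 := mul_le_mul_of_nonneg_right c2' n2
  have m3 := mul_le_mul_of_nonneg_right c3' n3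
  have e1 : R * A / 2 * (1 - q) ^ 2 * (1 + 2 * q) = R * A / 2 * ((1 - q) ^ 2 * (1 + 2 * q)) := by
    ring
  rw [e1] at hb
  have e2 : kap t * R * W0 = kap t * (R * W0) := by ring
  rw [e2] at hb
  have e3 : kap t * (t ^ 3 + 0.23 * (R * W0)) = kap t * t ^ 3 + 0.23 * (kap t * (R * W0)) := by
    ring
  rw [e3] at s1
  linarith

end Pool.Agent.SDL
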