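import Pool.Agent.SDL.Targets3
import Pool.Agent.SDL.P_KEX
import Pool.Agent.SDL.P_KU
import Pool.Agent.SDL.P_BQ
import Pool.Agent.SDL.P_KB2

set_option autoImplicit false

/-!
# SDL: at least six near sides: the inequalities in one variable (piece D)

The numbers: five radii `1.2025, 1.212, 1.222, 1.231, 1.239` with the values `0.0209, 0.01695,
0.0132, 0.01018, 0.00779`, and the angle `1.104`, at least `2 π - 6 * 0.8632`.
-/

open MeasureTheory Set Real

namespace Pool.Agent.SDL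

open Pool.Agent.SDC

/-! ## Constants -/

theorem D_RP_hi : RP < 1.2845233 := by
  nlinarith [RP_sq, RP_pos]

theorem D_RP_lo : 1.28452 < RP := by
  nlinarith [RP_sq, RP_pos]

theorem D_RP_inv : (0.7784989 : ℝ) < 1 / RP := by
  rw [lt_div_iff₀ RP_pos]
  linarith [D_RP_hi]

theorem D_W0_lo : (1.3819659 : ℝ) < W0 := by
  rw [W0]
  linarith [s5_hi']

theorem D_W0_hi : W0 < (1.3819661 : ℝ) := by
  rw [W0]
  linarith [s5_lo']

theorem D_A_lo : (0.2016259 : ℝ) < R ^ 2 - W0 := by linarith [R_sq_lo, D_W0_hi]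

theorem D_A_hi : R ^ 2 - W0 < (0.2016267 : ℝ) := by linarith [R_sq_hi, D_W0_lo]

theorem D_a1_lo : (1.739076 : ℝ) < R * W0 := by
  nlinarith [R_lo', D_W0_lo]

theorem D_a1_hi : R * W0 < (1.73908 : ℝ) := by
  nlinarith [R_hi', D_W0_hi, R_pos]

theorem D_a2_lo : (0.253726 : ℝ) < R * (R ^ 2 - W0) := by
  nlinarith [R_lo', D_A_lo]

theorem D_a2_hi : R * (R ^ 2 - W0) < (0.253732 : ℝ) := by
  nlinarith [R_hi', D_A_hi, R_pos, D_A_lo]

theorem D_a3 : (0.012114 : ℝ) < 3 * (R ^ 2 - W0) ^ 2 / (8 * R) := by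
  rw [lt_div_iff₀ (by linarith [R_pos])]
  nlinarith [R_hi', D_A_lo]

/-- `bb` at `RP`. -/
theorem D_bb {t : ℝ} (ht : 0 < t) (htR : t ≤ RP) :
    bb t RP = (1 - kap t) * (33 / 40) + (t ^ 3 + bet t) * (1 / RP) - 3 / 2 * t ^ 2 := by
  rw [bb, p_BF.2.2 t RP ht htR, RP_sq]
  ring

theorem D_R_RP : R < RP := R_lt_RO.trans RO_lt_RP

/-! ## The small radii -/

/-- The polynomial inequality. -/
theorem D1_poly {s : ℝ} (h0 : 0 ≤ s) :
    0 ≤ 0.7546 * (9 * (1.151 + s) ^ 2 - 5 * (1.151 + s) ^ 3 - 3) *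
      (0.65 + 2 * 1.353868 - 5 / 3 * 1.73908 - 0.01469 - 1.73908 / 3 * (1.2 * s)) + 1
      - 3 * (1.151 + s) ^ 2 + (1.151 + s) ^ 3 * (5 + 1.2 * s) / 3 := by
  have h3 : 0 ≤ s ^ 3 := by positivity
  have h4 : 0 ≤ s ^ 4 := by positivity
  ring_nf
  nlinarith [sq_nonneg (s - 0.0311)]

theorem p6_D1 (t : ℝ) (h1 : 1.151 ≤ t) (h2 : t ^ 2 ≤ W0) :
    2 * ((1 - kap t) * 0.0209) * 1.104 ≤ 2 * π * (bb t RP + kap t / 2 - bet t) +
      π / 3 * bet t * (1 - 1.2 * (t - 1.151)) ∧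
    π / 3 * bet t * (1.2 * (t - 1.151)) ≤ 0.8632 * ((1 - kap t) * 0.0209) := by
  have htu : t < 1.17558 := by nlinarith [D_W0_hi]
  have ht0 : 0 < t := by linarith
  have ht1 : 1 ≤ t := by linarith
  have htR : t < R := by linarith [R_lo']
  have hκ : 0 ≤ kap t := (tKAP t ht1 htR).1
  have hβ : 0 ≤ bet t := (tBET t ht1 htR).1
  have hbb := D_bb ht0 (htR.le.trans D_R_RP.le)
  -- the value of the sum
  have hX : t ^ 3 + bet t = (1 - kap t) * (R * W0) := by
    have e1 : max (t ^ 2 - W0) 0 = 0 := max_eq_right (by linarith)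
    rw [bet, gg, e1, Real.sqrt_zero]
    ring
  have hk := p_KEX.2 t ht1 h2
  obtain ⟨k, hkd⟩ : ∃ k, k = 1 - kap t := ⟨_, rfl⟩
  have hκk : kap t = 1 - k := by linarith
  rw [← hkd] at hX hk
  have hk1 : k ≤ 1 := by linarith
  obtain ⟨P, hP⟩ : ∃ P, P = 9 * t ^ 2 - 5 * t ^ 3 - 3 := ⟨_, rfl⟩
  rw [← hP] at hk
  have hP1 : 1.29 ≤ P := by
    rw [hP]
    nlinarith [mul_nonneg (sub_nonneg.mpr h1) (sub_nonneg.mpr htu.le), h1, htu,
      mul_nonneg (mul_nonneg (sub_nonneg.mpr h1) (sub_nonneg.mpr htu.le)) ht0.le]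
  have hS := S0_hi
  have hS0 := S0_pos
  have hkP : 0.7546 * P ≤ k := by
    have h3 : 3.14159 / 30 * P ≤ k * S0 := by
      rw [hk]
      have := Real.pi_gt_d6
      nlinarith
    have h4 : 0 ≤ k := by
      by_contra hcon
      push Not at hcon
      nlinarith
    nlinarith
  have hk0 : 0 < k := by linarith
  obtain ⟨g, hg⟩ : ∃ g, g = 1.2 * (t - 1.151) := ⟨_, rfl⟩
  have hg0 : 0 ≤ g := by rw [hg]; linarith
  have hg1 : g ≤ 0.0296 := by rw [hg]; linarith
  have a1l := D_a1_lo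
  have a1u := D_a1_hi
  have hb := D_RP_inv
  generalize R * W0 = a1 at *
  generalize 1 / RP = b at *
  have hab : 1.353868 ≤ a1 * b := by nlinarith
  have hβe : bet t = k * a1 - t ^ 3 := by linarith
  rw [hbb, hX, ← hkd, hκk, ← hg]
  have hB : 0.01469 * k ≤ 2 * (k * (33 / 40) + k * a1 * b - 3 / 2 * t ^ 2 + (1 - k) / 2)
      - bet t * ((5 + g) / 3) := by
    have e1 : k * 1.353868 ≤ k * (a1 * b) := mul_le_mul_of_nonneg_left hab hk0.le
    have e2 : k * ((5 + g) / 3) * a1 ≤ k * ((5 + g) / 3) * 1.73908 :=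
      mul_le_mul_of_nonneg_left a1u.le (by positivity)
    have e3 : 0.7546 * P * (0.65 + 2 * 1.353868 - 5 / 3 * 1.73908 - 0.01469 - 1.73908 / 3 * g) ≤
        k * (0.65 + 2 * 1.353868 - 5 / 3 * 1.73908 - 0.01469 - 1.73908 / 3 * g) :=
      mul_le_mul_of_nonneg_right hkP (by linarith)
    have e4 := D1_poly (s := t - 1.151) (by linarith)
    have e5 : 1.151 + (t - 1.151) = t := by ring
    rw [e5, ← hg, ← hP] at e4
    rw [hβe]
    have e6 : k * a1 * b = k * (a1 * b) := by ring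
    have e7 : (k * a1 - t ^ 3) * ((5 + g) / 3) = k * ((5 + g) / 3) * a1
      - t ^ 3 * (5 + g) / 3 := by ring
    rw [e6, e7]
    linarith
  have hpi1 := Real.pi_gt_d6
  have hpi2 := Real.pi_lt_d6
  constructor
  · have e1 : 2 * π * (k * (33 / 40) + k * a1 * b - 3 / 2 * t ^ 2 + (1 - k) / 2 - bet t) +
        π / 3 * bet t * (1 - g) = π * (2 * (k * (33 / 40) + k * a1 * b - 3 / 2 * t ^ 2
          + (1 - k) / 2) - bet t * ((5 + g) / 3)) := by ring
    rw [e1]
    have e2 := mul_le_mul_of_nonneg_left hB Real.pi_pos.le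
    have e3 : 3.14159 * (0.01469 * k) ≤ π * (0.01469 * k) :=
      mul_le_mul_of_nonneg_right (by linarith) (by positivity)
    linarith
  · have e1 : bet t ≤ 0.2144 := by
      rw [hβe]
      have : (1.151 : ℝ) ^ 3 ≤ t ^ 3 := pow_le_pow_left₀ (by norm_num) h1 3
      have : k * a1 ≤ 1 * 1.73908 := mul_le_mul hk1 a1u.le (by linarith) (by norm_num)
      norm_num at *
      linarith
    have e2 : bet t * g ≤ 0.2144 * 0.0296 := mul_le_mul e1 hg1 hg0 (by norm_num)
    have e3 : π * (bet t * g) ≤ 3.15 * (0.2144 * 0.0296) :=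
      mul_le_mul (by linarith) e2 (mul_nonneg hβ hg0) (by norm_num)
    linarith

/-! ## The large radii -/

/-- The polynomial of a pair of consecutive radii. -/
noncomputable def D2P (M0 N g q : ℝ) : ℝ :=
  2 * (0.825 + 1.353868 - 2.07294915) + 0.39505 * q ^ 3 - 0.6048801 * q ^ 2
    - (0.126866 * ((1 - q) ^ 2 * (1 + 2 * q)) - 0.012114 * (1 - q ^ 2) ^ 2) * ((5 + g) / 3)
    - 0.70283 * (M0 - N * q ^ 3) - (0.459276 - 0.70283 * M0) * 0.0578 * Kq q

theorem D2_poly_0lo {q : ℝ} (ha : 0 ≤ q) (hb : q ≤ 0.546) :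
    0 ≤ D2P 0.0208759 0.0241279 (0.02959 + 0.101661 * q ^ 2) q := by
  have h1 : 0 ≤ q - 0 := by linarith
  have h2 : 0 ≤ 0.546 - q := by linarith
  have key : 0 ≤ (264614579884677625/4219250370848564688) *
        ((q - 0) ^ 0 * (0.546 - q) ^ 7) +
      (264614579884677625/602750052978366384) *
        ((q - 0) ^ 1 * (0.546 - q) ^ 6) +
      (4110949471773958733611/3013750264891831920000) *
        ((q - 0) ^ 2 * (0.546 - q) ^ 5) +
      (458016164480871355537/200916684326122128000) *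
        ((q - 0) ^ 3 * (0.546 - q) ^ 4) +
      (639611066857433729037658127/301375026489183192000000000) *
        ((q - 0) ^ 4 * (0.546 - q) ^ 3) +
      (8127824604415933173066960469/7534375662229579800000000000) *
        ((q - 0) ^ 5 * (0.546 - q) ^ 2) +
      (2144451391465272237848524813/7534375662229579800000000000) *
        ((q - 0) ^ 6 * (0.546 - q) ^ 1) +
      (652422700503874483806196765713049/18312718623474673125000000000000000) *
        ((q - 0) ^ 7 * (0.546 - q) ^ 0) := by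
    positivity
  unfold D2P Kq
  refine key.trans_eq ?_
  ring

theorem D2_poly_1lo {q : ℝ} (ha : 0.544 ≤ q) (hb : q ≤ 0.6385) :
    0 ≤ D2P 0.0204343 0.0214136 (0.02959 + 0.101661 * q ^ 2) q := by
  have h1 : 0 ≤ q - 0.544 := by linarith
  have h2 : 0 ≤ 0.6385 - q := by linarith
  have key : 0 ≤ (8881256775927164636443057479252992/1150166599369194087982177734375) *
        ((q - 0.544) ^ 0 * (0.6385 - q) ^ 7) +
      (8270820417759822999203008073351168/164309514195599155426025390625) *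
        ((q - 0.544) ^ 1 * (0.6385 - q) ^ 6) +
      (7678802566943230051691232453556472/54769838065199718475341796875) *
        ((q - 0.544) ^ 2 * (0.6385 - q) ^ 5) +
      (7113466025902909431191259246950588/32861902839119831085205078125) *
        ((q - 0.544) ^ 3 * (0.6385 - q) ^ 4) +
      (421370438370894230910549615725094353/2103161781703669189453125000000) *
        ((q - 0.544) ^ 4 * (0.6385 - q) ^ 3) +
      (390406363618593137875462103049313337/3505269636172781982421875000000) *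
        ((q - 0.544) ^ 5 * (0.6385 - q) ^ 2) +
      (2904496168325564724693572384833450759/84126471268146767578125000000000) *
        ((q - 0.544) ^ 6 * (0.6385 - q) ^ 1) +
      (174123746800457222021736388929977356279/37688659128129751875000000000000000) *
        ((q - 0.544) ^ 7 * (0.6385 - q) ^ 0) := by
    positivity
  unfold D2P Kq
  refine key.trans_eq ?_
  ring

theorem D2_poly_1hi {q : ℝ} (ha : 0.638 ≤ q) (hb : q ≤ 0.6966) :
    0 ≤ D2P 0.0204343 0.0214136 0.0887 q := by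
  have h1 : 0 ≤ q - 0.638 := by linarith
  have h2 : 0 ≤ 0.6966 - q := by linarith
  have key : 0 ≤ (11614339647623914607660237035689431/243317112840387281062500000000) *
        ((q - 0.638) ^ 0 * (0.6966 - q) ^ 7) +
      (41052568924438844731088002080254089/115865291828755848125000000000) *
        ((q - 0.638) ^ 1 * (0.6966 - q) ^ 6) +
      (3920693243232623582008187081101606357/3475958754862675443750000000000) *
        ((q - 0.638) ^ 2 * (0.6966 - q) ^ 5) +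
      (13889274720794250538764437614216916083/6951917509725350887500000000000) *
        ((q - 0.638) ^ 3 * (0.6966 - q) ^ 4) +
      (147931999440969065651269750185845483831/69519175097253508875000000000000) *
        ((q - 0.638) ^ 4 * (0.6966 - q) ^ 3) +
      (4739562098580772856061126370710425219201/3475958754862675443750000000000000) *
        ((q - 0.638) ^ 5 * (0.6966 - q) ^ 2) +
      (16924357690095162859975654604900030127719/34759587548626754437500000000000000) *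
        ((q - 0.638) ^ 6 * (0.6966 - q) ^ 1) +
      (181910115137172763569926803480726704145283/2433171128403872810625000000000000000) *
        ((q - 0.638) ^ 7 * (0.6966 - q) ^ 0) := by
    positivity
  unfold D2P Kq
  refine key.trans_eq ?_
  ring

theorem D2_poly_2hi {q : ℝ} (ha : 0.694 ≤ q) (hb : q ≤ 0.7927) :
    0 ≤ D2P 0.0195735 0.0188656 0.0887 q := by
  have h1 : 0 ≤ q - 0.694 := by linarith
  have h2 : 0 ≤ 0.7927 - q := by linarith
  have key : 0 ≤ (1226497305427397127374026137879461/623760906064551113416113281250) *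
        ((q - 0.694) ^ 0 * (0.7927 - q) ^ 7) +
      (22313552987083470116487125406246001/1782174017327288895474609375000) *
        ((q - 0.694) ^ 1 * (0.7927 - q) ^ 6) +
      (407513466965931306365579561381933141/11881160115515259303164062500000) *
        ((q - 0.694) ^ 2 * (0.7927 - q) ^ 5) +
      (7535123811171945359778050504912399881/142573921386183111637968750000000) *
        ((q - 0.694) ^ 3 * (0.7927 - q) ^ 4) +
      (142682911295096259634784954837924865221/2851478427723662232759375000000000) *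
        ((q - 0.694) ^ 4 * (0.7927 - q) ^ 3) +
      (2802889432115322440561355950120312708161/95049280924122074425312500000000000) *
        ((q - 0.694) ^ 5 * (0.7927 - q) ^ 2) +
      (57760952956815732399395217409461717867701/5702956855447324465518750000000000000) *
        ((q - 0.694) ^ 6 * (0.7927 - q) ^ 1) +
      (1255133256660479048284627406540295649242841/798413959762625425172625000000000000000) *
        ((q - 0.694) ^ 7 * (0.7927 - q) ^ 0) := by
    positivity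
  unfold D2P Kq
  refine key.trans_eq ?_
  ring

theorem D2_poly_3hi {q : ℝ} (ha : 0.7898 ≤ q) (hb : q ≤ 0.8629) :
    0 ≤ D2P 0.0184284 0.0165659 0.0887 q := by
  have h1 : 0 ≤ q - 0.7898 := by linarith
  have h2 : 0 ≤ 0.8629 - q := by linarith
  have key : 0 ≤ (5472978927410156237909472039932309963491/408463213543760159952392578125000000) *
        ((q - 0.7898) ^ 0 * (0.8629 - q) ^ 7) +
      (64287109764461781821584397637485414497277/816926427087520319904785156250000000) *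
        ((q - 0.7898) ^ 1 * (0.8629 - q) ^ 6) +
      (107026920513909486895487396947129542718917/544617618058346879936523437500000000) *
        ((q - 0.7898) ^ 2 * (0.8629 - q) ^ 5) +
      (178248596849134683693634754830876698625357/653541141670016255923828125000000000) *
        ((q - 0.7898) ^ 3 * (0.8629 - q) ^ 4) +
      (301691599387433260015794986827282919552597/1307082283340032511847656250000000000) *
        ((q - 0.7898) ^ 4 * (0.8629 - q) ^ 3) +
      (532108235154553307362339961366222014356637/4356940944466775039492187500000000000) *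
        ((q - 0.7898) ^ 5 * (0.8629 - q) ^ 2) +
      (336115535246094415111180808989884043271159/8713881888933550078984375000000000000) *
        ((q - 0.7898) ^ 6 * (0.8629 - q) ^ 1) +
      (99973742951035262240099399854490531667577/17427763777867100157968750000000000000) *
        ((q - 0.7898) ^ 7 * (0.8629 - q) ^ 0) := by
    positivity
  unfold D2P Kq
  refine key.trans_eq ?_
  ring

theorem D2_Kq {q : ℝ} (h0 : 0 ≤ q) (hb : q ≤ 1) : Kq q ≤ 0.152 := by
  have h2 : 0 ≤ 1 - q := by linarith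
  have key : 0 ≤ 9 / 7000 * (1 - q) ^ 7 + 9 / 1000 * (q * (1 - q) ^ 6) +
      1667 / 3000 * (q ^ 2 * (1 - q) ^ 5) + 1613 / 600 * (q ^ 3 * (1 - q) ^ 4) +
      667 / 150 * (q ^ 4 * (1 - q) ^ 3) + 399 / 125 * (q ^ 5 * (1 - q) ^ 2) +
      133 / 125 * (q ^ 6 * (1 - q)) + 19 / 125 * q ^ 7 := by
    positivity
  unfold Kq
  refine le_of_sub_nonneg (key.trans_eq ?_)
  ring

/-- One pair of radii. -/
theorem D2_pair {t q g G m1 m2 T1 T2 M0 N : ℝ} (hW : W0 ≤ t ^ 2) (h1 : 1 ≤ t) (htR : t < R)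
    (hq0 : 0 ≤ q) (hq : q ^ 2 * (R ^ 2 - W0) = t ^ 2 - W0) (hg0 : 0 ≤ g) (hgG : g ≤ G)
    (hT : T1 < T2) (hm : m2 ≤ m1) (hm2 : 0 ≤ m2)
    (hM : (m1 - m2) * (T1 - 1.739076) ≤ (M0 - m1) * (T2 - T1))
    (hN : N * (T2 - T1) ≤ (m1 - m2) * 0.253726) (hM0 : 0 ≤ M0) (hM0' : M0 ≤ 0.03)
    (hP : 0 ≤ D2P M0 N G q) (hx1 : (1 - kap t) * T1 ≤ t ^ 3 + bet t)
    (hx2 : t ^ 3 + bet t ≤ (1 - kap t) * T2)
    (hU : π / 3 * bet t * g ≤ 0.8632 * ((1 - kap t) * m2)) :
    ∃ w1 w2, 0 ≤ w1 ∧ 0 ≤ w2 ∧ w1 + w2 = 1 - kap t ∧ w1 * T1 + w2 * T2 ≤ t ^ 3 + bet t ∧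
      2 * (w1 * m1 + w2 * m2) * 1.104 ≤
        2 * π * (bb t RP + kap t / 2 - bet t) + π / 3 * bet t * (1 - g) ∧
      π / 3 * bet t * g ≤ 0.8632 * (w1 * m1 + w2 * m2) := by
  have ht0 : 0 < t := by linarith
  have hκ : 0 ≤ kap t := (tKAP t h1 htR).1
  have hβ : 0 ≤ bet t := (tBET t h1 htR).1
  have hbb := D_bb ht0 (htR.le.trans D_R_RP.le)
  obtain ⟨hq1, hκK⟩ := p_KU p_KEX t q hW h1 htR hq0 hq
  obtain ⟨hβu, -, hX⟩ := p_BQ t q hW h1 htR hq0 hq
  have hK2 := D2_Kq hq0 hq1.le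
  have hK0 := KB2_Kq hq0 hq1.le
  have a1l := D_a1_lo
  have a2l := D_a2_lo
  have a2u := D_a2_hi
  have hb := D_RP_inv
  have hWu := D_W0_hi
  have hAu := D_A_hi
  have ha3 := D_a3
  have hX' : t ^ 3 + bet t = (1 - kap t) * (R * W0) + R * (R ^ 2 - W0) * q ^ 3 := by
    rw [hX]
    ring
  have hβ' : bet t ≤ R * (R ^ 2 - W0) / 2 * ((1 - q) ^ 2 * (1 + 2 * q))
      - 3 * (R ^ 2 - W0) ^ 2 / (8 * R) * (1 - q ^ 2) ^ 2 - kap t * (R * W0) := by
    linarith
  have ht2 : t ^ 2 = W0 + q ^ 2 * (R ^ 2 - W0) := by linarith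
  rw [hbb]
  clear hbb hβu hX hq hW htR h1
  generalize kap t = κ at *
  generalize bet t = β at *
  generalize 3 * (R ^ 2 - W0) ^ 2 / (8 * R) = a3 at *
  generalize R * (R ^ 2 - W0) = a2 at *
  generalize R * W0 = a1 at *
  generalize R ^ 2 - W0 = A at *
  generalize 1 / RP = b at *
  generalize hXd : t ^ 3 + β = X at *
  obtain ⟨k, hk⟩ : ∃ k, k = 1 - κ := ⟨_, rfl⟩
  have hκk : κ = 1 - k := by linarith
  rw [← hk] at hU hx1 hx2 hX'
  rw [← hk]
  have hk0 : 0.99 ≤ k := by linarith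
  have hq3 : 0 ≤ q ^ 3 := by positivity
  have hD : 0 < T2 - T1 := by linarith
  -- the weights
  obtain ⟨w, hw⟩ : ∃ w, w = (X - k * T1) / (T2 - T1) := ⟨_, rfl⟩
  have hwD : w * (T2 - T1) = X - k * T1 := by
    rw [hw, div_mul_cancel₀ _ hD.ne']
  have hw0 : 0 ≤ w := by
    rw [hw]
    exact div_nonneg (by linarith) hD.le
  have hwk : w ≤ k := by
    rw [hw, div_le_iff₀ hD]
    linarith
  have hXl : k * 1.739076 + 0.253726 * q ^ 3 ≤ X := by
    have e1 : k * 1.739076 ≤ k * a1 := mul_le_mul_of_nonneg_left a1l.le (by linarith)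
    have e2 : 0.253726 * q ^ 3 ≤ a2 * q ^ 3 := mul_le_mul_of_nonneg_right a2l.le hq3
    linarith
  obtain ⟨S, hS⟩ : ∃ S, S = k * m1 - (m1 - m2) * w := ⟨_, rfl⟩
  have hSm : k * m2 ≤ S := by
    have : 0 ≤ (m1 - m2) * (k - w) := mul_nonneg (by linarith) (by linarith)
    rw [hS]
    linarith
  have hS0 : 0 ≤ S := le_trans (mul_nonneg (by linarith) hm2) hSm
  have hSM : S ≤ k * M0 - N * q ^ 3 := by
    have e1 : (m1 - m2) * (k * 1.739076 + 0.253726 * q ^ 3) ≤ (m1 - m2) * X :=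
      mul_le_mul_of_nonneg_left hXl (by linarith)
    have e2 := mul_le_mul_of_nonneg_left hM (by linarith : 0 ≤ k)
    have e3 := mul_le_mul_of_nonneg_right hN hq3
    have e4 : (m1 - m2) * w * (T2 - T1) = (m1 - m2) * (X - k * T1) := by
      rw [mul_assoc, hwD]
    refine le_of_mul_le_mul_right ?_ hD
    rw [hS]
    linarith
  have hB : 0.70283 * (k * M0 - N * q ^ 3) ≤
      2 * (k * (33 / 40) + X * b - 3 / 2 * t ^ 2 + κ / 2) - β * ((5 + g) / 3) := by
    have e1 : k * 1.353868 ≤ k * (a1 * b) :=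
      mul_le_mul_of_nonneg_left (by nlinarith) (by linarith)
    have e2 : 0.197525 * q ^ 3 ≤ a2 * b * q ^ 3 :=
      mul_le_mul_of_nonneg_right (by nlinarith) hq3
    have e3 : X * b = k * (a1 * b) + a2 * b * q ^ 3 := by
      rw [hX']
      ring
    have e4 : q ^ 2 * A ≤ q ^ 2 * 0.2016267 := mul_le_mul_of_nonneg_left hAu.le (sq_nonneg q)
    obtain ⟨u, hu⟩ : ∃ u, u = 0.126866 * ((1 - q) ^ 2 * (1 + 2 * q))
      - 0.012114 * (1 - q ^ 2) ^ 2 := ⟨_, rfl⟩
    have e5 : β + κ * a1 ≤ u := by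
      have f1 : a2 / 2 * ((1 - q) ^ 2 * (1 + 2 * q)) ≤
          0.126866 * ((1 - q) ^ 2 * (1 + 2 * q)) :=
        mul_le_mul_of_nonneg_right (by linarith) (by positivity)
      have f2 : 0.012114 * (1 - q ^ 2) ^ 2 ≤ a3 * (1 - q ^ 2) ^ 2 :=
        mul_le_mul_of_nonneg_right ha3.le (sq_nonneg _)
      rw [hu]
      linarith
    have e6 : κ * 1.739076 ≤ κ * a1 := mul_le_mul_of_nonneg_left a1l.le hκ
    have hκ1 : 0 ≤ κ * 1.739076 := by positivity
    have hu0 : 0 ≤ u := by linarith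
    have e7 : β * ((5 + g) / 3) ≤ (u - κ * 1.739076) * ((5 + g) / 3) :=
      mul_le_mul_of_nonneg_right (by linarith) (by positivity)
    have e8 : u * ((5 + g) / 3) ≤ u * ((5 + G) / 3) :=
      mul_le_mul_of_nonneg_left (by linarith) hu0
    have e9 : 0 ≤ κ * 1.739076 * g := mul_nonneg hκ1 hg0
    have e10 : κ * (0.459276 - 0.70283 * M0) ≤ 0.0578 * Kq q * (0.459276 - 0.70283 * M0) :=
      mul_le_mul_of_nonneg_right hκK (by linarith)
    unfold D2P at hP
    rw [← hu] at hP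
    rw [e3, ht2]
    have e11 : (u - κ * 1.739076) * ((5 + g) / 3) = u * ((5 + g) / 3)
      - κ * 1.739076 * 5 / 3 - κ * 1.739076 * g / 3 := by ring
    rw [e11] at e7
    have e12 : k * M0 = M0 - κ * M0 := by
      rw [hk]
      ring
    rw [e12]
    linarith
  have hpi1 := Real.pi_gt_d6
  refine ⟨k - w, w, by linarith, hw0, by ring, ?_, ?_, ?_⟩
  · have e1 : (k - w) * T1 + w * T2 = k * T1 + w * (T2 - T1) := by ring
    rw [e1, hwD]
    linarith
  · have e1 : 2 * π * (k * (33 / 40) + X * b - 3 / 2 * t ^ 2 + κ / 2 - β) +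
        π / 3 * β * (1 - g) = π * (2 * (k * (33 / 40) + X * b - 3 / 2 * t ^ 2 + κ / 2)
          - β * ((5 + g) / 3)) := by ring
    have e2 : 2 * ((k - w) * m1 + w * m2) * 1.104 = 2.208 * S := by
      rw [hS]
      ring
    rw [e1, e2]
    have e3 := mul_le_mul_of_nonneg_left hB Real.pi_pos.le
    have e4 : 3.14159 * (0.70283 * (k * M0 - N * q ^ 3)) ≤ π * (0.70283 * (k * M0 - N * q ^ 3)) :=
      mul_le_mul_of_nonneg_right (by linarith) (by linarith)
    linarith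
  · have e2 : (k - w) * m1 + w * m2 = S := by
      rw [hS]
      ring
    rw [e2]
    linarith

/-- The second inequality. -/
theorem D2_U {β z Z k m g : ℝ} (hβ : β ≤ 0.126866 * z) (hz : z ≤ Z) (hβ0 : 0 ≤ β)
    (hg0 : 0 ≤ g) (hg : g ≤ 0.0887) (hk : 0.99 ≤ k) (hm : 0 ≤ m)
    (h : 0.126866 * 0.0887 * 1.0472 * Z ≤ 0.8632 * (0.99 * m)) :
    π / 3 * β * g ≤ 0.8632 * (k * m) := by
  have h1 : β * g ≤ 0.126866 * Z * 0.0887 := by
    have : β ≤ 0.126866 * Z := by linarith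
    exact mul_le_mul this hg hg0 (by linarith)
  have h0 : 0 ≤ 0.126866 * Z * 0.0887 := le_trans (mul_nonneg hβ0 hg0) h1
  have h2 : π * (β * g) ≤ 3.1416 * (0.126866 * Z * 0.0887) :=
    mul_le_mul (by linarith [Real.pi_lt_d4]) h1 (mul_nonneg hβ0 hg0) (by norm_num)
  have h3 : 0.99 * m ≤ k * m := mul_le_mul_of_nonneg_right hk hm
  linarith

theorem D2_z {a q : ℝ} (h : a ≤ q) (hq : q ≤ 1) :
    (1 - q) ^ 2 * (1 + 2 * q) ≤ 3 * (1 - a) ^ 2 := by
  have h1 : (1 - q) ^ 2 ≤ (1 - a) ^ 2 := pow_le_pow_left₀ (by linarith) (by linarith) 2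
  have h2 : (1 - q) ^ 2 * (1 + 2 * q) ≤ (1 - q) ^ 2 * 3 :=
    mul_le_mul_of_nonneg_left (by linarith) (sq_nonneg _)
  linarith

/-- A lower bound of `q`. -/
theorem D2_q_ge {X k a1 a2 q a T : ℝ} (hX : X = k * a1 + a2 * q ^ 3) (hx : k * T ≤ X)
    (hk : 0.99 ≤ k) (h1 : a1 < 1.73908) (h2 : a2 < 0.253732) (hT : 1.73908 ≤ T) (hq0 : 0 ≤ q)
    (h : 0.253732 * a ^ 3 < 0.99 * (T - 1.73908)) : a ≤ q := by
  by_contra hcon
  push Not at hcon
  have e1 : q ^ 3 ≤ a ^ 3 := pow_le_pow_left₀ hq0 hcon.le 3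
  have e2 : a2 * q ^ 3 ≤ 0.253732 * q ^ 3 := mul_le_mul_of_nonneg_right h2.le (by positivity)
  have e3 : 0.99 * (T - 1.73908) ≤ k * (T - 1.73908) :=
    mul_le_mul_of_nonneg_right hk (by linarith)
  have e4 : k * a1 ≤ k * 1.73908 := mul_le_mul_of_nonneg_left h1.le (by linarith)
  linarith

/-- An upper bound of `q`. -/
theorem D2_q_le {X k a1 a2 q a T : ℝ} (hX : X = k * a1 + a2 * q ^ 3) (hx : X ≤ k * T)
    (hk : 0.99 ≤ k) (hk1 : k ≤ 1) (h1 : 1.739076 < a1) (h2 : 0.253726 < a2)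
    (hT : 1.739076 ≤ T) (ha : 0 ≤ a)
    (h : T - 1.739076 < 0.253726 * a ^ 3) : q ≤ a := by
  by_contra hcon
  push Not at hcon
  have e1 : a ^ 3 ≤ q ^ 3 := pow_le_pow_left₀ ha hcon.le 3
  have e0 : 0 ≤ a ^ 3 := by positivity
  have e2 : 0.253726 * q ^ 3 ≤ a2 * q ^ 3 := mul_le_mul_of_nonneg_right h2.le (by linarith)
  have e3 : k * (T - 1.739076) ≤ 1 * (T - 1.739076) :=
    mul_le_mul_of_nonneg_right hk1 (by linarith)
  have e4 : k * 1.739076 ≤ k * a1 := mul_le_mul_of_nonneg_left h1.le (by linarith)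
  linarith

theorem p6_D2 (t : ℝ) (hW : W0 ≤ t ^ 2) (ht1 : 1 ≤ t) (ht : t ≤ 1.2355) :
    ∃ th1 m1 th2 m2 w1 w2 : ℝ,
      ((th1 = 1.2025 ∧ m1 = 0.0209 ∧ th2 = 1.212 ∧ m2 = 0.01695) ∨
        (th1 = 1.212 ∧ m1 = 0.01695 ∧ th2 = 1.222 ∧ m2 = 0.0132) ∨
        (th1 = 1.222 ∧ m1 = 0.0132 ∧ th2 = 1.231 ∧ m2 = 0.01018) ∨
        (th1 = 1.231 ∧ m1 = 0.01018 ∧ th2 = 1.239 ∧ m2 = 0.00779)) ∧
      0 ≤ w1 ∧ 0 ≤ w2 ∧ w1 + w2 = 1 - kap t ∧ w1 * th1 ^ 3 + w2 * th2 ^ 3 ≤ t ^ 3 + bet t ∧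
      2 * (w1 * m1 + w2 * m2) * 1.104 ≤ 2 * π * (bb t RP + kap t / 2 - bet t) +
        π / 3 * bet t * (1 - if t < 1.21 then 1.2 * (t - 1.151) else 0.0887) ∧
      π / 3 * bet t * (if t < 1.21 then 1.2 * (t - 1.151) else 0.0887) ≤
        0.8632 * (w1 * m1 + w2 * m2) := by
  have htR : t < R := by linarith [R_lo']
  have ht0 : 0 < t := by linarith
  have hA : 0 < R ^ 2 - W0 := by linarith [W0_lt]
  have hWl := D_W0_lo
  have hWu := D_W0_hi
  have hAl := D_A_lo
  have hAu := D_A_hi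
  have htl : 1.151 ≤ t := by nlinarith
  have hr : 0 ≤ (t ^ 2 - W0) / (R ^ 2 - W0) := div_nonneg (by linarith) hA.le
  obtain ⟨q, hq0, hq⟩ : ∃ q : ℝ, 0 ≤ q ∧ q ^ 2 * (R ^ 2 - W0) = t ^ 2 - W0 :=
    ⟨√((t ^ 2 - W0) / (R ^ 2 - W0)), Real.sqrt_nonneg _, by
      rw [Real.sq_sqrt hr, div_mul_cancel₀ _ hA.ne']⟩
  have hκ : 0 ≤ kap t := (tKAP t ht1 htR).1
  have hβ : 0 ≤ bet t := (tBET t ht1 htR).1
  obtain ⟨hq1, hκK⟩ := p_KU p_KEX t q hW ht1 htR hq0 hq
  obtain ⟨hβu, -, hX⟩ := p_BQ t q hW ht1 htR hq0 hq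
  have hK2 := D2_Kq hq0 hq1.le
  have hX' : t ^ 3 + bet t = (1 - kap t) * (R * W0) + R * (R ^ 2 - W0) * q ^ 3 := by
    rw [hX]
    ring
  have hk : 0.99 ≤ 1 - kap t := by linarith
  have hk1 : 1 - kap t ≤ 1 := by linarith
  have hz : bet t ≤ 0.126866 * ((1 - q) ^ 2 * (1 + 2 * q)) := by
    have e1 : R * (R ^ 2 - W0) / 2 * ((1 - q) ^ 2 * (1 + 2 * q)) ≤
        0.126866 * ((1 - q) ^ 2 * (1 + 2 * q)) :=
      mul_le_mul_of_nonneg_right (by linarith [D_a2_hi]) (by positivity)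
    have e2 : 0 ≤ 3 * (R ^ 2 - W0) ^ 2 / (8 * R) * (1 - q ^ 2) ^ 2 := by
      have := R_pos
      positivity
    have e3 : 0 ≤ kap t * R * W0 := by
      have := R_pos
      have : 0 < W0 := by linarith
      positivity
    linarith
  obtain ⟨g, hg⟩ : ∃ g : ℝ, g = if t < 1.21 then 1.2 * (t - 1.151) else 0.0887 := ⟨_, rfl⟩
  rw [← hg]
  have hg0 : 0 ≤ g := by
    rw [hg]
    split_ifs <;> linarith
  have hg1 : g ≤ 0.0887 := by
    rw [hg]
    split_ifs <;> linarith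
  have hglo : g ≤ 0.02959 + 0.101661 * q ^ 2 ∨ 0.638 ≤ q := by
    rcases lt_or_ge t 1.21 with h | h
    · left
      rw [hg, if_pos h]
      have e1 : q ^ 2 * (R ^ 2 - W0) ≤ q ^ 2 * 0.2016267 :=
        mul_le_mul_of_nonneg_left hAu.le (sq_nonneg q)
      nlinarith [sq_nonneg (t - 1.19)]
    · right
      by_contra hcon
      push Not at hcon
      have e1 : q ^ 2 ≤ 0.638 ^ 2 := pow_le_pow_left₀ hq0 hcon.le 2
      have e2 : q ^ 2 * (R ^ 2 - W0) ≤ 0.638 ^ 2 * 0.2016267 :=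
        mul_le_mul e1 hAu.le hA.le (by norm_num)
      nlinarith
  have hlt : 0.6385 ≤ q → 1.21 ≤ t := by
    intro h
    by_contra hcon
    push Not at hcon
    have e1 : (0.6385 : ℝ) ^ 2 ≤ q ^ 2 := pow_le_pow_left₀ (by norm_num) h 2
    have e2 : (0.6385 : ℝ) ^ 2 * 0.2016259 ≤ q ^ 2 * (R ^ 2 - W0) :=
      mul_le_mul e1 hAl.le (by norm_num) (sq_nonneg q)
    nlinarith
  have a1l := D_a1_lo
  have a1u := D_a1_hi
  have a2l := D_a2_lo
  have a2u := D_a2_hi
  rcases le_total (t ^ 3 + bet t) ((1 - kap t) * 1.212 ^ 3) with c1 | c1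
  · have hqu : q ≤ 0.546 := D2_q_le hX' c1 hk hk1 a1l a2l (by norm_num) (by norm_num)
      (by norm_num)
    have hG : g ≤ 0.02959 + 0.101661 * q ^ 2 := by
      rcases hglo with h | h
      · exact h
      · linarith
    have hx1 : (1 - kap t) * 1.2025 ^ 3 ≤ t ^ 3 + bet t := by
      have e1 : (1 - kap t) * 1.2025 ^ 3 ≤ (1 - kap t) * (R * W0) :=
        mul_le_mul_of_nonneg_left (by norm_num; linarith) (by linarith)
      have e2 : 0 ≤ R * (R ^ 2 - W0) * q ^ 3 := by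
        have := R_pos
        positivity
      linarith
    have hZ : (1 - q) ^ 2 * (1 + 2 * q) ≤ 1 := by
      have e1 : 0 ≤ q ^ 2 * (1 - q) := mul_nonneg (sq_nonneg q) (by linarith)
      nlinarith [sq_nonneg q]
    have hU : π / 3 * bet t * g ≤ 0.8632 * ((1 - kap t) * 0.01695) :=
      D2_U (Z := 1) hz hZ hβ hg0 hg1 hk (by norm_num) (by norm_num)
    obtain ⟨w1, w2, h⟩ := D2_pair (m1 := 0.0209) (m2 := 0.01695) (T1 := 1.2025 ^ 3)
      (T2 := 1.212 ^ 3) (M0 := 0.0208759) (N := 0.0241279) hW ht1 htR hq0 hq hg0 hG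
      (by norm_num) (by norm_num) (by norm_num) (by norm_num) (by norm_num) (by norm_num)
      (by norm_num) (D2_poly_0lo hq0 hqu) hx1 c1 hU
    exact ⟨_, _, _, _, w1, w2, Or.inl ⟨rfl, rfl, rfl, rfl⟩, h⟩
  rcases le_total (t ^ 3 + bet t) ((1 - kap t) * 1.222 ^ 3) with c2 | c2
  · have hql : 0.544 ≤ q := D2_q_ge hX' c1 hk a1u a2u (by norm_num) hq0 (by norm_num)
    have hqu : q ≤ 0.6966 := D2_q_le hX' c2 hk hk1 a1l a2l (by norm_num) (by norm_num)
      (by norm_num)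
    have hZ : (1 - q) ^ 2 * (1 + 2 * q) ≤ 0.63 :=
      (D2_z hql hq1.le).trans (by norm_num)
    have hU : π / 3 * bet t * g ≤ 0.8632 * ((1 - kap t) * 0.0132) :=
      D2_U (Z := 0.63) hz hZ hβ hg0 hg1 hk (by norm_num) (by norm_num)
    rcases le_total q 0.6385 with hc | hc
    · rcases hglo with hG | hG
      · obtain ⟨w1, w2, h⟩ := D2_pair (m1 := 0.01695) (m2 := 0.0132) (T1 := 1.212 ^ 3)
          (T2 := 1.222 ^ 3) (M0 := 0.0204343) (N := 0.0214136) hW ht1 htR hq0 hq hg0 hG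
          (by norm_num) (by norm_num) (by norm_num) (by norm_num) (by norm_num) (by norm_num)
          (by norm_num) (D2_poly_1lo hql hc) c1 c2 hU
        exact ⟨_, _, _, _, w1, w2, Or.inr (Or.inl ⟨rfl, rfl, rfl, rfl⟩), h⟩
      · obtain ⟨w1, w2, h⟩ := D2_pair (m1 := 0.01695) (m2 := 0.0132) (T1 := 1.212 ^ 3)
          (T2 := 1.222 ^ 3) (M0 := 0.0204343) (N := 0.0214136) hW ht1 htR hq0 hq hg0 hg1
          (by norm_num) (by norm_num) (by norm_num) (by norm_num) (by norm_num) (by norm_num)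
          (by norm_num) (D2_poly_1hi hG (by linarith)) c1 c2 hU
        exact ⟨_, _, _, _, w1, w2, Or.inr (Or.inl ⟨rfl, rfl, rfl, rfl⟩), h⟩
    · obtain ⟨w1, w2, h⟩ := D2_pair (m1 := 0.01695) (m2 := 0.0132) (T1 := 1.212 ^ 3)
          (T2 := 1.222 ^ 3) (M0 := 0.0204343) (N := 0.0214136) hW ht1 htR hq0 hq hg0 hg1
          (by norm_num) (by norm_num) (by norm_num) (by norm_num) (by norm_num) (by norm_num)
          (by norm_num) (D2_poly_1hi (by linarith) hqu) c1 c2 hU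
      exact ⟨_, _, _, _, w1, w2, Or.inr (Or.inl ⟨rfl, rfl, rfl, rfl⟩), h⟩
  rcases le_total (t ^ 3 + bet t) ((1 - kap t) * 1.231 ^ 3) with c3 | c3
  · have hql : 0.694 ≤ q := D2_q_ge hX' c2 hk a1u a2u (by norm_num) hq0 (by norm_num)
    have hqu : q ≤ 0.7927 := D2_q_le hX' c3 hk hk1 a1l a2l (by norm_num) (by norm_num)
      (by norm_num)
    have hZ : (1 - q) ^ 2 * (1 + 2 * q) ≤ 0.3 :=
      (D2_z hql hq1.le).trans (by norm_num)
    have hU : π / 3 * bet t * g ≤ 0.8632 * ((1 - kap t) * 0.01018) :=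
      D2_U (Z := 0.3) hz hZ hβ hg0 hg1 hk (by norm_num) (by norm_num)
    obtain ⟨w1, w2, h⟩ := D2_pair (m1 := 0.0132) (m2 := 0.01018) (T1 := 1.222 ^ 3)
      (T2 := 1.231 ^ 3) (M0 := 0.0195735) (N := 0.0188656) hW ht1 htR hq0 hq hg0 hg1
      (by norm_num) (by norm_num) (by norm_num) (by norm_num) (by norm_num) (by norm_num)
      (by norm_num) (D2_poly_2hi hql hqu) c2 c3 hU
    exact ⟨_, _, _, _, w1, w2, Or.inr (Or.inr (Or.inl ⟨rfl, rfl, rfl, rfl⟩)), h⟩
  · have hql : 0.7898 ≤ q := D2_q_ge hX' c3 hk a1u a2u (by norm_num) hq0 (by norm_num)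
    have hqu : q ≤ 0.847 := by
      by_contra hcon
      push Not at hcon
      have e1 : (0.847 : ℝ) ^ 2 ≤ q ^ 2 := pow_le_pow_left₀ (by norm_num) hcon.le 2
      have e2 : (0.847 : ℝ) ^ 2 * 0.2016259 ≤ q ^ 2 * (R ^ 2 - W0) :=
        mul_le_mul e1 hAl.le (by norm_num) (sq_nonneg q)
      nlinarith
    have c4 : t ^ 3 + bet t ≤ (1 - kap t) * 1.239 ^ 3 := by
      have e1 : q ^ 3 ≤ 0.847 ^ 3 := pow_le_pow_left₀ hq0 hqu 3
      have e2 : R * (R ^ 2 - W0) * q ^ 3 ≤ 0.253732 * 0.847 ^ 3 :=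
        mul_le_mul a2u.le e1 (by positivity) (by norm_num)
      have e3 : 0.99 * (1.239 ^ 3 - 1.73908) ≤ (1 - kap t) * (1.239 ^ 3 - 1.73908) :=
        mul_le_mul_of_nonneg_right hk (by norm_num)
      have e4 : (1 - kap t) * (R * W0) ≤ (1 - kap t) * 1.73908 :=
        mul_le_mul_of_nonneg_left a1u.le (by linarith)
      norm_num at e2 e3 ⊢
      linarith
    have hZ : (1 - q) ^ 2 * (1 + 2 * q) ≤ 0.14 :=
      (D2_z hql hq1.le).trans (by norm_num)
    have hU : π / 3 * bet t * g ≤ 0.8632 * ((1 - kap t) * 0.00779) :=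
      D2_U (Z := 0.14) hz hZ hβ hg0 hg1 hk (by norm_num) (by norm_num)
    obtain ⟨w1, w2, h⟩ := D2_pair (m1 := 0.01018) (m2 := 0.00779) (T1 := 1.231 ^ 3)
      (T2 := 1.239 ^ 3) (M0 := 0.0184284) (N := 0.0165659) hW ht1 htR hq0 hq hg0 hg1
      (by norm_num) (by norm_num) (by norm_num) (by norm_num) (by norm_num) (by norm_num)
      (by norm_num) (D2_poly_3hi hql (by linarith)) c3 c4 hU
    exact ⟨_, _, _, _, w1, w2, Or.inr (Or.inr (Or.inr ⟨rfl, rfl, rfl, rfl⟩)), h⟩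

end Pool.Agent.SDL
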