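import Pool.Agent.SDL.Targets3
import Pool.Agent.SDL.P_SIX
import Pool.Agent.SDL.P_ARC
import Pool.Agent.SDL.P_DMN
import Pool.Agent.SDL.P_TG
import Pool.Agent.SDL.PosDeg

set_option autoImplicit false

/-!
# SDL: facets with at least six sides in the ball of radius `RP`
-/

open MeasureTheory Set Real
open scoped RealInnerProductSpace

namespace Pool.Agent.SDL

open Pool.Agent.SDC

/-- The letters of one neighbour: `s² = 4 p² (1 - α²)`, `0 < s`. -/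
private theorem G6_s {p α : ℝ} (hp : 1 ≤ p) (hα : α ^ 2 < 1) :
    0 < 2 * p * √(1 - α ^ 2) ∧ (2 * p * √(1 - α ^ 2)) ^ 2 = 4 * p ^ 2 * (1 - α ^ 2) := by
  have h1 : 0 < √(1 - α ^ 2) := Real.sqrt_pos.mpr (by linarith)
  refine ⟨by positivity, ?_⟩
  rw [mul_pow, Real.sq_sqrt (by linarith)]
  ring

/-- `Dq s² = h² s² + P²`. -/
private theorem G6_Dq {h p α : ℝ} (hα : α ^ 2 < 1) :
    Dq h p α * (4 * p ^ 2 * (1 - α ^ 2)) =
      h ^ 2 * (4 * p ^ 2 * (1 - α ^ 2)) + (2 * p ^ 2 - 2 * h * p * α) ^ 2 := by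
  have h1 : 1 - α ^ 2 ≠ 0 := by
    intro h2
    linarith
  have h3 : Dq h p α * (1 - α ^ 2) = h ^ 2 + p ^ 2 - 2 * h * p * α := by
    unfold Dq
    exact div_mul_cancel₀ _ h1
  have h4 : Dq h p α * (4 * p ^ 2 * (1 - α ^ 2)) = 4 * p ^ 2 * (Dq h p α * (1 - α ^ 2)) := by
    ring
  rw [h4, h3]
  ring

/-- `|X| ≤ a`. -/
private theorem G6_X {h p α : ℝ} (hp : 1 ≤ p) (H : 1 ≤ h ^ 2 + p ^ 2 - 2 * h * p * α) :
    |2 * h * p * α - h ^ 2| ≤ 2 * p ^ 2 - 2 * h * p * α - 2 + h ^ 2 := by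
  rw [abs_le]
  constructor
  · nlinarith
  · linarith

/-- `((a + h²)/h)² ≤ (Dq - 1) s²`. -/
private theorem G6_side {h p α : ℝ} (hh : 1 ≤ h) (hp : 1 ≤ p) (hα : α ^ 2 < 1)
    (H : 1 ≤ h ^ 2 + p ^ 2 - 2 * h * p * α) :
    ((2 * p ^ 2 - 2 * h * p * α - 2 + 2 * h ^ 2) / h) ^ 2 ≤
      (Dq h p α - 1) * (4 * p ^ 2 * (1 - α ^ 2)) := by
  have h0 : 0 < h := by linarith
  have hX := G6_X hp H
  have hX2 : (2 * h * p * α - h ^ 2) ^ 2 ≤ (2 * p ^ 2 - 2 * h * p * α - 2 + h ^ 2) ^ 2 :=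
    sq_le_sq' (by linarith [(abs_le.mp hX).1]) (abs_le.mp hX).2
  rw [sub_mul, G6_Dq hα, div_pow, div_le_iff₀ (by positivity)]
  have h3 : 0 ≤ (h ^ 2 - 1) * ((2 * p ^ 2 - 2 * h * p * α - 2 + h ^ 2) ^ 2 -
      (2 * h * p * α - h ^ 2) ^ 2) := by
    apply mul_nonneg
    · nlinarith
    · linarith
  nlinarith [h3]

/-- `s ≤ 2.0908` if `Dq < RP²`. -/
private theorem G6_sle {h p α : ℝ} (hh : 1 ≤ h) (hR : h < RO) (hp : 1 ≤ p) (hα : α ^ 2 < 1)
    (H : 1 ≤ h ^ 2 + p ^ 2 - 2 * h * p * α) (hD : Dq h p α < RP ^ 2) :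
    2 * p * √(1 - α ^ 2) ≤ 2.0908 := by
  obtain ⟨hs0, hs2⟩ := G6_s hp hα
  have hDq := G6_Dq (h := h) (p := p) hα
  rw [← hs2] at hDq
  generalize 2 * p * √(1 - α ^ 2) = s at *
  have h0 : 0 < h := by linarith
  have hh2 : h ^ 2 < 13 / 8 := by
    rw [← RO_sq]
    nlinarith
  have hX := G6_X hp H
  have hP : 0 < 2 * p ^ 2 - 2 * h * p * α := by
    have := abs_nonneg (2 * h * p * α - h ^ 2)
    linarith
  obtain ⟨A, hA⟩ : ∃ A, A = (2 * p ^ 2 - 2 * h * p * α) / s := ⟨_, rfl⟩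
  have hA0 : 0 < A := by
    rw [hA]
    positivity
  have hAs : A * s = 2 * p ^ 2 - 2 * h * p * α := by
    rw [hA]
    exact div_mul_cancel₀ _ hs0.ne'
  have hs20 : s ^ 2 ≠ 0 := by positivity
  have hDA : Dq h p α = h ^ 2 + A ^ 2 := by
    apply mul_right_cancel₀ hs20
    rw [hDq, ← hAs]
    ring
  have hsA : (s - A) ^ 2 ≤ Dq h p α := by
    have e1 : (s - A) ^ 2 + (2 * p * α - h) ^ 2 = h ^ 2 + A ^ 2 := by
      have e2 : (s - A) ^ 2 = s ^ 2 - 2 * (A * s) + A ^ 2 := by ring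
      rw [e2, hAs, hs2]
      ring
    rw [hDA, ← e1]
    linarith [sq_nonneg (2 * p * α - h)]
  rw [RP_sq] at hD
  have h5 : A < 0.80626 := by
    apply lt_of_pow_lt_pow_left₀ 2 (by norm_num)
    nlinarith
  have h7 : s - A < 1.28453 := by
    apply lt_of_pow_lt_pow_left₀ 2 (by norm_num)
    have : (33 / 20 : ℝ) < 1.28453 ^ 2 := by norm_num
    linarith
  linarith

/-- The main inequality. -/
private theorem G6_main {h p q α β δ : ℝ} (hh : 1 ≤ h) (hp : 1 ≤ p) (hq : 1 ≤ q)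
    (hα : α ^ 2 < 1) (hβ : β ^ 2 < 1) (H1 : 1 ≤ h ^ 2 + p ^ 2 - 2 * h * p * α)
    (H2 : 1 ≤ h ^ 2 + q ^ 2 - 2 * h * q * β) (H3 : 1 ≤ p ^ 2 + q ^ 2 - 2 * p * q * δ) :
    4 * p * q * (δ - α * β) ≤ ((Dq h p α + Dq h q β) / 2 - 1) *
      ((2 * p * √(1 - α ^ 2)) * (2 * q * √(1 - β ^ 2))) - 2 * (h ^ 2 - 1) := by
  have h0 : 0 < h := by linarith
  obtain ⟨hs0, hs2⟩ := G6_s hp hα
  obtain ⟨ht0, ht2⟩ := G6_s hq hβ
  have hu := G6_side hh hp hα H1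
  have hv := G6_side hh hq hβ H2
  rw [← hs2] at hu
  rw [← ht2] at hv
  have hX := G6_X hp H1
  have hY := G6_X hq H2
  have hXY : -((2 * h * p * α - h ^ 2) * (2 * h * q * β - h ^ 2)) ≤
      (2 * p ^ 2 - 2 * h * p * α - 2 + h ^ 2) * (2 * q ^ 2 - 2 * h * q * β - 2 + h ^ 2) := by
    have h1 := mul_le_mul hX hY (abs_nonneg _) ((abs_nonneg _).trans hX)
    rw [← abs_mul] at h1
    exact (neg_le_abs _).trans h1
  have hu0 : 0 ≤ (2 * p ^ 2 - 2 * h * p * α - 2 + 2 * h ^ 2) / h := by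
    apply div_nonneg _ h0.le
    have := (abs_nonneg _).trans hX
    nlinarith
  have hv0 : 0 ≤ (2 * q ^ 2 - 2 * h * q * β - 2 + 2 * h ^ 2) / h := by
    apply div_nonneg _ h0.le
    have := (abs_nonneg _).trans hY
    nlinarith
  have huv : (2 * p ^ 2 - 2 * h * p * α - 2 + 2 * h ^ 2) / h *
      ((2 * q ^ 2 - 2 * h * q * β - 2 + 2 * h ^ 2) / h) =
      ((2 * p ^ 2 - 2 * h * p * α - 2 + h ^ 2) * (2 * q ^ 2 - 2 * h * q * β - 2 + h ^ 2)) / h ^ 2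
        + (2 * p ^ 2 - 2 * h * p * α - 2 + h ^ 2) + (2 * q ^ 2 - 2 * h * q * β - 2 + h ^ 2)
        + h ^ 2 := by
    field_simp
    ring
  have hlow : 4 * p * q * (δ - α * β) ≤ (2 * p ^ 2 - 2 * h * p * α - 2 + 2 * h ^ 2) / h *
      ((2 * q ^ 2 - 2 * h * q * β - 2 + 2 * h ^ 2) / h) - 2 * (h ^ 2 - 1) := by
    rw [huv]
    have h1 : -((2 * h * p * α - h ^ 2) * (2 * h * q * β - h ^ 2)) / h ^ 2 ≤
        ((2 * p ^ 2 - 2 * h * p * α - 2 + h ^ 2) *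
          (2 * q ^ 2 - 2 * h * q * β - 2 + h ^ 2)) / h ^ 2 :=
      div_le_div_of_nonneg_right hXY (by positivity)
    have h2 : -((2 * h * p * α - h ^ 2) * (2 * h * q * β - h ^ 2)) / h ^ 2 =
        -(4 * p * q * (α * β)) + 2 * h * p * α + 2 * h * q * β - h ^ 2 := by
      field_simp
      ring
    rw [h2] at h1
    linarith
  refine hlow.trans ?_
  generalize 2 * p * √(1 - α ^ 2) = s at *
  generalize 2 * q * √(1 - β ^ 2) = t at *
  generalize (2 * p ^ 2 - 2 * h * p * α - 2 + 2 * h ^ 2) / h = u at *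
  generalize (2 * q ^ 2 - 2 * h * q * β - 2 + 2 * h ^ 2) / h = v at *
  generalize Dq h p α = D at *
  generalize Dq h q β = D' at *
  have hD : 0 ≤ D - 1 := by
    by_contra h1
    push Not at h1
    have : (D - 1) * s ^ 2 < 0 := mul_neg_of_neg_of_pos h1 (by positivity)
    nlinarith [sq_nonneg u]
  have hD' : 0 ≤ D' - 1 := by
    by_contra h1
    push Not at h1
    have : (D' - 1) * t ^ 2 < 0 := mul_neg_of_neg_of_pos h1 (by positivity)
    nlinarith [sq_nonneg v]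
  have h2 : (u * v) ^ 2 ≤ (((D + D') / 2 - 1) * (s * t)) ^ 2 := by
    have h3 := mul_le_mul hu hv (sq_nonneg v) (by positivity)
    have h4 : (D - 1) * (D' - 1) ≤ ((D + D') / 2 - 1) ^ 2 := by
      nlinarith [sq_nonneg (D - D')]
    have h5 := mul_le_mul_of_nonneg_right h4 (sq_nonneg (s * t))
    calc (u * v) ^ 2 = u ^ 2 * v ^ 2 := by ring
      _ ≤ (D - 1) * s ^ 2 * ((D' - 1) * t ^ 2) := h3
      _ = (D - 1) * (D' - 1) * (s * t) ^ 2 := by ring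
      _ ≤ ((D + D') / 2 - 1) ^ 2 * (s * t) ^ 2 := h5
      _ = (((D + D') / 2 - 1) * (s * t)) ^ 2 := by ring
  have h6 : 0 ≤ ((D + D') / 2 - 1) * (s * t) := by
    apply mul_nonneg
    · linarith
    · positivity
  have h7 : u * v ≤ ((D + D') / 2 - 1) * (s * t) := le_of_sq_le_sq h2 h6
  linarith

/-- GAP for the radius `RP`. -/
theorem p6_GAP {h p q α β δ : ℝ} (hh : 1 ≤ h) (hR : h < RO) (hp : 1 ≤ p) (hq : 1 ≤ q)
    (hα : α ^ 2 < 1) (hβ : β ^ 2 < 1) (H1 : 1 ≤ h ^ 2 + p ^ 2 - 2 * h * p * α)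
    (H2 : 1 ≤ h ^ 2 + q ^ 2 - 2 * h * q * β) (H3 : 1 ≤ p ^ 2 + q ^ 2 - 2 * p * q * δ)
    (hD : Dq h p α < RP ^ 2) (hD' : Dq h q β < RP ^ 2) :
    δ - α * β ≤ √(1 - α ^ 2) * √(1 - β ^ 2) *
      ((Dq h p α + Dq h q β) / 2 - 1 - 0.457 * (h ^ 2 - 1)) := by
  have hm := G6_main hh hp hq hα hβ H1 H2 H3
  have hpq : 0 < 4 * p * q := by positivity
  have e1 : (2 * p * √(1 - α ^ 2)) * (2 * q * √(1 - β ^ 2)) =
      4 * p * q * (√(1 - α ^ 2) * √(1 - β ^ 2)) := by ring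
  have hh2 : 0 ≤ h ^ 2 - 1 := by nlinarith
  have h1 := G6_sle hh hR hp hα H1 hD
  have h2 := G6_sle hh hR hq hβ H2 hD'
  have h3 := (G6_s hp hα).1
  have h4 := (G6_s hq hβ).1
  have h5 : (2 * p * √(1 - α ^ 2)) * (2 * q * √(1 - β ^ 2)) ≤ 2.0908 * 2.0908 :=
    mul_le_mul h1 h2 h4.le (by norm_num)
  have h6 := mul_le_mul_of_nonneg_left h5 hh2
  apply le_of_mul_le_mul_left _ hpq
  have e2 : 4 * p * q * (√(1 - α ^ 2) * √(1 - β ^ 2) *
      ((Dq h p α + Dq h q β) / 2 - 1 - 0.457 * (h ^ 2 - 1))) =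
      ((Dq h p α + Dq h q β) / 2 - 1) *
        ((2 * p * √(1 - α ^ 2)) * (2 * q * √(1 - β ^ 2))) -
      0.457 * ((h ^ 2 - 1) * ((2 * p * √(1 - α ^ 2)) * (2 * q * √(1 - β ^ 2)))) := by
    ring
  rw [e2]
  refine hm.trans ?_
  have h7 : 0.457 * ((h ^ 2 - 1) * ((2 * p * √(1 - α ^ 2)) * (2 * q * √(1 - β ^ 2)))) ≤
      2 * (h ^ 2 - 1) := by
    nlinarith
  linarith

/-! ## Numbers -/

theorem p6_c39 : (0.65 : ℝ) ≤ cos (π / 3 + 0.472 * (0 - 0.39)) := by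
  have h := TG_rhs (0.472 * (0 - 0.39)) (by rw [abs_le]; constructor <;> norm_num)
  norm_num at h ⊢
  linarith

theorem p6_c46 : (0.65 : ℝ) ≤ cos (π / 3 + 0.577 * (0 - 0.465)) := by
  have h := TG_rhs (0.577 * (0 - 0.465)) (by rw [abs_le]; constructor <;> norm_num)
  norm_num at h ⊢
  linarith

theorem p6_c76 : cos (0.76 : ℝ) ≤ 0.727 := by
  have h := TG_cos 0.76 (by norm_num) (by norm_num)
  norm_num at h ⊢
  linarith

/-- A side beyond the radius. -/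
theorem p6_far {z lam ψ0 : ℝ} (hz : z ≤ 0.65) (h0 : 0 ≤ π / 3 + lam * (0 - ψ0))
    (h1 : π / 3 + lam * (0 - ψ0) ≤ π) (hc : 0.65 ≤ cos (π / 3 + lam * (0 - ψ0))) :
    π / 3 + lam * (0 - ψ0) ≤ arccos z := by
  rw [← Real.arccos_cos h0 h1]
  exact Real.arccos_le_arccos (hz.trans hc)

/-- The bound of the angle of a side, radius `R`. -/
theorem p6_oneR {y D C ψ : ℝ} (hy : 1 ≤ y) (hyQ : y < R ^ 2)
    (hD : 4 - 4 * y + y ^ 2 ≤ (D - y) * (4 - y)) (hy4 : y < 4)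
    (hC : (R ^ 2 - y) * C = D - y) (hψ : cos ψ ^ 2 = C) (hψ0 : 0 ≤ ψ) (hψπ : ψ ≤ π / 2) :
    π / 3 + 0.472 * (ψ - 0.39) ≤ arccos (D - 1 - 0.457 * (y - 1)) := by
  have hπ3 := Real.pi_gt_three
  have hπ4 := Real.pi_lt_four
  have hQ : 0 < R ^ 2 - y := by linarith
  have h4 : 0 < 4 - y := by linarith
  have hlo := R_sq_lo
  have hhi := R_sq_hi
  have hC543 : 0.543 ≤ C := by
    have h1 : 0.543 * ((R ^ 2 - y) * (4 - y)) ≤ ((R ^ 2 - y) * C) * (4 - y) := by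
      rw [hC]
      nlinarith [sq_nonneg (y - 1)]
    by_contra hcon
    push Not at hcon
    have h2 : 0 < (R ^ 2 - y) * (4 - y) := mul_pos hQ h4
    nlinarith
  have hψ8 : ψ ≤ 0.8 := by
    by_contra hcon
    push Not at hcon
    have h1 : cos ψ ≤ cos 0.8 := by
      apply Real.cos_le_cos_of_nonneg_of_le_pi (by norm_num) (by linarith) hcon.le
    have h2 : 0 ≤ cos ψ := Real.cos_nonneg_of_mem_Icc ⟨by linarith, hψπ⟩
    have h3 := six_c8
    have h4 : cos ψ ^ 2 ≤ 0.49 := by nlinarith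
    rw [hψ] at h4
    linarith
  have ht := (p_TG ψ hψ0 hψ8).1
  rw [hψ] at ht
  have hz : D - 1 - 0.457 * (y - 1) ≤ (R ^ 2 - 1) * C := by
    have : D = y + (R ^ 2 - y) * C := by linarith
    rw [this]
    nlinarith
  have hx0 : 0 ≤ π / 3 + 0.472 * (ψ - 0.39) := by nlinarith
  have hxπ : π / 3 + 0.472 * (ψ - 0.39) ≤ π := by nlinarith
  calc π / 3 + 0.472 * (ψ - 0.39) = arccos (cos (π / 3 + 0.472 * (ψ - 0.39))) :=
        (Real.arccos_cos hx0 hxπ).symm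
    _ ≤ arccos (D - 1 - 0.457 * (y - 1)) := Real.arccos_le_arccos (hz.trans ht)

/-- The bound of the angle of a side, radius `RO`. -/
theorem p6_oneO {y D C ψ : ℝ} (hy : 1 ≤ y) (hyQ : y < 1.3284)
    (hD : 4 - 4 * y + y ^ 2 ≤ (D - y) * (4 - y))
    (hC : (13 / 8 - y) * C = D - y) (hψ : cos ψ ^ 2 = C) (hψ0 : 0 ≤ ψ) (hψπ : ψ ≤ π / 2) :
    π / 3 + 0.577 * (ψ - 0.465) ≤ arccos (D - 1 - 0.457 * (y - 1)) := by
  have hπ3 := Real.pi_gt_three
  have hπ4 := Real.pi_lt_four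
  have hQ : 0 < 13 / 8 - y := by linarith
  have h4 : 0 < 4 - y := by linarith
  have hy4 : y < 4 := by linarith
  have hCg : (2 - y) ^ 2 ≤ C * ((13 / 8 - y) * (4 - y)) := by
    have : C * ((13 / 8 - y) * (4 - y)) = ((13 / 8 - y) * C) * (4 - y) := by ring
    rw [this, hC]
    linarith
  have hC53 : 0.53 ≤ C := by
    by_contra hcon
    push Not at hcon
    have h2 : 0 < (13 / 8 - y) * (4 - y) := mul_pos hQ h4
    have h3 : 0.53 * ((13 / 8 - y) * (4 - y)) ≤ (2 - y) ^ 2 := by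
      nlinarith [sq_nonneg (y - 1.08)]
    nlinarith
  have hψ8 : ψ ≤ 0.76 := by
    by_contra hcon
    push Not at hcon
    have h1 : cos ψ ≤ cos 0.76 := by
      apply Real.cos_le_cos_of_nonneg_of_le_pi (by norm_num) (by linarith) hcon.le
    have h2 : 0 ≤ cos ψ := Real.cos_nonneg_of_mem_Icc ⟨by linarith, hψπ⟩
    have h3 := p6_c76
    have h4 : cos ψ ^ 2 ≤ 0.5286 := by nlinarith
    rw [hψ] at h4
    linarith
  have ht := (p_TG ψ hψ0 (by linarith)).2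
  rw [hψ] at ht
  have hDy : D = y + (13 / 8 - y) * C := by linarith
  have hx0 : 0 ≤ π / 3 + 0.577 * (ψ - 0.465) := by nlinarith
  have hxπ : π / 3 + 0.577 * (ψ - 0.465) ≤ π := by nlinarith
  rw [← Real.arccos_cos hx0 hxπ]
  apply Real.arccos_le_arccos
  rcases le_total 0.543 C with hc | hc
  · have hz : D - 1 - 0.457 * (y - 1) ≤ 5 / 8 * C := by
      rw [hDy]
      nlinarith
    exact hz.trans ht
  · have hexc : (y - 1) * (0.543 - C) ≤ 0.0015 := by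
      have h2 : 0 < (13 / 8 - y) * (4 - y) := mul_pos hQ h4
      have h3 : (y - 1) * (0.543 * ((13 / 8 - y) * (4 - y)) - (2 - y) ^ 2) ≤
          0.0015 * ((13 / 8 - y) * (4 - y)) := by
        nlinarith [mul_nonneg (sub_nonneg.2 hy) (sq_nonneg (y - 1.156)), sq_nonneg (y - 1.156)]
      have h5 : (y - 1) * (0.543 - C) * ((13 / 8 - y) * (4 - y)) ≤
          0.0015 * ((13 / 8 - y) * (4 - y)) := by
        refine le_trans ?_ h3
        have h6 := mul_le_mul_of_nonneg_left hCg (sub_nonneg.2 hy)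
        linarith
      exact le_of_mul_le_mul_right h5 h2
    have hz : D - 1 - 0.457 * (y - 1) ≤ 0.341 := by
      rw [hDy]
      nlinarith
    have hr := TG_rhs (0.577 * (0.76 - 0.465)) (by rw [abs_le]; constructor <;> norm_num)
    have h7 : cos (π / 3 + 0.577 * (0.76 - 0.465)) ≤ cos (π / 3 + 0.577 * (ψ - 0.465)) := by
      apply Real.cos_le_cos_of_nonneg_of_le_pi hx0 (by linarith)
      linarith
    refine le_trans ?_ h7
    refine le_trans ?_ hr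
    refine hz.trans ?_
    norm_num

/-- At least six sides in the ball of radius `RP`. -/
theorem p6_SIX {ι : Type} {n : ι → E3} {h : ι → ℝ} {i : ι} (S : Finset ι) (hP : Pck n h)
    (hiO : h i < RO) (hiS : i ∉ S)
    (hS : ∀ j ∈ S, ⟪n i, n j⟫ ^ 2 < 1 ∧ ad n h i j < rr (h i) RP) (hcard : 6 ≤ S.card) :
    h i ^ 2 < 1.3284 ∧ S.card ≤ 7 ∧ ∃ z : ι → ℝ, ∑ j ∈ S, arccos (z j) ≤ 2 * π ∧
      ∀ j ∈ S, z j < 0.65 ∧ 0 < arccos (ad n h i j / rr (h i) RP) ∧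
        0.507 ≤ cos (arccos (ad n h i j / rr (h i) RP)) ^ 2 ∧
        (z j ≤ 0.65 * cos (arccos (ad n h i j / rr (h i) RP)) ^ 2 ∨
          (cos (arccos (ad n h i j / rr (h i) RP)) ^ 2 ≤ 0.543 ∧
            z j ≤ 0.65 * cos (arccos (ad n h i j / rr (h i) RP)) ^ 2 + 0.008)) ∧
        π / 3 + 0.472 * (arccos (ad n h i j / rr (h i) R) - 0.39) ≤ arccos (z j) ∧
        π / 3 + 0.577 * (arccos (ad n h i j / rr (h i) RO) - 0.465) ≤ arccos (z j) := by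
  obtain ⟨hn, hh, hpk⟩ := hP
  have hπ3 := Real.pi_gt_three
  have hπ4 := Real.pi_lt_four
  have h1 := hh i
  have h0 : 0 < h i := by linarith
  have hy1 : 1 ≤ h i ^ 2 := by nlinarith
  have hyO : h i ^ 2 < 13 / 8 := by rw [← RO_sq]; nlinarith [RO_pos]
  have hyP : h i ^ 2 < RP ^ 2 := by rw [RP_sq]; linarith
  have hne : ∀ j ∈ S, i ≠ j := fun j hj hij => hiS (hij ▸ hj)
  -- the facts about one side
  have hd : ∀ j ∈ S, 4 / (4 - h i ^ 2) ≤ Dq (h i) (h j) ⟪n i, n j⟫ ∧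
      1 < Dq (h i) (h j) ⟪n i, n j⟫ ∧ h i * ⟪n i, n j⟫ < h j ∧
      h i ^ 2 * (1 + ad n h i j ^ 2) = Dq (h i) (h j) ⟪n i, n j⟫ := fun j hj =>
    p_DMN (h i) (h j) ⟪n i, n j⟫ h1 hiO (hh j) (hS j hj).1 (hpk i j (hne j hj))
  have hap : ∀ j ∈ S, 0 < ad n h i j := by
    intro j hj
    have h2 := (hd j hj).2.2.1
    have h3 := (hS j hj).1
    rw [ad]
    apply div_pos
    · rw [sub_pos, lt_div_iff₀ h0]
      linarith
    · exact Real.sqrt_pos.mpr (by linarith)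
  have hrr : ∀ u : ℝ, h i ^ 2 < u ^ 2 → rr (h i) u ^ 2 = u ^ 2 / h i ^ 2 - 1 ∧
      0 < rr (h i) u := by
    intro u hu
    have h2 : 0 < u ^ 2 / h i ^ 2 - 1 := by
      rw [sub_pos, lt_div_iff₀ (by positivity)]
      linarith
    exact ⟨Real.sq_sqrt h2.le, Real.sqrt_pos.mpr h2⟩
  have hDP : ∀ j ∈ S, Dq (h i) (h j) ⟪n i, n j⟫ < RP ^ 2 := by
    intro j hj
    obtain ⟨e1, e2⟩ := hrr RP hyP
    have h2 := hap j hj
    rw [← (hd j hj).2.2.2]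
    have h3 : ad n h i j ^ 2 < RP ^ 2 / h i ^ 2 - 1 := by
      rw [← e1]
      nlinarith [(hS j hj).2]
    have h4 : h i ^ 2 * (1 + ad n h i j ^ 2) < h i ^ 2 * (RP ^ 2 / h i ^ 2) := by
      apply mul_lt_mul_of_pos_left _ (by positivity)
      linarith
    have h5 : h i ^ 2 * (RP ^ 2 / h i ^ 2) = RP ^ 2 := by field_simp
    linarith
  have hD65 : ∀ j ∈ S, Dq (h i) (h j) ⟪n i, n j⟫ < 1.65 := by
    intro j hj
    have := hDP j hj
    rw [RP_sq] at this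
    linarith
  -- the directions
  obtain ⟨e, f, hef⟩ := p_ONB (n i) (hn i)
  obtain ⟨-, hcrd⟩ := p_CRD (n i) e f hef
  have hθ : ∀ j, ∃ θ : ℝ, ⟪e, n j⟫ = √(1 - ⟪n i, n j⟫ ^ 2) * cos θ ∧
      ⟪f, n j⟫ = √(1 - ⟪n i, n j⟫ ^ 2) * sin θ := by
    intro j
    have h2 := (hcrd (n j)).1
    rw [hn j] at h2
    have h3 : 1 - ⟪n i, n j⟫ ^ 2 = ⟪e, n j⟫ ^ 2 + ⟪f, n j⟫ ^ 2 := by linarith
    rw [h3]
    exact six_polar _ _
  choose θ hθ1 hθ2 using hθ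
  have hin : ∀ j k, ⟪n j, n k⟫ - ⟪n i, n j⟫ * ⟪n i, n k⟫ =
      √(1 - ⟪n i, n j⟫ ^ 2) * √(1 - ⟪n i, n k⟫ ^ 2) * cos (θ j - θ k) := by
    intro j k
    have h2 : ⟪n j, n k⟫ = ⟪n i, n j⟫ * ⟪n i, n k⟫ + ⟪e, n j⟫ * ⟪e, n k⟫ +
        ⟪f, n j⟫ * ⟪f, n k⟫ := by
      conv_lhs => rw [(hcrd (n j)).2]
      rw [inner_add_left, inner_add_left, inner_smul_left, inner_smul_left, inner_smul_left]
      simp
    rw [h2, hθ1 j, hθ2 j, hθ1 k, hθ2 k, Real.cos_sub]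
    ring
  have hsq : ∀ j ∈ S, 0 < √(1 - ⟪n i, n j⟫ ^ 2) := fun j hj =>
    Real.sqrt_pos.mpr (by linarith [(hS j hj).1])
  have hdiv : ∀ j ∈ S, ∀ k ∈ S, ∀ c : ℝ, ⟪n j, n k⟫ - ⟪n i, n j⟫ * ⟪n i, n k⟫ ≤
      √(1 - ⟪n i, n j⟫ ^ 2) * √(1 - ⟪n i, n k⟫ ^ 2) * c → cos (θ j - θ k) ≤ c := by
    intro j hj k hk c hc
    rw [hin] at hc
    exact le_of_mul_le_mul_left hc (mul_pos (hsq j hj) (hsq k hk))
  have hpos4 : 0 < 4 - h i ^ 2 := by linarith
  have hD4 : ∀ j ∈ S, 4 ≤ Dq (h i) (h j) ⟪n i, n j⟫ * (4 - h i ^ 2) := by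
    intro j hj
    have := (hd j hj).1
    rwa [div_le_iff₀ hpos4] at this
  have hz0 : ∀ j ∈ S, 0 < Dq (h i) (h j) ⟪n i, n j⟫ - 1 - 0.457 * (h i ^ 2 - 1) := by
    intro j hj
    have h2 := hD4 j hj
    by_contra hcon
    push Not at hcon
    nlinarith
  have hz65 : ∀ j ∈ S, Dq (h i) (h j) ⟪n i, n j⟫ - 1 - 0.457 * (h i ^ 2 - 1) <
      0.65 - 0.457 * (h i ^ 2 - 1) := by
    intro j hj
    linarith [hD65 j hj]
  have hsum := p_ARC ι S θ (fun j => Dq (h i) (h j) ⟪n i, n j⟫ - 1 - 0.457 * (h i ^ 2 - 1))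
    (fun j hj => ⟨hz0 j hj, by
      have := hz65 j hj
      nlinarith⟩)
    (fun j hj k hk hjk => hdiv j hj k hk _ (by
      have := p6_GAP h1 hiO (hh j) (hh k) (hS j hj).1 (hS k hk).1 (hpk i j (hne j hj))
        (hpk i k (hne k hk)) (hpk j k hjk) (hDP j hj) (hDP k hk)
      convert this using 2
      ring))
  have hc6 : (6 : ℝ) ≤ S.card := by exact_mod_cast hcard
  have hy3 : h i ^ 2 < 1.3284 := by
    by_contra hcon
    push Not at hcon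
    have hne' : S.Nonempty := by
      rw [← Finset.card_pos]
      omega
    have h2 : ∑ j ∈ S, π / 3 <
        ∑ j ∈ S, arccos (Dq (h i) (h j) ⟪n i, n j⟫ - 1 - 0.457 * (h i ^ 2 - 1)) := by
      apply Finset.sum_lt_sum_of_nonempty hne'
      intro j hj
      have h3 := hz65 j hj
      have h4 : π / 3 = arccos (1 / 2) := by
        rw [← Real.cos_pi_div_three, Real.arccos_cos (by linarith) (by linarith)]
      rw [h4]
      apply Real.arccos_lt_arccos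
      · linarith [hz0 j hj]
      · linarith
      · norm_num
    rw [Finset.sum_const, nsmul_eq_mul] at h2
    nlinarith
  have hc7 : S.card ≤ 7 := by
    by_contra hcon
    push Not at hcon
    have h2 : ∑ j ∈ S, 4 * π / 15 ≤
        ∑ j ∈ S, arccos (Dq (h i) (h j) ⟪n i, n j⟫ - 1 - 0.457 * (h i ^ 2 - 1)) := by
      apply Finset.sum_le_sum
      intro j hj
      refine arccos65.le.trans (Real.arccos_le_arccos ?_)
      have := hz65 j hj
      linarith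
    rw [Finset.sum_const, nsmul_eq_mul] at h2
    have h5 : (8 : ℝ) ≤ S.card := by exact_mod_cast hcon
    nlinarith
  refine ⟨hy3, hc7, fun j => Dq (h i) (h j) ⟪n i, n j⟫ - 1 - 0.457 * (h i ^ 2 - 1), hsum, ?_⟩
  intro j hj
  -- one side and one radius
  have hcos : ∀ u : ℝ, h i ^ 2 < u ^ 2 → ad n h i j < rr (h i) u →
      (u ^ 2 - h i ^ 2) * cos (arccos (ad n h i j / rr (h i) u)) ^ 2 =
        Dq (h i) (h j) ⟪n i, n j⟫ - h i ^ 2 := by
    intro u hu hlt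
    obtain ⟨e1, e2⟩ := hrr u hu
    have h2 := hap j hj
    rw [Real.cos_arccos (by linarith [div_pos h2 e2]) (by rw [div_le_one e2]; exact hlt.le),
      div_pow, e1, ← (hd j hj).2.2.2]
    have h3 : u ^ 2 - h i ^ 2 ≠ 0 := by linarith
    have h4 : u ^ 2 / h i ^ 2 - 1 = (u ^ 2 - h i ^ 2) / h i ^ 2 := by field_simp
    rw [h4]
    field_simp
    ring
  have hψ : ∀ u : ℝ, h i ^ 2 < u ^ 2 →
      0 ≤ arccos (ad n h i j / rr (h i) u) ∧ arccos (ad n h i j / rr (h i) u) ≤ π / 2 := by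
    intro u hu
    refine ⟨Real.arccos_nonneg _, Real.arccos_le_pi_div_two.mpr ?_⟩
    exact (div_pos (hap j hj) (hrr u hu).2).le
  have hfar : ∀ u : ℝ, h i ^ 2 < u ^ 2 → rr (h i) u ≤ ad n h i j →
      arccos (ad n h i j / rr (h i) u) = 0 := by
    intro u hu hle
    rw [Real.arccos_eq_zero, le_div_iff₀ (hrr u hu).2]
    linarith
  have hz := hz65 j hj
  have hzl : Dq (h i) (h j) ⟪n i, n j⟫ - 1 - 0.457 * (h i ^ 2 - 1) < 0.65 := by linarith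
  have hDy : 4 - 4 * h i ^ 2 + (h i ^ 2) ^ 2 ≤
      (Dq (h i) (h j) ⟪n i, n j⟫ - h i ^ 2) * (4 - h i ^ 2) := by
    nlinarith [hD4 j hj]
  have hCP := hcos RP hyP (hS j hj).2
  rw [RP_sq] at hCP
  obtain ⟨C, hC⟩ : ∃ C, C = cos (arccos (ad n h i j / rr (h i) RP)) ^ 2 := ⟨_, rfl⟩
  rw [← hC] at hCP ⊢
  beta_reduce
  have hQ : 0 < 33 / 20 - h i ^ 2 := by linarith
  have hQ4 : 0 < (33 / 20 - h i ^ 2) * (4 - h i ^ 2) := mul_pos hQ hpos4
  have hCg : (2 - h i ^ 2) ^ 2 ≤ C * ((33 / 20 - h i ^ 2) * (4 - h i ^ 2)) := by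
    have : C * ((33 / 20 - h i ^ 2) * (4 - h i ^ 2)) =
      ((33 / 20 - h i ^ 2) * C) * (4 - h i ^ 2) := by ring
    rw [this, hCP]
    linarith
  refine ⟨hzl, ?_, ?_, ?_, ?_, ?_⟩
  · rw [Real.arccos_pos, div_lt_one (hrr RP hyP).2]
    exact (hS j hj).2
  · by_contra hcon
    push Not at hcon
    have h3 : 0.507 * ((33 / 20 - h i ^ 2) * (4 - h i ^ 2)) ≤ (2 - h i ^ 2) ^ 2 := by
      nlinarith [sq_nonneg (h i ^ 2 - 1.15157)]
    nlinarith
  · have hDe : Dq (h i) (h j) ⟪n i, n j⟫ = h i ^ 2 + (33 / 20 - h i ^ 2) * C := by linarith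
    rcases le_total 0.543 C with hc | hc
    · left
      rw [hDe]
      nlinarith
    · right
      refine ⟨hc, ?_⟩
      have hexc : (h i ^ 2 - 1) * (0.543 - C) ≤ 0.008 := by
        have h3 : (h i ^ 2 - 1) * (0.543 * ((33 / 20 - h i ^ 2) * (4 - h i ^ 2)) -
            (2 - h i ^ 2) ^ 2) ≤ 0.008 * ((33 / 20 - h i ^ 2) * (4 - h i ^ 2)) := by
          generalize h i ^ 2 = y at *
          nlinarith [mul_nonneg (sub_nonneg.2 hy1) (sq_nonneg (y - 1.2609)),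
            sq_nonneg (y - 1.2609)]
        have h5 : (h i ^ 2 - 1) * (0.543 - C) * ((33 / 20 - h i ^ 2) * (4 - h i ^ 2)) ≤
            0.008 * ((33 / 20 - h i ^ 2) * (4 - h i ^ 2)) := by
          refine le_trans ?_ h3
          have h6 := mul_le_mul_of_nonneg_left hCg (sub_nonneg.2 hy1)
          linarith
        exact le_of_mul_le_mul_right h5 hQ4
      rw [hDe]
      linarith
  · have hyR : h i ^ 2 < R ^ 2 := by linarith [R_sq_lo]
    rcases lt_or_ge (ad n h i j) (rr (h i) R) with hlt | hge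
    · have hp := hψ R hyR
      exact p6_oneR hy1 hyR hDy (by linarith) (hcos R hyR hlt) rfl hp.1 hp.2
    · rw [hfar R hyR hge]
      exact p6_far hzl.le (by linarith) (by linarith) p6_c39
  · have hyO' : h i ^ 2 < RO ^ 2 := by rw [RO_sq]; exact hyO
    rcases lt_or_ge (ad n h i j) (rr (h i) RO) with hlt | hge
    · have hp := hψ RO hyO'
      have hc := hcos RO hyO' hlt
      rw [RO_sq] at hc
      exact p6_oneO hy1 hy3 hDy hc rfl hp.1 hp.2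
    · rw [hfar RO hyO' hge]
      exact p6_far hzl.le (by linarith) (by linarith) p6_c46

end Pool.Agent.SDL
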