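import Pool.Agent.SDL.AsmC
import Pool.Agent.SDL.P6_A
import Pool.Agent.SDL.P6_D
import Pool.Agent.SDL.P6_F

set_option autoImplicit false

/-!
# SDL, P, at least six near sides: assembly
-/

open MeasureTheory Set Real
open scoped RealInnerProductSpace

namespace Pool.Agent.SDL

open Pool.Agent.SDC

/-- One row `(θ, m)` of the table. -/
def Tab (θ m : ℝ) : Prop := ∀ ψ z : ℝ, 0 < ψ → ψ < π / 2 → 0.507 ≤ cos ψ ^ 2 → z < 0.65 →
  (z ≤ 0.65 * cos ψ ^ 2 ∨ (cos ψ ^ 2 ≤ 0.543 ∧ z ≤ 0.65 * cos ψ ^ 2 + 0.008)) →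
  MM θ * PH θ ψ ≤ m * (arccos z - 0.8632)

theorem p6_RP_lo : (1.2845 : ℝ) < RP := by
  nlinarith [RP_sq, RP_pos]

/-- A lower bound of `kap`. -/
theorem p6_kap {t : ℝ} (h1 : 1.151 ≤ t) (h2 : t ≤ 1.1641) : 0.012 ≤ kap t := by
  have ht : t ^ 2 ≤ W0 := by nlinarith [W0_lo]
  have hk := p_KEX.2 t (by linarith) ht
  have hP : 9 * t ^ 2 - 5 * t ^ 3 - 3 ≤ 1.308633 := by
    nlinarith [mul_nonneg (sub_nonneg.2 h1) (sub_nonneg.2 h2), sq_nonneg (t - 1.1641)]
  have hπ := Real.pi_lt_d6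
  have hπ0 := Real.pi_pos
  have hS := S0_lo
  have h3 : π / 30 * (9 * t ^ 2 - 5 * t ^ 3 - 3) ≤ π / 30 * 1.308633 :=
    mul_le_mul_of_nonneg_left hP (by positivity)
  by_contra hc
  have h4 : 0.988 < 1 - kap t := by linarith
  nlinarith

/-- The dependence on the height. -/
theorem p6_slope {t y : ℝ} (ht1 : 1.151 ≤ t) (htR : t < R) (hy1 : 1 ≤ y)
    (hy2 : y ^ 2 < 1.3284) :
    2 * π * y * Bf t y ≤ (y - 1) * ((5 + gv t - 1 / Lv t) * (π / 3 * bet t) + 2 * π * kap t) := by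
  have hπ := Real.pi_lt_d6
  have hπ0 := Real.pi_pos
  have hk0 := (tKAP t (by linarith) htR).1
  have hb0 := bet_nonneg (by linarith : 1 ≤ t) htR
  have hg := gv_nonneg t
  have hL : 1 / Lv t = (1 - 3 * gv t) / 0.19 := by
    have := Lv_eq t
    have h0 := Lv_pos t
    rw [← this]
    field_simp
  have hU : 0 ≤ π / 3 * bet t := by positivity
  have hy3 : y < 1.15257 := by nlinarith
  rcases le_or_gt t 1.1641 with ht2 | ht2
  · -- `t` small
    have hk := p6_kap ht1 ht2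
    have htW : t ^ 2 ≤ W0 := by nlinarith [W0_lo]
    have hb : bet t ≤ 0.2145 := by
      have e : bet t = R * ((1 - kap t) * W0) - t ^ 3 := by
        rw [bet, gg, max_eq_right (by linarith)]
        simp
      have h1 : R * ((1 - kap t) * W0) ≤ 1.7392 := by
        have h2 : (1 - kap t) * W0 ≤ 1.382 := by nlinarith [W0_hi, W0_lo]
        nlinarith [R_hi', R_pos]
      have h3 : (1.5248 : ℝ) ≤ t ^ 3 := by
        have := pow_le_pow_left₀ (by norm_num) ht1 3
        norm_num at this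
        linarith
      rw [e]
      linarith
    have hU2 : π / 3 * bet t ≤ 0.2247 := by nlinarith
    have hB : 2 * π * y * Bf t y ≤ 0.0005 * (y - 1) := by
      unfold Bf
      split_ifs with hyt
      · rw [mul_zero]
        linarith
      · have hyt' : t < y := not_le.mp hyt
        have e : 2 * π * y * ((y - t) ^ 2 * (y + 2 * t) / (2 * y)) =
            π * (y + 2 * t) * (y - t) ^ 2 := by
          have : y ≠ 0 := by linarith
          field_simp
        rw [e]
        have h1 : (y - t) ^ 2 ≤ 0.0000025 := by nlinarith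
        have h2 : π * (y + 2 * t) ≤ 11 := by nlinarith
        have h3 : π * (y + 2 * t) * (y - t) ^ 2 ≤ 11 * 0.0000025 :=
          mul_le_mul h2 h1 (sq_nonneg _) (by norm_num)
        linarith
    have h5 : -0.2632 ≤ 5 + gv t - 1 / Lv t := by
      rw [hL]
      rw [show (1 - 3 * gv t) / 0.19 = 1 / 0.19 - 3 / 0.19 * gv t by ring]
      norm_num
      linarith
    have h6 : -0.0592 ≤ (5 + gv t - 1 / Lv t) * (π / 3 * bet t) := by nlinarith
    have h7 : 0.0753 ≤ 2 * π * kap t := by nlinarith [Real.pi_gt_d6]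
    have h8 : (y - 1) * 0.0161 ≤
        (y - 1) * ((5 + gv t - 1 / Lv t) * (π / 3 * bet t) + 2 * π * kap t) := by
      apply mul_le_mul_of_nonneg_left _ (by linarith)
      linarith
    linarith
  · have h5 : 0 ≤ 5 + gv t - 1 / Lv t := by
      have hg2 : (0.0156747 : ℝ) ≤ gv t := by
        unfold gv
        split_ifs with h
        · apply le_trans _ (le_max_right _ _)
          linarith
        · norm_num
      rw [hL, sub_nonneg, div_le_iff₀ (by norm_num)]
      linarith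
    have hB : Bf t y = 0 := by
      unfold Bf
      rw [if_pos (by linarith)]
    rw [hB, mul_zero]
    apply mul_nonneg (by linarith)
    positivity

/-- The inequality of one facet. -/
theorem p6_num {t y v c M g : ℝ} {N : ℕ} (ht1 : 1.151 ≤ t) (htR : t < R) (hy1 : 1 ≤ y)
    (hy2 : y ^ 2 < 1.3284) (hN : N = 6 ∧ c ≤ 1.104 ∨ N = 7 ∧ c ≤ 1.104 - 0.8632)
    (hM : 0 ≤ M) (hg : g = gv t)
    (hv : v = y * (bb t RP - Bf t y) + kap t * y ^ 3 / 2 - bet t)
    (hA : 2 * M * 1.104 ≤ 2 * π * (bb t RP + kap t / 2 - bet t) + π / 3 * bet t * (1 - g))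
    (hB : π / 3 * bet t * g ≤ 0.8632 * M) :
    -(π / 3 * bet t * (1 - (y - 1) / Lv t - gv t * crd N)) ≤ 2 * π * v - 2 * (y * (M * c)) := by
  have hπ0 := Real.pi_pos
  have hk0 := (tKAP t (by linarith) htR).1
  have hb0 := bet_nonneg (by linarith : 1 ≤ t) htR
  have hs := p6_slope ht1 htR hy1 hy2
  have hg0 := gv_nonneg t
  subst hg
  -- the cubic term
  have hk2 : 2 * π * kap t * (y - 1) ≤ π * kap t * (y ^ 3 - y) := by
    have h1 : 2 * (y - 1) ≤ y ^ 3 - y := by
      have h0 : 0 ≤ (y - 1) * (y - 1) * (y + 2) :=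
        mul_nonneg (mul_nonneg (by linarith) (by linarith)) (by linarith)
      nlinarith
    have h2 := mul_le_mul_of_nonneg_left h1 (mul_nonneg hπ0.le hk0)
    linarith
  have hA' := mul_le_mul_of_nonneg_left hA (by linarith : (0 : ℝ) ≤ y)
  have e1 : (y - 1) * ((5 + gv t - 1 / Lv t) * (π / 3 * bet t) + 2 * π * kap t) =
      (y - 1) * (5 + gv t) * (π / 3 * bet t) - (y - 1) / Lv t * (π / 3 * bet t) +
        2 * π * kap t * (y - 1) := by ring
  rw [e1] at hs
  have hcM : y * (M * c) ≤ y * (M * (if N = 6 then 1.104 else 1.104 - 0.8632)) := by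
    apply mul_le_mul_of_nonneg_left _ (by linarith)
    apply mul_le_mul_of_nonneg_left _ hM
    rcases hN with ⟨h1, h2⟩ | ⟨h1, h2⟩
    · rw [if_pos h1]; exact h2
    · rw [if_neg (by omega)]; exact h2
  have hcr : (N = 6 ∧ (crd N : ℝ) = 1) ∨ (N = 7 ∧ (crd N : ℝ) = 3) := by
    rcases hN with ⟨h1, -⟩ | ⟨h1, -⟩
    · left
      subst h1
      refine ⟨rfl, ?_⟩
      have : crd 6 = 1 := by decide
      rw [this]; norm_num
    · right
      subst h1
      refine ⟨rfl, ?_⟩
      have : crd 7 = 3 := by decide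
      rw [this]; norm_num
  have hyM : 0.8632 * M ≤ y * (0.8632 * M) := by
    have : 0 ≤ (y - 1) * (0.8632 * M) := by
      apply mul_nonneg (by linarith)
      positivity
    linarith
  rcases hcr with ⟨h6, hc⟩ | ⟨h7, hc⟩
  · rw [if_pos h6] at hcM
    rw [hc, hv]
    nlinarith
  · rw [if_neg (by omega)] at hcM
    rw [hc, hv]
    nlinarith

/-- One facet, from the numbers. -/
theorem p6_gen {ι : Type} [Fintype ι] {n : ι → E3} {h : ι → ℝ} {i : ι} {e f : E3}
    {t g w1 w2 θ1 θ2 m1 m2 : ℝ} (hP : Pck n h) (hI : Irr n h) (hO : Onb (n i) e f)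
    (ht1 : 1.151 ≤ t) (htR : t < R) (hh : h i < 1 + Lv t) (hc : 6 ≤ ns n h i)
    (T1 : Tab θ1 m1) (T2 : Tab θ2 m2) (h1 : 0 < θ1) (h2 : 0 < θ2) (h1' : θ1 < RP)
    (h2' : θ2 < RP) (hm1 : 0 ≤ m1) (hm2 : 0 ≤ m2) (hw1 : 0 ≤ w1) (hw2 : 0 ≤ w2)
    (hw : w1 + w2 = 1 - kap t) (hX : w1 * θ1 ^ 3 + w2 * θ2 ^ 3 ≤ t ^ 3 + bet t)
    (hg : g = gv t)
    (hA : 2 * (w1 * m1 + w2 * m2) * 1.104 ≤ 2 * π * (bb t RP + kap t / 2 - bet t) +
      π / 3 * bet t * (1 - g))
    (hB : π / 3 * bet t * g ≤ 0.8632 * (w1 * m1 + w2 * m2)) :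
    -(π / 3 * bet t * (1 - (h i - 1) / Lv t - gv t * crd (ns n h i))) ≤ FI t n h i e f := by
  classical
  have hh1 : 1 ≤ h i := hP.2.1 i
  have hh0 : 0 < h i := by linarith
  have ht1' : 1 ≤ t := by linarith
  have hL : Lv t ≤ 0.2589 := by
    have hg2 := gv_le t
    unfold Lv
    rw [div_le_iff₀ (gv_pos3 t)]
    linarith
  have hhRO : h i < RO := by linarith [RO_lo]
  have hhRP : h i < RP := hhRO.trans RO_lt_RP
  set S : Finset ι := Finset.univ.filter fun j => NS n h i RP j with hS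
  have hSm : ∀ j, j ∈ S ↔ NS n h i RP j := by
    intro j
    rw [hS, Finset.mem_filter]
    simp
  have hcard : S.card = ns n h i := by
    rw [ns, hS]
  have hNS : ∀ j ∈ S, i ≠ j ∧ ⟪n i, n j⟫ ^ 2 < 1 ∧ 0 < ad n h i j ∧
      ad n h i j < rr (h i) RP := by
    intro j hj
    have h1 := (hSm j).mp hj
    exact ⟨h1.1, (tNSF ι n h i j hP hI hhRO h1.1).2.2 RP h1⟩
  obtain ⟨hy2, hc7, z, hz, hzj⟩ := p6_SIX S hP hhRO (fun hi => (hNS i hi).1 rfl)
    (fun j hj => ⟨(hNS j hj).2.1, (hNS j hj).2.2.2⟩) (by rw [hcard]; exact hc)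
  have hρ0 : 0 < rr (h i) RP := by
    obtain ⟨j, hj⟩ : S.Nonempty := by
      rw [← Finset.card_pos, hcard]
      omega
    exact (hNS j hj).2.2.1.trans (hNS j hj).2.2.2
  have hGρ : 0 ≤ G t (kap t) (bet t) (h i) (rr (h i) RP) := by
    apply G_nonneg_far ht1' htR
    rw [(FBC_rr hh0 hhRP.le).2]
    exact R_lt_RP.le
  have hπ0 := Real.pi_pos
  -- the facet
  have hmain := tFCX ι n h i e f RP (HH t (h i) (rr (h i) RP))
    (fun j => h i * ((w1 * m1 + w2 * m2) * (arccos (z j) - 0.8632)))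
    (G t (kap t) (bet t) (h i)) S hP.1 (fun k => by linarith [hP.2.1 k]) hI hO
    (tHCL.1 t (kap t) (bet t) (h i)) hhRP
    (fun j hj => (tNSF ι n h i j hP hI hhRO (Ne.symm hj)).1)
    (fun r hr => FBC_HH ht1' htR hh0 hρ0 hGρ le_rfl hr)
    (fun j hj => by
      have hN := hNS j hj
      have hs := p6_side ht1' htR hh1 hhRP hw1 hw2 hw hX h1 h2 h1' h2' hN.2.2.1 hN.2.2.2
      refine le_trans hs ?_
      apply mul_le_mul_of_nonneg_left _ hh0.le
      obtain ⟨z1, z2, z3, z4, -, -⟩ := hzj j hj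
      have z5 : arccos (ad n h i j / rr (h i) RP) < π / 2 := by
        apply Real.arccos_lt_pi_div_two.mpr
        exact div_pos hN.2.2.1 (hN.2.2.1.trans hN.2.2.2)
      have a1 := mul_le_mul_of_nonneg_left (T1 _ _ z2 z5 z3 z1 z4) hw1
      have a2 := mul_le_mul_of_nonneg_left (T2 _ _ z2 z5 z3 z1 z4) hw2
      linarith)
    (fun j hj => (hSm j).mpr hj)
  refine le_trans ?_ hmain
  have hsum : ∑ j ∈ S, h i * ((w1 * m1 + w2 * m2) * (arccos (z j) - 0.8632)) =
      h i * ((w1 * m1 + w2 * m2) * (∑ j ∈ S, arccos (z j) - S.card * 0.8632)) := by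
    rw [← Finset.mul_sum, ← Finset.mul_sum, Finset.sum_sub_distrib, Finset.sum_const,
      nsmul_eq_mul]
  rw [hsum]
  have hM : 0 ≤ w1 * m1 + w2 * m2 := by positivity
  apply p6_num ht1 htR hh1 hy2 _ hM hg _ hA hB
  · rw [← hcard]
    have hπ := Real.pi_lt_d6
    have h6 : 6 ≤ S.card := by rw [hcard]; exact hc
    rcases Nat.lt_or_ge S.card 7 with h | h
    · left
      have h3 : S.card = 6 := by omega
      refine ⟨h3, ?_⟩
      rw [h3]
      push_cast
      linarith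
    · right
      have h3 : S.card = 7 := by omega
      refine ⟨h3, ?_⟩
      rw [h3]
      push_cast
      linarith
  · rw [tHB t (h i) (rr (h i) RP) (by linarith) hh0 (FBC_rr hh0 hhRP.le).1,
      (FBC_rr hh0 hhRP.le).2]

/-- At least six near sides, `t ≤ 1.2355`. -/
theorem p6_lo (T1 : Tab 1.2025 0.0209) (T2 : Tab 1.212 0.01695) (T3 : Tab 1.222 0.0132)
    (T4 : Tab 1.231 0.01018) (T5 : Tab 1.239 0.00779) {ι : Type} [Fintype ι] {n : ι → E3}
    {h : ι → ℝ} {i : ι} {e f : E3} {t : ℝ} (hP : Pck n h) (hI : Irr n h) (hO : Onb (n i) e f)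
    (ht1 : 1.151 ≤ t) (ht2 : t ≤ 1.2355) (hh : h i < 1 + Lv t) (hc : 6 ≤ ns n h i) :
    -(π / 3 * bet t * (1 - (h i - 1) / Lv t - gv t * crd (ns n h i))) ≤ FI t n h i e f := by
  have htR : t < R := by linarith [R_lo']
  have hu := p6_RP_lo
  rcases le_or_gt (t ^ 2) W0 with hW | hW
  · obtain ⟨hA, hB⟩ := p6_D1 t ht1 hW
    have ht3 : t < 1.21 := by nlinarith [W0_hi]
    have hgv : 1.2 * (t - 1.151) = gv t := by
      unfold gv
      rw [if_pos ht3, max_eq_right]
      linarith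
    have hk1 : 0 ≤ 1 - kap t := by
      have hk := p_KEX.2 t (by linarith) hW
      have hP1 : 0 ≤ 9 * t ^ 2 - 5 * t ^ 3 - 3 := by
        have h1 : 0 ≤ t ^ 2 * (1.21 - t) := by
          apply mul_nonneg (sq_nonneg t)
          linarith
        nlinarith
      have hS := S0_pos
      have hπ := Real.pi_pos
      by_contra hneg
      have h1 : (1 - kap t) * S0 < 0 := mul_neg_of_neg_of_pos (not_le.1 hneg) hS
      have h2 : 0 ≤ π / 30 * (9 * t ^ 2 - 5 * t ^ 3 - 3) := by positivity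
      linarith
    have hX : t ^ 3 + bet t = (1 - kap t) * (R * W0) := by
      have e1 : max (t ^ 2 - W0) 0 = 0 := max_eq_right (by linarith)
      rw [bet, gg, e1, Real.sqrt_zero]
      ring
    have hRW : (1.2025 : ℝ) ^ 3 ≤ R * W0 := by
      have h1 : (1.381966 : ℝ) ≤ W0 := by
        rw [W0]
        linarith [s5_hi']
      nlinarith [R_lo', R_pos]
    apply p6_gen (g := 1.2 * (t - 1.151)) (w1 := 1 - kap t) (w2 := 0) (θ1 := 1.2025)
      (θ2 := 1.2025) (m1 := 0.0209) (m2 := 0.0209) hP hI hO ht1 htR hh hc T1 T1 (by norm_num)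
      (by norm_num) (by linarith) (by linarith) (by norm_num) (by norm_num) hk1 le_rfl
      (by ring) _ hgv _ _
    · rw [hX, zero_mul, add_zero]
      exact mul_le_mul_of_nonneg_left hRW hk1
    · rw [zero_mul, add_zero]
      exact hA
    · rw [zero_mul, add_zero]
      exact hB
  · obtain ⟨th1, m1, th2, m2, w1, w2, hT, hw1, hw2, hw, hX, hA, hB⟩ :=
      p6_D2 t hW.le (by linarith) ht2
    have hgv : (if t < 1.21 then 1.2 * (t - 1.151) else 0.0887) = gv t := by
      unfold gv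
      split_ifs with h
      · rw [max_eq_right]
        linarith
      · rfl
    rcases hT with ⟨rfl, rfl, rfl, rfl⟩ | ⟨rfl, rfl, rfl, rfl⟩ | ⟨rfl, rfl, rfl, rfl⟩ |
      ⟨rfl, rfl, rfl, rfl⟩
    · exact p6_gen hP hI hO ht1 htR hh hc T1 T2 (by norm_num) (by norm_num) (by linarith)
        (by linarith) (by norm_num) (by norm_num) hw1 hw2 hw hX hgv hA hB
    · exact p6_gen hP hI hO ht1 htR hh hc T2 T3 (by norm_num) (by norm_num) (by linarith)
        (by linarith) (by norm_num) (by norm_num) hw1 hw2 hw hX hgv hA hB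
    · exact p6_gen hP hI hO ht1 htR hh hc T3 T4 (by norm_num) (by norm_num) (by linarith)
        (by linarith) (by norm_num) (by norm_num) hw1 hw2 hw hX hgv hA hB
    · exact p6_gen hP hI hO ht1 htR hh hc T4 T5 (by norm_num) (by norm_num) (by linarith)
        (by linarith) (by norm_num) (by norm_num) hw1 hw2 hw hX hgv hA hB

end Pool.Agent.SDL
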