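import Pool.Agent.SDL.Assembly

set_option autoImplicit false

/-!
# SDL: facets with at least six near sides, radii `t ≥ 1.2355`: analysis
-/

open MeasureTheory Set Real
open scoped RealInnerProductSpace

namespace Pool.Agent.SDL

open Pool.Agent.SDC

/-! ## Polynomial inequalities -/

theorem P6E_poly1 (q : ℝ) (h0 : 0.8465 ≤ q) (h1 : q ≤ 1) :
    0.02129 * (1 - q ^ 3) ^ 2 - 0.703 * (0.00298 - 0.00259 * q ^ 3) + 0.07233 * Kq q +
      0.042617 * ((1 - q) ^ 2 * (1 + 2 * q)) ≤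
    0.06455 * (1 - q ^ 2) ^ 2 + 0.00128 * (1 - q ^ 2) ^ 3 := by
  have h2 : 0 ≤ 1 - q := by linarith
  have h3 : 0 ≤ q - 0.8465 := by linarith
  have key : 0 ≤ (133160904552805669350117037 / 22489338502585188762500000) * (q - 0.8465) ^ 0 *
        (1 - q) ^ 7 +
      (427325226183169977151742 / 803190660806613884375) * (q - 0.8465) ^ 1 * (1 - q) ^ 6 +
      (18342834852725824541912 / 6425525286452911075) * (q - 0.8465) ^ 2 * (1 - q) ^ 5 +
      (1642336147256145154800 / 257021011458116443) * (q - 0.8465) ^ 3 * (1 - q) ^ 4 +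
      (1905633841862568160000 / 257021011458116443) * (q - 0.8465) ^ 4 * (1 - q) ^ 3 +
      (1179674393465920000000 / 257021011458116443) * (q - 0.8465) ^ 5 * (1 - q) ^ 2 +
      (352979786880000000000 / 257021011458116443) * (q - 0.8465) ^ 6 * (1 - q) ^ 1 +
      (35093760000000000000 / 257021011458116443) * (q - 0.8465) ^ 7 * (1 - q) ^ 0 := by
    positivity
  unfold Kq
  refine le_of_sub_nonneg (key.trans_eq ?_)
  ring

theorem P6E_poly2 (q : ℝ) (h0 : 0.8465 ≤ q) (h1 : q ≤ 1) :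
    0.02357 * ((1 - q) ^ 2 * (1 + 2 * q)) ≤
      2.698 * (0.00298 - 0.00259 * q ^ 3 - 0.00298 * (0.0578 * Kq q)) := by
  have h2 : 0 ≤ 1 - q := by linarith
  have h3 : 0 ≤ q - 0.8465 := by linarith
  have key : 0 ≤ (96793283593746798854227560650126863 / 84335019384694457859375000000000) *
        (q - 0.8465) ^ 0 * (1 - q) ^ 7 +
      (16650596667511573121398147049897 / 2007976652016534710937500000) * (q - 0.8465) ^ 1 *
        (1 - q) ^ 6 +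
      (74896703907705192958053744811 / 3011964978024802066406250) * (q - 0.8465) ^ 2 *
        (1 - q) ^ 5 +
      (32145048925305599927313471 / 803190660806613884375) * (q - 0.8465) ^ 3 * (1 - q) ^ 4 +
      (715105954978764215069632 / 19276575859358733225) * (q - 0.8465) ^ 4 * (1 - q) ^ 3 +
      (5023223510670720000000 / 257021011458116443) * (q - 0.8465) ^ 5 * (1 - q) ^ 2 +
      (1354679182080000000000 / 257021011458116443) * (q - 0.8465) ^ 6 * (1 - q) ^ 1 +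
      (134684160000000000000 / 257021011458116443) * (q - 0.8465) ^ 7 * (1 - q) ^ 0 := by
    positivity
  unfold Kq
  refine le_of_sub_nonneg (key.trans_eq ?_)
  ring

/-- A lower bound of `Bf t R`, better than the one of `C1G`. -/
theorem P6E_Bf {t : ℝ} (ht0 : 0 < t) (htR : t < R) :
    3 * (R ^ 2 - t ^ 2) ^ 2 / (8 * R ^ 2) * (1 + (R ^ 2 - t ^ 2) / (6 * R ^ 2)) ≤ Bf t R := by
  have hR := R_pos
  have hBf : Bf t R = (R - t) ^ 2 * (R + 2 * t) / (2 * R) := by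
    unfold Bf
    rw [if_neg (by linarith)]
  rw [hBf]
  obtain ⟨d, hd⟩ : ∃ d, d = R - t := ⟨_, rfl⟩
  have hd0 : 0 < d := by linarith
  have hdR : d < R := by linarith
  have ht : t = R - d := by linarith
  rw [ht]
  have e : (R - (R - d)) ^ 2 * (R + 2 * (R - d)) / (2 * R) -
      3 * (R ^ 2 - (R - d) ^ 2) ^ 2 / (8 * R ^ 2) *
        (1 + (R ^ 2 - (R - d) ^ 2) / (6 * R ^ 2)) =
      d ^ 4 * (6 * R ^ 2 - 6 * R * d + d ^ 2) / (16 * R ^ 4) := by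
    field_simp
    ring
  have h1 : 0 ≤ d ^ 4 * (6 * R ^ 2 - 6 * R * d + d ^ 2) / (16 * R ^ 4) := by
    have : 0 ≤ 6 * R ^ 2 - 6 * R * d := by nlinarith
    positivity
  linarith

/-- The number `q` of a radius `t ≥ 1.2355`. -/
theorem P6E_q {t q : ℝ} (ht : 1.2355 ≤ t) (hq0 : 0 ≤ q)
    (hq : q ^ 2 * (R ^ 2 - W0) = t ^ 2 - W0) : 0.8465 ≤ q := by
  have hA1 := C1B_A_hi
  have hA0 := C1B_A_lo
  have hW := C1B_W_hi
  by_contra hcon
  push Not at hcon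
  have h1 : q ^ 2 ≤ 0.8465 ^ 2 := pow_le_pow_left₀ hq0 hcon.le 2
  have h2 : q ^ 2 * (R ^ 2 - W0) ≤ 0.8465 ^ 2 * 0.201627 := by
    apply mul_le_mul h1 hA1.le (by linarith) (by norm_num)
  nlinarith

theorem P6E_K0 : (R ^ 2 - W0) ^ 2 ≤ 0.0406535 ∧ (0.040653 : ℝ) ≤ (R ^ 2 - W0) ^ 2 := by
  have hA1 := C1B_A_lo
  have hA2 := C1B_A_hi
  constructor
  · have := pow_le_pow_left₀ (by linarith) hA2.le 2
    norm_num at this ⊢
    linarith
  · have := pow_le_pow_left₀ (by norm_num) hA1.le 2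
    norm_num at this ⊢
    linarith

theorem P6E_K1 : (0.0096266 : ℝ) ≤ 3 * (R ^ 2 - W0) ^ 2 / (8 * R ^ 2) := by
  have hR0 := R_pos
  rw [le_div_iff₀ (by positivity)]
  linarith [R_sq_hi, P6E_K0.2]

theorem P6E_K2 : (0.0121143 : ℝ) ≤ 3 * (R ^ 2 - W0) ^ 2 / (8 * R) := by
  have hR0 := R_pos
  rw [le_div_iff₀ (by positivity)]
  linarith [R_hi', P6E_K0.2]

theorem P6E_K3 : (0.02122 : ℝ) ≤ (R ^ 2 - W0) / (6 * R ^ 2) := by
  have hR0 := R_pos
  rw [le_div_iff₀ (by positivity)]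
  linarith [R_sq_hi, C1B_A_lo]

theorem P6E_K4 : R * (R ^ 2 - W0) / 2 ≤ 0.126865 := by
  have hA1 := C1B_A_lo
  have hA2 := C1B_A_hi
  have h1 : R * (R ^ 2 - W0) ≤ 1.258409 * 0.201627 :=
    mul_le_mul R_hi'.le hA2.le (by linarith) (by norm_num)
  norm_num at h1 ⊢
  linarith

/-- The constants of C1 with the credit. -/
theorem P6E_C1 {t q : ℝ} (ht : 1.2355 ≤ t) (htR : t < R) (hq0 : 0 ≤ q)
    (hq : q ^ 2 * (R ^ 2 - W0) = t ^ 2 - W0) :
    4.68 * (0.1119 * (R ^ 2 - W0) ^ 2 * (1 - q ^ 3) ^ 2) - 0.703 * Dl t +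
      0.0887 * (π / 3 * bet t) ≤ - 10 * J0 t ∧
    0.0887 * (π / 3 * bet t) ≤ 1.349 * Dl t := by
  have ht1 : 1 ≤ t := by linarith
  have hW : W0 ≤ t ^ 2 := by nlinarith [W0_hi]
  obtain ⟨hq1, hk1⟩ := tKU t q hW ht1 htR hq0 hq
  obtain ⟨hb1, -, hb3⟩ := tBQ t q hW ht1 htR hq0 hq
  have hκ := (tKAP t ht1 htR).1
  have hidn := tIDN t ht1 htR
  rw [C1B_alp ht1] at hidn
  rw [C1B_Dl ht1 htR hb3]
  have hq8 := P6E_q ht hq0 hq
  have hP := P6E_poly1 q hq8 hq1.le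
  have hP2 := P6E_poly2 q hq8 hq1.le
  obtain ⟨hd1, hd1'⟩ := C1B_d1
  have hd2 := C1B_d2
  obtain ⟨hbc1, hbc2⟩ := C1B_bc
  obtain ⟨hRW1, hRW2⟩ := C1B_RW
  have hA1 := C1B_A_lo
  have hA2 := C1B_A_hi
  obtain ⟨hA2sq, hA1sq⟩ := P6E_K0
  have a1 := P6E_K1
  have a2 := P6E_K2
  have a2' := P6E_K3
  have a5 := P6E_K4
  have hBf := P6E_Bf (by linarith : 0 < t) htR
  have hRt : R ^ 2 - t ^ 2 = (R ^ 2 - W0) * (1 - q ^ 2) := by
    linear_combination hq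
  rw [hRt] at hBf
  set κ := kap t with hκdef
  set β := bet t with hβdef
  set A := R ^ 2 - W0 with hA
  set d1 := (RO ^ 2 - R ^ 2) / 2 - R * W0 * (1 / R - 1 / RO) with hd1def
  set d2 := R * A * (1 / R - 1 / RO) with hd2def
  obtain ⟨bc, hbc⟩ : ∃ bc, bc = 2 * π * (1 - 1 / R) - π / 3 + 0.0887 * (π / 3) := ⟨_, rfl⟩
  have hpi1 := Real.pi_gt_d6
  have hpi2 := Real.pi_lt_d6
  have hR0 := R_pos
  have hbcl : (0.3359094 : ℝ) ≤ bc := by
    rw [hbc]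
    linarith
  have hbcu : bc ≤ (0.3359157 : ℝ) := by
    rw [hbc]
    linarith
  -- the functional
  have hJ : - 10 * J0 t = 2 * π * Bf t R - π * κ * rv ^ 2 - β * bc +
      0.0887 * (π / 3 * β) := by
    rw [hbc]
    linear_combination (-(1 / 12 : ℝ)) * hidn
  have hrv : rv ^ 2 ≤ 0.5835926 := by
    have := R_sq_hi
    rw [R_sq'] at this
    linarith
  have hrv0 : 0 ≤ rv ^ 2 := sq_nonneg _
  have hK0 : 0 ≤ Kq q := by linarith
  -- the coefficient of `κ`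
  have hc : π * rv ^ 2 - bc * (R * W0) + 0.703 * d1 ≤ 1.25135 := by
    have h1 : π * rv ^ 2 ≤ 3.141593 * 0.5835926 :=
      mul_le_mul hpi2.le hrv hrv0 (by norm_num)
    have h2 : 0.3359094 * 1.739077 ≤ bc * (R * W0) :=
      mul_le_mul hbcl hRW1.le (by norm_num) (by linarith)
    norm_num at h1 h2 ⊢
    linarith
  have hcκ : κ * (π * rv ^ 2 - bc * (R * W0) + 0.703 * d1) ≤ 0.07233 * Kq q := by
    have h1 : κ * (π * rv ^ 2 - bc * (R * W0) + 0.703 * d1) ≤ κ * 1.25135 :=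
      mul_le_mul_of_nonneg_left hc hκ
    have h2 : κ * 1.25135 ≤ 0.0578 * Kq q * 1.25135 :=
      mul_le_mul_of_nonneg_right hk1 (by norm_num)
    linarith
  -- the terms in `q`
  have hA0 : 0 ≤ A := by linarith
  have hq3 : 0 ≤ q ^ 3 := by positivity
  have t1 : 4.68 * (0.1119 * A ^ 2 * (1 - q ^ 3) ^ 2) ≤ 0.02129 * (1 - q ^ 3) ^ 2 := by
    have h1 : 0 ≤ (1 - q ^ 3) ^ 2 := sq_nonneg _
    have h2 : 4.68 * (0.1119 * A ^ 2) ≤ 0.02129 := by linarith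
    calc 4.68 * (0.1119 * A ^ 2 * (1 - q ^ 3) ^ 2) = 4.68 * (0.1119 * A ^ 2) * (1 - q ^ 3) ^ 2 := by
          ring
      _ ≤ 0.02129 * (1 - q ^ 3) ^ 2 := mul_le_mul_of_nonneg_right h2 h1
  have t2 : d2 * q ^ 3 ≤ 0.00259 * q ^ 3 := mul_le_mul_of_nonneg_right hd2 hq3
  -- `Bf` and `β`
  have hS : 0 ≤ (1 - q ^ 2) ^ 2 := sq_nonneg _
  have hq2 : 0 ≤ 1 - q ^ 2 := by
    have := pow_le_one₀ hq0 hq1.le (n := 2)
    linarith
  have hS3 : 0 ≤ (1 - q ^ 2) ^ 3 := by positivity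
  have hT : 0 ≤ (1 - q) ^ 2 * (1 + 2 * q) := by positivity
  have hbc0 : 0 ≤ bc := by linarith
  have h5 : β * bc ≤ (R * A / 2 * (1 - q) ^ 2 * (1 + 2 * q)
      - 3 * A ^ 2 / (8 * R) * (1 - q ^ 2) ^ 2 - κ * R * W0) * bc :=
    mul_le_mul_of_nonneg_right hb1 hbc0
  have h6 : 2 * π * (3 * A ^ 2 / (8 * R ^ 2) * (1 - q ^ 2) ^ 2 +
      3 * A ^ 2 / (8 * R ^ 2) * (A / (6 * R ^ 2)) * (1 - q ^ 2) ^ 3) ≤ 2 * π * Bf t R := by
    apply mul_le_mul_of_nonneg_left _ (by linarith)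
    refine le_of_eq_of_le ?_ hBf
    ring
  have h7 : (0.06455 : ℝ) ≤ 2 * π * (3 * A ^ 2 / (8 * R ^ 2)) + bc * (3 * A ^ 2 / (8 * R)) := by
    have a3 : 6.283184 * 0.0096266 ≤ 2 * π * (3 * A ^ 2 / (8 * R ^ 2)) :=
      mul_le_mul (by linarith) a1 (by norm_num) (by linarith)
    have a4 : 0.3359094 * 0.0121143 ≤ bc * (3 * A ^ 2 / (8 * R)) :=
      mul_le_mul hbcl a2 (by norm_num) hbc0
    norm_num at a3 a4 ⊢
    linarith
  have h7b : (0.00128 : ℝ) ≤ 2 * π * (3 * A ^ 2 / (8 * R ^ 2) * (A / (6 * R ^ 2))) := by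
    have a3 : 0.0096266 * 0.02122 ≤ 3 * A ^ 2 / (8 * R ^ 2) * (A / (6 * R ^ 2)) :=
      mul_le_mul a1 a2' (by norm_num) (by linarith)
    have a4 : 6.283184 * (0.0096266 * 0.02122) ≤
        2 * π * (3 * A ^ 2 / (8 * R ^ 2) * (A / (6 * R ^ 2))) :=
      mul_le_mul (by linarith) a3 (by norm_num) (by linarith)
    norm_num at a4 ⊢
    linarith
  have a6 : 0 ≤ R * A / 2 := by positivity
  have h8 : bc * (R * A / 2) ≤ 0.042617 := by
    have a3 : bc * (R * A / 2) ≤ 0.3359157 * 0.126865 :=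
      mul_le_mul hbcu a5 a6 (by norm_num)
    norm_num at a3 ⊢
    linarith
  have h9 : 0.06455 * (1 - q ^ 2) ^ 2 ≤
      (2 * π * (3 * A ^ 2 / (8 * R ^ 2)) + bc * (3 * A ^ 2 / (8 * R))) * (1 - q ^ 2) ^ 2 :=
    mul_le_mul_of_nonneg_right h7 hS
  have h9b : 0.00128 * (1 - q ^ 2) ^ 3 ≤
      2 * π * (3 * A ^ 2 / (8 * R ^ 2) * (A / (6 * R ^ 2))) * (1 - q ^ 2) ^ 3 :=
    mul_le_mul_of_nonneg_right h7b hS3
  have h10 : bc * (R * A / 2) * ((1 - q) ^ 2 * (1 + 2 * q)) ≤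
      0.042617 * ((1 - q) ^ 2 * (1 + 2 * q)) := mul_le_mul_of_nonneg_right h8 hT
  constructor
  · rw [hJ]
    linear_combination hP + t1 + hcκ + 0.703 * t2 + 0.703 * hd1 + h5 + h6 + h9 + h9b + h10
  · -- the second inequality
    have e1 : β ≤ 0.126865 * ((1 - q) ^ 2 * (1 + 2 * q)) := by
      have b1 : 0 ≤ 3 * A ^ 2 / (8 * R) * (1 - q ^ 2) ^ 2 := by positivity
      have b2 : 0 ≤ κ * R * W0 := by
        have : 0 < W0 := by linarith [W0_lo]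
        positivity
      have b3 : R * A / 2 * ((1 - q) ^ 2 * (1 + 2 * q)) ≤
          0.126865 * ((1 - q) ^ 2 * (1 + 2 * q)) := mul_le_mul_of_nonneg_right a5 hT
      have b4 : R * A / 2 * (1 - q) ^ 2 * (1 + 2 * q) =
          R * A / 2 * ((1 - q) ^ 2 * (1 + 2 * q)) := by ring
      linarith
    have hβ : 0 ≤ β := (tBET t ht1 htR).1
    have e2 : 2 * (0.0887 * (π / 3 * β)) ≤ 0.02357 * ((1 - q) ^ 2 * (1 + 2 * q)) := by
      have b1 : π / 3 * β ≤ 1.0471977 * β := mul_le_mul_of_nonneg_right (by linarith) hβ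
      linear_combination 0.1774 * b1 + 0.1774 * 1.0471977 * e1 +
        (0.02357 - 0.1774 * 1.0471977 * 0.126865) * hT
    have hk2 : κ ≤ 1 := C1G_k t ht1 htR
    have e4 : (1 - κ) * 0.00298 ≤ (1 - κ) * d1 :=
      mul_le_mul_of_nonneg_left hd1 (by linarith)
    linear_combination (1 / 2) * e2 + (1 / 2) * hP2 + 1.349 * e4 + 1.349 * t2 +
      1.349 * 0.00298 * hk1

/-- The facets with six or seven sides, radii `t ≥ 1.2355`. -/
theorem p6_E (t h : ℝ) (ht : 1.2355 ≤ t) (htR : t < R) (hh1 : 1 ≤ h) (hht : h ≤ t) :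
    ∃ gM, 0 ≤ gM ∧ (∀ r, 1 ≤ r → r ≤ R → bb t R - bb t r ≤ gM) ∧
      - 2 * π * HH t h (rr h R) - 2 * π * h * Dl t + 2 * h * (2.34 * gM + 2.79 * Dl t) ≤
        π / 3 * bet t * (1 - 0.0887 - (h - 1) * 3.9) ∧
      - 2 * π * HH t h (rr h R) - 2 * π * h * Dl t + 2 * h * (0.52 * gM + 1.441 * Dl t) ≤
        π / 3 * bet t * (1 - 3 * 0.0887 - (h - 1) * 3.9) := by
  have ht1 : 1 ≤ t := by linarith
  have hW : W0 ≤ t ^ 2 := by nlinarith [W0_hi]
  have hA : 0 < R ^ 2 - W0 := sub_pos.mpr W0_lt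
  obtain ⟨q, hq0, hq⟩ : ∃ q : ℝ, 0 ≤ q ∧ q ^ 2 * (R ^ 2 - W0) = t ^ 2 - W0 := by
    refine ⟨√((t ^ 2 - W0) / (R ^ 2 - W0)), Real.sqrt_nonneg _, ?_⟩
    rw [Real.sq_sqrt (div_nonneg (sub_nonneg.mpr hW) hA.le), div_mul_cancel₀ _ hA.ne']
  obtain ⟨hg1, hgM, -⟩ := tC1G t q hW ht1 htR hq0 hq
  obtain ⟨hJ, hJ2⟩ := P6E_C1 ht htR hq0 hq
  obtain ⟨gM, hgdef⟩ : ∃ g, g = 0.1119 * (R ^ 2 - W0) ^ 2 * (1 - q ^ 3) ^ 2 := ⟨_, rfl⟩
  rw [← hgdef] at hg1 hgM hJ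
  have hg0 : 0 ≤ gM := by
    rw [hgdef]
    positivity
  refine ⟨gM, hg0, hgM, ?_⟩
  obtain ⟨hBnn, -⟩ := p_BF
  have ht0 : 0 < t := by linarith
  have hh0 : 0 < h := by linarith
  have hhR : h ≤ R := by linarith
  have hκ := (tKAP t ht1 htR).1
  have hβ := (tBET t ht1 htR).1
  have hB := hBnn t R ht0 R_pos
  have hΔ : 0 ≤ Dl t := FBC_Dl ht1 htR
  have hidn := tIDN t ht1 htR
  -- the value of `HH` at height `h`
  have hBh : Bf t h = 0 := by rw [Bf, if_pos hht]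
  have e1 : HH t h (rr h R) = h * bb t R + kap t * h ^ 3 / 2 - bet t := by
    rw [tHB t h (rr h R) ht0 hh0 (Real.sqrt_nonneg _), C2_cc hh1 hhR, hBh, sub_zero]
  have e2 : alp t = bb t R + kap t / 2 - bet t := by
    have h3 := tHB t 1 rv ht0 one_pos rv_pos.le
    rw [one_mul, cc_rv] at h3
    have h4 : Bf t 1 = 0 := by
      rw [Bf, if_pos ht1]
    rw [h4] at h3
    have h5 : alp t = HH t 1 rv := rfl
    rw [h5, h3]
    ring_nf
  have e3 : bb t R = Bf t R + bet t / R - kap t * R ^ 2 / 2 := rfl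
  have hpi1 := Real.pi_gt_d6
  have hpi2 := Real.pi_lt_d6
  have hpR : (3.9 * (π / 3) : ℝ) ≤ 2 * π / R := by
    rw [le_div_iff₀ R_pos]
    nlinarith [R_hi', R_pos]
  have h9 : 0 ≤ h - 1 := by linarith
  have hR0 := R_pos
  -- `Z + 3 π κ ≥ 2 π β / R`
  have hZ : 2 * π * (bet t / R) ≤ 2 * π * bb t R - 4.68 * gM + (2 * π - 5.58) * Dl t
      + 3 * π * kap t := by
    rw [e3]
    have h10 : 0 ≤ (2 * π - 5.58) * Dl t := mul_nonneg (by linarith) hΔ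
    have h11 : 4.68 * gM ≤ 2 * π * Bf t R := by
      have : 5.148 * Bf t R ≤ 2 * π * Bf t R := mul_le_mul_of_nonneg_right (by linarith) hB
      linarith
    have h12 : 0 ≤ π * kap t * (3 - R ^ 2) := by
      have : 0 ≤ 3 - R ^ 2 := by linarith [R_sq_hi]
      have hp := Real.pi_pos.le
      positivity
    nlinarith
  have hL1 : 2 * π * bet t - (2 * π * bb t R - 4.68 * gM + (2 * π - 5.58) * Dl t)
      - π * kap t ≤ π / 3 * bet t * (1 - 0.0887) := by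
    have h10 : 0.703 * Dl t ≤ (2 * π - 5.58) * Dl t :=
      mul_le_mul_of_nonneg_right (by linarith) hΔ
    have h11 : 2 * π * alp t = 2 * π * bb t R + π * kap t - 2 * π * bet t := by
      rw [e2]
      ring
    linarith
  have hcub : 3 * (h - 1) ≤ h ^ 3 - 1 := by
    nlinarith [mul_nonneg h9 h9, mul_nonneg (mul_nonneg h9 h9) h9]
  have hκc : π * kap t * (3 * (h - 1)) ≤ π * kap t * (h ^ 3 - 1) :=
    mul_le_mul_of_nonneg_left hcub (mul_nonneg Real.pi_pos.le hκ)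
  have hZ' := mul_le_mul_of_nonneg_left hZ h9
  have hpR' : 3.9 * (π / 3) * (bet t * (h - 1)) ≤ 2 * π / R * (bet t * (h - 1)) :=
    mul_le_mul_of_nonneg_right hpR (mul_nonneg hβ h9)
  have hpR2 : 2 * π / R * (bet t * (h - 1)) = (h - 1) * (2 * π * (bet t / R)) := by ring
  rw [hpR2] at hpR'
  have hfirst : - 2 * π * HH t h (rr h R) - 2 * π * h * Dl t +
      2 * h * (2.34 * gM + 2.79 * Dl t) ≤ π / 3 * bet t * (1 - 0.0887 - (h - 1) * 3.9) := by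
    rw [e1]
    linear_combination hL1 + hκc + hZ' + hpR'
  refine ⟨hfirst, ?_⟩
  have h13 : 0 ≤ h * gM := mul_nonneg hh0.le hg0
  have h14 : 0 ≤ (h - 1) * Dl t := mul_nonneg h9 hΔ
  linear_combination hfirst + 3.64 * h13 + 2.698 * h14 + 2 * hJ2

end Pool.Agent.SDL
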