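import Pool.Agent.SDL.Targets3
import Pool.Agent.SDL.P6_E
import Pool.Agent.SDL.P6_F

set_option autoImplicit false

/-!
# SDL: facets with at least six near sides, radii `t ≥ 1.2355`
-/

open MeasureTheory Set Real
open scoped RealInnerProductSpace

namespace Pool.Agent.SDL

open Pool.Agent.SDC

/-- The facets with at least six near sides, radii `t ≥ 1.2355`, with the numbers of the chord and
of the credit. -/
theorem p6_hi {ι : Type} [Fintype ι] (n : ι → E3) (h : ι → ℝ) (i : ι) (e f : E3) (t : ℝ)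
    (hP : Pck n h) (hI : Irr n h) (hO : Onb (n i) e f) (ht : 1.2355 ≤ t) (htR : t < R)
    (hiO : h i < RO) (hns : 6 ≤ ns n h i) :
    -(π / 3 * bet t * (1 - (h i - 1) * 3.9 - 0.0887 * crd (ns n h i))) ≤ FI t n h i e f := by
  classical
  have ht1 : 1 ≤ t := by linarith
  have ht0 : 0 < t := by linarith
  have hh1 : 1 ≤ h i := hP.2.1 i
  have hh0 : 0 < h i := by linarith
  obtain ⟨S, hS⟩ : ∃ S : Finset ι, S = Finset.univ.filter fun j => NS n h i RP j := ⟨_, rfl⟩
  have hcard : ns n h i = S.card := by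
    rw [hS]
    unfold ns
    congr
  rw [hcard] at hns ⊢
  have hNS : ∀ j ∈ S, i ≠ j ∧ ⟪n i, n j⟫ ^ 2 < 1 ∧ 0 < ad n h i j ∧
      ad n h i j < rr (h i) RP := by
    intro j hj
    rw [hS] at hj
    have h1 : NS n h i RP j := (Finset.mem_filter.1 hj).2
    exact ⟨h1.1, (tNSF ι n h i j hP hI hiO h1.1).2.2 RP h1⟩
  obtain ⟨hy, hc7, z, hz, hzj'⟩ := p6_SIX S hP hiO (fun hi => (hNS i hi).1 rfl)
    (fun j hj => ⟨(hNS j hj).2.1, (hNS j hj).2.2.2⟩) hns
  have hzj : ∀ j ∈ S, π / 3 + 0.472 * (arccos (ad n h i j / rr (h i) R) - 0.39) ≤ arccos (z j) ∧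
      π / 3 + 0.577 * (arccos (ad n h i j / rr (h i) RO) - 0.465) ≤ arccos (z j) :=
    fun j hj => (hzj' j hj).2.2.2.2
  have hht : h i < t := by
    by_contra hcon
    push Not at hcon
    nlinarith
  have hhR : h i ≤ R := by linarith
  obtain ⟨gM, hg0, hgM, hA, hB⟩ := p6_E t (h i) ht htR hh1 hht.le
  obtain ⟨ρ', τ', hρ0, hρR, hGρ, -, -, -⟩ := tCB t (h i) ht1 htR hh1 (Or.inl hht)
  have hb0 := (tBET t ht1 htR).1
  have hD0 := FBC_Dl ht1 htR
  -- the facet
  have hmain := tFCX ι n h i e f RP (HH t (h i) (rr (h i) RO))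
    (fun j => h i * (gM * arccos (ad n h i j / rr (h i) R) +
      Dl t * arccos (ad n h i j / rr (h i) RO)))
    (G t (kap t) (bet t) (h i)) S hP.1 (fun k => by linarith [hP.2.1 k]) hI hO
    (tHCL.1 t (kap t) (bet t) (h i)) (hiO.trans RO_lt_RP)
    (fun j hj => (tNSF ι n h i j hP hI hiO (Ne.symm hj)).1)
    (fun r hr => FBC_HH ht1 htR hh0 hρ0 hGρ
      (hρR.trans (FBC_rr_mono hh0 R_pos.le R_lt_RO.le))
      ((FBC_rr_mono hh0 RO_pos.le RO_lt_RP.le).trans hr))
    (fun j hj => tTAJ t (h i) gM (ad n h i j) ht1 htR hh1 hhR hg0 hgM (hNS j hj).2.2.1)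
    (fun j hj => by
      rw [hS]
      exact Finset.mem_filter.2 ⟨Finset.mem_univ j, hj⟩)
  refine le_trans ?_ (hmain.trans (le_of_eq rfl))
  -- the two values of HH
  have hv : HH t (h i) (rr (h i) RO) = HH t (h i) (rr (h i) R) + h i * Dl t := by
    rw [tHB t (h i) (rr (h i) RO) ht0 hh0 (FBC_rr hh0 hiO.le).1,
      tHB t (h i) (rr (h i) R) ht0 hh0 (FBC_rr hh0 hhR).1, (FBC_rr hh0 hiO.le).2,
      (FBC_rr hh0 hhR).2, Dl]
    ring
  have hpi1 := Real.pi_gt_d6
  -- the sums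
  have hs1 : S.card * (π / 3) + 0.472 * (∑ j ∈ S, arccos (ad n h i j / rr (h i) R) -
      S.card * 0.39) ≤ 2 * π := by
    refine le_trans (le_of_eq ?_) ((Finset.sum_le_sum fun j hj => (hzj j hj).1).trans hz)
    rw [Finset.sum_add_distrib, Finset.sum_const, ← Finset.mul_sum, Finset.sum_sub_distrib,
      Finset.sum_const, nsmul_eq_mul, nsmul_eq_mul]
  have hs2 : S.card * (π / 3) + 0.577 * (∑ j ∈ S, arccos (ad n h i j / rr (h i) RO) -
      S.card * 0.465) ≤ 2 * π := by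
    refine le_trans (le_of_eq ?_) ((Finset.sum_le_sum fun j hj => (hzj j hj).2).trans hz)
    rw [Finset.sum_add_distrib, Finset.sum_const, ← Finset.mul_sum, Finset.sum_sub_distrib,
      Finset.sum_const, nsmul_eq_mul, nsmul_eq_mul]
  have hs : ∑ j ∈ S, h i * (gM * arccos (ad n h i j / rr (h i) R) +
      Dl t * arccos (ad n h i j / rr (h i) RO)) =
      h i * (gM * ∑ j ∈ S, arccos (ad n h i j / rr (h i) R) +
        Dl t * ∑ j ∈ S, arccos (ad n h i j / rr (h i) RO)) := by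
    rw [← Finset.mul_sum, Finset.sum_add_distrib, ← Finset.mul_sum, ← Finset.mul_sum]
  rw [hv, hs]
  generalize ∑ j ∈ S, arccos (ad n h i j / rr (h i) R) = s1 at *
  generalize ∑ j ∈ S, arccos (ad n h i j / rr (h i) RO) = s2 at *
  rcases (by omega : S.card = 6 ∨ S.card = 7) with h6 | h7
  · rw [h6] at hs1 hs2 ⊢
    have hcr : (crd 6 : ℝ) = 1 := by norm_num [crd]
    rw [hcr]
    have k1 : s1 ≤ 2.34 := by
      norm_num at hs1 ⊢
      linarith
    have k2 : s2 ≤ 2.79 := by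
      norm_num at hs2 ⊢
      linarith
    have k3 := mul_le_mul_of_nonneg_left k1 (mul_nonneg hh0.le hg0)
    have k4 := mul_le_mul_of_nonneg_left k2 (mul_nonneg hh0.le hD0)
    linear_combination hA + 2 * k3 + 2 * k4
  · rw [h7] at hs1 hs2 ⊢
    have hcr : (crd 7 : ℝ) = 3 := by norm_num [crd]
    rw [hcr]
    have k1 : s1 ≤ 0.52 := by
      norm_num at hs1 ⊢
      linarith
    have k2 : s2 ≤ 1.441 := by
      norm_num at hs2 ⊢
      linarith
    have k3 := mul_le_mul_of_nonneg_left k1 (mul_nonneg hh0.le hg0)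
    have k4 := mul_le_mul_of_nonneg_left k2 (mul_nonneg hh0.le hD0)
    linear_combination hB + 2 * k3 + 2 * k4

/-- The facets with at least six near sides, radii `t ≥ 1.2355`: this part of `T_P`. -/
theorem p_P6_hi {ι : Type} [Fintype ι] (n : ι → E3) (h : ι → ℝ) (i : ι) (e f : E3) (t : ℝ)
    (hP : Pck n h) (hI : Irr n h) (hO : Onb (n i) e f) (ht : 1.2355 ≤ t) (htR : t < R)
    (hi : h i < 1 + Lv t) (hns : 6 ≤ ns n h i) :
    -(π / 3 * bet t * (1 - (h i - 1) / Lv t - gv t * crd (ns n h i))) ≤ FI t n h i e f := by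
  have ht1 : 1 ≤ t := by linarith
  have hg : gv t = 0.0887 := by
    rw [gv, if_neg (by linarith)]
  have hL : Lv t = 0.19 / 0.7339 := by
    rw [Lv, hg]
    norm_num
  have hiO : h i < RO := by
    rw [hL] at hi
    have := RO_lo
    norm_num at hi
    linarith
  refine le_trans ?_ (p6_hi n h i e f t hP hI hO ht htR hiO hns)
  have hβ := (tBET t ht1 htR).1
  have hh1 : 1 ≤ h i := hP.2.1 i
  have h1 : (h i - 1) / Lv t ≤ (h i - 1) * 3.9 := by
    rw [hL, div_le_iff₀ (by norm_num)]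
    linarith
  rw [hg]
  have h2 : 0 ≤ π / 3 * bet t := by positivity
  have h3 : π / 3 * bet t * (1 - (h i - 1) * 3.9 - 0.0887 * crd (ns n h i)) ≤
      π / 3 * bet t * (1 - (h i - 1) / Lv t - 0.0887 * crd (ns n h i)) :=
    mul_le_mul_of_nonneg_left (by linarith) h2
  linarith

end Pool.Agent.SDL
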