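import Pool.Agent.SDL.P3_Asm
import Pool.Agent.SDL.P3_P4B
import Pool.Agent.SDL.P3_P4C
import Pool.Agent.SDL.P3_P4F
import Pool.Agent.SDL.P3_PD
import Pool.Agent.SDL.P6_C2
import Pool.Agent.SDL.P6_G
import Pool.Agent.SDL.P6_Hi

set_option autoImplicit false

/-!
# SDL: the target P
-/

open MeasureTheory Set Real
open scoped RealInnerProductSpace

namespace Pool.Agent.SDL

open Pool.Agent.SDC

/-- The region of the inequality for four sides. -/
def P4reg (t h : ℝ) : Prop :=
  (t ≤ 1.2 ∧ h ≤ 1.18) ∨ (1.2 ≤ t ∧ (h ≤ 1.2 ∨ (1.21 ≤ t ∧ h ≤ 1.22)))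

theorem P4_E4 {t h : ℝ} (ht : 1 ≤ t) (htR : t < R) :
    8 * E4 t h ≤ if t < 1.18 then 0.00102 else 0 := by
  have hκ := (tKAP t ht htR).1
  unfold E4
  by_cases h1 : t < 1.18
  · rw [if_pos h1]
    split_ifs
    · linarith
    · norm_num
  · rw [if_neg h1, if_neg (fun h => h1 h.2)]
    norm_num

/-- The slope and the credit for `t ≤ 1.2`. -/
theorem P4_cmpr {t h : ℝ} (ht : 1.151 ≤ t) (ht2 : t ≤ 1.2) (hh : 1 ≤ h) :
    1 - (h - 1) * ((4.72 - 3.3 * t) / 0.175) - (0.0074 + 1.163 * (t - 1.15)) ≤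
      1 - (h - 1) / Lv t - gv t := by
  have h1 : gv t = 1.2 * (t - 1.151) := by
    unfold gv
    rw [if_pos (by linarith)]
    exact max_eq_right (by linarith)
  have h2 : (h - 1) / Lv t = (h - 1) * ((1 - 3 * gv t) / 0.19) := by
    rw [Lv, div_div_eq_mul_div, mul_div_assoc]
  have h3 : (1 - 3 * gv t) / 0.19 ≤ (4.72 - 3.3 * t) / 0.175 := by
    rw [h1, div_le_div_iff₀ (by norm_num) (by norm_num)]
    linarith
  have h4 := mul_le_mul_of_nonneg_left h3 (show 0 ≤ h - 1 by linarith)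
  rw [h2]
  linarith

theorem P4_reg {t h : ℝ} (ht : 1.151 ≤ t) (htR : t < R) (hh : 1 ≤ h) (hht : h ≤ t)
    (hA : P4reg t h) :
    -(2 * π * HH t h (rr h RP) - 8 * (h * IT t (h ^ 2) + E4 t h)) ≤
      π / 3 * bet t * (1 - (h - 1) / Lv t - gv t) := by
  have hR := R_hi'
  have hb : 0 ≤ π / 3 * bet t :=
    mul_nonneg (div_nonneg Real.pi_pos.le (by norm_num)) (tBET t (by linarith) htR).1
  have hI := IP4_IT (t := t) (Y := h ^ 2) (by linarith) (by nlinarith) (by nlinarith)
  have hE := P4_E4 (t := t) (h := h) (by linarith) htR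
  rw [P4_HH (by linarith) hh hht htR]
  have key : 2 * π * bet t - π * kap t * h ^ 3 - h * IP4 t (h ^ 2) + 8 * E4 t h ≤
      π / 3 * bet t * (1 - (h - 1) / Lv t - gv t) := by
    rcases hA with ⟨h1, h2⟩ | ⟨h1, h2⟩
    · have h3 := P4C (t := t) (h := h) (by linarith) h1 hh h2
      have h4 := mul_le_mul_of_nonneg_left (P4_cmpr ht h1 hh) hb
      refine le_trans ?_ h4
      refine le_trans ?_ h3
      unfold IP4 psi4 w4
      linarith
    · have h3 := P4B (t := t) (h := h) h1 htR hh h2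
      refine le_trans ?_ h3
      rw [if_neg (by linarith)] at hE
      unfold IP4 psi4 w4
      linarith
  rw [hI] at key
  linarith

/-- The target P. -/
theorem p_P : T_P := by
  apply P_of (fun t h => h * IT t (h ^ 2) + E4 t h) P4reg
  · intro ι _ n h i e f t hP hI hO ht htR hht
    exact P4_FI n h i e f hP hI hO ht htR hht
  · intro t h ht htR hh hht hA
    exact P4_reg ht htR hh hht hA
  · intro ι _ n h i e f t hP hI hO ht htR hh hA _
    apply PD_all n h i e f hP hI hO ht htR hh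
    rcases le_or_gt t (h i) with h1 | h1
    · exact Or.inl h1
    · right
      have h2 : ¬ P4reg t (h i) := fun h3 => hA ⟨h1.le, h3⟩
      unfold P4reg at h2
      push Not at h2
      rcases le_total t 1.2 with h3 | h3
      · exact Or.inl ⟨h3, (h2.1 h3).le⟩
      · right
        obtain ⟨h4, h5⟩ := h2.2 h3
        rcases lt_or_ge t 1.21 with h6 | h6
        · exact Or.inl ⟨h3, by linarith, h4.le⟩
        · exact Or.inr (by linarith [h5 h6])
  · intro ι _ n h i e f t hP hI hO ht htR hh h6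
    rcases le_total t 1.2355 with h1 | h1
    · exact p6_lo (fun _ _ a b c _ d => c6_i0 a b c d) (fun _ _ a b c _ d => c6_i1 a b c d)
        (fun _ _ a b c _ d => c6_i2 a b c d) (fun _ _ a b c _ d => c6_i3 a b c d)
        (fun _ _ a b c _ d => c6_i4 a b c d) hP hI hO ht h1 hh h6
    · exact p_P6_hi n h i e f t hP hI hO h1 htR hh h6

end Pool.Agent.SDL
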