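import Pool.Agent.SDL.AffVert
import Pool.Agent.SDL.AffEx
import Pool.Agent.BPK.Link

set_option autoImplicit false

/-!
# AffBox: vertex inequalities from kernel checks on boxes
-/

namespace Pool.Agent.SDL

open Pool.Agent.BPK

/-- Integer affine form in the three sides. -/
structure Lf where
  /-- constant -/
  c0 : ℤ
  /-- coefficient of the first side -/
  c1 : ℤ
  /-- coefficient of the second side -/
  c2 : ℤ
  /-- coefficient of the third side -/
  c3 : ℤ
deriving DecidableEq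

/-- The value. -/
def Lf.val (l : Lf) (u v t : ℝ) : ℝ := l.c0 + l.c1 * u + l.c2 * v + l.c3 * t

/-- The weights of a vertex. -/
structure Vx where
  /-- no mark -/
  w : Lf
  /-- first mark -/
  a : Lf
  /-- second mark -/
  b : Lf
  /-- third mark -/
  d : Lf

section expr

variable {E : Type} (o : EOps E)

/-- Affine form as an expression. -/
def Lf.toE (l : Lf) (u v t : E) : E :=
  o.ad (o.cst l.c0) (o.ad (o.mu (o.cst l.c1) u) (o.ad (o.mu (o.cst l.c2) v)
    (o.mu (o.cst l.c3) t)))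

theorem Lf.ev_toE {ev : E → ℝ} (H : o.IsEv ev) (l : Lf) (u v t : E) :
    ev (l.toE o u v t) = l.val (ev u) (ev v) (ev t) := by
  simp only [Lf.toE, Lf.val, H.ad, H.mu, H.cst]
  ring

/-- A term with a weight, omitted if the weight is zero. -/
def tmE (l : Lf) (u v t : E) (x : E) : List E :=
  if l = ⟨0, 0, 0, 0⟩ then [] else [o.mu (l.toE o u v t) x]

theorem ev_tmE {ev : E → ℝ} (H : o.IsEv ev) (l : Lf) (u v t x : E) :
    ((tmE o l u v t x).map ev).sum = l.val (ev u) (ev v) (ev t) * ev x := by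
  unfold tmE
  split_ifs with h
  · subst h
    simp [Lf.val]
  · simp [H.mu, Lf.ev_toE o H]

/-- The Gram determinant as an expression. -/
def gmE (u v t : E) : E :=
  o.ad (o.cst 1) (o.ad (o.mu (o.cst 2) (o.mu u (o.mu v t))) (o.ad (o.mu (o.cst (-1)) (o.mu u u))
    (o.ad (o.mu (o.cst (-1)) (o.mu v v)) (o.mu (o.cst (-1)) (o.mu t t)))))

theorem ev_gmE {ev : E → ℝ} (H : o.IsEv ev) (u v t : E) :
    ev (gmE o u v t) = 1 + 2 * ev u * ev v * ev t - ev u ^ 2 - ev v ^ 2 - ev t ^ 2 := by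
  simp only [gmE, H.ad, H.mu, H.cst]
  push_cast
  ring

/-- The value at a vertex as an expression. -/
def Cert.VE (C : Cert) (N : ℕ) (x : Vx) (u v t : E) : E :=
  sumE o (tmE o x.w u v t (C.Z0E o N u v t) ++ (tmE o x.a u v t (C.Z1E o N u v t) ++
    (tmE o x.b u v t (C.Z1E o N u t v) ++ tmE o x.d u v t (C.Z1E o N v t u))))

theorem Cert.ev_VE {ev : E → ℝ} (H : o.IsEv ev) (C : Cert) (N : ℕ) (x : Vx) (u v t : E) :
    ev (C.VE o N x u v t) =
      Fv (C.Z0 N (ev u) (ev v) (ev t)) (C.Z1 N (ev u) (ev v) (ev t))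
        (C.Z1 N (ev u) (ev t) (ev v)) (C.Z1 N (ev v) (ev t) (ev u))
        (x.w.val (ev u) (ev v) (ev t)) (x.a.val (ev u) (ev v) (ev t))
        (x.b.val (ev u) (ev v) (ev t)) (x.d.val (ev u) (ev v) (ev t)) := by
  rw [Cert.VE, ev_sumE o H]
  simp only [List.map_append, List.sum_append, ev_tmE o H, C.ev_Z0E o H, C.ev_Z1E o H, Fv]
  ring

/-- The terms of the side conditions. -/
def csE : List Lf → List ℕ → E → E → E → List E
  | l :: ls, k :: ks, u, v, t =>
      if k = 0 then csE ls ks u v t else o.mu (o.cst (-(k : ℤ))) (l.toE o u v t) :: csE ls ks u v t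
  | _, _, _, _, _ => []

theorem ev_csE {ev : E → ℝ} (H : o.IsEv ev) (ls : List Lf) (ks : List ℕ) (u v t : E)
    (h : ∀ l ∈ ls, 0 ≤ l.val (ev u) (ev v) (ev t)) :
    ((csE o ls ks u v t).map ev).sum ≤ 0 := by
  induction ls generalizing ks with
  | nil => simp [csE]
  | cons l ls ih =>
    cases ks with
    | nil => simp [csE]
    | cons k ks =>
      have h1 := ih ks fun l hl => h l (List.mem_cons_of_mem _ hl)
      have h2 := h l List.mem_cons_self
      rw [csE]
      split_ifs with hk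
      · exact h1
      · rw [List.map_cons, List.sum_cons, H.mu, H.cst, Lf.ev_toE o H]
        have h3 : (0 : ℝ) ≤ k := Nat.cast_nonneg k
        push_cast
        nlinarith [mul_nonneg h3 h2]

/-- An item: minus a combination of the value, the Gram determinant and the side conditions. -/
def Cert.IE (C : Cert) (N : ℕ) (x : Vx) (ls : List Lf) (m g : ℕ) (ks : List ℕ) (u v t : E) : E :=
  sumE o ((if m = 0 then [] else [o.mu (o.cst (-(m : ℤ))) (C.VE o N x u v t)]) ++
    ((if g = 0 then [] else [o.mu (o.cst (-(g : ℤ))) (gmE o u v t)]) ++ csE o ls ks u v t))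

theorem Cert.ev_IE {ev : E → ℝ} (H : o.IsEv ev) (C : Cert) (N : ℕ) (x : Vx) (ls : List Lf)
    (m g : ℕ) (ks : List ℕ) (u v t : E) (hg : Gm (ev u) (ev v) (ev t))
    (hl : ∀ l ∈ ls, 0 ≤ l.val (ev u) (ev v) (ev t)) (hpos : 0 < ev (C.IE o N x ls m g ks u v t)) :
    Fv (C.Z0 N (ev u) (ev v) (ev t)) (C.Z1 N (ev u) (ev v) (ev t))
        (C.Z1 N (ev u) (ev t) (ev v)) (C.Z1 N (ev v) (ev t) (ev u))
        (x.w.val (ev u) (ev v) (ev t)) (x.a.val (ev u) (ev v) (ev t))
        (x.b.val (ev u) (ev v) (ev t)) (x.d.val (ev u) (ev v) (ev t)) < 0 := by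
  have h1 := ev_csE o H ls ks u v t hl
  rw [← C.ev_VE o H N x u v t]
  rw [Cert.IE, ev_sumE o H, List.map_append, List.map_append, List.sum_append,
    List.sum_append] at hpos
  have h2 : (((if g = 0 then [] else [o.mu (o.cst (-(g : ℤ))) (gmE o u v t)]) : List E).map
      ev).sum ≤ 0 := by
    split_ifs with hg0
    · simp
    · simp only [List.map_cons, List.map_nil, List.sum_cons, List.sum_nil, add_zero, H.mu, H.cst,
        ev_gmE o H]
      unfold Gm at hg
      have h3 : (0 : ℝ) ≤ g := Nat.cast_nonneg g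
      push_cast
      nlinarith [mul_nonneg h3 hg]
  have h4 : 0 < (((if m = 0 then [] else [o.mu (o.cst (-(m : ℤ))) (C.VE o N x u v t)]) :
      List E).map ev).sum := by linarith
  split_ifs at h4 with hm
  · simp at h4
  · simp only [List.map_cons, List.map_nil, List.sum_cons, List.sum_nil, add_zero, H.mu,
      H.cst] at h4
    have h3 : (0 : ℝ) < m := by exact_mod_cast Nat.pos_of_ne_zero hm
    push_cast at h4
    by_contra hc
    push Not at hc
    nlinarith [mul_nonneg h3.le hc]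

end expr

/-- Items of a check: degrees and multipliers. -/
structure ItD where
  /-- degree -/
  n1 : ℕ
  /-- degree -/
  n2 : ℕ
  /-- degree -/
  n3 : ℕ
  /-- multiplier of the value -/
  m : ℕ
  /-- multiplier of the Gram determinant -/
  g : ℕ
  /-- multipliers of the side conditions -/
  ks : List ℕ

/-- The variable minus one. -/
def shE (x : Ex) : Ex := .add x (.c 0 1)

/-- The items as expressions in `1 + u`, `1 + v`, `1 + t`. -/
def Cert.its (C : Cert) (N : ℕ) (x : Vx) (ls : List Lf) (l : List ItD) : List EIt :=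
  l.map fun i => ⟨i.n1, i.n2, i.n3, C.IE exOps N x ls i.m i.g i.ks (shE .u) (shE .v) (shE .t)⟩

/-- **A vertex inequality from a kernel check.** -/
theorem Cert.box (C : Cert) (N : ℕ) (x : Vx) (ls : List Lf) (l : List ItD)
    (W0 W1 e fuel : ℕ) (b : Box) (ss : List ℕ) (cert : ℕ) (hW0 : 2 ≤ W0) (hW1 : 2 ≤ W1)
    (hq : 0 < b.q1 ∧ 0 < b.q2 ∧ 0 < b.q3)
    (h : checkE W0 W1 e fuel b (C.its N x ls l) ss cert = true) (u v t : ℝ)
    (hb : b.In (1 + u) (1 + v) (1 + t)) (hg : Gm u v t) (hl : ∀ c ∈ ls, 0 ≤ c.val u v t) :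
    C.V N u v t (x.w.val u v t) (x.a.val u v t) (x.b.val u v t) (x.d.val u v t) := by
  obtain ⟨p, hp, hpos⟩ := checkE_spec W0 W1 e fuel b _ ss cert hW0 hW1 hq h _ _ _ hb
  rw [Cert.its, List.mem_map] at hp
  obtain ⟨i, -, rfl⟩ := hp
  have e1 : Ex.evR (1 + u) (1 + v) (1 + t) (shE .u) = u := by simp [shE, Ex.evR]
  have e2 : Ex.evR (1 + u) (1 + v) (1 + t) (shE .v) = v := by simp [shE, Ex.evR]
  have e3 : Ex.evR (1 + u) (1 + v) (1 + t) (shE .t) = t := by simp [shE, Ex.evR]
  have h1 := C.ev_IE exOps (exOps_isEv (1 + u) (1 + v) (1 + t)) N x ls i.m i.g i.ks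
    (shE .u) (shE .v) (shE .t)
  rw [e1, e2, e3] at h1
  exact h1 hg hl hpos

end Pool.Agent.SDL
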