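import Pool.Agent.SDL.Affine

set_option autoImplicit false

/-!
# AffCert: integer certificates for the affine three point bound
-/

open scoped RealInnerProductSpace

namespace Pool.Agent.SDL

open Pool.Agent.SDC Leg

/-- The Legendre polynomials, positive integer multiples. -/
def legL : ℕ → List ℤ
  | 0 => [1]
  | 1 => [0, 1]
  | 2 => [-1, 0, 3]
  | 3 => [0, -3, 0, 5]
  | 4 => [3, 0, -30, 0, 35]
  | 5 => [0, 15, 0, -70, 0, 63]
  | 6 => [-5, 0, 105, 0, -315, 0, 231]
  | 7 => [0, -35, 0, 315, 0, -693, 0, 429]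
  | 8 => [35, 0, -1260, 0, 6930, 0, -12012, 0, 6435]
  | 9 => [0, 315, 0, -4620, 0, 18018, 0, -25740, 0, 12155]
  | 10 => [-63, 0, 3465, 0, -30030, 0, 90090, 0, -109395, 0, 46189]
  | 11 => [0, -693, 0, 15015, 0, -90090, 0, 218790, 0, -230945, 0, 88179]
  | 12 => [231, 0, -18018, 0, 225225, 0, -1021020, 0, 2078505, 0, -1939938, 0, 676039]
  | _ => []

theorem PSDk.of_mul {P Q : ℝ → ℝ} (hP : PSDk P) (a : ℝ) (ha : 0 ≤ a) (h : ∀ u, Q u = a * P u) :
    PSDk Q := by
  intro ι _ n c hn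
  have h1 := mul_nonneg ha (hP ι inferInstance n c hn)
  refine le_of_le_of_eq h1 ?_
  rw [Finset.mul_sum]
  refine Finset.sum_congr rfl fun i _ => ?_
  rw [Finset.mul_sum]
  refine Finset.sum_congr rfl fun j _ => ?_
  rw [h]
  ring

theorem psd_legL (k : ℕ) : PSDk fun u => pv u (legL k) := by
  match k with
  | 0 => exact PSDk.of_mul psd_L0 1 (by norm_num) fun u => by simp [legL, pv, L0]
  | 1 => exact PSDk.of_mul psd_L1 1 (by norm_num) fun u => by simp [legL, pv, L1]
  | 2 => exact PSDk.of_mul psd_L2 2 (by norm_num) fun u => by simp [legL, pv, L2]; ring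
  | 3 => exact PSDk.of_mul psd_L3 2 (by norm_num) fun u => by simp [legL, pv, L3]; ring
  | 4 => exact PSDk.of_mul psd_L4 8 (by norm_num) fun u => by simp [legL, pv, L4]; ring
  | 5 => exact PSDk.of_mul psd_L5 8 (by norm_num) fun u => by simp [legL, pv, L5]; ring
  | 6 => exact PSDk.of_mul psd_L6 16 (by norm_num) fun u => by simp [legL, pv, L6]; ring
  | 7 => exact PSDk.of_mul psd_L7 16 (by norm_num) fun u => by simp [legL, pv, L7]; ring
  | 8 => exact PSDk.of_mul psd_L8 128 (by norm_num) fun u => by simp [legL, pv, L8]; ring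
  | 9 => exact PSDk.of_mul psd_L9 128 (by norm_num) fun u => by simp [legL, pv, L9]; ring
  | 10 => exact PSDk.of_mul psd_L10 256 (by norm_num) fun u => by simp [legL, pv, L10]; ring
  | 11 => exact PSDk.of_mul psd_L11 256 (by norm_num) fun u => by simp [legL, pv, L11]; ring
  | 12 => exact PSDk.of_mul psd_L12 1024 (by norm_num) fun u => by simp [legL, pv, L12]; ring
  | (k + 13) => exact PSDk.of_mul psd_L0 0 le_rfl fun u => by simp [legL, pv]

/-- One term of the two point kernel: `D (a + b X) (a + b Y) P_k(u)`. -/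
structure Tw where
  /-- weight -/
  D : ℤ
  /-- constant -/
  a : ℤ
  /-- coefficient of the mark -/
  b : ℤ

/-- The matrix of one order of the two point kernel. -/
noncomputable def Tw.val (l : List Tw) (X Y : ℝ) : ℝ :=
  (l.map fun p => (p.D : ℝ) * ((p.a + p.b * X) * (p.a + p.b * Y))).sum

/-- The two point kernel (orders `k, k + 1, ...`). -/
noncomputable def KR : List (List Tw) → ℕ → ℝ → ℝ → ℝ → ℝ
  | [], _, _, _, _ => 0
  | l :: e, k, u, X, Y => Tw.val l X Y * pv u (legL k) + KR e (k + 1) u X Y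

section expr

variable {E : Type} (o : EOps E)

/-- The matrix of one order as an expression. -/
def Tw.valE (l : List Tw) (X Y : E) : E :=
  sumE o (l.map fun p => o.mu (o.cst p.D) (o.mu (o.ad (o.cst p.a) (o.mu (o.cst p.b) X))
    (o.ad (o.cst p.a) (o.mu (o.cst p.b) Y))))

/-- The two point kernel as an expression. -/
def KE : List (List Tw) → ℕ → E → E → E → E
  | [], _, _, _, _ => o.cst 0
  | l :: e, k, u, X, Y => o.ad (o.mu (Tw.valE o l X Y) (hor o u (legL k))) (KE e (k + 1) u X Y)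

theorem Tw.ev_valE {ev : E → ℝ} (H : o.IsEv ev) (l : List Tw) (X Y : E) :
    ev (Tw.valE o l X Y) = Tw.val l (ev X) (ev Y) := by
  rw [Tw.valE, Tw.val, ev_sumE o H, List.map_map]
  congr 1
  apply List.map_congr_left
  intro p _
  simp only [Function.comp, H.mu, H.ad, H.cst]

theorem ev_KE {ev : E → ℝ} (H : o.IsEv ev) (e : List (List Tw)) (k : ℕ) (u X Y : E) :
    ev (KE o e k u X Y) = KR e k (ev u) (ev X) (ev Y) := by
  induction e generalizing k with
  | nil => simp [KE, KR, H.cst]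
  | cons l e ih => rw [KE, KR, H.ad, H.mu, ih, Tw.ev_valE o H, ev_hor o H]

end expr

/-- All weights are nonnegative. -/
def wOK (e : List (List Tw)) : Bool := e.all fun l => l.all fun p => decide (0 ≤ p.D)

section pos

variable {ι : Type} [Fintype ι]

theorem KR_pos (e : List (List Tw)) (k : ℕ) (he : wOK e = true)
    (n : ι → EuclideanSpace ℝ (Fin 3)) (hn : ∀ i, ‖n i‖ = 1) (x : ι → ℝ) :
    0 ≤ ∑ i, ∑ j, KR e k ⟪n i, n j⟫ (x i) (x j) := by
  induction e generalizing k with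
  | nil => simp [KR]
  | cons l e ih =>
    rw [wOK, List.all_cons, Bool.and_eq_true] at he
    have h1 := ih (k + 1) he.2
    simp only [KR, Finset.sum_add_distrib]
    refine add_nonneg ?_ h1
    have h2 := he.1
    clear h1 he ih
    induction l with
    | nil => simp [Tw.val]
    | cons p l ih =>
      rw [List.all_cons, Bool.and_eq_true, decide_eq_true_iff] at h2
      have h3 := ih h2.2
      have h4 : (0 : ℝ) ≤ p.D := by exact_mod_cast h2.1
      have h5 := mul_nonneg h4 (psd_legL k ι inferInstance n (fun i => p.a + p.b * x i) hn)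
      refine le_of_le_of_eq (add_nonneg h5 h3) ?_
      rw [Finset.mul_sum, ← Finset.sum_add_distrib]
      refine Finset.sum_congr rfl fun i _ => ?_
      rw [Finset.mul_sum, ← Finset.sum_add_distrib]
      refine Finset.sum_congr rfl fun j _ => ?_
      simp only [Tw.val, List.map_cons, List.sum_cons]
      ring

/-- The averaged two point kernel. -/
theorem KR_avg [DecidableEq ι] (e : List (List Tw)) (he : wOK e = true)
    (n : ι → EuclideanSpace ℝ (Fin 3)) (hn : ∀ i, ‖n i‖ = 1) (ξ : ι → ℝ) (h0 : ∀ i, 0 ≤ ξ i)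
    (h1 : ∑ i, ξ i = 1) :
    0 ≤ ∑ i, (av1 (fun X => KR e 0 1 X X) (ξ i) + ∑ j ∈ Finset.univ.erase i,
      av2 (KR e 0 ⟪n i, n j⟫) (ξ i) (ξ j)) := by
  have e2 := Finset.sum_nonneg fun s (_ : s ∈ Finset.univ) => mul_nonneg (h0 s)
    (KR_pos e 0 he n hn fun i => if i = s then 1 else 0)
  refine le_of_le_of_eq e2 ?_
  simp only [Finset.mul_sum]
  rw [Finset.sum_comm]
  refine Finset.sum_congr rfl fun i _ => ?_
  rw [Finset.sum_comm, ← Finset.add_sum_erase _ _ (Finset.mem_univ i),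
    real_inner_self_eq_norm_sq, hn i, one_pow, avg1 ξ h1 (fun X => KR e 0 1 X X) i]
  congr 1
  refine Finset.sum_congr rfl fun j hj => ?_
  exact avg2 ξ h1 (KR e 0 ⟪n i, n j⟫) (fun h => (Finset.mem_erase.mp hj).1 h.symm)

end pos

/-- An integer certificate. `c` the squares, `e` the two point kernel, `r0 + (X + Y) r1` the pair
function, `q0` the multiplier of the total mark, `s0 + s1 X` the one point function. -/
structure Cert where
  /-- squares -/
  c : List (List Sq)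
  /-- two point kernel -/
  e : List (List Tw)
  /-- pair function -/
  r0 : List ℤ
  /-- pair function, coefficient of the marks -/
  r1 : List ℤ
  /-- multiplier -/
  q0 : List ℤ
  /-- one point function -/
  s0 : ℤ
  /-- one point function, coefficient of the mark -/
  s1 : ℤ

namespace Cert

variable (C : Cert)

/-- The pair function. -/
noncomputable def r (u X Y : ℝ) : ℝ := pv u C.r0 + (X + Y) * pv u C.r1

/-- The multiplier. -/
noncomputable def q (u _ _ : ℝ) : ℝ := pv u C.q0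

/-- The one point function. -/
noncomputable def s (X : ℝ) : ℝ := C.s0 + C.s1 * X

/-- The three point function, no mark. -/
noncomputable def Z0 (N : ℕ) (u v t : ℝ) : ℝ := ZR C.c N 1 C.r C.q C.s u v t 0 0 0

/-- The three point function, the first point marked (`u`, `v` its inner products with the two
other points). -/
noncomputable def Z1 (N : ℕ) (u v t : ℝ) : ℝ := ZR C.c N 1 C.r C.q C.s u v t 1 0 0

theorem Z0_swap (N : ℕ) (u v t : ℝ) : C.Z0 N v u t = C.Z0 N u v t :=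
  ZR_swap C.c N 1 C.r C.q C.s (fun _ _ _ => rfl) u v t 0 0 0

theorem Z0_swap' (N : ℕ) (u v t : ℝ) : C.Z0 N u t v = C.Z0 N u v t :=
  ZR_swap' C.c N 1 C.r C.q C.s (fun _ _ _ => rfl) u v t 0 0 0

theorem Z1_swap (N : ℕ) (u v t : ℝ) : C.Z1 N v u t = C.Z1 N u v t :=
  ZR_swap C.c N 1 C.r C.q C.s (fun _ _ _ => rfl) u v t 1 0 0

/-- The pair polynomial, no mark. -/
noncomputable def P0 (u : ℝ) : ℝ := KR C.e 0 u 0 0 + pairR C.c u 0 0 - pv u C.r0

/-- The pair polynomial, one mark (twice the average over the two orders). -/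
noncomputable def P1 (u : ℝ) : ℝ := KR C.e 0 u 1 0 + KR C.e 0 u 0 1 + pairR C.c u 1 0 +
  pairR C.c u 0 1 - 2 * (pv u C.r0 + pv u C.r1)

/-- The value of the two point kernel on the diagonal. -/
def dia : List (List Tw) → ℕ → ℤ → ℤ
  | [], _, _ => 0
  | l :: e, k, X => (l.map fun p => p.D * ((p.a + p.b * X) * (p.a + p.b * X))).sum *
      (legL k).sum + dia e (k + 1) X

/-- The one point terms. -/
def oneZ (c : List (List Sq)) (X : ℤ) : ℤ :=
  (c.headD []).map (fun s => (s.w0 + s.w1 * X) * (s.p0 + s.p1 * X) ^ 2) |>.sum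

/-- The check of the signs and of the scalar inequality. -/
def ok (N : ℕ) : Bool :=
  wOK C.e && (C.c.all fun l => l.all fun s => decide (0 ≤ s.w0) && decide (0 ≤ s.w0 + s.w1)) &&
    decide (((N : ℤ) - 1) * (dia C.e 0 0 + oneZ C.c 0 - C.s0) +
      (dia C.e 0 1 + oneZ C.c 1 - (C.s0 + C.s1)) ≤ 0)

end Cert

theorem pv_one (l : List ℤ) : pv 1 l = (l.sum : ℤ) := by
  induction l with
  | nil => simp [pv]
  | cons a l ih => rw [pv, ih]; push_cast [List.sum_cons]; ring

theorem dia_eq (e : List (List Tw)) (k : ℕ) (X : ℤ) :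
    KR e k 1 X X = (Cert.dia e k X : ℤ) := by
  induction e generalizing k with
  | nil => simp [KR, Cert.dia]
  | cons l e ih =>
    rw [KR, Cert.dia, ih, pv_one, Tw.val]
    push_cast [List.map_map]
    congr 3
    apply List.map_congr_left
    intro p _
    simp only [Function.comp]
    push_cast
    ring

theorem oneZ_eq (c : List (List Sq)) (X : ℤ) : oneR c X = (Cert.oneZ c X : ℤ) := by
  cases c with
  | nil => simp [oneR, Cert.oneZ, flat]
  | cons l c =>
    have h1 : ∀ (c : List (List Sq)) (k : ℕ), k ≠ 0 →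
        ((flat c k).map fun p => p.2.d (X : ℝ) * p.2.a p.1 (X : ℝ) ^ 2).sum = 0 := by
      intro c
      induction c with
      | nil => intro k _; simp [flat]
      | cons l c ih =>
        intro k hk
        rw [flat, List.map_append, List.sum_append, ih (k + 1) (by omega), add_zero,
          List.map_map]
        have : (l.map ((fun p : ℕ × Sq => p.2.d (X : ℝ) * p.2.a p.1 (X : ℝ) ^ 2) ∘
            fun s => (k, s))) = l.map fun _ => (0 : ℝ) := by
          apply List.map_congr_left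
          intro s _
          simp only [Function.comp, Sq.a, if_neg hk]
          ring
        rw [this]
        simp
    rw [oneR, flat, List.map_append, List.sum_append, h1 c 1 one_ne_zero, add_zero,
      List.map_map, Cert.oneZ, List.headD_cons]
    push_cast [List.map_map]
    congr 1
    apply List.map_congr_left
    intro s _
    simp only [Function.comp, Sq.a, Sq.d, if_true]
    push_cast
    ring

/-- The scalar inequality. -/
theorem Cert.scal (C : Cert) (N : ℕ) (h : C.ok N = true) :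
    ((N : ℝ) - 1) * (KR C.e 0 1 0 0 + oneR C.c 0 - C.s 0) +
      (KR C.e 0 1 1 1 + oneR C.c 1 - C.s 1) ≤ 0 := by
  rw [Cert.ok, Bool.and_eq_true, decide_eq_true_iff] at h
  have h2 := h.2
  have e0 := dia_eq C.e 0 0
  have e1 := dia_eq C.e 0 1
  have o0 := oneZ_eq C.c 0
  have o1 := oneZ_eq C.c 1
  push_cast at e0 e1 o0 o1
  rw [e0, e1, o0, o1, Cert.s, Cert.s]
  have h3 : (((((N : ℤ) - 1) * (Cert.dia C.e 0 0 + Cert.oneZ C.c 0 - C.s0) +
      (Cert.dia C.e 0 1 + Cert.oneZ C.c 1 - (C.s0 + C.s1))) : ℤ) : ℝ) ≤ ((0 : ℤ) : ℝ) :=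
    Int.cast_le.mpr h2
  push_cast at h3
  linarith

theorem Cert.wts (C : Cert) (N : ℕ) (h : C.ok N = true) :
    ∀ p ∈ flat C.c 0, 0 ≤ p.2.d 0 ∧ 0 ≤ p.2.d 1 := by
  rw [Cert.ok, Bool.and_eq_true, Bool.and_eq_true] at h
  have h2 := h.1.2
  have key : ∀ (c : List (List Sq)) (k : ℕ),
      (c.all fun l => l.all fun s => decide (0 ≤ s.w0) && decide (0 ≤ s.w0 + s.w1)) = true →
      ∀ p ∈ flat c k, 0 ≤ p.2.d 0 ∧ 0 ≤ p.2.d 1 := by
    intro c
    induction c with
    | nil => intro k _ p hp; simp [flat] at hp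
    | cons l c ih =>
      intro k hc p hp
      rw [List.all_cons, Bool.and_eq_true] at hc
      rw [flat, List.mem_append] at hp
      rcases hp with hp | hp
      · rw [List.mem_map] at hp
        obtain ⟨s, hs, rfl⟩ := hp
        have h4 := List.all_eq_true.mp hc.1 s hs
        rw [Bool.and_eq_true, decide_eq_true_iff, decide_eq_true_iff] at h4
        have h5 : (0 : ℝ) ≤ s.w0 := by exact_mod_cast h4.1
        have h6 : (0 : ℝ) ≤ s.w0 + s.w1 := by exact_mod_cast h4.2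
        constructor
        · simp only [Sq.d]; linarith
        · simp only [Sq.d]; linarith
      · exact ih (k + 1) hc.2 p hp
  exact key C.c 0 h2

section main

variable {ι : Type} [Fintype ι]

/-- **The affine certificate for unit vectors.** -/
theorem Cert.false_of (C : Cert) (N : ℕ) (L : ℝ) (h3 : 3 ≤ N) (hok : C.ok N = true)
    (hP : ∀ u σ : ℝ, -1 ≤ u → u ≤ 1 → 0 ≤ σ → σ ≤ 1 → 2 * u - 1 ≤ L * σ →
      2 * (1 - σ) * C.P0 u + σ * C.P1 u ≤ 0)
    (hT : ∀ u v t a b d : ℝ, -1 ≤ t → t ≤ v → v ≤ u → u ≤ 1 → 0 ≤ a → 0 ≤ b → 0 ≤ d →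
      a + b + d ≤ 1 → 0 ≤ 1 + 2 * u * v * t - u ^ 2 - v ^ 2 - t ^ 2 →
      2 * u - 1 ≤ L * (a + b) → 2 * v - 1 ≤ L * (a + d) → 2 * t - 1 ≤ L * (b + d) →
      (1 - a - b - d) * C.Z0 N u v t + a * C.Z1 N u v t + b * C.Z1 N u t v +
        d * C.Z1 N v t u < 0)
    (hN : Fintype.card ι = N) (n : ι → EuclideanSpace ℝ (Fin 3)) (hn : ∀ i, ‖n i‖ = 1)
    (ξ : ι → ℝ) (h0 : ∀ i, 0 ≤ ξ i) (h1 : ∑ i, ξ i = 1)
    (hp : ∀ i j, i ≠ j → 2 * ⟪n i, n j⟫ - 1 ≤ L * (ξ i + ξ j)) : False := by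
  classical
  have hcard : (Fintype.card ι : ℝ) = N := by rw [hN]
  have hin : ∀ i j, -1 ≤ ⟪n i, n j⟫ ∧ ⟪n i, n j⟫ ≤ 1 := by
    intro i j
    have := abs_real_inner_le_norm (n i) (n j)
    rw [hn i, hn j, mul_one, abs_le] at this
    exact this
  have hsum2 : ∀ i j, i ≠ j → ξ i + ξ j ≤ 1 := by
    intro i j hij
    rw [← h1, ← Finset.sum_pair hij]
    exact Finset.sum_le_sum_of_subset_of_nonneg (Finset.subset_univ _) fun k _ _ => h0 k
  have hsum3 : ∀ i j m, i ≠ j → i ≠ m → j ≠ m → ξ i + ξ j + ξ m ≤ 1 := by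
    intro i j m hij him hjm
    rw [← h1]
    have : ∑ k ∈ ({i, j, m} : Finset ι), ξ k = ξ i + ξ j + ξ m := by
      rw [Finset.sum_insert (by simp [hij, him]), Finset.sum_pair hjm]
      ring
    rw [← this]
    exact Finset.sum_le_sum_of_subset_of_nonneg (Finset.subset_univ _) fun k _ _ => h0 k
  have hK := KR_avg C.e (by
    rw [Cert.ok, Bool.and_eq_true, Bool.and_eq_true] at hok
    exact hok.1.1) n hn ξ h0 h1
  have hsc := C.scal N hok
  -- the two point inequality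
  have h2p : 0 ≤ ∑ i, (av1 (fun X => C.s X - oneR C.c X) (ξ i) + ∑ j ∈ Finset.univ.erase i,
      av2 (fun X Y => C.r ⟪n i, n j⟫ X Y - pairR C.c ⟪n i, n j⟫ X Y) (ξ i) (ξ j)) := by
    have hF : ∑ i, ∑ j ∈ Finset.univ.erase i,
        (av2 (fun X Y => KR C.e 0 ⟪n i, n j⟫ X Y + pairR C.c ⟪n i, n j⟫ X Y -
          C.r ⟪n i, n j⟫ X Y) (ξ i) (ξ j)) ≤ 0 := by
      have hsym : ∑ i, ∑ j ∈ Finset.univ.erase i,
          (av2 (fun X Y => KR C.e 0 ⟪n i, n j⟫ X Y + pairR C.c ⟪n i, n j⟫ X Y -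
            C.r ⟪n i, n j⟫ X Y) (ξ i) (ξ j)) =
          ∑ i, ∑ j ∈ Finset.univ.erase i,
          (av2 (fun X Y => KR C.e 0 ⟪n i, n j⟫ X Y + pairR C.c ⟪n i, n j⟫ X Y -
            C.r ⟪n i, n j⟫ X Y) (ξ j) (ξ i)) := by
        have e1 : ∀ F : ι → ι → ℝ, ∑ i, ∑ j ∈ Finset.univ.erase i, F i j =
            ∑ i, ∑ j ∈ Finset.univ.erase i, F j i := by
          intro F
          have e2 : ∀ F : ι → ι → ℝ, ∑ i, ∑ j ∈ Finset.univ.erase i, F i j =
              ∑ i, ∑ j, F i j - ∑ i, F i i := by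
            intro F
            rw [← Finset.sum_sub_distrib]
            refine Finset.sum_congr rfl fun i _ => ?_
            rw [Finset.sum_erase_eq_sub (Finset.mem_univ i)]
          rw [e2, e2, Finset.sum_comm]
        rw [e1]
        refine Finset.sum_congr rfl fun i _ => Finset.sum_congr rfl fun j _ => ?_
        rw [real_inner_comm (n i) (n j)]
      have hle : ∑ i, ∑ j ∈ Finset.univ.erase i,
          ((av2 (fun X Y => KR C.e 0 ⟪n i, n j⟫ X Y + pairR C.c ⟪n i, n j⟫ X Y -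
            C.r ⟪n i, n j⟫ X Y) (ξ i) (ξ j)) +
          (av2 (fun X Y => KR C.e 0 ⟪n i, n j⟫ X Y + pairR C.c ⟪n i, n j⟫ X Y -
            C.r ⟪n i, n j⟫ X Y) (ξ j) (ξ i))) ≤ 0 := by
        apply Finset.sum_nonpos
        intro i _
        apply Finset.sum_nonpos
        intro j hj
        have hij : i ≠ j := fun h => (Finset.mem_erase.mp hj).1 h.symm
        have h4 := hP ⟪n i, n j⟫ (ξ i + ξ j) (hin i j).1 (hin i j).2
          (add_nonneg (h0 i) (h0 j)) (hsum2 i j hij) (hp i j hij)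
        refine le_of_eq_of_le ?_ h4
        simp only [av2, Cert.P0, Cert.P1, Cert.r]
        ring
      simp only [Finset.sum_add_distrib] at hle
      rw [← hsym] at hle
      linarith
    have hS : ∑ i, av1 (fun X => KR C.e 0 1 X X + oneR C.c X - C.s X) (ξ i) ≤ 0 := by
      have e3 : ∑ i, av1 (fun X => KR C.e 0 1 X X + oneR C.c X - C.s X) (ξ i) =
          ((N : ℝ) - 1) * (KR C.e 0 1 0 0 + oneR C.c 0 - C.s 0) +
            (KR C.e 0 1 1 1 + oneR C.c 1 - C.s 1) := by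
        simp only [av1]
        rw [Finset.sum_add_distrib, ← Finset.sum_mul, ← Finset.sum_mul, h1,
          Finset.sum_sub_distrib, h1, Finset.sum_const, Finset.card_univ, hN]
        simp
      rw [e3]
      exact hsc
    have e5 : ∑ i, (av1 (fun X => C.s X - oneR C.c X) (ξ i) + ∑ j ∈ Finset.univ.erase i,
        av2 (fun X Y => C.r ⟪n i, n j⟫ X Y - pairR C.c ⟪n i, n j⟫ X Y) (ξ i) (ξ j)) =
        ∑ i, (av1 (fun X => KR C.e 0 1 X X) (ξ i) + ∑ j ∈ Finset.univ.erase i,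
          av2 (KR C.e 0 ⟪n i, n j⟫) (ξ i) (ξ j)) -
        ∑ i, av1 (fun X => KR C.e 0 1 X X + oneR C.c X - C.s X) (ξ i) -
        ∑ i, ∑ j ∈ Finset.univ.erase i,
          (av2 (fun X Y => KR C.e 0 ⟪n i, n j⟫ X Y + pairR C.c ⟪n i, n j⟫ X Y -
            C.r ⟪n i, n j⟫ X Y) (ξ i) (ξ j)) := by
      rw [← Finset.sum_sub_distrib, ← Finset.sum_sub_distrib]
      refine Finset.sum_congr rfl fun i _ => ?_
      have e6 : ∀ f g h : ι → ℝ, ∀ A B D : ℝ, A = D - B →
          (∀ j, f j = g j - h j) → A + ∑ j ∈ Finset.univ.erase i, f j =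
          D + ∑ j ∈ Finset.univ.erase i, g j - B - ∑ j ∈ Finset.univ.erase i, h j := by
        intro f g h A B D hA hf
        rw [Finset.sum_congr rfl fun j _ => hf j, Finset.sum_sub_distrib, hA]
        ring
      apply e6
      · simp only [av1]; ring
      · intro j; simp only [av2]; ring
    rw [e5]
    linarith
  obtain ⟨i, j, m, hij, him, hjm, ht, hv, h⟩ := exists_ZA_nonneg C.c (by omega) n hn ξ h0 h1
    C.r C.q C.s (fun _ _ _ => rfl) (C.wts N hok) h2p
  rw [ZA_eq _ _ _ _ _ (fun _ _ _ => rfl), hcard] at h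
  have hg : 0 ≤ 1 + 2 * ⟪n i, n j⟫ * ⟪n i, n m⟫ * ⟪n j, n m⟫ - ⟪n i, n j⟫ ^ 2 -
      ⟪n i, n m⟫ ^ 2 - ⟪n j, n m⟫ ^ 2 := by
    have e1 : ∀ x : EuclideanSpace ℝ (Fin 3), ‖x‖ = 1 → x 0 ^ 2 + x 1 ^ 2 + x 2 ^ 2 = 1 := by
      intro x hx
      have := EuclideanSpace.norm_sq_eq x
      rw [hx, Fin.sum_univ_three] at this
      simpa using this.symm
    have e2 : ∀ x y : EuclideanSpace ℝ (Fin 3), ⟪x, y⟫ = x 0 * y 0 + x 1 * y 1 + x 2 * y 2 := by
      intro x y
      rw [PiLp.inner_apply, Fin.sum_univ_three]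
      simp only [RCLike.inner_apply, conj_trivial]
      ring
    have g1 := e1 _ (hn i)
    have g2 := e1 _ (hn j)
    have g3 := e1 _ (hn m)
    rw [e2, e2, e2]
    have key : 1 + 2 * (n i 0 * n j 0 + n i 1 * n j 1 + n i 2 * n j 2) *
        (n i 0 * n m 0 + n i 1 * n m 1 + n i 2 * n m 2) *
        (n j 0 * n m 0 + n j 1 * n m 1 + n j 2 * n m 2) -
        (n i 0 * n j 0 + n i 1 * n j 1 + n i 2 * n j 2) ^ 2 -
        (n i 0 * n m 0 + n i 1 * n m 1 + n i 2 * n m 2) ^ 2 -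
        (n j 0 * n m 0 + n j 1 * n m 1 + n j 2 * n m 2) ^ 2 =
        (n i 0 * (n j 1 * n m 2 - n j 2 * n m 1) - n i 1 * (n j 0 * n m 2 - n j 2 * n m 0) +
          n i 2 * (n j 0 * n m 1 - n j 1 * n m 0)) ^ 2 := by
      have hA : (n i 0 ^ 2 + n i 1 ^ 2 + n i 2 ^ 2) * (n j 0 ^ 2 + n j 1 ^ 2 + n j 2 ^ 2) *
          (n m 0 ^ 2 + n m 1 ^ 2 + n m 2 ^ 2) = 1 := by rw [g1, g2, g3]; norm_num
      have hB : (n i 0 * n j 0 + n i 1 * n j 1 + n i 2 * n j 2) ^ 2 =
          (n i 0 * n j 0 + n i 1 * n j 1 + n i 2 * n j 2) ^ 2 *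
            (n m 0 ^ 2 + n m 1 ^ 2 + n m 2 ^ 2) := by rw [g3, mul_one]
      have hC : (n i 0 * n m 0 + n i 1 * n m 1 + n i 2 * n m 2) ^ 2 =
          (n i 0 * n m 0 + n i 1 * n m 1 + n i 2 * n m 2) ^ 2 *
            (n j 0 ^ 2 + n j 1 ^ 2 + n j 2 ^ 2) := by rw [g2, mul_one]
      have hD : (n j 0 * n m 0 + n j 1 * n m 1 + n j 2 * n m 2) ^ 2 =
          (n j 0 * n m 0 + n j 1 * n m 1 + n j 2 * n m 2) ^ 2 *
            (n i 0 ^ 2 + n i 1 ^ 2 + n i 2 ^ 2) := by rw [g1, mul_one]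
      rw [hB, hC, hD]
      nth_rewrite 1 [← hA]
      ring
    rw [key]
    exact sq_nonneg _
  have h7 := hT ⟪n i, n j⟫ ⟪n i, n m⟫ ⟪n j, n m⟫ (ξ i) (ξ j) (ξ m) (hin j m).1 ht hv (hin i j).2
    (h0 i) (h0 j) (h0 m) (hsum3 i j m hij him hjm) hg (hp i j hij) (hp i m him) (hp j m hjm)
  exact absurd h (not_le.mpr h7)

/-- **The affine certificate for the shell.** -/
theorem Cert.lift_ge (C : Cert) (N : ℕ) (L : ℝ) (hL : 0 < L) (h3 : 3 ≤ N) (hok : C.ok N = true)
    (hP : ∀ u σ : ℝ, -1 ≤ u → u ≤ 1 → 0 ≤ σ → σ ≤ 1 → 2 * u - 1 ≤ L * σ →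
      2 * (1 - σ) * C.P0 u + σ * C.P1 u ≤ 0)
    (hT : ∀ u v t a b d : ℝ, -1 ≤ t → t ≤ v → v ≤ u → u ≤ 1 → 0 ≤ a → 0 ≤ b → 0 ≤ d →
      a + b + d ≤ 1 → 0 ≤ 1 + 2 * u * v * t - u ^ 2 - v ^ 2 - t ^ 2 →
      2 * u - 1 ≤ L * (a + b) → 2 * v - 1 ≤ L * (a + d) → 2 * t - 1 ≤ L * (b + d) →
      (1 - a - b - d) * C.Z0 N u v t + a * C.Z1 N u v t + b * C.Z1 N u t v +
        d * C.Z1 N v t u < 0)
    (n : ι → E3) (h : ι → ℝ) (hN : Fintype.card ι = N) (H : Pck n h) :
    L ≤ ∑ i, (h i - 1) := by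
  by_contra hlt
  push Not at hlt
  have hN0 : (0 : ℝ) < N := by
    have : (3 : ℝ) ≤ N := by exact_mod_cast h3
    linarith
  set S : ℝ := ∑ i, (h i - 1) with hS
  have hδ : 0 ≤ (L - S) / N := div_nonneg (by linarith) hN0.le
  refine C.false_of N L h3 hok hP hT hN n H.1 (fun i => ((h i - 1) + (L - S) / N) / L) ?_ ?_ ?_
  · intro i
    exact div_nonneg (add_nonneg (by linarith [H.2.1 i]) hδ) hL.le
  · rw [← Finset.sum_div, Finset.sum_add_distrib, Finset.sum_const, Finset.card_univ, hN,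
      nsmul_eq_mul, ← hS, mul_div_cancel₀ _ hN0.ne', add_sub_cancel, div_self hL.ne']
  · intro i j hij
    have h1 := H.2.2 i j hij
    have hi := H.2.1 i
    have hj := H.2.1 j
    obtain ⟨x, hx⟩ : ∃ x, x = h i - 1 := ⟨_, rfl⟩
    obtain ⟨y, hy⟩ : ∃ y, y = h j - 1 := ⟨_, rfl⟩
    have x0 : 0 ≤ x := by linarith
    have y0 : 0 ≤ y := by linarith
    have e1 : h i = 1 + x := by linarith
    have e2 : h j = 1 + y := by linarith
    have e3 : L * (((h i - 1) + (L - S) / N) / L + ((h j - 1) + (L - S) / N) / L) =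
        x + y + 2 * ((L - S) / N) := by
      rw [← hx, ← hy]
      field_simp
      ring
    rw [e3]
    have h5 : 2 * ⟪n i, n j⟫ - 1 ≤ x + y := by
      by_contra hc
      push Not at hc
      rw [e1, e2] at h1
      have p1 : 0 < (1 + x) * (1 + y) := by positivity
      have p2 := mul_lt_mul_of_pos_left hc p1
      have p3 : 0 ≤ x * y * (3 + x + y) := by positivity
      nlinarith
    linarith

end main

end Pool.Agent.SDL
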