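import Pool.Agent.SDL.AffCert

set_option autoImplicit false

/-!
# AffMult: the affine certificate with shared multipliers

`m u v t` is the multiplier of the packing condition of the pair with the inner product `u`; `v`,
`t` are the two other inner products of the triple.
-/

open scoped RealInnerProductSpace

namespace Pool.Agent.SDL

open Pool.Agent.SDC

/-- The Gram determinant. -/
def gram (u v t : ℝ) : ℝ := 1 + 2 * u * v * t - u ^ 2 - v ^ 2 - t ^ 2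

/-- The pair inequality from two inequalities in one variable. -/
theorem Cert.hP_of_mult (C : Cert) (L : ℝ) (m : ℝ → ℝ)
    (h0 : ∀ u, -1 ≤ u → u ≤ 1 → 0 ≤ m u)
    (h1 : ∀ u, -1 ≤ u → u ≤ 1 → 2 * C.P0 u + m u * (1 - 2 * u) ≤ 0)
    (h2 : ∀ u, -1 ≤ u → u ≤ 1 → C.P1 u + m u * (1 + L - 2 * u) ≤ 0) :
    ∀ u σ : ℝ, -1 ≤ u → u ≤ 1 → 0 ≤ σ → σ ≤ 1 → 2 * u - 1 ≤ L * σ →
      2 * (1 - σ) * C.P0 u + σ * C.P1 u ≤ 0 := by
  intro u σ hu hu' hs hs' h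
  have a1 := mul_nonneg (sub_nonneg.mpr hs') (neg_nonneg.mpr (h1 u hu hu'))
  have a2 := mul_nonneg hs (neg_nonneg.mpr (h2 u hu hu'))
  have a3 := mul_nonneg (h0 u hu hu') (sub_nonneg.mpr h)
  nlinarith

/-- The pair inequality from three inequalities in one variable. -/
theorem Cert.hP_of_vert (C : Cert) (L : ℝ) (hL : 0 < L)
    (h1 : ∀ u, -1 ≤ u → u ≤ 1 / 2 → C.P0 u ≤ 0)
    (h2 : ∀ u, -1 ≤ u → u ≤ (1 + L) / 2 → u ≤ 1 → C.P1 u ≤ 0)
    (h3 : ∀ u, 1 / 2 ≤ u → u ≤ (1 + L) / 2 → u ≤ 1 →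
      2 * (L - (2 * u - 1)) * C.P0 u + (2 * u - 1) * C.P1 u ≤ 0) :
    ∀ u σ : ℝ, -1 ≤ u → u ≤ 1 → 0 ≤ σ → σ ≤ 1 → 2 * u - 1 ≤ L * σ →
      2 * (1 - σ) * C.P0 u + σ * C.P1 u ≤ 0 := by
  intro u σ hu hu' hs hs' h
  have hL' : u ≤ (1 + L) / 2 := by nlinarith
  have a2 := h2 u hu hL' hu'
  rcases le_total u (1 / 2) with hc | hc
  · have a1 := h1 u hu hc
    nlinarith [mul_nonneg (sub_nonneg.mpr hs') (neg_nonneg.mpr a1),
      mul_nonneg hs (neg_nonneg.mpr a2)]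
  · have a3 := h3 u hc hL' hu'
    rcases eq_or_lt_of_le hL' with he | he
    · -- `u = (1 + L) / 2`
      have hs1 : σ = 1 := by
        apply le_antisymm hs'
        by_contra hcon
        push Not at hcon
        nlinarith
      rw [hs1]
      linarith
    · -- `σ` is between `(2 u - 1) / L` and `1`
      have p1 : 0 < L - (2 * u - 1) := by linarith
      have p2 : 0 ≤ L * σ - (2 * u - 1) := by linarith
      have p3 := mul_nonneg (sub_nonneg.mpr hs') (neg_nonneg.mpr a3)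
      have p4 := mul_nonneg p2 (neg_nonneg.mpr a2)
      have key : (L - (2 * u - 1)) * (2 * (1 - σ) * C.P0 u + σ * C.P1 u) =
          -((1 - σ) * -(2 * (L - (2 * u - 1)) * C.P0 u + (2 * u - 1) * C.P1 u)) -
            (L * σ - (2 * u - 1)) * -C.P1 u := by ring
      by_contra hcon
      push Not at hcon
      have := mul_pos p1 hcon
      rw [key] at this
      linarith

/-- The triple inequality from two inequalities with shared multipliers. -/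
theorem Cert.hT_of_mult (C : Cert) (N : ℕ) (L : ℝ) (m : ℝ → ℝ → ℝ → ℝ)
    (hm : ∀ u v t, m u v t = m u t v)
    (h0 : ∀ u v t, -1 ≤ u → u ≤ 1 → -1 ≤ v → v ≤ 1 → -1 ≤ t → t ≤ 1 → 0 ≤ gram u v t →
      0 ≤ m u v t)
    (h1 : ∀ u v t, -1 ≤ u → u ≤ 1 → -1 ≤ v → v ≤ 1 → -1 ≤ t → t ≤ 1 → 0 ≤ gram u v t →
      C.Z0 N u v t + m u v t * (1 - 2 * u) + m v u t * (1 - 2 * v) + m t u v * (1 - 2 * t) < 0)
    (h2 : ∀ u v t, -1 ≤ u → u ≤ 1 → -1 ≤ v → v ≤ 1 → -1 ≤ t → t ≤ 1 → 0 ≤ gram u v t →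
      C.Z1 N u v t + m u v t * (1 + L - 2 * u) + m v u t * (1 + L - 2 * v) +
        m t u v * (1 - 2 * t) < 0) :
    ∀ u v t a b d : ℝ, -1 ≤ t → t ≤ v → v ≤ u → u ≤ 1 → 0 ≤ a → 0 ≤ b → 0 ≤ d →
      a + b + d ≤ 1 → 0 ≤ 1 + 2 * u * v * t - u ^ 2 - v ^ 2 - t ^ 2 →
      2 * u - 1 ≤ L * (a + b) → 2 * v - 1 ≤ L * (a + d) → 2 * t - 1 ≤ L * (b + d) →
      (1 - a - b - d) * C.Z0 N u v t + a * C.Z1 N u v t + b * C.Z1 N u t v +
        d * C.Z1 N v t u < 0 := by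
  intro u v t a b d ht htv hvu hu ha hb hd habd hg hu2 hv2 ht2
  have g1 : 0 ≤ gram u v t := hg
  have g2 : 0 ≤ gram u t v := le_of_le_of_eq hg (by rw [gram]; ring)
  have g3 : 0 ≤ gram v t u := le_of_le_of_eq hg (by rw [gram]; ring)
  have g4 : 0 ≤ gram v u t := le_of_le_of_eq hg (by rw [gram]; ring)
  have g5 : 0 ≤ gram t u v := le_of_le_of_eq hg (by rw [gram]; ring)
  have hu0 : -1 ≤ u := ht.trans (htv.trans hvu)
  have hv0 : -1 ≤ v := ht.trans htv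
  have hv1 : v ≤ 1 := hvu.trans hu
  have ht1 : t ≤ 1 := htv.trans hv1
  have i0 := h1 u v t hu0 hu hv0 hv1 ht ht1 g1
  have i1 := h2 u v t hu0 hu hv0 hv1 ht ht1 g1
  have i2 := h2 u t v hu0 hu ht ht1 hv0 hv1 g2
  have i3 := h2 v t u hv0 hv1 ht ht1 hu0 hu g3
  have mu := h0 u v t hu0 hu hv0 hv1 ht ht1 g1
  have mv := h0 v u t hv0 hv1 hu0 hu ht ht1 g4
  have mt := h0 t u v ht ht1 hu0 hu hv0 hv1 g5
  rw [hm u t v] at i2
  rw [hm v t u, hm t v u] at i3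
  have k1 := mul_nonneg mu (sub_nonneg.mpr hu2)
  have k2 := mul_nonneg mv (sub_nonneg.mpr hv2)
  have k3 := mul_nonneg mt (sub_nonneg.mpr ht2)
  have hlt : ∀ w x : ℝ, 0 ≤ w → x < 0 → w * x ≤ 0 := fun w x hw hx =>
    mul_nonpos_of_nonneg_of_nonpos hw hx.le
  -- one of the four weights is positive
  rcases lt_or_eq_of_le habd with hs | hs
  · have j0 : (1 - a - b - d) * (C.Z0 N u v t + m u v t * (1 - 2 * u) + m v u t * (1 - 2 * v) +
        m t u v * (1 - 2 * t)) < 0 := mul_neg_of_pos_of_neg (by linarith) i0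
    have j1 := hlt _ _ ha i1
    have j2 := hlt _ _ hb i2
    have j3 := hlt _ _ hd i3
    nlinarith
  · have j0 := hlt (1 - a - b - d) _ (by linarith) i0
    rcases lt_or_eq_of_le ha with ha' | ha'
    · have j1 := mul_neg_of_pos_of_neg ha' i1
      have j2 := hlt _ _ hb i2
      have j3 := hlt _ _ hd i3
      nlinarith
    · have j1 := hlt _ _ ha i1
      rcases lt_or_eq_of_le hb with hb' | hb'
      · have j2 := mul_neg_of_pos_of_neg hb' i2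
        have j3 := hlt _ _ hd i3
        nlinarith
      · have j2 := hlt _ _ hb i2
        have hd' : 0 < d := by linarith
        have j3 := mul_neg_of_pos_of_neg hd' i3
        nlinarith

/-- **The affine certificate with shared multipliers.** -/
theorem Cert.lift_ge_of_mult (C : Cert) (N : ℕ) (L : ℝ) (hL : 0 < L) (h3 : 3 ≤ N)
    (hok : C.ok N = true) (m1 : ℝ → ℝ) (m : ℝ → ℝ → ℝ → ℝ)
    (hm1 : ∀ u, -1 ≤ u → u ≤ 1 → 0 ≤ m1 u)
    (hP0 : ∀ u, -1 ≤ u → u ≤ 1 → 2 * C.P0 u + m1 u * (1 - 2 * u) ≤ 0)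
    (hP1 : ∀ u, -1 ≤ u → u ≤ 1 → C.P1 u + m1 u * (1 + L - 2 * u) ≤ 0)
    (hm : ∀ u v t, m u v t = m u t v)
    (hm0 : ∀ u v t, -1 ≤ u → u ≤ 1 → -1 ≤ v → v ≤ 1 → -1 ≤ t → t ≤ 1 → 0 ≤ gram u v t →
      0 ≤ m u v t)
    (hT0 : ∀ u v t, -1 ≤ u → u ≤ 1 → -1 ≤ v → v ≤ 1 → -1 ≤ t → t ≤ 1 → 0 ≤ gram u v t →
      C.Z0 N u v t + m u v t * (1 - 2 * u) + m v u t * (1 - 2 * v) + m t u v * (1 - 2 * t) < 0)
    (hT1 : ∀ u v t, -1 ≤ u → u ≤ 1 → -1 ≤ v → v ≤ 1 → -1 ≤ t → t ≤ 1 → 0 ≤ gram u v t →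
      C.Z1 N u v t + m u v t * (1 + L - 2 * u) + m v u t * (1 + L - 2 * v) +
        m t u v * (1 - 2 * t) < 0)
    {ι : Type} [Fintype ι] (n : ι → E3) (h : ι → ℝ) (hN : Fintype.card ι = N)
    (H : Pck n h) : L ≤ ∑ i, (h i - 1) :=
  C.lift_ge N L hL h3 hok (C.hP_of_mult L m1 hm1 hP0 hP1)
    (C.hT_of_mult N L m hm hm0 hT0 hT1) n h hN H

end Pool.Agent.SDL
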