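import Pool.Agent.SDL.AffReg

set_option autoImplicit false

/-!
# AffVert: the triple inequality from the vertices of the polytope of the marks
-/

namespace Pool.Agent.SDL

open Set Filter Topology

section lp

/-- A maximum at an extreme point. -/
theorem lp_ext {K : Set (Fin 3 → ℝ)} (hK : IsCompact K) (hne : K.Nonempty)
    (F : (Fin 3 → ℝ) → ℝ) (hF : Continuous F) (hadd : ∀ x d, F (x + d) + F (x - d) = 2 * F x) :
    ∃ x ∈ K, (∀ y ∈ K, F y ≤ F x) ∧ ∀ d, x + d ∈ K → x - d ∈ K → d = 0 := by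
  obtain ⟨m, hm, hmax⟩ := hK.exists_isMaxOn hne hF.continuousOn
  have hc : IsCompact (K ∩ {x | F x = F m}) :=
    hK.inter_right (isClosed_eq hF continuous_const)
  obtain ⟨x, hx⟩ := hc.extremePoints_nonempty ⟨m, hm, rfl⟩
  rw [mem_extremePoints] at hx
  obtain ⟨⟨hxK, hxm⟩, hext⟩ := hx
  change F x = F m at hxm
  refine ⟨x, hxK, fun y hy => by rw [hxm]; exact hmax hy, fun d h1 h2 => ?_⟩
  have e1 : F (x + d) ≤ F m := hmax h1
  have e2 : F (x - d) ≤ F m := hmax h2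
  have e3 := hadd x d
  have f1 : F (x + d) = F m := by linarith
  have f2 : F (x - d) = F m := by linarith
  have hseg : x ∈ openSegment ℝ (x + d) (x - d) := by
    refine ⟨1 / 2, 1 / 2, by norm_num, by norm_num, by norm_num, ?_⟩
    funext i
    simp only [Pi.add_apply, Pi.smul_apply, Pi.sub_apply, smul_eq_mul]
    ring
  have := (hext (x + d) ⟨h1, f1⟩ (x - d) ⟨h2, f2⟩ hseg).1
  simpa using this

/-- The rows of the constraints. -/
def rowZ : Fin 7 → Fin 3 → ℤ :=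
  ![![1, 0, 0], ![0, 1, 0], ![0, 0, 1], ![-1, -1, -1], ![1, 1, 0], ![1, 0, 1], ![0, 1, 1]]

/-- Determinant. -/
def det3 (p q r : Fin 3 → ℤ) : ℤ :=
  p 0 * (q 1 * r 2 - q 2 * r 1) - p 1 * (q 0 * r 2 - q 2 * r 0) + p 2 * (q 0 * r 1 - q 1 * r 0)

/-- Scalar product. -/
def dotZ (p q : Fin 3 → ℤ) : ℤ := p 0 * q 0 + p 1 * q 1 + p 2 * q 2

/-- Directions. -/
def dirs : List (Fin 3 → ℤ) :=
  [![1, 0, 0], ![0, 1, 0], ![0, 0, 1], ![1, -1, 0], ![1, 0, -1], ![0, 1, -1], ![1, 1, -1],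
    ![1, -1, 1], ![-1, 1, 1], ![2, -1, -1], ![-1, 2, -1], ![-1, -1, 2]]

theorem comb : ∀ S : Finset (Fin 7),
    (∃ i ∈ S, ∃ j ∈ S, ∃ k ∈ S, i < j ∧ j < k ∧ det3 (rowZ i) (rowZ j) (rowZ k) ≠ 0) ∨
      ∃ d ∈ dirs, d ≠ 0 ∧ ∀ i ∈ S, dotZ (rowZ i) d = 0 := by
  decide +kernel

/-- Value of a constraint. -/
def rowR (i : Fin 7) (x : Fin 3 → ℝ) : ℝ := rowZ i 0 * x 0 + rowZ i 1 * x 1 + rowZ i 2 * x 2

theorem rowR_cont (i : Fin 7) : Continuous (rowR i) := by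
  unfold rowR
  fun_prop

theorem rowR_add (i : Fin 7) (x y : Fin 3 → ℝ) (s : ℝ) :
    rowR i (x + s • y) = rowR i x + s * rowR i y := by
  simp only [rowR, Pi.add_apply, Pi.smul_apply, smul_eq_mul]
  ring

/-- The polytope. -/
def poly (U : Finset (Fin 7)) (c : Fin 7 → ℝ) : Set (Fin 3 → ℝ) := {x | ∀ i ∈ U, c i ≤ rowR i x}

theorem poly_compact (U : Finset (Fin 7)) (c : Fin 7 → ℝ) (h0 : 0 ∈ U) (h1 : 1 ∈ U)
    (h2 : 2 ∈ U) (h3 : 3 ∈ U) : IsCompact (poly U c) := by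
  have hcl : IsClosed (poly U c) := by
    have : poly U c = ⋂ i ∈ U, {x | c i ≤ rowR i x} := by
      ext x
      simp [poly]
    rw [this]
    exact isClosed_biInter fun i _ => isClosed_le continuous_const (rowR_cont i)
  refine IsCompact.of_isClosed_subset (isCompact_Icc (a := ![c 0, c 1, c 2])
    (b := ![-c 3 - c 1 - c 2, -c 3 - c 0 - c 2, -c 3 - c 0 - c 1])) hcl ?_
  intro x hx
  have a0 := hx 0 h0
  have a1 := hx 1 h1
  have a2 := hx 2 h2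
  have a3 := hx 3 h3
  simp [rowR, rowZ] at a0 a1 a2 a3
  constructor
  · intro i
    fin_cases i <;> simp <;> linarith
  · intro i
    fin_cases i <;> simp <;> linarith

/-- The maximum of an affine function over the polytope is attained at a vertex. -/
theorem lp_vertex (U : Finset (Fin 7)) (c : Fin 7 → ℝ) (h0 : 0 ∈ U) (h1 : 1 ∈ U)
    (h2 : 2 ∈ U) (h3 : 3 ∈ U) (w p q r : ℝ) (x0 : Fin 3 → ℝ) (hx0 : x0 ∈ poly U c) :
    ∃ x ∈ poly U c, w + p * x0 0 + q * x0 1 + r * x0 2 ≤ w + p * x 0 + q * x 1 + r * x 2 ∧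
      ∃ i ∈ U, ∃ j ∈ U, ∃ k ∈ U, i < j ∧ j < k ∧ det3 (rowZ i) (rowZ j) (rowZ k) ≠ 0 ∧
        rowR i x = c i ∧ rowR j x = c j ∧ rowR k x = c k := by
  obtain ⟨x, hxK, hmax, hext⟩ := lp_ext (poly_compact U c h0 h1 h2 h3) ⟨x0, hx0⟩
    (fun x => w + p * x 0 + q * x 1 + r * x 2) (by fun_prop) (by
      intro x d
      simp only [Pi.add_apply, Pi.sub_apply]
      ring)
  refine ⟨x, hxK, hmax x0 hx0, ?_⟩
  rcases comb (U.filter fun i => rowR i x = c i) with ⟨i, hi, j, hj, k, hk, hij, hjk, hdet⟩ |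
    ⟨d, -, hd0, hd⟩
  · rw [Finset.mem_filter] at hi hj hk
    exact ⟨i, hi.1, j, hj.1, k, hk.1, hij, hjk, hdet, hi.2, hj.2, hk.2⟩
  · exfalso
    -- a direction along which all the active constraints are constant
    set y : Fin 3 → ℝ := fun n => (d n : ℝ) with hy
    have hdot : ∀ i, rowR i y = ((dotZ (rowZ i) d : ℤ) : ℝ) := by
      intro i
      simp only [rowR, dotZ, hy]
      push_cast
      ring
    have hev : ∀ᶠ s : ℝ in 𝓝 0, x + s • y ∈ poly U c := by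
      have : ∀ i ∈ U, ∀ᶠ s : ℝ in 𝓝 0, c i ≤ rowR i (x + s • y) := by
        intro i hi
        by_cases hact : rowR i x = c i
        · refine Eventually.of_forall fun s => ?_
          rw [rowR_add, hdot, hd i (Finset.mem_filter.mpr ⟨hi, hact⟩), hact]
          simp
        · have hlt : c i < rowR i x := lt_of_le_of_ne (hxK i hi) (Ne.symm hact)
          have hcont : Continuous fun s : ℝ => rowR i (x + s • y) :=
            (rowR_cont i).comp (by fun_prop)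
          have h4 : ∀ᶠ s : ℝ in 𝓝 0, c i < rowR i (x + s • y) := by
            refine (hcont.tendsto 0).eventually_const_lt ?_
            simpa using hlt
          exact h4.mono fun s hs => hs.le
      exact (Filter.eventually_all_finset U).mpr this
    have hev2 : ∀ᶠ s : ℝ in 𝓝 0, x - s • y ∈ poly U c := by
      have hneg : Tendsto (fun s : ℝ => -s) (𝓝 0) (𝓝 0) := by
        have := (continuous_neg (G := ℝ)).tendsto 0
        simpa using this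
      have := hneg.eventually hev
      refine this.mono fun s hs => ?_
      rw [neg_smul, ← sub_eq_add_neg] at hs
      exact hs
    have hpos : ∃ s : ℝ, 0 < s ∧ x + s • y ∈ poly U c ∧ x - s • y ∈ poly U c := by
      have h5 : ∀ᶠ s : ℝ in 𝓝[>] 0, x + s • y ∈ poly U c ∧ x - s • y ∈ poly U c :=
        (hev.and hev2).filter_mono nhdsWithin_le_nhds
      obtain ⟨s, hs⟩ := (h5.and self_mem_nhdsWithin).exists
      exact ⟨s, hs.2, hs.1.1, hs.1.2⟩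
    obtain ⟨s, hs, hs1, hs2⟩ := hpos
    have hz := hext (s • y) hs1 hs2
    have hy0 : y = 0 := by
      rcases smul_eq_zero.mp hz with h | h
      · exact absurd h hs.ne'
      · exact h
    apply hd0
    funext n
    have h6 : y n = 0 := by rw [hy0]; rfl
    have h7 : ((d n : ℤ) : ℝ) = 0 := h6
    exact_mod_cast h7

/-- The nonsingular triples of constraints. -/
def trip : List (Fin 7 × Fin 7 × Fin 7) :=
  [(0, 1, 2), (0, 1, 3), (0, 1, 5), (0, 1, 6), (0, 2, 3), (0, 2, 4), (0, 2, 6),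
    (0, 3, 4), (0, 3, 5), (0, 4, 5), (0, 4, 6), (0, 5, 6), (1, 2, 3), (1, 2, 4),
    (1, 2, 5), (1, 3, 4), (1, 3, 6), (1, 4, 5), (1, 4, 6), (1, 5, 6), (2, 3, 5),
    (2, 3, 6), (2, 4, 5), (2, 4, 6), (2, 5, 6), (3, 4, 5), (3, 4, 6), (3, 5, 6),
    (4, 5, 6)]

theorem mem_trip : ∀ i j k : Fin 7, i < j → j < k → det3 (rowZ i) (rowZ j) (rowZ k) ≠ 0 →
    (i, j, k) ∈ trip := by
  decide +kernel

/-- The value at a vertex. -/
def Fv (Z A B D w a b d : ℝ) : ℝ := w * Z + a * A + b * B + d * D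

theorem Fv_of {Z A B D w a b d w' a' b' d' : ℝ} (h : Fv Z A B D w' a' b' d' < 0) (hw : w = w')
    (ha : a = a') (hb : b = b') (hd : d = d') : Fv Z A B D w a b d < 0 := by
  rw [hw, ha, hb, hd]; exact h

/-- Two close sides. -/
theorem tri2 {Z A B D L e f : ℝ} (hf : 0 ≤ f) (hfe : f ≤ e)
    (v1 : Fv Z A B D 0 L 0 0 < 0)
    (v2 : Fv Z A B D (L - e) e 0 0 < 0)
    (v3 : Fv Z A B D 0 e 0 (L - e) < 0)
    (v4 : Fv Z A B D 0 f (L - f) 0 < 0)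
    (v5 : Fv Z A B D (L - e) f (e - f) 0 < 0)
    (v6 : e + f ≤ L → Fv Z A B D (L - e - f) 0 e f < 0)
    (v7 : e + f ≤ L → Fv Z A B D 0 0 e (L - e) < 0)
    (v8 : e + f ≤ L → Fv Z A B D 0 0 (L - f) f < 0)
    (v9 : L ≤ e + f → Fv Z A B D 0 (e + f - L) (L - f) (L - e) < 0)
    {a b d : ℝ} (ha : 0 ≤ a) (hb : 0 ≤ b) (hd : 0 ≤ d) (hs : a + b + d ≤ L)
    (h1 : e ≤ a + b) (h2 : f ≤ a + d) :
    Fv Z A B D (L - a - b - d) a b d < 0 := by
  obtain ⟨x, hxK, hF, i, hi, j, hj, k, hk, hij, hjk, hdet, t1, t2, t3⟩ :=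
    lp_vertex {0, 1, 2, 3, 4, 5} ![0, 0, 0, -L, e, f, 0] (by decide) (by decide) (by decide)
      (by decide) (L * Z) (A - Z) (B - Z) (D - Z) ![a, b, d] (by
        intro i hi
        fin_cases hi <;> simp [rowR, rowZ] <;> linarith)
  have k0 := hxK 0 (by decide)
  have k1 := hxK 1 (by decide)
  have k2 := hxK 2 (by decide)
  have k3 := hxK 3 (by decide)
  have k4 := hxK 4 (by decide)
  have k5 := hxK 5 (by decide)
  have hm := mem_trip i j k hij hjk hdet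
  simp only [Matrix.cons_val_zero, Matrix.cons_val_one, Matrix.cons_val] at hF
  simp [rowR, rowZ] at k0 k1 k2 k3 k4 k5
  have key : Fv Z A B D (L - x 0 - x 1 - x 2) (x 0) (x 1) (x 2) < 0 := by
    simp only [trip, List.mem_cons, Prod.mk.injEq, List.not_mem_nil, or_false] at hm
    rcases hm with ⟨rfl, rfl, rfl⟩ | ⟨rfl, rfl, rfl⟩ | ⟨rfl, rfl, rfl⟩ | ⟨rfl, rfl, rfl⟩ |
      ⟨rfl, rfl, rfl⟩ | ⟨rfl, rfl, rfl⟩ | ⟨rfl, rfl, rfl⟩ | ⟨rfl, rfl, rfl⟩ |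
      ⟨rfl, rfl, rfl⟩ | ⟨rfl, rfl, rfl⟩ | ⟨rfl, rfl, rfl⟩ | ⟨rfl, rfl, rfl⟩ |
      ⟨rfl, rfl, rfl⟩ | ⟨rfl, rfl, rfl⟩ | ⟨rfl, rfl, rfl⟩ | ⟨rfl, rfl, rfl⟩ |
      ⟨rfl, rfl, rfl⟩ | ⟨rfl, rfl, rfl⟩ | ⟨rfl, rfl, rfl⟩ | ⟨rfl, rfl, rfl⟩ |
      ⟨rfl, rfl, rfl⟩ | ⟨rfl, rfl, rfl⟩ | ⟨rfl, rfl, rfl⟩ | ⟨rfl, rfl, rfl⟩ |
      ⟨rfl, rfl, rfl⟩ | ⟨rfl, rfl, rfl⟩ | ⟨rfl, rfl, rfl⟩ | ⟨rfl, rfl, rfl⟩ |
      ⟨rfl, rfl, rfl⟩
    all_goals first
      | exact absurd hk (by decide)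
      | (simp [rowR, rowZ] at t1 t2 t3
         first
           | exact Fv_of v1 (by linarith) (by linarith) (by linarith) (by linarith)
           | exact Fv_of v2 (by linarith) (by linarith) (by linarith) (by linarith)
           | exact Fv_of v3 (by linarith) (by linarith) (by linarith) (by linarith)
           | exact Fv_of v4 (by linarith) (by linarith) (by linarith) (by linarith)
           | exact Fv_of v5 (by linarith) (by linarith) (by linarith) (by linarith)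
           | exact Fv_of (v6 (by linarith)) (by linarith) (by linarith) (by linarith) (by linarith)
           | exact Fv_of (v7 (by linarith)) (by linarith) (by linarith) (by linarith) (by linarith)
           | exact Fv_of (v8 (by linarith)) (by linarith) (by linarith) (by linarith) (by linarith)
           | exact Fv_of (v9 (by linarith)) (by linarith) (by linarith) (by linarith) (by linarith))
  unfold Fv at *
  linarith

/-- Three close sides. -/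
theorem tri3 {Z A B D L e f g : ℝ} (hg : 0 ≤ g) (hgf : g ≤ f) (hfe : f ≤ e)
    (w1 : e + f ≤ L → Fv Z A B D 0 0 (L - f) f < 0)
    (w2 : e + f ≤ L → Fv Z A B D 0 0 e (L - e) < 0)
    (w3 : L ≤ e + f → e + f + g ≤ 2 * L → Fv Z A B D 0 (e + f - L) (L - f) (L - e) < 0)
    (w4 : e + g ≤ L → Fv Z A B D 0 (L - g) 0 g < 0)
    (w5 : e + g ≤ L → Fv Z A B D 0 e 0 (L - e) < 0)
    (w6 : L ≤ e + g → e + f + g ≤ 2 * L → Fv Z A B D 0 (L - g) (e + g - L) (L - e) < 0)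
    (w7 : f + g ≤ L → Fv Z A B D 0 (L - g) g 0 < 0)
    (w8 : f + g ≤ L → Fv Z A B D 0 f (L - f) 0 < 0)
    (w9 : L ≤ f + g → e + f + g ≤ 2 * L → Fv Z A B D 0 (L - g) (L - f) (f + g - L) < 0)
    (y1 : f + g ≤ e → Fv Z A B D (L - e) f (e - f) 0 < 0)
    (y2 : f + g ≤ e → Fv Z A B D (L - e) (e - g) g 0 < 0)
    (y3 : e + g ≤ L → Fv Z A B D (L - e - g) e 0 g < 0)
    (y4 : e + f ≤ L → Fv Z A B D (L - e - f) 0 e f < 0)
    (y5 : e ≤ f + g → f + g ≤ L → Fv Z A B D (L - f - g) f g 0 < 0)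
    (y6 : e ≤ f + g → e + f + g ≤ 2 * L →
      Fv Z A B D ((2 * L - e - f - g) / 2) ((e + f - g) / 2) ((e + g - f) / 2)
        ((f + g - e) / 2) < 0)
    {a b d : ℝ} (ha : 0 ≤ a) (hb : 0 ≤ b) (hd : 0 ≤ d) (hs : a + b + d ≤ L)
    (h1 : e ≤ a + b) (h2 : f ≤ a + d) (h3 : g ≤ b + d) :
    Fv Z A B D (L - a - b - d) a b d < 0 := by
  obtain ⟨x, hxK, hF, i, hi, j, hj, k, hk, hij, hjk, hdet, t1, t2, t3⟩ :=
    lp_vertex Finset.univ ![0, 0, 0, -L, e, f, g] (by decide) (by decide) (by decide) (by decide)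
      (L * Z) (A - Z) (B - Z) (D - Z) ![a, b, d] (by
        intro i hi
        fin_cases i <;> simp [rowR, rowZ] <;> linarith)
  have k0 := hxK 0 (by decide)
  have k1 := hxK 1 (by decide)
  have k2 := hxK 2 (by decide)
  have k3 := hxK 3 (by decide)
  have k4 := hxK 4 (by decide)
  have k5 := hxK 5 (by decide)
  have k6 := hxK 6 (by decide)
  have hm := mem_trip i j k hij hjk hdet
  simp only [Matrix.cons_val_zero, Matrix.cons_val_one, Matrix.cons_val] at hF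
  simp [rowR, rowZ] at k0 k1 k2 k3 k4 k5 k6
  have key : Fv Z A B D (L - x 0 - x 1 - x 2) (x 0) (x 1) (x 2) < 0 := by
    simp only [trip, List.mem_cons, Prod.mk.injEq, List.not_mem_nil, or_false] at hm
    rcases hm with ⟨rfl, rfl, rfl⟩ | ⟨rfl, rfl, rfl⟩ | ⟨rfl, rfl, rfl⟩ | ⟨rfl, rfl, rfl⟩ |
      ⟨rfl, rfl, rfl⟩ | ⟨rfl, rfl, rfl⟩ | ⟨rfl, rfl, rfl⟩ | ⟨rfl, rfl, rfl⟩ |
      ⟨rfl, rfl, rfl⟩ | ⟨rfl, rfl, rfl⟩ | ⟨rfl, rfl, rfl⟩ | ⟨rfl, rfl, rfl⟩ |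
      ⟨rfl, rfl, rfl⟩ | ⟨rfl, rfl, rfl⟩ | ⟨rfl, rfl, rfl⟩ | ⟨rfl, rfl, rfl⟩ |
      ⟨rfl, rfl, rfl⟩ | ⟨rfl, rfl, rfl⟩ | ⟨rfl, rfl, rfl⟩ | ⟨rfl, rfl, rfl⟩ |
      ⟨rfl, rfl, rfl⟩ | ⟨rfl, rfl, rfl⟩ | ⟨rfl, rfl, rfl⟩ | ⟨rfl, rfl, rfl⟩ |
      ⟨rfl, rfl, rfl⟩ | ⟨rfl, rfl, rfl⟩ | ⟨rfl, rfl, rfl⟩ | ⟨rfl, rfl, rfl⟩ |
      ⟨rfl, rfl, rfl⟩
    all_goals first
      | exact absurd hk (by decide)
      | (simp [rowR, rowZ] at t1 t2 t3
         first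
           | exact Fv_of (w1 (by linarith)) (by linarith) (by linarith) (by linarith) (by linarith)
           | exact Fv_of (w2 (by linarith)) (by linarith) (by linarith) (by linarith) (by linarith)
           | exact Fv_of (w3 (by linarith) (by linarith)) (by linarith) (by linarith)
               (by linarith) (by linarith)
           | exact Fv_of (w4 (by linarith)) (by linarith) (by linarith) (by linarith) (by linarith)
           | exact Fv_of (w5 (by linarith)) (by linarith) (by linarith) (by linarith) (by linarith)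
           | exact Fv_of (w6 (by linarith) (by linarith)) (by linarith) (by linarith)
               (by linarith) (by linarith)
           | exact Fv_of (w7 (by linarith)) (by linarith) (by linarith) (by linarith) (by linarith)
           | exact Fv_of (w8 (by linarith)) (by linarith) (by linarith) (by linarith) (by linarith)
           | exact Fv_of (w9 (by linarith) (by linarith)) (by linarith) (by linarith)
               (by linarith) (by linarith)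
           | exact Fv_of (y1 (by linarith)) (by linarith) (by linarith) (by linarith) (by linarith)
           | exact Fv_of (y2 (by linarith)) (by linarith) (by linarith) (by linarith) (by linarith)
           | exact Fv_of (y3 (by linarith)) (by linarith) (by linarith) (by linarith) (by linarith)
           | exact Fv_of (y4 (by linarith)) (by linarith) (by linarith) (by linarith) (by linarith)
           | exact Fv_of (y5 (by linarith) (by linarith)) (by linarith) (by linarith)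
               (by linarith) (by linarith)
           | exact Fv_of (y6 (by linarith) (by linarith)) (by linarith) (by linarith)
               (by linarith) (by linarith))
  unfold Fv at *
  linarith

end lp

section vert

/-- The value at a vertex of the polytope of the marks (`w` unmarked, `a`, `b`, `d` the weights of
the three marks). -/
def Cert.V (C : Cert) (N : ℕ) (u v t w a b d : ℝ) : Prop :=
  Fv (C.Z0 N u v t) (C.Z1 N u v t) (C.Z1 N u t v) (C.Z1 N v t u) w a b d < 0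

/-- The vertex inequalities of the four regions; the sides are ordered, `u` the largest. The
weights are multiplied by `L`. -/
structure Cert.Vert (C : Cert) (N : ℕ) (L : ℝ) : Prop where
  a0 : ∀ u v t, -1 ≤ t → t ≤ v → v ≤ u → u ≤ 1 / 2 → Gm u v t → C.V N u v t 1 0 0 0
  a1 : ∀ u v t, -1 ≤ t → t ≤ v → v ≤ u → u ≤ 1 / 2 → Gm u v t → C.V N u v t 0 1 0 0
  a2 : ∀ u v t, -1 ≤ t → t ≤ v → v ≤ u → u ≤ 1 / 2 → Gm u v t → C.V N u v t 0 0 1 0
  a3 : ∀ u v t, -1 ≤ t → t ≤ v → v ≤ u → u ≤ 1 / 2 → Gm u v t → C.V N u v t 0 0 0 1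
  b1 : ∀ u v t, 1 / 2 ≤ u → u ≤ (1 + L) / 2 → v ≤ 1 / 2 → t ≤ v → -1 ≤ t → Gm u v t →
    C.V N u v t 0 1 0 0
  b2 : ∀ u v t, 1 / 2 ≤ u → u ≤ (1 + L) / 2 → v ≤ 1 / 2 → t ≤ v → -1 ≤ t → Gm u v t →
    C.V N u v t 0 0 1 0
  b3 : ∀ u v t, 1 / 2 ≤ u → u ≤ (1 + L) / 2 → v ≤ 1 / 2 → t ≤ v → -1 ≤ t → Gm u v t →
    C.V N u v t (L - (2 * u - 1)) (2 * u - 1) 0 0
  b4 : ∀ u v t, 1 / 2 ≤ u → u ≤ (1 + L) / 2 → v ≤ 1 / 2 → t ≤ v → -1 ≤ t → Gm u v t →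
    C.V N u v t (L - (2 * u - 1)) 0 (2 * u - 1) 0
  b5 : ∀ u v t, 1 / 2 ≤ u → u ≤ (1 + L) / 2 → v ≤ 1 / 2 → t ≤ v → -1 ≤ t → Gm u v t →
    C.V N u v t 0 (2 * u - 1) 0 (L - (2 * u - 1))
  b6 : ∀ u v t, 1 / 2 ≤ u → u ≤ (1 + L) / 2 → v ≤ 1 / 2 → t ≤ v → -1 ≤ t → Gm u v t →
    C.V N u v t 0 0 (2 * u - 1) (L - (2 * u - 1))
  c1 : ∀ u v t, u ≤ (1 + L) / 2 → v ≤ u → 1 / 2 ≤ v → t ≤ 1 / 2 → -1 ≤ t → Gm u v t →
    C.V N u v t 0 1 0 0
  c2 : ∀ u v t, u ≤ (1 + L) / 2 → v ≤ u → 1 / 2 ≤ v → t ≤ 1 / 2 → -1 ≤ t → Gm u v t →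
    C.V N u v t (L - (2 * u - 1)) (2 * u - 1) 0 0
  c3 : ∀ u v t, u ≤ (1 + L) / 2 → v ≤ u → 1 / 2 ≤ v → t ≤ 1 / 2 → -1 ≤ t → Gm u v t →
    C.V N u v t 0 (2 * u - 1) 0 (L - (2 * u - 1))
  c4 : ∀ u v t, u ≤ (1 + L) / 2 → v ≤ u → 1 / 2 ≤ v → t ≤ 1 / 2 → -1 ≤ t → Gm u v t →
    C.V N u v t 0 (2 * v - 1) (L - (2 * v - 1)) 0
  c5 : ∀ u v t, u ≤ (1 + L) / 2 → v ≤ u → 1 / 2 ≤ v → t ≤ 1 / 2 → -1 ≤ t → Gm u v t →
    C.V N u v t (L - (2 * u - 1)) (2 * v - 1) ((2 * u - 1) - (2 * v - 1)) 0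
  c6 : ∀ u v t, u ≤ (1 + L) / 2 → v ≤ u → 1 / 2 ≤ v → t ≤ 1 / 2 → -1 ≤ t → Gm u v t →
    (2 * u - 1) + (2 * v - 1) ≤ L →
      C.V N u v t (L - (2 * u - 1) - (2 * v - 1)) 0 (2 * u - 1) (2 * v - 1)
  c7 : ∀ u v t, u ≤ (1 + L) / 2 → v ≤ u → 1 / 2 ≤ v → t ≤ 1 / 2 → -1 ≤ t → Gm u v t →
    (2 * u - 1) + (2 * v - 1) ≤ L → C.V N u v t 0 0 (2 * u - 1) (L - (2 * u - 1))
  c8 : ∀ u v t, u ≤ (1 + L) / 2 → v ≤ u → 1 / 2 ≤ v → t ≤ 1 / 2 → -1 ≤ t → Gm u v t →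
    (2 * u - 1) + (2 * v - 1) ≤ L → C.V N u v t 0 0 (L - (2 * v - 1)) (2 * v - 1)
  c9 : ∀ u v t, u ≤ (1 + L) / 2 → v ≤ u → 1 / 2 ≤ v → t ≤ 1 / 2 → -1 ≤ t → Gm u v t →
    L ≤ (2 * u - 1) + (2 * v - 1) →
      C.V N u v t 0 ((2 * u - 1) + (2 * v - 1) - L) (L - (2 * v - 1)) (L - (2 * u - 1))
  d1 : ∀ u v t, u ≤ (1 + L) / 2 → v ≤ u → t ≤ v → 1 / 2 ≤ t → Gm u v t →
    (2 * u - 1) + (2 * v - 1) ≤ L → C.V N u v t 0 0 (L - (2 * v - 1)) (2 * v - 1)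
  d2 : ∀ u v t, u ≤ (1 + L) / 2 → v ≤ u → t ≤ v → 1 / 2 ≤ t → Gm u v t →
    (2 * u - 1) + (2 * v - 1) ≤ L → C.V N u v t 0 0 (2 * u - 1) (L - (2 * u - 1))
  d3 : ∀ u v t, u ≤ (1 + L) / 2 → v ≤ u → t ≤ v → 1 / 2 ≤ t → Gm u v t →
    L ≤ (2 * u - 1) + (2 * v - 1) →
    (2 * u - 1) + (2 * v - 1) + (2 * t - 1) ≤ 2 * L →
      C.V N u v t 0 ((2 * u - 1) + (2 * v - 1) - L) (L - (2 * v - 1)) (L - (2 * u - 1))
  d4 : ∀ u v t, u ≤ (1 + L) / 2 → v ≤ u → t ≤ v → 1 / 2 ≤ t → Gm u v t →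
    (2 * u - 1) + (2 * t - 1) ≤ L → C.V N u v t 0 (L - (2 * t - 1)) 0 (2 * t - 1)
  d5 : ∀ u v t, u ≤ (1 + L) / 2 → v ≤ u → t ≤ v → 1 / 2 ≤ t → Gm u v t →
    (2 * u - 1) + (2 * t - 1) ≤ L → C.V N u v t 0 (2 * u - 1) 0 (L - (2 * u - 1))
  d6 : ∀ u v t, u ≤ (1 + L) / 2 → v ≤ u → t ≤ v → 1 / 2 ≤ t → Gm u v t →
    L ≤ (2 * u - 1) + (2 * t - 1) →
    (2 * u - 1) + (2 * v - 1) + (2 * t - 1) ≤ 2 * L →
      C.V N u v t 0 (L - (2 * t - 1)) ((2 * u - 1) + (2 * t - 1) - L) (L - (2 * u - 1))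
  d7 : ∀ u v t, u ≤ (1 + L) / 2 → v ≤ u → t ≤ v → 1 / 2 ≤ t → Gm u v t →
    (2 * v - 1) + (2 * t - 1) ≤ L → C.V N u v t 0 (L - (2 * t - 1)) (2 * t - 1) 0
  d8 : ∀ u v t, u ≤ (1 + L) / 2 → v ≤ u → t ≤ v → 1 / 2 ≤ t → Gm u v t →
    (2 * v - 1) + (2 * t - 1) ≤ L → C.V N u v t 0 (2 * v - 1) (L - (2 * v - 1)) 0
  d9 : ∀ u v t, u ≤ (1 + L) / 2 → v ≤ u → t ≤ v → 1 / 2 ≤ t → Gm u v t →
    L ≤ (2 * v - 1) + (2 * t - 1) →
    (2 * u - 1) + (2 * v - 1) + (2 * t - 1) ≤ 2 * L →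
      C.V N u v t 0 (L - (2 * t - 1)) (L - (2 * v - 1)) ((2 * v - 1) + (2 * t - 1) - L)
  d10 : ∀ u v t, u ≤ (1 + L) / 2 → v ≤ u → t ≤ v → 1 / 2 ≤ t → Gm u v t →
    (2 * v - 1) + (2 * t - 1) ≤ (2 * u - 1) →
      C.V N u v t (L - (2 * u - 1)) (2 * v - 1) ((2 * u - 1) - (2 * v - 1)) 0
  d11 : ∀ u v t, u ≤ (1 + L) / 2 → v ≤ u → t ≤ v → 1 / 2 ≤ t → Gm u v t →
    (2 * v - 1) + (2 * t - 1) ≤ (2 * u - 1) →
      C.V N u v t (L - (2 * u - 1)) ((2 * u - 1) - (2 * t - 1)) (2 * t - 1) 0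
  d12 : ∀ u v t, u ≤ (1 + L) / 2 → v ≤ u → t ≤ v → 1 / 2 ≤ t → Gm u v t →
    (2 * u - 1) + (2 * t - 1) ≤ L →
      C.V N u v t (L - (2 * u - 1) - (2 * t - 1)) (2 * u - 1) 0 (2 * t - 1)
  d13 : ∀ u v t, u ≤ (1 + L) / 2 → v ≤ u → t ≤ v → 1 / 2 ≤ t → Gm u v t →
    (2 * u - 1) + (2 * v - 1) ≤ L →
      C.V N u v t (L - (2 * u - 1) - (2 * v - 1)) 0 (2 * u - 1) (2 * v - 1)
  d14 : ∀ u v t, u ≤ (1 + L) / 2 → v ≤ u → t ≤ v → 1 / 2 ≤ t → Gm u v t →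
    (2 * u - 1) ≤ (2 * v - 1) + (2 * t - 1) → (2 * v - 1) + (2 * t - 1) ≤ L →
      C.V N u v t (L - (2 * v - 1) - (2 * t - 1)) (2 * v - 1) (2 * t - 1) 0
  d15 : ∀ u v t, u ≤ (1 + L) / 2 → v ≤ u → t ≤ v → 1 / 2 ≤ t → Gm u v t →
    (2 * u - 1) ≤ (2 * v - 1) + (2 * t - 1) → (2 * u - 1) + (2 * v - 1) + (2 * t - 1) ≤ 2 * L →
      C.V N u v t ((2 * L - (2 * u - 1) - (2 * v - 1) - (2 * t - 1)) / 2)
        (((2 * u - 1) + (2 * v - 1) - (2 * t - 1)) / 2)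
        (((2 * u - 1) + (2 * t - 1) - (2 * v - 1)) / 2)
        (((2 * v - 1) + (2 * t - 1) - (2 * u - 1)) / 2)

theorem Cert.TP_of_Fv (C : Cert) (N : ℕ) (L u v t : ℝ) (hL : 0 < L)
    (H : ∀ a b d : ℝ, 0 ≤ a → 0 ≤ b → 0 ≤ d → a + b + d ≤ L → 2 * u - 1 ≤ a + b →
      2 * v - 1 ≤ a + d → 2 * t - 1 ≤ b + d → C.V N u v t (L - a - b - d) a b d) :
    C.TP N L u v t := by
  intro a b d ha hb hd hs hu hv ht
  have h := H (L * a) (L * b) (L * d) (mul_nonneg hL.le ha) (mul_nonneg hL.le hb)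
    (mul_nonneg hL.le hd) (by nlinarith) (by linarith) (by linarith) (by linarith)
  unfold Cert.V Fv at h
  have e : (L - L * a - L * b - L * d) * C.Z0 N u v t + L * a * C.Z1 N u v t +
      L * b * C.Z1 N u t v + L * d * C.Z1 N v t u = L * ((1 - a - b - d) * C.Z0 N u v t +
        a * C.Z1 N u v t + b * C.Z1 N u t v + d * C.Z1 N v t u) := by ring
  rw [e] at h
  by_contra hc
  push Not at hc
  have := mul_nonneg hL.le hc
  linarith

theorem Cert.TP_of_Vert (C : Cert) (N : ℕ) (L : ℝ) (hL : 0 < L) (H : C.Vert N L) :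
    ∀ u v t, -1 ≤ t → t ≤ v → v ≤ u → u ≤ 1 → Gm u v t → u ≤ (1 + L) / 2 →
      C.TP N L u v t := by
  intro u v t ht1 htv hvu hu1 hG huL
  rcases le_total u (1 / 2) with hu2 | hu2
  · have h0 := H.a0 u v t ht1 htv hvu hu2 hG
    have h1 := H.a1 u v t ht1 htv hvu hu2 hG
    have h2 := H.a2 u v t ht1 htv hvu hu2 hG
    have h3 := H.a3 u v t ht1 htv hvu hu2 hG
    unfold Cert.V Fv at h0 h1 h2 h3
    exact C.TP_of_vert0 N L u v t (by linarith) (by linarith) (by linarith) (by linarith)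
  · rcases le_total v (1 / 2) with hv2 | hv2
    · have h1 := H.b1 u v t hu2 huL hv2 htv ht1 hG
      have h2 := H.b2 u v t hu2 huL hv2 htv ht1 hG
      have h3 := H.b3 u v t hu2 huL hv2 htv ht1 hG
      have h4 := H.b4 u v t hu2 huL hv2 htv ht1 hG
      have h5 := H.b5 u v t hu2 huL hv2 htv ht1 hG
      have h6 := H.b6 u v t hu2 huL hv2 htv ht1 hG
      unfold Cert.V Fv at h1 h2 h3 h4 h5 h6
      exact C.TP_of_vert1 N L u v t hu2 huL (by linarith) (by linarith) (by linarith)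
        (by linarith) (by linarith) (by linarith)
    · rcases le_total t (1 / 2) with ht2 | ht2
      · refine C.TP_of_Fv N L u v t hL fun a b d ha hb hd hs h1 h2 h3 => ?_
        have hv1 := H.c1 u v t huL hvu hv2 ht2 ht1 hG
        have hv1' : Fv (C.Z0 N u v t) (C.Z1 N u v t) (C.Z1 N u t v) (C.Z1 N v t u) 0 L 0 0 < 0 := by
          unfold Cert.V Fv at hv1
          unfold Fv
          nlinarith
        exact tri2 (by linarith) (by linarith) hv1'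
          (H.c2 u v t huL hvu hv2 ht2 ht1 hG) (H.c3 u v t huL hvu hv2 ht2 ht1 hG)
          (H.c4 u v t huL hvu hv2 ht2 ht1 hG) (H.c5 u v t huL hvu hv2 ht2 ht1 hG)
          (H.c6 u v t huL hvu hv2 ht2 ht1 hG) (H.c7 u v t huL hvu hv2 ht2 ht1 hG)
          (H.c8 u v t huL hvu hv2 ht2 ht1 hG) (H.c9 u v t huL hvu hv2 ht2 ht1 hG)
          ha hb hd hs h1 h2
      · refine C.TP_of_Fv N L u v t hL fun a b d ha hb hd hs h1 h2 h3 => ?_
        exact tri3 (by linarith) (by linarith) (by linarith)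
          (H.d1 u v t huL hvu htv ht2 hG)
          (H.d2 u v t huL hvu htv ht2 hG)
          (H.d3 u v t huL hvu htv ht2 hG)
          (H.d4 u v t huL hvu htv ht2 hG)
          (H.d5 u v t huL hvu htv ht2 hG)
          (H.d6 u v t huL hvu htv ht2 hG)
          (H.d7 u v t huL hvu htv ht2 hG)
          (H.d8 u v t huL hvu htv ht2 hG)
          (H.d9 u v t huL hvu htv ht2 hG)
          (H.d10 u v t huL hvu htv ht2 hG)
          (H.d11 u v t huL hvu htv ht2 hG)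
          (H.d12 u v t huL hvu htv ht2 hG)
          (H.d13 u v t huL hvu htv ht2 hG)
          (H.d14 u v t huL hvu htv ht2 hG)
          (H.d15 u v t huL hvu htv ht2 hG)
          ha hb hd hs h1 h2 h3

/-- **Affine certificate from the vertex inequalities.** -/
theorem Cert.lift_ge_of_vert (C : Cert) (N : ℕ) (L : ℝ) (hL : 0 < L) (h3 : 3 ≤ N)
    (hok : C.ok N = true) (H : C.Vert N L)
    (h0 : ∀ u, -1 ≤ u → u ≤ 1 / 2 → C.P0 u ≤ 0)
    (h1 : ∀ u, -1 ≤ u → u ≤ (1 + L) / 2 → u ≤ 1 → C.P1 u ≤ 0)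
    (h2 : ∀ u, 1 / 2 ≤ u → u ≤ (1 + L) / 2 → u ≤ 1 →
      2 * (L - (2 * u - 1)) * C.P0 u + (2 * u - 1) * C.P1 u ≤ 0)
    {ι : Type} [Fintype ι] {n : ι → Pool.Agent.SDC.E3} {h : ι → ℝ}
    (hN : Fintype.card ι = N) (HP : Pck n h) : L ≤ ∑ i, (h i - 1) :=
  C.lift_ge_of_TP N L hL h3 hok (C.TP_of_Vert N L hL H) (C.hP_of L hL h0 h1 h2) hN HP

end vert

end Pool.Agent.SDL
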