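import Pool.Agent.SDL.ZBuild
import Pool.Agent.SDL.N15

set_option autoImplicit false

/-!
# Affine: the affine form of the three point bound (a random marked point)

The point `s` gets the mark one with probability `ξ s`, all other points get the mark zero.
-/

open scoped RealInnerProductSpace

namespace Pool.Agent.SDL

/-- Average of a function of three marks. -/
def av3 (f : ℝ → ℝ → ℝ → ℝ) (a b c : ℝ) : ℝ :=
  (1 - a - b - c) * f 0 0 0 + a * f 1 0 0 + b * f 0 1 0 + c * f 0 0 1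

/-- Average of a function of two marks. -/
def av2 (f : ℝ → ℝ → ℝ) (a b : ℝ) : ℝ := (1 - a - b) * f 0 0 + a * f 1 0 + b * f 0 1

/-- Average of a function of one mark. -/
def av1 (f : ℝ → ℝ) (a : ℝ) : ℝ := (1 - a) * f 0 + a * f 1

section avg

variable {ι : Type*} [Fintype ι] [DecidableEq ι]

theorem sum_mark (ξ : ι → ℝ) (i : ι) (C : ℝ) :
    ∑ s, ξ s * ((if i = s then (1 : ℝ) else 0) * C) = ξ i * C := by
  rw [Finset.sum_eq_single i]
  · rw [if_pos rfl, one_mul]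
  · intro s _ hs
    rw [if_neg (fun h => hs h.symm)]
    ring
  · intro h
    exact absurd (Finset.mem_univ i) h

theorem avg1 (ξ : ι → ℝ) (h1 : ∑ s, ξ s = 1) (f : ℝ → ℝ) (i : ι) :
    ∑ s, ξ s * f (if i = s then 1 else 0) = av1 f (ξ i) := by
  have h2 : ∀ s, ξ s * f (if i = s then 1 else 0) =
      ξ s * f 0 + ξ s * ((if i = s then (1 : ℝ) else 0) * (f 1 - f 0)) := by
    intro s
    by_cases h : i = s
    · simp only [if_pos h]; ring
    · simp only [if_neg h]; ring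
  rw [Finset.sum_congr rfl fun s _ => h2 s, Finset.sum_add_distrib, ← Finset.sum_mul, h1,
    sum_mark, av1]
  ring

theorem avg2 (ξ : ι → ℝ) (h1 : ∑ s, ξ s = 1) (f : ℝ → ℝ → ℝ) {i j : ι} (hij : i ≠ j) :
    ∑ s, ξ s * f (if i = s then 1 else 0) (if j = s then 1 else 0) = av2 f (ξ i) (ξ j) := by
  have h2 : ∀ s, ξ s * f (if i = s then 1 else 0) (if j = s then 1 else 0) =
      ξ s * f 0 0 + ξ s * ((if i = s then (1 : ℝ) else 0) * (f 1 0 - f 0 0)) +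
        ξ s * ((if j = s then (1 : ℝ) else 0) * (f 0 1 - f 0 0)) := by
    intro s
    by_cases h : i = s
    · have h' : ¬ j = s := fun e => hij (h.trans e.symm)
      simp only [if_pos h, if_neg h']; ring
    · by_cases h' : j = s
      · simp only [if_neg h, if_pos h']; ring
      · simp only [if_neg h, if_neg h']; ring
  rw [Finset.sum_congr rfl fun s _ => h2 s, Finset.sum_add_distrib, Finset.sum_add_distrib,
    ← Finset.sum_mul, h1, sum_mark, sum_mark, av2]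
  ring

theorem avg3 (ξ : ι → ℝ) (h1 : ∑ s, ξ s = 1) (f : ℝ → ℝ → ℝ → ℝ) {i j m : ι} (hij : i ≠ j)
    (him : i ≠ m) (hjm : j ≠ m) :
    ∑ s, ξ s * f (if i = s then 1 else 0) (if j = s then 1 else 0) (if m = s then 1 else 0) =
      av3 f (ξ i) (ξ j) (ξ m) := by
  have h2 : ∀ s, ξ s * f (if i = s then 1 else 0) (if j = s then 1 else 0)
      (if m = s then 1 else 0) =
      ξ s * f 0 0 0 + ξ s * ((if i = s then (1 : ℝ) else 0) * (f 1 0 0 - f 0 0 0)) +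
        ξ s * ((if j = s then (1 : ℝ) else 0) * (f 0 1 0 - f 0 0 0)) +
        ξ s * ((if m = s then (1 : ℝ) else 0) * (f 0 0 1 - f 0 0 0)) := by
    intro s
    by_cases h : i = s
    · have h' : ¬ j = s := fun e => hij (h.trans e.symm)
      have h'' : ¬ m = s := fun e => him (h.trans e.symm)
      simp only [if_pos h, if_neg h', if_neg h'']; ring
    · by_cases h' : j = s
      · have h'' : ¬ m = s := fun e => hjm (h'.trans e.symm)
        simp only [if_neg h, if_pos h', if_neg h'']; ring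
      · by_cases h'' : m = s
        · simp only [if_neg h, if_neg h', if_pos h'']; ring
        · simp only [if_neg h, if_neg h', if_neg h'']; ring
  rw [Finset.sum_congr rfl fun s _ => h2 s, Finset.sum_add_distrib, Finset.sum_add_distrib,
    Finset.sum_add_distrib, ← Finset.sum_mul, h1, sum_mark, sum_mark, sum_mark, av3]
  ring

theorem sum3_sum (ξ : ι → ℝ) (F : ι → ι → ι → ι → ℝ) :
    ∑ s, ξ s * sum3 (F s) = sum3 fun i j m => ∑ s, ξ s * F s i j m := by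
  simp only [sum3, Finset.mul_sum]
  rw [Finset.sum_comm]
  refine Finset.sum_congr rfl fun i _ => ?_
  rw [Finset.sum_comm]
  refine Finset.sum_congr rfl fun j _ => ?_
  rw [Finset.sum_comm]

end avg

section main

variable {β : Type} [Fintype β] (k : β → ℕ) (d : β → ℝ → ℝ) (a : β → ℝ → ℝ)
  (g : β → ℝ → ℝ → ℝ) (q : ℝ → ℝ → ℝ → ℝ) (c1 : ℝ → ℝ) (c2 : ℝ → ℝ → ℝ → ℝ)

variable {ι : Type*} [Fintype ι] [DecidableEq ι]

theorem Zo_split (N L u v t X Y W : ℝ) :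
    Zo k d a g q c1 c2 N L u v t X Y W =
      Zo k d a g q (fun _ => 0) (fun _ _ _ => 0) N L u v t X Y W +
        (0 + c2 u X Y / (N - 2) + c1 X / ((N - 1) * (N - 2))) := by
  simp only [Zo]
  ring

/-- The averaged sum over the triples. -/
theorem sum3_avg_nonneg (h3 : 3 ≤ Fintype.card ι) (n : ι → EuclideanSpace ℝ (Fin 3))
    (hn : ∀ i, ‖n i‖ = 1) (ξ : ι → ℝ) (h0 : ∀ i, 0 ≤ ξ i) (h1 : ∑ i, ξ i = 1)
    (hd : ∀ b, 0 ≤ d b 0 ∧ 0 ≤ d b 1) (ha : ∀ b, k b ≠ 0 → ∀ X, a b X = 0)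
    (h2p : 0 ≤ ∑ i, (av1 c1 (ξ i) + ∑ j ∈ Finset.univ.erase i,
      av2 (c2 ⟪n i, n j⟫) (ξ i) (ξ j))) :
    0 ≤ sum3 fun i j m => av3 (Zo k d a g q c1 c2 (Fintype.card ι) 1 ⟪n i, n j⟫ ⟪n i, n m⟫
      ⟪n j, n m⟫) (ξ i) (ξ j) (ξ m) := by
  have e1 : ∀ s, 0 ≤ sum3 fun i j m => Zo k d a g q (fun _ => 0) (fun _ _ _ => 0)
      (Fintype.card ι) 1 ⟪n i, n j⟫ ⟪n i, n m⟫ ⟪n j, n m⟫ (if i = s then 1 else 0)
      (if j = s then 1 else 0) (if m = s then 1 else 0) := by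
    intro s
    have h4 := sum3_Zo_nonneg k d a g q (fun _ => 0) (fun _ _ _ => 0) h3 n hn
      (fun i => if i = s then 1 else 0) (fun b i => by
        by_cases h : i = s
        · simp only [if_pos h]; exact (hd b).2
        · simp only [if_neg h]; exact (hd b).1) ha (by simp)
    have h5 : ∑ l, (if l = s then (1 : ℝ) else 0) = 1 := by
      rw [Finset.sum_ite_eq' Finset.univ s, if_pos (Finset.mem_univ s)]
    rw [h5] at h4
    exact h4
  have e2 := Finset.sum_nonneg fun s (_ : s ∈ Finset.univ) => mul_nonneg (h0 s) (e1 s)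
  rw [sum3_sum] at e2
  have e3 : (sum3 fun i j m => ∑ s, ξ s * Zo k d a g q (fun _ => 0) (fun _ _ _ => 0)
      (Fintype.card ι) 1 ⟪n i, n j⟫ ⟪n i, n m⟫ ⟪n j, n m⟫ (if i = s then 1 else 0)
      (if j = s then 1 else 0) (if m = s then 1 else 0)) =
      sum3 fun i j m => av3 (Zo k d a g q (fun _ => 0) (fun _ _ _ => 0)
      (Fintype.card ι) 1 ⟪n i, n j⟫ ⟪n i, n m⟫ ⟪n j, n m⟫) (ξ i) (ξ j) (ξ m) :=
    sum3_congr fun i j m hij him hjm => avg3 ξ h1 _ hij him hjm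
  rw [e3] at e2
  have e4 := sum3_spread h3 (fun i => av1 c1 (ξ i))
    (fun i j => av2 (c2 ⟪n i, n j⟫) (ξ i) (ξ j)) fun _ _ _ => 0
  simp only [Finset.sum_const_zero, add_zero] at e4
  rw [← e4] at h2p
  refine le_of_le_of_eq (add_nonneg e2 h2p) ?_
  rw [← sum3_add]
  apply sum3_congr
  intro i j m _ _ _
  simp only [av3, av2, av1, Zo]
  ring

end main

section final

variable {ι : Type*} [Fintype ι] [DecidableEq ι]

/-- The averaged three point function, times `(N - 1) (N - 2)`: three points, their weights. -/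
noncomputable def ZA (c : List (List Sq)) (N : ℝ) (r q : ℝ → ℝ → ℝ → ℝ) (s : ℝ → ℝ)
    (u v t a b d : ℝ) : ℝ := av3 (ZR c N 1 r q s u v t) a b d

theorem ZA_swap (c : List (List Sq)) (N : ℝ) (r q : ℝ → ℝ → ℝ → ℝ) (s : ℝ → ℝ)
    (hq : ∀ t Y W, q t Y W = q t W Y) (u v t a b d : ℝ) :
    ZA c N r q s v u t a d b = ZA c N r q s u v t a b d := by
  rw [ZA, ZA, av3, av3, ZR_swap c N 1 r q s hq u v t, ZR_swap c N 1 r q s hq u v t,
    ZR_swap c N 1 r q s hq u v t, ZR_swap c N 1 r q s hq u v t]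
  ring

theorem ZA_swap' (c : List (List Sq)) (N : ℝ) (r q : ℝ → ℝ → ℝ → ℝ) (s : ℝ → ℝ)
    (hq : ∀ t Y W, q t Y W = q t W Y) (u v t a b d : ℝ) :
    ZA c N r q s u t v b a d = ZA c N r q s u v t a b d := by
  rw [ZA, ZA, av3, av3, ZR_swap' c N 1 r q s hq u v t, ZR_swap' c N 1 r q s hq u v t,
    ZR_swap' c N 1 r q s hq u v t, ZR_swap' c N 1 r q s hq u v t]
  ring

/-- Two values: no mark, the first point marked. -/
theorem ZA_eq (c : List (List Sq)) (N : ℝ) (r q : ℝ → ℝ → ℝ → ℝ) (s : ℝ → ℝ)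
    (hq : ∀ t Y W, q t Y W = q t W Y) (u v t a b d : ℝ) :
    ZA c N r q s u v t a b d = (1 - a - b - d) * ZR c N 1 r q s u v t 0 0 0 +
      a * ZR c N 1 r q s u v t 1 0 0 + b * ZR c N 1 r q s u t v 1 0 0 +
      d * ZR c N 1 r q s v t u 1 0 0 := by
  have h1 := ZR_swap' c N 1 r q s hq u v t 0 1 0
  have h2 := ZR_swap c N 1 r q s hq v u t 0 1 0
  have h3 := ZR_swap' c N 1 r q s hq v u t 0 1 0
  rw [ZA, av3, ← h1, h2, ← h3]

/-- **The affine three point bound.** -/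
theorem exists_ZA_nonneg (c : List (List Sq)) (h3 : 3 ≤ Fintype.card ι)
    (n : ι → EuclideanSpace ℝ (Fin 3)) (hn : ∀ i, ‖n i‖ = 1) (ξ : ι → ℝ) (h0 : ∀ i, 0 ≤ ξ i)
    (h1 : ∑ i, ξ i = 1) (r q : ℝ → ℝ → ℝ → ℝ) (s : ℝ → ℝ) (hq : ∀ t Y W, q t Y W = q t W Y)
    (hw : ∀ p ∈ flat c 0, 0 ≤ p.2.d 0 ∧ 0 ≤ p.2.d 1)
    (h2p : 0 ≤ ∑ i, (av1 (fun X => s X - oneR c X) (ξ i) + ∑ j ∈ Finset.univ.erase i,
      av2 (fun X Y => r ⟪n i, n j⟫ X Y - pairR c ⟪n i, n j⟫ X Y) (ξ i) (ξ j))) :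
    ∃ i j m, i ≠ j ∧ i ≠ m ∧ j ≠ m ∧ ⟪n j, n m⟫ ≤ ⟪n i, n m⟫ ∧ ⟪n i, n m⟫ ≤ ⟪n i, n j⟫ ∧
      0 ≤ ZA c (Fintype.card ι) r q s ⟪n i, n j⟫ ⟪n i, n m⟫ ⟪n j, n m⟫ (ξ i) (ξ j) (ξ m) := by
  have hN : (3 : ℝ) ≤ Fintype.card ι := by exact_mod_cast h3
  have hsum := sum3_avg_nonneg (kB c) (dB c) (aB c) (gB c) q
    (fun X => s X - oneR c X) (fun u X Y => r u X Y - pairR c u X Y) h3 n hn ξ h0 h1
    (fun b => hw _ (List.get_mem _ _))
    (fun b hb X => by
      have hb' : ¬ (((flat c 0).get b).1 = 0) := hb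
      rw [aB, Sq.a, if_neg hb'])
    h2p
  obtain ⟨i, j, m, hij, him, hjm, h5⟩ := exists_sym h3 _ hsum
  have e2 : (fun u X Y => pairR c u X Y + (r u X Y - pairR c u X Y)) = r := by
    funext u X Y
    ring
  have e3 : (fun X => oneR c X + (s X - oneR c X)) = s := by
    funext X
    ring
  have e1 : ∀ X Y W, ZR c (Fintype.card ι) 1 r q s ⟪n i, n j⟫ ⟪n i, n m⟫ ⟪n j, n m⟫ X Y W =
      ((Fintype.card ι : ℝ) - 1) * ((Fintype.card ι : ℝ) - 2) *
        Zs (kB c) (dB c) (aB c) (gB c) q (fun X => s X - oneR c X)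
          (fun u X Y => r u X Y - pairR c u X Y) (Fintype.card ι) 1
          ⟪n i, n j⟫ ⟪n i, n m⟫ ⟪n j, n m⟫ X Y W := by
    intro X Y W
    have e1 := ZR_eq c (Fintype.card ι) 1 (by linarith) (by linarith) q
      (fun X => s X - oneR c X) (fun u X Y => r u X Y - pairR c u X Y) hq
      ⟪n i, n j⟫ ⟪n i, n m⟫ ⟪n j, n m⟫ X Y W
    rw [e2, e3] at e1
    exact e1
  have h1' : 0 ≤ ZA c (Fintype.card ι) r q s ⟪n i, n j⟫ ⟪n i, n m⟫ ⟪n j, n m⟫
      (ξ i) (ξ j) (ξ m) := by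
    have h6 := mul_nonneg (mul_nonneg (by linarith : 0 ≤ (Fintype.card ι : ℝ) - 1)
      (by linarith : 0 ≤ (Fintype.card ι : ℝ) - 2)) h5
    refine le_of_le_of_eq h6 ?_
    simp only [ZA, av3, e1, Zs]
    rw [real_inner_comm (n i) (n j), real_inner_comm (n i) (n m), real_inner_comm (n j) (n m)]
    ring
  -- the order of the three points
  have sw : ∀ i j m, 0 ≤ ZA c (Fintype.card ι) r q s ⟪n i, n j⟫ ⟪n i, n m⟫
      ⟪n j, n m⟫ (ξ i) (ξ j) (ξ m) →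
      0 ≤ ZA c (Fintype.card ι) r q s ⟪n i, n m⟫ ⟪n i, n j⟫ ⟪n m, n j⟫
        (ξ i) (ξ m) (ξ j) := by
    intro i j m h
    rw [real_inner_comm (n j) (n m), ZA_swap c _ r q s hq]
    exact h
  have sw' : ∀ i j m, 0 ≤ ZA c (Fintype.card ι) r q s ⟪n i, n j⟫ ⟪n i, n m⟫
      ⟪n j, n m⟫ (ξ i) (ξ j) (ξ m) →
      0 ≤ ZA c (Fintype.card ι) r q s ⟪n j, n i⟫ ⟪n j, n m⟫ ⟪n i, n m⟫
        (ξ j) (ξ i) (ξ m) := by
    intro i j m h
    rw [real_inner_comm (n i) (n j), ZA_swap' c _ r q s hq]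
    exact h
  have key : ∀ i j m, i ≠ j → i ≠ m → j ≠ m → ⟪n j, n m⟫ ≤ ⟪n i, n m⟫ →
      ⟪n j, n m⟫ ≤ ⟪n i, n j⟫ →
      0 ≤ ZA c (Fintype.card ι) r q s ⟪n i, n j⟫ ⟪n i, n m⟫ ⟪n j, n m⟫
        (ξ i) (ξ j) (ξ m) →
      ∃ i j m, i ≠ j ∧ i ≠ m ∧ j ≠ m ∧ ⟪n j, n m⟫ ≤ ⟪n i, n m⟫ ∧ ⟪n i, n m⟫ ≤ ⟪n i, n j⟫ ∧
      0 ≤ ZA c (Fintype.card ι) r q s ⟪n i, n j⟫ ⟪n i, n m⟫ ⟪n j, n m⟫
        (ξ i) (ξ j) (ξ m) := by
    intro i j m hij him hjm ha hb h
    rcases le_total ⟪n i, n m⟫ ⟪n i, n j⟫ with hc | hc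
    · exact ⟨i, j, m, hij, him, hjm, ha, hc, h⟩
    · refine ⟨i, m, j, him, hij, hjm.symm, ?_, hc, sw i j m h⟩
      rw [real_inner_comm (n j) (n m)]
      exact hb
  rcases le_total ⟪n j, n m⟫ ⟪n i, n m⟫ with ha | ha
  · rcases le_total ⟪n j, n m⟫ ⟪n i, n j⟫ with hb | hb
    · exact key i j m hij him hjm ha hb h1'
    · -- the side `ij` is the smallest
      have h2 := sw i j m h1'
      have h3' := sw' i m j h2
      refine key m i j him.symm hjm.symm hij ?_ ?_ h3'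
      · rw [real_inner_comm (n j) (n m)]
        exact hb
      · rw [real_inner_comm (n i) (n m)]
        exact hb.trans ha
  · rcases le_total ⟪n i, n m⟫ ⟪n i, n j⟫ with hb | hb
    · -- the side `im` is the smallest
      have h2 := sw' i j m h1'
      refine key j i m hij.symm hjm him ha ?_ h2
      rw [real_inner_comm (n i) (n j)]
      exact hb
    · have h2 := sw i j m h1'
      have h3' := sw' i m j h2
      refine key m i j him.symm hjm.symm hij ?_ ?_ h3'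
      · rw [real_inner_comm (n j) (n m)]
        exact hb.trans ha
      · rw [real_inner_comm (n i) (n m)]
        exact hb

end final

end Pool.Agent.SDL
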