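import Pool.Agent.SDL.Targets3

set_option autoImplicit false

/-!
# SDL: generic assembly

The soft dodecahedral inequality for all packings from the inequality for irredundant finite
families of half spaces, and the latter from bounds of the facets with arbitrary weights.
-/

open MeasureTheory Set Real
open scoped RealInnerProductSpace

namespace Pool.Agent.SDL

open Pool.Agent.SDC

/-! ## The outer radius -/

/-- Beyond `R` the integrand is nonnegative. -/
theorem G_nonneg_far {t h r : ℝ} (ht1 : 1 ≤ t) (htR : t < R) (hr : R ≤ h * cc r) :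
    0 ≤ G t (kap t) (bet t) h r := by
  have hc : 0 < cc r := lt_of_lt_of_le one_pos (cc_one r)
  obtain ⟨hβ, hG⟩ := tBET t ht1 htR
  have hbr := MA1_bracket (by linarith) htR hG
  have hR := R_pos
  have ht3 : 0 < t ^ 3 := by positivity
  have hk1 : 0 ≤ 1 - kap t := by
    by_contra hneg
    have h1 : (1 - kap t) * R ^ 3 < 0 := mul_neg_of_neg_of_pos (not_le.1 hneg) (by positivity)
    linarith
  have h1 : R ^ 3 ≤ (h * cc r) ^ 3 := pow_le_pow_left₀ hR.le hr 3
  have h2 := mul_le_mul_of_nonneg_left h1 hk1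
  have h3 : 0 ≤ ((1 - kap t) * (h * cc r) ^ 3 - t ^ 3 - bet t) / cc r ^ 3 :=
    div_nonneg (by linarith) (by positivity)
  have h4 : ((1 - kap t) * (h * cc r) ^ 3 - t ^ 3 - bet t) / cc r ^ 3 =
      h ^ 3 - t ^ 3 / cc r ^ 3 - kap t * h ^ 3 - bet t / cc r ^ 3 := by
    field_simp
    ring
  rw [G]
  have h5 := le_max_left (h ^ 3 - t ^ 3 / cc r ^ 3) 0
  linarith

theorem G_integrable {ι : Type} [Fintype ι] (n : ι → E3) (h : ι → ℝ) (i : ι) (e f : E3)
    (t κ β ϱ : ℝ) (ht : 0 ≤ t) (hh : ∀ i, 0 < h i) :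
    IntegrableOn (fun w => G t κ β (h i) (nr w)) {w | w ∈ Qs n h i e f ∧ h i * cc (nr w) < ϱ} := by
  have hcont : Continuous (fun w : ℝ × ℝ => G t κ β (h i) (nr w)) := by
    have h1 : Continuous nr := by
      unfold nr
      fun_prop
    exact (tHCL.1 t κ β (h i)).comp h1
  refine Measure.integrableOn_of_bounded (M := h i ^ 3 + |κ * h i ^ 3| + |β|)
    (FRM_fin n h i e f ϱ hh) hcont.aestronglyMeasurable ?_
  refine Filter.Eventually.of_forall fun w => ?_
  have hc := cc_one (nr w)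
  have hc3 : (1 : ℝ) ≤ cc (nr w) ^ 3 := one_le_pow₀ hc
  have hc0 : (0 : ℝ) < cc (nr w) ^ 3 := by linarith
  have hi3 : 0 < h i ^ 3 := pow_pos (hh i) 3
  rw [Real.norm_eq_abs, G]
  have h1 : |max (h i ^ 3 - t ^ 3 / cc (nr w) ^ 3) 0| ≤ h i ^ 3 := by
    rw [abs_of_nonneg (le_max_right _ _)]
    refine max_le ?_ hi3.le
    have : 0 ≤ t ^ 3 / cc (nr w) ^ 3 := by positivity
    linarith
  have h2 : |β / cc (nr w) ^ 3| ≤ |β| := by
    rw [abs_div, abs_of_pos hc0]
    exact div_le_self (abs_nonneg _) hc3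
  calc |max (h i ^ 3 - t ^ 3 / cc (nr w) ^ 3) 0 - κ * h i ^ 3 - β / cc (nr w) ^ 3|
      ≤ |max (h i ^ 3 - t ^ 3 / cc (nr w) ^ 3) 0 - κ * h i ^ 3| + |β / cc (nr w) ^ 3| :=
        abs_sub _ _
    _ ≤ |max (h i ^ 3 - t ^ 3 / cc (nr w) ^ 3) 0| + |κ * h i ^ 3| + |β / cc (nr w) ^ 3| := by
        gcongr
        exact abs_sub _ _
    _ ≤ _ := by linarith

/-- The integral over the facet grows with the outer radius, beyond `R`. -/
theorem facet_mono {ι : Type} [Fintype ι] (n : ι → E3) (h : ι → ℝ) (i : ι) (e f : E3)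
    {t ϱ ϱ' : ℝ} (hh : ∀ i, 0 < h i) (ht1 : 1 ≤ t) (htR : t < R) (h1 : R ≤ ϱ) (h2 : ϱ ≤ ϱ') :
    ∫ w in {w | w ∈ Qs n h i e f ∧ h i * cc (nr w) < ϱ}, G t (kap t) (bet t) (h i) (nr w) ≤
      ∫ w in {w | w ∈ Qs n h i e f ∧ h i * cc (nr w) < ϱ'},
        G t (kap t) (bet t) (h i) (nr w) := by
  have hsub : {w | w ∈ Qs n h i e f ∧ h i * cc (nr w) < ϱ} ⊆
      {w | w ∈ Qs n h i e f ∧ h i * cc (nr w) < ϱ'} := fun w hw => ⟨hw.1, hw.2.trans_le h2⟩
  have hm := FRM_meas n h i e f ϱ
  have hm' := FRM_meas n h i e f ϱ'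
  have key := setIntegral_sdiff hm (G_integrable n h i e f t (kap t) (bet t) ϱ' (by linarith) hh)
    hsub
  have hnn : 0 ≤ ∫ w in {w | w ∈ Qs n h i e f ∧ h i * cc (nr w) < ϱ'} \
      {w | w ∈ Qs n h i e f ∧ h i * cc (nr w) < ϱ}, G t (kap t) (bet t) (h i) (nr w) := by
    refine setIntegral_nonneg (hm'.diff hm) ?_
    rintro w ⟨hw1, hw2⟩
    refine G_nonneg_far ht1 htR (h1.trans ?_)
    by_contra hc
    exact hw2 ⟨hw1.1, not_le.1 hc⟩
  linarith

theorem R_lt_RP : R < RP := R_lt_RO.trans RO_lt_RP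

theorem p_RP : T_RP := by
  intro ι _ n h i e f t hP _ _ ht1 htR
  exact facet_mono n h i e f (fun i => lt_of_lt_of_le one_pos (hP.2.1 i)) ht1 htR R_lt_RO.le
    RO_lt_RP.le

/-! ## Weights -/

theorem p_MXW : T_MXW := by
  intro ι _ n h t w hP hI ht1 htR hw hW
  obtain ⟨hn, hh, -⟩ := id hP
  have h0 : ∀ i, 0 < h i := fun i => lt_of_lt_of_le one_pos (hh i)
  have ht0 : 0 < t := lt_of_lt_of_le one_pos ht1
  choose e f hef using fun i => p_ONB (n i) (hn i)
  have hS := tSUM ι n e f h t (kap t) (bet t) RP h0 (MA1_inj hI) hef ht0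
    (htR.le.trans R_lt_RP.le)
  obtain ⟨hβ, hG⟩ := tBET t ht1 htR
  have hbr := MA1_bracket ht0.le htR hG
  have hR := R_pos
  have hR3 : 0 < R ^ 3 := by positivity
  have ht3 : 0 < t ^ 3 := by positivity
  have hk1 : 0 ≤ 1 - kap t := by
    by_contra hneg
    have h1 : (1 - kap t) * R ^ 3 < 0 := mul_neg_of_neg_of_pos (not_le.1 hneg) hR3
    linarith
  have hRR : R ^ 3 ≤ RP ^ 3 := pow_le_pow_left₀ hR.le R_lt_RP.le 3
  have hbr' : 0 ≤ (1 - kap t) * RP ^ 3 - t ^ 3 - bet t := by
    have h1 := mul_le_mul_of_nonneg_left hRR hk1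
    linarith
  have hfac : ∑ i, -(π / 3 * bet t * w i) ≤
      ∑ i, ∫ w in {w | w ∈ Qs n h i (e i) (f i) ∧ h i * cc (nr w) < RP},
        G t (kap t) (bet t) (h i) (nr w) :=
    Finset.sum_le_sum fun i _ => hw i (e i) (f i) (hef i)
  have hsum : ∑ i, -(π / 3 * bet t * w i) = -(π / 3 * bet t * ∑ i, w i) := by
    rw [Finset.sum_neg_distrib, ← Finset.mul_sum]
  have hc : 0 ≤ π / 3 * bet t := by positivity
  have h12 : π / 3 * bet t * ∑ i, w i ≤ π / 3 * bet t * 12 :=
    mul_le_mul_of_nonneg_left hW hc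
  have hlast : 0 ≤ 3 * (volume (Metric.closedBall (0 : E3) 1 ∩ Cinf n h RP)).toReal *
      ((1 - kap t) * RP ^ 3 - t ^ 3 - bet t) :=
    mul_nonneg (mul_nonneg (by norm_num) ENNReal.toReal_nonneg) hbr'
  rw [hsum] at hfac
  linarith

/-- The inequality for the family of half spaces `n, h` and the radius `t`. -/
def InqP {ι : Type} (n : ι → E3) (h : ι → ℝ) (t : ℝ) : Prop :=
  (volume (Poly n h ∩ Metric.closedBall 0 t)).toReal ≤
    (1 - kap t) * (volume (Poly n h ∩ Metric.closedBall 0 RP)).toReal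

/-- The inequality for all irredundant finite packings and the radius `t`. -/
def AllP (t : ℝ) : Prop := ∀ (ι : Type) [Fintype ι] (n : ι → E3) (h : ι → ℝ), Pck n h →
  Irr n h → InqP n h t

/-- The contribution of the facet `i` is at least `- w` times the unit `(π/3) β`. -/
def FB {ι : Type} (n : ι → E3) (h : ι → ℝ) (t : ℝ) (i : ι) (w : ℝ) : Prop :=
  ∀ e f : E3, Onb (n i) e f → - (π / 3 * bet t * w) ≤ FI t n h i e f

theorem bet_nonneg {t : ℝ} (ht1 : 1 ≤ t) (htR : t < R) : 0 ≤ bet t := (tBET t ht1 htR).1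

theorem FB.mono {ι : Type} {n : ι → E3} {h : ι → ℝ} {t : ℝ} {i : ι} {w w' : ℝ} (ht1 : 1 ≤ t)
    (htR : t < R) (H : FB n h t i w) (hw : w ≤ w') : FB n h t i w' := by
  intro e f hef
  refine le_trans ?_ (H e f hef)
  have := mul_le_mul_of_nonneg_left hw
    (mul_nonneg (div_nonneg Real.pi_pos.le (by norm_num : (0 : ℝ) ≤ 3)) (bet_nonneg ht1 htR))
  linarith

/-- The bound of the facets by the weights. -/
theorem FB_wt {ι : Type} [Fintype ι] {n : ι → E3} {h : ι → ℝ} (hP : Pck n h) (hI : Irr n h)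
    {t : ℝ} (ht1 : 1 ≤ t) (htR : t < R) (i : ι) : FB n h t i (max (wt (h i)) 0) :=
  fun e f hef => (tFBD ι n h i e f t hP hI hef ht1 htR).trans
    (p_RP ι n h i e f t hP hI hef ht1 htR)

/-- Assembly with arbitrary weights of the facets. -/
theorem inq_of_weights {ι : Type} [Fintype ι] {n : ι → E3} {h : ι → ℝ} (hP : Pck n h)
    (hI : Irr n h) {t : ℝ} (ht1 : 1 ≤ t) (htR : t < R) (w : ι → ℝ)
    (hw : ∀ i, FB n h t i (w i)) (hW : ∑ i, w i ≤ 12) : InqP n h t :=
  p_MXW ι n h t w hP hI ht1 htR (fun i e f hef => hw i e f hef) hW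

/-- The hypothesis `Irr` can be dropped. -/
theorem AllP.inq {t : ℝ} (H : AllP t) {ι : Type} [Fintype ι] {n : ι → E3} {h : ι → ℝ}
    (hP : Pck n h) : InqP n h t := by
  obtain ⟨s, hs1, hs2⟩ := p_IRR ι n h (fun i => lt_of_lt_of_le one_pos (hP.2.1 i))
  classical
  have : Fintype s := Fintype.ofFinite s
  rw [InqP, ← hs1]
  apply H s (fun i : s => n i) (fun i : s => h i) ?_ hs2
  exact ⟨fun i => hP.1 i, fun i => hP.2.1 i,
    fun i j hij => hP.2.2 i j (fun he => hij (Subtype.ext he))⟩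

/-- From the inequality for all finite families to the inequality for all convex sets which
coincide near the origin. -/
theorem MX3all (H : ∀ t, 1 ≤ t → t < R → AllP t) {ι : Type} [Fintype ι] (n : ι → E3)
    (h : ι → ℝ) (hP : Pck n h) (K : Set E3)
    (hK : K ∩ Metric.closedBall 0 RP = Poly n h ∩ Metric.closedBall 0 RP) (t : ℝ)
    (ht : 1 ≤ t) :
    volume (K ∩ Metric.closedBall 0 t) / volume K ≤
      volume (Dod ∩ Metric.closedBall 0 t) / volume Dod := by
  obtain ⟨⟨hD0, hDt⟩, hkR, hD⟩ := tDOD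
  rcases le_or_gt R t with hRt | htR
  · have h3 : volume (Dod ∩ Metric.closedBall 0 t) = volume Dod := by
      apply le_antisymm (measure_mono inter_subset_left)
      have h4 := hD R R_one.le le_rfl
      rw [hkR, sub_zero, one_mul] at h4
      have h5 : volume (Dod ∩ Metric.closedBall 0 R) ≠ ⊤ :=
        ne_top_of_le_ne_top hDt (measure_mono inter_subset_left)
      rw [ENNReal.toReal_eq_toReal_iff' h5 hDt] at h4
      rw [← h4]
      exact measure_mono (inter_subset_inter_right _ (Metric.closedBall_subset_closedBall hRt))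
    rw [h3, ENNReal.div_self hD0 hDt]
    apply ENNReal.div_le_of_le_mul
    rw [one_mul]
    exact measure_mono inter_subset_left
  · have h3 := (H t ht htR).inq hP
    have h4 := hD t ht htR.le
    have hDp : 0 < (volume Dod).toReal := ENNReal.toReal_pos hD0 hDt
    have hk : 0 ≤ 1 - kap t := by
      by_contra hneg
      push Not at hneg
      have h5 : (1 - kap t) * (volume Dod).toReal < 0 := mul_neg_of_neg_of_pos hneg hDp
      have h6 : 0 ≤ (volume (Dod ∩ Metric.closedBall 0 t)).toReal := ENNReal.toReal_nonneg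
      linarith
    have h5 : volume (Dod ∩ Metric.closedBall 0 t) = ENNReal.ofReal (1 - kap t) * volume Dod := by
      have h6 : volume (Dod ∩ Metric.closedBall 0 t) ≠ ⊤ :=
        ne_top_of_le_ne_top hDt (measure_mono inter_subset_left)
      rw [← ENNReal.ofReal_toReal h6, h4, ENNReal.ofReal_mul hk, ENNReal.ofReal_toReal hDt]
    rw [h5, ENNReal.mul_div_cancel_right hD0 hDt]
    apply ENNReal.div_le_of_le_mul
    have hbt : Metric.closedBall (0 : E3) t ⊆ Metric.closedBall 0 RP :=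
      Metric.closedBall_subset_closedBall (htR.le.trans R_lt_RP.le)
    have h6 : K ∩ Metric.closedBall 0 t = Poly n h ∩ Metric.closedBall 0 t := by
      have h7 : ∀ A : Set E3, A ∩ Metric.closedBall 0 t =
          (A ∩ Metric.closedBall 0 RP) ∩ Metric.closedBall 0 t := fun A => by
        rw [inter_assoc, inter_eq_right.mpr hbt]
      rw [h7 K, hK, ← h7]
    rw [h6]
    have hfin : ∀ s : ℝ, volume (Poly n h ∩ Metric.closedBall (0 : E3) s) ≠ ⊤ := fun s =>
      ne_top_of_le_ne_top (measure_closedBall_lt_top (x := (0 : E3)) (r := s)).ne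
        (measure_mono inter_subset_right)
    calc volume (Poly n h ∩ Metric.closedBall 0 t)
        = ENNReal.ofReal (volume (Poly n h ∩ Metric.closedBall 0 t)).toReal :=
          (ENNReal.ofReal_toReal (hfin t)).symm
      _ ≤ ENNReal.ofReal ((1 - kap t) * (volume (Poly n h ∩ Metric.closedBall 0 RP)).toReal) :=
          ENNReal.ofReal_le_ofReal h3
      _ = ENNReal.ofReal (1 - kap t) * volume (Poly n h ∩ Metric.closedBall 0 RP) := by
          rw [ENNReal.ofReal_mul hk, ENNReal.ofReal_toReal (hfin RP)]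
      _ ≤ ENNReal.ofReal (1 - kap t) * volume K := by
          rw [← hK]
          gcongr
          exact inter_subset_left

/-- The soft dodecahedral inequality for all packings. -/
theorem ineq_of_all (H : ∀ t, 1 ≤ t → t < R → AllP t) (X : Set E3)
    (hX : ∀ x ∈ X, ∀ y ∈ X, x ≠ y → (2 : ℝ) ≤ dist x y) (c : E3) (hc : c ∈ X) (r : ℝ)
    (hr : 0 ≤ r) : Ineq X c r := by
  have hfinO : {y | y ∈ X ∧ dist y c < 2 * RP}.Finite := p_FIN X hX c (2 * RP)
  set S : Finset E3 := hfinO.toFinset.erase c with hSO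
  have hmem : ∀ y, y ∈ S ↔ y ≠ c ∧ y ∈ X ∧ dist y c < 2 * RP := by
    intro y
    rw [hSO, Finset.mem_erase, Set.Finite.mem_toFinset]
    exact Iff.rfl
  have hSX : ∀ y ∈ S, y ∈ X := fun y hy => ((hmem y).mp hy).2.1
  have hS : ∀ x, dist x c ≤ RP → (∀ y ∈ S, dist x c ≤ dist x y) →
      ∀ y ∈ X, dist x c ≤ dist x y := by
    intro x hx hS y hy
    by_cases hyc : y = c
    · rw [hyc]
    · by_cases hd : dist y c < 2 * RP
      · exact hS y ((hmem y).mpr ⟨hyc, hy, hd⟩)
      · have h1 := dist_triangle y x c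
        rw [dist_comm y x] at h1
        linarith [not_lt.mp hd]
  have hSc : ∀ y ∈ S, y ≠ c := fun y hy => ((hmem y).mp hy).1
  set V : Set E3 := {x : E3 | ∀ y ∈ X, dist x c ≤ dist x y} with hV
  have hp : Pck (fun i : S => (1 / ‖(i : E3) - c‖) • ((i : E3) - c))
      (fun i : S => ‖(i : E3) - c‖ / 2) := by
    refine ⟨fun i => ?_, fun i => ?_, fun i j hij => ?_⟩
    · have hw : 0 < ‖(i : E3) - c‖ := norm_pos_iff.mpr (sub_ne_zero.mpr (hSc i i.2))
      simp only
      rw [norm_smul, norm_div, norm_one, norm_norm]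
      field_simp
    · have h1 := hX i (hSX i i.2) c hc (hSc i i.2)
      rw [dist_eq_norm] at h1
      simp only
      linarith
    · have hne : (i : E3) ≠ (j : E3) := fun h => hij (Subtype.ext h)
      have h1 := hX i (hSX i i.2) j (hSX j j.2) hne
      rw [dist_eq_norm] at h1
      have h2 := VX_inner ((i : E3) - c) ((j : E3) - c) (sub_ne_zero.mpr (hSc i i.2))
        (sub_ne_zero.mpr (hSc j j.2))
      have h3 : (i : E3) - c - ((j : E3) - c) = (i : E3) - (j : E3) := by abel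
      rw [h3] at h2
      simp only
      rw [h2]
      nlinarith
  have hK : ((fun v : E3 => v + c) ⁻¹' V) ∩ Metric.closedBall 0 RP =
      Poly (fun i : S => (1 / ‖(i : E3) - c‖) • ((i : E3) - c))
        (fun i : S => ‖(i : E3) - c‖ / 2) ∩ Metric.closedBall 0 RP := by
    ext v
    constructor
    · rintro ⟨h1, h2⟩
      refine ⟨fun i => ?_, h2⟩
      exact (VX_half v c i (hSc i i.2)).1 (h1 i (hSX i i.2))
    · rintro ⟨h1, h2⟩
      refine ⟨?_, h2⟩
      have h3 : dist (v + c) c ≤ RP := by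
        rw [dist_eq_norm, add_sub_cancel_right]
        exact mem_closedBall_zero_iff.1 h2
      exact hS (v + c) h3 fun y hy => (VX_half v c y (hSc y hy)).2 (h1 ⟨y, hy⟩)
  have key := MX3all H _ _ hp ((fun v : E3 => v + c) ⁻¹' V) hK (1 + r) (by linarith)
  have e1 : volume ((fun v : E3 => v + c) ⁻¹' V) = volume V :=
    measure_preimage_add_right volume c V
  have e2 : ((fun v : E3 => v + c) ⁻¹' V) ∩ Metric.closedBall 0 (1 + r) =
      (fun v : E3 => v + c) ⁻¹' (V ∩ Metric.closedBall c (1 + r)) := by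
    ext v
    simp [dist_eq_norm]
  have e3 : volume ((fun v : E3 => v + c) ⁻¹' (V ∩ Metric.closedBall c (1 + r))) =
      volume (V ∩ Metric.closedBall c (1 + r)) :=
    measure_preimage_add_right volume c _
  rw [e2, e3, e1] at key
  exact key

end Pool.Agent.SDL
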