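import Pool.Agent.SDL.Targets

set_option autoImplicit false

/-!
# SDL, target ATN: the inequality for the solid angles.
-/

open MeasureTheory Set Real
open scoped RealInnerProductSpace

namespace Pool.Agent.SDL

open Pool.Agent.SDC

/-- The difference of two values of the arctangent. -/
theorem atn_sub (h x : ℝ) (hh : 0 ≤ h) :
    arctan (h * x) - arctan x = arctan ((h - 1) * x / (1 + h * x ^ 2)) := by
  have h1 : (h * x) * (-x) < 1 := by nlinarith [mul_nonneg hh (sq_nonneg x)]
  have h2 := Real.arctan_add h1
  rw [Real.arctan_neg] at h2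
  have h3 : (h * x + -x) / (1 - h * x * -x) = (h - 1) * x / (1 + h * x ^ 2) := by
    have e1 : h * x + -x = (h - 1) * x := by ring
    have e2 : 1 - h * x * -x = 1 + h * x ^ 2 := by ring
    rw [e1, e2]
  rw [h3] at h2
  linarith

/-- `arctan x - arctan (h x)` is antitone as long as `h x² ≤ 1`. -/
theorem atn_mono (h x y : ℝ) (hh : 1 ≤ h) (hy : 0 < y) (hxy : y ≤ x) (hx : h * x ^ 2 ≤ 1) :
    arctan x - arctan (h * x) ≤ arctan y - arctan (h * y) := by
  have h1 := atn_sub h x (by linarith)
  have h2 := atn_sub h y (by linarith)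
  have hx0 : 0 < x := by linarith
  have hle : (h - 1) * y / (1 + h * y ^ 2) ≤ (h - 1) * x / (1 + h * x ^ 2) := by
    have p1 : 0 < 1 + h * y ^ 2 := by positivity
    have p2 : 0 < 1 + h * x ^ 2 := by positivity
    rw [div_le_div_iff₀ p1 p2]
    have q1 : h * (x * y) ≤ 1 := by nlinarith
    have q2 : 0 ≤ (h - 1) * ((x - y) * (1 - h * (x * y))) :=
      mul_nonneg (by linarith) (mul_nonneg (by linarith) (by linarith))
    nlinarith
  have h3 := Real.arctan_mono hle
  linarith

theorem p_ATN : T_ATN := by
  intro h u hh hhu huR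
  have h3 : (0 : ℝ) < √3 := by positivity
  have hu : 0 < u := by linarith
  have hR : 0 < R := R_pos
  have htp := tan36_pos
  have key := atn_mono h (tan (π / 5) / u) (1 / √3) hh (by positivity) ?_ ?_
  · have e1 : arctan (1 / √3) = π / 6 := by
      rw [← Real.tan_pi_div_six, Real.arctan_tan]
      · linarith [Real.pi_pos]
      · linarith [Real.pi_pos]
    have e2 : h * (1 / √3) = h / √3 := by ring
    have e3 : h * (tan (π / 5) / u) = h * tan (π / 5) / u := by ring
    rw [e1, e2, e3] at key
    exact key
  · rw [tan36_R, div_div, div_le_div_iff₀ h3 (by positivity)]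
    nlinarith
  · have ht : tan (π / 5) ^ 2 ≤ 1 := by
      nlinarith [tan36_hi]
    have hu2 : h ≤ u ^ 2 := by nlinarith
    rw [div_pow, ← mul_div_assoc, div_le_one (by positivity)]
    nlinarith [sq_nonneg (tan (π / 5))]

end Pool.Agent.SDL
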