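import Pool.Agent.SDL.Targets

set_option autoImplicit false

/-!
# SDL: the target C1A
-/

open MeasureTheory Set Real

namespace Pool.Agent.SDL

open Pool.Agent.SDC

theorem C1A_W0_lo : (1.381966 : ℝ) < W0 := by
  rw [W0]
  linarith [s5_hi']

theorem C1A_W0_hi : W0 < (1.38196606 : ℝ) := by
  rw [W0]
  linarith [s5_lo']

theorem C1A_RW_lo : (1.739077 : ℝ) < R * W0 := by
  nlinarith [R_lo', C1A_W0_lo]

theorem C1A_RW_hi : R * W0 < (1.7390786 : ℝ) := by
  nlinarith [R_hi', C1A_W0_hi, R_lo', C1A_W0_lo]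

/-- The elementary lower bound of `ρ²/2 + RW/ρ`. -/
theorem C1A_amgm {ρ : ℝ} (hρ : 0 < ρ) :
    R ^ 2 / 2 + W0 - (ρ ^ 2 / 2 + R * W0 / ρ) ≤ 0.00455 := by
  have h1 : (1.202558 : ℝ) ^ 3 ≤ R * W0 := by
    have := C1A_RW_lo
    norm_num at this ⊢
    linarith
  have h2 : (1.202558 : ℝ) ^ 3 / ρ ≤ R * W0 / ρ := div_le_div_of_nonneg_right h1 hρ.le
  have h3 : 3 / 2 * (1.202558 : ℝ) ^ 2 ≤ ρ ^ 2 / 2 + (1.202558 : ℝ) ^ 3 / ρ := by
    have h4 : 0 ≤ (ρ - 1.202558) ^ 2 * (ρ + 2 * 1.202558) / (2 * ρ) := by positivity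
    have h5 : (ρ - 1.202558) ^ 2 * (ρ + 2 * 1.202558) / (2 * ρ) =
        ρ ^ 2 / 2 + (1.202558 : ℝ) ^ 3 / ρ - 3 / 2 * (1.202558 : ℝ) ^ 2 := by
      field_simp
      ring
    linarith
  have h6 := R_sq_hi
  have h7 := C1A_W0_hi
  norm_num at h3 h6 h7 ⊢
  linarith

theorem p_C1A (hkex : T_KEX) : T_C1A := by
  intro t h1 h2
  have ht0 : 0 < t := by linarith
  have htR2 : t ^ 2 < R ^ 2 := lt_of_le_of_lt h2 W0_lt
  have htR : t < R := lt_of_pow_lt_pow_left₀ 2 R_pos.le htR2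
  have ht' : t < 1.1756 := by
    by_contra hcon
    push Not at hcon
    have := C1A_W0_hi
    nlinarith
  obtain ⟨k0, -⟩ := tKAP t h1 htR
  obtain ⟨b0, -⟩ := tBET t h1 htR
  have hK := hkex.2 t h1 h2
  have hS := S0_pos
  have hpi := Real.pi_gt_d6
  have hpi' := Real.pi_lt_d6
  -- the polynomial of KEX
  have hpoly : 0 ≤ 9 * t ^ 2 - 5 * t ^ 3 - 3 := by
    have h3 : 0 ≤ (t - 1) * (1.1756 - t) := mul_nonneg (by linarith) (by linarith)
    nlinarith [mul_nonneg h3 ht0.le]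
  have hk : 0 ≤ 1 - kap t := by
    by_contra hcon
    push Not at hcon
    have h3 : (1 - kap t) * S0 < 0 := mul_neg_of_neg_of_pos hcon hS
    have h4 : 0 ≤ π / 30 * (9 * t ^ 2 - 5 * t ^ 3 - 3) := by positivity
    linarith
  -- closed form of `bet`
  have hbet : bet t = (1 - kap t) * (R * W0) - t ^ 3 := by
    unfold bet gg
    have h3 : max (t ^ 2 - W0) 0 = 0 := max_eq_right (by linarith)
    rw [h3, Real.sqrt_zero]
    ring
  -- closed form of `bb`
  have hbb : ∀ ρ, t ≤ ρ → bb t ρ = (1 - kap t) * (ρ ^ 2 / 2 + R * W0 / ρ) - 3 / 2 * t ^ 2 := by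
    intro ρ hρ
    have hρ0 : 0 < ρ := by linarith
    unfold bb
    rw [p_BF.2.2 t ρ ht0 hρ, hbet]
    field_simp
    ring
  have hbbR : bb t R = (1 - kap t) * (R ^ 2 / 2 + W0) - 3 / 2 * t ^ 2 := by
    rw [hbb R htR.le]
    congr 3
    rw [mul_div_assoc, mul_comm, div_mul_cancel₀ _ R_pos.ne']
  have hstep : ∀ ρ, t ≤ ρ → bb t R - bb t ρ ≤ 0.00455 * (1 - kap t) := by
    intro ρ hρ
    have hρ0 : 0 < ρ := by linarith
    rw [hbbR, hbb ρ hρ]
    have h3 := mul_le_mul_of_nonneg_left (C1A_amgm hρ0) hk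
    linarith
  refine ⟨hk, ?_, ?_, ?_⟩
  · -- the first bound
    have h3 : (0.0041 : ℝ) ≤ Bf t R * 0.98 := by
      have h4 : Bf t R = (R - t) ^ 2 * (R + 2 * t) / (2 * R) := by
        unfold Bf
        rw [if_neg (not_le.2 htR)]
      rw [h4, div_mul_eq_mul_div, le_div_iff₀ (by linarith [R_pos])]
      have h5 : (0.0828 : ℝ) ^ 2 ≤ (R - t) ^ 2 :=
        pow_le_pow_left₀ (by norm_num) (by linarith [R_lo']) 2
      have h6 : (3.2584 : ℝ) ≤ R + 2 * t := by linarith [R_lo']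
      have h7 : (0.0828 : ℝ) ^ 2 * 3.2584 ≤ (R - t) ^ 2 * (R + 2 * t) :=
        mul_le_mul h5 h6 (by norm_num) (by positivity)
      have h8 := R_hi'
      norm_num at h7 h8 ⊢
      linarith
    nlinarith
  · intro ρ hρ1 hρR
    rcases le_total t ρ with h3 | h3
    · exact hstep ρ h3
    · have hρ0 : 0 < ρ := by linarith
      refine le_trans ?_ (hstep t le_rfl)
      have h4 : bb t t ≤ bb t ρ := by
        have h5 : Bf t t = 0 := by
          unfold Bf
          rw [if_pos le_rfl]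
        have h6 : Bf t ρ = 0 := by
          unfold Bf
          rw [if_pos h3]
        unfold bb
        rw [h5, h6]
        have h7 : bet t / t ≤ bet t / ρ := div_le_div_of_nonneg_left b0 hρ0 h3
        have h8 : kap t * ρ ^ 2 ≤ kap t * t ^ 2 :=
          mul_le_mul_of_nonneg_left (pow_le_pow_left₀ hρ0.le h3 2) k0
        linarith
      linarith
  · -- the value of `J0`
    have hD : 0 ≤ Dl t := by
      unfold Dl
      rw [hbbR, hbb RO (by linarith [R_lt_RO])]
      have h3 : R ^ 2 / 2 + W0 ≤ RO ^ 2 / 2 + R * W0 / RO := by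
        have h4 : (1.739077 : ℝ) / 1.2748 ≤ R * W0 / RO := by
          rw [div_le_div_iff₀ (by norm_num) RO_pos]
          have h5 := C1A_RW_lo
          have h6 := RO_hi
          nlinarith [RO_pos]
        have h5 := R_sq_hi
        have h6 := C1A_W0_hi
        have h7 := RO_sq
        norm_num at h4 h5 h6 h7 ⊢
        linarith
      have h4 := mul_le_mul_of_nonneg_left h3 hk
      linarith
    have hH := tHCL.2 t (kap t) (bet t) 1 rv ht0 one_pos rv_pos.le
    have hB1 : Bf t 1 = 0 := by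
      unfold Bf
      rw [if_pos h1]
    have halp : alp t = bb t R + kap t / 2 - bet t := by
      unfold alp bb
      rw [hH, cc_rv, div_one, hB1, rv_sq]
      ring
    have hidn := tIDN t h1 htR
    have hJ : - 10 * J0 t = (1 - kap t) *
        (π * (R ^ 2 - 1 + 2 * W0 - 5 / 3 * (R * W0)) - 10 * S0) := by
      rw [halp, hbbR, hbet] at hidn
      linear_combination (-1 / 12) * hidn + 10 * hK
    have h3 : (0.0231 : ℝ) ≤ π * (R ^ 2 - 1 + 2 * W0 - 5 / 3 * (R * W0)) - 10 * S0 := by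
      have h4 : (0.449059 : ℝ) ≤ R ^ 2 - 1 + 2 * W0 - 5 / 3 * (R * W0) := by
        have h5 := R_sq_lo
        have h6 := C1A_W0_lo
        have h7 := C1A_RW_hi
        norm_num at h5 h6 h7 ⊢
        linarith
      have h8 := S0_hi
      nlinarith
    rw [hJ]
    have h4 := mul_le_mul_of_nonneg_left h3 hk
    have h5 : (0.021294 : ℝ) * (1 - kap t) ≤ 0.0231 * (1 - kap t) :=
      mul_le_mul_of_nonneg_right (by norm_num) hk
    nlinarith

end Pool.Agent.SDL
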