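import Pool.Agent.SDL.Targets

set_option autoImplicit false

/-! # SDL: the facets with six sides (C2) -/

open MeasureTheory Set Real
open scoped RealInnerProductSpace

namespace Pool.Agent.SDL

open Pool.Agent.SDC

lemma C2_cc {h : ℝ} (h1 : 1 ≤ h) (hR : h ≤ R) : h * cc (rr h R) = R := by
  have h0 : 0 < h := by linarith
  have h2 : 1 ≤ R ^ 2 / h ^ 2 := by
    rw [le_div_iff₀ (by positivity), one_mul]
    exact pow_le_pow_left₀ h0.le hR 2
  have h3 : cc (rr h R) = R / h := by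
    rw [cc, rr, Real.sq_sqrt (by linarith)]
    rw [show 1 + (R ^ 2 / h ^ 2 - 1) = (R / h) ^ 2 by rw [div_pow]; ring]
    exact Real.sqrt_sq (div_nonneg R_pos.le h0.le)
  rw [h3]
  field_simp

lemma C2_pi_R : (0.6627 : ℝ) ≤ 2 * π / R - π / 3 * 4.135 := by
  have h1 := Real.pi_gt_d6
  have h2 := Real.pi_lt_d6
  have h3 : 2 * π / 1.258409 ≤ 2 * π / R := by
    apply div_le_div_of_nonneg_left (by positivity) R_pos R_hi'.le
  have h4 : (4.9929 : ℝ) ≤ 2 * π / 1.258409 := by
    rw [le_div_iff₀ (by norm_num)]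
    linarith
  linarith

lemma C2_bet (hkex : T_KEX) {t : ℝ} (h1 : 1 ≤ t) (h2 : t ≤ 1.02) : 0.3 ≤ bet t := by
  have ht : t ^ 2 ≤ W0 := by nlinarith [W0_lo]
  have hk := hkex.2 t h1 ht
  have hb : bet t = R * ((1 - kap t) * W0) - t ^ 3 := by
    rw [bet, gg, max_eq_right (by linarith)]
    simp
  set k := 1 - kap t with hk'
  set P := 9 * t ^ 2 - 5 * t ^ 3 - 3 with hP
  have hP1 : 1 ≤ P := by
    rw [hP]
    nlinarith [mul_nonneg (sub_nonneg.2 h1) (sub_nonneg.2 h2),
      mul_nonneg (mul_nonneg (sub_nonneg.2 h1) (sub_nonneg.2 h1)) (sub_nonneg.2 h2)]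
  have hpi := Real.pi_gt_d6
  have hk0 : 0 < k := by
    have h3 : 0 < k * S0 := by
      rw [hk]
      have := Real.pi_pos
      positivity
    exact (pos_iff_pos_of_mul_pos h3).2 S0_pos
  -- `k ≥ 0.75469 P`
  have hk1 : 0.75469 * P ≤ k := by
    have h4 : k * S0 ≤ k * 0.138758 := mul_le_mul_of_nonneg_left S0_hi.le hk0.le
    have h5 : 0.1047197 * P ≤ π / 30 * P := by
      apply mul_le_mul_of_nonneg_right _ (by linarith)
      linarith
    rw [hk] at h4
    nlinarith
  have hRW : (1.739 : ℝ) ≤ R * W0 := by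
    have hW : (1.381966 : ℝ) ≤ W0 := by
      rw [W0]
      linarith [s5_hi']
    nlinarith [R_lo', R_pos]
  have h6 : 1.739 * k ≤ R * W0 * k := mul_le_mul_of_nonneg_right hRW hk0.le
  have h7 : 1.3124 * P ≤ 1.739 * k := by nlinarith
  rw [hb]
  have h8 : 0.3 ≤ 1.3124 * P - t ^ 3 := by
    rw [hP]
    obtain ⟨x, hx⟩ : ∃ x, x = t - 1 := ⟨_, rfl⟩
    have hx0 : 0 ≤ x := by linarith
    have hx1 : x ≤ 0.02 := by linarith
    have ht' : t = 1 + x := by linarith
    rw [ht']
    have h9 : x ^ 2 ≤ 0.02 * x := by nlinarith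
    have h10 : x ^ 3 ≤ 0.0004 * x := by nlinarith
    nlinarith
  linarith [show R * (k * W0) = R * W0 * k by ring]

theorem p_C2 (hhb : T_HB) (hwt : T_WT) (hbm : T_BM) (hkex : T_KEX) : T_C2 := by
  intro t h gM ht1 htR hh1 hhR hor hg0 hg1 hJ
  obtain ⟨-, -, -, hw, -, -, -⟩ := hwt
  obtain ⟨hBnn, -⟩ := p_BF
  have ht0 : 0 < t := by linarith
  have hh0 : 0 < h := by linarith
  have hκ := (tKAP t ht1 htR).1
  have hβ := (tBET t ht1 htR).1
  have hB := hBnn t R ht0 R_pos
  have hΔ : 0 ≤ Dl t := by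
    rw [Dl]
    have := hbm t ht1 htR (Set.mem_Ici.2 (le_refl R)) (Set.mem_Ici.2 R_lt_RO.le) R_lt_RO.le
    linarith
  have hidn := tIDN t ht1 htR
  -- the value of `HH` at height `h`
  have e1 : HH t h (rr h R) = h * (bb t R - Bf t h) + kap t * h ^ 3 / 2 - bet t := by
    rw [hhb t h (rr h R) ht0 hh0 (Real.sqrt_nonneg _), C2_cc hh1 hhR]
  have e2 : alp t = bb t R + kap t / 2 - bet t := by
    have h3 := hhb t 1 rv ht0 one_pos rv_pos.le
    rw [one_mul, cc_rv] at h3
    have h4 : Bf t 1 = 0 := by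
      rw [Bf, if_pos ht1]
    rw [h4] at h3
    have h5 : alp t = HH t 1 rv := rfl
    rw [h5, h3]
    ring_nf
  have e3 : bb t R = Bf t R + bet t / R - kap t * R ^ 2 / 2 := rfl
  have hpi1 := Real.pi_gt_d6
  have hpi2 := Real.pi_lt_d6
  -- `2 π h Bf t h ≤ 0.6627 β (h - 1)`
  have hkey : 2 * π * h * Bf t h ≤ 0.6627 * bet t * (h - 1) := by
    by_cases hht : h ≤ t
    · rw [Bf, if_pos hht, mul_zero]
      have : 0 ≤ h - 1 := by linarith
      positivity
    · have hh2 : h ≤ 1.02 := hor.resolve_left hht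
      push Not at hht
      have hb3 := C2_bet hkex ht1 (by linarith)
      have e4 : 2 * π * h * Bf t h = π * ((h - t) ^ 2 * (h + 2 * t)) := by
        rw [Bf, if_neg (not_le.2 hht)]
        field_simp
      have h5 : (h - t) ^ 2 * (h + 2 * t) ≤ 0.0612 * (h - 1) := by
        have h6 : (h - t) ^ 2 ≤ 0.02 * (h - 1) := by nlinarith
        have h7 : h + 2 * t ≤ 3.06 := by linarith
        have h8 : 0 ≤ h + 2 * t := by linarith
        have h9 : 0 ≤ h - 1 := by linarith
        calc (h - t) ^ 2 * (h + 2 * t) ≤ (0.02 * (h - 1)) * (h + 2 * t) :=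
              mul_le_mul_of_nonneg_right h6 h8
          _ ≤ (0.02 * (h - 1)) * 3.06 := mul_le_mul_of_nonneg_left h7 (by positivity)
          _ = 0.0612 * (h - 1) := by ring
      rw [e4]
      have h9 : 0 ≤ h - 1 := by linarith
      calc π * ((h - t) ^ 2 * (h + 2 * t)) ≤ π * (0.0612 * (h - 1)) :=
            mul_le_mul_of_nonneg_left h5 Real.pi_pos.le
        _ ≤ 3.1416 * (0.0612 * (h - 1)) := by
            apply mul_le_mul_of_nonneg_right (by linarith) (by positivity)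
        _ ≤ 0.6627 * 0.3 * (h - 1) := by nlinarith
        _ ≤ 0.6627 * bet t * (h - 1) := by
            apply mul_le_mul_of_nonneg_right _ h9
            linarith
  -- main computation
  have hw1 := hw h hh1
  have hpR := C2_pi_R
  have h9 : 0 ≤ h - 1 := by linarith
  have hR0 := R_pos
  -- `Z + 3 π κ ≥ 2 π β / R`
  have hZ : 2 * π * (bet t / R) ≤ 2 * π * bb t R - 4.68 * gM + (2 * π - 5.58) * Dl t
      + 3 * π * kap t := by
    rw [e3]
    have h10 : 0 ≤ (2 * π - 5.58) * Dl t := mul_nonneg (by linarith) hΔ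
    have h11 : 4.68 * gM ≤ 2 * π * Bf t R := by
      have : 5.148 * Bf t R ≤ 2 * π * Bf t R := mul_le_mul_of_nonneg_right (by linarith) hB
      linarith
    have h12 : 0 ≤ π * kap t * (3 - R ^ 2) := by
      have : 0 ≤ 3 - R ^ 2 := by linarith [R_sq_hi]
      have hp := Real.pi_pos.le
      positivity
    nlinarith
  have hL1 : 2 * π * bet t - (2 * π * bb t R - 4.68 * gM + (2 * π - 5.58) * Dl t)
      - π * kap t ≤ π / 3 * bet t := by
    have h10 : 0.703 * Dl t ≤ (2 * π - 5.58) * Dl t :=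
      mul_le_mul_of_nonneg_right (by linarith) hΔ
    have h11 : 2 * π * alp t = 2 * π * bb t R + π * kap t - 2 * π * bet t := by
      rw [e2]
      ring
    linarith
  have hcub : 3 * (h - 1) ≤ h ^ 3 - 1 := by
    nlinarith [mul_nonneg h9 h9, mul_nonneg (mul_nonneg h9 h9) h9]
  have hκc : π * kap t * (3 * (h - 1)) ≤ π * kap t * (h ^ 3 - 1) :=
    mul_le_mul_of_nonneg_left hcub (mul_nonneg Real.pi_pos.le hκ)
  have hZ' := mul_le_mul_of_nonneg_left hZ h9
  have hpR' : 0.6627 * (bet t * (h - 1)) ≤ (2 * π / R - π / 3 * 4.135) * (bet t * (h - 1)) :=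
    mul_le_mul_of_nonneg_right hpR (mul_nonneg hβ h9)
  have hw2 : π / 3 * bet t * (1 - 4.135 * (h - 1)) ≤ π / 3 * bet t * wt h :=
    mul_le_mul_of_nonneg_left hw1 (by have := Real.pi_pos.le; positivity)
  refine le_trans ?_ hw2
  rw [e1]
  have e5 : (2 * π / R - π / 3 * 4.135) * (bet t * (h - 1)) =
      (h - 1) * (2 * π * (bet t / R)) - π / 3 * 4.135 * (bet t * (h - 1)) := by
    ring
  rw [e5] at hpR'
  nlinarith

end Pool.Agent.SDL
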