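import Pool.Agent.SDL.Targets

set_option autoImplicit false

/-!
# SDL: CB, the local lemma for facets with at most five sides
-/

open MeasureTheory Set Real
open scoped RealInnerProductSpace

namespace Pool.Agent.SDL

open Pool.Agent.SDC

/-- `(1-q)²(2+q)` is antitone on `[0,1]`. -/
theorem CBx_anti {q p : ℝ} (h0 : 0 ≤ q) (hqp : q ≤ p) (hp : p ≤ 1) :
    (1 - p) ^ 2 * (2 + p) / 2 ≤ (1 - q) ^ 2 * (2 + q) / 2 := by
  have h1 : 0 ≤ (p - q) * (3 - p ^ 2 - p * q - q ^ 2) := by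
    apply mul_nonneg (by linarith)
    nlinarith
  nlinarith

/-- The bound for the parameter of `T_GMU`. -/
theorem CBx_kap {t h u : ℝ} (ht : 1 ≤ t) (htR : t < R) (hu : h < u) (h0 : 0 < h)
    (hR : max (t ^ 2 - h ^ 2) 0 * (R ^ 2 - 1) ≤ (t ^ 2 - 1) * (u ^ 2 - h ^ 2)) :
    kap t ≤ (1 - √(max (t ^ 2 - h ^ 2) 0) / √(u ^ 2 - h ^ 2)) ^ 2 *
      (2 + √(max (t ^ 2 - h ^ 2) 0) / √(u ^ 2 - h ^ 2)) / 2 := by
  have hk := (tKAP t ht htR).2.trans (p_KB t ht htR)
  have hrv2 : rv ^ 2 = R ^ 2 - 1 := rv_sq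
  have hrvp : 0 < rv ^ 2 := by
    have := rv_pos
    positivity
  have hden : 0 < u ^ 2 - h ^ 2 := by nlinarith
  have hq1 : √(t ^ 2 - 1) / rv ≤ 1 := by
    rw [div_le_one rv_pos, Real.sqrt_le_left rv_pos.le, hrv2]
    nlinarith
  have hqq : √(max (t ^ 2 - h ^ 2) 0) / √(u ^ 2 - h ^ 2) ≤ √(t ^ 2 - 1) / rv := by
    rw [← Real.sqrt_div' _ hden.le]
    have e1 : √(t ^ 2 - 1) / rv = √((t ^ 2 - 1) / rv ^ 2) := by
      rw [Real.sqrt_div' _ hrvp.le, Real.sqrt_sq rv_pos.le]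
    rw [e1]
    apply Real.sqrt_le_sqrt
    rw [div_le_div_iff₀ hden hrvp, hrv2]
    exact hR
  exact hk.trans (CBx_anti (by positivity) hqq hq1)

/-- The radius of the disc. -/
theorem CBx_rr {h u : ℝ} (h0 : 0 < h) (hu : h < u) :
    0 < rr h u ∧ h ^ 2 * (1 + rr h u ^ 2) = u ^ 2 ∧ cc (rr h u) = u / h := by
  have hlt : 1 < u ^ 2 / h ^ 2 := by
    rw [one_lt_div (by positivity)]
    exact pow_lt_pow_left₀ hu h0.le (by norm_num)
  have hrr2 : rr h u ^ 2 = u ^ 2 / h ^ 2 - 1 := by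
    rw [rr, Real.sq_sqrt (by linarith)]
  refine ⟨?_, ?_, ?_⟩
  · rw [rr]
    exact Real.sqrt_pos.mpr (by linarith)
  · rw [hrr2, add_sub_cancel, mul_div_cancel₀ _ (by positivity)]
  · rw [cc, hrr2, add_sub_cancel, ← div_pow, Real.sqrt_sq (div_nonneg (by linarith) h0.le)]

/-- `W` lies in the interval. -/
theorem CBx_W {h u a : ℝ} (h0 : 0 < h) (hu : h < u) (ha : 0 < a) (har : a < rr h u) :
    h ^ 2 * (1 + a ^ 2) ∈ Ico (h ^ 2) (u ^ 2) := by
  obtain ⟨-, h2, -⟩ := CBx_rr h0 hu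
  constructor
  · exact le_mul_of_one_le_right (by positivity) (by linarith [pow_pos ha 2])
  · rw [← h2]
    apply mul_lt_mul_of_pos_left _ (by positivity)
    linarith [pow_lt_pow_left₀ har ha.le (by norm_num : (2 : ℕ) ≠ 0)]

/-- The signs of the chord integrals. -/
theorem CBx_sg (hpch : T_PCH) {t κ β h u A : ℝ} (ht0 : 0 < t) (htu : t < u) (h0 : 0 < h)
    (hu : h < u) (hmono : MonotoneOn (ggu t κ u) (Ico (h ^ 2) (u ^ 2))) (hA0 : 0 < A)
    (hAr : A < rr h u) (hval : u * ggu t κ u (h ^ 2 * (1 + A ^ 2)) = t ^ 3 + β) :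
    (∀ a, 0 < a → a ≤ A →
      ∫ y in (0 : ℝ)..√(rr h u ^ 2 - a ^ 2), G t κ β h √(a ^ 2 + y ^ 2) ≤ 0) ∧
    ∀ a, A ≤ a → a < rr h u →
      0 ≤ ∫ y in (0 : ℝ)..√(rr h u ^ 2 - a ^ 2), G t κ β h √(a ^ 2 + y ^ 2) := by
  have hu0 : 0 < u := by linarith
  have hpre : ∀ a, 0 < a → a < rr h u →
      0 ≤ h ^ 2 * √(u ^ 2 - h ^ 2 * (1 + a ^ 2)) / (h ^ 2 * (1 + a ^ 2) * u) := by
    intro a _ _
    positivity
  have hle : ∀ a b : ℝ, 0 < a → a ≤ b → h ^ 2 * (1 + a ^ 2) ≤ h ^ 2 * (1 + b ^ 2) := by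
    intro a b ha hab
    apply mul_le_mul_of_nonneg_left _ (by positivity)
    linarith [pow_le_pow_left₀ ha.le hab 2]
  constructor
  · intro a ha haA
    have har : a < rr h u := lt_of_le_of_lt haA hAr
    rw [hpch t κ β h u a ht0 htu.le h0 hu ha har]
    apply mul_nonpos_of_nonneg_of_nonpos (hpre a ha har)
    have h1 := hmono (CBx_W h0 hu ha har) (CBx_W h0 hu hA0 hAr) (hle a A ha haA)
    have h2 := mul_le_mul_of_nonneg_left h1 hu0.le
    linarith
  · intro a haA har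
    have ha : 0 < a := lt_of_lt_of_le hA0 haA
    rw [hpch t κ β h u a ht0 htu.le h0 hu ha har]
    apply mul_nonneg (hpre a ha har)
    have h1 := hmono (CBx_W h0 hu hA0 hAr) (CBx_W h0 hu ha har) (hle A a hA0 haA)
    have h2 := mul_le_mul_of_nonneg_left h1 hu0.le
    linarith

/-- The value at the vertex. -/
theorem CBx_G {t κ β h u A : ℝ} (ht0 : 0 < t) (htu : t < u) (h0 : 0 < h)
    (hu : h < u) (hk1 : κ ≤ 1) (hmono : MonotoneOn (ggu t κ u) (Ico (h ^ 2) (u ^ 2)))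
    (hA0 : 0 < A) (hAr : A < rr h u)
    (hval : u * ggu t κ u (h ^ 2 * (1 + A ^ 2)) = t ^ 3 + β) :
    0 ≤ G t κ β h (rr h u) := by
  have hu0 : 0 < u := by linarith
  obtain ⟨-, -, hcc⟩ := CBx_rr h0 hu
  have hW := CBx_W h0 hu hA0 hAr
  set W := h ^ 2 * (1 + A ^ 2) with hWdef
  have hWm : max W (t ^ 2) ∈ Ico (h ^ 2) (u ^ 2) := by
    constructor
    · exact hW.1.trans (le_max_left _ _)
    · exact max_lt hW.2 (pow_lt_pow_left₀ htu ht0.le (by norm_num))
  have h1 : ggu t κ u W ≤ ggu t κ u (max W (t ^ 2)) := hmono hW hWm (le_max_left _ _)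
  have h2 : ggu t κ u (max W (t ^ 2)) = (1 - κ) * max W (t ^ 2) := by
    rw [ggu]
    have : max (t ^ 2 - max W (t ^ 2)) 0 = 0 := by
      apply max_eq_right
      linarith [le_max_right W (t ^ 2)]
    rw [this, Real.sqrt_zero]
    simp
  have h3 : (1 - κ) * max W (t ^ 2) ≤ (1 - κ) * u ^ 2 :=
    mul_le_mul_of_nonneg_left hWm.2.le (by linarith)
  have h4 : t ^ 3 + β ≤ (1 - κ) * u ^ 3 := by
    rw [← hval]
    calc _ ≤ _ := mul_le_mul_of_nonneg_left ((h1.trans_eq h2).trans h3) hu0.le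
      _ = _ := by ring
  rw [G, hcc]
  have e1 : t ^ 3 / (u / h) ^ 3 = h ^ 3 / u ^ 3 * t ^ 3 := by
    rw [div_pow]
    field_simp
  have e2 : β / (u / h) ^ 3 = h ^ 3 / u ^ 3 * β := by
    rw [div_pow]
    field_simp
  rw [e1, e2]
  have e3 : h ^ 3 / u ^ 3 * u ^ 3 = h ^ 3 := div_mul_cancel₀ _ (by positivity)
  have h6 : 0 ≤ h ^ 3 / u ^ 3 * ((1 - κ) * u ^ 3 - (t ^ 3 + β)) :=
    mul_nonneg (by positivity) (by linarith)
  have h7 := le_max_left (h ^ 3 - h ^ 3 / u ^ 3 * t ^ 3) 0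
  have h8 : h ^ 3 / u ^ 3 * ((1 - κ) * u ^ 3 - (t ^ 3 + β)) =
      (h ^ 3 - h ^ 3 / u ^ 3 * t ^ 3) - κ * h ^ 3 - h ^ 3 / u ^ 3 * β := by
    linear_combination (1 - κ) * e3
  linarith

/-- CB. -/
theorem p_CB (hloc2 : T_LOC2) (hpch : T_PCH) (hgmu : T_GMU) (hrpx : T_RPX) (hpyr : T_PYR) :
    T_CB := by
  intro t h ht1 htR hh1 hth
  obtain ⟨u, hhu, htu, huR, hu4, hu5, hu6⟩ := hrpx t h ht1 htR hh1 hth
  have hh0 : 0 < h := by linarith
  have ht0 : 0 < t := by linarith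
  have hu0 : 0 < u := by linarith
  obtain ⟨hk0, -⟩ := tKAP t ht1 htR
  obtain ⟨hb0, -⟩ := tBET t ht1 htR
  have hkap := CBx_kap ht1 htR hhu hh0 hu6
  have hmono := hgmu t (kap t) h u ht0 hh0 hhu htu.le hkap
  have hc : 0 < cos (π / 5) := cos36_pos
  have hc1 : cos (π / 5) < 1 := by
    rw [cos36_eq]
    linarith [s5_hi]
  have hk1 : kap t ≤ 1 := by
    have hden : 0 < u ^ 2 - h ^ 2 := by nlinarith
    have hq0 : 0 ≤ √(max (t ^ 2 - h ^ 2) 0) / √(u ^ 2 - h ^ 2) := by positivity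
    have hq1 : √(max (t ^ 2 - h ^ 2) 0) / √(u ^ 2 - h ^ 2) ≤ 1 := by
      rw [div_le_one (Real.sqrt_pos.mpr hden)]
      apply Real.sqrt_le_sqrt
      apply max_le
      · nlinarith
      · exact hden.le
    have h1 := CBx_anti (le_refl (0 : ℝ)) hq0 hq1
    norm_num at h1
    exact hkap.trans h1
  -- the radius
  obtain ⟨hrr0, hh2, -⟩ := CBx_rr hh0 hhu
  have hrrR : rr h u ≤ rr h R := by
    rw [rr, rr]
    apply Real.sqrt_le_sqrt
    apply sub_le_sub_right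
    apply div_le_div_of_nonneg_right _ (by positivity)
    apply pow_le_pow_left₀ hu0.le huR
  -- the apothem
  have hA0 : 0 < rr h u * cos (π / 5) := mul_pos hrr0 hc
  have hAr : rr h u * cos (π / 5) < rr h u := mul_lt_of_lt_one_right hrr0 hc1
  have hWA : h ^ 2 * (1 + (rr h u * cos (π / 5)) ^ 2) = h ^ 2 * s2 + u ^ 2 * c2 := by
    have e2 : s2 = 1 - c2 := by linarith [s2_add_c2]
    rw [mul_pow, ← c2_eq, e2, ← hh2]
    ring
  have hval : u * ggu t (kap t) u (h ^ 2 * (1 + (rr h u * cos (π / 5)) ^ 2)) =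
      t ^ 3 + bet t := by
    rw [hWA]
    exact hu5
  obtain ⟨hs1, hs2⟩ := CBx_sg hpch ht0 htu hh0 hhu hmono hA0 hAr hval
  have hGv := CBx_G ht0 htu hh0 hhu hk1 hmono hA0 hAr hval
  -- the local lemma
  have hcont : Continuous (G t (kap t) (bet t) h) := tHCL.1 t (kap t) (bet t) h
  have hsgn : ∀ r r', 0 ≤ r → r ≤ r' → 0 ≤ G t (kap t) (bet t) h r →
      0 ≤ G t (kap t) (bet t) h r' :=
    fun r r' hr hrr hG => p_SGN t (kap t) (bet t) h r r' ht0 hh0 hk0 hb0 hr hrr hG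
  have hloc := hloc2 (G t (kap t) (bet t) h) (rr h u) (rr h u * cos (π / 5)) hcont hA0 hAr
    hsgn hGv hs1 hs2
  have harc : arccos (rr h u * cos (π / 5) / rr h u) = π / 5 := by
    rw [mul_div_cancel_left₀ _ hrr0.ne']
    exact arccos_cos (by positivity) (by linarith [Real.pi_pos])
  rw [harc] at hloc
  have hbound : ∀ a, 0 < a →
      ∫ ψ in (0 : ℝ)..(π / 2), max (HH t h (rr h u) - HH t h (a / cos ψ)) 0 ≤
        ∫ ψ in (0 : ℝ)..(π / 5), (HH t h (rr h u) - HH t h (rr h u * cos (π / 5) / cos ψ)) :=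
    hloc
  refine ⟨rr h u,
    ∫ ψ in (0 : ℝ)..(π / 5), (HH t h (rr h u) - HH t h (rr h u * cos (π / 5) / cos ψ)),
    hrr0, hrrR, hGv, ?_, hbound, ?_⟩
  · refine le_trans ?_ (hbound 1 one_pos)
    apply intervalIntegral.integral_nonneg (by positivity)
    intro ψ _
    exact le_max_right _ _
  · have hHc : Continuous (HH t h) := by
      have : HH t h = fun r => ∫ s in (0 : ℝ)..r, G t (kap t) (bet t) h s * s := rfl
      rw [this]
      exact intervalIntegral.continuous_primitive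
        (fun a b => (hcont.mul continuous_id).intervalIntegrable a b) 0
    have hii : IntervalIntegrable (fun ψ => HH t h (rr h u * cos (π / 5) / cos ψ)) volume 0
        (π / 5) := by
      apply ContinuousOn.intervalIntegrable
      apply hHc.comp_continuousOn
      apply ContinuousOn.div continuousOn_const continuous_cos.continuousOn
      intro ψ hψ
      rw [uIcc_of_le (by positivity)] at hψ
      apply ne_of_gt
      apply cos_pos_of_mem_Ioo
      constructor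
      · linarith [hψ.1, Real.pi_pos]
      · linarith [hψ.2, Real.pi_pos]
    rw [intervalIntegral.integral_sub intervalIntegrable_const hii,
      intervalIntegral.integral_const]
    have hcase : h ≤ t ∨ (h ≤ 1.02 ∧ 1.25 ≤ u) := by
      rcases le_or_gt h t with h1 | h1
      · exact Or.inl h1
      · refine Or.inr ⟨?_, ?_⟩
        · rcases hth with h2 | h2
          · linarith
          · exact h2.le
        · rcases hu4 with h2 | h2
          · linarith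
          · exact h2
    have hp := hpyr t h u ht1 htR hh1 hhu huR hcase
    refine le_trans (le_of_eq ?_) hp
    rw [smul_eq_mul]
    ring

end Pool.Agent.SDL
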