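import Pool.Agent.SDL.Targets

set_option autoImplicit false

/-!
# SDL: the disc bound for `t² ≤ W0`
-/

open MeasureTheory Set Real
open scoped RealInnerProductSpace

namespace Pool.Agent.SDL

open Pool.Agent.SDC

/-- Bounds of `R * W0`. -/
theorem ds1_RW : (1.739076 : ℝ) < R * W0 ∧ R * W0 < 1.73908 := by
  have h1 := R_lo'
  have h2 := R_hi'
  have h3 : (1.381966 : ℝ) < W0 := by
    rw [W0]
    linarith [s5_hi']
  have h4 : W0 < (1.3819661 : ℝ) := by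
    rw [W0]
    linarith [s5_lo']
  constructor <;> nlinarith

/-- The polynomial inequality. -/
theorem ds1_poly (h : ℝ) (h1 : 1.02 ≤ h) (h2 : h ≤ 1.1756) :
    6 * (1.73908 + h ^ 3 / 2 - 3 / 2 * 1.20255 ^ 2 * h) * (9 * h ^ 2 - 5 * h ^ 3 - 3) ≤
      (1.739076 * (9 * h ^ 2 - 5 * h ^ 3 - 3) - 1.32505 * h ^ 3) * (1 - 4.135 * (h - 1)) := by
  have hu : 0 ≤ h - 1.02 := by linarith
  have hv : 0 ≤ 1.1756 - h := by linarith
  linarith [pow_nonneg hv 6, mul_nonneg hu (pow_nonneg hv 5),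
    mul_nonneg (pow_nonneg hu 2) (pow_nonneg hv 4), mul_nonneg (pow_nonneg hu 3)
    (pow_nonneg hv 3), mul_nonneg (pow_nonneg hu 4) (pow_nonneg hv 2),
    mul_nonneg (pow_nonneg hu 5) hv, pow_nonneg hu 6]

theorem ds1_D (x : ℝ) (h1 : 1 ≤ x) (h2 : x ≤ 1.1756) : 1 ≤ 9 * x ^ 2 - 5 * x ^ 3 - 3 := by
  have h3 : 0 ≤ (x - 1) * (4 + 4 * x - 5 * x ^ 2) :=
    mul_nonneg (by linarith) (by nlinarith)
  linarith

theorem ds1_mono (t x : ℝ) (h1 : 1 ≤ t) (h2 : t ≤ x) :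
    t ^ 3 * (9 * x ^ 2 - 5 * x ^ 3 - 3) ≤ x ^ 3 * (9 * t ^ 2 - 5 * t ^ 3 - 3) := by
  have hx : 1 ≤ x := h1.trans h2
  have ht2 : 1 ≤ t ^ 2 := by nlinarith
  have hx2 : 1 ≤ x ^ 2 := by nlinarith
  have htx : 1 ≤ t * x := by nlinarith
  have h3 : x ^ 2 + x * t + t ^ 2 ≤ 3 * x ^ 2 * t ^ 2 := by
    have e1 : x ^ 2 ≤ x ^ 2 * t ^ 2 := by nlinarith
    have e2 : t ^ 2 ≤ x ^ 2 * t ^ 2 := by nlinarith
    have e3 : x * t ≤ x ^ 2 * t ^ 2 := by nlinarith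
    linarith
  have h4 := mul_nonneg (sub_nonneg.mpr h2) (sub_nonneg.mpr h3)
  nlinarith

/-- It is enough to compare with a larger value of `t`. -/
theorem ds1_step (t x S f w Q : ℝ) (ht : 1 ≤ t) (htx : t ≤ x) (hx : x ≤ 1.1756) (hS : 0 ≤ S)
    (hw : 0 ≤ w)
    (hm : 6 * f * (9 * x ^ 2 - 5 * x ^ 3 - 3) ≤
      (Q * (9 * x ^ 2 - 5 * x ^ 3 - 3) - S * x ^ 3) * w) :
    6 * f * (9 * t ^ 2 - 5 * t ^ 3 - 3) ≤ (Q * (9 * t ^ 2 - 5 * t ^ 3 - 3) - S * t ^ 3) * w := by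
  have hDt := ds1_D t ht (htx.trans hx)
  have hDx := ds1_D x (ht.trans htx) hx
  have hmn := ds1_mono t x ht htx
  generalize 9 * t ^ 2 - 5 * t ^ 3 - 3 = Dt at *
  generalize 9 * x ^ 2 - 5 * x ^ 3 - 3 = Dx at *
  have e1 : 6 * f * Dx * Dt ≤ (Q * Dx - S * x ^ 3) * w * Dt :=
    mul_le_mul_of_nonneg_right hm (by linarith)
  have e2 : S * w * (t ^ 3 * Dx) ≤ S * w * (x ^ 3 * Dt) :=
    mul_le_mul_of_nonneg_left hmn (mul_nonneg hS hw)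
  have e3 : 6 * f * Dt * Dx ≤ (Q * Dt - S * t ^ 3) * w * Dx := by linarith
  exact le_of_mul_le_mul_right e3 (by linarith)

/-- The bound of the left side. -/
theorem ds1_f (h ρ Q : ℝ) (hh : 0 ≤ h) (hρ : 0 < ρ) (hQ1 : 1.739076 < Q) (hQ2 : Q < 1.73908) :
    (ρ - h) * (Q / ρ - h * (ρ + h) / 2) ≤
      1.73908 + h ^ 3 / 2 - 3 / 2 * 1.20255 ^ 2 * h := by
  have e1 : (ρ - h) * (Q / ρ - h * (ρ + h) / 2) =
      Q + h ^ 3 / 2 - h * (Q / ρ + ρ ^ 2 / 2) := by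
    field_simp
    ring
  have e2 : 3 / 2 * 1.20255 ^ 2 - ρ ^ 2 / 2 ≤ Q / ρ := by
    rw [le_div_iff₀ hρ]
    linarith [mul_nonneg (sq_nonneg (ρ - 1.20255)) (show 0 ≤ ρ + 2 * 1.20255 by linarith)]
  have e3 : h * (3 / 2 * 1.20255 ^ 2) ≤ h * (Q / ρ + ρ ^ 2 / 2) :=
    mul_le_mul_of_nonneg_left (by linarith) hh
  rw [e1]
  linarith

theorem ds1_f0 (h ρ Q : ℝ) (hh : 1.2026 ≤ h) (hρ : h ≤ ρ) (hQ2 : Q < 1.73908) :
    (ρ - h) * (Q / ρ - h * (ρ + h) / 2) ≤ 0 := by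
  apply mul_nonpos_of_nonneg_of_nonpos (by linarith)
  have hρ0 : 0 < ρ := by linarith
  have h0 : 0 < h := by linarith
  have e1 : h * h ≤ h * ρ := mul_le_mul_of_nonneg_left hρ h0.le
  have e2 : (1.2026 : ℝ) * 1.2026 ≤ h * h := mul_self_le_mul_self (by norm_num) hh
  have e3 : (1.2026 : ℝ) * 1.2026 * 1.2026 ≤ h * h * ρ :=
    mul_le_mul e2 (hh.trans hρ) (by norm_num) (mul_nonneg h0.le h0.le)
  have e4 : h * h * ρ ≤ h * ρ * ρ := mul_le_mul_of_nonneg_right e1 hρ0.le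
  have : Q / ρ ≤ h * (ρ + h) / 2 := by
    rw [div_le_iff₀ hρ0]
    norm_num at e3
    linarith
  linarith

/-- The case `h ≤ 1.1756`. -/
theorem ds1_a (h f S Q w : ℝ) (h1 : 1.02 ≤ h) (hh : h ≤ 1.1756) (hS : S ≤ 1.32505)
    (hQ1 : 1.739076 < Q) (hw : 1 - 4.135 * (h - 1) ≤ w)
    (hf : f ≤ 1.73908 + h ^ 3 / 2 - 3 / 2 * 1.20255 ^ 2 * h) :
    6 * f * (9 * h ^ 2 - 5 * h ^ 3 - 3) ≤ (Q * (9 * h ^ 2 - 5 * h ^ 3 - 3) - S * h ^ 3) * w := by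
  have hD := ds1_D h (by linarith) hh
  have hp := ds1_poly h h1 hh
  have h3 : 0 ≤ h ^ 3 := pow_nonneg (by linarith) 3
  have g3' : 0 ≤ 1.73908 + h ^ 3 / 2 - 3 / 2 * 1.20255 ^ 2 * h := by
    linarith [mul_nonneg (sq_nonneg (1.20255 - h)) (show 0 ≤ 1.20255 + h / 2 by linarith)]
  generalize 9 * h ^ 2 - 5 * h ^ 3 - 3 = D at *
  generalize 1.73908 + h ^ 3 / 2 - 3 / 2 * 1.20255 ^ 2 * h = F at *
  generalize h ^ 3 = c at *
  have g1 : 6 * f * D ≤ 6 * F * D := mul_le_mul_of_nonneg_right (by linarith) (by linarith)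
  have g2 : 1.739076 * D - 1.32505 * c ≤ Q * D - S * c := by
    have k1 := mul_le_mul_of_nonneg_right hQ1.le (show 0 ≤ D by linarith)
    have k2 := mul_le_mul_of_nonneg_right hS h3
    linarith
  have g3 : 0 ≤ 6 * F * D := mul_nonneg (by linarith) (by linarith)
  have g4 : 0 < 1 - 4.135 * (h - 1) := by linarith
  have g5 : 0 ≤ 1.739076 * D - 1.32505 * c := by
    by_contra hneg
    have := mul_neg_of_neg_of_pos (not_le.mp hneg) g4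
    linarith
  have g6 : (1.739076 * D - 1.32505 * c) * (1 - 4.135 * (h - 1)) ≤ (Q * D - S * c) * w :=
    mul_le_mul g2 hw g4.le (g5.trans g2)
  linarith

/-- The case `1.1756 ≤ h ≤ 1.2026`. -/
theorem ds1_b (h f S Q w : ℝ) (h1 : 1.1756 ≤ h) (hh : h ≤ 1.2026) (hS : S ≤ 1.32505)
    (hQ1 : 1.739076 < Q) (hw : 1 - 4.135 * (h - 1) ≤ w)
    (hf : f ≤ 1.73908 + h ^ 3 / 2 - 3 / 2 * 1.20255 ^ 2 * h) :
    6 * f * (9 * 1.1756 ^ 2 - 5 * 1.1756 ^ 3 - 3) ≤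
      (Q * (9 * 1.1756 ^ 2 - 5 * 1.1756 ^ 3 - 3) - S * 1.1756 ^ 3) * w := by
  have g1 : f ≤ 0.0014 := by
    have e1 := mul_nonneg (mul_nonneg (show 0 ≤ h - 1.1756 by linarith)
      (show 0 ≤ 1.2026 - h by linarith)) (show 0 ≤ h + 2.3782 by linarith)
    linarith
  have g2 : 0.13 ≤ Q * (9 * 1.1756 ^ 2 - 5 * 1.1756 ^ 3 - 3) - S * 1.1756 ^ 3 := by
    norm_num
    linarith
  have g3 : (0.16 : ℝ) ≤ w := by linarith
  have g4 : (0.13 : ℝ) * 0.16 ≤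
      (Q * (9 * 1.1756 ^ 2 - 5 * 1.1756 ^ 3 - 3) - S * 1.1756 ^ 3) * w :=
    mul_le_mul g2 g3 (by norm_num) (by linarith)
  have g5 : 6 * f * (9 * 1.1756 ^ 2 - 5 * 1.1756 ^ 3 - 3) ≤ 0.0208 := by
    norm_num
    linarith
  linarith

/-- The inequality for real numbers. -/
theorem ds1_core (t h ρ k S Q w : ℝ) (ht : 1 ≤ t) (ht1 : t ≤ 1.1756) (hth : t ≤ h)
    (h102 : 1.02 ≤ h) (hρ : h ≤ ρ) (hk : 0 < k) (hS : 0 < S) (hSle : S ≤ 1.32505)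
    (hkS : k * S = 9 * t ^ 2 - 5 * t ^ 3 - 3) (hQ1 : 1.739076 < Q) (hQ2 : Q < 1.73908)
    (hw0 : 0 ≤ w) (hw : 1 - 4.135 * (h - 1) ≤ w) (hb : 0 ≤ k * Q - t ^ 3) :
    k * ((ρ - h) * (Q / ρ - h * (ρ + h) / 2)) ≤ (k * Q - t ^ 3) / 6 * w := by
  rcases le_or_gt (1.2026 : ℝ) h with hc | hc
  · have h1 := mul_nonpos_of_nonneg_of_nonpos hk.le (ds1_f0 h ρ Q hc hρ hQ2)
    have h3 : 0 ≤ (k * Q - t ^ 3) / 6 * w := mul_nonneg (by linarith) hw0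
    linarith
  · have hf := ds1_f h ρ Q (by linarith) (by linarith) hQ1 hQ2
    generalize (ρ - h) * (Q / ρ - h * (ρ + h) / 2) = f at *
    have hmain : 6 * f * (9 * t ^ 2 - 5 * t ^ 3 - 3) ≤
        (Q * (9 * t ^ 2 - 5 * t ^ 3 - 3) - S * t ^ 3) * w := by
      rcases le_or_gt h (1.1756 : ℝ) with hh | hh
      · exact ds1_step t h S f w Q ht hth hh hS.le hw0 (ds1_a h f S Q w h102 hh hSle hQ1 hw hf)
      · exact ds1_step t 1.1756 S f w Q ht ht1 le_rfl hS.le hw0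
          (ds1_b h f S Q w hh.le hc.le hSle hQ1 hw hf)
    rw [← hkS] at hmain
    have e3 : S * (k * f * 6) ≤ S * ((k * Q - t ^ 3) * w) := by linarith
    have e4 := le_of_mul_le_mul_left e3 hS
    linarith

theorem p_DS1 (hkex : T_KEX) (hwt : T_WT) : T_DS1 := by
  intro t h ρ ht htW hth h102 hR hρ
  obtain ⟨-, hk⟩ := hkex
  obtain ⟨-, hwR, hanti, hw1, -⟩ := hwt
  have hkt := hk t ht htW
  have htR : t < R := by nlinarith [W0_lt, R_pos]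
  have hβ := (tBET t ht htR).1
  have hwt0 : 0 ≤ wt h := by
    rw [← hwR]
    exact hanti h R (by linarith) hR
  have hmax : max (t ^ 2 - W0) 0 = 0 := max_eq_right (by linarith)
  have hbet : bet t = (1 - kap t) * (R * W0) - t ^ 3 := by
    rw [bet, gg, hmax, Real.sqrt_zero]
    ring
  have hS0 := S0_hi
  have hS0' := S0_pos
  have hπ := Real.pi_gt_d6
  have hπ0 := Real.pi_pos
  have hSpos : 0 < 30 * S0 / π := by positivity
  have hSle : 30 * S0 / π ≤ 1.32505 := by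
    rw [div_le_iff₀ hπ0]
    linarith
  have hkS : (1 - kap t) * (30 * S0 / π) = 9 * t ^ 2 - 5 * t ^ 3 - 3 := by
    rw [mul_div_assoc', div_eq_iff hπ0.ne']
    linarith
  have ht1 : t ≤ 1.1756 := by nlinarith [W0_hi]
  have hDt := ds1_D t ht ht1
  have hkpos : 0 < 1 - kap t := by
    by_contra hc
    have : (1 - kap t) * (30 * S0 / π) ≤ 0 :=
      mul_nonpos_of_nonpos_of_nonneg (not_lt.mp hc) hSpos.le
    linarith
  have hL : (ρ - h) * ((t ^ 3 + bet t) / ρ - (1 - kap t) * h * (ρ + h) / 2) =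
      (1 - kap t) * ((ρ - h) * (R * W0 / ρ - h * (ρ + h) / 2)) := by
    rw [hbet]
    ring
  rw [hL, hbet]
  exact ds1_core t h ρ (1 - kap t) (30 * S0 / π) (R * W0) (wt h) ht ht1 hth h102 hρ hkpos hSpos
    hSle hkS ds1_RW.1 ds1_RW.2 hwt0 (hw1 h (by linarith)) (by rw [← hbet]; exact hβ)

end Pool.Agent.SDL
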