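import Pool.Agent.SDL.Targets

set_option autoImplicit false

/-!
# SDL: the disc bound for `t² ≥ W0`
-/

open MeasureTheory Set Real
open scoped RealInnerProductSpace

namespace Pool.Agent.SDL

open Pool.Agent.SDC

theorem ds2_X (t : ℝ) (ht : 1 ≤ t) (htR : t < R) :
    t ^ 3 + bet t ≤ (1 - kap t) * R ^ 3 := by
  have hG := (tBET t ht htR).2
  have hcc : cc rv = R := by
    rw [cc, ← R_sq', Real.sqrt_sq R_pos.le]
  have hR3 : 0 < R ^ 3 := pow_pos R_pos 3
  have ht3 : t ^ 3 ≤ R ^ 3 := pow_le_pow_left₀ (by linarith) htR.le 3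
  have hmax : max ((1 : ℝ) ^ 3 - t ^ 3 / R ^ 3) 0 = 1 - t ^ 3 / R ^ 3 := by
    rw [one_pow, max_eq_left]
    rw [sub_nonneg, div_le_one hR3]
    exact ht3
  rw [G, hcc, hmax, one_pow, mul_one] at hG
  have h1 : t ^ 3 / R ^ 3 + bet t / R ^ 3 ≤ 1 - kap t := by linarith
  rw [← add_div, div_le_iff₀ hR3] at h1
  exact h1

theorem p_DS2 (hkb2 : T_KB2) (hwt : T_WT) : T_DS2 := by
  intro t h ρ hW ht1 htR hth hhR hhρ
  have hX := ds2_X t ht1 htR
  have hβ : 0 ≤ bet t := (tBET t ht1 htR).1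
  have hκ : kap t * t ^ 3 ≤ 0.23 * bet t := hkb2 t hW ht1 htR
  have hw : 3.6 * (R - h) ≤ wt h := hwt.2.2.2.2.1 h (by linarith) hhR
  have hR3 : 0 < R ^ 3 := pow_pos R_pos 3
  have ht3 : 0 < t ^ 3 := by positivity
  have hk : 0 < 1 - kap t := by
    by_contra hcon
    have : (1 - kap t) * R ^ 3 ≤ 0 := mul_nonpos_of_nonpos_of_nonneg (not_lt.mp hcon) hR3.le
    linarith
  have hh0 : 0 < h := by linarith
  have hρ0 : 0 < ρ := by linarith
  set k := 1 - kap t with hkdef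
  set β := bet t with hβdef
  have hκk : kap t = 1 - k := by rw [hkdef]; ring
  rw [hκk] at hκ
  have hh3 : 0 < h ^ 3 := by positivity
  have hth3 : t ^ 3 ≤ h ^ 3 := pow_le_pow_left₀ (by linarith) hth 3
  have hrhs : 0 ≤ β / 6 * wt h :=
    mul_nonneg (by linarith) (by linarith)
  -- the left side
  have hL : (ρ - h) * ((t ^ 3 + β) / ρ - k * h * (ρ + h) / 2) =
      ((ρ - h) * (t ^ 3 + β - k * h ^ 3) - k * h * (ρ - h) ^ 2 * (ρ + 2 * h) / 2) / ρ := by
    field_simp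
    ring
  rw [hL]
  have hδ : 0 ≤ ρ - h := by linarith
  by_cases hE : t ^ 3 + β - k * h ^ 3 ≤ 0
  · refine le_trans ?_ hrhs
    apply div_nonpos_of_nonpos_of_nonneg _ hρ0.le
    have h1 : (ρ - h) * (t ^ 3 + β - k * h ^ 3) ≤ 0 :=
      mul_nonpos_of_nonneg_of_nonpos hδ hE
    have h2 : 0 ≤ k * h * (ρ - h) ^ 2 * (ρ + 2 * h) / 2 := by positivity
    linarith
  · push Not at hE
    set E := t ^ 3 + β - k * h ^ 3 with hEdef
    have hE1 : E ≤ 1.23 * β := by
      have : E = β + (t ^ 3 - h ^ 3) * k + (1 - k) * t ^ 3 := by rw [hEdef]; ring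
      have h3 : (t ^ 3 - h ^ 3) * k ≤ 0 :=
        mul_nonpos_of_nonpos_of_nonneg (by linarith) hk.le
      rw [this]
      linarith
    have hE2 : E ≤ k * ((R - h) * (R ^ 2 + R * h + h ^ 2)) := by
      have : k * ((R - h) * (R ^ 2 + R * h + h ^ 2)) = k * R ^ 3 - k * h ^ 3 := by ring
      rw [this, hEdef]
      linarith
    have hh2 : (1.381965 : ℝ) < h ^ 2 := by
      have h1 : (1.381965 : ℝ) < W0 := by
        rw [W0]
        linarith [s5_hi]
      have h2 : t ^ 2 ≤ h ^ 2 := pow_le_pow_left₀ (by linarith) hth 2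
      linarith
    have hhl : (1.17557 : ℝ) < h := by nlinarith only [hh2, hh0]
    have hpoly : 1.23 * (R ^ 2 + R * h + h ^ 2) ≤ 3.6 * h ^ 3 := by
      have hR2 := R_sq_hi
      have hRh : R * h ≤ 1.258409 * h := mul_le_mul_of_nonneg_right R_hi'.le hh0.le
      have h1 : h ^ 3 = h * h ^ 2 := by ring
      have h2 := mul_lt_mul_of_pos_right hhl (show 0 < h ^ 2 by positivity)
      nlinarith only [h1, h2, hRh, hR2, hhl, hh2, hh0, mul_pos (sub_pos.mpr hhl) hh0]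
    have hEE : E * E ≤ (1.23 * β) * (k * ((R - h) * (R ^ 2 + R * h + h ^ 2))) :=
      mul_le_mul hE1 hE2 hE.le (by linarith)
    have hkβ : 0 ≤ β * k * (R - h) :=
      mul_nonneg (mul_nonneg hβ hk.le) (by linarith)
    have hE3 : E ^ 2 ≤ β * k * (R - h) * (3.6 * h ^ 3) := by
      have h1 : β * k * (R - h) * (1.23 * (R ^ 2 + R * h + h ^ 2)) ≤
          β * k * (R - h) * (3.6 * h ^ 3) := mul_le_mul_of_nonneg_left hpoly hkβ
      linarith only [hEE, h1]
    have hfin : E ^ 2 / (6 * k * h ^ 3) ≤ β / 6 * wt h := by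
      rw [div_le_iff₀ (by positivity)]
      have h1 : β * (3.6 * (R - h)) ≤ β * wt h := mul_le_mul_of_nonneg_left hw hβ
      have h2 : β * (3.6 * (R - h)) * (k * h ^ 3) ≤ β * wt h * (k * h ^ 3) :=
        mul_le_mul_of_nonneg_right h1 (by positivity)
      linarith only [hE3, h2]
    refine le_trans ?_ hfin
    rw [div_le_div_iff₀ hρ0 (by positivity)]
    have hA : (ρ - h) * E - k * h * (ρ - h) ^ 2 * (ρ + 2 * h) / 2 ≤
        (ρ - h) * E - 3 / 2 * k * h ^ 2 * (ρ - h) ^ 2 := by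
      have : 0 ≤ k * h * (ρ - h) ^ 2 * (ρ - h) / 2 := by positivity
      linarith only [this]
    have hB : ((ρ - h) * E - 3 / 2 * k * h ^ 2 * (ρ - h) ^ 2) * (6 * k * h ^ 2) ≤ E ^ 2 := by
      linarith only [sq_nonneg (E - 3 * k * h ^ 2 * (ρ - h))]
    have hC : ((ρ - h) * E - k * h * (ρ - h) ^ 2 * (ρ + 2 * h) / 2) * (6 * k * h ^ 2) ≤ E ^ 2 :=
      le_trans (mul_le_mul_of_nonneg_right hA (by positivity)) hB
    calc ((ρ - h) * E - k * h * (ρ - h) ^ 2 * (ρ + 2 * h) / 2) * (6 * k * h ^ 3)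
        = ((ρ - h) * E - k * h * (ρ - h) ^ 2 * (ρ + 2 * h) / 2) * (6 * k * h ^ 2) * h := by ring
      _ ≤ E ^ 2 * h := mul_le_mul_of_nonneg_right hC hh0.le
      _ ≤ E ^ 2 * ρ := mul_le_mul_of_nonneg_left hhρ (sq_nonneg E)

end Pool.Agent.SDL
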