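import Pool.Agent.SDL.Targets

set_option autoImplicit false

/-!
# SDL: the target T_DSC (the disc bound for all radii)
-/

open MeasureTheory Set Real
open scoped RealInnerProductSpace

namespace Pool.Agent.SDL

open Pool.Agent.SDC

theorem p_DSC (hhb : T_HB) (hds1 : T_DS1) (hds2 : T_DS2) : T_DSC := by
  intro t h r ht1 htR hth h102 hr
  have ht0 : 0 < t := by linarith
  have hh0 : 0 < h := by linarith
  obtain ⟨-, -, hBF⟩ := p_BF
  have hc1 : 1 ≤ cc r := cc_one r
  have hρh : h ≤ h * cc r := by nlinarith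
  have hρ0 : 0 < h * cc r := by nlinarith
  obtain ⟨hβ, hG⟩ := tBET t ht1 htR
  obtain ⟨hk0, hk1⟩ := tKAP t ht1 htR
  set ρ : ℝ := h * cc r with hρ
  have hid : - HH t h r =
      (ρ - h) * ((t ^ 3 + bet t) / ρ - (1 - kap t) * h * (ρ + h) / 2) := by
    rw [hhb t h r ht0 hh0 hr, bb, hBF t ρ ht0 (by linarith), hBF t h ht0 hth]
    field_simp
    ring
  have hm : wt h ≤ max (wt h) 0 := le_max_left _ _
  have hgoal : (ρ - h) * ((t ^ 3 + bet t) / ρ - (1 - kap t) * h * (ρ + h) / 2) ≤
      bet t / 6 * max (wt h) 0 := by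
    rcases le_or_gt h R with hhR | hhR
    · have h1 : (ρ - h) * ((t ^ 3 + bet t) / ρ - (1 - kap t) * h * (ρ + h) / 2) ≤
          bet t / 6 * wt h := by
        rcases le_total (t ^ 2) W0 with hW | hW
        · exact hds1 t h ρ ht1 hW hth h102 hhR hρh
        · exact hds2 t h ρ hW ht1 htR hth hhR hρh
      have h2 : bet t / 6 * wt h ≤ bet t / 6 * max (wt h) 0 :=
        mul_le_mul_of_nonneg_left hm (by linarith)
      linarith
    · have hR := R_pos
      have hG1 : t ^ 3 + bet t ≤ (1 - kap t) * R ^ 3 := by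
        unfold G at hG
        rw [cc_rv] at hG
        have h3 : t ^ 3 / R ^ 3 ≤ 1 := by
          rw [div_le_one (by positivity)]
          exact pow_le_pow_left₀ ht0.le htR.le 3
        rw [max_eq_left (by linarith)] at hG
        have h4 : 0 ≤ (1 - kap t) - (t ^ 3 + bet t) / R ^ 3 := by
          have : (t ^ 3 + bet t) / R ^ 3 = t ^ 3 / R ^ 3 + bet t / R ^ 3 := add_div _ _ _
          rw [this]
          linarith
        have h5 : (t ^ 3 + bet t) / R ^ 3 ≤ 1 - kap t := by linarith
        rwa [div_le_iff₀ (by positivity)] at h5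
      have hkk : 0 ≤ 1 - kap t := by
        have h6 : 0 < (1 - kap t) * R ^ 3 := by
          have : 0 < t ^ 3 := by positivity
          linarith
        have h7 : 0 < R ^ 3 := by positivity
        exact (pos_of_mul_pos_left h6 h7.le).le
      have h8 : (t ^ 3 + bet t) / ρ ≤ (1 - kap t) * h * (ρ + h) / 2 := by
        rw [div_le_iff₀ hρ0]
        have h9 : R ^ 3 ≤ h * (ρ + h) / 2 * ρ := by
          have h10 : R * R ≤ h * ρ := mul_le_mul hhR.le (by linarith) hR.le hh0.le
          have h11 : 2 * R ≤ ρ + h := by linarith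
          have h12 : R * R * (2 * R) ≤ h * ρ * (ρ + h) :=
            mul_le_mul h10 h11 (by positivity) (by positivity)
          nlinarith
        have h13 := mul_le_mul_of_nonneg_left h9 hkk
        calc t ^ 3 + bet t ≤ (1 - kap t) * R ^ 3 := hG1
          _ ≤ (1 - kap t) * (h * (ρ + h) / 2 * ρ) := h13
          _ = (1 - kap t) * h * (ρ + h) / 2 * ρ := by ring
      have h14 : (ρ - h) * ((t ^ 3 + bet t) / ρ - (1 - kap t) * h * (ρ + h) / 2) ≤ 0 :=
        mul_nonpos_of_nonneg_of_nonpos (by linarith) (by linarith)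
      have h15 : 0 ≤ bet t / 6 * max (wt h) 0 :=
        mul_nonneg (by linarith) (le_max_right _ _)
      linarith
  linarith

end Pool.Agent.SDL
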