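import Pool.Agent.SDL.Targets

set_option autoImplicit false

/-!
# SDL: the target EPW
-/

open MeasureTheory Set Real
open scoped RealInnerProductSpace

namespace Pool.Agent.SDL

open Pool.Agent.SDC

theorem EPW_zero (t c : ℝ) (h : c ≤ t) : Bf t c = 0 := by
  unfold Bf
  rw [if_pos h]

theorem EPW_closed (t c : ℝ) (ht : 0 < t) (h : t ≤ c) :
    Bf t c = c ^ 2 / 2 + t ^ 3 / c - 3 / 2 * t ^ 2 := p_BF.2.2 t c ht h

theorem EPW_mono (t c d : ℝ) (ht : 0 < t) (hc : 0 < c) (hcd : c ≤ d) : Bf t c ≤ Bf t d := by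
  have hd : 0 < d := lt_of_lt_of_le hc hcd
  rcases le_total c t with h | h
  · rw [EPW_zero t c h]
    exact p_BF.1 t d ht hd
  · rw [EPW_closed t c ht h, EPW_closed t d ht (le_trans h hcd)]
    have h1 : d ^ 2 / 2 + t ^ 3 / d - 3 / 2 * t ^ 2 - (c ^ 2 / 2 + t ^ 3 / c - 3 / 2 * t ^ 2) =
        (d - c) * ((d + c) * (c * d) - 2 * t ^ 3) / (2 * (c * d)) := by
      field_simp
      ring
    have h2 : t ^ 3 ≤ c ^ 3 := pow_le_pow_left₀ ht.le h 3
    have h3 : c ^ 3 ≤ c * (c * d) := by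
      linarith only [mul_nonneg (mul_nonneg hc.le hc.le) (sub_nonneg.2 hcd)]
    have h4 : c ^ 3 ≤ d * (c * d) := by
      linarith only [h3, mul_nonneg (mul_nonneg hc.le hd.le) (sub_nonneg.2 hcd)]
    have h5 : 0 ≤ (d - c) * ((d + c) * (c * d) - 2 * t ^ 3) / (2 * (c * d)) := by
      apply div_nonneg _ (by positivity)
      apply mul_nonneg (sub_nonneg.2 hcd)
      linarith only [h2, h3, h4]
    linarith only [h1, h5]

theorem EPW_key (t h u γ : ℝ) (ht : 1 ≤ t) (hh : 1 ≤ h) (hu : h < u)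
    (hc : h ≤ t ∨ (t < h ∧ h ≤ 1.02 ∧ 1.25 ≤ u)) (h0 : 0 ≤ γ) (h1 : γ ≤ 1) :
    Bf t √(1 + (u ^ 2 - 1) * γ) ≤ h * (Bf t √(h ^ 2 + (u ^ 2 - h ^ 2) * γ) - Bf t h) := by
  have ht0 : 0 < t := by linarith
  have hh0 : 0 < h := by linarith
  have hu0 : 0 < u := by linarith
  -- monotonicity in the height
  have key : ∀ x : ℝ, 1 ≤ x → x ≤ u → x ≤ t →
      Bf t √(1 + (u ^ 2 - 1) * γ) ≤ x * Bf t √(x ^ 2 + (u ^ 2 - x ^ 2) * γ) := by
    intro x hx hxu hxt
    have h2 : 1 + (u ^ 2 - 1) * γ ≤ x ^ 2 + (u ^ 2 - x ^ 2) * γ := by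
      linarith only [mul_nonneg (sub_nonneg.2 h1) (by nlinarith only [hx] : (0 : ℝ) ≤ x ^ 2 - 1)]
    have h3 : 0 < 1 + (u ^ 2 - 1) * γ := by
      have : 0 ≤ (u ^ 2 - 1) * γ := mul_nonneg (by nlinarith only [hx, hxu]) h0
      linarith only [this]
    have h4 := EPW_mono t √(1 + (u ^ 2 - 1) * γ) √(x ^ 2 + (u ^ 2 - x ^ 2) * γ) ht0
      (Real.sqrt_pos.2 h3) (Real.sqrt_le_sqrt h2)
    have h5 : 0 ≤ Bf t √(x ^ 2 + (u ^ 2 - x ^ 2) * γ) :=
      p_BF.1 t _ ht0 (Real.sqrt_pos.2 (lt_of_lt_of_le h3 h2))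
    exact h4.trans (le_mul_of_one_le_left h5 hx)
  rcases hc with hc | ⟨hth, hh2, hu2⟩
  · rw [EPW_zero t h hc, sub_zero]
    exact key h hh hu.le hc
  · have hk := key t ht (by linarith) le_rfl
    -- the two radii
    obtain ⟨a, ha⟩ : ∃ a, a = √(h ^ 2 + (u ^ 2 - h ^ 2) * γ) := ⟨_, rfl⟩
    obtain ⟨b, hb⟩ : ∃ b, b = √(t ^ 2 + (u ^ 2 - t ^ 2) * γ) := ⟨_, rfl⟩
    have hu2h : 0 ≤ u ^ 2 - h ^ 2 := by nlinarith only [hu, hh0]
    have hu2t : 0 ≤ u ^ 2 - t ^ 2 := by nlinarith only [hu, hh0, hth, ht0]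
    have hga : 0 ≤ (u ^ 2 - h ^ 2) * γ := mul_nonneg hu2h h0
    have hgb : 0 ≤ (u ^ 2 - t ^ 2) * γ := mul_nonneg hu2t h0
    have ha2 : a ^ 2 = h ^ 2 + (u ^ 2 - h ^ 2) * γ := by
      rw [ha, Real.sq_sqrt (by positivity)]
    have hb2 : b ^ 2 = t ^ 2 + (u ^ 2 - t ^ 2) * γ := by
      rw [hb, Real.sq_sqrt (by positivity)]
    have ha0 : 0 ≤ a := by rw [ha]; exact Real.sqrt_nonneg _
    have hb0 : 0 ≤ b := by rw [hb]; exact Real.sqrt_nonneg _
    have hah : h ≤ a := abs_le_of_sq_le_sq' (by linarith only [ha2, hga]) ha0 |>.2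
    have hbt : t ≤ b := abs_le_of_sq_le_sq' (by linarith only [hb2, hgb]) hb0 |>.2
    have hau : a ≤ u := by
      refine abs_le_of_sq_le_sq' ?_ hu0.le |>.2
      linarith only [ha2, mul_nonneg hu2h (sub_nonneg.2 h1)]
    have hbu : b ≤ u := by
      refine abs_le_of_sq_le_sq' ?_ hu0.le |>.2
      linarith only [hb2, mul_nonneg hu2t (sub_nonneg.2 h1)]
    rw [← hb] at hk
    rw [← ha]
    refine le_trans hk ?_
    rw [EPW_closed t a ht0 (by linarith), EPW_closed t b ht0 hbt, EPW_closed t h ht0 hth.le]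
    have hap : 0 < a := by linarith
    have hbp : 0 < b := by linarith
    -- the difference
    have e1 : h * (a ^ 2 / 2 + t ^ 3 / a - 3 / 2 * t ^ 2 -
        (h ^ 2 / 2 + t ^ 3 / h - 3 / 2 * t ^ 2)) =
        h * (u ^ 2 - h ^ 2) * γ / 2 + t ^ 3 * (h / a) - t ^ 3 := by
      rw [ha2]
      field_simp
      ring
    have e2 : t * (b ^ 2 / 2 + t ^ 3 / b - 3 / 2 * t ^ 2) =
        t * (u ^ 2 - t ^ 2) * γ / 2 + t ^ 3 * (t / b) - t ^ 3 := by
      rw [hb2]
      field_simp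
      ring
    rw [e1, e2]
    have e3 : h / a - t / b = γ * u ^ 2 * (h - t) * (h + t) / (a * b * (h * b + t * a)) := by
      have hn : 0 < h * b + t * a := by positivity
      have e4 : (h * b - t * a) * (h * b + t * a) = γ * u ^ 2 * (h - t) * (h + t) := by
        have : (h * b - t * a) * (h * b + t * a) = h ^ 2 * b ^ 2 - t ^ 2 * a ^ 2 := by ring
        rw [this, ha2, hb2]
        ring
      rw [← e4]
      field_simp
    have e5 : γ * (h - t) / u ≤ h / a - t / b := by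
      rw [e3, div_le_div_iff₀ hu0 (by positivity)]
      have h6 : a * b * (h * b + t * a) ≤ u ^ 2 * (u * (h + t)) := by
        apply mul_le_mul
        · have := mul_le_mul hau hbu hb0 hu0.le
          linarith only [this]
        · have k1 := mul_le_mul_of_nonneg_left hbu hh0.le
          have k2 := mul_le_mul_of_nonneg_left hau ht0.le
          linarith only [k1, k2]
        · positivity
        · positivity
      have h7 : 0 ≤ γ * (h - t) := mul_nonneg h0 (by linarith)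
      calc γ * (h - t) * (a * b * (h * b + t * a)) ≤ γ * (h - t) * (u ^ 2 * (u * (h + t))) :=
            mul_le_mul_of_nonneg_left h6 h7
        _ = γ * u ^ 2 * (h - t) * (h + t) * u := by ring
    have ht3 : 1 ≤ t ^ 3 := one_le_pow₀ ht
    have e6 : γ * (h - t) / u ≤ t ^ 3 * (h / a - t / b) := by
      have h8 : 0 ≤ γ * (h - t) / u := by
        apply div_nonneg (mul_nonneg h0 (by linarith)) hu0.le
      calc γ * (h - t) / u ≤ 1 * (h / a - t / b) := by linarith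
        _ ≤ t ^ 3 * (h / a - t / b) := mul_le_mul_of_nonneg_right ht3 (by linarith)
    have e7 : h * (u ^ 2 - h ^ 2) - t * (u ^ 2 - t ^ 2) =
        (h - t) * (u ^ 2 - h ^ 2 - h * t - t ^ 2) := by ring
    have e8 : 1.5607 ≤ u ^ 2 / 2 + 1 / u := by
      have h9 : u ^ 2 / 2 + 1 / u - 1.58125 = (u - 1.25) * (u ^ 2 + 1.25 * u - 1.6) / (2 * u) := by
        field_simp
        ring
      have h10 : 0 ≤ (u - 1.25) * (u ^ 2 + 1.25 * u - 1.6) / (2 * u) := by
        apply div_nonneg _ (by positivity)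
        apply mul_nonneg (by linarith only [hu2])
        nlinarith only [hu2]
      linarith only [h9, h10]
    have e9 : h ^ 2 + h * t + t ^ 2 ≤ 3.1212 := by
      have k0 : t ≤ 1.02 := by linarith only [hth, hh2]
      have k1 := mul_le_mul hh2 hh2 hh0.le (by norm_num)
      have k2 := mul_le_mul hh2 k0 ht0.le (by norm_num)
      have k3 := mul_le_mul k0 k0 ht0.le (by norm_num)
      norm_num at k1 k2 k3
      linarith only [k1, k2, k3]
    have e10 : 0 ≤ γ * (h - t) * ((u ^ 2 - h ^ 2 - h * t - t ^ 2) / 2 + 1 / u) := by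
      apply mul_nonneg (mul_nonneg h0 (by linarith))
      linarith
    have e11 : γ * (h - t) * ((u ^ 2 - h ^ 2 - h * t - t ^ 2) / 2 + 1 / u) =
        (h * (u ^ 2 - h ^ 2) - t * (u ^ 2 - t ^ 2)) * γ / 2 + γ * (h - t) / u := by
      rw [e7]
      ring
    rw [e11] at e10
    linarith only [e10, e6]

theorem p_EPW : T_EPW := by
  intro t h u γ ht htR hh hhu huR hc h0 h1
  have hR : u ^ 2 ≤ 1.6 := by
    have : u ^ 2 ≤ R ^ 2 := pow_le_pow_left₀ (by linarith) huR 2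
    linarith [R_sq_hi]
  have hk := (tKAP t ht htR).1
  have h2 := EPW_key t h u γ ht hh hhu (by
    rcases hc with hc | ⟨hc1, hc2⟩
    · exact Or.inl hc
    · rcases le_or_gt h t with h3 | h3
      · exact Or.inl h3
      · exact Or.inr ⟨h3, hc1, hc2⟩) h0 h1
  have h3 : h * (u ^ 2 - h ^ 2) ≤ u ^ 2 - 1 := by
    have h4 : 0 ≤ (h - 1) * (h ^ 2 + h + 1 - u ^ 2) := by
      apply mul_nonneg (by linarith only [hh])
      nlinarith only [hR, hh]
    linarith only [h4]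
  have h5 : kap t * γ * (h * (u ^ 2 - h ^ 2)) ≤ kap t * γ * (u ^ 2 - 1) :=
    mul_le_mul_of_nonneg_left h3 (mul_nonneg hk h0)
  linarith only [h2, h5]

end Pool.Agent.SDL
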