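import Pool.Agent.SDL.Targets2

set_option autoImplicit false

/-!
# SDL: FBD, every facet
-/

open MeasureTheory Set Real
open scoped RealInnerProductSpace

namespace Pool.Agent.SDL

open Pool.Agent.SDC

theorem p_FBD (hfba : T_FBA) (hfbb : T_FBB) (hfbc : T_FBC) : T_FBD := by
  classical
  intro ι _ n h i e f t hP hI hO ht1 htR
  have hβ := (tBET t ht1 htR).1
  have hh1 : 1 ≤ h i := hP.2.1 i
  rcases le_or_gt RO (h i) with hRO | hRO
  · have he : {w | w ∈ Qs n h i e f ∧ h i * cc (nr w) < RO} = ∅ := by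
      rw [Set.eq_empty_iff_forall_notMem]
      rintro w ⟨-, hw⟩
      have h1 := cc_one (nr w)
      have h2 : h i * 1 ≤ h i * cc (nr w) := mul_le_mul_of_nonneg_left h1 (by linarith)
      linarith
    rw [he, Measure.restrict_empty, integral_zero_measure]
    have h3 : 0 ≤ max (wt (h i)) 0 := le_max_right _ _
    have h4 : 0 ≤ π / 3 * bet t * max (wt (h i)) 0 := by positivity
    linarith
  · by_cases hc : t ≤ h i ∧ 1.02 ≤ h i
    · exact hfba ι n h i e f t hP hI hO ht1 htR hRO hc.1 hc.2
    · have hc' : h i < t ∨ h i < 1.02 := by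
        rcases not_and_or.mp hc with hc | hc
        · exact Or.inl (not_le.mp hc)
        · exact Or.inr (not_le.mp hc)
      obtain ⟨S, hS⟩ : ∃ S : Finset ι, ∀ j, NS n h i RO j ↔ j ∈ S :=
        ⟨Finset.univ.filter fun j => NS n h i RO j, fun j => by simp⟩
      obtain ⟨S', hS'⟩ : ∃ S' : Finset ι, ∀ j, j ∈ S' ↔ (j ∈ S ∧ ad n h i j < rr (h i) R) :=
        ⟨S.filter fun j => ad n h i j < rr (h i) R, fun j => by simp⟩
      have hsub : S' ⊆ S := fun j hj => ((hS' j).mp hj).1
      rcases Nat.lt_or_ge S'.card 6 with h6 | h6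
      · refine hfbb ι n h i e f t S S' hP hI hO ht1 htR hc' hS hsub (by omega) ?_
        intro j hj hj'
        by_contra hlt
        exact hj' ((hS' j).mpr ⟨hj, not_le.mp hlt⟩)
      · exact hfbc ι n h i e f t S S' hP hI hO ht1 htR hc' hS hsub h6
          fun j hj => ((hS' j).mp hj).2

end Pool.Agent.SDL
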