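import Pool.Agent.SDL.Targets

set_option autoImplicit false

/-!
# SDL, target GMU: the function `ggu` is monotone

As `SDC/P_GMN.lean`, with a general radius `u` (the case `t = u` is allowed).
-/

open MeasureTheory Set Real

namespace Pool.Agent.SDL

open Pool.Agent.SDC

theorem GMU_step {t u W W' : ℝ} (hu : W' < u ^ 2) (hW : W ≤ W') (hW' : W' ≤ t ^ 2) :
    √(t ^ 2 - W) ^ 3 / √(u ^ 2 - W) ≤ √(t ^ 2 - W') ^ 3 / √(u ^ 2 - W') +
      (3 * (√(t ^ 2 - W) / √(u ^ 2 - W)) - (√(t ^ 2 - W) / √(u ^ 2 - W)) ^ 3) / 2 *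
        (W' - W) := by
  have hs : 0 < √(u ^ 2 - W) := Real.sqrt_pos.mpr (by linarith)
  have hs' : 0 < √(u ^ 2 - W') := Real.sqrt_pos.mpr (by linarith)
  have es : √(u ^ 2 - W) ^ 2 = u ^ 2 - W := Real.sq_sqrt (by linarith)
  have es' : √(u ^ 2 - W') ^ 2 = u ^ 2 - W' := Real.sq_sqrt (by linarith)
  have ep : √(t ^ 2 - W) ^ 2 = t ^ 2 - W := Real.sq_sqrt (by linarith)
  have ep' : √(t ^ 2 - W') ^ 2 = t ^ 2 - W' := Real.sq_sqrt (by linarith)
  have hp : 0 ≤ √(t ^ 2 - W) := Real.sqrt_nonneg _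
  have hp' : 0 ≤ √(t ^ 2 - W') := Real.sqrt_nonneg _
  generalize √(u ^ 2 - W) = s at *
  generalize √(u ^ 2 - W') = s' at *
  generalize √(t ^ 2 - W) = p at *
  generalize √(t ^ 2 - W') = p' at *
  have h1 : (p' / s) ^ 2 = (p / s) ^ 2 - (W' - W) / s ^ 2 := by
    rw [div_pow, div_pow, ep, ep', ← sub_div]
    congr 1
    ring
  have h2 : (s' / s) ^ 2 = 1 - (W' - W) / s ^ 2 := by
    rw [div_pow, es', eq_sub_iff_add_eq, ← add_div, div_eq_one_iff_eq (by positivity), es]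
    ring
  have h3 := GMN_tan (q := p / s) (u := p' / s) (v := s' / s) (y := (W' - W) / s ^ 2)
    (by positivity) (by positivity) (by positivity) h1 h2
  have h4 := mul_le_mul_of_nonneg_right h3 (by positivity : (0 : ℝ) ≤ s ^ 2)
  have e1 : (p / s) ^ 3 * s ^ 2 = p ^ 3 / s := by
    field_simp
  have e2 : ((p' / s) ^ 3 / (s' / s) + (3 * (p / s) - (p / s) ^ 3) / 2 * ((W' - W) / s ^ 2)) *
      s ^ 2 = p' ^ 3 / s' + (3 * (p / s) - (p / s) ^ 3) / 2 * (W' - W) := by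
    field_simp
  rw [e1, e2] at h4
  exact h4

/-- GMU: `ggu` is monotone. -/
theorem p_GMU : T_GMU := by
  intro t κ h u ht hh hhu htu hκ
  have hhu2 : h ^ 2 < u ^ 2 := by nlinarith
  have htu2 : t ^ 2 ≤ u ^ 2 := by nlinarith
  have hmax : max (t ^ 2 - h ^ 2) 0 ≤ u ^ 2 - h ^ 2 := max_le (by linarith) (by linarith)
  have hmax0 : 0 ≤ max (t ^ 2 - h ^ 2) 0 := le_max_right _ _
  obtain ⟨q1, hq1⟩ : ∃ q1, q1 = √(max (t ^ 2 - h ^ 2) 0) / √(u ^ 2 - h ^ 2) := ⟨_, rfl⟩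
  rw [← hq1] at hκ
  have hq10 : 0 ≤ q1 := by
    rw [hq1]
    positivity
  have hq1s : q1 ^ 2 * (u ^ 2 - h ^ 2) = max (t ^ 2 - h ^ 2) 0 := by
    rw [hq1, div_pow, Real.sq_sqrt hmax0, Real.sq_sqrt (by linarith)]
    exact div_mul_cancel₀ _ (by linarith)
  have hq1q : q1 ^ 2 ≤ 1 := by
    by_contra hc
    push Not at hc
    nlinarith
  have hq11 : q1 ≤ 1 := by nlinarith
  have hκ1 : (3 * q1 - q1 ^ 3) / 2 ≤ 1 - κ := by nlinarith
  -- the bound for the derivative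
  have hder : ∀ W, h ^ 2 ≤ W → W ≤ t ^ 2 → W < u ^ 2 →
      (3 * (√(t ^ 2 - W) / √(u ^ 2 - W)) - (√(t ^ 2 - W) / √(u ^ 2 - W)) ^ 3) / 2 ≤ 1 - κ := by
    intro W hW1 hW2 hW3
    have hm : max (t ^ 2 - h ^ 2) 0 = t ^ 2 - h ^ 2 := max_eq_left (by linarith)
    rw [hm] at hq1s
    obtain ⟨q, hq⟩ : ∃ q, q = √(t ^ 2 - W) / √(u ^ 2 - W) := ⟨_, rfl⟩
    rw [← hq]
    have hq0 : 0 ≤ q := by
      rw [hq]
      positivity
    have hqs : q ^ 2 * (u ^ 2 - W) = t ^ 2 - W := by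
      rw [hq, div_pow, Real.sq_sqrt (by linarith), Real.sq_sqrt (by linarith)]
      exact div_mul_cancel₀ _ (by linarith)
    have hqq : q ^ 2 ≤ q1 ^ 2 := by
      by_contra hc
      push Not at hc
      have e1 : 0 < (q ^ 2 - q1 ^ 2) * (u ^ 2 - W) :=
        mul_pos (by linarith) (by linarith)
      have e3 : 0 ≤ (1 - q1 ^ 2) * (W - h ^ 2) := mul_nonneg (by linarith) (by linarith)
      nlinarith
    have hqq1 : q ≤ q1 := (pow_le_pow_iff_left₀ hq0 hq10 two_ne_zero).1 hqq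
    have e4 : 0 ≤ (q1 - q) * (3 - q1 ^ 2 - q1 * q - q ^ 2) := by
      refine mul_nonneg (by linarith) ?_
      have e6 : q1 * q ≤ 1 := by nlinarith
      have e7 : q ^ 2 ≤ 1 := by linarith
      linarith
    nlinarith
  have hκ0 : 0 ≤ 1 - κ := by
    have e5 : q1 ^ 3 ≤ q1 := by nlinarith
    linarith
  -- monotone on the two parts
  have part1 : ∀ W W', h ^ 2 ≤ W → W ≤ W' → W' ≤ t ^ 2 → W' < u ^ 2 →
      ggu t κ u W ≤ ggu t κ u W' := by
    intro W W' h1 h2 h3 h3'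
    rw [ggu, ggu, max_eq_left (by linarith), max_eq_left (by linarith)]
    have h4 := GMU_step h3' h2 h3
    have h5 := mul_le_mul_of_nonneg_right (hder W h1 (by linarith) (by linarith))
      (by linarith : (0 : ℝ) ≤ W' - W)
    nlinarith
  have part2 : ∀ W W', t ^ 2 ≤ W → W ≤ W' → ggu t κ u W ≤ ggu t κ u W' := by
    intro W W' h1 h2
    rw [ggu, ggu, max_eq_right (by linarith), max_eq_right (by linarith)]
    have h4 := mul_le_mul_of_nonneg_left h2 hκ0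
    simp only [Real.sqrt_zero]
    norm_num
    exact h4
  intro W hW W' hW' hWW
  rcases le_total W' (t ^ 2) with h1 | h1
  · exact part1 W W' hW.1 hWW h1 hW'.2
  · rcases le_total W (t ^ 2) with h2 | h2
    · rcases lt_or_ge (t ^ 2) (u ^ 2) with h3 | h3
      · exact (part1 W (t ^ 2) hW.1 h2 le_rfl h3).trans (part2 (t ^ 2) W' le_rfl h1)
      · exact absurd hW'.2 (not_lt.2 (h3.trans h1))
    · exact part2 W W' h2 hWW

end Pool.Agent.SDL
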