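import Pool.Agent.SDL.Targets2

set_option autoImplicit false

/-!
# SDL: all lattice packings (`T_LAT`)
-/

open MeasureTheory Set Real
open scoped RealInnerProductSpace

namespace Pool.Agent.SDL

open Pool.Agent.SDC

theorem norm_sub_iff_LAT (z w : E3) : ‖z‖ ≤ ‖z - w‖ ↔ ⟪z, w⟫ ≤ ‖w‖ ^ 2 / 2 := by
  have h := norm_sub_sq_real z w
  have h1 := norm_nonneg z
  have h2 := norm_nonneg (z - w)
  constructor
  · intro h3
    nlinarith
  · intro h3
    by_contra h4
    push Not at h4
    nlinarith

theorem sum_image_LAT {ι : Type} [DecidableEq ι] [DecidableEq E3] (T : Finset ι) (g : ι → E3)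
    (f : E3 → ℝ) (hf : ∀ y, 0 ≤ f y) : ∑ y ∈ T.image g, f y ≤ ∑ A ∈ T, f (g A) := by
  rw [Finset.sum_comp f g]
  apply Finset.sum_le_sum
  intro y hy
  obtain ⟨A, hA, hAy⟩ := Finset.mem_image.mp hy
  have h1 : 1 ≤ (T.filter (fun a => g a = y)).card :=
    Finset.card_pos.mpr ⟨A, Finset.mem_filter.mpr ⟨hA, hAy⟩⟩
  rw [nsmul_eq_mul]
  have h2 : (1 : ℝ) ≤ ((T.filter (fun a => g a = y)).card : ℝ) := by exact_mod_cast h1
  have h3 := hf y
  nlinarith

theorem p_LAT (hvx : T_VX) (hosb : T_OSB) (hlvc : T_LVC) (hlwt : T_LWT) (hlrk : T_LRK) :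
    T_LAT := by
  classical
  intro L hL a c hc r hr
  by_cases hs : Submodule.span ℝ (L : Set E3) = ⊤
  · obtain ⟨v, hv, hob⟩ := hosb L hL hs
    obtain ⟨hw0, hw⟩ := hlwt L v hv hL hs
    set T := (Finset.univ : Finset (Finset (Fin 4))).filter
      (fun A => A ≠ ∅ ∧ A ≠ Finset.univ) with hT
    have hmem : ∀ A : Finset (Fin 4), ∑ i ∈ A, v i ∈ L := fun A =>
      sum_mem fun i _ => hv.1 i
    refine hvx {x | x - a ∈ L} ?_ c hc (T.image fun A => c + ∑ i ∈ A, v i) ?_ ?_ ?_ ?_ r hr
    · intro x hx y hy hxy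
      rw [dist_eq_norm]
      apply hL _ _ (sub_ne_zero.mpr hxy)
      have h1 : x - y = (x - a) - (y - a) := by abel
      rw [h1]
      exact L.sub_mem hx hy
    · intro y hy
      obtain ⟨A, _, hA⟩ := Finset.mem_image.mp hy
      change y - a ∈ L
      have h1 : y - a = (c - a) + ∑ i ∈ A, v i := by
        rw [← hA]
        abel
      rw [h1]
      exact L.add_mem hc (hmem A)
    · intro h
      obtain ⟨A, hA, hA2⟩ := Finset.mem_image.mp h
      have h1 := (Finset.mem_filter.mp hA).2
      apply hw0 A h1.1 h1.2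
      have h2 : c + ∑ i ∈ A, v i = c + 0 := by rw [hA2, add_zero]
      exact add_left_cancel h2
    · refine le_trans (sum_image_LAT T (fun A => c + ∑ i ∈ A, v i)
        (fun y => max (wt (dist y c / 2)) 0) (fun y => le_max_right _ _)) ?_
      refine le_trans (le_of_eq ?_) hw
      apply Finset.sum_congr rfl
      intro A _
      have h1 : dist (c + ∑ i ∈ A, v i) c = ‖∑ i ∈ A, v i‖ := by
        rw [dist_eq_norm, add_sub_cancel_left]
      simp only [h1]
    · intro x _ hx y hy
      have hyL : y - c ∈ L := by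
        have h1 : y - c = (y - a) - (c - a) := by abel
        rw [h1]
        exact L.sub_mem hy hc
      have key : ⟪x - c, y - c⟫ ≤ ‖y - c‖ ^ 2 / 2 := by
        apply hlvc L v hv hob (x - c) _ (y - c) hyL
        intro A hA1 hA2
        have h1 := hx (c + ∑ i ∈ A, v i) (Finset.mem_image.mpr
          ⟨A, Finset.mem_filter.mpr ⟨Finset.mem_univ _, hA1, hA2⟩, rfl⟩)
        rw [dist_eq_norm, dist_eq_norm] at h1
        have h2 : x - (c + ∑ i ∈ A, v i) = (x - c) - ∑ i ∈ A, v i := by abel
        rw [h2] at h1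
        exact (norm_sub_iff_LAT _ _).mp h1
      rw [dist_eq_norm, dist_eq_norm]
      have h3 : x - y = (x - c) - (y - c) := by abel
      rw [h3]
      exact (norm_sub_iff_LAT _ _).mpr key
  · have hV := hlrk L hL hs
    have hcell : {x : E3 | ∀ y ∈ {x : E3 | x - a ∈ L}, dist x c ≤ dist x y} =
        (fun x => x + (-c)) ⁻¹' {x : E3 | ∀ w ∈ L, ‖x‖ ≤ ‖x - w‖} := by
      ext x
      simp only [mem_preimage, Set.mem_ofPred_eq]
      constructor
      · intro h w hw
        have h1 : w + c - a ∈ L := by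
          have h2 : w + c - a = w + (c - a) := by abel
          rw [h2]
          exact L.add_mem hw hc
        have h3 := h (w + c) h1
        rw [dist_eq_norm, dist_eq_norm] at h3
        have h4 : x - (w + c) = x + -c - w := by abel
        rw [h4, sub_eq_add_neg x c] at h3
        exact h3
      · intro h y hy
        have hyL : y - c ∈ L := by
          have h1 : y - c = (y - a) - (c - a) := by abel
          rw [h1]
          exact L.sub_mem hy hc
        have h3 := h (y - c) hyL
        rw [dist_eq_norm, dist_eq_norm]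
        have h4 : x - y = x + -c - (y - c) := by abel
        rw [h4, sub_eq_add_neg x c]
        exact h3
    unfold Ineq
    rw [hcell, measure_preimage_add_right, hV, ENNReal.div_top]
    exact bot_le

end Pool.Agent.SDL
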