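import Pool.Agent.SDL.Targets2

set_option autoImplicit false

/-!
# SDL: target LSB (every lattice of rank three has a superbase)
-/

open MeasureTheory Set Real
open scoped RealInnerProductSpace

namespace Pool.Agent.SDL

open Pool.Agent.SDC

theorem p_LSB : T_LSB := by
  intro L hL hsp
  set M : Submodule ℤ E3 := AddSubgroup.toIntSubmodule L with hM
  have hmem : ∀ x : E3, x ∈ M ↔ x ∈ L := fun x => Iff.rfl
  have hdisc : DiscreteTopology M := by
    apply DiscreteTopology.of_forall_le_dist (r := 1) one_pos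
    intro x y hxy
    have hne : (x : E3) - y ≠ 0 := fun h => hxy (Subtype.ext (sub_eq_zero.mp h))
    have h2 := hL ((x : E3) - y) (L.sub_mem ((hmem _).1 x.2) ((hmem _).1 y.2)) hne
    have h3 : dist x y = ‖(x : E3) - y‖ := by
      rw [← dist_eq_norm]; rfl
    rw [h3]; linarith
  have hZ : IsZLattice ℝ M := ⟨hsp⟩
  have hfree : Module.Free ℤ M := ZLattice.module_free ℝ M
  have hfin : Module.Finite ℤ M := ZLattice.module_finite ℝ M
  have hr : Module.finrank ℤ M = 3 := by
    rw [ZLattice.rank ℝ M]; simp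
  let b := Module.finBasisOfFinrankEq ℤ M hr
  refine ⟨![(b 0 : E3), b 1, b 2, -(b 0 : E3) - b 1 - b 2], ?_, ?_, ?_⟩
  · have h : ∀ j, ((b j : M) : E3) ∈ L := fun j => (hmem _).1 (b j).2
    intro i
    fin_cases i
    · exact h 0
    · exact h 1
    · exact h 2
    · exact L.sub_mem (L.sub_mem (L.neg_mem (h 0)) (h 1)) (h 2)
  · simp [Fin.sum_univ_four]
  · intro w hw
    have hs := b.sum_repr ⟨w, (hmem w).2 hw⟩
    have hs2 := congrArg (Subtype.val) hs
    refine ⟨![b.repr ⟨w, (hmem w).2 hw⟩ 0, b.repr ⟨w, (hmem w).2 hw⟩ 1,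
      b.repr ⟨w, (hmem w).2 hw⟩ 2, 0], ?_⟩
    rw [Fin.sum_univ_three] at hs2
    simp only [Fin.sum_univ_four, Matrix.cons_val]
    simpa using hs2.symm

end Pool.Agent.SDL
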