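import Pool.Agent.SDL.Targets2

set_option autoImplicit false

/-!
# SDL: the target LVC
-/

open MeasureTheory Set Real
open scoped RealInnerProductSpace

namespace Pool.Agent.SDL

open Pool.Agent.SDC

theorem lvc_inner (v : Fin 4 → E3) (hs : ∑ i, v i = 0)
    (ho : ∀ i j, i ≠ j → ⟪v i, v j⟫ ≤ 0) (b : Fin 4 → ℕ) :
    0 ≤ ⟪∑ i, ((b i - 1 : ℕ) : ℝ) • v i,
      ∑ i ∈ Finset.univ.filter (fun i => 1 ≤ b i), v i⟫ := by
  have h1 : ∑ i ∈ Finset.univ.filter (fun i => 1 ≤ b i), v i
      = - ∑ i ∈ Finset.univ.filter (fun i => ¬ 1 ≤ b i), v i := by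
    have h2 := Finset.sum_filter_add_sum_filter_not Finset.univ (fun i => 1 ≤ b i) v
    rw [hs] at h2
    exact eq_neg_of_add_eq_zero_left h2
  rw [h1, inner_neg_right, neg_nonneg, sum_inner]
  apply Finset.sum_nonpos
  intro i _
  rw [inner_smul_left, inner_sum]
  simp only [conj_trivial]
  by_cases hi : 1 ≤ b i
  · apply mul_nonpos_of_nonneg_of_nonpos (Nat.cast_nonneg _)
    apply Finset.sum_nonpos
    intro j hj
    apply ho
    rintro rfl
    exact (Finset.mem_filter.mp hj).2 hi
  · have h0 : b i - 1 = 0 := by omega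
    rw [h0]
    simp

theorem lvc_nat (v : Fin 4 → E3) (hs : ∑ i, v i = 0)
    (ho : ∀ i j, i ≠ j → ⟪v i, v j⟫ ≤ 0) (x : E3)
    (hx : ∀ A : Finset (Fin 4), A ≠ ∅ → A ≠ Finset.univ →
      ⟪x, ∑ i ∈ A, v i⟫ ≤ ‖∑ i ∈ A, v i‖ ^ 2 / 2) :
    ∀ (N : ℕ) (b : Fin 4 → ℕ), ∑ i, b i = N → (∃ k, b k = 0) →
      ⟪x, ∑ i, (b i : ℝ) • v i⟫ ≤ ‖∑ i, (b i : ℝ) • v i‖ ^ 2 / 2 := by
  intro N
  induction N using Nat.strong_induction_on with
  | _ N ih =>
    intro b hb hk
    obtain ⟨k, hk⟩ := hk
    by_cases hN : N = 0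
    · have h0 : ∀ i, b i = 0 := by
        intro i
        have h1 : b i ≤ ∑ i, b i := Finset.single_le_sum (f := b)
          (fun _ _ => Nat.zero_le _) (Finset.mem_univ i)
        omega
      have h2 : ∑ i, (b i : ℝ) • v i = 0 := by
        apply Finset.sum_eq_zero
        intro i _
        rw [h0 i]
        simp
      rw [h2]
      simp
    · have hA1 : Finset.univ.filter (fun i => 1 ≤ b i) ≠ ∅ := by
        intro h
        apply hN
        rw [← hb]
        apply Finset.sum_eq_zero
        intro i _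
        by_contra hi
        have h3 : i ∈ Finset.univ.filter (fun i => 1 ≤ b i) := by
          simp only [Finset.mem_filter, Finset.mem_univ, true_and]
          omega
        rw [h] at h3
        simp at h3
      have hA2 : Finset.univ.filter (fun i => 1 ≤ b i) ≠ Finset.univ := by
        intro h
        have h3 : k ∈ Finset.univ.filter (fun i => 1 ≤ b i) := by
          rw [h]
          exact Finset.mem_univ k
        have h4 := (Finset.mem_filter.mp h3).2
        omega
      obtain ⟨i0, hi0⟩ := Finset.nonempty_iff_ne_empty.mpr hA1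
      have hi1 : 1 ≤ b i0 := (Finset.mem_filter.mp hi0).2
      have hlt : ∑ i, (b i - 1) < N := by
        rw [← hb]
        apply Finset.sum_lt_sum
        · intro i _
          omega
        · exact ⟨i0, Finset.mem_univ _, by omega⟩
      have hI := ih _ hlt (fun i => b i - 1) rfl ⟨k, by rw [hk]⟩
      have hV := hx _ hA1 hA2
      have hin := lvc_inner v hs ho b
      have hw : ∑ i, (b i : ℝ) • v i = ∑ i, ((b i - 1 : ℕ) : ℝ) • v i
          + ∑ i ∈ Finset.univ.filter (fun i => 1 ≤ b i), v i := by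
        rw [Finset.sum_filter, ← Finset.sum_add_distrib]
        apply Finset.sum_congr rfl
        intro i _
        by_cases hi : 1 ≤ b i
        · rw [if_pos hi, Nat.cast_sub hi, sub_smul]
          simp
        · have h0 : b i = 0 := by omega
          rw [if_neg hi, h0]
          simp
      rw [hw, inner_add_right, norm_add_sq_real]
      linarith

theorem p_LVC : T_LVC := by
  intro L v hL ho x hx w hw
  obtain ⟨_, hs, hg⟩ := hL
  obtain ⟨a, ha⟩ := hg w hw
  obtain ⟨k, hk⟩ := Finite.exists_min a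
  have hb : w = ∑ i, (((a i - a k).toNat : ℕ) : ℝ) • v i := by
    have h1 : ∀ i, (((a i - a k).toNat : ℕ) : ℝ) • v i = a i • v i - a k • v i := by
      intro i
      have h2 : (((a i - a k).toNat : ℕ) : ℝ) = ((a i - a k : ℤ) : ℝ) := by
        have h3 : ((a i - a k).toNat : ℤ) = a i - a k :=
          Int.toNat_of_nonneg (by have := hk i; omega)
        exact_mod_cast h3
      rw [h2, ← sub_smul, Int.cast_smul_eq_zsmul]
    rw [Finset.sum_congr rfl (fun i _ => h1 i), Finset.sum_sub_distrib, ← Finset.smul_sum, hs,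
      smul_zero, sub_zero]
    exact ha
  rw [hb]
  exact lvc_nat v hs ho x hx _ _ rfl ⟨k, by simp⟩

end Pool.Agent.SDL
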