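import Pool.Agent.SDL.Targets2

set_option autoImplicit false

namespace Pool.Agent.SDL

open Pool.Agent.SDC

theorem lwt_ne_zero (L : AddSubgroup E3) (v : Fin 4 → E3) (hSB : SB L v)
    (hspan : Submodule.span ℝ (L : Set E3) = ⊤) (A : Finset (Fin 4)) (hA : A ≠ ∅)
    (hA' : A ≠ Finset.univ) : ∑ i ∈ A, v i ≠ 0 := by
  intro h0
  obtain ⟨i, hi⟩ := Finset.nonempty_iff_ne_empty.mpr hA
  obtain ⟨j, hj⟩ : ∃ j, j ∉ A := by
    by_contra hcon
    push Not at hcon
    exact hA' (Finset.eq_univ_iff_forall.mpr hcon)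
  have hij : j ≠ i := fun h => hj (h ▸ hi)
  obtain ⟨_, hsum, hgen⟩ := hSB
  set T : Finset E3 := ((Finset.univ.erase i).erase j).image v with hT
  have hcard : T.card ≤ 2 := by
    refine le_trans Finset.card_image_le ?_
    rw [Finset.card_erase_of_mem (Finset.mem_erase.mpr ⟨hij, Finset.mem_univ j⟩),
      Finset.card_erase_of_mem (Finset.mem_univ i)]
    simp
  set P := Submodule.span ℝ (T : Set E3) with hP
  have hk : ∀ k, k ≠ i → k ≠ j → v k ∈ P := by
    intro k h1 h2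
    apply Submodule.subset_span
    rw [hT, Finset.coe_image]
    exact ⟨k, by simp [h1, h2], rfl⟩
  have hvi : v i ∈ P := by
    have h1 := Finset.add_sum_erase A v hi
    rw [h0] at h1
    have h2 : v i = -∑ x ∈ A.erase i, v x := eq_neg_of_add_eq_zero_left h1
    rw [h2]
    refine P.neg_mem (P.sum_mem fun k hkA => ?_)
    obtain ⟨h3, h4⟩ := Finset.mem_erase.mp hkA
    exact hk k h3 fun h => hj (h ▸ h4)
  have hvj : v j ∈ P := by
    have hc : ∑ x ∈ Aᶜ, v x = 0 := by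
      have h1 := Finset.sum_add_sum_compl A v
      rw [h0, hsum, zero_add] at h1
      exact h1
    have hj' : j ∈ Aᶜ := Finset.mem_compl.mpr hj
    have h1 := Finset.add_sum_erase Aᶜ v hj'
    rw [hc] at h1
    have h2 : v j = -∑ x ∈ Aᶜ.erase j, v x := eq_neg_of_add_eq_zero_left h1
    rw [h2]
    refine P.neg_mem (P.sum_mem fun k hkA => ?_)
    obtain ⟨h3, h4⟩ := Finset.mem_erase.mp hkA
    exact hk k (fun h => (Finset.mem_compl.mp h4) (h ▸ hi)) h3
  have hall : ∀ k, v k ∈ P := by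
    intro k
    by_cases h1 : k = i
    · rw [h1]; exact hvi
    · by_cases h2 : k = j
      · rw [h2]; exact hvj
      · exact hk k h1 h2
  have htop : (⊤ : Submodule ℝ E3) ≤ P := by
    rw [← hspan]
    refine Submodule.span_le.mpr fun w hw => ?_
    obtain ⟨a, rfl⟩ := hgen w hw
    exact P.sum_mem fun k _ => P.toAddSubgroup.zsmul_mem (hall k) (a k)
  have hPtop : P = ⊤ := top_le_iff.mp htop
  have hfin : Module.finrank ℝ P ≤ T.card := finrank_span_finset_le_card T
  rw [hPtop, finrank_top] at hfin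
  have h3 : Module.finrank ℝ E3 = 3 := by simp [E3]
  omega

theorem lwt_sum (F : Finset (Fin 4) → ℝ) :
    ∑ A ∈ (Finset.univ : Finset (Finset (Fin 4))).filter (fun A => A ≠ ∅ ∧ A ≠ Finset.univ),
      F A = F {0} + F {1} + F {2} + F {3} + F {0, 1} + F {0, 2} + F {0, 3} + F {0, 1}ᶜ
        + F {0, 2}ᶜ + F {0, 3}ᶜ + F {0}ᶜ + F {1}ᶜ + F {2}ᶜ + F {3}ᶜ := by
  have h : (Finset.univ : Finset (Finset (Fin 4))).filter (fun A => A ≠ ∅ ∧ A ≠ Finset.univ)
      = {{0}, {1}, {2}, {3}, {0, 1}, {0, 2}, {0, 3}, {0, 1}ᶜ, {0, 2}ᶜ, {0, 3}ᶜ, {0}ᶜ, {1}ᶜ,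
        {2}ᶜ, {3}ᶜ} := by decide
  rw [h]
  repeat rw [Finset.sum_insert (by decide)]
  rw [Finset.sum_singleton]
  ring

theorem p_LWT (hwt : T_WT) : T_LWT := by
  intro L v hSB hmin hspan
  have hne := lwt_ne_zero L v hSB hspan
  refine ⟨hne, ?_⟩
  obtain ⟨hL, hsum, _⟩ := hSB
  obtain ⟨_, _, hanti, _, _, _, hch⟩ := hwt
  rw [lwt_sum]
  have hn : ∀ A : Finset (Fin 4), A ≠ ∅ → A ≠ Finset.univ → 4 ≤ ‖∑ i ∈ A, v i‖ ^ 2 := by
    intro A h1 h2
    have h3 := hmin _ (L.sum_mem fun i _ => hL i) (hne A h1 h2)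
    nlinarith
  have hc : ∀ A : Finset (Fin 4), ‖∑ i ∈ Aᶜ, v i‖ = ‖∑ i ∈ A, v i‖ := by
    intro A
    have h1 := Finset.sum_add_sum_compl A v
    rw [hsum] at h1
    rw [← norm_neg, eq_neg_of_add_eq_zero_left h1]
  have hf : ∀ A : Finset (Fin 4), A ≠ ∅ → A ≠ Finset.univ →
      max (wt (‖∑ i ∈ A, v i‖ / 2)) 0 ≤ max ((8 - ‖∑ i ∈ A, v i‖ ^ 2) / 4) 0 := by
    intro A h1 h2
    have h4 := hn A h1 h2
    set n := ‖∑ i ∈ A, v i‖ with hnd
    have hn0 : 0 ≤ n := norm_nonneg _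
    by_cases h8 : n ^ 2 ≤ 8
    · have h5 := hch (n ^ 2) h4 h8
      rw [Real.sqrt_sq hn0] at h5
      exact max_le_max h5 le_rfl
    · push Not at h8
      have h5 : wt (n / 2) ≤ 0 := by
        have h6 := hch 8 (by norm_num) le_rfl
        have h7 : √8 ≤ n := Real.sqrt_le_iff.mpr ⟨hn0, h8.le⟩
        have h9 := hanti (√8 / 2) (n / 2) (by positivity) (by linarith)
        linarith
      exact max_le (h5.trans (le_max_right _ _)) (le_max_right _ _)
  have hf1 : ∀ A : Finset (Fin 4), A ≠ ∅ → A ≠ Finset.univ →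
      max (wt (‖∑ i ∈ A, v i‖ / 2)) 0 ≤ 1 := by
    intro A h1 h2
    refine (hf A h1 h2).trans (max_le ?_ zero_le_one)
    have := hn A h1 h2
    linarith
  simp only [hc]
  have e0 := hf1 {0} (by decide) (by decide)
  have e1 := hf1 {1} (by decide) (by decide)
  have e2 := hf1 {2} (by decide) (by decide)
  have e3 := hf1 {3} (by decide) (by decide)
  have g1 := hf {0, 1} (by decide) (by decide)
  have g2 := hf {0, 2} (by decide) (by decide)
  have g3 := hf {0, 3} (by decide) (by decide)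
  have k1 := hf1 {0, 1} (by decide) (by decide)
  have k2 := hf1 {0, 2} (by decide) (by decide)
  have k3 := hf1 {0, 3} (by decide) (by decide)
  have hN : 16 ≤ ‖∑ i ∈ ({0, 1} : Finset (Fin 4)), v i‖ ^ 2
      + ‖∑ i ∈ ({0, 2} : Finset (Fin 4)), v i‖ ^ 2
      + ‖∑ i ∈ ({0, 3} : Finset (Fin 4)), v i‖ ^ 2 := by
    have n0 := hn {0} (by decide) (by decide)
    have n1 := hn {1} (by decide) (by decide)
    have n2 := hn {2} (by decide) (by decide)
    have n3 := hn {3} (by decide) (by decide)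
    rw [Finset.sum_singleton] at n0 n1 n2 n3
    rw [Finset.sum_pair (by decide), Finset.sum_pair (by decide), Finset.sum_pair (by decide)]
    rw [norm_add_sq_real, norm_add_sq_real, norm_add_sq_real]
    have h1 : inner ℝ (v 0) (v 1) + inner ℝ (v 0) (v 2) + inner ℝ (v 0) (v 3)
        = -‖v 0‖ ^ 2 := by
      rw [← inner_add_right, ← inner_add_right]
      have h2 : v 1 + v 2 + v 3 = -v 0 := by
        rw [Fin.sum_univ_four] at hsum
        rw [eq_neg_iff_add_eq_zero, ← hsum]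
        abel
      rw [h2, inner_neg_right, real_inner_self_eq_norm_sq]
    linarith
  have hS : max (wt (‖∑ i ∈ ({0, 1} : Finset (Fin 4)), v i‖ / 2)) 0
      + max (wt (‖∑ i ∈ ({0, 2} : Finset (Fin 4)), v i‖ / 2)) 0
      + max (wt (‖∑ i ∈ ({0, 3} : Finset (Fin 4)), v i‖ / 2)) 0 ≤ 2 := by
    generalize ‖∑ i ∈ ({0, 1} : Finset (Fin 4)), v i‖ = n1 at *
    generalize ‖∑ i ∈ ({0, 2} : Finset (Fin 4)), v i‖ = n2 at *
    generalize ‖∑ i ∈ ({0, 3} : Finset (Fin 4)), v i‖ = n3 at *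
    generalize max (wt (n1 / 2)) 0 = m1 at *
    generalize max (wt (n2 / 2)) 0 = m2 at *
    generalize max (wt (n3 / 2)) 0 = m3 at *
    rcases le_total (n1 ^ 2) 8 with a | a
    · rcases le_total (n2 ^ 2) 8 with b | b
      · rcases le_total (n3 ^ 2) 8 with c | c
        · have r1 : max ((8 - n1 ^ 2) / 4) 0 = (8 - n1 ^ 2) / 4 := max_eq_left (by linarith)
          have r2 : max ((8 - n2 ^ 2) / 4) 0 = (8 - n2 ^ 2) / 4 := max_eq_left (by linarith)
          have r3 : max ((8 - n3 ^ 2) / 4) 0 = (8 - n3 ^ 2) / 4 := max_eq_left (by linarith)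
          rw [r1] at g1
          rw [r2] at g2
          rw [r3] at g3
          linarith
        · have r3 : max ((8 - n3 ^ 2) / 4) 0 = 0 := max_eq_right (by linarith)
          rw [r3] at g3
          linarith
      · have r2 : max ((8 - n2 ^ 2) / 4) 0 = 0 := max_eq_right (by linarith)
        rw [r2] at g2
        linarith
    · have r1 : max ((8 - n1 ^ 2) / 4) 0 = 0 := max_eq_right (by linarith)
      rw [r1] at g1
      linarith
  linarith

end Pool.Agent.SDL
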