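import Pool.Agent.SDL.Targets

set_option autoImplicit false

/-!
# SDL target MU
-/

open MeasureTheory Set Real
open scoped RealInnerProductSpace

namespace Pool.Agent.SDL

open Pool.Agent.SDC

/-- The quotient of the square roots. -/
theorem mu_aux (a b P : ℝ) (ha : 0 < a) (hb : 0 < b) (hP : 0 < P) :
    √(max (a * P) 0) ^ 3 / √(b * P) = √(a / b) ^ 3 * (b * P) := by
  rw [max_eq_left (mul_pos ha hP).le]
  have h1 : a * P = (a / b) * (b * P) := by field_simp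
  rw [h1, Real.sqrt_mul (div_pos ha hb).le]
  have h2 : 0 < √(b * P) := Real.sqrt_pos.mpr (mul_pos hb hP)
  have h3 : √(b * P) ^ 2 = b * P := Real.sq_sqrt (mul_pos hb hP).le
  rw [div_eq_iff h2.ne']
  calc (√(a / b) * √(b * P)) ^ 3 = √(a / b) ^ 3 * √(b * P) ^ 2 * √(b * P) := by ring
    _ = √(a / b) ^ 3 * (b * P) * √(b * P) := by rw [h3]

theorem le_of_sq_le_sq_aux {a b : ℝ} (h : a ^ 2 ≤ b ^ 2) (hb : 0 ≤ b) : a ≤ b := by
  by_contra hc
  push Not at hc
  nlinarith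

/-- The inequality of the slopes. -/
theorem mu_slope (k q : ℝ) (hk0 : 0 ≤ k) (hk1 : k ≤ 1) (hq0 : 0 ≤ q) (hq1 : q < 1) :
    2 * R ^ 2 * q ^ 2 * (k - q) ≤ (1 - q ^ 2) * (k * W0 + q ^ 3 * (R ^ 2 - W0)) := by
  have hA0 : 0 < R ^ 2 - W0 := by
    rw [RW_eq]
    exact mul_pos (by linarith only [s2_lo]) (by linarith only [R_sq_lo])
  have hA6 : 6 * (R ^ 2 - W0) ≤ R ^ 2 := by
    rw [RW_eq]
    have h1 := mul_le_mul s2_hi.le (show R ^ 2 - 1 ≤ 0.5835926 by linarith only [R_sq_hi])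
      (by linarith only [R_sq_lo]) (by norm_num)
    norm_num at h1
    linarith only [h1, R_sq_lo]
  obtain ⟨A, hA⟩ : ∃ A, A = R ^ 2 - W0 := ⟨_, rfl⟩
  have hW : W0 = R ^ 2 - A := by rw [hA]; ring
  rw [← hA] at hA0 hA6 ⊢
  rw [hW]
  obtain ⟨r, hr⟩ : ∃ r, r = R ^ 2 := ⟨_, rfl⟩
  rw [← hr] at hA6 ⊢
  have hq2 : q ^ 2 ≤ 1 := pow_le_one₀ hq0 hq1.le
  have hq3 : q ^ 3 ≤ 1 := pow_le_one₀ hq0 hq1.le
  have hr0 : 0 < r := by linarith
  -- `k = 0`
  have f0 : 0 ≤ (1 - q ^ 2) * (q ^ 3 * A) + 2 * r * q ^ 2 * q := by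
    have h1 : 0 ≤ 1 - q ^ 2 := by linarith
    positivity
  -- `k = 1`
  have f1 : 0 ≤ (1 - q) ^ 2 * (r * (1 + 2 * q) - A * ((1 + q) * (1 + q + q ^ 2))) := by
    apply mul_nonneg (by positivity)
    have h6 : (1 + q) * (1 + q + q ^ 2) ≤ 6 * (1 + 2 * q) := by
      linarith only [hq0, hq2, hq3]
    have h7 : A * ((1 + q) * (1 + q + q ^ 2)) ≤ A * (6 * (1 + 2 * q)) :=
      mul_le_mul_of_nonneg_left h6 hA0.le
    have h8 : 6 * A * (1 + 2 * q) ≤ r * (1 + 2 * q) :=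
      mul_le_mul_of_nonneg_right hA6 (by linarith only [hq0])
    linarith only [h7, h8]
  have e : (1 - q ^ 2) * (k * (r - A) + q ^ 3 * A) - 2 * r * q ^ 2 * (k - q) =
      (1 - k) * ((1 - q ^ 2) * (q ^ 3 * A) + 2 * r * q ^ 2 * q) +
      k * ((1 - q) ^ 2 * (r * (1 + 2 * q) - A * ((1 + q) * (1 + q + q ^ 2)))) := by
    ring
  have g0 := mul_nonneg (by linarith : (0 : ℝ) ≤ 1 - k) f0
  have g1 := mul_nonneg hk0 f1
  linarith

/-- MU. -/
theorem p_MU : T_MU := by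
  intro t κ h U hh1 hht htR hκ0 hκ1 hU0 hUsq
  have hR := R_pos
  have ht1 : 1 < t := lt_of_le_of_lt hh1 hht
  have hA : 0 < t ^ 2 - 1 := by nlinarith only [ht1]
  obtain ⟨m, hm⟩ : ∃ m, m = (R ^ 2 - 1) / (t ^ 2 - 1) := ⟨_, rfl⟩
  have hm1 : m * (t ^ 2 - 1) = R ^ 2 - 1 := by
    rw [hm]
    field_simp
  have htR2 : t ^ 2 < R ^ 2 := pow_lt_pow_left₀ htR (by linarith only [ht1]) two_ne_zero
  have hmgt : 1 < m := by
    by_contra hle
    push Not at hle
    have h1 := mul_le_mul_of_nonneg_right hle hA.le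
    linarith only [h1, hm1, htR2]
  have hU2 : U ^ 2 = h ^ 2 + m * (t ^ 2 - h ^ 2) := by
    rw [hUsq, hm]
    ring
  have hp : 0 < t ^ 2 - h ^ 2 := by nlinarith only [hht, hh1]
  have hx : 0 ≤ h ^ 2 - 1 := by nlinarith only [hh1]
  have hUR : U ^ 2 = R ^ 2 - (m - 1) * (h ^ 2 - 1) := by
    rw [hU2]
    linear_combination hm1
  have htU : t < U := by
    have h1 : t ^ 2 < U ^ 2 := by
      rw [hU2]
      have h2 := mul_pos (sub_pos.2 hmgt) hp
      linarith only [h2]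
    exact lt_of_pow_lt_pow_left₀ 2 hU0.le h1
  have hUleR : U ≤ R := by
    have h1 : U ^ 2 ≤ R ^ 2 := by
      rw [hUR]
      have h2 := mul_nonneg (sub_nonneg.2 hmgt.le) hx
      linarith only [h2]
    exact le_of_sq_le_sq_aux h1 hR.le
  refine ⟨htU, hUleR, ?_⟩
  have hs2 : 0 < s2 := by linarith [s2_lo]
  have hc2 : 0 < c2 := by linarith [c2_lo]
  have hm0 : 0 < m := by linarith
  have hW : h ^ 2 * s2 + U ^ 2 * c2 = h ^ 2 + c2 * m * (t ^ 2 - h ^ 2) := by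
    rw [hU2]
    linear_combination h ^ 2 * s2_add_c2
  have hW0 : W0 = 1 + c2 * m * (t ^ 2 - 1) := by
    rw [W0_sc]
    linear_combination s2_add_c2 - c2 * hm1
  have e1 : t ^ 2 - (h ^ 2 + c2 * m * (t ^ 2 - h ^ 2)) = (1 - c2 * m) * (t ^ 2 - h ^ 2) := by
    ring
  have e2 : U ^ 2 - (h ^ 2 + c2 * m * (t ^ 2 - h ^ 2)) = s2 * m * (t ^ 2 - h ^ 2) := by
    rw [hU2]
    linear_combination (- m * (t ^ 2 - h ^ 2)) * s2_add_c2
  have e3 : t ^ 2 - W0 = (1 - c2 * m) * (t ^ 2 - 1) := by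
    rw [hW0]
    ring
  have e4 : R ^ 2 - W0 = s2 * m * (t ^ 2 - 1) := by
    rw [RW_eq]
    linear_combination (- s2) * hm1
  have hk0 : 0 ≤ 1 - κ := by linarith
  rw [hW]
  unfold ggu
  rw [e1, e2, e3, e4]
  by_cases hc : 1 - c2 * m ≤ 0
  · rw [max_eq_right (mul_nonpos_of_nonpos_of_nonneg hc hp.le),
      max_eq_right (mul_nonpos_of_nonpos_of_nonneg hc hA.le)]
    have hz : √(0 : ℝ) ^ 3 = 0 := by
      rw [Real.sqrt_zero]
      norm_num
    rw [hz, zero_div, zero_div, add_zero, add_zero]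
    have hWle : h ^ 2 + c2 * m * (t ^ 2 - h ^ 2) ≤ W0 := by
      rw [hW0]
      have h2 := mul_nonpos_of_nonpos_of_nonneg hc hx
      linarith only [h2]
    have hWp : 0 ≤ h ^ 2 + c2 * m * (t ^ 2 - h ^ 2) := by positivity
    have h1 : (1 - κ) * (h ^ 2 + c2 * m * (t ^ 2 - h ^ 2)) ≤ (1 - κ) * W0 :=
      mul_le_mul_of_nonneg_left hWle hk0
    exact mul_le_mul hUleR h1 (mul_nonneg hk0 hWp) hR.le
  · push Not at hc
    have hsm : 0 < s2 * m := mul_pos hs2 hm0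
    rw [mu_aux _ _ _ hc hsm hp, mu_aux _ _ _ hc hsm hA]
    obtain ⟨q, hq⟩ : ∃ q, q = √((1 - c2 * m) / (s2 * m)) := ⟨_, rfl⟩
    have hq0 : 0 ≤ q := by
      rw [hq]
      exact Real.sqrt_nonneg _
    have hq2 : q ^ 2 * (s2 * m) = 1 - c2 * m := by
      rw [hq, Real.sq_sqrt (div_pos hc hsm).le]
      field_simp
    have hq1 : q < 1 := by
      by_contra hle
      push Not at hle
      have h1 : 1 ≤ q ^ 2 := one_le_pow₀ hle
      have h2 : s2 * m ≤ 1 - c2 * m := by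
        rw [← hq2]
        exact le_mul_of_one_le_left hsm.le h1
      have h3 : (s2 + c2) * m ≤ 1 := by linarith
      rw [s2_add_c2] at h3
      linarith
    rw [← hq]
    have hW0p : 0 < W0 := by
      rw [hW0]
      positivity
    obtain ⟨n1, hn1⟩ : ∃ n1, n1 = (1 - κ) * W0 + q ^ 3 * (s2 * m * (t ^ 2 - 1)) := ⟨_, rfl⟩
    obtain ⟨n', hn'⟩ : ∃ n', n' = (1 - κ) * (1 - c2 * m) - q ^ 3 * (s2 * m) := ⟨_, rfl⟩
    have hn1p : 0 ≤ n1 := by
      rw [hn1]
      positivity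
    have hNy : (1 - κ) * (h ^ 2 + c2 * m * (t ^ 2 - h ^ 2)) +
        q ^ 3 * (s2 * m * (t ^ 2 - h ^ 2)) = n1 + n' * (h ^ 2 - 1) := by
      rw [hn1, hn', hW0]
      ring
    have hNyp : 0 ≤ (1 - κ) * (h ^ 2 + c2 * m * (t ^ 2 - h ^ 2)) +
        q ^ 3 * (s2 * m * (t ^ 2 - h ^ 2)) := by positivity
    rw [hNy] at hNyp ⊢
    rw [← hn1]
    rcases le_or_gt n' 0 with hneg | hpos
    · have h1 : n1 + n' * (h ^ 2 - 1) ≤ n1 := by
        linarith only [mul_nonpos_of_nonpos_of_nonneg hneg hx]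
      exact mul_le_mul hUleR h1 hNyp hR.le
    · -- the slope inequality
      have hn'q : n' = s2 * m * (q ^ 2 * ((1 - κ) - q)) := by
        rw [hn', ← hq2]
        ring
      have hmm : m - 1 = s2 * m * (1 - q ^ 2) := by
        have h5 : s2 * m * (1 - q ^ 2) = s2 * m - q ^ 2 * (s2 * m) := by ring
        rw [h5, hq2]
        linear_combination (-m) * s2_add_c2
      have hstar : 2 * R ^ 2 * n' ≤ (m - 1) * n1 := by
        have h6 := mu_slope (1 - κ) q hk0 (by linarith) hq0 hq1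
        rw [e4] at h6
        rw [hn'q, hmm, hn1]
        have h7 := mul_le_mul_of_nonneg_left h6 hsm.le
        linarith only [h7]
      have hn1pos : 0 < n1 := by
        rcases hn1p.lt_or_eq with h8 | h8
        · exact h8
        · exfalso
          rw [← h8, mul_zero] at hstar
          have : 0 < R ^ 2 * n' := by positivity
          linarith
      obtain ⟨ν, hν⟩ : ∃ ν, ν = n' / n1 := ⟨_, rfl⟩
      have hν0 : 0 < ν := by
        rw [hν]
        exact div_pos hpos hn1pos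
      have hνn : n' = ν * n1 := by
        rw [hν]
        field_simp
      have hm2 : 2 * R ^ 2 * ν ≤ m - 1 := by
        rw [hνn] at hstar
        have h9 : (2 * R ^ 2 * ν) * n1 ≤ (m - 1) * n1 := by linarith
        exact le_of_mul_le_mul_right h9 hn1pos
      obtain ⟨x, hx'⟩ : ∃ x, x = h ^ 2 - 1 := ⟨_, rfl⟩
      rw [← hx'] at hx hUR hNyp ⊢
      have hfac : n1 + n' * x = n1 * (1 + ν * x) := by
        rw [hνn]
        ring
      rw [hfac]
      have hνx : 0 ≤ ν * x := by positivity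
      have hU3 : U ^ 2 ≤ R ^ 2 * (1 - 2 * (ν * x)) := by
        rw [hUR]
        have := mul_le_mul_of_nonneg_right hm2 hx
        linarith only [this]
      have hsq : (U * (1 + ν * x)) ^ 2 ≤ R ^ 2 := by
        have h10 : (U * (1 + ν * x)) ^ 2 = U ^ 2 * (1 + ν * x) ^ 2 := by ring
        rw [h10]
        have h11 : U ^ 2 * (1 + ν * x) ^ 2 ≤ R ^ 2 * (1 - 2 * (ν * x)) * (1 + ν * x) ^ 2 :=
          mul_le_mul_of_nonneg_right hU3 (by positivity)
        have h12 : (1 - 2 * (ν * x)) * (1 + ν * x) ^ 2 ≤ 1 := by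
          have h13 : (1 - 2 * (ν * x)) * (1 + ν * x) ^ 2 =
              1 - 3 * (ν * x) ^ 2 - 2 * (ν * x) ^ 3 := by ring
          rw [h13]
          have : 0 ≤ (ν * x) ^ 3 := by positivity
          linarith only [sq_nonneg (ν * x), this]
        have h14 : R ^ 2 * (1 - 2 * (ν * x)) * (1 + ν * x) ^ 2 =
            R ^ 2 * ((1 - 2 * (ν * x)) * (1 + ν * x) ^ 2) := by ring
        rw [h14] at h11
        have h15 : R ^ 2 * ((1 - 2 * (ν * x)) * (1 + ν * x) ^ 2) ≤ R ^ 2 * 1 :=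
          mul_le_mul_of_nonneg_left h12 (by positivity)
        linarith
      have hle : U * (1 + ν * x) ≤ R := le_of_sq_le_sq_aux hsq hR.le
      calc U * (n1 * (1 + ν * x)) = (U * (1 + ν * x)) * n1 := by ring
        _ ≤ R * n1 := mul_le_mul_of_nonneg_right hle hn1p

end Pool.Agent.SDL
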