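import Pool.Agent.SDL.Targets2

/-!
# SDL, target MX1: the main inequality in the irredundant case
-/

set_option autoImplicit false

open MeasureTheory Set Real
open scoped RealInnerProductSpace

namespace Pool.Agent.SDL

open Pool.Agent.SDC

theorem p_MX1 (hfbd : T_FBD) : T_MX1 := by
  intro ι _ n h hP hI hW t ht1 htR
  obtain ⟨hn, hh, -⟩ := id hP
  have h0 : ∀ i, 0 < h i := fun i => lt_of_lt_of_le one_pos (hh i)
  have ht0 : 0 < t := lt_of_lt_of_le one_pos ht1
  choose e f hef using fun i => p_ONB (n i) (hn i)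
  have hS := tSUM ι n e f h t (kap t) (bet t) RO h0 (MA1_inj hI) hef ht0
    (htR.le.trans R_lt_RO.le)
  obtain ⟨hβ, hG⟩ := tBET t ht1 htR
  have hbr := MA1_bracket ht0.le htR hG
  have hR := R_pos
  have hR3 : 0 < R ^ 3 := by positivity
  have ht3 : 0 < t ^ 3 := by positivity
  have hk1 : 0 ≤ 1 - kap t := by
    by_contra hneg
    have h1 : (1 - kap t) * R ^ 3 < 0 := mul_neg_of_neg_of_pos (not_le.1 hneg) hR3
    linarith
  have hRR : R ^ 3 ≤ RO ^ 3 := pow_le_pow_left₀ hR.le R_lt_RO.le 3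
  have hbr' : 0 ≤ (1 - kap t) * RO ^ 3 - t ^ 3 - bet t := by
    have h1 := mul_le_mul_of_nonneg_left hRR hk1
    linarith
  have hfac : ∑ i, -(π / 3 * bet t * max (wt (h i)) 0) ≤
      ∑ i, ∫ w in {w | w ∈ Qs n h i (e i) (f i) ∧ h i * cc (nr w) < RO},
        G t (kap t) (bet t) (h i) (nr w) :=
    Finset.sum_le_sum fun i _ => hfbd ι n h i (e i) (f i) t hP hI (hef i) ht1 htR
  have hsum : ∑ i, -(π / 3 * bet t * max (wt (h i)) 0) =
      -(π / 3 * bet t * ∑ i, max (wt (h i)) 0) := by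
    rw [Finset.sum_neg_distrib, ← Finset.mul_sum]
  have hc : 0 ≤ π / 3 * bet t := by positivity
  have h12 : π / 3 * bet t * ∑ i, max (wt (h i)) 0 ≤ π / 3 * bet t * 12 :=
    mul_le_mul_of_nonneg_left hW hc
  have hlast : 0 ≤ 3 * (volume (Metric.closedBall (0 : E3) 1 ∩ Cinf n h RO)).toReal *
      ((1 - kap t) * RO ^ 3 - t ^ 3 - bet t) :=
    mul_nonneg (mul_nonneg (by norm_num) ENNReal.toReal_nonneg) hbr'
  rw [hsum] at hfac
  linarith

end Pool.Agent.SDL
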