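import Pool.Agent.SDL.Targets2

set_option autoImplicit false

open MeasureTheory Set Real
open scoped RealInnerProductSpace

namespace Pool.Agent.SDL

open Pool.Agent.SDC

theorem p_MX3 (hmx1 : T_MX1) : T_MX3 := by
  intro ι _ n h hP hsum K hK t ht
  obtain ⟨⟨hD0, hDt⟩, hkR, hD⟩ := tDOD
  -- MX1 without `Irr`
  have h1 : ∀ t : ℝ, 1 ≤ t → t < R → (volume (Poly n h ∩ Metric.closedBall 0 t)).toReal ≤
      (1 - kap t) * (volume (Poly n h ∩ Metric.closedBall 0 RO)).toReal := by
    intro t ht htR
    obtain ⟨s, hs1, hs2⟩ := p_IRR ι n h (fun i => lt_of_lt_of_le one_pos (hP.2.1 i))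
    classical
    have : Fintype s := Fintype.ofFinite s
    rw [← hs1]
    apply hmx1 s (fun i : s => n i) (fun i : s => h i) ?_ hs2 ?_ t ht htR
    · exact ⟨fun i => hP.1 i, fun i => hP.2.1 i,
        fun i j hij => hP.2.2 i j (fun he => hij (Subtype.ext he))⟩
    · refine le_trans ?_ hsum
      have h2 : ∑ i ∈ s.toFinset, max (wt (h i)) 0 = ∑ i : s, max (wt (h i)) 0 :=
        Finset.sum_subtype s.toFinset (fun x => Set.mem_toFinset) (fun i => max (wt (h i)) 0)
      rw [← h2]
      exact Finset.sum_le_sum_of_subset_of_nonneg (Finset.subset_univ _)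
        (fun _ _ _ => le_max_right _ _)
  rcases le_or_gt R t with hRt | htR
  · have h3 : volume (Dod ∩ Metric.closedBall 0 t) = volume Dod := by
      apply le_antisymm (measure_mono inter_subset_left)
      have h4 := hD R R_one.le le_rfl
      rw [hkR, sub_zero, one_mul] at h4
      have h5 : volume (Dod ∩ Metric.closedBall 0 R) ≠ ⊤ :=
        ne_top_of_le_ne_top hDt (measure_mono inter_subset_left)
      rw [ENNReal.toReal_eq_toReal_iff' h5 hDt] at h4
      rw [← h4]
      exact measure_mono (inter_subset_inter_right _ (Metric.closedBall_subset_closedBall hRt))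
    rw [h3, ENNReal.div_self hD0 hDt]
    apply ENNReal.div_le_of_le_mul
    rw [one_mul]
    exact measure_mono inter_subset_left
  · have h3 := h1 t ht htR
    have h4 := hD t ht htR.le
    have hDp : 0 < (volume Dod).toReal := ENNReal.toReal_pos hD0 hDt
    have hk : 0 ≤ 1 - kap t := by
      by_contra hneg
      push Not at hneg
      have h5 : (1 - kap t) * (volume Dod).toReal < 0 := mul_neg_of_neg_of_pos hneg hDp
      have h6 : 0 ≤ (volume (Dod ∩ Metric.closedBall 0 t)).toReal := ENNReal.toReal_nonneg
      linarith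
    have h5 : volume (Dod ∩ Metric.closedBall 0 t) = ENNReal.ofReal (1 - kap t) * volume Dod := by
      have h6 : volume (Dod ∩ Metric.closedBall 0 t) ≠ ⊤ :=
        ne_top_of_le_ne_top hDt (measure_mono inter_subset_left)
      rw [← ENNReal.ofReal_toReal h6, h4, ENNReal.ofReal_mul hk, ENNReal.ofReal_toReal hDt]
    rw [h5, ENNReal.mul_div_cancel_right hD0 hDt]
    apply ENNReal.div_le_of_le_mul
    have hbt : Metric.closedBall (0 : E3) t ⊆ Metric.closedBall 0 RO :=
      Metric.closedBall_subset_closedBall (htR.le.trans R_lt_RO.le)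
    have h6 : K ∩ Metric.closedBall 0 t = Poly n h ∩ Metric.closedBall 0 t := by
      have h7 : ∀ A : Set E3, A ∩ Metric.closedBall 0 t =
          (A ∩ Metric.closedBall 0 RO) ∩ Metric.closedBall 0 t := fun A => by
        rw [inter_assoc, inter_eq_right.mpr hbt]
      rw [h7 K, hK, ← h7]
    rw [h6]
    have hfin : ∀ s : ℝ, volume (Poly n h ∩ Metric.closedBall (0 : E3) s) ≠ ⊤ := fun s =>
      ne_top_of_le_ne_top (measure_closedBall_lt_top (x := (0 : E3)) (r := s)).ne
        (measure_mono inter_subset_right)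
    calc volume (Poly n h ∩ Metric.closedBall 0 t)
        = ENNReal.ofReal (volume (Poly n h ∩ Metric.closedBall 0 t)).toReal :=
          (ENNReal.ofReal_toReal (hfin t)).symm
      _ ≤ ENNReal.ofReal ((1 - kap t) * (volume (Poly n h ∩ Metric.closedBall 0 RO)).toReal) :=
          ENNReal.ofReal_le_ofReal h3
      _ = ENNReal.ofReal (1 - kap t) * volume (Poly n h ∩ Metric.closedBall 0 RO) := by
          rw [ENNReal.ofReal_mul hk, ENNReal.ofReal_toReal (hfin RO)]
      _ ≤ ENNReal.ofReal (1 - kap t) * volume K := by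
          rw [← hK]
          gcongr
          exact inter_subset_left

end Pool.Agent.SDL
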