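import Pool.Agent.SDL.Targets2

set_option autoImplicit false

/-!
# NW: all the neighbours at distance less than `2 R`
-/

open MeasureTheory Set Real

namespace Pool.Agent.SDL

open Pool.Agent.SDC

theorem p_NW (hvx : T_VX) (hwt : T_WT) : T_NW := by
  obtain ⟨-, hR0, hanti, -⟩ := hwt
  intro X hX c hc hsum r hr
  have hfinO : {y | y ∈ X ∧ dist y c < 2 * RO}.Finite := p_FIN X hX c (2 * RO)
  set SO : Finset E3 := hfinO.toFinset.erase c with hSO
  have hmem : ∀ y, y ∈ SO ↔ y ≠ c ∧ y ∈ X ∧ dist y c < 2 * RO := by
    intro y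
    rw [hSO, Finset.mem_erase, Set.Finite.mem_toFinset]
    exact Iff.rfl
  refine hvx X hX c hc SO (fun y hy => ((hmem y).mp hy).2.1) (fun h => ((hmem c).mp h).1 rfl)
    ?_ ?_ r hr
  · classical
    have h1 : ∑ y ∈ SO, max (wt (dist y c / 2)) 0
        = ∑ y ∈ SO.filter (fun y => dist y c < 2 * R), wt (dist y c / 2) := by
      rw [Finset.sum_filter]
      refine Finset.sum_congr rfl fun y _ => ?_
      split_ifs with h
      · refine max_eq_left ?_
        have := hanti (dist y c / 2) R (by positivity) (by linarith)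
        rwa [hR0] at this
      · refine max_eq_right ?_
        have := hanti R (dist y c / 2) R_pos.le (by linarith [not_lt.mp h])
        rwa [hR0] at this
    rw [h1]
    refine hsum _ fun y hy => ?_
    rw [Finset.mem_filter, hmem] at hy
    exact ⟨hy.1.2.1, hy.1.1, hy.2⟩
  · intro x hx hS y hy
    by_cases hyc : y = c
    · rw [hyc]
    · by_cases hd : dist y c < 2 * RO
      · exact hS y ((hmem y).mpr ⟨hyc, hy, hd⟩)
      · have h1 := dist_triangle y x c
        rw [dist_comm y x] at h1
        linarith [not_lt.mp hd]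

end Pool.Agent.SDL
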