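import Pool.Agent.SDL.Targets

set_option autoImplicit false

/-!
# SDL: OMG, the solid angle of a triangle
-/

open MeasureTheory Set Real
open scoped RealInnerProductSpace

namespace Pool.Agent.SDL

open Pool.Agent.SDC

/-- The square of the denominator. -/
noncomputable def omgB (h u : ℝ) : ℝ := h ^ 2 + (u ^ 2 - h ^ 2) * c2

theorem omg_cos {ψ : ℝ} (h : ψ ∈ uIcc (0 : ℝ) (π / 5)) : 0 < cos ψ := by
  rw [uIcc_of_le (by positivity)] at h
  apply cos_pos_of_mem_Ioo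
  constructor
  · linarith [h.1, Real.pi_pos]
  · linarith [h.2, Real.pi_pos]

theorem omg_pos {h u : ℝ} (h0 : 0 < h) (hu : h < u) (ψ : ℝ) :
    0 < omgB h u - (h * sin ψ) ^ 2 := by
  have h1 : 0 < u ^ 2 - h ^ 2 := by nlinarith
  have h2 : 0 < (u ^ 2 - h ^ 2) * c2 := mul_pos h1 (by linarith [c2_lo])
  have h3 : h ^ 2 * sin ψ ^ 2 ≤ h ^ 2 * 1 :=
    mul_le_mul_of_nonneg_left (sin_sq_le_one ψ) (by positivity)
  rw [omgB, mul_pow]
  linarith

theorem omg_posB {h u : ℝ} (h0 : 0 < h) (hu : h < u) : 0 < omgB h u := by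
  have h1 := omg_pos h0 hu 0
  rw [sin_zero, mul_zero] at h1
  linarith

theorem omg_inv {h u : ℝ} (h0 : 0 < h) (hu : h < u) {ψ : ℝ} (hψ : 0 < cos ψ) :
    h / √(h ^ 2 + (u ^ 2 - h ^ 2) * (c2 / cos ψ ^ 2)) =
      h * cos ψ / √(omgB h u - (h * sin ψ) ^ 2) := by
  have h1 : h ^ 2 + (u ^ 2 - h ^ 2) * (c2 / cos ψ ^ 2) =
      (omgB h u - (h * sin ψ) ^ 2) / cos ψ ^ 2 := by
    rw [omgB, eq_div_iff (by positivity), add_mul, mul_assoc (u ^ 2 - h ^ 2),
      div_mul_cancel₀ _ (by positivity)]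
    nlinarith [sin_sq_add_cos_sq ψ]
  rw [h1, Real.sqrt_div (omg_pos h0 hu ψ).le, Real.sqrt_sq hψ.le, div_div_eq_mul_div]

theorem omg_deriv {h u : ℝ} (h0 : 0 < h) (hu : h < u) (ψ : ℝ) :
    HasDerivAt (fun x => arcsin (h * sin x / √(omgB h u)))
      (h * cos ψ / √(omgB h u - (h * sin ψ) ^ 2)) ψ := by
  have hW := omg_posB h0 hu
  have hs : 0 < √(omgB h u) := Real.sqrt_pos.mpr hW
  have hq : (h * sin ψ / √(omgB h u)) ^ 2 < 1 := by
    rw [div_pow, Real.sq_sqrt hW.le, div_lt_one hW]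
    linarith [omg_pos h0 hu ψ]
  have h1 : HasDerivAt (fun x => h * sin x / √(omgB h u)) (h * cos ψ / √(omgB h u)) ψ :=
    ((hasDerivAt_sin ψ).const_mul h).div_const _
  have h2 : HasDerivAt arcsin (1 / √(1 - (h * sin ψ / √(omgB h u)) ^ 2))
      (h * sin ψ / √(omgB h u)) := by
    apply hasDerivAt_arcsin
    · intro h3
      rw [h3] at hq
      norm_num at hq
    · intro h3
      rw [h3] at hq
      norm_num at hq
  have h3 := h2.comp ψ h1
  have h4 : 1 / √(1 - (h * sin ψ / √(omgB h u)) ^ 2) * (h * cos ψ / √(omgB h u)) =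
      h * cos ψ / √(omgB h u - (h * sin ψ) ^ 2) := by
    have h5 : 1 - (h * sin ψ / √(omgB h u)) ^ 2 =
        (omgB h u - (h * sin ψ) ^ 2) / omgB h u := by
      rw [div_pow, Real.sq_sqrt hW.le, sub_div, div_self hW.ne']
    rw [h5, Real.sqrt_div (omg_pos h0 hu ψ).le]
    have h6 : 0 < √(omgB h u - (h * sin ψ) ^ 2) := Real.sqrt_pos.mpr (omg_pos h0 hu ψ)
    field_simp
  rw [h4] at h3
  exact h3

theorem omg_cont {h u : ℝ} (h0 : 0 < h) (hu : h < u) :
    Continuous fun ψ : ℝ => h * cos ψ / √(omgB h u - (h * sin ψ) ^ 2) := by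
  apply Continuous.div
  · fun_prop
  · fun_prop
  · intro ψ
    exact (Real.sqrt_pos.mpr (omg_pos h0 hu ψ)).ne'

theorem omg_end {h u : ℝ} (h0 : 0 < h) (hu : h < u) :
    arcsin (h * sin (π / 5) / √(omgB h u)) = arctan (h * tan (π / 5) / u) := by
  have hu0 : 0 < u := h0.trans hu
  have hc := cos36_pos
  have h1 : 1 + (h * tan (π / 5) / u) ^ 2 = omgB h u / (u * cos (π / 5)) ^ 2 := by
    have h2 : omgB h u = (u * cos (π / 5)) ^ 2 + (h * sin (π / 5)) ^ 2 := by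
      rw [omgB, mul_pow, mul_pow, ← c2_eq, ← s2_eq]
      linear_combination (-(h ^ 2)) * s2_add_c2
    rw [h2, tan_eq_sin_div_cos, add_div, div_self (by positivity)]
    congr 1
    rw [← div_pow]
    congr 1
    field_simp
  rw [arctan_eq_arcsin, h1, Real.sqrt_div (omg_posB h0 hu).le, Real.sqrt_sq (by positivity),
    tan_eq_sin_div_cos]
  congr 1
  have hs : 0 < √(omgB h u) := Real.sqrt_pos.mpr (omg_posB h0 hu)
  field_simp

theorem p_OMG : T_OMG := by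
  intro h u h0 hu
  have h1 : ∫ ψ in (0 : ℝ)..(π / 5), h / √(h ^ 2 + (u ^ 2 - h ^ 2) * (c2 / cos ψ ^ 2)) =
      ∫ ψ in (0 : ℝ)..(π / 5), h * cos ψ / √(omgB h u - (h * sin ψ) ^ 2) :=
    intervalIntegral.integral_congr fun ψ hψ => omg_inv h0 hu (omg_cos hψ)
  rw [h1, intervalIntegral.integral_eq_sub_of_hasDerivAt (fun ψ _ => omg_deriv h0 hu ψ)
    ((omg_cont h0 hu).intervalIntegrable _ _), omg_end h0 hu, sin_zero, mul_zero, zero_div,
    arcsin_zero, sub_zero]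

end Pool.Agent.SDL
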