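import Pool.Agent.SDL.Targets2

set_option autoImplicit false

/-!
# SDL: target OSB (Selling: there is an obtuse superbase)
-/

open MeasureTheory Set Real
open scoped RealInnerProductSpace

namespace Pool.Agent.SDL

open Pool.Agent.SDC

theorem osb_norm (x y z t : E3) (h : x + y + z + t = 0) :
    ‖-x‖ ^ 2 + ‖y‖ ^ 2 + ‖z + x‖ ^ 2 + ‖t + x‖ ^ 2
      = ‖x‖ ^ 2 + ‖y‖ ^ 2 + ‖z‖ ^ 2 + ‖t‖ ^ 2 - 2 * ⟪x, y⟫ := by
  have h1 : ⟪x, x + y + z + t⟫ = 0 := by rw [h, inner_zero_right]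
  rw [inner_add_right, inner_add_right, inner_add_right, real_inner_self_eq_norm_sq] at h1
  rw [norm_neg, norm_add_sq_real, norm_add_sq_real, real_inner_comm x z, real_inner_comm x t]
  linarith

theorem osb_perm (L : AddSubgroup E3) (v : Fin 4 → E3) (hv : SB L v)
    (σ : Equiv.Perm (Fin 4)) : SB L (fun i => v (σ i)) := by
  refine ⟨fun i => hv.1 (σ i), ?_, ?_⟩
  · rw [Equiv.sum_comp σ v]
    exact hv.2.1
  · intro w hw
    obtain ⟨a, ha⟩ := hv.2.2 w hw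
    refine ⟨fun i => a (σ i), ?_⟩
    rw [Equiv.sum_comp σ (fun i => a i • v i)]
    exact ha

theorem osb_move (L : AddSubgroup E3) (u : Fin 4 → E3) (hu : SB L u) :
    SB L ![-u 0, u 1, u 2 + u 0, u 3 + u 0] := by
  refine ⟨?_, ?_, ?_⟩
  · intro i
    fin_cases i
    · exact L.neg_mem (hu.1 0)
    · exact hu.1 1
    · exact L.add_mem (hu.1 2) (hu.1 0)
    · exact L.add_mem (hu.1 3) (hu.1 0)
  · have h := hu.2.1
    simp only [Fin.sum_univ_four, Matrix.cons_val] at h ⊢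
    rw [← h]
    abel
  · intro w hw
    obtain ⟨a, ha⟩ := hu.2.2 w hw
    refine ⟨![-a 0 + a 2 + a 3, a 1, a 2, a 3], ?_⟩
    rw [ha]
    simp only [Fin.sum_univ_four, Matrix.cons_val]
    module

theorem osb_ex : ∀ i j : Fin 4, i ≠ j → ∃ σ : Equiv.Perm (Fin 4), σ 0 = i ∧ σ 1 = j := by
  decide

theorem p_OSB (hlsb : T_LSB) : T_OSB := by
  intro L hL hsp
  obtain ⟨v0, hv0⟩ := hlsb L hL hsp
  set C : ℝ := ∑ i, ‖v0 i‖ ^ 2 with hC
  have hC0 : 0 ≤ C := Finset.sum_nonneg fun i _ => sq_nonneg _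
  have hX : ∀ x ∈ (L : Set E3), ∀ y ∈ (L : Set E3), x ≠ y → (2 : ℝ) ≤ dist x y := by
    intro x hx y hy hxy
    rw [dist_eq_norm]
    exact hL _ (L.sub_mem hx hy) (sub_ne_zero.mpr hxy)
  have hfin := p_FIN (L : Set E3) hX 0 (C + 1)
  have hA : {v : Fin 4 → E3 | SB L v ∧ ∑ i, ‖v i‖ ^ 2 ≤ C}.Finite := by
    refine (Set.Finite.pi' (fun _ : Fin 4 => hfin)).subset ?_
    rintro v ⟨hv, hs⟩ i
    refine ⟨hv.1 i, ?_⟩
    rw [dist_zero_right]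
    have h1 : ‖v i‖ ^ 2 ≤ ∑ i, ‖v i‖ ^ 2 :=
      Finset.single_le_sum (f := fun i => ‖v i‖ ^ 2) (fun i _ => sq_nonneg _)
        (Finset.mem_univ i)
    nlinarith [norm_nonneg (v i)]
  obtain ⟨v, ⟨hv, hvC⟩, hmin⟩ := Set.exists_min_image _
    (fun v : Fin 4 → E3 => ∑ i, ‖v i‖ ^ 2) hA ⟨v0, hv0, le_rfl⟩
  refine ⟨v, hv, ?_⟩
  intro i j hij
  by_contra hneg
  push Not at hneg
  obtain ⟨σ, hi, hj⟩ := osb_ex i j hij
  have hu := osb_perm L v hv σ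
  have hm := osb_move L _ hu
  have hsum : ∑ k, ‖v (σ k)‖ ^ 2 = ∑ k, ‖v k‖ ^ 2 :=
    Equiv.sum_comp σ (fun k => ‖v k‖ ^ 2)
  have h0 := hu.2.1
  have hn := osb_norm (v (σ 0)) (v (σ 1)) (v (σ 2)) (v (σ 3))
    (by rw [← h0, Fin.sum_univ_four])
  rw [Fin.sum_univ_four] at hsum
  have hlt : ∑ k, ‖(![-v (σ 0), v (σ 1), v (σ 2) + v (σ 0), v (σ 3) + v (σ 0)] :
      Fin 4 → E3) k‖ ^ 2 < ∑ k, ‖v k‖ ^ 2 := by
    simp only [Fin.sum_univ_four, Matrix.cons_val] at hsum ⊢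
    rw [hn, hi, hj]
    rw [hi, hj] at hsum
    linarith
  exact absurd (hmin _ ⟨hm, hlt.le.trans hvC⟩) (not_le.mpr hlt)

end Pool.Agent.SDL
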