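import Pool.Agent.SDL.Targets

set_option autoImplicit false

/-!
# SDL, target P1
-/

open MeasureTheory Set Real
open scoped RealInnerProductSpace

namespace Pool.Agent.SDL

open Pool.Agent.SDC

theorem p_P1 : T_P1 := by
  intro t u ht1 htR hu huR
  have hpi := Real.pi_pos
  have hc36 : 0 < cos (π / 5) := by
    apply cos_pos_of_mem_Ioo
    constructor <;> linarith
  have hrr : 0 < rr 1 u := by
    apply Real.sqrt_pos.2
    have : 1 < u ^ 2 := by nlinarith
    linarith
  have hA : 0 < rr 1 u * cos (π / 5) := mul_pos hrr hc36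
  set A : ℝ := rr 1 u * cos (π / 5) with hAdef
  have h5 : (0 : ℝ) ≤ π / 5 := by positivity
  have h52 : π / 5 ≤ π / 2 := by linarith
  have hcos : ∀ ψ ∈ Icc (0 : ℝ) (π / 5), 0 < cos ψ := by
    intro ψ hψ
    apply cos_pos_of_mem_Ioo
    exact ⟨by linarith [hψ.1], by linarith [hψ.2]⟩
  have hHc : Continuous fun r => HH t 1 r := by
    have h2 : Continuous fun s : ℝ => G t (kap t) (bet t) 1 s * s :=
      (tHCL.1 t (kap t) (bet t) 1).mul continuous_id
    exact intervalIntegral.continuous_primitive (fun x y => h2.intervalIntegrable x y) 0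
  have hint : IntervalIntegrable (fun ψ => HH t 1 (A / cos ψ)) volume 0 (π / 5) := by
    apply ContinuousOn.intervalIntegrable
    rw [uIcc_of_le h5]
    apply hHc.comp_continuousOn
    exact continuousOn_const.div Real.continuous_cos.continuousOn fun ψ hψ => (hcos ψ hψ).ne'
  have hmax : IntervalIntegrable
      (fun ψ => max (alp t - H t (kap t) (bet t) 1 (A / cos ψ)) 0) volume 0 (π / 2) :=
    LOCH_int tFAR tHCL ht1 htR le_rfl hA
  have hmax1 : IntervalIntegrable
      (fun ψ => max (alp t - H t (kap t) (bet t) 1 (A / cos ψ)) 0) volume 0 (π / 5) := by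
    apply hmax.mono_set
    rw [uIcc_of_le h5, uIcc_of_le (by linarith)]
    exact Icc_subset_Icc le_rfl h52
  have hmax2 : IntervalIntegrable
      (fun ψ => max (alp t - H t (kap t) (bet t) 1 (A / cos ψ)) 0) volume (π / 5) (π / 2) := by
    apply hmax.mono_set
    rw [uIcc_of_le h52, uIcc_of_le (by linarith)]
    exact Icc_subset_Icc h5 le_rfl
  have k1 : ∫ ψ in (0 : ℝ)..(π / 5), (alp t - HH t 1 (A / cos ψ)) =
      π / 5 * alp t - ∫ ψ in (0 : ℝ)..(π / 5), HH t 1 (A / cos ψ) := by
    rw [intervalIntegral.integral_sub intervalIntegrable_const hint,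
      intervalIntegral.integral_const, smul_eq_mul, sub_zero]
  have k2 : ∫ ψ in (0 : ℝ)..(π / 5), (alp t - HH t 1 (A / cos ψ)) ≤
      ∫ ψ in (0 : ℝ)..(π / 5), max (alp t - H t (kap t) (bet t) 1 (A / cos ψ)) 0 := by
    apply intervalIntegral.integral_mono_on h5 (intervalIntegrable_const.sub hint) hmax1
    intro ψ _
    exact le_max_left _ _
  have k3 : (∫ ψ in (0 : ℝ)..(π / 5), max (alp t - H t (kap t) (bet t) 1 (A / cos ψ)) 0) +
      ∫ ψ in (π / 5)..(π / 2), max (alp t - H t (kap t) (bet t) 1 (A / cos ψ)) 0 =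
      ∫ ψ in (0 : ℝ)..(π / 2), max (alp t - H t (kap t) (bet t) 1 (A / cos ψ)) 0 :=
    intervalIntegral.integral_add_adjacent_intervals hmax1 hmax2
  have k4 : 0 ≤ ∫ ψ in (π / 5)..(π / 2),
      max (alp t - H t (kap t) (bet t) 1 (A / cos ψ)) 0 :=
    intervalIntegral.integral_nonneg h52 fun ψ _ => le_max_right _ _
  have k5 := tLOC1 t ht1 htR A hA
  have k6 := tIDN t ht1 htR
  linarith

end Pool.Agent.SDL
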