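import Pool.Agent.SDL.Targets

set_option autoImplicit false

/-!
# SDL: target PCH, the chord integral at height `h` in the disc of the ball of radius `u`
-/

open MeasureTheory Set Real

namespace Pool.Agent.SDL

open Pool.Agent.SDC

/-- PCH. -/
theorem p_PCH : T_PCH := by
  intro t κ β h u a ht htu hh hhu ha har
  have hW1 : 0 < 1 + a ^ 2 := by positivity
  have hu : 0 < u := by linarith
  have huh : h ^ 2 < u ^ 2 := pow_lt_pow_left₀ hhu hh.le (by norm_num)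
  have hr0 : 0 < u ^ 2 / h ^ 2 - 1 := by
    rw [sub_pos, one_lt_div (by positivity)]
    exact huh
  have hrs : rr h u ^ 2 = u ^ 2 / h ^ 2 - 1 := by
    rw [rr, Real.sq_sqrt hr0.le]
  have hlt : a ^ 2 < rr h u ^ 2 := pow_lt_pow_left₀ har ha.le (by norm_num)
  have hWu : h ^ 2 * (1 + a ^ 2) < u ^ 2 := by
    rw [hrs, lt_sub_iff_add_lt, lt_div_iff₀ (by positivity)] at hlt
    nlinarith
  have hYp : 0 < √(u ^ 2 - h ^ 2 * (1 + a ^ 2)) := Real.sqrt_pos.mpr (by linarith)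
  have hYe : √(rr h u ^ 2 - a ^ 2) = √(u ^ 2 - h ^ 2 * (1 + a ^ 2)) / h := by
    rw [hrs, show u ^ 2 / h ^ 2 - 1 - a ^ 2 = (u ^ 2 - h ^ 2 * (1 + a ^ 2)) / h ^ 2 by
      field_simp
      ring, Real.sqrt_div' _ (by positivity), Real.sqrt_sq hh.le]
  have hYs : √(rr h u ^ 2 - a ^ 2) ^ 2 = rr h u ^ 2 - a ^ 2 := Real.sq_sqrt (by linarith)
  have hCY : √(1 + a ^ 2 + √(rr h u ^ 2 - a ^ 2) ^ 2) = u / h := by
    rw [hYs, hrs, show 1 + a ^ 2 + (u ^ 2 / h ^ 2 - 1 - a ^ 2) = (u / h) ^ 2 by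
      rw [div_pow]
      ring, Real.sqrt_sq (by positivity)]
  have hZe : √(max ((t / h) ^ 2 - (1 + a ^ 2)) 0) =
      √(max (t ^ 2 - h ^ 2 * (1 + a ^ 2)) 0) / h := by
    have e : max ((t / h) ^ 2 - (1 + a ^ 2)) 0 =
        max (t ^ 2 - h ^ 2 * (1 + a ^ 2)) 0 / h ^ 2 := by
      rw [show (t / h) ^ 2 - (1 + a ^ 2) = (t ^ 2 - h ^ 2 * (1 + a ^ 2)) / h ^ 2 by
        field_simp]
      rcases le_total (t ^ 2 - h ^ 2 * (1 + a ^ 2)) 0 with h1 | h1
      · rw [max_eq_right h1, zero_div,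
          max_eq_right (div_nonpos_of_nonpos_of_nonneg h1 (by positivity))]
      · rw [max_eq_left h1, max_eq_left (div_nonneg h1 (by positivity))]
    rw [e, Real.sqrt_div' _ (by positivity), Real.sqrt_sq hh.le]
  have hZY : √(max ((t / h) ^ 2 - (1 + a ^ 2)) 0) ≤ √(rr h u ^ 2 - a ^ 2) := by
    rw [hZe, hYe]
    refine div_le_div_of_nonneg_right (Real.sqrt_le_sqrt (max_le ?_ (by linarith))) hh.le
    have : t ^ 2 ≤ u ^ 2 := pow_le_pow_left₀ ht.le htu 2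
    linarith
  have hfun : ∀ y : ℝ, G t κ β h √(a ^ 2 + y ^ 2) =
      h ^ 3 * max (1 - (t / h) ^ 3 / √(1 + a ^ 2 + y ^ 2) ^ 3) 0 -
        (κ * h ^ 3 + β * (1 / √(1 + a ^ 2 + y ^ 2) ^ 3)) := by
    intro y
    have hc : cc √(a ^ 2 + y ^ 2) = √(1 + a ^ 2 + y ^ 2) := by
      rw [cc, Real.sq_sqrt (by positivity), add_assoc]
    have hC := PCL_pos hW1 y
    rw [G, hc, mul_max_of_nonneg _ _ (show (0 : ℝ) ≤ h ^ 3 by positivity), mul_zero,
      show h ^ 3 * (1 - (t / h) ^ 3 / √(1 + a ^ 2 + y ^ 2) ^ 3) =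
      h ^ 3 - t ^ 3 / √(1 + a ^ 2 + y ^ 2) ^ 3 by field_simp]
    ring
  simp_rw [hfun]
  have hc1 : Continuous fun y : ℝ => κ * h ^ 3 + β * (1 / √(1 + a ^ 2 + y ^ 2) ^ 3) :=
    continuous_const.add (continuous_const.mul (PCL_cont hW1))
  rw [intervalIntegral.integral_sub
    (((PCL_cont2 hW1 (t / h)).intervalIntegrable _ _).const_mul _)
    (hc1.intervalIntegrable _ _),
    intervalIntegral.integral_add (by simp) (((PCL_cont hW1).const_mul β).intervalIntegrable _ _),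
    intervalIntegral.integral_const_mul (h ^ 3), intervalIntegral.integral_const_mul β,
    PCL_int hW1, PCL_max hW1 (by positivity) hZY, hCY, ggu, hZe, hYe]
  simp only [intervalIntegral.integral_const, smul_eq_mul, sub_zero, zero_div]
  field_simp
  ring

end Pool.Agent.SDL
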