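import Pool.Agent.SDL.Targets

set_option autoImplicit false

/-!
# RPX: the radius of the best pentagon at height `h`
-/

open MeasureTheory Set Real
open scoped RealInnerProductSpace

namespace Pool.Agent.SDL

open Pool.Agent.SDC

theorem RPX_cont {t κ h a : ℝ} (hh : 0 < h) (ha : h < a) :
    ContinuousOn (fun u => u * ggu t κ u (h ^ 2 * s2 + u ^ 2 * c2)) (Icc a R) := by
  have hs2 : 0 < s2 := by linarith [s2_lo]
  unfold ggu
  apply ContinuousOn.mul continuousOn_id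
  apply ContinuousOn.add
  · fun_prop
  · apply ContinuousOn.div
    · fun_prop
    · fun_prop
    · intro u hu
      have h1 : h < u := lt_of_lt_of_le ha hu.1
      have h2 : u ^ 2 - (h ^ 2 * s2 + u ^ 2 * c2) = s2 * (u ^ 2 - h ^ 2) := by
        linear_combination (- u ^ 2) * s2_add_c2
      have h3 : 0 < u ^ 2 - (h ^ 2 * s2 + u ^ 2 * c2) := by
        rw [h2]
        apply mul_pos hs2
        nlinarith
      exact (Real.sqrt_pos.mpr h3).ne'

theorem RPX_kap {t : ℝ} (h1 : 1 ≤ t) (htR : t < R) :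
    kap t ≤ (1 - √(t ^ 2 - 1) / rv) ^ 2 * (2 + √(t ^ 2 - 1) / rv) / 2 :=
  (tKAP t h1 htR).2.trans (p_KB t h1 htR)

theorem RPX_kap1 {t : ℝ} (h1 : 1 ≤ t) (htR : t < R) : kap t ≤ 1 := by
  refine (RPX_kap h1 htR).trans ?_
  have hrv : 0 < rv := by
    rw [rv]
    linarith [s5_hi']
  have hq0 : 0 ≤ √(t ^ 2 - 1) / rv := div_nonneg (Real.sqrt_nonneg _) hrv.le
  have hq1 : √(t ^ 2 - 1) / rv ≤ 1 := by
    rw [div_le_one hrv]
    apply Real.sqrt_le_iff.mpr
    refine ⟨hrv.le, ?_⟩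
    rw [rv_sq]
    nlinarith [R_pos]
  set q := √(t ^ 2 - 1) / rv
  nlinarith [mul_nonneg hq0 (sub_nonneg.mpr hq1), mul_nonneg hq0 hq0,
    mul_nonneg (mul_nonneg hq0 hq0) (sub_nonneg.mpr hq1)]

/-- The value at the outer end. -/
theorem RPX_top {t h : ℝ} (h1 : 1 ≤ t) (htR : t < R) (hh : 1 ≤ h) (hhR : h < R) :
    R * gg t (kap t) W0 ≤ R * ggu t (kap t) R (h ^ 2 * s2 + R ^ 2 * c2) := by
  have hs2 : 0 < s2 := by linarith [s2_lo]
  have hc2 : 0 < c2 := by linarith [c2_lo]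
  have hR2 : h ^ 2 < R ^ 2 := by nlinarith
  have hh2 : 1 ≤ h ^ 2 := by nlinarith
  apply mul_le_mul_of_nonneg_left _ R_pos.le
  have hm := p_GMN t (kap t) h1 htR (RPX_kap h1 htR)
  have hW0 : W0 ∈ Ico 1 (R ^ 2) := by
    constructor
    · have := W0_one
      nlinarith [mul_nonneg hc2.le (by nlinarith : (0 : ℝ) ≤ R ^ 2 - 1)]
    · have := RW_eq
      nlinarith [mul_pos hs2 (by nlinarith : (0 : ℝ) < R ^ 2 - 1)]
  have hle : W0 ≤ h ^ 2 * s2 + R ^ 2 * c2 := by
    rw [W0_sc]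
    nlinarith
  have hW' : h ^ 2 * s2 + R ^ 2 * c2 ∈ Ico 1 (R ^ 2) := by
    refine ⟨hW0.1.trans hle, ?_⟩
    have h3 : R ^ 2 - (h ^ 2 * s2 + R ^ 2 * c2) = s2 * (R ^ 2 - h ^ 2) := by
      linear_combination (- R ^ 2) * s2_add_c2
    have h4 : 0 < s2 * (R ^ 2 - h ^ 2) := mul_pos hs2 (by linarith)
    linarith
  exact hm hW0 hW' hle

theorem p_RPX (hmu : T_MU) : T_RPX := by
  intro t h h1 htR hh hor
  have hs2 : 0 < s2 := by linarith [s2_lo]
  have hc2 : 0 < c2 := by linarith [c2_lo]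
  have hhR : h < R := by
    rcases hor with h2 | h2
    · linarith
    · linarith [R_lo']
  have hbet : t ^ 3 + bet t = R * gg t (kap t) W0 := by
    rw [bet]
    ring
  rw [hbet]
  have htop := RPX_top h1 htR hh hhR
  have hk0 := (tKAP t h1 htR).1
  have hk1 := RPX_kap1 h1 htR
  by_cases hlt : h < t
  · -- the first case
    have ht1 : 1 < t := lt_of_le_of_lt hh hlt
    have ht2 : 0 < t ^ 2 - 1 := by nlinarith
    have hth : 0 < t ^ 2 - h ^ 2 := by nlinarith
    have hR1 : 0 < R ^ 2 - 1 := by nlinarith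
    set V : ℝ := h ^ 2 + (t ^ 2 - h ^ 2) * (R ^ 2 - 1) / (t ^ 2 - 1) with hV
    have hVpos : 0 < V := by positivity
    have hU : √V ^ 2 = V := Real.sq_sqrt hVpos.le
    have hUpos : 0 < √V := Real.sqrt_pos.mpr hVpos
    obtain ⟨htU, hUR, hMU⟩ := hmu t (kap t) h (√V) hh hlt htR hk0 hk1 hUpos hU
    have hMU' : √V * ggu t (kap t) (√V) (h ^ 2 * s2 + √V ^ 2 * c2) ≤ R * gg t (kap t) W0 := hMU
    have hcont := RPX_cont (t := t) (κ := kap t) (h := h) (a := √V) (by linarith) (by linarith)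
    obtain ⟨u, hu, hueq⟩ := intermediate_value_Icc hUR hcont ⟨hMU', htop⟩
    refine ⟨u, by linarith [hu.1], by linarith [hu.1], hu.2, Or.inl hlt.le, hueq, ?_⟩
    rw [max_eq_left hth.le]
    have hu2 : V ≤ u ^ 2 := by
      rw [← hU]
      exact pow_le_pow_left₀ hUpos.le hu.1 2
    have h5 : (t ^ 2 - 1) * (V - h ^ 2) = (t ^ 2 - h ^ 2) * (R ^ 2 - 1) := by
      rw [hV]
      field_simp
      ring
    rw [← h5]
    apply mul_le_mul_of_nonneg_left _ ht2.le
    linarith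
  · -- the second case
    have hth : t ≤ h := not_lt.mp hlt
    have hh2 : h < 1.02 := by
      rcases hor with h2 | h2
      · exact absurd h2 hlt
      · exact h2
    have hcont := RPX_cont (t := t) (κ := kap t) (h := h) (a := 1.25) (by linarith) (by linarith)
    have hlow : (1.25 : ℝ) * ggu t (kap t) 1.25 (h ^ 2 * s2 + 1.25 ^ 2 * c2) ≤
        R * gg t (kap t) W0 := by
      have hW' : t ^ 2 ≤ h ^ 2 * s2 + 1.25 ^ 2 * c2 := by
        have e1 : t ^ 2 ≤ h ^ 2 := by nlinarith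
        have e2 : h ^ 2 ≤ 1.25 ^ 2 := by nlinarith
        have e3 : h ^ 2 * s2 + 1.25 ^ 2 * c2 - h ^ 2 = c2 * (1.25 ^ 2 - h ^ 2) := by
          linear_combination (h ^ 2) * s2_add_c2
        have e4 : 0 ≤ c2 * (1.25 ^ 2 - h ^ 2) := mul_nonneg hc2.le (by linarith)
        linarith
      have hg : ggu t (kap t) 1.25 (h ^ 2 * s2 + 1.25 ^ 2 * c2) =
          (1 - kap t) * (h ^ 2 * s2 + 1.25 ^ 2 * c2) := by
        rw [ggu, max_eq_right (by linarith)]
        simp
      have hgg : (1 - kap t) * W0 ≤ gg t (kap t) W0 := by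
        rw [gg]
        have : 0 ≤ √(max (t ^ 2 - W0) 0) ^ 3 / √(R ^ 2 - W0) := by positivity
        linarith
      rw [hg]
      have e5 : (1.25 : ℝ) * (h ^ 2 * s2 + 1.25 ^ 2 * c2) ≤ R * W0 := by
        have e6 : h ^ 2 ≤ 1.0404 := by nlinarith
        have e7 : h ^ 2 * s2 ≤ 1.0404 * 0.345492 := by
          have := s2_hi
          nlinarith
        have e8 : (1.381 : ℝ) ≤ W0 := by
          rw [W0_s2]
          linarith [s2_lo]
        have e9 : (1.258 : ℝ) * 1.381 ≤ R * W0 := by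
          have := R_lo'
          nlinarith
        have := c2_hi
        nlinarith
      calc (1.25 : ℝ) * ((1 - kap t) * (h ^ 2 * s2 + 1.25 ^ 2 * c2))
          = (1 - kap t) * (1.25 * (h ^ 2 * s2 + 1.25 ^ 2 * c2)) := by ring
        _ ≤ (1 - kap t) * (R * W0) := mul_le_mul_of_nonneg_left e5 (by linarith)
        _ = R * ((1 - kap t) * W0) := by ring
        _ ≤ R * gg t (kap t) W0 := mul_le_mul_of_nonneg_left hgg R_pos.le
    obtain ⟨u, hu, hueq⟩ := intermediate_value_Icc (by linarith [R_lo']) hcont ⟨hlow, htop⟩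
    have hu1 : (1.25 : ℝ) ≤ u := hu.1
    refine ⟨u, by linarith, by linarith, hu.2, Or.inr hu1, hueq, ?_⟩
    rw [max_eq_right (by nlinarith), zero_mul]
    apply mul_nonneg
    · nlinarith
    · nlinarith

end Pool.Agent.SDL
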