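import Pool.Agent.SDL.Targets

/-!
# SDL: target WT (the weight function)
-/

set_option autoImplicit false

open MeasureTheory Set Real
open scoped RealInnerProductSpace

namespace Pool.Agent.SDL

open Pool.Agent.SDC

lemma WT_deriv (x : ℝ) : deriv arctan x = 1 / (1 + x ^ 2) := (hasDerivAt_arctan x).deriv

lemma WT_conc : ConcaveOn ℝ (Ici 0) arctan := by
  apply AntitoneOn.concaveOn_of_deriv (convex_Ici 0) continuous_arctan.continuousOn
    differentiable_arctan.differentiableOn
  intro x hx y hy hxy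
  rw [interior_Ici] at hx hy
  rw [WT_deriv, WT_deriv]
  have hx' : 0 < x := hx
  apply one_div_le_one_div_of_le (by positivity)
  nlinarith

lemma WT_le {x y : ℝ} (hx : 0 ≤ x) (hxy : x ≤ y) :
    arctan y - arctan x ≤ 1 / (1 + x ^ 2) * (y - x) := by
  apply (convex_Icc x y).image_sub_le_mul_sub_of_deriv_le continuous_arctan.continuousOn
    differentiable_arctan.differentiableOn _ x (left_mem_Icc.mpr hxy) y
    (right_mem_Icc.mpr hxy) hxy
  intro t ht
  rw [interior_Icc] at ht
  rw [WT_deriv]
  apply one_div_le_one_div_of_le (by positivity)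
  nlinarith [ht.1]

lemma WT_ge {x y : ℝ} (hx : 0 ≤ x) (hxy : x ≤ y) :
    1 / (1 + y ^ 2) * (y - x) ≤ arctan y - arctan x := by
  apply (convex_Icc x y).mul_sub_le_image_sub_of_le_deriv continuous_arctan.continuousOn
    differentiable_arctan.differentiableOn _ x (left_mem_Icc.mpr hxy) y
    (right_mem_Icc.mpr hxy) hxy
  intro t ht
  rw [interior_Icc] at ht
  rw [WT_deriv]
  apply one_div_le_one_div_of_le (by positivity)
  nlinarith [ht.1, ht.2]

lemma WT_s3 : (1.732 : ℝ) < √3 ∧ √3 < (1.73206 : ℝ) := by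
  constructor
  · rw [show (1.732 : ℝ) = √(1.732 ^ 2) by rw [Real.sqrt_sq (by norm_num)]]
    exact Real.sqrt_lt_sqrt (by norm_num) (by norm_num)
  · rw [show (1.73206 : ℝ) = √(1.73206 ^ 2) by rw [Real.sqrt_sq (by norm_num)]]
    exact Real.sqrt_lt_sqrt (by norm_num) (by norm_num)

lemma WT_one : wt 1 = 1 := by
  rw [wt, one_div, arctan_inv_sqrt_three]
  field_simp
  norm_num

lemma WT_R : wt R = 0 := by
  rw [wt, ← tan36_R, arctan_tan (by linarith [Real.pi_pos]) (by linarith [Real.pi_pos])]
  field_simp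
  norm_num

lemma WT_anti {h h' : ℝ} (hh : h ≤ h') : wt h' ≤ wt h := by
  have h1 : arctan (h / √3) ≤ arctan (h' / √3) :=
    arctan_mono (div_le_div_of_nonneg_right hh (sqrt_nonneg 3))
  have h2 : 0 < 30 / π := div_pos (by norm_num) Real.pi_pos
  have h3 := mul_le_mul_of_nonneg_left h1 h2.le
  rw [wt, wt]
  linarith

/-- the chord inequality for a convex function of the form `6 - c * (concave)` -/
lemma WT_chord {f : ℝ → ℝ} {a b x : ℝ} (hf : ConcaveOn ℝ (Icc a b) f) (hab : a < b)
    (hx : x ∈ Icc a b) :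
    (b - x) / (b - a) * f a + (x - a) / (b - a) * f b ≤ f x := by
  have hba : 0 < b - a := by linarith
  have h := hf.2 (left_mem_Icc.mpr hab.le) (right_mem_Icc.mpr hab.le)
    (div_nonneg (by linarith [hx.2] : 0 ≤ b - x) hba.le)
    (div_nonneg (by linarith [hx.1] : 0 ≤ x - a) hba.le)
    (by rw [← add_div, div_eq_one_iff_eq hba.ne']; ring)
  simp only [smul_eq_mul] at h
  have h2 : (b - x) / (b - a) * a + (x - a) / (b - a) * b = x := by
    field_simp
    ring
  rw [h2] at h
  exact h

theorem p_WT : T_WT := by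
  have hs := WT_s3
  have hs3 : √3 ^ 2 = 3 := Real.sq_sqrt (by norm_num)
  have hsp : 0 < √3 := by positivity
  have hpi := Real.pi_pos
  have hpl := Real.pi_gt_d6
  have hpu := Real.pi_lt_d6
  refine ⟨WT_one, WT_R, fun h h' _ hh => WT_anti hh, ?_, ?_, ?_, ?_⟩
  · intro h hh
    have h0 := WT_one
    have h1 := WT_le (x := 1 / √3) (y := h / √3) (by positivity)
      (div_le_div_of_nonneg_right hh hsp.le)
    have h2 : 1 / (1 + (1 / √3) ^ 2) * (h / √3 - 1 / √3) = √3 / 4 * (h - 1) := by
      rw [div_pow, hs3]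
      field_simp
      rw [hs3]
      ring
    rw [h2] at h1
    have h3 : wt h = 1 - 30 / π * (arctan (h / √3) - arctan (1 / √3)) := by
      rw [wt] at h0 ⊢
      linarith
    have h4 : 30 / π * (arctan (h / √3) - arctan (1 / √3)) ≤ 4.135 * (h - 1) := by
      calc 30 / π * (arctan (h / √3) - arctan (1 / √3)) ≤ 30 / π * (√3 / 4 * (h - 1)) :=
            mul_le_mul_of_nonneg_left h1 (by positivity)
        _ = 7.5 * √3 / π * (h - 1) := by ring
        _ ≤ 4.135 * (h - 1) := by
            apply mul_le_mul_of_nonneg_right _ (by linarith)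
            rw [div_le_iff₀ hpi]
            linarith [hs.2]
    linarith
  · intro h h0 hR
    have h1 := WT_ge (x := h / √3) (y := R / √3) (by positivity)
      (div_le_div_of_nonneg_right hR hsp.le)
    have h2 : 1 / (1 + (R / √3) ^ 2) * (R / √3 - h / √3) = √3 / (3 + R ^ 2) * (R - h) := by
      rw [div_pow, hs3]
      have : 0 < 3 + R ^ 2 := by positivity
      field_simp
      rw [hs3]
    rw [h2] at h1
    have h3 : wt h = 30 / π * (arctan (R / √3) - arctan (h / √3)) := by
      have := WT_R
      rw [wt] at this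
      rw [wt]
      linarith
    rw [h3]
    calc 3.6 * (R - h) ≤ 30 / π * (√3 / (3 + R ^ 2)) * (R - h) := by
          apply mul_le_mul_of_nonneg_right _ (by linarith)
          rw [div_mul_div_comm, le_div_iff₀ (by positivity)]
          nlinarith [R_sq_hi, hs.1]
      _ = 30 / π * (√3 / (3 + R ^ 2) * (R - h)) := by ring
      _ ≤ _ := mul_le_mul_of_nonneg_left h1 (by positivity)
  · intro h h1 h2
    have hc : ConcaveOn ℝ (Icc 1 1.26) (fun x => arctan (x / √3)) := by
      have := (WT_conc.comp_linearMap (LinearMap.mulLeft ℝ (1 / √3)))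
      refine (this.subset ?_ (convex_Icc _ _)).congr ?_
      · intro x hx
        show 0 ≤ 1 / √3 * x
        have := hx.1
        positivity
      · intro x _
        show arctan (1 / √3 * x) = arctan (x / √3)
        congr 1
        ring
    have h3 := WT_chord hc (by norm_num) ⟨h1, h2⟩
    have h4 : wt 1.26 ≤ 0 := by
      rw [← WT_R]
      exact WT_anti (by linarith [R_hi'])
    have h5 := WT_one
    rw [wt] at h4 h5 ⊢
    have h6 := mul_le_mul_of_nonneg_left h3 (by positivity : 0 ≤ 30 / π)
    have e1 : (1.26 - h) / (1.26 - 1) + (h - 1) / (1.26 - 1) = 1 := by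
      field_simp
      ring
    have e2 : (0 : ℝ) ≤ (h - 1) / (1.26 - 1) := div_nonneg (by linarith) (by norm_num)
    have e3 : (1.26 - h) / 0.26 = (1.26 - h) / (1.26 - 1) := by norm_num
    rw [e3]
    have h7 := mul_le_mul_of_nonneg_left h4 e2
    nlinarith
  · intro N h1 h2
    have hc : ConcaveOn ℝ (Icc 4 8) (fun x => arctan (√x / 2 / √3)) := by
      refine ⟨convex_Icc _ _, ?_⟩
      intro x hx y hy a b ha hb hab
      have hx0 : 0 ≤ x := by linarith [hx.1]
      have hy0 : 0 ≤ y := by linarith [hy.1]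
      have k1 := strictConcaveOn_sqrt.concaveOn.2 hx0 hy0 ha hb hab
      have k2 := WT_conc.2 (x := √x / 2 / √3) (y := √y / 2 / √3)
        (show (0 : ℝ) ≤ √x / 2 / √3 by positivity) (show (0 : ℝ) ≤ √y / 2 / √3 by positivity)
        ha hb hab
      simp only [smul_eq_mul] at k1 k2 ⊢
      refine k2.trans (arctan_mono ?_)
      have k3 : a * (√x / 2 / √3) + b * (√y / 2 / √3) = (a * √x + b * √y) / 2 / √3 := by ring
      rw [k3]
      exact div_le_div_of_nonneg_right (by linarith) hsp.le
    have h3 := WT_chord hc (by norm_num) ⟨h1, h2⟩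
    have q4 : √4 / 2 = (1 : ℝ) := by
      rw [show (4 : ℝ) = 2 ^ 2 by norm_num, Real.sqrt_sq (by norm_num)]
      norm_num
    have q8 : R ≤ √8 / 2 := by
      have : (2 * R) ≤ √8 := by
        apply Real.le_sqrt_of_sq_le
        nlinarith [R_sq_hi]
      linarith
    have h4 : wt (√8 / 2) ≤ 0 := by
      rw [← WT_R]
      exact WT_anti q8
    have h5 := WT_one
    rw [← q4] at h5
    rw [wt] at h4 h5 ⊢
    have h6 := mul_le_mul_of_nonneg_left h3 (by positivity : 0 ≤ 30 / π)
    have e1 : (8 - N) / (8 - 4) + (N - 4) / (8 - 4) = 1 := by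
      field_simp
      ring
    have e2 : (0 : ℝ) ≤ (N - 4) / (8 - 4) := div_nonneg (by linarith) (by norm_num)
    have e3 : (8 - N) / 4 = (8 - N) / (8 - 4) := by norm_num
    rw [e3]
    have h7 := mul_le_mul_of_nonneg_left h4 e2
    nlinarith

end Pool.Agent.SDL
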