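import Pool.Agent.SDL.P_C1
import Pool.Agent.SDL.P_C1A
import Pool.Agent.SDL.P_C1B
import Pool.Agent.SDL.P_C1G
import Pool.Agent.SDL.P_C2
import Pool.Agent.SDL.P_CB
import Pool.Agent.SDL.P_LOC2
import Pool.Agent.SDL.P_PCH
import Pool.Agent.SDL.P_GMU
import Pool.Agent.SDL.P_MU
import Pool.Agent.SDL.P_RPX
import Pool.Agent.SDL.P_EPW
import Pool.Agent.SDL.P_OMG
import Pool.Agent.SDL.P_ATN
import Pool.Agent.SDL.P_P1
import Pool.Agent.SDL.P_PYR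
import Pool.Agent.SDL.P_HB
import Pool.Agent.SDL.P_KEX
import Pool.Agent.SDL.P_KU
import Pool.Agent.SDL.P_BQ
import Pool.Agent.SDL.P_KB2
import Pool.Agent.SDL.P_WT
import Pool.Agent.SDL.P_DS1
import Pool.Agent.SDL.P_DS2
import Pool.Agent.SDL.P_DSC
import Pool.Agent.SDL.P_BM
import Pool.Agent.SDL.P_PQ
import Pool.Agent.SDL.P_GAP
import Pool.Agent.SDL.P_DMN
import Pool.Agent.SDL.P_ARC
import Pool.Agent.SDL.P_TG
import Pool.Agent.SDL.P_SIX
import Pool.Agent.SDL.P_FAX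
import Pool.Agent.SDL.P_FCX
import Pool.Agent.SDL.P_TAJ
import Pool.Agent.SDL.P_NSF
import Pool.Agent.SDL.P_FBA
import Pool.Agent.SDL.P_FBB
import Pool.Agent.SDL.P_FBC
import Pool.Agent.SDL.P_FBD
import Pool.Agent.SDL.P_MX1
import Pool.Agent.SDL.P_MX3
import Pool.Agent.SDL.P_VX
import Pool.Agent.SDL.P_NW
import Pool.Agent.SDL.P_LSB
import Pool.Agent.SDL.P_OSB
import Pool.Agent.SDL.P_LVC
import Pool.Agent.SDL.P_LWT
import Pool.Agent.SDL.P_LRK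
import Pool.Agent.SDL.P_LAT

set_option autoImplicit false

/-!
# SDL: assembly
-/

namespace Pool.Agent.SDL

/-! ## Analysis in one variable -/

theorem tHB : T_HB := p_HB

theorem tWT : T_WT := p_WT

theorem tBM : T_BM := p_BM

theorem tKEX : T_KEX := p_KEX

theorem tKU : T_KU := p_KU tKEX

theorem tBQ : T_BQ := p_BQ

theorem tKB2 : T_KB2 := p_KB2 tKU tBQ

theorem tPYR : T_PYR := p_PYR tHB p_EPW p_OMG p_ATN p_P1

theorem tRPX : T_RPX := p_RPX p_MU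

theorem tCB : T_CB := p_CB p_LOC2 p_PCH p_GMU tRPX tPYR

theorem tDS1 : T_DS1 := p_DS1 tKEX tWT

theorem tDS2 : T_DS2 := p_DS2 tKB2 tWT

theorem tDSC : T_DSC := p_DSC tHB tDS1 tDS2

theorem tC1A : T_C1A := p_C1A tKEX

theorem tC1G : T_C1G := p_C1G tBQ

theorem tC1B : T_C1B := p_C1B tKU tBQ tC1G p_PQ

theorem tC1 : T_C1 := p_C1 tC1A tC1G tC1B tBM

theorem tC2 : T_C2 := p_C2 tHB tWT tBM tKEX

/-! ## Geometry of the sides -/

theorem tSIX : T_SIX := p_SIX p_GAP p_DMN p_ARC p_TG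

/-! ## One facet -/

theorem tFCX : T_FCX := p_FCX p_FAX

theorem tTAJ : T_TAJ := p_TAJ tHB tBM

theorem tNSF : T_NSF := p_NSF p_DMN

theorem tFBA : T_FBA := p_FBA tFCX tDSC tNSF

theorem tFBB : T_FBB := p_FBB tFCX tCB tNSF

theorem tFBC : T_FBC := p_FBC tFCX tCB tHB tSIX tTAJ tC1 tC2 tNSF

theorem tFBD : T_FBD := p_FBD tFBA tFBB tFBC

/-! ## Assembly -/

theorem tMX1 : T_MX1 := p_MX1 tFBD

theorem tMX3 : T_MX3 := p_MX3 tMX1

theorem tVX : T_VX := p_VX tMX3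

theorem tNW : T_NW := p_NW tVX tWT

/-! ## Lattices -/

theorem tOSB : T_OSB := p_OSB p_LSB

theorem tLWT : T_LWT := p_LWT tWT

theorem tLAT : T_LAT := p_LAT tVX tOSB p_LVC tLWT p_LRK

end Pool.Agent.SDL
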