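import Pool.Agent.SDL.CMap

set_option autoImplicit false

/-!
# CMap2: sums over the darts, and the number of darts `6 N - 12`
-/

open MeasureTheory Set Real
open scoped RealInnerProductSpace

namespace Pool.Agent.SDL

open Pool.Agent.SDC

section poly

variable {ι : Type} {n : ι → E3} {h : ι → ℝ}

theorem det3_swap23 (a b c : E3) : det3 a c b = - det3 a b c := by
  rw [det3, det3]
  ring

theorem det3_swap13 (a b c : E3) : det3 c b a = - det3 a b c := by
  rw [det3, det3]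
  ring

/-! ## Sums over the darts -/

theorem Good.rot1 [Finite ι] (G : Good n h) {i j : ι} (H : Adj n h i j) :
    Adj n h j (nx n h i j) := (G.vx H).rot.adj G.sim

theorem Good.rot2 [Finite ι] (G : Good n h) {i j : ι} (H : Adj n h i j) :
    nx n h j (nx n h i j) = i := nx_eq G.sim (G.vx H).rot

theorem Good.rot3 [Finite ι] (G : Good n h) {i j : ι} (H : Adj n h i j) :
    nx n h (nx n h i j) i = j := nx_eq G.sim (G.vx H).rot.rot

theorem Good.rot4 [Finite ι] (G : Good n h) {i j : ι} (H : Adj n h i j) :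
    Adj n h (nx n h i j) i := adj_symm (G.nx_mem H)

/-- The rotation of the triangles. -/
theorem Good.sum_rot [Fintype ι] (G : Good n h) (g : ι → ι → ι → ℝ) :
    ∑ i, ∑ j ∈ nb n h i, g i j (nx n h i j) = ∑ i, ∑ j ∈ nb n h i, g j (nx n h i j) i := by
  classical
  rw [Finset.sum_sigma', Finset.sum_sigma']
  refine Finset.sum_nbij' (fun d => ⟨nx n h d.1 d.2, d.1⟩) (fun d => ⟨d.2, nx n h d.1 d.2⟩)
    ?_ ?_ ?_ ?_ ?_
  · rintro ⟨i, j⟩ hd
    rw [Finset.mem_sigma, mem_nb] at hd ⊢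
    exact ⟨Finset.mem_univ _, G.rot4 hd.2⟩
  · rintro ⟨i, j⟩ hd
    rw [Finset.mem_sigma, mem_nb] at hd ⊢
    exact ⟨Finset.mem_univ _, G.rot1 hd.2⟩
  · rintro ⟨i, j⟩ hd
    rw [Finset.mem_sigma, mem_nb] at hd
    simp only [G.rot3 hd.2]
  · rintro ⟨i, j⟩ hd
    rw [Finset.mem_sigma, mem_nb] at hd
    simp only [G.rot2 hd.2]
  · rintro ⟨i, j⟩ hd
    rw [Finset.mem_sigma, mem_nb] at hd
    simp only [G.rot3 hd.2]

/-- Triangle inequalities can be summed. -/
theorem Good.sum_tri [Fintype ι] (G : Good n h) (g : ι → ι → ι → ℝ)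
    (hg : ∀ i j k, Vx n h i j k → g i j k + g j k i + g k i j ≤ 0) :
    ∑ i, ∑ j ∈ nb n h i, g i j (nx n h i j) ≤ 0 := by
  have h1 := G.sum_rot g
  have h2 := G.sum_rot (fun i j k => g j k i)
  have h3 : ∑ i, ∑ j ∈ nb n h i, (g i j (nx n h i j) + g j (nx n h i j) i + g (nx n h i j) i j)
      ≤ 0 := by
    refine Finset.sum_nonpos fun i _ => Finset.sum_nonpos fun j hj => ?_
    exact hg i j _ (G.vx (mem_nb.mp hj))
  simp only [Finset.sum_add_distrib] at h3
  linarith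

/-- The rotation at a facet. -/
theorem Good.sum_nx [Fintype ι] (G : Good n h) (i : ι) (f : ι → ℝ) :
    ∑ j ∈ nb n h i, f (nx n h i j) = ∑ j ∈ nb n h i, f j := by
  classical
  have hνi : Set.InjOn (nx n h i) (nb n h i : Set ι) := by
    intro j hj k hk e
    rw [Finset.mem_coe, mem_nb] at hj hk
    exact G.nx_inj hj hk e
  have h1 : (nb n h i).image (nx n h i) = nb n h i := by
    apply Finset.eq_of_subset_of_card_le
    · intro k hk
      rw [Finset.mem_image] at hk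
      obtain ⟨j, hj, rfl⟩ := hk
      rw [mem_nb] at hj ⊢
      exact G.nx_mem hj
    · rw [Finset.card_image_of_injOn hνi]
  conv_rhs => rw [← h1]
  rw [Finset.sum_image hνi]

/-- The flip of the edges. -/
theorem sum_flip [Fintype ι] (g : ι → ι → ℝ) :
    ∑ i, ∑ j ∈ nb n h i, g i j = ∑ i, ∑ j ∈ nb n h i, g j i := by
  classical
  rw [Finset.sum_sigma', Finset.sum_sigma']
  refine Finset.sum_nbij' (fun d => ⟨d.2, d.1⟩) (fun d => ⟨d.2, d.1⟩) ?_ ?_ ?_ ?_ ?_
  · rintro ⟨i, j⟩ hd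
    rw [Finset.mem_sigma, mem_nb] at hd ⊢
    exact ⟨Finset.mem_univ _, adj_symm hd.2⟩
  · rintro ⟨i, j⟩ hd
    rw [Finset.mem_sigma, mem_nb] at hd ⊢
    exact ⟨Finset.mem_univ _, adj_symm hd.2⟩
  · rintro ⟨i, j⟩ _
    rfl
  · rintro ⟨i, j⟩ _
    rfl
  · rintro ⟨i, j⟩ _
    rfl

/-! ## The number of darts -/

/-- The functional `c` changes its sign exactly once in each direction. -/
theorem Good.cross [Fintype ι] (G : Good n h) (c : E3)
    (hc : ∀ i j, Adj n h i j → det3 (n i) (n j) c ≠ 0) (i : ι) :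
    ∃ j0 ∈ nb n h i, ∀ j ∈ nb n h i,
      (det3 (n i) (n j) c < 0 ∧ 0 < det3 (n i) (n (nx n h i j)) c) ↔ j = j0 := by
  obtain ⟨e, f, ho, hd⟩ := exists_frame (n i) (G.nn i)
  have hs : ∀ j, det3 (n i) (n j) c = ⟪n j, cr c (n i)⟫ := by
    intro j
    rw [inner_cr, det3_rot]
  have hw0 : ⟪n i, cr c (n i)⟫ = 0 := by rw [inner_cr, det3_self3]
  have hsj : ∀ j, det3 (n i) (n j) c =
      ⟪e, n j⟫ * ⟪e, cr c (n i)⟫ + ⟪f, n j⟫ * ⟪f, cr c (n i)⟫ := by
    intro j
    rw [hs, frame_inner ho (n j) (cr c (n i)), hw0]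
    ring
  obtain ⟨j1, hj1⟩ := G.exists_adj i
  have hXY : 0 < ⟪e, cr c (n i)⟫ ^ 2 + ⟪f, cr c (n i)⟫ ^ 2 := by
    by_contra hcon
    have h1 : ⟪e, cr c (n i)⟫ = 0 := by nlinarith [sq_nonneg ⟪f, cr c (n i)⟫]
    have h2 : ⟪f, cr c (n i)⟫ = 0 := by nlinarith [sq_nonneg ⟪e, cr c (n i)⟫]
    apply hc i j1 hj1
    rw [hsj, h1, h2]
    ring
  obtain ⟨ω, -, -, hX, hY⟩ := exists_polar 0 _ _ hXY
  have hA := Real.sqrt_pos.mpr hXY
  set A := √(⟪e, cr c (n i)⟫ ^ 2 + ⟪f, cr c (n i)⟫ ^ 2) with hAd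
  obtain ⟨θ, h1, h2, h3, h4, h5, h6⟩ := G.circle i ho hd (ω - π / 2)
  have hν : ∀ j ∈ nb n h i, nx n h i j ∈ nb n h i := by
    intro j hj
    rw [mem_nb] at hj ⊢
    exact G.nx_mem hj
  obtain ⟨j0, hj0, H⟩ := circle_cross h1 hν h4
    (circle_wrap ⟨j1, mem_nb.mpr hj1⟩ h1 h3 hν h4 h5 h6)
  have hform : ∀ j ∈ nb n h i, det3 (n i) (n j) c =
      (√(1 - ⟪n i, n j⟫ ^ 2) * A) * cos (θ j - ω) := by
    intro j hj
    rw [hsj, (h2 j hj).1, (h2 j hj).2, hX, hY, cos_sub]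
    ring
  have hLA : ∀ j ∈ nb n h i, 0 < √(1 - ⟪n i, n j⟫ ^ 2) * A := fun j hj =>
    mul_pos (Real.sqrt_pos.mpr (G.one_sub_pos (mem_nb.mp hj))) hA
  have hpi := Real.pi_pos
  have hneg : ∀ j ∈ nb n h i, (det3 (n i) (n j) c < 0 ↔ ω - π / 2 + π < θ j) := by
    intro j hj
    have hne := hc i j (mem_nb.mp hj)
    have hL := hLA j hj
    rw [hform j hj] at hne ⊢
    have hne' : cos (θ j - ω) ≠ 0 := fun e0 => hne (by rw [e0, mul_zero])
    constructor
    · intro hlt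
      by_contra hcon
      have : 0 ≤ cos (θ j - ω) := Real.cos_nonneg_of_neg_pi_div_two_le_of_le
        (by linarith [(h1 j hj).1]) (by linarith)
      have := mul_nonneg hL.le this
      linarith
    · intro hlt
      have h8 : cos (θ j - ω) ≤ 0 := Real.cos_nonpos_of_pi_div_two_le_of_le
        (by linarith) (by linarith [(h1 j hj).2])
      exact mul_neg_of_pos_of_neg hL (lt_of_le_of_ne h8 hne')
  have hpos : ∀ j ∈ nb n h i, (0 < det3 (n i) (n j) c ↔ θ j < ω - π / 2 + π) := by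
    intro j hj
    have hne := hc i j (mem_nb.mp hj)
    have hL := hLA j hj
    rw [hform j hj] at hne ⊢
    constructor
    · intro hlt
      by_contra hcon
      have h8 : cos (θ j - ω) ≤ 0 := Real.cos_nonpos_of_pi_div_two_le_of_le
        (by linarith) (by linarith [(h1 j hj).2])
      have := mul_nonpos_of_nonneg_of_nonpos hL.le h8
      linarith
    · intro hlt
      have h8 : 0 < cos (θ j - ω) := Real.cos_pos_of_mem_Ioo
        ⟨by linarith [(h1 j hj).1], by linarith⟩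
      exact mul_pos hL h8
  refine ⟨j0, hj0, fun j hj => ?_⟩
  rw [hneg j hj, hpos _ (hν j hj)]
  exact H j hj

theorem Vx.pt_uniq {i j k : ι} (hd : det3 (n i) (n j) (n k) ≠ 0) {v v' : E3}
    (h1 : ⟪n i, v⟫ = h i) (h2 : ⟪n j, v⟫ = h j) (h3 : ⟪n k, v⟫ = h k)
    (h1' : ⟪n i, v'⟫ = h i) (h2' : ⟪n j, v'⟫ = h j) (h3' : ⟪n k, v'⟫ = h k) : v = v' := by
  have e := cramer (n i) (n j) (n k) (v - v')
  rw [inner_sub_right, inner_sub_right, inner_sub_right, h1, h2, h3, h1', h2', h3', sub_self,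
    sub_self, sub_self, zero_smul, zero_smul, zero_smul, add_zero, add_zero] at e
  exact sub_eq_zero.mp ((smul_eq_zero.mp e).resolve_left hd)

/-- All three edges go up from the vertex. -/
def Up (n : ι → E3) (c : E3) (i j k : ι) : Prop :=
  det3 (n i) (n j) c < 0 ∧ det3 (n j) (n k) c < 0 ∧ det3 (n k) (n i) c < 0

theorem Up.rot {c : E3} {i j k : ι} (H : Up n c i j k) : Up n c j k i := ⟨H.2.1, H.2.2, H.1⟩

/-- Such a vertex is the lowest point. -/
theorem Up.low {c : E3} {i j k : ι} (H : Up n c i j k) (hd : 0 < det3 (n i) (n j) (n k))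
    {v x : E3} (h1 : ⟪n i, v⟫ = h i) (h2 : ⟪n j, v⟫ = h j) (h3 : ⟪n k, v⟫ = h k)
    (hx : x ∈ Poly n h) (hcx : ⟪c, x⟫ ≤ ⟪c, v⟫) : x = v := by
  have e := cramer (n i) (n j) (n k) (x - v)
  have e1 : det3 (n i) (n j) (n k) * ⟪c, x - v⟫ = ⟪n i, x - v⟫ * det3 (n j) (n k) c
      + ⟪n j, x - v⟫ * det3 (n k) (n i) c + ⟪n k, x - v⟫ * det3 (n i) (n j) c := by
    rw [← inner_smul_right, e, inner_add_right, inner_add_right, inner_smul_right,
      inner_smul_right, inner_smul_right, inner_cr, inner_cr, inner_cr]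
  have a1 : ⟪n i, x - v⟫ ≤ 0 := by
    rw [inner_sub_right, h1]
    linarith [hx i]
  have a2 : ⟪n j, x - v⟫ ≤ 0 := by
    rw [inner_sub_right, h2]
    linarith [hx j]
  have a3 : ⟪n k, x - v⟫ ≤ 0 := by
    rw [inner_sub_right, h3]
    linarith [hx k]
  have b1 := mul_nonneg_of_nonpos_of_nonpos a1 H.2.1.le
  have b2 := mul_nonneg_of_nonpos_of_nonpos a2 H.2.2.le
  have b3 := mul_nonneg_of_nonpos_of_nonpos a3 H.1.le
  have b4 : det3 (n i) (n j) (n k) * ⟪c, x - v⟫ ≤ 0 := by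
    apply mul_nonpos_of_nonneg_of_nonpos hd.le
    rw [inner_sub_right]
    linarith
  have c1 : ⟪n i, x - v⟫ = 0 := by
    have : ⟪n i, x - v⟫ * det3 (n j) (n k) c = 0 := by linarith
    exact (mul_eq_zero.mp this).resolve_right H.2.1.ne
  have c2 : ⟪n j, x - v⟫ = 0 := by
    have : ⟪n j, x - v⟫ * det3 (n k) (n i) c = 0 := by linarith
    exact (mul_eq_zero.mp this).resolve_right H.2.2.ne
  have c3 : ⟪n k, x - v⟫ = 0 := by
    have : ⟪n k, x - v⟫ * det3 (n i) (n j) c = 0 := by linarith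
    exact (mul_eq_zero.mp this).resolve_right H.1.ne
  rw [c1, c2, c3, zero_smul, zero_smul, zero_smul, add_zero, add_zero] at e
  exact sub_eq_zero.mp ((smul_eq_zero.mp e).resolve_left hd.ne')

/-- Down an edge. -/
theorem Good.down [Finite ι] (G : Good n h) {c : E3} {i j k : ι} (H : Vx n h i j k)
    (hs : 0 < det3 (n i) (n j) c) : ∃ k', Vx n h j i k' ∧ ∀ v v' : E3,
      ⟪n i, v⟫ = h i → ⟪n j, v⟫ = h j → ⟪n k, v⟫ = h k → ⟪n i, v'⟫ = h i → ⟪n j, v'⟫ = h j →
      ⟪n k', v'⟫ = h k' → ⟪c, v'⟫ < ⟪c, v⟫ := by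
  have hadj := adj_symm (H.adj G.sim)
  obtain ⟨k', H'⟩ := exists_Vx G.nn G.hh G.irr G.pos hadj
  refine ⟨k', H', ?_⟩
  intro v v' h1 h2 h3 h1' h2' h3'
  have hvP : v ∈ Poly n h := by
    obtain ⟨w, hw, w1, w2, w3⟩ := H.2
    rwa [Vx.pt_uniq H.1.ne' h1 h2 h3 w1 w2 w3]
  have hvP' : v' ∈ Poly n h := by
    obtain ⟨w, hw, w1, w2, w3⟩ := H'.2
    rwa [Vx.pt_uniq H'.1.ne' h2' h1' h3' w1 w2 w3]
  have e := cramer (n i) (n j) (n k) (v' - v)
  have e0 : ⟪n i, v' - v⟫ = 0 := by rw [inner_sub_right, h1, h1', sub_self]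
  have e1 : ⟪n j, v' - v⟫ = 0 := by rw [inner_sub_right, h2, h2', sub_self]
  rw [e0, e1, zero_smul, zero_smul, zero_add, zero_add] at e
  have e3 : ⟪n k, v' - v⟫ ≤ 0 := by
    rw [inner_sub_right, h3]
    linarith [hvP' k]
  have e4 : ⟪n k, v' - v⟫ ≠ 0 := by
    intro e5
    rw [e5, zero_smul] at e
    have e6 : v' = v := sub_eq_zero.mp ((smul_eq_zero.mp e).resolve_left H.1.ne')
    rw [e6] at h3'
    rcases G.sim v hvP i j k k' H.ne1 H.ne3.symm H.ne2 h1 h2 h3 h3' with r | r | r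
    · exact H'.ne2 r.symm
    · exact H'.ne3 r
    · have := H'.1
      rw [r, det3_swap] at this
      linarith [H.1]
  have e5 : det3 (n i) (n j) (n k) * ⟪c, v' - v⟫ = ⟪n k, v' - v⟫ * det3 (n i) (n j) c := by
    rw [← inner_smul_right, e, inner_smul_right, inner_cr]
  have e6 : ⟪n k, v' - v⟫ * det3 (n i) (n j) c < 0 :=
    mul_neg_of_neg_of_pos (lt_of_le_of_ne e3 e4) hs
  rw [← e5] at e6
  have e7 : ⟪c, v' - v⟫ < 0 := by
    by_contra hcon
    have := mul_nonneg H.1.le (not_lt.mp hcon)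
    linarith
  rw [inner_sub_right] at e7
  linarith

open Classical in
/-- There is exactly one lowest vertex. -/
theorem Good.bottom [Fintype ι] [Nonempty ι] (G : Good n h) (c : E3)
    (hc : ∀ i j, Adj n h i j → det3 (n i) (n j) c ≠ 0) :
    ∑ i, ∑ j ∈ nb n h i, (if Up n c i j (nx n h i j) then (1 : ℝ) else 0) = 3 := by
  have hpt : ∀ d : (_ : ι) × ι, ∃ v : E3, Adj n h d.1 d.2 → v ∈ Poly n h ∧ ⟪n d.1, v⟫ = h d.1 ∧
      ⟪n d.2, v⟫ = h d.2 ∧ ⟪n (nx n h d.1 d.2), v⟫ = h (nx n h d.1 d.2) := by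
    intro d
    by_cases H : Adj n h d.1 d.2
    · obtain ⟨v, hv⟩ := (G.vx H).2
      exact ⟨v, fun _ => hv⟩
    · exact ⟨0, fun h => absurd h H⟩
  choose pt hpt using hpt
  set D : Finset ((_ : ι) × ι) := Finset.univ.sigma fun i => nb n h i with hD
  have hmem : ∀ d : (_ : ι) × ι, d ∈ D ↔ Adj n h d.1 d.2 := by
    intro d
    rw [hD, Finset.mem_sigma, mem_nb]
    exact ⟨fun h => h.2, fun h => ⟨Finset.mem_univ _, h⟩⟩
  have hne : D.Nonempty := by
    obtain ⟨i⟩ := ‹Nonempty ι›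
    obtain ⟨j, hj⟩ := G.exists_adj i
    exact ⟨⟨i, j⟩, (hmem _).mpr hj⟩
  obtain ⟨⟨i, j⟩, hd, hmin⟩ := Finset.exists_min_image D (fun d => ⟪c, pt d⟫) hne
  rw [hmem] at hd
  simp only at hd
  have hV := G.vx hd
  obtain ⟨hvP, v1, v2, v3⟩ := hpt ⟨i, j⟩ hd
  simp only at v1 v2 v3
  set k := nx n h i j with hk
  set v := pt ⟨i, j⟩ with hv
  -- the three edges go up
  have hedge : ∀ a b e : ι, Vx n h a b e → ⟪n a, v⟫ = h a → ⟪n b, v⟫ = h b → ⟪n e, v⟫ = h e →
      det3 (n a) (n b) c < 0 := by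
    intro a b e hab w1 w2 w3
    by_contra hcon
    have h0 := hc a b (hab.adj G.sim)
    have h1 : 0 < det3 (n a) (n b) c := lt_of_le_of_ne (not_lt.mp hcon) h0.symm
    obtain ⟨k', hk', hlt⟩ := G.down hab h1
    have hba := hk'.adj G.sim
    have hnx : nx n h b a = k' := nx_eq G.sim hk'
    have h2 := hpt ⟨b, a⟩ hba
    simp only [hnx] at h2
    have h3 := hlt v (pt ⟨b, a⟩) w1 w2 w3 h2.2.2.1 h2.2.1 h2.2.2.2
    have h4 := hmin ⟨b, a⟩ ((hmem _).mpr hba)
    linarith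
  have hUp : Up n c i j k := ⟨hedge i j k hV v1 v2 v3, hedge j k i hV.rot v2 v3 v1,
    hedge k i j hV.rot.rot v3 v1 v2⟩
  have hjk : Adj n h j k := G.rot1 hd
  have hki : Adj n h k i := G.rot4 hd
  have e1 : nx n h j k = i := G.rot2 hd
  have e2 : nx n h k i = j := G.rot3 hd
  rw [Finset.sum_sigma', ← Finset.sum_filter]
  rw [Finset.sum_const, nsmul_eq_mul, mul_one]
  have hfil : (Finset.univ.sigma fun i => nb n h i).filter
      (fun d : (_ : ι) × ι => Up n c d.1 d.2 (nx n h d.1 d.2)) =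
      {(⟨i, j⟩ : (_ : ι) × ι), ⟨j, k⟩, ⟨k, i⟩} := by
    ext ⟨a, b⟩
    rw [← hD, Finset.mem_filter, hmem]
    simp only [Finset.mem_insert, Finset.mem_singleton]
    constructor
    · rintro ⟨hab, hU⟩
      obtain ⟨wP, w1, w2, w3⟩ := hpt ⟨a, b⟩ hab
      simp only at w1 w2 w3
      have hVab := G.vx hab
      have hle : ⟪c, v⟫ ≤ ⟪c, pt ⟨a, b⟩⟫ := hmin ⟨a, b⟩ ((hmem _).mpr hab)
      have heq : pt ⟨a, b⟩ = v := by
        rcases le_total ⟪c, pt ⟨a, b⟩⟫ ⟪c, v⟫ with hle2 | hle2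
        · exact hUp.low hV.1 v1 v2 v3 wP hle2
        · exact (hU.low hVab.1 w1 w2 w3 hvP hle2).symm
      rw [heq] at w1 w2 w3
      have ha := G.sim v hvP i j k a hV.ne1 hV.ne3.symm hV.ne2 v1 v2 v3 w1
      have hb := G.sim v hvP i j k b hV.ne1 hV.ne3.symm hV.ne2 v1 v2 v3 w2
      have he := G.sim v hvP i j k _ hV.ne1 hV.ne3.symm hV.ne2 v1 v2 v3 w3
      have n1 := hVab.ne1
      have n2 := hVab.ne2
      have n3 := hVab.ne3
      have hpos := hVab.1
      have hp0 := hV.1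
      generalize nx n h a b = e at *
      rcases ha with rfl | rfl | rfl
      · rcases hb with rfl | rfl | rfl
        · exact absurd rfl n1
        · exact Or.inl rfl
        · exfalso
          rcases he with rfl | rfl | rfl
          · exact n3 rfl
          · have := det3_swap23 (n a) (n e) (n k)
            linarith
          · exact n2 rfl
      · rcases hb with rfl | rfl | rfl
        · exfalso
          rcases he with rfl | rfl | rfl
          · exact n2 rfl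
          · exact n3 rfl
          · have := det3_swap (n b) (n a) (n k)
            linarith
        · exact absurd rfl n1
        · exact Or.inr (Or.inl rfl)
      · rcases hb with rfl | rfl | rfl
        · exact Or.inr (Or.inr rfl)
        · exfalso
          rcases he with rfl | rfl | rfl
          · have := det3_swap13 (n e) (n b) (n k)
            linarith
          · exact n2 rfl
          · exact n3 rfl
        · exact absurd rfl n1
    · rintro (r | r | r)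
      · injection r with r1 r2
        subst r1 r2
        exact ⟨hd, hUp⟩
      · injection r with r1 r2
        subst r1 r2
        refine ⟨hjk, ?_⟩
        simp only [e1]
        exact hUp.rot
      · injection r with r1 r2
        subst r1 r2
        refine ⟨hki, ?_⟩
        simp only [e2]
        exact hUp.rot.rot
  rw [hfil]
  rw [Finset.card_insert_of_notMem, Finset.card_insert_of_notMem, Finset.card_singleton]
  · norm_num
  · rw [Finset.mem_singleton]
    intro r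
    injection r with r1 r2
    exact hV.ne2 r1
  · rw [Finset.mem_insert, Finset.mem_singleton]
    rintro (r | r)
    · injection r with r1 r2
      exact hV.ne1 r1
    · injection r with r1 r2
      exact hV.ne3 r1.symm

/-- A generic functional. -/
theorem Good.exists_gen [Fintype ι] (G : Good n h) :
    ∃ c : E3, ∀ i j, Adj n h i j → det3 (n i) (n j) c ≠ 0 := by
  classical
  have hu : ∀ p : ι × ι, ∃ u : E3, u ≠ 0 ∧ (Adj n h p.1 p.2 → u = cr (n p.1) (n p.2)) := by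
    intro p
    by_cases H : Adj n h p.1 p.2
    · exact ⟨cr (n p.1) (n p.2), adj_cr G.nn G.hh G.irr H, fun _ => rfl⟩
    · refine ⟨n p.1, ?_, fun h => absurd h H⟩
      intro e
      have := G.nn p.1
      rw [e, norm_zero] at this
      norm_num at this
  choose u hu0 hu1 using hu
  have hdense : Dense (⋂ p : ι × ι, {c : E3 | ⟪c, u p⟫ ≠ 0}) :=
    dense_iInter_of_isOpen (fun p => (GEN_aux2 (u p) (hu0 p)).1)
      (fun p => (GEN_aux2 (u p) (hu0 p)).2)
  obtain ⟨c, hc, -⟩ := hdense.exists_dist_lt 0 one_pos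
  rw [mem_iInter] at hc
  refine ⟨c, fun i j H => ?_⟩
  have h1 : ⟪c, u (i, j)⟫ ≠ 0 := hc (i, j)
  rwa [hu1 (i, j) H, inner_cr] at h1

theorem sgn3 (a b c : ℝ) (ha : a ≠ 0) (hb : b ≠ 0) (hc : c ≠ 0) (P Q : Prop) [Decidable P]
    [Decidable Q] (hP : P ↔ a < 0 ∧ b < 0 ∧ c < 0) (hQ : Q ↔ -a < 0 ∧ -b < 0 ∧ -c < 0) :
    ((if a < 0 ∧ c < 0 then (1 : ℝ) else 0) + (if 0 < a ∧ 0 < c then (1 : ℝ) else 0)) +
    ((if b < 0 ∧ a < 0 then (1 : ℝ) else 0) + (if 0 < b ∧ 0 < a then (1 : ℝ) else 0)) +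
    ((if c < 0 ∧ b < 0 then (1 : ℝ) else 0) + (if 0 < c ∧ 0 < b then (1 : ℝ) else 0)) =
    1 + 2 * (if P then (1 : ℝ) else 0) + 2 * (if Q then (1 : ℝ) else 0) := by
  rcases lt_or_gt_of_ne ha with h1 | h1 <;> rcases lt_or_gt_of_ne hb with h2 | h2 <;>
    rcases lt_or_gt_of_ne hc with h3 | h3 <;>
    simp [hP, hQ, h1, h2, h3, h1.asymm, h2.asymm, h3.asymm] <;> norm_num

open Classical in
theorem Good.low_one [Fintype ι] (G : Good n h) (c : E3)
    (hc : ∀ i j, Adj n h i j → det3 (n i) (n j) c ≠ 0) (i : ι) :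
    ∑ j ∈ nb n h i, (if det3 (n i) (n j) c < 0 ∧ det3 (n (nx n h i j)) (n i) c < 0
      then (1 : ℝ) else 0) = 1 := by
  obtain ⟨j0, hj0, H⟩ := G.cross c hc i
  have h1 : ∀ j ∈ nb n h i, (if det3 (n i) (n j) c < 0 ∧ det3 (n (nx n h i j)) (n i) c < 0
      then (1 : ℝ) else 0) = if j = j0 then 1 else 0 := by
    intro j hj
    have h2 := H j hj
    have h3 : (det3 (n i) (n j) c < 0 ∧ det3 (n (nx n h i j)) (n i) c < 0) ↔ j = j0 := by
      rw [← h2, det3_swap (n i) (n (nx n h i j)) c]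
      constructor
      · rintro ⟨a, b⟩
        exact ⟨a, by linarith⟩
      · rintro ⟨a, b⟩
        exact ⟨a, by linarith⟩
    simp only [h3]
  rw [Finset.sum_congr rfl h1, Finset.sum_ite_eq', if_pos hj0]

theorem det3_neg (a b c : E3) : det3 a b (-c) = - det3 a b c := by
  simp only [det3, PiLp.neg_apply]
  ring

open Classical in
theorem Good.high_one [Fintype ι] (G : Good n h) (c : E3)
    (hc : ∀ i j, Adj n h i j → det3 (n i) (n j) c ≠ 0) (i : ι) :
    ∑ j ∈ nb n h i, (if 0 < det3 (n i) (n j) c ∧ 0 < det3 (n (nx n h i j)) (n i) c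
      then (1 : ℝ) else 0) = 1 := by
  have h1 := G.low_one (-c) (fun i j H => by rw [det3_neg]; exact neg_ne_zero.mpr (hc i j H)) i
  simp only [det3_neg, neg_lt_zero] at h1
  exact h1

/-- The number of darts. -/
theorem Good.card_darts [Fintype ι] [Nonempty ι] (G : Good n h) :
    ∑ i, ((nb n h i).card : ℝ) + 12 = 6 * Fintype.card ι := by
  classical
  obtain ⟨c, hc⟩ := G.exists_gen
  have hc' : ∀ i j, Adj n h i j → det3 (n i) (n j) (-c) ≠ 0 := fun i j H => by
    rw [det3_neg]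
    exact neg_ne_zero.mpr (hc i j H)
  set F : ι → ι → ι → ℝ := fun i j k =>
    (if det3 (n i) (n j) c < 0 ∧ det3 (n k) (n i) c < 0 then (1 : ℝ) else 0) +
    (if 0 < det3 (n i) (n j) c ∧ 0 < det3 (n k) (n i) c then (1 : ℝ) else 0) with hF
  have h1 : ∑ i, ∑ j ∈ nb n h i, F i j (nx n h i j) = 2 * Fintype.card ι := by
    have : ∀ i ∈ (Finset.univ : Finset ι), ∑ j ∈ nb n h i, F i j (nx n h i j) = 2 := by
      intro i _
      simp only [hF, Finset.sum_add_distrib]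
      rw [G.low_one c hc i, G.high_one c hc i]
      norm_num
    rw [Finset.sum_congr rfl this, Finset.sum_const, nsmul_eq_mul, Finset.card_univ]
    ring
  have h2 := G.sum_rot F
  have h3 := G.sum_rot (fun i j k => F j k i)
  have h4 := G.bottom c hc
  have h5 := G.bottom (-c) hc'
  have h6 : ∀ i, ∀ j ∈ nb n h i, F i j (nx n h i j) + F j (nx n h i j) i + F (nx n h i j) i j =
      1 + 2 * (if Up n c i j (nx n h i j) then (1 : ℝ) else 0) +
        2 * (if Up n (-c) i j (nx n h i j) then (1 : ℝ) else 0) := by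
    intro i j hj
    rw [mem_nb] at hj
    have e := sgn3 (det3 (n i) (n j) c) (det3 (n j) (n (nx n h i j)) c)
      (det3 (n (nx n h i j)) (n i) c) (hc _ _ hj) (hc _ _ (G.rot1 hj)) (hc _ _ (G.rot4 hj))
      (Up n c i j (nx n h i j)) (Up n (-c) i j (nx n h i j)) Iff.rfl
      (by rw [Up, det3_neg, det3_neg, det3_neg])
    exact e
  have h7 : ∑ i, ∑ j ∈ nb n h i, (F i j (nx n h i j) + F j (nx n h i j) i +
      F (nx n h i j) i j) = ∑ i, ((nb n h i).card : ℝ) + 12 := by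
    rw [Finset.sum_congr rfl fun i _ => Finset.sum_congr rfl (h6 i)]
    simp only [Finset.sum_add_distrib, ← Finset.mul_sum]
    rw [h4, h5]
    simp only [Finset.sum_const, nsmul_eq_mul, mul_one]
    ring
  simp only [Finset.sum_add_distrib] at h7
  linarith

end poly

end Pool.Agent.SDL
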