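import Pool.Agent.SDL.CSearchDef

set_option autoImplicit false

/-!
# CSearch: soundness of the growth search
-/

namespace Pool.Agent.SDL.CS

/-- A map with triangular faces, given by the rotation `nx` of the neighbours. -/
structure CM {V : Type} (nb : V → Finset V) (nx : V → V → V) : Prop where
  ne : ∀ i j, j ∈ nb i → i ≠ j
  symm : ∀ i j, j ∈ nb i → i ∈ nb j
  mem : ∀ i j, j ∈ nb i → nx i j ∈ nb i
  mem' : ∀ i j, j ∈ nb i → nx i j ∈ nb j
  rot : ∀ i j, j ∈ nb i → nx j (nx i j) = i
  rot' : ∀ i j, j ∈ nb i → nx (nx i j) i = j
  inj : ∀ i j k, j ∈ nb i → k ∈ nb i → nx i j = nx i k → j = k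
  cyc : ∀ i, ∀ S : Finset V, S ⊆ nb i → S.Nonempty → (∀ j ∈ S, nx i j ∈ S) → S = nb i

section lists

theorem Brec {α : Type} (a b : α) (c : Bool) :
    Bool.rec (motive := fun _ => α) a b c = if c = true then b else a := by
  cases c <;> rfl

theorem beq_iff (x y : ℕ) : Nat.beq x y = true ↔ x = y := Nat.beq_eq ▸ Iff.rfl

theorem nxt_cons (x y : ℕ) (l : List ℕ) (b : ℕ) :
    nxt (x :: y :: l) b = if x = b then some y else nxt (y :: l) b := by
  change Bool.rec (motive := fun _ => Option ℕ) (nxt (y :: l) b) (some y) (Nat.beq x b) = _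
  rw [Brec]
  simp only [beq_iff]

theorem prv_cons (x y : ℕ) (l : List ℕ) (b : ℕ) :
    prv (x :: y :: l) b = if y = b then some x else prv (y :: l) b := by
  change Bool.rec (motive := fun _ => Option ℕ) (prv (y :: l) b) (some x) (Nat.beq y b) = _
  rw [Brec]
  simp only [beq_iff]

theorem la_cons (x y : ℕ) (l : List ℕ) : la (x :: y :: l) = la (y :: l) := rfl
theorem la_one (x : ℕ) : la [x] = x := rfl
theorem hd_cons (x : ℕ) (l : List ℕ) : hd (x :: l) = x := rfl

theorem app_eq (P Q : List ℕ) : app P Q = P ++ Q := by
  induction P with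
  | nil => rfl
  | cons x P ih =>
    change x :: app P Q = x :: (P ++ Q)
    rw [ih]

theorem la_mem (P : List ℕ) (h : P ≠ []) : la P ∈ P := by
  induction P with
  | nil => exact absurd rfl h
  | cons x P ih =>
    cases P with
    | nil => exact List.mem_singleton.mpr rfl
    | cons y l =>
      rw [la_cons]
      exact List.mem_cons_of_mem _ (ih (List.cons_ne_nil _ _))

theorem hd_mem (P : List ℕ) (h : P ≠ []) : hd P ∈ P := by
  cases P with
  | nil => exact absurd rfl h
  | cons x P => exact List.mem_cons_self

theorem nxts_cons (P : List ℕ) (ps : List (List ℕ)) (b : ℕ) :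
    nxts (P :: ps) b = Option.rec (motive := fun _ => Option ℕ) (nxts ps b) (fun y => some y)
      (nxt P b) := rfl

theorem prvs_cons (P : List ℕ) (ps : List (List ℕ)) (b : ℕ) :
    prvs (P :: ps) b = Option.rec (motive := fun _ => Option ℕ) (prvs ps b) (fun y => some y)
      (prv P b) := rfl

variable {V : Type} {nx : V → V → V} {φ : ℕ → V} {w : V}

/-- The list is an arc of the cyclic list of neighbours of `w`. -/
def Arc (nx : V → V → V) (φ : ℕ → V) (w : V) : List ℕ → Prop
  | [] => True
  | [_] => True
  | x :: y :: l => nx w (φ x) = φ y ∧ Arc nx φ w (y :: l)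

theorem Arc.tail {x : ℕ} {l : List ℕ} (h : Arc nx φ w (x :: l)) : Arc nx φ w l := by
  cases l with
  | nil => trivial
  | cons y l => exact h.2

theorem Arc.congr {ψ : ℕ → V} : ∀ {P : List ℕ}, Arc nx φ w P → (∀ x ∈ P, ψ x = φ x) →
    Arc nx ψ w P
  | [], _, _ => trivial
  | [_], _, _ => trivial
  | x :: y :: l, h, e => by
    refine ⟨?_, Arc.congr h.2 fun z hz => e z (List.mem_cons_of_mem _ hz)⟩
    rw [e x List.mem_cons_self, e y (List.mem_cons_of_mem _ List.mem_cons_self)]
    exact h.1

theorem Arc.append : ∀ {P Q : List ℕ}, Arc nx φ w P → Arc nx φ w Q → P ≠ [] → Q ≠ [] →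
    nx w (φ (la P)) = φ (hd Q) → Arc nx φ w (P ++ Q)
  | [], _, _, _, h, _, _ => absurd rfl h
  | [x], [], _, _, _, h, _ => absurd rfl h
  | [x], y :: l, _, hQ, _, _, e => ⟨e, hQ⟩
  | x :: y :: l, Q, hP, hQ, _, h, e => by
    refine ⟨hP.1, ?_⟩
    exact Arc.append (P := y :: l) hP.2 hQ (List.cons_ne_nil _ _) h e

theorem nxt_some {b y : ℕ} : ∀ {P : List ℕ}, nxt P b = some y → Arc nx φ w P →
    nx w (φ b) = φ y ∧ y ∈ P
  | [], h, _ => by cases h
  | [_], h, _ => by cases h
  | x :: z :: l, h, hA => by
    rw [nxt_cons] at h
    split_ifs at h with h1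
    · cases h
      subst h1
      exact ⟨hA.1, List.mem_cons_of_mem _ List.mem_cons_self⟩
    · obtain ⟨h2, h3⟩ := nxt_some h hA.2
      exact ⟨h2, List.mem_cons_of_mem _ h3⟩

theorem nxt_none {b : ℕ} : ∀ {P : List ℕ}, nxt P b = none → b ∈ P → la P = b
  | [], _, h => by cases h
  | [x], _, h => (List.mem_singleton.mp h).symm
  | x :: z :: l, h, hb => by
    rw [nxt_cons] at h
    split_ifs at h with h1
    rw [la_cons]
    apply nxt_none h
    rcases List.mem_cons.mp hb with e | e
    · exact absurd e.symm h1
    · exact e

theorem prv_some {c y : ℕ} : ∀ {P : List ℕ}, prv P c = some y → Arc nx φ w P →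
    nx w (φ y) = φ c ∧ y ∈ P
  | [], h, _ => by cases h
  | [_], h, _ => by cases h
  | x :: z :: l, h, hA => by
    rw [prv_cons] at h
    split_ifs at h with h1
    · cases h
      subst h1
      exact ⟨hA.1, List.mem_cons_self⟩
    · obtain ⟨h2, h3⟩ := prv_some h hA.2
      exact ⟨h2, List.mem_cons_of_mem _ h3⟩

theorem prv_none {c : ℕ} : ∀ {P : List ℕ}, prv P c = none → c ∈ P → hd P = c
  | [], _, h => by cases h
  | [x], _, h => (List.mem_singleton.mp h).symm
  | x :: z :: l, h, hb => by
    rw [prv_cons] at h
    split_ifs at h with h1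
    rcases List.mem_cons.mp hb with e | e
    · exact e.symm
    · exact absurd (prv_none h e) h1

theorem prv_ne_la {c y : ℕ} : ∀ {P : List ℕ}, prv P c = some y → P.Nodup → y ≠ la P
  | [], h, _ => by cases h
  | [_], h, _ => by cases h
  | x :: z :: l, h, hA => by
    rw [prv_cons] at h
    rw [la_cons]
    split_ifs at h with h1
    · cases h
      rintro e
      have := la_mem (z :: l) (List.cons_ne_nil _ _)
      rw [← e] at this
      exact (List.nodup_cons.mp hA).1 this
    · exact prv_ne_la h (List.nodup_cons.mp hA).2

theorem nxts_some {b y : ℕ} : ∀ {ps : List (List ℕ)}, nxts ps b = some y →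
    (∀ P ∈ ps, Arc nx φ w P) → nx w (φ b) = φ y ∧ ∃ P ∈ ps, y ∈ P
  | [], h, _ => by cases h
  | P :: ps, h, hA => by
    rw [nxts_cons] at h
    cases h1 : nxt P b with
    | none =>
      rw [h1] at h
      obtain ⟨h2, Q, hQ, h3⟩ := nxts_some (ps := ps) h fun Q hQ => hA Q (List.mem_cons_of_mem _ hQ)
      exact ⟨h2, Q, List.mem_cons_of_mem _ hQ, h3⟩
    | some z =>
      rw [h1] at h
      cases h
      obtain ⟨h2, h3⟩ := nxt_some h1 (hA P List.mem_cons_self)
      exact ⟨h2, P, List.mem_cons_self, h3⟩

theorem nxts_none {b : ℕ} : ∀ {ps : List (List ℕ)}, nxts ps b = none →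
    ∀ P ∈ ps, b ∈ P → la P = b
  | [], _, P, hP, _ => by cases hP
  | P :: ps, h, Q, hQ, hb => by
    rw [nxts_cons] at h
    cases h1 : nxt P b with
    | none =>
      rw [h1] at h
      rcases List.mem_cons.mp hQ with e | e
      · subst e
        exact nxt_none h1 hb
      · exact nxts_none (ps := ps) h Q e hb
    | some z =>
      rw [h1] at h
      cases h

theorem prvs_some {b y : ℕ} : ∀ {ps : List (List ℕ)}, prvs ps b = some y →
    (∀ P ∈ ps, Arc nx φ w P) → nx w (φ y) = φ b ∧ ∃ P ∈ ps, y ∈ P
  | [], h, _ => by cases h
  | P :: ps, h, hA => by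
    rw [prvs_cons] at h
    cases h1 : prv P b with
    | none =>
      rw [h1] at h
      obtain ⟨h2, Q, hQ, h3⟩ := prvs_some (ps := ps) h fun Q hQ => hA Q (List.mem_cons_of_mem _ hQ)
      exact ⟨h2, Q, List.mem_cons_of_mem _ hQ, h3⟩
    | some z =>
      rw [h1] at h
      cases h
      obtain ⟨h2, h3⟩ := prv_some h1 (hA P List.mem_cons_self)
      exact ⟨h2, P, List.mem_cons_self, h3⟩

theorem prvs_none {b : ℕ} : ∀ {ps : List (List ℕ)}, prvs ps b = none →
    ∀ P ∈ ps, b ∈ P → hd P = b
  | [], _, P, hP, _ => by cases hP
  | P :: ps, h, Q, hQ, hb => by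
    rw [prvs_cons] at h
    cases h1 : prv P b with
    | none =>
      rw [h1] at h
      rcases List.mem_cons.mp hQ with e | e
      · subst e
        exact prv_none h1 hb
      · exact prvs_none (ps := ps) h Q e hb
    | some z =>
      rw [h1] at h
      cases h

theorem takeLast_cons (P : List ℕ) (ps : List (List ℕ)) (b : ℕ) :
    takeLast (P :: ps) b = if la P = b then some (P, ps) else
      Option.rec (motive := fun _ => Option (List ℕ × List (List ℕ))) none
        (fun r => some (r.1, P :: r.2)) (takeLast ps b) := by
  change Bool.rec (motive := fun _ => Option (List ℕ × List (List ℕ))) _ _ (Nat.beq (la P) b) = _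
  rw [Brec]
  simp only [beq_iff]
  rfl

theorem takeHead_cons (P : List ℕ) (ps : List (List ℕ)) (b : ℕ) :
    takeHead (P :: ps) b = if hd P = b then some (P, ps) else
      Option.rec (motive := fun _ => Option (List ℕ × List (List ℕ))) none
        (fun r => some (r.1, P :: r.2)) (takeHead ps b) := by
  change Bool.rec (motive := fun _ => Option (List ℕ × List (List ℕ))) _ _ (Nat.beq (hd P) b) = _
  rw [Brec]
  simp only [beq_iff]
  rfl

theorem takeLast_some {b : ℕ} : ∀ {ps : List (List ℕ)} {r : List ℕ × List (List ℕ)},
    takeLast ps b = some r → la r.1 = b ∧ (∀ Q, Q ∈ ps ↔ (Q = r.1 ∨ Q ∈ r.2)) ∧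
      ps.flatten.Perm (r.1 ++ r.2.flatten)
  | [], r, h => by cases h
  | P :: ps, r, h => by
    rw [takeLast_cons] at h
    split_ifs at h with h1
    · cases h
      exact ⟨h1, fun Q => List.mem_cons, List.Perm.refl _⟩
    · cases h2 : takeLast ps b with
      | none =>
        rw [h2] at h
        cases h
      | some q =>
        rw [h2] at h
        cases h
        obtain ⟨i1, i2, i3⟩ := takeLast_some h2
        refine ⟨i1, ?_, ?_⟩
        · intro Q
          rw [List.mem_cons, i2, List.mem_cons]
          tauto
        · change (P ++ ps.flatten).Perm (q.1 ++ (P ++ q.2.flatten))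
          refine ((List.Perm.append_left P i3).trans ?_)
          rw [← List.append_assoc, ← List.append_assoc]
          exact List.Perm.append_right _ List.perm_append_comm

theorem takeHead_some {b : ℕ} : ∀ {ps : List (List ℕ)} {r : List ℕ × List (List ℕ)},
    takeHead ps b = some r → hd r.1 = b ∧ (∀ Q, Q ∈ ps ↔ (Q = r.1 ∨ Q ∈ r.2)) ∧
      ps.flatten.Perm (r.1 ++ r.2.flatten)
  | [], r, h => by cases h
  | P :: ps, r, h => by
    rw [takeHead_cons] at h
    split_ifs at h with h1
    · cases h
      exact ⟨h1, fun Q => List.mem_cons, List.Perm.refl _⟩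
    · cases h2 : takeHead ps b with
      | none =>
        rw [h2] at h
        cases h
      | some q =>
        rw [h2] at h
        cases h
        obtain ⟨i1, i2, i3⟩ := takeHead_some h2
        refine ⟨i1, ?_, ?_⟩
        · intro Q
          rw [List.mem_cons, i2, List.mem_cons]
          tauto
        · change (P ++ ps.flatten).Perm (q.1 ++ (P ++ q.2.flatten))
          refine ((List.Perm.append_left P i3).trans ?_)
          rw [← List.append_assoc, ← List.append_assoc]
          exact List.Perm.append_right _ List.perm_append_comm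

theorem takeLast_none {b : ℕ} : ∀ {ps : List (List ℕ)}, takeLast ps b = none →
    ∀ P ∈ ps, la P ≠ b
  | [], _, P, hP => by cases hP
  | P :: ps, h, Q, hQ => by
    rw [takeLast_cons] at h
    split_ifs at h with h1
    cases h2 : takeLast ps b with
    | none =>
      rcases List.mem_cons.mp hQ with e | e
      · rw [e]
        exact h1
      · exact takeLast_none h2 Q e
    | some q =>
      rw [h2] at h
      cases h

theorem takeHead_none {b : ℕ} : ∀ {ps : List (List ℕ)}, takeHead ps b = none →
    ∀ P ∈ ps, hd P ≠ b
  | [], _, P, hP => by cases hP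
  | P :: ps, h, Q, hQ => by
    rw [takeHead_cons] at h
    split_ifs at h with h1
    cases h2 : takeHead ps b with
    | none =>
      rcases List.mem_cons.mp hQ with e | e
      · rw [e]
        exact h1
      · exact takeHead_none h2 Q e
    | some q =>
      rw [h2] at h
      cases h

end lists

section vertex

variable {V : Type} [DecidableEq V] {nb : V → Finset V} {nx : V → V → V} {φ : ℕ → V} {m : ℕ}

/-- Meaning of a record. -/
structure SV (nb : V → Finset V) (nx : V → V → V) (φ : ℕ → V) (m a : ℕ) (v : Vt) : Prop where
  id : v.id = a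
  deg : (nb (φ a)).card = v.deg
  nn : v.n = v.ps.flatten.length
  nodup : v.ps.flatten.Nodup
  ne : ∀ P ∈ v.ps, P ≠ []
  arc : ∀ P ∈ v.ps, Arc nx φ (φ a) P
  mem : ∀ x ∈ v.ps.flatten, x < m ∧ φ x ∈ nb (φ a)
  cl : v.cl = true → ∃ P, v.ps = [P] ∧ nx (φ a) (φ (la P)) = φ (hd P) ∧
    ∀ w ∈ nb (φ a), ∃ x ∈ P, φ x = w

theorem card_labels {a : ℕ} (hφ : ∀ x < m, ∀ y < m, φ x = φ y → x = y) (L : List ℕ)
    (hL : L.Nodup) (hm : ∀ x ∈ L, x < m ∧ φ x ∈ nb (φ a)) : L.length ≤ (nb (φ a)).card := by
  have h1 : (L.map φ).Nodup := by
    apply List.Nodup.map_on _ hL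
    intro x hx y hy e
    exact hφ x (hm x hx).1 y (hm y hy).1 e
  have h2 : (L.map φ).toFinset ⊆ nb (φ a) := by
    intro v hv
    rw [List.mem_toFinset, List.mem_map] at hv
    obtain ⟨x, hx, rfl⟩ := hv
    exact (hm x hx).2
  have h3 := Finset.card_le_card h2
  rwa [List.toFinset_card_of_nodup h1, List.length_map] at h3

/-- replacing the arcs -/
theorem SV.mk' {a : ℕ} {v : Vt} (h : SV nb nx φ m a v) (n : ℕ) (ps : List (List ℕ))
    (L : List ℕ) (hp : ps.flatten.Perm L) (hn : n = L.length) (hL : L.Nodup)
    (hne : ∀ P ∈ ps, P ≠ []) (harc : ∀ P ∈ ps, Arc nx φ (φ a) P)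
    (hm : ∀ x ∈ L, x < m ∧ φ x ∈ nb (φ a)) : SV nb nx φ m a ⟨v.id, v.deg, n, false, ps⟩ where
  id := h.id
  deg := h.deg
  nn := by
    change n = ps.flatten.length
    rw [hn, hp.length_eq]
  nodup := hp.nodup_iff.mpr hL
  ne := hne
  arc := harc
  mem x hx := hm x (hp.subset hx)
  cl := fun e => by cases e

theorem glueC_sound (C : CM nb nx) {a b c : ℕ} {v : Vt} (h : SV nb nx φ m a v)
    (hcl : v.cl = true) (hφ : ∀ x < m, ∀ y < m, φ x = φ y → x = y) (hb : b < m) (hc : c < m)
    (hbn : φ b ∈ nb (φ a)) (hnx : nx (φ a) (φ b) = φ c) :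
    ∃ v', glueC v b c = some v' ∧ SV nb nx φ m a v' := by
  obtain ⟨P, hP, hlast, hall⟩ := h.cl hcl
  refine ⟨v, ?_, h⟩
  have hbP : b ∈ P := by
    obtain ⟨x, hx, e⟩ := hall _ hbn
    have hxm : x < m := (h.mem x (by rw [hP]; simpa using hx)).1
    rwa [← hφ x hxm b hb e]
  have hPA : Arc nx φ (φ a) P := h.arc P (by rw [hP]; exact List.mem_singleton.mpr rfl)
  unfold glueC
  rw [hP]
  change Option.rec (motive := fun _ => Option Vt)
      (Bool.rec (motive := fun _ => Option Vt) none
        (Bool.rec (motive := fun _ => Option Vt) none (some v) (Nat.beq (hd P) c))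
        (Nat.beq (la P) b))
      (fun x => Bool.rec (motive := fun _ => Option Vt) none (some v) (Nat.beq x c))
      (nxt P b) = some v
  cases h1 : nxt P b with
  | none =>
    have h2 := nxt_none h1 hbP
    have h3 : hd P = c := by
      have hne : P ≠ [] := h.ne P (by rw [hP]; exact List.mem_singleton.mpr rfl)
      have h4 : hd P < m := (h.mem (hd P) (by rw [hP]; simpa using hd_mem P hne)).1
      apply hφ _ h4 _ hc
      rw [← hlast, h2, hnx]
    change Bool.rec (motive := fun _ => Option Vt) none
        (Bool.rec (motive := fun _ => Option Vt) none (some v) (Nat.beq (hd P) c))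
        (Nat.beq (la P) b) = some v
    rw [(beq_iff _ _).mpr h2, (beq_iff _ _).mpr h3]
  | some x =>
    obtain ⟨h2, h3⟩ := nxt_some h1 hPA
    have h4 : x < m := (h.mem x (by rw [hP]; simpa using h3)).1
    have h5 : x = c := hφ _ h4 _ hc (by rw [← h2, hnx])
    change Bool.rec (motive := fun _ => Option Vt) none (some v) (Nat.beq x c) = some v
    rw [(beq_iff _ _).mpr h5]

theorem arc_cl {w : V} : ∀ {P : List ℕ}, Arc nx φ w P → ∀ x ∈ P, x = la P ∨
    ∃ y ∈ P, nx w (φ x) = φ y
  | [], _, x, hx => by cases hx
  | [z], _, x, hx => Or.inl (List.mem_singleton.mp hx)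
  | z :: y :: l, hA, x, hx => by
    rcases List.mem_cons.mp hx with e | e
    · right
      refine ⟨y, List.mem_cons_of_mem _ List.mem_cons_self, ?_⟩
      rw [e]
      exact hA.1
    · rw [la_cons]
      rcases arc_cl hA.2 x e with h | ⟨q, hq, h⟩
      · exact Or.inl h
      · exact Or.inr ⟨q, List.mem_cons_of_mem _ hq, h⟩

theorem glueO_sound (C : CM nb nx) {a b c : ℕ} {v : Vt} (h : SV nb nx φ m a v)
    (hcl : v.cl = false) (hφ : ∀ x < m, ∀ y < m, φ x = φ y → x = y) (hb : b < m) (hc : c < m)
    (hbn : φ b ∈ nb (φ a)) (hnx : nx (φ a) (φ b) = φ c) :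
    ∃ v', glueO v b c = some v' ∧ SV nb nx φ m a v' := by
  have hcn : φ c ∈ nb (φ a) := by
    rw [← hnx]
    exact C.mem _ _ hbn
  have hbc : b ≠ c := by
    rintro rfl
    have h1 := C.mem' _ _ hbn
    rw [hnx] at h1
    exact C.ne _ _ h1 rfl
  have hflat : ∀ Q ∈ v.ps, ∀ x ∈ Q, x ∈ v.ps.flatten := fun Q hQ x hx =>
    List.mem_flatten.mpr ⟨Q, hQ, hx⟩
  unfold glueO
  cases h1 : nxts v.ps b with
  | some x =>
    obtain ⟨h2, Q, hQ, h3⟩ := nxts_some h1 h.arc
    have h4 : x = c := hφ _ (h.mem x (hflat Q hQ x h3)).1 _ hc (by rw [← h2, hnx])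
    refine ⟨v, ?_, h⟩
    change Bool.rec (motive := fun _ => Option Vt) none (some v) (Nat.beq x c) = some v
    rw [(beq_iff _ _).mpr h4]
  | none =>
    cases h2 : prvs v.ps c with
    | some y =>
      obtain ⟨h3, Q, hQ, h4⟩ := prvs_some h2 h.arc
      have hy := h.mem y (hflat Q hQ y h4)
      have h5 : y = b := by
        apply hφ _ hy.1 _ hb
        apply C.inj _ _ _ hy.2 hbn
        rw [h3, hnx]
      refine ⟨v, ?_, h⟩
      change Bool.rec (motive := fun _ => Option Vt) none (some v) (Nat.beq y b) = some v
      rw [(beq_iff _ _).mpr h5]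
    | none =>
      have n1 := nxts_none h1
      have n2 := prvs_none h2
      cases h3 : takeLast v.ps b with
      | none =>
        have n3 := takeLast_none h3
        have hbf : b ∉ v.ps.flatten := by
          intro hbf
          obtain ⟨Q, hQ, hbQ⟩ := List.mem_flatten.mp hbf
          exact n3 Q hQ (n1 Q hQ hbQ)
        cases h4 : takeHead v.ps c with
        | none =>
          have n4 := takeHead_none h4
          have hcf : c ∉ v.ps.flatten := by
            intro hcf
            obtain ⟨Q, hQ, hbQ⟩ := List.mem_flatten.mp hcf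
            exact n4 Q hQ (n2 Q hQ hbQ)
          have hL : (b :: c :: v.ps.flatten).Nodup := by
            rw [List.nodup_cons, List.nodup_cons, List.mem_cons]
            exact ⟨fun e => e.elim hbc hbf, hcf, h.nodup⟩
          have hm : ∀ x ∈ b :: c :: v.ps.flatten, x < m ∧ φ x ∈ nb (φ a) := by
            intro x hx
            rcases List.mem_cons.mp hx with e | e
            · rw [e]
              exact ⟨hb, hbn⟩
            rcases List.mem_cons.mp e with e | e
            · rw [e]
              exact ⟨hc, hcn⟩
            · exact h.mem x e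
          have hcard := card_labels hφ _ hL hm
          rw [h.deg, List.length_cons, List.length_cons, ← h.nn] at hcard
          refine ⟨⟨v.id, v.deg, Nat.succ (Nat.succ v.n), false, [b, c] :: v.ps⟩, ?_, ?_⟩
          · change Bool.rec (motive := fun _ => Option Vt) none
              (some ⟨v.id, v.deg, Nat.succ (Nat.succ v.n), false, [b, c] :: v.ps⟩)
              (Nat.ble (Nat.succ (Nat.succ v.n)) v.deg) = _
            rw [Nat.ble_eq_true_of_le hcard]
          · apply h.mk' _ _ (b :: c :: v.ps.flatten) (List.Perm.refl _) _ hL _ _ hm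
            · rw [List.length_cons, List.length_cons, ← h.nn]
            · intro P hP
              rcases List.mem_cons.mp hP with e | e
              · rw [e]
                exact List.cons_ne_nil _ _
              · exact h.ne P e
            · intro P hP
              rcases List.mem_cons.mp hP with e | e
              · rw [e]
                exact ⟨hnx, trivial⟩
              · exact h.arc P e
        | some r =>
          obtain ⟨i1, i2, i3⟩ := takeHead_some h4
          have hr1 : r.1 ∈ v.ps := (i2 _).mpr (Or.inl rfl)
          have hr2 : ∀ Q ∈ r.2, Q ∈ v.ps := fun Q hQ => (i2 _).mpr (Or.inr hQ)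
          have hL : (b :: (r.1 ++ r.2.flatten)).Nodup := by
            rw [List.nodup_cons]
            exact ⟨fun e => hbf (i3.symm.subset e), i3.nodup_iff.mp h.nodup⟩
          have hm : ∀ x ∈ b :: (r.1 ++ r.2.flatten), x < m ∧ φ x ∈ nb (φ a) := by
            intro x hx
            rcases List.mem_cons.mp hx with e | e
            · rw [e]
              exact ⟨hb, hbn⟩
            · exact h.mem x (i3.symm.subset e)
          have hcard := card_labels hφ _ hL hm
          rw [h.deg, List.length_cons, ← i3.length_eq, ← h.nn] at hcard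
          refine ⟨⟨v.id, v.deg, Nat.succ v.n, false, (b :: r.1) :: r.2⟩, ?_, ?_⟩
          · change Bool.rec (motive := fun _ => Option Vt) none
              (some ⟨v.id, v.deg, Nat.succ v.n, false, (b :: r.1) :: r.2⟩)
              (Nat.ble (Nat.succ v.n) v.deg) = _
            rw [Nat.ble_eq_true_of_le hcard]
          · apply h.mk' _ _ (b :: (r.1 ++ r.2.flatten)) (List.Perm.refl _) _ hL _ _ hm
            · rw [List.length_cons, ← i3.length_eq, ← h.nn]
            · intro P hP
              rcases List.mem_cons.mp hP with e | e
              · rw [e]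
                exact List.cons_ne_nil _ _
              · exact h.ne P (hr2 P e)
            · intro P hP
              rcases List.mem_cons.mp hP with e | e
              · rw [e]
                have hne := h.ne _ hr1
                have := Arc.append (nx := nx) (φ := φ) (w := φ a) (P := [b]) (Q := r.1) trivial
                  (h.arc _ hr1) (List.cons_ne_nil _ _) hne (by
                    rw [la_one, hnx, i1])
                exact this
              · exact h.arc P (hr2 P e)
      | some r =>
        obtain ⟨i1, i2, i3⟩ := takeLast_some h3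
        have hr1 : r.1 ∈ v.ps := (i2 _).mpr (Or.inl rfl)
        have hr2 : ∀ Q ∈ r.2, Q ∈ v.ps := fun Q hQ => (i2 _).mpr (Or.inr hQ)
        have hne1 := h.ne _ hr1
        have hnd : (r.1 ++ r.2.flatten).Nodup := i3.nodup_iff.mp h.nodup
        by_cases hhd : hd r.1 = c
        · -- closing
          have hclo : nx (φ a) (φ (la r.1)) = φ (hd r.1) := by rw [i1, hhd, hnx]
          set S : Finset V := (r.1.map φ).toFinset with hS
          have hmS : ∀ u, u ∈ S ↔ ∃ x ∈ r.1, φ x = u := by
            intro u
            rw [hS, List.mem_toFinset, List.mem_map]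
          have hSn : S = nb (φ a) := by
            apply C.cyc
            · intro u hu
              obtain ⟨x, hx, rfl⟩ := (hmS u).mp hu
              exact (h.mem x (hflat _ hr1 x hx)).2
            · exact ⟨φ (hd r.1), (hmS _).mpr ⟨_, hd_mem _ hne1, rfl⟩⟩
            · intro u hu
              obtain ⟨x, hx, rfl⟩ := (hmS u).mp hu
              rcases arc_cl (h.arc _ hr1) x hx with e | ⟨y, hy, e⟩
              · rw [e, hclo]
                exact (hmS _).mpr ⟨_, hd_mem _ hne1, rfl⟩
              · rw [e]
                exact (hmS _).mpr ⟨y, hy, rfl⟩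
          have hall : ∀ w ∈ nb (φ a), ∃ x ∈ r.1, φ x = w := by
            intro w hw
            rw [← hSn] at hw
            exact (hmS w).mp hw
          have hrest : r.2 = [] := by
            rcases hr : r.2 with _ | ⟨Q, qs⟩
            · rfl
            · exfalso
              have hQ : Q ∈ r.2 := by rw [hr]; exact List.mem_cons_self
              have hQne := h.ne Q (hr2 Q hQ)
              have hx := hd_mem Q hQne
              have hxf := h.mem _ (hflat Q (hr2 Q hQ) _ hx)
              obtain ⟨y, hy, e⟩ := hall _ hxf.2
              have e2 := hφ _ (h.mem y (hflat _ hr1 y hy)).1 _ hxf.1 e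
              have hdis := List.disjoint_of_nodup_append hnd
              apply hdis hy
              rw [e2]
              exact List.mem_flatten.mpr ⟨Q, hQ, hx⟩
          have hlen : v.n = v.deg := by
            rw [h.nn, i3.length_eq, hrest, ← h.deg, ← hSn, hS]
            have h1 : (r.1.map φ).Nodup := by
              apply List.Nodup.map_on _ (List.Nodup.of_append_left hnd)
              intro x hx y hy e
              exact hφ x (h.mem x (hflat _ hr1 x hx)).1 y (h.mem y (hflat _ hr1 y hy)).1 e
            rw [List.toFinset_card_of_nodup h1, List.length_map]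
            simp
          refine ⟨⟨v.id, v.deg, v.n, true, [r.1]⟩, ?_, ?_⟩
          · change Bool.rec (motive := fun _ => Option Vt) _
              (List.rec (motive := fun _ => Option Vt)
            (Bool.rec (motive := fun _ => Option Vt) none
              (some ⟨v.id, v.deg, v.n, true, [r.1]⟩) (Nat.beq v.n v.deg))
            (fun _ _ _ => none) r.2)
              (Nat.beq (hd r.1) c) = _
            rw [(beq_iff _ _).mpr hhd, hrest]
            change (Bool.rec (motive := fun _ => Option Vt) none
              (some ⟨v.id, v.deg, v.n, true, [r.1]⟩) (Nat.beq v.n v.deg)) = _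
            rw [(beq_iff _ _).mpr hlen]
          · rw [hrest] at i3
            have i4 : v.ps.flatten.Perm r.1 := by simpa using i3
            refine ⟨h.id, h.deg, ?_, ?_, ?_, ?_, ?_, ?_⟩
            · change v.n = ([r.1] : List (List ℕ)).flatten.length
              rw [h.nn, i4.length_eq]
              simp
            · change ([r.1] : List (List ℕ)).flatten.Nodup
              rw [List.flatten_singleton]
              exact i4.nodup_iff.mp h.nodup
            · intro P hP
              rw [List.mem_singleton.mp hP]
              exact hne1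
            · intro P hP
              rw [List.mem_singleton.mp hP]
              exact h.arc _ hr1
            · intro x hx
              change x ∈ ([r.1] : List (List ℕ)).flatten at hx
              rw [List.flatten_singleton] at hx
              exact h.mem x (hflat _ hr1 x hx)
            · intro _
              exact ⟨r.1, rfl, hclo, hall⟩
        · have hhd' : Nat.beq (hd r.1) c = false := by
            rw [← Bool.not_eq_true, beq_iff]
            exact hhd
          have hc1 : c ∉ r.1 := fun e => hhd (n2 _ hr1 e)
          cases h4 : takeHead r.2 c with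
          | none =>
            have n4 := takeHead_none h4
            have hc2 : c ∉ r.2.flatten := by
              intro hcf
              obtain ⟨Q, hQ, hbQ⟩ := List.mem_flatten.mp hcf
              exact n4 Q hQ (n2 Q (hr2 Q hQ) hbQ)
            have hL : (c :: (r.1 ++ r.2.flatten)).Nodup := by
              rw [List.nodup_cons, List.mem_append]
              exact ⟨fun e => e.elim hc1 hc2, hnd⟩
            have hm : ∀ x ∈ c :: (r.1 ++ r.2.flatten), x < m ∧ φ x ∈ nb (φ a) := by
              intro x hx
              rcases List.mem_cons.mp hx with e | e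
              · rw [e]
                exact ⟨hc, hcn⟩
              · exact h.mem x (i3.symm.subset e)
            have hcard := card_labels hφ _ hL hm
            rw [h.deg, List.length_cons, ← i3.length_eq, ← h.nn] at hcard
            refine ⟨⟨v.id, v.deg, Nat.succ v.n, false, app r.1 [c] :: r.2⟩, ?_, ?_⟩
            · change Bool.rec (motive := fun _ => Option Vt)
                (Option.rec (motive := fun _ => Option Vt)
                (Bool.rec (motive := fun _ => Option Vt) none
                (some ⟨v.id, v.deg, Nat.succ v.n, false, app r.1 [c] :: r.2⟩)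
                (Nat.ble (Nat.succ v.n) v.deg))
                (fun q => some ⟨v.id, v.deg, v.n, false, app r.1 q.1 :: q.2⟩)
                (takeHead r.2 c)) _ (Nat.beq (hd r.1) c) = _
              rw [hhd', h4]
              change Bool.rec (motive := fun _ => Option Vt) none
                (some ⟨v.id, v.deg, Nat.succ v.n, false, app r.1 [c] :: r.2⟩)
                (Nat.ble (Nat.succ v.n) v.deg) = _
              rw [Nat.ble_eq_true_of_le hcard]
            · apply h.mk' _ _ (c :: (r.1 ++ r.2.flatten)) _ _ hL _ _ hm
              · change (app r.1 [c] ++ r.2.flatten).Perm _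
                rw [app_eq, List.append_assoc]
                exact List.perm_middle
              · rw [List.length_cons, ← i3.length_eq, ← h.nn]
              · intro P hP
                rcases List.mem_cons.mp hP with e | e
                · rw [e, app_eq]
                  exact List.append_ne_nil_of_left_ne_nil hne1 _
                · exact h.ne P (hr2 P e)
              · intro P hP
                rcases List.mem_cons.mp hP with e | e
                · rw [e, app_eq]
                  exact Arc.append (h.arc _ hr1) trivial hne1 (List.cons_ne_nil _ _) (by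
                    rw [i1, hnx, hd_cons])
                · exact h.arc P (hr2 P e)
          | some q =>
            obtain ⟨j1, j2, j3⟩ := takeHead_some h4
            have hq1 : q.1 ∈ v.ps := hr2 _ ((j2 _).mpr (Or.inl rfl))
            have hq2 : ∀ Q ∈ q.2, Q ∈ v.ps := fun Q hQ => hr2 _ ((j2 _).mpr (Or.inr hQ))
            have hne2 := h.ne _ hq1
            have j4 : v.ps.flatten.Perm (r.1 ++ (q.1 ++ q.2.flatten)) :=
              i3.trans (List.Perm.append_left _ j3)
            have hL : (r.1 ++ (q.1 ++ q.2.flatten)).Nodup := j4.nodup_iff.mp h.nodup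
            have hm : ∀ x ∈ r.1 ++ (q.1 ++ q.2.flatten), x < m ∧ φ x ∈ nb (φ a) :=
              fun x hx => h.mem x (j4.symm.subset hx)
            refine ⟨⟨v.id, v.deg, v.n, false, app r.1 q.1 :: q.2⟩, ?_, ?_⟩
            · change Bool.rec (motive := fun _ => Option Vt)
                (Option.rec (motive := fun _ => Option Vt)
                (Bool.rec (motive := fun _ => Option Vt) none
                (some ⟨v.id, v.deg, Nat.succ v.n, false, app r.1 [c] :: r.2⟩)
                (Nat.ble (Nat.succ v.n) v.deg))
                (fun q => some ⟨v.id, v.deg, v.n, false, app r.1 q.1 :: q.2⟩)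
                (takeHead r.2 c)) _ (Nat.beq (hd r.1) c) = _
              rw [hhd', h4]
            · apply h.mk' _ _ (r.1 ++ (q.1 ++ q.2.flatten)) _ _ hL _ _ hm
              · change (app r.1 q.1 ++ q.2.flatten).Perm _
                rw [app_eq, List.append_assoc]
              · rw [← j4.length_eq, ← h.nn]
              · intro P hP
                rcases List.mem_cons.mp hP with e | e
                · rw [e, app_eq]
                  exact List.append_ne_nil_of_left_ne_nil hne1 _
                · exact h.ne P (hq2 P e)
              · intro P hP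
                rcases List.mem_cons.mp hP with e | e
                · rw [e, app_eq]
                  exact Arc.append (h.arc _ hr1) (h.arc _ hq1) hne1 hne2 (by
                    rw [i1, hnx, j1])
                · exact h.arc P (hq2 P e)

theorem glue_sound (C : CM nb nx) {a b c : ℕ} {v : Vt} (h : SV nb nx φ m a v)
    (hφ : ∀ x < m, ∀ y < m, φ x = φ y → x = y) (hb : b < m) (hc : c < m)
    (hbn : φ b ∈ nb (φ a)) (hnx : nx (φ a) (φ b) = φ c) :
    ∃ v', glue v b c = some v' ∧ SV nb nx φ m a v' := by
  unfold glue
  cases hcl : v.cl with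
  | true => exact glueC_sound C h hcl hφ hb hc hbn hnx
  | false => exact glueO_sound C h hcl hφ hb hc hbn hnx

end vertex

section state

theorem get_zero (v : Vt) (vs : List Vt) : get (v :: vs) 0 = v := rfl
theorem get_succ (v : Vt) (vs : List Vt) (i : ℕ) : get (v :: vs) (i + 1) = get vs i := rfl
theorem set_zero (v w : Vt) (vs : List Vt) : set (v :: vs) w 0 = w :: vs := rfl
theorem set_succ (v w : Vt) (vs : List Vt) (i : ℕ) :
    set (v :: vs) w (i + 1) = v :: set vs w i := rfl

theorem get_set (w : Vt) : ∀ (vs : List Vt) (i j : ℕ), i < vs.length →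
    get (set vs w i) j = if j = i then w else get vs j
  | [], i, j, h => absurd h (Nat.not_lt_zero _)
  | v :: vs, 0, 0, _ => by rw [set_zero, get_zero, if_pos rfl]
  | v :: vs, 0, j + 1, _ => by
    rw [set_zero, get_succ, get_succ, if_neg (Nat.succ_ne_zero j)]
  | v :: vs, i + 1, 0, _ => by
    rw [set_succ, get_zero, get_zero, if_neg (Nat.succ_ne_zero i).symm]
  | v :: vs, i + 1, j + 1, h => by
    rw [set_succ, get_succ, get_succ, get_set w vs i j (Nat.lt_of_succ_lt_succ h)]
    simp only [Nat.add_right_cancel_iff]

theorem length_set (w : Vt) : ∀ (vs : List Vt) (i : ℕ), (set vs w i).length = vs.length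
  | [], i => rfl
  | v :: vs, 0 => rfl
  | v :: vs, i + 1 => by
    rw [set_succ, List.length_cons, List.length_cons, length_set w vs i]

theorem snoc_eq (vs : List Vt) (w : Vt) : snoc vs w = vs ++ [w] := by
  induction vs with
  | nil => rfl
  | cons v vs ih =>
    change v :: snoc vs w = v :: (vs ++ [w])
    rw [ih]

theorem get_snoc_lt (w : Vt) : ∀ (vs : List Vt) (i : ℕ), i < vs.length →
    get (snoc vs w) i = get vs i
  | [], i, h => absurd h (Nat.not_lt_zero _)
  | v :: vs, 0, _ => rfl
  | v :: vs, i + 1, h => by
    change get (v :: snoc vs w) (i + 1) = _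
    rw [get_succ, get_succ]
    exact get_snoc_lt w vs i (Nat.lt_of_succ_lt_succ h)

theorem get_snoc_eq (w : Vt) : ∀ (vs : List Vt), get (snoc vs w) vs.length = w
  | [] => rfl
  | v :: vs => by
    change get (v :: snoc vs w) (vs.length + 1) = _
    rw [get_succ]
    exact get_snoc_eq w vs

theorem fN_eq (x : ℕ) (k : ℕ → Bool) : fN x k = k x := by
  cases x <;> rfl

theorem loop_true {f : ℕ → Bool} : ∀ {n : ℕ}, loop f n = true → ∀ k < n, f k = true
  | 0, _, k, hk => absurd hk (Nat.not_lt_zero _)
  | n + 1, h, k, hk => by
    change Bool.rec (motive := fun _ => Bool) false (loop f n) (f n) = true at h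
    cases h1 : f n with
    | false =>
      rw [h1] at h
      exact absurd h (by simp)
    | true =>
      rw [h1] at h
      rcases Nat.lt_succ_iff_lt_or_eq.mp hk with e | e
      · exact loop_true (n := n) h k e
      · rw [e]
        exact h1

theorem loopP_true {f : ℕ → Bool} : ∀ {ps : List (List ℕ)}, loopP f ps = true →
    ∀ P ∈ ps, f (hd P) = true
  | [], _, P, hP => by cases hP
  | Q :: ps, h, P, hP => by
    change Bool.rec (motive := fun _ => Bool) false (loopP f ps) (f (hd Q)) = true at h
    cases h1 : f (hd Q) with
    | false =>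
      rw [h1] at h
      exact absurd h (by simp)
    | true =>
      rw [h1] at h
      rcases List.mem_cons.mp hP with e | e
      · rw [e]
        exact h1
      · exact loopP_true (ps := ps) h P e

/-- What `pick` returns. -/
theorem pick_some : ∀ {vs : List Vt} {r : ℕ × ℕ × ℕ}, pick vs = some r →
    ∃ a < vs.length, (get vs a).cl = false ∧ ∃ P qs, (get vs a).ps = P :: qs ∧
      r = (Nat.sub (get vs a).deg (get vs a).n, (get vs a).id, la P)
  | [], r, h => by cases h
  | v :: vs, r, h => by
    have ih : ∀ {r : ℕ × ℕ × ℕ}, pick vs = some r →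
        ∃ a < (v :: vs).length, (get (v :: vs) a).cl = false ∧
        ∃ P qs, (get (v :: vs) a).ps = P :: qs ∧
        r = (Nat.sub (get (v :: vs) a).deg (get (v :: vs) a).n, (get (v :: vs) a).id, la P) := by
      intro r h
      obtain ⟨a, ha, h1, h2⟩ := pick_some h
      refine ⟨a + 1, by rw [List.length_cons]; omega, ?_⟩
      rw [get_succ]
      exact ⟨h1, h2⟩
    change Bool.rec (motive := fun _ => Option (ℕ × ℕ × ℕ))
        (List.rec (motive := fun _ => Option (ℕ × ℕ × ℕ)) (pick vs)
          (fun P _ _ => Option.rec (motive := fun _ => Option (ℕ × ℕ × ℕ))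
            (some (Nat.sub v.deg v.n, v.id, la P))
            (fun r => Bool.rec (motive := fun _ => Option (ℕ × ℕ × ℕ)) (some r)
              (some (Nat.sub v.deg v.n, v.id, la P)) (Nat.ble (Nat.sub v.deg v.n) r.1))
            (pick vs))
          v.ps)
        (pick vs) v.cl = some r at h
    cases hcl : v.cl with
    | true =>
      rw [hcl] at h
      exact ih h
    | false =>
      rw [hcl] at h
      change List.rec (motive := fun _ => Option (ℕ × ℕ × ℕ)) (pick vs)
          (fun P _ _ => Option.rec (motive := fun _ => Option (ℕ × ℕ × ℕ))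
            (some (Nat.sub v.deg v.n, v.id, la P))
            (fun r => Bool.rec (motive := fun _ => Option (ℕ × ℕ × ℕ)) (some r)
              (some (Nat.sub v.deg v.n, v.id, la P)) (Nat.ble (Nat.sub v.deg v.n) r.1))
            (pick vs)) v.ps = some r at h
      rcases hps : v.ps with _ | ⟨P, qs⟩
      · rw [hps] at h
        exact ih h
      · rw [hps] at h
        have hme : ∃ a < (v :: vs).length, (get (v :: vs) a).cl = false ∧
            ∃ P qs, (get (v :: vs) a).ps = P :: qs ∧
            (Nat.sub v.deg v.n, v.id, la P) = (Nat.sub (get (v :: vs) a).deg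
              (get (v :: vs) a).n, (get (v :: vs) a).id, la P) :=
          ⟨0, by rw [List.length_cons]; omega, hcl, P, qs, hps, rfl⟩
        have hme' : ∃ a < (v :: vs).length, (get (v :: vs) a).cl = false ∧
            ∃ P' qs, (get (v :: vs) a).ps = P' :: qs ∧
            (Nat.sub v.deg v.n, v.id, la P) = (Nat.sub (get (v :: vs) a).deg
              (get (v :: vs) a).n, (get (v :: vs) a).id, la P') :=
          ⟨0, by rw [List.length_cons]; omega, hcl, P, qs, hps, rfl⟩
        change Option.rec (motive := fun _ => Option (ℕ × ℕ × ℕ))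
            (some (Nat.sub v.deg v.n, v.id, la P))
            (fun r => Bool.rec (motive := fun _ => Option (ℕ × ℕ × ℕ)) (some r)
              (some (Nat.sub v.deg v.n, v.id, la P)) (Nat.ble (Nat.sub v.deg v.n) r.1))
            (pick vs) = some r at h
        cases hp : pick vs with
        | none =>
          rw [hp] at h
          cases h
          exact hme'
        | some q =>
          rw [hp] at h
          change Bool.rec (motive := fun _ => Option (ℕ × ℕ × ℕ)) (some q)
              (some (Nat.sub v.deg v.n, v.id, la P)) (Nat.ble (Nat.sub v.deg v.n) q.1)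
              = some r at h
          cases hb : Nat.ble (Nat.sub v.deg v.n) q.1 with
          | false =>
            rw [hb] at h
            cases h
            exact ih hp
          | true =>
            rw [hb] at h
            cases h
            exact hme'

variable {V : Type} [DecidableEq V] {nb : V → Finset V} {nx : V → V → V} {φ : ℕ → V} {m : ℕ}

/-- Meaning of a list of records. -/
structure SS (nb : V → Finset V) (nx : V → V → V) (φ : ℕ → V) (m : ℕ) (vs : List Vt) :
    Prop where
  inj : ∀ x < m, ∀ y < m, φ x = φ y → x = y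
  len : vs.length = m
  sv : ∀ a < m, SV nb nx φ m a (get vs a)

theorem addtri_sound (C : CM nb nx) {vs : List Vt} (S : SS nb nx φ m vs) {i j k : ℕ}
    (hi : i < m) (hj : j < m) (hk : k < m) (hjn : φ j ∈ nb (φ i))
    (hnx : nx (φ i) (φ j) = φ k) {f : List Vt → Bool} (h : addtri vs i j k f = true) :
    ∃ vs', f vs' = true ∧ SS nb nx φ m vs' := by
  have hkn : φ k ∈ nb (φ i) := by rw [← hnx]; exact C.mem _ _ hjn
  have hkj : φ k ∈ nb (φ j) := by rw [← hnx]; exact C.mem' _ _ hjn
  have hik : φ i ∈ nb (φ k) := C.symm _ _ hkn
  have e2 : nx (φ j) (φ k) = φ i := by rw [← hnx]; exact C.rot _ _ hjn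
  have e3 : nx (φ k) (φ i) = φ j := by rw [← hnx]; exact C.rot' _ _ hjn
  have dij : i ≠ j := fun e => C.ne _ _ hjn (by rw [e])
  have dik : i ≠ k := fun e => C.ne _ _ hkn (by rw [e])
  have djk : j ≠ k := fun e => C.ne _ _ hkj (by rw [e])
  obtain ⟨vi, g1, s1⟩ := glue_sound C (S.sv i hi) S.inj hj hk hjn hnx
  obtain ⟨vj, g2, s2⟩ := glue_sound C (S.sv j hj) S.inj hk hi hkj e2
  obtain ⟨vk, g3, s3⟩ := glue_sound C (S.sv k hk) S.inj hi hj hik e3
  unfold addtri at h
  rw [g1, g2, g3] at h
  refine ⟨set (set (set vs vi i) vj j) vk k, h, S.inj, ?_, ?_⟩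
  · rw [length_set, length_set, length_set, S.len]
  · intro a ha
    rw [get_set _ _ _ _ (by rw [length_set, length_set, S.len]; exact hk),
      get_set _ _ _ _ (by rw [length_set, S.len]; exact hj),
      get_set _ _ _ _ (by rw [S.len]; exact hi)]
    split_ifs with h1 h2 h3
    · rw [h1]; exact s3
    · rw [h2]; exact s2
    · rw [h3]; exact s1
    · exact S.sv a ha

/-- More labels. -/
theorem SV.ext {ψ : ℕ → V} {a : ℕ} {v : Vt} (h : SV nb nx φ m a v) (ha : a < m)
    (e : ∀ x < m, ψ x = φ x) : SV nb nx ψ (m + 1) a v where
  id := h.id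
  deg := by rw [e a ha]; exact h.deg
  nn := h.nn
  nodup := h.nodup
  ne := h.ne
  arc P hP := by
    rw [e a ha]
    exact (h.arc P hP).congr fun x hx => e x (h.mem x (List.mem_flatten.mpr ⟨P, hP, hx⟩)).1
  mem x hx := by
    obtain ⟨h1, h2⟩ := h.mem x hx
    rw [e x h1, e a ha]
    exact ⟨Nat.lt_succ_of_lt h1, h2⟩
  cl hc := by
    obtain ⟨P, hP, h1, h2⟩ := h.cl hc
    have hmem : ∀ x ∈ P, x < m := fun x hx =>
      (h.mem x (by rw [hP, List.flatten_singleton]; exact hx)).1
    have hne : P ≠ [] := h.ne P (by rw [hP]; exact List.mem_singleton.mpr rfl)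
    refine ⟨P, hP, ?_, ?_⟩
    · rw [e a ha, e _ (hmem _ (la_mem P hne)), e _ (hmem _ (hd_mem P hne))]
      exact h1
    · intro w hw
      rw [e a ha] at hw
      obtain ⟨x, hx, e1⟩ := h2 w hw
      exact ⟨x, hx, by rw [e x (hmem x hx), e1]⟩

/-- A new vertex. -/
theorem SS.snoc {vs : List Vt} (S : SS nb nx φ m vs) {w : V} (hw : ∀ x < m, φ x ≠ w) {d : ℕ}
    (hd : (nb w).card = d) :
    SS nb nx (Function.update φ m w) (m + 1) (snoc vs ⟨m, d, 0, false, []⟩) := by
  have e : ∀ x < m, Function.update φ m w x = φ x := fun x hx =>
    Function.update_of_ne (by omega) _ _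
  have em : Function.update φ m w m = w := Function.update_self _ _ _
  refine ⟨?_, ?_, ?_⟩
  · intro x hx y hy h
    rcases Nat.lt_succ_iff_lt_or_eq.mp hx with h1 | h1 <;>
      rcases Nat.lt_succ_iff_lt_or_eq.mp hy with h2 | h2
    · rw [e x h1, e y h2] at h
      exact S.inj x h1 y h2 h
    · rw [h2, e x h1, em] at h
      exact absurd h (hw x h1)
    · rw [h1, e y h2, em] at h
      exact absurd h.symm (hw y h2)
    · rw [h1, h2]
  · rw [snoc_eq, List.length_append, S.len]
    rfl
  · intro a ha
    rcases Nat.lt_succ_iff_lt_or_eq.mp ha with h1 | h1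
    · rw [get_snoc_lt _ _ _ (by rw [S.len]; exact h1)]
      exact (S.sv a h1).ext h1 e
    · rw [h1]
      have : get (CS.snoc vs ⟨m, d, 0, false, []⟩) m = ⟨m, d, 0, false, []⟩ := by
        have := get_snoc_eq ⟨m, d, 0, false, []⟩ vs
        rwa [S.len] at this
      rw [this]
      refine ⟨rfl, by rw [em]; exact hd, rfl, List.nodup_nil, ?_, ?_, ?_, ?_⟩
      · intro P hP
        exact absurd hP List.not_mem_nil
      · intro P hP
        exact absurd hP List.not_mem_nil
      · intro x hx
        exact absurd hx List.not_mem_nil
      · intro h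
        exact absurd h (by simp)

theorem sumdeg_cons (v : Vt) (vs : List Vt) : sumdeg (v :: vs) = v.deg + sumdeg vs := rfl

theorem sumdeg_eq : ∀ (vs : List Vt) (g : ℕ → ℕ), (∀ a < vs.length, (get vs a).deg = g a) →
    sumdeg vs = ∑ a ∈ Finset.range vs.length, g a
  | [], g, _ => rfl
  | v :: vs, g, h => by
    rw [sumdeg_cons, List.length_cons, Finset.sum_range_succ',
      sumdeg_eq vs (fun a => g (a + 1)) (fun a ha => by
        have := h (a + 1) (by rw [List.length_cons]; omega)
        rwa [get_succ] at this)]
    have h0 := h 0 (by rw [List.length_cons]; omega)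
    rw [get_zero] at h0
    rw [h0, add_comm]

variable [Fintype V]

/-- Meaning of the numbers of the remaining vertices. -/
structure RS (nb : V → Finset V) (φ : ℕ → V) (m : ℕ) (r3 r4 r5 : ℕ) : Prop where
  deg : ∀ v, (∀ x < m, φ x ≠ v) → (nb v).card = 3 ∨ (nb v).card = 4 ∨ (nb v).card = 5
  c3 : (Finset.univ.filter fun v => (∀ x < m, φ x ≠ v) ∧ (nb v).card = 3).card = r3
  c4 : (Finset.univ.filter fun v => (∀ x < m, φ x ≠ v) ∧ (nb v).card = 4).card = r4
  c5 : (Finset.univ.filter fun v => (∀ x < m, φ x ≠ v) ∧ (nb v).card = 5).card = r5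

/-- The new count after one more vertex of degree `d`. -/
theorem count_new {w : V} (hw : ∀ x < m, φ x ≠ w) {d r : ℕ}
    (h : (Finset.univ.filter fun v => (∀ x < m, φ x ≠ v) ∧ (nb v).card = d).card = r) :
    (Finset.univ.filter fun v => (∀ x < m + 1, Function.update φ m w x ≠ v) ∧
      (nb v).card = d).card = if (nb w).card = d then r - 1 else r := by
  have key : (Finset.univ.filter fun v => (∀ x < m + 1, Function.update φ m w x ≠ v) ∧
      (nb v).card = d) =
      (Finset.univ.filter fun v => (∀ x < m, φ x ≠ v) ∧ (nb v).card = d).erase w := by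
    ext v
    rw [Finset.mem_erase, Finset.mem_filter, Finset.mem_filter]
    constructor
    · rintro ⟨h1, h2, h3⟩
      refine ⟨?_, h1, ?_, h3⟩
      · intro e
        apply h2 m (Nat.lt_succ_self m)
        rw [Function.update_self, e]
      · intro x hx
        have := h2 x (Nat.lt_succ_of_lt hx)
        rwa [Function.update_of_ne (by omega)] at this
    · rintro ⟨h0, h1, h2, h3⟩
      refine ⟨h1, ?_, h3⟩
      intro x hx
      rcases Nat.lt_succ_iff_lt_or_eq.mp hx with e | e
      · rw [Function.update_of_ne (by omega)]
        exact h2 x e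
      · rw [e, Function.update_self]
        exact fun e' => h0 e'.symm
  rw [key]
  split_ifs with h1
  · rw [Finset.card_erase_of_mem (by
      rw [Finset.mem_filter]
      exact ⟨Finset.mem_univ _, hw, h1⟩), h]
  · rw [Finset.erase_eq_of_notMem (by
      rw [Finset.mem_filter]
      exact fun hh => h1 hh.2.2), h]

theorem count_pos {w : V} (hw : ∀ x < m, φ x ≠ w) {d r : ℕ}
    (h : (Finset.univ.filter fun v => (∀ x < m, φ x ≠ v) ∧ (nb v).card = d).card = r)
    (hd : (nb w).card = d) : 0 < r := by
  rw [← h, Finset.card_pos]
  exact ⟨w, Finset.mem_filter.mpr ⟨Finset.mem_univ _, hw, hd⟩⟩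

/-- The labels of the new vertices. -/
def Lab : ℕ → List ℕ → Prop
  | _, [] => True
  | m, x :: l => x = m ∧ Lab (m + 1) l

theorem full_sound (hcard : ∑ v, (nb v).card + 12 = 6 * Fintype.card V) {s : St}
    (S : SS nb nx φ m s.vs) (Rs : RS nb φ m s.r3 s.r4 s.r5) (h : full m s = true) : False := by
  unfold full at h
  rw [Bool.and_eq_true, Nat.ble_eq, Nat.ble_eq] at h
  obtain ⟨h1, h2⟩ := h
  have hsum := sumdeg_eq s.vs (fun a => (nb (φ a)).card) (fun a ha =>
    ((S.sv a (by rw [← S.len]; exact ha)).deg).symm)
  rw [S.len] at hsum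
  set I : Finset V := (Finset.range m).image φ with hI
  have hinj : Set.InjOn φ (Finset.range m : Set ℕ) := by
    intro x hx y hy e
    exact S.inj x (by simpa using hx) y (by simpa using hy) e
  have hIc : I.card = m := by
    rw [hI, Finset.card_image_of_injOn hinj, Finset.card_range]
  have hIs : ∑ v ∈ I, (nb v).card = sumdeg s.vs := by
    rw [hI, Finset.sum_image hinj, hsum]
  have hco : ∀ v, v ∈ Iᶜ ↔ ∀ x < m, φ x ≠ v := by
    intro v
    rw [Finset.mem_compl, hI, Finset.mem_image]
    push Not
    simp only [Finset.mem_range]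
  have hIcc : Iᶜ.card = s.r3 + s.r4 + s.r5 := by
    rw [← Rs.c3, ← Rs.c4, ← Rs.c5, ← Finset.card_union_of_disjoint,
      ← Finset.card_union_of_disjoint]
    · congr 1
      ext v
      rw [hco, Finset.mem_union, Finset.mem_union, Finset.mem_filter, Finset.mem_filter,
        Finset.mem_filter]
      constructor
      · intro hv
        rcases Rs.deg v hv with e | e | e
        · exact Or.inl (Or.inl ⟨Finset.mem_univ _, hv, e⟩)
        · exact Or.inl (Or.inr ⟨Finset.mem_univ _, hv, e⟩)
        · exact Or.inr ⟨Finset.mem_univ _, hv, e⟩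
      · rintro ((hv | hv) | hv)
        · exact hv.2.1
        · exact hv.2.1
        · exact hv.2.1
    · rw [Finset.disjoint_left]
      intro v hv hv'
      rw [Finset.mem_union, Finset.mem_filter, Finset.mem_filter] at hv
      rw [Finset.mem_filter] at hv'
      rcases hv with hv | hv
      · have := hv.2.2.symm.trans hv'.2.2
        omega
      · have := hv.2.2.symm.trans hv'.2.2
        omega
    · rw [Finset.disjoint_left]
      intro v hv hv'
      rw [Finset.mem_filter] at hv hv'
      have := hv.2.2.symm.trans hv'.2.2
      omega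
  have hle : ∑ v ∈ Iᶜ, (nb v).card ≤ Iᶜ.card * 5 := by
    apply Finset.sum_le_card_nsmul
    intro v hv
    rcases Rs.deg v ((hco v).mp hv) with e | e | e <;> omega
  have htot : ∑ v, (nb v).card = ∑ v ∈ I, (nb v).card + ∑ v ∈ Iᶜ, (nb v).card :=
    (Finset.sum_add_sum_compl I _).symm
  have hN : Fintype.card V = I.card + Iᶜ.card := (Finset.card_add_card_compl I).symm
  rw [hIs] at htot
  rw [hIc] at hN
  omega

/-- one branch with a new vertex -/
theorem new_branch (C : CM nb nx) {vs : List Vt} (S : SS nb nx φ m vs) {i j : ℕ}
    (hi : i < m) (hj : j < m) (hjn : φ j ∈ nb (φ i))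
    (hw : ∀ x < m, φ x ≠ nx (φ i) (φ j)) {d : ℕ} (hd : (nb (nx (φ i) (φ j))).card = d)
    {f : List Vt → Bool}
    (h : addtri (snoc vs ⟨m, d, 0, false, []⟩) i j m f = true) :
    ∃ vs', f vs' = true ∧ SS nb nx (Function.update φ m (nx (φ i) (φ j))) (m + 1) vs' := by
  have S' := S.snoc hw hd
  have e : ∀ x < m, Function.update φ m (nx (φ i) (φ j)) x = φ x := fun x hx =>
    Function.update_of_ne (by omega) _ _
  have em : Function.update φ m (nx (φ i) (φ j)) m = nx (φ i) (φ j) :=
    Function.update_self _ _ _
  apply addtri_sound C S' (Nat.lt_succ_of_lt hi) (Nat.lt_succ_of_lt hj) (Nat.lt_succ_self m)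
    (by rw [e i hi, e j hj]; exact hjn) (by rw [e i hi, e j hj, em]) h

theorem search_succ (n : ℕ) (s : St) : search (n + 1) s = List.rec (motive := fun _ => Bool) false (fun m ls _ =>
        Option.rec (motive := fun _ => Bool) (full m s) (fun r =>
        fN r.2.1 fun i => fN r.2.2 fun j =>
        Nat.rec (motive := fun _ => Bool)
          (loopP (fun k => Bool.rec (motive := fun _ => Bool)
            (Bool.rec (motive := fun _ => Bool)
              (addtri s.vs i j k (fun t => search n ⟨s.ls, t, s.r3, s.r4, s.r5⟩))
              true (Nat.beq k j)) true (Nat.beq k i)) (get s.vs i).ps)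
          (fun _ _ => Bool.rec (motive := fun _ => Bool) false
          (Bool.rec (motive := fun _ => Bool) false
            (Bool.rec (motive := fun _ => Bool) false
              (Nat.rec (motive := fun _ => Bool) true (fun p _ =>
                addtri (snoc s.vs ⟨m, 5, 0, false, []⟩) i j m
                  (fun t => search n ⟨ls, t, s.r3, s.r4, p⟩)) s.r5)
              (Nat.rec (motive := fun _ => Bool) true (fun p _ =>
                addtri (snoc s.vs ⟨m, 4, 0, false, []⟩) i j m
                  (fun t => search n ⟨ls, t, s.r3, p, s.r5⟩)) s.r4))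
            (Nat.rec (motive := fun _ => Bool) true (fun p _ =>
              addtri (snoc s.vs ⟨m, 3, 0, false, []⟩) i j m
                (fun t => search n ⟨ls, t, p, s.r4, s.r5⟩)) s.r3))
          (loop (fun k => Bool.rec (motive := fun _ => Bool)
            (Bool.rec (motive := fun _ => Bool)
              (addtri s.vs i j k (fun t => search n ⟨s.ls, t, s.r3, s.r4, s.r5⟩))
              true (Nat.beq k j)) true (Nat.beq k i)) m)) r.1)
        (pick s.vs)) s.ls := rfl

/-- Soundness of the search. -/
theorem search_sound (C : CM nb nx) (hcard : ∑ v, (nb v).card + 12 = 6 * Fintype.card V) :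
    ∀ (n : ℕ) (s : St) (φ : ℕ → V) (m : ℕ), SS nb nx φ m s.vs → RS nb φ m s.r3 s.r4 s.r5 →
      Lab m s.ls → search n s = true → False := by
  intro n
  induction n with
  | zero =>
    intro s φ m _ _ _ h
    exact absurd h (by
      change ¬ false = true
      simp)
  | succ n ih =>
    intro s φ m S Rs L h
    rcases hls : s.ls with _ | ⟨m', ls⟩
    · rw [search_succ, hls] at h
      exact absurd h (by
        change ¬ false = true
        simp)
    rw [hls] at L
    obtain ⟨rfl, L2⟩ := L
    have hL : Lab m' s.ls := by
      rw [hls]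
      exact ⟨rfl, L2⟩
    have h' : Option.rec (motive := fun _ => Bool) (full m' s) (fun r =>
      fN r.2.1 fun i => fN r.2.2 fun j =>
      Nat.rec (motive := fun _ => Bool)
        (loopP (fun k => Bool.rec (motive := fun _ => Bool)
          (Bool.rec (motive := fun _ => Bool)
            (addtri s.vs i j k (fun t => search n ⟨s.ls, t, s.r3, s.r4, s.r5⟩))
            true (Nat.beq k j)) true (Nat.beq k i)) (get s.vs i).ps)
        (fun _ _ => Bool.rec (motive := fun _ => Bool) false
        (Bool.rec (motive := fun _ => Bool) false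
          (Bool.rec (motive := fun _ => Bool) false
            (Nat.rec (motive := fun _ => Bool) true (fun p _ =>
              addtri (snoc s.vs ⟨m', 5, 0, false, []⟩) i j m'
                (fun t => search n ⟨ls, t, s.r3, s.r4, p⟩)) s.r5)
            (Nat.rec (motive := fun _ => Bool) true (fun p _ =>
              addtri (snoc s.vs ⟨m', 4, 0, false, []⟩) i j m'
                (fun t => search n ⟨ls, t, s.r3, p, s.r5⟩)) s.r4))
          (Nat.rec (motive := fun _ => Bool) true (fun p _ =>
            addtri (snoc s.vs ⟨m', 3, 0, false, []⟩) i j m'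
              (fun t => search n ⟨ls, t, p, s.r4, s.r5⟩)) s.r3))
        (loop (fun k => Bool.rec (motive := fun _ => Bool)
          (Bool.rec (motive := fun _ => Bool)
            (addtri s.vs i j k (fun t => search n ⟨s.ls, t, s.r3, s.r4, s.r5⟩))
            true (Nat.beq k j)) true (Nat.beq k i)) m')) r.1)
      (pick s.vs) = true := by
      rw [search_succ, hls] at h
      rw [hls]
      exact h
    clear h
    cases hp : pick s.vs with
    | none =>
      rw [hp] at h'
      exact full_sound hcard S Rs h'
    | some r =>
      rw [hp] at h'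
      obtain ⟨a, ha, hacl, P, qs, hps, hr⟩ := pick_some hp
      rw [S.len] at ha
      have Sa := S.sv a ha
      have hr1 : r.1 = (get s.vs a).deg - (get s.vs a).n := by rw [hr]; rfl
      have hr2 : r.2.1 = a := by rw [hr]; exact Sa.id
      have hr3 : r.2.2 = la P := by rw [hr]
      change fN r.2.1 (fun i => fN r.2.2 fun j => Nat.rec (motive := fun _ => Bool) _ _ r.1)
        = true at h'
      rw [fN_eq, fN_eq, hr2, hr3, hr1] at h'
      set b := la P with hb
      have hPne : P ≠ [] := Sa.ne P (by rw [hps]; exact List.mem_cons_self)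
      have hPps : P ∈ (get s.vs a).ps := by rw [hps]; exact List.mem_cons_self
      have hbf : b ∈ (get s.vs a).ps.flatten := List.mem_flatten.mpr ⟨P, hPps, la_mem P hPne⟩
      obtain ⟨hbm, hbn⟩ := Sa.mem b hbf
      set w := nx (φ a) (φ b) with hw
      have hwn : w ∈ nb (φ a) := C.mem _ _ hbn
      have hwb : w ∈ nb (φ b) := C.mem' _ _ hbn
      -- a known vertex
      have old : ∀ k < m', φ k = w → addtri s.vs a b k (fun t =>
          search n ⟨s.ls, t, s.r3, s.r4, s.r5⟩) = true → False := by
        intro k hk e hh
        obtain ⟨vs', h1, S'⟩ := addtri_sound C S ha hbm hk hbn e.symm hh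
        exact ih ⟨s.ls, vs', s.r3, s.r4, s.r5⟩ φ m' S' Rs hL h1
      have unw : ∀ k < m', φ k = w → Bool.rec (motive := fun _ => Bool)
          (Bool.rec (motive := fun _ => Bool)
            (addtri s.vs a b k (fun t => search n ⟨s.ls, t, s.r3, s.r4, s.r5⟩))
            true (Nat.beq k b)) true (Nat.beq k a) = true → False := by
        intro k hk e hh
        have h1 : Nat.beq k a = false := by
          rw [← Bool.not_eq_true, beq_iff]
          rintro rfl
          exact C.ne _ _ hwn e
        have h2 : Nat.beq k b = false := by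
          rw [← Bool.not_eq_true, beq_iff]
          rintro rfl
          exact C.ne _ _ hwb e
        rw [h1, h2] at hh
        exact old k hk e hh
      rcases hR : (get s.vs a).deg - (get s.vs a).n with _ | q
      · -- all neighbours are known
        rw [hR] at h'
        have h1 := loopP_true h'
        -- every neighbour has a label
        have hlab : ∃ k ∈ (get s.vs a).ps.flatten, φ k = w := by
          set L := (get s.vs a).ps.flatten with hL'
          have hn1 : (L.map φ).Nodup := by
            apply List.Nodup.map_on _ Sa.nodup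
            intro x hx y hy e
            exact S.inj x (Sa.mem x hx).1 y (Sa.mem y hy).1 e
          have hsub : (L.map φ).toFinset ⊆ nb (φ a) := by
            intro v hv
            rw [List.mem_toFinset, List.mem_map] at hv
            obtain ⟨x, hx, rfl⟩ := hv
            exact (Sa.mem x hx).2
          have heq : (L.map φ).toFinset = nb (φ a) := by
            apply Finset.eq_of_subset_of_card_le hsub
            rw [List.toFinset_card_of_nodup hn1, List.length_map, Sa.deg, ← Sa.nn]
            omega
          rw [← heq, List.mem_toFinset, List.mem_map] at hwn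
          exact hwn
        obtain ⟨k, hk, e⟩ := hlab
        obtain ⟨Q, hQ, hkQ⟩ := List.mem_flatten.mp hk
        -- it is the first element of its arc
        have hkhd : hd Q = k := by
          cases h2 : prv Q k with
          | none => exact prv_none h2 hkQ
          | some y =>
            exfalso
            obtain ⟨h3, h4⟩ := prv_some h2 (Sa.arc Q hQ)
            have hy := Sa.mem y (List.mem_flatten.mpr ⟨Q, hQ, h4⟩)
            have h5 : y = b := by
              apply S.inj _ hy.1 _ hbm
              apply C.inj _ _ _ hy.2 hbn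
              rw [h3, e]
            have hnd := Sa.nodup
            rw [hps, List.flatten_cons] at hnd
            rw [hps] at hQ
            rcases List.mem_cons.mp hQ with e1 | e1
            · rw [e1] at h2
              exact prv_ne_la h2 (List.Nodup.of_append_left hnd) h5
            · exact List.disjoint_of_nodup_append hnd (la_mem P hPne)
                (List.mem_flatten.mpr ⟨Q, e1, by rw [← hb, ← h5]; exact h4⟩)
        have h2 := h1 Q hQ
        rw [hkhd] at h2
        exact unw k (Sa.mem k hk).1 e h2
      · rw [hR] at h'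
        change Bool.rec (motive := fun _ => Bool) false
          (Bool.rec (motive := fun _ => Bool) false
            (Bool.rec (motive := fun _ => Bool) false
              (Nat.rec (motive := fun _ => Bool) true (fun p _ =>
                addtri (snoc s.vs ⟨m', 5, 0, false, []⟩) a b m'
                  (fun t => search n ⟨ls, t, s.r3, s.r4, p⟩)) s.r5)
              (Nat.rec (motive := fun _ => Bool) true (fun p _ =>
                addtri (snoc s.vs ⟨m', 4, 0, false, []⟩) a b m'
                  (fun t => search n ⟨ls, t, s.r3, p, s.r5⟩)) s.r4))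
            (Nat.rec (motive := fun _ => Bool) true (fun p _ =>
              addtri (snoc s.vs ⟨m', 3, 0, false, []⟩) a b m'
                (fun t => search n ⟨ls, t, p, s.r4, s.r5⟩)) s.r3))
          (loop _ m') = true at h'
        rw [Brec, Brec, Brec] at h'
        have h0 : loop (fun k => Bool.rec (motive := fun _ => Bool)
          (Bool.rec (motive := fun _ => Bool)
            (addtri s.vs a b k (fun t => search n ⟨s.ls, t, s.r3, s.r4, s.r5⟩))
            true (Nat.beq k b)) true (Nat.beq k a)) m' = true := by
          by_contra hcon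
          rw [if_neg hcon] at h'
          exact absurd h' (by simp)
        rw [if_pos h0] at h'
        have h3 : Nat.rec (motive := fun _ => Bool) true (fun p _ =>
              addtri (snoc s.vs ⟨m', 3, 0, false, []⟩) a b m'
                (fun t => search n ⟨ls, t, p, s.r4, s.r5⟩)) s.r3 = true := by
          by_contra hcon
          rw [if_neg hcon] at h'
          exact absurd h' (by simp)
        rw [if_pos h3] at h'
        have h4 : Nat.rec (motive := fun _ => Bool) true (fun p _ =>
              addtri (snoc s.vs ⟨m', 4, 0, false, []⟩) a b m'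
                (fun t => search n ⟨ls, t, s.r3, p, s.r5⟩)) s.r4 = true := by
          by_contra hcon
          rw [if_neg hcon] at h'
          exact absurd h' (by simp)
        rw [if_pos h4] at h'
        by_cases hold : ∃ k < m', φ k = w
        · obtain ⟨k, hk, e⟩ := hold
          exact unw k hk e (loop_true h0 k hk)
        · push Not at hold
          have hnew : ∀ x < m', φ x ≠ nx (φ a) (φ b) := hold
          have L3 : Lab (m' + 1) ls := L2
          -- the new state
          have RN : ∀ d, (nb w).card = d → RS nb (Function.update φ m' w) (m' + 1)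
              (if d = 3 then s.r3 - 1 else s.r3) (if d = 4 then s.r4 - 1 else s.r4)
              (if d = 5 then s.r5 - 1 else s.r5) := by
            intro d hd
            subst hd
            refine ⟨?_, count_new hold Rs.c3, count_new hold Rs.c4, count_new hold Rs.c5⟩
            intro v hv
            apply Rs.deg v
            intro x hx
            have := hv x (Nat.lt_succ_of_lt hx)
            rwa [Function.update_of_ne (by omega)] at this
          rcases Rs.deg w hold with hd | hd | hd
          · have hpos := count_pos hold Rs.c3 hd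
            rcases hr3' : s.r3 with _ | p
            · omega
            rw [hr3'] at h3
            obtain ⟨vs', g1, S'⟩ := new_branch C S ha hbm hbn hnew hd h3
            have RN' := RN 3 hd
            rw [if_pos rfl, if_neg (by norm_num), if_neg (by norm_num), hr3'] at RN'
            exact ih ⟨ls, vs', p, s.r4, s.r5⟩ _ (m' + 1) S' RN' L3 g1
          · have hpos := count_pos hold Rs.c4 hd
            rcases hr4' : s.r4 with _ | p
            · omega
            rw [hr4'] at h4
            obtain ⟨vs', g1, S'⟩ := new_branch C S ha hbm hbn hnew hd h4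
            have RN' := RN 4 hd
            rw [if_neg (by norm_num), if_pos rfl, if_neg (by norm_num), hr4'] at RN'
            exact ih ⟨ls, vs', s.r3, p, s.r5⟩ _ (m' + 1) S' RN' L3 g1
          · have hpos := count_pos hold Rs.c5 hd
            rcases hr5' : s.r5 with _ | p
            · omega
            rw [hr5'] at h'
            obtain ⟨vs', g1, S'⟩ := new_branch C S ha hbm hbn hnew hd h'
            have RN' := RN 5 hd
            rw [if_neg (by norm_num), if_neg (by norm_num), if_pos rfl, hr5'] at RN'
            exact ih ⟨ls, vs', s.r3, s.r4, p⟩ _ (m' + 1) S' RN' L3 g1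

end state

end Pool.Agent.SDL.CS
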