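import Mathlib

set_option autoImplicit false

/-!
# CSearchDef: the growth search for triangulated maps with prescribed degrees (program part)

Everything is written with recursors, for the speed of the kernel.
-/

namespace Pool.Agent.SDL.CS

noncomputable section

/-- What is known about one vertex: degree, number of known neighbours, complete or not, and the
known arcs of the cyclic list of its neighbours. -/
structure Vt where
  id : ℕ
  deg : ℕ
  n : ℕ
  cl : Bool
  ps : List (List ℕ)

/-- State of the search: number of vertices, their records, numbers of the remaining vertices of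
degree three, four, five. -/
structure St where
  ls : List ℕ
  vs : List Vt
  r3 : ℕ
  r4 : ℕ
  r5 : ℕ

/-- successor in an arc -/
def nxt (P : List ℕ) (b : ℕ) : Option ℕ :=
  List.rec (motive := fun _ => Option ℕ) none (fun x l ih =>
    List.rec (motive := fun _ => Option ℕ) none (fun y _ _ =>
      Bool.rec (motive := fun _ => Option ℕ) ih (some y) (Nat.beq x b)) l) P

/-- successor in the arcs -/
def nxts (ps : List (List ℕ)) (b : ℕ) : Option ℕ :=
  List.rec (motive := fun _ => Option ℕ) none (fun P _ ih =>
    Option.rec (motive := fun _ => Option ℕ) ih (fun y => some y) (nxt P b)) ps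

/-- predecessor in an arc -/
def prv (P : List ℕ) (c : ℕ) : Option ℕ :=
  List.rec (motive := fun _ => Option ℕ) none (fun x l ih =>
    List.rec (motive := fun _ => Option ℕ) none (fun y _ _ =>
      Bool.rec (motive := fun _ => Option ℕ) ih (some x) (Nat.beq y c)) l) P

/-- predecessor in the arcs -/
def prvs (ps : List (List ℕ)) (c : ℕ) : Option ℕ :=
  List.rec (motive := fun _ => Option ℕ) none (fun P _ ih =>
    Option.rec (motive := fun _ => Option ℕ) ih (fun y => some y) (prv P c)) ps

/-- first element -/
def hd (P : List ℕ) : ℕ := List.rec (motive := fun _ => ℕ) (nat_lit 1000) (fun x _ _ => x) P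

/-- last element -/
def la (P : List ℕ) : ℕ :=
  List.rec (motive := fun _ => ℕ) (nat_lit 1000) (fun x l ih =>
    List.rec (motive := fun _ => ℕ) x (fun _ _ _ => ih) l) P

/-- append -/
def app (P Q : List ℕ) : List ℕ :=
  List.rec (motive := fun _ => List ℕ) Q (fun x _ ih => x :: ih) P

/-- take out the arc with last element `b` -/
def takeLast (ps : List (List ℕ)) (b : ℕ) : Option (List ℕ × List (List ℕ)) :=
  List.rec (motive := fun _ => Option (List ℕ × List (List ℕ))) none (fun P qs ih =>
    Bool.rec (motive := fun _ => Option (List ℕ × List (List ℕ)))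
      (Option.rec (motive := fun _ => Option (List ℕ × List (List ℕ))) none
        (fun r => some (r.1, P :: r.2)) ih) (some (P, qs)) (Nat.beq (la P) b)) ps

/-- take out the arc with first element `c` -/
def takeHead (ps : List (List ℕ)) (b : ℕ) : Option (List ℕ × List (List ℕ)) :=
  List.rec (motive := fun _ => Option (List ℕ × List (List ℕ))) none (fun P qs ih =>
    Bool.rec (motive := fun _ => Option (List ℕ × List (List ℕ)))
      (Option.rec (motive := fun _ => Option (List ℕ × List (List ℕ))) none
        (fun r => some (r.1, P :: r.2)) ih) (some (P, qs)) (Nat.beq (hd P) b)) ps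

/-- record that `c` follows `b` at the vertex; `none` is a contradiction -/
def glueO (v : Vt) (b c : ℕ) : Option Vt :=
  Option.rec (motive := fun _ => Option Vt)
    (Option.rec (motive := fun _ => Option Vt)
      (Option.rec (motive := fun _ => Option Vt)
        -- `b` is new
        (Option.rec (motive := fun _ => Option Vt)
          (Bool.rec (motive := fun _ => Option Vt) none
            (some ⟨v.id, v.deg, Nat.succ (Nat.succ v.n), false, [b, c] :: v.ps⟩)
            (Nat.ble (Nat.succ (Nat.succ v.n)) v.deg))
          (fun r => Bool.rec (motive := fun _ => Option Vt) none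
            (some ⟨v.id, v.deg, Nat.succ v.n, false, (b :: r.1) :: r.2⟩)
            (Nat.ble (Nat.succ v.n) v.deg))
          (takeHead v.ps c))
        -- `b` is the end of the arc `r.1`
        (fun r => Bool.rec (motive := fun _ => Option Vt)
          (Option.rec (motive := fun _ => Option Vt)
            (Bool.rec (motive := fun _ => Option Vt) none
              (some ⟨v.id, v.deg, Nat.succ v.n, false, app r.1 [c] :: r.2⟩)
              (Nat.ble (Nat.succ v.n) v.deg))
            (fun q => some ⟨v.id, v.deg, v.n, false, app r.1 q.1 :: q.2⟩)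
            (takeHead r.2 c))
          (List.rec (motive := fun _ => Option Vt)
            (Bool.rec (motive := fun _ => Option Vt) none
              (some ⟨v.id, v.deg, v.n, true, [r.1]⟩) (Nat.beq v.n v.deg))
            (fun _ _ _ => none) r.2)
          (Nat.beq (hd r.1) c))
        (takeLast v.ps b))
      (fun y => Bool.rec (motive := fun _ => Option Vt) none (some v) (Nat.beq y b))
      (prvs v.ps c))
    (fun x => Bool.rec (motive := fun _ => Option Vt) none (some v) (Nat.beq x c))
    (nxts v.ps b)

/-- the same at a complete vertex -/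
def glueC (v : Vt) (b c : ℕ) : Option Vt :=
  List.rec (motive := fun _ => Option Vt) (some v) (fun P _ _ =>
    Option.rec (motive := fun _ => Option Vt)
      (Bool.rec (motive := fun _ => Option Vt) none
        (Bool.rec (motive := fun _ => Option Vt) none (some v) (Nat.beq (hd P) c))
        (Nat.beq (la P) b))
      (fun x => Bool.rec (motive := fun _ => Option Vt) none (some v) (Nat.beq x c))
      (nxt P b)) v.ps

def glue (v : Vt) (b c : ℕ) : Option Vt :=
  Bool.rec (motive := fun _ => Option Vt) (glueO v b c) (glueC v b c) v.cl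

def get (vs : List Vt) : ℕ → Vt :=
  List.rec (motive := fun _ => ℕ → Vt) (fun _ => ⟨nat_lit 0, nat_lit 0, nat_lit 0, true, []⟩)
    (fun v _ ih i => Nat.rec (motive := fun _ => Vt) v (fun i' _ => ih i') i) vs

def set (vs : List Vt) (w : Vt) : ℕ → List Vt :=
  List.rec (motive := fun _ => ℕ → List Vt) (fun _ => [])
    (fun v l ih i => Nat.rec (motive := fun _ => List Vt) (w :: l) (fun i' _ => v :: ih i') i) vs

def snoc (vs : List Vt) (w : Vt) : List Vt :=
  List.rec (motive := fun _ => List Vt) [w] (fun v _ ih => v :: ih) vs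

/-- add the triangle `i j k` and go on -/
def addtri (vs : List Vt) (i j k : ℕ) (f : List Vt → Bool) : Bool :=
  Option.rec (motive := fun _ => Bool) true (fun vi =>
    Option.rec (motive := fun _ => Bool) true (fun vj =>
      Option.rec (motive := fun _ => Bool) true (fun vk =>
        f (set (set (set vs vi i) vj j) vk k))
      (glue (get vs k) i j))
    (glue (get vs j) k i))
  (glue (get vs i) j k)

/-- evaluate a number -/
def fN (x : ℕ) (k : ℕ → Bool) : Bool :=
  Nat.rec (motive := fun _ => Bool) (k (nat_lit 0)) (fun n _ => k (Nat.succ n)) x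

/-- the incomplete vertex with the least number of unknown neighbours and the end of its first
arc: `(number, vertex, end)` -/
def pick (vs : List Vt) : Option (ℕ × ℕ × ℕ) :=
  List.rec (motive := fun _ => Option (ℕ × ℕ × ℕ)) none
    (fun v _ ih =>
      Bool.rec (motive := fun _ => Option (ℕ × ℕ × ℕ))
        (List.rec (motive := fun _ => Option (ℕ × ℕ × ℕ)) ih
          (fun P _ _ => Option.rec (motive := fun _ => Option (ℕ × ℕ × ℕ))
            (some (Nat.sub v.deg v.n, v.id, la P))
            (fun r => Bool.rec (motive := fun _ => Option (ℕ × ℕ × ℕ)) (some r)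
              (some (Nat.sub v.deg v.n, v.id, la P)) (Nat.ble (Nat.sub v.deg v.n) r.1))
            ih)
          v.ps)
        ih v.cl) vs

def sumdeg (vs : List Vt) : ℕ :=
  List.rec (motive := fun _ => ℕ) (nat_lit 0) (fun v _ ih => Nat.add v.deg ih) vs

/-- the Euler count: the known vertices use up everything, but there are more -/
def full (m : ℕ) (s : St) : Bool :=
  Nat.ble (sumdeg s.vs + 12) (6 * m) && Nat.ble 1 (s.r3 + s.r4 + s.r5)

/-- the loop over the candidates `k < c` -/
def loop (f : ℕ → Bool) (n : ℕ) : Bool :=
  Nat.rec (motive := fun _ => Bool) true (fun c ih =>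
    Bool.rec (motive := fun _ => Bool) false ih (f c)) n

/-- the loop over the first elements of arcs -/
def loopP (f : ℕ → Bool) (ps : List (List ℕ)) : Bool :=
  List.rec (motive := fun _ => Bool) true (fun P _ ih =>
    Bool.rec (motive := fun _ => Bool) false ih (f (hd P))) ps

/-- The search. `true` means: there is no such map. -/
def search (n : ℕ) : St → Bool :=
  Nat.rec (motive := fun _ => St → Bool) (fun _ => false) (fun _ ih s =>
    List.rec (motive := fun _ => Bool) false (fun m ls _ =>
    Option.rec (motive := fun _ => Bool) (full m s) (fun r =>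
      fN r.2.1 fun i => fN r.2.2 fun j =>
      Nat.rec (motive := fun _ => Bool)
        (loopP (fun k => Bool.rec (motive := fun _ => Bool)
          (Bool.rec (motive := fun _ => Bool)
            (addtri s.vs i j k (fun t => ih ⟨s.ls, t, s.r3, s.r4, s.r5⟩))
            true (Nat.beq k j)) true (Nat.beq k i)) (get s.vs i).ps)
        (fun _ _ => Bool.rec (motive := fun _ => Bool) false
        (Bool.rec (motive := fun _ => Bool) false
          (Bool.rec (motive := fun _ => Bool) false
            (Nat.rec (motive := fun _ => Bool) true (fun p _ =>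
              addtri (snoc s.vs ⟨m, nat_lit 5, nat_lit 0, false, []⟩) i j m
                (fun t => ih ⟨ls, t, s.r3, s.r4, p⟩)) s.r5)
            (Nat.rec (motive := fun _ => Bool) true (fun p _ =>
              addtri (snoc s.vs ⟨m, nat_lit 4, nat_lit 0, false, []⟩) i j m
                (fun t => ih ⟨ls, t, s.r3, p, s.r5⟩)) s.r4))
          (Nat.rec (motive := fun _ => Bool) true (fun p _ =>
            addtri (snoc s.vs ⟨m, nat_lit 3, nat_lit 0, false, []⟩) i j m
              (fun t => ih ⟨ls, t, p, s.r4, s.r5⟩)) s.r3))
        (loop (fun k => Bool.rec (motive := fun _ => Bool)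
          (Bool.rec (motive := fun _ => Bool)
            (addtri s.vs i j k (fun t => ih ⟨s.ls, t, s.r3, s.r4, s.r5⟩))
            true (Nat.beq k j)) true (Nat.beq k i)) m)) r.1)
      (pick s.vs)) s.ls) n

/-- two adjacent vertices -/
def init2 (d0 d1 : ℕ) (r3 r4 r5 : ℕ) : St :=
  ⟨[nat_lit 2, nat_lit 3, nat_lit 4, nat_lit 5, nat_lit 6, nat_lit 7, nat_lit 8, nat_lit 9,
    nat_lit 10, nat_lit 11, nat_lit 12, nat_lit 13, nat_lit 14, nat_lit 15, nat_lit 16],
    [⟨nat_lit 0, d0, nat_lit 1, false, [[nat_lit 1]]⟩,
    ⟨nat_lit 1, d1, nat_lit 1, false, [[nat_lit 0]]⟩], r3, r4, r5⟩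

/-- three pairwise adjacent vertices of degree six -/
def init3 (r3 r4 r5 : ℕ) : St :=
  ⟨[nat_lit 3, nat_lit 4, nat_lit 5, nat_lit 6, nat_lit 7, nat_lit 8, nat_lit 9,
    nat_lit 10, nat_lit 11, nat_lit 12, nat_lit 13, nat_lit 14, nat_lit 15, nat_lit 16],
    [⟨nat_lit 0, nat_lit 6, nat_lit 2, false, [[nat_lit 1], [nat_lit 2]]⟩,
    ⟨nat_lit 1, nat_lit 6, nat_lit 2, false, [[nat_lit 0], [nat_lit 2]]⟩,
    ⟨nat_lit 2, nat_lit 6, nat_lit 2, false, [[nat_lit 0], [nat_lit 1]]⟩], r3, r4, r5⟩

/-- four pairwise adjacent vertices of degree six -/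
def init4 (r3 r4 r5 : ℕ) : St :=
  ⟨[nat_lit 4, nat_lit 5, nat_lit 6, nat_lit 7, nat_lit 8, nat_lit 9,
    nat_lit 10, nat_lit 11, nat_lit 12, nat_lit 13, nat_lit 14, nat_lit 15, nat_lit 16],
    [⟨nat_lit 0, nat_lit 6, nat_lit 3, false, [[nat_lit 1], [nat_lit 2], [nat_lit 3]]⟩,
    ⟨nat_lit 1, nat_lit 6, nat_lit 3, false, [[nat_lit 0], [nat_lit 2], [nat_lit 3]]⟩,
    ⟨nat_lit 2, nat_lit 6, nat_lit 3, false, [[nat_lit 0], [nat_lit 1], [nat_lit 3]]⟩,
    ⟨nat_lit 3, nat_lit 6, nat_lit 3, false, [[nat_lit 0], [nat_lit 1], [nat_lit 2]]⟩],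
    r3, r4, r5⟩

end

end Pool.Agent.SDL.CS
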