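import Pool.Agent.SDL.P_DMN

set_option autoImplicit false

/-!
# SDL: caps of a ball, Bonferroni, disjoint caps
-/

open MeasureTheory Set Real
open scoped RealInnerProductSpace

namespace Pool.Agent.SDL

open Pool.Agent.SDC

/-- The volume of the cap of the ball of radius `t` which is cut off by a plane at distance `h`. -/
noncomputable def cap (t h : ℝ) : ℝ := π / 3 * max (t - h) 0 ^ 2 * (2 * t + h)

/-- The cap of the ball of radius `t` beyond the plane `⟪n, x⟫ = h`. -/
def Cp (t : ℝ) (n : E3) (h : ℝ) : Set E3 := {x | ‖x‖ ≤ t ∧ h < ⟪n, x⟫}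

theorem cap_nonneg (t h : ℝ) (ht : 0 ≤ t) (hh : 0 ≤ h) : 0 ≤ cap t h := by
  unfold cap
  positivity

theorem cap_of_le (t h : ℝ) (h1 : t ≤ h) : cap t h = 0 := by
  rw [cap, max_eq_right (by linarith)]
  ring

theorem cap_eq (t h : ℝ) (h1 : h ≤ t) : cap t h = π / 3 * (t - h) ^ 2 * (2 * t + h) := by
  rw [cap, max_eq_left (by linarith)]

theorem measurableSet_Cp (t : ℝ) (n : E3) (h : ℝ) : MeasurableSet (Cp t n h) := by
  have h1 : Measurable fun x : E3 => ⟪n, x⟫ := by fun_prop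
  exact (measurableSet_le measurable_norm measurable_const).inter
    (measurableSet_lt measurable_const h1)

theorem disc_area (r : ℝ) :
    volume {w : ℝ × ℝ | w.1 ^ 2 + w.2 ^ 2 ≤ r} = ENNReal.ofReal (π * r) := by
  by_cases hr : 0 ≤ r
  · have h1 := Complex.volume_preserving_equiv_real_prod
    have hm : MeasurableSet {w : ℝ × ℝ | w.1 ^ 2 + w.2 ^ 2 ≤ r} := by
      apply measurableSet_le _ measurable_const
      fun_prop
    have h2 := h1.measure_preimage hm.nullMeasurableSet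
    rw [← h2]
    have h3 : (Complex.measurableEquivRealProd ⁻¹' {w : ℝ × ℝ | w.1 ^ 2 + w.2 ^ 2 ≤ r}) =
        Metric.closedBall (0 : ℂ) √r := by
      ext z
      rw [mem_preimage, mem_ofPred_eq, mem_closedBall_zero_iff, Complex.measurableEquivRealProd_apply]
      rw [Real.le_sqrt (norm_nonneg z) hr, Complex.sq_norm, Complex.normSq_apply]
      constructor <;> intro h <;> nlinarith
    rw [h3, Complex.volume_closedBall, ← ENNReal.ofReal_pow (Real.sqrt_nonneg r), Real.sq_sqrt hr,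
      mul_comm π r, ENNReal.ofReal_mul hr]
    congr 1
    rw [← ENNReal.ofReal_coe_nnreal, NNReal.coe_real_pi]
  · push Not at hr
    have h1 : {w : ℝ × ℝ | w.1 ^ 2 + w.2 ^ 2 ≤ r} = ∅ := by
      ext w
      simp only [mem_ofPred_eq, mem_empty_iff_false, iff_false, not_le]
      nlinarith [sq_nonneg w.1, sq_nonneg w.2]
    rw [h1, measure_empty, ENNReal.ofReal_of_nonpos]
    nlinarith [Real.pi_pos]

theorem cap_integral (t h : ℝ) :
    ∫ z in h..t, π * (t ^ 2 - z ^ 2) = π / 3 * (t - h) ^ 2 * (2 * t + h) := by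
  rw [intervalIntegral.integral_const_mul, intervalIntegral.integral_sub
    (intervalIntegrable_const) ((continuous_pow 2).intervalIntegrable _ _),
    intervalIntegral.integral_const, integral_pow]
  simp only [smul_eq_mul]
  norm_num
  ring

theorem volume_Cp (t : ℝ) (n : E3) (h : ℝ) (hn : ‖n‖ = 1) (ht : 0 ≤ t) (hh : 0 ≤ h) :
    volume (Cp t n h) = ENNReal.ofReal (cap t h) := by
  obtain ⟨e, f, ho⟩ := p_ONB n hn
  obtain ⟨hmp, hc⟩ := p_CRD n e f ho
  set S : Set (ℝ × (ℝ × ℝ)) := {p | p.2.1 ^ 2 + p.2.2 ^ 2 ≤ t ^ 2 - p.1 ^ 2 ∧ h < p.1} with hS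
  have hSm : MeasurableSet S := by
    have h1 : Measurable fun p : ℝ × (ℝ × ℝ) => p.2.1 ^ 2 + p.2.2 ^ 2 := by fun_prop
    have h2 : Measurable fun p : ℝ × (ℝ × ℝ) => t ^ 2 - p.1 ^ 2 := by fun_prop
    exact (measurableSet_le h1 h2).inter (measurableSet_lt measurable_const measurable_fst)
  have h1 : Cp t n h = (fun x : E3 => (⟪n, x⟫, (⟪e, x⟫, ⟪f, x⟫))) ⁻¹' S := by
    ext x
    simp only [Cp, hS, mem_ofPred_eq, mem_preimage]
    have h2 := (hc x).1
    have h3 : ‖x‖ ≤ t ↔ ‖x‖ ^ 2 ≤ t ^ 2 := by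
      rw [sq_le_sq, abs_of_nonneg (norm_nonneg x), abs_of_nonneg ht]
    rw [h3, h2]
    constructor
    · rintro ⟨h4, h5⟩
      exact ⟨by linarith, h5⟩
    · rintro ⟨h4, h5⟩
      exact ⟨by linarith, h5⟩
  rw [h1, hmp.measure_preimage hSm.nullMeasurableSet, Measure.volume_eq_prod,
    Measure.prod_apply hSm]
  have h2 : ∀ z : ℝ, volume (Prod.mk z ⁻¹' S) =
      (Ioc h (max h t)).indicator (fun z => ENNReal.ofReal (π * (t ^ 2 - z ^ 2))) z := by
    intro z
    by_cases hz : h < z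
    · have h3 : Prod.mk z ⁻¹' S = {w : ℝ × ℝ | w.1 ^ 2 + w.2 ^ 2 ≤ t ^ 2 - z ^ 2} := by
        ext w
        simp only [hS, mem_preimage, mem_ofPred_eq]
        exact ⟨fun h => h.1, fun h => ⟨h, hz⟩⟩
      rw [h3, disc_area]
      by_cases hz2 : z ≤ max h t
      · rw [indicator_of_mem (show z ∈ Ioc h (max h t) from ⟨hz, hz2⟩)]
      · rw [indicator_of_notMem (fun h4 => hz2 h4.2)]
        apply ENNReal.ofReal_of_nonpos
        push Not at hz2
        have h5 : t < z := lt_of_le_of_lt (le_max_right _ _) hz2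
        have : t ^ 2 ≤ z ^ 2 := by nlinarith
        nlinarith [Real.pi_pos]
    · have h3 : Prod.mk z ⁻¹' S = ∅ := by
        ext w
        simp only [hS, mem_preimage, mem_ofPred_eq, mem_empty_iff_false, iff_false]
        exact fun h => hz h.2
      rw [h3, measure_empty, indicator_of_notMem (fun h4 => hz h4.1)]
  simp_rw [h2]
  rw [lintegral_indicator measurableSet_Ioc]
  by_cases hht : h ≤ t
  · rw [max_eq_right hht, cap_eq t h hht, ← cap_integral, intervalIntegral.integral_of_le hht]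
    rw [← ofReal_integral_eq_lintegral_ofReal]
    · exact (Continuous.integrableOn_Icc (by fun_prop)).mono_set Ioc_subset_Icc_self
    · refine (ae_restrict_iff' measurableSet_Ioc).mpr (Filter.Eventually.of_forall fun z hz => ?_)
      have : z ^ 2 ≤ t ^ 2 := by
        have := hz.1
        have := hz.2
        nlinarith
      have := Real.pi_pos
      show 0 ≤ π * (t ^ 2 - z ^ 2)
      nlinarith
  · push Not at hht
    rw [max_eq_left hht.le, Ioc_self, Measure.restrict_empty, lintegral_zero_measure,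
      cap_of_le t h hht.le, ENNReal.ofReal_zero]

theorem volume_Cp_real (t : ℝ) (n : E3) (h : ℝ) (hn : ‖n‖ = 1) (ht : 0 ≤ t) (hh : 0 ≤ h) :
    (volume (Cp t n h)).toReal = cap t h := by
  rw [volume_Cp t n h hn ht hh, ENNReal.toReal_ofReal (cap_nonneg t h ht hh)]

/-! ## Bonferroni -/

theorem poly_ball {ι : Type} (n : ι → E3) (h : ι → ℝ) (t : ℝ) :
    Poly n h ∩ Metric.closedBall 0 t = Metric.closedBall 0 t \ ⋃ i, Cp t (n i) (h i) := by
  ext x
  simp only [SDC.Poly, Cp, mem_inter_iff, mem_ofPred_eq, mem_closedBall_zero_iff, mem_sdiff,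
    mem_iUnion, not_exists, not_and, not_lt]
  constructor
  · rintro ⟨h1, h2⟩
    exact ⟨h2, fun i _ => h1 i⟩
  · rintro ⟨h1, h2⟩
    exact ⟨fun i => h2 i h1, h1⟩

theorem bonf_gen {α ι : Type} [MeasurableSpace α] [DecidableEq ι] (μ : Measure α)
    [IsFiniteMeasure μ] (C : ι → Set α) (hC : ∀ i, MeasurableSet (C i)) (s : Finset ι) :
    ∑ i ∈ s, μ.real (C i) ≤ μ.real (⋃ i ∈ s, C i) +
      (∑ i ∈ s, ∑ j ∈ s, if i = j then 0 else μ.real (C i ∩ C j)) / 2 := by
  induction s using Finset.induction_on with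
  | empty => simp
  | insert a s ha ih =>
    rw [Finset.sum_insert ha]
    have hU : MeasurableSet (⋃ i ∈ s, C i) := s.measurableSet_biUnion fun i _ => hC i
    have h1 : (⋃ i ∈ insert a s, C i) = C a ∪ ⋃ i ∈ s, C i := Finset.set_biUnion_insert a s C
    have h2 : μ.real (C a ∪ ⋃ i ∈ s, C i) + μ.real (C a ∩ ⋃ i ∈ s, C i) =
        μ.real (C a) + μ.real (⋃ i ∈ s, C i) :=
      measureReal_union_add_inter hU (measure_ne_top μ _) (measure_ne_top μ _)
    have h3 : μ.real (C a ∩ ⋃ i ∈ s, C i) ≤ ∑ j ∈ s, μ.real (C a ∩ C j) := by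
      rw [inter_iUnion₂]
      exact measureReal_biUnion_finset_le s fun j => C a ∩ C j
    have h4 : (∑ i ∈ insert a s, ∑ j ∈ insert a s, if i = j then 0 else μ.real (C i ∩ C j)) =
        (∑ i ∈ s, ∑ j ∈ s, if i = j then 0 else μ.real (C i ∩ C j)) +
          2 * ∑ j ∈ s, μ.real (C a ∩ C j) := by
      rw [Finset.sum_insert ha, Finset.sum_insert ha]
      have h5 : ∀ i ∈ s, (∑ j ∈ insert a s, if i = j then 0 else μ.real (C i ∩ C j)) =
          μ.real (C a ∩ C i) + ∑ j ∈ s, if i = j then 0 else μ.real (C i ∩ C j) := by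
        intro i hi
        rw [Finset.sum_insert ha, if_neg (fun h6 : i = a => ha (h6 ▸ hi)), inter_comm]
      rw [Finset.sum_congr rfl h5, Finset.sum_add_distrib]
      have h6 : (∑ j ∈ s, if a = j then 0 else μ.real (C a ∩ C j)) =
          ∑ j ∈ s, μ.real (C a ∩ C j) := by
        apply Finset.sum_congr rfl
        intro j hj
        rw [if_neg (fun h7 : a = j => ha (h7 ▸ hj))]
      rw [h6, if_pos rfl]
      ring
    rw [h1, h4]
    linarith

theorem ball_vol (t : ℝ) (ht : 0 ≤ t) :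
    (volume (Metric.closedBall (0 : E3) t)).toReal = 4 * π / 3 * t ^ 3 := by
  rw [EuclideanSpace.volume_closedBall_fin_three, ENNReal.toReal_mul, ENNReal.toReal_pow,
    ENNReal.toReal_ofReal ht, ENNReal.toReal_ofReal (by positivity)]
  ring

theorem Cp_sub (t : ℝ) (n : E3) (h : ℝ) : Cp t n h ⊆ Metric.closedBall 0 t := by
  intro x hx
  rw [mem_closedBall_zero_iff]
  exact hx.1

/-- The volume of a polyhedron in a ball, lower bound. -/
theorem poly_ball_ge {ι : Type} [Fintype ι] (n : ι → E3) (h : ι → ℝ) (t : ℝ) (ht : 0 ≤ t)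
    (hn : ∀ i, ‖n i‖ = 1) (hh : ∀ i, 0 ≤ h i) :
    4 * π / 3 * t ^ 3 - ∑ i, cap t (h i) ≤
      (volume (Poly n h ∩ Metric.closedBall 0 t)).toReal := by
  have hB : volume (Metric.closedBall (0 : E3) t) ≠ ⊤ := by
    rw [EuclideanSpace.volume_closedBall_fin_three]
    exact ENNReal.mul_ne_top (ENNReal.pow_ne_top ENNReal.ofReal_ne_top) ENNReal.ofReal_ne_top
  have hU : (⋃ i, Cp t (n i) (h i)) ⊆ Metric.closedBall 0 t :=
    iUnion_subset fun i => Cp_sub t (n i) (h i)
  have hUm : MeasurableSet (⋃ i, Cp t (n i) (h i)) :=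
    MeasurableSet.iUnion fun i => measurableSet_Cp t (n i) (h i)
  have hUf : volume (⋃ i, Cp t (n i) (h i)) ≠ ⊤ := ne_top_of_le_ne_top hB (measure_mono hU)
  rw [poly_ball, measure_sdiff hU hUm.nullMeasurableSet hUf,
    ENNReal.toReal_sub_of_le (measure_mono hU) hB, ball_vol t ht]
  have h1 : (volume (⋃ i, Cp t (n i) (h i))).toReal ≤ ∑ i, cap t (h i) := by
    have h2 : volume (⋃ i, Cp t (n i) (h i)) ≤ ∑ i, volume (Cp t (n i) (h i)) :=
      measure_iUnion_fintype_le volume _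
    have h3 : ∑ i, volume (Cp t (n i) (h i)) = ENNReal.ofReal (∑ i, cap t (h i)) := by
      rw [ENNReal.ofReal_sum_of_nonneg fun i _ => cap_nonneg t (h i) ht (hh i)]
      exact Finset.sum_congr rfl fun i _ => volume_Cp t (n i) (h i) (hn i) ht (hh i)
    rw [h3] at h2
    have h4 := ENNReal.toReal_mono ENNReal.ofReal_ne_top h2
    rwa [ENNReal.toReal_ofReal
      (Finset.sum_nonneg fun i _ => cap_nonneg t (h i) ht (hh i))] at h4
  linarith

/-- Bonferroni for the polyhedron in a ball. -/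
theorem poly_ball_le {ι : Type} [Fintype ι] [DecidableEq ι] (n : ι → E3) (h : ι → ℝ) (t : ℝ)
    (ht : 0 ≤ t) (hn : ∀ i, ‖n i‖ = 1) (hh : ∀ i, 0 ≤ h i) :
    (volume (Poly n h ∩ Metric.closedBall 0 t)).toReal ≤
      4 * π / 3 * t ^ 3 - ∑ i, cap t (h i) +
        (∑ i, ∑ j, if i = j then 0 else
          (volume (Cp t (n i) (h i) ∩ Cp t (n j) (h j))).toReal) / 2 := by
  have hB : volume (Metric.closedBall (0 : E3) t) ≠ ⊤ := by
    rw [EuclideanSpace.volume_closedBall_fin_three]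
    exact ENNReal.mul_ne_top (ENNReal.pow_ne_top ENNReal.ofReal_ne_top) ENNReal.ofReal_ne_top
  have hU : (⋃ i, Cp t (n i) (h i)) ⊆ Metric.closedBall 0 t :=
    iUnion_subset fun i => Cp_sub t (n i) (h i)
  have hUm : MeasurableSet (⋃ i, Cp t (n i) (h i)) :=
    MeasurableSet.iUnion fun i => measurableSet_Cp t (n i) (h i)
  have hUf : volume (⋃ i, Cp t (n i) (h i)) ≠ ⊤ := ne_top_of_le_ne_top hB (measure_mono hU)
  rw [poly_ball, measure_sdiff hU hUm.nullMeasurableSet hUf,
    ENNReal.toReal_sub_of_le (measure_mono hU) hB, ball_vol t ht]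
  set μ : Measure E3 := volume.restrict (Metric.closedBall 0 t) with hμ
  have : IsFiniteMeasure μ := ⟨by rw [hμ, Measure.restrict_apply_univ]; exact hB.lt_top⟩
  have hr : ∀ A : Set E3, A ⊆ Metric.closedBall 0 t → μ.real A = (volume A).toReal := by
    intro A hA
    rw [Measure.real, hμ, Measure.restrict_eq_self _ hA]
  have h1 := bonf_gen μ (fun i => Cp t (n i) (h i)) (fun i => measurableSet_Cp t (n i) (h i))
    Finset.univ
  have h2 : (⋃ i ∈ (Finset.univ : Finset ι), Cp t (n i) (h i)) = ⋃ i, Cp t (n i) (h i) := by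
    simp
  rw [h2, hr _ hU] at h1
  have h3 : ∀ i, μ.real (Cp t (n i) (h i)) = cap t (h i) := fun i => by
    rw [hr _ (Cp_sub t (n i) (h i)), volume_Cp_real t (n i) (h i) (hn i) ht (hh i)]
  have h4 : ∀ i j, μ.real (Cp t (n i) (h i) ∩ Cp t (n j) (h j)) =
      (volume (Cp t (n i) (h i) ∩ Cp t (n j) (h j))).toReal := fun i j =>
    hr _ (inter_subset_left.trans (Cp_sub t (n i) (h i)))
  simp_rw [h3, h4] at h1
  linarith

/-! ## Disjoint caps -/

/-- If the ball does not reach the circumradius `2/√3` of the touching triangle then the caps are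
disjoint. -/
theorem Cp_disj {ι : Type} (n : ι → E3) (h : ι → ℝ) (t : ℝ) (ht2 : 3 * t ^ 2 ≤ 4)
    (hP : Pck n h) (i j : ι) (hij : i ≠ j) :
    Cp t (n i) (h i) ∩ Cp t (n j) (h j) = ∅ := by
  obtain ⟨hn, hh, hd⟩ := hP
  ext x
  simp only [Cp, mem_inter_iff, mem_ofPred_eq, mem_empty_iff_false, iff_false, not_and, not_lt,
    and_imp]
  intro h1 h2 _
  by_contra h3
  push Not at h3
  have hi := hh i
  have hj := hh j
  have hX : ‖x‖ ^ 2 ≤ t ^ 2 := pow_le_pow_left₀ (norm_nonneg x) h1 2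
  have h4 : 0 ≤ ‖(2 * h i) • n i + (2 * h j) • n j - (3 : ℝ) • x‖ ^ 2 := by positivity
  have h5 : ‖(2 * h i) • n i + (2 * h j) • n j - (3 : ℝ) • x‖ ^ 2 =
      4 * h i ^ 2 + 4 * h j ^ 2 + 8 * (h i * h j * ⟪n i, n j⟫) - 12 * (h i * ⟪n i, x⟫)
        - 12 * (h j * ⟪n j, x⟫) + 9 * ‖x‖ ^ 2 := by
    rw [norm_sub_sq_real, norm_add_sq_real, inner_add_left, norm_smul, norm_smul, norm_smul,
      real_inner_smul_left, real_inner_smul_right, real_inner_smul_left, real_inner_smul_right,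
      real_inner_smul_left, real_inner_smul_right, hn i, hn j, Real.norm_eq_abs, Real.norm_eq_abs,
      Real.norm_eq_abs, mul_one, mul_one, sq_abs, sq_abs, abs_of_pos (by norm_num : (0 : ℝ) < 3)]
    ring
  rw [h5] at h4
  have h6 := hd i j hij
  have h7 : h i ^ 2 < h i * ⟪n i, x⟫ := by nlinarith
  have h8 : h j ^ 2 < h j * ⟪n j, x⟫ := by nlinarith
  have h9 : 1 ≤ h i ^ 2 := by nlinarith
  have h10 : 1 ≤ h j ^ 2 := by nlinarith
  nlinarith

/-- The volume of the cell in a ball of radius at most `2/√3`. -/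
theorem poly_ball_eq {ι : Type} [Fintype ι] (n : ι → E3) (h : ι → ℝ) (t : ℝ) (ht : 0 ≤ t)
    (ht2 : 3 * t ^ 2 ≤ 4) (hP : Pck n h) :
    (volume (Poly n h ∩ Metric.closedBall 0 t)).toReal =
      4 * π / 3 * t ^ 3 - ∑ i, cap t (h i) := by
  classical
  have hh : ∀ i, 0 ≤ h i := fun i => by linarith [hP.2.1 i]
  apply le_antisymm
  · have h1 := poly_ball_le n h t ht hP.1 hh
    have h2 : (∑ i, ∑ j, if i = j then 0 else
        (volume (Cp t (n i) (h i) ∩ Cp t (n j) (h j))).toReal) = 0 := by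
      apply Finset.sum_eq_zero
      intro i _
      apply Finset.sum_eq_zero
      intro j _
      split_ifs with hij
      · rfl
      · rw [Cp_disj n h t ht2 hP i j hij, measure_empty, ENNReal.toReal_zero]
    rw [h2] at h1
    linarith
  · exact poly_ball_ge n h t ht hP.1 hh

/-! ## The dodecahedron -/

theorem Ld_sq_eq : Ld ^ 2 = goldenRatio + 2 := by
  rw [DNF_Ld_sq, goldenRatio_sq]
  ring

theorem nD_same (b d b' d' : Bool) (hne : (b, d) ≠ (b', d')) :
    sg b * sg b' + goldenRatio ^ 2 * (sg d * sg d') ≤ goldenRatio := by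
  have h1 := goldenRatio_sq
  have h2 := goldenRatio_pos
  cases b <;> cases d <;> cases b' <;> cases d' <;> simp [sg] at hne ⊢ <;> nlinarith

theorem nD_cross (b d : Bool) : goldenRatio * (sg b * sg d) ≤ goldenRatio := by
  have h2 := goldenRatio_pos
  cases b <;> cases d <;> simp [sg] <;> linarith

theorem nD_inner (i j : ID) (hij : i ≠ j) : ⟪nD i, nD j⟫ ≤ goldenRatio / Ld ^ 2 := by
  have hL := DNF_Ld_pos
  obtain ⟨i, b, d⟩ := i
  obtain ⟨j, b', d'⟩ := j
  have key : ∀ v w : ℝ, v = w / Ld ^ 2 → w ≤ goldenRatio → v ≤ goldenRatio / Ld ^ 2 := by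
    intro v w h1 h2
    rw [h1]
    exact div_le_div_of_nonneg_right h2 (by positivity)
  have hc : ∀ s r : Bool, goldenRatio * (sg s * sg r) ≤ goldenRatio := nD_cross
  fin_cases i <;> fin_cases j
  · have hne : (b, d) ≠ (b', d') := fun h => hij (by simpa using h)
    refine key _ _ ?_ (nD_same b d b' d' hne)
    show ⟪nD (0, b, d), nD (0, b', d')⟫ = _
    rw [DNF_in0]
    simp [nD]
    field_simp
    linear_combination (sg d * sg d') * s5_sq
  · refine key _ _ ?_ (hc b d')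
    show ⟪nD (0, b, d), nD (1, b', d')⟫ = _
    rw [DNF_in0]
    simp [nD]
    field_simp
  · refine key _ _ ?_ (hc d b')
    show ⟪nD (0, b, d), nD (2, b', d')⟫ = _
    rw [DNF_in0]
    simp [nD]
    field_simp
  · refine key _ _ ?_ (hc d b')
    show ⟪nD (1, b, d), nD (0, b', d')⟫ = _
    rw [DNF_in1]
    simp [nD]
    field_simp
  · have hne : (b, d) ≠ (b', d') := fun h => hij (by simpa using h)
    refine key _ _ ?_ (nD_same b d b' d' hne)
    show ⟪nD (1, b, d), nD (1, b', d')⟫ = _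
    rw [DNF_in1]
    simp [nD]
    field_simp
    linear_combination (sg d * sg d') * s5_sq
  · refine key _ _ ?_ (hc b d')
    show ⟪nD (1, b, d), nD (2, b', d')⟫ = _
    rw [DNF_in1]
    simp [nD]
    field_simp
  · refine key _ _ ?_ (hc b d')
    show ⟪nD (2, b, d), nD (0, b', d')⟫ = _
    rw [DNF_in2]
    simp [nD]
    field_simp
  · refine key _ _ ?_ (hc d b')
    show ⟪nD (2, b, d), nD (1, b', d')⟫ = _
    rw [DNF_in2]
    simp [nD]
    field_simp
  · have hne : (b, d) ≠ (b', d') := fun h => hij (by simpa using h)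
    refine key _ _ ?_ (nD_same b d b' d' hne)
    show ⟪nD (2, b, d), nD (2, b', d')⟫ = _
    rw [DNF_in2]
    simp [nD]
    field_simp
    linear_combination (sg d * sg d') * s5_sq

theorem W0_gr : W0 * (1 + goldenRatio / Ld ^ 2) = 2 := by
  have h1 := goldenRatio_pos
  rw [Ld_sq_eq, W0, goldenRatio]
  have h3 : (1 + √5) / 2 + 2 ≠ 0 := by positivity
  field_simp
  nlinarith [s5_sq]

theorem nD_disj (t : ℝ) (ht2 : t ^ 2 ≤ W0) (i j : ID) (hij : i ≠ j) :
    Cp t (nD i) 1 ∩ Cp t (nD j) 1 = ∅ := by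
  ext x
  simp only [Cp, mem_inter_iff, mem_ofPred_eq, mem_empty_iff_false, iff_false, not_and, not_lt,
    and_imp]
  intro h1 h2 _
  by_contra h3
  push Not at h3
  have hX : ‖x‖ ^ 2 ≤ t ^ 2 := pow_le_pow_left₀ (norm_nonneg x) h1 2
  have hi := (DNF_onb i).nn
  have hj := (DNF_onb j).nn
  have h4 : ⟪nD i + nD j, x⟫ ^ 2 ≤ ‖nD i + nD j‖ ^ 2 * ‖x‖ ^ 2 := by
    rw [← mul_pow, ← sq_abs]
    exact pow_le_pow_left₀ (abs_nonneg _) (abs_real_inner_le_norm _ _) 2
  have h5 : ‖nD i + nD j‖ ^ 2 = 2 + 2 * ⟪nD i, nD j⟫ := by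
    rw [← real_inner_self_eq_norm_sq, inner_add_left, inner_add_right, inner_add_right,
      real_inner_self_eq_norm_sq, real_inner_self_eq_norm_sq, hi, hj,
      real_inner_comm (nD i) (nD j)]
    ring
  have h6 : (2 : ℝ) < ⟪nD i + nD j, x⟫ := by
    rw [inner_add_left]
    linarith
  have h7 := nD_inner i j hij
  have h8 := W0_gr
  have h9 : ‖nD i + nD j‖ ^ 2 * ‖x‖ ^ 2 ≤ (2 + 2 * (goldenRatio / Ld ^ 2)) * W0 := by
    apply mul_le_mul _ (hX.trans ht2) (by positivity)
    · have := goldenRatio_pos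
      have := DNF_Ld_pos
      positivity
    · rw [h5]
      linarith
  nlinarith

/-- The volume of the dodecahedron in a ball. -/
theorem dod_ball_eq (t : ℝ) (ht : 0 ≤ t) (ht2 : t ^ 2 ≤ W0) :
    (volume (Dod ∩ Metric.closedBall 0 t)).toReal =
      4 * π / 3 * t ^ 3 - 12 * cap t 1 := by
  classical
  have hn : ∀ i, ‖nD i‖ = 1 := fun i => (DNF_onb i).nn
  have hs : ∑ _i : ID, cap t 1 = 12 * cap t 1 := by
    rw [Finset.sum_const, Finset.card_univ, nsmul_eq_mul]
    simp
  rw [DNF_dod, ← hs]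
  apply le_antisymm
  · have h1 := poly_ball_le nD (fun _ => 1) t ht hn (fun _ => zero_le_one)
    have h2 : (∑ i, ∑ j, if i = j then 0 else
        (volume (Cp t (nD i) 1 ∩ Cp t (nD j) 1)).toReal) = 0 := by
      apply Finset.sum_eq_zero
      intro i _
      apply Finset.sum_eq_zero
      intro j _
      split_ifs with hij
      · rfl
      · rw [nD_disj t ht2 i j hij, measure_empty, ENNReal.toReal_zero]
    rw [h2] at h1
    linarith
  · exact poly_ball_ge nD (fun _ => 1) t ht hn (fun _ => zero_le_one)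

end Pool.Agent.SDL
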