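import Pool.Agent.SDL.Steep
import Pool.Agent.SDL.Targets3

set_option autoImplicit false

/-!
# SDL: the chord (target F) for `t² ≤ W0`

Pentagons for `h ≤ max t 1.08`, six sides for `h ≤ max t 1.08`, rays for `h ≥ max t 1.08`.
-/

open MeasureTheory Set Real
open scoped RealInnerProductSpace

namespace Pool.Agent.SDL

open Pool.Agent.SDC

/-! ## The slope -/

theorem Lm_low {t : ℝ} (ht2 : t ≤ 1.1756) :
    0 < Lm t ∧ 1 / Lm t ≤ 1 / 0.175 ∧ 1 / Lm t ≤ (4.72 - 3.3 * t) / 0.175 ∧ Lm t ≤ 0.2083 := by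
  have hg : gu t = max 0 (0.025 + 1.1 * (t - 1.15)) := by
    rw [gu, if_pos (by linarith)]
  have h1 : 1 - 3 * gu t ≤ 1 := by
    rw [hg]
    linarith [le_max_left 0 (0.025 + 1.1 * (t - 1.15))]
  have h2 : 1 - 3 * gu t ≤ 4.72 - 3.3 * t := by
    rw [hg]
    linarith [le_max_right 0 (0.025 + 1.1 * (t - 1.15))]
  have h3 : 0.8405 ≤ 1 - 3 * gu t := by
    rw [hg]
    have : max 0 (0.025 + 1.1 * (t - 1.15)) ≤ 0.05316 := max_le (by norm_num) (by linarith)
    linarith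
  have e : 1 / Lm t = (1 - 3 * gu t) / 0.175 := by
    rw [Lm, one_div_div]
  have h4 : 0 < Lm t := by
    rw [Lm]
    apply div_pos (by norm_num) (by linarith)
  refine ⟨h4, ?_, ?_, ?_⟩
  · rw [e]
    exact div_le_div_of_nonneg_right h1 (by norm_num)
  · rw [e]
    exact div_le_div_of_nonneg_right h2 (by norm_num)
  · rw [Lm, div_le_iff₀ (by linarith)]
    linarith

/-! ## A: pentagons -/

theorem ch_iia {t : ℝ} (ht : 1 ≤ t) (ht2 : t ≤ 1.1273) :
    6 * (1.20256 - t) * (t - 1) * (1.20256 ^ 2 * (t + 1) - t - 1.202558) ≤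
    (0.754693 * (9 * t ^ 2 - 5 * t ^ 3 - 3) * 1.202558 ^ 3 - t ^ 3) / 3 *
      (3 * 1.202558 ^ 2 - 3 - (1.20256 - 1) ^ 2 * (2 * 1.20256 + 1) * (1 / 0.175)) := by
  have hu : 0 ≤ t - 1 := by linarith
  have hv : 0 ≤ 1.1273 - t := by linarith
  linarith only [pow_nonneg hv 3, mul_nonneg hu (pow_nonneg hv 2),
    mul_nonneg (pow_nonneg hu 2) hv, pow_nonneg hu 3]

theorem ch_iib {t : ℝ} (ht : 1.127 ≤ t) (ht2 : t ≤ 1.1756) :
    6 * (1.20256 - t) * (t - 1) * (1.20256 ^ 2 * (t + 1) - t - 1.202558) ≤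
    (0.754693 * (9 * t ^ 2 - 5 * t ^ 3 - 3) * 1.202558 ^ 3 - t ^ 3) / 3 *
      (3 * 1.202558 ^ 2 - 3 - (1.20256 - 1) ^ 2 * (2 * 1.20256 + 1) *
        ((4.72 - 3.3 * t) / 0.175)) := by
  have hu : 0 ≤ t - 1.127 := by linarith
  have hv : 0 ≤ 1.1756 - t := by linarith
  have e : ∀ a b : ℝ, 0 ≤ b - a → a ≤ b := fun a b h => by linarith
  apply e
  ring_nf
  linarith only [pow_nonneg hv 4, mul_nonneg hu (pow_nonneg hv 3),
    mul_nonneg (pow_nonneg hu 2) (pow_nonneg hv 2), mul_nonneg (pow_nonneg hu 3) hv,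
    pow_nonneg hu 4]

/-- The value at `h = 1`. -/
theorem ch_one {t θ β s : ℝ} (ht : 1 ≤ t) (ht2 : t ≤ 1.1756)
    (hθ1 : 1.202558 < θ) (hθ2 : θ < 1.20256)
    (hβ1 : 0.754693 * (9 * t ^ 2 - 5 * t ^ 3 - 3) * 1.202558 ^ 3 - t ^ 3 ≤ β) (hβ0 : 0 ≤ β)
    (hs0 : 0 ≤ s) (hs1 : s ≤ 1 / 0.175) (hs2 : s ≤ (4.72 - 3.3 * t) / 0.175) :
    6 * (θ - t) * (t - 1) * (θ ^ 2 * (t + 1) - t - θ) ≤
      β / 3 * (3 * θ ^ 2 - 3 - (θ - 1) ^ 2 * (2 * θ + 1) * s) := by
  have hθsq1 : 1.202558 ^ 2 ≤ θ ^ 2 := pow_le_pow_left₀ (by norm_num) hθ1.le 2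
  have hθsq2 : θ ^ 2 ≤ 1.20256 ^ 2 := pow_le_pow_left₀ (by linarith) hθ2.le 2
  have a2 : θ ^ 2 * (t + 1) - t - θ ≤ 1.20256 ^ 2 * (t + 1) - t - 1.202558 := by
    have := mul_le_mul_of_nonneg_right hθsq2 (show 0 ≤ t + 1 by linarith)
    linarith
  have a3 : 0 ≤ θ ^ 2 * (t + 1) - t - θ := by
    have k0 : 1.202558 ^ 2 ≤ θ ^ 2 := pow_le_pow_left₀ (by norm_num) hθ1.le 2
    have := mul_le_mul_of_nonneg_right k0 (show 0 ≤ t + 1 by linarith only [ht])
    linarith only [this, ht, hθ2]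
  have a4 : 6 * (θ - t) * (t - 1) * (θ ^ 2 * (t + 1) - t - θ) ≤
      6 * (1.20256 - t) * (t - 1) * (1.20256 ^ 2 * (t + 1) - t - 1.202558) := by
    apply mul_le_mul _ a2 a3
    · apply mul_nonneg <;> linarith
    · apply mul_le_mul_of_nonneg_right _ (by linarith)
      linarith
  have b1 : (θ - 1) ^ 2 ≤ (1.20256 - 1) ^ 2 :=
    pow_le_pow_left₀ (by linarith) (by linarith) 2
  have b2 : (θ - 1) ^ 2 * (2 * θ + 1) ≤ (1.20256 - 1) ^ 2 * (2 * 1.20256 + 1) :=
    mul_le_mul b1 (by linarith) (by linarith) (by norm_num)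
  have b0 : 0 ≤ (1.20256 - 1 : ℝ) ^ 2 * (2 * 1.20256 + 1) := by norm_num
  have hP := ds1_D t ht ht2
  have bl0 : 0 ≤ 0.754693 * (9 * t ^ 2 - 5 * t ^ 3 - 3) * 1.202558 ^ 3 - t ^ 3 := by
    have hu : 0 ≤ t - 1 := by linarith
    have hv : 0 ≤ 1.1756 - t := by linarith
    linarith only [pow_nonneg hv 3, mul_nonneg hu (pow_nonneg hv 2),
      mul_nonneg (pow_nonneg hu 2) hv, pow_nonneg hu 3]
  have a5 : ∀ s' : ℝ, s ≤ s' → s' ≤ 1 / 0.175 + 0.01 →
      (0.754693 * (9 * t ^ 2 - 5 * t ^ 3 - 3) * 1.202558 ^ 3 - t ^ 3) / 3 *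
      (3 * 1.202558 ^ 2 - 3 - (1.20256 - 1) ^ 2 * (2 * 1.20256 + 1) * s') ≤
      β / 3 * (3 * θ ^ 2 - 3 - (θ - 1) ^ 2 * (2 * θ + 1) * s) := by
    intro s' h1 h2
    have c1 : (θ - 1) ^ 2 * (2 * θ + 1) * s ≤ (1.20256 - 1) ^ 2 * (2 * 1.20256 + 1) * s' :=
      mul_le_mul b2 h1 hs0 b0
    have c2 : 3 * 1.202558 ^ 2 - 3 - (1.20256 - 1) ^ 2 * (2 * 1.20256 + 1) * s' ≤
        3 * θ ^ 2 - 3 - (θ - 1) ^ 2 * (2 * θ + 1) * s := by linarith
    have c3 : 0 ≤ 3 * 1.202558 ^ 2 - 3 - (1.20256 - 1) ^ 2 * (2 * 1.20256 + 1) * s' := by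
      norm_num at h2 ⊢
      linarith
    apply mul_le_mul _ c2 c3 (by linarith)
    linarith
  rcases le_or_gt t 1.1273 with h1 | h1
  · exact (a4.trans (ch_iia ht h1)).trans (a5 _ hs1 (by norm_num))
  · refine (a4.trans (ch_iib (by linarith) ht2)).trans (a5 _ hs2 ?_)
    norm_num
    linarith

/-- The slope in `h`. -/
theorem ch_slope {t θ β : ℝ} (ht : 1 ≤ t) (ht2 : t ≤ 1.1756)
    (hθ1 : 1.202558 < θ) (hθ2 : θ < 1.20256)
    (hβ2 : β ≤ 0.75471 * (9 * t ^ 2 - 5 * t ^ 3 - 3) * 1.73908 - t ^ 3) :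
    β / 3 ≤ (θ - t) * (2 * (θ ^ 2 + θ * t + t ^ 2) - 3 * (θ + t)) := by
  have a1 := lin_i ht ht2
  have hθsq1 : 1.202558 ^ 2 ≤ θ ^ 2 := pow_le_pow_left₀ (by norm_num) hθ1.le 2
  have a2 : 2 * (1.202558 ^ 2 + 1.202558 * t + t ^ 2) - 3 * (1.20256 + t) ≤
      2 * (θ ^ 2 + θ * t + t ^ 2) - 3 * (θ + t) := by
    have k0 : 1.202558 ^ 2 ≤ θ ^ 2 := pow_le_pow_left₀ (by norm_num) hθ1.le 2
    have := mul_le_mul_of_nonneg_right hθ1.le (show 0 ≤ t by linarith only [ht])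
    linarith only [this, k0, hθ2]
  have a3 : 0 ≤ 2 * (1.202558 ^ 2 + 1.202558 * t + t ^ 2) - 3 * (1.20256 + t) := by
    nlinarith only [ht]
  have a4 : (1.202558 - t) * (2 * (1.202558 ^ 2 + 1.202558 * t + t ^ 2) - 3 * (1.20256 + t)) ≤
      (θ - t) * (2 * (θ ^ 2 + θ * t + t ^ 2) - 3 * (θ + t)) := by
    apply mul_le_mul (by linarith) a2 a3 (by linarith)
  linarith

theorem ch_iden (t h θ β s : ℝ) :
    (θ - h) ^ 2 * (2 * θ + h) * (β / 3 + (t - 1) ^ 2 * (2 * t + 1)) -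
      (θ - 1) ^ 2 * (2 * θ + 1) * ((t - h) ^ 2 * (2 * t + h)) -
      (θ - 1) ^ 2 * (2 * θ + 1) * (β / 3 * (1 - (h - 1) * s)) =
    (h - 1) * ((6 * (θ - t) * (t - 1) * (θ ^ 2 * (t + 1) - t - θ) -
      β / 3 * (3 * θ ^ 2 - 3 - (θ - 1) ^ 2 * (2 * θ + 1) * s)) -
    (h ^ 2 + h - 2) *
      ((θ - t) * (2 * (θ ^ 2 + θ * t + t ^ 2) - 3 * (θ + t)) - β / 3)) := by
  ring

/-- The polynomial inequality, multiplied by `N1`. -/
theorem ch_key {t h θ β s : ℝ} (ht : 1 ≤ t) (ht2 : t ≤ 1.1756) (hh : 1 ≤ h) (hhθ : h < θ)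
    (hor : h ≤ t ∨ h ≤ 1.08)
    (hθ1 : 1.202558 < θ) (hθ2 : θ < 1.20256)
    (hβ1 : 0.754693 * (9 * t ^ 2 - 5 * t ^ 3 - 3) * 1.202558 ^ 3 - t ^ 3 ≤ β)
    (hβ2 : β ≤ 0.75471 * (9 * t ^ 2 - 5 * t ^ 3 - 3) * 1.73908 - t ^ 3) (hβ0 : 0 ≤ β)
    (hs0 : 0 ≤ s) (hs1 : s ≤ 1 / 0.175) (hs2 : s ≤ (4.72 - 3.3 * t) / 0.175) :
    (θ - h) ^ 2 * (2 * θ + h) * (β / 3 + (t - 1) ^ 2 * (2 * t + 1)) -
      (θ - 1) ^ 2 * (2 * θ + 1) * ((max (t - h) 0) ^ 2 * (2 * t + h)) ≤
      (θ - 1) ^ 2 * (2 * θ + 1) * (β / 3 * (1 - (h - 1) * s)) := by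
  have h1 := ch_one ht ht2 hθ1 hθ2 hβ1 hβ0 hs0 hs1 hs2
  have h2 := ch_slope ht ht2 hθ1 hθ2 hβ2
  have main : ∀ x : ℝ, 1 ≤ x →
      (θ - x) ^ 2 * (2 * θ + x) * (β / 3 + (t - 1) ^ 2 * (2 * t + 1)) -
      (θ - 1) ^ 2 * (2 * θ + 1) * ((t - x) ^ 2 * (2 * t + x)) ≤
      (θ - 1) ^ 2 * (2 * θ + 1) * (β / 3 * (1 - (x - 1) * s)) := by
    intro x hx
    have e := ch_iden t x θ β s
    have e1 : 0 ≤ (x ^ 2 + x - 2) *
        ((θ - t) * (2 * (θ ^ 2 + θ * t + t ^ 2) - 3 * (θ + t)) - β / 3) :=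
      mul_nonneg (by nlinarith only [hx]) (by linarith only [h2])
    have e2 : (x - 1) * ((6 * (θ - t) * (t - 1) * (θ ^ 2 * (t + 1) - t - θ) -
      β / 3 * (3 * θ ^ 2 - 3 - (θ - 1) ^ 2 * (2 * θ + 1) * s)) -
      (x ^ 2 + x - 2) *
      ((θ - t) * (2 * (θ ^ 2 + θ * t + t ^ 2) - 3 * (θ + t)) - β / 3)) ≤ 0 :=
      mul_nonpos_of_nonneg_of_nonpos (by linarith) (by linarith)
    linarith
  rcases le_or_gt h t with hht | hht
  · rw [max_eq_left (by linarith)]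
    exact main h hh
  · rw [max_eq_right (by linarith), zero_pow two_ne_zero, zero_mul, mul_zero, sub_zero]
    have hh8 : h ≤ 1.08 := by
      rcases hor with h3 | h3
      · linarith
      · exact h3
    have m1 := main t ht
    rw [sub_self, zero_pow two_ne_zero, zero_mul, mul_zero, sub_zero] at m1
    -- compare `h` with `t`
    have hN1 : (θ - 1) ^ 2 * (2 * θ + 1) ≤ 0.14 := by
      have d1 : (θ - 1) ^ 2 ≤ 0.20256 ^ 2 := pow_le_pow_left₀ (by linarith) (by linarith) 2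
      have d2 : 2 * θ + 1 ≤ 3.41 := by linarith
      calc (θ - 1) ^ 2 * (2 * θ + 1) ≤ 0.20256 ^ 2 * 3.41 :=
            mul_le_mul d1 d2 (by linarith) (by norm_num)
        _ ≤ _ := by norm_num
    have hN0 : 0 ≤ (θ - 1) ^ 2 * (2 * θ + 1) := by
      apply mul_nonneg (sq_nonneg _)
      linarith
    have hM0 : 0 ≤ (t - 1) ^ 2 * (2 * t + 1) := by
      apply mul_nonneg (sq_nonneg _)
      linarith
    -- `N` is antitone
    have k1 : (θ - h) ^ 2 * (2 * θ + h) ≤ (θ - t) ^ 2 * (2 * θ + t) := by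
      have : (θ - t) ^ 2 * (2 * θ + t) - (θ - h) ^ 2 * (2 * θ + h) =
          (h - t) * (3 * θ ^ 2 - h ^ 2 - h * t - t ^ 2) := by ring
      have h4 : 0 ≤ (h - t) * (3 * θ ^ 2 - h ^ 2 - h * t - t ^ 2) := by
        apply mul_nonneg (by linarith only [hht])
        linarith only [mul_nonneg (show 0 ≤ θ - h by linarith only [hhθ])
            (show 0 ≤ θ + h by linarith only [hhθ, hh]),
          mul_nonneg (show 0 ≤ θ - t by linarith only [hhθ, hht])
            (show 0 ≤ θ + t by linarith only [hθ1, ht]),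
          mul_nonneg (show 0 ≤ h - t by linarith only [hht]) (show 0 ≤ h by linarith only [hh])]
      linarith only [this, h4]
    have k2 := mul_le_mul_of_nonneg_right k1 hM0
    -- `N(t) β/3 - N(h) β/3 ≥ N1 β/3 (h - t) s`
    have k3 : (θ - 1) ^ 2 * (2 * θ + 1) * s ≤ 0.8 := by
      have : (θ - 1) ^ 2 * (2 * θ + 1) * s ≤ 0.14 * (1 / 0.175) :=
        mul_le_mul hN1 hs1 hs0 (by norm_num)
      norm_num at this
      linarith
    have k4 : 0 ≤ (h - t) *
        (3 * θ ^ 2 - h ^ 2 - h * t - t ^ 2 - (θ - 1) ^ 2 * (2 * θ + 1) * s) := by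
      apply mul_nonneg (by linarith only [hht])
      have q1 : 1.202558 ^ 2 ≤ θ ^ 2 := pow_le_pow_left₀ (by norm_num) hθ1.le 2
      have q2 : h ^ 2 ≤ 1.08 ^ 2 := pow_le_pow_left₀ (by linarith only [hh]) hh8 2
      linarith only [q1, q2, k3,
        mul_nonneg (show 0 ≤ h - t by linarith only [hht]) (show 0 ≤ h by linarith only [hh]),
        mul_nonneg (show 0 ≤ h - t by linarith only [hht])
          (show 0 ≤ h + t by linarith only [hh, ht])]
    have k5 := mul_nonneg (div_nonneg hβ0 (by norm_num : (0 : ℝ) ≤ 3)) k4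
    have e : (θ - h) ^ 2 * (2 * θ + h) * (β / 3) -
        (θ - 1) ^ 2 * (2 * θ + 1) * (β / 3 * (1 - (h - 1) * s)) =
      (θ - t) ^ 2 * (2 * θ + t) * (β / 3) -
        (θ - 1) ^ 2 * (2 * θ + 1) * (β / 3 * (1 - (t - 1) * s)) -
      β / 3 * ((h - t) *
        (3 * θ ^ 2 - h ^ 2 - h * t - t ^ 2 - (θ - 1) ^ 2 * (2 * θ + 1) * s)) := by
      ring
    linarith

/-- **A.** -/
theorem CB_ch {t h s : ℝ} (ht1 : 1 ≤ t) (htW : t ^ 2 ≤ W0) (hh1 : 1 ≤ h)
    (hor : h ≤ t ∨ h ≤ 1.08) (hs0 : 0 ≤ s) (hs1 : s ≤ 1 / 0.175)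
    (hs2 : s ≤ (4.72 - 3.3 * t) / 0.175) :
    CBc t h (π / 3 * bet t * (1 - (h - 1) * s)) := by
  have ht2 := t_hi ht1 htW
  have hθ1 := th_lo
  have hθ2 := th_hi
  have htR : t < R := by linarith [R_lo']
  have hβ0 := (tBET t ht1 htR).1
  have hhθ : h < th := by
    rcases hor with h1 | h1 <;> linarith
  obtain ⟨u, hhu, huR, hF, ρ', τ', a1, a2, a3, a4, a5, a6⟩ := CB_val ht1 htW hh1 hhθ
  refine ⟨ρ', τ', a1, a2, a3, a4, a5, ?_⟩
  rw [a6]
  have hr := gw_ratio hh1 hhu huR hF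
  have hg := gw_one ht1 htW
  have hk := kap_low ht1 htW
  obtain ⟨b1, b2⟩ := bet_bd ht1 htW
  have hN1 : 0 < (th - 1) ^ 2 * (2 * th + 1) := by
    have : 0 < th - 1 := by linarith
    positivity
  have hpi := Real.pi_pos
  have key := ch_key ht1 ht2 hh1 hhθ hor hθ1 hθ2 b1 b2 hβ0 hs0 hs1 hs2
  have hfin : (th - 1) ^ 2 * (2 * th + 1) * ((1 - kap t) * gw h u -
      π * (max (t - h) 0) ^ 2 * (2 * t + h)) ≤
      (th - 1) ^ 2 * (2 * th + 1) * (π / 3 * bet t * (1 - (h - 1) * s)) := by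
    have d1 := mul_le_mul_of_nonneg_left hr hk.le
    have d2 := mul_le_mul_of_nonneg_left key hpi.le
    have d3 : (1 - kap t) * ((th - h) ^ 2 * (2 * th + h) * gw 1 R) =
        (th - h) ^ 2 * (2 * th + h) * (π / 3 * bet t + π * ((t - 1) ^ 2 * (2 * t + 1))) := by
      rw [← hg]
      ring
    rw [d3] at d1
    linarith
  exact le_of_mul_le_mul_left hfin hN1

/-! ## B: rays -/

/-- The tangent bound. -/
theorem ch_tan {W ρ : ℝ} (hW : 1.739076 < W) (hρ : 0 < ρ) :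
    2.129476 + 0.02698 * ρ ^ 2 ≤ W / ρ + ρ ^ 2 / 2 := by
  have h1 : 2.129476 - 0.47302 * ρ ^ 2 ≤ W / ρ := by
    rw [le_div_iff₀ hρ]
    have := mul_nonneg (sq_nonneg (ρ - 1.225)) (show 0 ≤ ρ + 2.45 by linarith)
    linarith only [this, hW, hρ]
  linarith

/-- The bound of `F` for `1.127 ≤ h ≤ 1.174`. -/
theorem ch_F1 {h : ℝ} (h1 : 1.127 ≤ h) (h2 : h ≤ 1.174) :
    1.73908 + h ^ 3 / 2 - h * (2.129476 + 0.02698 * (4 / (4 - h ^ 2))) ≤ 0.22 * (1.174 - h) := by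
  have hd : 0 < 4 - h ^ 2 := by nlinarith only [h1, h2]
  have e : 1.73908 + h ^ 3 / 2 - h * (2.129476 + 0.02698 * (4 / (4 - h ^ 2))) -
      0.22 * (1.174 - h) =
      ((1.73908 + h ^ 3 / 2 - 2.129476 * h - 0.22 * (1.174 - h)) * (4 - h ^ 2) - 0.10792 * h) /
        (4 - h ^ 2) := by
    field_simp
    ring
  have hp : (1.73908 + h ^ 3 / 2 - 2.129476 * h - 0.22 * (1.174 - h)) * (4 - h ^ 2) -
      0.10792 * h ≤ 0 := by
    have hu : 0 ≤ h - 1.127 := by linarith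
    have hv : 0 ≤ 1.174 - h := by linarith
    linarith only [pow_nonneg hv 5, mul_nonneg hu (pow_nonneg hv 4),
      mul_nonneg (pow_nonneg hu 2) (pow_nonneg hv 3),
      mul_nonneg (pow_nonneg hu 3) (pow_nonneg hv 2), mul_nonneg (pow_nonneg hu 4) hv,
      pow_nonneg hu 5]
  have := div_nonpos_of_nonpos_of_nonneg hp hd.le
  linarith

/-- The bound of `F` for `1.174 ≤ h`. -/
theorem ch_F2 {h : ℝ} (h1 : 1.174 ≤ h) (h2 : h ≤ 1.21) :
    1.73908 + h ^ 3 / 2 - h * (2.129476 + 0.02698 * (4 / (4 - h ^ 2))) ≤ 0 := by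
  have hd : 0 < 4 - h ^ 2 := by nlinarith only [h1, h2]
  have e : 1.73908 + h ^ 3 / 2 - h * (2.129476 + 0.02698 * (4 / (4 - h ^ 2))) =
      ((1.73908 + h ^ 3 / 2 - 2.129476 * h) * (4 - h ^ 2) - 0.10792 * h) / (4 - h ^ 2) := by
    field_simp
    ring
  have hp : (1.73908 + h ^ 3 / 2 - 2.129476 * h) * (4 - h ^ 2) - 0.10792 * h ≤ 0 := by
    have hu : 0 ≤ h - 1.174 := by linarith
    have hv : 0 ≤ 1.21 - h := by linarith
    linarith only [pow_nonneg hv 5, mul_nonneg hu (pow_nonneg hv 4),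
      mul_nonneg (pow_nonneg hu 2) (pow_nonneg hv 3),
      mul_nonneg (pow_nonneg hu 3) (pow_nonneg hv 2), mul_nonneg (pow_nonneg hu 4) hv,
      pow_nonneg hu 5]
  rw [e]
  exact div_nonpos_of_nonpos_of_nonneg hp hd.le

theorem ch_B1 {h : ℝ} (h1 : 1.08 ≤ h) (h2 : h ≤ 1.1273) :
    6 * (1.73908 + h ^ 3 / 2 - 3 / 2 * 1.20255 ^ 2 * h) * (9 * h ^ 2 - 5 * h ^ 3 - 3) ≤
      (1.739076 * (9 * h ^ 2 - 5 * h ^ 3 - 3) - 1.32505 * h ^ 3) * (1 - (h - 1) * (1 / 0.175)) := by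
  have hu : 0 ≤ h - 1.08 := by linarith
  have hv : 0 ≤ 1.1273 - h := by linarith
  norm_num
  linarith only [pow_nonneg hv 6, mul_nonneg hu (pow_nonneg hv 5),
    mul_nonneg (pow_nonneg hu 2) (pow_nonneg hv 4), mul_nonneg (pow_nonneg hu 3)
    (pow_nonneg hv 3), mul_nonneg (pow_nonneg hu 4) (pow_nonneg hv 2),
    mul_nonneg (pow_nonneg hu 5) hv, pow_nonneg hu 6]

theorem ch_B2 {t : ℝ} (h1 : 1.1273 ≤ t) (h2 : t ≤ 1.174) :
    0 ≤ (0.754693 * (9 * t ^ 2 - 5 * t ^ 3 - 3) * 1.202558 ^ 3 - t ^ 3) *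
      (1 - (t - 1) * ((4.72 - 3.3 * t) / 0.175)) -
      6 * 0.75471 * (9 * t ^ 2 - 5 * t ^ 3 - 3) * (0.22 * (1.174 - t)) := by
  have hu : 0 ≤ t - 1.1273 := by linarith
  have hv : 0 ≤ 1.174 - t := by linarith
  norm_num
  linarith only [pow_nonneg hv 5, mul_nonneg hu (pow_nonneg hv 4),
    mul_nonneg (pow_nonneg hu 2) (pow_nonneg hv 3),
    mul_nonneg (pow_nonneg hu 3) (pow_nonneg hv 2), mul_nonneg (pow_nonneg hu 4) hv,
    pow_nonneg hu 5]

/-- **B.** -/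
theorem ray_ch {t h r s : ℝ} (ht1 : 1 ≤ t) (htW : t ^ 2 ≤ W0) (hth : t ≤ h) (hh2 : 1.08 ≤ h)
    (hh3 : h ≤ 1.21) (hs1 : s ≤ 1 / 0.175) (hs2 : s ≤ (4.72 - 3.3 * t) / 0.175)
    (hsh : (h - 1) * s ≤ 1) (hr0 : 0 ≤ r) (hr : 4 / (4 - h ^ 2) ≤ h ^ 2 * (1 + r ^ 2)) :
    - (bet t / 6 * (1 - (h - 1) * s)) ≤ HH t h r := by
  have ht2 := t_hi ht1 htW
  have ht0 : 0 < t := by linarith
  have hh0 : 0 < h := by linarith
  have htR : t < R := by linarith [R_lo']
  have hβ0 := (tBET t ht1 htR).1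
  have hk := kap_low ht1 htW
  have hX := bet_low htW
  obtain ⟨k1, k2⟩ := kap_bd ht1 htW
  obtain ⟨b1, b2⟩ := bet_bd ht1 htW
  have hD := ds1_D t ht1 ht2
  obtain ⟨q1, q2⟩ := ds1_RW
  set ρ := h * cc r with hρ
  have hρh : h ≤ ρ := by
    rw [hρ]
    exact le_mul_of_one_le_right hh0.le (cc_one r)
  have hρ0 : 0 < ρ := by linarith
  have hρ2 : ρ ^ 2 = h ^ 2 * (1 + r ^ 2) := by
    rw [hρ, mul_pow, cc, Real.sq_sqrt (by positivity)]
  have hval : - HH t h r = (1 - kap t) * ((ρ - h) * (R * W0 / ρ - h * (ρ + h) / 2)) := by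
    rw [p_HB t h r ht0 hh0 hr0, ← hρ, bb, p_BF.2.2 t ρ ht0 (by linarith),
      p_BF.2.2 t h ht0 hth]
    have e1 : (1 - kap t) * ((ρ - h) * (R * W0 / ρ - h * (ρ + h) / 2)) =
        (ρ - h) * ((1 - kap t) * (R * W0) / ρ - (1 - kap t) * (h * (ρ + h) / 2)) := by ring
    rw [e1, ← hX]
    field_simp
    ring
  have hw0 : 0 ≤ 1 - (h - 1) * s := by linarith
  -- the bounds of `F`
  set F := (ρ - h) * (R * W0 / ρ - h * (ρ + h) / 2) with hF
  have hFe : F = R * W0 + h ^ 3 / 2 - h * (R * W0 / ρ + ρ ^ 2 / 2) := by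
    rw [hF]
    field_simp
    ring
  have hF1 : F ≤ 1.73908 + h ^ 3 / 2 - 3 / 2 * 1.20255 ^ 2 * h :=
    ds1_f h ρ (R * W0) hh0.le hρ0 q1 q2
  have hF2 : F ≤ 1.73908 + h ^ 3 / 2 - h * (2.129476 + 0.02698 * (4 / (4 - h ^ 2))) := by
    have h1 := ch_tan q1 hρ0
    have h2 : 4 / (4 - h ^ 2) ≤ ρ ^ 2 := by rw [hρ2]; exact hr
    have h3 : h * (2.129476 + 0.02698 * (4 / (4 - h ^ 2))) ≤ h * (R * W0 / ρ + ρ ^ 2 / 2) :=
      mul_le_mul_of_nonneg_left (by linarith) hh0.le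
    rw [hFe]
    linarith
  have hmain : 6 * ((1 - kap t) * F) ≤ bet t * (1 - (h - 1) * s) := by
    rcases le_or_gt 1.174 h with hh4 | hh4
    · have h1 : F ≤ 0 := hF2.trans (ch_F2 hh4 hh3)
      have h2 : (1 - kap t) * F ≤ 0 := mul_nonpos_of_nonneg_of_nonpos hk.le h1
      have h3 : 0 ≤ bet t * (1 - (h - 1) * s) := mul_nonneg hβ0 hw0
      linarith
    · rcases le_or_gt t 1.1273 with ht3 | ht3
      · -- comparison with a larger value of `t`
        set w := 1 - (h - 1) * (1 / 0.175) with hw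
        have hw1 : 0 ≤ w := by
          rw [hw]
          norm_num
          linarith
        have hww : w ≤ 1 - (h - 1) * s := by
          have := mul_le_mul_of_nonneg_left hs1 (show 0 ≤ h - 1 by linarith)
          linarith
        have hstep : 6 * F * (9 * t ^ 2 - 5 * t ^ 3 - 3) ≤
            (1.739076 * (9 * t ^ 2 - 5 * t ^ 3 - 3) - 1.32505 * t ^ 3) * w := by
          rcases le_or_gt h 1.1273 with hh5 | hh5
          · apply ds1_step t h 1.32505 F w 1.739076 ht1 hth (by linarith) (by norm_num) hw1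
            have h5 := ch_B1 hh2 hh5
            have h6 := ds1_D h (by linarith) (by linarith)
            have h7 : 6 * F * (9 * h ^ 2 - 5 * h ^ 3 - 3) ≤
                6 * (1.73908 + h ^ 3 / 2 - 3 / 2 * 1.20255 ^ 2 * h) *
                  (9 * h ^ 2 - 5 * h ^ 3 - 3) := by
              apply mul_le_mul_of_nonneg_right _ (by linarith)
              linarith
            exact h7.trans h5
          · apply ds1_step t 1.1273 1.32505 F w 1.739076 ht1 ht3 (by norm_num) (by norm_num) hw1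
            have h5 := ch_F1 (by linarith) hh4.le
            have h6 : F ≤ 0.22 * (1.174 - h) := hF2.trans h5
            rw [hw]
            norm_num
            linarith
        set P := 9 * t ^ 2 - 5 * t ^ 3 - 3 with hP
        have hb : (1 - kap t) * (1.739076 * P - 1.32505 * t ^ 3) ≤ bet t * P := by
          have c2 : P ≤ (1 - kap t) * 1.32505 := by
            have : 0.754693 * P * 1.32505 ≤ (1 - kap t) * 1.32505 :=
              mul_le_mul_of_nonneg_right k1 (by norm_num)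
            linarith
          have c3 : P * t ^ 3 ≤ (1 - kap t) * 1.32505 * t ^ 3 :=
            mul_le_mul_of_nonneg_right c2 (by positivity)
          have c4 : (1 - kap t) * 1.739076 * P ≤ (1 - kap t) * (R * W0) * P := by
            apply mul_le_mul_of_nonneg_right _ (by linarith)
            exact mul_le_mul_of_nonneg_left q1.le hk.le
          have c5 : bet t = (1 - kap t) * (R * W0) - t ^ 3 := by linarith
          rw [c5]
          linarith
        have d2 : 6 * ((1 - kap t) * F) * P ≤ bet t * w * P := by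
          have e1 := mul_le_mul_of_nonneg_left hstep hk.le
          have e2 := mul_le_mul_of_nonneg_right hb hw1
          linarith
        have d3 : 6 * ((1 - kap t) * F) ≤ bet t * w :=
          le_of_mul_le_mul_right d2 (by linarith)
        exact d3.trans (mul_le_mul_of_nonneg_left hww hβ0)
      · -- both sides are affine in `h`
        have h5 := ch_F1 (by linarith) hh4.le
        have h6 : F ≤ 0.22 * (1.174 - h) := hF2.trans h5
        have hF0 : 0 ≤ 0.22 * (1.174 - h) := by linarith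
        set P := 9 * t ^ 2 - 5 * t ^ 3 - 3 with hP
        set bl := 0.754693 * P * 1.202558 ^ 3 - t ^ 3 with hbl
        have hbl0 : 0 ≤ bl := by
          rw [hbl, hP]
          have hu : 0 ≤ t - 1.1273 := by linarith
          have hv : 0 ≤ 1.1756 - t := by linarith
          linarith only [pow_nonneg hv 3, mul_nonneg hu (pow_nonneg hv 2),
            mul_nonneg (pow_nonneg hu 2) hv, pow_nonneg hu 3]
        set σ := (4.72 - 3.3 * t) / 0.175 with hσ
        have g1 : 6 * ((1 - kap t) * F) ≤ 6 * 0.75471 * P * (0.22 * (1.174 - h)) := by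
          have e1 : (1 - kap t) * F ≤ (1 - kap t) * (0.22 * (1.174 - h)) :=
            mul_le_mul_of_nonneg_left h6 hk.le
          have e2 : (1 - kap t) * (0.22 * (1.174 - h)) ≤ 0.75471 * P * (0.22 * (1.174 - h)) :=
            mul_le_mul_of_nonneg_right k2 hF0
          linarith
        have g2 : 6 * 0.75471 * P * (0.22 * (1.174 - h)) ≤ bl * (1 - (h - 1) * σ) := by
          have v1 : 0 ≤ bl * (1 - (t - 1) * σ) - 6 * 0.75471 * P * (0.22 * (1.174 - t)) :=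
            ch_B2 ht3.le (by linarith)
          have v2 : 0 ≤ bl * (1 - 0.174 * σ) := by
            apply mul_nonneg hbl0
            rw [hσ]
            norm_num
            linarith
          have v3 : 0 ≤ (1.174 - t) * (bl * (1 - (h - 1) * σ) -
              6 * 0.75471 * P * (0.22 * (1.174 - h))) := by
            have e : (1.174 - t) * (bl * (1 - (h - 1) * σ) -
                6 * 0.75471 * P * (0.22 * (1.174 - h))) =
              (1.174 - h) * (bl * (1 - (t - 1) * σ) - 6 * 0.75471 * P * (0.22 * (1.174 - t))) +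
              (h - t) * (bl * (1 - 0.174 * σ)) := by
              ring
            rw [e]
            exact add_nonneg (mul_nonneg (by linarith) v1) (mul_nonneg (by linarith) v2)
          have v4 : 0 < 1.174 - t := by linarith
          have v5 := nonneg_of_mul_nonneg_right v3 v4
          linarith
        have g3 : bl * (1 - (h - 1) * σ) ≤ bet t * (1 - (h - 1) * s) := by
          have e0 : (h - 1) * s ≤ (h - 1) * σ :=
            mul_le_mul_of_nonneg_left hs2 (by linarith)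
          rcases le_or_gt 0 (1 - (h - 1) * σ) with e1 | e1
          · exact mul_le_mul b1 (by linarith) e1 hβ0
          · have e2 : bl * (1 - (h - 1) * σ) ≤ 0 :=
              mul_nonpos_of_nonneg_of_nonpos hbl0 e1.le
            have e3 := mul_nonneg hβ0 hw0
            linarith
        linarith
  linarith

/-! ## C: six near sides -/

theorem ch_Ca {t : ℝ} (h1 : 1 ≤ t) (h2 : t ≤ 1.1273) :
    0.9912 * (0.75471 * (9 * t ^ 2 - 5 * t ^ 3 - 3) * 1.73908 - t ^ 3) ≤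
      6.283 * (1.2584 ^ 2 / 2 + t ^ 3 / 1.2584 - 3 / 2 * t ^ 2) + 4.4497 -
        4.471 * (0.75471 * (9 * t ^ 2 - 5 * t ^ 3 - 3)) := by
  have hu : 0 ≤ t - 1 := by linarith
  have hv : 0 ≤ 1.1273 - t := by linarith
  norm_num
  linarith only [pow_nonneg hv 3, mul_nonneg hu (pow_nonneg hv 2),
    mul_nonneg (pow_nonneg hu 2) hv, pow_nonneg hu 3]

theorem ch_Cb {t : ℝ} (h1 : 1.127 ≤ t) (h2 : t ≤ 1.1756) :
    (1.0472 * ((4.72 - 3.3 * t) / 0.175) - 4.9929) *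
      (0.75471 * (9 * t ^ 2 - 5 * t ^ 3 - 3) * 1.73908 - t ^ 3) ≤
      6.283 * (1.2584 ^ 2 / 2 + t ^ 3 / 1.2584 - 3 / 2 * t ^ 2) + 4.4497 -
        4.471 * (0.75471 * (9 * t ^ 2 - 5 * t ^ 3 - 3)) := by
  have hu : 0 ≤ t - 1.127 := by linarith
  have hv : 0 ≤ 1.1756 - t := by linarith
  norm_num
  linarith only [pow_nonneg hv 4, mul_nonneg hu (pow_nonneg hv 3),
    mul_nonneg (pow_nonneg hu 2) (pow_nonneg hv 2), mul_nonneg (pow_nonneg hu 3) hv,
    pow_nonneg hu 4]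

theorem ch_Cc {t : ℝ} (h1 : 1 ≤ t) (h2 : t ≤ 1.08) :
    0.9912 * (0.75471 * (9 * t ^ 2 - 5 * t ^ 3 - 3) * 1.73908 - t ^ 3) +
      10.179 * (1.08 - t) ≤
      6.283 * (1.2584 ^ 2 / 2 + t ^ 3 / 1.2584 - 3 / 2 * t ^ 2) + 4.4497 -
        4.471 * (0.75471 * (9 * t ^ 2 - 5 * t ^ 3 - 3)) := by
  have hu : 0 ≤ t - 1 := by linarith
  have hv : 0 ≤ 1.08 - t := by linarith
  norm_num
  linarith only [pow_nonneg hv 3, mul_nonneg hu (pow_nonneg hv 2),
    mul_nonneg (pow_nonneg hu 2) hv, pow_nonneg hu 3]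

/-- A lower bound of `Bf t R`. -/
theorem Bf_R_lo {t : ℝ} (ht : 1 ≤ t) (ht2 : t ≤ 1.1756) :
    1.2584 ^ 2 / 2 + t ^ 3 / 1.2584 - 3 / 2 * t ^ 2 ≤ Bf t R := by
  have hR1 := R_lo'
  have ht0 : 0 < t := by linarith
  rw [p_BF.2.2 t R ht0 (by linarith)]
  have h1 : t ^ 3 ≤ 1.63 := by
    have : t ^ 3 ≤ 1.1756 ^ 3 := pow_le_pow_left₀ ht0.le ht2 3
    norm_num at this
    linarith
  have e : R ^ 2 / 2 + t ^ 3 / R - (1.2584 ^ 2 / 2 + t ^ 3 / 1.2584) =
      (R - 1.2584) * ((R + 1.2584) / 2 - t ^ 3 / (R * 1.2584)) := by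
    have := R_pos
    field_simp
    ring
  have h2 : t ^ 3 / (R * 1.2584) ≤ 1.2 := by
    rw [div_le_iff₀ (by have := R_pos; positivity)]
    linarith only [h1, R_lo']
  have h3 : 0 ≤ (R - 1.2584) * ((R + 1.2584) / 2 - t ^ 3 / (R * 1.2584)) :=
    mul_nonneg (by linarith) (by linarith)
  linarith

/-- **C.** -/
theorem C2_ch {t h s : ℝ} (ht1 : 1 ≤ t) (htW : t ^ 2 ≤ W0) (hh1 : 1 ≤ h) (hhR : h ≤ R)
    (hor : h ≤ t ∨ h ≤ 1.08) (hs1 : s ≤ 1 / 0.175) (hs2 : s ≤ (4.72 - 3.3 * t) / 0.175) :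
    - 2 * π * HH t h (rr h R) - 2 * π * h * Dl t +
      2 * h * (2.34 * (0.00455 * (1 - kap t)) + 2.79 * Dl t) ≤
      π / 3 * bet t * (1 - (h - 1) * s) := by
  obtain ⟨hBnn, -⟩ := p_BF
  have ht2 := t_hi ht1 htW
  have htR : t < R := by linarith [R_lo']
  have ht0 : 0 < t := by linarith
  have hh0 : 0 < h := by linarith
  have hκ := (tKAP t ht1 htR).1
  have hβ := (tBET t ht1 htR).1
  have hΔ : 0 ≤ Dl t := FBC_Dl ht1 htR
  obtain ⟨-, -, -, hJ⟩ := p_C1A p_KEX t ht1 htW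
  have hidn := tIDN t ht1 htR
  obtain ⟨k1, k2⟩ := kap_bd ht1 htW
  obtain ⟨b1, b2⟩ := bet_bd ht1 htW
  have hD := ds1_D t ht1 ht2
  have hpi1 := Real.pi_gt_d6
  have hpi2 := Real.pi_lt_d6
  have hR0 := R_pos
  have hB := Bf_R_lo ht1 ht2
  have hBp : 0 ≤ Bf t R := hBnn t R ht0 R_pos
  -- the value of `HH` at height `h`
  have e1 : HH t h (rr h R) = h * (bb t R - Bf t h) + kap t * h ^ 3 / 2 - bet t := by
    rw [p_HB t h (rr h R) ht0 hh0 (Real.sqrt_nonneg _), C2_cc hh1 hhR]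
  have e2 : alp t = bb t R + kap t / 2 - bet t := by
    have h3 := p_HB t 1 rv ht0 one_pos rv_pos.le
    rw [one_mul, cc_rv] at h3
    have h4 : Bf t 1 = 0 := by
      rw [Bf, if_pos ht1]
    rw [h4] at h3
    have h5 : alp t = HH t 1 rv := rfl
    rw [h5, h3]
    ring_nf
  have e3 : bb t R = Bf t R + bet t / R - kap t * R ^ 2 / 2 := rfl
  have h9 : 0 ≤ h - 1 := by linarith
  set g := 0.00455 * (1 - kap t) with hg
  have hK : 4.4497 * kap t ≤ π * kap t * (3 - R ^ 2) := by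
    have f1 : (4.4497 : ℝ) ≤ π * (3 - R ^ 2) := by
      have := mul_le_mul hpi1.le (show 1.4164074 ≤ 3 - R ^ 2 by linarith only [R_sq_hi])
        (by norm_num) Real.pi_pos.le
      norm_num at this ⊢
      linarith only [this]
    have := mul_le_mul_of_nonneg_right f1 hκ
    linarith
  have hB2 : 6.283 * (1.2584 ^ 2 / 2 + t ^ 3 / 1.2584 - 3 / 2 * t ^ 2) ≤ 2 * π * Bf t R := by
    have f1 : 6.283 * Bf t R ≤ 2 * π * Bf t R :=
      mul_le_mul_of_nonneg_right (by linarith) hBp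
    have f2 := mul_le_mul_of_nonneg_left hB (show (0 : ℝ) ≤ 6.283 by norm_num)
    linarith
  -- the lower bound of the slope
  have hgain : 6.283 * (1.2584 ^ 2 / 2 + t ^ 3 / 1.2584 - 3 / 2 * t ^ 2) + 4.4497 -
        4.471 * (0.75471 * (9 * t ^ 2 - 5 * t ^ 3 - 3)) ≤
      2 * π * Bf t R - 4.68 * g + π * kap t * (3 - R ^ 2) := by
    have f1 : 4.68 * g ≤ 0.0213 * (1 - kap t) := by
      rw [hg]
      linarith only [kap_low ht1 htW]
    have f2 : 4.471 * (1 - kap t) ≤ 4.471 * (0.75471 * (9 * t ^ 2 - 5 * t ^ 3 - 3)) :=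
      mul_le_mul_of_nonneg_left k2 (by norm_num)
    linarith
  have hRR : 4.9929 ≤ 2 * π / R := by
    rw [le_div_iff₀ hR0]
    linarith [R_hi']
  -- the drop
  have hpis : π / 3 * s * bet t ≤ 1.0472 * (1 / 0.175) * bet t ∧
      (1.127 ≤ t → π / 3 * s * bet t ≤ 1.0472 * ((4.72 - 3.3 * t) / 0.175) * bet t) := by
    constructor
    · apply mul_le_mul_of_nonneg_right _ hβ
      have f1 : π / 3 * s ≤ π / 3 * (1 / 0.175) := mul_le_mul_of_nonneg_left hs1 (by positivity)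
      have f2 : π / 3 * (1 / 0.175) ≤ 1.0472 * (1 / 0.175) :=
        mul_le_mul_of_nonneg_right (by linarith) (by norm_num)
      exact f1.trans f2
    · intro _
      apply mul_le_mul_of_nonneg_right _ hβ
      have f1 : π / 3 * s ≤ π / 3 * ((4.72 - 3.3 * t) / 0.175) :=
        mul_le_mul_of_nonneg_left hs2 (by positivity)
      have f2 : π / 3 * ((4.72 - 3.3 * t) / 0.175) ≤
          1.0472 * ((4.72 - 3.3 * t) / 0.175) :=
        mul_le_mul_of_nonneg_right (by linarith) (div_nonneg (by linarith) (by norm_num))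
      exact f1.trans f2
  have hdrop : 2 * π * h * Bf t h + π / 3 * s * bet t * (h - 1) ≤
      (4.9929 * bet t + (2 * π * Bf t R - 4.68 * g + π * kap t * (3 - R ^ 2))) * (h - 1) := by
    by_cases hht : h ≤ t
    · rw [Bf, if_pos hht, mul_zero, zero_add]
      apply mul_le_mul_of_nonneg_right _ h9
      rcases le_or_gt t 1.1273 with ht3 | ht3
      · have f1 := ch_Ca ht1 ht3
        have f2 := hpis.1
        norm_num at f2
        linarith
      · have f1 := ch_Cb (by linarith) ht2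
        have f2 := hpis.2 (by linarith)
        have f3 : 0 ≤ 1.0472 * ((4.72 - 3.3 * t) / 0.175) - 4.9929 := by
          norm_num
          linarith
        have f4 := mul_le_mul_of_nonneg_left b2 f3
        linarith
    · have hh2 : h ≤ 1.08 := hor.resolve_left hht
      push Not at hht
      have e4 : 2 * π * h * Bf t h = π * ((h - t) ^ 2 * (h + 2 * t)) := by
        rw [Bf, if_neg (not_le.2 hht)]
        field_simp
      have h5 : (h - t) ^ 2 * (h + 2 * t) ≤ 3.24 * (1.08 - t) * (h - 1) := by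
        have h6 : (h - t) ^ 2 ≤ (1.08 - t) * (h - 1) := by
          rw [sq]
          exact mul_le_mul (by linarith) (by linarith) (by linarith) (by linarith)
        have h7 : h + 2 * t ≤ 3.24 := by linarith
        calc (h - t) ^ 2 * (h + 2 * t) ≤ ((1.08 - t) * (h - 1)) * 3.24 := by
              apply mul_le_mul h6 h7 (by linarith)
              exact mul_nonneg (by linarith) h9
          _ = _ := by ring
      have h10 : π * ((h - t) ^ 2 * (h + 2 * t)) ≤ 10.179 * (1.08 - t) * (h - 1) := by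
        have f0 : 0 ≤ (1.08 - t) * (h - 1) := mul_nonneg (by linarith) h9
        calc π * ((h - t) ^ 2 * (h + 2 * t)) ≤ π * (3.24 * (1.08 - t) * (h - 1)) :=
              mul_le_mul_of_nonneg_left h5 Real.pi_pos.le
          _ = (π * 3.24) * ((1.08 - t) * (h - 1)) := by ring
          _ ≤ 10.179 * ((1.08 - t) * (h - 1)) :=
              mul_le_mul_of_nonneg_right (by linarith) f0
          _ = _ := by ring
      rw [e4]
      have f1 := ch_Cc ht1 (by linarith)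
      have f2 := hpis.1
      norm_num at f2
      have f3 : π / 3 * s * bet t + 10.179 * (1.08 - t) ≤
          4.9929 * bet t + (2 * π * Bf t R - 4.68 * g + π * kap t * (3 - R ^ 2)) := by
        linarith
      have f4 := mul_le_mul_of_nonneg_right f3 h9
      linarith
  -- main computation
  have hZ : 4.9929 * bet t + (2 * π * Bf t R - 4.68 * g + π * kap t * (3 - R ^ 2)) ≤
      2 * π * bb t R - 4.68 * g + (2 * π - 5.58) * Dl t + 3 * π * kap t := by
    rw [e3]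
    have h10 : 0 ≤ (2 * π - 5.58) * Dl t := mul_nonneg (by linarith) hΔ
    have h11 : 4.9929 * bet t ≤ 2 * π / R * bet t := mul_le_mul_of_nonneg_right hRR hβ
    have h12 : 2 * π / R * bet t = 2 * π * (bet t / R) := by ring
    linarith
  have hL1 : 2 * π * bet t - (2 * π * bb t R - 4.68 * g + (2 * π - 5.58) * Dl t)
      - π * kap t ≤ π / 3 * bet t := by
    have h10 : 0.703 * Dl t ≤ (2 * π - 5.58) * Dl t :=
      mul_le_mul_of_nonneg_right (by linarith) hΔ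
    have h11 : 2 * π * alp t = 2 * π * bb t R + π * kap t - 2 * π * bet t := by
      rw [e2]
      ring
    linarith
  have hcub : 3 * (h - 1) ≤ h ^ 3 - 1 := by
    linarith only [mul_nonneg h9 h9, mul_nonneg (mul_nonneg h9 h9) h9]
  have hκc : π * kap t * (3 * (h - 1)) ≤ π * kap t * (h ^ 3 - 1) :=
    mul_le_mul_of_nonneg_left hcub (mul_nonneg Real.pi_pos.le hκ)
  have hZ' := mul_le_mul_of_nonneg_left hZ h9
  rw [e1]
  have e6 : - 2 * π * (h * (bb t R - Bf t h) + kap t * h ^ 3 / 2 - bet t) - 2 * π * h * Dl t +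
      2 * h * (2.34 * g + 2.79 * Dl t) =
      (2 * π * bet t - (2 * π * bb t R - 4.68 * g + (2 * π - 5.58) * Dl t) - π * kap t) -
      (h - 1) * (2 * π * bb t R - 4.68 * g + (2 * π - 5.58) * Dl t + 3 * π * kap t) +
      2 * π * h * Bf t h - (π * kap t * (h ^ 3 - 1) - π * kap t * (3 * (h - 1))) := by
    ring
  rw [e6]
  linarith

/-! ## Assembly -/

/-- **The target `T_F` for `t² ≤ W0`.** -/
theorem F_low (hrp : T_RP) (ι : Type) [Fintype ι] (n : ι → E3) (h : ι → ℝ) (i : ι) (e f : E3)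
    (t : ℝ) (hP : Pck n h) (hI : Irr n h) (hO : Onb (n i) e f) (ht1 : 1 ≤ t) (htW : t ^ 2 ≤ W0)
    (hLm : h i < 1 + Lm t) :
    -(π / 3 * bet t * (1 - (h i - 1) / Lm t)) ≤ FI t n h i e f := by
  classical
  have ht2 := t_hi ht1 htW
  have htR : t < R := by linarith [R_lo']
  have hβ := (tBET t ht1 htR).1
  obtain ⟨l1, l2, l3, l4⟩ := Lm_low ht2
  have hh1 : 1 ≤ h i := hP.2.1 i
  have hh0 : 0 < h i := by linarith
  have hiR : h i < R := by linarith [R_lo']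
  have hiRO : h i < RO := hiR.trans R_lt_RO
  refine le_trans ?_ (hrp ι n h i e f t hP hI hO ht1 htR)
  set s := 1 / Lm t with hs
  have hs0 : 0 ≤ s := by positivity
  have e0 : 1 - (h i - 1) / Lm t = 1 - (h i - 1) * s := by
    rw [hs]
    ring
  rw [e0]
  have hsh : (h i - 1) * s ≤ 1 := by
    rw [hs, mul_one_div, div_le_one l1]
    linarith
  by_cases hc : h i ≤ t ∨ h i ≤ 1.08
  · -- low facets
    have hcb := CB_ch ht1 htW hh1 hc hs0 l2 l3
    obtain ⟨S, hS⟩ : ∃ S : Finset ι, ∀ j, NS n h i RO j ↔ j ∈ S :=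
      ⟨Finset.univ.filter fun j => NS n h i RO j, fun j => by simp⟩
    obtain ⟨S', hS'⟩ : ∃ S' : Finset ι, ∀ j, j ∈ S' ↔ (j ∈ S ∧ ad n h i j < rr (h i) R) :=
      ⟨S.filter fun j => ad n h i j < rr (h i) R, fun j => by simp⟩
    have hsub : S' ⊆ S := fun j hj => ((hS' j).mp hj).1
    rcases Nat.lt_or_ge S'.card 6 with h6 | h6
    · refine facet5 n h i e f t _ S S' hP hI hO ht1 htR hiR hcb hS hsub (by omega) ?_
      intro j hj hj'
      by_contra hlt
      exact hj' ((hS' j).mpr ⟨hj, not_le.mp hlt⟩)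
    · obtain ⟨c0, -, c2, -⟩ := p_C1A p_KEX t ht1 htW
      exact facet6g n h i e f t _ _ (0.00455 * (1 - kap t)) S S' hP hI hO ht1 htR hiR hcb
        (mul_nonneg (by norm_num) c0) c2 (C2_ch ht1 htW hh1 hiR.le hc l2 l3) hS hsub h6
        fun j hj => ((hS' j).mp hj).2
  · -- higher facets
    push Not at hc
    have hd : 0 < 4 - h i ^ 2 := by nlinarith only [hLm, l4, hh0]
    have hq : 4 / (4 - h i ^ 2) ≤ RO ^ 2 := by
      rw [RO_sq, div_le_iff₀ hd]
      nlinarith only [hLm, l4, hh0]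
    have hq2 : h i ^ 2 ≤ 4 / (4 - h i ^ 2) := by
      rw [le_div_iff₀ hd]
      linarith only [sq_nonneg (h i ^ 2 - 2)]
    have hrr : rr (h i) √(4 / (4 - h i ^ 2)) ≤ rr (h i) RO := by
      apply FBC_rr_mono hh0 (Real.sqrt_nonneg _)
      rw [← Real.sqrt_sq RO_pos.le]
      exact Real.sqrt_le_sqrt hq
    have key := facet_ray n h i e f t (bet t / 6 * (1 - (h i - 1) * s))
      (rr (h i) √(4 / (4 - h i ^ 2))) RO hP hI hO hiRO hiRO hrr
      (fun j hj => ad_ge n h i j RO hP hI hiRO hj)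
      (by
        intro r hr
        have hr0 : 0 ≤ r := (Real.sqrt_nonneg _).trans hr
        apply ray_ch ht1 htW hc.1.le hc.2.le (by linarith) l2 l3 hsh hr0
        have g1 : rr (h i) √(4 / (4 - h i ^ 2)) ^ 2 ≤ r ^ 2 :=
          pow_le_pow_left₀ (Real.sqrt_nonneg _) hr 2
        rw [rr, Real.sq_sqrt (by positivity : (0 : ℝ) ≤ 4 / (4 - h i ^ 2)),
          Real.sq_sqrt (by
            rw [sub_nonneg, le_div_iff₀ (by positivity), one_mul]
            exact hq2)] at g1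
        have g2 : 4 / (4 - h i ^ 2) / h i ^ 2 ≤ 1 + r ^ 2 := by linarith
        rw [div_le_iff₀ (by positivity)] at g2
        linarith)
    have e1 : - (2 * π * (bet t / 6 * (1 - (h i - 1) * s))) =
        - (π / 3 * bet t * (1 - (h i - 1) * s)) := by ring
    rw [← e1]
    exact key

end Pool.Agent.SDL
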