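import Pool.Agent.BPK.Link
import Pool.Agent.SDL.AffEx
import Pool.Agent.SDL.D14C

set_option autoImplicit false

/-!
# D14P: the inequalities in one variable of the certificate for 14 points
-/

namespace Pool.Agent.SDL.D14

open Pool.Agent.BPK

/-- The variable `u` (the variable of the check is `1 + u`). -/
def xu : Ex := Ex.add Ex.u (Ex.c 0 1)

theorem ev_xu (x y z : ℝ) : Ex.evR x y z xu = x - 1 := by
  simp only [xu, Ex.evR]
  push_cast
  ring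

/-- The box. -/
def bx_p0 : Box := ⟨2, 0, 3, 1, 0, 1, 1, 0, 1⟩

/-- The certificate. -/
def ct_p0 : List ℕ := [
  0x333003300]

/-- The item. -/
def it_p0 : EIt := ⟨14, 0, 0, Ex.neg (C.P0E exOps xu)⟩

/-- The check. -/
theorem ok_p0 : checkE 116 32 0 4 bx_p0 [it_p0] [50] (joinC ct_p0)
    = true := by
  decide +kernel

/-- The box. -/
def bx_p1 : Box := ⟨125, 0, 217, 1, 0, 1, 1, 0, 1⟩

/-- The certificate. -/
def ct_p1 : List ℕ := [
  0x3303030303033330000]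

/-- The item. -/
def it_p1 : EIt := ⟨14, 0, 0, Ex.neg (C.P1E exOps xu)⟩

/-- The check. -/
theorem ok_p1 : checkE 204 32 0 7 bx_p1 [it_p1] [137] (joinC ct_p1)
    = true := by
  decide +kernel

/-- The box. -/
def bx_mix : Box := ⟨250, 375, 434, 1, 0, 1, 1, 0, 1⟩

/-- The certificate. -/
def ct_mix : List ℕ := [
  0x3]

/-- The item. -/
def it_mix : EIt := ⟨15, 0, 0, Ex.neg (Ex.add (Ex.mul (hor exOps xu [2944, -4000]) (C.P0E exOps xu))
    (Ex.mul (hor exOps xu [-1000, 2000]) (C.P1E exOps xu)))⟩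

/-- The check. -/
theorem ok_mix : checkE 247 32 0 1 bx_mix [it_mix] [161] (joinC ct_mix)
    = true := by
  decide +kernel

theorem p0 (u : ℝ) (h1 : -1 ≤ u) (h2 : u ≤ 1 / 2) : C.P0 u ≤ 0 := by
  have hb : bx_p0.In (1 + u) 0 0 := by
    unfold Box.In bx_p0
    push_cast
    refine ⟨⟨?_, ?_⟩, ⟨?_, ?_⟩, ⟨?_, ?_⟩⟩ <;> linarith
  obtain ⟨p, hp, hpos⟩ := checkE_spec _ _ _ _ bx_p0 [it_p0] _ _ (by norm_num)
    (by norm_num) (by decide) ok_p0 (1 + u) 0 0 hb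
  rw [List.mem_singleton] at hp
  subst hp
  have e1 : Ex.evR (1 + u) 0 0 it_p0.e = -C.P0 u := by
    change -(Ex.evR (1 + u) 0 0 (C.P0E exOps xu)) = _
    rw [Cert.ev_P0E exOps C (exOps_isEv (1 + u) 0 0), ev_xu, add_sub_cancel_left]
  rw [e1] at hpos
  linarith

theorem p1 (u : ℝ) (h1 : -1 ≤ u) (h2 : u ≤ (1 + 0.472) / 2) : C.P1 u ≤ 0 := by
  have hb : bx_p1.In (1 + u) 0 0 := by
    unfold Box.In bx_p1
    push_cast
    refine ⟨⟨?_, ?_⟩, ⟨?_, ?_⟩, ⟨?_, ?_⟩⟩ <;> linarith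
  obtain ⟨p, hp, hpos⟩ := checkE_spec _ _ _ _ bx_p1 [it_p1] _ _ (by norm_num)
    (by norm_num) (by decide) ok_p1 (1 + u) 0 0 hb
  rw [List.mem_singleton] at hp
  subst hp
  have e1 : Ex.evR (1 + u) 0 0 it_p1.e = -C.P1 u := by
    change -(Ex.evR (1 + u) 0 0 (C.P1E exOps xu)) = _
    rw [Cert.ev_P1E exOps C (exOps_isEv (1 + u) 0 0), ev_xu, add_sub_cancel_left]
  rw [e1] at hpos
  linarith

theorem mix (u : ℝ) (h1 : 1 / 2 ≤ u) (h2 : u ≤ (1 + 0.472) / 2) :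
    2 * (0.472 - (2 * u - 1)) * C.P0 u + (2 * u - 1) * C.P1 u ≤ 0 := by
  have hb : bx_mix.In (1 + u) 0 0 := by
    unfold Box.In bx_mix
    push_cast
    refine ⟨⟨?_, ?_⟩, ⟨?_, ?_⟩, ⟨?_, ?_⟩⟩ <;> linarith
  obtain ⟨p, hp, hpos⟩ := checkE_spec _ _ _ _ bx_mix [it_mix] _ _ (by norm_num)
    (by norm_num) (by decide) ok_mix (1 + u) 0 0 hb
  rw [List.mem_singleton] at hp
  subst hp
  have e1 : Ex.evR (1 + u) 0 0 it_mix.e =
      -(1000 * (2 * (0.472 - (2 * u - 1)) * C.P0 u + (2 * u - 1) * C.P1 u)) := by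
    change -(Ex.evR (1 + u) 0 0 (hor exOps xu [2944, -4000]) *
      Ex.evR (1 + u) 0 0 (C.P0E exOps xu) + Ex.evR (1 + u) 0 0 (hor exOps xu [-1000, 2000]) *
      Ex.evR (1 + u) 0 0 (C.P1E exOps xu)) = _
    rw [Cert.ev_P0E exOps C (exOps_isEv (1 + u) 0 0),
      Cert.ev_P1E exOps C (exOps_isEv (1 + u) 0 0), ev_hor exOps (exOps_isEv (1 + u) 0 0),
      ev_hor exOps (exOps_isEv (1 + u) 0 0), ev_xu, add_sub_cancel_left]
    simp only [pv]
    push_cast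
    ring
  rw [e1] at hpos
  linarith

end Pool.Agent.SDL.D14
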