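import Pool.Agent.SDC.Assembly

set_option autoImplicit false

/-!
# SDL: the soft dodecahedral inequality with weighted neighbours: definitions

The paper proof is row 2628 of the table `ideas` (and `Blueprint.md` in this folder). The files of
`Pool/Agent/SDC` are used.
-/

open MeasureTheory Set Real
open scoped RealInnerProductSpace

namespace Pool.Agent.SDL

open Pool.Agent.SDC

/-! ## Constants -/

/-- The outer radius, `1.27475..`. -/
noncomputable def RO : ℝ := √(13 / 8)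

/-- The square of `sin 36°`. -/
noncomputable def s2 : ℝ := (5 - √5) / 8

/-- The square of `cos 36°`. -/
noncomputable def c2 : ℝ := (3 + √5) / 8

/-- The area of the right triangle of the face of the dodecahedron. -/
noncomputable def S0 : ℝ := a0 ^ 2 * tan (π / 5) / 2

/-- The polynomial `K`. -/
noncomputable def Kq (q : ℝ) : ℝ :=
  1 / 5 - 2 * q ^ 2 / 3 + q ^ 4 - 8 * q ^ 5 / 15
    - 0.345 * (1 / 7 - 2 * q ^ 2 / 5 + q ^ 4 / 3 - 8 * q ^ 7 / 105)

/-! ## Functions of one variable -/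

/-- The function `b`. -/
noncomputable def bb (t ρ : ℝ) : ℝ := Bf t ρ + bet t / ρ - kap t * ρ ^ 2 / 2

/-- The function `H` with the multipliers of `t`. -/
noncomputable def HH (t h r : ℝ) : ℝ := H t (kap t) (bet t) h r

/-- In the plane at distance one: the radius of the section of the ball of radius `u` with the plane
at distance `h`. -/
noncomputable def rr (h u : ℝ) : ℝ := √(u ^ 2 / h ^ 2 - 1)

/-- The function `g` for the radius `u`. `ggu t κ R = gg t κ`. -/
noncomputable def ggu (t κ u W : ℝ) : ℝ :=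
  (1 - κ) * W + √(max (t ^ 2 - W) 0) ^ 3 / √(u ^ 2 - W)

/-- The weight of a neighbour at distance `2 h`. -/
noncomputable def wt (h : ℝ) : ℝ := 6 - 30 / π * arctan (h / √3)

/-- The step between the two radii. -/
noncomputable def Dl (t : ℝ) : ℝ := bb t RO - bb t R

/-! ## Polyhedra -/

section poly

variable {ι : Type}

/-- The half spaces of a packing: the points `2 h i n i` have mutual distances and norms at least
two. -/
def Pck (n : ι → E3) (h : ι → ℝ) : Prop :=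
  (∀ i, ‖n i‖ = 1) ∧ (∀ i, 1 ≤ h i) ∧
    ∀ i j, i ≠ j → 1 ≤ h i ^ 2 + h j ^ 2 - 2 * h i * h j * ⟪n i, n j⟫

/-- The facets `i` and `j` have a side in common inside of the open ball of radius `ϱ`. -/
def NS (n : ι → E3) (h : ι → ℝ) (i : ι) (ϱ : ℝ) (j : ι) : Prop :=
  i ≠ j ∧ ∃ x, ‖x‖ < ϱ ∧ ⟪n i, x⟫ = h i ∧ ⟪n j, x⟫ = h j ∧
    ∀ k, k ≠ i → k ≠ j → ⟪n k, x⟫ < h k

/-- The distance from the foot of the line of the side `j` of the facet `i`, in the plane at
distance one. -/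
noncomputable def ad (n : ι → E3) (h : ι → ℝ) (i j : ι) : ℝ :=
  (h j / h i - ⟪n i, n j⟫) / √(1 - ⟪n i, n j⟫ ^ 2)

end poly

/-! ## Facts about the constants -/

theorem RO_sq : RO ^ 2 = 13 / 8 := Real.sq_sqrt (by norm_num)

theorem RO_pos : 0 < RO := Real.sqrt_pos.mpr (by norm_num)

theorem RO_lo : (1.2747 : ℝ) < RO := by
  nlinarith [RO_sq, RO_pos]

theorem RO_hi : RO < (1.2748 : ℝ) := by
  nlinarith [RO_sq, RO_pos]

theorem R_lt_RO : R < RO := by linarith [R_hi, RO_lo]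

theorem s5_lo' : (2.2360679 : ℝ) < √5 := by
  rw [show (2.2360679 : ℝ) = √(2.2360679 ^ 2) by rw [Real.sqrt_sq (by norm_num)]]
  exact Real.sqrt_lt_sqrt (by norm_num) (by norm_num)

theorem s5_hi' : √5 < (2.236068 : ℝ) := by
  rw [show (2.236068 : ℝ) = √(2.236068 ^ 2) by rw [Real.sqrt_sq (by norm_num)]]
  exact Real.sqrt_lt_sqrt (by norm_num) (by norm_num)

theorem R_sq_lo : (1.583592 : ℝ) < R ^ 2 := by
  rw [R_sq]
  linarith [s5_hi']

theorem R_sq_hi : R ^ 2 < (1.5835926 : ℝ) := by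
  rw [R_sq]
  linarith [s5_lo']

theorem R_lo' : (1.258408 : ℝ) < R := by
  nlinarith [R_sq_lo, R_pos]

theorem R_hi' : R < (1.258409 : ℝ) := by
  nlinarith [R_sq_hi, R_pos]

theorem s2_add_c2 : s2 + c2 = 1 := by
  rw [s2, c2]
  ring

theorem s2_lo : (0.345491 : ℝ) < s2 := by
  rw [s2]
  linarith [s5_hi']

theorem s2_hi : s2 < (0.345492 : ℝ) := by
  rw [s2]
  linarith [s5_lo']

theorem c2_lo : (0.654508 : ℝ) < c2 := by
  rw [c2]
  linarith [s5_lo']

theorem c2_hi : c2 < (0.654509 : ℝ) := by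
  rw [c2]
  linarith [s5_hi']

theorem c2_eq : c2 = cos (π / 5) ^ 2 := by
  rw [cos36_eq, c2]
  nlinarith [s5_sq]

theorem s2_eq : s2 = sin (π / 5) ^ 2 := by
  have h := Real.sin_sq_add_cos_sq (π / 5)
  rw [← c2_eq] at h
  linarith [s2_add_c2]

/-- `W0 = s2 + R² c2`. -/
theorem W0_sc : W0 = s2 + R ^ 2 * c2 := by
  rw [W0, s2, c2, R_sq]
  nlinarith [s5_sq]

theorem RW_eq : R ^ 2 - W0 = s2 * (R ^ 2 - 1) := by
  rw [W0_sc]
  linear_combination (- R ^ 2) * s2_add_c2

theorem W0_one : W0 - 1 = c2 * (R ^ 2 - 1) := by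
  rw [W0_sc]
  linear_combination s2_add_c2

theorem R_c2 : R ^ 2 * c2 = 3 * s2 := by
  rw [R_sq, c2, s2]
  nlinarith [s5_sq]

theorem W0_s2 : W0 = 4 * s2 := by
  rw [W0, s2]
  ring

theorem tan36_pos : 0 < tan (π / 5) := by
  apply tan_pos_of_pos_of_lt_pi_div_two
  · positivity
  · linarith [Real.pi_pos]

theorem cos36_pos : 0 < cos (π / 5) := by
  rw [cos36_eq]
  positivity

theorem tan36_sq : tan (π / 5) ^ 2 = 5 - 2 * √5 := by
  rw [tan_eq_sin_div_cos, div_pow, ← s2_eq, ← c2_eq, s2, c2, div_eq_iff (by positivity)]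
  nlinarith [s5_sq]

theorem tan36_lo : (0.726542 : ℝ) < tan (π / 5) := by
  nlinarith [tan36_sq, tan36_pos, s5_hi']

theorem tan36_hi : tan (π / 5) < (0.726543 : ℝ) := by
  nlinarith [tan36_sq, tan36_pos, s5_lo']

/-- `tan 36° = R / √3`. -/
theorem tan36_R : tan (π / 5) = R / √3 := by
  have h1 : tan (π / 5) ^ 2 = (R / √3) ^ 2 := by
    rw [tan36_sq, div_pow, R_sq, Real.sq_sqrt (by norm_num)]
    ring
  have h2 : 0 < R / √3 := div_pos R_pos (by positivity)
  nlinarith [tan36_pos]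

theorem a0_sq : a0 ^ 2 = (3 - √5) / 2 := by
  rw [a0]
  nlinarith [s5_sq]

theorem rv_sq : rv ^ 2 = R ^ 2 - 1 := by
  rw [R_sq']
  ring

/-- `a0 tan 36° = √(R² - W0)`, squared. -/
theorem a0_tan : (a0 * tan (π / 5)) ^ 2 = R ^ 2 - W0 := by
  rw [mul_pow, tan36_sq, a0_sq, R_sq, W0]
  nlinarith [s5_sq]

theorem S0_lo : (0.138756 : ℝ) < S0 := by
  rw [S0, a0_sq]
  nlinarith [tan36_lo, s5_hi']

theorem S0_hi : S0 < (0.138758 : ℝ) := by
  rw [S0, a0_sq]
  nlinarith [tan36_hi, s5_lo', tan36_pos]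

theorem S0_pos : 0 < S0 := by linarith [S0_lo]

end Pool.Agent.SDL
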