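import Pool.Agent.SDL.CMap2
import Pool.Agent.SDL.P_FAX
import Pool.Agent.SDL.P_FCX

set_option autoImplicit false

/-!
# Flags: the integral over a facet as a sum over its corners

`Fl g ρ d p`: the integral over the triangle with the vertices foot, foot of the side (at distance
`d`) and the point of the side with the angle `p`, truncated at the radius `ρ` (odd in `p`).
-/

open MeasureTheory Set Real
open scoped RealInnerProductSpace

namespace Pool.Agent.SDL

open Pool.Agent.SDC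

/-- The integral over a flag in a facet, truncated at the radius `ρ`. -/
noncomputable def Fl (g : ℝ → ℝ) (ρ d p : ℝ) : ℝ :=
  ∫ ψ in (0 : ℝ)..p, ∫ s in (0 : ℝ)..(min (d / cos ψ) ρ), g s * s

/-- The radial integral of a set in the direction `ψ`. -/
noncomputable def Rad (Q : Set (ℝ × ℝ)) (g : ℝ → ℝ) (ρ ψ : ℝ) : ℝ :=
  ∫ s in {s : ℝ | 0 < s ∧ s < ρ ∧ (s * cos ψ, s * sin ψ) ∈ Q}, g s * s

theorem Rad_periodic (Q : Set (ℝ × ℝ)) (g : ℝ → ℝ) (ρ : ℝ) :
    Function.Periodic (Rad Q g ρ) (2 * π) := by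
  intro ψ
  simp only [Rad, Real.cos_add_two_pi, Real.sin_add_two_pi]

/-- The ray which leaves the set through the side at distance `a`. -/
theorem Rad_ray {Q : Set (ℝ × ℝ)} (hQc : Convex ℝ Q) (hQ0 : ((0 : ℝ), (0 : ℝ)) ∈ Q) (g : ℝ → ℝ)
    {ρ a θ ψ : ℝ} (hρ : 0 < ρ) (ha : 0 < a) (hc : 0 < cos (ψ - θ))
    (hle : ∀ w ∈ Q, w.1 * cos θ + w.2 * sin θ ≤ a)
    (hmem : (a / cos (ψ - θ) * cos ψ, a / cos (ψ - θ) * sin ψ) ∈ Q) :
    Rad Q g ρ ψ = ∫ s in (0 : ℝ)..(min (a / cos (ψ - θ)) ρ), g s * s := by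
  have hx0 : 0 < a / cos (ψ - θ) := div_pos ha hc
  unfold Rad
  refine FAX_aux_set (le_min hx0.le hρ.le) ?_ ?_ _
  · rintro s ⟨hs0, hs1⟩
    have h1 : s < a / cos (ψ - θ) := lt_of_lt_of_le hs1 (min_le_left _ _)
    refine ⟨hs0, lt_of_lt_of_le hs1 (min_le_right _ _), ?_⟩
    have h2 : s / (a / cos (ψ - θ)) ≤ 1 := (div_le_one hx0).mpr h1.le
    have h3 := hQc hQ0 hmem (a := 1 - s / (a / cos (ψ - θ))) (b := s / (a / cos (ψ - θ)))
      (by linarith) (by positivity) (by ring)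
    have h4 : s / (a / cos (ψ - θ)) * (a / cos (ψ - θ)) = s := div_mul_cancel₀ _ hx0.ne'
    convert h3 using 1
    ext
    · simp only [Prod.smul_mk, Prod.mk_add_mk, smul_eq_mul]
      rw [mul_zero, zero_add, ← mul_assoc, h4]
    · simp only [Prod.smul_mk, Prod.mk_add_mk, smul_eq_mul]
      rw [mul_zero, zero_add, ← mul_assoc, h4]
  · rintro s ⟨hs0, hs1, hs2⟩
    refine ⟨hs0, le_min ?_ hs1.le⟩
    have h1 := hle _ hs2
    simp only [FAC_aux_cos] at h1
    rwa [le_div_iff₀ hc]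

/-- The points of a side. -/
theorem side_mem {Q : Set (ℝ × ℝ)} (hQc : Convex ℝ Q) {a θ x y s : ℝ} (hx : -(π / 2) < x)
    (hxs : x ≤ s) (hsy : s ≤ y) (hy : y < π / 2)
    (h1 : (a / cos x * cos (θ + x), a / cos x * sin (θ + x)) ∈ Q)
    (h2 : (a / cos y * cos (θ + y), a / cos y * sin (θ + y)) ∈ Q) :
    (a / cos s * cos (θ + s), a / cos s * sin (θ + s)) ∈ Q := by
  have hf : ∀ z, -(π / 2) < z → z < π / 2 →
      (a / cos z * cos (θ + z), a / cos z * sin (θ + z)) =
        (a * cos θ - a * sin θ * tan z, a * sin θ + a * cos θ * tan z) := by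
    intro z hz1 hz2
    have hc : cos z ≠ 0 := (Real.cos_pos_of_mem_Ioo ⟨hz1, hz2⟩).ne'
    rw [Real.tan_eq_sin_div_cos, Real.cos_add, Real.sin_add]
    ext
    · field_simp
    · field_simp
  rw [hf x hx (by linarith)] at h1
  rw [hf y (by linarith) hy] at h2
  rw [hf s (by linarith) (by linarith)]
  have t1 : tan x ≤ tan s := by
    rcases hxs.eq_or_lt with e | e
    · rw [e]
    · exact (Real.tan_lt_tan_of_lt_of_lt_pi_div_two hx (by linarith) e).le
  have t2 : tan s ≤ tan y := by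
    rcases hsy.eq_or_lt with e | e
    · rw [e]
    · exact (Real.tan_lt_tan_of_lt_of_lt_pi_div_two (by linarith) hy e).le
  rcases (t1.trans t2).eq_or_lt with e | e
  · have : tan s = tan x := le_antisymm (by rw [e]; exact t2) t1
    rw [this]
    exact h1
  · have h3 := hQc h1 h2 (a := (tan y - tan s) / (tan y - tan x))
      (b := (tan s - tan x) / (tan y - tan x))
      (div_nonneg (by linarith) (by linarith)) (div_nonneg (by linarith) (by linarith))
      (by
        have : tan y - tan x ≠ 0 := by linarith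
        field_simp
        ring)
    convert h3 using 1
    have hd : tan y - tan x ≠ 0 := by linarith
    ext
    · simp only [Prod.smul_mk, Prod.mk_add_mk, smul_eq_mul]
      field_simp
      ring
    · simp only [Prod.smul_mk, Prod.mk_add_mk, smul_eq_mul]
      field_simp
      ring

/-- The integral over the arc of a side. -/
theorem arc_int {Q : Set (ℝ × ℝ)} (hQc : Convex ℝ Q) (hQ0 : ((0 : ℝ), (0 : ℝ)) ∈ Q) {g : ℝ → ℝ}
    (hg : Continuous g) {ρ a θ x y : ℝ} (hρ : 0 < ρ) (ha : 0 < a)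
    (hle : ∀ w ∈ Q, w.1 * cos θ + w.2 * sin θ ≤ a) (hx : x < π / 2)
    (hxy : -x ≤ y) (hy : y < π / 2)
    (h1 : (a / cos x * cos (θ - x), a / cos x * sin (θ - x)) ∈ Q)
    (h2 : (a / cos y * cos (θ + y), a / cos y * sin (θ + y)) ∈ Q) :
    ∫ ψ in (θ - x)..(θ + y), Rad Q g ρ ψ = Fl g ρ a y + Fl g ρ a x := by
  set I : ℝ → ℝ := fun ψ => ∫ s in (0 : ℝ)..(min (a / cos ψ) ρ), g s * s with hI
  have hcont : ContinuousOn I (Ioo (-(π / 2)) (π / 2)) := by
    have hgc : Continuous fun r : ℝ => ∫ s in (0 : ℝ)..r, g s * s :=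
      intervalIntegral.continuous_primitive
        (fun a b => (hg.mul continuous_id).intervalIntegrable a b) 0
    have h3 : ContinuousOn (fun ψ : ℝ => min (a / cos ψ) ρ) (Ioo (-(π / 2)) (π / 2)) := by
      refine continuous_min.comp_continuousOn (ContinuousOn.prodMk ?_ continuousOn_const)
      exact continuousOn_const.div Real.continuous_cos.continuousOn
        (fun z hz => (Real.cos_pos_of_mem_Ioo hz).ne')
    exact hgc.comp_continuousOn h3
  have hint : ∀ u v, -(π / 2) < u → u < π / 2 → -(π / 2) < v → v < π / 2 →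
      IntervalIntegrable I volume u v := by
    intro u v hu hu' hv hv'
    refine (hcont.mono ?_).intervalIntegrable
    intro z hz
    rw [Set.mem_uIcc] at hz
    rcases hz with hz | hz
    · exact ⟨by linarith [hz.1], by linarith [hz.2]⟩
    · exact ⟨by linarith [hz.1], by linarith [hz.2]⟩
  have e1 : ∫ ψ in (θ - x)..(θ + y), Rad Q g ρ ψ = ∫ s in (-x)..y, I s := by
    have e2 : ∫ s in (-x)..y, Rad Q g ρ (θ + s) = ∫ ψ in (θ - x)..(θ + y), Rad Q g ρ ψ := by
      rw [intervalIntegral.integral_comp_add_left (f := Rad Q g ρ) θ]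
      rfl
    rw [← e2]
    refine intervalIntegral.integral_congr fun s hs => ?_
    rw [Set.uIcc_of_le hxy] at hs
    have hc : 0 < cos s := Real.cos_pos_of_mem_Ioo ⟨by linarith [hs.1], by linarith [hs.2]⟩
    have h3 : θ + s - θ = s := by ring
    have h4 := Rad_ray (ψ := θ + s) hQc hQ0 g hρ ha (by rw [h3]; exact hc) hle (by
      rw [h3]
      refine side_mem (x := -x) (y := y) hQc (by linarith) hs.1 hs.2 hy ?_ h2
      rw [Real.cos_neg, ← sub_eq_add_neg]
      exact h1)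
    rw [h3] at h4
    exact h4
  have hev : ∀ ψ, I (-ψ) = I ψ := by
    intro ψ
    simp only [hI, Real.cos_neg]
  have e3 : ∫ s in (-x)..0, I s = ∫ s in (0 : ℝ)..x, I s := by
    have := intervalIntegral.integral_comp_neg (a := 0) (b := x) (f := I)
    rw [neg_zero] at this
    rw [← this]
    exact intervalIntegral.integral_congr fun s _ => hev s
  rw [e1, ← intervalIntegral.integral_add_adjacent_intervals
    (hint (-x) 0 (by linarith) (by linarith) (by linarith [Real.pi_pos])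
      (by linarith [Real.pi_pos]))
    (hint 0 y (by linarith [Real.pi_pos]) (by linarith [Real.pi_pos]) (by linarith) hy), e3,
    add_comm]
  rfl

/-- The facet in the plane: the integral is the sum over the corners. -/
theorem flag_plane {ι : Type} {J : Finset ι} {ν : ι → ι} {θ a γ p p' : ι → ℝ}
    {Q : Set (ℝ × ℝ)} {g : ℝ → ℝ} {ρ : ℝ} (hg : Continuous g) (hρ : 0 < ρ)
    (hQm : MeasurableSet Q) (hQc : Convex ℝ Q) (hQ0 : ((0 : ℝ), (0 : ℝ)) ∈ Q)
    (ha : ∀ j ∈ J, 0 < a j) (hν : ∀ j ∈ J, ν j ∈ J)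
    (hνi : ∀ j ∈ J, ∀ k ∈ J, ν j = ν k → j = k)
    (hw : ∃ j0 ∈ J, γ j0 = θ (ν j0) - θ j0 + 2 * π ∧ ∀ j ∈ J, j ≠ j0 → γ j = θ (ν j) - θ j)
    (hγ : ∀ j ∈ J, 0 < γ j ∧ γ j < π)
    (hp : ∀ j ∈ J, -(π / 2) < p j ∧ p j < π / 2) (hp' : ∀ j ∈ J, -(π / 2) < p' j ∧ p' j < π / 2)
    (hpp : ∀ j ∈ J, p j + p' j = γ j)
    (hle : ∀ j ∈ J, ∀ w ∈ Q, w.1 * cos (θ j) + w.2 * sin (θ j) ≤ a j)
    (hmem : ∀ j ∈ J, (a j / cos (p j) * cos (θ j + p j), a j / cos (p j) * sin (θ j + p j)) ∈ Q)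
    (heq : ∀ j ∈ J, a j / cos (p j) = a (ν j) / cos (p' j)) :
    ∫ w in {w | w ∈ Q ∧ nr w < ρ}, g (nr w) =
      ∑ j ∈ J, (Fl g ρ (a j) (p j) + Fl g ρ (a (ν j)) (p' j)) := by
  classical
  have himg : J.image ν = J := by
    apply Finset.eq_of_subset_of_card_le
    · intro k hk
      rw [Finset.mem_image] at hk
      obtain ⟨j, hj, rfl⟩ := hk
      exact hν j hj
    · rw [Finset.card_image_of_injOn]
      intro j hj k hk
      exact hνi j hj k hk
  have hreix : ∀ f : ι → ℝ, ∑ j ∈ J, f (ν j) = ∑ j ∈ J, f j := by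
    intro f
    conv_rhs => rw [← himg]
    rw [Finset.sum_image]
    intro j hj k hk
    exact hνi j hj k hk
  set F : ℝ → ℝ := Rad Q g ρ with hF
  have hper : Function.Periodic F (2 * π) := Rad_periodic Q g ρ
  obtain ⟨hK, hKint⟩ := p_FC3 Q ρ g hQm hρ hg
  have hII : ∀ u v, IntervalIntegrable F volume u v := by
    have h1 : IntervalIntegrable F volume (-π) (-π + 2 * π) := by
      rw [intervalIntegrable_iff_integrableOn_Ioo_of_le (by linarith [Real.pi_pos])]
      rw [show -π + 2 * π = π by ring]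
      exact hK
    exact fun u v => hper.intervalIntegrable (by positivity) h1 u v
  set C : ℝ := ∫ ψ in (-π)..π, F ψ with hC
  have hLHS : ∫ w in {w | w ∈ Q ∧ nr w < ρ}, g (nr w) = C := by
    rw [hKint, hC, intervalIntegral.integral_of_le (by linarith [Real.pi_pos]),
      integral_Ioc_eq_integral_Ioo]
    rfl
  have hCp : ∀ x, ∫ ψ in x..(x + 2 * π), F ψ = C := by
    intro x
    rw [hper.intervalIntegral_add_eq x (-π), hC]
    congr 1
    ring
  -- shifts by a multiple of the period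
  have hsh : ∀ j ∈ J, ∃ m : ℤ, θ (ν j) = θ j + γ j - m * (2 * π) := by
    intro j hj
    obtain ⟨j0, -, h0, hw⟩ := hw
    by_cases hjj : j = j0
    · refine ⟨1, ?_⟩
      rw [hjj, h0]
      push_cast
      ring
    · refine ⟨0, ?_⟩
      rw [hw j hj hjj]
      push_cast
      ring
  have hshift : ∀ (m : ℤ) (u v : ℝ), ∫ ψ in (u - m * (2 * π))..(v - m * (2 * π)), F ψ =
      ∫ ψ in u..v, F ψ := by
    intro m u v
    have h1 := intervalIntegral.integral_comp_sub_right (a := u) (b := v) (f := F)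
      ((m : ℝ) * (2 * π))
    rw [← h1]
    refine intervalIntegral.integral_congr fun x _ => ?_
    exact hper.sub_int_mul_eq m
  -- the arcs
  have harc : ∀ j ∈ J, ∫ ψ in (θ (ν j) - p' j)..(θ (ν j) + p (ν j)), F ψ =
      Fl g ρ (a (ν j)) (p (ν j)) + Fl g ρ (a (ν j)) (p' j) := by
    intro j hj
    have hk := hν j hj
    have hl := hν (ν j) hk
    obtain ⟨m, hm⟩ := hsh j hj
    obtain ⟨m', hm'⟩ := hsh (ν j) hk
    have hcp' : 0 < cos (p' j) := Real.cos_pos_of_mem_Ioo ⟨(hp' j hj).1, (hp' j hj).2⟩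
    have hcp : 0 < cos (p (ν j)) := Real.cos_pos_of_mem_Ioo ⟨(hp _ hk).1, (hp _ hk).2⟩
    have hcp2 : 0 < cos (p' (ν j)) := Real.cos_pos_of_mem_Ioo ⟨(hp' _ hk).1, (hp' _ hk).2⟩
    -- the previous vertex
    have e1 : cos (θ j + p j) = cos (θ (ν j) - p' j) := by
      rw [hm, show θ j + γ j - m * (2 * π) - p' j = (θ j + p j) - m * (2 * π) by
        rw [← hpp j hj]; ring]
      exact (Real.cos_sub_int_mul_two_pi _ m).symm
    have e2 : sin (θ j + p j) = sin (θ (ν j) - p' j) := by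
      rw [hm, show θ j + γ j - m * (2 * π) - p' j = (θ j + p j) - m * (2 * π) by
        rw [← hpp j hj]; ring]
      exact (Real.sin_sub_int_mul_two_pi _ m).symm
    have hv1 := hmem j hj
    rw [e1, e2, heq j hj] at hv1
    -- the length of the side
    have hlen : -(p' j) ≤ p (ν j) := by
      have h1 := hle _ hl _ hv1
      simp only [FAC_aux_cos] at h1
      have h2 : cos (θ (ν j) - p' j - θ (ν (ν j))) = cos (γ (ν j) + p' j) := by
        rw [hm', show θ (ν j) - p' j - (θ (ν j) + γ (ν j) - m' * (2 * π)) =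
          -(γ (ν j) + p' j) + m' * (2 * π) by ring, Real.cos_add_int_mul_two_pi, Real.cos_neg]
      rw [h2] at h1
      have h3 : a (ν (ν j)) = a (ν j) / cos (p (ν j)) * cos (γ (ν j) - p (ν j)) := by
        rw [heq _ hk, show γ (ν j) - p (ν j) = p' (ν j) by rw [← hpp _ hk]; ring,
          div_mul_cancel₀ _ hcp2.ne']
      rw [h3, Real.cos_add, Real.cos_sub] at h1
      have hak := ha _ hk
      have h4 : a (ν j) * (cos (γ (ν j)) - sin (γ (ν j)) * tan (p' j)) ≤
          a (ν j) * (cos (γ (ν j)) + sin (γ (ν j)) * tan (p (ν j))) := by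
        rw [Real.tan_eq_sin_div_cos, Real.tan_eq_sin_div_cos]
        have hc1 := hcp.ne'
        have hc2 := hcp'.ne'
        calc a (ν j) * (cos (γ (ν j)) - sin (γ (ν j)) * (sin (p' j) / cos (p' j)))
            = a (ν j) / cos (p' j) * (cos (γ (ν j)) * cos (p' j) -
              sin (γ (ν j)) * sin (p' j)) := by field_simp
          _ ≤ a (ν j) / cos (p (ν j)) * (cos (γ (ν j)) * cos (p (ν j)) +
              sin (γ (ν j)) * sin (p (ν j))) := h1
          _ = a (ν j) * (cos (γ (ν j)) + sin (γ (ν j)) * (sin (p (ν j)) / cos (p (ν j)))) := by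
              field_simp
      have h5 := le_of_mul_le_mul_left h4 hak
      have hs : 0 < sin (γ (ν j)) := Real.sin_pos_of_pos_of_lt_pi (hγ _ hk).1 (hγ _ hk).2
      have h6 : -tan (p' j) ≤ tan (p (ν j)) := by
        by_contra hcon
        push Not at hcon
        nlinarith
      by_contra hcon
      push Not at hcon
      have h7 := Real.tan_lt_tan_of_lt_of_lt_pi_div_two (hp _ hk).1
        (by linarith [(hp' j hj).1]) hcon
      rw [Real.tan_neg] at h7
      linarith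
    exact arc_int hQc hQ0 hg hρ (ha _ hk) (hle _ hk) (hp' j hj).2 hlen (hp _ hk).2 hv1
      (hmem _ hk)
  -- the primitive
  set Φ : ℝ → ℝ := fun x => ∫ ψ in (0 : ℝ)..x, F ψ with hΦ
  have hdiff : ∀ u v, ∫ ψ in u..v, F ψ = Φ v - Φ u := by
    intro u v
    have := intervalIntegral.integral_add_adjacent_intervals (hII 0 u) (hII u v)
    simp only [hΦ]
    linarith
  have htot : ∑ j ∈ J, ∫ ψ in (θ j)..(θ j + γ j), F ψ = C := by
    obtain ⟨j0, hj0, h0, hw⟩ := hw
    have h1 : ∀ j ∈ J, ∫ ψ in (θ j)..(θ j + γ j), F ψ =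
        Φ (θ (ν j)) - Φ (θ j) + if j = j0 then C else 0 := by
      intro j hj
      rw [hdiff]
      split_ifs with hjj
      · rw [hjj, h0, show θ j0 + (θ (ν j0) - θ j0 + 2 * π) = θ (ν j0) + 2 * π by ring]
        have := hCp (θ (ν j0))
        rw [hdiff] at this
        linarith
      · rw [hw j hj hjj, show θ j + (θ (ν j) - θ j) = θ (ν j) by ring, add_zero]
    rw [Finset.sum_congr rfl h1, Finset.sum_add_distrib, Finset.sum_sub_distrib,
      hreix (fun j => Φ (θ j)), Finset.sum_ite_eq' J j0, if_pos hj0]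
    ring
  have hsplit : ∑ j ∈ J, ∫ ψ in (θ (ν j) - p' j)..(θ (ν j) + p (ν j)), F ψ = C := by
    have h1 : ∀ j ∈ J, ∫ ψ in (θ (ν j) - p' j)..(θ (ν j) + p (ν j)), F ψ =
        (∫ ψ in (θ j + p j)..(θ j + γ j), F ψ) +
          ∫ ψ in (θ (ν j))..(θ (ν j) + p (ν j)), F ψ := by
      intro j hj
      obtain ⟨m, hm⟩ := hsh j hj
      rw [← intervalIntegral.integral_add_adjacent_intervals (hII (θ (ν j) - p' j) (θ (ν j)))
        (hII (θ (ν j)) (θ (ν j) + p (ν j)))]
      congr 1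
      have h2 := hshift m (θ j + p j) (θ j + γ j)
      rw [← h2, ← hm]
      congr 1
      rw [hm, ← hpp j hj]
      ring
    rw [Finset.sum_congr rfl h1, Finset.sum_add_distrib,
      hreix (fun j => ∫ ψ in (θ j)..(θ j + p j), F ψ), ← Finset.sum_add_distrib, ← htot]
    refine Finset.sum_congr rfl fun j _ => ?_
    rw [add_comm]
    exact intervalIntegral.integral_add_adjacent_intervals (hII _ _) (hII _ _)
  rw [hLHS, ← hsplit, Finset.sum_congr rfl harc, Finset.sum_add_distrib,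
    hreix (fun j => Fl g ρ (a j) (p j)), ← Finset.sum_add_distrib]

/-! ## The angles of the two flags of a corner -/

/-- The signed angle from the foot of the side at distance `d` to the corner with the side at
distance `d'`; `A` is the angle between the normals of the two sides. -/
noncomputable def pp (d d' A : ℝ) : ℝ := arctan ((d' - d * cos A) / (d * sin A))

theorem pp_bd (d d' A : ℝ) : -(π / 2) < pp d d' A ∧ pp d d' A < π / 2 :=
  ⟨Real.neg_pi_div_two_lt_arctan _, Real.arctan_lt_pi_div_two _⟩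

theorem pp_cos_pos (d d' A : ℝ) : 0 < cos (pp d d' A) :=
  Real.cos_pos_of_mem_Ioo ⟨(pp_bd d d' A).1, (pp_bd d d' A).2⟩

/-- The corner: `r` is its distance from the foot. -/
theorem pp_spec {d d' A : ℝ} (hd : 0 < d) (hd' : 0 < d') (hA : 0 < A) (hA' : A < π) :
    pp d d' A + pp d' d A = A ∧ d / cos (pp d d' A) = d' / cos (pp d' d A) ∧
      d / cos (pp d d' A) * sin (pp d d' A) = (d' - d * cos A) / sin A := by
  have hs : 0 < sin A := Real.sin_pos_of_pos_of_lt_pi hA hA'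
  set p := pp d d' A with hp
  have hc : 0 < cos p := pp_cos_pos d d' A
  have hpb := pp_bd d d' A
  rw [← hp] at hpb
  have ht : tan p = (d' - d * cos A) / (d * sin A) := by rw [hp, pp, Real.tan_arctan]
  have h1 : d' = d / cos p * cos (A - p) := by
    rw [Real.cos_sub]
    rw [Real.tan_eq_sin_div_cos] at ht
    have h2 : sin p * (d * sin A) = (d' - d * cos A) * cos p := by
      field_simp at ht
      linarith
    field_simp
    linarith
  have hr : 0 < d / cos p := div_pos hd hc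
  have hcA : 0 < cos (A - p) := by
    by_contra hcon
    push Not at hcon
    have := mul_nonpos_of_nonneg_of_nonpos hr.le hcon
    linarith
  have hlt : A - p < π / 2 := by
    by_contra hcon
    push Not at hcon
    have := Real.cos_nonpos_of_pi_div_two_le_of_le hcon (by linarith [hpb.1])
    linarith
  have hgt : -(π / 2) < A - p := by linarith [hpb.2]
  have h3 : pp d' d A = A - p := by
    have h4 : (d - d' * cos A) / (d' * sin A) = tan (A - p) := by
      rw [Real.tan_eq_sin_div_cos]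
      have h5 : d = d / cos p * cos (A - (A - p)) := by
        rw [show A - (A - p) = p by ring]
        field_simp
      rw [Real.cos_sub] at h5
      have h6 : d - d' * cos A = d / cos p * (sin A * sin (A - p)) := by
        rw [h1]
        nth_rewrite 1 [h5]
        ring
      rw [h6]
      nth_rewrite 1 [h1]
      field_simp
    rw [pp, h4, Real.arctan_tan hgt hlt]
  refine ⟨by rw [h3]; ring, ?_, ?_⟩
  · rw [h3, eq_div_iff hcA.ne']
    exact h1.symm
  · rw [Real.tan_eq_sin_div_cos] at ht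
    rw [div_mul_eq_mul_div, mul_div_assoc, ht]
    field_simp

/-! ## The facet in space -/

section poly

variable {ι : Type} {n : ι → E3} {h : ι → ℝ}

theorem Qs_convex (n : ι → E3) (h : ι → ℝ) (i : ι) (e f : E3) : Convex ℝ (Qs n h i e f) := by
  intro x hx y hy a b ha hb hab j
  have h1 := hx j
  have h2 := hy j
  simp only [Prod.fst_add, Prod.snd_add, Prod.smul_fst, Prod.smul_snd, smul_eq_mul]
  have h3 := mul_le_mul_of_nonneg_left h1 ha
  have h4 := mul_le_mul_of_nonneg_left h2 hb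
  have h5 : a * h j + b * h j = h j := by rw [← add_mul, hab, one_mul]
  have h6 : h i * (⟪n j, n i⟫ + (a * x.1 + b * y.1) * ⟪n j, e⟫ +
      (a * x.2 + b * y.2) * ⟪n j, f⟫) =
      a * (h i * (⟪n j, n i⟫ + x.1 * ⟪n j, e⟫ + x.2 * ⟪n j, f⟫)) +
      b * (h i * (⟪n j, n i⟫ + y.1 * ⟪n j, e⟫ + y.2 * ⟪n j, f⟫)) := by
    have : b = 1 - a := by linarith
    rw [this]
    ring
  rw [h6]
  linarith

theorem Qs_meas [Finite ι] (n : ι → E3) (h : ι → ℝ) (i : ι) (e f : E3) :
    MeasurableSet (Qs n h i e f) := by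
  have h1 : Qs n h i e f = ⋂ j, {w : ℝ × ℝ |
      h i * (⟪n j, n i⟫ + w.1 * ⟪n j, e⟫ + w.2 * ⟪n j, f⟫) ≤ h j} := by
    ext w
    simp [Qs]
  rw [h1]
  exact MeasurableSet.iInter fun j => measurableSet_le (by fun_prop) measurable_const

theorem Good.ad_pos (G : Good n h) {i j : ι} (H : Adj n h i j)
    (hft : h i * ⟪n i, n j⟫ < h j) : 0 < ad n h i j := by
  have h1 := G.one_sub_pos H
  have h2 := G.hh i
  refine div_pos ?_ (Real.sqrt_pos.mpr h1)
  rw [sub_pos, lt_div_iff₀ h2, mul_comm]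
  exact hft

/-- The neighbours of a facet and its corners in the plane of the facet. -/
theorem Good.corner [Fintype ι] (G : Good n h) (i : ι) {e f : E3} (ho : Onb (n i) e f)
    (hd : det3 (n i) e f = 1) (hft : ∀ j, j ≠ i → h i * ⟪n i, n j⟫ < h j) :
    ∃ θ : ι → ℝ,
      (∃ j0 ∈ nb n h i, Ang n i j0 (nx n h i j0) = θ (nx n h i j0) - θ j0 + 2 * π ∧
        ∀ j ∈ nb n h i, j ≠ j0 → Ang n i j (nx n h i j) = θ (nx n h i j) - θ j) ∧
      (∀ j ∈ nb n h i, ⟪e, n j⟫ = √(1 - ⟪n i, n j⟫ ^ 2) * cos (θ j) ∧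
        ⟪f, n j⟫ = √(1 - ⟪n i, n j⟫ ^ 2) * sin (θ j)) ∧
      (∀ j ∈ nb n h i, ∀ w ∈ Qs n h i e f,
        w.1 * cos (θ j) + w.2 * sin (θ j) ≤ ad n h i j) ∧
      ∀ j ∈ nb n h i, ∀ v, ⟪n i, v⟫ = h i → ⟪n j, v⟫ = h j →
        ⟪n (nx n h i j), v⟫ = h (nx n h i j) →
        (⟪e, v⟫ / h i, ⟪f, v⟫ / h i) =
          (ad n h i j / cos (pp (ad n h i j) (ad n h i (nx n h i j)) (Ang n i j (nx n h i j))) *
            cos (θ j + pp (ad n h i j) (ad n h i (nx n h i j)) (Ang n i j (nx n h i j))),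
          ad n h i j / cos (pp (ad n h i j) (ad n h i (nx n h i j)) (Ang n i j (nx n h i j))) *
            sin (θ j + pp (ad n h i j) (ad n h i (nx n h i j)) (Ang n i j (nx n h i j)))) := by
  obtain ⟨θ, h1, h2, h3, h4, h5, h6⟩ := G.circle i ho hd 0
  obtain ⟨j1, hj1⟩ := G.exists_adj i
  have hν : ∀ j ∈ nb n h i, nx n h i j ∈ nb n h i := by
    intro j hj
    rw [mem_nb] at hj ⊢
    exact G.nx_mem hj
  have hwrap := circle_wrap ⟨j1, mem_nb.mpr hj1⟩ h1 h3 hν h4 h5 h6
  have hhi := G.hh i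
  have ha : ∀ j ∈ nb n h i, 0 < ad n h i j := fun j hj =>
    G.ad_pos (mem_nb.mp hj) (hft j (mem_nb.mp hj).1.symm)
  -- the constraint of a side
  have hkey : ∀ j ∈ nb n h i, ∀ w : ℝ × ℝ,
      h j - h i * (⟪n j, n i⟫ + w.1 * ⟪n j, e⟫ + w.2 * ⟪n j, f⟫) =
        (h i * √(1 - ⟪n i, n j⟫ ^ 2)) *
          (ad n h i j - (w.1 * cos (θ j) + w.2 * sin (θ j))) := by
    intro j hj w
    have hs : 0 < √(1 - ⟪n i, n j⟫ ^ 2) := Real.sqrt_pos.mpr (G.one_sub_pos (mem_nb.mp hj))
    have h7 := (h2 j hj).1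
    have h8 := (h2 j hj).2
    have c1 : ⟪n j, n i⟫ = ⟪n i, n j⟫ := real_inner_comm _ _
    have c2 : ⟪n j, e⟫ = ⟪e, n j⟫ := real_inner_comm _ _
    have c3 : ⟪n j, f⟫ = ⟪f, n j⟫ := real_inner_comm _ _
    rw [c1, c2, c3, h7, h8, ad]
    field_simp
    ring
  have hpos : ∀ j ∈ nb n h i, 0 < h i * √(1 - ⟪n i, n j⟫ ^ 2) := fun j hj =>
    mul_pos hhi (Real.sqrt_pos.mpr (G.one_sub_pos (mem_nb.mp hj)))
  have hle : ∀ j ∈ nb n h i, ∀ w ∈ Qs n h i e f,
      w.1 * cos (θ j) + w.2 * sin (θ j) ≤ ad n h i j := by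
    intro j hj w hw
    have h7 := hw j
    rw [← sub_nonneg, hkey j hj w] at h7
    have := nonneg_of_mul_nonneg_right h7 (hpos j hj)
    linarith
  have hsub : ∀ j ∈ nb n h i, ∃ m : ℤ, θ (nx n h i j) - θ j =
      Ang n i j (nx n h i j) + m * (2 * π) := by
    intro j hj
    rcases h5 j hj with h7 | h7
    · refine ⟨0, ?_⟩
      rw [h7]
      push_cast
      ring
    · refine ⟨-1, ?_⟩
      rw [h7]
      push_cast
      ring
  refine ⟨θ, hwrap, h2, hle, ?_⟩
  intro j hj v v1 v2 v3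
  set k := nx n h i j with hk
  set A := Ang n i j k with hA
  obtain ⟨-, -, hsp⟩ := pp_spec (ha j hj) (ha k (hν j hj)) (h4 j hj).1 (h4 j hj).2
  rw [← hA] at hsp
  set P := pp (ad n h i j) (ad n h i k) A with hP
  have hcP : 0 < cos P := pp_cos_pos _ _ _
  have hsA : 0 < sin A := Real.sin_pos_of_pos_of_lt_pi (h4 j hj).1 (h4 j hj).2
  set w : ℝ × ℝ := (⟪e, v⟫ / h i, ⟪f, v⟫ / h i) with hw
  have hval : ∀ l, h i * (⟪n l, n i⟫ + w.1 * ⟪n l, e⟫ + w.2 * ⟪n l, f⟫) = ⟪n l, v⟫ := by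
    intro l
    rw [frame_inner ho (n l) v, v1]
    simp only [hw]
    have c1 : ⟪n l, n i⟫ = ⟪n i, n l⟫ := real_inner_comm _ _
    have c2 : ⟪n l, e⟫ = ⟪e, n l⟫ := real_inner_comm _ _
    have c3 : ⟪n l, f⟫ = ⟪f, n l⟫ := real_inner_comm _ _
    rw [c1, c2, c3]
    field_simp
  have hwj : w.1 * cos (θ j) + w.2 * sin (θ j) = ad n h i j := by
    have h7 := hkey j hj w
    rw [hval j, v2, sub_self, eq_comm, mul_eq_zero] at h7
    rcases h7 with h7 | h7
    · exact absurd h7 (hpos j hj).ne'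
    · linarith
  have hwk : w.1 * cos (θ k) + w.2 * sin (θ k) = ad n h i k := by
    have h7 := hkey k (hν j hj) w
    rw [hval k, v3, sub_self, eq_comm, mul_eq_zero] at h7
    rcases h7 with h7 | h7
    · exact absurd h7 (hpos k (hν j hj)).ne'
    · linarith
  obtain ⟨m, hm⟩ := hsub j hj
  have hck : cos (θ k) = cos (θ j + A) := by
    rw [show θ k = θ j + A + m * (2 * π) by linarith, Real.cos_add_int_mul_two_pi]
  have hsk : sin (θ k) = sin (θ j + A) := by
    rw [show θ k = θ j + A + m * (2 * π) by linarith, Real.sin_add_int_mul_two_pi]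
  rw [hck, hsk, Real.cos_add, Real.sin_add] at hwk
  have hβ : -w.1 * sin (θ j) + w.2 * cos (θ j) = (ad n h i k - ad n h i j * cos A) / sin A := by
    rw [eq_div_iff hsA.ne']
    linear_combination hwk - cos A * hwj
  rw [← hsp] at hβ
  have hα : w.1 * cos (θ j) + w.2 * sin (θ j) = ad n h i j / cos P * cos P := by
    rw [hwj, div_mul_cancel₀ _ hcP.ne']
  have hone := Real.sin_sq_add_cos_sq (θ j)
  ext
  · simp only [Real.cos_add]
    linear_combination (cos (θ j)) * hα - sin (θ j) * hβ - w.1 * hone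
  · simp only [Real.sin_add]
    linear_combination (sin (θ j)) * hα + cos (θ j) * hβ - w.2 * hone

/-- The points of the facet. -/
theorem mem_Qs_of (G : Good n h) {i : ι} {e f v : E3} (ho : Onb (n i) e f) (hv : v ∈ Poly n h)
    (v1 : ⟪n i, v⟫ = h i) : (⟪e, v⟫ / h i, ⟪f, v⟫ / h i) ∈ Qs n h i e f := by
  intro l
  have hhi := G.hh i
  have hval : h i * (⟪n l, n i⟫ + ⟪e, v⟫ / h i * ⟪n l, e⟫ + ⟪f, v⟫ / h i * ⟪n l, f⟫) =
      ⟪n l, v⟫ := by
    rw [frame_inner ho (n l) v, v1]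
    have c1 : ⟪n l, n i⟫ = ⟪n i, n l⟫ := real_inner_comm _ _
    have c2 : ⟪n l, e⟫ = ⟪e, n l⟫ := real_inner_comm _ _
    have c3 : ⟪n l, f⟫ = ⟪f, n l⟫ := real_inner_comm _ _
    rw [c1, c2, c3]
    field_simp
  show h i * (⟪n l, n i⟫ + ⟪e, v⟫ / h i * ⟪n l, e⟫ + ⟪f, v⟫ / h i * ⟪n l, f⟫) ≤ h l
  rw [hval]
  exact hv l

/-- The distance of a corner from the origin. -/
theorem Good.vertex_norm [Fintype ι] (G : Good n h) {i j : ι} (hj : j ∈ nb n h i)
    (hft : ∀ j, j ≠ i → h i * ⟪n i, n j⟫ < h j) {v : E3} (v1 : ⟪n i, v⟫ = h i)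
    (v2 : ⟪n j, v⟫ = h j) (v3 : ⟪n (nx n h i j), v⟫ = h (nx n h i j)) :
    ‖v‖ = h i * cc (ad n h i j /
      cos (pp (ad n h i j) (ad n h i (nx n h i j)) (Ang n i j (nx n h i j)))) := by
  obtain ⟨e, f, ho, hd⟩ := exists_frame (n i) (G.nn i)
  obtain ⟨θ, -, -, -, h4⟩ := G.corner i ho hd hft
  have h5 := h4 j hj v v1 v2 v3
  set P := pp (ad n h i j) (ad n h i (nx n h i j)) (Ang n i j (nx n h i j)) with hP
  set r := ad n h i j / cos P with hr
  have hhi := G.hh i
  have h6 := congrArg Prod.fst h5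
  have h7 := congrArg Prod.snd h5
  simp only at h6 h7
  rw [div_eq_iff hhi.ne'] at h6 h7
  have h8 := frame_inner ho v v
  rw [real_inner_self_eq_norm_sq, v1, h6, h7] at h8
  have hcc : cc r ^ 2 = 1 + r ^ 2 := Real.sq_sqrt (by positivity)
  have hcp : 0 ≤ cc r := Real.sqrt_nonneg _
  have h9 : ‖v‖ ^ 2 = (h i * cc r) ^ 2 := by
    rw [h8, mul_pow, hcc]
    linear_combination (h i ^ 2 * r ^ 2) * Real.sin_sq_add_cos_sq (θ j + P)
  exact (sq_eq_sq₀ (norm_nonneg v) (by positivity)).mp h9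

/-- The integral over a facet is the sum over its corners. -/
theorem Good.facet_flag [Fintype ι] (G : Good n h) (i : ι) {e f : E3} (ho : Onb (n i) e f)
    (hd : det3 (n i) e f = 1) (hft : ∀ j, j ≠ i → h i * ⟪n i, n j⟫ < h j) {g : ℝ → ℝ}
    (hg : Continuous g) {ρ : ℝ} (hρ : 0 < ρ) :
    ∫ w in {w | w ∈ Qs n h i e f ∧ nr w < ρ}, g (nr w) =
      ∑ j ∈ nb n h i,
        (Fl g ρ (ad n h i j) (pp (ad n h i j) (ad n h i (nx n h i j)) (Ang n i j (nx n h i j))) +
        Fl g ρ (ad n h i (nx n h i j))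
          (pp (ad n h i (nx n h i j)) (ad n h i j) (Ang n i j (nx n h i j)))) := by
  obtain ⟨θ, hwrap, h2, hle, hvx⟩ := G.corner i ho hd hft
  have h4 := (G.sum_Ang i).1
  have hν : ∀ j ∈ nb n h i, nx n h i j ∈ nb n h i := by
    intro j hj
    rw [mem_nb] at hj ⊢
    exact G.nx_mem hj
  have hνi : ∀ j ∈ nb n h i, ∀ k ∈ nb n h i, nx n h i j = nx n h i k → j = k := by
    intro j hj k hk
    rw [mem_nb] at hj hk
    exact G.nx_inj hj hk
  have hii : ⟪n i, n i⟫ = 1 := by
    rw [real_inner_self_eq_norm_sq, G.nn i]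
    norm_num
  have ha : ∀ j ∈ nb n h i, 0 < ad n h i j := fun j hj =>
    G.ad_pos (mem_nb.mp hj) (hft j (mem_nb.mp hj).1.symm)
  refine flag_plane (J := nb n h i) (ν := nx n h i) (θ := θ) (a := ad n h i)
    (γ := fun j => Ang n i j (nx n h i j))
    (p := fun j => pp (ad n h i j) (ad n h i (nx n h i j)) (Ang n i j (nx n h i j)))
    (p' := fun j => pp (ad n h i (nx n h i j)) (ad n h i j) (Ang n i j (nx n h i j)))
    hg hρ (Qs_meas n h i e f) (Qs_convex n h i e f) ?_ ha hν hνi hwrap h4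
    (fun j _ => pp_bd _ _ _) (fun j _ => pp_bd _ _ _)
    (fun j hj => (pp_spec (ha j hj) (ha _ (hν j hj)) (h4 j hj).1 (h4 j hj).2).1) hle ?_
    (fun j hj => (pp_spec (ha j hj) (ha _ (hν j hj)) (h4 j hj).1 (h4 j hj).2).2.1)
  · intro j
    simp only [zero_mul, add_zero]
    by_cases hji : j = i
    · rw [hji, hii, mul_one]
    · have := hft j hji
      rw [real_inner_comm] at this
      exact this.le
  · intro j hj
    obtain ⟨hdet, v, hv, v1, v2, v3⟩ := G.vx (mem_nb.mp hj)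
    have h5 := hvx j hj v v1 v2 v3
    rw [← h5]
    exact mem_Qs_of G ho hv v1

end poly

end Pool.Agent.SDL
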