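import Pool.Agent.SDL.Flag

set_option autoImplicit false

/-!
# Flags, part 2: closed forms, totals
-/

open MeasureTheory Set Real
open scoped RealInnerProductSpace

namespace Pool.Agent.SDL

open Pool.Agent.SDC

theorem ccsq (r : ℝ) : cc r ^ 2 = 1 + r ^ 2 := Real.sq_sqrt (by positivity)

theorem ccpos (r : ℝ) : 0 < cc r := Real.sqrt_pos.mpr (by positivity)

theorem one_le_cc (r : ℝ) : 1 ≤ cc r := by
  rw [cc, Real.one_le_sqrt]
  nlinarith [sq_nonneg r]

/-! ## The closed form of the radial integral -/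

/-- Three times the volume of the cap, divided by `2 π`. -/
noncomputable def capt (t h : ℝ) : ℝ := (max (t - h) 0) ^ 2 * (2 * t + h) / 2

theorem H_closed {t κ β h r : ℝ} (ht : 0 < t) (hh : 0 < h) (hr : 0 ≤ r) (htr : t ≤ h * cc r) :
    H t κ β h r = (1 - κ) * h ^ 3 * r ^ 2 / 2 - (t ^ 3 + β) * (1 - 1 / cc r) + capt t h := by
  rw [tHCL.2 t κ β h r ht hh hr]
  have hc := ccpos r
  have h1 : t / h ≤ cc r := by
    rw [div_le_iff₀ hh, mul_comm]
    exact htr
  rw [p_BF.2.2 (t / h) (cc r) (by positivity) h1]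
  have hcs := ccsq r
  rcases le_or_gt t h with h2 | h2
  · have h3 : t / h ≤ 1 := (div_le_one hh).mpr h2
    rw [p_BF.2.2 (t / h) 1 (by positivity) h3, capt, max_eq_right (by linarith), hcs]
    field_simp
    ring
  · have h3 : Bf (t / h) 1 = 0 := by
      rw [Bf, if_pos ((one_le_div hh).mpr h2.le)]
    rw [h3, capt, max_eq_left (by linarith), hcs]
    field_simp
    ring

/-! ## The angle `q` -/

/-- The angle `q` of a flag: the solid angle of the flag is `p - q`. -/
noncomputable def qq (d p : ℝ) : ℝ := arcsin (sin p / cc d)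

theorem qq_deriv {d ψ : ℝ} (hc : 0 < cos ψ) :
    HasDerivAt (fun x => arcsin (sin x / cc d)) (1 / cc (d / cos ψ)) ψ := by
  have hs := ccpos d
  have hss := ccsq d
  have hone := Real.sin_sq_add_cos_sq ψ
  have hW : 0 < cos ψ ^ 2 + d ^ 2 := by positivity
  have hq : (sin ψ / cc d) ^ 2 < 1 := by
    rw [div_pow, hss, div_lt_one (by positivity)]
    nlinarith
  have h1 : HasDerivAt (fun x => sin x / cc d) (cos ψ / cc d) ψ :=
    (Real.hasDerivAt_sin ψ).div_const _
  have h2 : HasDerivAt arcsin (1 / √(1 - (sin ψ / cc d) ^ 2)) (sin ψ / cc d) := by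
    apply Real.hasDerivAt_arcsin
    · intro h3
      rw [h3] at hq
      norm_num at hq
    · intro h3
      rw [h3] at hq
      norm_num at hq
  have h3 := h2.comp ψ h1
  have h4 : 1 / √(1 - (sin ψ / cc d) ^ 2) * (cos ψ / cc d) = 1 / cc (d / cos ψ) := by
    have h5 : 1 - (sin ψ / cc d) ^ 2 = (cos ψ ^ 2 + d ^ 2) / cc d ^ 2 := by
      rw [div_pow, eq_div_iff (by positivity), sub_mul, div_mul_cancel₀ _ (by positivity), hss]
      linarith
    have h6 : cc (d / cos ψ) = √(cos ψ ^ 2 + d ^ 2) / cos ψ := by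
      rw [cc, show 1 + (d / cos ψ) ^ 2 = (cos ψ ^ 2 + d ^ 2) / cos ψ ^ 2 by field_simp,
        Real.sqrt_div hW.le, Real.sqrt_sq hc.le]
    have h7 : 0 < √(cos ψ ^ 2 + d ^ 2) := Real.sqrt_pos.mpr hW
    rw [h5, h6, Real.sqrt_div hW.le, Real.sqrt_sq hs.le]
    field_simp
  rw [h4] at h3
  exact h3

theorem qq_zero (d : ℝ) : qq d 0 = 0 := by
  rw [qq, Real.sin_zero, zero_div, Real.arcsin_zero]

theorem qq_neg (d p : ℝ) : qq d (-p) = - qq d p := by
  rw [qq, qq, Real.sin_neg, neg_div, Real.arcsin_neg]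

/-- The closed form of the integral over a flag. -/
theorem Fl_closed {t κ β h ρ d p : ℝ} (ht : 0 < t) (hh : 0 < h) (hd : 0 < d)
    (htd : t ≤ h * cc d) (hp : -(π / 2) < p) (hp' : p < π / 2) (hρ : d / cos p ≤ ρ) :
    Fl (G t κ β h) ρ d p = (1 - κ) * h ^ 3 * (d ^ 2 * tan p) / 2 - (t ^ 3 + β) * (p - qq d p) +
      capt t h * p := by
  have hcp : 0 < cos p := Real.cos_pos_of_mem_Ioo ⟨hp, hp'⟩
  have hcs : ∀ ψ ∈ uIcc 0 p, 0 < cos ψ ∧ cos p ≤ cos ψ := by
    intro ψ hψ
    rw [Set.mem_uIcc] at hψ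
    have habs : |ψ| ≤ |p| := by
      rcases hψ with hψ | hψ
      · rw [abs_of_nonneg hψ.1, abs_of_nonneg (by linarith [hψ.1, hψ.2])]
        exact hψ.2
      · rw [abs_of_nonpos hψ.2, abs_of_nonpos (by linarith [hψ.1, hψ.2])]
        linarith [hψ.1]
    have h1 : |p| < π / 2 := abs_lt.mpr ⟨hp, hp'⟩
    have h2 : cos |p| ≤ cos |ψ| :=
      Real.cos_le_cos_of_nonneg_of_le_pi (abs_nonneg ψ) (by linarith [Real.pi_pos]) habs
    rw [Real.cos_abs, Real.cos_abs] at h2
    exact ⟨by linarith, h2⟩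
  have e1 : Fl (G t κ β h) ρ d p = ∫ ψ in (0 : ℝ)..p, ((1 - κ) * h ^ 3 * (d / cos ψ) ^ 2 / 2 -
      (t ^ 3 + β) * (1 - 1 / cc (d / cos ψ)) + capt t h) := by
    rw [Fl]
    refine intervalIntegral.integral_congr fun ψ hψ => ?_
    obtain ⟨h1, h2⟩ := hcs ψ hψ
    have h3 : d / cos ψ ≤ ρ := le_trans (div_le_div_of_nonneg_left hd.le hcp h2) hρ
    have h4 : d ≤ d / cos ψ := by
      rw [le_div_iff₀ h1]
      nlinarith [Real.cos_le_one ψ]
    have h5 : cc d ≤ cc (d / cos ψ) := by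
      unfold cc
      apply Real.sqrt_le_sqrt
      nlinarith
    have h6 : t ≤ h * cc (d / cos ψ) := htd.trans (mul_le_mul_of_nonneg_left h5 hh.le)
    simp only [min_eq_left h3]
    exact H_closed ht hh (by positivity) h6
  rw [e1]
  have hder : ∀ ψ ∈ uIcc 0 p, HasDerivAt (fun x => (1 - κ) * h ^ 3 * (d ^ 2 * tan x) / 2 -
      (t ^ 3 + β) * (x - arcsin (sin x / cc d)) + capt t h * x)
      ((1 - κ) * h ^ 3 * (d / cos ψ) ^ 2 / 2 -
      (t ^ 3 + β) * (1 - 1 / cc (d / cos ψ)) + capt t h) ψ := by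
    intro ψ hψ
    obtain ⟨h1, -⟩ := hcs ψ hψ
    have d1 := ((Real.hasDerivAt_tan h1.ne').const_mul (d ^ 2)).const_mul ((1 - κ) * h ^ 3)
    have d2 := ((hasDerivAt_id ψ).sub (qq_deriv (d := d) h1)).const_mul (t ^ 3 + β)
    have d3 := (hasDerivAt_id ψ).const_mul (capt t h)
    have d4 := ((d1.div_const 2).sub d2).add d3
    refine d4.congr_deriv ?_
    field_simp
  have hcont : ContinuousOn (fun ψ => (1 - κ) * h ^ 3 * (d / cos ψ) ^ 2 / 2 -
      (t ^ 3 + β) * (1 - 1 / cc (d / cos ψ)) + capt t h) (uIcc 0 p) := by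
    have h1 : ContinuousOn (fun ψ => d / cos ψ) (uIcc 0 p) :=
      continuousOn_const.div Real.continuous_cos.continuousOn fun ψ hψ => (hcs ψ hψ).1.ne'
    have h2 : ContinuousOn (fun ψ => cc (d / cos ψ)) (uIcc 0 p) := by
      unfold cc
      exact (continuousOn_const.add (h1.pow 2)).sqrt
    have h3 : ContinuousOn (fun ψ => 1 / cc (d / cos ψ)) (uIcc 0 p) :=
      continuousOn_const.div h2 fun ψ _ => (ccpos _).ne'
    exact (((continuousOn_const.mul (h1.pow 2)).div_const 2).sub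
      (continuousOn_const.mul (continuousOn_const.sub h3))).add continuousOn_const
  rw [intervalIntegral.integral_eq_sub_of_hasDerivAt hder hcont.intervalIntegrable]
  simp only [Real.tan_zero, Real.sin_zero, zero_div, Real.arcsin_zero, mul_zero, sub_zero,
    add_zero, qq]

/-! ## Totals -/

section poly

variable {ι : Type} {n : ι → E3} {h : ι → ℝ}

/-- The polyhedron is bounded. -/
theorem Good.bdd [Fintype ι] (G : Good n h) : ∃ ϱ, ∀ x ∈ Poly n h, ‖x‖ < ϱ := by
  set F : E3 → ℝ := fun u => ∑ k, max ⟪n k, u⟫ 0 with hF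
  have hFc : Continuous F :=
    continuous_finsetSum _ fun k _ => (continuous_const.inner continuous_id).max continuous_const
  have hne : (Metric.sphere (0 : E3) 1).Nonempty := NormedSpace.sphere_nonempty.mpr zero_le_one
  obtain ⟨u0, hu0, hmin⟩ := (isCompact_sphere (0 : E3) 1).exists_isMinOn hne hFc.continuousOn
  have hu0n : u0 ≠ 0 := by
    intro h0
    rw [h0, mem_sphere_iff_norm, sub_zero, norm_zero] at hu0
    exact zero_ne_one hu0
  obtain ⟨k0, hk0⟩ := G.pos u0 hu0n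
  have hδ : 0 < F u0 :=
    Finset.sum_pos' (fun k _ => le_max_right _ _) ⟨k0, Finset.mem_univ _, lt_max_of_lt_left hk0⟩
  refine ⟨(∑ k, h k) / F u0 + 1, fun x hx => ?_⟩
  have h1 : F x ≤ ∑ k, h k :=
    Finset.sum_le_sum fun k _ => max_le (hx k) (G.hh k).le
  have h2 : ‖x‖ * F u0 ≤ F x := by
    by_cases hx0 : x = 0
    · rw [hx0, norm_zero, zero_mul]
      exact Finset.sum_nonneg fun k _ => le_max_right _ _
    · have hxn : 0 < ‖x‖ := norm_pos_iff.mpr hx0
      have h3 : F ((‖x‖)⁻¹ • x) = (‖x‖)⁻¹ * F x := by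
        simp only [hF]
        rw [Finset.mul_sum]
        refine Finset.sum_congr rfl fun k _ => ?_
        rw [real_inner_smul_right, mul_max_of_nonneg _ _ (inv_nonneg.mpr hxn.le), mul_zero]
      have h4 : (‖x‖)⁻¹ • x ∈ Metric.sphere (0 : E3) 1 := by
        rw [mem_sphere_iff_norm, sub_zero, norm_smul, norm_inv, norm_norm,
          inv_mul_cancel₀ hxn.ne']
      have h5 := hmin h4
      simp only [mem_ofPred_eq] at h5
      rw [h3] at h5
      have h6 := mul_le_mul_of_nonneg_left h5 hxn.le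
      rwa [← mul_assoc, mul_inv_cancel₀ hxn.ne', one_mul] at h6
  have h7 : ‖x‖ ≤ (∑ k, h k) / F u0 := by
    rw [le_div_iff₀ hδ]
    linarith
  linarith

/-- The integral over a facet, truncated. -/
theorem Good.facet_flag' [Fintype ι] (G : Good n h) (i : ι) {e f : E3} (ho : Onb (n i) e f)
    (hd : det3 (n i) e f = 1) (hft : ∀ j, j ≠ i → h i * ⟪n i, n j⟫ < h j) {g : ℝ → ℝ}
    (hg : Continuous g) {ϱ : ℝ} (hϱ : h i < ϱ) :
    ∫ w in {w | w ∈ Qs n h i e f ∧ h i * cc (nr w) < ϱ}, g (nr w) =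
      ∑ j ∈ nb n h i,
        (Fl g (rr (h i) ϱ) (ad n h i j)
          (pp (ad n h i j) (ad n h i (nx n h i j)) (Ang n i j (nx n h i j))) +
        Fl g (rr (h i) ϱ) (ad n h i (nx n h i j))
          (pp (ad n h i (nx n h i j)) (ad n h i j) (Ang n i j (nx n h i j)))) := by
  have hhi := G.hh i
  have hset : {w : ℝ × ℝ | w ∈ Qs n h i e f ∧ h i * cc (nr w) < ϱ} =
      {w : ℝ × ℝ | w ∈ Qs n h i e f ∧ nr w < rr (h i) ϱ} := by
    ext w
    simp only [mem_ofPred_eq]
    exact and_congr_right fun _ => FCX_rr hhi hϱ (Real.sqrt_nonneg _)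
  have hρ : 0 < rr (h i) ϱ := by
    refine Real.sqrt_pos.2 ?_
    rw [sub_pos, one_lt_div (by positivity)]
    nlinarith
  rw [hset]
  exact G.facet_flag i ho hd hft hg hρ

/-- Three times the volume of the cone over the corner `j k` of the facet `i`. -/
noncomputable def hVol (n : ι → E3) (h : ι → ℝ) (i j k : ι) : ℝ :=
  h i ^ 3 * (ad n h i j ^ 2 * tan (pp (ad n h i j) (ad n h i k) (Ang n i j k)) +
    ad n h i k ^ 2 * tan (pp (ad n h i k) (ad n h i j) (Ang n i j k))) / 2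

/-- The solid angle of the cone over the corner `j k` of the facet `i`. -/
noncomputable def hSol (n : ι → E3) (h : ι → ℝ) (i j k : ι) : ℝ :=
  Ang n i j k - qq (ad n h i j) (pp (ad n h i j) (ad n h i k) (Ang n i j k)) -
    qq (ad n h i k) (pp (ad n h i k) (ad n h i j) (Ang n i j k))

/-- The foot of every facet is inside. -/
def Feet (n : ι → E3) (h : ι → ℝ) : Prop := ∀ i j, j ≠ i → h i * ⟪n i, n j⟫ < h j

theorem Good.inj (G : Good n h) : Function.Injective n := by
  intro a b hab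
  by_contra hne
  exact FCT_inj G.irr hne hab

/-- The facets in the closed form. -/
theorem Good.facet_closed [Fintype ι] (G : Good n h) (hft : Feet n h) {t κ β ϱ : ℝ} (ht : 0 < t)
    (hD : ∀ i, ∀ j ∈ nb n h i, t ≤ h i * cc (ad n h i j))
    (hϱ : ∀ x ∈ Poly n h, ‖x‖ < ϱ) (i : ι) {e f : E3} (ho : Onb (n i) e f)
    (hd : det3 (n i) e f = 1) :
    ∫ w in {w | w ∈ Qs n h i e f ∧ h i * cc (nr w) < ϱ}, SDC.G t κ β (h i) (nr w) =
      ∑ j ∈ nb n h i, ((1 - κ) * hVol n h i j (nx n h i j) -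
        (t ^ 3 + β) * hSol n h i j (nx n h i j) + capt t (h i) * Ang n i j (nx n h i j)) := by
  have hhi := G.hh i
  have hft' := hft i
  have hfoot : h i • n i ∈ Poly n h := by
    intro j
    rw [real_inner_smul_right]
    by_cases hji : j = i
    · rw [hji, real_inner_self_eq_norm_sq, G.nn i]
      linarith
    · have := hft' j hji
      rw [real_inner_comm] at this
      exact this.le
  have hhϱ : h i < ϱ := by
    have := hϱ _ hfoot
    rwa [norm_smul, G.nn i, mul_one, Real.norm_of_nonneg hhi.le] at this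
  rw [G.facet_flag' i ho hd hft' (tHCL.1 t κ β (h i)) hhϱ]
  refine Finset.sum_congr rfl fun j hj => ?_
  have hk : nx n h i j ∈ nb n h i := by
    rw [mem_nb] at hj ⊢
    exact G.nx_mem hj
  have hadj := ((G.sum_Ang i).1 j hj)
  have ha1 := G.ad_pos (mem_nb.mp hj) (hft' j (mem_nb.mp hj).1.symm)
  have ha2 := G.ad_pos (mem_nb.mp hk) (hft' _ (mem_nb.mp hk).1.symm)
  obtain ⟨s1, s2, -⟩ := pp_spec ha1 ha2 hadj.1 hadj.2
  obtain ⟨-, v, hv, v1, v2, v3⟩ := G.vx (mem_nb.mp hj)
  have hvn := G.vertex_norm hj hft' v1 v2 v3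
  have hvϱ := hϱ v hv
  rw [hvn] at hvϱ
  set k := nx n h i j with hkdef
  set A := Ang n i j k with hA
  set p := pp (ad n h i j) (ad n h i k) A with hp
  set p' := pp (ad n h i k) (ad n h i j) A with hp'
  have hcp : 0 < cos p := pp_cos_pos _ _ _
  have hr : ad n h i j / cos p ≤ rr (h i) ϱ :=
    ((FCX_rr hhi hhϱ (by positivity)).mp hvϱ).le
  have hr' : ad n h i k / cos p' ≤ rr (h i) ϱ := by rw [← s2]; exact hr
  rw [Fl_closed ht hhi ha1 (hD i j hj) (pp_bd _ _ _).1 (pp_bd _ _ _).2 hr,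
    Fl_closed ht hhi ha2 (hD i k hk) (pp_bd _ _ _).1 (pp_bd _ _ _).2 hr', hVol, hSol,
    ← hA, ← hp, ← hp']
  have s1' : A = p + p' := s1.symm
  rw [s1']
  ring

/-- The main identity. -/
theorem Good.total [Fintype ι] (G : Good n h) (hft : Feet n h) {t κ β : ℝ} (ht : 0 < t)
    (hD : ∀ i, ∀ j ∈ nb n h i, t ≤ h i * cc (ad n h i j)) :
    3 * ((1 - κ) * (volume (Poly n h)).toReal
      - (volume (Poly n h ∩ Metric.closedBall 0 t)).toReal) =
    4 * π * β + ∑ i, ∑ j ∈ nb n h i, ((1 - κ) * hVol n h i j (nx n h i j) -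
        (t ^ 3 + β) * hSol n h i j (nx n h i j) + capt t (h i) * Ang n i j (nx n h i j)) := by
  obtain ⟨ϱ0, hϱ0⟩ := G.bdd
  set ϱ := max ϱ0 t with hϱdef
  have hϱ : ∀ x ∈ Poly n h, ‖x‖ < ϱ := fun x hx => lt_of_lt_of_le (hϱ0 x hx) (le_max_left _ _)
  choose e f ho hd using fun i => exists_frame (n i) (G.nn i)
  have hS := tSUM ι n e f h t κ β ϱ G.hh G.inj ho ht (le_max_right _ _)
  have hP : Poly n h ∩ Metric.closedBall 0 ϱ = Poly n h := by
    refine Set.inter_eq_left.mpr fun x hx => ?_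
    rw [mem_closedBall_zero_iff]
    exact (hϱ x hx).le
  have hϱ0' : 0 < ϱ := lt_of_lt_of_le ht (le_max_right _ _)
  have hC : Metric.closedBall (0 : E3) 1 ∩ Cinf n h ϱ ⊆ {0} := by
    rintro x ⟨-, hx⟩
    by_contra hx0
    rw [Set.mem_singleton_iff] at hx0
    have hxn : 0 < ‖x‖ := norm_pos_iff.mpr hx0
    have h1 : (ϱ / ‖x‖) • x ∈ Poly n h := by
      intro j
      rw [real_inner_smul_right]
      have := hx j
      rw [div_mul_eq_mul_div, div_le_iff₀ hxn]
      exact this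
    have h2 := hϱ _ h1
    rw [norm_smul, norm_div, norm_norm, div_mul_cancel₀ _ hxn.ne',
      Real.norm_of_nonneg hϱ0'.le] at h2
    exact lt_irrefl _ h2
  have hC0 : volume (Metric.closedBall (0 : E3) 1 ∩ Cinf n h ϱ) = 0 := by
    refine measure_mono_null hC ?_
    exact measure_singleton 0
  rw [hP, hC0] at hS
  rw [hS]
  simp only [ENNReal.toReal_zero, mul_zero, zero_mul, add_zero]
  congr 1
  refine Finset.sum_congr rfl fun i _ => ?_
  exact G.facet_closed hft ht hD hϱ i (ho i) (hd i)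

/-- A small radius. -/
theorem exists_small_t [Fintype ι] (G : Good n h) : ∃ t, 0 < t ∧
    ∀ i, ∀ j ∈ nb n h i, t ≤ h i * cc (ad n h i j) := by
  classical
  by_cases hι : Nonempty ι
  · obtain ⟨i0, hi0⟩ := Finite.exists_min h
    refine ⟨h i0, G.hh i0, fun i j _ => ?_⟩
    have h1 := hi0 i
    have h2 := one_le_cc (ad n h i j)
    have h3 := G.hh i
    nlinarith
  · exact ⟨1, one_pos, fun i => absurd ⟨i⟩ hι⟩

/-- The volume is the sum over the corners. -/
theorem Good.vol_eq [Fintype ι] (G : Good n h) (hft : Feet n h) :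
    3 * (volume (Poly n h)).toReal = ∑ i, ∑ j ∈ nb n h i, hVol n h i j (nx n h i j) := by
  obtain ⟨t, ht, hD⟩ := exists_small_t G
  have h1 := G.total (κ := 0) (β := 0) hft ht hD
  have h2 := G.total (κ := 1) (β := 0) hft ht hD
  simp only [sub_zero, one_mul, mul_zero, zero_add, sub_self, zero_mul, zero_sub, add_zero]
    at h1 h2
  have h3 : ∑ i, ∑ j ∈ nb n h i, (hVol n h i j (nx n h i j) -
      t ^ 3 * hSol n h i j (nx n h i j) + capt t (h i) * Ang n i j (nx n h i j)) =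
      ∑ i, ∑ j ∈ nb n h i, hVol n h i j (nx n h i j) +
      ∑ i, ∑ j ∈ nb n h i, (-(t ^ 3 * hSol n h i j (nx n h i j)) +
        capt t (h i) * Ang n i j (nx n h i j)) := by
    rw [← Finset.sum_add_distrib]
    refine Finset.sum_congr rfl fun i _ => ?_
    rw [← Finset.sum_add_distrib]
    exact Finset.sum_congr rfl fun j _ => by ring
  rw [h3] at h1
  linarith

/-- The solid angles. -/
theorem Good.sol_eq [Fintype ι] (G : Good n h) (hft : Feet n h) :
    ∑ i, ∑ j ∈ nb n h i, hSol n h i j (nx n h i j) = 4 * π := by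
  obtain ⟨t, ht, hD⟩ := exists_small_t G
  have h1 := G.total (κ := 1) (β := 0) hft ht hD
  have h2 := G.total (κ := 1) (β := 1) hft ht hD
  simp only [mul_zero, zero_add, sub_self, zero_mul, zero_sub, add_zero, mul_one] at h1 h2
  have h3 : ∑ i, ∑ j ∈ nb n h i, (-((t ^ 3 + 1) * hSol n h i j (nx n h i j)) +
        capt t (h i) * Ang n i j (nx n h i j)) =
      ∑ i, ∑ j ∈ nb n h i, (-(t ^ 3 * hSol n h i j (nx n h i j)) +
        capt t (h i) * Ang n i j (nx n h i j)) -
      ∑ i, ∑ j ∈ nb n h i, hSol n h i j (nx n h i j) := by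
    rw [← Finset.sum_sub_distrib]
    refine Finset.sum_congr rfl fun i _ => ?_
    rw [← Finset.sum_sub_distrib]
    exact Finset.sum_congr rfl fun j _ => by ring
  rw [h3] at h2
  linarith

/-- The volume of the section with a ball which meets no edge. -/
theorem Good.volt_eq [Fintype ι] (G : Good n h) (hft : Feet n h) {t : ℝ} (ht : 0 < t)
    (hD : ∀ i, ∀ j ∈ nb n h i, t ≤ h i * cc (ad n h i j)) :
    3 * (volume (Poly n h ∩ Metric.closedBall 0 t)).toReal =
      4 * π * t ^ 3 - 2 * π * ∑ i, capt t (h i) := by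
  have h1 := G.total (κ := 1) (β := 0) hft ht hD
  simp only [mul_zero, zero_add, sub_self, zero_mul, zero_sub, add_zero] at h1
  have h3 : ∑ i, ∑ j ∈ nb n h i, (-(t ^ 3 * hSol n h i j (nx n h i j)) +
        capt t (h i) * Ang n i j (nx n h i j)) =
      -(t ^ 3 * ∑ i, ∑ j ∈ nb n h i, hSol n h i j (nx n h i j)) +
      ∑ i, capt t (h i) * (2 * π) := by
    rw [Finset.mul_sum, ← Finset.sum_neg_distrib, ← Finset.sum_add_distrib]
    refine Finset.sum_congr rfl fun i _ => ?_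
    rw [Finset.sum_add_distrib, Finset.sum_neg_distrib, ← Finset.mul_sum, ← Finset.mul_sum,
      (G.sum_Ang i).2]
  rw [h3, G.sol_eq hft, ← Finset.sum_mul] at h1
  linarith

end poly

end Pool.Agent.SDL
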