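import Pool.Agent.SDL.Flag2

set_option autoImplicit false

/-!
# Flags, part 3: the identities at one vertex and at one edge

`off n i j v`: the signed offset of the vertex `v` on the line of the planes `i, j`, from the point
of the line nearest to the origin.
-/

open MeasureTheory Set Real
open scoped RealInnerProductSpace

namespace Pool.Agent.SDL

open Pool.Agent.SDC

theorem det3_cr_left (x a b : E3) :
    det3 x a (cr a b) = ⟪a, b⟫ * ⟪x, a⟫ - ⟪a, a⟫ * ⟪x, b⟫ := by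
  simp only [inner3, det3, cr0, cr1, cr2]
  ring

theorem det3_cr_right (x a b : E3) :
    det3 x b (cr a b) = ⟪b, b⟫ * ⟪x, a⟫ - ⟪a, b⟫ * ⟪x, b⟫ := by
  simp only [inner3, det3, cr0, cr1, cr2]
  ring

theorem cos_lt_of_foot {α la lb : ℝ} (h1 : α * la < lb) (h2 : α * lb < la) (hα : α ^ 2 < 1)
    (hla : 0 < la) (hlb : 0 < lb) : 0 < lb - α * la ∧ 0 < la - α * lb ∧ 0 < 1 - α ^ 2 ∧
      0 < la ∧ 0 < lb :=
  ⟨by linarith, by linarith, by linarith, hla, hlb⟩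

/-- From one facet to the next, seen from the vertex in the direction `u`. -/
theorem edge_step {a b u E F : E3} (ho : Onb u E F) (hd : det3 u E F = 1) (ha : ‖a‖ = 1)
    (hb : ‖b‖ = 1) (hs : 0 < 1 - ⟪a, b⟫ ^ 2) {φa φb qa qb ξ : ℝ}
    (hla : 0 < 1 - ⟪u, a⟫ ^ 2) (hlb : 0 < 1 - ⟪u, b⟫ ^ 2)
    (ea : ⟪E, a⟫ = √(1 - ⟪u, a⟫ ^ 2) * cos φa) (fa : ⟪F, a⟫ = √(1 - ⟪u, a⟫ ^ 2) * sin φa)
    (eb : ⟪E, b⟫ = √(1 - ⟪u, b⟫ ^ 2) * cos φb) (fb : ⟪F, b⟫ = √(1 - ⟪u, b⟫ ^ 2) * sin φb)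
    (f1 : ⟪a, b⟫ * ⟪u, a⟫ < ⟪u, b⟫) (f2 : ⟪a, b⟫ * ⟪u, b⟫ < ⟪u, a⟫)
    (hξ : ξ = det3 a b u / √(1 - ⟪a, b⟫ ^ 2)) (hξ1 : 0 < 1 - ξ ^ 2)
    (ha1 : -(π / 2) < qa) (ha2 : qa < π / 2) (hb1 : -(π / 2) < qb) (hb2 : qb < π / 2)
    (hqa : sin qa = ⟪u, a⟫ * ξ / (√(1 - ξ ^ 2) * √(1 - ⟪u, a⟫ ^ 2)))
    (hqb : sin qb = ⟪u, b⟫ * ξ / (√(1 - ξ ^ 2) * √(1 - ⟪u, b⟫ ^ 2))) :
    ((φb - φa : ℝ) : Real.Angle) = ((π - (qa + qb) : ℝ) : Real.Angle) := by
  have hss : 0 < √(1 - ⟪a, b⟫ ^ 2) := Real.sqrt_pos.mpr hs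
  have hsx : 0 < √(1 - ξ ^ 2) := Real.sqrt_pos.mpr hξ1
  have hsa : 0 < √(1 - ⟪u, a⟫ ^ 2) := Real.sqrt_pos.mpr hla
  have hsb : 0 < √(1 - ⟪u, b⟫ ^ 2) := Real.sqrt_pos.mpr hlb
  have haa : ⟪a, a⟫ = 1 := by rw [real_inner_self_eq_norm_sq, ha]; norm_num
  have hbb : ⟪b, b⟫ = 1 := by rw [real_inner_self_eq_norm_sq, hb]; norm_num
  -- the direction of the line
  set w : E3 := (√(1 - ⟪a, b⟫ ^ 2))⁻¹ • cr a b with hw
  have hwu : ⟪u, w⟫ = ξ := by
    rw [hw, real_inner_smul_right, inner_cr, hξ]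
    ring
  have hwn : ‖w‖ ^ 2 = 1 := by
    rw [hw, norm_smul, mul_pow, norm_cr a b ha hb, norm_inv, Real.norm_of_nonneg hss.le,
      inv_pow, Real.sq_sqrt hs.le, inv_mul_cancel₀ hs.ne']
  have hwa : ⟪a, w⟫ = 0 := by
    rw [hw, real_inner_smul_right, inner_cr, det3_self2, mul_zero]
  have hwb : ⟪b, w⟫ = 0 := by
    rw [hw, real_inner_smul_right, inner_cr, det3_self3, mul_zero]
  have hEF : ⟪E, w⟫ ^ 2 + ⟪F, w⟫ ^ 2 = 1 - ξ ^ 2 := by
    have h1 := ((p_CRD u E F ho).2 w).1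
    rw [hwn, hwu] at h1
    linarith
  obtain ⟨β, -, -, hβ1, hβ2⟩ := exists_polar 0 ⟪E, w⟫ ⟪F, w⟫ (by rw [hEF]; exact hξ1)
  rw [hEF] at hβ1 hβ2
  -- the facet a
  have ca : cos (φa - β) = - sin qa := by
    have h1 := frame_inner ho a w
    rw [hwa, ea, fa, hβ1, hβ2, hwu] at h1
    rw [hqa, Real.cos_sub, eq_neg_iff_add_eq_zero]
    field_simp
    linarith
  have sa : 0 < sin (φa - β) := by
    have h1 := frame_det ho hd a w
    have h2 : det3 u a w = (√(1 - ⟪a, b⟫ ^ 2))⁻¹ * (⟪a, b⟫ * ⟪u, a⟫ - ⟪a, a⟫ * ⟪u, b⟫) := by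
      rw [← det3_cr_left, hw]
      simp only [det3, PiLp.smul_apply, smul_eq_mul]
      ring
    rw [h2, haa, ea, fa, hβ1, hβ2] at h1
    have h3 : (√(1 - ⟪a, b⟫ ^ 2))⁻¹ * (⟪a, b⟫ * ⟪u, a⟫ - 1 * ⟪u, b⟫) < 0 :=
      mul_neg_of_pos_of_neg (inv_pos.mpr hss) (by linarith)
    have h4 : √(1 - ⟪u, a⟫ ^ 2) * √(1 - ξ ^ 2) * sin (φa - β) =
        -((√(1 - ⟪a, b⟫ ^ 2))⁻¹ * (⟪a, b⟫ * ⟪u, a⟫ - 1 * ⟪u, b⟫)) := by
      rw [h1, Real.sin_sub]
      ring
    by_contra hcon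
    push Not at hcon
    have := mul_nonpos_of_nonneg_of_nonpos (mul_nonneg hsa.le hsx.le) hcon
    linarith
  have cb : cos (φb - β) = - sin qb := by
    have h1 := frame_inner ho b w
    rw [hwb, eb, fb, hβ1, hβ2, hwu] at h1
    rw [hqb, Real.cos_sub, eq_neg_iff_add_eq_zero]
    field_simp
    linarith
  have sb : sin (φb - β) < 0 := by
    have h1 := frame_det ho hd b w
    have h2 : det3 u b w = (√(1 - ⟪a, b⟫ ^ 2))⁻¹ * (⟪b, b⟫ * ⟪u, a⟫ - ⟪a, b⟫ * ⟪u, b⟫) := by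
      rw [← det3_cr_right, hw]
      simp only [det3, PiLp.smul_apply, smul_eq_mul]
      ring
    rw [h2, hbb, eb, fb, hβ1, hβ2] at h1
    have h3 : 0 < (√(1 - ⟪a, b⟫ ^ 2))⁻¹ * (1 * ⟪u, a⟫ - ⟪a, b⟫ * ⟪u, b⟫) :=
      mul_pos (inv_pos.mpr hss) (by linarith)
    have h4 : √(1 - ⟪u, b⟫ ^ 2) * √(1 - ξ ^ 2) * sin (φb - β) =
        -((√(1 - ⟪a, b⟫ ^ 2))⁻¹ * (1 * ⟪u, a⟫ - ⟪a, b⟫ * ⟪u, b⟫)) := by
      rw [h1, Real.sin_sub]
      ring
    by_contra hcon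
    push Not at hcon
    have := mul_nonneg (mul_nonneg hsb.le hsx.le) hcon
    linarith
  have cqa : 0 < cos qa := Real.cos_pos_of_mem_Ioo ⟨ha1, ha2⟩
  have cqb : 0 < cos qb := Real.cos_pos_of_mem_Ioo ⟨hb1, hb2⟩
  have sa' : sin (φa - β) = cos qa := by
    have h1 := Real.sin_sq_add_cos_sq (φa - β)
    have h2 := Real.sin_sq_add_cos_sq qa
    rw [ca] at h1
    have h3 : sin (φa - β) ^ 2 = cos qa ^ 2 := by linarith
    exact (sq_eq_sq₀ sa.le cqa.le).mp h3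
  have sb' : sin (φb - β) = - cos qb := by
    have h1 := Real.sin_sq_add_cos_sq (φb - β)
    have h2 := Real.sin_sq_add_cos_sq qb
    rw [cb] at h1
    have h3 : (-sin (φb - β)) ^ 2 = cos qb ^ 2 := by rw [neg_sq]; linarith
    have h4 := (sq_eq_sq₀ (by linarith) cqb.le).mp h3
    linarith
  have e1 : ((φa - β : ℝ) : Real.Angle) = ((π / 2 + qa : ℝ) : Real.Angle) := by
    refine Real.Angle.cos_sin_inj ?_ ?_
    · rw [ca, Real.cos_add, Real.cos_pi_div_two, Real.sin_pi_div_two]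
      ring
    · rw [sa', Real.sin_add, Real.cos_pi_div_two, Real.sin_pi_div_two]
      ring
  have e2 : ((φb - β : ℝ) : Real.Angle) = ((-(π / 2 + qb) : ℝ) : Real.Angle) := by
    refine Real.Angle.cos_sin_inj ?_ ?_
    · rw [cb, Real.cos_neg, Real.cos_add, Real.cos_pi_div_two, Real.sin_pi_div_two]
      ring
    · rw [sb', Real.sin_neg, Real.sin_add, Real.cos_pi_div_two, Real.sin_pi_div_two]
      ring
  have e3 : ((φb - φa : ℝ) : Real.Angle) =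
      ((-(π / 2 + qb) - (π / 2 + qa) : ℝ) : Real.Angle) := by
    rw [show φb - φa = (φb - β) - (φa - β) by ring, Real.Angle.coe_sub, e1, e2,
      ← Real.Angle.coe_sub]
  rw [e3, Real.Angle.angle_eq_iff_two_pi_dvd_sub]
  refine ⟨-1, ?_⟩
  push_cast
  ring

section poly

variable {ι : Type} {n : ι → E3} {h : ι → ℝ}

/-- The signed offset on the line of the planes `i, j` of the point `v`. -/
noncomputable def off (n : ι → E3) (i j : ι) (v : E3) : ℝ :=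
  det3 (n i) (n j) v / √(1 - ⟪n i, n j⟫ ^ 2)

/-- One corner of a vertex. -/
theorem corner_loc (hn : ∀ i, ‖n i‖ = 1) (hh : ∀ i, 0 < h i) {i j k : ι} {v : E3}
    (hdet : 0 < det3 (n i) (n j) (n k)) (v1 : ⟪n i, v⟫ = h i) (v2 : ⟪n j, v⟫ = h j)
    (v3 : ⟪n k, v⟫ = h k) (fj : h i * ⟪n i, n j⟫ < h j) (fk : h i * ⟪n i, n k⟫ < h k) :
    0 < 1 - ⟪n i, n j⟫ ^ 2 ∧ 0 < 1 - ⟪n i, n k⟫ ^ 2 ∧ 0 < Ang n i j k ∧ Ang n i j k < π ∧
    0 < ad n h i j ∧ 0 < ad n h i k ∧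
    h i * (ad n h i j * tan (pp (ad n h i j) (ad n h i k) (Ang n i j k))) = off n i j v ∧
    h i * (ad n h i k * tan (pp (ad n h i k) (ad n h i j) (Ang n i j k))) = off n k i v ∧
    ‖v‖ ^ 2 = h i ^ 2 * (1 + ad n h i j ^ 2) + off n i j v ^ 2 ∧
    ‖v‖ ^ 2 = h i ^ 2 * (1 + ad n h i k ^ 2) + off n k i v ^ 2 := by
  obtain ⟨e, f, ho, hd⟩ := exists_frame (n i) (hn i)
  have hsq : ∀ l, ⟪e, n l⟫ ^ 2 + ⟪f, n l⟫ ^ 2 = 1 - ⟪n i, n l⟫ ^ 2 := by
    intro l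
    have h1 := ((p_CRD (n i) e f ho).2 (n l)).1
    rw [hn l] at h1
    linarith
  have hfd := frame_det ho hd (n j) (n k)
  have hpj : 0 < 1 - ⟪n i, n j⟫ ^ 2 := by
    rw [← hsq j]
    rcases (add_nonneg (sq_nonneg ⟪e, n j⟫) (sq_nonneg ⟪f, n j⟫)).eq_or_lt with h0 | h0
    · exfalso
      have h1 : ⟪e, n j⟫ = 0 := by nlinarith [sq_nonneg ⟪e, n j⟫, sq_nonneg ⟪f, n j⟫]
      have h2 : ⟪f, n j⟫ = 0 := by nlinarith [sq_nonneg ⟪e, n j⟫, sq_nonneg ⟪f, n j⟫]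
      rw [h1, h2] at hfd
      linarith
    · exact h0
  have hpk : 0 < 1 - ⟪n i, n k⟫ ^ 2 := by
    rw [← hsq k]
    rcases (add_nonneg (sq_nonneg ⟪e, n k⟫) (sq_nonneg ⟪f, n k⟫)).eq_or_lt with h0 | h0
    · exfalso
      have h1 : ⟪e, n k⟫ = 0 := by nlinarith [sq_nonneg ⟪e, n k⟫, sq_nonneg ⟪f, n k⟫]
      have h2 : ⟪f, n k⟫ = 0 := by nlinarith [sq_nonneg ⟪e, n k⟫, sq_nonneg ⟪f, n k⟫]
      rw [h1, h2] at hfd
      linarith
    · exact h0
  obtain ⟨θj, -, -, hj1, hj2⟩ := exists_polar 0 ⟪e, n j⟫ ⟪f, n j⟫ (by rw [hsq]; exact hpj)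
  obtain ⟨θk, -, -, hk1, hk2⟩ := exists_polar 0 ⟪e, n k⟫ ⟪f, n k⟫ (by rw [hsq]; exact hpk)
  rw [hsq] at hj1 hj2 hk1 hk2
  have hsj : 0 < √(1 - ⟪n i, n j⟫ ^ 2) := Real.sqrt_pos.mpr hpj
  have hsk : 0 < √(1 - ⟪n i, n k⟫ ^ 2) := Real.sqrt_pos.mpr hpk
  have hhi := hh i
  -- the angle
  have hcosA : Ang n i j k = arccos (cos (θk - θj)) := by
    have h1 := frame_inner ho (n j) (n k)
    rw [hj1, hj2, hk1, hk2] at h1
    rw [Ang, h1, Real.cos_sub]
    congr 1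
    field_simp
    ring
  have hsin : 0 < sin (θk - θj) := by
    rw [hj1, hj2, hk1, hk2] at hfd
    have h1 : √(1 - ⟪n i, n j⟫ ^ 2) * √(1 - ⟪n i, n k⟫ ^ 2) * sin (θk - θj) =
        det3 (n i) (n j) (n k) := by
      rw [hfd, Real.sin_sub]
      ring
    by_contra hcon
    push Not at hcon
    have := mul_nonpos_of_nonneg_of_nonpos (mul_nonneg hsj.le hsk.le) hcon
    linarith
  have hc1 : cos (θk - θj) < 1 := by
    have := Real.sin_sq_add_cos_sq (θk - θj)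
    nlinarith
  have hc2 : -1 < cos (θk - θj) := by
    have := Real.sin_sq_add_cos_sq (θk - θj)
    nlinarith
  have hA0 : 0 < Ang n i j k := by
    rw [hcosA]
    exact Real.arccos_pos.mpr hc1
  have hA1 : Ang n i j k < π := by
    rw [hcosA]
    rcases (Real.arccos_le_pi (cos (θk - θj))).eq_or_lt with h1 | h1
    · rw [Real.arccos_eq_pi] at h1
      linarith
    · exact h1
  have hcA : cos (Ang n i j k) = cos (θk - θj) := by
    rw [hcosA, Real.cos_arccos hc2.le hc1.le]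
  have hsA : sin (Ang n i j k) = sin (θk - θj) := by
    have h1 := Real.sin_sq_add_cos_sq (θk - θj)
    have h2 := Real.sin_sq_add_cos_sq (Ang n i j k)
    rw [hcA] at h2
    have h3 : sin (Ang n i j k) ^ 2 = sin (θk - θj) ^ 2 := by linarith
    exact (sq_eq_sq₀ (Real.sin_pos_of_pos_of_lt_pi hA0 hA1).le hsin.le).mp h3
  have haj : 0 < ad n h i j := by
    refine div_pos ?_ hsj
    rw [sub_pos, lt_div_iff₀ hhi, mul_comm]
    exact fj
  have hak : 0 < ad n h i k := by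
    refine div_pos ?_ hsk
    rw [sub_pos, lt_div_iff₀ hhi, mul_comm]
    exact fk
  -- the coordinates of the vertex
  have wj : ⟪e, v⟫ * cos θj + ⟪f, v⟫ * sin θj = h i * ad n h i j := by
    have h1 := frame_inner ho (n j) v
    rw [v1, v2, hj1, hj2] at h1
    rw [ad]
    have c1 : ⟪n i, n j⟫ = ⟪n j, n i⟫ := real_inner_comm _ _
    field_simp
    linarith
  have wk : ⟪e, v⟫ * cos θk + ⟪f, v⟫ * sin θk = h i * ad n h i k := by
    have h1 := frame_inner ho (n k) v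
    rw [v1, v3, hk1, hk2] at h1
    rw [ad]
    field_simp
    linarith
  have oj : off n i j v = -⟪e, v⟫ * sin θj + ⟪f, v⟫ * cos θj := by
    rw [off, frame_det ho hd (n j) v, hj1, hj2]
    field_simp
    ring
  have ok : off n k i v = ⟪e, v⟫ * sin θk - ⟪f, v⟫ * cos θk := by
    have c1 : ⟪n k, n i⟫ = ⟪n i, n k⟫ := real_inner_comm _ _
    rw [off, det3_swap, frame_det ho hd (n k) v, hk1, hk2, c1]
    field_simp
    ring
  have hspec := pp_spec haj hak hA0 hA1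
  have hspec' := pp_spec hak haj hA0 hA1
  have one_j := Real.sin_sq_add_cos_sq θj
  have one_k := Real.sin_sq_add_cos_sq θk
  have hss := Real.sin_pos_of_pos_of_lt_pi hA0 hA1
  have hadd := Real.cos_sub θk θj
  have hsub := Real.sin_sub θk θj
  refine ⟨hpj, hpk, hA0, hA1, haj, hak, ?_, ?_, ?_, ?_⟩
  · have h1 := hspec.2.2
    have h2 : ad n h i j * tan (pp (ad n h i j) (ad n h i k) (Ang n i j k)) =
        (ad n h i k - ad n h i j * cos (Ang n i j k)) / sin (Ang n i j k) := by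
      rw [← h1, Real.tan_eq_sin_div_cos]
      ring
    rw [h2, hcA, hsA, mul_div_assoc', div_eq_iff hsin.ne', oj]
    linear_combination (-1) * wk + cos (θk - θj) * wj -
      (⟪e, v⟫ * cos θk + ⟪f, v⟫ * sin θk) * one_j -
      (⟪e, v⟫ * cos θj + ⟪f, v⟫ * sin θj) * hadd -
      (-⟪e, v⟫ * sin θj + ⟪f, v⟫ * cos θj) * hsub
  · have h1 := hspec'.2.2
    have h2 : ad n h i k * tan (pp (ad n h i k) (ad n h i j) (Ang n i j k)) =
        (ad n h i j - ad n h i k * cos (Ang n i j k)) / sin (Ang n i j k) := by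
      rw [← h1, Real.tan_eq_sin_div_cos]
      ring
    rw [h2, hcA, hsA, mul_div_assoc', div_eq_iff hsin.ne', ok]
    linear_combination (-1) * wj + cos (θk - θj) * wk -
      (⟪e, v⟫ * cos θj + ⟪f, v⟫ * sin θj) * one_k -
      (⟪e, v⟫ * cos θk + ⟪f, v⟫ * sin θk) * hadd -
      (⟪e, v⟫ * sin θk - ⟪f, v⟫ * cos θk) * hsub
  · have h1 := frame_inner ho v v
    rw [real_inner_self_eq_norm_sq, v1] at h1
    have h2 : (h i * ad n h i j) ^ 2 = (⟪e, v⟫ * cos θj + ⟪f, v⟫ * sin θj) ^ 2 := by rw [wj]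
    rw [h1, oj]
    linear_combination (-1) * h2 - (⟪e, v⟫ ^ 2 + ⟪f, v⟫ ^ 2) * one_j
  · have h1 := frame_inner ho v v
    rw [real_inner_self_eq_norm_sq, v1] at h1
    have h2 : (h i * ad n h i k) ^ 2 = (⟪e, v⟫ * cos θk + ⟪f, v⟫ * sin θk) ^ 2 := by rw [wk]
    rw [h1, ok]
    linear_combination (-1) * h2 - (⟪e, v⟫ ^ 2 + ⟪f, v⟫ ^ 2) * one_k

/-- The angle `q` in terms of the offset `X` and the norm `r` of the vertex. -/
theorem q_facts {h d p X r : ℝ} (hh : 0 < h) (hd : 0 < d) (hr : 0 < r) (hc : 0 < cos p)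
    (h1 : h * (d * tan p) = X) (h2 : r ^ 2 = h ^ 2 * (1 + d ^ 2) + X ^ 2) :
    -(π / 2) < qq d p ∧ qq d p < π / 2 ∧
      sin (qq d p) = h / r * (X / r) / (√(1 - (X / r) ^ 2) * √(1 - (h / r) ^ 2)) ∧
      (0 ≤ X → 0 ≤ qq d p) := by
  have hcd := ccpos d
  have hcs := ccsq d
  have hone := Real.sin_sq_add_cos_sq p
  have hcd1 := one_le_cc d
  have hlt : (sin p / cc d) ^ 2 < 1 := by
    rw [div_pow, hcs, div_lt_one (by positivity)]
    nlinarith
  have hab := abs_lt.mp ((sq_lt_one_iff_abs_lt_one _).mp hlt)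
  have hX : h * d * sin p = X * cos p := by
    rw [← h1, Real.tan_eq_sin_div_cos]
    field_simp
  -- the two square roots
  have e1 : √(1 - (X / r) ^ 2) = h * cc d / r := by
    rw [show 1 - (X / r) ^ 2 = (h * cc d / r) ^ 2 by
      rw [div_pow, div_pow, mul_pow, hcs]
      field_simp
      linarith]
    exact Real.sqrt_sq (by positivity)
  have e2 : √(1 - (h / r) ^ 2) = h * d / (cos p * r) := by
    rw [show 1 - (h / r) ^ 2 = (h * d / (cos p * r)) ^ 2 by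
      rw [div_pow, div_pow, mul_pow, mul_pow]
      have h3 : cos p ^ 2 * (r ^ 2 - h ^ 2) = h ^ 2 * d ^ 2 := by
        have h4 : (X * cos p) ^ 2 = (h * d * sin p) ^ 2 := by rw [hX]
        rw [h2]
        linear_combination h4 + h ^ 2 * d ^ 2 * hone
      field_simp
      linarith]
    exact Real.sqrt_sq (by positivity)
  refine ⟨?_, ?_, ?_, ?_⟩
  · rw [qq, Real.neg_pi_div_two_lt_arcsin]
    exact hab.1
  · rw [qq, Real.arcsin_lt_pi_div_two]
    exact hab.2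
  · rw [qq, Real.sin_arcsin hab.1.le hab.2.le, e1, e2]
    have hd' := hd.ne'
    have hr' := hr.ne'
    have hc' := hc.ne'
    field_simp
    linarith
  · intro hX0
    rw [qq, Real.arcsin_nonneg]
    refine div_nonneg ?_ hcd.le
    have h3 : 0 ≤ h * d * sin p := by
      rw [hX]
      exact mul_nonneg hX0 hc.le
    exact nonneg_of_mul_nonneg_right h3 (mul_pos hh hd)

theorem tan_sign {p : ℝ} (h2 : p < π / 2) (h3 : tan p < 0) : p < 0 := by
  by_contra hcon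
  push Not at hcon
  have := Real.tan_nonneg_of_nonneg_of_le_pi_div_two hcon h2.le
  linarith

/-- At most one of the offsets at a corner is negative. -/
theorem off_sign (hn : ∀ i, ‖n i‖ = 1) (hh : ∀ i, 0 < h i) {i j k : ι} {v : E3}
    (hdet : 0 < det3 (n i) (n j) (n k)) (v1 : ⟪n i, v⟫ = h i) (v2 : ⟪n j, v⟫ = h j)
    (v3 : ⟪n k, v⟫ = h k) (fj : h i * ⟪n i, n j⟫ < h j) (fk : h i * ⟪n i, n k⟫ < h k) :
    (off n i j v < 0 → 0 < off n k i v) ∧ (off n k i v < 0 → 0 < off n i j v) := by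
  obtain ⟨-, -, a0, a1, dj, dk, t1, t2, -, -⟩ := corner_loc hn hh hdet v1 v2 v3 fj fk
  have hs := (pp_spec dj dk a0 a1).1
  have b1 := pp_bd (ad n h i j) (ad n h i k) (Ang n i j k)
  have b2 := pp_bd (ad n h i k) (ad n h i j) (Ang n i j k)
  set p := pp (ad n h i j) (ad n h i k) (Ang n i j k)
  set p' := pp (ad n h i k) (ad n h i j) (Ang n i j k)
  have hhi := hh i
  constructor
  · intro h0
    rw [← t1] at h0
    have h3 : tan p < 0 := by
      by_contra hcon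
      push Not at hcon
      have := mul_nonneg hhi.le (mul_nonneg dj.le hcon)
      linarith
    have h4 := tan_sign b1.2 h3
    rw [← t2]
    exact mul_pos hhi (mul_pos dk (Real.tan_pos_of_pos_of_lt_pi_div_two (by linarith) b2.2))
  · intro h0
    rw [← t2] at h0
    have h3 : tan p' < 0 := by
      by_contra hcon
      push Not at hcon
      have := mul_nonneg hhi.le (mul_nonneg dk.le hcon)
      linarith
    have h4 := tan_sign b2.2 h3
    rw [← t1]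
    exact mul_pos hhi (mul_pos dj (Real.tan_pos_of_pos_of_lt_pi_div_two (by linarith) b1.2))

theorem foot_aux {x a b r : ℝ} (hr : 0 < r) (h0 : b * x < a) : x * (b / r) < a / r := by
  rw [mul_div_assoc', div_lt_div_iff_of_pos_right hr, mul_comm]
  exact h0

theorem len_aux {h d X r : ℝ} (hh : 0 < h) (hd : 0 < d) (h0 : r ^ 2 = h ^ 2 * (1 + d ^ 2) + X ^ 2) :
    h ^ 2 < r ^ 2 ∧ X ^ 2 < r ^ 2 := by
  have h1 : 0 < h ^ 2 * d ^ 2 := by positivity
  have h2 : 0 < h ^ 2 := by positivity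
  constructor
  · nlinarith [sq_nonneg X]
  · nlinarith

theorem frac_aux {x r : ℝ} (hr : 0 < r) (h0 : x ^ 2 < r ^ 2) : 0 < 1 - (x / r) ^ 2 := by
  rw [div_pow, sub_pos, div_lt_one (by positivity)]
  exact h0

theorem six_low {x1 x2 x3 y1 y2 y3 y4 y5 y6 : ℝ} (o1 : x1 < 0 → 0 < x3) (o2 : x1 < 0 → 0 < x2)
    (o3 : x2 < 0 → 0 < x1) (o4 : x2 < 0 → 0 < x3)
    (p1 : 0 ≤ x1 → 0 ≤ y1) (p2 : 0 ≤ x3 → 0 ≤ y2) (p3 : 0 ≤ x2 → 0 ≤ y3)
    (p4 : 0 ≤ x1 → 0 ≤ y4) (p5 : 0 ≤ x3 → 0 ≤ y5) (p6 : 0 ≤ x2 → 0 ≤ y6)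
    (l1 : -(π / 2) < y1) (l2 : -(π / 2) < y2) (l3 : -(π / 2) < y3) (l4 : -(π / 2) < y4)
    (l5 : -(π / 2) < y5) (l6 : -(π / 2) < y6) :
    -π < y1 + y2 + y3 + y4 + y5 + y6 := by
  by_cases c1 : x1 < 0
  · have a1 := (o1 c1).le
    have a2 := (o2 c1).le
    have b1 := p2 a1
    have b2 := p3 a2
    have b3 := p5 a1
    have b4 := p6 a2
    linarith
  · by_cases c2 : x2 < 0
    · have a1 := (o3 c2).le
      have a2 := (o4 c2).le
      have b1 := p1 a1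
      have b2 := p2 a2
      have b3 := p4 a1
      have b4 := p5 a2
      linarith
    · push Not at c1 c2
      have b1 := p1 c1
      have b2 := p4 c1
      have b3 := p3 c2
      have b4 := p6 c2
      linarith

theorem six_end {S : ℝ} {m : ℤ} (h1 : -π < S) (h2 : S < 3 * π) (hm : (0 : ℝ) - (3 * π - S) =
    2 * π * m) : S = π := by
  have hpi := Real.pi_pos
  have hm1 : S = 3 * π + 2 * π * m := by linarith
  have hm2 : (-2 : ℝ) < m := by
    by_contra hcon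
    push Not at hcon
    nlinarith
  have hm3 : (m : ℝ) < 0 := by
    by_contra hcon
    push Not at hcon
    nlinarith
  have hm4 : m = -1 := by
    have h1 : (-2 : ℤ) < m := by exact_mod_cast hm2
    have h2 : m < (0 : ℤ) := by exact_mod_cast hm3
    omega
  rw [hm4] at hm1
  push_cast at hm1
  linarith

/-- The six angles `q` at a vertex. -/
theorem q_sum (hn : ∀ i, ‖n i‖ = 1) (hh : ∀ i, 0 < h i) {i j k : ι} {v : E3}
    (hdet : 0 < det3 (n i) (n j) (n k)) (v1 : ⟪n i, v⟫ = h i) (v2 : ⟪n j, v⟫ = h j)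
    (v3 : ⟪n k, v⟫ = h k) (fij : h i * ⟪n i, n j⟫ < h j) (fik : h i * ⟪n i, n k⟫ < h k)
    (fji : h j * ⟪n j, n i⟫ < h i) (fjk : h j * ⟪n j, n k⟫ < h k)
    (fki : h k * ⟪n k, n i⟫ < h i) (fkj : h k * ⟪n k, n j⟫ < h j) :
    (qq (ad n h i j) (pp (ad n h i j) (ad n h i k) (Ang n i j k)) +
      qq (ad n h i k) (pp (ad n h i k) (ad n h i j) (Ang n i j k))) +
    (qq (ad n h j k) (pp (ad n h j k) (ad n h j i) (Ang n j k i)) +
      qq (ad n h j i) (pp (ad n h j i) (ad n h j k) (Ang n j k i))) +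
    (qq (ad n h k i) (pp (ad n h k i) (ad n h k j) (Ang n k i j)) +
      qq (ad n h k j) (pp (ad n h k j) (ad n h k i) (Ang n k i j))) = π := by
  have hdet2 : 0 < det3 (n j) (n k) (n i) := by rw [det3_rot]; exact hdet
  have hdet3 : 0 < det3 (n k) (n i) (n j) := by rw [det3_rot]; exact hdet2
  obtain ⟨sij, sik, -, -, dij, dik, tij, tik, r1, r2⟩ :=
    corner_loc hn hh hdet v1 v2 v3 fij fik
  obtain ⟨sjk, sji, -, -, djk, dji, tjk, tji, r3, r4⟩ :=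
    corner_loc hn hh hdet2 v2 v3 v1 fjk fji
  obtain ⟨ski, skj, -, -, dki, dkj, tki, tkj, r5, r6⟩ :=
    corner_loc hn hh hdet3 v3 v1 v2 fki fkj
  have hhi := hh i
  have hhj := hh j
  have hhk := hh k
  have hv : v ≠ 0 := by
    intro h0
    rw [h0, inner_zero_right] at v1
    linarith
  have hr : 0 < ‖v‖ := norm_pos_iff.mpr hv
  -- the six angles
  have q1 := q_facts hhi dij hr (pp_cos_pos _ _ _) tij r1
  have q2 := q_facts hhi dik hr (pp_cos_pos _ _ _) tik r2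
  have q3 := q_facts hhj djk hr (pp_cos_pos _ _ _) tjk r3
  have q4 := q_facts hhj dji hr (pp_cos_pos _ _ _) tji r4
  have q5 := q_facts hhk dki hr (pp_cos_pos _ _ _) tki r5
  have q6 := q_facts hhk dkj hr (pp_cos_pos _ _ _) tkj r6
  -- the direction of the vertex
  set u : E3 := (‖v‖)⁻¹ • v with hu
  have hun : ‖u‖ = 1 := by
    rw [hu, norm_smul, norm_inv, norm_norm, inv_mul_cancel₀ hr.ne']
  obtain ⟨E, F, ho, hd⟩ := exists_frame u hun
  have hl : ∀ l, ⟪n l, v⟫ = h l → ⟪u, n l⟫ = h l / ‖v‖ := by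
    intro l h0
    rw [hu, real_inner_smul_left, real_inner_comm, h0]
    field_simp
  have li := hl i v1
  have lj := hl j v2
  have lk := hl k v3
  have w14 := len_aux hhi dij r1
  have w25 := len_aux hhj djk r3
  have w36 := len_aux hhk dki r5
  have pi' : 0 < 1 - ⟪u, n i⟫ ^ 2 := by rw [li]; exact frac_aux hr w14.1
  have pj' : 0 < 1 - ⟪u, n j⟫ ^ 2 := by rw [lj]; exact frac_aux hr w25.1
  have pk' : 0 < 1 - ⟪u, n k⟫ ^ 2 := by rw [lk]; exact frac_aux hr w36.1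
  have hpol : ∀ l, 0 < 1 - ⟪u, n l⟫ ^ 2 → ∃ φ, ⟪E, n l⟫ = √(1 - ⟪u, n l⟫ ^ 2) * cos φ ∧
      ⟪F, n l⟫ = √(1 - ⟪u, n l⟫ ^ 2) * sin φ := by
    intro l h0
    have h1 : ⟪E, n l⟫ ^ 2 + ⟪F, n l⟫ ^ 2 = 1 - ⟪u, n l⟫ ^ 2 := by
      have h2 := ((p_CRD u E F ho).2 (n l)).1
      rw [hn l] at h2
      linarith
    obtain ⟨φ, -, -, h3, h4⟩ := exists_polar 0 ⟪E, n l⟫ ⟪F, n l⟫ (by rw [h1]; exact h0)
    rw [h1] at h3 h4
    exact ⟨φ, h3, h4⟩
  obtain ⟨φi, ei, fi⟩ := hpol i pi'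
  obtain ⟨φj, ej, fj⟩ := hpol j pj'
  obtain ⟨φk, ek, fk⟩ := hpol k pk'
  have hξ : ∀ a b, off n a b v / ‖v‖ = det3 (n a) (n b) u / √(1 - ⟪n a, n b⟫ ^ 2) := by
    intro a b
    have h0 : det3 (n a) (n b) u = (‖v‖)⁻¹ * det3 (n a) (n b) v := by
      rw [hu]
      simp only [det3, PiLp.smul_apply, smul_eq_mul]
      ring
    rw [h0, off]
    ring
  have xij := frac_aux hr w14.2
  have xjk := frac_aux hr w25.2
  have xki := frac_aux hr w36.2
  have hfoot : ∀ a b, ⟪u, n a⟫ = h a / ‖v‖ → ⟪u, n b⟫ = h b / ‖v‖ →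
      h a * ⟪n a, n b⟫ < h b → ⟪n a, n b⟫ * ⟪u, n a⟫ < ⟪u, n b⟫ := by
    intro a b h0 h1 h2
    rw [h0, h1]
    exact foot_aux hr h2
  have hfoot' : ∀ a b, ⟪u, n a⟫ = h a / ‖v‖ → ⟪u, n b⟫ = h b / ‖v‖ →
      h b * ⟪n b, n a⟫ < h a → ⟪n a, n b⟫ * ⟪u, n b⟫ < ⟪u, n a⟫ := by
    intro a b h0 h1 h2
    rw [real_inner_comm] at h2
    rw [h0, h1]
    exact foot_aux hr h2
  have s1 := edge_step ho hd (hn i) (hn j) sij pi' pj' ei fi ej fj (hfoot i j li lj fij)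
    (hfoot' i j li lj fji) (hξ i j) xij q1.1 q1.2.1 q4.1 q4.2.1
    (by rw [q1.2.2.1, li]) (by rw [q4.2.2.1, lj])
  have s2 := edge_step ho hd (hn j) (hn k) sjk pj' pk' ej fj ek fk (hfoot j k lj lk fjk)
    (hfoot' j k lj lk fkj) (hξ j k) xjk q3.1 q3.2.1 q6.1 q6.2.1
    (by rw [q3.2.2.1, lj]) (by rw [q6.2.2.1, lk])
  have s3 := edge_step ho hd (hn k) (hn i) ski pk' pi' ek fk ei fi (hfoot k i lk li fki)
    (hfoot' k i lk li fik) (hξ k i) xki q5.1 q5.2.1 q2.1 q2.2.1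
    (by rw [q5.2.2.1, lk]) (by rw [q2.2.2.1, li])
  -- signs
  have o1 := off_sign hn hh hdet v1 v2 v3 fij fik
  have o2 := off_sign hn hh hdet2 v2 v3 v1 fjk fji
  have o3 := off_sign hn hh hdet3 v3 v1 v2 fki fkj
  have hlow := six_low o1.1 o2.2 o2.1 o3.2 q1.2.2.2 q2.2.2.2 q3.2.2.2 q4.2.2.2 q5.2.2.2
    q6.2.2.2 q1.1 q2.1 q3.1 q4.1 q5.1 q6.1
  have g1 := q1.2.1
  have g2 := q2.2.1
  have g3 := q3.2.1
  have g4 := q4.2.1
  have g5 := q5.2.1
  have g6 := q6.2.1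
  clear q1 q2 q3 q4 q5 q6 o1 o2 o3 tij tik tjk tji tki tkj
  generalize qq (ad n h i j) (pp (ad n h i j) (ad n h i k) (Ang n i j k)) = y1 at *
  generalize qq (ad n h i k) (pp (ad n h i k) (ad n h i j) (Ang n i j k)) = y2 at *
  generalize qq (ad n h j k) (pp (ad n h j k) (ad n h j i) (Ang n j k i)) = y3 at *
  generalize qq (ad n h j i) (pp (ad n h j i) (ad n h j k) (Ang n j k i)) = y4 at *
  generalize qq (ad n h k i) (pp (ad n h k i) (ad n h k j) (Ang n k i j)) = y5 at *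
  generalize qq (ad n h k j) (pp (ad n h k j) (ad n h k i) (Ang n k i j)) = y6 at *
  have htot : ((0 : ℝ) : Real.Angle) = ((3 * π - (y1 + y2 + y3 + y4 + y5 + y6) : ℝ) :
      Real.Angle) := by
    have h0 : (0 : ℝ) = (φj - φi) + (φk - φj) + (φi - φk) := by ring
    rw [h0, Real.Angle.coe_add, Real.Angle.coe_add, s1, s2, s3, ← Real.Angle.coe_add,
      ← Real.Angle.coe_add]
    congr 1
    ring
  clear s1 s2 s3
  rw [Real.Angle.angle_eq_iff_two_pi_dvd_sub] at htot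
  obtain ⟨m, hm⟩ := htot
  have hup : y1 + y2 + y3 + y4 + y5 + y6 < 3 * π := by
    clear hm hlow
    linarith only [g1, g2, g3, g4, g5, g6]
  have hfin := six_end hlow hup hm
  linarith only [hfin]

/-- Girard: the solid angle of the three corners of a vertex. -/
theorem sol_vertex (hn : ∀ i, ‖n i‖ = 1) (hh : ∀ i, 0 < h i) (hft : Feet n h) {i j k : ι}
    (H : Vx n h i j k) : hSol n h i j k + hSol n h j k i + hSol n h k i j =
      Ang n i j k + Ang n j k i + Ang n k i j - π := by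
  have n1 := H.ne1
  have n2 := H.ne2
  have n3 := H.ne3
  obtain ⟨hdet, v, -, v1, v2, v3⟩ := H
  have h0 := q_sum hn hh hdet v1 v2 v3 (hft i j n1.symm) (hft i k n3) (hft j i n1)
    (hft j k n2.symm) (hft k i n3.symm) (hft k j n2)
  rw [hSol, hSol, hSol]
  linarith

theorem Good.sol_tri [Fintype ι] (G : Good n h) (hft : Feet n h) {i j : ι}
    (hj : j ∈ nb n h i) :
    hSol n h i j (nx n h i j) + hSol n h j (nx n h i j) i + hSol n h (nx n h i j) i j =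
      Ang n i j (nx n h i j) + Ang n j (nx n h i j) i + Ang n (nx n h i j) i j - π :=
  sol_vertex G.nn G.hh hft (G.vx (mem_nb.mp hj))

/-- A vector, its products with `a`, `b` and their vector product. -/
theorem inner_w (a b l x : E3) : ⟪l, x⟫ * ‖cr a b‖ ^ 2 =
    ⟪l, cr a b⟫ * ⟪x, cr a b⟫ + ⟪a, x⟫ * ⟪l, cr b (cr a b)⟫ + ⟪b, x⟫ * ⟪l, cr (cr a b) a⟫ := by
  rw [← real_inner_self_eq_norm_sq]
  simp only [inner3, cr0, cr1, cr2]
  ring

/-- The length of an edge: `v` is its end in the direction of `n i × n j`, `v'` the other end. -/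
theorem off_add (hn : ∀ i, ‖n i‖ = 1) {i j l : ι} {v v' : E3}
    (hdet : 0 < det3 (n i) (n j) (n l)) (v1 : ⟪n i, v⟫ = h i) (v2 : ⟪n j, v⟫ = h j)
    (v3 : ⟪n l, v⟫ = h l) (u1 : ⟪n i, v'⟫ = h i) (u2 : ⟪n j, v'⟫ = h j)
    (u3 : ⟪n l, v'⟫ ≤ h l) : 0 ≤ off n i j v + off n j i v' := by
  have h1 := inner_w (n i) (n j) (n l) (v - v')
  have h2 : ⟪n i, v - v'⟫ = 0 := by rw [inner_sub_right, v1, u1, sub_self]
  have h3 : ⟪n j, v - v'⟫ = 0 := by rw [inner_sub_right, v2, u2, sub_self]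
  have h4 : 0 ≤ ⟪n l, v - v'⟫ := by rw [inner_sub_right, v3]; linarith
  have h6 : ⟪n l, cr (n i) (n j)⟫ = det3 (n i) (n j) (n l) := inner_cr _ _ _
  have h5 : 0 ≤ ⟪v - v', cr (n i) (n j)⟫ := by
    by_contra hcon
    push Not at hcon
    rw [h2, h3, h6] at h1
    have h7 := mul_neg_of_pos_of_neg hdet hcon
    have h8 := mul_nonneg h4 (sq_nonneg ‖cr (n i) (n j)‖)
    linarith
  rw [inner_sub_left, inner_cr, inner_cr] at h5
  have c1 : ⟪n j, n i⟫ = ⟪n i, n j⟫ := real_inner_comm _ _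
  have h9 : off n i j v + off n j i v' =
      (det3 (n i) (n j) v - det3 (n i) (n j) v') / √(1 - ⟪n i, n j⟫ ^ 2) := by
    rw [off, off, c1, det3_swap (n i) (n j) v']
    ring
  rw [h9]
  exact div_nonneg h5 (Real.sqrt_nonneg _)

/-- The vertex of a dart. -/
noncomputable def vtx (n : ι → E3) (h : ι → ℝ) (i j k : ι) : E3 :=
  (det3 (n i) (n j) (n k))⁻¹ •
    (h i • cr (n j) (n k) + h j • cr (n k) (n i) + h k • cr (n i) (n j))

theorem vtx_spec {i j k : ι} (hdet : 0 < det3 (n i) (n j) (n k)) :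
    ⟪n i, vtx n h i j k⟫ = h i ∧ ⟪n j, vtx n h i j k⟫ = h j ∧ ⟪n k, vtx n h i j k⟫ = h k := by
  have hd := hdet.ne'
  have a1 : det3 (n j) (n k) (n i) = det3 (n i) (n j) (n k) := det3_rot _ _ _
  have a2 : det3 (n k) (n i) (n j) = det3 (n i) (n j) (n k) := by rw [det3_rot, det3_rot]
  refine ⟨?_, ?_, ?_⟩
  · rw [vtx, real_inner_smul_right, inner_add_right, inner_add_right, real_inner_smul_right,
      real_inner_smul_right, real_inner_smul_right, inner_cr, inner_cr, inner_cr, det3_self3,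
      det3_self2, a1]
    field_simp
    ring
  · rw [vtx, real_inner_smul_right, inner_add_right, inner_add_right, real_inner_smul_right,
      real_inner_smul_right, real_inner_smul_right, inner_cr, inner_cr, inner_cr, det3_self2,
      det3_self3, a2]
    field_simp
    ring
  · rw [vtx, real_inner_smul_right, inner_add_right, inner_add_right, real_inner_smul_right,
      real_inner_smul_right, real_inner_smul_right, inner_cr, inner_cr, inner_cr, det3_self3,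
      det3_self2]
    field_simp
    ring

theorem vtx_rot (i j k : ι) : vtx n h j k i = vtx n h i j k := by
  rw [vtx, vtx, det3_rot]
  congr 1
  abel

theorem vtx_uniq {i j k : ι} (hdet : 0 < det3 (n i) (n j) (n k)) {v : E3}
    (v1 : ⟪n i, v⟫ = h i) (v2 : ⟪n j, v⟫ = h j) (v3 : ⟪n k, v⟫ = h k) :
    v = vtx n h i j k := by
  obtain ⟨u1, u2, u3⟩ := vtx_spec (h := h) hdet
  exact Vx.pt_uniq hdet.ne' v1 v2 v3 u1 u2 u3

end poly

end Pool.Agent.SDL
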