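import Mathlib

set_option autoImplicit false

/-!
# Leg: positivity of the Legendre kernels on the unit sphere of `ℝ^3` (degrees `0` to `12`)

For every finite family of unit vectors `n_i` and all reals `c_i`,
`0 ≤ ∑ i, ∑ j, c_i * c_j * P_k ⟪n_i, n_j⟫`.  The proof uses the addition theorem for each degree.
-/

open scoped RealInnerProductSpace

namespace Pool.Agent.SDL.Leg

/-- `T a s m` is the real part of `w ^ m` for a complex number `w` with real part `a` and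
squared modulus `s`. -/
noncomputable def T (a s : ℝ) : ℕ → ℝ
  | 0 => 1
  | 1 => a
  | (m + 2) => 2 * a * T a s (m + 1) - s * T a s m

theorem T_re (v : ℂ) (m : ℕ) : T v.re (Complex.normSq v) m = (v ^ m).re := by
  induction m using Nat.twoStepInduction with
  | zero => simp [T]
  | one => simp [T]
  | more m h1 h2 =>
    have hv : v ^ 2 = 2 * v.re * v - (Complex.normSq v : ℂ) := by
      apply Complex.ext <;> simp [pow_two, Complex.normSq_apply] <;> ring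
    have : v ^ (m + 2) = (2 * v.re : ℝ) * v ^ (m + 1) - (Complex.normSq v : ℝ) * v ^ m := by
      rw [pow_add, hv, pow_succ]; push_cast; ring
    rw [T, h1, h2, this, Complex.sub_re, Complex.re_ofReal_mul, Complex.re_ofReal_mul]

theorem T_prod (x y x' y' : ℝ) (m : ℕ) :
    T (x * x' + y * y') ((x ^ 2 + y ^ 2) * (x' ^ 2 + y' ^ 2)) m =
      ((⟨x, y⟩ : ℂ) ^ m).re * ((⟨x', y'⟩ : ℂ) ^ m).re +
        ((⟨x, y⟩ : ℂ) ^ m).im * ((⟨x', y'⟩ : ℂ) ^ m).im := by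
  set v : ℂ := (⟨x, y⟩ : ℂ) * (starRingEnd ℂ) (⟨x', y'⟩ : ℂ) with hv
  have h1 : v.re = x * x' + y * y' := by simp [hv]
  have h2 : Complex.normSq v = (x ^ 2 + y ^ 2) * (x' ^ 2 + y' ^ 2) := by
    rw [hv, Complex.normSq_mul, Complex.normSq_conj, Complex.normSq_mk, Complex.normSq_mk]; ring
  rw [← h1, ← h2, T_re, hv, mul_pow, ← map_pow, Complex.mul_re, Complex.conj_re, Complex.conj_im]
  ring

/-- Positive kernels on the unit sphere of `ℝ^3`. -/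
def PSDk (P : ℝ → ℝ) : Prop :=
  ∀ (ι : Type) (_ : Fintype ι) (n : ι → EuclideanSpace ℝ (Fin 3)) (c : ι → ℝ),
    (∀ i, ‖n i‖ = 1) → 0 ≤ ∑ i, ∑ j, c i * c j * P ⟪n i, n j⟫

theorem psd_of_add {P : ℝ → ℝ} {N : ℕ} (cf : Fin N → ℝ) (Q : Fin N → ℝ → ℝ)
    (hc : ∀ m, 0 ≤ cf m)
    (h : ∀ z z' a : ℝ, P (z * z' + a) =
      ∑ m : Fin N, cf m * Q m z * Q m z' * T a ((1 - z ^ 2) * (1 - z' ^ 2)) m) : PSDk P := by
  intro ι _ n c hn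
  set w : ι → ℂ := fun i => ⟨n i 0, n i 1⟩ with hw
  set z : ι → ℝ := fun i => n i 2 with hz
  have h1 : ∀ i, (n i 0) ^ 2 + (n i 1) ^ 2 = 1 - (z i) ^ 2 := by
    intro i
    have := EuclideanSpace.norm_sq_eq (n i)
    rw [hn i] at this
    simp only [Fin.sum_univ_three, Real.norm_eq_abs, sq_abs] at this
    rw [hz]; linarith
  have key : ∀ i j, P ⟪n i, n j⟫ = ∑ m : Fin N, cf m * ((Q m (z i) * (w i ^ (m : ℕ)).re) *
      (Q m (z j) * (w j ^ (m : ℕ)).re) + (Q m (z i) * (w i ^ (m : ℕ)).im) *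
      (Q m (z j) * (w j ^ (m : ℕ)).im)) := by
    intro i j
    have e : ⟪n i, n j⟫ = z i * z j + (n i 0 * n j 0 + n i 1 * n j 1) := by
      simp only [PiLp.inner_apply, Fin.sum_univ_three, RCLike.inner_apply, conj_trivial, hz]
      ring
    rw [e, h]
    refine Finset.sum_congr rfl fun m _ => ?_
    rw [← h1 i, ← h1 j, T_prod]
    ring
  have : ∑ i, ∑ j, c i * c j * P ⟪n i, n j⟫ =
      ∑ m : Fin N, cf m * ((∑ i, c i * (Q m (z i) * (w i ^ (m : ℕ)).re)) ^ 2 +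
        (∑ i, c i * (Q m (z i) * (w i ^ (m : ℕ)).im)) ^ 2) := by
    have e1 : ∀ m : Fin N, cf m * ((∑ i, c i * (Q m (z i) * (w i ^ (m : ℕ)).re)) ^ 2 +
        (∑ i, c i * (Q m (z i) * (w i ^ (m : ℕ)).im)) ^ 2) =
        ∑ i, ∑ j, c i * c j * (cf m * ((Q m (z i) * (w i ^ (m : ℕ)).re) *
      (Q m (z j) * (w j ^ (m : ℕ)).re) + (Q m (z i) * (w i ^ (m : ℕ)).im) *
      (Q m (z j) * (w j ^ (m : ℕ)).im))) := by
      intro m
      rw [pow_two, pow_two, Finset.sum_mul_sum, Finset.sum_mul_sum, ← Finset.sum_add_distrib,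
        Finset.mul_sum]
      refine Finset.sum_congr rfl fun i _ => ?_
      rw [← Finset.sum_add_distrib, Finset.mul_sum]
      refine Finset.sum_congr rfl fun j _ => ?_
      ring
    simp_rw [e1, key, Finset.mul_sum]
    rw [Finset.sum_comm (s := (Finset.univ : Finset (Fin N)))]
    refine Finset.sum_congr rfl fun i _ => ?_
    rw [Finset.sum_comm (s := (Finset.univ : Finset (Fin N)))]
  rw [this]
  exact Finset.sum_nonneg fun m _ => mul_nonneg (hc m) (by positivity)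

/-- Legendre polynomial of degree 0. -/
noncomputable def L0 (z : ℝ) : ℝ := (1 : ℝ)

/-- Legendre polynomial of degree 1. -/
noncomputable def L1 (z : ℝ) : ℝ := (1 : ℝ)*z

/-- Legendre polynomial of degree 2. -/
noncomputable def L2 (z : ℝ) : ℝ := (3/2 : ℝ)*z^2 + (-1/2 : ℝ)

/-- Legendre polynomial of degree 3. -/
noncomputable def L3 (z : ℝ) : ℝ := (5/2 : ℝ)*z^3 + (-3/2 : ℝ)*z

/-- Legendre polynomial of degree 4. -/
noncomputable def L4 (z : ℝ) : ℝ := (35/8 : ℝ)*z^4 + (-15/4 : ℝ)*z^2 + (3/8 : ℝ)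

/-- Legendre polynomial of degree 5. -/
noncomputable def L5 (z : ℝ) : ℝ := (63/8 : ℝ)*z^5 + (-35/4 : ℝ)*z^3 + (15/8 : ℝ)*z

/-- Legendre polynomial of degree 6. -/
noncomputable def L6 (z : ℝ) : ℝ := (231/16 : ℝ)*z^6 + (-315/16 : ℝ)*z^4 + (105/16 : ℝ)*z^2 + (-5/16 : ℝ)

/-- Legendre polynomial of degree 7. -/
noncomputable def L7 (z : ℝ) : ℝ := (429/16 : ℝ)*z^7 + (-693/16 : ℝ)*z^5 + (315/16 : ℝ)*z^3 + (-35/16 : ℝ)*z

/-- Legendre polynomial of degree 8. -/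
noncomputable def L8 (z : ℝ) : ℝ := (6435/128 : ℝ)*z^8 + (-3003/32 : ℝ)*z^6 + (3465/64 : ℝ)*z^4 + (-315/32 : ℝ)*z^2 + (35/128 : ℝ)

/-- Legendre polynomial of degree 9. -/
noncomputable def L9 (z : ℝ) : ℝ := (12155/128 : ℝ)*z^9 + (-6435/32 : ℝ)*z^7 + (9009/64 : ℝ)*z^5 + (-1155/32 : ℝ)*z^3 + (315/128 : ℝ)*z

/-- Legendre polynomial of degree 10. -/
noncomputable def L10 (z : ℝ) : ℝ := (46189/256 : ℝ)*z^10 + (-109395/256 : ℝ)*z^8 + (45045/128 : ℝ)*z^6 + (-15015/128 : ℝ)*z^4 + (3465/256 : ℝ)*z^2 + (-63/256 : ℝ)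

/-- Legendre polynomial of degree 11. -/
noncomputable def L11 (z : ℝ) : ℝ := (88179/256 : ℝ)*z^11 + (-230945/256 : ℝ)*z^9 + (109395/128 : ℝ)*z^7 + (-45045/128 : ℝ)*z^5 + (15015/256 : ℝ)*z^3 + (-693/256 : ℝ)*z

/-- Legendre polynomial of degree 12. -/
noncomputable def L12 (z : ℝ) : ℝ := (676039/1024 : ℝ)*z^12 + (-969969/512 : ℝ)*z^10 + (2078505/1024 : ℝ)*z^8 + (-255255/256 : ℝ)*z^6 + (225225/1024 : ℝ)*z^4 + (-9009/512 : ℝ)*z^2 + (231/1024 : ℝ)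

theorem psd_L0 : PSDk L0 :=
  psd_of_add (P := L0) (N := 1) ![(1 : ℝ)]
    (![fun z => (1 : ℝ)])
    (by intro m; fin_cases m <;> simp)
    (by intro z z' a; simp [L0, T])

theorem psd_L1 : PSDk L1 :=
  psd_of_add (P := L1) (N := 2) ![(1 : ℝ), (1 : ℝ)]
    (![fun z => (1 : ℝ)*z, fun z => (1 : ℝ)])
    (by intro m; fin_cases m <;> simp)
    (by intro z z' a; simp [Fin.sum_univ_succ, L1, T])

theorem psd_L2 : PSDk L2 :=
  psd_of_add (P := L2) (N := 3) ![(1 : ℝ), (1/3 : ℝ), (1/12 : ℝ)]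
    (![fun z => (3/2 : ℝ)*z^2 + (-1/2 : ℝ), fun z => (3 : ℝ)*z, fun z => (3 : ℝ)])
    (by intro m; fin_cases m <;> simp)
    (by intro z z' a; simp [Fin.sum_univ_succ, L2, T]; ring)

theorem psd_L3 : PSDk L3 :=
  psd_of_add (P := L3) (N := 4) ![(1 : ℝ), (1/6 : ℝ), (1/60 : ℝ), (1/360 : ℝ)]
    (![fun z => (5/2 : ℝ)*z^3 + (-3/2 : ℝ)*z, fun z => (15/2 : ℝ)*z^2 + (-3/2 : ℝ), fun z => (15 : ℝ)*z, fun z => (15 : ℝ)])
    (by intro m; fin_cases m <;> simp)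
    (by intro z z' a; simp [Fin.sum_univ_succ, L3, T]; ring)

theorem psd_L4 : PSDk L4 :=
  psd_of_add (P := L4) (N := 5) ![(1 : ℝ), (1/10 : ℝ), (1/180 : ℝ), (1/2520 : ℝ), (1/20160 : ℝ)]
    (![fun z => (35/8 : ℝ)*z^4 + (-15/4 : ℝ)*z^2 + (3/8 : ℝ), fun z => (35/2 : ℝ)*z^3 + (-15/2 : ℝ)*z, fun z => (105/2 : ℝ)*z^2 + (-15/2 : ℝ), fun z => (105 : ℝ)*z, fun z => (105 : ℝ)])
    (by intro m; fin_cases m <;> simp)
    (by intro z z' a; simp [Fin.sum_univ_succ, L4, T]; ring)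

theorem psd_L5 : PSDk L5 :=
  psd_of_add (P := L5) (N := 6) ![(1 : ℝ), (1/15 : ℝ), (1/420 : ℝ), (1/10080 : ℝ), (1/181440 : ℝ), (1/1814400 : ℝ)]
    (![fun z => (63/8 : ℝ)*z^5 + (-35/4 : ℝ)*z^3 + (15/8 : ℝ)*z, fun z => (315/8 : ℝ)*z^4 + (-105/4 : ℝ)*z^2 + (15/8 : ℝ), fun z => (315/2 : ℝ)*z^3 + (-105/2 : ℝ)*z, fun z => (945/2 : ℝ)*z^2 + (-105/2 : ℝ), fun z => (945 : ℝ)*z, fun z => (945 : ℝ)])
    (by intro m; fin_cases m <;> simp)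
    (by intro z z' a; simp [Fin.sum_univ_succ, L5, T]; ring)

theorem psd_L6 : PSDk L6 :=
  psd_of_add (P := L6) (N := 7) ![(1 : ℝ), (1/21 : ℝ), (1/840 : ℝ), (1/30240 : ℝ), (1/907200 : ℝ), (1/19958400 : ℝ), (1/239500800 : ℝ)]
    (![fun z => (231/16 : ℝ)*z^6 + (-315/16 : ℝ)*z^4 + (105/16 : ℝ)*z^2 + (-5/16 : ℝ), fun z => (693/8 : ℝ)*z^5 + (-315/4 : ℝ)*z^3 + (105/8 : ℝ)*z, fun z => (3465/8 : ℝ)*z^4 + (-945/4 : ℝ)*z^2 + (105/8 : ℝ), fun z => (3465/2 : ℝ)*z^3 + (-945/2 : ℝ)*z, fun z => (10395/2 : ℝ)*z^2 + (-945/2 : ℝ), fun z => (10395 : ℝ)*z, fun z => (10395 : ℝ)])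
    (by intro m; fin_cases m <;> simp)
    (by intro z z' a; simp [Fin.sum_univ_succ, L6, T]; ring)

theorem psd_L7 : PSDk L7 :=
  psd_of_add (P := L7) (N := 8) ![(1 : ℝ), (1/28 : ℝ), (1/1512 : ℝ), (1/75600 : ℝ), (1/3326400 : ℝ), (1/119750400 : ℝ), (1/3113510400 : ℝ), (1/43589145600 : ℝ)]
    (![fun z => (429/16 : ℝ)*z^7 + (-693/16 : ℝ)*z^5 + (315/16 : ℝ)*z^3 + (-35/16 : ℝ)*z, fun z => (3003/16 : ℝ)*z^6 + (-3465/16 : ℝ)*z^4 + (945/16 : ℝ)*z^2 + (-35/16 : ℝ), fun z => (9009/8 : ℝ)*z^5 + (-3465/4 : ℝ)*z^3 + (945/8 : ℝ)*z, fun z => (45045/8 : ℝ)*z^4 + (-10395/4 : ℝ)*z^2 + (945/8 : ℝ), fun z => (45045/2 : ℝ)*z^3 + (-10395/2 : ℝ)*z, fun z => (135135/2 : ℝ)*z^2 + (-10395/2 : ℝ), fun z => (135135 : ℝ)*z, fun z => (135135 : ℝ)])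
    (by intro m; fin_cases m <;> simp)
    (by intro z z' a; simp [Fin.sum_univ_succ, L7, T]; ring)

theorem psd_L8 : PSDk L8 :=
  psd_of_add (P := L8) (N := 9) ![(1 : ℝ), (1/36 : ℝ), (1/2520 : ℝ), (1/166320 : ℝ), (1/9979200 : ℝ), (1/518918400 : ℝ), (1/21794572800 : ℝ), (1/653837184000 : ℝ), (1/10461394944000 : ℝ)]
    (![fun z => (6435/128 : ℝ)*z^8 + (-3003/32 : ℝ)*z^6 + (3465/64 : ℝ)*z^4 + (-315/32 : ℝ)*z^2 + (35/128 : ℝ), fun z => (6435/16 : ℝ)*z^7 + (-9009/16 : ℝ)*z^5 + (3465/16 : ℝ)*z^3 + (-315/16 : ℝ)*z, fun z => (45045/16 : ℝ)*z^6 + (-45045/16 : ℝ)*z^4 + (10395/16 : ℝ)*z^2 + (-315/16 : ℝ), fun z => (135135/8 : ℝ)*z^5 + (-45045/4 : ℝ)*z^3 + (10395/8 : ℝ)*z, fun z => (675675/8 : ℝ)*z^4 + (-135135/4 : ℝ)*z^2 + (10395/8 : ℝ), fun z => (675675/2 : ℝ)*z^3 + (-135135/2 : ℝ)*z, fun z => (2027025/2 : ℝ)*z^2 + (-135135/2 : ℝ), fun z => (2027025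 : ℝ)*z, fun z => (2027025 : ℝ)])
    (by intro m; fin_cases m <;> simp)
    (by intro z z' a; simp [Fin.sum_univ_succ, L8, T]; ring)

theorem psd_L9 : PSDk L9 :=
  psd_of_add (P := L9) (N := 10) ![(1 : ℝ), (1/45 : ℝ), (1/3960 : ℝ), (1/332640 : ℝ), (1/25945920 : ℝ), (1/1816214400 : ℝ), (1/108972864000 : ℝ), (1/5230697472000 : ℝ), (1/177843714048000 : ℝ), (1/3201186852864000 : ℝ)]
    (![fun z => (12155/128 : ℝ)*z^9 + (-6435/32 : ℝ)*z^7 + (9009/64 : ℝ)*z^5 + (-1155/32 : ℝ)*z^3 + (315/128 : ℝ)*z, fun z => (109395/128 : ℝ)*z^8 + (-45045/32 : ℝ)*z^6 + (45045/64 : ℝ)*z^4 + (-3465/32 : ℝ)*z^2 + (315/128 : ℝ), fun z => (109395/16 : ℝ)*z^7 + (-135135/16 : ℝ)*z^5 + (45045/16 : ℝ)*z^3 + (-3465/16 : ℝ)*z, fun z => (765765/16 : ℝ)*z^6 + (-675675/16 : ℝ)*z^4 + (135135/16 : ℝ)*z^2 + (-3465/16 : ℝ), fun z => (2297295/8 : ℝ)*z^5 + (-675675/4 : ℝ)*z^3 + (135135/8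 : ℝ)*z, fun z => (11486475/8 : ℝ)*z^4 + (-2027025/4 : ℝ)*z^2 + (135135/8 : ℝ), fun z => (11486475/2 : ℝ)*z^3 + (-2027025/2 : ℝ)*z, fun z => (34459425/2 : ℝ)*z^2 + (-2027025/2 : ℝ), fun z => (34459425 : ℝ)*z, fun z => (34459425 : ℝ)])
    (by intro m; fin_cases m <;> simp)
    (by intro z z' a; simp [Fin.sum_univ_succ, L9, T]; ring)

theorem psd_L10 : PSDk L10 :=
  psd_of_add (P := L10) (N := 11) ![(1 : ℝ), (1/55 : ℝ), (1/5940 : ℝ), (1/617760 : ℝ), (1/60540480 : ℝ), (1/5448643200 : ℝ), (1/435891456000 : ℝ), (1/29640619008000 : ℝ), (1/1600593426432000 : ℝ), (1/60822550204416000 : ℝ), (1/1216451004088320000 : ℝ)]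
    (![fun z => (46189/256 : ℝ)*z^10 + (-109395/256 : ℝ)*z^8 + (45045/128 : ℝ)*z^6 + (-15015/128 : ℝ)*z^4 + (3465/256 : ℝ)*z^2 + (-63/256 : ℝ), fun z => (230945/128 : ℝ)*z^9 + (-109395/32 : ℝ)*z^7 + (135135/64 : ℝ)*z^5 + (-15015/32 : ℝ)*z^3 + (3465/128 : ℝ)*z, fun z => (2078505/128 : ℝ)*z^8 + (-765765/32 : ℝ)*z^6 + (675675/64 : ℝ)*z^4 + (-45045/32 : ℝ)*z^2 + (3465/128 : ℝ), fun z => (2078505/16 : ℝ)*z^7 + (-2297295/16 : ℝ)*z^5 + (675675/16 : ℝ)*z^3 + (-45045/16 : ℝ)*z, fun z => (14549535/16 : ℝ)*z^6 + (-11486475/16 : ℝ)*z^4 + (2027025/16 : ℝ)*z^2 + (-45045/16 : ℝ), fun z => (43648605/8 : ℝ)*z^5 + (-11486475/4 : ℝ)*z^3 + (2027025/8 : ℝ)*z, fun z => (218243025/8 : ℝ)*z^4 + (-34459425/4 : ℝ)*z^2 + (2027025/8 : ℝ), fun z => (218243025/2 : ℝ)*z^3 + (-34459425/2 : ℝ)*z, fun z => (654729075/2 : ℝ)*z^2 + (-34459425/2 : ℝ), fun z => (654729075 : ℝ)*z,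 fun z => (654729075 : ℝ)])
    (by intro m; fin_cases m <;> simp)
    (by intro z z' a; simp [Fin.sum_univ_succ, L10, T]; ring)

theorem psd_L11 : PSDk L11 :=
  psd_of_add (P := L11) (N := 12) ![(1 : ℝ), (1/66 : ℝ), (1/8580 : ℝ), (1/1081080 : ℝ), (1/129729600 : ℝ), (1/14529715200 : ℝ), (1/1482030950400 : ℝ), (1/133382785536000 : ℝ), (1/10137091700736000 : ℝ), (1/608225502044160000 : ℝ), (1/25545471085854720000 : ℝ), (1/562000363888803840000 : ℝ)]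
    (![fun z => (88179/256 : ℝ)*z^11 + (-230945/256 : ℝ)*z^9 + (109395/128 : ℝ)*z^7 + (-45045/128 : ℝ)*z^5 + (15015/256 : ℝ)*z^3 + (-693/256 : ℝ)*z, fun z => (969969/256 : ℝ)*z^10 + (-2078505/256 : ℝ)*z^8 + (765765/128 : ℝ)*z^6 + (-225225/128 : ℝ)*z^4 + (45045/256 : ℝ)*z^2 + (-693/256 : ℝ), fun z => (4849845/128 : ℝ)*z^9 + (-2078505/32 : ℝ)*z^7 + (2297295/64 : ℝ)*z^5 + (-225225/32 : ℝ)*z^3 + (45045/128 : ℝ)*z, fun z => (43648605/128 : ℝ)*z^8 + (-14549535/32 : ℝ)*z^6 + (11486475/64 : ℝ)*z^4 + (-675675/32 : ℝ)*z^2 + (45045/128 : ℝ), fun z => (43648605/16 : ℝ)*z^7 + (-43648605/16 : ℝ)*z^5 + (11486475/16 : ℝ)*z^3 + (-675675/16 : ℝ)*z, fun z => (305540235/16 : ℝ)*z^6 + (-218243025/16 : ℝ)*z^4 + (34459425/16 : ℝ)*z^2 + (-675675/16 : ℝ), fun z => (916620705/8 : ℝ)*z^5 + (-218243025/4 : ℝ)*z^3 + (34459425/8 : ℝ)*z, fun z => (4583103525/8 : ℝ)*z^4 +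 (-654729075/4 : ℝ)*z^2 + (34459425/8 : ℝ), fun z => (4583103525/2 : ℝ)*z^3 + (-654729075/2 : ℝ)*z, fun z => (13749310575/2 : ℝ)*z^2 + (-654729075/2 : ℝ), fun z => (13749310575 : ℝ)*z, fun z => (13749310575 : ℝ)])
    (by intro m; fin_cases m <;> simp)
    (by intro z z' a; simp [Fin.sum_univ_succ, L11, T]; ring)

theorem psd_L12 : PSDk L12 :=
  psd_of_add (P := L12) (N := 13) ![(1 : ℝ), (1/78 : ℝ), (1/12012 : ℝ), (1/1801800 : ℝ), (1/259459200 : ℝ), (1/35286451200 : ℝ), (1/4446092851200 : ℝ), (1/506854585036800 : ℝ), (1/50685458503680000 : ℝ), (1/4257578514309120000 : ℝ), (1/281000181944401920000 : ℝ), (1/12926008369442488320000 : ℝ), (1/310224200866619719680000 : ℝ)]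
    (![fun z => (676039/1024 : ℝ)*z^12 + (-969969/512 : ℝ)*z^10 + (2078505/1024 : ℝ)*z^8 + (-255255/256 : ℝ)*z^6 + (225225/1024 : ℝ)*z^4 + (-9009/512 : ℝ)*z^2 + (231/1024 : ℝ), fun z => (2028117/256 : ℝ)*z^11 + (-4849845/256 : ℝ)*z^9 + (2078505/128 : ℝ)*z^7 + (-765765/128 : ℝ)*z^5 + (225225/256 : ℝ)*z^3 + (-9009/256 : ℝ)*z, fun z => (22309287/256 : ℝ)*z^10 + (-43648605/256 : ℝ)*z^8 + (14549535/128 : ℝ)*z^6 + (-3828825/128 : ℝ)*z^4 + (675675/256 : ℝ)*z^2 + (-9009/256 : ℝ), fun z => (111546435/128 : ℝ)*z^9 + (-43648605/32 : ℝ)*z^7 + (43648605/64 : ℝ)*z^5 + (-3828825/32 : ℝ)*z^3 + (675675/128 : ℝ)*z, fun z => (1003917915/128 : ℝ)*z^8 + (-305540235/32 : ℝ)*z^6 + (218243025/64 : ℝ)*z^4 + (-11486475/32 : ℝ)*z^2 + (675675/128 : ℝ), fun z => (1003917915/16 : ℝ)*z^7 + (-916620705/16 : ℝ)*z^5 + (218243025/16 : ℝ)*z^3 + (-11486475/16 : ℝ)*z, fun z => (7027425405/16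 : ℝ)*z^6 + (-4583103525/16 : ℝ)*z^4 + (654729075/16 : ℝ)*z^2 + (-11486475/16 : ℝ), fun z => (21082276215/8 : ℝ)*z^5 + (-4583103525/4 : ℝ)*z^3 + (654729075/8 : ℝ)*z, fun z => (105411381075/8 : ℝ)*z^4 + (-13749310575/4 : ℝ)*z^2 + (654729075/8 : ℝ), fun z => (105411381075/2 : ℝ)*z^3 + (-13749310575/2 : ℝ)*z, fun z => (316234143225/2 : ℝ)*z^2 + (-13749310575/2 : ℝ), fun z => (316234143225 : ℝ)*z, fun z => (316234143225 : ℝ)])
    (by intro m; fin_cases m <;> simp)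
    (by intro z z' a; simp [Fin.sum_univ_succ, L12, T]; ring)

end Pool.Agent.SDL.Leg
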