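import Pool.Agent.SDL.Marks
import Pool.Agent.SDL.AsmC

set_option autoImplicit false

/-!
# LiftOf: a lower bound for the total lift from a three point certificate
-/

open scoped RealInnerProductSpace

namespace Pool.Agent.SDL

open Pool.Agent.SDC

/-- The Gram determinant of three unit vectors is nonnegative. -/
theorem Gr_nonneg {a b c : E3} (ha : ‖a‖ = 1) (hb : ‖b‖ = 1) (hc : ‖c‖ = 1) :
    0 ≤ Gr ⟪a, b⟫ ⟪a, c⟫ ⟪b, c⟫ := by
  have aa : ⟪a, a⟫ = (1 : ℝ) := by rw [real_inner_self_eq_norm_sq, ha, one_pow]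
  have bb : ⟪b, b⟫ = (1 : ℝ) := by rw [real_inner_self_eq_norm_sq, hb, one_pow]
  have cc : ⟪c, c⟫ = (1 : ℝ) := by rw [real_inner_self_eq_norm_sq, hc, one_pow]
  obtain ⟨u, hu⟩ : ∃ u, u = ⟪a, b⟫ := ⟨_, rfl⟩
  obtain ⟨v, hv⟩ : ∃ v, v = ⟪a, c⟫ := ⟨_, rfl⟩
  obtain ⟨t, ht⟩ : ∃ t, t = ⟪b, c⟫ := ⟨_, rfl⟩
  have h1 := real_inner_mul_inner_self_le (b - u • a) (c - v • a)
  have ba : ⟪b, a⟫ = u := by rw [real_inner_comm, hu]
  have ca : ⟪c, a⟫ = v := by rw [real_inner_comm, hv]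
  have e1 : ⟪b - u • a, c - v • a⟫ = t - u * v := by
    simp only [inner_sub_left, inner_sub_right, inner_smul_left, inner_smul_right, conj_trivial,
      aa, ba, ← hv, ← ht]
    ring
  have e2 : ⟪b - u • a, b - u • a⟫ = 1 - u ^ 2 := by
    simp only [inner_sub_left, inner_sub_right, inner_smul_left, inner_smul_right, conj_trivial,
      aa, bb, ba, ← hu]
    ring
  have e3 : ⟪c - v • a, c - v • a⟫ = 1 - v ^ 2 := by
    simp only [inner_sub_left, inner_sub_right, inner_smul_left, inner_smul_right, conj_trivial,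
      aa, cc, ca, ← hv]
    ring
  rw [e1, e2, e3] at h1
  rw [← hu, ← hv, ← ht, Gr]
  nlinarith

/-- Three inner products of unit vectors. -/
theorem D3_of {a b c : E3} (ha : ‖a‖ = 1) (hb : ‖b‖ = 1) (hc : ‖c‖ = 1) :
    D3 ⟪a, b⟫ ⟪a, c⟫ ⟪b, c⟫ := by
  have h : ∀ {x y : E3}, ‖x‖ = 1 → ‖y‖ = 1 → -1 ≤ ⟪x, y⟫ ∧ ⟪x, y⟫ ≤ (1 : ℝ) := by
    intro x y hx hy
    have h1 := abs_real_inner_le_norm x y
    rw [hx, hy, mul_one, abs_le] at h1
    exact h1
  exact ⟨h ha hb, h ha hc, h hb hc, Gr_nonneg ha hb hc⟩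

/-- The marks of a packing with small total lift. -/
theorem exists_marks {ι : Type} [Fintype ι] [Nonempty ι] {n : ι → E3} {h : ι → ℝ} (H : Pck n h)
    (hR : ∀ i, h i ≤ R) {ln kn ld : ℝ} (hln : 0 < ln) (hld : 0 < ld) (hkn : 0 ≤ kn)
    (hkl : kn ≤ ln) (hkk : kn * ld ≤ 2.22 * ln ^ 2) (hL : ∑ i, (h i - 1) < ln / ld) :
    ∃ x : ι → ℝ, (∀ i, 0 ≤ x i) ∧ ∑ i, x i = 1 ∧
      ∀ i j, i ≠ j → 0 ≤ con ln kn ld ⟪n i, n j⟫ (x i) (x j) := by
  classical
  obtain ⟨i0⟩ := ‹Nonempty ι›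
  obtain ⟨L, hLd⟩ : ∃ L, L = ln / ld := ⟨_, rfl⟩
  rw [← hLd] at hL
  have hLp : 0 < L := by rw [hLd]; positivity
  have hlnL : ln = L * ld := by rw [hLd]; field_simp
  set S : ℝ := ∑ i, (h i - 1) with hS
  have hl0 : ∀ i, 0 ≤ h i - 1 := fun i => by linarith [H.2.1 i]
  have hl1 : ∀ i, h i - 1 ≤ 0.25841 := fun i => by linarith [hR i, R_hi']
  have hlS : ∀ i, h i - 1 ≤ S := fun i =>
    Finset.single_le_sum (f := fun i => h i - 1) (fun j _ => hl0 j) (Finset.mem_univ i)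
  set x : ι → ℝ := fun i => (h i - 1) / L + if i = i0 then (L - S) / L else 0 with hx
  have hxge : ∀ i, (h i - 1) / L ≤ x i := by
    intro i
    simp only [hx]
    split_ifs
    · have : 0 ≤ (L - S) / L := div_nonneg (by linarith) hLp.le
      linarith
    · linarith
  have hx0 : ∀ i, 0 ≤ x i := fun i => (div_nonneg (hl0 i) hLp.le).trans (hxge i)
  have hsum : ∑ i, x i = 1 := by
    simp only [hx]
    rw [Finset.sum_add_distrib, ← Finset.sum_div, Finset.sum_ite_eq' Finset.univ i0]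
    rw [if_pos (Finset.mem_univ i0), ← hS, ← add_div]
    rw [div_eq_one_iff_eq hLp.ne']
    ring
  refine ⟨x, hx0, hsum, fun i j hij => ?_⟩
  have hx1 : ∀ i, x i ≤ 1 := fun i => by
    rw [← hsum]
    exact Finset.single_le_sum (fun j _ => hx0 j) (Finset.mem_univ i)
  have hw := H.inner_le' hij (hl1 i) (hl1 j)
  -- monotonicity
  have mono : ∀ {a b y : ℝ}, a ≤ b → y ≤ 1 → ln * (a + y) - kn * (a * y) ≤
      ln * (b + y) - kn * (b * y) := by
    intro a b y hab hy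
    have h1 : kn * y ≤ ln := by nlinarith
    nlinarith [mul_nonneg (sub_nonneg.mpr hab) (sub_nonneg.mpr h1)]
  have m1 := mono (hxge i) (hx1 j)
  have hj1 : (h i - 1) / L ≤ 1 := by
    rw [div_le_one hLp]
    linarith [hlS i]
  have m2 := mono (hxge j) hj1
  rw [con]
  set a := h i - 1 with ha
  set b := h j - 1 with hb
  have h5 : ld * (2 * ⟪n i, n j⟫ - 1) ≤ ld * (a + b - 2.22 * (a * b)) := by
    apply mul_le_mul_of_nonneg_left _ hld.le
    linarith
  have h6 : ln * (a / L + b / L) = ld * (a + b) := by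
    rw [hlnL]
    field_simp
  have h7 : kn * (a / L * (b / L)) ≤ ld * (2.22 * (a * b)) := by
    have h8 : kn * (a / L * (b / L)) = kn / L ^ 2 * (a * b) := by
      field_simp
    rw [h8]
    have h9 : kn / L ^ 2 ≤ ld * 2.22 := by
      rw [div_le_iff₀ (by positivity)]
      have h10 : kn * ld ≤ 2.22 * (L * ld) ^ 2 := by rw [← hlnL]; exact hkk
      have h11 : ld * kn ≤ ld * (ld * 2.22 * L ^ 2) := by nlinarith
      exact le_of_mul_le_mul_left h11 hld
    have h12 := mul_le_mul_of_nonneg_right h9 (mul_nonneg (hl0 i) (hl0 j))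
    linarith
  have e1 : ln * (b / L + a / L) = ln * (a / L + b / L) := by ring
  have e2 : kn * (b / L * (a / L)) = kn * (a / L * (b / L)) := by ring
  have e3 : ln * (x j + a / L) = ln * (a / L + x j) := by ring
  have e4 : kn * (x j * (a / L)) = kn * (a / L * x j) := by ring
  linarith

/-- A square of the two point kernel. -/
structure KSq where
  /-- factor -/
  D : ℤ
  /-- constant part of the feature -/
  f0 : ℤ
  /-- coefficient of the mark -/
  f1 : ℤ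
  /-- the polynomial -/
  P : List ℤ

/-- The two point kernel. -/
noncomputable def K2 (l : List KSq) (u X Y : ℝ) : ℝ :=
  (l.map fun k => (k.D : ℝ) * ((k.f0 + k.f1 * X) * (k.f0 + k.f1 * Y) * pv u k.P)).sum

theorem K2_pos {ι : Type} [Fintype ι] [DecidableEq ι] (l : List KSq) (hD : ∀ k ∈ l, 0 ≤ k.D)
    (hP : ∀ k ∈ l, Leg.PSDk fun u => pv u k.P) (n : ι → E3) (hn : ∀ i, ‖n i‖ = 1) (x : ι → ℝ) :
    0 ≤ ∑ i, (K2 l 1 (x i) (x i) + ∑ j ∈ Finset.univ.erase i, K2 l ⟪n i, n j⟫ (x i) (x j)) := by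
  have h1 := two_point n hn x (fun (b : Fin l.length) u => pv u (l.get b).P)
    (fun b => ((l.get b).D : ℝ))
    (fun b => by exact_mod_cast hD _ (List.get_mem _ _))
    (fun b X => (l.get b).f0 + (l.get b).f1 * X)
    (fun b c => hP _ (List.get_mem _ _) ι _ n c hn)
  have h2 : ∀ u X Y, K2 l u X Y = ∑ b : Fin l.length, ((l.get b).D : ℝ) *
      (((l.get b).f0 + (l.get b).f1 * X) * ((l.get b).f0 + (l.get b).f1 * Y) *
        pv u (l.get b).P) := by
    intro u X Y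
    rw [K2, ← sum_get]
  have h3 : ∑ i, (K2 l 1 (x i) (x i) + ∑ j ∈ Finset.univ.erase i,
      K2 l ⟪n i, n j⟫ (x i) (x j)) = ∑ i, ((∑ b : Fin l.length, ((l.get b).D : ℝ) *
      (((l.get b).f0 + (l.get b).f1 * x i) ^ 2 * pv 1 (l.get b).P)) +
      ∑ j ∈ Finset.univ.erase i, ∑ b : Fin l.length, ((l.get b).D : ℝ) *
      (((l.get b).f0 + (l.get b).f1 * x i) * ((l.get b).f0 + (l.get b).f1 * x j) *
        pv ⟪n i, n j⟫ (l.get b).P)) := by
    refine Finset.sum_congr rfl fun i _ => ?_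
    rw [h2]
    congr 1
    · refine Finset.sum_congr rfl fun b _ => ?_
      ring
    · refine Finset.sum_congr rfl fun j _ => ?_
      rw [h2]
  rw [h3]
  exact h1

/-- A lower bound for the total lift from a certificate. -/
theorem LiftN_of (N : ℕ) (hN : 3 ≤ N) (c : List (List Sq)) (p q : Bi) (l : List KSq)
    (s0 s1 ln kn ld e ω : ℝ) (χ : ℝ → ℝ)
    (hln : 0 < ln) (hld : 0 < ld) (hkn : 0 ≤ kn) (hkl : kn ≤ ln) (hkk : kn * ld ≤ 2.22 * ln ^ 2)
    (he : e < 0)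
    (hw : ∀ p ∈ flat c 0, 0 ≤ p.2.w0 ∧ 0 ≤ p.2.w0 + p.2.w1)
    (hD : ∀ k ∈ l, 0 ≤ k.D) (hPs : ∀ k ∈ l, Leg.PSDk fun u => pv u k.P)
    (hP : ∀ u X Y, -1 ≤ u → u ≤ 1 → 0 ≤ X → 0 ≤ Y → X + Y ≤ 1 → 0 ≤ con ln kn ld u X Y →
      2 * K2 l u X Y + pairR c u X Y + pairR c u Y X ≤
        2 * (p.r u X Y - q.r u X Y * (X + Y - 1)) + χ X + χ Y)
    (hS : ∀ X, 0 ≤ X → X ≤ 1 →
      K2 l 1 X X + oneR c X + (N - 1) * χ X + ω * (N * X - 1) ≤ s0 + s1 * X)
    (hT : ∀ u v t X Y W, D3 u v t → t ≤ v → v ≤ u → 0 ≤ X → 0 ≤ Y → 0 ≤ W → X + Y + W ≤ 1 →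
      0 ≤ con ln kn ld u X Y → 0 ≤ con ln kn ld v X W → 0 ≤ con ln kn ld t Y W →
      TR c N p q s0 s1 u v t X Y W ≤ e) : LiftN N (ln / ld) := by
  classical
  intro ι _ n h H hR hc
  by_contra hlt
  push Not at hlt
  have hne : Nonempty ι := Fintype.card_pos_iff.mp (by omega)
  obtain ⟨x, hx0, hx1, hx⟩ := exists_marks H hR hln hld hkn hkl hkk hlt
  have hn := H.1
  have hxl : ∀ i, x i ≤ 1 := fun i => by
    rw [← hx1]
    exact Finset.single_le_sum (fun j _ => hx0 j) (Finset.mem_univ i)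
  have hxx : ∀ i j, i ≠ j → x i + x j ≤ 1 := fun i j hij => by
    rw [← hx1, ← Finset.add_sum_erase _ _ (Finset.mem_univ i)]
    have := Finset.single_le_sum (f := x) (fun j _ => hx0 j)
      (Finset.mem_erase.mpr ⟨hij.symm, Finset.mem_univ j⟩)
    linarith
  have h3 : 3 ≤ Fintype.card ι := by omega
  have hwd : ∀ p ∈ flat c 0, ∀ i, 0 ≤ p.2.d (x i) := by
    intro p hp i
    obtain ⟨h1, h2⟩ := hw p hp
    have h1' : (0 : ℝ) ≤ p.2.w0 := by exact_mod_cast h1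
    have h2' : (0 : ℝ) ≤ (p.2.w0 : ℝ) + p.2.w1 := by exact_mod_cast h2
    rw [Sq.d]
    nlinarith [mul_nonneg (hx0 i) h2', mul_nonneg (sub_nonneg.mpr (hxl i)) h1']
  have h2p : 0 ≤ ∑ i, (((s0 + s1 * x i) - oneR c (x i)) + ∑ j ∈ Finset.univ.erase i,
      ((p.r ⟪n i, n j⟫ (x i) (x j) - q.r ⟪n i, n j⟫ (x i) (x j) * (x i + x j - 1)) -
        pairR c ⟪n i, n j⟫ (x i) (x j))) := by
    have hK := K2_pos l hD hPs n hn x
    set r : ℝ → ℝ → ℝ → ℝ := fun u X Y => p.r u X Y - q.r u X Y * (X + Y - 1) with hr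
    have hrs : ∀ u X Y, r u X Y = r u Y X := fun u X Y => by
      simp only [hr]
      rw [p.symm u X Y, q.symm u X Y, add_comm X Y]
    -- symmetrise the pair sums
    have sw : ∀ f : ι → ι → ℝ, ∑ i, ∑ j ∈ Finset.univ.erase i, f i j =
        ∑ i, ∑ j ∈ Finset.univ.erase i, f j i := by
      intro f
      have e1 : ∀ f : ι → ι → ℝ, ∑ i, ∑ j ∈ Finset.univ.erase i, f i j =
          ∑ i, ∑ j, f i j - ∑ i, f i i := by
        intro f
        rw [← Finset.sum_sub_distrib]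
        refine Finset.sum_congr rfl fun i _ => ?_
        rw [Finset.sum_erase_eq_sub (Finset.mem_univ i)]
      rw [e1, e1, Finset.sum_comm]
    have hpr : ∑ i, ∑ j ∈ Finset.univ.erase i, (2 * r ⟪n i, n j⟫ (x i) (x j) -
        pairR c ⟪n i, n j⟫ (x i) (x j) - pairR c ⟪n i, n j⟫ (x j) (x i) -
        2 * K2 l ⟪n i, n j⟫ (x i) (x j) + χ (x i) + χ (x j)) ≥ 0 := by
      refine Finset.sum_nonneg fun i _ => Finset.sum_nonneg fun j hj => ?_
      have hij : i ≠ j := fun e => (Finset.mem_erase.mp hj).1 e.symm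
      have hb := (D3_of (hn i) (hn j) (hn j)).1
      have h4 := hP ⟪n i, n j⟫ (x i) (x j) hb.1 hb.2 (hx0 i) (hx0 j) (hxx i j hij) (hx i j hij)
      simp only [hr]
      linarith
    have hpr2 : ∑ i, ∑ j ∈ Finset.univ.erase i, (2 * r ⟪n i, n j⟫ (x i) (x j) -
        pairR c ⟪n i, n j⟫ (x i) (x j) - pairR c ⟪n i, n j⟫ (x j) (x i) -
        2 * K2 l ⟪n i, n j⟫ (x i) (x j) + χ (x i) + χ (x j)) =
        2 * ∑ i, ∑ j ∈ Finset.univ.erase i, (r ⟪n i, n j⟫ (x i) (x j) -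
          pairR c ⟪n i, n j⟫ (x i) (x j) - K2 l ⟪n i, n j⟫ (x i) (x j)) +
        2 * ∑ i, ((N : ℝ) - 1) * χ (x i) := by
      have e5 := sw fun i j => pairR c ⟪n i, n j⟫ (x j) (x i)
      have e6 := sw fun _ j => χ (x j)
      have e7 : ∑ i, ∑ j ∈ Finset.univ.erase i, pairR c ⟪n j, n i⟫ (x i) (x j) =
          ∑ i, ∑ j ∈ Finset.univ.erase i, pairR c ⟪n i, n j⟫ (x i) (x j) := by
        refine Finset.sum_congr rfl fun i _ => Finset.sum_congr rfl fun j _ => ?_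
        rw [real_inner_comm]
      have e8 : ∑ i, ∑ _j ∈ Finset.univ.erase i, χ (x i) = ∑ i, ((N : ℝ) - 1) * χ (x i) := by
        refine Finset.sum_congr rfl fun i _ => ?_
        rw [Finset.sum_const, nsmul_eq_mul, Finset.card_erase_of_mem (Finset.mem_univ i),
          Finset.card_univ, hc, Nat.cast_sub (by omega)]
        norm_num
      beta_reduce at e5 e6
      simp only [Finset.sum_add_distrib, Finset.sum_sub_distrib, ← Finset.mul_sum]
      rw [e5, e7, e6]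
      simp only [← Finset.mul_sum] at e8 ⊢
      rw [e8]
      ring
    rw [hpr2] at hpr
    have hs : ∑ i, (K2 l 1 (x i) (x i) + oneR c (x i) + ((N : ℝ) - 1) * χ (x i) +
        ω * (N * x i - 1)) ≤ ∑ i, (s0 + s1 * x i) :=
      Finset.sum_le_sum fun i _ => hS (x i) (hx0 i) (hxl i)
    have hω : ∑ i, ω * (N * x i - 1) = 0 := by
      rw [← Finset.mul_sum, Finset.sum_sub_distrib, ← Finset.mul_sum, hx1, Finset.sum_const,
        nsmul_eq_mul, Finset.card_univ, hc]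
      ring
    simp only [hr] at hpr
    simp only [Finset.sum_add_distrib, Finset.sum_sub_distrib] at hs hK hpr ⊢
    rw [hω] at hs
    linarith
  obtain ⟨i, j, m, hij, him, hjm, h1, h2, h0⟩ := exists_ZR_nonneg c h3 n hn x
    (fun u X Y => p.r u X Y - q.r u X Y * (X + Y - 1)) (fun u X Y => q.r u X Y)
    (fun X => s0 + s1 * X) (fun t Y W => q.symm t Y W) hwd h2p
  rw [hx1, hc, ZR_TR] at h0
  have hs3 : x i + x j + x m ≤ 1 := by
    rw [← hx1, ← Finset.add_sum_erase _ _ (Finset.mem_univ i),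
      ← Finset.add_sum_erase _ _ (Finset.mem_erase.mpr ⟨hij.symm, Finset.mem_univ j⟩)]
    have := Finset.single_le_sum (f := x) (fun j _ => hx0 j)
      (Finset.mem_erase.mpr ⟨hjm.symm, Finset.mem_erase.mpr ⟨him.symm, Finset.mem_univ m⟩⟩)
    linarith
  have h5 := hT ⟪n i, n j⟫ ⟪n i, n m⟫ ⟪n j, n m⟫ (x i) (x j) (x m)
    (D3_of (hn i) (hn j) (hn m)) h1 h2 (hx0 i) (hx0 j) (hx0 m) hs3 (hx i j hij) (hx i m him)
    (hx j m hjm)
  linarith

end Pool.Agent.SDL
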