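import Pool.Agent.SDL.ZBuild

set_option autoImplicit false

/-!
# Marks: the elimination of the marks from the three point inequality

The triple function `TR` is affine in each of the three marks, so that on the simplex
`X, Y, W ≥ 0, X + Y + W ≤ 1` it is bounded by its fourteen control coefficients.
-/

open scoped RealInnerProductSpace

namespace Pool.Agent.SDL

/-! ## Functions which are affine in each of three variables -/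

/-- Affine in each of the three variables. -/
def MA (f : ℝ → ℝ → ℝ → ℝ) : Prop :=
  ∀ X Y W, f X Y W = (1 - X) * f 0 Y W + X * f 1 Y W ∧
    f X Y W = (1 - Y) * f X 0 W + Y * f X 1 W ∧ f X Y W = (1 - W) * f X Y 0 + W * f X Y 1

theorem MA.add {f g : ℝ → ℝ → ℝ → ℝ} (hf : MA f) (hg : MA g) :
    MA fun X Y W => f X Y W + g X Y W := by
  intro X Y W
  obtain ⟨a1, a2, a3⟩ := hf X Y W
  obtain ⟨b1, b2, b3⟩ := hg X Y W
  refine ⟨?_, ?_, ?_⟩ <;> linarith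

theorem MA.smul {f : ℝ → ℝ → ℝ → ℝ} (hf : MA f) (c : ℝ) : MA fun X Y W => c * f X Y W := by
  intro X Y W
  obtain ⟨a1, a2, a3⟩ := hf X Y W
  refine ⟨?_, ?_, ?_⟩
  · linear_combination c * a1
  · linear_combination c * a2
  · linear_combination c * a3

theorem MA.zero : MA fun _ _ _ => 0 := fun _ _ _ => by simp

/-- Change of the order of the variables. -/
theorem MA.swap {f : ℝ → ℝ → ℝ → ℝ} (hf : MA f) : MA fun X Y W => f Y X W := by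
  intro X Y W
  obtain ⟨a1, a2, a3⟩ := hf Y X W
  exact ⟨a2, a1, a3⟩

/-- Change of the order of the variables. -/
theorem MA.rot {f : ℝ → ℝ → ℝ → ℝ} (hf : MA f) : MA fun X Y W => f W X Y := by
  intro X Y W
  obtain ⟨a1, a2, a3⟩ := hf W X Y
  exact ⟨a2, a3, a1⟩

theorem MA.list {α : Type} (l : List α) (f : α → ℝ → ℝ → ℝ → ℝ) (hf : ∀ a ∈ l, MA (f a)) :
    MA fun X Y W => (l.map fun a => f a X Y W).sum := by
  induction l with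
  | nil =>
    simpa using MA.zero
  | cons a l ih =>
    have h1 := (hf a (by simp)).add (ih fun b hb => hf b (by simp [hb]))
    simpa using h1

/-- The eight values. -/
theorem MA.eq {f : ℝ → ℝ → ℝ → ℝ} (hf : MA f) (X Y W : ℝ) :
    f X Y W = (1 - X) * (1 - Y) * (1 - W) * f 0 0 0 + X * (1 - Y) * (1 - W) * f 1 0 0 +
      (1 - X) * Y * (1 - W) * f 0 1 0 + (1 - X) * (1 - Y) * W * f 0 0 1 +
      X * Y * (1 - W) * f 1 1 0 + X * (1 - Y) * W * f 1 0 1 + (1 - X) * Y * W * f 0 1 1 +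
      X * Y * W * f 1 1 1 := by
  rw [(hf X Y W).1, (hf 0 Y W).2.1, (hf 1 Y W).2.1, (hf 0 0 W).2.2, (hf 0 1 W).2.2,
    (hf 1 0 W).2.2, (hf 1 1 W).2.2]
  ring

/-- The bound by the control coefficients. -/
theorem MA.neg {f : ℝ → ℝ → ℝ → ℝ} (hf : MA f) {e : ℝ} {X Y W : ℝ} (hX : 0 ≤ X) (hY : 0 ≤ Y)
    (hW : 0 ≤ W) (hs : X + Y + W ≤ 1)
    (h0 : f 0 0 0 ≤ e) (h1 : f 1 0 0 ≤ e) (h2 : f 0 1 0 ≤ e) (h3 : f 0 0 1 ≤ e)
    (h012 : 3 * f 0 0 0 + f 1 0 0 + f 0 1 0 + f 1 1 0 ≤ 6 * e)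
    (h013 : 3 * f 0 0 0 + f 1 0 0 + f 0 0 1 + f 1 0 1 ≤ 6 * e)
    (h023 : 3 * f 0 0 0 + f 0 1 0 + f 0 0 1 + f 0 1 1 ≤ 6 * e)
    (h112 : f 0 0 0 + f 1 0 0 + f 1 1 0 ≤ 3 * e) (h221 : f 0 0 0 + f 0 1 0 + f 1 1 0 ≤ 3 * e)
    (h113 : f 0 0 0 + f 1 0 0 + f 1 0 1 ≤ 3 * e) (h331 : f 0 0 0 + f 0 0 1 + f 1 0 1 ≤ 3 * e)
    (h223 : f 0 0 0 + f 0 1 0 + f 0 1 1 ≤ 3 * e) (h332 : f 0 0 0 + f 0 0 1 + f 0 1 1 ≤ 3 * e)
    (h123 : 2 * f 0 0 0 + f 1 0 0 + f 0 1 0 + f 0 0 1 + f 1 1 1 ≤ 6 * e) :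
    f X Y W ≤ e := by
  obtain ⟨V, hV⟩ : ∃ V, V = 1 - X - Y - W := ⟨_, rfl⟩
  have hV0 : 0 ≤ V := by linarith
  have key : f X Y W - e =
      V ^ 3 * (f 0 0 0 - e) + X ^ 3 * (f 1 0 0 - e) + Y ^ 3 * (f 0 1 0 - e) +
      W ^ 3 * (f 0 0 1 - e) +
      V ^ 2 * X * (2 * (f 0 0 0 - e) + (f 1 0 0 - e)) + V * X ^ 2 * ((f 0 0 0 - e) +
        2 * (f 1 0 0 - e)) +
      V ^ 2 * Y * (2 * (f 0 0 0 - e) + (f 0 1 0 - e)) + V * Y ^ 2 * ((f 0 0 0 - e) +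
        2 * (f 0 1 0 - e)) +
      V ^ 2 * W * (2 * (f 0 0 0 - e) + (f 0 0 1 - e)) + V * W ^ 2 * ((f 0 0 0 - e) +
        2 * (f 0 0 1 - e)) +
      V * X * Y * (3 * f 0 0 0 + f 1 0 0 + f 0 1 0 + f 1 1 0 - 6 * e) +
      V * X * W * (3 * f 0 0 0 + f 1 0 0 + f 0 0 1 + f 1 0 1 - 6 * e) +
      V * Y * W * (3 * f 0 0 0 + f 0 1 0 + f 0 0 1 + f 0 1 1 - 6 * e) +
      X ^ 2 * Y * (f 0 0 0 + f 1 0 0 + f 1 1 0 - 3 * e) +
      X * Y ^ 2 * (f 0 0 0 + f 0 1 0 + f 1 1 0 - 3 * e) +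
      X ^ 2 * W * (f 0 0 0 + f 1 0 0 + f 1 0 1 - 3 * e) +
      X * W ^ 2 * (f 0 0 0 + f 0 0 1 + f 1 0 1 - 3 * e) +
      Y ^ 2 * W * (f 0 0 0 + f 0 1 0 + f 0 1 1 - 3 * e) +
      Y * W ^ 2 * (f 0 0 0 + f 0 0 1 + f 0 1 1 - 3 * e) +
      X * Y * W * (2 * f 0 0 0 + f 1 0 0 + f 0 1 0 + f 0 0 1 + f 1 1 1 - 6 * e) := by
    rw [hf.eq X Y W, hV]
    ring
  have m : ∀ {a b : ℝ}, 0 ≤ a → b ≤ 0 → a * b ≤ 0 := fun ha hb =>
    mul_nonpos_of_nonneg_of_nonpos ha hb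
  have t1 := m (pow_nonneg hV0 3) (by linarith : f 0 0 0 - e ≤ 0)
  have t2 := m (pow_nonneg hX 3) (by linarith : f 1 0 0 - e ≤ 0)
  have t3 := m (pow_nonneg hY 3) (by linarith : f 0 1 0 - e ≤ 0)
  have t4 := m (pow_nonneg hW 3) (by linarith : f 0 0 1 - e ≤ 0)
  have t5 := m (by positivity : 0 ≤ V ^ 2 * X)
    (by linarith : 2 * (f 0 0 0 - e) + (f 1 0 0 - e) ≤ 0)
  have t6 := m (by positivity : 0 ≤ V * X ^ 2)
    (by linarith : (f 0 0 0 - e) + 2 * (f 1 0 0 - e) ≤ 0)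
  have t7 := m (by positivity : 0 ≤ V ^ 2 * Y)
    (by linarith : 2 * (f 0 0 0 - e) + (f 0 1 0 - e) ≤ 0)
  have t8 := m (by positivity : 0 ≤ V * Y ^ 2)
    (by linarith : (f 0 0 0 - e) + 2 * (f 0 1 0 - e) ≤ 0)
  have t9 := m (by positivity : 0 ≤ V ^ 2 * W)
    (by linarith : 2 * (f 0 0 0 - e) + (f 0 0 1 - e) ≤ 0)
  have t10 := m (by positivity : 0 ≤ V * W ^ 2)
    (by linarith : (f 0 0 0 - e) + 2 * (f 0 0 1 - e) ≤ 0)
  have t11 := m (by positivity : 0 ≤ V * X * Y)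
    (by linarith : 3 * f 0 0 0 + f 1 0 0 + f 0 1 0 + f 1 1 0 - 6 * e ≤ 0)
  have t12 := m (by positivity : 0 ≤ V * X * W)
    (by linarith : 3 * f 0 0 0 + f 1 0 0 + f 0 0 1 + f 1 0 1 - 6 * e ≤ 0)
  have t13 := m (by positivity : 0 ≤ V * Y * W)
    (by linarith : 3 * f 0 0 0 + f 0 1 0 + f 0 0 1 + f 0 1 1 - 6 * e ≤ 0)
  have t14 := m (by positivity : 0 ≤ X ^ 2 * Y)
    (by linarith : f 0 0 0 + f 1 0 0 + f 1 1 0 - 3 * e ≤ 0)
  have t15 := m (by positivity : 0 ≤ X * Y ^ 2)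
    (by linarith : f 0 0 0 + f 0 1 0 + f 1 1 0 - 3 * e ≤ 0)
  have t16 := m (by positivity : 0 ≤ X ^ 2 * W)
    (by linarith : f 0 0 0 + f 1 0 0 + f 1 0 1 - 3 * e ≤ 0)
  have t17 := m (by positivity : 0 ≤ X * W ^ 2)
    (by linarith : f 0 0 0 + f 0 0 1 + f 1 0 1 - 3 * e ≤ 0)
  have t18 := m (by positivity : 0 ≤ Y ^ 2 * W)
    (by linarith : f 0 0 0 + f 0 1 0 + f 0 1 1 - 3 * e ≤ 0)
  have t19 := m (by positivity : 0 ≤ Y * W ^ 2)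
    (by linarith : f 0 0 0 + f 0 0 1 + f 0 1 1 - 3 * e ≤ 0)
  have t20 := m (by positivity : 0 ≤ X * Y * W)
    (by linarith : 2 * f 0 0 0 + f 1 0 0 + f 0 1 0 + f 0 0 1 + f 1 1 1 - 6 * e ≤ 0)
  linarith

/-! ## The triple function -/

/-- A symmetric function of a pair: `b0 u + (X + Y) b1 u + X Y b2 u`. -/
structure Bi where
  /-- constant term -/
  b0 : List ℤ
  /-- coefficient of the sum of the marks -/
  b1 : List ℤ
  /-- coefficient of the product of the marks -/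
  b2 : List ℤ

/-- The value. -/
def Bi.r (b : Bi) (u X Y : ℝ) : ℝ := pv u b.b0 + (X + Y) * pv u b.b1 + X * Y * pv u b.b2

theorem Bi.symm (b : Bi) (u X Y : ℝ) : b.r u X Y = b.r u Y X := by
  rw [Bi.r, Bi.r]
  ring

/-- The triple function: `p` the pair function, `q` the multiplier of the total mark, `s0 + s1 X`
the function of one point. The points are 1, 2, 3 with the marks `X`, `Y`, `W`; `u`, `v`, `t` are
the inner products of 12, 13, 23. -/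
noncomputable def TR (c : List (List Sq)) (N : ℝ) (p q : Bi) (s0 s1 : ℝ) (u v t X Y W : ℝ) : ℝ :=
  (N - 1) * (N - 2) * (mainR c u v t X Y W + mainR c u t v Y X W + mainR c v t u W X Y) +
    (N - 1) * (p.r u X Y + p.r v X W + p.r t Y W) +
    (N - 1) * (N - 2) * (q.r u X Y * W + q.r v X W * Y + q.r t Y W * X) +
    (s0 + s1 * X + (s0 + s1 * Y) + (s0 + s1 * W))

theorem ZR_TR (c : List (List Sq)) (N : ℝ) (p q : Bi) (s0 s1 : ℝ) (u v t X Y W : ℝ) :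
    ZR c N 1 (fun u X Y => p.r u X Y - q.r u X Y * (X + Y - 1)) (fun u X Y => q.r u X Y)
      (fun X => s0 + s1 * X) u v t X Y W = 2 * TR c N p q s0 s1 u v t X Y W := by
  simp only [ZR, poleR, TR]
  rw [p.symm u Y X, q.symm u Y X, p.symm v W X, q.symm v W X, p.symm t W Y, q.symm t W Y]
  ring

theorem TR_swap (c : List (List Sq)) (N : ℝ) (p q : Bi) (s0 s1 : ℝ) (u v t X Y W : ℝ) :
    TR c N p q s0 s1 v u t X W Y = TR c N p q s0 s1 u v t X Y W := by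
  simp only [TR]
  rw [mainR_swap c u v t X Y W, p.symm t W Y, q.symm t W Y]
  ring

theorem TR_swap' (c : List (List Sq)) (N : ℝ) (p q : Bi) (s0 s1 : ℝ) (u v t X Y W : ℝ) :
    TR c N p q s0 s1 u t v Y X W = TR c N p q s0 s1 u v t X Y W := by
  simp only [TR]
  rw [mainR_swap c v t u W X Y, p.symm u Y X, q.symm u Y X]
  ring

theorem MA_main (c : List (List Sq)) (u v t : ℝ) : MA fun X Y W => mainR c u v t X Y W := by
  unfold mainR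
  apply MA.list
  intro p _ X Y W
  simp only [Sq.d, Sq.g]
  refine ⟨?_, ?_, ?_⟩ <;> ring

theorem MA_TR (c : List (List Sq)) (N : ℝ) (p q : Bi) (s0 s1 : ℝ) (u v t : ℝ) :
    MA fun X Y W => TR c N p q s0 s1 u v t X Y W := by
  have h1 := ((MA_main c u v t).add ((MA_main c u t v).swap.add
    (MA_main c v t u).rot)).smul ((N - 1) * (N - 2))
  have h2 : MA fun X Y W => (N - 1) * (p.r u X Y + p.r v X W + p.r t Y W) +
    (N - 1) * (N - 2) * (q.r u X Y * W + q.r v X W * Y + q.r t Y W * X) +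
    (s0 + s1 * X + (s0 + s1 * Y) + (s0 + s1 * W)) := by
    intro X Y W
    simp only [Bi.r]
    refine ⟨?_, ?_, ?_⟩ <;> ring
  have h3 := h1.add h2
  have h4 : (fun X Y W => TR c N p q s0 s1 u v t X Y W) = fun X Y W =>
      (N - 1) * (N - 2) * (mainR c u v t X Y W + (mainR c u t v Y X W + mainR c v t u W X Y)) +
      ((N - 1) * (p.r u X Y + p.r v X W + p.r t Y W) +
    (N - 1) * (N - 2) * (q.r u X Y * W + q.r v X W * Y + q.r t Y W * X) +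
    (s0 + s1 * X + (s0 + s1 * Y) + (s0 + s1 * W))) := by
    funext X Y W
    rw [TR]
    ring
  rw [h4]
  exact h3

/-! ## The regions -/

/-- The constraint of a pair: nonnegative for the pairs of a packing. -/
def con (ln kn ld : ℝ) (u X Y : ℝ) : ℝ := ln * (X + Y) - kn * (X * Y) - ld * (2 * u - 1)

theorem con_symm (ln kn ld u X Y : ℝ) : con ln kn ld u X Y = con ln kn ld u Y X := by
  rw [con, con]
  ring

/-- The Gram determinant. -/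
def Gr (u v t : ℝ) : ℝ := 1 + 2 * u * v * t - u ^ 2 - v ^ 2 - t ^ 2

/-- The function with multipliers `a u`, `b v`, `d t` of the three pair constraints. -/
noncomputable def TM (c : List (List Sq)) (N : ℝ) (p q : Bi) (s0 s1 ln kn ld : ℝ)
    (a b d : ℝ → ℝ) (u v t X Y W : ℝ) : ℝ :=
  TR c N p q s0 s1 u v t X Y W + a u * con ln kn ld u X Y + b v * con ln kn ld v X W +
    d t * con ln kn ld t Y W

section regions

variable (c : List (List Sq)) (N : ℝ) (p q : Bi) (s0 s1 ln kn ld : ℝ)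

theorem MA_TM (a b d : ℝ → ℝ) (u v t : ℝ) :
    MA fun X Y W => TM c N p q s0 s1 ln kn ld a b d u v t X Y W := by
  have h1 := MA_TR c N p q s0 s1 u v t
  have h2 : MA fun X Y W => a u * con ln kn ld u X Y + b v * con ln kn ld v X W +
      d t * con ln kn ld t Y W := by
    intro X Y W
    simp only [con]
    refine ⟨?_, ?_, ?_⟩ <;> ring
  have h3 := h1.add h2
  have h4 : (fun X Y W => TM c N p q s0 s1 ln kn ld a b d u v t X Y W) = fun X Y W =>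
      TR c N p q s0 s1 u v t X Y W + (a u * con ln kn ld u X Y + b v * con ln kn ld v X W +
      d t * con ln kn ld t Y W) := by
    funext X Y W
    rw [TM]
    ring
  rw [h4]
  exact h3

theorem TM_swap (a b d : ℝ → ℝ) (u v t X Y W : ℝ) :
    TM c N p q s0 s1 ln kn ld b a d v u t X W Y =
      TM c N p q s0 s1 ln kn ld a b d u v t X Y W := by
  rw [TM, TM, TR_swap c N p q s0 s1 u v t X Y W, con_symm ln kn ld t W Y]
  ring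

theorem TM_swap' (a b d : ℝ → ℝ) (u v t X Y W : ℝ) :
    TM c N p q s0 s1 ln kn ld a d b u t v Y X W =
      TM c N p q s0 s1 ln kn ld a b d u v t X Y W := by
  rw [TM, TM, TR_swap' c N p q s0 s1 u v t X Y W, con_symm ln kn ld u Y X]
  ring

/-- The fourteen conditions at one point. -/
def Ctl (f : ℝ → ℝ → ℝ → ℝ) (e : ℝ) : Prop :=
  f 0 0 0 ≤ e ∧ (f 1 0 0 ≤ e ∧ f 0 1 0 ≤ e ∧ f 0 0 1 ≤ e) ∧
    (3 * f 0 0 0 + f 1 0 0 + f 0 1 0 + f 1 1 0 ≤ 6 * e ∧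
      3 * f 0 0 0 + f 1 0 0 + f 0 0 1 + f 1 0 1 ≤ 6 * e ∧
      3 * f 0 0 0 + f 0 1 0 + f 0 0 1 + f 0 1 1 ≤ 6 * e) ∧
    (f 0 0 0 + f 1 0 0 + f 1 1 0 ≤ 3 * e ∧ f 0 0 0 + f 0 1 0 + f 1 1 0 ≤ 3 * e ∧
      f 0 0 0 + f 1 0 0 + f 1 0 1 ≤ 3 * e ∧ f 0 0 0 + f 0 0 1 + f 1 0 1 ≤ 3 * e ∧
      f 0 0 0 + f 0 1 0 + f 0 1 1 ≤ 3 * e ∧ f 0 0 0 + f 0 0 1 + f 0 1 1 ≤ 3 * e) ∧
    2 * f 0 0 0 + f 1 0 0 + f 0 1 0 + f 0 0 1 + f 1 1 1 ≤ 6 * e

theorem Ctl.le {f : ℝ → ℝ → ℝ → ℝ} (hf : MA f) {e : ℝ} (h : Ctl f e) {X Y W : ℝ} (hX : 0 ≤ X)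
    (hY : 0 ≤ Y) (hW : 0 ≤ W) (hs : X + Y + W ≤ 1) : f X Y W ≤ e := by
  obtain ⟨h0, ⟨h1, h2, h3⟩, ⟨h012, h013, h023⟩, ⟨h112, h221, h113, h331, h223, h332⟩, h123⟩ := h
  exact hf.neg hX hY hW hs h0 h1 h2 h3 h012 h013 h023 h112 h221 h113 h331 h223 h332 h123

/-- The triple function is bounded where the three constraints hold. -/
theorem TR_le_of_Ctl (a b d : ℝ → ℝ) {e u v t X Y W : ℝ} (ha : 0 ≤ a u) (hb : 0 ≤ b v)
    (hd : 0 ≤ d t) (hX : 0 ≤ X) (hY : 0 ≤ Y) (hW : 0 ≤ W) (hs : X + Y + W ≤ 1)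
    (hu : 0 ≤ con ln kn ld u X Y) (hv : 0 ≤ con ln kn ld v X W) (ht : 0 ≤ con ln kn ld t Y W)
    (h : Ctl (fun X Y W => TM c N p q s0 s1 ln kn ld a b d u v t X Y W) e) :
    TR c N p q s0 s1 u v t X Y W ≤ e := by
  have h1 := h.le (MA_TM c N p q s0 s1 ln kn ld a b d u v t) hX hY hW hs
  have h2 := mul_nonneg ha hu
  have h3 := mul_nonneg hb hv
  have h4 := mul_nonneg hd ht
  simp only [TM] at h1
  linarith

end regions

/-! ## Symmetric lists of conditions -/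

/-- Five conditions for a region with the symmetry of all three points. -/
structure Five (F : ℝ → ℝ → ℝ → ℝ → ℝ → ℝ → ℝ) (D : ℝ → ℝ → ℝ → Prop) (e : ℝ) : Prop where
  z : ∀ u v t, D u v t → F u v t 0 0 0 ≤ e
  a : ∀ u v t, D u v t → F u v t 1 0 0 ≤ e
  b : ∀ u v t, D u v t → 3 * F u v t 0 0 0 + F u v t 1 0 0 + F u v t 0 1 0 + F u v t 1 1 0 ≤ 6 * e
  c : ∀ u v t, D u v t → F u v t 0 0 0 + F u v t 1 0 0 + F u v t 1 1 0 ≤ 3 * e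
  d : ∀ u v t, D u v t → 2 * F u v t 0 0 0 + F u v t 1 0 0 + F u v t 0 1 0 + F u v t 0 0 1 +
    F u v t 1 1 1 ≤ 6 * e

theorem Five.ctl {F : ℝ → ℝ → ℝ → ℝ → ℝ → ℝ → ℝ} {D : ℝ → ℝ → ℝ → Prop} {e : ℝ}
    (H : Five F D e) (h1 : ∀ u v t X Y W, F v u t X W Y = F u v t X Y W)
    (h2 : ∀ u v t X Y W, F u t v Y X W = F u v t X Y W)
    (d1 : ∀ u v t, D u v t → D v u t) (d2 : ∀ u v t, D u v t → D u t v) {u v t : ℝ}
    (hD : D u v t) : Ctl (F u v t) e := by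
  have e1 : ∀ u v t X Y W, F u v t X Y W = F t v u W Y X := by
    intro u v t X Y W
    rw [← h1 u v t X Y W, ← h2 v u t X W Y, ← h1 v t u W X Y]
  have e2 : ∀ u v t X Y W, F u v t X Y W = F t u v Y W X := by
    intro u v t X Y W
    rw [← h2 u v t X Y W, ← h1 u t v Y X W]
  have e3 : ∀ u v t X Y W, F u v t X Y W = F v t u W X Y := by
    intro u v t X Y W
    rw [← h1 u v t X Y W, ← h2 v u t X W Y]
  have p1 : D u t v := d2 _ _ _ hD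
  have p2 : D v u t := d1 _ _ _ hD
  have p3 : D v t u := d2 _ _ _ p2
  have p4 : D t u v := d1 _ _ _ p1
  have p5 : D t v u := d2 _ _ _ p4
  refine ⟨H.z _ _ _ hD, ⟨H.a _ _ _ hD, ?_, ?_⟩, ⟨H.b _ _ _ hD, ?_, ?_⟩,
    ⟨H.c _ _ _ hD, ?_, ?_, ?_, ?_, ?_⟩, H.d _ _ _ hD⟩
  · have := H.a _ _ _ p1
    rw [h2] at this
    exact this
  · have := H.a _ _ _ p5
    rw [e1] at this
    exact this
  · have := H.b _ _ _ p2
    simp only [h1 u v t] at this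
    linarith
  · have := H.b _ _ _ p4
    rw [e3 t u v 0 0 0, e3 t u v 1 0 0, e3 t u v 0 1 0, e3 t u v 1 1 0] at this
    linarith
  · have := H.c _ _ _ p1
    simp only [h2 u v t] at this
    linarith
  · have := H.c _ _ _ p2
    simp only [h1 u v t] at this
    linarith
  · have := H.c _ _ _ p3
    rw [e2 v t u 0 0 0, e2 v t u 1 0 0, e2 v t u 1 1 0] at this
    linarith
  · have := H.c _ _ _ p4
    rw [e3 t u v 0 0 0, e3 t u v 1 0 0, e3 t u v 1 1 0] at this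
    linarith
  · have := H.c _ _ _ p5
    rw [e1 t v u 0 0 0, e1 t v u 1 0 0, e1 t v u 1 1 0] at this
    linarith

/-- Nine conditions for a region with the symmetry of the points 1 and 2. -/
structure Nine1 (F : ℝ → ℝ → ℝ → ℝ → ℝ → ℝ → ℝ) (D : ℝ → ℝ → ℝ → Prop) (e : ℝ) : Prop where
  z : ∀ u v t, D u v t → F u v t 0 0 0 ≤ e
  a1 : ∀ u v t, D u v t → F u v t 1 0 0 ≤ e
  a3 : ∀ u v t, D u v t → F u v t 0 0 1 ≤ e
  b12 : ∀ u v t, D u v t →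
    3 * F u v t 0 0 0 + F u v t 1 0 0 + F u v t 0 1 0 + F u v t 1 1 0 ≤ 6 * e
  b13 : ∀ u v t, D u v t →
    3 * F u v t 0 0 0 + F u v t 1 0 0 + F u v t 0 0 1 + F u v t 1 0 1 ≤ 6 * e
  c12 : ∀ u v t, D u v t → F u v t 0 0 0 + F u v t 1 0 0 + F u v t 1 1 0 ≤ 3 * e
  c13 : ∀ u v t, D u v t → F u v t 0 0 0 + F u v t 1 0 0 + F u v t 1 0 1 ≤ 3 * e
  c31 : ∀ u v t, D u v t → F u v t 0 0 0 + F u v t 0 0 1 + F u v t 1 0 1 ≤ 3 * e
  d : ∀ u v t, D u v t → 2 * F u v t 0 0 0 + F u v t 1 0 0 + F u v t 0 1 0 + F u v t 0 0 1 +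
    F u v t 1 1 1 ≤ 6 * e

theorem Nine1.ctl {F : ℝ → ℝ → ℝ → ℝ → ℝ → ℝ → ℝ} {D : ℝ → ℝ → ℝ → Prop} {e : ℝ}
    (H : Nine1 F D e) (h2 : ∀ u v t X Y W, F u t v Y X W = F u v t X Y W)
    (d2 : ∀ u v t, D u v t → D u t v) {u v t : ℝ} (hD : D u v t) : Ctl (F u v t) e := by
  have p1 : D u t v := d2 _ _ _ hD
  refine ⟨H.z _ _ _ hD, ⟨H.a1 _ _ _ hD, ?_, H.a3 _ _ _ hD⟩, ⟨H.b12 _ _ _ hD, H.b13 _ _ _ hD, ?_⟩,
    ⟨H.c12 _ _ _ hD, ?_, H.c13 _ _ _ hD, H.c31 _ _ _ hD, ?_, ?_⟩, H.d _ _ _ hD⟩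
  · have := H.a1 _ _ _ p1
    simp only [h2 u v t] at this
    exact this
  · have := H.b13 _ _ _ p1
    simp only [h2 u v t] at this
    linarith
  · have := H.c12 _ _ _ p1
    simp only [h2 u v t] at this
    linarith
  · have := H.c13 _ _ _ p1
    simp only [h2 u v t] at this
    linarith
  · have := H.c31 _ _ _ p1
    simp only [h2 u v t] at this
    linarith

/-- Nine conditions for a region with the symmetry of the points 2 and 3. -/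
structure Nine2 (F : ℝ → ℝ → ℝ → ℝ → ℝ → ℝ → ℝ) (D : ℝ → ℝ → ℝ → Prop) (e : ℝ) : Prop where
  z : ∀ u v t, D u v t → F u v t 0 0 0 ≤ e
  a1 : ∀ u v t, D u v t → F u v t 1 0 0 ≤ e
  a2 : ∀ u v t, D u v t → F u v t 0 1 0 ≤ e
  b12 : ∀ u v t, D u v t →
    3 * F u v t 0 0 0 + F u v t 1 0 0 + F u v t 0 1 0 + F u v t 1 1 0 ≤ 6 * e
  b23 : ∀ u v t, D u v t →
    3 * F u v t 0 0 0 + F u v t 0 1 0 + F u v t 0 0 1 + F u v t 0 1 1 ≤ 6 * e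
  c12 : ∀ u v t, D u v t → F u v t 0 0 0 + F u v t 1 0 0 + F u v t 1 1 0 ≤ 3 * e
  c21 : ∀ u v t, D u v t → F u v t 0 0 0 + F u v t 0 1 0 + F u v t 1 1 0 ≤ 3 * e
  c23 : ∀ u v t, D u v t → F u v t 0 0 0 + F u v t 0 1 0 + F u v t 0 1 1 ≤ 3 * e
  d : ∀ u v t, D u v t → 2 * F u v t 0 0 0 + F u v t 1 0 0 + F u v t 0 1 0 + F u v t 0 0 1 +
    F u v t 1 1 1 ≤ 6 * e

theorem Nine2.ctl {F : ℝ → ℝ → ℝ → ℝ → ℝ → ℝ → ℝ} {D : ℝ → ℝ → ℝ → Prop} {e : ℝ}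
    (H : Nine2 F D e) (h1 : ∀ u v t X Y W, F v u t X W Y = F u v t X Y W)
    (d1 : ∀ u v t, D u v t → D v u t) {u v t : ℝ} (hD : D u v t) : Ctl (F u v t) e := by
  have p1 : D v u t := d1 _ _ _ hD
  refine ⟨H.z _ _ _ hD, ⟨H.a1 _ _ _ hD, H.a2 _ _ _ hD, ?_⟩, ⟨H.b12 _ _ _ hD, ?_, H.b23 _ _ _ hD⟩,
    ⟨H.c12 _ _ _ hD, H.c21 _ _ _ hD, ?_, ?_, H.c23 _ _ _ hD, ?_⟩, H.d _ _ _ hD⟩
  · have := H.a2 _ _ _ p1
    simp only [h1 u v t] at this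
    exact this
  · have := H.b12 _ _ _ p1
    simp only [h1 u v t] at this
    linarith
  · have := H.c12 _ _ _ p1
    simp only [h1 u v t] at this
    linarith
  · have := H.c21 _ _ _ p1
    simp only [h1 u v t] at this
    linarith
  · have := H.c23 _ _ _ p1
    simp only [h1 u v t] at this
    linarith

/-! ## The triple inequality from the four regions -/

/-- Three inner products of unit vectors. -/
def D3 (u v t : ℝ) : Prop :=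
  (-1 ≤ u ∧ u ≤ 1) ∧ (-1 ≤ v ∧ v ≤ 1) ∧ (-1 ≤ t ∧ t ≤ 1) ∧ 0 ≤ Gr u v t

/-- No side is short. -/
def Dm0 (u v t : ℝ) : Prop := D3 u v t ∧ 2 * u ≤ 1 ∧ 2 * v ≤ 1 ∧ 2 * t ≤ 1

/-- The first side is short; `U` is an upper bound for `2 u`. -/
def Dm1 (U : ℝ) (u v t : ℝ) : Prop := D3 u v t ∧ (1 ≤ 2 * u ∧ 2 * u ≤ U) ∧ 2 * v ≤ 1 ∧ 2 * t ≤ 1

/-- Two sides are short. -/
def Dm2 (U : ℝ) (u v t : ℝ) : Prop :=
  D3 u v t ∧ (1 ≤ 2 * u ∧ 2 * u ≤ U) ∧ (1 ≤ 2 * v ∧ 2 * v ≤ U) ∧ 2 * t ≤ 1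

/-- Three sides are short. -/
def Dm3 (U : ℝ) (u v t : ℝ) : Prop :=
  D3 u v t ∧ (1 ≤ 2 * u ∧ 2 * u ≤ U) ∧ (1 ≤ 2 * v ∧ 2 * v ≤ U) ∧ (1 ≤ 2 * t ∧ 2 * t ≤ U)

theorem D3.swap {u v t : ℝ} (h : D3 u v t) : D3 v u t := by
  obtain ⟨h1, h2, h3, h4⟩ := h
  refine ⟨h2, h1, h3, ?_⟩
  simp only [Gr] at h4 ⊢
  nlinarith

theorem D3.swap' {u v t : ℝ} (h : D3 u v t) : D3 u t v := by
  obtain ⟨h1, h2, h3, h4⟩ := h
  refine ⟨h1, h3, h2, ?_⟩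
  simp only [Gr] at h4 ⊢
  nlinarith

/-- The triple inequality for the certificate: `m1`, `m2`, `m3` the multipliers in the regions. -/
theorem TR_le (c : List (List Sq)) (N : ℝ) (p q : Bi) (s0 s1 ln kn ld : ℝ) (m1 m2 m3 : ℝ → ℝ)
    (e U : ℝ) (hld : 0 < ld) (hkn : 0 ≤ kn) (hU : ln ≤ ld * (U - 1))
    (hm1 : ∀ u, 1 ≤ 2 * u → 2 * u ≤ U → 0 ≤ m1 u) (hm2 : ∀ u, 1 ≤ 2 * u → 2 * u ≤ U → 0 ≤ m2 u)
    (hm3 : ∀ u, 1 ≤ 2 * u → 2 * u ≤ U → 0 ≤ m3 u)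
    (H0 : Five (TM c N p q s0 s1 ln kn ld (fun _ => 0) (fun _ => 0) (fun _ => 0)) Dm0 e)
    (H1 : Nine1 (TM c N p q s0 s1 ln kn ld m1 (fun _ => 0) (fun _ => 0)) (Dm1 U) e)
    (H2 : Nine2 (TM c N p q s0 s1 ln kn ld m2 m2 (fun _ => 0)) (Dm2 U) e)
    (H3 : Five (TM c N p q s0 s1 ln kn ld m3 m3 m3) (Dm3 U) e)
    {u v t X Y W : ℝ} (hD : D3 u v t) (hvt : t ≤ v) (huv : v ≤ u) (hX : 0 ≤ X) (hY : 0 ≤ Y)
    (hW : 0 ≤ W) (hs : X + Y + W ≤ 1) (hln : 0 ≤ ln)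
    (hu : 0 ≤ con ln kn ld u X Y) (hv : 0 ≤ con ln kn ld v X W) (ht : 0 ≤ con ln kn ld t Y W) :
    TR c N p q s0 s1 u v t X Y W ≤ e := by
  have hub : ∀ {w X Y : ℝ}, 0 ≤ X → 0 ≤ Y → X + Y ≤ 1 → 0 ≤ con ln kn ld w X Y →
      2 * w ≤ U := by
    intro w X Y hX hY hXY hc
    rw [con] at hc
    have h1 : ln * (X + Y) ≤ ln := by nlinarith
    have h2 : 0 ≤ kn * (X * Y) := by positivity
    have h3 : ld * (2 * w - 1) ≤ ld * (U - 1) := by linarith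
    have h4 := le_of_mul_le_mul_left h3 hld
    linarith
  have hu2 : 2 * u ≤ U := hub hX hY (by linarith) hu
  have hv2 : 2 * v ≤ U := hub hX hW (by linarith) hv
  have ht2 : 2 * t ≤ U := hub hY hW (by linarith) ht
  rcases le_total (2 * u) 1 with cu | cu
  · exact TR_le_of_Ctl c N p q s0 s1 ln kn ld _ _ _ le_rfl le_rfl le_rfl hX hY hW hs hu hv ht
      (H0.ctl (fun u v t X Y W => TM_swap c N p q s0 s1 ln kn ld _ _ _ u v t X Y W)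
        (fun u v t X Y W => TM_swap' c N p q s0 s1 ln kn ld _ _ _ u v t X Y W)
        (fun u v t h => ⟨h.1.swap, h.2.2.1, h.2.1, h.2.2.2⟩)
        (fun u v t h => ⟨h.1.swap', h.2.1, h.2.2.2, h.2.2.1⟩)
        ⟨hD, cu, by linarith, by linarith⟩)
  rcases le_total (2 * v) 1 with cv | cv
  · exact TR_le_of_Ctl c N p q s0 s1 ln kn ld _ _ _ (hm1 u cu hu2) le_rfl le_rfl hX hY hW hs
      hu hv ht
      (H1.ctl (fun u v t X Y W => TM_swap' c N p q s0 s1 ln kn ld _ _ _ u v t X Y W)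
        (fun u v t h => ⟨h.1.swap', h.2.1, h.2.2.2, h.2.2.1⟩)
        ⟨hD, ⟨cu, hu2⟩, cv, by linarith⟩)
  rcases le_total (2 * t) 1 with ct | ct
  · exact TR_le_of_Ctl c N p q s0 s1 ln kn ld _ _ _ (hm2 u cu hu2) (hm2 v cv hv2) le_rfl hX hY hW
      hs hu hv ht
      (H2.ctl (fun u v t X Y W => TM_swap c N p q s0 s1 ln kn ld _ _ _ u v t X Y W)
        (fun u v t h => ⟨h.1.swap, h.2.2.1, h.2.1, h.2.2.2⟩)
        ⟨hD, ⟨cu, hu2⟩, ⟨cv, hv2⟩, ct⟩)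
  · exact TR_le_of_Ctl c N p q s0 s1 ln kn ld _ _ _ (hm3 u cu hu2) (hm3 v cv hv2) (hm3 t ct ht2)
      hX hY hW hs hu hv ht
      (H3.ctl (fun u v t X Y W => TM_swap c N p q s0 s1 ln kn ld _ _ _ u v t X Y W)
        (fun u v t X Y W => TM_swap' c N p q s0 s1 ln kn ld _ _ _ u v t X Y W)
        (fun u v t h => ⟨h.1.swap, h.2.2.1, h.2.1, h.2.2.2⟩)
        (fun u v t h => ⟨h.1.swap', h.2.1, h.2.2.2, h.2.2.1⟩)
        ⟨hD, ⟨cu, hu2⟩, ⟨cv, hv2⟩, ⟨ct, ht2⟩⟩)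

end Pool.Agent.SDL
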