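import Pool.Agent.SDL.Leg

set_option autoImplicit false

/-!
# TwoPt: the two point bound with lifts

`F u l m = F0 u + F1 u * (l + m) + F2 u * (l * m)` is a positive kernel, when it is a sum of
Legendre kernels with positive semidefinite `2 × 2` matrices.
-/

open scoped RealInnerProductSpace

namespace Pool.Agent.SDL

open Leg

section

variable {ι : Type} [Fintype ι]

/-- Positivity of the kernel `P u * (A + B (l + m) + C l m)`. -/
theorem psd_mat {P : ℝ → ℝ} (hP : PSDk P) {A B C : ℝ} (hA : 0 ≤ A) (hC : 0 ≤ C)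
    (hd : B ^ 2 ≤ A * C) (n : ι → EuclideanSpace ℝ (Fin 3)) (hn : ∀ i, ‖n i‖ = 1) (l : ι → ℝ) :
    0 ≤ ∑ i, ∑ j, (A + B * (l i + l j) + C * (l i * l j)) * P ⟪n i, n j⟫ := by
  rcases eq_or_lt_of_le hA with hA0 | hA0
  · have hB : B = 0 := by
      rw [← hA0, zero_mul] at hd
      nlinarith [sq_nonneg B]
    have h1 := mul_nonneg hC (hP ι inferInstance n l hn)
    rw [Finset.mul_sum] at h1
    refine le_of_le_of_eq h1 (Finset.sum_congr rfl fun i _ => ?_)
    rw [Finset.mul_sum]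
    refine Finset.sum_congr rfl fun j _ => ?_
    rw [← hA0, hB]
    ring
  · have h1 := mul_nonneg (le_of_lt (inv_pos.mpr hA0)) (hP ι inferInstance n (fun i => A + B * l i) hn)
    have h2 : 0 ≤ C - B ^ 2 / A := by
      rw [sub_nonneg, div_le_iff₀ hA0]
      linarith
    have h3 := mul_nonneg h2 (hP ι inferInstance n l hn)
    refine le_of_le_of_eq (add_nonneg h1 h3) ?_
    rw [Finset.mul_sum, Finset.mul_sum, ← Finset.sum_add_distrib]
    refine Finset.sum_congr rfl fun i _ => ?_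
    rw [Finset.mul_sum, Finset.mul_sum, ← Finset.sum_add_distrib]
    refine Finset.sum_congr rfl fun j _ => ?_
    field_simp
    ring

/-- The two point bound. -/
theorem two_point_bound (n : ι → EuclideanSpace ℝ (Fin 3)) (hn : ∀ i, ‖n i‖ = 1) (l : ι → ℝ)
    (F0 F1 F2 : ℝ → ℝ) (a b b2 b3 : ℝ)
    (hpos : 0 ≤ ∑ i, ∑ j, (F0 ⟪n i, n j⟫ + F1 ⟪n i, n j⟫ * (l i + l j) +
      F2 ⟪n i, n j⟫ * (l i * l j)))
    (hpair : ∀ i j, i ≠ j → F0 ⟪n i, n j⟫ + F1 ⟪n i, n j⟫ * (l i + l j) +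
      F2 ⟪n i, n j⟫ * (l i * l j) ≤ -a + b * (l i + l j) + b2 * (l i * l j) +
        b3 * (l i ^ 2 + l j ^ 2)) :
    0 ≤ -a * ((Fintype.card ι : ℝ) * ((Fintype.card ι : ℝ) - 1)) +
      2 * b * (((Fintype.card ι : ℝ) - 1) * ∑ i, l i) + b2 * ((∑ i, l i) ^ 2 - ∑ i, l i ^ 2) +
      2 * b3 * (((Fintype.card ι : ℝ) - 1) * ∑ i, l i ^ 2) + (Fintype.card ι : ℝ) * F0 1 +
      2 * F1 1 * (∑ i, l i) + F2 1 * ∑ i, l i ^ 2 := by
  classical
  set D : ι → ℝ := fun i => F0 1 + F1 1 * (l i + l i) + F2 1 * (l i * l i) -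
    (-a + b * (l i + l i) + b2 * (l i * l i) + b3 * (l i ^ 2 + l i ^ 2)) with hD
  have h1 : ∀ i j, F0 ⟪n i, n j⟫ + F1 ⟪n i, n j⟫ * (l i + l j) +
      F2 ⟪n i, n j⟫ * (l i * l j) ≤ (-a + b * (l i + l j) + b2 * (l i * l j) +
        b3 * (l i ^ 2 + l j ^ 2)) + if i = j then D i else 0 := by
    intro i j
    by_cases hij : i = j
    · subst hij
      have : ⟪n i, n i⟫ = 1 := by rw [real_inner_self_eq_norm_sq, hn i]; norm_num
      rw [if_pos rfl, this, hD]
      apply le_of_eq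
      ring
    · rw [if_neg hij, add_zero]
      exact hpair i j hij
  have h2 := hpos.trans (Finset.sum_le_sum fun i (_ : i ∈ Finset.univ) =>
    Finset.sum_le_sum fun j (_ : j ∈ Finset.univ) => h1 i j)
  refine le_of_le_of_eq h2 ?_
  have e1 : ∀ i, ∑ j, ((-a + b * (l i + l j) + b2 * (l i * l j) +
        b3 * (l i ^ 2 + l j ^ 2)) + if i = j then D i else 0) =
      (Fintype.card ι : ℝ) * (-a) + (Fintype.card ι : ℝ) * (b * l i) + b * (∑ j, l j) +
      b2 * l i * (∑ j, l j) + (Fintype.card ι : ℝ) * (b3 * l i ^ 2) + b3 * (∑ j, l j ^ 2) +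
        D i := by
    intro i
    simp only [Finset.sum_add_distrib, Finset.sum_ite_eq, Finset.mem_univ, if_true, mul_add,
      Finset.sum_const, Finset.card_univ, nsmul_eq_mul, ← Finset.mul_sum, mul_assoc]
    ring
  simp_rw [e1, hD]
  simp only [Finset.sum_add_distrib, Finset.sum_sub_distrib, Finset.sum_const, Finset.card_univ,
    nsmul_eq_mul, ← Finset.mul_sum, ← Finset.sum_mul, mul_assoc, ← pow_two]
  ring

end

end Pool.Agent.SDL
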