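import Pool.Agent.SDL.Defs
import Pool.Agent.SDL.TwoPt

set_option autoImplicit false
set_option linter.unusedSimpArgs false

/-!
# N16: the total lift of sixteen or more points of the shell

A two point (Delsarte) certificate of degree five with lifts.
-/

open scoped RealInnerProductSpace

namespace Pool.Agent.SDL

open Pool.Agent.SDC Leg

namespace N16

/-- The coefficient `F0` of the kernel. -/
noncomputable def F0 (u : ℝ) : ℝ :=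
  (17 / 2500 : ℝ) * L0 u + (1363 / 500 : ℝ) * L1 u + (1787 / 500 : ℝ) * L2 u + (799 / 250 : ℝ) * L3 u + (1911 / 1000 : ℝ) * L4 u + (643 / 1000 : ℝ) * L5 u

/-- The coefficient `F1` of the kernel. -/
noncomputable def F1 (u : ℝ) : ℝ :=
  (-663 / 5000 : ℝ) * L0 u + (-1967 / 500 : ℝ) * L1 u + (-3747 / 1000 : ℝ) * L2 u + (-87 / 50 : ℝ) * L3 u + (-191 / 1000 : ℝ) * L4 u + (439 / 1000 : ℝ) * L5 u

/-- The coefficient `F2` of the kernel. -/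
noncomputable def F2 (u : ℝ) : ℝ :=
  (25857 / 10000 : ℝ) * L0 u + (2897 / 500 : ℝ) * L1 u + (107 / 25 : ℝ) * L2 u + (213 / 200 : ℝ) * L3 u + (73 / 1000 : ℝ) * L4 u + (317 / 1000 : ℝ) * L5 u

theorem V1_0 (u : ℝ) (h1 : (-1 : ℝ) ≤ u) (h2 : u ≤ (-13 / 16 : ℝ)) : (F0 u + (24 / 25 : ℝ)) ≤ 0 := by
  have h3 : (0:ℝ) ≤ u - (-1 : ℝ) := by linarith
  have h4 : (0:ℝ) ≤ (-13 / 16 : ℝ) - u := by linarith
  have e : -((F0 u + (24 / 25 : ℝ))) = (74186752 / 151875 : ℝ) * ((-13 / 16 : ℝ) - u) ^ 5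
      + (32038912 / 30375 : ℝ) * (u - (-1 : ℝ)) ^ 1 * ((-13 / 16 : ℝ) - u) ^ 4
      + (22954496 / 30375 : ℝ) * (u - (-1 : ℝ)) ^ 2 * ((-13 / 16 : ℝ) - u) ^ 3
      + (1621168 / 6075 : ℝ) * (u - (-1 : ℝ)) ^ 3 * ((-13 / 16 : ℝ) - u) ^ 2
      + (4064203 / 30375 : ℝ) * (u - (-1 : ℝ)) ^ 4 * ((-13 / 16 : ℝ) - u) ^ 1
      + (498396733 / 9720000 : ℝ) * (u - (-1 : ℝ)) ^ 5 := by
    simp only [F0, F1, F2, L0, L1, L2, L3, L4, L5]
    ring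
  have h5 : 0 ≤ -((F0 u + (24 / 25 : ℝ))) := by
    rw [e]
    positivity
  linarith

theorem V1_1 (u : ℝ) (h1 : (-13 / 16 : ℝ) ≤ u) (h2 : u ≤ (-5 / 8 : ℝ)) : (F0 u + (24 / 25 : ℝ)) ≤ 0 := by
  have h3 : (0:ℝ) ≤ u - (-13 / 16 : ℝ) := by linarith
  have h4 : (0:ℝ) ≤ (-5 / 8 : ℝ) - u := by linarith
  have e : -((F0 u + (24 / 25 : ℝ))) = (498396733 / 9720000 : ℝ) * ((-5 / 8 : ℝ) - u) ^ 5
      + (368342237 / 972000 : ℝ) * (u - (-13 / 16 : ℝ)) ^ 1 * ((-5 / 8 : ℝ) - u) ^ 4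
      + (303134461 / 243000 : ℝ) * (u - (-13 / 16 : ℝ)) ^ 2 * ((-5 / 8 : ℝ) - u) ^ 3
      + (210955421 / 121500 : ℝ) * (u - (-13 / 16 : ℝ)) ^ 3 * ((-5 / 8 : ℝ) - u) ^ 2
      + (128142781 / 121500 : ℝ) * (u - (-13 / 16 : ℝ)) ^ 4 * ((-5 / 8 : ℝ) - u) ^ 1
      + (70816349 / 303750 : ℝ) * (u - (-13 / 16 : ℝ)) ^ 5 := by
    simp only [F0, F1, F2, L0, L1, L2, L3, L4, L5]
    ring
  have h5 : 0 ≤ -((F0 u + (24 / 25 : ℝ))) := by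
    rw [e]
    positivity
  linarith

theorem V1_2 (u : ℝ) (h1 : (-5 / 8 : ℝ) ≤ u) (h2 : u ≤ (-1 / 4 : ℝ)) : (F0 u + (24 / 25 : ℝ)) ≤ 0 := by
  have h3 : (0:ℝ) ≤ u - (-5 / 8 : ℝ) := by linarith
  have h4 : (0:ℝ) ≤ (-1 / 4 : ℝ) - u := by linarith
  have e : -((F0 u + (24 / 25 : ℝ))) = (70816349 / 9720000 : ℝ) * ((-1 / 4 : ℝ) - u) ^ 5
      + (42153133 / 972000 : ℝ) * (u - (-5 / 8 : ℝ)) ^ 1 * ((-1 / 4 : ℝ) - u) ^ 4
      + (19861469 / 243000 : ℝ) * (u - (-5 / 8 : ℝ)) ^ 2 * ((-1 / 4 : ℝ) - u) ^ 3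
      + (5956333 / 121500 : ℝ) * (u - (-5 / 8 : ℝ)) ^ 3 * ((-1 / 4 : ℝ) - u) ^ 2
      + (237817 / 24300 : ℝ) * (u - (-5 / 8 : ℝ)) ^ 4 * ((-1 / 4 : ℝ) - u) ^ 1
      + (410797 / 303750 : ℝ) * (u - (-5 / 8 : ℝ)) ^ 5 := by
    simp only [F0, F1, F2, L0, L1, L2, L3, L4, L5]
    ring
  have h5 : 0 ≤ -((F0 u + (24 / 25 : ℝ))) := by
    rw [e]
    positivity
  linarith

theorem V1_3 (u : ℝ) (h1 : (-1 / 4 : ℝ) ≤ u) (h2 : u ≤ (1 / 2 : ℝ)) : (F0 u + (24 / 25 : ℝ)) ≤ 0 := by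
  have h3 : (0:ℝ) ≤ u - (-1 / 4 : ℝ) := by linarith
  have h4 : (0:ℝ) ≤ (1 / 2 : ℝ) - u := by linarith
  have e : -((F0 u + (24 / 25 : ℝ))) = (410797 / 9720000 : ℝ) * ((1 / 2 : ℝ) - u) ^ 5
      + (21653 / 972000 : ℝ) * (u - (-1 / 4 : ℝ)) ^ 1 * ((1 / 2 : ℝ) - u) ^ 4
      + (629749 / 243000 : ℝ) * (u - (-1 / 4 : ℝ)) ^ 2 * ((1 / 2 : ℝ) - u) ^ 3
      + (1591469 / 121500 : ℝ) * (u - (-1 / 4 : ℝ)) ^ 3 * ((1 / 2 : ℝ) - u) ^ 2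
      + (1894429 / 121500 : ℝ) * (u - (-1 / 4 : ℝ)) ^ 4 * ((1 / 2 : ℝ) - u) ^ 1
      + (12581 / 303750 : ℝ) * (u - (-1 / 4 : ℝ)) ^ 5 := by
    simp only [F0, F1, F2, L0, L1, L2, L3, L4, L5]
    ring
  have h5 : 0 ≤ -((F0 u + (24 / 25 : ℝ))) := by
    rw [e]
    positivity
  linarith

theorem V1 (u : ℝ) (h1 : (-1 : ℝ) ≤ u) (h2 : u ≤ (1 / 2 : ℝ)) : (F0 u + (24 / 25 : ℝ)) ≤ 0 := by
  rcases le_total u (-13 / 16 : ℝ) with h | h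
  · exact V1_0 u (by linarith) h
  rcases le_total u (-5 / 8 : ℝ) with h | h
  · exact V1_1 u (by linarith) h
  rcases le_total u (-1 / 4 : ℝ) with h | h
  · exact V1_2 u (by linarith) h
  exact V1_3 u (by linarith) h2

theorem V2_0 (u : ℝ) (h1 : (-1 : ℝ) ≤ u) (h2 : u ≤ (-13 / 16 : ℝ)) : (F0 u + (24 / 25 : ℝ)) + (25841 / 100000 : ℝ) * (F1 u - (1633 / 1000 : ℝ)) ≤ 0 := by
  have h3 : (0:ℝ) ≤ u - (-1 : ℝ) := by linarith
  have h4 : (0:ℝ) ≤ (-13 / 16 : ℝ) - u := by linarith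
  have e : -((F0 u + (24 / 25 : ℝ)) + (25841 / 100000 : ℝ) * (F1 u - (1633 / 1000 : ℝ))) = (479827816448 / 474609375 : ℝ) * ((-13 / 16 : ℝ) - u) ^ 5
      + (241702164992 / 94921875 : ℝ) * (u - (-1 : ℝ)) ^ 1 * ((-13 / 16 : ℝ) - u) ^ 4
      + (216174273784 / 94921875 : ℝ) * (u - (-1 : ℝ)) ^ 2 * ((-13 / 16 : ℝ) - u) ^ 3
      + (168845235977 / 189843750 : ℝ) * (u - (-1 : ℝ)) ^ 3 * ((-13 / 16 : ℝ) - u) ^ 2
      + (233710279393 / 1215000000 : ℝ) * (u - (-1 : ℝ)) ^ 4 * ((-13 / 16 : ℝ) - u) ^ 1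
      + (37972192215289 / 972000000000 : ℝ) * (u - (-1 : ℝ)) ^ 5 := by
    simp only [F0, F1, F2, L0, L1, L2, L3, L4, L5]
    ring
  have h5 : 0 ≤ -((F0 u + (24 / 25 : ℝ)) + (25841 / 100000 : ℝ) * (F1 u - (1633 / 1000 : ℝ))) := by
    rw [e]
    positivity
  linarith

theorem V2_1 (u : ℝ) (h1 : (-13 / 16 : ℝ) ≤ u) (h2 : u ≤ (-5 / 8 : ℝ)) : (F0 u + (24 / 25 : ℝ)) + (25841 / 100000 : ℝ) * (F1 u - (1633 / 1000 : ℝ)) ≤ 0 := by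
  have h3 : (0:ℝ) ≤ u - (-13 / 16 : ℝ) := by linarith
  have h4 : (0:ℝ) ≤ (-5 / 8 : ℝ) - u := by linarith
  have e : -((F0 u + (24 / 25 : ℝ)) + (25841 / 100000 : ℝ) * (F1 u - (1633 / 1000 : ℝ))) = (37972192215289 / 972000000000 : ℝ) * ((-5 / 8 : ℝ) - u) ^ 5
      + (19275369863849 / 97200000000 : ℝ) * (u - (-13 / 16 : ℝ)) ^ 1 * ((-5 / 8 : ℝ) - u) ^ 4
      + (4438147543493 / 4860000000 : ℝ) * (u - (-13 / 16 : ℝ)) ^ 2 * ((-5 / 8 : ℝ) - u) ^ 3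
      + (3809597746357 / 2430000000 : ℝ) * (u - (-13 / 16 : ℝ)) ^ 3 * ((-5 / 8 : ℝ) - u) ^ 2
      + (13114692981433 / 12150000000 : ℝ) * (u - (-13 / 16 : ℝ)) ^ 4 * ((-5 / 8 : ℝ) - u) ^ 1
      + (7887317407337 / 30375000000 : ℝ) * (u - (-13 / 16 : ℝ)) ^ 5 := by
    simp only [F0, F1, F2, L0, L1, L2, L3, L4, L5]
    ring
  have h5 : 0 ≤ -((F0 u + (24 / 25 : ℝ)) + (25841 / 100000 : ℝ) * (F1 u - (1633 / 1000 : ℝ))) := by
    rw [e]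
    positivity
  linarith

theorem V2_2 (u : ℝ) (h1 : (-5 / 8 : ℝ) ≤ u) (h2 : u ≤ (-1 / 4 : ℝ)) : (F0 u + (24 / 25 : ℝ)) + (25841 / 100000 : ℝ) * (F1 u - (1633 / 1000 : ℝ)) ≤ 0 := by
  have h3 : (0:ℝ) ≤ u - (-5 / 8 : ℝ) := by linarith
  have h4 : (0:ℝ) ≤ (-1 / 4 : ℝ) - u := by linarith
  have e : -((F0 u + (24 / 25 : ℝ)) + (25841 / 100000 : ℝ) * (F1 u - (1633 / 1000 : ℝ))) = (7887317407337 / 972000000000 : ℝ) * ((-1 / 4 : ℝ) - u) ^ 5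
      + (5273629620289 / 97200000000 : ℝ) * (u - (-5 / 8 : ℝ)) ^ 1 * ((-1 / 4 : ℝ) - u) ^ 4
      + (567284375461 / 4860000000 : ℝ) * (u - (-5 / 8 : ℝ)) ^ 2 * ((-1 / 4 : ℝ) - u) ^ 3
      + (1012752546001 / 12150000000 : ℝ) * (u - (-5 / 8 : ℝ)) ^ 3 * ((-1 / 4 : ℝ) - u) ^ 2
      + (253986048137 / 12150000000 : ℝ) * (u - (-5 / 8 : ℝ)) ^ 4 * ((-1 / 4 : ℝ) - u) ^ 1
      + (66137226721 / 30375000000 : ℝ) * (u - (-5 / 8 : ℝ)) ^ 5 := by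
    simp only [F0, F1, F2, L0, L1, L2, L3, L4, L5]
    ring
  have h5 : 0 ≤ -((F0 u + (24 / 25 : ℝ)) + (25841 / 100000 : ℝ) * (F1 u - (1633 / 1000 : ℝ))) := by
    rw [e]
    positivity
  linarith

theorem V2_3 (u : ℝ) (h1 : (-1 / 4 : ℝ) ≤ u) (h2 : u ≤ (1 / 8 : ℝ)) : (F0 u + (24 / 25 : ℝ)) + (25841 / 100000 : ℝ) * (F1 u - (1633 / 1000 : ℝ)) ≤ 0 := by
  have h3 : (0:ℝ) ≤ u - (-1 / 4 : ℝ) := by linarith
  have h4 : (0:ℝ) ≤ (1 / 8 : ℝ) - u := by linarith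
  have e : -((F0 u + (24 / 25 : ℝ)) + (25841 / 100000 : ℝ) * (F1 u - (1633 / 1000 : ℝ))) = (66137226721 / 30375000000 : ℝ) * ((1 / 8 : ℝ) - u) ^ 5
      + (10562858747 / 12150000000 : ℝ) * (u - (-1 / 4 : ℝ)) ^ 1 * ((1 / 8 : ℝ) - u) ^ 4
      + (39059788441 / 12150000000 : ℝ) * (u - (-1 / 4 : ℝ)) ^ 2 * ((1 / 8 : ℝ) - u) ^ 3
      + (54322434971 / 972000000 : ℝ) * (u - (-1 / 4 : ℝ)) ^ 3 * ((1 / 8 : ℝ) - u) ^ 2
      + (9025825717009 / 97200000000 : ℝ) * (u - (-1 / 4 : ℝ)) ^ 4 * ((1 / 8 : ℝ) - u) ^ 1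
      + (34541782617227 / 972000000000 : ℝ) * (u - (-1 / 4 : ℝ)) ^ 5 := by
    simp only [F0, F1, F2, L0, L1, L2, L3, L4, L5]
    ring
  have h5 : 0 ≤ -((F0 u + (24 / 25 : ℝ)) + (25841 / 100000 : ℝ) * (F1 u - (1633 / 1000 : ℝ))) := by
    rw [e]
    positivity
  linarith

theorem V2_4 (u : ℝ) (h1 : (1 / 8 : ℝ) ≤ u) (h2 : u ≤ (1 / 2 : ℝ)) : (F0 u + (24 / 25 : ℝ)) + (25841 / 100000 : ℝ) * (F1 u - (1633 / 1000 : ℝ)) ≤ 0 := by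
  have h3 : (0:ℝ) ≤ u - (1 / 8 : ℝ) := by linarith
  have h4 : (0:ℝ) ≤ (1 / 2 : ℝ) - u := by linarith
  have e : -((F0 u + (24 / 25 : ℝ)) + (25841 / 100000 : ℝ) * (F1 u - (1633 / 1000 : ℝ))) = (34541782617227 / 972000000000 : ℝ) * ((1 / 2 : ℝ) - u) ^ 5
      + (12757978450109 / 48600000000 : ℝ) * (u - (1 / 8 : ℝ)) ^ 1 * ((1 / 2 : ℝ) - u) ^ 4
      + (4462048014371 / 6075000000 : ℝ) * (u - (1 / 8 : ℝ)) ^ 2 * ((1 / 2 : ℝ) - u) ^ 3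
      + (1437428537573 / 1518750000 : ℝ) * (u - (1 / 8 : ℝ)) ^ 3 * ((1 / 2 : ℝ) - u) ^ 2
      + (402573043739 / 759375000 : ℝ) * (u - (1 / 8 : ℝ)) ^ 4 * ((1 / 2 : ℝ) - u) ^ 1
      + (80916936173 / 949218750 : ℝ) * (u - (1 / 8 : ℝ)) ^ 5 := by
    simp only [F0, F1, F2, L0, L1, L2, L3, L4, L5]
    ring
  have h5 : 0 ≤ -((F0 u + (24 / 25 : ℝ)) + (25841 / 100000 : ℝ) * (F1 u - (1633 / 1000 : ℝ))) := by
    rw [e]
    positivity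
  linarith

theorem V2 (u : ℝ) (h1 : (-1 : ℝ) ≤ u) (h2 : u ≤ (1 / 2 : ℝ)) : (F0 u + (24 / 25 : ℝ)) + (25841 / 100000 : ℝ) * (F1 u - (1633 / 1000 : ℝ)) ≤ 0 := by
  rcases le_total u (-13 / 16 : ℝ) with h | h
  · exact V2_0 u (by linarith) h
  rcases le_total u (-5 / 8 : ℝ) with h | h
  · exact V2_1 u (by linarith) h
  rcases le_total u (-1 / 4 : ℝ) with h | h
  · exact V2_2 u (by linarith) h
  rcases le_total u (1 / 8 : ℝ) with h | h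
  · exact V2_3 u (by linarith) h
  exact V2_4 u (by linarith) h2

theorem V3_0 (u : ℝ) (h1 : (-1 : ℝ) ≤ u) (h2 : u ≤ (-13 / 16 : ℝ)) : (F0 u + (24 / 25 : ℝ)) + 2 * (25841 / 100000 : ℝ) * (F1 u - (1633 / 1000 : ℝ)) + (25841 / 100000 : ℝ) ^ 2 * F2 u ≤ 0 := by
  have h3 : (0:ℝ) ≤ u - (-1 : ℝ) := by linarith
  have h4 : (0:ℝ) ≤ (-13 / 16 : ℝ) - u := by linarith
  have e : -((F0 u + (24 / 25 : ℝ)) + 2 * (25841 / 100000 : ℝ) * (F1 u - (1633 / 1000 : ℝ)) + (25841 / 100000 : ℝ) ^ 2 * F2 u) = (2375857486580032 / 1483154296875 : ℝ) * ((-13 / 16 : ℝ) - u) ^ 5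
      + (1245179982267496 / 296630859375 : ℝ) * (u - (-1 : ℝ)) ^ 1 * ((-13 / 16 : ℝ) - u) ^ 4
      + (930853245798619 / 237304687500 : ℝ) * (u - (-1 : ℝ)) ^ 2 * ((-13 / 16 : ℝ) - u) ^ 3
      + (14829623576808571 / 9492187500000 : ℝ) * (u - (-1 : ℝ)) ^ 3 * ((-13 / 16 : ℝ) - u) ^ 2
      + (85957422591948757 / 303750000000000 : ℝ) * (u - (-1 : ℝ)) ^ 4 * ((-13 / 16 : ℝ) - u) ^ 1
      + (3930083267122561507 / 97200000000000000 : ℝ) * (u - (-1 : ℝ)) ^ 5 := by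
    simp only [F0, F1, F2, L0, L1, L2, L3, L4, L5]
    ring
  have h5 : 0 ≤ -((F0 u + (24 / 25 : ℝ)) + 2 * (25841 / 100000 : ℝ) * (F1 u - (1633 / 1000 : ℝ)) + (25841 / 100000 : ℝ) ^ 2 * F2 u) := by
    rw [e]
    positivity
  linarith

theorem V3_1 (u : ℝ) (h1 : (-13 / 16 : ℝ) ≤ u) (h2 : u ≤ (-5 / 8 : ℝ)) : (F0 u + (24 / 25 : ℝ)) + 2 * (25841 / 100000 : ℝ) * (F1 u - (1633 / 1000 : ℝ)) + (25841 / 100000 : ℝ) ^ 2 * F2 u ≤ 0 := by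
  have h3 : (0:ℝ) ≤ u - (-13 / 16 : ℝ) := by linarith
  have h4 : (0:ℝ) ≤ (-5 / 8 : ℝ) - u := by linarith
  have e : -((F0 u + (24 / 25 : ℝ)) + 2 * (25841 / 100000 : ℝ) * (F1 u - (1633 / 1000 : ℝ)) + (25841 / 100000 : ℝ) ^ 2 * F2 u) = (3930083267122561507 / 97200000000000000 : ℝ) * ((-5 / 8 : ℝ) - u) ^ 5
      + (1179445744180201283 / 9720000000000000 : ℝ) * (u - (-13 / 16 : ℝ)) ^ 1 * ((-5 / 8 : ℝ) - u) ^ 4
      + (445038371380167047 / 486000000000000 : ℝ) * (u - (-13 / 16 : ℝ)) ^ 2 * ((-5 / 8 : ℝ) - u) ^ 3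
      + (2301352986795534083 / 1215000000000000 : ℝ) * (u - (-13 / 16 : ℝ)) ^ 3 * ((-5 / 8 : ℝ) - u) ^ 2
      + (1742217722743032163 / 1215000000000000 : ℝ) * (u - (-13 / 16 : ℝ)) ^ 4 * ((-5 / 8 : ℝ) - u) ^ 1
      + (1116575728473821891 / 3037500000000000 : ℝ) * (u - (-13 / 16 : ℝ)) ^ 5 := by
    simp only [F0, F1, F2, L0, L1, L2, L3, L4, L5]
    ring
  have h5 : 0 ≤ -((F0 u + (24 / 25 : ℝ)) + 2 * (25841 / 100000 : ℝ) * (F1 u - (1633 / 1000 : ℝ)) + (25841 / 100000 : ℝ) ^ 2 * F2 u) := by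
    rw [e]
    positivity
  linarith

theorem V3_2 (u : ℝ) (h1 : (-5 / 8 : ℝ) ≤ u) (h2 : u ≤ (-1 / 4 : ℝ)) : (F0 u + (24 / 25 : ℝ)) + 2 * (25841 / 100000 : ℝ) * (F1 u - (1633 / 1000 : ℝ)) + (25841 / 100000 : ℝ) ^ 2 * F2 u ≤ 0 := by
  have h3 : (0:ℝ) ≤ u - (-5 / 8 : ℝ) := by linarith
  have h4 : (0:ℝ) ≤ (-1 / 4 : ℝ) - u := by linarith
  have e : -((F0 u + (24 / 25 : ℝ)) + 2 * (25841 / 100000 : ℝ) * (F1 u - (1633 / 1000 : ℝ)) + (25841 / 100000 : ℝ) ^ 2 * F2 u) = (1116575728473821891 / 97200000000000000 : ℝ) * ((-1 / 4 : ℝ) - u) ^ 5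
      + (160750946267843351 / 1944000000000000 : ℝ) * (u - (-5 / 8 : ℝ)) ^ 1 * ((-1 / 4 : ℝ) - u) ^ 4
      + (474307051650434531 / 2430000000000000 : ℝ) * (u - (-5 / 8 : ℝ)) ^ 2 * ((-1 / 4 : ℝ) - u) ^ 3
      + (199331397373786771 / 1215000000000000 : ℝ) * (u - (-5 / 8 : ℝ)) ^ 3 * ((-1 / 4 : ℝ) - u) ^ 2
      + (64582793653819907 / 1215000000000000 : ℝ) * (u - (-5 / 8 : ℝ)) ^ 4 * ((-1 / 4 : ℝ) - u) ^ 1
      + (18417703672193203 / 3037500000000000 : ℝ) * (u - (-5 / 8 : ℝ)) ^ 5 := by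
    simp only [F0, F1, F2, L0, L1, L2, L3, L4, L5]
    ring
  have h5 : 0 ≤ -((F0 u + (24 / 25 : ℝ)) + 2 * (25841 / 100000 : ℝ) * (F1 u - (1633 / 1000 : ℝ)) + (25841 / 100000 : ℝ) ^ 2 * F2 u) := by
    rw [e]
    positivity
  linarith

theorem V3_3 (u : ℝ) (h1 : (-1 / 4 : ℝ) ≤ u) (h2 : u ≤ (-1 / 16 : ℝ)) : (F0 u + (24 / 25 : ℝ)) + 2 * (25841 / 100000 : ℝ) * (F1 u - (1633 / 1000 : ℝ)) + (25841 / 100000 : ℝ) ^ 2 * F2 u ≤ 0 := by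
  have h3 : (0:ℝ) ≤ u - (-1 / 4 : ℝ) := by linarith
  have h4 : (0:ℝ) ≤ (-1 / 16 : ℝ) - u := by linarith
  have e : -((F0 u + (24 / 25 : ℝ)) + 2 * (25841 / 100000 : ℝ) * (F1 u - (1633 / 1000 : ℝ)) + (25841 / 100000 : ℝ) ^ 2 * F2 u) = (18417703672193203 / 94921875000000 : ℝ) * ((-1 / 16 : ℝ) - u) ^ 5
      + (45923428379339311 / 75937500000000 : ℝ) * (u - (-1 / 4 : ℝ)) ^ 1 * ((-1 / 16 : ℝ) - u) ^ 4
      + (17475041145380639 / 30375000000000 : ℝ) * (u - (-1 / 4 : ℝ)) ^ 2 * ((-1 / 16 : ℝ) - u) ^ 3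
      + (116940379658909239 / 607500000000000 : ℝ) * (u - (-1 / 4 : ℝ)) ^ 3 * ((-1 / 16 : ℝ) - u) ^ 2
      + (545777566728721987 / 4860000000000000 : ℝ) * (u - (-1 / 4 : ℝ)) ^ 4 * ((-1 / 16 : ℝ) - u) ^ 1
      + (7520906823147024127 / 97200000000000000 : ℝ) * (u - (-1 / 4 : ℝ)) ^ 5 := by
    simp only [F0, F1, F2, L0, L1, L2, L3, L4, L5]
    ring
  have h5 : 0 ≤ -((F0 u + (24 / 25 : ℝ)) + 2 * (25841 / 100000 : ℝ) * (F1 u - (1633 / 1000 : ℝ)) + (25841 / 100000 : ℝ) ^ 2 * F2 u) := by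
    rw [e]
    positivity
  linarith

theorem V3_4 (u : ℝ) (h1 : (-1 / 16 : ℝ) ≤ u) (h2 : u ≤ (1 / 8 : ℝ)) : (F0 u + (24 / 25 : ℝ)) + 2 * (25841 / 100000 : ℝ) * (F1 u - (1633 / 1000 : ℝ)) + (25841 / 100000 : ℝ) ^ 2 * F2 u ≤ 0 := by
  have h3 : (0:ℝ) ≤ u - (-1 / 16 : ℝ) := by linarith
  have h4 : (0:ℝ) ≤ (1 / 8 : ℝ) - u := by linarith
  have e : -((F0 u + (24 / 25 : ℝ)) + 2 * (25841 / 100000 : ℝ) * (F1 u - (1633 / 1000 : ℝ)) + (25841 / 100000 : ℝ) ^ 2 * F2 u) = (7520906823147024127 / 97200000000000000 : ℝ) * ((1 / 8 : ℝ) - u) ^ 5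
      + (6429351689689580153 / 9720000000000000 : ℝ) * (u - (-1 / 16 : ℝ)) ^ 1 * ((1 / 8 : ℝ) - u) ^ 4
      + (1161111614973554627 / 486000000000000 : ℝ) * (u - (-1 / 16 : ℝ)) ^ 2 * ((1 / 8 : ℝ) - u) ^ 3
      + (4950524332866377513 / 1215000000000000 : ℝ) * (u - (-1 / 16 : ℝ)) ^ 3 * ((1 / 8 : ℝ) - u) ^ 2
      + (3900023671939596703 / 1215000000000000 : ℝ) * (u - (-1 / 16 : ℝ)) ^ 4 * ((1 / 8 : ℝ) - u) ^ 1
      + (2835237636900880601 / 3037500000000000 : ℝ) * (u - (-1 / 16 : ℝ)) ^ 5 := by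
    simp only [F0, F1, F2, L0, L1, L2, L3, L4, L5]
    ring
  have h5 : 0 ≤ -((F0 u + (24 / 25 : ℝ)) + 2 * (25841 / 100000 : ℝ) * (F1 u - (1633 / 1000 : ℝ)) + (25841 / 100000 : ℝ) ^ 2 * F2 u) := by
    rw [e]
    positivity
  linarith

theorem V3_5 (u : ℝ) (h1 : (1 / 8 : ℝ) ≤ u) (h2 : u ≤ (1 / 2 : ℝ)) : (F0 u + (24 / 25 : ℝ)) + 2 * (25841 / 100000 : ℝ) * (F1 u - (1633 / 1000 : ℝ)) + (25841 / 100000 : ℝ) ^ 2 * F2 u ≤ 0 := by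
  have h3 : (0:ℝ) ≤ u - (1 / 8 : ℝ) := by linarith
  have h4 : (0:ℝ) ≤ (1 / 2 : ℝ) - u := by linarith
  have e : -((F0 u + (24 / 25 : ℝ)) + 2 * (25841 / 100000 : ℝ) * (F1 u - (1633 / 1000 : ℝ)) + (25841 / 100000 : ℝ) ^ 2 * F2 u) = (2835237636900880601 / 97200000000000000 : ℝ) * ((1 / 2 : ℝ) - u) ^ 5
      + (46056892387630451 / 194400000000000 : ℝ) * (u - (1 / 8 : ℝ)) ^ 1 * ((1 / 2 : ℝ) - u) ^ 4
      + (441720064583545169 / 607500000000000 : ℝ) * (u - (1 / 8 : ℝ)) ^ 2 * ((1 / 2 : ℝ) - u) ^ 3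
      + (156249030857567027 / 151875000000000 : ℝ) * (u - (1 / 8 : ℝ)) ^ 3 * ((1 / 2 : ℝ) - u) ^ 2
      + (48994768693576457 / 75937500000000 : ℝ) * (u - (1 / 8 : ℝ)) ^ 4 * ((1 / 2 : ℝ) - u) ^ 1
      + (12220576454488619 / 94921875000000 : ℝ) * (u - (1 / 8 : ℝ)) ^ 5 := by
    simp only [F0, F1, F2, L0, L1, L2, L3, L4, L5]
    ring
  have h5 : 0 ≤ -((F0 u + (24 / 25 : ℝ)) + 2 * (25841 / 100000 : ℝ) * (F1 u - (1633 / 1000 : ℝ)) + (25841 / 100000 : ℝ) ^ 2 * F2 u) := by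
    rw [e]
    positivity
  linarith

theorem V3 (u : ℝ) (h1 : (-1 : ℝ) ≤ u) (h2 : u ≤ (1 / 2 : ℝ)) : (F0 u + (24 / 25 : ℝ)) + 2 * (25841 / 100000 : ℝ) * (F1 u - (1633 / 1000 : ℝ)) + (25841 / 100000 : ℝ) ^ 2 * F2 u ≤ 0 := by
  rcases le_total u (-13 / 16 : ℝ) with h | h
  · exact V3_0 u (by linarith) h
  rcases le_total u (-5 / 8 : ℝ) with h | h
  · exact V3_1 u (by linarith) h
  rcases le_total u (-1 / 4 : ℝ) with h | h
  · exact V3_2 u (by linarith) h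
  rcases le_total u (-1 / 16 : ℝ) with h | h
  · exact V3_3 u (by linarith) h
  rcases le_total u (1 / 8 : ℝ) with h | h
  · exact V3_4 u (by linarith) h
  exact V3_5 u (by linarith) h2

theorem V4_0 (u : ℝ) (h1 : (1 / 2 : ℝ) ≤ u) (h2 : u ≤ (125841 / 200000 : ℝ)) : (F0 u + (24 / 25 : ℝ)) + (2 * u - 1) * (F1 u - (1633 / 1000 : ℝ)) ≤ 0 := by
  have h3 : (0:ℝ) ≤ u - (1 / 2 : ℝ) := by linarith
  have h4 : (0:ℝ) ≤ (125841 / 200000 : ℝ) - u := by linarith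
  have e : -((F0 u + (24 / 25 : ℝ)) + (2 * u - 1) * (F1 u - (1633 / 1000 : ℝ))) = (629050000000000000000000000000 / 297752828917208787610619041 : ℝ) * ((125841 / 200000 : ℝ) - u) ^ 6
      + (3350610964000000000000000000000 / 297752828917208787610619041 : ℝ) * (u - (1 / 2 : ℝ)) ^ 1 * ((125841 / 200000 : ℝ) - u) ^ 5
      + (8557947766301925000000000000000 / 297752828917208787610619041 : ℝ) * (u - (1 / 2 : ℝ)) ^ 2 * ((125841 / 200000 : ℝ) - u) ^ 4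
      + (12823837579340881778000000000000 / 297752828917208787610619041 : ℝ) * (u - (1 / 2 : ℝ)) ^ 3 * ((125841 / 200000 : ℝ) - u) ^ 3
      + (10862787485264415394972787500000 / 297752828917208787610619041 : ℝ) * (u - (1 / 2 : ℝ)) ^ 4 * ((125841 / 200000 : ℝ) - u) ^ 2
      + (4459446041690898394220313744400 / 297752828917208787610619041 : ℝ) * (u - (1 / 2 : ℝ)) ^ 5 * ((125841 / 200000 : ℝ) - u) ^ 1
      + (2328202383872395865551158086783063 / 1191011315668835150442476164000 : ℝ) * (u - (1 / 2 : ℝ)) ^ 6 := by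
    simp only [F0, F1, F2, L0, L1, L2, L3, L4, L5]
    ring
  have h5 : 0 ≤ -((F0 u + (24 / 25 : ℝ)) + (2 * u - 1) * (F1 u - (1633 / 1000 : ℝ))) := by
    rw [e]
    positivity
  linarith

theorem V4 (u : ℝ) (h1 : (1 / 2 : ℝ) ≤ u) (h2 : u ≤ (125841 / 200000 : ℝ)) : (F0 u + (24 / 25 : ℝ)) + (2 * u - 1) * (F1 u - (1633 / 1000 : ℝ)) ≤ 0 := by
  exact V4_0 u (by linarith) h2

theorem V5_0 (u : ℝ) (h1 : (125841 / 200000 : ℝ) ≤ u) (h2 : u ≤ (137 / 200 : ℝ)) : (F0 u + (24 / 25 : ℝ)) + (2 * u - 1) * (F1 u - (1633 / 1000 : ℝ)) + ((25841 / 100000 : ℝ) * (2 * u - 1 - (25841 / 100000 : ℝ))) * ((111 / 50 : ℝ) * (F1 u - (1633 / 1000 : ℝ)) + F2 u) ≤ 0 := by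
  have h3 : (0:ℝ) ≤ u - (125841 / 200000 : ℝ) := by linarith
  have h4 : (0:ℝ) ≤ (137 / 200 : ℝ) - u := by linarith
  have e : -((F0 u + (24 / 25 : ℝ)) + (2 * u - 1) * (F1 u - (1633 / 1000 : ℝ)) + ((25841 / 100000 : ℝ) * (2 * u - 1 - (25841 / 100000 : ℝ))) * ((111 / 50 : ℝ) * (F1 u - (1633 / 1000 : ℝ)) + F2 u)) = (2328202383872395865551158086783063 / 7723455645648885403988164000 : ℝ) * ((137 / 200 : ℝ) - u) ^ 6
      + (164980422573234142897106031750989538154437 / 38617278228244427019940820000000000 : ℝ) * (u - (125841 / 200000 : ℝ)) ^ 1 * ((137 / 200 : ℝ) - u) ^ 5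
      + (135280071685837289265156877136730325909 / 7723455645648885403988164000000 : ℝ) * (u - (125841 / 200000 : ℝ)) ^ 2 * ((137 / 200 : ℝ) - u) ^ 4
      + (128689198514593842529537325499587813 / 3861727822824442701994082000 : ℝ) * (u - (125841 / 200000 : ℝ)) ^ 3 * ((137 / 200 : ℝ) - u) ^ 3
      + (127692909500444310799000082332341 / 3861727822824442701994082 : ℝ) * (u - (125841 / 200000 : ℝ)) ^ 4 * ((137 / 200 : ℝ) - u) ^ 2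
      + (32184935419639886705254020609250 / 1930863911412221350997041 : ℝ) * (u - (125841 / 200000 : ℝ)) ^ 5 * ((137 / 200 : ℝ) - u) ^ 1
      + (6530009037547720665891095450000 / 1930863911412221350997041 : ℝ) * (u - (125841 / 200000 : ℝ)) ^ 6 := by
    simp only [F0, F1, F2, L0, L1, L2, L3, L4, L5]
    ring
  have h5 : 0 ≤ -((F0 u + (24 / 25 : ℝ)) + (2 * u - 1) * (F1 u - (1633 / 1000 : ℝ)) + ((25841 / 100000 : ℝ) * (2 * u - 1 - (25841 / 100000 : ℝ))) * ((111 / 50 : ℝ) * (F1 u - (1633 / 1000 : ℝ)) + F2 u)) := by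
    rw [e]
    positivity
  linarith

theorem V5 (u : ℝ) (h1 : (125841 / 200000 : ℝ) ≤ u) (h2 : u ≤ (137 / 200 : ℝ)) : (F0 u + (24 / 25 : ℝ)) + (2 * u - 1) * (F1 u - (1633 / 1000 : ℝ)) + ((25841 / 100000 : ℝ) * (2 * u - 1 - (25841 / 100000 : ℝ))) * ((111 / 50 : ℝ) * (F1 u - (1633 / 1000 : ℝ)) + F2 u) ≤ 0 := by
  exact V5_0 u (by linarith) h2

theorem V6_0 (u : ℝ) (h1 : (1 / 2 : ℝ) ≤ u) (h2 : u ≤ (137 / 200 : ℝ)) : (F1 u - (1633 / 1000 : ℝ)) ≤ 0 := by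
  have h3 : (0:ℝ) ≤ u - (1 / 2 : ℝ) := by linarith
  have h4 : (0:ℝ) ≤ (137 / 200 : ℝ) - u := by linarith
  have e : -((F1 u - (1633 / 1000 : ℝ))) = (770663250000 / 69343957 : ℝ) * ((137 / 200 : ℝ) - u) ^ 5
      + (4497768837500 / 69343957 : ℝ) * (u - (1 / 2 : ℝ)) ^ 1 * ((137 / 200 : ℝ) - u) ^ 4
      + (10439119657250 / 69343957 : ℝ) * (u - (1 / 2 : ℝ)) ^ 2 * ((137 / 200 : ℝ) - u) ^ 3
      + (24079699359975 / 138687914 : ℝ) * (u - (1 / 2 : ℝ)) ^ 3 * ((137 / 200 : ℝ) - u) ^ 2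
      + (110354769647337 / 1109503312 : ℝ) * (u - (1 / 2 : ℝ)) ^ 4 * ((137 / 200 : ℝ) - u) ^ 1
      + (12552782095949751 / 554751656000 : ℝ) * (u - (1 / 2 : ℝ)) ^ 5 := by
    simp only [F0, F1, F2, L0, L1, L2, L3, L4, L5]
    ring
  have h5 : 0 ≤ -((F1 u - (1633 / 1000 : ℝ))) := by
    rw [e]
    positivity
  linarith

theorem V6 (u : ℝ) (h1 : (1 / 2 : ℝ) ≤ u) (h2 : u ≤ (137 / 200 : ℝ)) : (F1 u - (1633 / 1000 : ℝ)) ≤ 0 := by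
  exact V6_0 u (by linarith) h2

theorem V7_0 (u : ℝ) (h1 : (1 / 2 : ℝ) ≤ u) (h2 : u ≤ (137 / 200 : ℝ)) : (111 / 50 : ℝ) * (F1 u - (1633 / 1000 : ℝ)) + F2 u ≤ 0 := by
  have h3 : (0:ℝ) ≤ u - (1 / 2 : ℝ) := by linarith
  have h4 : (0:ℝ) ≤ (137 / 200 : ℝ) - u := by linarith
  have e : -((111 / 50 : ℝ) * (F1 u - (1633 / 1000 : ℝ)) + F2 u) = (274347165000 / 69343957 : ℝ) * ((137 / 200 : ℝ) - u) ^ 5
      + (2104245831750 / 69343957 : ℝ) * (u - (1 / 2 : ℝ)) ^ 1 * ((137 / 200 : ℝ) - u) ^ 4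
      + (5911986007845 / 69343957 : ℝ) * (u - (1 / 2 : ℝ)) ^ 2 * ((137 / 200 : ℝ) - u) ^ 3
      + (31382908616939 / 277375828 : ℝ) * (u - (1 / 2 : ℝ)) ^ 3 * ((137 / 200 : ℝ) - u) ^ 2
      + (3993430556220757 / 55475165600 : ℝ) * (u - (1 / 2 : ℝ)) ^ 4 * ((137 / 200 : ℝ) - u) ^ 1
      + (490977228560335011 / 27737582800000 : ℝ) * (u - (1 / 2 : ℝ)) ^ 5 := by
    simp only [F0, F1, F2, L0, L1, L2, L3, L4, L5]
    ring
  have h5 : 0 ≤ -((111 / 50 : ℝ) * (F1 u - (1633 / 1000 : ℝ)) + F2 u) := by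
    rw [e]
    positivity
  linarith

theorem V7 (u : ℝ) (h1 : (1 / 2 : ℝ) ≤ u) (h2 : u ≤ (137 / 200 : ℝ)) : (111 / 50 : ℝ) * (F1 u - (1633 / 1000 : ℝ)) + F2 u ≤ 0 := by
  exact V7_0 u (by linarith) h2

/-- The pair inequality for the kernel. -/
theorem pair_ineq (l m u : ℝ) (hl0 : 0 ≤ l) (hl1 : l ≤ 0.25841) (hm0 : 0 ≤ m) (hm1 : m ≤ 0.25841)
    (hu0 : -1 ≤ u) (hu1 : u ≤ (1 + l + m) / 2 - 1.11 * (l * m)) :
    F0 u + F1 u * (l + m) + F2 u * (l * m) ≤ -0.96 + 1.633 * (l + m) := by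
  have a1 : 0 ≤ 0.25841 - l := by linarith
  have a2 : 0 ≤ 0.25841 - m := by linarith
  have a3 : 0 ≤ l * m := mul_nonneg hl0 hm0
  rcases le_total u (1 / 2) with hu | hu
  · have v1 := V1 u (by linarith) hu
    have v2 := V2 u (by linarith) hu
    have v3 := V3 u (by linarith) hu
    have b1 := mul_nonneg (mul_nonneg a1 a2) (neg_nonneg.mpr v1)
    have b2 := mul_nonneg (add_nonneg (mul_nonneg hl0 a2) (mul_nonneg hm0 a1)) (neg_nonneg.mpr v2)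
    have b3 := mul_nonneg a3 (neg_nonneg.mpr v3)
    have b4 : 0 ≤ (0.25841 : ℝ) ^ 2 * (-0.96 + 1.633 * (l + m) -
        (F0 u + F1 u * (l + m) + F2 u * (l * m))) := by
      have e := add_nonneg (add_nonneg b1 b2) b3
      refine le_of_le_of_eq e ?_
      norm_num
      ring
    have b5 := nonneg_of_mul_nonneg_right b4 (by norm_num)
    linarith
  · have hu2 : u ≤ 137 / 200 := by nlinarith [mul_nonneg a1 a2]
    have v6 := V6 u (by linarith) (by linarith)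
    have v7 := V7 u (by linarith) (by linarith)
    have c1 : 0 ≤ -(F1 u - 1633 / 1000) * ((l + m) - (2 * u - 1 + 2.22 * (l * m))) :=
      mul_nonneg (neg_nonneg.mpr v6) (by linarith)
    rcases le_total u ((1 + 0.25841) / 2) with hu3 | hu3
    · have v4 := V4 u (by linarith) (by norm_num at hu3 ⊢; linarith)
      have c2 : 0 ≤ -(111 / 50 * (F1 u - 1633 / 1000) + F2 u) * (l * m) :=
        mul_nonneg (neg_nonneg.mpr v7) a3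
      nlinarith
    · have v5 := V5 u (by norm_num at hu3 ⊢; linarith) (by linarith)
      have c3 : 0 ≤ l * m - 0.25841 * (2 * u - 1 - 0.25841) := by nlinarith [mul_nonneg a1 a2]
      have c2 : 0 ≤ -(111 / 50 * (F1 u - 1633 / 1000) + F2 u) *
          (l * m - 0.25841 * (2 * u - 1 - 0.25841)) :=
        mul_nonneg (neg_nonneg.mpr v7) c3
      nlinarith

theorem kernel_pos {ι : Type} [Fintype ι] (n : ι → EuclideanSpace ℝ (Fin 3))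
    (hn : ∀ i, ‖n i‖ = 1) (l : ι → ℝ) :
    0 ≤ ∑ i, ∑ j, (F0 ⟪n i, n j⟫ + F1 ⟪n i, n j⟫ * (l i + l j) +
      F2 ⟪n i, n j⟫ * (l i * l j)) := by
  have k0 := psd_mat psd_L0 (A := 17 / 2500) (B := -663 / 5000) (C := 25857 / 10000) (by norm_num)
    (by norm_num) (by norm_num) n hn l
  have k1 := psd_mat psd_L1 (A := 1363 / 500) (B := -1967 / 500) (C := 2897 / 500) (by norm_num)
    (by norm_num) (by norm_num) n hn l
  have k2 := psd_mat psd_L2 (A := 1787 / 500) (B := -3747 / 1000) (C := 107 / 25) (by norm_num)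
    (by norm_num) (by norm_num) n hn l
  have k3 := psd_mat psd_L3 (A := 799 / 250) (B := -87 / 50) (C := 213 / 200) (by norm_num)
    (by norm_num) (by norm_num) n hn l
  have k4 := psd_mat psd_L4 (A := 1911 / 1000) (B := -191 / 1000) (C := 73 / 1000) (by norm_num)
    (by norm_num) (by norm_num) n hn l
  have k5 := psd_mat psd_L5 (A := 643 / 1000) (B := 439 / 1000) (C := 317 / 1000) (by norm_num)
    (by norm_num) (by norm_num) n hn l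
  refine le_of_le_of_eq
    (add_nonneg (add_nonneg (add_nonneg (add_nonneg (add_nonneg k0 k1) k2) k3) k4) k5) ?_
  simp only [← Finset.sum_add_distrib]
  refine Finset.sum_congr rfl fun i _ => Finset.sum_congr rfl fun j _ => ?_
  unfold F0 F1 F2
  ring

end N16

open N16 in
/-- **Sixteen or more points.**  The total lift of `N ≥ 16` points of the shell is at least
(R - 1) (N - 12). -/
theorem lift_ge_of_sixteen {ι : Type} [Fintype ι] {n : ι → E3} {h : ι → ℝ} (H : Pck n h)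
    (hR : ∀ i, h i ≤ R) (hN : 16 ≤ Fintype.card ι) :
    (R - 1) * ((Fintype.card ι : ℝ) - 12) ≤ ∑ i, (h i - 1) := by
  by_contra hlt
  push Not at hlt
  set N : ℝ := (Fintype.card ι : ℝ) with hNdef
  have hN' : (16 : ℝ) ≤ N := by rw [hNdef]; exact_mod_cast hN
  set l : ι → ℝ := fun i => h i - 1 with hl
  have l0 : ∀ i, 0 ≤ l i := fun i => by rw [hl]; linarith [H.2.1 i]
  have l1 : ∀ i, l i ≤ 0.25841 := fun i => by
    have := hR i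
    have := R_hi'
    rw [hl]
    norm_num at *
    linarith
  have hpair : ∀ i j, i ≠ j → F0 ⟪n i, n j⟫ + F1 ⟪n i, n j⟫ * (l i + l j) +
      F2 ⟪n i, n j⟫ * (l i * l j) ≤ -(24 / 25) + 1633 / 1000 * (l i + l j) + 0 * (l i * l j) +
        0 * (l i ^ 2 + l j ^ 2) := by
    intro i j hij
    have h1 := H.2.2 i j hij
    have hu0 : -1 ≤ ⟪n i, n j⟫ := by
      have := abs_real_inner_le_norm (n i) (n j)
      rw [H.1 i, H.1 j, mul_one, abs_le] at this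
      exact this.1
    have e1 : h i = 1 + l i := by rw [hl]; ring
    have e2 : h j = 1 + l j := by rw [hl]; ring
    have hu1 : ⟪n i, n j⟫ ≤ (1 + l i + l j) / 2 - 1.11 * (l i * l j) := by
      by_contra hc
      push Not at hc
      rw [e1, e2] at h1
      have p1 : 0 < (1 + l i) * (1 + l j) := by
        have := l0 i
        have := l0 j
        positivity
      have p2 := mul_lt_mul_of_pos_left hc p1
      have p3 : 0 ≤ l i * l j * (3 + l i + l j - 2.22 * ((1 + l i) * (1 + l j))) := by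
        apply mul_nonneg (mul_nonneg (l0 i) (l0 j))
        nlinarith [l0 i, l0 j, l1 i, l1 j, mul_nonneg (sub_nonneg.mpr (l1 i))
          (sub_nonneg.mpr (l1 j)), mul_nonneg (l0 i) (l0 j)]
      nlinarith
    have := pair_ineq (l i) (l j) ⟪n i, n j⟫ (l0 i) (l1 i) (l0 j) (l1 j) hu0 hu1
    norm_num at this ⊢
    linarith
  have key := two_point_bound n H.1 l F0 F1 F2 (24 / 25) (1633 / 1000) 0 0
    (kernel_pos n H.1 l) hpair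
  have f0 : F0 1 = 12.0568 := by
    simp only [F0, L0, L1, L2, L3, L4, L5]; norm_num
  have f1 : F1 1 = -9.3056 := by
    simp only [F1, L0, L1, L2, L3, L4, L5]; norm_num
  have f2 : F2 1 = 14.1147 := by
    simp only [F2, L0, L1, L2, L3, L4, L5]; norm_num
  rw [f0, f1, f2, ← hNdef] at key
  set S : ℝ := ∑ i, l i with hS
  have hS0 : 0 ≤ S := Finset.sum_nonneg fun i _ => l0 i
  have hS1 : S ≤ 0.25841 * (N - 12) := by
    have h1 : R - 1 ≤ 0.25841 := by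
      have := R_hi'
      norm_num at *
      linarith
    have : (R - 1) * (N - 12) ≤ 0.25841 * (N - 12) :=
      mul_le_mul_of_nonneg_right h1 (by linarith)
    linarith
  have hS2 : ∑ i, l i ^ 2 ≤ 0.25841 * S := by
    rw [hS, Finset.mul_sum]
    refine Finset.sum_le_sum fun i _ => ?_
    rw [pow_two]
    exact mul_le_mul_of_nonneg_right (l1 i) (l0 i)
  have h3 : 0 ≤ (0.25841 * (N - 12) - S) * (2 * (1633 / 1000) * (N - 1) - 14) :=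
    mul_nonneg (by linarith) (by norm_num; linarith)
  nlinarith

end Pool.Agent.SDL
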