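import Pool.Agent.SDL.P3_N0

set_option autoImplicit false

/-!
# SDL: assembly of the target P
-/

open MeasureTheory Set Real
open scoped RealInnerProductSpace

namespace Pool.Agent.SDL

open Pool.Agent.SDC

/-- P from the four pieces: the contribution `T t h` of one side (`hS`), the inequality for four
sides in the region `A` (`h4`), the large heights (`hL`), at least six sides (`h6`). -/
theorem P_of (T : ℝ → ℝ → ℝ) (A : ℝ → ℝ → Prop)
    (hS : ∀ (ι : Type) [Fintype ι] (n : ι → E3) (h : ι → ℝ) (i : ι) (e f : E3) (t : ℝ),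
      Pck n h → Irr n h → Onb (n i) e f → 1 ≤ t → t < R → h i ≤ t →
      2 * π * HH t (h i) (rr (h i) RP) - 2 * (ns n h i : ℝ) * T t (h i) ≤ FI t n h i e f)
    (h4 : ∀ t h : ℝ, 1.151 ≤ t → t < R → 1 ≤ h → h ≤ t → A t h →
      -(2 * π * HH t h (rr h RP) - 8 * T t h) ≤ π / 3 * bet t * (1 - (h - 1) / Lv t - gv t))
    (hL : ∀ (ι : Type) [Fintype ι] (n : ι → E3) (h : ι → ℝ) (i : ι) (e f : E3) (t : ℝ),
      Pck n h → Irr n h → Onb (n i) e f → 1.151 ≤ t → t < R → h i < 1 + Lv t →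
      ¬ (h i ≤ t ∧ A t (h i)) → ns n h i ≤ 4 →
      -(π / 3 * bet t * (1 - (h i - 1) / Lv t - gv t * crd (ns n h i))) ≤ FI t n h i e f)
    (h6 : ∀ (ι : Type) [Fintype ι] (n : ι → E3) (h : ι → ℝ) (i : ι) (e f : E3) (t : ℝ),
      Pck n h → Irr n h → Onb (n i) e f → 1.151 ≤ t → t < R → h i < 1 + Lv t → 6 ≤ ns n h i →
      -(π / 3 * bet t * (1 - (h i - 1) / Lv t - gv t * crd (ns n h i))) ≤ FI t n h i e f) :
    T_P := by
  intro ι _ n h i e f t hP hI hO ht htR hh hns
  rcases Nat.lt_or_ge (ns n h i) 5 with h1 | h1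
  · by_cases hA : h i ≤ t ∧ A t (h i)
    · exact N0_le4 hP ht htR hA.1 (by omega)
        (hS ι n h i e f t hP hI hO (by linarith) htR hA.1)
        (h4 t (h i) ht htR (hP.2.1 i) hA.1 hA.2)
    · exact hL ι n h i e f t hP hI hO ht htR hh hA (by omega)
  · exact h6 ι n h i e f t hP hI hO ht htR hh (by omega)

/-- The full credit is enough for every number of sides (except five). -/
theorem P_crd {t x c U : ℝ} {m : ℕ} (hU : 0 ≤ U) (h : -(U * (1 - x - gv t * 3)) ≤ c) :
    -(U * (1 - x - gv t * crd m)) ≤ c := by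
  have h1 : (crd m : ℝ) ≤ 3 := by
    have h2 : crd m ≤ 3 := by
      unfold crd
      split_ifs <;> omega
    exact_mod_cast h2
  have h3 : gv t * crd m ≤ gv t * 3 := mul_le_mul_of_nonneg_left h1 (gv_nonneg t)
  have h4 : U * (1 - x - gv t * 3) ≤ U * (1 - x - gv t * crd m) :=
    mul_le_mul_of_nonneg_left (by linarith) hU
  linarith

end Pool.Agent.SDL
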