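import Pool.Agent.SDL.Targets3
import Pool.Agent.Kron.D13.Main
import Pool.Agent.Kron.D14.Main

set_option autoImplicit false

/-!
# D13 and D14: the total lift of thirteen and of fourteen points
-/

namespace Pool.Agent.SDL

open Pool.Agent.SDC

theorem p_D13 : T_D13 := by
  intro ι _ n h hN H _
  have := Pool.Agent.Kron.D13.lift_ge n h hN H
  norm_num at this ⊢
  exact this

theorem p_D14 : T_D14 := by
  intro ι _ n h hN H _
  have := Pool.Agent.Kron.D14.lift_ge n h hN H
  norm_num at this ⊢
  exact this

end Pool.Agent.SDL
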