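import Pool.Agent.SDL.P3_Fdisc
import Pool.Agent.SDL.P_C2

set_option autoImplicit false

/-!
# SDL: the target F for `W0 ≤ t²`, `t < 1.21`, the facets with at least six near sides
-/

open MeasureTheory Set Real
open scoped RealInnerProductSpace

namespace Pool.Agent.SDL

open Pool.Agent.SDC

/-- `Bf t R ≥ 0.075 β` for `t² ≥ W0`. -/
theorem B_bet {t : ℝ} (ht1 : 1 ≤ t) (htR : t < R) (hW : W0 ≤ t ^ 2) :
    0.075 * bet t ≤ Bf t R := by
  have hW1 : (1.381965 : ℝ) < W0 := by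
    rw [W0]
    linarith [s5_hi']
  have hW2 : W0 < (1.3819661 : ℝ) := by
    rw [W0]
    linarith [s5_lo']
  have hR2 := R_sq_lo
  have hA : 0 < R ^ 2 - W0 := by norm_num at *; linarith
  have hq0 : 0 ≤ (t ^ 2 - W0) / (R ^ 2 - W0) := div_nonneg (by linarith) hA.le
  have hq2 : √((t ^ 2 - W0) / (R ^ 2 - W0)) ^ 2 * (R ^ 2 - W0) = t ^ 2 - W0 := by
    rw [Real.sq_sqrt hq0]
    field_simp
  obtain ⟨h1, -, -⟩ := tBQ t (√((t ^ 2 - W0) / (R ^ 2 - W0))) hW ht1 htR (Real.sqrt_nonneg _) hq2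
  obtain ⟨-, -, h3⟩ := tC1G t (√((t ^ 2 - W0) / (R ^ 2 - W0))) hW ht1 htR (Real.sqrt_nonneg _) hq2
  set q := √((t ^ 2 - W0) / (R ^ 2 - W0)) with hq
  have hqn : 0 ≤ q := Real.sqrt_nonneg _
  set A := R ^ 2 - W0 with hAdef
  have hR0 := R_pos
  have hR := R_hi'
  have hk := (tKAP t ht1 htR).1
  have hW0 : 0 < W0 := by norm_num at *; linarith
  have h4 : bet t ≤ R * A / 2 * ((1 - q) ^ 2 * (1 + 2 * q)) := by
    have e1 : 0 ≤ 3 * A ^ 2 / (8 * R) * (1 - q ^ 2) ^ 2 := by positivity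
    have e2 : 0 ≤ kap t * R * W0 := by positivity
    nlinarith
  have h5 : 3 * A ^ 2 / (8 * R ^ 2) * ((1 - q) ^ 2 * (1 + 2 * q)) ≤ Bf t R := by
    refine le_trans ?_ h3
    apply mul_le_mul_of_nonneg_left _ (by positivity)
    have e1 : (1 - q ^ 2) ^ 2 = (1 - q) ^ 2 * (1 + q) ^ 2 := by ring
    rw [e1]
    apply mul_le_mul_of_nonneg_left _ (sq_nonneg _)
    nlinarith
  have h6 : 0.075 * (R * A / 2) ≤ 3 * A ^ 2 / (8 * R ^ 2) := by
    rw [le_div_iff₀ (by positivity)]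
    have e1 : R ^ 3 ≤ 1.993 := by
      have : R ^ 3 ≤ 1.258409 ^ 3 := pow_le_pow_left₀ hR0.le hR.le 3
      norm_num at *
      linarith
    have e2 : (0.2016 : ℝ) ≤ A := by norm_num at *; linarith
    have e3 : 0.075 * (R * A / 2) * (8 * R ^ 2) = 0.3 * A * R ^ 3 := by
      norm_num
      ring
    rw [e3]
    have e4 : 0.3 * A * R ^ 3 ≤ 0.3 * A * 1.993 :=
      mul_le_mul_of_nonneg_left e1 (by positivity)
    have e5 : 3 * A * 0.2016 ≤ 3 * A * A := mul_le_mul_of_nonneg_left e2 (by positivity)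
    nlinarith
  have h7 : 0 ≤ (1 - q) ^ 2 * (1 + 2 * q) := by positivity
  calc 0.075 * bet t ≤ 0.075 * (R * A / 2 * ((1 - q) ^ 2 * (1 + 2 * q))) :=
        mul_le_mul_of_nonneg_left h4 (by norm_num)
    _ = 0.075 * (R * A / 2) * ((1 - q) ^ 2 * (1 + 2 * q)) := by ring
    _ ≤ 3 * A ^ 2 / (8 * R ^ 2) * ((1 - q) ^ 2 * (1 + 2 * q)) :=
        mul_le_mul_of_nonneg_right h6 h7
    _ ≤ Bf t R := h5

/-- The bound of the facets with six sides, with the slope `s ≤ 4.84`. -/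
theorem C2_hi {t h gM s : ℝ} (ht1 : 1 ≤ t) (htR : t < R) (hW : W0 ≤ t ^ 2) (hh1 : 1 ≤ h)
    (hht : h ≤ t) (hs : s ≤ 4.84) (hg1 : gM ≤ 1.1 * Bf t R)
    (hJ : 4.68 * gM - 0.703 * Dl t ≤ - 10 * J0 t) :
    - 2 * π * HH t h (rr h R) - 2 * π * h * Dl t + 2 * h * (2.34 * gM + 2.79 * Dl t) ≤
      π / 3 * bet t * (1 - s * (h - 1)) := by
  have ht0 : 0 < t := by linarith
  have hh0 : 0 < h := by linarith
  have hhR : h ≤ R := by linarith
  have hκ := (tKAP t ht1 htR).1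
  have hβ := (tBET t ht1 htR).1
  have hB := p_BF.1 t R ht0 R_pos
  have hBb := B_bet ht1 htR hW
  have hΔ : 0 ≤ Dl t := by
    rw [Dl]
    have := p_BM t ht1 htR (Set.mem_Ici.2 (le_refl R)) (Set.mem_Ici.2 R_lt_RO.le) R_lt_RO.le
    linarith
  have hidn := tIDN t ht1 htR
  have e1 : HH t h (rr h R) = h * bb t R + kap t * h ^ 3 / 2 - bet t := by
    have hBh : Bf t h = 0 := by rw [Bf, if_pos hht]
    rw [p_HB t h (rr h R) ht0 hh0 (Real.sqrt_nonneg _), C2_cc hh1 hhR, hBh, sub_zero]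
  have e2 : alp t = bb t R + kap t / 2 - bet t := by
    have h3 := p_HB t 1 rv ht0 one_pos rv_pos.le
    rw [one_mul, cc_rv] at h3
    have h4 : Bf t 1 = 0 := by
      rw [Bf, if_pos ht1]
    rw [h4] at h3
    have h5 : alp t = HH t 1 rv := rfl
    rw [h5, h3]
    ring_nf
  have e3 : bb t R = Bf t R + bet t / R - kap t * R ^ 2 / 2 := rfl
  have hpi1 := Real.pi_gt_d6
  have hpi2 := Real.pi_lt_d6
  have hR0 := R_pos
  have h9 : 0 ≤ h - 1 := by linarith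
  -- `Z + 3 π κ ≥ (π/3) s β`
  have hpR : (4.9929 : ℝ) * bet t ≤ 2 * π * (bet t / R) := by
    have h4 : (4.9929 : ℝ) ≤ 2 * π / R := by
      rw [le_div_iff₀ R_pos]
      have := R_hi'
      nlinarith
    have h5 := mul_le_mul_of_nonneg_right h4 hβ
    calc (4.9929 : ℝ) * bet t ≤ 2 * π / R * bet t := h5
      _ = 2 * π * (bet t / R) := by ring
  have hZ : π / 3 * bet t * s ≤ 2 * π * bb t R - 4.68 * gM + (2 * π - 5.58) * Dl t
      + 3 * π * kap t := by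
    rw [e3]
    have h10 : 0 ≤ (2 * π - 5.58) * Dl t := mul_nonneg (by linarith) hΔ
    have h11 : 4.68 * gM ≤ 2 * π * Bf t R - 1.135 * Bf t R := by
      have : 5.148 * Bf t R ≤ (2 * π - 1.135) * Bf t R :=
        mul_le_mul_of_nonneg_right (by linarith) hB
      linarith
    have h12 : 0 ≤ π * kap t * (3 - R ^ 2) := by
      have : 0 ≤ 3 - R ^ 2 := by linarith [R_sq_hi]
      have hp := Real.pi_pos.le
      positivity
    have h13 : π / 3 * bet t * s ≤ 5.069 * bet t := by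
      have e4 : π / 3 * bet t * s ≤ π / 3 * bet t * 4.84 :=
        mul_le_mul_of_nonneg_left hs (by positivity)
      have e5 : π / 3 * bet t * 4.84 ≤ 5.069 * bet t := by
        have : π / 3 * 4.84 ≤ 5.069 := by linarith
        nlinarith
      linarith
    have h14 : 1.135 * (0.075 * bet t) ≤ 1.135 * Bf t R :=
      mul_le_mul_of_nonneg_left hBb (by norm_num)
    nlinarith
  have hL1 : 2 * π * bet t - (2 * π * bb t R - 4.68 * gM + (2 * π - 5.58) * Dl t)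
      - π * kap t ≤ π / 3 * bet t := by
    have h10 : 0.703 * Dl t ≤ (2 * π - 5.58) * Dl t :=
      mul_le_mul_of_nonneg_right (by linarith) hΔ
    have h11 : 2 * π * alp t = 2 * π * bb t R + π * kap t - 2 * π * bet t := by
      rw [e2]
      ring
    linarith
  have hcub : 3 * (h - 1) ≤ h ^ 3 - 1 := by
    nlinarith [mul_nonneg h9 h9, mul_nonneg (mul_nonneg h9 h9) h9]
  have hκc : π * kap t * (3 * (h - 1)) ≤ π * kap t * (h ^ 3 - 1) :=
    mul_le_mul_of_nonneg_left hcub (mul_nonneg Real.pi_pos.le hκ)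
  have hZ' := mul_le_mul_of_nonneg_left hZ h9
  rw [e1]
  nlinarith

/-- F for `W0 ≤ t²`, `t < 1.21`, `h < t`, at least six near sides. -/
theorem F_six_hi {ι : Type} [Fintype ι] (n : ι → E3) (h : ι → ℝ) (i : ι) (e f : E3) (t : ℝ)
    (S S' : Finset ι) (hP : Pck n h) (hI : Irr n h) (hO : Onb (n i) e f) (ht1 : 1 ≤ t)
    (htR : t < R) (hW : W0 ≤ t ^ 2) (ht : t < 1.21) (hht : h i < t)
    (hS : ∀ j, NS n h i RO j ↔ j ∈ S) (hSS' : S' ⊆ S) (hcard : 6 ≤ S'.card)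
    (had : ∀ j ∈ S', ad n h i j < rr (h i) R) :
    -(π / 3 * bet t * (1 - (h i - 1) / Lm t)) ≤ FI t n h i e f := by
  have hh1 : 1 ≤ h i := hP.2.1 i
  have hlo := sqrtW0_lo ht1 hW
  have hLm := Lm_mid (by norm_num at *; linarith : (1.15 : ℝ) ≤ t) ht
  have hden : 0 < 4.72 - 3.3 * t := by norm_num at *; linarith
  have hs : 1 / Lm t ≤ 4.84 := by
    rw [hLm, one_div_div, div_le_iff₀ (by norm_num)]
    norm_num at *
    linarith
  obtain ⟨ρ', τ', a1, a2, a3, a4, a5, a6⟩ := tCB t (h i) ht1 htR hh1 (Or.inl hht)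
  have h1 := facet6 n h i e f t (π / 3 * bet t * (1 - 1 / Lm t * (h i - 1)))
    (π / 3 * bet t * wt (h i)) S S' hP hI hO ht1 htR (by linarith)
    ⟨ρ', τ', a1, a2, a3, a4, a5, a6⟩
    (fun gM _ g1 g2 => C2_hi ht1 htR hW hh1 hht.le hs g1 g2) hS hSS' hcard had
  have h2 := p_RP ι n h i e f t hP hI hO ht1 htR
  have e1 : (1 : ℝ) / Lm t * (h i - 1) = (h i - 1) / Lm t := by ring
  rw [e1] at h1
  exact h1.trans h2

end Pool.Agent.SDL
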