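import Pool.Agent.SDL.AsmC
import Pool.Agent.SDL.Wts

set_option autoImplicit false

/-!
# SDL: the target F for `W0 ≤ t²`, `t < 1.21` and the heights `t ≤ h < 1 + Lm t`
-/

open MeasureTheory Set Real
open scoped RealInnerProductSpace

namespace Pool.Agent.SDL

open Pool.Agent.SDC

/-- The number of the chord for `1.15 ≤ t < 1.21`. -/
theorem Lm_mid {t : ℝ} (h1 : 1.15 ≤ t) (h2 : t < 1.21) : Lm t = 0.175 / (4.72 - 3.3 * t) := by
  have h3 : gu t = 0.025 + 1.1 * (t - 1.15) := by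
    unfold gu
    rw [if_pos h2]
    apply max_eq_right
    norm_num at h1 ⊢
    linarith
  rw [Lm, h3]
  congr 1
  norm_num
  ring

theorem sqrtW0_lo {t : ℝ} (ht : 1 ≤ t) (hW : W0 ≤ t ^ 2) : 1.17556 < t := by
  have h1 : (1.381965 : ℝ) < W0 := by
    rw [W0]
    linarith [s5_hi']
  by_contra hcon
  push Not at hcon
  have : t ^ 2 ≤ 1.17556 ^ 2 := pow_le_pow_left₀ (by linarith) hcon 2
  norm_num at this h1
  linarith

/-- The disc bound, abstract form. -/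
theorem disc_core {t h ρ k β l : ℝ} (ht : 1 ≤ t) (hth : t ≤ h) (hhρ : h ≤ ρ) (hk : 0 < k)
    (hβ : 0 ≤ β) (hκ : t ^ 3 + β - k * t ^ 3 ≤ 1.23 * β)
    (hx : t ^ 3 + β ≤ k * (t ^ 2 * (3 + 3 * l - 2 * t))) (hl : 0 < l) (hhl : h ≤ 1 + l)
    (hl2 : 3.69 * l ≤ 1) :
    (ρ - h) * ((t ^ 3 + β) / ρ - k * h * (ρ + h) / 2) ≤ β / 6 * (1 - (h - 1) / l) := by
  have ht0 : 0 < t := by linarith
  have hh0 : 0 < h := by linarith
  have hρ0 : 0 < ρ := by linarith
  have hh3 : 0 < h ^ 3 := by positivity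
  have hδ : 0 ≤ ρ - h := by linarith
  have hw : 0 ≤ 1 - (h - 1) / l := by
    rw [sub_nonneg, div_le_one hl]
    linarith
  have hrhs : 0 ≤ β / 6 * (1 - (h - 1) / l) := mul_nonneg (by linarith) hw
  have hL : (ρ - h) * ((t ^ 3 + β) / ρ - k * h * (ρ + h) / 2) =
      ((ρ - h) * (t ^ 3 + β - k * h ^ 3) - k * h * (ρ - h) ^ 2 * (ρ + 2 * h) / 2) / ρ := by
    field_simp
    ring
  rw [hL]
  by_cases hE : t ^ 3 + β - k * h ^ 3 ≤ 0
  · refine le_trans ?_ hrhs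
    apply div_nonpos_of_nonpos_of_nonneg _ hρ0.le
    have h1 : (ρ - h) * (t ^ 3 + β - k * h ^ 3) ≤ 0 :=
      mul_nonpos_of_nonneg_of_nonpos hδ hE
    have h2 : 0 ≤ k * h * (ρ - h) ^ 2 * (ρ + 2 * h) / 2 := by positivity
    linarith
  · push Not at hE
    set E := t ^ 3 + β - k * h ^ 3 with hEdef
    have hth3 : t ^ 3 ≤ h ^ 3 := pow_le_pow_left₀ ht0.le hth 3
    have hE1 : E ≤ 1.23 * β := by
      have h3 : k * t ^ 3 ≤ k * h ^ 3 := mul_le_mul_of_nonneg_left hth3 hk.le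
      linarith
    have hE2 : E ≤ 3 * k * t ^ 2 * (1 + l - h) := by
      have h3 : t ^ 3 + 3 * t ^ 2 * (h - t) ≤ h ^ 3 := by
        nlinarith [mul_nonneg (sub_nonneg.mpr hth) (mul_nonneg (sub_nonneg.mpr hth)
          (by linarith : (0 : ℝ) ≤ h + 2 * t))]
      have h4 : k * (t ^ 3 + 3 * t ^ 2 * (h - t)) ≤ k * h ^ 3 :=
        mul_le_mul_of_nonneg_left h3 hk.le
      have h5 : k * (t ^ 2 * (3 + 3 * l - 2 * t)) =
          k * (t ^ 3 + 3 * t ^ 2 * (h - t)) + 3 * k * t ^ 2 * (1 + l - h) := by ring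
      rw [hEdef]
      linarith
    have hl3 : 0 ≤ 1 + l - h := by linarith
    have hEE : E * E ≤ (1.23 * β) * (3 * k * t ^ 2 * (1 + l - h)) :=
      mul_le_mul hE1 hE2 hE.le (by linarith)
    have h6 : t ^ 2 * (3.69 * l) ≤ h ^ 3 := by
      have e1 : t ^ 2 * (3.69 * l) ≤ t ^ 2 * 1 := mul_le_mul_of_nonneg_left hl2 (by positivity)
      have e2 : t ^ 2 * 1 ≤ t ^ 2 * t := mul_le_mul_of_nonneg_left ht (by positivity)
      have e3 : t ^ 2 * t = t ^ 3 := by ring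
      linarith
    have hfin : E ^ 2 / (6 * k * h ^ 3) ≤ β / 6 * (1 - (h - 1) / l) := by
      have e1 : β / 6 * (1 - (h - 1) / l) = β * (1 + l - h) / (6 * l) := by
        field_simp
        ring
      rw [e1, div_le_div_iff₀ (by positivity) (by positivity)]
      have e2 : E ^ 2 * (6 * l) ≤ (1.23 * β) * (3 * k * t ^ 2 * (1 + l - h)) * (6 * l) := by
        apply mul_le_mul_of_nonneg_right _ (by positivity)
        calc E ^ 2 = E * E := by ring
          _ ≤ _ := hEE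
      have e3 : (1.23 * β) * (3 * k * t ^ 2 * (1 + l - h)) * (6 * l) =
          6 * k * (β * (1 + l - h)) * (t ^ 2 * (3.69 * l)) := by
        norm_num
        ring
      have e4 : 6 * k * (β * (1 + l - h)) * (t ^ 2 * (3.69 * l)) ≤
          6 * k * (β * (1 + l - h)) * h ^ 3 :=
        mul_le_mul_of_nonneg_left h6 (by positivity)
      linarith
    refine le_trans ?_ hfin
    rw [div_le_div_iff₀ hρ0 (by positivity)]
    have hA : (ρ - h) * E - k * h * (ρ - h) ^ 2 * (ρ + 2 * h) / 2 ≤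
        (ρ - h) * E - 3 / 2 * k * h ^ 2 * (ρ - h) ^ 2 := by
      have : 0 ≤ k * h * (ρ - h) ^ 2 * (ρ - h) / 2 := by positivity
      nlinarith [this]
    have hB : ((ρ - h) * E - 3 / 2 * k * h ^ 2 * (ρ - h) ^ 2) * (6 * k * h ^ 2) ≤ E ^ 2 := by
      nlinarith [sq_nonneg (E - 3 * k * h ^ 2 * (ρ - h))]
    have hC : ((ρ - h) * E - k * h * (ρ - h) ^ 2 * (ρ + 2 * h) / 2) * (6 * k * h ^ 2) ≤ E ^ 2 :=
      le_trans (mul_le_mul_of_nonneg_right hA (by positivity)) hB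
    calc ((ρ - h) * E - k * h * (ρ - h) ^ 2 * (ρ + 2 * h) / 2) * (6 * k * h ^ 3)
        = ((ρ - h) * E - k * h * (ρ - h) ^ 2 * (ρ + 2 * h) / 2) * (6 * k * h ^ 2) * h := by ring
      _ ≤ E ^ 2 * h := mul_le_mul_of_nonneg_right hC hh0.le
      _ ≤ E ^ 2 * ρ := mul_le_mul_of_nonneg_left hhρ (sq_nonneg E)

/-- The bound of `kap` for `t² ≥ W0`. -/
theorem kap_hi {t : ℝ} (ht1 : 1 ≤ t) (htR : t < R) (hW : W0 ≤ t ^ 2) : kap t ≤ 0.036 := by
  have h1 := (tKAP t ht1 htR).2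
  have h2 := p_BF.2.2 t R (by linarith) htR.le
  have h3 := sqrtW0_lo ht1 hW
  have hR := R_hi'
  have hR0 := R_pos
  have h4 : Bf t R = (R - t) ^ 2 * (R + 2 * t) / (2 * R) := by
    rw [Bf, if_neg (not_le.mpr htR)]
  have h5 : Bf t R ≤ 0.0104 := by
    rw [h4, div_le_iff₀ (by positivity)]
    have e1 : 0 ≤ R - t := by linarith
    have e2 : R - t ≤ 0.083 := by norm_num at *; linarith
    have e3 : (R - t) ^ 2 ≤ 0.083 ^ 2 := pow_le_pow_left₀ e1 e2 2
    have e4 : R + 2 * t ≤ 3 * R := by linarith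
    have e5 : (R - t) ^ 2 * (R + 2 * t) ≤ 0.083 ^ 2 * (3 * R) :=
      mul_le_mul e3 e4 (by linarith) (by positivity)
    nlinarith
  refine h1.trans ?_
  rw [rv_sq, div_le_iff₀ (by nlinarith [R_sq_lo])]
  nlinarith [R_sq_lo]

/-- The value `X / k`. -/
theorem X_mid {t : ℝ} (ht1 : 1 ≤ t) (htR : t < R) (hW : W0 ≤ t ^ 2) (ht : t ≤ 1.22) :
    t ^ 3 + bet t ≤ (1 - kap t) * (0.4264 + 0.95 * t ^ 2) := by
  have hk := kap_hi ht1 htR hW
  have hk0 := (tKAP t ht1 htR).1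
  have hW1 : (1.381965 : ℝ) < W0 := by
    rw [W0]
    linarith [s5_hi']
  have hW2 : W0 < (1.3819661 : ℝ) := by
    rw [W0]
    linarith [s5_lo']
  have hR2 := R_sq_lo
  have hA : 0 < R ^ 2 - W0 := by norm_num at *; linarith
  have hq0 : 0 ≤ (t ^ 2 - W0) / (R ^ 2 - W0) := div_nonneg (by linarith) hA.le
  obtain ⟨-, -, h3⟩ := tBQ t (√((t ^ 2 - W0) / (R ^ 2 - W0))) hW ht1 htR (Real.sqrt_nonneg _) (by
    rw [Real.sq_sqrt hq0]
    field_simp)
  set q := √((t ^ 2 - W0) / (R ^ 2 - W0)) with hq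
  have hqq : q ^ 2 = (t ^ 2 - W0) / (R ^ 2 - W0) := Real.sq_sqrt hq0
  have hqn : 0 ≤ q := Real.sqrt_nonneg _
  have h4 : (R ^ 2 - W0) * q ^ 2 = t ^ 2 - W0 := by
    rw [hqq]
    field_simp
  have ht2 : t ^ 2 ≤ 1.4884 := by
    have : t ^ 2 ≤ 1.22 ^ 2 := pow_le_pow_left₀ (by linarith) ht 2
    norm_num at *
    linarith
  have hq1 : q ≤ 0.7267 := by
    by_contra hcon
    push Not at hcon
    have e1 : (0.7267 : ℝ) ^ 2 < q ^ 2 := pow_lt_pow_left₀ hcon (by norm_num) (by norm_num)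
    have e2 : (0.201625 : ℝ) < R ^ 2 - W0 := by norm_num at *; linarith
    have e3 : (0.201625 : ℝ) * 0.7267 ^ 2 < (R ^ 2 - W0) * q ^ 2 :=
      mul_lt_mul'' e2 e1 (by norm_num) (by norm_num)
    rw [h4] at e3
    norm_num at *
    linarith
  have h5 : (R ^ 2 - W0) * q ^ 3 ≤ 0.7267 * (t ^ 2 - W0) := by
    have e1 : (R ^ 2 - W0) * q ^ 3 = q * (t ^ 2 - W0) := by
      rw [← h4]
      ring
    rw [e1]
    exact mul_le_mul_of_nonneg_right hq1 (by linarith)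
  rw [h3]
  have hR := R_hi'
  have hR0 := R_pos
  have h6 : R * ((1 - kap t) * W0 + (R ^ 2 - W0) * q ^ 3) ≤
      R * ((1 - kap t) * W0 + 0.7267 * (t ^ 2 - W0)) :=
    mul_le_mul_of_nonneg_left (by linarith) hR0.le
  refine h6.trans ?_
  have h7 : 0.7267 * R ≤ 0.9487 * (1 - kap t) := by
    norm_num at *
    linarith
  have h8 : R * W0 ≤ 1.7391 := by
    have : R * W0 ≤ 1.258409 * 1.3819661 :=
      mul_le_mul hR.le hW2.le (by linarith) (by norm_num)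
    norm_num at *
    linarith
  have h9 : 0.7267 * R * (t ^ 2 - W0) ≤ 0.9487 * (1 - kap t) * (t ^ 2 - W0) :=
    mul_le_mul_of_nonneg_right h7 (by linarith)
  have h10 : R * ((1 - kap t) * W0 + 0.7267 * (t ^ 2 - W0)) =
      (1 - kap t) * (R * W0) + 0.7267 * R * (t ^ 2 - W0) := by ring
  rw [h10]
  have hkk : 0 ≤ 1 - kap t := by norm_num at *; linarith
  have h11 : (1 - kap t) * (R * W0) + 0.9487 * (1 - kap t) * (t ^ 2 - W0) ≤
      (1 - kap t) * (0.4264 + 0.95 * t ^ 2) := by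
    have e1 : (1 - kap t) * (R * W0) + 0.9487 * (1 - kap t) * (t ^ 2 - W0) =
        (1 - kap t) * (R * W0 + 0.9487 * (t ^ 2 - W0)) := by ring
    rw [e1]
    apply mul_le_mul_of_nonneg_left _ hkk
    norm_num at h8 hW1 ⊢
    nlinarith
  linarith

/-- The disc bound for the chord. -/
theorem disc_hi' {t h r l : ℝ} (ht1 : 1 ≤ t) (htR : t < R) (hW : W0 ≤ t ^ 2) (ht : t ≤ 1.22)
    (hl : l = 0.175 / (4.72 - 3.3 * t)) (hth : t ≤ h) (hhl : h ≤ 1 + l) (hr : 0 ≤ r) :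
    - (bet t / 6 * (1 - (h - 1) / l)) ≤ HH t h r := by
  have ht0 : 0 < t := by linarith
  have hh0 : 0 < h := by linarith
  obtain ⟨-, -, hBF⟩ := p_BF
  have hc1 : 1 ≤ cc r := cc_one r
  have hρh : h ≤ h * cc r := by nlinarith
  have hρ0 : 0 < h * cc r := by nlinarith
  obtain ⟨hβ, -⟩ := tBET t ht1 htR
  have hid : - HH t h r =
      (h * cc r - h) * ((t ^ 3 + bet t) / (h * cc r) -
        (1 - kap t) * h * (h * cc r + h) / 2) := by
    rw [p_HB t h r ht0 hh0 hr, bb, hBF t (h * cc r) ht0 (by linarith), hBF t h ht0 hth]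
    field_simp
    ring
  have hk := kap_hi ht1 htR hW
  have hkb := tKB2 t hW ht1 htR
  have hlo := sqrtW0_lo ht1 hW
  have hden : 0 < 4.72 - 3.3 * t := by norm_num at *; linarith
  have hl0 : 0 < l := by
    rw [hl]
    positivity
  have hl2 : 3.69 * l ≤ 1 := by
    rw [hl, mul_div_assoc', div_le_one hden]
    norm_num at *
    linarith
  have hX := X_mid ht1 htR hW ht
  have hkk : 0 < 1 - kap t := by norm_num at *; linarith
  have hmul : l * (4.72 - 3.3 * t) = 0.175 := by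
    rw [hl]
    field_simp
  have hpoly : 0.4264 + 0.95 * t ^ 2 ≤ t ^ 2 * (3 + 3 * l - 2 * t) := by
    have e1 : (0.4264 + 0.95 * t ^ 2) * (4.72 - 3.3 * t) ≤
        t ^ 2 * (3 + 3 * l - 2 * t) * (4.72 - 3.3 * t) := by
      have e2 : t ^ 2 * (3 + 3 * l - 2 * t) * (4.72 - 3.3 * t) =
          t ^ 2 * ((3 - 2 * t) * (4.72 - 3.3 * t) + 3 * (l * (4.72 - 3.3 * t))) := by ring
      rw [e2, hmul]
      have hlo' : 0 ≤ t - 29389 / 25000 := by norm_num at *; linarith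
      have ht' : 0 ≤ 61 / 50 - t := by norm_num at *; linarith
      norm_num
      nlinarith [mul_nonneg hlo' ht', mul_nonneg (mul_nonneg hlo' ht') ht0.le,
        mul_nonneg (mul_nonneg hlo' ht') (mul_pos ht0 ht0).le]
    exact le_of_mul_le_mul_right e1 hden
  have hx : t ^ 3 + bet t ≤ (1 - kap t) * (t ^ 2 * (3 + 3 * l - 2 * t)) :=
    hX.trans (mul_le_mul_of_nonneg_left hpoly hkk.le)
  have hmain := disc_core (t := t) (h := h) (ρ := h * cc r) (k := 1 - kap t) (β := bet t)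
    (l := l) ht1 hth hρh hkk hβ (by linarith) hx hl0 hhl hl2
  linarith

theorem disc_hi {t h r : ℝ} (ht1 : 1 ≤ t) (htR : t < R) (hW : W0 ≤ t ^ 2) (ht : t < 1.21)
    (hth : t ≤ h) (hhl : h ≤ 1 + Lm t) (hr : 0 ≤ r) :
    - (bet t / 6 * (1 - (h - 1) / Lm t)) ≤ HH t h r := by
  have hlo := sqrtW0_lo ht1 hW
  exact disc_hi' ht1 htR hW (by norm_num at *; linarith)
    (Lm_mid (by norm_num at *; linarith : (1.15 : ℝ) ≤ t) ht) hth hhl hr

/-- F for `W0 ≤ t²`, `t < 1.21`, the heights `t ≤ h < 1 + Lm t`. -/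
theorem F_disc_hi {ι : Type} [Fintype ι] (n : ι → E3) (h : ι → ℝ) (i : ι) (e f : E3) (t : ℝ)
    (hP : Pck n h) (hI : Irr n h) (hO : Onb (n i) e f) (ht1 : 1 ≤ t) (htR : t < R)
    (hW : W0 ≤ t ^ 2) (ht : t < 1.21) (hth : t ≤ h i) (hi : h i < 1 + Lm t) :
    -(π / 3 * bet t * (1 - (h i - 1) / Lm t)) ≤ FI t n h i e f := by
  have hlo := sqrtW0_lo ht1 hW
  have hLm := Lm_mid (by norm_num at *; linarith : (1.15 : ℝ) ≤ t) ht
  have hden : 0 < 4.72 - 3.3 * t := by norm_num at *; linarith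
  have hRO : h i < RO := by
    have e1 : Lm t ≤ 0.2408 := by
      rw [hLm, div_le_iff₀ hden]
      norm_num at *
      linarith
    have := RO_lo
    norm_num at *
    linarith
  have h1 := facet_disc n h i e f t (bet t / 6 * (1 - (h i - 1) / Lm t)) hP hI hO hRO
    (fun r hr => disc_hi ht1 htR hW ht hth hi.le hr)
  have h2 := p_RP ι n h i e f t hP hI hO ht1 htR
  have e1 : - (2 * π * (bet t / 6 * (1 - (h i - 1) / Lm t))) =
      -(π / 3 * bet t * (1 - (h i - 1) / Lm t)) := by ring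
  rw [← e1]
  exact h1.trans h2

end Pool.Agent.SDL
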