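import Pool.Agent.SDL.Chord
import Pool.Agent.SDL.AsmG

set_option autoImplicit false

/-!
# SDL: the target `T_F` for `t² ≤ W0`, without hypotheses
-/

open MeasureTheory Set Real
open scoped RealInnerProductSpace

namespace Pool.Agent.SDL

open Pool.Agent.SDC

/-- **`T_F` for `t² ≤ W0`.** -/
theorem p_F_low (ι : Type) [Fintype ι] (n : ι → E3) (h : ι → ℝ) (i : ι) (e f : E3) (t : ℝ)
    (hP : Pck n h) (hI : Irr n h) (hO : Onb (n i) e f) (ht1 : 1 ≤ t) (htW : t ^ 2 ≤ W0)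
    (hLm : h i < 1 + Lm t) : -(π / 3 * bet t * (1 - (h i - 1) / Lm t)) ≤ FI t n h i e f :=
  F_low p_RP ι n h i e f t hP hI hO ht1 htW hLm

end Pool.Agent.SDL
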