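import Pool.Agent.SDL.AsmC
import Pool.Agent.SDL.P3_H

set_option autoImplicit false

/-!
# SDL: the disc of radius `RP` for `h ≤ t`, and the interpolation in the number of sides

`N0_main`: `- 2 π HH t h (rr h RP)` is at most `(π/3) β (1 - s (h - 1) - 5 g)`. Together with the
inequality for four sides this gives the inequality for at most three sides (`N0_interp`).
-/

open MeasureTheory Set Real
open scoped RealInnerProductSpace

namespace Pool.Agent.SDL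

open Pool.Agent.SDC

/-! ## The case `t² ≤ W0` -/

theorem N0_p1 (t : ℝ) (h0 : 1.127 ≤ t) (h1 : t ≤ 1.1756) :
    5 * (1.1 * t - 1.24) * (1.73908 * (9 * t ^ 2 - 5 * t ^ 3 - 3) - 1.32502 * t ^ 3) ≤
      0.0527 * (9 * t ^ 2 - 5 * t ^ 3 - 3) := by
  have hu : 0 ≤ t - 1.127 := by linarith
  have hv : 0 ≤ 1.1756 - t := by linarith
  linarith [pow_nonneg hv 4, mul_nonneg hu (pow_nonneg hv 3),
    mul_nonneg (pow_nonneg hu 2) (pow_nonneg hv 2), mul_nonneg (pow_nonneg hu 3) hv,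
    pow_nonneg hu 4]

theorem N0_p2 (t : ℝ) (h0 : 1.12 ≤ t) (h1 : t ≤ 1.1756) :
    (5.7143 * 1.73908 + 9 - 6 * 2.17886) * (9 * t ^ 2 - 5 * t ^ 3 - 3) ≤
      1.32502 * (9 - 9 * t ^ 2 + 5.7143 * t ^ 3) := by
  have hu : 0 ≤ t - 1.12 := by linarith
  have hv : 0 ≤ 1.1756 - t := by linarith
  linarith [pow_nonneg hv 3, mul_nonneg hu (pow_nonneg hv 2), mul_nonneg (pow_nonneg hu 2) hv,
    pow_nonneg hu 3]

/-- `h = 1`. -/
theorem N0_A1 (t k S Q c g : ℝ) (ht : 1.12 ≤ t) (ht1 : t ≤ 1.1756)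
    (hS : 1.32502 ≤ S) (hS1 : S ≤ 1.32505) (hkS : k * S = 9 * t ^ 2 - 5 * t ^ 3 - 3)
    (hQ : Q ≤ 1.73908) (hc : 2.17886 ≤ c) (hb : 0 ≤ k * Q - t ^ 3)
    (hg : g ≤ max 0 (1.1 * t - 1.24)) :
    (k * Q - t ^ 3) * (5 + 5 * g) ≤ 6 * (k * c - 3 / 2 * t ^ 2) + 3 * (1 - k) := by
  have hD := ds1_D t (by linarith) ht1
  have hS0 : 0 < S := by linarith
  have h1 : (k * Q - t ^ 3) * (5 + 5 * g) ≤
      (k * Q - t ^ 3) * (5 + 5 * max 0 (1.1 * t - 1.24)) :=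
    mul_le_mul_of_nonneg_left (by linarith) hb
  refine h1.trans ?_
  have e1 : S * (k * Q - t ^ 3) = (9 * t ^ 2 - 5 * t ^ 3 - 3) * Q - S * t ^ 3 := by
    rw [← hkS]
    ring
  have e2 : S * (6 * (k * c - 3 / 2 * t ^ 2) + 3 * (1 - k)) =
      (9 * t ^ 2 - 5 * t ^ 3 - 3) * (6 * c - 3) - S * (9 * t ^ 2 - 3) := by
    rw [← hkS]
    ring
  have h3 : 0 ≤ t ^ 3 := by positivity
  have hp1 := N0_p1 t
  apply le_of_mul_le_mul_left _ hS0
  rw [← mul_assoc, e1, e2]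
  have hD1 : 9 * t ^ 2 - 5 * t ^ 3 - 3 = 9 * t ^ 2 - 5 * t ^ 3 - 3 := rfl
  generalize hDd : 9 * t ^ 2 - 5 * t ^ 3 - 3 = D at *
  have hD0 : 0 < D := by linarith
  have g1 : D * Q - S * t ^ 3 ≤ 1.73908 * D - 1.32502 * t ^ 3 := by
    have k1 := mul_le_mul_of_nonneg_left hQ hD0.le
    have k2 := mul_le_mul_of_nonneg_right hS h3
    linarith
  have g2 : D * 2.17886 ≤ D * c := mul_le_mul_of_nonneg_left hc hD0.le
  have g3 : S * D ≤ 1.32505 * D := mul_le_mul_of_nonneg_right hS1 hD0.le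
  have g4 : D * Q ≤ D * 1.73908 := mul_le_mul_of_nonneg_left hQ hD0.le
  have g5 : (D * Q - S * t ^ 3) * (5 * max 0 (1.1 * t - 1.24)) ≤ 0.0527 * D := by
    rcases le_total (1.1 * t - 1.24) 0 with h | h
    · rw [max_eq_left h]
      linarith
    · rw [max_eq_right h]
      have h5 := hp1 (by linarith) ht1
      have h6 := mul_le_mul_of_nonneg_right g1 (show 0 ≤ 5 * (1.1 * t - 1.24) by linarith)
      linarith
  have e3 : S * (9 * t ^ 2 - 3) = S * D + S * (5 * t ^ 3) := by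
    rw [← hDd]
    ring
  rw [e3]
  linarith

/-- The slope. -/
theorem N0_A2 (t k S Q c s : ℝ) (ht : 1.12 ≤ t) (ht1 : t ≤ 1.1756)
    (hS : 1.32502 ≤ S) (hkS : k * S = 9 * t ^ 2 - 5 * t ^ 3 - 3)
    (hQ : Q ≤ 1.73908) (hc : 2.17886 ≤ c) (hb : 0 ≤ k * Q - t ^ 3)
    (hs : s ≤ 5.7143) :
    s * (k * Q - t ^ 3) ≤ 6 * (k * c - 3 / 2 * t ^ 2) + 9 * (1 - k) := by
  have hD := ds1_D t (by linarith) ht1
  have hS0 : 0 < S := by linarith
  refine (mul_le_mul_of_nonneg_right hs hb).trans ?_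
  have hp := N0_p2 t ht ht1
  have h4 : 0 ≤ 9 - 9 * t ^ 2 + 5.7143 * t ^ 3 := by nlinarith
  apply le_of_mul_le_mul_left _ hS0
  have e1 : S * (5.7143 * (k * Q - t ^ 3)) =
      5.7143 * ((9 * t ^ 2 - 5 * t ^ 3 - 3) * Q - S * t ^ 3) := by
    rw [← hkS]
    ring
  have e2 : S * (6 * (k * c - 3 / 2 * t ^ 2) + 9 * (1 - k)) =
      (9 * t ^ 2 - 5 * t ^ 3 - 3) * (6 * c - 9) - S * (9 * t ^ 2 - 9) := by
    rw [← hkS]
    ring
  rw [e1, e2]
  generalize 9 * t ^ 2 - 5 * t ^ 3 - 3 = D at *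
  have hD0 : 0 < D := by linarith
  have g2 : D * 2.17886 ≤ D * c := mul_le_mul_of_nonneg_left hc hD0.le
  have g4 : D * Q ≤ D * 1.73908 := mul_le_mul_of_nonneg_left hQ hD0.le
  have g5 := mul_le_mul_of_nonneg_right hS h4
  linarith

/-! ## The case `t² ≥ W0` -/

theorem N0_q1 (q : ℝ) (h0 : 0 ≤ q) (h1 : q ≤ 1) :
    (0.69479 + 0.4719 * q ^ 2) * ((1 - q) ^ 2 * (0.12687 * (1 + 2 * q) - 0.0121 * (1 + q) ^ 2)) +
      0.0429 * Kq q ≤ 8.491 * (0.10894 - 0.0858 * q ^ 2) ^ 2 := by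
  rw [Kq]
  have hv : 0 ≤ 1 - q := by linarith
  have e : ∀ a b : ℝ, 0 ≤ b - a → a ≤ b := fun a b h => by linarith
  apply e
  ring_nf
  linarith [pow_nonneg hv 7, mul_nonneg h0 (pow_nonneg hv 6),
    mul_nonneg (pow_nonneg h0 2) (pow_nonneg hv 5), mul_nonneg (pow_nonneg h0 3)
    (pow_nonneg hv 4), mul_nonneg (pow_nonneg h0 4) (pow_nonneg hv 3),
    mul_nonneg (pow_nonneg h0 5) (pow_nonneg hv 2), mul_nonneg (pow_nonneg h0 6) hv,
    pow_nonneg h0 7]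

/-- The bound of `β`. -/
theorem N0_beta {q A r : ℝ} (hA0 : 0.2016259 < A) (hA1 : A < 0.2016267)
    (hr0 : 1.258408 < r) (hr1 : r < 1.258409) (hq0 : 0 ≤ q) :
    r * A / 2 * (1 - q) ^ 2 * (1 + 2 * q) - 3 * A ^ 2 / (8 * r) * (1 - q ^ 2) ^ 2 ≤
      (1 - q) ^ 2 * (0.12687 * (1 + 2 * q) - 0.0121 * (1 + q) ^ 2) := by
  have c1 : r * A / 2 ≤ 0.12687 := by nlinarith
  have c2 : 0.0121 ≤ 3 * A ^ 2 / (8 * r) := by
    rw [le_div_iff₀ (by linarith)]
    nlinarith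
  have c3 : r * A / 2 * ((1 - q) ^ 2 * (1 + 2 * q)) ≤ 0.12687 * ((1 - q) ^ 2 * (1 + 2 * q)) :=
    mul_le_mul_of_nonneg_right c1 (by positivity)
  have c4 : 0.0121 * (1 - q ^ 2) ^ 2 ≤ 3 * A ^ 2 / (8 * r) * (1 - q ^ 2) ^ 2 :=
    mul_le_mul_of_nonneg_right c2 (by positivity)
  linarith

/-- The case `t² ≥ W0`. -/
theorem N0_B (t q κ A Q r β P : ℝ) (ht0 : 1.17557 ≤ t)
    (hκ : κ ≤ 0.0578 * Kq q) (hκ0 : 0 ≤ κ) (hQ0 : 1.739 ≤ Q) (hA0 : 0.2016259 < A)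
    (hA1 : A < 0.2016267) (hq0 : 0 ≤ q) (hq1 : q ≤ 1) (hqA : t ^ 2 ≤ 1.3819661 + q ^ 2 * A)
    (hr0 : 1.258408 < r) (hr1 : r < 1.258409) (hβ0 : 0 ≤ β)
    (hβ : β ≤ r * A / 2 * (1 - q) ^ 2 * (1 + 2 * q) - 3 * A ^ 2 / (8 * r) * (1 - q ^ 2) ^ 2 -
      κ * Q)
    (hP0 : 1.284523 < P) (hP1 : P < 1.284524) :
    (5.5 * t - 5.7709) * β + 1.95 * κ ≤ 6 * ((P - t) ^ 2 * (P + 2 * t) / (2 * P)) := by
  have ht : t ≤ 1.17558 + 0.0858 * q ^ 2 := by
    have h4 : t ^ 2 ≤ (1.17558 + 0.0858 * q ^ 2) ^ 2 := by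
      linarith [sq_nonneg (q ^ 2), sq_nonneg q, mul_nonneg (sq_nonneg q)
        (show 0 ≤ 0.2016267 - A by linarith)]
    exact le_of_sq_le_sq h4 (by positivity)
  have hq2 : q ^ 2 ≤ 1 := by nlinarith
  have hK := KB2_Kq hq0 hq1
  -- the left side
  have h1 := N0_beta hA0 hA1 hr0 hr1 hq0
  have h2 : (5.5 * t - 5.7709) * β ≤ (0.69479 + 0.4719 * q ^ 2) * β :=
    mul_le_mul_of_nonneg_right (by linarith) hβ0
  have h3 : (0.69479 + 0.4719 * q ^ 2) * β ≤ (0.69479 + 0.4719 * q ^ 2) *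
      ((1 - q) ^ 2 * (0.12687 * (1 + 2 * q) - 0.0121 * (1 + q) ^ 2) - κ * Q) :=
    mul_le_mul_of_nonneg_left (by linarith) (by positivity)
  have h4 : 0.69479 * (κ * 1.739) ≤ (0.69479 + 0.4719 * q ^ 2) * (κ * Q) := by
    have h5 : κ * 1.739 ≤ κ * Q := mul_le_mul_of_nonneg_left hQ0 hκ0
    exact mul_le_mul (by linarith [sq_nonneg q]) h5 (by positivity) (by positivity)
  have h6 : (5.5 * t - 5.7709) * β + 1.95 * κ ≤ (0.69479 + 0.4719 * q ^ 2) *
      ((1 - q) ^ 2 * (0.12687 * (1 + 2 * q) - 0.0121 * (1 + q) ^ 2)) + 0.0429 * Kq q := by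
    linarith
  refine (h6.trans (N0_q1 q hq0 hq1)).trans ?_
  -- the right side
  have h7 : (0.10894 - 0.0858 * q ^ 2) ^ 2 ≤ (P - t) ^ 2 :=
    pow_le_pow_left₀ (by linarith) (by linarith) 2
  have h8 : 8.491 ≤ 6 * ((P + 2 * t) / (2 * P)) := by
    rw [mul_div_assoc', le_div_iff₀ (by linarith)]
    linarith
  calc 8.491 * (0.10894 - 0.0858 * q ^ 2) ^ 2 ≤ 6 * ((P + 2 * t) / (2 * P)) * (P - t) ^ 2 :=
        mul_le_mul h8 h7 (sq_nonneg _) (by linarith)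
    _ = 6 * ((P - t) ^ 2 * (P + 2 * t) / (2 * P)) := by ring

/-! ## The value for `h ≤ t` -/

theorem N0_RP_lo : (1.284523 : ℝ) < RP := by
  rw [RP]
  exact Real.lt_sqrt_of_sq_lt (by norm_num)

theorem N0_RP_hi : RP < (1.284524 : ℝ) := by
  rw [RP, Real.sqrt_lt' (by norm_num)]
  norm_num

/-- `h = 1` and the slope. -/
theorem N0_bb {t g s : ℝ} (ht : 1.12 ≤ t) (htR : t < R)
    (hg : g ≤ max 0 (1.1 * t - 1.24) ∨ (1.1756 ≤ t ∧ g ≤ 1.1 * t - 1.22))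
    (hs : s ≤ 5.7143) (hs' : 1.1755 ≤ t → s ≤ 4.85) :
    bet t * (5 + 5 * g) ≤ 6 * bb t RP + 3 * kap t ∧ s * bet t ≤ 6 * bb t RP + 9 * kap t := by
  have ht1 : 1 ≤ t := by linarith
  have ht0 : 0 < t := by linarith
  have hRhi := R_hi'
  have hRlo := R_lo'
  have hP0 := N0_RP_lo
  have hP1 := N0_RP_hi
  have hP := RP_sq
  have hPp := RP_pos
  have hβ := (tBET t ht1 htR).1
  have hκ := (tKAP t ht1 htR).1
  have hQ := ds1_RW
  rcases le_total (t ^ 2) W0 with hW | hW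
  · obtain ⟨-, hk⟩ := tKEX
    have hkt := hk t ht1 hW
    have hmax : max (t ^ 2 - W0) 0 = 0 := max_eq_right (by linarith)
    have hbet : bet t = (1 - kap t) * (R * W0) - t ^ 3 := by
      rw [bet, gg, hmax, Real.sqrt_zero]
      ring
    have hS0 := S0_lo
    have hS1 := S0_hi
    have hS0' := S0_pos
    have hπ := Real.pi_lt_d6
    have hπ1 := Real.pi_gt_d6
    have hπ0 := Real.pi_pos
    have hS : 1.32502 ≤ 30 * S0 / π := by
      rw [le_div_iff₀ hπ0]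
      linarith
    have hS' : 30 * S0 / π ≤ 1.32505 := by
      rw [div_le_iff₀ hπ0]
      linarith
    have hkS : (1 - kap t) * (30 * S0 / π) = 9 * t ^ 2 - 5 * t ^ 3 - 3 := by
      rw [mul_div_assoc', div_eq_iff hπ0.ne']
      linarith
    have ht1' : t ≤ 1.1756 := by nlinarith [W0_hi]
    have hc : 2.17886 ≤ 33 / 40 + R * W0 / RP := by
      have : 1.35386 ≤ R * W0 / RP := by
        rw [le_div_iff₀ hPp]
        linarith
      linarith
    have hbb : bb t RP = (1 - kap t) * (33 / 40 + R * W0 / RP) - 3 / 2 * t ^ 2 := by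
      rw [bb, p_BF.2.2 t RP ht0 (by linarith), hbet, hP]
      field_simp
      ring
    rw [hbet] at hβ
    have hg' : g ≤ max 0 (1.1 * t - 1.24) := by
      rcases hg with hg | hg
      · exact hg
      · exfalso
        nlinarith [hg.1, W0_hi]
    rw [hbb, hbet]
    constructor
    · have := N0_A1 t (1 - kap t) (30 * S0 / π) (R * W0) (33 / 40 + R * W0 / RP) g ht ht1' hS hS'
        hkS hQ.2.le hc hβ hg'
      linarith
    · have := N0_A2 t (1 - kap t) (30 * S0 / π) (R * W0) (33 / 40 + R * W0 / RP) s ht ht1' hS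
        hkS hQ.2.le hc hβ hs
      linarith
  · have hA : 0 < R ^ 2 - W0 := by linarith [W0_lt]
    have hr : 0 ≤ (t ^ 2 - W0) / (R ^ 2 - W0) := div_nonneg (by linarith) hA.le
    obtain ⟨q, hq0, hq⟩ : ∃ q : ℝ, 0 ≤ q ∧ q ^ 2 * (R ^ 2 - W0) = t ^ 2 - W0 :=
      ⟨√((t ^ 2 - W0) / (R ^ 2 - W0)), Real.sqrt_nonneg _, by
        rw [Real.sq_sqrt hr, div_mul_cancel₀ _ hA.ne']⟩
    obtain ⟨hq1, hk⟩ := tKU t q hW ht1 htR hq0 hq
    obtain ⟨hb, -, hX⟩ := tBQ t q hW ht1 htR hq0 hq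
    have hW1 : (1.381966 : ℝ) < W0 := by
      rw [W0]
      linarith [s5_hi']
    have hW2 : W0 < (1.3819661 : ℝ) := by
      rw [W0]
      linarith [s5_lo']
    have hA1 : (0.2016259 : ℝ) < R ^ 2 - W0 := by linarith [R_sq_lo]
    have hA2 : R ^ 2 - W0 < (0.2016267 : ℝ) := by linarith [R_sq_hi]
    have ht2 : 1.17557 ≤ t := by
      apply le_of_sq_le_sq _ ht0.le
      norm_num
      linarith
    have h1 := N0_B t q (kap t) (R ^ 2 - W0) (R * W0) R (bet t) RP ht2 hk hκ (by linarith) hA1 hA2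
      hq0 hq1.le (by linarith) hRlo hRhi hβ (by linarith) hP0 hP1
    have hBf : Bf t RP = (RP - t) ^ 2 * (RP + 2 * t) / (2 * RP) := by
      rw [p_BF.2.2 t RP ht0 (by linarith)]
      field_simp
      ring
    have h2 : 4.6709 * bet t ≤ 6 * (bet t / RP) := by
      have : 4.6709 ≤ 6 / RP := by
        rw [le_div_iff₀ hPp]
        linarith
      calc 4.6709 * bet t ≤ 6 / RP * bet t := mul_le_mul_of_nonneg_right this hβ
        _ = 6 * (bet t / RP) := by ring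
    have hgt : g ≤ 1.1 * t - 1.22 := by
      rcases hg with hg | hg
      · rw [max_eq_right (by linarith)] at hg
        linarith
      · exact hg.2
    have h3 : bet t * g ≤ bet t * (1.1 * t - 1.22) := mul_le_mul_of_nonneg_left hgt hβ
    have h4 : s * bet t ≤ 4.85 * bet t := mul_le_mul_of_nonneg_right (hs' (by linarith)) hβ
    have h5 : 6.46 * bet t ≤ 5.5 * t * bet t := mul_le_mul_of_nonneg_right (by linarith) hβ
    rw [bb, hBf, hP]
    constructor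
    · linarith
    · linarith

/-- The value of the disc of radius `RP` for `h ≤ t`. -/
theorem N0_HH {t h : ℝ} (ht0 : 0 < t) (hh0 : 0 < h) (hht : h ≤ t) (hR : h ≤ RP) :
    HH t h (rr h RP) = h * bb t RP + kap t * h ^ 3 / 2 - bet t := by
  rw [tHB t h (rr h RP) ht0 hh0 (Real.sqrt_nonneg _), H_ccrr hh0 hR]
  have : Bf t h = 0 := by
    unfold Bf
    rw [if_pos hht]
  rw [this, sub_zero]

theorem N0_main {t h g s : ℝ} (ht : 1.12 ≤ t) (htR : t < R) (hh : 1 ≤ h) (hht : h ≤ t)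
    (hg : g ≤ max 0 (1.1 * t - 1.24) ∨ (1.1756 ≤ t ∧ g ≤ 1.1 * t - 1.22))
    (hs : s ≤ 5.7143) (hs' : 1.1755 ≤ t → s ≤ 4.85) :
    -(2 * π * HH t h (rr h RP)) ≤ π / 3 * bet t * (1 - (h - 1) * s - 5 * g) := by
  obtain ⟨h1, h2⟩ := N0_bb ht htR hg hs hs'
  have hR := R_hi'
  have hP := N0_RP_lo
  have hκ := (tKAP t (by linarith) htR).1
  rw [N0_HH (by linarith) (by linarith) hht (by linarith)]
  have h3 : 0 ≤ (h - 1) * (6 * bb t RP + 9 * kap t - s * bet t) :=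
    mul_nonneg (by linarith) (by linarith)
  have h4 : 0 ≤ 3 * kap t * ((h - 1) ^ 2 * (h + 2)) := by positivity
  have h5 : 0 ≤ 6 * (h * bb t RP + kap t * h ^ 3 / 2 - bet t) +
      bet t * (1 - (h - 1) * s - 5 * g) := by
    linarith
  have h6 : 0 ≤ π / 3 * (6 * (h * bb t RP + kap t * h ^ 3 / 2 - bet t) +
      bet t * (1 - (h - 1) * s - 5 * g)) := mul_nonneg (by positivity) h5
  linarith

/-- The final constants. -/
theorem N0_V {t h : ℝ} (ht : 1.151 ≤ t) (htR : t < R) (hh : 1 ≤ h) (hht : h ≤ t) :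
    -(2 * π * HH t h (rr h RP)) ≤ π / 3 * bet t * (1 - (h - 1) / Lv t - 5 * gv t) := by
  have e : (h - 1) / Lv t = (h - 1) * ((1 - 3 * gv t) / 0.19) := by
    rw [Lv, div_div_eq_mul_div, mul_div_assoc]
  rw [e]
  apply N0_main (by linarith) htR hh hht
  · left
    apply le_trans _ (le_max_right _ _)
    unfold gv
    split_ifs with h1
    · exact max_le (by linarith) (by linarith)
    · linarith
  · rw [div_le_iff₀ (by norm_num)]
    linarith [gv_nonneg t]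
  · intro h2
    rw [div_le_iff₀ (by norm_num)]
    unfold gv
    split_ifs with h1
    · linarith [le_max_right 0 (1.2 * (t - 1.151))]
    · norm_num

/-- Interpolation in the number `m` of sides. -/
theorem N0_interp {V T U x g : ℝ} (m : ℕ) (hm : m ≤ 4)
    (h4 : -(2 * π * V - 8 * T) ≤ U * (1 - x - g))
    (h0 : -(2 * π * V) ≤ U * (1 - x - 5 * g)) :
    -(2 * π * V - 2 * m * T) ≤ U * (1 - x - g * (5 - m)) := by
  have hm' : (m : ℝ) ≤ 4 := by exact_mod_cast hm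
  have hm0 : (0 : ℝ) ≤ m := Nat.cast_nonneg m
  have a := mul_le_mul_of_nonneg_left h4 (show (0 : ℝ) ≤ m / 4 by positivity)
  have b := mul_le_mul_of_nonneg_left h0 (show (0 : ℝ) ≤ 1 - m / 4 by linarith)
  linarith

/-- At most four sides: it is enough to have the inequality for four sides (`T` is a bound of the
contribution of one side). -/
theorem N0_le4 {ι : Type} [Fintype ι] {n : ι → E3} {h : ι → ℝ} {i : ι} {e f : E3} {t T : ℝ}
    (hP : Pck n h) (ht : 1.151 ≤ t) (htR : t < R) (hht : h i ≤ t) (hns : ns n h i ≤ 4)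
    (hFI : 2 * π * HH t (h i) (rr (h i) RP) - 2 * (ns n h i : ℝ) * T ≤ FI t n h i e f)
    (h4 : -(2 * π * HH t (h i) (rr (h i) RP) - 8 * T) ≤
      π / 3 * bet t * (1 - (h i - 1) / Lv t - gv t)) :
    -(π / 3 * bet t * (1 - (h i - 1) / Lv t - gv t * crd (ns n h i))) ≤ FI t n h i e f := by
  have h1 := N0_interp (ns n h i) hns h4 (N0_V ht htR (hP.2.1 i) hht)
  have hb : 0 ≤ π / 3 * bet t :=
    mul_nonneg (div_nonneg Real.pi_pos.le (by norm_num)) (tBET t (by linarith) htR).1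
  have hc : (crd (ns n h i) : ℝ) ≤ 5 - (ns n h i : ℝ) := by
    have h2 : crd (ns n h i) ≤ 5 - ns n h i := by
      rw [crd, if_pos (by omega)]
      exact min_le_right _ _
    have h3 : ((crd (ns n h i) : ℕ) : ℝ) ≤ ((5 - ns n h i : ℕ) : ℝ) := by exact_mod_cast h2
    rwa [Nat.cast_sub (by omega)] at h3
  have h5 : gv t * crd (ns n h i) ≤ gv t * (5 - (ns n h i : ℝ)) :=
    mul_le_mul_of_nonneg_left hc (gv_nonneg t)
  have h6 : π / 3 * bet t * (1 - (h i - 1) / Lv t - gv t * (5 - (ns n h i : ℝ))) ≤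
      π / 3 * bet t * (1 - (h i - 1) / Lv t - gv t * crd (ns n h i)) :=
    mul_le_mul_of_nonneg_left (by linarith) hb
  linarith

end Pool.Agent.SDL
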