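import Pool.Agent.SDL.Targets3

set_option autoImplicit false

/-!
# SDL: the chord function for the outer radius `RP`
-/

open MeasureTheory Set Real
open scoped RealInnerProductSpace

namespace Pool.Agent.SDL

open Pool.Agent.SDC

theorem RP_lo : (1.284523 : ℝ) < RP := by
  apply Real.lt_sqrt_of_sq_lt
  norm_num

theorem RP_hi : RP < (1.284524 : ℝ) := by
  rw [RP, Real.sqrt_lt' (by norm_num)]
  norm_num

theorem P4N_W0_lo : (1.381966 : ℝ) < W0 := by
  rw [W0]
  linarith [s5_hi']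

theorem P4N_W0_hi : W0 < (1.38196605 : ℝ) := by
  rw [W0]
  linarith [s5_lo']

theorem R_lt_RP' : R < RP := R_lt_RO.trans RO_lt_RP

/-- `ggu t κ RP` is monotone on `[1, RP²)`. -/
theorem RP_mono {t : ℝ} (ht : 1 ≤ t) (htR : t < R) :
    MonotoneOn (ggu t (kap t) RP) (Ico 1 (RP ^ 2)) := by
  have h1 := RP_lo
  have h2 := R_lt_RP'
  have ht2 : (1 : ℝ) ≤ t ^ 2 := one_le_pow₀ ht
  have h3 : max (t ^ 2 - 1 ^ 2) 0 * (R ^ 2 - 1) ≤ (t ^ 2 - 1) * (RP ^ 2 - 1 ^ 2) := by
    rw [one_pow, max_eq_left (sub_nonneg.2 ht2)]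
    apply mul_le_mul_of_nonneg_left _ (sub_nonneg.2 ht2)
    rw [RP_sq]
    linarith [R_sq_hi]
  have h4 := CBx_kap ht htR (by linarith : (1 : ℝ) < RP) one_pos h3
  have h5 := p_GMU t (kap t) 1 RP (by linarith) one_pos (by linarith) (by linarith) h4
  rwa [one_pow] at h5

theorem kap_le_one' {t : ℝ} (ht : 1 ≤ t) (htR : t < R) : kap t ≤ 1 := by
  have hk := (tKAP t ht htR).2.trans (p_KB t ht htR)
  have hrv2 : rv ^ 2 = R ^ 2 - 1 := rv_sq
  have hq1 : √(t ^ 2 - 1) / rv ≤ 1 := by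
    rw [div_le_one rv_pos, Real.sqrt_le_left rv_pos.le, hrv2]
    have := pow_le_pow_left₀ (by linarith) htR.le 2
    linarith
  have h1 := CBx_anti (le_refl (0 : ℝ)) (div_nonneg (Real.sqrt_nonneg _) rv_pos.le) hq1
  norm_num at h1
  exact hk.trans h1

/-- The value of `t³ + β`. -/
theorem bet_X (t : ℝ) : t ^ 3 + bet t =
    R * ((1 - kap t) * W0 + √(max (t ^ 2 - W0) 0) ^ 3 / √(R ^ 2 - W0)) := by
  rw [bet, gg]
  ring

/-- The comparison of the chord function with the affine function. -/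
theorem P4_cmp {t W : ℝ} (ht : 1 ≤ t) (htR : t < R) (hW : W ≤ 1.35388) :
    t ^ 3 + bet t - RP * ggu t (kap t) RP W ≤ (1 - kap t) * (R * W0 - RP * W) := by
  have hk := kap_le_one' ht htR
  have hRP := RP_pos
  have hR := R_pos
  have hRW : 0 < R ^ 2 - W0 := by linarith [R_sq_lo, P4N_W0_hi]
  have hPW : 0 < RP ^ 2 - W := by rw [RP_sq]; linarith
  rw [bet_X, ggu]
  have key : R * (√(max (t ^ 2 - W0) 0) ^ 3 / √(R ^ 2 - W0)) ≤
      RP * (√(max (t ^ 2 - W) 0) ^ 3 / √(RP ^ 2 - W)) := by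
    rcases le_or_gt (t ^ 2) W0 with h | h
    · rw [max_eq_right (by linarith), Real.sqrt_zero]
      have : 0 ≤ RP * (√(max (t ^ 2 - W) 0) ^ 3 / √(RP ^ 2 - W)) := by positivity
      simpa using this
    · have hz : 0 < t ^ 2 - W0 := by linarith
      have hz2 : t ^ 2 - W0 < 0.201627 := by
        have : t ^ 2 < R ^ 2 := pow_lt_pow_left₀ htR (by linarith) two_ne_zero
        linarith [R_sq_hi, P4N_W0_lo]
      have hs : 0 < t ^ 2 - W := by linarith [P4N_W0_lo]
      rw [max_eq_left hz.le, max_eq_left hs.le, ← mul_div_assoc, ← mul_div_assoc,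
        div_le_div_iff₀ (Real.sqrt_pos.mpr hRW) (Real.sqrt_pos.mpr hPW)]
      have e1 : √(t ^ 2 - W0) ^ 2 = t ^ 2 - W0 := Real.sq_sqrt hz.le
      have e2 : √(t ^ 2 - W) ^ 2 = t ^ 2 - W := Real.sq_sqrt hs.le
      have e3 : √(R ^ 2 - W0) ^ 2 = R ^ 2 - W0 := Real.sq_sqrt hRW.le
      have e4 : √(RP ^ 2 - W) ^ 2 = RP ^ 2 - W := Real.sq_sqrt hPW.le
      refine le_of_sq_le_sq ?_ (by positivity)
      have e5 : (R * √(t ^ 2 - W0) ^ 3 * √(RP ^ 2 - W)) ^ 2 =
          R ^ 2 * (t ^ 2 - W0) ^ 3 * (RP ^ 2 - W) := by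
        rw [← e1, ← e4, Real.sqrt_sq (Real.sqrt_nonneg _), Real.sqrt_sq (Real.sqrt_nonneg _)]
        ring
      have e6 : (RP * √(t ^ 2 - W) ^ 3 * √(R ^ 2 - W0)) ^ 2 =
          RP ^ 2 * (t ^ 2 - W) ^ 3 * (R ^ 2 - W0) := by
        rw [← e2, ← e3, Real.sqrt_sq (Real.sqrt_nonneg _), Real.sqrt_sq (Real.sqrt_nonneg _)]
        ring
      rw [e5, e6, RP_sq]
      -- `S = t² - W`, `z = t² - W0`
      have hR2 := R_sq_hi
      have hR2' := R_sq_lo
      have hW0 := P4N_W0_lo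
      have hW0' := P4N_W0_hi
      obtain ⟨z, hzd⟩ : ∃ z, z = t ^ 2 - W0 := ⟨_, rfl⟩
      obtain ⟨S, hSd⟩ : ∃ S, S = t ^ 2 - W := ⟨_, rfl⟩
      obtain ⟨S1, hS1d⟩ : ∃ S1, S1 = t ^ 2 - 1.35388 := ⟨_, rfl⟩
      rw [← hzd, ← hSd]
      have hz0 : 0 < z := by rw [hzd]; exact hz
      have hS10 : 0 < S1 := by rw [hS1d]; linarith
      have hSS : S1 ≤ S := by rw [hS1d, hSd]; linarith
      have hPt : 0 < 33 / 20 - t ^ 2 := by
        have : t ^ 2 < R ^ 2 := pow_lt_pow_left₀ htR (by linarith) two_ne_zero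
        linarith
      -- step 1
      have q1 : S1 * (33 / 20 - W) ≤ S * (33 / 20 - 1.35388) := by
        have hcW : 0 ≤ (1.35388 - W) * (33 / 20 - t ^ 2) :=
          mul_nonneg (by linarith) hPt.le
        rw [hS1d, hSd]
        linarith
      -- step 2
      have q2 : 1.125 * z ≤ S1 := by
        rw [hS1d, hzd]
        rw [hzd] at hz0
        linarith
      have q3 : 1.42 * z ^ 3 ≤ S1 ^ 3 := by
        have h1 : (1.125 * z) ^ 3 ≤ S1 ^ 3 := pow_le_pow_left₀ (by positivity) q2 3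
        have h2 : 0 < z ^ 3 := by positivity
        rw [mul_pow] at h1
        linarith
      have q4 : S1 ^ 3 * (33 / 20 - W) ≤ S ^ 3 * (33 / 20 - 1.35388) := by
        have h1 : S1 ^ 2 ≤ S ^ 2 := pow_le_pow_left₀ hS10.le hSS 2
        have h2 : 0 ≤ S * (33 / 20 - 1.35388) := by
          have : 0 < S := hS10.trans_le hSS
          have : (0 : ℝ) < 33 / 20 - 1.35388 := by norm_num
          positivity
        calc S1 ^ 3 * (33 / 20 - W) = S1 ^ 2 * (S1 * (33 / 20 - W)) := by ring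
          _ ≤ S1 ^ 2 * (S * (33 / 20 - 1.35388)) := mul_le_mul_of_nonneg_left q1 (by positivity)
          _ ≤ S ^ 2 * (S * (33 / 20 - 1.35388)) := mul_le_mul_of_nonneg_right h1 h2
          _ = _ := by ring
      have hW' : 0 < 33 / 20 - W := by linarith
      have q5 : 1.42 * z ^ 3 * (33 / 20 - W) ≤ S ^ 3 * (33 / 20 - 1.35388) :=
        (mul_le_mul_of_nonneg_right q3 hW'.le).trans q4
      have hz3 : 0 < z ^ 3 * (33 / 20 - W) := by positivity
      have hS3 : 0 ≤ S ^ 3 := by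
        have : 0 < S := hS10.trans_le hSS
        positivity
      have q6 : R ^ 2 * z ^ 3 * (33 / 20 - W) ≤ 1.5835926 * (z ^ 3 * (33 / 20 - W)) := by
        rw [mul_assoc]
        exact mul_le_mul_of_nonneg_right hR2.le hz3.le
      have q7 : 33 / 20 * S ^ 3 * 0.201625 ≤ 33 / 20 * S ^ 3 * (R ^ 2 - W0) := by
        apply mul_le_mul_of_nonneg_left _ (by positivity)
        linarith
      linarith
  have e : (1 - kap t) * (R * W0 - RP * W) =
    R * ((1 - kap t) * W0) - RP * ((1 - kap t) * W) := by ring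
  rw [e, mul_add, mul_add]
  linarith

/-- Beyond `1.35388` the chord function is positive. -/
theorem P4_pos {t W : ℝ} (ht : 1 ≤ t) (htR : t < R) (hW : 1.35388 ≤ W) (hW2 : W < RP ^ 2) :
    t ^ 3 + bet t ≤ RP * ggu t (kap t) RP W := by
  have h1 := P4_cmp ht htR (le_refl (1.35388 : ℝ))
  have hk := kap_le_one' ht htR
  have h2 : R * W0 - RP * 1.35388 ≤ 0 := by
    have := RP_lo
    have h3 : R * W0 ≤ 1.258409 * 1.38196605 :=
      mul_le_mul R_hi'.le P4N_W0_hi.le (by linarith [P4N_W0_lo]) (by norm_num)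
    linarith
  have h3 : (1 - kap t) * (R * W0 - RP * 1.35388) ≤ 0 :=
    mul_nonpos_of_nonneg_of_nonpos (by linarith) h2
  have h4 := RP_mono ht htR ⟨by norm_num, by rw [RP_sq]; norm_num⟩
    ⟨by linarith, hW2⟩ hW
  have h5 := mul_le_mul_of_nonneg_left h4 RP_pos.le
  linarith

/-- For `t ≥ 1.18` the chord function is positive on the whole range. -/
theorem P4_pos2 {t W : ℝ} (ht : 1.18 ≤ t) (htR : t < R) (hW : 1.32955 ≤ W) (hW2 : W < RP ^ 2) :
    t ^ 3 + bet t ≤ RP * ggu t (kap t) RP W := by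
  have ht1 : 1 ≤ t := by linarith
  have hk := kap_le_one' ht1 htR
  have hk0 := (tKAP t ht1 htR).1
  have hRP := RP_pos
  have hR := R_pos
  have h4 := RP_mono ht1 htR ⟨by norm_num, by rw [RP_sq]; norm_num⟩
    ⟨by linarith, hW2⟩ hW
  have h5 := mul_le_mul_of_nonneg_left h4 RP_pos.le
  refine le_trans ?_ h5
  have hRW : 0 < R ^ 2 - W0 := by linarith [R_sq_lo, P4N_W0_hi]
  have ht2 : (1.3924 : ℝ) ≤ t ^ 2 := by
    have := pow_le_pow_left₀ (by norm_num) ht 2
    norm_num at this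
    linarith
  have ht3 : t ^ 2 < R ^ 2 := pow_lt_pow_left₀ htR (by linarith) two_ne_zero
  have hR2 := R_sq_hi
  have hR2' := R_sq_lo
  have hW0 := P4N_W0_lo
  have hW0' := P4N_W0_hi
  have hz : 0 < t ^ 2 - W0 := by linarith
  have hs : 0 < t ^ 2 - 1.32955 := by linarith
  rw [bet_X, ggu, max_eq_left hz.le, max_eq_left hs.le, RP_sq,
    show (33 / 20 - 1.32955 : ℝ) = 0.32045 by norm_num]
  -- the constants
  have hp : √(0.32045 : ℝ) < 0.566084 := by
    rw [Real.sqrt_lt' (by norm_num)]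
    norm_num
  have hp0 : 0 < √(0.32045 : ℝ) := Real.sqrt_pos.mpr (by norm_num)
  have hq : (0.449025 : ℝ) < √(R ^ 2 - W0) := by
    apply Real.lt_sqrt_of_sq_lt
    norm_num
    linarith
  have hq0 : 0 < √(R ^ 2 - W0) := by linarith
  obtain ⟨r, hr⟩ : ∃ r, r = √(t ^ 2 - W0) := ⟨_, rfl⟩
  obtain ⟨s, hsd⟩ : ∃ s, s = √(t ^ 2 - 1.32955) := ⟨_, rfl⟩
  have hr2 : r ^ 2 = t ^ 2 - W0 := by rw [hr]; exact Real.sq_sqrt hz.le
  have hs2 : s ^ 2 = t ^ 2 - 1.32955 := by rw [hsd]; exact Real.sq_sqrt hs.le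
  have hr0 : 0 ≤ r := by rw [hr]; exact Real.sqrt_nonneg _
  have hs0 : 0 ≤ s := by rw [hsd]; exact Real.sqrt_nonneg _
  rw [← hr, ← hsd]
  have a1 : R * (r ^ 3 / √(R ^ 2 - W0)) ≤ 2.80255 * r ^ 3 := by
    rw [← mul_div_assoc, div_le_iff₀ hq0]
    have h1 : R * r ^ 3 ≤ 1.258409 * r ^ 3 :=
      mul_le_mul_of_nonneg_right R_hi'.le (by positivity)
    have h2 : 2.80255 * r ^ 3 * 0.449025 ≤ 2.80255 * r ^ 3 * √(R ^ 2 - W0) :=
      mul_le_mul_of_nonneg_left hq.le (by positivity)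
    have h3 : 0 ≤ r ^ 3 := by positivity
    linarith
  have a2 : 2.269 * s ^ 3 ≤ RP * (s ^ 3 / √0.32045) := by
    rw [← mul_div_assoc, le_div_iff₀ hp0]
    have h1 : 1.284523 * s ^ 3 ≤ RP * s ^ 3 :=
      mul_le_mul_of_nonneg_right RP_lo.le (by positivity)
    have h2 : 2.269 * s ^ 3 * √0.32045 ≤ 2.269 * s ^ 3 * 0.566084 :=
      mul_le_mul_of_nonneg_left hp.le (by positivity)
    have h3 : 0 ≤ s ^ 3 := by positivity
    linarith
  have a3 : (1 - kap t) * (R * W0 - RP * 1.32955) ≤ 0.031243 := by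
    have h3 : R * W0 ≤ 1.258409 * 1.38196605 :=
      mul_le_mul R_hi'.le P4N_W0_hi.le (by linarith) (by norm_num)
    have h4 : 1.258408 * 1.381966 ≤ R * W0 :=
      mul_le_mul R_lo'.le P4N_W0_lo.le (by norm_num) hR.le
    have h5 := RP_lo
    have h6 := RP_hi
    have h7 : R * W0 - RP * 1.32955 ≤ 0.031243 := by linarith
    have h8 : 0 ≤ R * W0 - RP * 1.32955 := by linarith
    have h9 := mul_nonneg hk0 h8
    linarith
  -- the one-variable inequality
  have a4 : 0.031243 ≤ 2.269 * s ^ 3 - 2.80255 * r ^ 3 := by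
    have hc : s ^ 2 = r ^ 2 + (W0 - 1.32955) := by linarith
    have hr1 : 0.1021 ≤ r := by
      by_contra h
      push Not at h
      have : r ^ 2 < 0.1021 ^ 2 := pow_lt_pow_left₀ h hr0 two_ne_zero
      norm_num at this
      linarith
    have hr4 : r ≤ 0.4491 := by
      by_contra h
      push Not at h
      have : 0.4491 ^ 2 < r ^ 2 := pow_lt_pow_left₀ h (by norm_num) two_ne_zero
      norm_num at this
      linarith
    have hr5 : 0.010433 ≤ r ^ 2 := by linarith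
    have hup : ∀ r1 r2 k : ℝ, 0 ≤ k → k * (r1 + r2) ≤ r1 * r2 → r1 ≤ r → r ≤ r2 →
        r ^ 3 ≤ (r1 + r2 - k) * r ^ 2 - k * (r1 * r2) := by
      intro r1 r2 k hk0 hk1 h1 h2
      have h3 : 0 ≤ (r - r1) * (r2 - r) * (r + k) :=
        mul_nonneg (mul_nonneg (by linarith) (by linarith)) (by linarith)
      have h4 : 0 ≤ (r1 * r2 - k * (r1 + r2)) * r := mul_nonneg (by linarith) hr0
      linarith
    have hlo : ∀ s0 : ℝ, 0 ≤ s0 → s0 ^ 3 + 1.5 * s0 * (s ^ 2 - s0 ^ 2) ≤ s ^ 3 := by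
      intro s0 h0
      have h3 : 0 ≤ (s - s0) ^ 2 * (s + s0 / 2) := mul_nonneg (sq_nonneg _) (by linarith)
      linarith
    rcases le_total r 0.2 with h1 | h1
    · have b1 := hup 0.102 0.2 0.0675 (by norm_num) (by norm_num) (by linarith) h1
      have b2 := hlo 0.251 (by norm_num)
      have b3 : r ^ 2 ≤ 0.04 := by
        have := pow_le_pow_left₀ hr0 h1 2
        norm_num at this
        linarith
      rw [hc] at b2
      norm_num at b1 b2
      linarith
    · have b3 : 0.04 ≤ r ^ 2 := by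
        have := pow_le_pow_left₀ (by norm_num) h1 2
        norm_num at this
        linarith
      rcases le_total r 0.34 with h2 | h2
      · have b1 := hup 0.2 0.34 0.1259 (by norm_num) (by norm_num) h1 h2
        have b2 := hlo 0.341 (by norm_num)
        have b4 : r ^ 2 ≤ 0.34 ^ 2 := pow_le_pow_left₀ hr0 h2 2
        rw [hc] at b2
        norm_num at b1 b2 b4
        linarith
      · have b1 := hup 0.34 0.4491 0.1935 (by norm_num) (by norm_num) h2 hr4
        have b2 := hlo 0.49 (by norm_num)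
        have b4 : 0.34 ^ 2 ≤ r ^ 2 := pow_le_pow_left₀ (by norm_num) h2 2
        have b5 : r ^ 2 ≤ 0.4491 ^ 2 := pow_le_pow_left₀ hr0 hr4 2
        rw [hc] at b2
        norm_num at b1 b2 b4 b5
        linarith
  have e : (1 - kap t) * (R * W0 - RP * 1.32955) =
    R * ((1 - kap t) * W0) - RP * ((1 - kap t) * 1.32955) := by ring
  rw [mul_add, mul_add]
  linarith

end Pool.Agent.SDL
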