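import Pool.Agent.SDL.P3_P4L
import Pool.Agent.SDL.P3_P4N
import Pool.Agent.SDL.AsmG

set_option autoImplicit false

/-!
# SDL: a facet with at most four sides in the ball of radius `RP`: the geometric part

All the sides of a facet of height `h` have `Dq ≥ 4/(4-h²) ≥ h² + 0.507 (33/20 - h²)`.
-/

open MeasureTheory Set Real
open scoped RealInnerProductSpace

namespace Pool.Agent.SDL

open Pool.Agent.SDC

/-- Half of the angle of the chord. -/
noncomputable def psi4 : ℝ := arccos √0.507

/-- The square of the distance from the centre of the point of the chord with the azimuth `ψ`. -/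
noncomputable def w4 (Y ψ : ℝ) : ℝ := Y * (1 - 0.507 / cos ψ ^ 2) + 33 / 20 * (0.507 / cos ψ ^ 2)

/-- The contribution of the half of a side (over `h`). -/
noncomputable def IT (t Y : ℝ) : ℝ := ∫ ψ in (0 : ℝ)..psi4, (bb t RP - bb t √(w4 Y ψ))

/-- The integral over the boundary, for four sides. -/
noncomputable def IP4 (t Y : ℝ) : ℝ :=
  (2 * π - 8 * psi4) * bb t RP + 8 * ∫ ψ in (0 : ℝ)..psi4, bb t √(w4 Y ψ)

/-- The error term. -/
noncomputable def E4 (t h : ℝ) : ℝ :=
  if h < 1.0245 ∧ t < 1.18 then 0.000118 * (1 - kap t) else 0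

theorem E4_nonneg {t h : ℝ} (ht : 1 ≤ t) (htR : t < R) : 0 ≤ E4 t h := by
  have := kap_le_one' ht htR
  unfold E4
  split_ifs
  · exact mul_nonneg (by norm_num) (by linarith)
  · exact le_rfl

theorem sq507_pos : 0 < √(0.507 : ℝ) := Real.sqrt_pos.mpr (by norm_num)

theorem sq507_lt : √(0.507 : ℝ) < 1 := by
  rw [Real.sqrt_lt' one_pos]
  norm_num

theorem psi4_cos : cos psi4 = √0.507 := by
  rw [psi4, cos_arccos (by linarith [sq507_pos]) sq507_lt.le]

theorem psi4_pos : 0 < psi4 := arccos_pos.mpr sq507_lt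

theorem psi4_lt : psi4 < π / 2 := arccos_lt_pi_div_two.mpr sq507_pos

/-- The closed form of `v`. -/
theorem P4_HH {t h : ℝ} (ht : 1 ≤ t) (h1 : 1 ≤ h) (hht : h ≤ t) (htR : t < R) :
    HH t h (rr h RP) = h * bb t RP + kap t * h ^ 3 / 2 - bet t := by
  have hh0 : 0 < h := by linarith
  have hP := R_lt_RP'
  rw [p_HB t h (rr h RP) (by linarith) hh0 (Real.sqrt_nonneg _),
    (FBC_rr hh0 (by linarith)).2,
    show Bf t h = 0 by rw [Bf, if_pos hht]]
  ring

theorem P4_main {t h a : ℝ} (ht : 1 ≤ t) (htR : t < R) (h1 : 1 ≤ h) (hht : h ≤ t)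
    (ha0 : 0 < a) (ha : h ^ 2 + 0.507 * (33 / 20 - h ^ 2) ≤ h ^ 2 * (1 + a ^ 2)) :
    ∫ ψ in (0 : ℝ)..(π / 2), max (HH t h (rr h RP) - HH t h (a / cos ψ)) 0 ≤
      (∫ ψ in (0 : ℝ)..psi4, (HH t h (rr h RP) - HH t h (√0.507 * rr h RP / cos ψ))) +
        E4 t h := by
  have hh0 : 0 < h := by linarith
  have ht0 : 0 < t := by linarith
  have hhR : h < R := by linarith
  have hP := R_lt_RP'
  have hhP : h < RP := by linarith
  have hk1 := kap_le_one' ht htR
  have hκ : 0 ≤ kap t := (tKAP t ht htR).1
  have hβ : 0 ≤ bet t := (tBET t ht htR).1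
  have hgc : Continuous (G t (kap t) (bet t) h) := tHCL.1 _ _ _ _
  obtain ⟨hρ0, hρ2, hρc⟩ := CBx_rr hh0 hhP
  set ρ := rr h RP with hρdef
  have hs := sq507_pos
  have hs1 := sq507_lt
  have hA0 : 0 < √0.507 * ρ := mul_pos hs hρ0
  have hAρ : √0.507 * ρ < ρ := by nlinarith
  have hh2 : h ^ 2 < 1.5835926 := by
    have : h ^ 2 < R ^ 2 := pow_lt_pow_left₀ hhR hh0.le two_ne_zero
    linarith [R_sq_hi]
  have hh1 : 1 ≤ h ^ 2 := by nlinarith
  -- the value at `A`
  have hA2 : (√0.507 * ρ) ^ 2 = 0.507 * ρ ^ 2 := by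
    rw [mul_pow, Real.sq_sqrt (by norm_num)]
  have hWA : h ^ 2 * (1 + (√0.507 * ρ) ^ 2) = h ^ 2 + 0.507 * (33 / 20 - h ^ 2) := by
    rw [hA2, ← RP_sq, ← hρ2]
    ring
  have hWl : 1.32955 ≤ h ^ 2 * (1 + (√0.507 * ρ) ^ 2) := by
    rw [hWA]
    linarith
  have haA : √0.507 * ρ ≤ a := by
    have h3 : h ^ 2 * (1 + (√0.507 * ρ) ^ 2) ≤ h ^ 2 * (1 + a ^ 2) := by
      rw [hWA]
      exact ha
    have h4 : (1 + (√0.507 * ρ) ^ 2) ≤ (1 + a ^ 2) := le_of_mul_le_mul_left h3 (by positivity)
    exact le_of_sq_le_sq (by linarith) ha0.le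
  have hsgn : ∀ r r', 0 ≤ r → r ≤ r' → 0 ≤ G t (kap t) (bet t) h r →
      0 ≤ G t (kap t) (bet t) h r' := fun r r' h3 h4 h5 =>
    p_SGN t (kap t) (bet t) h r r' ht0 hh0 hκ hβ h3 h4 h5
  -- the chord function
  have hmono : ∀ x, √0.507 * ρ ≤ x → x < ρ →
      h ^ 2 * (1 + (√0.507 * ρ) ^ 2) ≤ h ^ 2 * (1 + x ^ 2) ∧ h ^ 2 * (1 + x ^ 2) < RP ^ 2 := by
    intro x hx1 hx2
    constructor
    · apply mul_le_mul_of_nonneg_left _ (by positivity)
      have := pow_le_pow_left₀ hA0.le hx1 2
      linarith
    · exact (CBx_W hh0 hhP (hA0.trans_le hx1) hx2).2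
  have hP1 : ∀ x, √0.507 * ρ ≤ x → x < ρ → LOCA_P (G t (kap t) (bet t) h) ρ x =
      h ^ 2 * √(RP ^ 2 - h ^ 2 * (1 + x ^ 2)) / (h ^ 2 * (1 + x ^ 2) * RP) *
      (RP * ggu t (kap t) RP (h ^ 2 * (1 + x ^ 2)) - t ^ 3 - bet t) := by
    intro x hx1 hx2
    exact p_PCH t (kap t) (bet t) h RP x ht0 (by linarith) hh0 hhP (hA0.trans_le hx1) hx2
  have hPρ : LOCA_P (G t (kap t) (bet t) h) ρ ρ = 0 := by
    rw [LOCA_P, sub_self, Real.sqrt_zero, intervalIntegral.integral_same]
  -- the bound
  have hbd : ∀ x, √0.507 * ρ ≤ x → x ≤ ρ → - E4 t h ≤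
      ∫ u in (√0.507 * ρ)..x, LOCA_P (G t (kap t) (bet t) h) ρ u := by
    intro x hx1 hx2
    have hE := E4_nonneg (h := h) ht htR
    have hpre : ∀ u, 0 ≤ h ^ 2 * √(RP ^ 2 - h ^ 2 * (1 + u ^ 2)) /
        (h ^ 2 * (1 + u ^ 2) * RP) := by
      intro u
      have := RP_pos
      positivity
    have hpos : ∀ u, √0.507 * ρ ≤ u → u ≤ ρ → (1.35388 ≤ h ^ 2 * (1 + u ^ 2) ∨ 1.18 ≤ t) →
        0 ≤ LOCA_P (G t (kap t) (bet t) h) ρ u := by
      intro u hu1 hu2 hu3
      rcases hu2.eq_or_lt with h3 | h3
      · rw [h3, hPρ]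
      · rw [hP1 u hu1 h3]
        obtain ⟨h4, h5⟩ := hmono u hu1 h3
        apply mul_nonneg (hpre u)
        rcases hu3 with h6 | h6
        · have := P4_pos ht htR h6 h5
          linarith
        · have := P4_pos2 h6 htR (hWl.trans h4) h5
          linarith
    by_cases hc : 1.35388 ≤ h ^ 2 * (1 + (√0.507 * ρ) ^ 2) ∨ 1.18 ≤ t
    · have h3 : 0 ≤ ∫ u in (√0.507 * ρ)..x, LOCA_P (G t (kap t) (bet t) h) ρ u := by
        apply intervalIntegral.integral_nonneg hx1
        intro u hu
        apply hpos u hu.1 (hu.2.trans hx2)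
        rcases hc with h6 | h6
        · left
          refine h6.trans ?_
          apply mul_le_mul_of_nonneg_left _ (by positivity)
          have := pow_le_pow_left₀ hA0.le hu.1 2
          linarith
        · exact Or.inr h6
      linarith
    · push Not at hc
      obtain ⟨hc1, hc2⟩ := hc
      rw [hWA] at hc1
      have hh3 : h ^ 2 < 1.049352 := by linarith
      have hh4 : h < 1.0245 := by
        by_contra h3
        push Not at h3
        have := pow_le_pow_left₀ (by norm_num) h3 2
        norm_num at this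
        linarith
      have hE4 : E4 t h = 0.000118 * (1 - kap t) := by
        rw [E4, if_pos ⟨hh4, hc2⟩]
      obtain ⟨A, hAd⟩ : ∃ A, A = √0.507 * ρ := ⟨_, rfl⟩
      obtain ⟨d, hdd⟩ : ∃ d, d = 1.35388 - h ^ 2 * (1 + (√0.507 * ρ) ^ 2) := ⟨_, rfl⟩
      obtain ⟨k, hkd⟩ : ∃ k, k = 1 - kap t := ⟨_, rfl⟩
      have hd0 : 0 < d := by
        rw [hdd, hWA]
        linarith
      have hd1 : d ≤ 0.02433 := by
        rw [hdd]
        linarith
      have hk0 : 0 ≤ k := by rw [hkd]; linarith
      rw [← hAd] at hWA hWl hA2 hx1 hmono hP1 hpos hA0 hdd ⊢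
      have hAlo : 0.5385 ≤ A := by
        have h3 : h ^ 2 * A ^ 2 = 0.507 * (33 / 20 - h ^ 2) := by linarith
        by_contra h4
        push Not at h4
        have h5 : A ^ 2 < 0.5385 ^ 2 := pow_lt_pow_left₀ h4 hA0.le two_ne_zero
        have h6 : h ^ 2 * A ^ 2 < h ^ 2 * 0.5385 ^ 2 :=
          mul_lt_mul_of_pos_left h5 (by positivity)
        norm_num at h6
        linarith
      have hm0 : 0 < 2 * h ^ 2 * A := by positivity
      -- the lower bound of the chord function
      have hlow : ∀ u, A ≤ u → u ≤ ρ → u ≤ A + d / (2 * h ^ 2 * A) →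
          - (0.42578 * h ^ 2 * k * (d - 2 * h ^ 2 * A * (u - A))) ≤
            LOCA_P (G t (kap t) (bet t) h) ρ u := by
        intro u hu1 hu2 hu3
        have hu4 : 0 ≤ d - 2 * h ^ 2 * A * (u - A) := by
          have h3 : u - A ≤ d / (2 * h ^ 2 * A) := by linarith
          rw [le_div_iff₀ hm0] at h3
          linarith
        have hu5 : 0 ≤ 0.42578 * h ^ 2 * k * (d - 2 * h ^ 2 * A * (u - A)) := by positivity
        rcases hu2.eq_or_lt with h3 | h3
        · rw [h3, hPρ]
          rw [h3] at hu5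
          linarith
        · obtain ⟨h4, h5⟩ := hmono u hu1 h3
          rcases le_or_gt 1.35388 (h ^ 2 * (1 + u ^ 2)) with h6 | h6
          · have := hpos u hu1 hu2 (Or.inl h6)
            linarith
          · rw [hP1 u hu1 h3]
            obtain ⟨W, hWd⟩ : ∃ W, W = h ^ 2 * (1 + u ^ 2) := ⟨_, rfl⟩
            rw [← hWd] at h4 h5 h6 ⊢
            have hW1 : 1.32955 ≤ W := hWl.trans h4
            have hW0 : 0 < W := by linarith
            have h7 := P4_cmp ht htR h6.le
            have h8 : R * W0 - RP * W ≤ RP * (1.35388 - W) := by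
              have := RP_lo
              have h9 : R * W0 ≤ 1.258409 * 1.38196605 :=
                mul_le_mul R_hi'.le P4N_W0_hi.le (by linarith [P4N_W0_lo]) (by norm_num)
              linarith
            have h9 : t ^ 3 + bet t - RP * ggu t (kap t) RP W ≤ k * (RP * (1.35388 - W)) := by
              rw [hkd]
              exact h7.trans (mul_le_mul_of_nonneg_left h8 (by linarith))
            have h10 : √(RP ^ 2 - W) ≤ 0.566084 := by
              rw [Real.sqrt_le_left (by norm_num), RP_sq]
              norm_num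
              linarith
            have h11 : h ^ 2 * √(RP ^ 2 - W) / (W * RP) * (k * (RP * (1.35388 - W))) ≤
                0.42578 * h ^ 2 * k * (1.35388 - W) := by
              have e1 : h ^ 2 * √(RP ^ 2 - W) / (W * RP) * (k * (RP * (1.35388 - W))) =
                  (√(RP ^ 2 - W) / W) * (h ^ 2 * k * (1.35388 - W)) := by
                have := RP_pos
                field_simp
              have e2 : √(RP ^ 2 - W) / W ≤ 0.42578 := by
                rw [div_le_iff₀ hW0]
                linarith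
              rw [e1]
              have h12 : 0 ≤ h ^ 2 * k * (1.35388 - W) :=
                mul_nonneg (by positivity) (by linarith)
              linarith [mul_le_mul_of_nonneg_right e2 h12]
            have h12 : 1.35388 - W ≤ d - 2 * h ^ 2 * A * (u - A) := by
              have h13 : 0 ≤ h ^ 2 * (u - A) ^ 2 := by positivity
              rw [hWd, hdd]
              linarith
            have h13 : 0.42578 * h ^ 2 * k * (1.35388 - W) ≤
                0.42578 * h ^ 2 * k * (d - 2 * h ^ 2 * A * (u - A)) :=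
              mul_le_mul_of_nonneg_left h12 (by positivity)
            have h14 := mul_le_mul_of_nonneg_left h9
              (show 0 ≤ h ^ 2 * √(RP ^ 2 - W) / (W * RP) by
                have := RP_pos
                positivity)
            have e3 : h ^ 2 * √(RP ^ 2 - W) / (W * RP) *
                (t ^ 3 + bet t - RP * ggu t (kap t) RP W) =
                - (h ^ 2 * √(RP ^ 2 - W) / (W * RP) *
                  (RP * ggu t (kap t) RP W - t ^ 3 - bet t)) := by ring
            linarith
      -- the integral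
      have hPc : Continuous (LOCA_P (G t (kap t) (bet t) h) ρ) := LOCA_Pc hgc ρ
      obtain ⟨y, hyd⟩ : ∃ y, y = min x (A + d / (2 * h ^ 2 * A)) := ⟨_, rfl⟩
      have hAy : A ≤ y := by
        rw [hyd]
        exact le_min hx1 (by have : 0 < d / (2 * h ^ 2 * A) := by positivity
                             linarith)
      have hyx : y ≤ x := by rw [hyd]; exact min_le_left _ _
      have h3 := intervalIntegral.integral_add_adjacent_intervals
        (hPc.intervalIntegrable (μ := volume) A y) (hPc.intervalIntegrable (μ := volume) y x)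
      have h4 : 0 ≤ ∫ u in y..x, LOCA_P (G t (kap t) (bet t) h) ρ u := by
        rcases hyx.eq_or_lt with h5 | h5
        · rw [h5, intervalIntegral.integral_same]
        · apply intervalIntegral.integral_nonneg hyx
          intro u hu
          apply hpos u (hAy.trans hu.1) (hu.2.trans hx2)
          left
          have h6 : y = A + d / (2 * h ^ 2 * A) := by
            rw [hyd] at h5 ⊢
            rcases min_choice x (A + d / (2 * h ^ 2 * A)) with h7 | h7
            · rw [h7] at h5
              exact absurd h5 (lt_irrefl _)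
            · exact h7
          have h7 : d / (2 * h ^ 2 * A) ≤ u - A := by linarith [hu.1]
          rw [div_le_iff₀ hm0] at h7
          have h13 : 0 ≤ h ^ 2 * (u - A) ^ 2 := by positivity
          rw [hdd] at h7
          linarith
      have h5 : ∫ u in A..y, - (0.42578 * h ^ 2 * k * (d - 2 * h ^ 2 * A * (u - A))) ≤
          ∫ u in A..y, LOCA_P (G t (kap t) (bet t) h) ρ u := by
        apply intervalIntegral.integral_mono_on hAy
        · exact (by fun_prop : Continuous fun u : ℝ =>
            - (0.42578 * h ^ 2 * k * (d - 2 * h ^ 2 * A * (u - A)))).intervalIntegrable _ _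
        · exact hPc.intervalIntegrable _ _
        · intro u hu
          exact hlow u hu.1 (hu.2.trans (hyx.trans hx2))
            (hu.2.trans (by rw [hyd]; exact min_le_right _ _))
      have h6 : ∫ u in A..y, - (0.42578 * h ^ 2 * k * (d - 2 * h ^ 2 * A * (u - A))) =
          - (0.42578 * h ^ 2 * k * (d * (y - A) - h ^ 2 * A * (y - A) ^ 2)) := by
        have h7 : ∀ u ∈ uIcc A y, HasDerivAt (fun u : ℝ =>
            - (0.42578 * h ^ 2 * k * (d * (u - A) - h ^ 2 * A * (u - A) ^ 2)))
            (- (0.42578 * h ^ 2 * k * (d - 2 * h ^ 2 * A * (u - A)))) u := by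
          intro u _
          have h8 : HasDerivAt (fun u : ℝ => u - A) 1 u := (hasDerivAt_id u).sub_const A
          have h9 := (((h8.const_mul d).sub ((h8.pow 2).const_mul (h ^ 2 * A))).const_mul
            (0.42578 * h ^ 2 * k)).neg
          exact h9.congr_deriv (by push_cast; ring)
        rw [intervalIntegral.integral_eq_sub_of_hasDerivAt h7
          ((by fun_prop : Continuous fun u : ℝ =>
            - (0.42578 * h ^ 2 * k * (d - 2 * h ^ 2 * A * (u - A)))).intervalIntegrable _ _)]
        ring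
      have h7 : 0.42578 * h ^ 2 * k * (d * (y - A) - h ^ 2 * A * (y - A) ^ 2) ≤
          0.000118 * k := by
        have h8 : 4 * A * (h ^ 2 * (d * (y - A) - h ^ 2 * A * (y - A) ^ 2)) ≤ d ^ 2 := by
          have := sq_nonneg (d - 2 * h ^ 2 * A * (y - A))
          linarith
        have h9 : h ^ 2 * (d * (y - A) - h ^ 2 * A * (y - A) ^ 2) ≤ 0.000277 := by
          by_contra h10
          push Not at h10
          have h11 : 4 * 0.5385 * 0.000277 < 4 * A *
              (h ^ 2 * (d * (y - A) - h ^ 2 * A * (y - A) ^ 2)) := by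
            have h12 : 0.5385 * 0.000277 < A *
                (h ^ 2 * (d * (y - A) - h ^ 2 * A * (y - A) ^ 2)) :=
              mul_lt_mul' hAlo h10 (by norm_num) hA0
            linarith
          have h13 : d ^ 2 ≤ 0.02433 ^ 2 := pow_le_pow_left₀ hd0.le hd1 2
          norm_num at h11 h13
          linarith
        have h10 := mul_le_mul_of_nonneg_left h9 hk0
        linarith
      rw [hE4, ← hkd]
      linarith
  have key := LOC3 (E := E4 t h) hgc hA0 hAρ hsgn
    (G_nonneg_far ht htR (by rw [hρdef, (FBC_rr hh0 hhP.le).2]; exact hP.le)) hbd haA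
  have e1 : arccos (√0.507 * ρ / ρ) = psi4 := by
    rw [mul_div_assoc, div_self hρ0.ne', mul_one, psi4]
  rw [e1] at key
  exact key

end Pool.Agent.SDL
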