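import Pool.Agent.SDL.P3_P4F
import Pool.Agent.SDL.P3_P4C
import Pool.Agent.SDL.AsmC

set_option autoImplicit false

/-!
# SDL: four sides, `1.151 ≤ t ≤ 1.2`, `h ≤ min (t, 1.18)`, in the form of the assembly
-/

open MeasureTheory Set Real

namespace Pool.Agent.SDL

open Pool.Agent.SDC

theorem P4D_gv {t : ℝ} (ht : 1.151 ≤ t) (ht2 : t ≤ 1.2) : gv t = 1.2 * (t - 1.151) := by
  rw [gv, if_pos (by linarith), max_eq_right (by linarith)]

/-- The right side. -/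
theorem P4D_w {t l : ℝ} (ht : 1.151 ≤ t) (ht2 : t ≤ 1.2) (hl : 0 ≤ l) :
    1 - l * ((4.72 - 3.3 * t) / 0.175) - (0.0074 + 1.163 * (t - 1.15)) ≤
      1 - l / Lv t - gv t := by
  have hg := P4D_gv ht ht2
  have e1 : l / Lv t = l * ((1 - 3 * gv t) / 0.19) := by
    rw [Lv, div_div_eq_mul_div, mul_div_assoc]
  have e2 : (1 - 3 * gv t) / 0.19 ≤ (4.72 - 3.3 * t) / 0.175 := by
    rw [hg, div_le_div_iff₀ (by norm_num) (by norm_num)]
    linarith
  have e3 := mul_le_mul_of_nonneg_left e2 hl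
  rw [e1, hg] at *
  linarith

theorem P4D_E4 {t : ℝ} (h : ℝ) (ht : 1 ≤ t) (htR : t < R) :
    8 * E4 t h ≤ if t < 1.18 then 0.00102 else 0 := by
  have hk := (tKAP t ht htR).1
  unfold E4
  split_ifs with h1 h2 h2
  · linarith
  · exact absurd h1.2 h2
  · norm_num
  · norm_num

/-- **Four sides, `1.151 ≤ t ≤ 1.2`.** -/
theorem P4D {t h : ℝ} (ht : 1.151 ≤ t) (ht2 : t ≤ 1.2) (h1 : 1 ≤ h) (hht : h ≤ t)
    (h2 : h ≤ 1.18) :
    -(2 * π * HH t h (rr h RP) - 8 * (h * IT t (h ^ 2) + E4 t h)) ≤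
      π / 3 * bet t * (1 - (h - 1) / Lv t - gv t) := by
  have htR : t < R := by linarith [R_lo']
  have hC := P4C (by linarith : (1.1436 : ℝ) ≤ t) ht2 h1 h2
  have hE := P4D_E4 h (by linarith : (1 : ℝ) ≤ t) htR
  have hw := P4D_w ht ht2 (by linarith : 0 ≤ h - 1)
  have hB := (tBET t (by linarith) htR).1
  have hU := mul_le_mul_of_nonneg_left hw (show (0 : ℝ) ≤ π / 3 * bet t by positivity)
  have hY1 : 1 ≤ h ^ 2 := by nlinarith
  have hY2 : h ^ 2 ≤ 33 / 20 := by nlinarith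
  have hI := IP4_IT (by linarith : 0 < t) hY1 hY2
  have hI2 : IP4 t (h ^ 2) = (2 * π - 8 * arccos √0.507) * bb t RP
      + 8 * ∫ ψ in (0 : ℝ)..arccos √0.507,
        bb t √(h ^ 2 * (1 - 0.507 / cos ψ ^ 2) + 33 / 20 * (0.507 / cos ψ ^ 2)) := rfl
  rw [← hI2, hI] at hC
  rw [P4_HH (by linarith) h1 hht htR]
  have e1 : h * (2 * π * bb t RP - 8 * IT t (h ^ 2)) =
      2 * π * (h * bb t RP) - 8 * (h * IT t (h ^ 2)) := by ring
  rw [e1] at hC
  linarith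

end Pool.Agent.SDL
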