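import Pool.Agent.SDL.Targets
import Pool.Agent.SDL.P_LOC2

set_option autoImplicit false

/-!
# SDL: the local lemma with an error term, for chords at distance at least `A`
-/

open MeasureTheory Set Real
open scoped RealInnerProductSpace

namespace Pool.Agent.SDL

open Pool.Agent.SDC

theorem LOC3_core {G : ℝ → ℝ} {ρ A E : ℝ} (hG : Continuous G) (hA : 0 < A)
    (hAρ : A < ρ) (hsgn : ∀ r r', 0 ≤ r → r ≤ r' → 0 ≤ G r → 0 ≤ G r') (hGρ : 0 ≤ G ρ)
    (hE : ∀ x, A ≤ x → x ≤ ρ → - E ≤ ∫ u in A..x, LOCA_P G ρ u)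
    {b : ℝ} (h2 : ∀ r, b ≤ r → 0 ≤ r → r ≤ ρ → LOCA_I G r ≤ LOCA_I G ρ) {a : ℝ} (ha : A ≤ a)
    (hba : b ≤ a) :
    ∫ ψ in (0 : ℝ)..(π / 2), LOCA_U G ρ (a / cos ψ) ≤ (∫ u in A..ρ, LOCA_P G ρ u) + E := by
  have hρ : 0 < ρ := hA.trans hAρ
  have ha0 : 0 < a := hA.trans_le ha
  have hPc := LOCA_Pc hG ρ
  have hUρ : ∀ r, ρ ≤ r → LOCA_U G ρ r = 0 := by
    intro r hr
    have h3 := LOCA_ge hG hρ hsgn hGρ hr
    rw [LOCA_U, max_eq_left (hρ.le.trans hr)]
    exact max_eq_right (by linarith)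
  have hnn : 0 ≤ (∫ u in A..ρ, LOCA_P G ρ u) + E := by
    have := hE ρ hAρ.le le_rfl
    linarith
  have hz : ∀ ψ, 0 < cos ψ → ρ * cos ψ ≤ a → LOCA_U G ρ (a / cos ψ) = 0 := by
    intro ψ hc hle
    exact hUρ _ ((le_div_iff₀ hc).2 hle)
  have hne : ∀ᵐ x : ℝ ∂volume, x ≠ π / 2 := by
    rw [ae_iff]
    simp
  rcases le_or_gt ρ a with hρa | haρ
  · have h3 : ∫ ψ in (0 : ℝ)..(π / 2), LOCA_U G ρ (a / cos ψ) = 0 := by
      refine intervalIntegral.integral_zero_ae ?_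
      filter_upwards [hne] with ψ hψ hI
      rw [uIoc_of_le (by positivity)] at hI
      refine hz ψ (cos_pos_of_mem_Ioo ⟨by linarith [hI.1, Real.pi_pos],
        lt_of_le_of_ne hI.2 hψ⟩) ?_
      have h4 := cos_le_one ψ
      nlinarith
    rw [h3]
    exact hnn
  · have hq0 : 0 < a / ρ := by positivity
    have hq1 : a / ρ ≤ 1 := (div_le_one hρ).2 haρ.le
    have hac : cos (arccos (a / ρ)) = a / ρ := cos_arccos (by linarith) hq1
    have hac0 : 0 ≤ arccos (a / ρ) := arccos_nonneg _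
    have hac2 : arccos (a / ρ) ≤ π / 2 := arccos_le_pi_div_two.2 hq0.le
    have hcos : ∀ ψ ∈ Icc 0 (arccos (a / ρ)), a / ρ ≤ cos ψ := by
      intro ψ hψ
      rw [← hac]
      exact cos_le_cos_of_nonneg_of_le_pi hψ.1 (hac2.trans (by linarith [Real.pi_pos])) hψ.2
    have e1 : ∀ ψ ∈ Icc 0 (arccos (a / ρ)), LOCA_U G ρ (a / cos ψ) =
        ∫ s in (a / cos ψ)..ρ, G s * s := by
      intro ψ hψ
      have hc := hcos ψ hψ
      have hc0 : 0 < cos ψ := hq0.trans_le hc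
      have h3 : a / cos ψ ≤ ρ := by
        rw [div_le_iff₀ hc0]
        rw [div_le_iff₀ hρ] at hc
        linarith
      have h4 : b ≤ a / cos ψ := by
        refine hba.trans ?_
        rw [le_div_iff₀ hc0]
        have := cos_le_one ψ
        nlinarith
      have h5 : 0 ≤ a / cos ψ := by positivity
      rw [LOCA_U, max_eq_left h5, ← LOCA_sub hG]
      exact max_eq_left (by linarith [h2 _ h4 h5 h3])
    have e2 : ∀ ψ ∈ Ico (arccos (a / ρ)) (π / 2), LOCA_U G ρ (a / cos ψ) = 0 := by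
      intro ψ hψ
      refine hz ψ (cos_pos_of_mem_Ioo ⟨by linarith [hψ.1, Real.pi_pos], hψ.2⟩) ?_
      have h3 : cos ψ ≤ a / ρ := by
        rw [← hac]
        exact cos_le_cos_of_nonneg_of_le_pi hac0 (by linarith [hψ.2, Real.pi_pos]) hψ.1
      rw [le_div_iff₀ hρ] at h3
      linarith
    have i1 : IntervalIntegrable (fun ψ => LOCA_U G ρ (a / cos ψ)) volume 0
        (arccos (a / ρ)) := by
      refine ContinuousOn.intervalIntegrable ?_
      rw [uIcc_of_le hac0]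
      have h3 : Continuous (LOCA_U G ρ) :=
        (continuous_const.sub ((LOCA_cont hG).comp (continuous_id.max continuous_const))).max
          continuous_const
      refine h3.comp_continuousOn ?_
      refine continuousOn_const.div continuous_cos.continuousOn ?_
      intro ψ hψ
      exact (hq0.trans_le (hcos ψ hψ)).ne'
    have e3 : ∀ᵐ ψ : ℝ ∂volume, ψ ∈ uIoc (arccos (a / ρ)) (π / 2) →
        LOCA_U G ρ (a / cos ψ) = 0 := by
      filter_upwards [hne] with ψ hψ hI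
      rw [uIoc_of_le hac2] at hI
      exact e2 ψ ⟨hI.1.le, lt_of_le_of_ne hI.2 hψ⟩
    have i2 : IntervalIntegrable (fun ψ => LOCA_U G ρ (a / cos ψ)) volume
        (arccos (a / ρ)) (π / 2) := by
      refine (intervalIntegrable_const (c := (0 : ℝ))).congr_ae ?_
      rw [Filter.EventuallyEq, ae_restrict_iff' measurableSet_uIoc]
      filter_upwards [e3] with ψ hψ hI
      exact (hψ hI).symm
    have h3 : ∫ ψ in (0 : ℝ)..(π / 2), LOCA_U G ρ (a / cos ψ) = ∫ u in a..ρ, LOCA_P G ρ u := by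
      rw [← intervalIntegral.integral_add_adjacent_intervals i1 i2]
      have h4 : ∫ ψ in (arccos (a / ρ))..(π / 2), LOCA_U G ρ (a / cos ψ) = 0 :=
        intervalIntegral.integral_zero_ae e3
      have h5 : ∫ ψ in (0 : ℝ)..(arccos (a / ρ)), LOCA_U G ρ (a / cos ψ) =
          ∫ ψ in (0 : ℝ)..(arccos (a / ρ)), (∫ s in (a / cos ψ)..ρ, G s * s) := by
        refine intervalIntegral.integral_congr ?_
        intro ψ hψ
        rw [uIcc_of_le hac0] at hψ
        exact e1 ψ hψ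
      rw [h4, h5, add_zero]
      exact p_MP G hG ρ a ha0 haρ
    rw [h3]
    have h5 := intervalIntegral.integral_add_adjacent_intervals
      (hPc.intervalIntegrable (μ := volume) A a) (hPc.intervalIntegrable (μ := volume) a ρ)
    have h6 := hE a ha haρ.le
    linarith

/-- The local lemma: chords at distance at least `A`, where the integral of the chord function
from `A` is at least `- E`. -/
theorem LOC3 {G : ℝ → ℝ} {ρ A E : ℝ} (hG : Continuous G) (hA : 0 < A)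
    (hAρ : A < ρ) (hsgn : ∀ r r', 0 ≤ r → r ≤ r' → 0 ≤ G r → 0 ≤ G r') (hGρ : 0 ≤ G ρ)
    (hE : ∀ x, A ≤ x → x ≤ ρ → - E ≤ ∫ u in A..x, LOCA_P G ρ u) {a : ℝ} (ha : A ≤ a) :
    ∫ ψ in (0 : ℝ)..(π / 2), max ((∫ s in (0 : ℝ)..ρ, G s * s)
      - ∫ s in (0 : ℝ)..(a / cos ψ), G s * s) 0 ≤
    (∫ ψ in (0 : ℝ)..arccos (A / ρ), ((∫ s in (0 : ℝ)..ρ, G s * s)
      - ∫ s in (0 : ℝ)..(A / cos ψ), G s * s)) + E := by
  have hρ : 0 < ρ := hA.trans hAρ
  have ha0 : 0 < a := hA.trans_le ha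
  have hR : ∫ ψ in (0 : ℝ)..arccos (A / ρ), ((∫ s in (0 : ℝ)..ρ, G s * s)
      - ∫ s in (0 : ℝ)..(A / cos ψ), G s * s) = ∫ u in A..ρ, LOCA_P G ρ u := by
    have h3 := p_MP G hG ρ A hA hAρ
    rw [show (∫ u in A..ρ, LOCA_P G ρ u) = ∫ u in A..ρ, ∫ y in (0 : ℝ)..√(ρ ^ 2 - u ^ 2),
      G √(u ^ 2 + y ^ 2) from rfl, ← h3]
    refine intervalIntegral.integral_congr ?_
    intro ψ _
    exact LOCA_sub hG (A / cos ψ) ρ
  have hL : ∫ ψ in (0 : ℝ)..(π / 2), max ((∫ s in (0 : ℝ)..ρ, G s * s)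
      - ∫ s in (0 : ℝ)..(a / cos ψ), G s * s) 0 =
      ∫ ψ in (0 : ℝ)..(π / 2), LOCA_U G ρ (a / cos ψ) := by
    refine intervalIntegral.integral_congr ?_
    intro ψ hψ
    rw [uIcc_of_le (by positivity)] at hψ
    have hc : 0 ≤ cos ψ := cos_nonneg_of_mem_Icc ⟨by linarith [hψ.1, Real.pi_pos], hψ.2⟩
    have h3 : 0 ≤ a / cos ψ := div_nonneg ha0.le hc
    change max (LOCA_I G ρ - LOCA_I G (a / cos ψ)) 0 = LOCA_U G ρ (a / cos ψ)
    rw [LOCA_U, max_eq_left h3]
  rw [hR, hL]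
  rcases le_or_gt (LOCA_I G ρ) 0 with hα | hα
  · obtain ⟨b, hb0, hbρ, h1, h2⟩ := LOCA_b hG hρ hsgn hα
    rcases le_or_gt b a with hba | hab
    · exact LOC3_core hG hA hAρ hsgn hGρ hE (fun r hr _ hr' => h2 r hr hr') ha hba
    · refine le_trans ?_ (LOC3_core hG hA hAρ hsgn hGρ hE (fun r hr _ hr' => h2 r hr hr')
        (ha.trans hab.le) le_rfl)
      refine p_MNT (LOCA_U G ρ) a b ρ ?_ (fun r => le_max_right _ _) ha0 hab.le ?_ ?_
      · exact (continuous_const.sub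
          ((LOCA_cont hG).comp (continuous_id.max continuous_const))).max continuous_const
      · intro r hr
        have h3 := h1 (max r 0) (le_max_right _ _) (max_le hr hb0)
        rw [LOCA_U]
        exact max_eq_right (by linarith)
      · intro r hr
        have h3 := LOCA_ge hG hρ hsgn hGρ hr
        rw [LOCA_U, max_eq_left (hρ.le.trans hr)]
        exact max_eq_right (by linarith)
  · have hI0 : LOCA_I G 0 = 0 := intervalIntegral.integral_same
    have h2 : ∀ r, 0 ≤ r → 0 ≤ r → r ≤ ρ → LOCA_I G r ≤ LOCA_I G ρ := by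
      intro r h0 _ h1
      by_contra hc
      push Not at hc
      have h3 := LOCA_key hG hsgn h0 h1 hc le_rfl h0
      rw [hI0] at h3
      linarith
    exact LOC3_core hG hA hAρ hsgn hGρ hE h2 ha ha0.le

end Pool.Agent.SDL
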