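import Pool.Agent.SDL.P6_G
import Pool.Agent.SDL.P6_Hi
import Pool.Agent.SDL.P6_C2

set_option autoImplicit false

/-!
# SDL, P: facets with at least six near sides, all radii
-/

open MeasureTheory Set Real
open scoped RealInnerProductSpace

namespace Pool.Agent.SDL

open Pool.Agent.SDC

/-- P for at least six near sides. -/
theorem p_P6 {ι : Type} [Fintype ι] (n : ι → E3) (h : ι → ℝ) (i : ι) (e f : E3) (t : ℝ)
    (hP : Pck n h) (hI : Irr n h) (hO : Onb (n i) e f) (ht : 1.151 ≤ t) (htR : t < R)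
    (hi : h i < 1 + Lv t) (hns : 6 ≤ ns n h i) :
    -(π / 3 * bet t * (1 - (h i - 1) / Lv t - gv t * crd (ns n h i))) ≤ FI t n h i e f := by
  rcases le_total t 1.2355 with h1 | h1
  · exact p6_lo (fun ψ z a b c _ d => c6_i0 a b c d) (fun ψ z a b c _ d => c6_i1 a b c d)
      (fun ψ z a b c _ d => c6_i2 a b c d) (fun ψ z a b c _ d => c6_i3 a b c d)
      (fun ψ z a b c _ d => c6_i4 a b c d) hP hI hO ht h1 hi hns
  · exact p_P6_hi n h i e f t hP hI hO h1 htR hi hns

end Pool.Agent.SDL
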