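import Pool.Agent.SDL.Chord
import Pool.Agent.SDL.P3_H

set_option autoImplicit false

/-!
# SDL: the large heights of the target P, numerical part

`mD h = 5/4 + 75/128 (h - 6/5) ≤ 2/√(4-h²)`. The sides of a facet at the height `h` are at distance
at least `mD h`.
-/

open MeasureTheory Set Real
open scoped RealInnerProductSpace

namespace Pool.Agent.SDL

open Pool.Agent.SDC

/-- The tangent of `2/√(4-h²)` at `h = 6/5`. -/
noncomputable def mD (h : ℝ) : ℝ := 5 / 4 + 75 / 128 * (h - 6 / 5)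

theorem mD_sq {h : ℝ} (h1 : 1 ≤ h) : mD h ^ 2 * (4 - h ^ 2) ≤ 4 := by
  rw [mD]
  have h2 : 0 ≤ 4.199 + 2.289 * (h - 1.2) + 0.343 * (h - 1.2) ^ 2 := by nlinarith
  have h3 := mul_nonneg (sq_nonneg (h - 1.2)) h2
  have h4 : 0 ≤ (h - 1.2) ^ 2 * (0.0002 + 0.00018 * (h - 1.2) ^ 2) := by positivity
  nlinarith [sq_nonneg (h - 1.2)]

theorem mD_le_RP {h : ℝ} (h1 : 1 ≤ h) (h2 : h ≤ 1.2589) : mD h ≤ RP := by
  have h3 : mD h ≤ 1.28452 := by
    rw [mD]
    linarith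
  have h4 : 0 ≤ mD h := by
    rw [mD]
    linarith
  by_contra hcon
  push Not at hcon
  nlinarith [RP_sq, RP_pos]

theorem mD_gt {h : ℝ} (h2 : h ≤ 1.2589) : h + 0.025 ≤ mD h := by
  rw [mD]
  linarith

/-! ## Upper bounds of `β` for `t² ≥ W0` -/

theorem A_bd : (0.201625 : ℝ) < R ^ 2 - W0 ∧ R ^ 2 - W0 < 0.201627 := by
  have h1 := R_sq_lo
  have h2 := R_sq_hi
  have h3 := s5_lo'
  have h4 := s5_hi'
  rw [W0]
  constructor <;> linarith

theorem b17_poly {q : ℝ} (h0 : 0 ≤ q) (h1 : q ≤ 1) :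
    (0.126867 * (1 + 2 * q) - 0.012113 * (1 + q) ^ 2) * (5.93114 + 0.403254 * q ^ 2) ≤
      17 * 0.201625 ^ 2 * (1 + q) ^ 2 := by
  have hv : 0 ≤ 1 - q := by linarith
  nlinarith [pow_nonneg h0 2, pow_nonneg h0 3, pow_nonneg h0 4, mul_nonneg h0 hv,
    mul_nonneg (pow_nonneg h0 2) hv, mul_nonneg (pow_nonneg h0 3) hv, pow_nonneg hv 2]

theorem b17 {t : ℝ} (ht : 1 ≤ t) (htR : t < R) (hW : W0 ≤ t ^ 2) :
    bet t + kap t * (R * W0) ≤ 17 * (R - t) ^ 2 := by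
  obtain ⟨a1, a2⟩ := A_bd
  have hA : 0 < R ^ 2 - W0 := by linarith
  obtain ⟨q, hq0, hq⟩ : ∃ q : ℝ, 0 ≤ q ∧ q ^ 2 * (R ^ 2 - W0) = t ^ 2 - W0 :=
    ⟨√((t ^ 2 - W0) / (R ^ 2 - W0)), Real.sqrt_nonneg _, by
      rw [Real.sq_sqrt (div_nonneg (by linarith) hA.le), div_mul_cancel₀ _ hA.ne']⟩
  obtain ⟨hb, -, -⟩ := p_BQ t q hW ht htR hq0 hq
  have hR1 := R_lo'
  have hR2 := R_hi'
  have hR3 := R_sq_hi
  have hq1 : q ≤ 1 := by
    by_contra hcon
    push Not at hcon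
    have : 1 * (R ^ 2 - W0) < q ^ 2 * (R ^ 2 - W0) := by
      apply mul_lt_mul_of_pos_right _ hA
      nlinarith
    nlinarith
  set A := R ^ 2 - W0 with hAd
  have e1 : R * A / 2 ≤ 0.126867 := by nlinarith
  have e2 : 0.012113 ≤ 3 * A ^ 2 / (8 * R) := by
    rw [le_div_iff₀ (by linarith)]
    nlinarith
  have hD : (R - t) * (R + t) = A * (1 - q ^ 2) := by
    rw [hAd] at hq ⊢
    linear_combination hq
  -- the bracket
  set B := 0.126867 * (1 + 2 * q) - 0.012113 * (1 + q) ^ 2 with hB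
  have h1 : bet t + kap t * (R * W0) ≤ (1 - q) ^ 2 * B := by
    have c1 : R * A / 2 * ((1 - q) ^ 2 * (1 + 2 * q)) ≤
        0.126867 * ((1 - q) ^ 2 * (1 + 2 * q)) :=
      mul_le_mul_of_nonneg_right e1 (by positivity)
    have c2 : 0.012113 * (1 - q ^ 2) ^ 2 ≤ 3 * A ^ 2 / (8 * R) * (1 - q ^ 2) ^ 2 :=
      mul_le_mul_of_nonneg_right e2 (by positivity)
    rw [hB]
    nlinarith
  have h2 : (R + t) ^ 2 ≤ 5.93114 + 0.403254 * q ^ 2 := by
    have c1 : t ^ 2 = R ^ 2 - A * (1 - q ^ 2) := by linarith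
    have c2 : A * q ^ 2 ≤ 0.201627 * q ^ 2 := mul_le_mul_of_nonneg_right a2.le (by positivity)
    nlinarith [sq_nonneg (R - t)]
  have hB0 : 0 ≤ B := by
    rw [hB]
    nlinarith
  have h3 : B * (R + t) ^ 2 ≤ 17 * A ^ 2 * (1 + q) ^ 2 := by
    have c1 : B * (R + t) ^ 2 ≤ B * (5.93114 + 0.403254 * q ^ 2) :=
      mul_le_mul_of_nonneg_left h2 hB0
    have c2 := b17_poly hq0 hq1
    rw [← hB] at c2
    have c3 : (0.201625 : ℝ) ^ 2 ≤ A ^ 2 := pow_le_pow_left₀ (by norm_num) a1.le 2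
    have c4 : 17 * 0.201625 ^ 2 * (1 + q) ^ 2 ≤ 17 * A ^ 2 * (1 + q) ^ 2 :=
      mul_le_mul_of_nonneg_right (by linarith) (by positivity)
    linarith
  have h4 : (1 - q) ^ 2 * B * (R + t) ^ 2 ≤ 17 * (R - t) ^ 2 * (R + t) ^ 2 := by
    have c1 : (1 - q) ^ 2 * (B * (R + t) ^ 2) ≤ (1 - q) ^ 2 * (17 * A ^ 2 * (1 + q) ^ 2) :=
      mul_le_mul_of_nonneg_left h3 (by positivity)
    have c2 : (1 - q) ^ 2 * (17 * A ^ 2 * (1 + q) ^ 2) = 17 * ((R - t) * (R + t)) ^ 2 := by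
      rw [hD]
      ring
    nlinarith
  have h5 : (1 - q) ^ 2 * B ≤ 17 * (R - t) ^ 2 :=
    le_of_mul_le_mul_right h4 (by positivity)
  linarith

theorem kap88 {t : ℝ} (ht : 1 ≤ t) (htR : t < R) (hW : W0 ≤ t ^ 2) : kap t ≤ 0.0088 := by
  obtain ⟨a1, a2⟩ := A_bd
  have hA : 0 < R ^ 2 - W0 := by linarith
  obtain ⟨q, hq0, hq⟩ : ∃ q : ℝ, 0 ≤ q ∧ q ^ 2 * (R ^ 2 - W0) = t ^ 2 - W0 :=
    ⟨√((t ^ 2 - W0) / (R ^ 2 - W0)), Real.sqrt_nonneg _, by
      rw [Real.sq_sqrt (div_nonneg (by linarith) hA.le), div_mul_cancel₀ _ hA.ne']⟩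
  obtain ⟨h1, h2⟩ := p_KU p_KEX t q hW ht htR hq0 hq
  have h3 : Kq q ≤ 0.151 := by
    rw [Kq]
    have hv : 0 ≤ 1 - q := by linarith
    have h7 : q ^ 7 ≤ q ^ 5 := pow_le_pow_of_le_one hq0 h1.le (by norm_num)
    linarith [mul_nonneg (pow_nonneg hq0 2) (pow_nonneg hv 3),
      mul_nonneg (pow_nonneg hq0 3) (pow_nonneg hv 2), mul_nonneg (pow_nonneg hq0 4) hv,
      pow_nonneg hq0 5]
  linarith

/-! ## The region `t ≤ h` -/

theorem pd_conc {a t h c b Q r : ℝ} (ha : 0 ≤ a) (hat : a ≤ t) (hth : t ≤ h) (hc : 0 ≤ c)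
    (hb : 0 ≤ b) (La : r ≤ c * (Q - a ^ 3) - b * (1.2585 - a) ^ 2)
    (Lh : r ≤ c * (Q - h ^ 3) - b * (1.2585 - h) ^ 2) :
    r ≤ c * (Q - t ^ 3) - b * (1.2585 - t) ^ 2 := by
  rcases eq_or_lt_of_le (hat.trans hth) with he | hlt
  · have h1 : t = a := by linarith
    rw [h1]
    exact La
  · have p1 := mul_nonneg (sub_nonneg.2 hth) (sub_nonneg.2 La)
    have p2 := mul_nonneg (sub_nonneg.2 hat) (sub_nonneg.2 Lh)
    have p3 : 0 ≤ (h - a) * ((t - a) * (h - t)) * (c * (t + a + h) + b) := by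
      apply mul_nonneg (mul_nonneg (by linarith) (mul_nonneg (by linarith) (by linarith)))
      have : 0 ≤ c * (t + a + h) := mul_nonneg hc (by linarith)
      linarith
    have p4 : 0 ≤ (h - a) * (c * (Q - t ^ 3) - b * (1.2585 - t) ^ 2 - r) := by
      have e : (h - a) * (c * (Q - t ^ 3) - b * (1.2585 - t) ^ 2 - r) =
          (h - t) * (c * (Q - a ^ 3) - b * (1.2585 - a) ^ 2 - r) +
          (t - a) * (c * (Q - h ^ 3) - b * (1.2585 - h) ^ 2 - r) +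
          (h - a) * ((t - a) * (h - t)) * (c * (t + a + h) + b) := by ring
      rw [e]
      linarith
    have p5 : 0 ≤ c * (Q - t ^ 3) - b * (1.2585 - t) ^ 2 - r :=
      nonneg_of_mul_nonneg_right p4 (by linarith)
    linarith

theorem pd_A1 {h : ℝ} (h1 : 1.15 ≤ h) (h2 : h ≤ 1.1756) :
    6 * ((mD h - h) * (1.73908 - h * mD h * (mD h + h) / 2)) *
      (9 * h ^ 2 - 5 * h ^ 3 - 3) ≤
    mD h * ((1.739076 * (9 * h ^ 2 - 5 * h ^ 3 - 3) - 1.32505 * h ^ 3) *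
      ((5.14 - 3.6 * h) * (1 - (h - 1) / 0.19))) := by
  have hu : 0 ≤ h - 1.15 := by linarith
  have hv : 0 ≤ 1.1756 - h := by linarith
  rw [mD, show (h - 1) / 0.19 = 100 / 19 * (h - 1) by ring]
  linarith [pow_nonneg hv 7, mul_nonneg hu (pow_nonneg hv 6),
    mul_nonneg (pow_nonneg hu 2) (pow_nonneg hv 5), mul_nonneg (pow_nonneg hu 3)
    (pow_nonneg hv 4), mul_nonneg (pow_nonneg hu 4) (pow_nonneg hv 3),
    mul_nonneg (pow_nonneg hu 5) (pow_nonneg hv 2), mul_nonneg (pow_nonneg hu 6) hv,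
    pow_nonneg hu 7]

theorem pd_ia1 {h : ℝ} (h1 : 1.1755 ≤ h) (h2 : h ≤ 1.19) :
    0.0264 * (h * mD h * (mD h ^ 2 - h ^ 2)) ≤
      6 * (mD h - h) * (h * mD h * (mD h + h) / 2 - 1.1755 ^ 3) -
      17 * (6 * (mD h - h) - 0.8596 * ((1 - (h - 1) / 0.19) * mD h)) *
        (1.2585 - 1.1755) ^ 2 := by
  have hu : 0 ≤ h - 1.1755 := by linarith
  have hv : 0 ≤ 1.19 - h := by linarith
  rw [mD, show (h - 1) / 0.19 = 100 / 19 * (h - 1) by ring]
  linarith [pow_nonneg hv 4, mul_nonneg hu (pow_nonneg hv 3),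
    mul_nonneg (pow_nonneg hu 2) (pow_nonneg hv 2), mul_nonneg (pow_nonneg hu 3) hv,
    pow_nonneg hu 4]

theorem pd_ia2 {h : ℝ} (h1 : 1.1755 ≤ h) (h2 : h ≤ 1.19) :
    0.0264 * (h * mD h * (mD h ^ 2 - h ^ 2)) ≤
      6 * (mD h - h) * (h * mD h * (mD h + h) / 2 - h ^ 3) -
      17 * (6 * (mD h - h) - 0.8596 * ((1 - (h - 1) / 0.19) * mD h)) *
        (1.2585 - h) ^ 2 := by
  have hu : 0 ≤ h - 1.1755 := by linarith
  have hv : 0 ≤ 1.19 - h := by linarith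
  rw [mD, show (h - 1) / 0.19 = 100 / 19 * (h - 1) by ring]
  linarith [pow_nonneg hv 4, mul_nonneg hu (pow_nonneg hv 3),
    mul_nonneg (pow_nonneg hu 2) (pow_nonneg hv 2), mul_nonneg (pow_nonneg hu 3) hv,
    pow_nonneg hu 4]

theorem pd_ib1 {h : ℝ} (h1 : 1.19 ≤ h) (h2 : h ≤ 1.23) :
    0.0264 * (h * mD h * (mD h ^ 2 - h ^ 2)) ≤
      6 * (mD h - h) * (h * mD h * (mD h + h) / 2 - 1.1755 ^ 3) -
      17 * (6 * (mD h - h) - 0.9116 * ((1 - (h - 1) / 0.19) * mD h)) *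
        (1.2585 - 1.1755) ^ 2 := by
  have hu : 0 ≤ h - 1.19 := by linarith
  have hv : 0 ≤ 1.23 - h := by linarith
  rw [mD, show (h - 1) / 0.19 = 100 / 19 * (h - 1) by ring]
  linarith [pow_nonneg hv 4, mul_nonneg hu (pow_nonneg hv 3),
    mul_nonneg (pow_nonneg hu 2) (pow_nonneg hv 2), mul_nonneg (pow_nonneg hu 3) hv,
    pow_nonneg hu 4]

theorem pd_ib2 {h : ℝ} (h1 : 1.19 ≤ h) (h2 : h ≤ 1.23) :
    0.0264 * (h * mD h * (mD h ^ 2 - h ^ 2)) ≤
      6 * (mD h - h) * (h * mD h * (mD h + h) / 2 - h ^ 3) -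
      17 * (6 * (mD h - h) - 0.9116 * ((1 - (h - 1) / 0.19) * mD h)) *
        (1.2585 - h) ^ 2 := by
  have hu : 0 ≤ h - 1.19 := by linarith
  have hv : 0 ≤ 1.23 - h := by linarith
  rw [mD, show (h - 1) / 0.19 = 100 / 19 * (h - 1) by ring]
  linarith [pow_nonneg hv 4, mul_nonneg hu (pow_nonneg hv 3),
    mul_nonneg (pow_nonneg hu 2) (pow_nonneg hv 2), mul_nonneg (pow_nonneg hu 3) hv,
    pow_nonneg hu 4]

theorem pd_ic1 {h : ℝ} (h1 : 1.23 ≤ h) (h2 : h ≤ 1.2589) :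
    0.0264 * (h * mD h * (mD h ^ 2 - h ^ 2)) ≤
      6 * (mD h - h) * (h * mD h * (mD h + h) / 2 - 1.1755 ^ 3) -
      17 * (6 * (mD h - h) + 0.2661 * mD h) * (1.2585 - 1.1755) ^ 2 := by
  have hu : 0 ≤ h - 1.23 := by linarith
  have hv : 0 ≤ 1.2589 - h := by linarith
  rw [mD]
  linarith [pow_nonneg hv 4, mul_nonneg hu (pow_nonneg hv 3),
    mul_nonneg (pow_nonneg hu 2) (pow_nonneg hv 2), mul_nonneg (pow_nonneg hu 3) hv,
    pow_nonneg hu 4]

theorem pd_ic2 {h : ℝ} (h1 : 1.23 ≤ h) (h2 : h ≤ 1.2589) :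
    0.0264 * (h * mD h * (mD h ^ 2 - h ^ 2)) ≤
      6 * (mD h - h) * (h * mD h * (mD h + h) / 2 - h ^ 3) -
      17 * (6 * (mD h - h) + 0.2661 * mD h) * (1.2585 - h) ^ 2 := by
  have hu : 0 ≤ h - 1.23 := by linarith
  have hv : 0 ≤ 1.2589 - h := by linarith
  rw [mD]
  linarith [pow_nonneg hv 4, mul_nonneg hu (pow_nonneg hv 3),
    mul_nonneg (pow_nonneg hu 2) (pow_nonneg hv 2), mul_nonneg (pow_nonneg hu 3) hv,
    pow_nonneg hu 4]

/-- `t² ≥ W0`, `t ≤ h`, for an upper bound `E` of `(6 (1 - h/m) - w) m`. -/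
theorem pd_hi {t h w E : ℝ} (ht1 : 1 ≤ t) (htR : t < R) (hW : W0 ≤ t ^ 2) (hth : t ≤ h)
    (hh : h ≤ 1.2589) (hE0 : 0 ≤ E) (hE : 6 * (mD h - h) - w * mD h ≤ E)
    (L1 : 0.0264 * (h * mD h * (mD h ^ 2 - h ^ 2)) ≤
      6 * (mD h - h) * (h * mD h * (mD h + h) / 2 - 1.1755 ^ 3) -
      17 * E * (1.2585 - 1.1755) ^ 2)
    (L2 : 0.0264 * (h * mD h * (mD h ^ 2 - h ^ 2)) ≤
      6 * (mD h - h) * (h * mD h * (mD h + h) / 2 - h ^ 3) -
      17 * E * (1.2585 - h) ^ 2) :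
    0 ≤ 6 * HH t h (rr h (mD h)) + bet t * w := by
  have hm := mD_gt hh
  have hh0 : 0 < h := by linarith
  have hm0 : 0 < mD h := by linarith
  have ht2 : 1.1755 ≤ t := by
    have h1 : (1.381965 : ℝ) < W0 := by
      rw [W0]
      linarith [s5_hi']
    by_contra hcon
    push Not at hcon
    nlinarith
  have hβ := (tBET t ht1 htR).1
  have hκ0 := (tKAP t ht1 htR).1
  have hκ := kap88 ht1 htR hW
  have hb := b17 ht1 htR hW
  have hRW := RW_pos
  have hR := R_hi'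
  have hb2 : bet t ≤ 17 * (1.2585 - t) ^ 2 := by
    have h1 : 0 ≤ kap t * (R * W0) := mul_nonneg hκ0 hRW.le
    have h2 : (R - t) ^ 2 ≤ (1.2585 - t) ^ 2 :=
      pow_le_pow_left₀ (by linarith) (by linarith) 2
    linarith
  have hc := pd_conc (by norm_num) ht2 hth (show 0 ≤ 6 * (mD h - h) by linarith)
    (show 0 ≤ 17 * E by linarith) L1 L2
  have e1 : mD h * (6 * HH t h (rr h (mD h)) + bet t * w) =
      6 * (mD h - h) * (h * mD h * (mD h + h) / 2 - t ^ 3) -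
      bet t * (6 * (mD h - h) - w * mD h) -
      3 * kap t * (h * mD h * (mD h ^ 2 - h ^ 2)) := by
    rw [H_HH (by linarith) hth (by linarith)]
    field_simp
    ring
  have h3 : bet t * (6 * (mD h - h) - w * mD h) ≤ 17 * (1.2585 - t) ^ 2 * E :=
    (mul_le_mul_of_nonneg_left hE hβ).trans (mul_le_mul_of_nonneg_right hb2 hE0)
  have h4 : 0 ≤ h * mD h * (mD h ^ 2 - h ^ 2) := by
    have : 0 ≤ mD h ^ 2 - h ^ 2 := by nlinarith
    positivity
  have h5 : 3 * kap t * (h * mD h * (mD h ^ 2 - h ^ 2)) ≤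
      0.0264 * (h * mD h * (mD h ^ 2 - h ^ 2)) :=
    mul_le_mul_of_nonneg_right (by linarith) h4
  have h6 : 0 ≤ mD h * (6 * HH t h (rr h (mD h)) + bet t * w) := by
    rw [e1]
    linarith
  exact nonneg_of_mul_nonneg_right h6 hm0

/-! ## `t² ≤ W0` -/

theorem pd_A3 {t : ℝ} (h1 : 1.15 ≤ t) (h2 : t ≤ 1.1756) :
    (0.75471 * (9 * t ^ 2 - 5 * t ^ 3 - 3) * 1.73908 - t ^ 3) * (3.6 * (t - 1.15)) ≤
      0.0155 := by
  have hu : 0 ≤ t - 1.15 := by linarith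
  have hv : 0 ≤ 1.1756 - t := by linarith
  linarith [pow_nonneg hv 4, mul_nonneg hu (pow_nonneg hv 3),
    mul_nonneg (pow_nonneg hu 2) (pow_nonneg hv 2), mul_nonneg (pow_nonneg hu 3) hv,
    pow_nonneg hu 4]

theorem pd_A4 {h : ℝ} (h1 : 1.19 ≤ h) (h2 : h ≤ 1.2589) :
    0.00265 * mD h ≤ (mD h - h) * (h * mD h * (mD h + h) / 2 - 1.73908) := by
  have hu : 0 ≤ h - 1.19 := by linarith
  have hv : 0 ≤ 1.2589 - h := by linarith
  rw [mD]
  linarith [pow_nonneg hv 4, mul_nonneg hu (pow_nonneg hv 3),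
    mul_nonneg (pow_nonneg hu 2) (pow_nonneg hv 2), mul_nonneg (pow_nonneg hu 3) hv,
    pow_nonneg hu 4]

theorem pd_A5 {h : ℝ} (h1 : 1.1756 ≤ h) (h2 : h ≤ 1.19) :
    0 ≤ h * mD h * (mD h + h) / 2 - 1.73908 := by
  have hu : 0 ≤ h - 1.1756 := by linarith
  have hv : 0 ≤ 1.19 - h := by linarith
  rw [mD]
  linarith [pow_nonneg hv 3, mul_nonneg hu (pow_nonneg hv 2),
    mul_nonneg (pow_nonneg hu 2) hv, pow_nonneg hu 3]

/-- `t² ≤ W0`, `t ≤ h`. -/
theorem pd_lo {t h w : ℝ} (ht : 1.15 ≤ t) (htW : t ^ 2 ≤ W0) (hth : t ≤ h) (hh : h ≤ 1.2589)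
    (hw1 : h ≤ 1.1756 → (5.14 - 3.6 * h) * (1 - (h - 1) / 0.19) ≤ w)
    (hw2 : h ≤ 1.19 → 0 ≤ w) (hw3 : - (3.6 * (t - 1.15)) ≤ w) :
    0 ≤ 6 * HH t h (rr h (mD h)) + bet t * w := by
  have ht1 : 1 ≤ t := by linarith
  have ht2 := t_hi ht1 htW
  have hm := mD_gt hh
  have hh0 : 0 < h := by linarith
  have hm0 : 0 < mD h := by linarith
  have htR : t < R := by linarith [R_lo']
  have hβ0 := (tBET t ht1 htR).1
  have hk := kap_low ht1 htW
  have hX := bet_low htW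
  obtain ⟨k1, k2⟩ := kap_bd ht1 htW
  obtain ⟨q1, q2⟩ := ds1_RW
  obtain ⟨b1, b2⟩ := bet_bd ht1 htW
  have hP1 := ds1_D t ht1 ht2
  have e1 : mD h * (6 * HH t h (rr h (mD h))) =
      6 * (1 - kap t) * ((mD h - h) * (h * mD h * (mD h + h) / 2 - R * W0)) := by
    have e2 : t ^ 3 + bet t = (1 - kap t) * (R * W0) := hX
    rw [H_HH (by linarith) hth (by linarith), e2]
    field_simp
  have hV : (mD h - h) * (h * mD h * (mD h + h) / 2 - 1.73908) ≤
      (mD h - h) * (h * mD h * (mD h + h) / 2 - R * W0) :=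
    mul_le_mul_of_nonneg_left (by linarith) (by linarith)
  rcases le_or_gt h 1.1756 with hc | hc
  · -- low
    have hw := hw1 hc
    set w0 := (5.14 - 3.6 * h) * (1 - (h - 1) / 0.19) with hw0
    have hw00 : 0 ≤ w0 := by
      rw [hw0]
      apply mul_nonneg (by linarith)
      rw [sub_nonneg, div_le_one (by norm_num)]
      linarith
    set F := (mD h - h) * (1.73908 / mD h - h * (mD h + h) / 2) with hF
    have hFm : mD h * F = (mD h - h) * (1.73908 - h * mD h * (mD h + h) / 2) := by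
      rw [hF]
      field_simp
    have hpoly := pd_A1 (by linarith : 1.15 ≤ h) hc
    have hstep0 : 6 * F * (9 * h ^ 2 - 5 * h ^ 3 - 3) ≤
        (1.739076 * (9 * h ^ 2 - 5 * h ^ 3 - 3) - 1.32505 * h ^ 3) * w0 := by
      have h5 : mD h * (6 * F * (9 * h ^ 2 - 5 * h ^ 3 - 3)) ≤ mD h *
          ((1.739076 * (9 * h ^ 2 - 5 * h ^ 3 - 3) - 1.32505 * h ^ 3) * w0) := by
        have e3 : mD h * (6 * F * (9 * h ^ 2 - 5 * h ^ 3 - 3)) =
            6 * (mD h * F) * (9 * h ^ 2 - 5 * h ^ 3 - 3) := by ring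
        rw [e3, hFm]
        exact hpoly
      exact le_of_mul_le_mul_left h5 hm0
    have hstep := ds1_step t h 1.32505 F w0 1.739076 ht1 hth hc (by norm_num) hw00 hstep0
    set P := 9 * t ^ 2 - 5 * t ^ 3 - 3 with hP
    have hb : (1 - kap t) * (1.739076 * P - 1.32505 * t ^ 3) ≤ bet t * P := by
      have c2 : P ≤ (1 - kap t) * 1.32505 := by
        have : 0.754693 * P * 1.32505 ≤ (1 - kap t) * 1.32505 :=
          mul_le_mul_of_nonneg_right k1 (by norm_num)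
        have h5 : P ≤ 0.754693 * P * 1.32505 := by
          nlinarith
        linarith
      have c3 : P * t ^ 3 ≤ (1 - kap t) * 1.32505 * t ^ 3 :=
        mul_le_mul_of_nonneg_right c2 (by positivity)
      have c4 : (1 - kap t) * 1.739076 * P ≤ (1 - kap t) * (R * W0) * P := by
        apply mul_le_mul_of_nonneg_right _ (by linarith)
        exact mul_le_mul_of_nonneg_left q1.le hk.le
      have c5 : bet t = (1 - kap t) * (R * W0) - t ^ 3 := by linarith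
      rw [c5]
      linarith
    have d2 : 6 * ((1 - kap t) * F) * P ≤ bet t * w0 * P := by
      have f1 := mul_le_mul_of_nonneg_left hstep hk.le
      have f2 := mul_le_mul_of_nonneg_right hb hw00
      linarith
    have d3 : 6 * ((1 - kap t) * F) ≤ bet t * w0 :=
      le_of_mul_le_mul_right d2 (by linarith)
    have d4 : bet t * w0 ≤ bet t * w := mul_le_mul_of_nonneg_left hw hβ0
    have d5 : 0 ≤ mD h * (6 * HH t h (rr h (mD h)) + bet t * w) := by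
      have g1 : mD h * (6 * ((1 - kap t) * F)) ≤ mD h * (bet t * w) :=
        mul_le_mul_of_nonneg_left (d3.trans d4) hm0.le
      have g2 : mD h * (6 * ((1 - kap t) * F)) =
          - (6 * (1 - kap t) * ((mD h - h) * (h * mD h * (mD h + h) / 2 - 1.73908))) := by
        have : mD h * (6 * ((1 - kap t) * F)) = 6 * (1 - kap t) * (mD h * F) := by ring
        rw [this, hFm]
        ring
      have g3 := mul_le_mul_of_nonneg_left hV (show 0 ≤ 6 * (1 - kap t) by linarith)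
      have g4 : mD h * (6 * HH t h (rr h (mD h)) + bet t * w) =
          mD h * (6 * HH t h (rr h (mD h))) + mD h * (bet t * w) := by ring
      rw [g4, e1]
      linarith
    exact nonneg_of_mul_nonneg_right d5 hm0
  · rcases le_or_gt h 1.19 with hd | hd
    · have h5 := pd_A5 hc.le hd
      have h6 : 0 ≤ (mD h - h) * (h * mD h * (mD h + h) / 2 - 1.73908) :=
        mul_nonneg (by linarith) h5
      have h7 : 0 ≤ mD h * (6 * HH t h (rr h (mD h))) := by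
        rw [e1]
        exact mul_nonneg (by linarith) (h6.trans hV)
      have h8 : 0 ≤ 6 * HH t h (rr h (mD h)) := nonneg_of_mul_nonneg_right h7 hm0
      have h9 := mul_nonneg hβ0 (hw2 hd)
      linarith
    · have h5 := pd_A4 hd.le hh
      have hk2 : 0.979 ≤ 1 - kap t := by
        have : 0.979 ≤ 0.754693 * (9 * t ^ 2 - 5 * t ^ 3 - 3) := by
          have hu : 0 ≤ t - 1.15 := by linarith
          have hv : 0 ≤ 1.1756 - t := by linarith
          linarith [pow_nonneg hv 3, mul_nonneg hu (pow_nonneg hv 2),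
            mul_nonneg (pow_nonneg hu 2) hv, pow_nonneg hu 3]
        linarith
      have h7 : mD h * 0.0155 ≤ mD h * (6 * HH t h (rr h (mD h))) := by
        rw [e1]
        have f1 : 0.00265 * mD h ≤
            (mD h - h) * (h * mD h * (mD h + h) / 2 - R * W0) := h5.trans hV
        have f2 : 6 * (1 - kap t) * (0.00265 * mD h) ≤
            6 * (1 - kap t) * ((mD h - h) * (h * mD h * (mD h + h) / 2 - R * W0)) :=
          mul_le_mul_of_nonneg_left f1 (by linarith)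
        have f3 : 0.979 * mD h ≤ (1 - kap t) * mD h := mul_le_mul_of_nonneg_right hk2 hm0.le
        linarith
      have h8 : 0.0155 ≤ 6 * HH t h (rr h (mD h)) := le_of_mul_le_mul_left h7 hm0
      have h9 : bet t * (3.6 * (t - 1.15)) ≤ 0.0155 := by
        refine le_trans (mul_le_mul_of_nonneg_right b2 (by linarith)) ?_
        exact pd_A3 ht ht2
      have h10 := mul_le_mul_of_nonneg_left hw3 hβ0
      linarith

end Pool.Agent.SDL
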