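import Pool.Agent.SDL.P3_PDa

set_option autoImplicit false

/-!
# SDL: the large heights of the target P, heights below `t`
-/

open MeasureTheory Set Real
open scoped RealInnerProductSpace

namespace Pool.Agent.SDL

open Pool.Agent.SDC

/-! ## The bound of `β` -/

theorem b13_poly {q : ℝ} (h0 : 0.227 ≤ q) (h1 : q ≤ 1) :
    (0.126867 * (1 + 2 * q) - 0.012113 * (1 + q) ^ 2) * (5.93114 + 0.403254 * q ^ 2) ≤
      (13 + 3.5248 * (1 - q ^ 2)) * 0.201625 ^ 2 * (1 + q) ^ 2 := by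
  have hu : 0 ≤ q - 0.227 := by linarith
  have hv : 0 ≤ 1 - q := by linarith
  linarith [pow_nonneg hv 4, mul_nonneg hu (pow_nonneg hv 3),
    mul_nonneg (pow_nonneg hu 2) (pow_nonneg hv 2), mul_nonneg (pow_nonneg hu 3) hv,
    pow_nonneg hu 4]

theorem b13 {t : ℝ} (ht : 1.18 ≤ t) (htR : t < R) :
    bet t + kap t * (R * W0) ≤ (1.258409 - t) ^ 2 * (13 + 44 * (1.258409 - t)) := by
  have hW2 : W0 < (1.3819661 : ℝ) := by
    rw [W0]
    linarith [s5_lo']
  have hW : W0 ≤ t ^ 2 := by nlinarith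
  obtain ⟨a1, a2⟩ := A_bd
  have hA : 0 < R ^ 2 - W0 := by linarith
  obtain ⟨q, hq0, hq⟩ : ∃ q : ℝ, 0 ≤ q ∧ q ^ 2 * (R ^ 2 - W0) = t ^ 2 - W0 :=
    ⟨√((t ^ 2 - W0) / (R ^ 2 - W0)), Real.sqrt_nonneg _, by
      rw [Real.sq_sqrt (div_nonneg (by linarith) hA.le), div_mul_cancel₀ _ hA.ne']⟩
  obtain ⟨hb, -, -⟩ := p_BQ t q hW (by linarith) htR hq0 hq
  have hR1 := R_lo'
  have hR2 := R_hi'
  have hR3 := R_sq_hi
  have hq1 : q ≤ 1 := by
    by_contra hcon
    push Not at hcon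
    have : 1 * (R ^ 2 - W0) < q ^ 2 * (R ^ 2 - W0) := by
      apply mul_lt_mul_of_pos_right _ hA
      nlinarith
    nlinarith
  have hq2 : 0.227 ≤ q := by
    by_contra hcon
    push Not at hcon
    have h1 : q ^ 2 ≤ 0.227 ^ 2 := pow_le_pow_left₀ hq0 hcon.le 2
    have h2 : q ^ 2 * (R ^ 2 - W0) ≤ 0.227 ^ 2 * 0.201627 :=
      mul_le_mul h1 a2.le hA.le (by norm_num)
    nlinarith
  set A := R ^ 2 - W0 with hAd
  have e1 : R * A / 2 ≤ 0.126867 := by nlinarith
  have e2 : 0.012113 ≤ 3 * A ^ 2 / (8 * R) := by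
    rw [le_div_iff₀ (by linarith)]
    nlinarith
  have hD : (R - t) * (R + t) = A * (1 - q ^ 2) := by
    rw [hAd] at hq ⊢
    linear_combination hq
  have hq3 : 0 ≤ 1 - q ^ 2 := by nlinarith
  -- the bracket
  set B := 0.126867 * (1 + 2 * q) - 0.012113 * (1 + q) ^ 2 with hB
  have h1 : bet t + kap t * (R * W0) ≤ (1 - q) ^ 2 * B := by
    have c1 : R * A / 2 * ((1 - q) ^ 2 * (1 + 2 * q)) ≤
        0.126867 * ((1 - q) ^ 2 * (1 + 2 * q)) :=
      mul_le_mul_of_nonneg_right e1 (by positivity)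
    have c2 : 0.012113 * (1 - q ^ 2) ^ 2 ≤ 3 * A ^ 2 / (8 * R) * (1 - q ^ 2) ^ 2 :=
      mul_le_mul_of_nonneg_right e2 (by positivity)
    rw [hB]
    nlinarith
  have h2 : (R + t) ^ 2 ≤ 5.93114 + 0.403254 * q ^ 2 := by
    have c1 : t ^ 2 = R ^ 2 - A * (1 - q ^ 2) := by linarith
    have c2 : A * q ^ 2 ≤ 0.201627 * q ^ 2 := mul_le_mul_of_nonneg_right a2.le (by positivity)
    nlinarith [sq_nonneg (R - t)]
  have hB0 : 0 ≤ B := by
    rw [hB]
    nlinarith
  -- the difference of the radii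
  have hS : 13 + 3.5248 * (1 - q ^ 2) ≤ 13 + 44 * (R - t) := by
    have c1 : 0.201625 * (1 - q ^ 2) ≤ A * (1 - q ^ 2) :=
      mul_le_mul_of_nonneg_right a1.le hq3
    have c2 : (R - t) * (R + t) ≤ (R - t) * 2.516818 :=
      mul_le_mul_of_nonneg_left (by linarith) (by linarith)
    nlinarith
  have hS0 : 0 ≤ 13 + 3.5248 * (1 - q ^ 2) := by linarith
  have h3 : B * (R + t) ^ 2 ≤ (13 + 44 * (R - t)) * A ^ 2 * (1 + q) ^ 2 := by
    have c1 : B * (R + t) ^ 2 ≤ B * (5.93114 + 0.403254 * q ^ 2) :=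
      mul_le_mul_of_nonneg_left h2 hB0
    have c2 := b13_poly hq2 hq1
    rw [← hB] at c2
    have c3 : (0.201625 : ℝ) ^ 2 ≤ A ^ 2 := pow_le_pow_left₀ (by norm_num) a1.le 2
    have c4 : (13 + 3.5248 * (1 - q ^ 2)) * 0.201625 ^ 2 * (1 + q) ^ 2 ≤
        (13 + 3.5248 * (1 - q ^ 2)) * A ^ 2 * (1 + q) ^ 2 :=
      mul_le_mul_of_nonneg_right (mul_le_mul_of_nonneg_left c3 hS0) (by positivity)
    have c5 : (13 + 3.5248 * (1 - q ^ 2)) * A ^ 2 * (1 + q) ^ 2 ≤
        (13 + 44 * (R - t)) * A ^ 2 * (1 + q) ^ 2 :=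
      mul_le_mul_of_nonneg_right (mul_le_mul_of_nonneg_right hS (by positivity)) (by positivity)
    linarith
  have h4 : (1 - q) ^ 2 * B * (R + t) ^ 2 ≤
      (R - t) ^ 2 * (13 + 44 * (R - t)) * (R + t) ^ 2 := by
    have c1 : (1 - q) ^ 2 * (B * (R + t) ^ 2) ≤
        (1 - q) ^ 2 * ((13 + 44 * (R - t)) * A ^ 2 * (1 + q) ^ 2) :=
      mul_le_mul_of_nonneg_left h3 (by positivity)
    have c2 : (1 - q) ^ 2 * ((13 + 44 * (R - t)) * A ^ 2 * (1 + q) ^ 2) =
        (13 + 44 * (R - t)) * ((R - t) * (R + t)) ^ 2 := by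
      rw [hD]
      ring
    nlinarith
  have h5 : (1 - q) ^ 2 * B ≤ (R - t) ^ 2 * (13 + 44 * (R - t)) :=
    le_of_mul_le_mul_right h4 (by positivity)
  have h6 : (R - t) ^ 2 * (13 + 44 * (R - t)) ≤
      (1.258409 - t) ^ 2 * (13 + 44 * (1.258409 - t)) := by
    apply mul_le_mul (pow_le_pow_left₀ (by linarith) (by linarith) 2) (by linarith)
      (by linarith) (by positivity)
  linarith

/-! ## The integral over the disc, heights below `t` -/

theorem pd_HH {t h m : ℝ} (ht0 : 0 < t) (hh : 0 < h) (hht : h ≤ t) (htm : t < m) :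
    m * (6 * HH t h (rr h m)) = 3 * h * (m - t) ^ 2 * (m + 2 * t) - 6 * (m - h) * bet t -
      3 * kap t * (h * m * (m ^ 2 - h ^ 2)) := by
  have hm0 : 0 < m := by linarith
  have e1 : Bf t h = 0 := by
    rw [Bf, if_pos hht]
  have e2 : Bf t m = (m - t) ^ 2 * (m + 2 * t) / (2 * m) := by
    rw [Bf, if_neg (by linarith)]
  rw [tHB t h (rr h m) ht0 hh (Real.sqrt_nonneg _), H_ccrr hh (by linarith), bb, e1, e2]
  field_simp
  ring

/-- `1.18 ≤ t`, `h ≤ t`, for an upper bound `E` of `(6 (1 - h/m) - w) m`. -/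
theorem pd_mid {t h w E K : ℝ} (ht : 1.18 ≤ t) (htR : t < R) (hht : h ≤ t) (hh1 : 1 ≤ h)
    (htm : t < mD h) (hE0 : 0 ≤ E) (hE : 6 * (mD h - h) - w * mD h ≤ E) (hK0 : 0 ≤ K)
    (hK : 3 * (h * mD h * (mD h ^ 2 - h ^ 2)) ≤ 1.739076 * E + K)
    (L : (1.258409 - t) ^ 2 * (13 + 44 * (1.258409 - t)) * E + 0.0088 * K ≤
      3 * h * (mD h - t) ^ 2 * (mD h + 2 * t)) :
    0 ≤ 6 * HH t h (rr h (mD h)) + bet t * w := by
  have hm0 : 0 < mD h := by linarith
  have hW2 : W0 < (1.3819661 : ℝ) := by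
    rw [W0]
    linarith [s5_lo']
  have hW : W0 ≤ t ^ 2 := by nlinarith
  have hβ := (tBET t (by linarith) htR).1
  have hκ0 := (tKAP t (by linarith) htR).1
  have hκ := kap88 (by linarith) htR hW
  have hb := b13 ht htR
  have hRW := ds1_RW.1
  have e1 := pd_HH (show 0 < t by linarith) (show 0 < h by linarith) hht htm
  have h3 : bet t * (6 * (mD h - h) - w * mD h) ≤ bet t * E := mul_le_mul_of_nonneg_left hE hβ
  have h4 : (bet t + kap t * (R * W0)) * E ≤
      (1.258409 - t) ^ 2 * (13 + 44 * (1.258409 - t)) * E := mul_le_mul_of_nonneg_right hb hE0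
  have h5 : kap t * (3 * (h * mD h * (mD h ^ 2 - h ^ 2))) ≤ kap t * (1.739076 * E + K) :=
    mul_le_mul_of_nonneg_left hK hκ0
  have h6 : kap t * E * 1.739076 ≤ kap t * E * (R * W0) :=
    mul_le_mul_of_nonneg_left hRW.le (mul_nonneg hκ0 hE0)
  have h7 : kap t * K ≤ 0.0088 * K := mul_le_mul_of_nonneg_right hκ hK0
  have h8 : 0 ≤ mD h * (6 * HH t h (rr h (mD h)) + bet t * w) := by
    have e2 : mD h * (6 * HH t h (rr h (mD h)) + bet t * w) =
        mD h * (6 * HH t h (rr h (mD h))) + bet t * w * mD h := by ring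
    rw [e2, e1]
    linarith
  exact nonneg_of_mul_nonneg_right h8 hm0

theorem pd_ii1 {t h : ℝ} (h1 : 1.18 ≤ t) (h2 : t ≤ 1.2) (h3 : 1.18 ≤ h) :
    (1.258409 - t) ^ 2 * (13 + 44 * (1.258409 - t)) *
      (6 * (mD h - h) - 0.8236 * ((1 - 100 / 19 * (h - 1)) * mD h) + 0.005) + 0.0088 * 0.11 ≤
      3 * h * (mD h - t) ^ 2 * (mD h + 2 * t) := by
  obtain ⟨x, rfl⟩ : ∃ x, t = 1.18 + x := ⟨t - 1.18, by ring⟩
  obtain ⟨y, rfl⟩ : ∃ y, h = 1.18 + y := ⟨h - 1.18, by ring⟩
  have hx : 0 ≤ x := by linarith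
  have hx' : 0 ≤ 1 / 50 - x := by norm_num at h2 ⊢; linarith
  have hy : 0 ≤ y := by linarith
  have c0 : (0 : ℝ) ≤ (36043534521972280736707 / 3040000000000000000000000) +
      (-1832458753839794919 / 3040000000000000000) * x +
      (14847492743391 / 3040000000000) * x ^ 2 + (61786467 / 3040000) * x ^ 3 := by
    linarith [mul_nonneg (pow_nonneg hx 0) (pow_nonneg hx' 3),
      mul_nonneg (pow_nonneg hx 1) (pow_nonneg hx' 2),
      mul_nonneg (pow_nonneg hx 2) (pow_nonneg hx' 1),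
      mul_nonneg (pow_nonneg hx 3) (pow_nonneg hx' 0)]
  have c1 : (0 : ℝ) ≤ (37979622353044306199649 / 60800000000000000000000) +
      (-472903397465249083 / 60800000000000000) * x +
      (-3821762702413 / 60800000000) * x ^ 2 + (8010119 / 60800) * x ^ 3 := by
    linarith [mul_nonneg (pow_nonneg hx 0) (pow_nonneg hx' 3),
      mul_nonneg (pow_nonneg hx 1) (pow_nonneg hx' 2),
      mul_nonneg (pow_nonneg hx 2) (pow_nonneg hx' 1),
      mul_nonneg (pow_nonneg hx 3) (pow_nonneg hx' 0)]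
  have c2 : (0 : ℝ) ≤ (3040762229282321283987 / 608000000000000000000) +
      (-3165380831609679 / 608000000000000) * x + (-39264468969 / 608000000) * x ^ 2 +
      (67947 / 608) * x ^ 3 := by
    linarith [mul_nonneg (pow_nonneg hx 0) (pow_nonneg hx' 3),
      mul_nonneg (pow_nonneg hx 1) (pow_nonneg hx' 2),
      mul_nonneg (pow_nonneg hx 2) (pow_nonneg hx' 1),
      mul_nonneg (pow_nonneg hx 3) (pow_nonneg hx' 0)]
  have c3 : (0 : ℝ) ≤ (2379375 / 524288) := by
    norm_num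
  have c4 : (0 : ℝ) ≤ (1265625 / 2097152) := by
    norm_num
  rw [mD]
  linarith [c0,
    mul_nonneg c1 (pow_nonneg hy 1),
    mul_nonneg c2 (pow_nonneg hy 2),
    mul_nonneg c3 (pow_nonneg hy 3),
    mul_nonneg c4 (pow_nonneg hy 4)]

theorem pd_ii2a {t h : ℝ} (h1 : 1.2 ≤ t) (h2 : t ≤ 1.21) (h3 : 1.2 ≤ h) :
    (1.258409 - t) ^ 2 * (13 + 44 * (1.258409 - t)) *
      (6 * (mD h - h) - 0.8236 * ((1 - 100 / 19 * (h - 1)) * mD h)) ≤
      3 * h * (mD h - t) ^ 2 * (mD h + 2 * t) := by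
  obtain ⟨x, rfl⟩ : ∃ x, t = 1.2 + x := ⟨t - 1.2, by ring⟩
  obtain ⟨y, rfl⟩ : ∃ y, h = 1.2 + y := ⟨h - 1.2, by ring⟩
  have hx : 0 ≤ x := by linarith
  have hx' : 0 ≤ 1 / 100 - x := by norm_num at h2 ⊢; linarith
  have hy : 0 ≤ y := by linarith
  have c0 : (0 : ℝ) ≤ (133343605187790473479 / 9500000000000000000000) +
      (-5686919332877693 / 9500000000000000) * x + (48306067877 / 9500000000) * x ^ 2 +
      (216449 / 9500) * x ^ 3 := by
    linarith [mul_nonneg (pow_nonneg hx 0) (pow_nonneg hx' 3),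
      mul_nonneg (pow_nonneg hx 1) (pow_nonneg hx' 2),
      mul_nonneg (pow_nonneg hx 2) (pow_nonneg hx' 1),
      mul_nonneg (pow_nonneg hx 3) (pow_nonneg hx' 0)]
  have c1 : (0 : ℝ) ≤ (39238388239619938480597 / 60800000000000000000000) +
      (-634779455523247799 / 60800000000000000) * x +
      (-3481906158289 / 60800000000) * x ^ 2 + (8281907 / 60800) * x ^ 3 := by
    linarith [mul_nonneg (pow_nonneg hx 0) (pow_nonneg hx' 3),
      mul_nonneg (pow_nonneg hx 1) (pow_nonneg hx' 2),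
      mul_nonneg (pow_nonneg hx 2) (pow_nonneg hx' 1),
      mul_nonneg (pow_nonneg hx 3) (pow_nonneg hx' 0)]
  have c2 : (0 : ℝ) ≤ (3128730122314969110237 / 608000000000000000000) +
      (-4654423190369679 / 608000000000000) * x + (-35187648969 / 608000000) * x ^ 2 +
      (67947 / 608) * x ^ 3 := by
    linarith [mul_nonneg (pow_nonneg hx 0) (pow_nonneg hx' 3),
      mul_nonneg (pow_nonneg hx 1) (pow_nonneg hx' 2),
      mul_nonneg (pow_nonneg hx 2) (pow_nonneg hx' 1),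
      mul_nonneg (pow_nonneg hx 3) (pow_nonneg hx' 0)]
  have c3 : (0 : ℝ) ≤ (4809375 / 1048576) := by
    norm_num
  have c4 : (0 : ℝ) ≤ (1265625 / 2097152) := by
    norm_num
  rw [mD]
  linarith [c0,
    mul_nonneg c1 (pow_nonneg hy 1),
    mul_nonneg c2 (pow_nonneg hy 2),
    mul_nonneg c3 (pow_nonneg hy 3),
    mul_nonneg c4 (pow_nonneg hy 4)]

theorem pd_ii2b {t h : ℝ} (h1 : 1.21 ≤ t) (h2 : t ≤ 1.235) (h3 : 1.2 ≤ h) :
    (1.258409 - t) ^ 2 * (13 + 44 * (1.258409 - t)) *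
      (6 * (mD h - h) - 0.7339 * ((1 - 100 / 19 * (h - 1)) * mD h)) ≤
      3 * h * (mD h - t) ^ 2 * (mD h + 2 * t) := by
  obtain ⟨x, rfl⟩ : ∃ x, t = 1.21 + x := ⟨t - 1.21, by ring⟩
  obtain ⟨y, rfl⟩ : ∃ y, h = 1.2 + y := ⟨h - 1.2, by ring⟩
  have hx : 0 ≤ x := by linarith
  have hx' : 0 ≤ 1 / 40 - x := by norm_num at h2 ⊢; linarith
  have hy : 0 ≤ y := by linarith
  have c0 : (0 : ℝ) ≤ (334036902336679417359 / 38000000000000000000000) +
      (-18975069685199653 / 38000000000000000) * x +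
      (223546356317 / 38000000000) * x ^ 2 + (855929 / 38000) * x ^ 3 := by
    linarith [mul_nonneg (pow_nonneg hx 0) (pow_nonneg hx' 3),
      mul_nonneg (pow_nonneg hx 1) (pow_nonneg hx' 2),
      mul_nonneg (pow_nonneg hx 2) (pow_nonneg hx' 1),
      mul_nonneg (pow_nonneg hx 3) (pow_nonneg hx' 0)]
  have c1 : (0 : ℝ) ≤ (135315253317371873496237 / 243200000000000000000000) +
      (-3033821489770941679 / 243200000000000000) * x +
      (-10137900100969 / 243200000000) * x ^ 2 + (26783147 / 243200) * x ^ 3 := by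
    linarith [mul_nonneg (pow_nonneg hx 0) (pow_nonneg hx' 3),
      mul_nonneg (pow_nonneg hx 1) (pow_nonneg hx' 2),
      mul_nonneg (pow_nonneg hx 2) (pow_nonneg hx' 1),
      mul_nonneg (pow_nonneg hx 3) (pow_nonneg hx' 0)]
  have c2 : (0 : ℝ) ≤ (12338793385306965011277 / 2432000000000000000000) +
      (-22406018030545359 / 2432000000000000) * x +
      (-119552341449 / 2432000000) * x ^ 2 + (242187 / 2432) * x ^ 3 := by
    linarith [mul_nonneg (pow_nonneg hx 0) (pow_nonneg hx' 3),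
      mul_nonneg (pow_nonneg hx 1) (pow_nonneg hx' 2),
      mul_nonneg (pow_nonneg hx 2) (pow_nonneg hx' 1),
      mul_nonneg (pow_nonneg hx 3) (pow_nonneg hx' 0)]
  have c3 : (0 : ℝ) ≤ (4809375 / 1048576) := by
    norm_num
  have c4 : (0 : ℝ) ≤ (1265625 / 2097152) := by
    norm_num
  rw [mD]
  linarith [c0,
    mul_nonneg c1 (pow_nonneg hy 1),
    mul_nonneg c2 (pow_nonneg hy 2),
    mul_nonneg c3 (pow_nonneg hy 3),
    mul_nonneg c4 (pow_nonneg hy 4)]

/-! ## The regions together -/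

theorem pd_kk1 {h : ℝ} (h1 : 1.18 ≤ h) (h2 : h ≤ 1.2) :
    3 * (h * mD h * (mD h ^ 2 - h ^ 2)) ≤ 1.739076 *
      (6 * (mD h - h) - 0.8236 * ((1 - 100 / 19 * (h - 1)) * mD h) + 0.005) + 0.11 := by
  have hu : 0 ≤ h - 1.18 := by linarith
  have hv : 0 ≤ 1.2 - h := by linarith
  rw [mD]
  linarith [pow_nonneg hv 4, mul_nonneg hu (pow_nonneg hv 3),
    mul_nonneg (pow_nonneg hu 2) (pow_nonneg hv 2), mul_nonneg (pow_nonneg hu 3) hv,
    pow_nonneg hu 4]

theorem pd_kk2 {h : ℝ} (h1 : 1.2 ≤ h) (h2 : h ≤ 1.235) :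
    3 * (h * mD h * (mD h ^ 2 - h ^ 2)) ≤ 1.739076 *
      (6 * (mD h - h) - 0.7339 * ((1 - 100 / 19 * (h - 1)) * mD h)) + 0 := by
  have hu : 0 ≤ h - 1.2 := by linarith
  have hv : 0 ≤ 1.235 - h := by linarith
  rw [mD]
  linarith [pow_nonneg hv 4, mul_nonneg hu (pow_nonneg hv 3),
    mul_nonneg (pow_nonneg hu 2) (pow_nonneg hv 2), mul_nonneg (pow_nonneg hu 3) hv,
    pow_nonneg hu 4]

theorem pd_kk3 {h : ℝ} (h1 : 1.216 ≤ h) (h2 : h ≤ 1.2589) :
    3 * (h * mD h * (mD h ^ 2 - h ^ 2)) ≤ 1.739076 *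
      (6 * (mD h - h) + 0.2661 * mD h) + 0 := by
  have hu : 0 ≤ h - 1.216 := by linarith
  have hv : 0 ≤ 1.2589 - h := by linarith
  rw [mD]
  linarith [pow_nonneg hv 4, mul_nonneg hu (pow_nonneg hv 3),
    mul_nonneg (pow_nonneg hu 2) (pow_nonneg hv 2), mul_nonneg (pow_nonneg hu 3) hv,
    pow_nonneg hu 4]

/-- The heights `t ≤ h`. -/
theorem pd_core1 {t h s : ℝ} (ht : 1.15 ≤ t) (htR : t < R) (hth : t ≤ h) (hh : h ≤ 1.2589)
    (hs : (t ≤ 1.151 ∧ s = 1) ∨ (1.151 ≤ t ∧ t < 1.21 ∧ s = 5.1436 - 3.6 * t) ∨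
      (1.21 ≤ t ∧ s = 0.7339)) (hL : s * (h - 1) ≤ 0.19) :
    0 ≤ 6 * HH t h (rr h (mD h)) + bet t * (s * (1 - 100 / 19 * (h - 1))) := by
  have hs1 : s ≤ 1 := by rcases hs with h | h | h <;> linarith [h.1, h.2]
  have hs0 : 0.7339 ≤ s := by rcases hs with h | h | h <;> linarith [h.1, h.2]
  have hsl : s * (1 - 100 / 19 * (h - 1)) = s - 100 / 19 * (s * (h - 1)) := by ring
  have hm := mD_gt hh
  have hh0 : 0 < h := by linarith
  have hm0 : 0 < mD h := by linarith
  have hmd : mD h = 5 / 4 + 75 / 128 * (h - 6 / 5) := rfl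
  rcases le_or_gt (t ^ 2) W0 with hW | hW
  · have ht2 := t_hi (by linarith) hW
    have hsg : 1 - 3.6 * (t - 1.15) ≤ s := by
      rcases hs with h | h | h <;> linarith [h.1, h.2]
    apply pd_lo ht hW hth hh
    · intro h1
      rw [show (h - 1) / 0.19 = 100 / 19 * (h - 1) by ring]
      apply mul_le_mul_of_nonneg_right _ (by linarith)
      linarith
    · intro h1
      exact mul_nonneg (by linarith) (by linarith)
    · rw [hsl]
      linarith
  · have ht1 : 1 ≤ t := by linarith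
    have ht2 : 1.17556 < t := by
      have h1 : (1.381965 : ℝ) < W0 := by
        rw [W0]
        linarith [s5_hi']
      by_contra hcon
      push Not at hcon
      nlinarith
    have hsg : s ≤ 0.9116 := by
      rcases hs with h | h | h <;> linarith [h.1, h.2]
    rcases le_or_gt h 1.19 with hc | hc
    · have hsg2 : 0.8596 ≤ s := by
        rcases hs with h | h | h <;> linarith [h.1, h.2]
      have h19 : 0 ≤ 1 - 100 / 19 * (h - 1) := by linarith
      have hp : 0 ≤ (1 - 100 / 19 * (h - 1)) * mD h := mul_nonneg h19 hm0.le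
      have hp1 : (1 - 100 / 19 * (h - 1)) * mD h ≤ 0.0765 * 1.3 :=
        mul_le_mul (by linarith) (by linarith) hm0.le (by norm_num)
      have L1 := pd_ia1 (by linarith) hc
      have L2 := pd_ia2 (by linarith) hc
      rw [show (h - 1) / 0.19 = 100 / 19 * (h - 1) by ring] at L1 L2
      refine pd_hi ht1 htR hW.le hth hh ?_ ?_ L1 L2
      · linarith
      · have := mul_le_mul_of_nonneg_right hsg2 hp
        linarith
    · rcases le_or_gt h 1.23 with hd | hd
      · have h19 : 0 ≤ 100 / 19 * (h - 1) - 1 := by linarith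
        have hp : 0 ≤ (100 / 19 * (h - 1) - 1) * mD h := mul_nonneg h19 hm0.le
        have L1 := pd_ib1 hc.le hd
        have L2 := pd_ib2 hc.le hd
        rw [show (h - 1) / 0.19 = 100 / 19 * (h - 1) by ring] at L1 L2
        refine pd_hi ht1 htR hW.le hth hh ?_ ?_ L1 L2
        · linarith
        · have := mul_le_mul_of_nonneg_right hsg hp
          linarith
      · have L1 := pd_ic1 hd.le hh
        have L2 := pd_ic2 hd.le hh
        refine pd_hi ht1 htR hW.le hth hh ?_ ?_ L1 L2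
        · linarith
        · have h5 : - 0.2661 ≤ s * (1 - 100 / 19 * (h - 1)) := by
            rw [hsl]
            linarith
          have := mul_le_mul_of_nonneg_right h5 hm0.le
          linarith

/-- The heights `h ≤ t`. -/
theorem pd_core2 {t h s : ℝ} (ht : 1.18 ≤ t) (htR : t < R) (hht : h ≤ t)
    (hs : (t < 1.21 ∧ s = 5.1436 - 3.6 * t) ∨ (1.21 ≤ t ∧ s = 0.7339))
    (hL : s * (h - 1) ≤ 0.19)
    (hr : (t ≤ 1.2 ∧ 1.18 ≤ h) ∨ (1.2 ≤ t ∧ t ≤ 1.235 ∧ 1.2 ≤ h) ∨ 1.216 ≤ h) :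
    0 ≤ 6 * HH t h (rr h (mD h)) + bet t * (s * (1 - 100 / 19 * (h - 1))) := by
  have hsl : s * (1 - 100 / 19 * (h - 1)) = s - 100 / 19 * (s * (h - 1)) := by ring
  have hR := R_hi'
  have hh : h ≤ 1.2589 := by linarith
  have hm := mD_gt hh
  have hh18 : 1.18 ≤ h := by
    rcases hr with h1 | h1 | h1
    · exact h1.2
    · linarith [h1.2.2]
    · linarith
  have hh0 : 0 < h := by linarith
  have hm0 : 0 < mD h := by linarith
  have hmd : mD h = 5 / 4 + 75 / 128 * (h - 6 / 5) := rfl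
  by_cases hc : 1.216 ≤ h
  · -- high
    have hs2 : s = 0.7339 := by
      rcases hs with h1 | h1
      · linarith [h1.1]
      · exact h1.2
    have hmR : 1.259375 ≤ mD h := by
      rw [hmd]
      linarith
    have hw : - 0.2661 ≤ s * (1 - 100 / 19 * (h - 1)) := by
      rw [hsl]
      linarith
    refine pd_mid (E := 6 * (mD h - h) + 0.2661 * mD h) (K := 0) ht htR hht (by linarith)
      (by linarith) (by linarith) ?_ le_rfl (pd_kk3 hc hh) ?_
    · have := mul_le_mul_of_nonneg_right hw hm0.le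
      linarith
    · have hE : 6 * (mD h - h) + 0.2661 * mD h ≤ 0.596 := by
        rw [hmd]
        linarith
      have hE0 : 0 ≤ 6 * (mD h - h) + 0.2661 * mD h := by linarith
      have d0 : 0 ≤ 1.258409 - t := by linarith
      have d1 : (1.258409 - t) ^ 2 ≤ (mD h - t) ^ 2 := pow_le_pow_left₀ d0 (by linarith) 2
      have d2 : (13 + 44 * (1.258409 - t)) * (6 * (mD h - h) + 0.2661 * mD h) ≤
          15 * 0.596 := mul_le_mul (by linarith) hE hE0 (by norm_num)
      have d3 : 15 * 0.596 ≤ 3 * h * (mD h + 2 * t) := by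
        have : 3 * 1.216 * (1.259375 + 2 * 1.216) ≤ 3 * h * (mD h + 2 * t) :=
          mul_le_mul (by linarith) (by linarith) (by norm_num) (by linarith)
        linarith
      have d4 : (1.258409 - t) ^ 2 * ((13 + 44 * (1.258409 - t)) *
          (6 * (mD h - h) + 0.2661 * mD h)) ≤
          (mD h - t) ^ 2 * (3 * h * (mD h + 2 * t)) :=
        mul_le_mul d1 (d2.trans d3) (mul_nonneg (by linarith) hE0) (by positivity)
      linarith
  · push Not at hc
    rcases hr with h1 | h1 | h1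
    · -- `t ≤ 1.2`
      obtain ⟨h2, h3⟩ := h1
      have hs2 : s = 5.1436 - 3.6 * t := by
        rcases hs with h4 | h4
        · exact h4.2
        · linarith [h4.1]
      have hmR : 1.238 ≤ mD h := by
        rw [hmd]
        linarith
      have hp1 : (1 - 100 / 19 * (h - 1)) * mD h ≤ 0.0527 * 1.25 :=
        mul_le_mul (by linarith) (by rw [hmd]; linarith) hm0.le (by norm_num)
      refine pd_mid (E := 6 * (mD h - h) - 0.8236 * ((1 - 100 / 19 * (h - 1)) * mD h) + 0.005)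
        (K := 0.11) ht htR hht (by linarith) (by linarith) (by linarith) ?_ (by norm_num)
        (pd_kk1 h3 (by linarith)) (pd_ii1 ht h2 h3)
      -- the weight
      have e1 : 0 ≤ s - 0.8236 := by linarith
      have e2 : s - 0.8236 ≤ 0.072 := by linarith
      have e3 : (100 / 19 * (h - 1) - 1) ≤ 0.0527 := by linarith
      have e4 : (s - 0.8236) * ((100 / 19 * (h - 1) - 1) * mD h) ≤ 0.005 := by
        rcases le_or_gt 0 (100 / 19 * (h - 1) - 1) with e5 | e5
        · have e6 : (100 / 19 * (h - 1) - 1) * mD h ≤ 0.0527 * 1.25 :=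
            mul_le_mul e3 (by rw [hmd]; linarith) hm0.le (by norm_num)
          have e7 : (s - 0.8236) * ((100 / 19 * (h - 1) - 1) * mD h) ≤
              0.072 * (0.0527 * 1.25) :=
            mul_le_mul e2 e6 (mul_nonneg e5 hm0.le) (by norm_num)
          linarith
        · have e6 : (100 / 19 * (h - 1) - 1) * mD h ≤ 0 :=
            mul_nonpos_of_nonpos_of_nonneg e5.le hm0.le
          have e7 := mul_nonpos_of_nonneg_of_nonpos e1 e6
          linarith
      linarith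
    · obtain ⟨h2, h3, h4⟩ := h1
      have hmR : 1.25 ≤ mD h := by
        rw [hmd]
        linarith
      have h19 : 0 ≤ 100 / 19 * (h - 1) - 1 := by linarith
      have hp : 0 ≤ (100 / 19 * (h - 1) - 1) * mD h := mul_nonneg h19 hm0.le
      have hk2 := pd_kk2 h4 (hht.trans h3)
      rcases le_or_gt 1.21 t with h5 | h5
      · have hs2 : s = 0.7339 := by
          rcases hs with h6 | h6
          · linarith [h6.1]
          · exact h6.2
        refine pd_mid (E := 6 * (mD h - h) - 0.7339 * ((1 - 100 / 19 * (h - 1)) * mD h))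
          (K := 0) ht htR hht (by linarith) (by linarith) (by linarith) ?_ le_rfl hk2 ?_
        · rw [hs2]
          linarith
        · have := pd_ii2b h5 h3 h4
          linarith
      · have hs2 : s ≤ 0.8236 := by
          rcases hs with h6 | h6
          · linarith [h6.2]
          · linarith [h6.1]
        refine pd_mid (E := 6 * (mD h - h) - 0.8236 * ((1 - 100 / 19 * (h - 1)) * mD h))
          (K := 0) ht htR hht (by linarith) (by linarith) (by linarith) ?_ le_rfl ?_ ?_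
        · have := mul_le_mul_of_nonneg_right hs2 hp
          linarith
        · linarith
        · have := pd_ii2a h2 h5.le h4
          linarith
    · linarith

end Pool.Agent.SDL
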