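import Pool.Agent.SDL.Defs

set_option autoImplicit false

/-!
# SDL targets, part A: analysis in one variable. The proof of every target is in its docstring.

`t` is the radius of the ball, `1 ≤ t < R`; `κ = kap t`, `β = bet t`. Facts about the constants are
in `SDC.Defs` and `SDL.Defs`. All theorems of `SDC` are imported and may be used: `tKAP`, `p_KB`,
`tBET`, `tALP`, `p_BF`, `tHCL`, `p_SGN`, `tLOCA`, `tLOC1`, `tIDN`, `p_OM`, `p_GMN`, `tFAR`, ..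
-/

open MeasureTheory Set Real
open scoped RealInnerProductSpace

namespace Pool.Agent.SDL

open Pool.Agent.SDC

/-- HB. Closed form of `HH`. PROOF. `tHCL` and the scaling `h³ * Bf (t/h) c = h * Bf t (h c)` (by
the definition of `Bf`: `c ≤ t/h ↔ h c ≤ t`), for `c = cc r` and `c = 1`; `r² = cc r² - 1`. -/
def T_HB : Prop := ∀ t h r : ℝ, 0 < t → 0 < h → 0 ≤ r →
  HH t h r = h * (bb t (h * cc r) - Bf t h) + kap t * h ^ 3 / 2 - bet t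

/-- LOC2. `T_LOCA` without the hypothesis `∫ s in 0..ρ, G s * s ≤ 0`. PROOF. Let
`I r = ∫ s in 0..r, G s * s`, `v = I ρ`. If `v ≤ 0` this is `tLOCA`. If `v > 0`: by the single
change of sign `I r ≤ max 0 (I ρ) = v` for `0 ≤ r ≤ ρ` and `I r ≥ v` for `r ≥ ρ`. So for
`0 ≤ ψ < π/2`, `max (v - I (a/cos ψ)) 0` is `v - I (a/cos ψ)` if `a/cos ψ ≤ ρ` and `0` otherwise (at
the point `ψ = π/2` the value is irrelevant). If `a ≥ ρ` the left integral is `0`; if `a < ρ` it is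
`∫ ψ in 0..arccos (a/ρ), (v - I (a/cos ψ)) = ∫ u in a..ρ, P u`, `P u = ∫ y in 0..√(ρ²-u²),
G √(u²+y²)`, by `p_MP` (as `v - I x = ∫ s in x..ρ, G s * s`). The right side is `∫ u in A..ρ, P u`.
As `P ≤ 0` on ` (0,A]`, `P ≥ 0` on `[A,ρ)`, and `P` is continuous (interval integrable; see the
proof in `SDC/P_LOCA.lean`, which contains all of this), `∫ a..ρ, P ≤ ∫ A..ρ, P`. -/
def T_LOC2 : Prop := ∀ (G : ℝ → ℝ) (ρ A : ℝ), Continuous G → 0 < A → A < ρ →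
  (∀ r r', 0 ≤ r → r ≤ r' → 0 ≤ G r → 0 ≤ G r') → 0 ≤ G ρ →
  (∀ a, 0 < a → a ≤ A → ∫ y in (0 : ℝ)..√(ρ ^ 2 - a ^ 2), G √(a ^ 2 + y ^ 2) ≤ 0) →
  (∀ a, A ≤ a → a < ρ → 0 ≤ ∫ y in (0 : ℝ)..√(ρ ^ 2 - a ^ 2), G √(a ^ 2 + y ^ 2)) →
  ∀ a, 0 < a →
    ∫ ψ in (0 : ℝ)..(π / 2), max ((∫ s in (0 : ℝ)..ρ, G s * s)
      - ∫ s in (0 : ℝ)..(a / cos ψ), G s * s) 0 ≤
    ∫ ψ in (0 : ℝ)..arccos (A / ρ), ((∫ s in (0 : ℝ)..ρ, G s * s)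
      - ∫ s in (0 : ℝ)..(A / cos ψ), G s * s)

/-- PCH. The chord integral at height `h` in the disc of the ball of radius `u`. PROOF. As
`T_PCL` (see `SDC/P_PCL.lean`). `c = √(1 + a² + y²) = cc √(a²+y²)`, `W = h²(1+a²)`, `ρ = h c =
√(W + h²y²)`. The upper limit is `√(u²-W)/h`. ` (h³ - t³/c³)₊ = h³ (1 - t³/ρ³)₊` vanishes for
`h y ≤ Yt := √(max (t²-W) 0)`; the antiderivative of `ρ⁻³` is `y/(W ρ)`. With `Y = √(u²-W)` the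
integral is `h² [(Y - Yt) - t³ (Y/(W u) - Yt/(W t)) - κ Y - β Y/(W u)]` (if `Yt = 0` the terms with
`Yt` vanish) and `- Yt + t² Yt/W = Yt³/W` if `Yt² = t² - W`. -/
def T_PCH : Prop := ∀ t κ β h u a : ℝ, 0 < t → t ≤ u → 0 < h → h < u → 0 < a → a < rr h u →
  ∫ y in (0 : ℝ)..√(rr h u ^ 2 - a ^ 2), G t κ β h √(a ^ 2 + y ^ 2) =
    h ^ 2 * √(u ^ 2 - h ^ 2 * (1 + a ^ 2)) / (h ^ 2 * (1 + a ^ 2) * u) *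
      (u * ggu t κ u (h ^ 2 * (1 + a ^ 2)) - t ^ 3 - β)

/-- GMU. PROOF. As `T_GMN` (see `SDC/P_GMN.lean`): `q W = √(max (t²-W) 0)/√(u²-W)` is antitone on
`[h², u²)` with values in `[0, q (h²)]`; for `W ≠ t²` the derivative of `ggu` is
`- κ + (1-q)²(2+q)/2` and ` (1-q)²(2+q)` is antitone in `q ∈ [0,1]`. -/
def T_GMU : Prop := ∀ t κ h u : ℝ, 0 < t → 0 < h → h < u → t ≤ u →
  κ ≤ (1 - √(max (t ^ 2 - h ^ 2) 0) / √(u ^ 2 - h ^ 2)) ^ 2 *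
    (2 + √(max (t ^ 2 - h ^ 2) 0) / √(u ^ 2 - h ^ 2)) / 2 →
  MonotoneOn (ggu t κ u) (Ico (h ^ 2) (u ^ 2))

/-- MU. PROOF. Let `m = (R²-1)/(t²-1) > 1`, `y = h² ∈ [1,t²)`, `U² = y + m (t²-y) = R² - (m-1)(y-1)`
(so `t < U ≤ R`: `U² - t² = (m-1)(t²-y) > 0`). `W' = s2 y + c2 U² = y + c2 m (t²-y)`,
`t² - W' = (1 - c2 m)(t²-y)`, `U² - W' = s2 m (t²-y)`. So
`U ggu t κ U W' = U N(y)`, `N(y) = (1-κ)(y + c2 m (t²-y)) + q³ s2 m (t²-y)` with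
`q² = max (1 - c2 m) 0/(s2 m)` (a constant, `0 ≤ q < 1`), an affine function of `y`;
`N(1) = ggu t κ R W0`, `N(y) ≥ 0`, `U(1) = R`. Its slope is `N' = (1-κ)(1-c2 m) - q³ s2 m`. If
`1 - c2 m ≤ 0` then `q = 0`, `N' ≤ 0`, `U` and `N` both decrease: done. Otherwise
`1 - c2 m = s2 m q²`, `m = 1/(c2 + s2 q²)`, `m - 1 = m s2 (1-q²)` and
`N' = s2 m q² (1-κ-q)`, `N(1) = (1-κ) W0 + q³ A`, `A = R² - W0 = s2 (R²-1)`. If `N' ≤ 0` done.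
Otherwise (*) `2 R² N' ≤ (m-1) N(1)`, i.e. `2R²q²(1-κ-q) ≤ (1-q²)((1-κ)W0 + q³A)`: both sides are
affine in `κ`, it is true for `κ = 1`, and for `κ = 0` it is `2R²q² ≤ (1+q)(R² - A(1-q³))`, i.e.
` (1-q) A (1+q)(1+q+q²) ≤ (1-q) R² (1+2q)` (`6A ≤ R²`). With `ν = N'/N(1)`, `x = y - 1`:
`U² N(y)² = (R² - (m-1)x) N(1)² (1+νx)² ≤ R² N(1)² (1-2νx)(1+νx)² = R² N(1)² (1 - 3ν²x² - 2ν³x³)`.
-/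
def T_MU : Prop := ∀ t κ h U : ℝ, 1 ≤ h → h < t → t < R → 0 ≤ κ → κ ≤ 1 → 0 < U →
  U ^ 2 = h ^ 2 + (t ^ 2 - h ^ 2) * (R ^ 2 - 1) / (t ^ 2 - 1) →
  t < U ∧ U ≤ R ∧ U * ggu t κ U (h ^ 2 * s2 + U ^ 2 * c2) ≤ R * ggu t κ R W0

/-- RPX (uses MU). The radius of the best pentagon at height `h`. PROOF. Let
`M u = u * ggu t κ u (h² s2 + u² c2)`, continuous for `u > h` (`u² - W' = s2 (u²-h²) > 0`).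
`M R ≥ t³ + β = R * gg t κ W0`: `ggu t κ R = gg t κ` is monotone on `[1, R²)` (`p_GMN` with `tKAP`,
`p_KB`) and `W0 = s2 + R² c2 ≤ h² s2 + R² c2 < R²`. (i) `h < t`: take `U` of MU (`1 < t`), the
intermediate value theorem on `[U,R]`; `u ≥ U` gives the last condition. (ii) `t ≤ h < 1.02`:
intermediate value theorem on `[1.25, R]`: `max (t²-W') 0 = 0` for `W' ≥ h² ≥ t²`, so
`M 1.25 = (1-κ) 1.25 (h² s2 + 1.5625 c2) ≤ (1-κ) 1.7277`, and `t³ + β = (1-κ) R W0` (`t² ≤ W0`),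
`R W0 ≥ 1.739`. -/
def T_RPX : Prop := ∀ t h : ℝ, 1 ≤ t → t < R → 1 ≤ h → (h < t ∨ h < 1.02) →
  ∃ u, h < u ∧ t < u ∧ u ≤ R ∧ (h ≤ t ∨ 1.25 ≤ u) ∧
    u * ggu t (kap t) u (h ^ 2 * s2 + u ^ 2 * c2) = t ^ 3 + bet t ∧
    max (t ^ 2 - h ^ 2) 0 * (R ^ 2 - 1) ≤ (t ^ 2 - 1) * (u ^ 2 - h ^ 2)

/-- EPW. PROOF. `Bf t` is `0` on `[1,t]`, `≥ 0`, monotone (`p_BF`: the derivative is `≥ 0`).
`ρh = √(h²+(u²-h²)γ) = √(h²(1-γ) + u²γ)`, `ρ1 = √(1+(u²-1)γ) ≤ ρh ≤ u`. First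
`h (u²-h²) ≤ u² - 1` (` (h-1)(u² - h² - h - 1) ≤ 0` as `u² ≤ R² < 3`), and `κ ≥ 0` (`tKAP`). So it
is enough that `Bf t ρ1 ≤ h (Bf t ρh - Bf t h)`. (i) `h ≤ t`: `Bf t h = 0`, monotonicity, `h ≥ 1`.
(ii) `t < h ≤ 1.02`, `u ≥ 1.25`: for `t ≤ x ≤ h` let `F x = x (Bf t ρx - Bf t x) =
x (u²-x²) γ/2 - t³ (1 - x/ρx)` (`p_BF`, third part). `F t ≥ Bf t ρ1` by (i). And `F h ≥ F t`:
`h/ρh - t/ρt = u²γ(h²-t²)/(ρh ρt (h ρt + t ρh)) ≥ γ (h-t)/u` (`ρ ≤ u`),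
`h(u²-h²) - t(u²-t²) ≥ (h-t)(u²-3h²)`, so `F h - F t ≥ γ(h-t)[(u²-3h²)/2 + t³/u] ≥ 0`, as
`u²/2 + 1/u ≥ 1.5812 ≥ 1.5607 ≥ 3h²/2` for `u ≥ 1.25`. -/
def T_EPW : Prop := ∀ t h u γ : ℝ, 1 ≤ t → t < R → 1 ≤ h → h < u → u ≤ R →
  (h ≤ t ∨ (h ≤ 1.02 ∧ 1.25 ≤ u)) → 0 ≤ γ → γ ≤ 1 →
  kap t * h * (u ^ 2 - h ^ 2) * γ / 2 - h * (Bf t √(h ^ 2 + (u ^ 2 - h ^ 2) * γ) - Bf t h) ≤
    kap t * (u ^ 2 - 1) * γ / 2 - Bf t √(1 + (u ^ 2 - 1) * γ)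

/-- OMG. The solid angle. PROOF. The integrand is `h cos ψ/√(h² cos²ψ + (u²-h²) c2) =
h cos ψ/√(B² - h² sin²ψ)`, `B² = h² + (u²-h²) c2 = h² s2 + u² c2`, the derivative of
`arcsin (h sin ψ/B)`; and `arcsin (h s/√(h²s² + u²c²)) = arctan (h s/(u c))`, `s = sin 36°`,
`c = cos 36°` (see `SDC/P_OM.lean`). -/
def T_OMG : Prop := ∀ h u : ℝ, 0 < h → h < u →
  ∫ ψ in (0 : ℝ)..(π / 5), h / √(h ^ 2 + (u ^ 2 - h ^ 2) * (c2 / cos ψ ^ 2)) =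
    arctan (h * tan (π / 5) / u)

/-- ATN. PROOF. With `x = tan 36°/u ≥ 1/√3` (`tan36_R`) the left side is
`f x = arctan x - arctan (h x)`, the right side is `f (1/√3)`, and
`f' = (h-1)(h x² - 1)/((1+x²)(1+h²x²)) ≤ 0` for `h x² ≤ 1`; `x² ≤ tan²36°/u²`,
`h x² ≤ tan² 36° / u ≤ 1`. -/
def T_ATN : Prop := ∀ h u : ℝ, 1 ≤ h → h ≤ u → u ≤ R →
  arctan (tan (π / 5) / u) - arctan (h * tan (π / 5) / u) ≤ π / 6 - arctan (h / √3)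

/-- P1. PROOF. Let `A = rr 1 u * cos (π/5) > 0`. `∫ ψ in 0..π/5, (alp t - HH t 1 (A/cos ψ)) ≤
∫ ψ in 0..π/5, max .. 0 ≤ ∫ ψ in 0..π/2, max .. 0 ≤ - J0 t` (`tLOC1`); multiply by `10` and
use `tIDN`: `-10 J0 - 2π alp = (π/3) β`. (Integrability: `H` is continuous in `r` and
`A / cos ψ` is continuous on `[0,π/5]`; for `[0,π/2]` the integrand is bounded, since
`max (alp t - H ..) 0 = 0` for large `r` by `tFAR`, see `SDC/P_LOCH.lean`.) -/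
def T_P1 : Prop := ∀ t u : ℝ, 1 ≤ t → t < R → 1 < u → u ≤ R →
  -10 * (∫ ψ in (0 : ℝ)..(π / 5), HH t 1 (rr 1 u * cos (π / 5) / cos ψ)) ≤ π / 3 * bet t

/-- PYR (uses HB, EPW, OMG, ATN, P1). The regular pyramid inscribed in the ball of radius `u`, with
the foot at height `h`. PROOF. Let `γ = c2/cos²ψ ∈ [c2, 1]` for `ψ ∈ [0,π/5]`, `r =
rr h u * cos 36°/cos ψ`, so `h² cc r² = h² + (u²-h²)γ = ρh²`, and by HB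
`- HH t h r = κ h (u²-h²)γ/2 - h (Bf t ρh - Bf t h) + β (1 - h/ρh)`, and for `h = 1` (`Bf t 1 = 0`)
`- HH t 1 r1 = κ (u²-1)γ/2 - Bf t ρ1 + β (1 - 1/ρ1)`. By EPW
`- HH t h r ≤ - HH t 1 r1 - β (h/ρh - 1/ρ1)`. Integrate; by OMG (for `h` and for `1`), P1, ATN and
`β ≥ 0` (`tBET`) the left side is `≤ (π/3)β - 10 β (arctan (h/√3) - π/6) = (π/3) β wt h`. -/
def T_PYR : Prop := ∀ t h u : ℝ, 1 ≤ t → t < R → 1 ≤ h → h < u → u ≤ R →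
  (h ≤ t ∨ (h ≤ 1.02 ∧ 1.25 ≤ u)) →
  -10 * (∫ ψ in (0 : ℝ)..(π / 5), HH t h (rr h u * cos (π / 5) / cos ψ)) ≤
    π / 3 * bet t * wt h

/-- CB (uses LOC2, PCH, GMU, RPX, PYR). The local lemma for facets with at most five sides. PROOF.
`u` of RPX, `ρ' = rr h u ≤ rr h R`, `A' = ρ' cos 36°`, `τ' = ∫ ψ in 0..π/5, (HH t h ρ' -
HH t h (A'/cos ψ))`. With `q1 = √(t²-1)/rv` and `q = √(max (t²-h²) 0)/√(u²-h²) ≤ q1` (the last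
condition of RPX, `rv² = R²-1`), `κ ≤ (1-q1)²(2+q1)/2 ≤ (1-q)²(2+q)/2` (`tKAP`, `p_KB`), so by GMU
`ggu t κ u` is monotone on `[h²,u²)`. For `a < ρ'`, `W = h²(1+a²) < u²`, and `W ≤ W' ↔ a ≤ A'`,
`W' = h² s2 + u² c2 = h²(1 + A'²)` (`c2_eq`). As `u * ggu t κ u W' = t³ + β`, PCH gives the signs
needed in LOC2 for `G = G t κ β h` (single change of sign: `p_SGN`; continuity: `tHCL`).
`G t κ β h ρ' = (h³/u³)((1-κ)u³ - t³ - β) ≥ 0` (`cc ρ' = u/h`, `t < u`): for `W ∈ [max W' t², u²)`,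
`ggu t κ u W' ≤ ggu t κ u W = (1-κ) W ≤ (1-κ) u²`. LOC2 gives the bound by `τ'`
(`arccos (A'/ρ') = π/5`), `τ' ≥ 0` (take `a = 1`), and
`- 2π HH t h ρ' + 10 τ' = -10 ∫ ψ in 0..π/5, HH t h (A'/cos ψ)`, PYR. -/
def T_CB : Prop := ∀ t h : ℝ, 1 ≤ t → t < R → 1 ≤ h → (h < t ∨ h < 1.02) →
  ∃ ρ' τ', 0 < ρ' ∧ ρ' ≤ rr h R ∧ 0 ≤ G t (kap t) (bet t) h ρ' ∧ 0 ≤ τ' ∧
    (∀ a, 0 < a →
      ∫ ψ in (0 : ℝ)..(π / 2), max (HH t h ρ' - HH t h (a / cos ψ)) 0 ≤ τ') ∧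
    - 2 * π * HH t h ρ' + 10 * τ' ≤ π / 3 * bet t * wt h

/-- KEX. PROOF. For `t² ≤ W0`, `c = cc (a0/cos ψ) ≥ √W0 ≥ t`, so `Bf t c = c²/2 + t³/c - (3/2)t²`
(`p_BF`). `∫ ψ in 0..π/5, (a0/cos ψ)²/2 = a0² tan 36°/2 = S0`; `c² = 1 + (a0/cos ψ)²`;
`∫ 1/c = π/5 - π/30 = π/6` (`p_OM`). So `kap t * S0 = π/10 + S0 + t³π/6 - (3/2)t²π/5`. -/
def T_KEX : Prop := (∫ ψ in (0 : ℝ)..(π / 5), (a0 / cos ψ) ^ 2 / 2) = S0 ∧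
  ∀ t : ℝ, 1 ≤ t → t ^ 2 ≤ W0 → (1 - kap t) * S0 = π / 30 * (9 * t ^ 2 - 5 * t ^ 3 - 3)

/-- KU (uses KEX). PROOF. `A = R² - W0 = (a0 tan 36°)²` (`a0_tan`). For `c ≥ t`:
`Bf t c = (c-t)²(c+2t)/(2c) ≤ (3/(8t²))(c²-t²)²` (`4t²(c+2t) ≤ 3c(c+t)²`), and `Bf t c = 0` for
`c ≤ t`. For `c = cc (a0/cos ψ)`, `x = tan ψ = T y`, `T = tan 36°`, `y ∈ [0,1]`:
`c² = W0 + a0²x² = W0 + A y²`, `c² - t² = A (y²-q²)`, `dψ = T dy/(1+T²y²)` and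
`1/(1+T²y²) ≤ 1 - s2 y² ≤ 1 - 0.345 y²` (`s2 = T²/(1+T²)`; convexity, or multiply out). So
`kap t * S0 = ∫ ψ in 0..π/5, Bf t c ≤ (3A²T/(8t²)) ∫ y in q..1, (y²-q²)²(1 - 0.345 y²) dy =
(3A²T/(8t²)) Kq q`, and `S0 = a0² T/2`, `3A²/(4 t² a0²) ≤ 3A²/(4 W0 a0²) ≤ 0.0578`. -/
def T_KU : Prop := ∀ t q : ℝ, W0 ≤ t ^ 2 → 1 ≤ t → t < R → 0 ≤ q →
  q ^ 2 * (R ^ 2 - W0) = t ^ 2 - W0 → q < 1 ∧ kap t ≤ 0.0578 * Kq q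

/-- BQ. Bounds of `β` for `t² ≥ W0`. PROOF. `β = R ((1-κ)W0 + A q³) - t³` (`bet`, `gg`:
`√(max (t²-W0) 0)³/√(R²-W0) = (q √A)³/√A = A q³`), `t² = R² - e`, `e = A (1-q²)`, and with
`x = e/R² ∈ [0,1]`, `t³ = R³ (1-x)^(3/2)`: `1 - (3/2)x + (3/8)x² ≤ (1-x)^(3/2) ≤
1 - (3/2)x + (3/8)x² + x³/8 = (1-x)(1 - x/2 - x²/8)` (square). -/
def T_BQ : Prop := ∀ t q : ℝ, W0 ≤ t ^ 2 → 1 ≤ t → t < R → 0 ≤ q →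
  q ^ 2 * (R ^ 2 - W0) = t ^ 2 - W0 →
  bet t ≤ R * (R ^ 2 - W0) / 2 * (1 - q) ^ 2 * (1 + 2 * q)
    - 3 * (R ^ 2 - W0) ^ 2 / (8 * R) * (1 - q ^ 2) ^ 2 - kap t * R * W0 ∧
  R * (R ^ 2 - W0) / 2 * (1 - q) ^ 2 * (1 + 2 * q)
    - 3 * (R ^ 2 - W0) ^ 2 / (8 * R) * (1 - q ^ 2) ^ 2
    - (R ^ 2 - W0) ^ 3 / (8 * R ^ 3) * (1 - q ^ 2) ^ 3 - kap t * R * W0 ≤ bet t ∧
  t ^ 3 + bet t = R * ((1 - kap t) * W0 + (R ^ 2 - W0) * q ^ 3)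

/-- KB2 (uses KU, BQ). PROOF. `t³ ≤ R³ ≤ 1.9929`. By BQ it is enough that
`κ (1.9929 + 0.23 R W0) ≤ 0.23 [0.12686 (1-q)²(1+2q) - 0.01212 (1-q²)² - 0.00052 (1-q²)³]`,
with `κ ≤ 0.0578 Kq q`. The difference is a polynomial in `q` divisible by ` (1-q)²` (`Kq` is
divisible by ` (1-q)³`), the quotient is `≥ 0.0054` on `[0,1]` (minimum at `q = 0`). -/
def T_KB2 : Prop := ∀ t : ℝ, W0 ≤ t ^ 2 → 1 ≤ t → t < R → kap t * t ^ 3 ≤ 0.23 * bet t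

/-- WT. PROOF. `arctan (1/√3) = π/6`; `R/√3 = tan 36°` (`tan36_R`), `arctan (tan 36°) = π/5`. The
derivative of `wt` is `- (30 √3/π)/(3 + h²)`, so `wt` is antitone and convex on `[0,∞)`; its slope
at `1` is `≥ - 4.135` and at `R` it is `≤ - 3.6` (`√3 ∈ (1.7320, 1.7321)`, `π`). The bound by the
chord: convexity on `[1, 1.26]`, `wt 1.26 ≤ 0`. The last one: `N ↦ arctan (√N/(2√3))` is concave on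
`[0,∞)`, so `N ↦ wt (√N/2)` is convex; values `1` at `N = 4` and `≤ 0` at `N = 8`. -/
def T_WT : Prop := wt 1 = 1 ∧ wt R = 0 ∧ (∀ h h', 0 ≤ h → h ≤ h' → wt h' ≤ wt h) ∧
  (∀ h, 1 ≤ h → 1 - 4.135 * (h - 1) ≤ wt h) ∧ (∀ h, 0 ≤ h → h ≤ R → 3.6 * (R - h) ≤ wt h) ∧
  (∀ h, 1 ≤ h → h ≤ 1.26 → wt h ≤ (1.26 - h) / 0.26) ∧
  ∀ N, 4 ≤ N → N ≤ 8 → wt (√N / 2) ≤ (8 - N) / 4

/-- DS1 (uses KEX, WT). The disc bound for `t² ≤ W0`. PROOF. `t³ + β = k RW`, `k = 1 - κ ≥ 0`,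
`RW = R W0`. So the left side is `k f(ρ)`, `f(ρ) = (ρ-h)(RW/ρ - h(ρ+h)/2) = RW + h³/2 -
h (RW/ρ + ρ²/2)`. Let `ϑ > 0`, `ϑ³ = RW` (`ϑ ∈ (1.2025, 1.2026)`). If `h ≥ ϑ` then `f ≤ 0` (`ρ ≥
h ≥ ϑ`). If `h < ϑ`: `RW/ρ + ρ²/2 ≥ (3/2)ϑ²` (AM-GM: ` (ρ-ϑ)²(ρ+2ϑ) ≥ 0`), so
`f ≤ (ϑ-h)²(ϑ+h/2)`. As `β = k (RW - t³/k)`, it remains
`6 (ϑ-h)²(ϑ+h/2) ≤ (RW - t³/k) (1 - 4.135 (h-1))` (`WT`; the last factor is positive). By KEX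
`t³/k = S' t³/(9t²-5t³-3)`, `S' = 30 S0/π ≤ 1.32505`, and `t ↦ t³/(9t²-5t³-3)` is monotone on
`[1, √W0]` (derivative `9t²(t²-1)/(..)²`, or `x³(9y²-5y³-3) ≤ y³(9x²-5x³-3)` for `1 ≤ x ≤ y`,
that is `9x²y²(y - x) ≥ 3(y³ - x³)`, `3x²y² ≥ x² + xy + y²`). (a) `h ≤ √W0`: `t ≤ h`, a polynomial
inequality in `h ∈ [1.02, 1.1756]`:
`6 (ϑ-h)²(ϑ+h/2) D ≤ (RW D - S' h³)(1 - 4.135(h-1))`, `D = 9h²-5h³-3 ∈ [1, 1.33]` (the difference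
of the two sides is `≥ 0.02` throughout; `RW ∈ (1.73907, 1.73908)`). (b) `h ≥ √W0`: `RW - t³/k ≥
0.1015` (the value for `t = √W0` is `0.1017`), `6 (ϑ-h)²(ϑ+h/2) ≤ 0.008`, `1 - 4.135(h-1) ≥ 0.16`.
-/
def T_DS1 : Prop := ∀ t h ρ : ℝ, 1 ≤ t → t ^ 2 ≤ W0 → t ≤ h → 1.02 ≤ h → h ≤ R → h ≤ ρ →
  (ρ - h) * ((t ^ 3 + bet t) / ρ - (1 - kap t) * h * (ρ + h) / 2) ≤ bet t / 6 * wt h

/-- DS2 (uses KB2, WT). The disc bound for `t² ≥ W0`. PROOF. `X = t³ + β`, `k = 1 - κ`,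
`E = X - k h³`. The left side is ` (ρ-h)E/ρ - k h (ρ-h)²(2h+ρ)/(2ρ)`. If `E ≤ 0` it is `≤ 0`.
Otherwise, by `2h + ρ ≥ 3h`, it is `≤ ((ρ-h)E - (3/2) k h² (ρ-h)²)/ρ ≤ E²/(6 k h³)`. Now
`E ≤ β + κ t³ ≤ 1.23 β` (`h ≥ t`, KB2), and `E ≤ k (R³ - h³)` (`X ≤ k R³` by `tBET`, as
`G t κ β 1 rv = k - X/R³`), so `E² ≤ 1.23 β k (R-h)(R²+Rh+h²) ≤ k h³ β 3.6 (R-h)`, because
`1.23 (R²+Rh+h²) ≤ 3.6 h³` for `h ≥ √W0` (`h ≥ 1.1755`). So `E²/(6kh³) ≤ (β/6) 3.6 (R-h) ≤ (β/6)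
wt h` (`WT`). (`k > 0`: `κ ≤ 2 Bf t R/rv² < 1`.) -/
def T_DS2 : Prop := ∀ t h ρ : ℝ, W0 ≤ t ^ 2 → 1 ≤ t → t < R → t ≤ h → h ≤ R → h ≤ ρ →
  (ρ - h) * ((t ^ 3 + bet t) / ρ - (1 - kap t) * h * (ρ + h) / 2) ≤ bet t / 6 * wt h

/-- DSC (uses HB, DS1, DS2). PROOF. `ρ = h cc r ≥ h ≥ t`; by HB and `p_BF`,
`- HH t h r = (ρ-h)((t³+β)/ρ - (1-κ) h (ρ+h)/2)`. If `h ≤ R`: DS1 or DS2. If `h > R`: `≤ 0`, as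
`t³ + β ≤ (1-κ)R³` (`tBET`). -/
def T_DSC : Prop := ∀ t h r : ℝ, 1 ≤ t → t < R → t ≤ h → 1.02 ≤ h → 0 ≤ r →
  - (bet t / 6 * max (wt h) 0) ≤ HH t h r

/-- BM. PROOF. For `ρ ≥ R > t` the derivative of `bb t` is ` (ρ - t³/ρ²) - β/ρ² - κρ =
((1-κ)ρ³ - t³ - β)/ρ² ≥ 0` (`tBET`: `G t κ β 1 rv = (1-κ) - (t³+β)/R³ ≥ 0`, `κ ≤ 1`). Or
algebraically. -/
def T_BM : Prop := ∀ t : ℝ, 1 ≤ t → t < R → MonotoneOn (bb t) (Ici R)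

/-- C1A (uses KEX). The constants for `t² ≤ W0`. PROOF. `k = 1 - κ`, `RW = R W0`, `β = k RW - t³`.
(1) `4.68·0.00455·k - 0.703 Δ ≤ -10 J0`: for `ρ ≥ t`, `bb t ρ = k (ρ²/2 + RW/ρ) - (3/2)t²`
(`p_BF`). So `Dl t = k ((RO²-R²)/2 + RW (1/RO - 1/R)) ≥ 0.00297 k`. `-10 J0 = (π/3)β + 2π alp t`
(`tIDN`) and `alp t = bb t R + κ/2 - β` (`tHCL`, `Bf t 1 = 0`, `cc rv = R`). Insert and use KEX
(`π - 3πt² + (5π/3)t³ = -10 k S0`): `-10 J0 = k (π(R²-1) - RW (2π(1-1/R) - π/3) - 10 S0) ≥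
0.0231 k`, and `4.68·0.00455 - 0.703·0.00297 = 0.01921`. (2) `bb t R - bb t ρ ≤ 0.00455 k`: for
`ρ ≥ t` it is `k (R²/2 + W0 - (ρ²/2 + RW/ρ))` (AM-GM:
`ρ²/2 + RW/ρ ≥ (3/2) ϑ²` for every `ϑ > 0` with `ϑ³ ≤ RW`, as `ρ³ - 3ϑ²ρ + 2ϑ³ ≥ 0`; take
`ϑ = 1.202558`, `RW ≥ 1.739077`, `R²/2 + W0 ≤ 2.173763`; the true constant is `0.0045404`).
For `1 ≤ ρ ≤ t`: `bb t ρ = β/ρ - κρ²/2 ≥ bb t t`. (3) `0.00455 k ≤ 0.00455 ≤ 1.1·0.0098 ≤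
1.1 Bf t R`: `Bf t R =
(R-t)²(R+2t)/(2R)` is antitone in `t`, at `√W0 ≤ 1.1756` it is `≥ 0.0098`. -/
def T_C1A : Prop := ∀ t : ℝ, 1 ≤ t → t ^ 2 ≤ W0 →
  0 ≤ 1 - kap t ∧ 0.00455 * (1 - kap t) ≤ 1.1 * Bf t R ∧
  (∀ ρ, 1 ≤ ρ → ρ ≤ R → bb t R - bb t ρ ≤ 0.00455 * (1 - kap t)) ∧
  4.68 * (0.00455 * (1 - kap t)) - 0.703 * Dl t ≤ - 10 * J0 t

/-- C1G (uses BQ). The bound `g` for `t² ≥ W0`. PROOF. `A = R² - W0`, `k = 1 - κ ∈ [0,1]`,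
`X = t³ + β = R (k W0 + A q³)` (BQ). (1) For `t ≤ ρ ≤ R`, `δ = R - ρ`: `bb t R - bb t ρ =
(δ/ρ)(A (k - q³) - k ((3/2)Rδ - δ²/2))` (`p_BF`). Let `b = A (1-q³)`. If `A - (3/2)Rδ + δ²/2 < 0`
this is `≤ 0` (`A(k - q³) ≤ k A`). Otherwise the bracket is monotone in `k`, so it is
`≤ (δ/(R-δ))(b -
(3/2)Rδ + δ²/2) = R²/2 + X1/R - (ρ²/2 + X1/ρ)`, `X1 = R (R² - b)`. Now AM-GM:
`ρ²/2 + X1/ρ ≥ (3/2)ϑ²` for every `ϑ > 0` with `ϑ³ ≤ X1`. With `c = b/R² ∈ [0, 0.12733]` and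
`ϑ² = R² (1 - (2/3)c - 0.11813 c²)` : `ϑ³ ≤ X1` iff ` (1 - (2/3)c - 0.11813 c²)³ ≤ (1-c)²` (true for
`0 ≤ c ≤ 0.12733`: the difference is `c² (0.02106 - 0.17622 c + 0.11564 c² + ..)`, where the
factor is `≥ 0.0005`, small at the right end), and `R²/2 + X1/R - (3/2)ϑ² = (3/2)·0.11813
R² c² ≤ 0.1119 b²` (`0.177195/R² = 0.111894`). (2) For `1 ≤ ρ ≤ t`, `bb t ρ = β/ρ - κρ²/2 ≥ bb t
t`. (3) `Bf t R = (R-t)²(R+2t)/(2R) ≥ (3/(8R²))(R²-t²)² = (3A²/(8R²))(1-q²)²` (`4R(R+2t) ≥ 3(R+t)²`)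
and `0.1119 (1-q³)² ≤ 1.1 (3/(8R²))(1-q²)²`, as ` ((1+q+q²)/(1+q))² ≤ 9/4` and
`0.1119·(9/4) = 0.25178 ≤ 0.2604`. -/
def T_C1G : Prop := ∀ t q : ℝ, W0 ≤ t ^ 2 → 1 ≤ t → t < R → 0 ≤ q →
  q ^ 2 * (R ^ 2 - W0) = t ^ 2 - W0 →
  0.1119 * (R ^ 2 - W0) ^ 2 * (1 - q ^ 3) ^ 2 ≤ 1.1 * Bf t R ∧
  (∀ ρ, 1 ≤ ρ → ρ ≤ R → bb t R - bb t ρ ≤ 0.1119 * (R ^ 2 - W0) ^ 2 * (1 - q ^ 3) ^ 2) ∧
  3 * (R ^ 2 - W0) ^ 2 / (8 * R ^ 2) * (1 - q ^ 2) ^ 2 ≤ Bf t R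

/-- PQ. A polynomial inequality on `[0,1]`. The value at `0` is `0.00104`, at `1` it is `0.00027`,
for `q ≤ 0.95` it is at least `0.00047`. PROOF. E.g. write `q = 1 - x`, expand: the polynomial
minus `0.0002` is nonnegative; subdivide `[0,1]`, or find a certificate. -/
def T_PQ : Prop := ∀ q : ℝ, 0 ≤ q → q ≤ 1 →
  0.0213 * (1 - q ^ 3) ^ 2 - 0.703 * (0.00298 - 0.00259 * q ^ 3) + 0.08168 * Kq q ≤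
    0.0634 * (1 - q ^ 2) ^ 2 - 0.03084 * (1 - q) ^ 2 * (1 + 2 * q)

/-- C1B (uses KU, BQ, C1G, PQ). The constants for `t² ≥ W0`. PROOF. `A = R² - W0`, `k = 1 - κ`,
`X = t³ + β = R (k W0 + A q³)`. (1) `Dl t = k (RO²-R²)/2 - X (1/R - 1/RO) = k d1 - d2 q³`,
`d1 = (RO²-R²)/2 - R W0 (1/R - 1/RO) ≥ 0.00298`, `d2 = R A (1/R - 1/RO) ≤ 0.00259`. (2) `-10 J0 =
(π/3)β + 2π alp t = 2π Bf t R - πκ rv² - β bc`, `bc = 2π(1 - 1/R) - π/3 ∈ (0.243, 0.24305)` (`tIDN`,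
`alp t = Bf t R - κ rv²/2 - β (1 - 1/R)` by `tHCL`). By C1G and BQ this is `≥
(2π·3A²/(8R²) + bc·3A²/(8R))(1-q²)² - (bc R A/2)(1-q)²(1+2q) - κ (π rv² - bc R W0) ≥
0.0634 (1-q²)² - 0.03084 (1-q)²(1+2q) - κ (π rv² - bc R W0)`. (3) `π rv² - bc R W0 +
0.703 d1 ≤ 1.413`,
`κ ≤ 0.0578 Kq q` (`κ ≥ 0`), `1.413·0.0578 ≤ 0.08168`, `4.68·0.1119·A² ≤ 0.0213`. PQ. -/
def T_C1B : Prop := ∀ t q : ℝ, W0 ≤ t ^ 2 → 1 ≤ t → t < R → 0 ≤ q →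
  q ^ 2 * (R ^ 2 - W0) = t ^ 2 - W0 →
  4.68 * (0.1119 * (R ^ 2 - W0) ^ 2 * (1 - q ^ 3) ^ 2) - 0.703 * Dl t ≤ - 10 * J0 t

/-- C1 (uses C1A, C1G, C1B, BM). -/
def T_C1 : Prop := ∀ t : ℝ, 1 ≤ t → t < R → ∃ gM, 0 ≤ gM ∧ gM ≤ 1.1 * Bf t R ∧
  (∀ ρ, 1 ≤ ρ → ρ ≤ R → bb t R - bb t ρ ≤ gM) ∧ 4.68 * gM - 0.703 * Dl t ≤ - 10 * J0 t

/-- C2 (uses HB, WT, BM, KEX). The facets with six sides. PROOF. `B = Bf t R`. By HB and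
`cc (rr h R) = R/h`: `HH t h (rr h R) = h (bb t R - Bf t h) + κh³/2 - β`. So the left side is
`L(h) = - h Z + 2πβ - πκh³ + 2πh Bf t h`, `Z = 2π bb t R - 4.68 g + (2π - 5.58) Δ`, `Δ = Dl t ≥ 0`
(BM). `L(1) = - 2π alp t + 4.68 g - (2π-5.58)Δ ≤ - 2π alp t - 10 J0 = (π/3)β` (`alp t = bb t R +
κ/2 - β`; `2π - 5.58 ≥ 0.703`; `tIDN`). `L(h) - L(1) ≤ -(h-1)(Z + 3πκ) + 2πh Bf t h`, and
`Z + 3πκ ≥ 2πβ/R + (2π - 5.148) B + πκ(3-R²) ≥ 2πβ/R` (`bb t R = B + β/R - κR²/2`, `g ≤ 1.1 B`).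
`wt h ≥ 1 - 4.135 (h-1)` (`WT`), `2π/R - (π/3)·4.135 ≥ 0.6627`. (i) `h ≤ t`: `Bf t h = 0`, done.
(ii) `t < h ≤ 1.02`: `2πh Bf t h ≤ 3πh(h-1)² ≤ 0.1923 (h-1)` (`Bf t h = (h-t)²(h+2t)/(2h) ≤
(3/2)(h-1)²`), and `β ≥ 0.3` for `1 ≤ t ≤ 1.02`: `β = k R W0 - t³`, `k = (π/30)(9t²-5t³-3)/S0`
(KEX), so `β ≥ 1.3124 (9t²-5t³-3) - t³ ≥ 0.31`. `0.6627·0.3 = 0.1988`. -/
def T_C2 : Prop := ∀ t h gM : ℝ, 1 ≤ t → t < R → 1 ≤ h → h ≤ R → (h ≤ t ∨ h ≤ 1.02) →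
  0 ≤ gM → gM ≤ 1.1 * Bf t R → 4.68 * gM - 0.703 * Dl t ≤ - 10 * J0 t →
  - 2 * π * HH t h (rr h R) - 2 * π * h * Dl t + 2 * h * (2.34 * gM + 2.79 * Dl t) ≤
    π / 3 * bet t * wt h

end Pool.Agent.SDL
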