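import Pool.Agent.BPK.Repack
import Pool.Agent.SDL.Targets

set_option autoImplicit false

/-!
# SDL: polynomial inequalities for the facets with four sides (kernel certificates)
-/

namespace Pool.Agent.SDL.P4CA

open Pool.Agent.BPK

/-- The box. -/
def bx : Box := ⟨10000, 11436, 11756, 100, 0, 18, 1, 0, 1⟩

/-- A polynomial. -/
def p0 : Poly := ⟨6, 4, 0, [
  [[12462416208539922200163, 67134353792372455490720, 22818435569538208040616,
      -349357443794274311550280, 290454809100102759151200, 0, -41688928680000000000000],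
    [1813299220894534409587435, -1088531470408200973440000, -4880605085518273055628000,
      6041517916070323157280000, -1829598362070559622400000, 0, -41688928680000000000000],
    [662055201171616311788400, 0, -1145662265817224534400000, 453084115109228288000000,
      99566911956960000000000, 0, 0],
    [219887506833952760824000, 0, -267581929390181280000000, 107125226740000000000000, 0, 0, 0],
    [16873768794741600000000, 0, 0, 0, 0, 0, 0]]]⟩

/-- The certificate. -/
def cert : List ℕ := [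
  0x3]

/-- The check. -/
theorem ok : checkR 210 40 0 1 bx [p0] [152] (joinC cert)
    = true := by
  decide +kernel

end Pool.Agent.SDL.P4CA

namespace Pool.Agent.SDL.P4CG

open Pool.Agent.BPK

/-- The box. -/
def bx : Box := ⟨10000, 11436, 12000, 100, 0, 18, 1, 0, 1⟩

/-- A polynomial. -/
def p0 : Poly := ⟨1, 3, 0, [
  [[200504790820890311, -111195248698757860],
    [-2365708479818588000, 1802944703136720000],
    [-450268436486400000, 0],
    [-106459500000000000, 0]]]⟩

/-- The certificate. -/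
def cert : List ℕ := [
  0x3]

/-- The check. -/
theorem ok : checkR 102 40 0 1 bx [p0] [54] (joinC cert)
    = true := by
  decide +kernel

end Pool.Agent.SDL.P4CG

namespace Pool.Agent.SDL.P4CB1

open Pool.Agent.BPK

/-- The box. -/
def bx : Box := ⟨10000, 0, 2275, 10000, 11755, 11801, 100, 0, 18⟩

/-- A polynomial. -/
def p0 : Poly := ⟨7, 6, 4, [
  [[293768569011474596967611985, 0, 2573260840973714013026632, 8046112233616052925000000,
      -4307697057241620873004860, 2595975627716231034579200, 0, -127944513080299958132832],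
    [-46295169949254207867303600, 0, -1427070036617972884548320, -6813757412536735500000000,
      2388947633808775541283600, -1439667123952557764992000, 0, 70955022537661775560320],
    [-536046634987832261632500000, 0, 0, 0, 0, 0, 0, 0],
    [84741664920675000000000000, 0, 0, 0, 0, 0, 0, 0],
    [281238645627684150000000000, 0, 0, 0, 0, 0, 0, 0],
    [0, 0, 0, 0, 0, 0, 0, 0],
    [-65660062671000000000000000, 0, 0, 0, 0, 0, 0, 0]],
  [[-378570207490669428167869875, 0, -30361294447645534356256000,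
      -136157690527590900000000000, 50825496064627297424880000, -30629300829907222553600000, 0,
      1509586969473998825856000],
    [750640269414267957067200000, 0, 23138833660922788448640000, 110479790990646000000000000,
      -38734932767812108027200000, 23343085660451741184000000, 0, -1150480650407978672640000],
    [-938229716333663190832500000, 0, 0, 0, 0, 0, 0, 0],
    [622788801600000000000000000, 0, 0, 0, 0, 0, 0, 0],
    [-24222310439603850000000000, 0, 0, 0, 0, 0, 0, 0],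
    [0, 0, 0, 0, 0, 0, 0, 0],
    [-65660062671000000000000000, 0, 0, 0, 0, 0, 0, 0]],
  [[427107124882097210042730000, 0, -5778705490244046796800000, -8020596971520000000000000,
      9673684159267304064000000, -5829715500876718080000000, 0, 287321692543209676800000],
    [0, 0, 0, 0, 0, 0, 0, 0],
    [-519924602327466445200000000, 0, 0, 0, 0, 0, 0, 0],
    [0, 0, 0, 0, 0, 0, 0, 0],
    [156817886332212000000000000, 0, 0, 0, 0, 0, 0, 0],
    [0, 0, 0, 0, 0, 0, 0, 0],
    [0, 0, 0, 0, 0, 0, 0, 0]],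
  [[200766001625205598297800000, 0, -1366291854564000000000000, 0, 2287203577470000000000000,
      -1378352438400000000000000, 0, 67933084464000000000000],
    [0, 0, 0, 0, 0, 0, 0, 0],
    [-117741520981635516000000000, 0, 0, 0, 0, 0, 0, 0],
    [0, 0, 0, 0, 0, 0, 0, 0],
    [0, 0, 0, 0, 0, 0, 0, 0],
    [0, 0, 0, 0, 0, 0, 0, 0],
    [0, 0, 0, 0, 0, 0, 0, 0]],
  [[26576185851718020000000000, 0, 0, 0, 0, 0, 0, 0],
    [0, 0, 0, 0, 0, 0, 0, 0],
    [0, 0, 0, 0, 0, 0, 0, 0],
    [0, 0, 0, 0, 0, 0, 0, 0],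
    [0, 0, 0, 0, 0, 0, 0, 0],
    [0, 0, 0, 0, 0, 0, 0, 0],
    [0, 0, 0, 0, 0, 0, 0, 0]]]⟩

/-- A polynomial. -/
def p1 : Poly := ⟨2, 2, 0, [
  [[690983, 0, 100813],
    [0, 0, 0],
    [-500000, 0, 0]]]⟩

/-- A polynomial. -/
def p2 : Poly := ⟨2, 2, 0, [
  [[-13819661, 0, -2016266],
    [0, 0, 0],
    [10000000, 0, 0]]]⟩

/-- The certificate. -/
def cert : List ℕ := [
  0x33531033500503122]

/-- The check. -/
theorem ok : checkR 328 40 0 7 bx [p0, p1, p2] [267, 30, 34] (joinC cert)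
    = true := by
  decide +kernel

end Pool.Agent.SDL.P4CB1

namespace Pool.Agent.SDL.P4CB2

open Pool.Agent.BPK

/-- The box. -/
def bx : Box := ⟨10000, 2274, 5366, 10000, 11799, 12000, 100, 0, 18⟩

/-- A polynomial. -/
def p0 : Poly := ⟨7, 6, 4, [
  [[293791060011474596967611985, 0, 2573260840973714013026632, 8046112233616052925000000,
      -4307697057241620873004860, 2595975627716231034579200, 0, -127944513080299958132832],
    [-46295169949254207867303600, 0, -1427070036617972884548320, -6813757412536735500000000,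
      2388947633808775541283600, -1439667123952557764992000, 0, 70955022537661775560320],
    [-536046634987832261632500000, 0, 0, 0, 0, 0, 0, 0],
    [84741664920675000000000000, 0, 0, 0, 0, 0, 0, 0],
    [281238645627684150000000000, 0, 0, 0, 0, 0, 0, 0],
    [0, 0, 0, 0, 0, 0, 0, 0],
    [-65660062671000000000000000, 0, 0, 0, 0, 0, 0, 0]],
  [[-378570207490669428167869875, 0, -30361294447645534356256000,
      -136157690527590900000000000, 50825496064627297424880000, -30629300829907222553600000, 0,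
      1509586969473998825856000],
    [750640269414267957067200000, 0, 23138833660922788448640000, 110479790990646000000000000,
      -38734932767812108027200000, 23343085660451741184000000, 0, -1150480650407978672640000],
    [-938229716333663190832500000, 0, 0, 0, 0, 0, 0, 0],
    [622788801600000000000000000, 0, 0, 0, 0, 0, 0, 0],
    [-24222310439603850000000000, 0, 0, 0, 0, 0, 0, 0],
    [0, 0, 0, 0, 0, 0, 0, 0],
    [-65660062671000000000000000, 0, 0, 0, 0, 0, 0, 0]],
  [[427107124882097210042730000, 0, -5778705490244046796800000, -8020596971520000000000000,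
      9673684159267304064000000, -5829715500876718080000000, 0, 287321692543209676800000],
    [0, 0, 0, 0, 0, 0, 0, 0],
    [-519924602327466445200000000, 0, 0, 0, 0, 0, 0, 0],
    [0, 0, 0, 0, 0, 0, 0, 0],
    [156817886332212000000000000, 0, 0, 0, 0, 0, 0, 0],
    [0, 0, 0, 0, 0, 0, 0, 0],
    [0, 0, 0, 0, 0, 0, 0, 0]],
  [[200766001625205598297800000, 0, -1366291854564000000000000, 0, 2287203577470000000000000,
      -1378352438400000000000000, 0, 67933084464000000000000],
    [0, 0, 0, 0, 0, 0, 0, 0],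
    [-117741520981635516000000000, 0, 0, 0, 0, 0, 0, 0],
    [0, 0, 0, 0, 0, 0, 0, 0],
    [0, 0, 0, 0, 0, 0, 0, 0],
    [0, 0, 0, 0, 0, 0, 0, 0],
    [0, 0, 0, 0, 0, 0, 0, 0]],
  [[26576185851718020000000000, 0, 0, 0, 0, 0, 0, 0],
    [0, 0, 0, 0, 0, 0, 0, 0],
    [0, 0, 0, 0, 0, 0, 0, 0],
    [0, 0, 0, 0, 0, 0, 0, 0],
    [0, 0, 0, 0, 0, 0, 0, 0],
    [0, 0, 0, 0, 0, 0, 0, 0],
    [0, 0, 0, 0, 0, 0, 0, 0]]]⟩

/-- A polynomial. -/
def p1 : Poly := ⟨2, 2, 0, [
  [[690983, 0, 100813],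
    [0, 0, 0],
    [-500000, 0, 0]]]⟩

/-- A polynomial. -/
def p2 : Poly := ⟨2, 2, 0, [
  [[-13819661, 0, -2016266],
    [0, 0, 0],
    [10000000, 0, 0]]]⟩

/-- The certificate. -/
def cert : List ℕ := [
  0x3353350013105335005031102]

/-- The check. -/
theorem ok : checkR 328 40 0 8 bx [p0, p1, p2] [267, 32, 37] (joinC cert)
    = true := by
  decide +kernel

end Pool.Agent.SDL.P4CB2

namespace Pool.Agent.SDL

open Pool.Agent.BPK

/-- The weight. -/
noncomputable def P4C_wt (t l : ℝ) : ℝ :=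
  1 - l * ((4.72 - 3.3 * t) / 0.175) - (0.0074 + 1.163 * (t - 1.15))

/-- The bound of the angle. -/
noncomputable def P4C_ph (l : ℝ) : ℝ := 1.00186 - 3.90759 * l + 1.4336 * l ^ 2

/-- The bound of the caps. -/
noncomputable def P4C_c8 (t l : ℝ) : ℝ :=
  1.20363 * (1 + l) * (t ^ 2 - 1.32955 - 0.986 * l) ^ 2
    * (0.283 + 2.474 * (t ^ 2 - 1.32955) - 1.03 * l)

/-- The slope in the variable `1 - κ`. -/
noncomputable def P4C_ga (t l : ℝ) : ℝ :=
  1.7390776 * (3.14159 / 3 * P4C_wt t l - P4C_ph l) + 2.0278 * (1 + l) * (1.65 - (1 + l) ^ 2)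

/-- The remaining part. -/
noncomputable def P4C_bs (t l e : ℝ) : ℝ :=
  3.14159 * (2 * t ^ 3 - 3 * t ^ 2 * (1 + l) + (1 + l) ^ 3) - 3.14159 / 3 * t ^ 3 * P4C_wt t l
    - P4C_c8 t l - e

theorem P4C_polyG {t l : ℝ} (ht1 : 1.1436 ≤ t) (ht2 : t ≤ 1.2) (hl0 : 0 ≤ l)
    (hl1 : l ≤ 0.18) : 0 < P4C_ga t l - 0.000004 := by
  have hb : P4CG.bx.In t l 0 := by
    unfold Box.In P4CG.bx
    push_cast
    norm_num at ht1 ht2 hl1
    refine ⟨⟨?_, ?_⟩, ⟨?_, ?_⟩, ⟨?_, ?_⟩⟩ <;> linarith
  obtain ⟨p, hp, hpos⟩ := checkR_spec _ _ _ _ P4CG.bx [P4CG.p0] _ _ (by norm_num)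
    (by norm_num) (by decide) P4CG.ok t l 0 hb
  simp only [List.mem_cons, List.not_mem_nil, or_false] at hp
  rw [hp] at hpos
  have e : P4CG.p0.ev t l 0 = 52500000000000000 * (P4C_ga t l - 0.000004) := by
    simp only [Poly.ev, P4CG.p0, ev3, ev2, ev1, P4C_ga, P4C_ph, P4C_wt]
    push_cast
    ring
  rw [e] at hpos
  linarith

theorem P4C_polyA {t l : ℝ} (ht1 : 1.1436 ≤ t) (ht2 : t ≤ 1.1756) (hl0 : 0 ≤ l)
    (hl1 : l ≤ 0.18) :
    0 < 0.75469 * (9 * t ^ 2 - 5 * t ^ 3 - 3) * (P4C_ga t l - 0.000004)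
      + P4C_bs t l 0.00102 := by
  have hb : P4CA.bx.In t l 0 := by
    unfold Box.In P4CA.bx
    push_cast
    norm_num at ht1 ht2 hl1
    refine ⟨⟨?_, ?_⟩, ⟨?_, ?_⟩, ⟨?_, ?_⟩⟩ <;> linarith
  obtain ⟨p, hp, hpos⟩ := checkR_spec _ _ _ _ P4CA.bx [P4CA.p0] _ _ (by norm_num)
    (by norm_num) (by decide) P4CA.ok t l 0 hb
  simp only [List.mem_cons, List.not_mem_nil, or_false] at hp
  rw [hp] at hpos
  have e : P4CA.p0.ev t l 0 = 14000000000000000000000 *
      (0.75469 * (9 * t ^ 2 - 5 * t ^ 3 - 3) * (P4C_ga t l - 0.000004)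
      + P4C_bs t l 0.00102) := by
    simp only [Poly.ev, P4CA.p0, ev3, ev2, ev1, P4C_ga, P4C_bs, P4C_c8, P4C_ph, P4C_wt]
    push_cast
    ring
  rw [e] at hpos
  linarith

theorem P4C_polyB1 {q t l : ℝ} (hq0 : 0 ≤ q) (hq1 : q ≤ 0.2275) (ht1 : 1.1755 ≤ t)
    (ht2 : t ≤ 1.1801) (hl0 : 0 ≤ l) (hl1 : l ≤ 0.18)
    (hc1 : 1.381966 + 0.201626 * q ^ 2 ≤ t ^ 2)
    (hc2 : t ^ 2 ≤ 1.3819661 + 0.2016266 * q ^ 2) :
    0 < (1 - 0.0578 * Kq q) * (P4C_ga t l - 0.000004)
      + (3.14159 / 3 * P4C_wt t l - P4C_ph l) * (0.253729 * q ^ 3) - 0.000002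
      + P4C_bs t l 0.00102 := by
  norm_num at hq0 hq1 ht1 ht2 hl1
  have hb : P4CB1.bx.In q t l := by
    unfold Box.In P4CB1.bx
    push_cast
    refine ⟨⟨?_, ?_⟩, ⟨?_, ?_⟩, ⟨?_, ?_⟩⟩ <;> linarith
  obtain ⟨p, hp, hpos⟩ := checkR_spec _ _ _ _ P4CB1.bx [P4CB1.p0, P4CB1.p1, P4CB1.p2] _ _
    (by norm_num) (by norm_num) (by decide) P4CB1.ok q t l hb
  simp only [List.mem_cons, List.not_mem_nil, or_false] at hp
  rcases hp with hp | hp | hp
  · rw [hp] at hpos
    have e : P4CB1.p0.ev q t l = 22050000000000000000000000 *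
        ((1 - 0.0578 * Kq q) * (P4C_ga t l - 0.000004)
        + (3.14159 / 3 * P4C_wt t l - P4C_ph l) * (0.253729 * q ^ 3) - 0.000002
        + P4C_bs t l 0.00102) := by
      simp only [Poly.ev, P4CB1.p0, ev3, ev2, ev1, P4C_ga, P4C_bs, P4C_c8, P4C_ph, P4C_wt, Kq]
      push_cast
      ring
    rw [e] at hpos
    linarith
  · rw [hp] at hpos
    exfalso
    have e : P4CB1.p1.ev q t l = 500000 * (1.381966 + 0.201626 * q ^ 2 - t ^ 2) := by
      simp only [Poly.ev, P4CB1.p1, ev3, ev2, ev1]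
      push_cast
      ring
    rw [e] at hpos
    linarith
  · rw [hp] at hpos
    exfalso
    have e : P4CB1.p2.ev q t l = 10000000 * (t ^ 2 - (1.3819661 + 0.2016266 * q ^ 2)) := by
      simp only [Poly.ev, P4CB1.p2, ev3, ev2, ev1]
      push_cast
      ring
    rw [e] at hpos
    linarith

theorem P4C_polyB2 {q t l : ℝ} (hq0 : 0.2274 ≤ q) (hq1 : q ≤ 0.5366) (ht1 : 1.1799 ≤ t)
    (ht2 : t ≤ 1.2) (hl0 : 0 ≤ l) (hl1 : l ≤ 0.18)
    (hc1 : 1.381966 + 0.201626 * q ^ 2 ≤ t ^ 2)
    (hc2 : t ^ 2 ≤ 1.3819661 + 0.2016266 * q ^ 2) :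
    0 < (1 - 0.0578 * Kq q) * (P4C_ga t l - 0.000004)
      + (3.14159 / 3 * P4C_wt t l - P4C_ph l) * (0.253729 * q ^ 3) - 0.000002
      + P4C_bs t l 0 := by
  norm_num at hq0 hq1 ht1 ht2 hl1
  have hb : P4CB2.bx.In q t l := by
    unfold Box.In P4CB2.bx
    push_cast
    refine ⟨⟨?_, ?_⟩, ⟨?_, ?_⟩, ⟨?_, ?_⟩⟩ <;> linarith
  obtain ⟨p, hp, hpos⟩ := checkR_spec _ _ _ _ P4CB2.bx [P4CB2.p0, P4CB2.p1, P4CB2.p2] _ _
    (by norm_num) (by norm_num) (by decide) P4CB2.ok q t l hb
  simp only [List.mem_cons, List.not_mem_nil, or_false] at hp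
  rcases hp with hp | hp | hp
  · rw [hp] at hpos
    have e : P4CB2.p0.ev q t l = 22050000000000000000000000 *
        ((1 - 0.0578 * Kq q) * (P4C_ga t l - 0.000004)
        + (3.14159 / 3 * P4C_wt t l - P4C_ph l) * (0.253729 * q ^ 3) - 0.000002
        + P4C_bs t l 0) := by
      simp only [Poly.ev, P4CB2.p0, ev3, ev2, ev1, P4C_ga, P4C_bs, P4C_c8, P4C_ph, P4C_wt, Kq]
      push_cast
      ring
    rw [e] at hpos
    linarith
  · rw [hp] at hpos
    exfalso
    have e : P4CB2.p1.ev q t l = 500000 * (1.381966 + 0.201626 * q ^ 2 - t ^ 2) := by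
      simp only [Poly.ev, P4CB2.p1, ev3, ev2, ev1]
      push_cast
      ring
    rw [e] at hpos
    linarith
  · rw [hp] at hpos
    exfalso
    have e : P4CB2.p2.ev q t l = 10000000 * (t ^ 2 - (1.3819661 + 0.2016266 * q ^ 2)) := by
      simp only [Poly.ev, P4CB2.p2, ev3, ev2, ev1]
      push_cast
      ring
    rw [e] at hpos
    linarith

end Pool.Agent.SDL
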