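import Pool.Agent.SDL.Targets3

set_option autoImplicit false

/-!
# SDL: the integral over four sides of a fixed shape, closed form
-/

open MeasureTheory Set Real

namespace Pool.Agent.SDL

open Pool.Agent.SDC

/-! ## The angle -/

/-- The angle. -/
noncomputable def P4C_a : ℝ := arccos √0.507

theorem P4C_cos : cos P4C_a = √0.507 := by
  apply Real.cos_arccos
  · linarith [Real.sqrt_nonneg 0.507]
  · rw [Real.sqrt_le_one]
    norm_num

theorem P4C_cos_sq : cos P4C_a ^ 2 = 0.507 := by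
  rw [P4C_cos, Real.sq_sqrt (by norm_num)]

theorem P4C_sin_sq : sin P4C_a ^ 2 = 0.493 := by
  have := Real.sin_sq_add_cos_sq P4C_a
  rw [P4C_cos_sq] at this
  norm_num at *
  linarith

theorem P4C_pos : 0 < P4C_a := by
  apply Real.arccos_pos.mpr
  rw [Real.sqrt_lt' one_pos]
  norm_num

theorem P4C_lt : P4C_a < π / 2 := by
  apply Real.arccos_lt_pi_div_two.mpr
  exact Real.sqrt_pos.mpr (by norm_num)

theorem P4C_tan_sq : tan P4C_a ^ 2 = 0.493 / 0.507 := by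
  rw [tan_eq_sin_div_cos, div_pow, P4C_cos_sq, P4C_sin_sq]

theorem P4C_tan_pos : 0 < tan P4C_a := tan_pos_of_pos_of_lt_pi_div_two P4C_pos P4C_lt

/-- The difference to `π / 4`. -/
theorem P4C_eps : 0.007 ≤ π / 4 - P4C_a := by
  have h1 : sin (2 * (π / 4 - P4C_a)) = 0.014 := by
    rw [show 2 * (π / 4 - P4C_a) = π / 2 - 2 * P4C_a by ring, sin_pi_div_two_sub, cos_two_mul,
      P4C_cos_sq]
    norm_num
  rcases le_or_gt 0 (2 * (π / 4 - P4C_a)) with h2 | h2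
  · have := Real.sin_le h2
    rw [h1] at this
    norm_num at *
    linarith
  · exfalso
    have h3 : sin (2 * (π / 4 - P4C_a)) < 0 := by
      apply Real.sin_neg_of_neg_of_neg_pi_lt h2
      have := P4C_lt
      linarith [Real.pi_pos]
    rw [h1] at h3
    norm_num at h3

theorem P4C_cpos {ψ : ℝ} (h : ψ ∈ Icc 0 P4C_a) : 0 < cos ψ := by
  apply cos_pos_of_mem_Ioo
  constructor
  · linarith [h.1, Real.pi_pos]
  · linarith [h.2, P4C_lt]

/-! ## The solid angle -/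

/-- The square of the denominator. -/
noncomputable def P4C_B (h u c : ℝ) : ℝ := h ^ 2 + (u ^ 2 - h ^ 2) * c

theorem P4C_B_pos {h u c : ℝ} (h0 : 0 < h) (hu : h < u) (hc : 0 < c) (ψ : ℝ) :
    0 < P4C_B h u c - (h * sin ψ) ^ 2 := by
  have h1 : 0 < u ^ 2 - h ^ 2 := by nlinarith
  have h2 : 0 < (u ^ 2 - h ^ 2) * c := mul_pos h1 hc
  have h3 : h ^ 2 * sin ψ ^ 2 ≤ h ^ 2 * 1 :=
    mul_le_mul_of_nonneg_left (sin_sq_le_one ψ) (by positivity)
  rw [P4C_B, mul_pow]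
  linarith

theorem P4C_B_pos0 {h u c : ℝ} (h0 : 0 < h) (hu : h < u) (hc : 0 < c) : 0 < P4C_B h u c := by
  have h1 := P4C_B_pos h0 hu hc 0
  rw [sin_zero, mul_zero] at h1
  linarith

theorem P4C_inv {h u c : ℝ} (h0 : 0 < h) (hu : h < u) (hc : 0 < c) {ψ : ℝ} (hψ : 0 < cos ψ) :
    h / √(h ^ 2 + (u ^ 2 - h ^ 2) * (c / cos ψ ^ 2)) =
      h * cos ψ / √(P4C_B h u c - (h * sin ψ) ^ 2) := by
  have h1 : h ^ 2 + (u ^ 2 - h ^ 2) * (c / cos ψ ^ 2) =
      (P4C_B h u c - (h * sin ψ) ^ 2) / cos ψ ^ 2 := by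
    rw [P4C_B, eq_div_iff (by positivity), add_mul, mul_assoc (u ^ 2 - h ^ 2),
      div_mul_cancel₀ _ (by positivity)]
    nlinarith [sin_sq_add_cos_sq ψ]
  rw [h1, Real.sqrt_div (P4C_B_pos h0 hu hc ψ).le, Real.sqrt_sq hψ.le, div_div_eq_mul_div]

theorem P4C_deriv {h u c : ℝ} (h0 : 0 < h) (hu : h < u) (hc : 0 < c) (ψ : ℝ) :
    HasDerivAt (fun x => arcsin (h * sin x / √(P4C_B h u c)))
      (h * cos ψ / √(P4C_B h u c - (h * sin ψ) ^ 2)) ψ := by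
  have hW := P4C_B_pos0 h0 hu hc
  have hs : 0 < √(P4C_B h u c) := Real.sqrt_pos.mpr hW
  have hq : (h * sin ψ / √(P4C_B h u c)) ^ 2 < 1 := by
    rw [div_pow, Real.sq_sqrt hW.le, div_lt_one hW]
    linarith [P4C_B_pos h0 hu hc ψ]
  have h1 : HasDerivAt (fun x => h * sin x / √(P4C_B h u c)) (h * cos ψ / √(P4C_B h u c)) ψ :=
    ((hasDerivAt_sin ψ).const_mul h).div_const _
  have h2 : HasDerivAt arcsin (1 / √(1 - (h * sin ψ / √(P4C_B h u c)) ^ 2))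
      (h * sin ψ / √(P4C_B h u c)) := by
    apply hasDerivAt_arcsin
    · intro h3
      rw [h3] at hq
      norm_num at hq
    · intro h3
      rw [h3] at hq
      norm_num at hq
  have h3 := h2.comp ψ h1
  have h4 : 1 / √(1 - (h * sin ψ / √(P4C_B h u c)) ^ 2) * (h * cos ψ / √(P4C_B h u c)) =
      h * cos ψ / √(P4C_B h u c - (h * sin ψ) ^ 2) := by
    have h5 : 1 - (h * sin ψ / √(P4C_B h u c)) ^ 2 =
        (P4C_B h u c - (h * sin ψ) ^ 2) / P4C_B h u c := by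
      rw [div_pow, Real.sq_sqrt hW.le, sub_div, div_self hW.ne']
    rw [h5, Real.sqrt_div (P4C_B_pos h0 hu hc ψ).le]
    have h6 : 0 < √(P4C_B h u c - (h * sin ψ) ^ 2) := Real.sqrt_pos.mpr (P4C_B_pos h0 hu hc ψ)
    field_simp
  rw [h4] at h3
  exact h3

theorem P4C_cont {h u c : ℝ} (h0 : 0 < h) (hu : h < u) (hc : 0 < c) :
    Continuous fun ψ : ℝ => h * cos ψ / √(P4C_B h u c - (h * sin ψ) ^ 2) := by
  apply Continuous.div
  · fun_prop
  · fun_prop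
  · intro ψ
    exact (Real.sqrt_pos.mpr (P4C_B_pos h0 hu hc ψ)).ne'

/-- The solid angle of a right triangle. -/
theorem P4C_omg {h u b : ℝ} (h0 : 0 < h) (hu : h < u) (hb0 : 0 ≤ b) (hb1 : b < π / 2) :
    ∫ ψ in (0 : ℝ)..b, h / √(h ^ 2 + (u ^ 2 - h ^ 2) * (cos b ^ 2 / cos ψ ^ 2)) =
      arctan (h * tan b / u) := by
  have hu0 : 0 < u := h0.trans hu
  have hcb : 0 < cos b := cos_pos_of_mem_Ioo ⟨by linarith [Real.pi_pos], hb1⟩
  have hc : 0 < cos b ^ 2 := by positivity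
  have hend : arcsin (h * sin b / √(P4C_B h u (cos b ^ 2))) = arctan (h * tan b / u) := by
    have h1 : 1 + (h * tan b / u) ^ 2 = P4C_B h u (cos b ^ 2) / (u * cos b) ^ 2 := by
      have h2 : P4C_B h u (cos b ^ 2) = (u * cos b) ^ 2 + (h * sin b) ^ 2 := by
        rw [P4C_B, mul_pow, mul_pow]
        linear_combination (-(h ^ 2)) * sin_sq_add_cos_sq b
      rw [h2, tan_eq_sin_div_cos, add_div, div_self (by positivity)]
      congr 1
      rw [← div_pow]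
      congr 1
      field_simp
    rw [arctan_eq_arcsin, h1, Real.sqrt_div (P4C_B_pos0 h0 hu hc).le,
      Real.sqrt_sq (by positivity), tan_eq_sin_div_cos]
    congr 1
    have hs : 0 < √(P4C_B h u (cos b ^ 2)) := Real.sqrt_pos.mpr (P4C_B_pos0 h0 hu hc)
    field_simp
  have h1 : ∫ ψ in (0 : ℝ)..b, h / √(h ^ 2 + (u ^ 2 - h ^ 2) * (cos b ^ 2 / cos ψ ^ 2)) =
      ∫ ψ in (0 : ℝ)..b, h * cos ψ / √(P4C_B h u (cos b ^ 2) - (h * sin ψ) ^ 2) := by
    apply intervalIntegral.integral_congr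
    intro ψ hψ
    rw [uIcc_of_le hb0] at hψ
    exact P4C_inv h0 hu hc (cos_pos_of_mem_Ioo ⟨by linarith [hψ.1, Real.pi_pos],
      by linarith [hψ.2]⟩)
  rw [h1, intervalIntegral.integral_eq_sub_of_hasDerivAt (fun ψ _ => P4C_deriv h0 hu hc ψ)
    ((P4C_cont h0 hu hc).intervalIntegrable _ _), hend, sin_zero, mul_zero, zero_div,
    arcsin_zero, sub_zero]

/-! ## The caps -/

/-- The integral of the caps. -/
theorem P4C_cap {s a b : ℝ} (ha : 0 < a) (hb0 : 0 ≤ b) (hb1 : b < π / 2) (hs : 0 ≤ s) :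
    ∫ ψ in (0 : ℝ)..b, (max (s - a ^ 2 * tan ψ ^ 2) 0) ^ 2 ≤
      8 / 15 * (s ^ 2 * (√s / a)) * (1 - s / a ^ 2 / 7 + (s / a ^ 2) ^ 2 / 21) := by
  have hss : √s ^ 2 = s := Real.sq_sqrt hs
  set x1 := √s / a with hx1
  have hx0 : 0 ≤ x1 := by positivity
  have hx2 : x1 ^ 2 = s / a ^ 2 := by rw [hx1, div_pow, hss]
  have hsx : s = a ^ 2 * x1 ^ 2 := by
    rw [hx2]
    field_simp
  set b1 := arctan x1 with hb1'
  have hb10 : 0 ≤ b1 := arctan_nonneg.mpr hx0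
  have hb12 : b1 < π / 2 := arctan_lt_pi_div_two x1
  have htan : tan b1 = x1 := tan_arctan x1
  set f : ℝ → ℝ := fun ψ => (max (s - a ^ 2 * tan ψ ^ 2) 0) ^ 2 with hf
  have hcos : ∀ ψ, 0 ≤ ψ → ψ < π / 2 → 0 < cos ψ := fun ψ h1 h2 =>
    cos_pos_of_mem_Ioo ⟨by linarith [Real.pi_pos], h2⟩
  have hfc : ∀ c, 0 ≤ c → c < π / 2 → ContinuousOn f (uIcc 0 c) := by
    intro c hc0 hc1
    rw [uIcc_of_le hc0]
    intro ψ hψ
    have h1 : ContinuousAt tan ψ := (Real.continuousAt_tan).mpr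
      (hcos ψ hψ.1 (by linarith [hψ.2])).ne'
    have h2 : ContinuousAt (fun ψ => s - a ^ 2 * tan ψ ^ 2) ψ :=
      continuousAt_const.sub (continuousAt_const.mul (h1.pow 2))
    have h3 : ContinuousAt (fun ψ => max (s - a ^ 2 * tan ψ ^ 2) 0) ψ :=
      Filter.Tendsto.max h2 continuousAt_const
    exact (h3.pow 2).continuousWithinAt
  have hfi : ∀ c, 0 ≤ c → c < π / 2 → IntervalIntegrable f volume 0 c := fun c h1 h2 =>
    (hfc c h1 h2).intervalIntegrable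
  have hf0 : ∀ ψ, 0 ≤ f ψ := fun ψ => sq_nonneg _
  -- the integral to `b1`
  have hI : ∫ ψ in (0 : ℝ)..b1, f ψ ≤
      8 / 15 * (s ^ 2 * x1) * (1 - x1 ^ 2 / 7 + (x1 ^ 2) ^ 2 / 21) := by
    set P : ℝ → ℝ := fun x => s ^ 2 * (x - x ^ 3 / 3 + x ^ 5 / 5)
      - 2 * s * a ^ 2 * (x ^ 3 / 3 - x ^ 5 / 5 + x ^ 7 / 7)
      + a ^ 4 * (x ^ 5 / 5 - x ^ 7 / 7 + x ^ 9 / 9) with hP
    have hPd : ∀ x, HasDerivAt P ((s - a ^ 2 * x ^ 2) ^ 2 * (1 - x ^ 2 + x ^ 4)) x := by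
      intro x
      have h1 := hasDerivAt_id' x
      have h3 := hasDerivAt_pow 3 x
      have h5 := hasDerivAt_pow 5 x
      have h7 := hasDerivAt_pow 7 x
      have h9 := hasDerivAt_pow 9 x
      have h := ((((h1.sub (h3.div_const 3)).add (h5.div_const 5)).const_mul (s ^ 2)).sub
        ((((h3.div_const 3).sub (h5.div_const 5)).add (h7.div_const 7)).const_mul
          (2 * s * a ^ 2))).add
        ((((h5.div_const 5).sub (h7.div_const 7)).add (h9.div_const 9)).const_mul (a ^ 4))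
      refine h.congr_deriv ?_
      norm_num
      ring
    have hg : ∀ ψ ∈ uIcc 0 b1, HasDerivAt (fun y => P (tan y))
        ((s - a ^ 2 * tan ψ ^ 2) ^ 2 * (1 - tan ψ ^ 2 + tan ψ ^ 4) * (1 / cos ψ ^ 2)) ψ := by
      intro ψ hψ
      rw [uIcc_of_le hb10] at hψ
      have hc := hcos ψ hψ.1 (by linarith [hψ.2])
      exact (hPd (tan ψ)).comp ψ (Real.hasDerivAt_tan hc.ne')
    have hgc : ContinuousOn (fun ψ => (s - a ^ 2 * tan ψ ^ 2) ^ 2 * (1 - tan ψ ^ 2 + tan ψ ^ 4)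
        * (1 / cos ψ ^ 2)) (uIcc 0 b1) := by
      rw [uIcc_of_le hb10]
      intro ψ hψ
      have hc := hcos ψ hψ.1 (by linarith [hψ.2])
      have h1 : ContinuousAt tan ψ := (Real.continuousAt_tan).mpr hc.ne'
      apply ContinuousAt.continuousWithinAt
      have h2 : ContinuousAt (fun ψ => 1 / cos ψ ^ 2) ψ :=
        continuousAt_const.div (Real.continuous_cos.continuousAt.pow 2) (by positivity)
      have h3 : ContinuousAt (fun ψ => (s - a ^ 2 * tan ψ ^ 2) ^ 2) ψ :=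
        (continuousAt_const.sub (continuousAt_const.mul (h1.pow 2))).pow 2
      have h4 : ContinuousAt (fun ψ => 1 - tan ψ ^ 2 + tan ψ ^ 4) ψ :=
        (continuousAt_const.sub (h1.pow 2)).add (h1.pow 4)
      exact (h3.mul h4).mul h2
    have hint := intervalIntegral.integral_eq_sub_of_hasDerivAt hg hgc.intervalIntegrable
    have hval : P (tan b1) - P (tan 0) =
        8 / 15 * (s ^ 2 * x1) * (1 - x1 ^ 2 / 7 + (x1 ^ 2) ^ 2 / 21) := by
      rw [htan, tan_zero, hP]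
      simp only
      rw [hsx]
      ring
    rw [← hval, ← hint]
    apply intervalIntegral.integral_mono_on hb10 (hfi b1 hb10 hb12) hgc.intervalIntegrable
    intro ψ hψ
    have hc := hcos ψ hψ.1 (by linarith [hψ.2])
    have h1 : 1 / cos ψ ^ 2 = 1 + tan ψ ^ 2 := by
      rw [tan_eq_sin_div_cos]
      field_simp
      linarith [Real.sin_sq_add_cos_sq ψ]
    have h2 : 1 ≤ (1 - tan ψ ^ 2 + tan ψ ^ 4) * (1 / cos ψ ^ 2) := by
      rw [h1]
      nlinarith [sq_nonneg (tan ψ ^ 3)]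
    have h3 : f ψ ≤ (s - a ^ 2 * tan ψ ^ 2) ^ 2 := by
      rw [hf]
      simp only
      rcases max_cases (s - a ^ 2 * tan ψ ^ 2) 0 with ⟨h, _⟩ | ⟨h, _⟩
      · rw [h]
      · rw [h]
        nlinarith [sq_nonneg (s - a ^ 2 * tan ψ ^ 2)]
    calc f ψ ≤ (s - a ^ 2 * tan ψ ^ 2) ^ 2 := h3
      _ = (s - a ^ 2 * tan ψ ^ 2) ^ 2 * 1 := by ring
      _ ≤ (s - a ^ 2 * tan ψ ^ 2) ^ 2 * ((1 - tan ψ ^ 2 + tan ψ ^ 4) * (1 / cos ψ ^ 2)) :=
          mul_le_mul_of_nonneg_left h2 (sq_nonneg _)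
      _ = _ := by ring
  rw [← hx2]
  refine le_trans ?_ hI
  rcases le_total b b1 with h | h
  · apply intervalIntegral.integral_mono_interval le_rfl hb0 h _ (hfi b1 hb10 hb12)
    exact Filter.Eventually.of_forall hf0
  · have h1 : ∫ ψ in b1..b, f ψ = 0 := by
      rw [show (0 : ℝ) = ∫ ψ in b1..b, (0 : ℝ) by simp]
      apply intervalIntegral.integral_congr
      intro ψ hψ
      rw [uIcc_of_le h] at hψ
      have h2 : x1 ≤ tan ψ := by
        rw [← htan]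
        rcases eq_or_lt_of_le hψ.1 with h3 | h3
        · rw [h3]
        · exact (Real.tan_lt_tan_of_lt_of_lt_pi_div_two (by linarith [Real.pi_pos])
            (by linarith [hψ.2]) h3).le
      have h4 : s - a ^ 2 * tan ψ ^ 2 ≤ 0 := by
        rw [hsx]
        have : x1 ^ 2 ≤ tan ψ ^ 2 := pow_le_pow_left₀ hx0 h2 2
        nlinarith [sq_nonneg a]
      rw [hf]
      simp only
      rw [max_eq_right h4]
      ring
    have h2 : IntervalIntegrable f volume b1 b := by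
      apply ContinuousOn.intervalIntegrable
      apply (hfc b hb0 hb1).mono
      rw [uIcc_of_le h, uIcc_of_le hb0]
      exact Icc_subset_Icc_left hb10
    rw [← intervalIntegral.integral_add_adjacent_intervals (hfi b1 hb10 hb12) h2, h1, add_zero]

/-! ## The lower bound of `bb` -/

/-- The function `bb` from below, with the cap. -/
theorem P4C_bb {t ρ K : ℝ} (ht : 0 < t) (hρ : 0 < ρ) (hK0 : 0 ≤ K) (hK : 3 ≤ 8 * K * ρ ^ 2) :
    (1 - kap t) * (ρ ^ 2 / 2) + (t ^ 3 + bet t) * (1 / ρ) - 3 / 2 * t ^ 2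
      - K * (max (t ^ 2 - ρ ^ 2) 0) ^ 2 ≤ bb t ρ := by
  rcases le_or_gt t ρ with h | h
  · have h1 : max (t ^ 2 - ρ ^ 2) 0 = 0 := max_eq_right (by nlinarith)
    rw [h1, bb, p_BF.2.2 t ρ ht h]
    have : (t ^ 3 + bet t) * (1 / ρ) = t ^ 3 / ρ + bet t / ρ := by ring
    rw [this]
    nlinarith
  · have h1 : max (t ^ 2 - ρ ^ 2) 0 = t ^ 2 - ρ ^ 2 := max_eq_left (by nlinarith)
    have h2 : Bf t ρ = 0 := by rw [Bf, if_pos h.le]
    rw [h1, bb, h2]
    have h3 : ρ ^ 2 / 2 + t ^ 3 / ρ - 3 / 2 * t ^ 2 = (t - ρ) ^ 2 * (ρ + 2 * t) / (2 * ρ) := by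
      field_simp
      ring
    have h4 : (t - ρ) ^ 2 * (ρ + 2 * t) / (2 * ρ) ≤ K * (t ^ 2 - ρ ^ 2) ^ 2 := by
      rw [div_le_iff₀ (by positivity)]
      have h5 : ρ + 2 * t ≤ K * (t + ρ) ^ 2 * (2 * ρ) := by
        obtain ⟨d, rfl⟩ : ∃ d, t = ρ + d := ⟨t - ρ, by ring⟩
        have hd : 0 < d := by linarith
        have e1 : 0 ≤ ρ * (8 * K * ρ ^ 2 - 3) := mul_nonneg hρ.le (by linarith)
        have e2 : 0 ≤ d * (8 * K * ρ ^ 2 - 2) := mul_nonneg hd.le (by linarith)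
        have e3 : 0 ≤ 2 * K * ρ * d ^ 2 := by positivity
        nlinarith
      have h6 := mul_le_mul_of_nonneg_left h5 (sq_nonneg (t - ρ))
      nlinarith
    have h5 : (t ^ 3 + bet t) * (1 / ρ) = t ^ 3 / ρ + bet t / ρ := by ring
    rw [h5]
    nlinarith

/-- The square of the distance. -/
noncomputable def P4C_w (Y ψ : ℝ) : ℝ :=
  Y * (1 - 0.507 / cos ψ ^ 2) + 33 / 20 * (0.507 / cos ψ ^ 2)

theorem P4C_w_eq (Y : ℝ) {ψ : ℝ} (h : 0 < cos ψ) :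
    P4C_w Y ψ = 0.493 * Y + 0.83655 + 0.507 * (33 / 20 - Y) * tan ψ ^ 2 := by
  have h1 : 1 / cos ψ ^ 2 = 1 + tan ψ ^ 2 := by
    rw [tan_eq_sin_div_cos]
    field_simp
    linarith [Real.sin_sq_add_cos_sq ψ]
  rw [P4C_w, div_eq_mul_one_div, h1]
  ring

theorem P4C_w_lo {Y : ℝ} (hY : Y ≤ 33 / 20) {ψ : ℝ} (h : 0 < cos ψ) :
    0.493 * Y + 0.83655 ≤ P4C_w Y ψ := by
  rw [P4C_w_eq Y h]
  have : 0 ≤ 0.507 * (33 / 20 - Y) * tan ψ ^ 2 := by
    apply mul_nonneg _ (sq_nonneg _)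
    apply mul_nonneg (by norm_num)
    linarith
  linarith

theorem P4C_w_cont (Y : ℝ) {ψ : ℝ} (h : 0 < cos ψ) : ContinuousAt (P4C_w Y) ψ := by
  have h1 : ContinuousAt (fun ψ => 0.507 / cos ψ ^ 2) ψ :=
    continuousAt_const.div (Real.continuous_cos.continuousAt.pow 2) (by positivity)
  unfold P4C_w
  exact (continuousAt_const.mul (continuousAt_const.sub h1)).add (continuousAt_const.mul h1)

/-- The integral of the caps. -/
noncomputable def P4C_C (t Y : ℝ) : ℝ :=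
  ∫ ψ in (0 : ℝ)..P4C_a, (max (t ^ 2 - P4C_w Y ψ) 0) ^ 2

/-- The closed form. -/
theorem P4C_IP {t h K : ℝ} (ht0 : 0 < t) (htu : t ≤ RP) (hh1 : 1 ≤ h) (hhu : h < RP)
    (hK0 : 0 ≤ K) (hK : 3 ≤ 8 * K * (0.493 * h ^ 2 + 0.83655)) :
    2 * π * bet t - π * kap t * h ^ 3 - h * ((2 * π - 8 * P4C_a) * bb t RP
      + 8 * ∫ ψ in (0 : ℝ)..P4C_a, bb t √(P4C_w (h ^ 2) ψ)) ≤
    (t ^ 3 + bet t) * (2 * π - 8 * (arctan (h * tan P4C_a / RP) + (π / 4 - P4C_a) * h / RP))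
      - π * ((t - h) ^ 2 * (h + 2 * t))
      - 4 * (1 - kap t) * h * (33 / 20 - h ^ 2) * ((π / 4 - P4C_a) + 0.507 * tan P4C_a)
      + 8 * h * (K * P4C_C t (h ^ 2)) := by
  have hh0 : 0 < h := by linarith
  have hRP := RP_sq
  have hRP0 := RP_pos
  have hY : h ^ 2 < 33 / 20 := by
    rw [← hRP]
    exact pow_lt_pow_left₀ hhu hh0.le (by norm_num)
  have hw0 : ∀ ψ ∈ Icc 0 P4C_a, 0 < P4C_w (h ^ 2) ψ := by
    intro ψ hψ
    have := P4C_w_lo hY.le (P4C_cpos hψ)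
    have h1 : 0 < 0.493 * h ^ 2 + 0.83655 := by positivity
    linarith
  have hwc : ContinuousOn (P4C_w (h ^ 2)) (uIcc 0 P4C_a) := by
    rw [uIcc_of_le P4C_pos.le]
    exact fun ψ hψ => (P4C_w_cont _ (P4C_cpos hψ)).continuousWithinAt
  have hsc : ContinuousOn (fun ψ => √(P4C_w (h ^ 2) ψ)) (uIcc 0 P4C_a) := hwc.sqrt
  have hw0' : ∀ ψ ∈ uIcc 0 P4C_a, 0 < P4C_w (h ^ 2) ψ := by
    rw [uIcc_of_le P4C_pos.le]
    exact hw0
  have hic : ContinuousOn (fun ψ => 1 / √(P4C_w (h ^ 2) ψ)) (uIcc 0 P4C_a) :=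
    continuousOn_const.div hsc fun ψ hψ => (Real.sqrt_pos.mpr (hw0' ψ hψ)).ne'
  have hmc : ContinuousOn (fun ψ => (max (t ^ 2 - P4C_w (h ^ 2) ψ) 0) ^ 2) (uIcc 0 P4C_a) := by
    intro ψ hψ
    have h1 : ContinuousWithinAt (fun ψ => t ^ 2 - P4C_w (h ^ 2) ψ) (uIcc 0 P4C_a) ψ :=
      continuousWithinAt_const.sub (hwc ψ hψ)
    have h2 : ContinuousWithinAt (fun ψ => max (t ^ 2 - P4C_w (h ^ 2) ψ) 0) (uIcc 0 P4C_a) ψ :=
      Filter.Tendsto.max h1 continuousWithinAt_const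
    exact h2.pow 2
  have hbc : ContinuousOn (fun ψ => bb t √(P4C_w (h ^ 2) ψ)) (uIcc 0 P4C_a) := by
    have hB : ContinuousOn (fun ψ => Bf t √(P4C_w (h ^ 2) ψ)) (uIcc 0 P4C_a) := by
      intro ψ hψ
      have h1 : ContinuousAt (Bf t) √(P4C_w (h ^ 2) ψ) :=
        (p_BF.2.1 t _ ht0 (Real.sqrt_pos.mpr (hw0' ψ hψ))).continuousAt
      exact ContinuousAt.comp_continuousWithinAt (g := Bf t)
        (f := fun ψ => √(P4C_w (h ^ 2) ψ)) h1 (hsc ψ hψ)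
    unfold bb
    apply ContinuousOn.sub
    · apply hB.add
      exact continuousOn_const.div hsc fun ψ hψ => (Real.sqrt_pos.mpr (hw0' ψ hψ)).ne'
    · exact (continuousOn_const.mul (hsc.pow 2)).div_const 2
  -- the four integrals
  have iw := hwc.intervalIntegrable (μ := volume)
  have ii := hic.intervalIntegrable (μ := volume)
  have im := hmc.intervalIntegrable (μ := volume)
  have ib := hbc.intervalIntegrable (μ := volume)
  have hI1 : ∫ ψ in (0 : ℝ)..P4C_a, P4C_w (h ^ 2) ψ =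
      h ^ 2 * P4C_a + 0.507 * (33 / 20 - h ^ 2) * tan P4C_a := by
    have h1 : ∀ ψ ∈ uIcc 0 P4C_a, HasDerivAt (fun x => h ^ 2 * x
        + 0.507 * (33 / 20 - h ^ 2) * tan x) (P4C_w (h ^ 2) ψ) ψ := by
      intro ψ hψ
      rw [uIcc_of_le P4C_pos.le] at hψ
      have h2 := (hasDerivAt_id' ψ).const_mul (h ^ 2)
      have h3 := (Real.hasDerivAt_tan (P4C_cpos hψ).ne').const_mul (0.507 * (33 / 20 - h ^ 2))
      refine (h2.add h3).congr_deriv ?_
      rw [P4C_w]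
      ring
    rw [intervalIntegral.integral_eq_sub_of_hasDerivAt h1 iw, tan_zero]
    ring
  have hI2 : ∫ ψ in (0 : ℝ)..P4C_a, 1 / √(P4C_w (h ^ 2) ψ) = arctan (h * tan P4C_a / RP) / h := by
    rw [← P4C_omg hh0 hhu P4C_pos.le P4C_lt, eq_div_iff hh0.ne', mul_comm,
      ← intervalIntegral.integral_const_mul]
    apply intervalIntegral.integral_congr
    intro ψ hψ
    simp only
    rw [P4C_w, P4C_cos_sq, hRP, mul_one_div]
    congr 2
    ring
  have hmono : ∫ ψ in (0 : ℝ)..P4C_a, ((1 - kap t) / 2 * P4C_w (h ^ 2) ψ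
      + (t ^ 3 + bet t) * (1 / √(P4C_w (h ^ 2) ψ)) - 3 / 2 * t ^ 2
      - K * (max (t ^ 2 - P4C_w (h ^ 2) ψ) 0) ^ 2) ≤
      ∫ ψ in (0 : ℝ)..P4C_a, bb t √(P4C_w (h ^ 2) ψ) := by
    apply intervalIntegral.integral_mono_on P4C_pos.le _ ib
    · intro ψ hψ
      have h1 := hw0 ψ hψ
      have h2 : √(P4C_w (h ^ 2) ψ) ^ 2 = P4C_w (h ^ 2) ψ := Real.sq_sqrt h1.le
      have h3 : 3 ≤ 8 * K * √(P4C_w (h ^ 2) ψ) ^ 2 := by
        rw [h2]
        have h4 := P4C_w_lo hY.le (P4C_cpos hψ)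
        have h5 : 8 * K * (0.493 * h ^ 2 + 0.83655) ≤ 8 * K * P4C_w (h ^ 2) ψ :=
          mul_le_mul_of_nonneg_left h4 (by positivity)
        linarith
      have h4 := P4C_bb ht0 (Real.sqrt_pos.mpr h1) hK0 h3
      rw [h2] at h4
      linarith
    · exact (((iw.const_mul _).add (ii.const_mul _)).sub intervalIntegrable_const).sub
        (im.const_mul _)
  have hsplit : ∫ ψ in (0 : ℝ)..P4C_a, ((1 - kap t) / 2 * P4C_w (h ^ 2) ψ
      + (t ^ 3 + bet t) * (1 / √(P4C_w (h ^ 2) ψ)) - 3 / 2 * t ^ 2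
      - K * (max (t ^ 2 - P4C_w (h ^ 2) ψ) 0) ^ 2) =
      (1 - kap t) / 2 * (h ^ 2 * P4C_a + 0.507 * (33 / 20 - h ^ 2) * tan P4C_a)
      + (t ^ 3 + bet t) * (arctan (h * tan P4C_a / RP) / h) - 3 / 2 * t ^ 2 * P4C_a
      - K * P4C_C t (h ^ 2) := by
    rw [intervalIntegral.integral_sub (((iw.const_mul _).add (ii.const_mul _)).sub
      intervalIntegrable_const) (im.const_mul _), intervalIntegral.integral_sub
      ((iw.const_mul _).add (ii.const_mul _)) intervalIntegrable_const,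
      intervalIntegral.integral_add (iw.const_mul _) (ii.const_mul _)]
    simp only [intervalIntegral.integral_const_mul, intervalIntegral.integral_const, smul_eq_mul]
    rw [hI1, hI2, P4C_C]
    ring
  rw [hsplit] at hmono
  have hbR : bb t RP = (1 - kap t) * (33 / 40) + (t ^ 3 + bet t) / RP - 3 / 2 * t ^ 2 := by
    rw [bb, p_BF.2.2 t RP ht0 htu, hRP]
    ring
  have hm2 := mul_le_mul_of_nonneg_left hmono (show (0 : ℝ) ≤ 8 * h by positivity)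
  have e1 : 8 * h * ((1 - kap t) / 2 * (h ^ 2 * P4C_a
        + 0.507 * (33 / 20 - h ^ 2) * tan P4C_a)
      + (t ^ 3 + bet t) * (arctan (h * tan P4C_a / RP) / h) - 3 / 2 * t ^ 2 * P4C_a
      - K * P4C_C t (h ^ 2)) =
      4 * (1 - kap t) * h * (h ^ 2 * P4C_a + 0.507 * (33 / 20 - h ^ 2) * tan P4C_a)
      + 8 * (t ^ 3 + bet t) * arctan (h * tan P4C_a / RP) - 12 * h * t ^ 2 * P4C_a
      - 8 * h * (K * P4C_C t (h ^ 2)) := by
    field_simp
    ring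
  rw [e1] at hm2
  rw [hbR]
  have e2 : (t ^ 3 + bet t) / RP = (t ^ 3 + bet t) * (1 / RP) := by ring
  have e3 : (π / 4 - P4C_a) * h / RP = (π / 4 - P4C_a) * h * (1 / RP) := by ring
  rw [e2, e3]
  nlinarith [hm2]

/-! ## The integral of the caps -/

theorem P4C_C_eq {t Y : ℝ} (hY : Y < 33 / 20) :
    P4C_C t Y = ∫ ψ in (0 : ℝ)..P4C_a, (max (t ^ 2 - (0.493 * Y + 0.83655)
      - √(0.507 * (33 / 20 - Y)) ^ 2 * tan ψ ^ 2) 0) ^ 2 := by
  have h1 : 0 ≤ 0.507 * (33 / 20 - Y) := mul_nonneg (by norm_num) (by linarith)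
  apply intervalIntegral.integral_congr
  intro ψ hψ
  rw [uIcc_of_le P4C_pos.le] at hψ
  simp only
  rw [P4C_w_eq Y (P4C_cpos hψ), Real.sq_sqrt h1]
  congr 2
  ring

theorem P4C_C_nonneg (t Y : ℝ) : 0 ≤ P4C_C t Y :=
  intervalIntegral.integral_nonneg P4C_pos.le fun _ _ => sq_nonneg _

/-- The caps are empty. -/
theorem P4C_C_zero {t Y : ℝ} (hY : Y < 33 / 20) (hs : t ^ 2 ≤ 0.493 * Y + 0.83655) :
    P4C_C t Y = 0 := by
  have h0 : P4C_C t Y = ∫ ψ in (0 : ℝ)..P4C_a, (0 : ℝ) := by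
    apply intervalIntegral.integral_congr
    intro ψ hψ
    rw [uIcc_of_le P4C_pos.le] at hψ
    have h1 := P4C_w_lo hY.le (P4C_cpos hψ)
    simp only
    rw [max_eq_right (by linarith)]
    norm_num
  rw [h0]
  simp

/-- The bound of the caps. -/
theorem P4C_C_le {t Y : ℝ} (hY : Y < 33 / 20) (hs : 0.493 * Y + 0.83655 ≤ t ^ 2) :
    P4C_C t Y ≤ 8 / 15 * ((t ^ 2 - (0.493 * Y + 0.83655)) ^ 2 *
      (√(t ^ 2 - (0.493 * Y + 0.83655)) / √(0.507 * (33 / 20 - Y)))) *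
      (1 - (t ^ 2 - (0.493 * Y + 0.83655)) / (0.507 * (33 / 20 - Y)) / 7
        + ((t ^ 2 - (0.493 * Y + 0.83655)) / (0.507 * (33 / 20 - Y))) ^ 2 / 21) := by
  have h1 : 0 < 0.507 * (33 / 20 - Y) := mul_pos (by norm_num) (by linarith)
  have h2 := P4C_cap (s := t ^ 2 - (0.493 * Y + 0.83655)) (Real.sqrt_pos.mpr h1) P4C_pos.le
    P4C_lt (by linarith)
  rw [P4C_C_eq hY]
  rw [Real.sq_sqrt h1.le] at h2 ⊢
  exact h2

/-- The bound with the square root `r` of `s / a²`. -/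
theorem P4C_C_le' {t Y : ℝ} (hY : Y < 33 / 20) (hs : 0.493 * Y + 0.83655 ≤ t ^ 2) :
    ∃ r : ℝ, 0 ≤ r ∧ r ^ 2 * (0.507 * (33 / 20 - Y)) = t ^ 2 - (0.493 * Y + 0.83655) ∧
      P4C_C t Y ≤ 8 / 15 * (t ^ 2 - (0.493 * Y + 0.83655)) ^ 2 *
        (r - r ^ 3 / 7 + r ^ 5 / 21) := by
  have h1 : 0 < 0.507 * (33 / 20 - Y) := mul_pos (by norm_num) (by linarith)
  have h2 : 0 ≤ t ^ 2 - (0.493 * Y + 0.83655) := by linarith
  refine ⟨√(t ^ 2 - (0.493 * Y + 0.83655)) / √(0.507 * (33 / 20 - Y)), by positivity, ?_, ?_⟩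
  · rw [div_pow, Real.sq_sqrt h1.le, Real.sq_sqrt h2, div_mul_cancel₀ _ h1.ne']
  · refine (P4C_C_le hY hs).trans_eq ?_
    set r := √(t ^ 2 - (0.493 * Y + 0.83655)) / √(0.507 * (33 / 20 - Y)) with hr
    have h3 : (t ^ 2 - (0.493 * Y + 0.83655)) / (0.507 * (33 / 20 - Y)) = r ^ 2 := by
      rw [hr, div_pow, Real.sq_sqrt h1.le, Real.sq_sqrt h2]
    rw [h3]
    ring

end Pool.Agent.SDL
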