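import Pool.Agent.SDL.P4C_Int
import Pool.Agent.SDL.P4C_Cert

set_option autoImplicit false

/-!
# SDL: the facets with four sides for `1.1436 ≤ t ≤ 1.2` (numerical part)
-/

open MeasureTheory Set Real

namespace Pool.Agent.SDL

open Pool.Agent.SDC

/-! ## The angle -/

theorem P4C_atn {x : ℝ} (hx : 0 ≤ x) : arctan x ≤ x - x ^ 3 / 3 + x ^ 5 / 5 := by
  have hd : ∀ y : ℝ, HasDerivAt (fun y => y - y ^ 3 / 3 + y ^ 5 / 5 - arctan y)
      (y ^ 6 / (1 + y ^ 2)) y := by
    intro y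
    have h1 := hasDerivAt_id' y
    have h3 := hasDerivAt_pow 3 y
    have h5 := hasDerivAt_pow 5 y
    have h := ((h1.sub (h3.div_const 3)).add (h5.div_const 5)).sub (hasDerivAt_arctan y)
    refine h.congr_deriv ?_
    have : (1 : ℝ) + y ^ 2 ≠ 0 := by positivity
    field_simp
    ring
  have hm : Monotone (fun y : ℝ => y - y ^ 3 / 3 + y ^ 5 / 5 - arctan y) := by
    apply monotone_of_deriv_nonneg (fun y => (hd y).differentiableAt)
    intro y
    rw [(hd y).deriv]
    positivity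
  have h := hm hx
  simp only [arctan_zero] at h
  norm_num at h
  linarith

/-- The quotient `tan / RP`. -/
theorem P4C_k : 0.767675 < tan P4C_a / RP ∧ tan P4C_a / RP < 0.7676753 := by
  have h1 : (tan P4C_a / RP) ^ 2 = 0.493 / 0.507 / (33 / 20) := by
    rw [div_pow, P4C_tan_sq, RP_sq]
  have h2 : 0 < tan P4C_a / RP := div_pos P4C_tan_pos RP_pos
  constructor
  · nlinarith
  · nlinarith

theorem P4C_phi_le {h : ℝ} (h1 : 1 ≤ h) (h2 : h ≤ 1.18) :
    2 * π - 8 * (arctan (h * tan P4C_a / RP) + (π / 4 - P4C_a) * h / RP) ≤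
      P4C_ph (h - 1) := by
  obtain ⟨k1, k2⟩ := P4C_k
  set k := tan P4C_a / RP with hk
  have hk0 : 0 < k := by linarith
  have ek : h * tan P4C_a / RP = h * k := by rw [hk]; ring
  -- the value at one
  have hv : π / 4 - arctan k ≤ 0.13068125 := by
    have e1 : arctan k + arctan ((1 - k) / (1 + k)) = π / 4 := by
      rw [arctan_add, ← arctan_one]
      · congr 1
        have : 1 + k ≠ 0 := by positivity
        have h3 : 1 - k * ((1 - k) / (1 + k)) = (1 + k ^ 2) / (1 + k) := by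
          field_simp
          ring
        rw [h3]
        field_simp
        ring
      · rw [mul_div_assoc', div_lt_one (by positivity)]
        nlinarith
    have e2 : (1 - k) / (1 + k) ≤ 0.13143 := by
      rw [div_le_iff₀ (by positivity)]
      norm_num at *
      linarith
    have e3 : 0 ≤ (1 - k) / (1 + k) := div_nonneg (by norm_num at *; linarith) (by positivity)
    have e4 := arctan_strictMono.monotone e2
    have e5 := P4C_atn (x := 0.13143) (by norm_num)
    have e6 : (0.13143 : ℝ) - 0.13143 ^ 3 / 3 + 0.13143 ^ 5 / 5 ≤ 0.13068125 := by norm_num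
    linarith
  -- the function of `h`
  have hd : ∀ y : ℝ, HasDerivAt (fun y => 0.13068125 - 0.483 * (y - 1) + 0.1792 * (y - 1) ^ 2
      + arctan (y * k)) (- 0.483 + 0.3584 * (y - 1) + k / (1 + (y * k) ^ 2)) y := by
    intro y
    have a1 : HasDerivAt (fun y : ℝ => y - 1) 1 y := (hasDerivAt_id' y).sub_const 1
    have a2 : HasDerivAt (fun y : ℝ => y * k) k y := by
      simpa using (hasDerivAt_id' y).mul_const k
    have a3 := (hasDerivAt_arctan (y * k)).comp y a2
    have a4 := (((a1.const_mul 0.483).const_sub 0.13068125).add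
      ((a1.pow 2).const_mul 0.1792)).add a3
    refine a4.congr_deriv ?_
    norm_num
    ring
  have hm : MonotoneOn (fun y : ℝ => 0.13068125 - 0.483 * (y - 1) + 0.1792 * (y - 1) ^ 2
      + arctan (y * k)) (Icc 1 1.18) := by
    apply monotoneOn_of_deriv_nonneg (convex_Icc _ _)
    · exact fun y _ => (hd y).continuousAt.continuousWithinAt
    · exact fun y _ => (hd y).differentiableAt.differentiableWithinAt
    · intro y hy
      rw [interior_Icc] at hy
      rw [(hd y).deriv]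
      have hy1 := hy.1
      have hy2 := hy.2
      have e1 : 0.483 - 0.3584 * (y - 1) ≤ k / (1 + (y * k) ^ 2) := by
        rw [le_div_iff₀ (by positivity)]
        have e2 : (y * k) ^ 2 ≤ y ^ 2 * 0.5893254 := by
          rw [mul_pow]
          apply mul_le_mul_of_nonneg_left _ (sq_nonneg y)
          nlinarith
        have e3 : 0 ≤ 0.483 - 0.3584 * (y - 1) := by norm_num at *; linarith
        have e4 := mul_le_mul_of_nonneg_left e2 e3
        have e5 : (0.483 - 0.3584 * (y - 1)) * (1 + y ^ 2 * 0.5893254) ≤ 0.767675 := by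
          obtain ⟨l, rfl⟩ : ∃ l, y = 1 + l := ⟨y - 1, by ring⟩
          have hl : 0 ≤ l := by linarith
          norm_num
          nlinarith [mul_nonneg hl hl, mul_nonneg (mul_nonneg hl hl) hl]
        nlinarith
      linarith
  have hmm := hm (left_mem_Icc.mpr (by norm_num)) (mem_Icc.mpr ⟨h1, h2⟩) h1
  simp only [sub_self, one_mul] at hmm
  norm_num at hmm
  have hR : (0.04359 : ℝ) * h ≤ 8 * ((π / 4 - P4C_a) * h / RP) := by
    have e1 := P4C_eps
    have e2 : RP < 1.28453 := by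
      have := RP_sq
      have := RP_pos
      nlinarith
    have e3 : (0.04359 : ℝ) / 8 ≤ (π / 4 - P4C_a) / RP := by
      rw [le_div_iff₀ RP_pos]
      norm_num at *
      nlinarith
    have e4 : (π / 4 - P4C_a) * h / RP = (π / 4 - P4C_a) / RP * h := by ring
    rw [e4]
    have := mul_le_mul_of_nonneg_right e3 (show (0 : ℝ) ≤ h by linarith)
    norm_num at *
    linarith
  rw [ek, P4C_ph]
  norm_num at *
  linarith

/-! ## The caps -/

theorem P4C_rpoly {r : ℝ} (h0 : 0 ≤ r) (h1 : r ≤ 0.64) :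
    r - r ^ 3 / 7 + r ^ 5 / 21 ≤ 0.283 + 0.8151 * r ^ 2 := by
  have e1 : r ^ 5 ≤ r ^ 3 * 0.4096 := by
    have : r ^ 2 ≤ 0.4096 := by
      have := pow_le_pow_left₀ h0 h1 2
      norm_num at *
      linarith
    have h3 : 0 ≤ r ^ 3 := by positivity
    calc r ^ 5 = r ^ 3 * r ^ 2 := by ring
      _ ≤ _ := mul_le_mul_of_nonneg_left this h3
  have e2 : r ≤ 0.283 + 0.8151 * r ^ 2 + 0.12334 * r ^ 3 := by
    nlinarith [mul_nonneg h0 (sq_nonneg (r - 0.5475)), sq_nonneg (r - 0.5475)]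
  have h3 : 0 ≤ r ^ 3 := by positivity
  norm_num at *
  nlinarith

theorem P4C_inva {l : ℝ} (h0 : 0 ≤ l) (h1 : l ≤ 0.1121) :
    1 ≤ (3.0345 + 15.6 * l) * (0.507 * (33 / 20 - (1 + l) ^ 2)) := by
  have e2 : 0 ≤ l * (2.064 - 17.357 * l - 7.91 * l ^ 2) := by
    apply mul_nonneg h0
    nlinarith
  nlinarith

theorem P4C_Mb {l V r s : ℝ} (hl0 : 0 ≤ l) (hV : V ≤ 1.44) (hs0 : 0 < s)
    (es : s = V - 1.32955 - 0.986 * l - 0.493 * l ^ 2) (r0 : 0 ≤ r)
    (r1 : r ^ 2 * (0.507 * (33 / 20 - (1 + l) ^ 2)) = s) :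
    r ≤ 0.64 ∧ r - r ^ 3 / 7 + r ^ 5 / 21 ≤ 0.283 + 2.474 * (V - 1.32955) - 1.03 * l := by
  have hl2' : 0.986 * l ≤ 0.11045 := by
    have : 0 ≤ 0.493 * l ^ 2 := by positivity
    linarith
  have hl2 : l ≤ 0.1121 := by linarith
  have hs1 : s ≤ V - 1.32955 - 0.986 * l := by
    have : 0 ≤ 0.493 * l ^ 2 := by positivity
    linarith
  have e1 := P4C_inva hl0 hl2
  have e3 : r ^ 2 * 1 ≤ r ^ 2 * ((3.0345 + 15.6 * l)
      * (0.507 * (33 / 20 - (1 + l) ^ 2))) :=
    mul_le_mul_of_nonneg_left e1 (sq_nonneg r)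
  have e4 : r ^ 2 * ((3.0345 + 15.6 * l) * (0.507 * (33 / 20 - (1 + l) ^ 2))) =
      (3.0345 + 15.6 * l) * s := by
    rw [← r1]
    ring
  have e5 : (3.0345 + 15.6 * l) * s ≤
      (3.0345 + 15.6 * l) * (V - 1.32955 - 0.986 * l) :=
    mul_le_mul_of_nonneg_left hs1 (by positivity)
  have hlV : l * (V - 1.32955) ≤ l * 0.11045 := by
    apply mul_le_mul_of_nonneg_left _ hl0
    linarith
  have hll : 0 ≤ l * l := mul_nonneg hl0 hl0
  have hx : (3.0345 + 15.6 * l) * (V - 1.32955 - 0.986 * l) ≤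
      3.0345 * (V - 1.32955) - 1.2689 * l := by
    have e6 : (3.0345 + 15.6 * l) * (V - 1.32955 - 0.986 * l) = 3.0345 * (V - 1.32955)
        - 2.992017 * l + 15.6 * (l * (V - 1.32955)) - 15.3816 * (l * l) := by ring
    rw [e6]
    linarith
  have hr2 : r ^ 2 ≤ 3.0345 * (V - 1.32955) - 1.2689 * l := by linarith
  have hr : r ≤ 0.64 := by
    have e1 : r ^ 2 ≤ 0.4096 := by linarith
    have e2 : (0.64 : ℝ) ^ 2 = 0.4096 := by norm_num
    rw [← e2] at e1
    exact le_of_sq_le_sq e1 (by norm_num)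
  refine ⟨hr, ?_⟩
  have hrp := P4C_rpoly r0 hr
  have hV0 : 0 ≤ V - 1.32955 := by linarith
  linarith

/-- The bound of the caps. -/
theorem P4C_C_num {t h : ℝ} (ht1 : 1.14 ≤ t) (ht2 : t ≤ 1.2) (h1 : 1 ≤ h) (h2 : h ≤ 1.18) :
    8 * h * (0.2821 * P4C_C t (h ^ 2)) ≤ P4C_c8 t (h - 1) := by
  obtain ⟨l, rfl⟩ : ∃ l, h = 1 + l := ⟨h - 1, by ring⟩
  have hl0 : 0 ≤ l := by linarith
  have hl1 : l ≤ 0.18 := by linarith
  have hY : (1 + l) ^ 2 < 33 / 20 := by nlinarith
  have ht3 : 1.2996 ≤ t ^ 2 := by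
    have := pow_le_pow_left₀ (by norm_num) ht1 2
    norm_num at this
    linarith
  have ht4 : t ^ 2 ≤ 1.44 := by
    have := pow_le_pow_left₀ (by linarith) ht2 2
    norm_num at this
    linarith
  have hc8 : P4C_c8 t (1 + l - 1) = 1.20363 * (1 + l) * (t ^ 2 - 1.32955 - 0.986 * l) ^ 2
      * (0.283 + 2.474 * (t ^ 2 - 1.32955) - 1.03 * l) := by
    rw [P4C_c8, add_sub_cancel_left]
  rw [hc8]
  set V := t ^ 2 with hV
  have hM : 0 ≤ 0.283 + 2.474 * (V - 1.32955) - 1.03 * l := by linarith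
  rcases le_or_gt V (0.493 * (1 + l) ^ 2 + 0.83655) with hs | hs
  · rw [P4C_C_zero hY hs, mul_zero, mul_zero]
    exact mul_nonneg (mul_nonneg (mul_nonneg (by norm_num) (by linarith)) (sq_nonneg _)) hM
  · obtain ⟨r, r0, r1, r2⟩ := P4C_C_le' hY hs.le
    rw [← hV] at r1 r2
    set s := V - (0.493 * (1 + l) ^ 2 + 0.83655) with hsdef
    have hs0 : 0 < s := by rw [hsdef]; linarith
    have es : s = V - 1.32955 - 0.986 * l - 0.493 * l ^ 2 := by
      rw [hsdef]
      ring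
    obtain ⟨hr, hfin⟩ := P4C_Mb hl0 ht4 hs0 es r0 r1
    have hs1 : s ≤ V - 1.32955 - 0.986 * l := by
      have : 0 ≤ 0.493 * l ^ 2 := by positivity
      linarith
    have hss : s ^ 2 ≤ (V - 1.32955 - 0.986 * l) ^ 2 := pow_le_pow_left₀ hs0.le hs1 2
    have k1 : P4C_C t ((1 + l) ^ 2) ≤ 8 / 15 * (V - 1.32955 - 0.986 * l) ^ 2
        * (0.283 + 2.474 * (V - 1.32955) - 1.03 * l) := by
      refine r2.trans ?_
      apply mul_le_mul _ hfin _ (by positivity)
      · linarith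
      · have h3 : r ^ 2 ≤ 1 := by nlinarith
        have h4 : 0 ≤ r * (1 - r ^ 2) := mul_nonneg r0 (by linarith)
        have h5 : 0 ≤ r ^ 5 / 21 := by positivity
        have h6 : r * (1 - r ^ 2) = r - r ^ 3 := by ring
        have h7 : 0 ≤ r ^ 3 := by positivity
        linarith
    have k2 := mul_le_mul_of_nonneg_left k1 (show (0 : ℝ) ≤ 8 * (1 + l) * 0.2821 by positivity)
    have k3 : 0 ≤ (1 + l) * ((V - 1.32955 - 0.986 * l) ^ 2
        * (0.283 + 2.474 * (V - 1.32955) - 1.03 * l)) :=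
      mul_nonneg (by linarith) (mul_nonneg (sq_nonneg _) hM)
    calc 8 * (1 + l) * (0.2821 * P4C_C t ((1 + l) ^ 2))
        = 8 * (1 + l) * 0.2821 * P4C_C t ((1 + l) ^ 2) := by ring
      _ ≤ _ := k2
      _ = 8 * 0.2821 * (8 / 15) * ((1 + l) * ((V - 1.32955 - 0.986 * l) ^ 2
        * (0.283 + 2.474 * (V - 1.32955) - 1.03 * l))) := by ring
      _ ≤ 1.20363 * ((1 + l) * ((V - 1.32955 - 0.986 * l) ^ 2
        * (0.283 + 2.474 * (V - 1.32955) - 1.03 * l))) :=
          mul_le_mul_of_nonneg_right (by norm_num) k3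
      _ = _ := by ring

end Pool.Agent.SDL
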