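import Pool.Agent.SDL.Targets3

set_option autoImplicit false

/-!
# SDL: the integral of the function `b` over the fixed shape of a facet with four sides

`m = 507/1000` is the square of the cosine of the half angle of a side, `y = Y + m (33/20 - Y) /
cos² ψ` is the square of the distance of the point of the side in the direction `ψ`.
-/

open MeasureTheory Set Real

namespace Pool.Agent.SDL.P4I

open Pool.Agent.SDC Pool.Agent.SDL

/-- A lower bound of `Bf`, exact to second order at `v = (ρ²-t²)/(2ρ²)`. -/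
theorem Bf_lb {t ρ v : ℝ} (ht : 0 < t) (hρ : 0 < ρ) (hv : 0 ≤ v) :
    3 / 2 * (v * (ρ ^ 2 - t ^ 2) - v ^ 2 * ρ ^ 2) ≤ Bf t ρ := by
  rw [Bf]
  split_ifs with h
  · have h1 : ρ ^ 2 ≤ t ^ 2 := by nlinarith
    nlinarith [mul_nonneg hv (sub_nonneg.mpr h1), mul_nonneg (sq_nonneg v) (sq_nonneg ρ)]
  · push Not at h
    have h2 : 3 / 8 * ((ρ - t) ^ 2 * (ρ + t) ^ 2) / ρ ^ 2 ≤
        (ρ - t) ^ 2 * (ρ + 2 * t) / (2 * ρ) := by
      rw [div_le_div_iff₀ (by positivity) (by positivity)]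
      have h3 : 0 ≤ (ρ - t) ^ 2 * ρ * ((ρ - t) * (ρ + 3 * t)) := by
        apply mul_nonneg (by positivity)
        exact mul_nonneg (by linarith) (by linarith)
      nlinarith
    refine le_trans ?_ h2
    rw [le_div_iff₀ (by positivity)]
    nlinarith [sq_nonneg (2 * v * ρ ^ 2 - (ρ ^ 2 - t ^ 2))]

/-- The half angle. -/
noncomputable def ps4 : ℝ := arccos (√0.507)

/-- Its tangent. -/
noncomputable def w0 : ℝ := tan ps4

theorem cos_ps4 : cos ps4 = √0.507 := by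
  rw [ps4, Real.cos_arccos]
  · linarith [Real.sqrt_nonneg (0.507 : ℝ)]
  · rw [Real.sqrt_le_one]
    norm_num

theorem cos_ps4_sq : cos ps4 ^ 2 = 0.507 := by
  rw [cos_ps4, Real.sq_sqrt (by norm_num)]

theorem cos_ps4_pos : 0 < cos ps4 := by
  rw [cos_ps4]
  exact Real.sqrt_pos.mpr (by norm_num)

theorem ps4_pos : 0 < ps4 := by
  rw [ps4, Real.arccos_pos]
  have h : √(0.507 : ℝ) < √1 := Real.sqrt_lt_sqrt (by norm_num) (by norm_num)
  rwa [Real.sqrt_one] at h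

theorem ps4_lt : ps4 < π / 4 := by
  rw [ps4, show π / 4 = arccos (√2 / 2) by
    rw [← Real.cos_pi_div_four, Real.arccos_cos (by positivity) (by linarith [Real.pi_pos])]]
  apply Real.arccos_lt_arccos
  · linarith [Real.sqrt_nonneg (2 : ℝ)]
  · rw [show (√2 / 2 : ℝ) = √(1 / 2) by
      rw [show (1 / 2 : ℝ) = 2 / 2 ^ 2 by norm_num, Real.sqrt_div (by norm_num),
        Real.sqrt_sq (by norm_num)]]
    exact Real.sqrt_lt_sqrt (by norm_num) (by norm_num)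
  · rw [Real.sqrt_le_one]
    norm_num

theorem w0_pos : 0 < w0 := by
  rw [w0]
  exact tan_pos_of_pos_of_lt_pi_div_two ps4_pos (by linarith [ps4_lt, Real.pi_pos])

theorem w0_sq : w0 ^ 2 = 493 / 507 := by
  have h := Real.sin_sq_add_cos_sq ps4
  rw [w0, Real.tan_eq_sin_div_cos, div_pow]
  rw [cos_ps4_sq] at h ⊢
  have h1 : sin ps4 ^ 2 = 0.493 := by linarith
  rw [h1]
  norm_num

theorem w0_lo : (0.986096 : ℝ) < w0 := by
  nlinarith [w0_sq, w0_pos]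

theorem w0_hi : w0 < (0.986097 : ℝ) := by
  nlinarith [w0_sq, w0_pos]

theorem cos_pos4 {ψ : ℝ} (h0 : 0 ≤ ψ) (h1 : ψ ≤ ps4) : 0 < cos ψ := by
  apply cos_pos_of_mem_Ioo
  constructor
  · linarith [Real.pi_pos]
  · linarith [ps4_lt, Real.pi_pos]

/-- The square of the distance. -/
noncomputable def y4 (Y ψ : ℝ) : ℝ := Y * (1 - 0.507 / cos ψ ^ 2) + 33 / 20 * (0.507 / cos ψ ^ 2)

theorem y4_eq {Y ψ : ℝ} (h : cos ψ ≠ 0) :
    y4 Y ψ = Y * 0.493 + 0.83655 + 0.507 * (33 / 20 - Y) * tan ψ ^ 2 := by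
  have h1 : 1 / cos ψ ^ 2 = 1 + tan ψ ^ 2 := by
    have h3 := Real.sin_sq_add_cos_sq ψ
    rw [Real.tan_eq_sin_div_cos, div_pow]
    have h4 : sin ψ ^ 2 = 1 - cos ψ ^ 2 := by linarith
    rw [h4]
    field_simp
    ring
  have h2 : (0.507 : ℝ) / cos ψ ^ 2 = 0.507 * (1 + tan ψ ^ 2) := by
    rw [← h1]
    ring
  rw [y4, h2]
  ring

theorem y4_ge {Y ψ : ℝ} (h : cos ψ ≠ 0) (hY : Y ≤ 33 / 20) (hY0 : 0 ≤ Y) :
    0.83655 ≤ y4 Y ψ := by
  rw [y4_eq h]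
  have := mul_nonneg (mul_nonneg (by norm_num : (0 : ℝ) ≤ 0.507) (sub_nonneg.mpr hY))
    (sq_nonneg (tan ψ))
  nlinarith

theorem y4_cont {Y a b : ℝ} (ha : 0 ≤ a) (hb : b ≤ ps4) : ContinuousOn (y4 Y) (Icc a b) := by
  have h : ∀ ψ ∈ Icc a b, cos ψ ^ 2 ≠ 0 := fun ψ hψ => by
    have := cos_pos4 (ha.trans hψ.1) (hψ.2.trans hb)
    positivity
  unfold y4
  apply ContinuousOn.add
  · apply ContinuousOn.mul continuousOn_const
    apply ContinuousOn.sub continuousOn_const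
    exact ContinuousOn.div continuousOn_const (by fun_prop) h
  · apply ContinuousOn.mul continuousOn_const
    exact ContinuousOn.div continuousOn_const (by fun_prop) h

/-! ## The three integrals -/

theorem y4_pos {Y ψ : ℝ} (h0 : 0 ≤ ψ) (h1 : ψ ≤ ps4) (hY : Y ≤ 33 / 20) (hY0 : 0 ≤ Y) :
    0 < y4 Y ψ := lt_of_lt_of_le (by norm_num) (y4_ge (cos_pos4 h0 h1).ne' hY hY0)

theorem Bf_y4_cont {t Y a b : ℝ} (ht : 0 < t) (ha : 0 ≤ a) (hb : b ≤ ps4) (hY : Y ≤ 33 / 20)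
    (hY0 : 0 ≤ Y) : ContinuousOn (fun ψ => Bf t √(y4 Y ψ)) (Icc a b) := by
  have h1 : ContinuousOn (Bf t) (Ioi 0) := fun c hc =>
    (p_BF.2.1 t c ht hc).continuousAt.continuousWithinAt
  exact h1.comp (y4_cont ha hb).sqrt fun ψ hψ =>
    Real.sqrt_pos.mpr (y4_pos (ha.trans hψ.1) (hψ.2.trans hb) hY hY0)

/-- The antiderivative. -/
noncomputable def G4 (T Y C P x : ℝ) : ℝ :=
  3 / 2 * C * ((0.507 * (33 / 20 - Y)) * x ^ 5 / 5 +
    ((0.493 * Y + 0.83655) - T - P * (0.507 * (33 / 20 - Y))) * x ^ 3 / 3 -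
    P * ((0.493 * Y + 0.83655) - T) * x -
    C * ((0.507 * (33 / 20 - Y)) * x ^ 9 / 9 +
      (((0.493 * Y + 0.83655) + (0.507 * (33 / 20 - Y))) - 2 * P * (0.507 * (33 / 20 - Y))) *
        x ^ 7 / 7 +
      ((0.493 * Y + 0.83655) - 2 * P * ((0.493 * Y + 0.83655) + (0.507 * (33 / 20 - Y))) +
        P ^ 2 * (0.507 * (33 / 20 - Y))) * x ^ 5 / 5 +
      (P ^ 2 * ((0.493 * Y + 0.83655) + (0.507 * (33 / 20 - Y))) -
        2 * P * (0.493 * Y + 0.83655)) * x ^ 3 / 3 +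
      P ^ 2 * (0.493 * Y + 0.83655) * x))

theorem odd9_deriv (c9 c7 c5 c3 c1 x : ℝ) :
    HasDerivAt (fun x : ℝ => c9 * x ^ 9 + c7 * x ^ 7 + c5 * x ^ 5 + c3 * x ^ 3 + c1 * x)
      (9 * c9 * x ^ 8 + 7 * c7 * x ^ 6 + 5 * c5 * x ^ 4 + 3 * c3 * x ^ 2 + c1) x := by
  have h := (((((hasDerivAt_pow 9 x).const_mul c9).add ((hasDerivAt_pow 7 x).const_mul c7)).add
    ((hasDerivAt_pow 5 x).const_mul c5)).add ((hasDerivAt_pow 3 x).const_mul c3)).add
    ((hasDerivAt_id x).const_mul c1)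
  refine (h.congr_of_eventuallyEq (Filter.Eventually.of_forall fun z => ?_)).congr_deriv ?_
  · rfl
  · norm_num
    ring

theorem G4_deriv (T Y C P x : ℝ) : HasDerivAt (G4 T Y C P)
    (3 / 2 * C * ((x ^ 2 - P) * ((0.493 * Y + 0.83655) - T + (0.507 * (33 / 20 - Y)) * x ^ 2) -
      C * ((x ^ 2 - P) ^ 2 * (1 + x ^ 2) *
        ((0.493 * Y + 0.83655) + (0.507 * (33 / 20 - Y)) * x ^ 2)))) x := by
  have h := odd9_deriv (-(3 / 2 * C * (C * ((0.507 * (33 / 20 - Y)) / 9))))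
    (-(3 / 2 * C * (C * ((((0.493 * Y + 0.83655) + (0.507 * (33 / 20 - Y))) -
      2 * P * (0.507 * (33 / 20 - Y))) / 7))))
    (3 / 2 * C * ((0.507 * (33 / 20 - Y)) / 5 - C * (((0.493 * Y + 0.83655) -
      2 * P * ((0.493 * Y + 0.83655) + (0.507 * (33 / 20 - Y))) +
        P ^ 2 * (0.507 * (33 / 20 - Y))) / 5)))
    (3 / 2 * C * (((0.493 * Y + 0.83655) - T - P * (0.507 * (33 / 20 - Y))) / 3 -
      C * ((P ^ 2 * ((0.493 * Y + 0.83655) + (0.507 * (33 / 20 - Y))) -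
        2 * P * (0.493 * Y + 0.83655)) / 3)))
    (3 / 2 * C * (-(P * ((0.493 * Y + 0.83655) - T)) - C * (P ^ 2 * (0.493 * Y + 0.83655)))) x
  have hf : G4 T Y C P = _ := funext fun x => by
    rw [G4]
  rw [hf]
  refine (h.congr_of_eventuallyEq (Filter.Eventually.of_forall fun z => ?_)).congr_deriv ?_
  · ring
  · ring

theorem tan4_deriv {ψ : ℝ} (h : cos ψ ≠ 0) : HasDerivAt tan (1 + tan ψ ^ 2) ψ := by
  have h1 := Real.hasDerivAt_tan h
  have h3 := Real.sin_sq_add_cos_sq ψ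
  convert h1 using 1
  rw [Real.tan_eq_sin_div_cos, div_pow]
  field_simp
  linarith

theorem G4_int {T Y C P a : ℝ} (ha : 0 ≤ a) (hb : a ≤ ps4) :
    ∫ ψ in a..ps4, 3 / 2 * ((C * (tan ψ ^ 2 - P) * (1 + tan ψ ^ 2)) * (y4 Y ψ - T) -
      (C * (tan ψ ^ 2 - P) * (1 + tan ψ ^ 2)) ^ 2 * y4 Y ψ) =
    G4 T Y C P w0 - G4 T Y C P (tan a) := by
  have hc : ∀ ψ ∈ uIcc a ps4, cos ψ ≠ 0 := fun ψ hψ => by
    rw [uIcc_of_le hb] at hψ
    exact (cos_pos4 (ha.trans hψ.1) hψ.2).ne'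
  rw [w0]
  have hd : ∀ ψ ∈ uIcc a ps4, HasDerivAt (fun ψ => G4 T Y C P (tan ψ))
      (3 / 2 * ((C * (tan ψ ^ 2 - P) * (1 + tan ψ ^ 2)) * (y4 Y ψ - T) -
      (C * (tan ψ ^ 2 - P) * (1 + tan ψ ^ 2)) ^ 2 * y4 Y ψ)) ψ := fun ψ hψ => by
    have h1 := (G4_deriv T Y C P (tan ψ)).comp ψ (tan4_deriv (hc ψ hψ))
    refine h1.congr_deriv ?_
    rw [y4_eq (hc ψ hψ)]
    ring
  have hcont : ContinuousOn (fun ψ => 3 / 2 * ((C * (tan ψ ^ 2 - P) * (1 + tan ψ ^ 2)) *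
      (y4 Y ψ - T) - (C * (tan ψ ^ 2 - P) * (1 + tan ψ ^ 2)) ^ 2 * y4 Y ψ)) (uIcc a ps4) := by
    have ht : ContinuousOn tan (uIcc a ps4) := fun ψ hψ =>
      (Real.hasDerivAt_tan (hc ψ hψ)).continuousAt.continuousWithinAt
    have hy : ContinuousOn (y4 Y) (uIcc a ps4) := by
      rw [uIcc_of_le hb]
      exact y4_cont ha le_rfl
    fun_prop
  exact intervalIntegral.integral_eq_sub_of_hasDerivAt hd hcont.intervalIntegrable

/-- The integral of `Bf`. -/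
theorem Bf_int {t Y C p : ℝ} (ht : 0 < t) (hY0 : 0 ≤ Y) (hY : Y ≤ 33 / 20) (hC : 0 ≤ C)
    (hp : 0 ≤ p) (hpw : p ≤ w0) :
    G4 (t ^ 2) Y C (p ^ 2) w0 - G4 (t ^ 2) Y C (p ^ 2) p ≤
      ∫ ψ in (0 : ℝ)..ps4, Bf t √(y4 Y ψ) := by
  have ha0 : 0 ≤ arctan p := Real.arctan_nonneg.mpr hp
  have hta : tan (arctan p) = p := Real.tan_arctan p
  have hps : arctan w0 = ps4 := by
    rw [w0, Real.arctan_tan]
    · linarith [ps4_pos, Real.pi_pos]
    · linarith [ps4_lt, Real.pi_pos]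
  have hab : arctan p ≤ ps4 := by
    rw [← hps]
    exact Real.arctan_mono hpw
  have hi := G4_int (T := t ^ 2) (Y := Y) (C := C) (P := p ^ 2) ha0 hab
  rw [hta] at hi
  rw [← hi]
  have hI : ∀ a b : ℝ, 0 ≤ a → a ≤ b → b ≤ ps4 → IntervalIntegrable (fun ψ => Bf t √(y4 Y ψ))
      volume a b := fun a b h0 h1 h2 => by
    apply ContinuousOn.intervalIntegrable
    rw [uIcc_of_le h1]
    exact Bf_y4_cont ht h0 h2 hY hY0
  rw [← intervalIntegral.integral_add_adjacent_intervals (hI 0 (arctan p) le_rfl ha0 hab)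
    (hI (arctan p) ps4 ha0 hab le_rfl)]
  have h1 : 0 ≤ ∫ ψ in (0 : ℝ)..arctan p, Bf t √(y4 Y ψ) := by
    apply intervalIntegral.integral_nonneg ha0
    intro ψ hψ
    exact p_BF.1 t _ ht (Real.sqrt_pos.mpr (y4_pos hψ.1 (hψ.2.trans hab) hY hY0))
  have h2 : ∫ ψ in arctan p..ps4, 3 / 2 * ((C * (tan ψ ^ 2 - p ^ 2) * (1 + tan ψ ^ 2)) *
      (y4 Y ψ - t ^ 2) - (C * (tan ψ ^ 2 - p ^ 2) * (1 + tan ψ ^ 2)) ^ 2 * y4 Y ψ) ≤
      ∫ ψ in arctan p..ps4, Bf t √(y4 Y ψ) := by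
    apply intervalIntegral.integral_mono_on hab
    · apply ContinuousOn.intervalIntegrable
      rw [uIcc_of_le hab]
      have ht : ContinuousOn tan (Icc (arctan p) ps4) := fun ψ hψ =>
        (Real.hasDerivAt_tan (cos_pos4 (ha0.trans hψ.1)
          hψ.2).ne').continuousAt.continuousWithinAt
      have hy : ContinuousOn (y4 Y) (Icc (arctan p) ps4) := y4_cont ha0 le_rfl
      fun_prop
    · exact hI _ _ ha0 hab le_rfl
    · intro ψ hψ
      have hy := y4_pos (ha0.trans hψ.1) hψ.2 hY hY0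
      have ht2 : p ≤ tan ψ := by
        rcases hψ.1.eq_or_lt with h | h
        · rw [← h, hta]
        · rw [← hta]
          apply (Real.tan_lt_tan_of_nonneg_of_lt_pi_div_two ha0 _ h).le
          linarith [ps4_lt, hψ.2, Real.pi_pos]
      have hv : 0 ≤ C * (tan ψ ^ 2 - p ^ 2) * (1 + tan ψ ^ 2) := by
        apply mul_nonneg (mul_nonneg hC _) (by positivity)
        nlinarith
      have h3 := Bf_lb ht (Real.sqrt_pos.mpr hy) hv
      rwa [Real.sq_sqrt hy.le] at h3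
  linarith

/-! ## The solid angle -/

/-- The square of the denominator. -/
noncomputable def B4 (h : ℝ) : ℝ := h ^ 2 + (33 / 20 - h ^ 2) * 0.507

theorem B4_pos {h : ℝ} (hu : h ^ 2 < 33 / 20) (ψ : ℝ) :
    0 < B4 h - (h * sin ψ) ^ 2 := by
  have h2 : 0 < (33 / 20 - h ^ 2) * 0.507 := mul_pos (by linarith) (by norm_num)
  have h3 : h ^ 2 * sin ψ ^ 2 ≤ h ^ 2 * 1 :=
    mul_le_mul_of_nonneg_left (sin_sq_le_one ψ) (by positivity)
  rw [B4, mul_pow]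
  linarith

theorem B4_pos0 {h : ℝ} (hu : h ^ 2 < 33 / 20) : 0 < B4 h := by
  have h1 := B4_pos hu 0
  rw [sin_zero, mul_zero] at h1
  linarith

theorem B4_inv {h : ℝ} (hu : h ^ 2 < 33 / 20) {ψ : ℝ} (hψ : 0 < cos ψ) :
    h / √(y4 (h ^ 2) ψ) = h * cos ψ / √(B4 h - (h * sin ψ) ^ 2) := by
  have h1 : y4 (h ^ 2) ψ = (B4 h - (h * sin ψ) ^ 2) / cos ψ ^ 2 := by
    have h3 := Real.sin_sq_add_cos_sq ψ
    have h4 : sin ψ ^ 2 = 1 - cos ψ ^ 2 := by linarith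
    rw [B4, y4, mul_pow, h4]
    field_simp
    ring
  rw [h1, Real.sqrt_div (B4_pos hu ψ).le, Real.sqrt_sq hψ.le, div_div_eq_mul_div]

theorem B4_deriv {h : ℝ} (hu : h ^ 2 < 33 / 20) (ψ : ℝ) :
    HasDerivAt (fun x => arcsin (h * sin x / √(B4 h)))
      (h * cos ψ / √(B4 h - (h * sin ψ) ^ 2)) ψ := by
  have hW := B4_pos0 hu
  have hs : 0 < √(B4 h) := Real.sqrt_pos.mpr hW
  have hq : (h * sin ψ / √(B4 h)) ^ 2 < 1 := by
    rw [div_pow, Real.sq_sqrt hW.le, div_lt_one hW]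
    linarith [B4_pos hu ψ]
  have h1 : HasDerivAt (fun x => h * sin x / √(B4 h)) (h * cos ψ / √(B4 h)) ψ :=
    ((hasDerivAt_sin ψ).const_mul h).div_const _
  have h2 : HasDerivAt arcsin (1 / √(1 - (h * sin ψ / √(B4 h)) ^ 2))
      (h * sin ψ / √(B4 h)) := by
    apply hasDerivAt_arcsin
    · intro h3
      rw [h3] at hq
      norm_num at hq
    · intro h3
      rw [h3] at hq
      norm_num at hq
  have h3 := h2.comp ψ h1
  have h4 : 1 / √(1 - (h * sin ψ / √(B4 h)) ^ 2) * (h * cos ψ / √(B4 h)) =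
      h * cos ψ / √(B4 h - (h * sin ψ) ^ 2) := by
    have h5 : 1 - (h * sin ψ / √(B4 h)) ^ 2 = (B4 h - (h * sin ψ) ^ 2) / B4 h := by
      rw [div_pow, Real.sq_sqrt hW.le, sub_div, div_self hW.ne']
    rw [h5, Real.sqrt_div (B4_pos hu ψ).le]
    have h6 : 0 < √(B4 h - (h * sin ψ) ^ 2) := Real.sqrt_pos.mpr (B4_pos hu ψ)
    field_simp
  rw [h4] at h3
  exact h3

theorem B4_cont {h : ℝ} (hu : h ^ 2 < 33 / 20) :
    Continuous fun ψ : ℝ => h * cos ψ / √(B4 h - (h * sin ψ) ^ 2) := by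
  apply Continuous.div
  · fun_prop
  · fun_prop
  · intro ψ
    exact (Real.sqrt_pos.mpr (B4_pos hu ψ)).ne'

theorem B4_end {h : ℝ} (h0 : 0 < h) (hu : h ^ 2 < 33 / 20) :
    arcsin (h * sin ps4 / √(B4 h)) = arctan (h * w0 / RP) := by
  have hu0 := RP_pos
  have hc := cos_ps4_pos
  have h1 : 1 + (h * w0 / RP) ^ 2 = B4 h / (RP * cos ps4) ^ 2 := by
    have h3 := Real.sin_sq_add_cos_sq ps4
    have h2 : B4 h = (RP * cos ps4) ^ 2 + (h * sin ps4) ^ 2 := by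
      have h4 : sin ps4 ^ 2 = 0.493 := by
        rw [cos_ps4_sq] at h3
        linarith
      rw [B4, mul_pow, mul_pow, cos_ps4_sq, RP_sq, h4]
      ring
    rw [h2, w0, tan_eq_sin_div_cos, add_div, div_self (by positivity)]
    congr 1
    rw [← div_pow]
    congr 1
    field_simp
  rw [arctan_eq_arcsin, h1, Real.sqrt_div (B4_pos0 hu).le, Real.sqrt_sq (by positivity), w0,
    tan_eq_sin_div_cos]
  congr 1
  have hs : 0 < √(B4 h) := Real.sqrt_pos.mpr (B4_pos0 hu)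
  field_simp

theorem inv_int {h : ℝ} (h0 : 0 < h) (hu : h ^ 2 < 33 / 20) :
    ∫ ψ in (0 : ℝ)..ps4, h / √(y4 (h ^ 2) ψ) = arctan (h * w0 / RP) := by
  have h1 : ∫ ψ in (0 : ℝ)..ps4, h / √(y4 (h ^ 2) ψ) =
      ∫ ψ in (0 : ℝ)..ps4, h * cos ψ / √(B4 h - (h * sin ψ) ^ 2) :=
    intervalIntegral.integral_congr fun ψ hψ => by
      rw [uIcc_of_le ps4_pos.le] at hψ
      exact B4_inv hu (cos_pos4 hψ.1 hψ.2)
  rw [h1, intervalIntegral.integral_eq_sub_of_hasDerivAt (fun ψ _ => B4_deriv hu ψ)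
    ((B4_cont hu).intervalIntegrable _ _), B4_end h0 hu, sin_zero, mul_zero, zero_div,
    arcsin_zero, sub_zero]

/-! ## The integral of the square -/

theorem y4_int (Y : ℝ) : ∫ ψ in (0 : ℝ)..ps4, y4 Y ψ =
    Y * (ps4 - 0.507 * w0) + 33 / 20 * 0.507 * w0 := by
  have hc : ∀ ψ ∈ uIcc 0 ps4, cos ψ ≠ 0 := fun ψ hψ => by
    rw [uIcc_of_le ps4_pos.le] at hψ
    exact (cos_pos4 hψ.1 hψ.2).ne'
  have hd : ∀ ψ ∈ uIcc 0 ps4, HasDerivAt (fun ψ => Y * (ψ - 0.507 * tan ψ) +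
      33 / 20 * 0.507 * tan ψ) (y4 Y ψ) ψ := fun ψ hψ => by
    have h1 := (((hasDerivAt_id ψ).sub ((tan4_deriv (hc ψ hψ)).const_mul 0.507)).const_mul
      Y).add ((tan4_deriv (hc ψ hψ)).const_mul (33 / 20 * 0.507))
    refine h1.congr_deriv ?_
    rw [y4_eq (hc ψ hψ)]
    ring
  have hcont : ContinuousOn (y4 Y) (uIcc 0 ps4) := by
    rw [uIcc_of_le ps4_pos.le]
    exact y4_cont le_rfl le_rfl
  rw [intervalIntegral.integral_eq_sub_of_hasDerivAt hd hcont.intervalIntegrable, tan_zero, w0]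
  ring

/-- The integral of `bb`. -/
theorem bb_int {t h : ℝ} (ht : 0 < t) (h0 : 0 < h) (hu : h ^ 2 < 33 / 20) :
    h * ∫ ψ in (0 : ℝ)..ps4, bb t √(y4 (h ^ 2) ψ) =
      h * (∫ ψ in (0 : ℝ)..ps4, Bf t √(y4 (h ^ 2) ψ)) + bet t * arctan (h * w0 / RP) -
        kap t / 2 * h * (h ^ 2 * (ps4 - 0.507 * w0) + 33 / 20 * 0.507 * w0) := by
  have hy : ∀ ψ ∈ uIcc 0 ps4, 0 < y4 (h ^ 2) ψ := fun ψ hψ => by
    rw [uIcc_of_le ps4_pos.le] at hψ
    exact y4_pos hψ.1 hψ.2 hu.le (by positivity)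
  have hc : ContinuousOn (y4 (h ^ 2)) (uIcc 0 ps4) := by
    rw [uIcc_of_le ps4_pos.le]
    exact y4_cont le_rfl le_rfl
  have i1 : IntervalIntegrable (fun ψ => Bf t √(y4 (h ^ 2) ψ)) volume 0 ps4 := by
    apply ContinuousOn.intervalIntegrable
    rw [uIcc_of_le ps4_pos.le]
    exact Bf_y4_cont ht le_rfl le_rfl hu.le (by positivity)
  have i2 : IntervalIntegrable (fun ψ => bet t / h * (h / √(y4 (h ^ 2) ψ))) volume 0 ps4 := by
    apply ContinuousOn.intervalIntegrable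
    apply continuousOn_const.mul
    exact continuousOn_const.div hc.sqrt fun ψ hψ => (Real.sqrt_pos.mpr (hy ψ hψ)).ne'
  have i3 : IntervalIntegrable (fun ψ => kap t / 2 * y4 (h ^ 2) ψ) volume 0 ps4 :=
    (continuousOn_const.mul hc).intervalIntegrable
  have h1 : ∫ ψ in (0 : ℝ)..ps4, bb t √(y4 (h ^ 2) ψ) =
      ∫ ψ in (0 : ℝ)..ps4, (Bf t √(y4 (h ^ 2) ψ) + bet t / h * (h / √(y4 (h ^ 2) ψ)) -
        kap t / 2 * y4 (h ^ 2) ψ) :=
    intervalIntegral.integral_congr fun ψ hψ => by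
      simp only [bb]
      rw [Real.sq_sqrt (hy ψ hψ).le]
      have := (Real.sqrt_pos.mpr (hy ψ hψ)).ne'
      field_simp
  rw [h1, intervalIntegral.integral_sub (i1.add i2) i3, intervalIntegral.integral_add i1 i2,
    intervalIntegral.integral_const_mul, intervalIntegral.integral_const_mul, inv_int h0 hu,
    y4_int]
  field_simp

end Pool.Agent.SDL.P4I
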