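import Pool.Agent.SDL.P6_A

set_option autoImplicit false

/-!
# SDL, P, at least six near sides: the closed form of `PH`
-/

open MeasureTheory Set Real
open scoped RealInnerProductSpace

namespace Pool.Agent.SDL

open Pool.Agent.SDC

theorem PH_tan {x : ℝ} (hx : cos x ≠ 0) : tan x ^ 2 = 1 / cos x ^ 2 - 1 := by
  rw [Real.tan_eq_sin_div_cos, div_pow, Real.sin_sq]
  field_simp

/-- Small angles. -/
theorem PH_low {th ps : ℝ} (_h1 : 1 ≤ th) (h2 : th ^ 2 < 33 / 20) (h0 : 0 ≤ ps)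
    (hp : ps < π / 2) (hv : 0.65 * sin ps ^ 2 ≤ 33 / 20 - th ^ 2) :
    PH th ps = 2 * (0.65 / (33 / 20 - th ^ 2)) * (ps - sin ps * cos ps) -
      (0.65 / (33 / 20 - th ^ 2)) ^ 2 * (ps - sin ps * cos ps * (1 + 2 / 3 * sin ps ^ 2)) := by
  have hπ := Real.pi_pos
  have hv0 : 0 < 33 / 20 - th ^ 2 := by linarith
  have hc0 : 0 < cos ps := cos_pos_of_mem_Ioo ⟨by linarith, hp⟩
  obtain ⟨k, hk⟩ : ∃ k, k = 0.65 / (33 / 20 - th ^ 2) := ⟨_, rfl⟩
  have hkv : k * (33 / 20 - th ^ 2) = 0.65 := by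
    rw [hk]
    exact div_mul_cancel₀ _ hv0.ne'
  let A : ℝ → ℝ := fun x => 2 * k * (x - cos ps ^ 2 * tan x) -
    k ^ 2 * (x - 2 * cos ps ^ 2 * tan x + cos ps ^ 4 * (tan x + tan x ^ 3 / 3))
  have hA : ∀ x ∈ uIcc 0 ps, HasDerivAt A (EE th (1 + 0.65 * cos ps ^ 2 / cos x ^ 2)) x := by
    intro x hx
    rw [uIcc_of_le h0] at hx
    have hcx : 0 < cos x := cos_pos_of_mem_Ioo ⟨by linarith [hx.1], by linarith [hx.2]⟩
    have ht := Real.hasDerivAt_tan hcx.ne'
    have h3 := ((hasDerivAt_id x).sub (ht.const_mul (cos ps ^ 2))).const_mul (2 * k)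
    have h4 := ((((hasDerivAt_id x).sub (ht.const_mul (2 * cos ps ^ 2))).add
      ((ht.add ((ht.pow 3).div_const 3)).const_mul (cos ps ^ 4)))).const_mul (k ^ 2)
    have h5 := h3.sub h4
    have hsq : cos ps ^ 2 ≤ 1 := by nlinarith [Real.cos_le_one ps]
    have hx1 : cos x ^ 2 ≤ 1 := by nlinarith [Real.cos_le_one x]
    have hm : 0 ≤ (1 + 0.65 * cos ps ^ 2 / cos x ^ 2 - th ^ 2) / (33 / 20 - th ^ 2) := by
      apply div_nonneg _ hv0.le
      have h6 : 0.65 * cos ps ^ 2 ≤ 0.65 * cos ps ^ 2 / cos x ^ 2 := by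
        rw [le_div_iff₀ (by positivity)]
        nlinarith [sq_nonneg (cos ps)]
      have h7 := Real.sin_sq_add_cos_sq ps
      linarith
    have hE : EE th (1 + 0.65 * cos ps ^ 2 / cos x ^ 2) =
        1 - (1 - k * (1 - cos ps ^ 2 / cos x ^ 2)) ^ 2 := by
      rw [EE, max_eq_left hm]
      have : (1 + 0.65 * cos ps ^ 2 / cos x ^ 2 - th ^ 2) / (33 / 20 - th ^ 2) =
          1 - k * (1 - cos ps ^ 2 / cos x ^ 2) := by
        rw [div_eq_iff hv0.ne', sub_mul, one_mul]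
        have e1 : k * (1 - cos ps ^ 2 / cos x ^ 2) * (33 / 20 - th ^ 2) =
            (k * (33 / 20 - th ^ 2)) * (1 - cos ps ^ 2 / cos x ^ 2) := by ring
        rw [e1, hkv]
        ring
      rw [this]
    rw [hE]
    have e2 := PH_tan hcx.ne'
    have h8 : HasDerivAt A (2 * k * (1 - cos ps ^ 2 * (1 / cos x ^ 2)) -
        k ^ 2 * (1 - 2 * cos ps ^ 2 * (1 / cos x ^ 2) + cos ps ^ 4 *
          (1 / cos x ^ 2 + ((3 : ℕ) : ℝ) * tan x ^ (3 - 1) * (1 / cos x ^ 2) / 3))) x := h5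
    apply h8.congr_deriv
    have e3 : (tan x : ℝ) ^ (3 - 1) = 1 / cos x ^ 2 - 1 := by
      rw [← e2]
    rw [e3]
    push_cast
    field_simp
    ring
  rw [PH, intervalIntegral.integral_eq_sub_of_hasDerivAt hA
    ((PH_cont th ps hp).intervalIntegrable_of_Icc h0)]
  simp only [A, Real.tan_zero]
  rw [← hk]
  have e4 : cos ps ^ 2 * tan ps = sin ps * cos ps := by
    rw [Real.tan_eq_sin_div_cos]
    field_simp
  have e5 : cos ps ^ 4 * (tan ps + tan ps ^ 3 / 3) =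
      sin ps * cos ps * (1 - 2 / 3 * sin ps ^ 2) := by
    have e6 : cos ps ^ 4 * (tan ps + tan ps ^ 3 / 3) =
        sin ps * cos ps * (cos ps ^ 2 + sin ps ^ 2 / 3) := by
      rw [Real.tan_eq_sin_div_cos]
      field_simp
    rw [e6, Real.cos_sq']
    ring
  have e7 : 2 * cos ps ^ 2 * tan ps = 2 * (sin ps * cos ps) := by
    rw [← e4]
    ring
  rw [e4, e5, e7]
  ring

theorem PH_der {w w0 : ℝ} (hw : 0 ≤ w) (hw0 : 0 < w0) (hle : w ≤ w0) :
    w * (1 + w ^ 2) * (1 + (w0 ^ 2 - w ^ 2) * (1 / (2 * w0 ^ 2) + 1 / (1 + w0 ^ 2))) ≤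
      w0 * (1 + w0 ^ 2) := by
  have hd : 0 ≤ w0 ^ 2 - w ^ 2 := by nlinarith
  obtain ⟨A, hA⟩ : ∃ A, A = (w0 ^ 2 - w ^ 2) / (2 * w0 ^ 2) := ⟨_, rfl⟩
  obtain ⟨B, hB⟩ : ∃ B, B = (w0 ^ 2 - w ^ 2) / (1 + w0 ^ 2) := ⟨_, rfl⟩
  have hA0 : 0 ≤ A := by rw [hA]; positivity
  have hB0 : 0 ≤ B := by rw [hB]; positivity
  have eA : A * (2 * w0 ^ 2) = w0 ^ 2 - w ^ 2 := by
    rw [hA]
    exact div_mul_cancel₀ _ (by positivity)
  have eB : B * (1 + w0 ^ 2) = w0 ^ 2 - w ^ 2 := by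
    rw [hB]
    exact div_mul_cancel₀ _ (by positivity)
  have e1 : (w0 ^ 2 - w ^ 2) * (1 / (2 * w0 ^ 2) + 1 / (1 + w0 ^ 2)) = A + B := by
    rw [hA, hB]
    ring
  rw [e1]
  have h1 : w * (1 + A) ≤ w0 := by
    apply le_of_mul_le_mul_right _ (show 0 < 2 * w0 ^ 2 by positivity)
    have : w * (1 + A) * (2 * w0 ^ 2) = w * (2 * w0 ^ 2 + A * (2 * w0 ^ 2)) := by ring
    rw [this, eA]
    nlinarith [mul_nonneg (sq_nonneg (w0 - w)) (show 0 ≤ 2 * w0 + w by linarith)]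
  have h2 : (1 + w ^ 2) * (1 + B) ≤ 1 + w0 ^ 2 := by
    apply le_of_mul_le_mul_right _ (show 0 < 1 + w0 ^ 2 by positivity)
    have : (1 + w ^ 2) * (1 + B) * (1 + w0 ^ 2) =
      (1 + w ^ 2) * (1 + w0 ^ 2 + B * (1 + w0 ^ 2)) := by ring
    rw [this, eB]
    nlinarith [sq_nonneg (w0 ^ 2 - w ^ 2)]
  have h3 := mul_le_mul h1 h2 (by positivity) hw0.le
  have h4 : w * (1 + w ^ 2) * (1 + (A + B)) ≤ w * (1 + A) * ((1 + w ^ 2) * (1 + B)) := by
    have h5 : 0 ≤ w * (1 + w ^ 2) * (A * B) := by positivity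
    nlinarith
  exact h4.trans h3

theorem EE_le_one (th y : ℝ) : EE th y ≤ 1 := by
  unfold EE
  linarith [sq_nonneg (max ((y - th ^ 2) / (33 / 20 - th ^ 2)) 0)]

/-- Large angles. -/
theorem PH_high {th ps : ℝ} (_h1 : 1 ≤ th) (h2 : th ^ 2 < 33 / 20) (h0 : 0 ≤ ps)
    (hp : ps < π / 2) (hv : 33 / 20 - th ^ 2 ≤ 0.65 * sin ps ^ 2) :
    PH th ps ≤ ps - (33 / 20 - th ^ 2) * cos ps / (1.3 * sin ps) *
      (1 / 3 + (33 / 20 - th ^ 2) / 7.8 + (33 / 20 - th ^ 2) / (15.6 * sin ps ^ 2)) := by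
  have hπ := Real.pi_pos
  obtain ⟨v, hv'⟩ : ∃ v, v = 33 / 20 - th ^ 2 := ⟨_, rfl⟩
  have hv0 : 0 < v := by linarith
  have hc0 : 0 < cos ps := cos_pos_of_mem_Ioo ⟨by linarith, hp⟩
  have hs0 : 0 < sin ps := by
    have h3 : 0 ≤ sin ps := Real.sin_nonneg_of_nonneg_of_le_pi h0 (by linarith)
    rcases h3.eq_or_lt with h4 | h4
    · rw [← h4] at hv
      norm_num at hv
      linarith
    · exact h4
  have hsc := Real.sin_sq_add_cos_sq ps
  -- the constants
  obtain ⟨w0, hw0'⟩ : ∃ w0, w0 = tan ps := ⟨_, rfl⟩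
  have hw0 : 0 < w0 := by
    rw [hw0', Real.tan_eq_sin_div_cos]
    positivity
  have hw2 : w0 ^ 2 = 1 / cos ps ^ 2 - 1 := by
    rw [hw0']
    exact PH_tan hc0.ne'
  have hw1 : 1 + w0 ^ 2 = 1 / cos ps ^ 2 := by
    rw [hw2]
    ring
  obtain ⟨K, hK⟩ : ∃ K, K = 0.65 * cos ps ^ 2 / v := ⟨_, rfl⟩
  have hK0 : 0 < K := by rw [hK]; positivity
  obtain ⟨a, ha⟩ : ∃ a, a = v * cos ps / (1.3 * sin ps) := ⟨_, rfl⟩
  obtain ⟨b, hb⟩ : ∃ b, b = a * (v / 0.65) * (1 / (2 * sin ps ^ 2) + 1) := ⟨_, rfl⟩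
  have ha0 : 0 < a := by rw [ha]; positivity
  have haK : a * K * (2 * (w0 * (1 + w0 ^ 2))) = 1 := by
    rw [hw1, hw0', Real.tan_eq_sin_div_cos, ha, hK]
    field_simp
    norm_num
  have hbK : b * K = a * (1 / (2 * w0 ^ 2) + 1 / (1 + w0 ^ 2)) := by
    have e1 : w0 ^ 2 = sin ps ^ 2 / cos ps ^ 2 := by
      rw [hw0', Real.tan_eq_sin_div_cos, div_pow]
    rw [hw1, e1, hb, hK]
    field_simp
  -- the function `η`
  let η : ℝ → ℝ := fun x => 1 - K * (w0 ^ 2 - tan x ^ 2)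
  have hη : ∀ x, 0 < cos x →
      (1 + 0.65 * cos ps ^ 2 / cos x ^ 2 - th ^ 2) / (33 / 20 - th ^ 2) = η x := by
    intro x hx
    simp only [η]
    rw [hw2, PH_tan hx.ne', ← hv', hK]
    have : th ^ 2 = 33 / 20 - v := by linarith
    rw [this]
    field_simp
    ring
  -- the zero of `η`
  have hth : 0.65 * cos ps ^ 2 ≤ th ^ 2 - 1 := by linarith
  have hth0 : 0 < th ^ 2 - 1 := by
    have : 0 < 0.65 * cos ps ^ 2 := by positivity
    linarith
  obtain ⟨q, hq⟩ : ∃ q, q = 0.65 * cos ps ^ 2 / (th ^ 2 - 1) := ⟨_, rfl⟩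
  have hq0 : 0 < q := by rw [hq]; positivity
  have hq1 : q ≤ 1 := by
    rw [hq, div_le_one hth0]
    exact hth
  have hqc : q * (th ^ 2 - 1) = 0.65 * cos ps ^ 2 := by
    rw [hq]
    exact div_mul_cancel₀ _ hth0.ne'
  have hcq : cos ps ^ 2 ≤ q := by
    have h3 : 0 < cos ps ^ 2 := by positivity
    nlinarith
  have hsq0 : 0 < √q := Real.sqrt_pos.mpr hq0
  have hsq1 : √q ≤ 1 := Real.sqrt_le_one.mpr hq1
  obtain ⟨x1, hx1⟩ : ∃ x1, x1 = arccos (√q) := ⟨_, rfl⟩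
  have hx10 : 0 ≤ x1 := by rw [hx1]; exact Real.arccos_nonneg _
  have hcx1 : cos x1 = √q := by
    rw [hx1]
    exact Real.cos_arccos (by linarith) hsq1
  have hcx2 : cos x1 ^ 2 = q := by
    rw [hcx1]
    exact Real.sq_sqrt hq0.le
  have hx1p : x1 ≤ ps := by
    rw [hx1, ← Real.arccos_cos h0 (by linarith)]
    apply Real.arccos_le_arccos
    exact Real.le_sqrt_of_sq_le hcq
  have hη1 : η x1 = 0 := by
    rw [← hη x1 (by rw [hcx1]; exact hsq0), hcx2, ← hqc]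
    rw [mul_div_cancel_left₀ _ hq0.ne']
    have : 1 + (th ^ 2 - 1) - th ^ 2 = 0 := by ring
    rw [this, zero_div]
  have hηp : η ps = 1 := by
    simp only [η]
    rw [← hw0']
    ring
  -- the cosine on the interval
  have hcx : ∀ x ∈ Icc x1 ps, 0 < cos x ∧ cos x ^ 2 ≤ q := by
    intro x hx
    have h3 : 0 < cos x := cos_pos_of_mem_Ioo ⟨by linarith [hx.1], by linarith [hx.2]⟩
    refine ⟨h3, ?_⟩
    rw [← hcx2]
    exact pow_le_pow_left₀ h3.le
      (Real.cos_le_cos_of_nonneg_of_le_pi hx10 (by linarith [hx.2]) hx.1) 2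
  -- the primitive
  let G : ℝ → ℝ := fun x => a * (η x ^ 3 / 3) + b * (η x ^ 3 / 3 - η x ^ 4 / 4)
  let G' : ℝ → ℝ := fun x => η x ^ 2 * (a + b * (1 - η x)) * (2 * K * tan x * (1 / cos x ^ 2))
  have hG : ∀ x ∈ uIcc x1 ps, HasDerivAt G (G' x) x := by
    intro x hx
    rw [uIcc_of_le hx1p] at hx
    have ht := Real.hasDerivAt_tan (hcx x hx).1.ne'
    have h3 : HasDerivAt η (2 * K * tan x * (1 / cos x ^ 2)) x := by
      have h4 := (((ht.pow 2).const_sub (w0 ^ 2)).const_mul K).const_sub 1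
      apply h4.congr_deriv
      push_cast
      ring
    have h5 := (((h3.pow 3).div_const 3).const_mul a).add
      ((((h3.pow 3).div_const 3).sub ((h3.pow 4).div_const 4)).const_mul b)
    apply h5.congr_deriv
    simp only [G']
    push_cast
    ring
  have hGc : ContinuousOn G' (Icc x1 ps) := by
    have ht : ContinuousOn tan (Icc x1 ps) := Real.continuousOn_tan.mono
      (fun x hx => (hcx x hx).1.ne')
    have hη' : ContinuousOn η (Icc x1 ps) := by
      simp only [η]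
      exact continuousOn_const.sub (continuousOn_const.mul (continuousOn_const.sub (ht.pow 2)))
    have hc : ContinuousOn (fun x => 1 / cos x ^ 2) (Icc x1 ps) :=
      continuousOn_const.div (Real.continuous_cos.pow 2).continuousOn
        (fun x hx => pow_ne_zero 2 (hcx x hx).1.ne')
    simp only [G']
    exact ((hη'.pow 2).mul (continuousOn_const.add (continuousOn_const.mul
      (continuousOn_const.sub hη')))).mul ((continuousOn_const.mul ht).mul hc)
  have hGi : IntervalIntegrable G' volume x1 ps := hGc.intervalIntegrable_of_Icc hx1p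
  have hFTC := intervalIntegral.integral_eq_sub_of_hasDerivAt hG hGi
  -- the pointwise bound
  have hpt : ∀ x ∈ Icc x1 ps, EE th (1 + 0.65 * cos ps ^ 2 / cos x ^ 2) ≤ 1 - G' x := by
    intro x hx
    obtain ⟨c1, c2⟩ := hcx x hx
    have hη0 : 0 ≤ η x := by
      rw [← hη x c1]
      apply div_nonneg _ (by linarith)
      have h3 : th ^ 2 - 1 ≤ 0.65 * cos ps ^ 2 / cos x ^ 2 := by
        rw [le_div_iff₀ (by positivity), ← hqc, mul_comm q]
        exact mul_le_mul_of_nonneg_left c2 hth0.le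
      linarith
    have hE : EE th (1 + 0.65 * cos ps ^ 2 / cos x ^ 2) = 1 - η x ^ 2 := by
      rw [EE, hη x c1, max_eq_left hη0]
    rw [hE]
    have hw : 0 ≤ tan x := by
      rw [Real.tan_eq_sin_div_cos]
      exact div_nonneg (Real.sin_nonneg_of_nonneg_of_le_pi (by linarith [hx.1])
        (by linarith [hx.2])) c1.le
    have hwle : tan x ≤ w0 := by
      rw [hw0']
      rcases hx.2.eq_or_lt with h3 | h3
      · rw [h3]
      · exact (Real.tan_lt_tan_of_nonneg_of_lt_pi_div_two (by linarith [hx.1]) hp h3).le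
    have hder := PH_der hw hw0 hwle
    have e1 : 1 / cos x ^ 2 = 1 + tan x ^ 2 := by
      rw [PH_tan c1.ne']
      ring
    have e2 : (a + b * (1 - η x)) * (2 * K * tan x * (1 / cos x ^ 2)) =
        a * K * 2 * (tan x * (1 + tan x ^ 2) * (1 + (w0 ^ 2 - tan x ^ 2) *
          (1 / (2 * w0 ^ 2) + 1 / (1 + w0 ^ 2)))) := by
      have e3 : b * (1 - η x) = b * K * (w0 ^ 2 - tan x ^ 2) := by
        simp only [η]
        ring
      rw [e1, e3, hbK]
      ring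
    have e4 : (a + b * (1 - η x)) * (2 * K * tan x * (1 / cos x ^ 2)) ≤ 1 := by
      rw [e2]
      have h5 := mul_le_mul_of_nonneg_left hder (show 0 ≤ a * K * 2 by positivity)
      refine h5.trans (le_of_eq ?_)
      calc a * K * 2 * (w0 * (1 + w0 ^ 2)) = a * K * (2 * (w0 * (1 + w0 ^ 2))) := by ring
        _ = 1 := haK
    have h6 := mul_le_mul_of_nonneg_left e4 (sq_nonneg (η x))
    simp only [G']
    have e5 : η x ^ 2 * (a + b * (1 - η x)) * (2 * K * tan x * (1 / cos x ^ 2)) =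
      η x ^ 2 * ((a + b * (1 - η x)) * (2 * K * tan x * (1 / cos x ^ 2))) := by ring
    rw [e5]
    linarith
  -- the integrals
  have hc := PH_cont th ps hp
  have i1 : IntervalIntegrable (fun x => EE th (1 + 0.65 * cos ps ^ 2 / cos x ^ 2)) volume
      0 x1 := (hc.mono (Icc_subset_Icc le_rfl hx1p)).intervalIntegrable_of_Icc hx10
  have i2 : IntervalIntegrable (fun x => EE th (1 + 0.65 * cos ps ^ 2 / cos x ^ 2)) volume
      x1 ps := (hc.mono (Icc_subset_Icc hx10 le_rfl)).intervalIntegrable_of_Icc hx1p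
  rw [PH, ← intervalIntegral.integral_add_adjacent_intervals i1 i2]
  have j1 : ∫ x in (0 : ℝ)..x1, EE th (1 + 0.65 * cos ps ^ 2 / cos x ^ 2) ≤ x1 := by
    have := intervalIntegral.integral_mono_on hx10 i1
      (intervalIntegrable_const (c := (1 : ℝ))) (fun x _ => EE_le_one th _)
    simpa using this
  have j2 : ∫ x in x1..ps, EE th (1 + 0.65 * cos ps ^ 2 / cos x ^ 2) ≤
      (ps - x1) - (G ps - G x1) := by
    rw [← hFTC]
    have h3 := intervalIntegral.integral_mono_on hx1p i2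
      ((intervalIntegrable_const (c := (1 : ℝ))).sub hGi) hpt
    rw [intervalIntegral.integral_sub intervalIntegrable_const hGi] at h3
    simpa using h3
  have hG1 : G x1 = 0 := by
    simp only [G]
    rw [hη1]
    ring
  have hG2 : G ps = a / 3 + b / 12 := by
    simp only [G]
    rw [hηp]
    ring
  rw [hG1, hG2] at j2
  have e6 : (33 / 20 - th ^ 2) * cos ps / (1.3 * sin ps) *
      (1 / 3 + (33 / 20 - th ^ 2) / 7.8 + (33 / 20 - th ^ 2) / (15.6 * sin ps ^ 2)) =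
      a / 3 + b / 12 := by
    rw [← hv', ← ha, hb]
    field_simp
    ring
  rw [e6]
  linarith

end Pool.Agent.SDL
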