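import Pool.Agent.SDL.P6_B
import Pool.Agent.SDL.P6_Cpol
import Pool.Agent.SDL.P_TG

set_option autoImplicit false

/-!
# SDL, P, at least six near sides: the inequalities in one variable
-/

open MeasureTheory Set Real
open scoped RealInnerProductSpace

namespace Pool.Agent.SDL

open Pool.Agent.SDC

/-! ## The angle of a side -/

theorem c6_sin_le {x : ℝ} (h0 : 0 ≤ x) (h1 : x ≤ 1) : sin x ≤ x - x ^ 3 / 6 + x ^ 5 / 100 := by
  have h := Real.sin_bound (x := x) (by rw [abs_of_nonneg h0]; exact h1)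
  rw [abs_of_nonneg h0] at h
  linarith [(abs_le.mp h).2]

/-- A lower bound of the cosine. -/
theorem c6_cos_ge {x : ℝ} (h0 : 0 ≤ x) (h1 : x ≤ 1) :
    1 - 2 * (x / 2 - (x / 2) ^ 3 / 6 + (x / 2) ^ 5 / 100) ^ 2 ≤ cos x := by
  have h2 : cos x = 1 - 2 * sin (x / 2) ^ 2 := by
    have h3 := Real.cos_two_mul (x / 2)
    have h4 := Real.sin_sq_add_cos_sq (x / 2)
    rw [show 2 * (x / 2) = x by ring] at h3
    linarith
  have h5 := c6_sin_le (x := x / 2) (by linarith) (by linarith)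
  have h6 : 0 ≤ sin (x / 2) := by
    apply Real.sin_nonneg_of_nonneg_of_le_pi
    · linarith
    · linarith [Real.pi_gt_three]
  have h7 := pow_le_pow_left₀ h6 h5 2
  rw [h2]
  linarith

theorem c6_cos : (0.65 : ℝ) ≤ cos 0.8632 := by
  have h1 := c6_cos_ge (x := 0.4316) (by norm_num) (by norm_num)
  have h2 : (0.9082969 : ℝ) ≤ cos 0.4316 := by
    refine le_trans ?_ h1
    norm_num
  have h3 : cos (0.8632 : ℝ) = 2 * cos 0.4316 ^ 2 - 1 := by
    rw [← Real.cos_two_mul]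
    norm_num
  rw [h3]
  nlinarith

theorem c6_sin : sin (0.8632 : ℝ) ≤ 0.75994 := by
  have h1 := c6_cos
  have h2 := Real.sin_sq_add_cos_sq (0.8632 : ℝ)
  nlinarith

theorem c6_chi (S : ℝ) (h0 : 0 ≤ S) (h1 : S ≤ 0.457) :
    0.8632 + S * (0.852 - 0.273 * S + 0.146 * S ^ 2) ≤ arccos (0.65 * (1 - S)) := by
  have hπ := Real.pi_gt_three
  obtain ⟨Y, hY⟩ : ∃ Y, Y = S * (0.852 - 0.273 * S + 0.146 * S ^ 2) := ⟨_, rfl⟩
  have hp : 0 ≤ 0.65 - 0.75994 * (0.852 - 0.273 * S + 0.146 * S ^ 2) -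
      0.325 * S * (0.852 - 0.273 * S + 0.146 * S ^ 2) ^ 2 +
      0.1256 * S ^ 2 * (0.852 - 0.273 * S + 0.146 * S ^ 2) ^ 3 := by
    rcases le_total S 0.2 with h | h
    · exact c6_chi1 S h0 h
    · exact c6_chi2 S h h1
  have hp2 := mul_nonneg h0 hp
  have hpol : 0 ≤ 0.65 * S - 0.75994 * Y - 0.325 * Y ^ 2 + 0.1256 * Y ^ 3 := by
    rw [hY]
    refine hp2.trans_eq ?_
    ring
  rw [← hY]
  have hY0 : 0 ≤ Y := by
    rw [hY]
    apply mul_nonneg h0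
    nlinarith
  have hY1 : Y ≤ 0.36 := by
    have h2 : 0.852 - 0.273 * S + 0.146 * S ^ 2 ≤ 0.852 - 0.2 * S := by nlinarith
    have h3 := mul_le_mul_of_nonneg_left h2 h0
    rw [← hY] at h3
    nlinarith
  have hc := Real.one_sub_sq_div_two_le_cos (x := Y)
  have hs := c6_sin_le hY0 (by linarith)
  have hs0 : 0 ≤ sin Y := Real.sin_nonneg_of_nonneg_of_le_pi hY0 (by linarith)
  have hc0 : 0 ≤ 1 - Y ^ 2 / 2 := by nlinarith
  have hadd := Real.cos_add 0.8632 Y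
  have a1 : 0.65 * (1 - Y ^ 2 / 2) ≤ cos 0.8632 * cos Y :=
    mul_le_mul c6_cos hc hc0 (by linarith [c6_cos])
  have a2 : sin 0.8632 * sin Y ≤ 0.75994 * (Y - Y ^ 3 / 6 + Y ^ 5 / 100) :=
    mul_le_mul c6_sin hs hs0 (by norm_num)
  have a3 : Y ^ 5 ≤ 0.1296 * Y ^ 3 := by
    have : Y ^ 2 ≤ 0.1296 := by nlinarith
    have h3 : 0 ≤ Y ^ 3 := by positivity
    calc Y ^ 5 = Y ^ 2 * Y ^ 3 := by ring
      _ ≤ 0.1296 * Y ^ 3 := mul_le_mul_of_nonneg_right this h3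
  have a4 : 0 ≤ Y ^ 3 := by positivity
  have hcos : 0.65 * (1 - S) ≤ cos (0.8632 + Y) := by
    rw [hadd]
    linarith
  calc 0.8632 + Y = arccos (cos (0.8632 + Y)) :=
        (Real.arccos_cos (by linarith) (by linarith)).symm
    _ ≤ _ := Real.arccos_le_arccos hcos

theorem c6_chi3 : 0.8632 + 0.338 ≤ arccos 0.36095 := by
  have hπ := Real.pi_gt_three
  have h1 := c6_cos_ge (x := 0.6006) (by norm_num) (by norm_num)
  have h2 : (0.82495 : ℝ) ≤ cos 0.6006 := by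
    refine le_trans ?_ h1
    norm_num
  have h3 : cos (0.8632 + 0.338 : ℝ) = 2 * cos 0.6006 ^ 2 - 1 := by
    rw [← Real.cos_two_mul]
    norm_num
  have h4 : (0.36095 : ℝ) ≤ cos (0.8632 + 0.338) := by
    rw [h3]
    nlinarith
  calc (0.8632 + 0.338 : ℝ) = arccos (cos (0.8632 + 0.338)) :=
        (Real.arccos_cos (by norm_num) (by linarith)).symm
    _ ≤ _ := Real.arccos_le_arccos h4

/-! ## Bounds of the closed form -/

theorem c6_mono {f f' : ℝ → ℝ} {ψ : ℝ} (h0 : 0 ≤ ψ)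
    (hd : ∀ x ∈ Icc 0 ψ, HasDerivAt f (f' x) x) (hf : ∀ x ∈ Icc 0 ψ, 0 ≤ f' x) : f 0 ≤ f ψ := by
  have hm : MonotoneOn f (Icc 0 ψ) := by
    apply monotoneOn_of_deriv_nonneg (convex_Icc 0 ψ)
    · exact fun x hx => (hd x hx).continuousAt.continuousWithinAt
    · intro x hx
      rw [interior_Icc] at hx
      exact (hd x (Ioo_subset_Icc_self hx)).differentiableAt.differentiableWithinAt
    · intro x hx
      rw [interior_Icc] at hx
      rw [(hd x (Ioo_subset_Icc_self hx)).deriv]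
      exact hf x (Ioo_subset_Icc_self hx)
  exact hm (left_mem_Icc.2 h0) (right_mem_Icc.2 h0) h0

theorem c6_sin_mem {x ψ : ℝ} (hx : x ∈ Icc 0 ψ) (hψ : ψ < π / 2) :
    0 ≤ sin x ∧ sin x ^ 2 ≤ sin ψ ^ 2 ∧ 0 < cos x := by
  have hπ := Real.pi_pos
  have h0 : 0 ≤ sin x := Real.sin_nonneg_of_nonneg_of_le_pi hx.1 (by linarith [hx.2])
  refine ⟨h0, ?_, cos_pos_of_mem_Ioo ⟨by linarith [hx.1], by linarith [hx.2]⟩⟩
  apply pow_le_pow_left₀ h0
  exact Real.sin_le_sin_of_le_of_le_pi_div_two (by linarith [hx.1]) hψ.le hx.2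

theorem c6_K1 {ψ : ℝ} (h0 : 0 ≤ ψ) (h1 : ψ < π / 2) (h2 : sin ψ ^ 2 ≤ 0.3142) :
    ψ - sin ψ * cos ψ ≤ 2 / 3 * sin ψ ^ 3 + sin ψ ^ 5 / 5 + 0.146 * sin ψ ^ 7 := by
  have key := c6_mono (f := fun x => 2 / 3 * sin x ^ 3 + sin x ^ 5 / 5 + 0.146 * sin x ^ 7 -
      (x - sin x * cos x))
    (f' := fun x => cos x * (2 * sin x ^ 2 + sin x ^ 4 + 1.022 * sin x ^ 6) -
      (1 - (cos x * cos x + sin x * (- sin x)))) h0
    (fun x _ => by
      have hs := Real.hasDerivAt_sin x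
      have hc := Real.hasDerivAt_cos x
      refine ((((((hs.pow 3).const_mul (2 / 3)).add ((hs.pow 5).div_const 5)).add
        ((hs.pow 7).const_mul 0.146)).sub
        ((hasDerivAt_id x).sub (hs.mul hc))).congr_deriv ?_)
      norm_num
      ring)
    (fun x hx => by
      obtain ⟨a, b, c⟩ := c6_sin_mem hx h1
      have hsc := Real.sin_sq_add_cos_sq x
      obtain ⟨S, hS⟩ : ∃ S, S = sin x ^ 2 := ⟨_, rfl⟩
      have hS0 : 0 ≤ S := by rw [hS]; positivity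
      have hS1 : S ≤ 0.3142 := by rw [hS]; linarith
      have hcS : cos x ^ 2 = 1 - S := by rw [hS]; linarith
      have hq : 0 ≤ 1.088 - 3.044 * S - 0.999516 * S ^ 2 - 1.044484 * S ^ 3 := by
        have e2 : S ^ 2 ≤ 0.3142 ^ 2 := pow_le_pow_left₀ hS0 hS1 2
        have e3 : S ^ 3 ≤ 0.3142 ^ 3 := pow_le_pow_left₀ hS0 hS1 3
        norm_num at e2 e3
        linarith
      have h4 : 2 ^ 2 ≤ (cos x * (2 + S + 1.022 * S ^ 2)) ^ 2 := by
        rw [mul_pow, hcS]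
        have := mul_nonneg (sq_nonneg S) hq
        linarith
      have h5 : 2 ≤ cos x * (2 + S + 1.022 * S ^ 2) := by
        apply le_of_sq_le_sq h4
        positivity
      have h6 := mul_le_mul_of_nonneg_right h5 hS0
      have e1 : cos x * (2 * sin x ^ 2 + sin x ^ 4 + 1.022 * sin x ^ 6) =
          cos x * (2 + S + 1.022 * S ^ 2) * S := by
        rw [hS]
        ring
      have e2 : 1 - (cos x * cos x + sin x * (- sin x)) = 2 * S := by
        rw [hS]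
        linarith
      show 0 ≤ cos x * (2 * sin x ^ 2 + sin x ^ 4 + 1.022 * sin x ^ 6) -
        (1 - (cos x * cos x + sin x * (- sin x)))
      rw [e1, e2]
      linarith)
  norm_num at key
  linarith

theorem c6_K2 {ψ : ℝ} (h0 : 0 ≤ ψ) (h1 : ψ < π / 2) :
    8 / 15 * sin ψ ^ 5 + 4 / 21 * sin ψ ^ 7 ≤
      ψ - sin ψ * cos ψ * (1 + 2 / 3 * sin ψ ^ 2) := by
  have key := c6_mono (f := fun x => (x - (sin x * cos x + 2 / 3 * (sin x ^ 3 * cos x))) -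
      (8 / 15 * sin x ^ 5 + 4 / 21 * sin x ^ 7))
    (f' := fun x => (1 - ((cos x * cos x + sin x * (- sin x)) +
      2 / 3 * ((3 * sin x ^ 2 * cos x) * cos x + sin x ^ 3 * (- sin x)))) -
      cos x * (8 / 3 * sin x ^ 4 + 4 / 3 * sin x ^ 6)) h0
    (fun x _ => by
      have hs := Real.hasDerivAt_sin x
      have hc := Real.hasDerivAt_cos x
      refine ((((hasDerivAt_id x).sub ((hs.mul hc).add
        (((hs.pow 3).mul hc).const_mul (2 / 3)))).sub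
        (((hs.pow 5).const_mul (8 / 15)).add ((hs.pow 7).const_mul (4 / 21)))).congr_deriv ?_)
      norm_num
      ring)
    (fun x hx => by
      obtain ⟨a, b, c⟩ := c6_sin_mem hx h1
      have hsc := Real.sin_sq_add_cos_sq x
      obtain ⟨S, hS⟩ : ∃ S, S = sin x ^ 2 := ⟨_, rfl⟩
      have hS0 : 0 ≤ S := by rw [hS]; positivity
      have hcS : cos x ^ 2 = 1 - S := by rw [hS]; linarith
      have h4 : (cos x * (2 + S)) ^ 2 ≤ 2 ^ 2 := by
        rw [mul_pow, hcS]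
        have h5 : 0 ≤ S ^ 2 * (3 + S) := by positivity
        linarith
      have h5 : cos x * (2 + S) ≤ 2 := by
        apply le_of_sq_le_sq h4
        norm_num
      have h6 := mul_le_mul_of_nonneg_right h5 (sq_nonneg S)
      have e1 : cos x * (8 / 3 * sin x ^ 4 + 4 / 3 * sin x ^ 6) =
          4 / 3 * (cos x * (2 + S) * S ^ 2) := by
        rw [hS]
        ring
      have e2 : 1 - ((cos x * cos x + sin x * (- sin x)) +
          2 / 3 * ((3 * sin x ^ 2 * cos x) * cos x + sin x ^ 3 * (- sin x))) =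
          8 / 3 * S ^ 2 := by
        have e3 : (3 * sin x ^ 2 * cos x) * cos x + sin x ^ 3 * (- sin x) =
            3 * S * cos x ^ 2 - S ^ 2 := by
          rw [hS]
          ring
        have e4 : cos x * cos x + sin x * (- sin x) = cos x ^ 2 - S := by
          rw [hS]
          ring
        rw [e3, e4, hcS]
        ring
      show 0 ≤ (1 - ((cos x * cos x + sin x * (- sin x)) +
        2 / 3 * ((3 * sin x ^ 2 * cos x) * cos x + sin x ^ 3 * (- sin x)))) -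
        cos x * (8 / 3 * sin x ^ 4 + 4 / 3 * sin x ^ 6)
      rw [e1, e2]
      linarith)
  norm_num at key
  linarith

theorem c6_psi {ψ : ℝ} (h0 : 0 ≤ ψ) (h1 : ψ < π / 2) (h2 : sin ψ ^ 2 ≤ 0.457) :
    ψ ≤ sin ψ + sin ψ ^ 3 / 6 + 3 / 40 * sin ψ ^ 5 + 0.0753 * sin ψ ^ 7 := by
  have key := c6_mono (f := fun x => sin x + sin x ^ 3 / 6 + 3 / 40 * sin x ^ 5 +
      0.0753 * sin x ^ 7 - x)
    (f' := fun x => cos x * (1 + sin x ^ 2 / 2 + 3 / 8 * sin x ^ 4 + 0.5271 * sin x ^ 6) - 1) h0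
    (fun x _ => by
      have hs := Real.hasDerivAt_sin x
      refine (((((hs.add ((hs.pow 3).div_const 6)).add ((hs.pow 5).const_mul (3 / 40))).add
        ((hs.pow 7).const_mul 0.0753)).sub (hasDerivAt_id x)).congr_deriv ?_)
      norm_num
      ring)
    (fun x hx => by
      obtain ⟨a, b, c⟩ := c6_sin_mem hx h1
      have hsc := Real.sin_sq_add_cos_sq x
      obtain ⟨S, hS⟩ : ∃ S, S = sin x ^ 2 := ⟨_, rfl⟩
      have hS0 : 0 ≤ S := by rw [hS]; positivity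
      have hS1 : S ≤ 0.457 := by rw [hS]; linarith
      have hcS : cos x ^ 2 = 1 - S := by rw [hS]; linarith
      have hq : 0 ≤ 0.4292 - 0.761475 * S - 0.2724 * S ^ 2 - 0.11749059 * S ^ 3 -
          0.27783441 * S ^ 4 := by
        have e2 : S ^ 2 ≤ 0.457 ^ 2 := pow_le_pow_left₀ hS0 hS1 2
        have e3 : S ^ 3 ≤ 0.457 ^ 3 := pow_le_pow_left₀ hS0 hS1 3
        have e4 : S ^ 4 ≤ 0.457 ^ 4 := pow_le_pow_left₀ hS0 hS1 4
        norm_num at e2 e3 e4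
        linarith
      have h4 : 1 ^ 2 ≤ (cos x * (1 + S / 2 + 3 / 8 * S ^ 2 + 0.5271 * S ^ 3)) ^ 2 := by
        rw [mul_pow, hcS]
        have := mul_nonneg (pow_nonneg hS0 3) hq
        linarith
      have h5 : 1 ≤ cos x * (1 + S / 2 + 3 / 8 * S ^ 2 + 0.5271 * S ^ 3) := by
        apply le_of_sq_le_sq h4
        positivity
      have e1 : cos x * (1 + sin x ^ 2 / 2 + 3 / 8 * sin x ^ 4 + 0.5271 * sin x ^ 6) =
          cos x * (1 + S / 2 + 3 / 8 * S ^ 2 + 0.5271 * S ^ 3) := by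
        rw [hS]
        ring
      show 0 ≤ cos x * (1 + sin x ^ 2 / 2 + 3 / 8 * sin x ^ 4 + 0.5271 * sin x ^ 6) - 1
      rw [e1]
      linarith)
  norm_num at key
  linarith

theorem c6_cosl {ψ : ℝ} (hc : 0 < cos ψ) (h2 : sin ψ ^ 2 ≤ 0.457) :
    1 - sin ψ ^ 2 / 2 - sin ψ ^ 4 / 8 - 0.0892 * sin ψ ^ 6 ≤ cos ψ := by
  have hsc := Real.sin_sq_add_cos_sq ψ
  obtain ⟨S, hS⟩ : ∃ S, S = sin ψ ^ 2 := ⟨_, rfl⟩
  have hS0 : 0 ≤ S := by rw [hS]; positivity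
  have hS1 : S ≤ 0.457 := by rw [hS]; linarith
  have hcS : cos ψ ^ 2 = 1 - S := by rw [hS]; linarith
  have e1 : 1 - sin ψ ^ 2 / 2 - sin ψ ^ 4 / 8 - 0.0892 * sin ψ ^ 6 =
      1 - S / 2 - S ^ 2 / 8 - 0.0892 * S ^ 3 := by
    rw [hS]
    ring
  rw [e1]
  apply le_of_sq_le_sq _ hc.le
  rw [hcS]
  have hq : 0.104825 * S + 0.0223 * S ^ 2 + 0.00795664 * S ^ 3 ≤ 0.0534 := by
    have e2 : S ^ 2 ≤ 0.457 ^ 2 := pow_le_pow_left₀ hS0 hS1 2
    have e3 : S ^ 3 ≤ 0.457 ^ 3 := pow_le_pow_left₀ hS0 hS1 3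
    norm_num at e2 e3
    linarith
  have := mul_nonneg (pow_nonneg hS0 3) (sub_nonneg.2 hq)
  linarith

theorem PH_nonneg {θ ψ : ℝ} (hθ : θ ^ 2 < 33 / 20) (h0 : 0 ≤ ψ) (h1 : ψ < π / 2) :
    0 ≤ PH θ ψ := by
  unfold PH
  apply intervalIntegral.integral_nonneg h0
  intro x hx
  have hπ := Real.pi_pos
  apply EE_nonneg hθ
  have c0 : 0 < cos x := cos_pos_of_mem_Ioo ⟨by linarith [hx.1], by linarith [hx.2]⟩
  have c1 : cos ψ ≤ cos x :=
    Real.cos_le_cos_of_nonneg_of_le_pi hx.1 (by linarith) hx.2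
  have c2 : 0 < cos ψ := cos_pos_of_mem_Ioo ⟨by linarith, h1⟩
  have c3 : cos ψ ^ 2 / cos x ^ 2 ≤ 1 := by
    rw [div_le_one (by positivity)]
    exact pow_le_pow_left₀ c2.le c1 2
  rw [mul_div_assoc]
  linarith

theorem c6_779 {ψ : ℝ} (h0 : 0 ≤ ψ) (h1 : ψ < π / 2) (h2 : 0.507 ≤ cos ψ ^ 2) : ψ ≤ 0.779 := by
  have hπ := Real.pi_pos
  by_contra hcon
  push Not at hcon
  have h3 : cos ψ ≤ cos 0.779 :=
    Real.cos_le_cos_of_nonneg_of_le_pi (by norm_num) (by linarith) hcon.le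
  have h4 := TG_cos 0.779 (by norm_num) (by norm_num)
  have h5 : cos (0.779 : ℝ) ≤ 0.71175 := by
    refine h4.trans ?_
    norm_num
  have h6 : 0 ≤ cos ψ := cos_nonneg_of_mem_Icc ⟨by linarith, h1.le⟩
  nlinarith

/-- The general form of the inequality for one `θ`. -/
theorem c6_gen {θ m Mb k1 k2 k3 k4 : ℝ} (h1 : 1 ≤ θ) (hm : 0 < m) (hM : MM θ ≤ Mb)
    (hv0 : 0 < 33 / 20 - θ ^ 2) (hv1 : 33 / 20 - θ ^ 2 ≤ 0.20423)
    (hk1 : 2 * Mb * (0.65 / (33 / 20 - θ ^ 2)) ≤ k1)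
    (hk2 : k2 ≤ Mb * (0.65 / (33 / 20 - θ ^ 2)) ^ 2) (hk2' : 0 ≤ k2)
    (hk3 : k3 ≤ Mb * ((33 / 20 - θ ^ 2) / 1.3) * (1 / 3 + (33 / 20 - θ ^ 2) / 7.8))
    (hk3' : 0 ≤ k3)
    (hk4 : k4 ≤ Mb * ((33 / 20 - θ ^ 2) / 1.3) * ((33 / 20 - θ ^ 2) / 15.6)) (hk4' : 0 ≤ k4)
    (ha : ∀ s : ℝ, 0 ≤ s → 0.65 * s ^ 2 ≤ 33 / 20 - θ ^ 2 →
      0 ≤ m * (0.852 - 0.273 * s ^ 2 + 0.146 * s ^ 4) -
        k1 * (2 / 3 * s + s ^ 3 / 5 + 0.146 * s ^ 5) + k2 * (8 / 15 * s ^ 3 + 4 / 21 * s ^ 5))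
    (hb : ∀ s : ℝ, 0 ≤ s → 33 / 20 - θ ^ 2 ≤ 0.65 * s ^ 2 → s ^ 2 ≤ 0.457 →
      0 ≤ s ^ 3 * (m * (0.852 * s ^ 2 - 0.273 * s ^ 4 + 0.146 * s ^ 6) -
        Mb * (s + s ^ 3 / 6 + 3 / 40 * s ^ 5 + 0.0753 * s ^ 7)) +
        (1 - s ^ 2 / 2 - s ^ 4 / 8 - 0.0892 * s ^ 6) * (k3 * s ^ 2 + k4))
    (hc : Mb * (0.779 - (33 / 20 - θ ^ 2) * 1.014 / 1.3 *
      (1 / 3 + (33 / 20 - θ ^ 2) / 7.8 + (33 / 20 - θ ^ 2) / (15.6 * 0.493))) ≤ m * 0.338)
    {ψ z : ℝ} (hψ0 : 0 < ψ) (hψ1 : ψ < π / 2) (hC : 0.507 ≤ cos ψ ^ 2)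
    (hz : z ≤ 0.65 * cos ψ ^ 2 ∨ (cos ψ ^ 2 ≤ 0.543 ∧ z ≤ 0.65 * cos ψ ^ 2 + 0.008)) :
    MM θ * PH θ ψ ≤ m * (arccos z - 0.8632) := by
  have hπ := Real.pi_pos
  have hθ2 : θ ^ 2 < 33 / 20 := by linarith
  have hPH := PH_nonneg (θ := θ) hθ2 hψ0.le hψ1
  have hM0 : 0 ≤ Mb := (MM_nonneg (by linarith)).trans hM
  have hMP : MM θ * PH θ ψ ≤ Mb * PH θ ψ := mul_le_mul_of_nonneg_right hM hPH
  have hsc := Real.sin_sq_add_cos_sq ψ
  have hs0 : 0 < sin ψ := Real.sin_pos_of_pos_of_lt_pi hψ0 (by linarith)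
  have hc0 : 0 < cos ψ := cos_pos_of_mem_Ioo ⟨by linarith, hψ1⟩
  have hlow := PH_low (th := θ) (ps := ψ) h1 hθ2 hψ0.le hψ1
  have hhigh := PH_high (th := θ) (ps := ψ) h1 hθ2 hψ0.le hψ1
  obtain ⟨v, hv⟩ : ∃ v, v = 33 / 20 - θ ^ 2 := ⟨_, rfl⟩
  rw [← hv] at hv0 hv1 hk1 hk2 hk3 hk4 hc hlow hhigh
  rw [← hv] at ha hb
  by_cases hcase : 0.543 ≤ cos ψ ^ 2 ∧ z ≤ 0.65 * cos ψ ^ 2
  · obtain ⟨hC2, hz2⟩ := hcase
    have hS : sin ψ ^ 2 ≤ 0.457 := by linarith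
    have hchi := c6_chi (sin ψ ^ 2) (by positivity) hS
    have hz3 : arccos (0.65 * (1 - sin ψ ^ 2)) ≤ arccos z := by
      apply Real.arccos_le_arccos
      have : 1 - sin ψ ^ 2 = cos ψ ^ 2 := by linarith
      rw [this]
      exact hz2
    have hsuf : Mb * PH θ ψ ≤
        m * (sin ψ ^ 2 * (0.852 - 0.273 * sin ψ ^ 2 + 0.146 * (sin ψ ^ 2) ^ 2)) := by
      rcases le_total (0.65 * sin ψ ^ 2) v with hcv | hcv
      · rw [hlow hcv]
        have hS2 : sin ψ ^ 2 ≤ 0.3142 := by linarith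
        have b1 := c6_K1 hψ0.le hψ1 hS2
        have b2 := c6_K2 hψ0.le hψ1
        have b3 : 0 ≤ ψ - sin ψ * cos ψ := by
          have c1 := Real.sin_le hψ0.le
          have c2 := Real.cos_le_one ψ
          nlinarith
        have b4 : 0 ≤ 8 / 15 * sin ψ ^ 5 + 4 / 21 * sin ψ ^ 7 := by positivity
        have b5 := ha (sin ψ) hs0.le hcv
        have hk10 : 0 ≤ k1 := le_trans (by positivity) hk1
        generalize ψ - sin ψ * cos ψ = K1 at *
        generalize ψ - sin ψ * cos ψ * (1 + 2 / 3 * sin ψ ^ 2) = K2 at *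
        have e1 : Mb * (2 * (0.65 / v) * K1 - (0.65 / v) ^ 2 * K2) =
            2 * Mb * (0.65 / v) * K1 - Mb * (0.65 / v) ^ 2 * K2 := by ring
        rw [e1]
        have d1 : 2 * Mb * (0.65 / v) * K1 ≤ k1 * K1 := mul_le_mul_of_nonneg_right hk1 b3
        have d2 := mul_le_mul_of_nonneg_left b1 hk10
        have d3 : k2 * K2 ≤ Mb * (0.65 / v) ^ 2 * K2 :=
          mul_le_mul_of_nonneg_right hk2 (b4.trans b2)
        have d4 := mul_le_mul_of_nonneg_left b2 hk2'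
        have d5 := mul_nonneg (sq_nonneg (sin ψ)) b5
        linarith
      · have b1 := hhigh hcv
        have b2 := c6_psi hψ0.le hψ1 hS
        have b3 := c6_cosl hc0 hS
        have b4 := hb (sin ψ) hs0.le hcv hS
        generalize sin ψ = s at *
        generalize cos ψ = c at *
        have hs3 : 0 < s ^ 3 := by positivity
        have e1 : v * c / (1.3 * s) * (1 / 3 + v / 7.8 + v / (15.6 * s ^ 2)) =
            c * ((v / 1.3) * (1 / 3 + v / 7.8) * s ^ 2 + (v / 1.3) * (v / 15.6)) / s ^ 3 := by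
          field_simp
        have d1 : k3 * s ^ 2 + k4 ≤
            Mb * ((v / 1.3) * (1 / 3 + v / 7.8) * s ^ 2 + (v / 1.3) * (v / 15.6)) := by
          have := mul_le_mul_of_nonneg_right hk3 (sq_nonneg s)
          linarith
        have d2 : 0 ≤ k3 * s ^ 2 + k4 := by positivity
        have d3 : (1 - s ^ 2 / 2 - s ^ 4 / 8 - 0.0892 * s ^ 6) * (k3 * s ^ 2 + k4) ≤
            Mb * (c * ((v / 1.3) * (1 / 3 + v / 7.8) * s ^ 2 + (v / 1.3) * (v / 15.6))) := by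
          have c1 := mul_le_mul_of_nonneg_right b3 d2
          have c2 := mul_le_mul_of_nonneg_left d1 hc0.le
          linarith
        have d4 : Mb * PH θ ψ ≤ Mb * ψ - Mb * (c * ((v / 1.3) * (1 / 3 + v / 7.8) * s ^ 2 +
            (v / 1.3) * (v / 15.6))) / s ^ 3 := by
          have c1 := mul_le_mul_of_nonneg_left b1 hM0
          rw [e1] at c1
          refine c1.trans_eq ?_
          ring
        have d5 : Mb * ψ ≤ Mb * (s + s ^ 3 / 6 + 3 / 40 * s ^ 5 + 0.0753 * s ^ 7) :=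
          mul_le_mul_of_nonneg_left b2 hM0
        have d6 : Mb * (s + s ^ 3 / 6 + 3 / 40 * s ^ 5 + 0.0753 * s ^ 7) -
            m * (s ^ 2 * (0.852 - 0.273 * s ^ 2 + 0.146 * (s ^ 2) ^ 2)) ≤
            Mb * (c * ((v / 1.3) * (1 / 3 + v / 7.8) * s ^ 2 +
            (v / 1.3) * (v / 15.6))) / s ^ 3 := by
          rw [le_div_iff₀ hs3]
          linarith
        linarith
    have h5 : m * (sin ψ ^ 2 * (0.852 - 0.273 * sin ψ ^ 2 + 0.146 * (sin ψ ^ 2) ^ 2)) ≤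
        m * (arccos z - 0.8632) := by
      apply mul_le_mul_of_nonneg_left _ hm.le
      linarith
    linarith
  · have hC2 : cos ψ ^ 2 ≤ 0.543 := by
      by_contra hcon
      push Not at hcon
      rcases hz with h | h
      · exact hcase ⟨hcon.le, h⟩
      · linarith [h.1]
    have hz2 : z ≤ 0.36095 := by
      rcases hz with h | h
      · linarith
      · linarith [h.2]
    have hz3 := Real.arccos_le_arccos hz2
    have hz4 := c6_chi3
    have hS1 : 0.457 ≤ sin ψ ^ 2 := by linarith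
    have hS2 : sin ψ ^ 2 ≤ 0.493 := by linarith
    have b1 := hhigh (by linarith)
    have b2 := c6_779 hψ0.le hψ1 hC
    have b3 : 1.014 * sin ψ ≤ cos ψ := by
      apply le_of_sq_le_sq _ hc0.le
      rw [mul_pow]
      norm_num
      linarith
    have hsuf : Mb * PH θ ψ ≤ m * 0.338 := by
      refine le_trans ?_ hc
      apply mul_le_mul_of_nonneg_left _ hM0
      refine b1.trans ?_
      have c1 : v * 1.014 / 1.3 ≤ v * cos ψ / (1.3 * sin ψ) := by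
        rw [div_le_div_iff₀ (by norm_num) (by positivity)]
        nlinarith
      have c2 : v / (15.6 * 0.493) ≤ v / (15.6 * sin ψ ^ 2) :=
        div_le_div_of_nonneg_left hv0.le (by positivity) (by linarith)
      have c3 : v * 1.014 / 1.3 * (1 / 3 + v / 7.8 + v / (15.6 * 0.493)) ≤
          v * cos ψ / (1.3 * sin ψ) * (1 / 3 + v / 7.8 + v / (15.6 * sin ψ ^ 2)) :=
        mul_le_mul c1 (by linarith) (by positivity) (by positivity)
      linarith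
    have h5 : m * 0.338 ≤ m * (arccos z - 0.8632) := by
      apply mul_le_mul_of_nonneg_left _ hm.le
      linarith
    linarith

theorem MM_le {θ : ℝ} (h0 : 0 < θ) (h1 : θ ≤ 1.28) :
    MM θ ≤ (1.284524 - θ) ^ 2 * (1.284524 + 2 * θ) / (2 * 1.284524) := by
  have hu := RP_pos
  have hu2 := RP_sq
  have h2 : RP ≤ 1.284524 := by nlinarith
  have h3 : 1.284523 ≤ RP := by nlinarith
  have e1 : ∀ u : ℝ, 0 < u → (u - θ) ^ 2 * (u + 2 * θ) / (2 * u) =
      u ^ 2 / 2 + θ ^ 3 / u - 3 / 2 * θ ^ 2 := by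
    intro u hu
    field_simp
    ring
  rw [MM, e1 RP hu, e1 1.284524 (by norm_num)]
  have h4 : θ ^ 3 / RP - θ ^ 3 / 1.284524 = θ ^ 3 * (1.284524 - RP) / (RP * 1.284524) := by
    field_simp
  have h5 : θ ^ 3 * (1.284524 - RP) / (RP * 1.284524) ≤ (1.284524 - RP) * (1.284524 + RP) / 2 := by
    rw [div_le_div_iff₀ (by positivity) (by norm_num)]
    have h6 : θ ^ 3 * 2 ≤ (1.284524 + RP) * (RP * 1.284524) := by
      have h7 : θ ^ 3 ≤ 1.28 ^ 3 := pow_le_pow_left₀ h0.le h1 3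
      norm_num at h7
      nlinarith
    have h8 := mul_le_mul_of_nonneg_left h6 (sub_nonneg.2 h2)
    linarith
  have h9 : RP ^ 2 / 2 + (1.284524 - RP) * (1.284524 + RP) / 2 = 1.284524 ^ 2 / 2 := by ring
  linarith

end Pool.Agent.SDL
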