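import Pool.Agent.SDL.Targets2

set_option autoImplicit false

/-!
# SDL: target LRK (lattices of smaller rank: the cell has infinite volume)
-/

open MeasureTheory Set Real
open scoped RealInnerProductSpace

namespace Pool.Agent.SDL

open Pool.Agent.SDC

theorem p_LRK : T_LRK := by
  intro L hL hsp
  have hort : (Submodule.span ℝ (L : Set E3))ᗮ ≠ ⊥ := by
    intro h
    exact hsp ((Submodule.orthogonal_eq_bot_iff).1 h)
  obtain ⟨u, hu, hu0⟩ := Submodule.exists_mem_ne_zero_of_ne_bot hort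
  have huw : ∀ w ∈ L, ⟪w, u⟫ = 0 := fun w hw =>
    (Submodule.mem_orthogonal _ _).1 hu w (Submodule.subset_span hw)
  have hun : (0 : ℝ) < ‖u‖ := norm_pos_iff.2 hu0
  obtain ⟨e, he⟩ : ∃ e : E3, e = (1 / ‖u‖) • u := ⟨_, rfl⟩
  have hen : ‖e‖ = 1 := by
    rw [he, norm_smul, Real.norm_eq_abs, abs_of_pos (by positivity)]
    field_simp
  have hew : ∀ w ∈ L, ⟪w, e⟫ = 0 := by
    intro w hw
    rw [he, inner_smul_right, huw w hw, mul_zero]
  -- the balls are contained in the cell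
  have hsub : ∀ n : ℕ, Metric.ball ((2 * (n : ℝ)) • e) 1 ⊆
      {x : E3 | ∀ w ∈ L, ‖x‖ ≤ ‖x - w‖} := by
    intro n x hx w hw
    have hy : ‖x - (2 * (n : ℝ)) • e‖ < 1 := by
      rw [← dist_eq_norm]; exact hx
    obtain ⟨y, hyd⟩ : ∃ y : E3, y = x - (2 * (n : ℝ)) • e := ⟨_, rfl⟩
    rw [← hyd] at hy
    have hxy : x = y + (2 * (n : ℝ)) • e := by rw [hyd]; abel
    have h1 : ‖y‖ ≤ ‖y - w‖ := by
      by_cases hw0 : w = 0
      · rw [hw0, sub_zero]
      · have h2 := hL w hw hw0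
        have h3 : ‖w‖ ≤ ‖y‖ + ‖y - w‖ := by
          have h4 : w = y - (y - w) := by abel
          calc ‖w‖ = ‖y - (y - w)‖ := by rw [← h4]
            _ ≤ ‖y‖ + ‖y - w‖ := norm_sub_le _ _
        linarith
    have h5 : ‖y‖ ^ 2 ≤ ‖y - w‖ ^ 2 := by gcongr
    have h6 : ‖x‖ ^ 2 ≤ ‖x - w‖ ^ 2 := by
      have e1 : x - w = (y - w) + (2 * (n : ℝ)) • e := by rw [hxy]; abel
      rw [e1, hxy, norm_add_sq_real, norm_add_sq_real, inner_smul_right, inner_smul_right,
        inner_sub_left, hew w hw]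
      linarith
    exact le_of_sq_le_sq h6 (norm_nonneg _)
  have hdisj : Pairwise (Function.onFun Disjoint
      (fun n : ℕ => Metric.ball ((2 * (n : ℝ)) • e) 1)) := by
    intro m n hmn
    apply Metric.ball_disjoint_ball
    rw [dist_eq_norm, ← sub_smul, norm_smul, hen, mul_one, Real.norm_eq_abs]
    have h1 : (1 : ℝ) ≤ |(m : ℝ) - (n : ℝ)| := by
      have h2 : (1 : ℤ) ≤ |(m : ℤ) - (n : ℤ)| := by
        apply Int.one_le_abs
        intro h3
        apply hmn
        omega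
      exact_mod_cast h2
    have h4 : (2 : ℝ) * (m : ℝ) - 2 * (n : ℝ) = 2 * ((m : ℝ) - (n : ℝ)) := by ring
    rw [h4, abs_mul, abs_two]
    linarith
  rw [eq_top_iff]
  calc (⊤ : ENNReal) = ∑' _ : ℕ, volume (Metric.ball (0 : E3) 1) := by
        rw [ENNReal.tsum_const_eq_top_of_ne_zero]
        exact (Metric.measure_ball_pos volume _ one_pos).ne'
    _ = ∑' n : ℕ, volume (Metric.ball ((2 * (n : ℝ)) • e) 1) := by
        congr 1
        funext n
        exact (Measure.addHaar_ball_center volume ((2 * (n : ℝ)) • e) 1).symm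
    _ = volume (⋃ n : ℕ, Metric.ball ((2 * (n : ℝ)) • e) 1) := by
        rw [measure_iUnion hdisj (fun n => Metric.isOpen_ball.measurableSet)]
    _ ≤ _ := measure_mono (iUnion_subset hsub)

end Pool.Agent.SDL
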