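import Pool.Agent.SDL.Targets

set_option autoImplicit false

/-!
# SDL: the regular pyramid (target PYR)
-/

open MeasureTheory Set Real

namespace Pool.Agent.SDL

open Pool.Agent.SDC

theorem pyr_cont (t h : ℝ) : Continuous (HH t h) := by
  have h1 : Continuous (fun s => G t (kap t) (bet t) h s * s) :=
    (tHCL.1 t (kap t) (bet t) h).mul continuous_id
  exact intervalIntegral.continuous_primitive (fun a b => h1.intervalIntegrable a b) 0

theorem pyr_cos {ψ : ℝ} (hψ : ψ ∈ Icc 0 (π / 5)) : 0 < cos ψ := by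
  have hp := Real.pi_pos
  apply Real.cos_pos_of_mem_Ioo
  constructor
  · linarith [hψ.1]
  · linarith [hψ.2]

theorem pyr_cos_le {ψ : ℝ} (hψ : ψ ∈ Icc 0 (π / 5)) : cos (π / 5) ≤ cos ψ := by
  have hp := Real.pi_pos
  exact Real.cos_le_cos_of_nonneg_of_le_pi hψ.1 (by linarith) hψ.2

theorem pyr_cc {h u ψ : ℝ} (hh : 0 < h) (hu : h < u) (hψ : 0 < cos ψ) :
    h * cc (rr h u * cos (π / 5) / cos ψ) =
      √(h ^ 2 + (u ^ 2 - h ^ 2) * (c2 / cos ψ ^ 2)) := by
  have h0 : 0 ≤ u ^ 2 / h ^ 2 - 1 := by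
    rw [sub_nonneg, le_div_iff₀ (by positivity)]
    nlinarith
  have h1 : h * cc (rr h u * cos (π / 5) / cos ψ) =
      √(h ^ 2 * (1 + (rr h u * cos (π / 5) / cos ψ) ^ 2)) := by
    rw [cc, Real.sqrt_mul (sq_nonneg h), Real.sqrt_sq hh.le]
  rw [h1]
  congr 1
  rw [div_pow, mul_pow, rr, Real.sq_sqrt h0, ← c2_eq]
  field_simp

theorem pyr_g {ψ : ℝ} (hψ : ψ ∈ Icc 0 (π / 5)) : 0 ≤ c2 / cos ψ ^ 2 ∧ c2 / cos ψ ^ 2 ≤ 1 := by
  have h1 := pyr_cos hψ
  have h2 := pyr_cos_le hψ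
  have h3 := cos36_pos
  rw [c2_eq]
  constructor
  · positivity
  · rw [div_le_one (by positivity)]
    nlinarith

theorem pyr_pos {h u γ : ℝ} (hh : 0 < h) (hu : h < u) (hγ : 0 ≤ γ) :
    0 < h ^ 2 + (u ^ 2 - h ^ 2) * γ := by
  have h1 : 0 ≤ (u ^ 2 - h ^ 2) * γ := mul_nonneg (by nlinarith) hγ
  have h2 : 0 < h ^ 2 := by positivity
  linarith

/-- The closed form along the side. -/
theorem pyr_cl (hhb : T_HB) {t h u ψ : ℝ} (ht : 0 < t) (hh : 0 < h) (hu : h < u)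
    (hψ : ψ ∈ Icc 0 (π / 5)) :
    - HH t h (rr h u * cos (π / 5) / cos ψ) =
      kap t * h * (u ^ 2 - h ^ 2) * (c2 / cos ψ ^ 2) / 2 -
        h * (Bf t √(h ^ 2 + (u ^ 2 - h ^ 2) * (c2 / cos ψ ^ 2)) - Bf t h) +
        bet t * (1 - h / √(h ^ 2 + (u ^ 2 - h ^ 2) * (c2 / cos ψ ^ 2))) := by
  have hc := pyr_cos hψ
  have hr : 0 ≤ rr h u * cos (π / 5) / cos ψ := by
    have := cos36_pos
    have h1 : 0 ≤ rr h u := Real.sqrt_nonneg _
    positivity
  have hpos := pyr_pos hh hu (pyr_g hψ).1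
  have hsq := Real.sq_sqrt hpos.le
  have hs : 0 < √(h ^ 2 + (u ^ 2 - h ^ 2) * (c2 / cos ψ ^ 2)) := Real.sqrt_pos.mpr hpos
  rw [hhb t h _ ht hh hr, pyr_cc hh hu hc, bb]
  set S := √(h ^ 2 + (u ^ 2 - h ^ 2) * (c2 / cos ψ ^ 2)) with hS
  have hb : bet t / S = bet t * (1 / S) := by ring
  have hd : h / S = h * (1 / S) := by ring
  rw [hb, hd, hsq]
  ring

theorem p_PYR (hhb : T_HB) (hepw : T_EPW) (homg : T_OMG) (hatn : T_ATN) (hp1 : T_P1) : T_PYR := by
  intro t h u ht htR hh hu huR hc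
  have ht0 : 0 < t := by linarith
  have hh0 : 0 < h := by linarith
  have hu1 : (1 : ℝ) < u := by linarith
  have hπ := Real.pi_pos
  have hβ := (tBET t ht htR).1
  have h5 : (0 : ℝ) ≤ π / 5 := by positivity
  have hB1 : Bf t 1 = 0 := by
    rw [Bf, if_pos ht]
  -- pointwise
  have key : ∀ ψ ∈ Icc (0 : ℝ) (π / 5), - HH t h (rr h u * cos (π / 5) / cos ψ) ≤
      - HH t 1 (rr 1 u * cos (π / 5) / cos ψ) -
        (bet t * (h / √(h ^ 2 + (u ^ 2 - h ^ 2) * (c2 / cos ψ ^ 2))) -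
          bet t * (1 / √(1 ^ 2 + (u ^ 2 - 1 ^ 2) * (c2 / cos ψ ^ 2)))) := by
    intro ψ hψ
    have hg := pyr_g hψ
    rw [pyr_cl hhb ht0 hh0 hu hψ, pyr_cl hhb ht0 one_pos hu1 hψ, hB1]
    have he := hepw t h u (c2 / cos ψ ^ 2) ht htR hh hu huR hc hg.1 hg.2
    have h1 : (1 : ℝ) ^ 2 + (u ^ 2 - 1 ^ 2) * (c2 / cos ψ ^ 2) =
        1 + (u ^ 2 - 1) * (c2 / cos ψ ^ 2) := by ring
    rw [h1]
    linarith
  -- integrability
  have hcon : ∀ h' : ℝ, 0 < h' → h' < u → ContinuousOn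
      (fun ψ => h' / √(h' ^ 2 + (u ^ 2 - h' ^ 2) * (c2 / cos ψ ^ 2))) (Icc 0 (π / 5)) := by
    intro h' h1 h2
    apply ContinuousOn.div continuousOn_const
    · apply ContinuousOn.sqrt
      apply ContinuousOn.add continuousOn_const
      apply ContinuousOn.mul continuousOn_const
      apply ContinuousOn.div continuousOn_const (by fun_prop)
      intro ψ hψ
      have := pyr_cos hψ
      positivity
    · intro ψ hψ
      exact (Real.sqrt_pos.mpr (pyr_pos h1 h2 (pyr_g hψ).1)).ne'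
  have hconH : ∀ h' : ℝ, ContinuousOn
      (fun ψ => HH t h' (rr h' u * cos (π / 5) / cos ψ)) (Icc 0 (π / 5)) := by
    intro h'
    apply (pyr_cont t h').comp_continuousOn
    apply ContinuousOn.div continuousOn_const (by fun_prop)
    intro ψ hψ
    exact (pyr_cos hψ).ne'
  have hI : ∀ f : ℝ → ℝ, ContinuousOn f (Icc 0 (π / 5)) →
      IntervalIntegrable f volume 0 (π / 5) := by
    intro f hf
    apply ContinuousOn.intervalIntegrable
    rwa [uIcc_of_le h5]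
  have i1 := hI _ (hcon h hh0 hu)
  have i2 := hI _ (hcon 1 one_pos hu1)
  have j1 := hI _ (hconH h)
  have j2 := hI _ (hconH 1)
  have k1 : IntervalIntegrable (fun ψ => - HH t h (rr h u * cos (π / 5) / cos ψ)) volume
      0 (π / 5) := j1.neg
  have k2 : IntervalIntegrable (fun ψ => - HH t 1 (rr 1 u * cos (π / 5) / cos ψ)) volume
      0 (π / 5) := j2.neg
  have hmono := intervalIntegral.integral_mono_on h5 k1
    (k2.sub ((i1.const_mul (bet t)).sub (i2.const_mul (bet t)))) key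
  have hv : (∫ ψ in (0 : ℝ)..(π / 5), (- HH t 1 (rr 1 u * cos (π / 5) / cos ψ) -
        (bet t * (h / √(h ^ 2 + (u ^ 2 - h ^ 2) * (c2 / cos ψ ^ 2))) -
          bet t * (1 / √(1 ^ 2 + (u ^ 2 - 1 ^ 2) * (c2 / cos ψ ^ 2)))))) =
      - (∫ ψ in (0 : ℝ)..(π / 5), HH t 1 (rr 1 u * cos (π / 5) / cos ψ)) -
        (bet t * arctan (h * tan (π / 5) / u) - bet t * arctan (1 * tan (π / 5) / u)) := by
    rw [intervalIntegral.integral_sub k2
      ((i1.const_mul (bet t)).sub (i2.const_mul (bet t))), intervalIntegral.integral_neg,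
      intervalIntegral.integral_sub (i1.const_mul (bet t)) (i2.const_mul (bet t)),
      intervalIntegral.integral_const_mul, intervalIntegral.integral_const_mul,
      homg h u hh0 hu, homg 1 u one_pos hu1]
  have hl : (∫ ψ in (0 : ℝ)..(π / 5), - HH t h (rr h u * cos (π / 5) / cos ψ)) =
      - ∫ ψ in (0 : ℝ)..(π / 5), HH t h (rr h u * cos (π / 5) / cos ψ) :=
    intervalIntegral.integral_neg
  have hmono' : - (∫ ψ in (0 : ℝ)..(π / 5), HH t h (rr h u * cos (π / 5) / cos ψ)) ≤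
      - (∫ ψ in (0 : ℝ)..(π / 5), HH t 1 (rr 1 u * cos (π / 5) / cos ψ)) -
        (bet t * arctan (h * tan (π / 5) / u) - bet t * arctan (1 * tan (π / 5) / u)) := by
    rw [← hl, ← hv]
    exact hmono
  have hP := hp1 t u ht htR hu1 huR
  have hA := mul_le_mul_of_nonneg_left (hatn h u hh hu.le huR) hβ
  have hw : π / 3 * bet t * wt h =
      π / 3 * bet t + 10 * (bet t * (π / 6 - arctan (h / √3))) := by
    rw [wt]
    field_simp
    ring
  rw [hw]
  rw [one_mul] at hmono'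
  linarith

end Pool.Agent.SDL
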