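import Pool.Agent.SDL.Assembly

set_option autoImplicit false

/-!
# SDL: the slope of the cost of the facets with at most five sides (scaling path)

`Cst t h u` is the left side of `T_PYR`, `Opt t h u` says that `u` is the radius of the best
pentagon at height `h`. Along `η ↦ (η, u η / h)` the derivative of `Cst t` is `- 15 Nn`. So a lower
bound of `15 Nn` at the points with `Opt` gives a linear bound of `Cst`.
-/

open MeasureTheory Set Real
open scoped RealInnerProductSpace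

namespace Pool.Agent.SDL

open Pool.Agent.SDC

/-- The cost of the regular pyramid inscribed in the ball of radius `u`, with the foot at height
`h`. -/
noncomputable def Cst (t h u : ℝ) : ℝ :=
  -10 * ∫ ψ in (0 : ℝ)..(π / 5), HH t h (rr h u * cos (π / 5) / cos ψ)

/-- `u` is the radius of the best pentagon at height `h`. -/
def Opt (t h u : ℝ) : Prop :=
  h < u ∧ t < u ∧ u ≤ R ∧ u * ggu t (kap t) u (h ^ 2 * s2 + u ^ 2 * c2) = t ^ 3 + bet t ∧
    max (t ^ 2 - h ^ 2) 0 * (R ^ 2 - 1) ≤ (t ^ 2 - 1) * (u ^ 2 - h ^ 2)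

/-- One fifteenth of the slope. -/
noncomputable def Nn (t h u : ℝ) : ℝ :=
  ∫ ψ in (0 : ℝ)..(π / 5), (max (h ^ 2 + (u ^ 2 - h ^ 2) * (c2 / cos ψ ^ 2) - t ^ 2) 0
    - kap t * ((u ^ 2 - h ^ 2) * (c2 / cos ψ ^ 2)))

/-! ## The local lemma at `Opt` -/

/-- The data of the local lemma for a given `Opt`. -/
theorem opt_CB {t h u : ℝ} (ht1 : 1 ≤ t) (htR : t < R) (hh1 : 1 ≤ h) (hu : Opt t h u) :
    0 < rr h u ∧ rr h u ≤ rr h R ∧ 0 ≤ G t (kap t) (bet t) h (rr h u) ∧
    (∀ a, 0 < a →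
      ∫ ψ in (0 : ℝ)..(π / 2), max (HH t h (rr h u) - HH t h (a / cos ψ)) 0 ≤
        ∫ ψ in (0 : ℝ)..(π / 5), (HH t h (rr h u) - HH t h (rr h u * cos (π / 5) / cos ψ))) ∧
    - 2 * π * HH t h (rr h u) + 10 *
      (∫ ψ in (0 : ℝ)..(π / 5), (HH t h (rr h u) - HH t h (rr h u * cos (π / 5) / cos ψ))) =
      Cst t h u := by
  obtain ⟨hhu, htu, huR, hu5, hu6⟩ := hu
  have hh0 : 0 < h := by linarith
  have ht0 : 0 < t := by linarith
  have hu0 : 0 < u := by linarith
  obtain ⟨hk0, -⟩ := tKAP t ht1 htR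
  obtain ⟨hb0, -⟩ := tBET t ht1 htR
  have hkap := CBx_kap ht1 htR hhu hh0 hu6
  have hmono := p_GMU t (kap t) h u ht0 hh0 hhu htu.le hkap
  have hc : 0 < cos (π / 5) := cos36_pos
  have hc1 : cos (π / 5) < 1 := by
    rw [cos36_eq]
    linarith [s5_hi]
  have hk1 : kap t ≤ 1 := RPX_kap1 ht1 htR
  obtain ⟨hrr0, hh2, -⟩ := CBx_rr hh0 hhu
  have hrrR : rr h u ≤ rr h R := by
    rw [rr, rr]
    apply Real.sqrt_le_sqrt
    apply sub_le_sub_right
    apply div_le_div_of_nonneg_right _ (by positivity)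
    apply pow_le_pow_left₀ hu0.le huR
  have hA0 : 0 < rr h u * cos (π / 5) := mul_pos hrr0 hc
  have hAr : rr h u * cos (π / 5) < rr h u := mul_lt_of_lt_one_right hrr0 hc1
  have hWA : h ^ 2 * (1 + (rr h u * cos (π / 5)) ^ 2) = h ^ 2 * s2 + u ^ 2 * c2 := by
    have e2 : s2 = 1 - c2 := by linarith [s2_add_c2]
    rw [mul_pow, ← c2_eq, e2, ← hh2]
    ring
  have hval : u * ggu t (kap t) u (h ^ 2 * (1 + (rr h u * cos (π / 5)) ^ 2)) =
      t ^ 3 + bet t := by
    rw [hWA]
    exact hu5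
  obtain ⟨hs1, hs2⟩ := CBx_sg p_PCH ht0 htu hh0 hhu hmono hA0 hAr hval
  have hGv := CBx_G ht0 htu hh0 hhu hk1 hmono hA0 hAr hval
  have hcont : Continuous (G t (kap t) (bet t) h) := tHCL.1 t (kap t) (bet t) h
  have hsgn : ∀ r r', 0 ≤ r → r ≤ r' → 0 ≤ G t (kap t) (bet t) h r →
      0 ≤ G t (kap t) (bet t) h r' :=
    fun r r' hr hrr hG => p_SGN t (kap t) (bet t) h r r' ht0 hh0 hk0 hb0 hr hrr hG
  have hloc := p_LOC2 (G t (kap t) (bet t) h) (rr h u) (rr h u * cos (π / 5)) hcont hA0 hAr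
    hsgn hGv hs1 hs2
  have harc : arccos (rr h u * cos (π / 5) / rr h u) = π / 5 := by
    rw [mul_div_cancel_left₀ _ hrr0.ne']
    exact arccos_cos (by positivity) (by linarith [Real.pi_pos])
  rw [harc] at hloc
  refine ⟨hrr0, hrrR, hGv, hloc, ?_⟩
  have hHc : Continuous (HH t h) := pyr_cont t h
  have hii : IntervalIntegrable (fun ψ => HH t h (rr h u * cos (π / 5) / cos ψ)) volume 0
      (π / 5) := by
    apply ContinuousOn.intervalIntegrable
    apply hHc.comp_continuousOn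
    apply ContinuousOn.div continuousOn_const continuous_cos.continuousOn
    intro ψ hψ
    rw [uIcc_of_le (by positivity)] at hψ
    exact (pyr_cos hψ).ne'
  rw [intervalIntegral.integral_sub intervalIntegrable_const hii,
    intervalIntegral.integral_const, Cst, smul_eq_mul]
  ring

/-- `HH` is monotone beyond a point where `G` is nonnegative. -/
theorem HH_mono {t h ρ : ℝ} (ht1 : 1 ≤ t) (htR : t < R) (hh : 0 < h) (hρ : 0 ≤ ρ)
    (hG : 0 ≤ G t (kap t) (bet t) h ρ) {r : ℝ} (hr : ρ ≤ r) : HH t h ρ ≤ HH t h r := by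
  obtain ⟨hk0, -⟩ := tKAP t ht1 htR
  obtain ⟨hb0, -⟩ := tBET t ht1 htR
  have hcont : Continuous (fun s => G t (kap t) (bet t) h s * s) :=
    (tHCL.1 t (kap t) (bet t) h).mul continuous_id
  have h1 : HH t h r - HH t h ρ = ∫ s in ρ..r, G t (kap t) (bet t) h s * s := by
    unfold HH H
    rw [intervalIntegral.integral_interval_sub_left] <;> exact hcont.intervalIntegrable _ _
  have h2 : 0 ≤ ∫ s in ρ..r, G t (kap t) (bet t) h s * s := by
    apply intervalIntegral.integral_nonneg hr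
    intro s hs
    exact mul_nonneg (p_SGN t (kap t) (bet t) h ρ s (by linarith) hh hk0 hb0 hρ hs.1 hG)
      (hρ.trans hs.1)
  linarith

/-- The integrand of the local lemma is integrable. -/
theorem opt_int {t h ρ a : ℝ} (ht1 : 1 ≤ t) (htR : t < R) (hh : 0 < h) (hρ : 0 < ρ)
    (hG : 0 ≤ G t (kap t) (bet t) h ρ) (ha : 0 < a) :
    IntervalIntegrable (fun ψ => max (HH t h ρ - HH t h (a / cos ψ)) 0) volume 0 (π / 2) := by
  have hp := Real.pi_pos
  have hHc : Continuous (HH t h) := pyr_cont t h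
  have hc : Continuous (fun ψ => max (HH t h ρ - HH t h (a / max (cos ψ) (a / ρ))) 0) := by
    apply Continuous.max _ continuous_const
    apply Continuous.sub continuous_const
    apply hHc.comp
    apply Continuous.div continuous_const (continuous_cos.max continuous_const)
    intro ψ
    have : 0 < a / ρ := by positivity
    exact (lt_of_lt_of_le this (le_max_right _ _)).ne'
  refine (hc.intervalIntegrable 0 (π / 2)).congr_ae ?_
  rw [uIoc_of_le (by positivity)]
  have h0 : ∀ᵐ ψ : ℝ ∂(volume.restrict (Ioc 0 (π / 2))), ψ ≠ π / 2 := by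
    apply ae_restrict_of_ae
    rw [ae_iff]
    simp
  filter_upwards [h0, ae_restrict_mem measurableSet_Ioc] with ψ h1 h2
  have hlt : ψ < π / 2 := lt_of_le_of_ne h2.2 h1
  have hcos : 0 < cos ψ := cos_pos_of_mem_Ioo ⟨by linarith [h2.1], hlt⟩
  rcases le_total (a / ρ) (cos ψ) with h3 | h3
  · rw [max_eq_left h3]
  · rw [max_eq_right h3]
    have e1 : a / (a / ρ) = ρ := by
      field_simp
    have h4 : ρ ≤ a / cos ψ := by
      rw [le_div_iff₀ hcos]
      rw [le_div_iff₀ hρ] at h3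
      linarith
    have h5 := HH_mono ht1 htR hh hρ.le hG h4
    rw [e1, sub_self, max_self]
    symm
    apply max_eq_right
    linarith

/-- The best pentagon is the best one. -/
theorem cst_le {t h u v : ℝ} (ht1 : 1 ≤ t) (htR : t < R) (hh1 : 1 ≤ h) (hu : Opt t h u)
    (hv : h < v) : Cst t h v ≤ Cst t h u := by
  have hp := Real.pi_pos
  have hh0 : 0 < h := by linarith
  obtain ⟨h1, h2, h3, h4, h5⟩ := opt_CB ht1 htR hh1 hu
  obtain ⟨hr, -, -⟩ := CBx_rr hh0 hv
  have ha : 0 < rr h v * cos (π / 5) := mul_pos hr cos36_pos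
  have h6 := h4 _ ha
  have hHc : Continuous (HH t h) := pyr_cont t h
  have hI := opt_int ht1 htR hh0 h1 h3 ha
  have h50 : (0 : ℝ) ≤ π / 5 := by positivity
  have h52 : π / 5 ≤ π / 2 := by linarith
  have hI1 : IntervalIntegrable (fun ψ => max (HH t h (rr h u) -
      HH t h (rr h v * cos (π / 5) / cos ψ)) 0) volume 0 (π / 5) := by
    apply hI.mono_set
    rw [uIcc_of_le h50, uIcc_of_le (by linarith)]
    exact Icc_subset_Icc le_rfl h52
  have hI2 : IntervalIntegrable (fun ψ => max (HH t h (rr h u) -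
      HH t h (rr h v * cos (π / 5) / cos ψ)) 0) volume (π / 5) (π / 2) := by
    apply hI.mono_set
    rw [uIcc_of_le h52, uIcc_of_le (by linarith)]
    exact Icc_subset_Icc h50 le_rfl
  have hii : IntervalIntegrable (fun ψ => HH t h (rr h v * cos (π / 5) / cos ψ)) volume 0
      (π / 5) := by
    apply ContinuousOn.intervalIntegrable
    apply hHc.comp_continuousOn
    apply ContinuousOn.div continuousOn_const continuous_cos.continuousOn
    intro ψ hψ
    rw [uIcc_of_le (by positivity)] at hψ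
    exact (pyr_cos hψ).ne'
  have k1 : (∫ ψ in (0 : ℝ)..(π / 5), max (HH t h (rr h u) -
      HH t h (rr h v * cos (π / 5) / cos ψ)) 0) +
      ∫ ψ in (π / 5)..(π / 2), max (HH t h (rr h u) -
      HH t h (rr h v * cos (π / 5) / cos ψ)) 0 =
      ∫ ψ in (0 : ℝ)..(π / 2), max (HH t h (rr h u) -
      HH t h (rr h v * cos (π / 5) / cos ψ)) 0 :=
    intervalIntegral.integral_add_adjacent_intervals hI1 hI2
  have k2 : 0 ≤ ∫ ψ in (π / 5)..(π / 2), max (HH t h (rr h u) -
      HH t h (rr h v * cos (π / 5) / cos ψ)) 0 :=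
    intervalIntegral.integral_nonneg h52 fun ψ _ => le_max_right _ _
  have k3 : ∫ ψ in (0 : ℝ)..(π / 5), (HH t h (rr h u) -
      HH t h (rr h v * cos (π / 5) / cos ψ)) ≤
      ∫ ψ in (0 : ℝ)..(π / 5), max (HH t h (rr h u) -
      HH t h (rr h v * cos (π / 5) / cos ψ)) 0 := by
    apply intervalIntegral.integral_mono_on h50 (intervalIntegrable_const.sub hii) hI1
    intro ψ _
    exact le_max_left _ _
  have k4 : ∫ ψ in (0 : ℝ)..(π / 5), (HH t h (rr h u) -
      HH t h (rr h v * cos (π / 5) / cos ψ)) = π / 5 * HH t h (rr h u) -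
      ∫ ψ in (0 : ℝ)..(π / 5), HH t h (rr h v * cos (π / 5) / cos ψ) := by
    rw [intervalIntegral.integral_sub intervalIntegrable_const hii,
      intervalIntegral.integral_const, smul_eq_mul, sub_zero]
  have k5 : Cst t h v = -10 * ∫ ψ in (0 : ℝ)..(π / 5),
      HH t h (rr h v * cos (π / 5) / cos ψ) := rfl
  rw [k5]
  linarith

/-! ## The scaling path -/

/-- The pointwise inequality. -/
theorem scal_pt {t η h c : ℝ} (ht : 0 < t) (hη : 0 < η) (hηh : η ≤ h) (hc : 1 ≤ c)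
    {κ : ℝ} (hκ : 0 ≤ κ) :
    3 / 2 * (h - η) * (max (h ^ 2 * c ^ 2 - t ^ 2) 0 - κ * (h ^ 2 * (c ^ 2 - 1))
      - 2 * h * (h - η) * c ^ 2) ≤
    (h * Bf t (h * c) - κ * h ^ 3 * (c ^ 2 - 1) / 2) -
      (η * Bf t (η * c) - κ * η ^ 3 * (c ^ 2 - 1) / 2) := by
  have hc0 : 0 < c := by linarith
  have hh : 0 < h := by linarith
  have hd : 0 ≤ h - η := by linarith
  have hc1 : 0 ≤ c ^ 2 - 1 := by nlinarith
  -- the part with `κ`
  have k1 : κ * h ^ 3 * (c ^ 2 - 1) / 2 - κ * η ^ 3 * (c ^ 2 - 1) / 2 ≤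
      3 / 2 * (h - η) * (κ * (h ^ 2 * (c ^ 2 - 1))) := by
    have e1 : h ^ 3 - η ^ 3 ≤ 3 * h ^ 2 * (h - η) := by
      nlinarith [mul_nonneg hd hd, mul_nonneg (mul_nonneg hd hd) hh.le,
        mul_nonneg (mul_nonneg hd hd) hη.le]
    have e2 : 0 ≤ κ * (c ^ 2 - 1) := mul_nonneg hκ hc1
    nlinarith [mul_le_mul_of_nonneg_left e1 e2]
  -- the other part
  have k2 : 3 / 2 * (h - η) * max (η ^ 2 * c ^ 2 - t ^ 2) 0 ≤
      h * Bf t (h * c) - η * Bf t (η * c) := by
    rcases le_total (η * c) t with h1 | h1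
    · have e1 : Bf t (η * c) = 0 := by rw [Bf, if_pos h1]
      have e2 : max (η ^ 2 * c ^ 2 - t ^ 2) 0 = 0 := by
        apply max_eq_right
        have : (η * c) ^ 2 ≤ t ^ 2 := pow_le_pow_left₀ (by positivity) h1 2
        nlinarith
      have e3 := p_BF.1 t (h * c) ht (by positivity)
      rw [e1, e2]
      nlinarith [mul_nonneg hh.le e3]
    · have h2 : t ≤ h * c := h1.trans (mul_le_mul_of_nonneg_right hηh hc0.le)
      have e1 := p_BF.2.2 t (η * c) ht h1
      have e2 := p_BF.2.2 t (h * c) ht h2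
      have e3 : max (η ^ 2 * c ^ 2 - t ^ 2) 0 = η ^ 2 * c ^ 2 - t ^ 2 := by
        apply max_eq_left
        have : t ^ 2 ≤ (η * c) ^ 2 := pow_le_pow_left₀ ht.le h1 2
        nlinarith
      have e4 : h * Bf t (h * c) - η * Bf t (η * c) =
          (h - η) * ((h ^ 2 + h * η + η ^ 2) * c ^ 2 / 2 - 3 / 2 * t ^ 2) := by
        rw [e1, e2]
        field_simp
        ring
      rw [e3, e4]
      have e5 : 3 * η ^ 2 ≤ h ^ 2 + h * η + η ^ 2 := by nlinarith
      have e6 : 3 * η ^ 2 * c ^ 2 ≤ (h ^ 2 + h * η + η ^ 2) * c ^ 2 :=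
        mul_le_mul_of_nonneg_right e5 (by positivity)
      have e7 : 0 ≤ (h - η) * ((h ^ 2 + h * η + η ^ 2) * c ^ 2 - 3 * η ^ 2 * c ^ 2) :=
        mul_nonneg hd (by linarith)
      nlinarith
  -- the two maxima
  have k3 : max (h ^ 2 * c ^ 2 - t ^ 2) 0 - 2 * h * (h - η) * c ^ 2 ≤
      max (η ^ 2 * c ^ 2 - t ^ 2) 0 := by
    have e1 : h ^ 2 * c ^ 2 - 2 * h * (h - η) * c ^ 2 ≤ η ^ 2 * c ^ 2 := by
      have : 0 ≤ (h - η) ^ 2 * c ^ 2 := by positivity
      nlinarith
    have e2 : 0 ≤ 2 * h * (h - η) * c ^ 2 := by positivity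
    have e3 := le_max_left (η ^ 2 * c ^ 2 - t ^ 2) 0
    have e4 := le_max_right (η ^ 2 * c ^ 2 - t ^ 2) 0
    rcases max_cases (h ^ 2 * c ^ 2 - t ^ 2) 0 with h1 | h1
    · rw [h1.1]
      linarith
    · rw [h1.1]
      linarith
  have k4 : 3 / 2 * (h - η) * (max (h ^ 2 * c ^ 2 - t ^ 2) 0 - 2 * h * (h - η) * c ^ 2) ≤
      3 / 2 * (h - η) * max (η ^ 2 * c ^ 2 - t ^ 2) 0 :=
    mul_le_mul_of_nonneg_left k3 (by positivity)
  nlinarith

/-- The radius does not change along the path. -/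
theorem rr_scal {η h u : ℝ} (hη : 0 < η) (hh : 0 < h) : rr η (u * η / h) = rr h u := by
  rw [rr, rr]
  congr 1
  field_simp

/-- One step along the path. -/
theorem scal_step {t η h u : ℝ} (ht1 : 1 ≤ t) (htR : t < R) (hη : 1 ≤ η) (hηh : η ≤ h)
    (hht : h ≤ t) (hu : h < u) (huR : u ≤ R) :
    Cst t h u + 15 * (h - η) * Nn t h u - 31 * (h - η) ^ 2 ≤ Cst t η (u * η / h) := by
  have hp := Real.pi_pos
  have hη0 : 0 < η := by linarith
  have hh0 : 0 < h := by linarith
  have ht0 : 0 < t := by linarith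
  have h50 : (0 : ℝ) ≤ π / 5 := by positivity
  have hd : 0 ≤ h - η := by linarith
  obtain ⟨hk0, -⟩ := tKAP t ht1 htR
  have hu2 : 0 < u ^ 2 - h ^ 2 := by nlinarith
  -- pointwise
  have key : ∀ ψ ∈ Icc (0 : ℝ) (π / 5),
      3 / 2 * (h - η) * ((max (h ^ 2 + (u ^ 2 - h ^ 2) * (c2 / cos ψ ^ 2) - t ^ 2) 0
        - kap t * ((u ^ 2 - h ^ 2) * (c2 / cos ψ ^ 2))) - 2 * (h - η) * R ^ 2) ≤
      HH t h (rr h u * cos (π / 5) / cos ψ) - HH t η (rr h u * cos (π / 5) / cos ψ) := by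
    intro ψ hψ
    have hcos := pyr_cos hψ
    have hg := pyr_g hψ
    set r := rr h u * cos (π / 5) / cos ψ with hr
    have hr0 : 0 ≤ r := by
      have := cos36_pos
      have h1 : 0 ≤ rr h u := Real.sqrt_nonneg _
      positivity
    have hcc : 1 ≤ cc r := by
      rw [cc]
      apply Real.one_le_sqrt.mpr
      nlinarith [sq_nonneg r]
    have hcc0 : 0 < cc r := by linarith
    have hcc2 : cc r ^ 2 = 1 + r ^ 2 := cc_sq r
    have hC := pyr_cc hh0 hu hcos (u := u)
    rw [← hr] at hC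
    have hC2 : h ^ 2 * cc r ^ 2 = h ^ 2 + (u ^ 2 - h ^ 2) * (c2 / cos ψ ^ 2) := by
      rw [← mul_pow, hC, Real.sq_sqrt (pyr_pos hh0 hu hg.1).le]
    have hCR : h ^ 2 * cc r ^ 2 ≤ R ^ 2 := by
      rw [hC2]
      have e1 : (u ^ 2 - h ^ 2) * (c2 / cos ψ ^ 2) ≤ (u ^ 2 - h ^ 2) * 1 :=
        mul_le_mul_of_nonneg_left hg.2 hu2.le
      have e2 : u ^ 2 ≤ R ^ 2 := pow_le_pow_left₀ (by linarith) huR 2
      linarith
    have h1 := scal_pt ht0 hη0 hηh hcc hk0
    have h2 := tHB t h r ht0 hh0 hr0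
    have h3 := tHB t η r ht0 hη0 hr0
    have e1 : Bf t h = 0 := by rw [Bf, if_pos hht]
    have e2 : Bf t η = 0 := by rw [Bf, if_pos (hηh.trans hht)]
    have h4 : HH t h r - HH t η r = (h * Bf t (h * cc r) - kap t * h ^ 3 * (cc r ^ 2 - 1) / 2) -
      (η * Bf t (η * cc r) - kap t * η ^ 3 * (cc r ^ 2 - 1) / 2) := by
      rw [h2, h3, e1, e2, bb, bb]
      field_simp
      ring
    rw [h4]
    refine le_trans ?_ h1
    have e3 : h ^ 2 * (cc r ^ 2 - 1) = (u ^ 2 - h ^ 2) * (c2 / cos ψ ^ 2) := by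
      linear_combination hC2
    rw [hC2, e3]
    have e4 : 2 * h * (h - η) * cc r ^ 2 ≤ 2 * (h - η) * R ^ 2 := by
      have e5 : h * cc r ^ 2 ≤ h ^ 2 * cc r ^ 2 := by
        have : h ≤ h ^ 2 := by nlinarith
        exact mul_le_mul_of_nonneg_right this (by positivity)
      have e6 : 0 ≤ (h - η) * (R ^ 2 - h * cc r ^ 2) := mul_nonneg hd (by linarith)
      nlinarith
    apply mul_le_mul_of_nonneg_left _ (by positivity)
    linarith
  -- integrability
  have hHc : ∀ h' : ℝ, IntervalIntegrable (fun ψ => HH t h' (rr h u * cos (π / 5) / cos ψ))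
      volume 0 (π / 5) := by
    intro h'
    apply ContinuousOn.intervalIntegrable
    apply (pyr_cont t h').comp_continuousOn
    apply ContinuousOn.div continuousOn_const continuous_cos.continuousOn
    intro ψ hψ
    rw [uIcc_of_le h50] at hψ
    exact (pyr_cos hψ).ne'
  have hγ : ContinuousOn (fun ψ => c2 / cos ψ ^ 2) (Icc 0 (π / 5)) := by
    apply ContinuousOn.div continuousOn_const (by fun_prop)
    intro ψ hψ
    have := pyr_cos hψ
    positivity
  have hNi : IntervalIntegrable (fun ψ =>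
      (max (h ^ 2 + (u ^ 2 - h ^ 2) * (c2 / cos ψ ^ 2) - t ^ 2) 0
        - kap t * ((u ^ 2 - h ^ 2) * (c2 / cos ψ ^ 2)))) volume 0 (π / 5) := by
    apply ContinuousOn.intervalIntegrable
    rw [uIcc_of_le h50]
    apply ContinuousOn.sub
    · have hc : ContinuousOn (fun ψ => h ^ 2 + (u ^ 2 - h ^ 2) * (c2 / cos ψ ^ 2) - t ^ 2)
          (Icc 0 (π / 5)) :=
        (continuousOn_const.add (continuousOn_const.mul hγ)).sub continuousOn_const
      exact hc.sup continuousOn_const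
    · exact continuousOn_const.mul (continuousOn_const.mul hγ)
  have hmono := intervalIntegral.integral_mono_on h50
    ((hNi.sub (intervalIntegrable_const (c := 2 * (h - η) * R ^ 2))).const_mul
      (3 / 2 * (h - η))) ((hHc h).sub (hHc η)) key
  rw [intervalIntegral.integral_const_mul, intervalIntegral.integral_sub hNi
    intervalIntegrable_const, intervalIntegral.integral_const,
    intervalIntegral.integral_sub (hHc h) (hHc η)] at hmono
  rw [← Nn] at hmono
  have e1 : Cst t η (u * η / h) = -10 * ∫ ψ in (0 : ℝ)..(π / 5),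
      HH t η (rr h u * cos (π / 5) / cos ψ) := by
    rw [Cst, rr_scal hη0 hh0]
  rw [e1, Cst]
  rw [smul_eq_mul, sub_zero] at hmono
  have e2 : π / 5 * (2 * (h - η) * R ^ 2) ≤ (h - η) * (31 / 15) := by
    have e3 : R ^ 2 * π ≤ 31 / 6 := by
      have := R_sq_hi
      have := Real.pi_lt_d2
      have := Real.pi_pos
      nlinarith
    nlinarith
  have e4 : 15 * (h - η) * (π / 5 * (2 * (h - η) * R ^ 2)) ≤ 31 * (h - η) ^ 2 := by
    have := mul_le_mul_of_nonneg_left e2 (mul_nonneg (by norm_num : (0 : ℝ) ≤ 15) hd)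
    nlinarith
  linarith

/-! ## Subdivision -/

/-- A local linear bound with a quadratic error is a global linear bound. -/
theorem subdiv {m : ℝ → ℝ} {s K b : ℝ} (hK : 0 ≤ K)
    (H : ∀ η h, 1 ≤ η → η ≤ h → h ≤ b → m h + s * (h - η) - K * (h - η) ^ 2 ≤ m η) :
    ∀ h, 1 ≤ h → h ≤ b → m h + s * (h - 1) ≤ m 1 := by
  intro h h1 hb
  have key : ∀ n : ℕ, 0 < n → ∀ i : ℕ, i ≤ n →
      m (1 + i * ((h - 1) / n)) + s * (i * ((h - 1) / n)) - i * (K * ((h - 1) / n) ^ 2) ≤
        m 1 := by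
    intro n hn i
    have hn' : (0 : ℝ) < n := by exact_mod_cast hn
    have hd : 0 ≤ (h - 1) / n := div_nonneg (by linarith) hn'.le
    induction i with
    | zero =>
      intro _
      simp
    | succ i ih =>
      intro hi
      have ih' := ih (by omega)
      have hi' : (i + 1 : ℝ) ≤ n := by exact_mod_cast hi
      have h3 : 1 + (i + 1 : ℝ) * ((h - 1) / n) ≤ h := by
        have : (i + 1 : ℝ) * ((h - 1) / n) ≤ n * ((h - 1) / n) :=
          mul_le_mul_of_nonneg_right hi' hd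
        rw [mul_div_cancel₀ _ hn'.ne'] at this
        linarith
      have h4 := H (1 + i * ((h - 1) / n)) (1 + (i + 1 : ℝ) * ((h - 1) / n))
        (by nlinarith [mul_nonneg (Nat.cast_nonneg (α := ℝ) i) hd])
        (by nlinarith) (by linarith)
      have e1 : (1 + (i + 1 : ℝ) * ((h - 1) / n)) - (1 + i * ((h - 1) / n)) = (h - 1) / n := by
        ring
      rw [e1] at h4
      push_cast
      linarith
  by_contra hcon
  push Not at hcon
  set D := m h + s * (h - 1) - m 1 with hD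
  have hD0 : 0 < D := by linarith
  obtain ⟨n, hn⟩ := exists_nat_gt ((K * (h - 1) ^ 2) / D)
  have hn0 : 0 ≤ (K * (h - 1) ^ 2) / D := by positivity
  have hn' : (0 : ℝ) < n := lt_of_le_of_lt hn0 hn
  have h5 := key n (by exact_mod_cast hn') n le_rfl
  rw [mul_div_cancel₀ _ hn'.ne'] at h5
  have e1 : (n : ℝ) * (K * ((h - 1) / n) ^ 2) = K * (h - 1) ^ 2 / n := by
    field_simp
  have e2 : (1 : ℝ) + (h - 1) = h := by ring
  rw [e1, e2] at h5
  have h6 : K * (h - 1) ^ 2 / n < D := by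
    rw [div_lt_iff₀ hn']
    rw [div_lt_iff₀ hD0] at hn
    linarith
  linarith

/-! ## The main statement -/

/-- The linear bound of the cost from a lower bound of the slope. -/
theorem slope_main {t b s : ℝ} (ht1 : 1 ≤ t) (htR : t < R) (hbt : b < t)
    (H : ∀ h u, 1 ≤ h → h ≤ b → Opt t h u → s * (π / 3 * bet t) ≤ 15 * Nn t h u) :
    ∀ h u, 1 ≤ h → h ≤ b → Opt t h u → Cst t h u ≤ π / 3 * bet t * (1 - s * (h - 1)) := by
  have hex : ∀ h, 1 ≤ h → h ≤ b → ∃ u, Opt t h u := by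
    intro h h1 h2
    obtain ⟨u, h3, h4, h5, -, h7, h8⟩ := tRPX t h ht1 htR h1 (Or.inl (by linarith))
    exact ⟨u, h3, h4, h5, h7, h8⟩
  classical
  let w : ℝ → ℝ := fun h => if hh : 1 ≤ h ∧ h ≤ b then Classical.choose (hex h hh.1 hh.2) else 0
  have hw : ∀ h, 1 ≤ h → h ≤ b → Opt t h (w h) := by
    intro h h1 h2
    have e : w h = Classical.choose (hex h h1 h2) := by
      simp only [w]
      rw [dif_pos ⟨h1, h2⟩]
    rw [e]
    exact Classical.choose_spec (hex h h1 h2)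
  have hsub := subdiv (m := fun h => Cst t h (w h)) (s := s * (π / 3 * bet t)) (K := 31) (b := b)
    (by norm_num) (by
      intro η h hη hηh hhb
      have h1 := hw h (by linarith) hhb
      have h2 := hw η hη (by linarith)
      have h3 := scal_step ht1 htR hη hηh (by linarith) h1.1 h1.2.2.1
      have hlt : η < w h * η / h := by
        rw [lt_div_iff₀ (by linarith)]
        nlinarith [h1.1]
      have h4 := cst_le ht1 htR hη h2 hlt
      have h5 := H h (w h) (by linarith) hhb h1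
      have h6 := mul_le_mul_of_nonneg_left h5 (sub_nonneg.mpr hηh)
      linarith)
  intro h u h1 h2 hu
  have h3 := hsub h h1 h2
  have hb1 : 1 ≤ b := h1.trans h2
  have h4 := hw 1 le_rfl hb1
  have h5 := p_P1 t (w 1) ht1 htR h4.1 h4.2.2.1
  have h6 := cst_le ht1 htR h1 (hw h h1 h2) hu.1
  have h7 : Cst t 1 (w 1) ≤ π / 3 * bet t := h5
  linarith

end Pool.Agent.SDL
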