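import Pool.Agent.SDL.P_BQ
import Pool.Agent.SDL.P_KU

set_option autoImplicit false

/-!
# SDL: the slope of the best pentagon for `W0 ≤ t²`, part 1: polynomials

`q1` is called `x`; `D0 = W0 + A x³`, `z(q) = D0 (1 - q²) - 2 R² q² (1 - q)`.
-/

open MeasureTheory Set Real

namespace Pool.Agent.SDL

open Pool.Agent.SDC

/-- The lower bound of the area integral. -/
noncomputable def QV (q : ℝ) : ℝ :=
  (1 - q) ^ 2 * (0.942 * (1 + 2 * q) / 3 - 0.3045 * (3 + 6 * q + 4 * q ^ 2 + 2 * q ^ 3) / 15)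

/-- The lower bound of `kap`. -/
noncomputable def kl (q : ℝ) : ℝ := 0.0065 * (1 - 10 / 3 * q ^ 2 + 3.29 * q ^ 4)

/-- The function `z`. -/
noncomputable def zf (x q : ℝ) : ℝ :=
  (W0 + (R ^ 2 - W0) * x ^ 3) * (1 - q ^ 2) - 2 * R ^ 2 * q ^ 2 * (1 - q)

/-- The function `w`. -/
noncomputable def wf (q : ℝ) : ℝ := W0 * (1 - q ^ 2) - 2 * R ^ 2 * q ^ 2

theorem kl_nonneg (q : ℝ) : 0 ≤ kl q := by
  unfold kl
  nlinarith [sq_nonneg (q ^ 2 - 1 / 2)]

theorem kl_anti {q x : ℝ} (h0 : 0 ≤ q) (h1 : q ≤ x) (h2 : x ≤ 0.6384) : kl x ≤ kl q := by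
  unfold kl
  have e1 : q ^ 2 ≤ x ^ 2 := pow_le_pow_left₀ h0 h1 2
  have e2 : x ^ 2 ≤ 0.6384 ^ 2 := pow_le_pow_left₀ (by linarith) h2 2
  have e3 : 0 ≤ (x ^ 2 - q ^ 2) * (10 / 3 - 3.29 * (x ^ 2 + q ^ 2)) := by
    apply mul_nonneg (by linarith)
    nlinarith
  nlinarith

/-- The inequality in `x`. -/
theorem PI_A {x : ℝ} (h0 : 0 ≤ x) (h1 : x ≤ 0.6384) :
    (4.8036 - 1.593429 * x ^ 2) * 1.0472 *
      (0.126865 * ((1 - x) ^ 2 * (1 + 2 * x)) - 0.012114 * (1 - x ^ 2) ^ 2 -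
        1.739075 * kl x) * (1.381967 + 0.201627 * x ^ 3) ≤
    0.2385 * (2.197345 * ((1.381965 + 0.201626 * x ^ 3) * (1 - x ^ 2) -
      3.1671852 * x ^ 2 * (1 - x))) := by
  have hv : 0 ≤ 0.6384 - x := by linarith
  unfold kl
  norm_num
  linarith [pow_nonneg hv 9, mul_nonneg h0 (pow_nonneg hv 8),
    mul_nonneg (pow_nonneg h0 2) (pow_nonneg hv 7), mul_nonneg (pow_nonneg h0 3)
    (pow_nonneg hv 6), mul_nonneg (pow_nonneg h0 4) (pow_nonneg hv 5),
    mul_nonneg (pow_nonneg h0 5) (pow_nonneg hv 4), mul_nonneg (pow_nonneg h0 6)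
    (pow_nonneg hv 3), mul_nonneg (pow_nonneg h0 7) (pow_nonneg hv 2),
    mul_nonneg (pow_nonneg h0 8) hv, pow_nonneg h0 9]

/-- The inequality in `q`. -/
theorem PI_B {q : ℝ} (h0 : 0 ≤ q) (h1 : q ≤ 0.6384) :
    0.2385 * (1 - q ^ 2 - 2.2079 * (q ^ 2 * (1 - q))) ≤ QV q - 1.89443 * kl q := by
  have hv : 0 ≤ 0.6384 - q := by linarith
  unfold kl QV
  norm_num
  linarith [pow_nonneg hv 5, mul_nonneg h0 (pow_nonneg hv 4),
    mul_nonneg (pow_nonneg h0 2) (pow_nonneg hv 3), mul_nonneg (pow_nonneg h0 3)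
    (pow_nonneg hv 2), mul_nonneg (pow_nonneg h0 4) hv, pow_nonneg h0 5]

/-! ## Constants -/

theorem W0_lo' : (1.381965 : ℝ) < W0 := by
  rw [W0]
  linarith [s5_hi']

theorem W0_hi' : W0 < (1.381967 : ℝ) := by
  rw [W0]
  linarith [s5_lo']

theorem A_lo' : (0.201626 : ℝ) < R ^ 2 - W0 := by
  rw [R_sq, W0]
  linarith [s5_hi']

theorem A_hi' : R ^ 2 - W0 < (0.201627 : ℝ) := by
  rw [R_sq, W0]
  linarith [s5_lo']

/-! ## Properties of `z` and `w` -/

theorem zf_sub (x q : ℝ) : zf x q - zf x x = (x - q) *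
    ((W0 + (R ^ 2 - W0) * x ^ 3) * (x + q) + 2 * R ^ 2 * ((x + q) - (x ^ 2 + x * q + q ^ 2))) := by
  unfold zf
  ring

theorem zw_sub (x q : ℝ) : zf x x * wf q - zf x q * wf x = 2 * R ^ 2 * (x - q) *
    ((R ^ 2 - W0) * (x ^ 3 * (x + q)) + W0 * (x ^ 2 + x * q + q ^ 2 - x ^ 2 * q ^ 2) -
      2 * R ^ 2 * (q ^ 2 * x ^ 2)) := by
  unfold zf wf
  ring

theorem zf_le {x q : ℝ} (h0 : 0 ≤ q) (h1 : q ≤ x) (h2 : x ≤ 0.6384) : zf x x ≤ zf x q := by
  have hR := R_sq_hi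
  have hR' := R_sq_lo
  have hW := W0_lo'
  have hA := A_lo'
  have hx : 0 ≤ x := h0.trans h1
  have e : 0 ≤ zf x q - zf x x := by
    rw [zf_sub]
    apply mul_nonneg (by linarith)
    have e1 : 0 ≤ (R ^ 2 - W0) * x ^ 3 * (x + q) := by
      have := pow_nonneg hx 3
      positivity
    have e2 : x ^ 2 + x * q + q ^ 2 ≤ 1.5 * 0.6384 * (x + q) := by nlinarith
    have e3 : 0 ≤ (x + q) - (x ^ 2 + x * q + q ^ 2) := by nlinarith
    have e4 : 0 ≤ 2 * R ^ 2 * ((x + q) - (x ^ 2 + x * q + q ^ 2)) :=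
      mul_nonneg (by positivity) e3
    have e5 : 0 ≤ W0 * (x + q) := mul_nonneg (by linarith) (by linarith)
    linarith
  linarith

theorem zw_nonneg {x q : ℝ} (h0 : 0 ≤ q) (h1 : q ≤ x) (h2 : x ≤ 0.6384) :
    zf x q * wf x ≤ zf x x * wf q := by
  have hR := R_sq_hi
  have hR' := R_sq_lo
  have hW := W0_lo'
  have hA := A_lo'
  have hx : 0 ≤ x := h0.trans h1
  have e : 0 ≤ zf x x * wf q - zf x q * wf x := by
    rw [zw_sub]
    apply mul_nonneg
    · exact mul_nonneg (by positivity) (by linarith)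
    · have e1 : 0 ≤ (R ^ 2 - W0) * (x ^ 3 * (x + q)) := by
        have := pow_nonneg hx 3
        positivity
      have hy0 : 0 ≤ x * q := mul_nonneg hx h0
      have hy : x * q ≤ 0.41 := by nlinarith
      have e2 : 3 * (x * q) ≤ x ^ 2 + x * q + q ^ 2 := by nlinarith [sq_nonneg (x - q)]
      have e3 : x ^ 2 * q ^ 2 = (x * q) ^ 2 := by ring
      have e4 : q ^ 2 * x ^ 2 = (x * q) ^ 2 := by ring
      rw [e3, e4]
      have e5 : (x * q) ^ 2 ≤ 0.41 * (x * q) := by nlinarith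
      have e6 : W0 * (2.59 * (x * q)) ≤ W0 * (x ^ 2 + x * q + q ^ 2 - (x * q) ^ 2) :=
        mul_le_mul_of_nonneg_left (by linarith) (by linarith)
      have e7 : 1.381965 * (2.59 * (x * q)) ≤ W0 * (2.59 * (x * q)) :=
        mul_le_mul_of_nonneg_right hW.le (by positivity)
      have e8 : 2 * R ^ 2 * (x * q) ^ 2 ≤ 2 * 1.5835926 * (0.41 * (x * q)) := by
        apply mul_le_mul (by linarith) e5 (by positivity) (by norm_num)
      nlinarith
  linarith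

theorem zf_lo {x : ℝ} (h0 : 0 ≤ x) (h2 : x ≤ 0.6384) :
    (1.381965 + 0.201626 * x ^ 3) * (1 - x ^ 2) - 3.1671852 * x ^ 2 * (1 - x) ≤ zf x x := by
  have hR := R_sq_hi
  have hW := W0_lo'
  have hA := A_lo'
  have hx3 := pow_nonneg h0 3
  have hx2 : x ^ 2 ≤ 1 := by nlinarith
  unfold zf
  have e1 : (1.381965 + 0.201626 * x ^ 3) * (1 - x ^ 2) ≤
      (W0 + (R ^ 2 - W0) * x ^ 3) * (1 - x ^ 2) := by
    apply mul_le_mul_of_nonneg_right _ (by linarith)
    have := mul_le_mul_of_nonneg_right hA.le hx3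
    linarith
  have e2 : 2 * R ^ 2 * x ^ 2 * (1 - x) ≤ 3.1671852 * x ^ 2 * (1 - x) := by
    apply mul_le_mul_of_nonneg_right _ (by linarith)
    apply mul_le_mul_of_nonneg_right _ (sq_nonneg x)
    linarith
  linarith

theorem zlo_pos {x : ℝ} (h0 : 0 ≤ x) (h2 : x ≤ 0.6384) :
    0.38 ≤ (1.381965 + 0.201626 * x ^ 3) * (1 - x ^ 2) - 3.1671852 * x ^ 2 * (1 - x) := by
  have hv : 0 ≤ 0.6384 - x := by linarith
  norm_num
  nlinarith [pow_nonneg hv 5, mul_nonneg h0 (pow_nonneg hv 4),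
    mul_nonneg (pow_nonneg h0 2) (pow_nonneg hv 3), mul_nonneg (pow_nonneg h0 3)
    (pow_nonneg hv 2), mul_nonneg (pow_nonneg h0 4) hv, pow_nonneg h0 5]

theorem zf_pos {x : ℝ} (h0 : 0 ≤ x) (h2 : x ≤ 0.6384) : 0.38 ≤ zf x x :=
  (zlo_pos h0 h2).trans (zf_lo h0 h2)

/-- `z(q)/D0` is at most the function of `PI_B`. -/
theorem zf_hi {x q : ℝ} (h0 : 0 ≤ q) (h1 : q ≤ x) (h2 : x ≤ 0.6384) :
    zf x q ≤ (W0 + (R ^ 2 - W0) * x ^ 3) * (1 - q ^ 2 - 2.2079 * (q ^ 2 * (1 - q))) := by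
  have hR := R_sq_lo
  have hW := W0_hi'
  have hA := A_hi'
  have hx : 0 ≤ x := h0.trans h1
  have hx3 : x ^ 3 ≤ 0.6384 ^ 3 := pow_le_pow_left₀ hx h2 3
  have hx30 := pow_nonneg hx 3
  have e1 : (R ^ 2 - W0) * x ^ 3 ≤ 0.201627 * 0.6384 ^ 3 :=
    mul_le_mul hA.le hx3 hx30 (by norm_num)
  have e2 : 2.2079 * (W0 + (R ^ 2 - W0) * x ^ 3) ≤ 2 * R ^ 2 := by
    norm_num at e1
    linarith
  have e3 : 0 ≤ q ^ 2 * (1 - q) := mul_nonneg (sq_nonneg q) (by linarith)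
  have e4 := mul_le_mul_of_nonneg_right e2 e3
  unfold zf
  nlinarith

/-! ## The bound -/

theorem RW_lo' : (1.739075 : ℝ) ≤ R * W0 := by
  have h1 := R_lo'
  have h2 := W0_lo'
  calc (1.739075 : ℝ) ≤ 1.258408 * 1.381965 := by norm_num
    _ ≤ R * W0 := mul_le_mul h1.le h2.le (by norm_num) R_pos.le

theorem cs_eq : c2 / s2 = 1 / tan (π / 5) ^ 2 := by
  rw [tan_eq_sin_div_cos, div_pow, ← s2_eq, ← c2_eq, one_div_div]

theorem cs_hi : c2 / s2 ≤ 1.89443 := by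
  have h1 := s2_lo
  have h2 := c2_hi
  rw [div_le_iff₀ (by linarith)]
  rw [s2, c2]
  linarith [s5_hi']

theorem K_lo : 2.197345 ≤ 15 * tan (π / 5) * (R ^ 2 - W0) := by
  have h1 := tan36_lo
  have h2 := A_lo'
  calc (2.197345 : ℝ) ≤ 15 * 0.726542 * 0.201626 := by norm_num
    _ ≤ _ := mul_le_mul (by linarith) h2.le (by norm_num) (by linarith)

theorem K_cs : 15 * tan (π / 5) * (R ^ 2 - W0) * (c2 / s2) ≤ 4.2 := by
  have h1 := tan36_lo
  have h2 := A_hi'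
  have h3 := A_lo'
  have e : 15 * tan (π / 5) * (R ^ 2 - W0) * (c2 / s2) = 15 * (R ^ 2 - W0) / tan (π / 5) := by
    rw [cs_eq]
    have := tan36_pos.ne'
    field_simp
  rw [e, div_le_iff₀ tan36_pos]
  linarith

/-- The main polynomial inequality. -/
theorem PI_core {β κ x q : ℝ} (h0 : 0 ≤ q) (h1 : q ≤ x) (h2 : x ≤ 0.6384)
    (hκ : kl x ≤ κ)
    (hβ : β ≤ R * (R ^ 2 - W0) / 2 * (1 - x) ^ 2 * (1 + 2 * x)
      - 3 * (R ^ 2 - W0) ^ 2 / (8 * R) * (1 - x ^ 2) ^ 2 - κ * R * W0) :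
    (4.8036 - 1.593429 * x ^ 2) * (π / 3 * β) * zf x q ≤
      15 * tan (π / 5) * (R ^ 2 - W0) * zf x x * (QV q - κ * (c2 / s2)) := by
  have hx : 0 ≤ x := h0.trans h1
  have hpi1 := Real.pi_gt_d6
  have hpi2 := Real.pi_lt_d6
  have hA1 := A_lo'
  have hA2 := A_hi'
  have hR1 := R_lo'
  have hR2 := R_hi'
  have hR0 := R_pos
  have hRW := RW_lo'
  have hcs := cs_hi
  have hcs0 : 0 ≤ c2 / s2 := (div_pos (by linarith [c2_lo]) (by linarith [s2_lo])).le
  have hK := K_lo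
  have hKcs := K_cs
  have hkl0 := kl_nonneg x
  have hkq := kl_anti h0 h1 h2
  have hz1 := zf_pos hx h2
  have hzq := zf_le h0 h1 h2
  have hzh := zf_hi h0 h1 h2
  have hx2 : x ^ 2 ≤ 0.6384 ^ 2 := pow_le_pow_left₀ hx h2 2
  have hB := PI_B h0 (h1.trans h2)
  have hA := PI_A hx h2
  have hzl := zf_lo hx h2
  set S := 4.8036 - 1.593429 * x ^ 2 with hS
  have hS0 : 4.15 ≤ S := by
    norm_num at hx2
    rw [hS]
    linarith
  set K := 15 * tan (π / 5) * (R ^ 2 - W0) with hKdef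
  set D0 := W0 + (R ^ 2 - W0) * x ^ 3 with hD0
  set g := 1 - q ^ 2 - 2.2079 * (q ^ 2 * (1 - q)) with hg
  have hx3 : 0 ≤ x ^ 3 := pow_nonneg hx 3
  have hD0p : 0 < D0 := by
    have : 0 ≤ (R ^ 2 - W0) * x ^ 3 := mul_nonneg (by linarith) hx3
    have := W0_lo'
    rw [hD0]
    linarith
  have hD0h : D0 ≤ 1.381967 + 0.201627 * x ^ 3 := by
    have := mul_le_mul_of_nonneg_right hA2.le hx3
    have := W0_hi'
    rw [hD0]
    linarith
  have hg0 : 0 ≤ g := by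
    have : 0 < D0 * g := by linarith
    exact (pos_iff_pos_of_mul_pos this).1 hD0p |>.le
  have hpi3 : 0 ≤ π / 3 := by positivity
  have hSpi : 0 ≤ S * (π / 3) := by
    have : 0 ≤ S := by linarith
    positivity
  have hzq0 : 0 ≤ zf x q := by linarith
  -- the coefficient
  set b := R * (R ^ 2 - W0) / 2 * (1 - x) ^ 2 * (1 + 2 * x)
      - 3 * (R ^ 2 - W0) ^ 2 / (8 * R) * (1 - x ^ 2) ^ 2 with hb
  have hbB : b - kl x * (R * W0) ≤ 0.126865 * ((1 - x) ^ 2 * (1 + 2 * x)) -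
      0.012114 * (1 - x ^ 2) ^ 2 - 1.739075 * kl x := by
    have e1 : R * (R ^ 2 - W0) / 2 ≤ 0.126865 := by
      have : R * (R ^ 2 - W0) ≤ 1.258409 * 0.201627 :=
        mul_le_mul hR2.le hA2.le (by linarith) (by norm_num)
      norm_num at this
      linarith
    have e2 : 0.012114 ≤ 3 * (R ^ 2 - W0) ^ 2 / (8 * R) := by
      rw [le_div_iff₀ (by positivity)]
      have : 0.201626 ^ 2 ≤ (R ^ 2 - W0) ^ 2 := pow_le_pow_left₀ (by norm_num) hA1.le 2
      norm_num at this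
      linarith
    have e3 : 0 ≤ (1 - x) ^ 2 * (1 + 2 * x) := by positivity
    have e4 := mul_le_mul_of_nonneg_right e1 e3
    have e5 := mul_le_mul_of_nonneg_right e2 (sq_nonneg (1 - x ^ 2))
    have e6 := mul_le_mul_of_nonneg_left hRW hkl0
    rw [hb]
    linarith
  -- step 3
  have step3 : 0 ≤ b - kl x * (R * W0) →
      S * (π / 3) * (b - kl x * (R * W0)) * D0 ≤ 0.2385 * (K * zf x x) := by
    intro hb0
    have f1 : S * (π / 3) * (b - kl x * (R * W0)) ≤ S * 1.0472 *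
        (0.126865 * ((1 - x) ^ 2 * (1 + 2 * x)) - 0.012114 * (1 - x ^ 2) ^ 2 -
          1.739075 * kl x) := by
      apply mul_le_mul _ hbB hb0 (by linarith)
      apply mul_le_mul_of_nonneg_left _ (by linarith)
      linarith
    have f2 := mul_le_mul f1 hD0h hD0p.le ((mul_nonneg hSpi hb0).trans f1)
    have f3 : 2.197345 * ((1.381965 + 0.201626 * x ^ 3) * (1 - x ^ 2) -
        3.1671852 * x ^ 2 * (1 - x)) ≤ K * zf x x := by
      apply mul_le_mul hK hzl _ (by linarith)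
      linarith [zlo_pos hx h2]
    linarith
  -- step 4
  have hQ : 0.2385 * g ≤ QV q - c2 / s2 * kl x := by
    have e1 : c2 / s2 * kl x ≤ 1.89443 * kl q := mul_le_mul hcs hkq hkl0 (by norm_num)
    linarith
  have hKz : 0 ≤ K * zf x x := mul_nonneg (by linarith) (by linarith)
  have step4 : S * (π / 3) * (b - kl x * (R * W0)) * zf x q ≤
      K * zf x x * (QV q - c2 / s2 * kl x) := by
    rcases le_or_gt 0 (b - kl x * (R * W0)) with hb0 | hb0
    · have f1 : S * (π / 3) * (b - kl x * (R * W0)) * zf x q ≤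
          S * (π / 3) * (b - kl x * (R * W0)) * (D0 * g) :=
        mul_le_mul_of_nonneg_left hzh (mul_nonneg hSpi hb0)
      have f2 := mul_le_mul_of_nonneg_right (step3 hb0) hg0
      have f3 := mul_le_mul_of_nonneg_left hQ hKz
      linarith
    · have f1 : S * (π / 3) * (b - kl x * (R * W0)) * zf x q ≤ 0 :=
        mul_nonpos_of_nonpos_of_nonneg (mul_nonpos_of_nonneg_of_nonpos hSpi hb0.le) hzq0
      have f2 : 0 ≤ K * zf x x * (QV q - c2 / s2 * kl x) :=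
        mul_nonneg hKz (le_trans (by positivity) hQ)
      linarith
  -- step 5
  have step5 : K * (c2 / s2) * zf x x * (κ - kl x) ≤
      S * (π / 3) * (R * W0) * zf x q * (κ - kl x) := by
    apply mul_le_mul_of_nonneg_right _ (by linarith)
    have f0 : 4.15 * 1.047 * 1.739075 ≤ S * (π / 3) * (R * W0) := by
      apply mul_le_mul _ hRW (by norm_num) hSpi
      exact mul_le_mul hS0 (by linarith) (by norm_num) (by linarith)
    have f1 : K * (c2 / s2) ≤ S * (π / 3) * (R * W0) := by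
      norm_num at f0
      linarith
    exact mul_le_mul f1 hzq (by linarith) (by linarith)
  have step1 : S * (π / 3 * β) * zf x q ≤ S * (π / 3) * (b - κ * (R * W0)) * zf x q := by
    apply mul_le_mul_of_nonneg_right _ hzq0
    have : β ≤ b - κ * (R * W0) := by linarith
    have := mul_le_mul_of_nonneg_left this hSpi
    linarith
  linarith

end Pool.Agent.SDL
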