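import Pool.Agent.SDL.P_KU
import Pool.Agent.SDL.P_KEX

set_option autoImplicit false

/-! # SDL: two lower bounds for the inequality of the slope -/

open MeasureTheory Set Real
open scoped RealInnerProductSpace

namespace Pool.Agent.SDL

open Pool.Agent.SDC

/-! ## Generalities about the variable `y = tan ψ / tan 36°` -/

/-- The point where the density starts. -/
theorem SV_arc {q : ℝ} (h0 : 0 ≤ q) (h1 : q ≤ 1) :
    0 ≤ arctan (q * tan (π / 5)) ∧ arctan (q * tan (π / 5)) ≤ π / 5 ∧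
      tan (arctan (q * tan (π / 5))) = q * tan (π / 5) := by
  have hpi := Real.pi_pos
  have hT := tan36_pos
  refine ⟨?_, ?_, Real.tan_arctan _⟩
  · rw [← Real.arctan_zero]
    exact Real.arctan_mono (by positivity)
  · have h2 : arctan (tan (π / 5)) = π / 5 := Real.arctan_tan (by linarith) (by linarith)
    rw [← h2]
    apply Real.arctan_mono
    rw [h2]
    nlinarith

theorem SV_cos {ψ : ℝ} (h0 : 0 ≤ ψ) (h1 : ψ ≤ π / 5) : 0 < cos ψ := by
  have hpi := Real.pi_pos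
  exact cos_pos_of_mem_Ioo ⟨by linarith, by linarith⟩

theorem SV_tan {ψ φ : ℝ} (h0 : 0 ≤ ψ) (h1 : ψ ≤ φ) (h2 : φ ≤ π / 5) : tan ψ ≤ tan φ := by
  have hpi := Real.pi_pos
  exact Real.strictMonoOn_tan.monotoneOn ⟨by linarith, by linarith⟩ ⟨by linarith, by linarith⟩ h1

/-- The range of `y`. -/
theorem SV_y {q ψ : ℝ} (h0 : 0 ≤ q) (h1 : q ≤ 1) (hψ : arctan (q * tan (π / 5)) ≤ ψ)
    (hψ1 : ψ ≤ π / 5) : q ≤ tan ψ / tan (π / 5) ∧ tan ψ / tan (π / 5) ≤ 1 := by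
  have hT := tan36_pos
  obtain ⟨a1, a2, a3⟩ := SV_arc h0 h1
  constructor
  · rw [le_div_iff₀ hT, ← a3]
    exact SV_tan a1 hψ hψ1
  · rw [div_le_one hT]
    exact SV_tan (a1.trans hψ) hψ1 le_rfl

/-- The derivative of `tan`. -/
theorem SV_sec {ψ : ℝ} (hc : 0 < cos ψ) :
    (1 : ℝ) / cos ψ ^ 2 = 1 + tan (π / 5) ^ 2 * (tan ψ / tan (π / 5)) ^ 2 := by
  have hT := tan36_pos
  rw [div_pow, mul_div_cancel₀ _ (pow_pos hT 2).ne', Real.tan_eq_sin_div_cos]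
  field_simp
  linarith [Real.sin_sq_add_cos_sq ψ]

theorem SV_tcont : ContinuousOn (fun ψ => tan ψ / tan (π / 5)) (Icc (0 : ℝ) (π / 5)) := by
  apply ContinuousOn.div_const
  intro ψ hψ
  exact (Real.hasDerivAt_tan (SV_cos hψ.1 hψ.2).ne').continuousAt.continuousWithinAt

theorem SV_scont : ContinuousOn (fun ψ : ℝ => (1 / cos ψ ^ 2) / tan (π / 5))
    (Icc (0 : ℝ) (π / 5)) := by
  apply ContinuousOn.div_const
  apply ContinuousOn.div continuousOn_const (continuous_cos.pow 2).continuousOn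
  intro ψ hψ
  exact (pow_pos (SV_cos hψ.1 hψ.2) 2).ne'

/-- Substitution `y = tan ψ / tan 36°` for a function with a known antiderivative. -/
theorem SV_ftc {F f : ℝ → ℝ} (hF : ∀ y, HasDerivAt F (f y) y) (hf : Continuous f) {q : ℝ}
    (h0 : 0 ≤ q) (h1 : q ≤ 1) :
    IntervalIntegrable (fun ψ => f (tan ψ / tan (π / 5)) * ((1 / cos ψ ^ 2) / tan (π / 5)))
      volume (arctan (q * tan (π / 5))) (π / 5) ∧
    ∫ ψ in (arctan (q * tan (π / 5)))..(π / 5),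
      f (tan ψ / tan (π / 5)) * ((1 / cos ψ ^ 2) / tan (π / 5)) = F 1 - F q := by
  have hT := tan36_pos
  obtain ⟨a1, a2, a3⟩ := SV_arc h0 h1
  have hcont : ContinuousOn (fun ψ => f (tan ψ / tan (π / 5)) *
      ((1 / cos ψ ^ 2) / tan (π / 5))) (Icc (arctan (q * tan (π / 5))) (π / 5)) :=
    ((hf.comp_continuousOn SV_tcont).mul SV_scont).mono (Icc_subset_Icc a1 le_rfl)
  have hint : IntervalIntegrable (fun ψ => f (tan ψ / tan (π / 5)) *
      ((1 / cos ψ ^ 2) / tan (π / 5))) volume (arctan (q * tan (π / 5))) (π / 5) := by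
    apply ContinuousOn.intervalIntegrable
    rw [uIcc_of_le a2]
    exact hcont
  refine ⟨hint, ?_⟩
  rw [intervalIntegral.integral_eq_sub_of_hasDerivAt (f := fun ψ => F (tan ψ / tan (π / 5)))]
  · have h2 : tan (π / 5) / tan (π / 5) = 1 := div_self hT.ne'
    have h3 : tan (arctan (q * tan (π / 5))) / tan (π / 5) = q := by
      rw [a3]
      field_simp
    simp only [h2, h3]
  · intro ψ hψ
    rw [uIcc_of_le a2] at hψ
    have h2 := (Real.hasDerivAt_tan (SV_cos (a1.trans hψ.1) hψ.2).ne').div_const (tan (π / 5))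
    exact (hF (tan ψ / tan (π / 5))).comp ψ h2
  · exact hint

/-! ## The first bound -/

noncomputable def SV_F (q y : ℝ) : ℝ :=
  0.942 * (y ^ 3 / 3 - q ^ 2 * y) - 0.3045 * (y ^ 5 / 5 - q ^ 2 * y ^ 3 / 3)

theorem SV_F_deriv (q y : ℝ) :
    HasDerivAt (SV_F q) ((y ^ 2 - q ^ 2) * (0.942 - 0.3045 * y ^ 2)) y := by
  have h1 := hasDerivAt_id' y
  have h3 := hasDerivAt_pow 3 y
  have h5 := hasDerivAt_pow 5 y
  have h := (((h3.div_const 3).sub (h1.const_mul (q ^ 2))).const_mul 0.942).sub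
    (((h5.div_const 5).sub ((h3.const_mul (q ^ 2)).div_const 3)).const_mul 0.3045)
  refine h.congr_deriv ?_
  norm_num
  ring

/-- The lower bound of the integral of `(y² - q²)₊`. -/
theorem V_lo {q : ℝ} (h0 : 0 ≤ q) (h1 : q ≤ 1) :
    tan (π / 5) * ((1 - q) ^ 2 * (0.942 * (1 + 2 * q) / 3 -
      0.3045 * (3 + 6 * q + 4 * q ^ 2 + 2 * q ^ 3) / 15)) ≤
    ∫ ψ in (0 : ℝ)..(π / 5), max ((tan ψ / tan (π / 5)) ^ 2 - q ^ 2) 0 := by
  have hT := tan36_pos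
  have hT2 : tan (π / 5) ^ 2 = 5 - 2 * √5 := tan36_sq
  obtain ⟨a1, a2, a3⟩ := SV_arc h0 h1
  obtain ⟨hi, hv⟩ := SV_ftc (SV_F_deriv q) (by fun_prop) h0 h1
  have hmc : ContinuousOn (fun ψ => max ((tan ψ / tan (π / 5)) ^ 2 - q ^ 2) 0)
      (Icc (0 : ℝ) (π / 5)) := by
    have : ContinuousOn (fun ψ => (tan ψ / tan (π / 5)) ^ 2 - q ^ 2) (Icc (0 : ℝ) (π / 5)) :=
      (SV_tcont.pow 2).sub continuousOn_const
    exact this.sup continuousOn_const
  have hm1 : IntervalIntegrable (fun ψ => max ((tan ψ / tan (π / 5)) ^ 2 - q ^ 2) 0) volume 0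
      (arctan (q * tan (π / 5))) := by
    apply ContinuousOn.intervalIntegrable
    rw [uIcc_of_le a1]
    exact hmc.mono (Icc_subset_Icc le_rfl a2)
  have hm2 : IntervalIntegrable (fun ψ => max ((tan ψ / tan (π / 5)) ^ 2 - q ^ 2) 0) volume
      (arctan (q * tan (π / 5))) (π / 5) := by
    apply ContinuousOn.intervalIntegrable
    rw [uIcc_of_le a2]
    exact hmc.mono (Icc_subset_Icc a1 le_rfl)
  rw [← intervalIntegral.integral_add_adjacent_intervals hm1 hm2]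
  have h2 : 0 ≤ ∫ ψ in (0 : ℝ)..(arctan (q * tan (π / 5))),
      max ((tan ψ / tan (π / 5)) ^ 2 - q ^ 2) 0 :=
    intervalIntegral.integral_nonneg a1 fun ψ _ => le_max_right _ _
  have h3 : tan (π / 5) * ((1 - q) ^ 2 * (0.942 * (1 + 2 * q) / 3 -
      0.3045 * (3 + 6 * q + 4 * q ^ 2 + 2 * q ^ 3) / 15)) =
      ∫ ψ in (arctan (q * tan (π / 5)))..(π / 5), tan (π / 5) *
        (((tan ψ / tan (π / 5)) ^ 2 - q ^ 2) * (0.942 - 0.3045 * (tan ψ / tan (π / 5)) ^ 2) *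
          ((1 / cos ψ ^ 2) / tan (π / 5))) := by
    rw [intervalIntegral.integral_const_mul, hv, SV_F, SV_F]
    ring
  have h4 : ∫ ψ in (arctan (q * tan (π / 5)))..(π / 5), tan (π / 5) *
        (((tan ψ / tan (π / 5)) ^ 2 - q ^ 2) * (0.942 - 0.3045 * (tan ψ / tan (π / 5)) ^ 2) *
          ((1 / cos ψ ^ 2) / tan (π / 5))) ≤
      ∫ ψ in (arctan (q * tan (π / 5)))..(π / 5),
        max ((tan ψ / tan (π / 5)) ^ 2 - q ^ 2) 0 := by
    apply intervalIntegral.integral_mono_on a2 (hi.const_mul _) hm2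
    intro ψ hψ
    obtain ⟨b1, b2⟩ := SV_y h0 h1 hψ.1 hψ.2
    have hc := SV_cos (a1.trans hψ.1) hψ.2
    rw [SV_sec hc]
    set y := tan ψ / tan (π / 5)
    have hy0 : 0 ≤ y := h0.trans b1
    have h5 : q ^ 2 ≤ y ^ 2 := pow_le_pow_left₀ h0 b1 2
    have h6 : (0.942 - 0.3045 * y ^ 2) * (1 + tan (π / 5) ^ 2 * y ^ 2) ≤ 1 := by
      have h7 : tan (π / 5) ^ 2 < 0.52787 := by
        rw [hT2]
        linarith [s5_lo']
      have hy1 : y ^ 2 ≤ 1 := by nlinarith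
      have hy2 : 0 ≤ y ^ 2 := sq_nonneg y
      have h8 : (0.942 - 0.3045 * y ^ 2) * (1 + tan (π / 5) ^ 2 * y ^ 2) ≤
          (0.942 - 0.3045 * y ^ 2) * (1 + 0.52787 * y ^ 2) := by
        apply mul_le_mul_of_nonneg_left _ (by nlinarith)
        nlinarith
      refine h8.trans ?_
      nlinarith [sq_nonneg (y ^ 2 - 0.6)]
    have h9 : tan (π / 5) * ((y ^ 2 - q ^ 2) * (0.942 - 0.3045 * y ^ 2) *
        ((1 + tan (π / 5) ^ 2 * y ^ 2) / tan (π / 5))) =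
        (y ^ 2 - q ^ 2) * ((0.942 - 0.3045 * y ^ 2) * (1 + tan (π / 5) ^ 2 * y ^ 2)) := by
      field_simp
    rw [h9]
    refine le_trans ?_ (le_max_left _ _)
    exact mul_le_of_le_one_right (by linarith) h6
  linarith

/-! ## The lower bound of `kap` -/

noncomputable def SV_K (q y : ℝ) : ℝ := y ^ 5 / 5 - 2 * q ^ 2 * y ^ 3 / 3 + q ^ 4 * y

theorem SV_K_deriv (q y : ℝ) : HasDerivAt (SV_K q) ((y ^ 2 - q ^ 2) ^ 2) y := by
  have h1 := hasDerivAt_id' y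
  have h3 := hasDerivAt_pow 3 y
  have h5 := hasDerivAt_pow 5 y
  have h := ((h5.div_const 5).sub ((h3.const_mul (2 * q ^ 2)).div_const 3)).add
    (h1.const_mul (q ^ 4))
  refine h.congr_deriv ?_
  norm_num
  ring

/-- The elementary lower bound of `Bf`. -/
theorem SV_Bf {t c : ℝ} (ht : 0 < t) (htc : t ≤ c) (hcR : c ≤ R) :
    3 / (8 * R ^ 2) * (c ^ 2 - t ^ 2) ^ 2 ≤ Bf t c := by
  have hc : 0 < c := by linarith
  have hR := R_pos
  rcases eq_or_lt_of_le htc with h | h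
  · subst h
    rw [sub_self]
    have := p_BF.1 t t ht ht
    simpa using this
  · rw [Bf, if_neg (not_le.mpr h), div_mul_eq_mul_div, div_le_div_iff₀ (by positivity)
      (by positivity)]
    have h1 : 3 * (c ^ 2 - t ^ 2) ^ 2 * (2 * c) = (c - t) ^ 2 * (6 * c * (c + t) ^ 2) := by ring
    have h2 : (c - t) ^ 2 * (c + 2 * t) * (8 * R ^ 2) =
        (c - t) ^ 2 * (8 * (c + 2 * t) * R ^ 2) := by ring
    rw [h1, h2]
    apply mul_le_mul_of_nonneg_left _ (sq_nonneg _)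
    have h3 : c ^ 2 ≤ R ^ 2 := pow_le_pow_left₀ hc.le hcR 2
    have h4 : 8 * (c + 2 * t) * c ^ 2 ≤ 8 * (c + 2 * t) * R ^ 2 :=
      mul_le_mul_of_nonneg_left h3 (by positivity)
    have h5 : 6 * c * (c + t) ^ 2 ≤ 8 * (c + 2 * t) * c ^ 2 := by
      nlinarith [mul_pos hc (sub_pos.mpr h), mul_pos (mul_pos hc ht) (sub_pos.mpr h),
        mul_pos (mul_pos hc hc) (sub_pos.mpr h)]
    linarith

/-- The lower bound of `kap` for `t² ≥ W0`. -/
theorem kap_lo' {t q : ℝ} (hW : W0 ≤ t ^ 2) (ht : 1 ≤ t) (htR : t < R) (h0 : 0 ≤ q)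
    (h1 : q ≤ 1) (hq : q ^ 2 * (R ^ 2 - W0) = t ^ 2 - W0) :
    3 * (R ^ 2 - W0) ^ 2 * c2 / (4 * R ^ 2 * a0 ^ 2) *
      (1 / 5 - 2 * q ^ 2 / 3 + q ^ 4 - 8 * q ^ 5 / 15) ≤ kap t := by
  have hT := tan36_pos
  have ht0 : 0 < t := by linarith
  have hR := R_pos
  have hA : 0 < R ^ 2 - W0 := by linarith [W0_lt]
  have ha0 : 0 < a0 := by
    rw [a0]
    linarith [s5_lo']
  have hc2 : 0 < c2 := by linarith [c2_lo]
  have hT1 : (1 + tan (π / 5) ^ 2) * c2 = 1 := by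
    rw [tan36_sq, c2]
    nlinarith [s5_sq]
  obtain ⟨a1, a2, a3⟩ := SV_arc h0 h1
  obtain ⟨hi, hv⟩ := SV_ftc (SV_K_deriv q) (by fun_prop) h0 h1
  set A : ℝ := R ^ 2 - W0 with hAdef
  have hcont : ContinuousOn (fun ψ => Bf t (cc (a0 / cos ψ))) (Icc (0 : ℝ) (π / 5)) := by
    have hcc : Continuous cc := by unfold cc; fun_prop
    intro ψ hψ
    have h2 : ContinuousAt (Bf t) (cc (a0 / cos ψ)) :=
      (p_BF.2.1 t _ ht0 (cc_pos _)).continuousAt
    have h3 : ContinuousOn (fun ψ => cc (a0 / cos ψ)) (Icc (0 : ℝ) (π / 5)) :=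
      hcc.comp_continuousOn KAP_cont
    exact ContinuousAt.comp_continuousWithinAt (g := Bf t) (f := fun ψ => cc (a0 / cos ψ)) h2
      (h3 ψ hψ)
  have hm1 : IntervalIntegrable (fun ψ => Bf t (cc (a0 / cos ψ))) volume 0
      (arctan (q * tan (π / 5))) := by
    apply ContinuousOn.intervalIntegrable
    rw [uIcc_of_le a1]
    exact hcont.mono (Icc_subset_Icc le_rfl a2)
  have hm2 : IntervalIntegrable (fun ψ => Bf t (cc (a0 / cos ψ))) volume
      (arctan (q * tan (π / 5))) (π / 5) := by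
    apply ContinuousOn.intervalIntegrable
    rw [uIcc_of_le a2]
    exact hcont.mono (Icc_subset_Icc a1 le_rfl)
  have h2 : kap t * S0 = ∫ ψ in (0 : ℝ)..(π / 5), Bf t (cc (a0 / cos ψ)) := by
    rw [kap, p_KEX.1, div_mul_cancel₀ _ S0_pos.ne']
  rw [← intervalIntegral.integral_add_adjacent_intervals hm1 hm2] at h2
  have h3 : 0 ≤ ∫ ψ in (0 : ℝ)..(arctan (q * tan (π / 5))), Bf t (cc (a0 / cos ψ)) :=
    intervalIntegral.integral_nonneg a1 fun ψ _ => p_BF.1 t _ ht0 (cc_pos _)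
  have h4 : 3 / (8 * R ^ 2) * A ^ 2 * (c2 * tan (π / 5)) * (SV_K q 1 - SV_K q q) ≤
      ∫ ψ in (arctan (q * tan (π / 5)))..(π / 5), Bf t (cc (a0 / cos ψ)) := by
    rw [← hv, ← intervalIntegral.integral_const_mul]
    apply intervalIntegral.integral_mono_on a2 (hi.const_mul _) hm2
    intro ψ hψ
    obtain ⟨b1, b2⟩ := SV_y h0 h1 hψ.1 hψ.2
    have hc := SV_cos (a1.trans hψ.1) hψ.2
    have hcc := KU_cc hc.ne'
    have hb : q ^ 2 ≤ (tan ψ / tan (π / 5)) ^ 2 := pow_le_pow_left₀ h0 b1 2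
    have hb' : (tan ψ / tan (π / 5)) ^ 2 ≤ 1 := by nlinarith [h0.trans b1]
    have h5 : t ≤ cc (a0 / cos ψ) := by
      apply le_of_sq_le_sq _ (cc_pos _).le
      rw [hcc]
      nlinarith
    have h6 : cc (a0 / cos ψ) ≤ R := by
      apply le_of_sq_le_sq _ R_pos.le
      rw [hcc]
      nlinarith
    have h7 := SV_Bf ht0 h5 h6
    have h8 : cc (a0 / cos ψ) ^ 2 - t ^ 2 = A * ((tan ψ / tan (π / 5)) ^ 2 - q ^ 2) := by
      rw [hcc]
      linarith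
    rw [h8, mul_pow] at h7
    refine le_trans ?_ h7
    rw [SV_sec hc]
    set y := tan ψ / tan (π / 5)
    have h9 : 3 / (8 * R ^ 2) * A ^ 2 * (c2 * tan (π / 5)) *
        ((y ^ 2 - q ^ 2) ^ 2 * ((1 + tan (π / 5) ^ 2 * y ^ 2) / tan (π / 5))) =
        3 / (8 * R ^ 2) * (A ^ 2 * (y ^ 2 - q ^ 2) ^ 2) *
          (c2 * (1 + tan (π / 5) ^ 2 * y ^ 2)) := by
      field_simp
    rw [h9]
    have h10 : c2 * (1 + tan (π / 5) ^ 2 * y ^ 2) ≤ 1 := by
      have h11 : tan (π / 5) ^ 2 * y ^ 2 ≤ tan (π / 5) ^ 2 * 1 :=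
        mul_le_mul_of_nonneg_left hb' (by positivity)
      have h12 : c2 * (1 + tan (π / 5) ^ 2 * y ^ 2) ≤ c2 * (1 + tan (π / 5) ^ 2) :=
        mul_le_mul_of_nonneg_left (by linarith) hc2.le
      linarith
    exact mul_le_of_le_one_right (by positivity) h10
  have h5 : SV_K q 1 - SV_K q q = 1 / 5 - 2 * q ^ 2 / 3 + q ^ 4 - 8 * q ^ 5 / 15 := by
    rw [SV_K, SV_K]
    ring
  rw [h5] at h4
  have h6 : 3 * A ^ 2 * c2 / (4 * R ^ 2 * a0 ^ 2) *
      (1 / 5 - 2 * q ^ 2 / 3 + q ^ 4 - 8 * q ^ 5 / 15) * S0 =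
      3 / (8 * R ^ 2) * A ^ 2 * (c2 * tan (π / 5)) *
        (1 / 5 - 2 * q ^ 2 / 3 + q ^ 4 - 8 * q ^ 5 / 15) := by
    have h7 : S0 = a0 ^ 2 * tan (π / 5) / 2 := rfl
    rw [h7]
    field_simp
    ring
  apply le_of_mul_le_mul_right _ S0_pos
  rw [h6, h2]
  linarith

/-- The lower bound of `kap` for `t² ≥ W0`, polynomial form. -/
theorem kap_lo {t q : ℝ} (hW : W0 ≤ t ^ 2) (ht : 1 ≤ t) (htR : t < R) (h0 : 0 ≤ q)
    (h1 : q ≤ 0.6384) (hq : q ^ 2 * (R ^ 2 - W0) = t ^ 2 - W0) :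
    0.0065 * (1 - 10 / 3 * q ^ 2 + 3.29 * q ^ 4) ≤ kap t := by
  have h2 := kap_lo' hW ht htR h0 (by norm_num at *; linarith) hq
  refine le_trans ?_ h2
  have hA1 : (0.201625 : ℝ) ≤ R ^ 2 - W0 := by
    rw [R_sq, W0]
    linarith [s5_hi']
  have ha : a0 ^ 2 ≤ 0.381967 := by
    rw [a0_sq]
    linarith [s5_lo']
  have ha0 : 0 < a0 := by
    rw [a0]
    linarith [s5_lo']
  have hR := R_pos
  have hc := c2_lo
  have h3 : (0.0325 : ℝ) ≤ 3 * (R ^ 2 - W0) ^ 2 * c2 / (4 * R ^ 2 * a0 ^ 2) := by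
    rw [le_div_iff₀ (by positivity)]
    have e1 : (0.201625 : ℝ) ^ 2 ≤ (R ^ 2 - W0) ^ 2 := pow_le_pow_left₀ (by norm_num) hA1 2
    have e2 : (0.201625 : ℝ) ^ 2 * 0.654508 ≤ (R ^ 2 - W0) ^ 2 * c2 :=
      mul_le_mul e1 hc.le (by norm_num) (by positivity)
    have e3 : R ^ 2 * a0 ^ 2 ≤ 1.5835926 * 0.381967 :=
      mul_le_mul R_sq_hi.le ha (by positivity) (by norm_num)
    norm_num at e2 e3 ⊢
    linarith
  have h4 : 0 ≤ q ^ 4 * (1.71 - 8 / 3 * q) := by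
    apply mul_nonneg (by positivity)
    norm_num at *
    linarith
  have h5 : 0 ≤ 1 / 5 - 2 * q ^ 2 / 3 + q ^ 4 - 8 * q ^ 5 / 15 := by
    have e1 : 1 / 5 - 2 * q ^ 2 / 3 + q ^ 4 - 8 * q ^ 5 / 15 =
        (1 - q) ^ 3 * (3 + 9 * q + 8 * q ^ 2) / 15 := by ring
    rw [e1]
    have e2 : 0 ≤ 1 - q := by norm_num at *; linarith
    positivity
  have h6 : 0.0065 * (1 - 10 / 3 * q ^ 2 + 3.29 * q ^ 4) ≤
      0.0325 * (1 / 5 - 2 * q ^ 2 / 3 + q ^ 4 - 8 * q ^ 5 / 15) := by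
    norm_num at h4 ⊢
    nlinarith
  exact h6.trans (mul_le_mul_of_nonneg_right h3 h5)

end Pool.Agent.SDL
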