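import Pool.Agent.SDL.Steep1
import Pool.Agent.SDL.P_CB
import Pool.Agent.SDL.P_PYR
import Pool.Agent.SDL.P_MU
import Pool.Agent.SDL.P_LOC2
import Pool.Agent.SDL.P_PCH
import Pool.Agent.SDL.P_GMU
import Pool.Agent.SDL.P_OMG
import Pool.Agent.SDL.P_HB
import Pool.Agent.SDL.P_KEX
import Pool.Agent.SDL.P_DS1

set_option autoImplicit false

/-!
# SDL, steep drop, part 2: the local lemma with the exact value of the inscribed pentagon
-/

open MeasureTheory Set Real

namespace Pool.Agent.SDL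

open Pool.Agent.SDC

/-! ## The local lemma for a given radius -/

/-- The local lemma (as `T_CB`), with the value of the pentagon as an integral. -/
theorem CB_u {t h u : ℝ} (ht1 : 1 ≤ t) (htR : t < R) (hh1 : 1 ≤ h) (hhu : h < u) (htu : t < u)
    (huR : u ≤ R) (hu5 : u * ggu t (kap t) u (h ^ 2 * s2 + u ^ 2 * c2) = t ^ 3 + bet t)
    (hu6 : max (t ^ 2 - h ^ 2) 0 * (R ^ 2 - 1) ≤ (t ^ 2 - 1) * (u ^ 2 - h ^ 2)) :
    ∃ ρ' τ', 0 < ρ' ∧ ρ' ≤ rr h R ∧ 0 ≤ G t (kap t) (bet t) h ρ' ∧ 0 ≤ τ' ∧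
    (∀ a, 0 < a →
      ∫ ψ in (0 : ℝ)..(π / 2), max (HH t h ρ' - HH t h (a / cos ψ)) 0 ≤ τ') ∧
    - 2 * π * HH t h ρ' + 10 * τ' =
      -10 * (∫ ψ in (0 : ℝ)..(π / 5), HH t h (rr h u * cos (π / 5) / cos ψ)) := by
  have hh0 : 0 < h := by linarith
  have ht0 : 0 < t := by linarith
  have hu0 : 0 < u := by linarith
  obtain ⟨hk0, -⟩ := tKAP t ht1 htR
  obtain ⟨hb0, -⟩ := tBET t ht1 htR
  have hkap := CBx_kap ht1 htR hhu hh0 hu6
  have hmono := p_GMU t (kap t) h u ht0 hh0 hhu htu.le hkap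
  have hc : 0 < cos (π / 5) := cos36_pos
  have hc1 : cos (π / 5) < 1 := by
    rw [cos36_eq]
    linarith [s5_hi]
  have hk1 : kap t ≤ 1 := by
    have hden : 0 < u ^ 2 - h ^ 2 := by nlinarith
    have hq0 : 0 ≤ √(max (t ^ 2 - h ^ 2) 0) / √(u ^ 2 - h ^ 2) := by positivity
    have hq1 : √(max (t ^ 2 - h ^ 2) 0) / √(u ^ 2 - h ^ 2) ≤ 1 := by
      rw [div_le_one (Real.sqrt_pos.mpr hden)]
      apply Real.sqrt_le_sqrt
      apply max_le
      · nlinarith
      · exact hden.le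
    have h1 := CBx_anti (le_refl (0 : ℝ)) hq0 hq1
    norm_num at h1
    exact hkap.trans h1
  -- the radius
  obtain ⟨hrr0, hh2, -⟩ := CBx_rr hh0 hhu
  have hrrR : rr h u ≤ rr h R := by
    rw [rr, rr]
    apply Real.sqrt_le_sqrt
    apply sub_le_sub_right
    apply div_le_div_of_nonneg_right _ (by positivity)
    apply pow_le_pow_left₀ hu0.le huR
  -- the apothem
  have hA0 : 0 < rr h u * cos (π / 5) := mul_pos hrr0 hc
  have hAr : rr h u * cos (π / 5) < rr h u := mul_lt_of_lt_one_right hrr0 hc1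
  have hWA : h ^ 2 * (1 + (rr h u * cos (π / 5)) ^ 2) = h ^ 2 * s2 + u ^ 2 * c2 := by
    have e2 : s2 = 1 - c2 := by linarith [s2_add_c2]
    rw [mul_pow, ← c2_eq, e2, ← hh2]
    ring
  have hval : u * ggu t (kap t) u (h ^ 2 * (1 + (rr h u * cos (π / 5)) ^ 2)) =
      t ^ 3 + bet t := by
    rw [hWA]
    exact hu5
  obtain ⟨hs1, hs2⟩ := CBx_sg p_PCH ht0 htu hh0 hhu hmono hA0 hAr hval
  have hGv := CBx_G ht0 htu hh0 hhu hk1 hmono hA0 hAr hval
  -- the local lemma
  have hcont : Continuous (G t (kap t) (bet t) h) := tHCL.1 t (kap t) (bet t) h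
  have hsgn : ∀ r r', 0 ≤ r → r ≤ r' → 0 ≤ G t (kap t) (bet t) h r →
      0 ≤ G t (kap t) (bet t) h r' :=
    fun r r' hr hrr hG => p_SGN t (kap t) (bet t) h r r' ht0 hh0 hk0 hb0 hr hrr hG
  have hloc := p_LOC2 (G t (kap t) (bet t) h) (rr h u) (rr h u * cos (π / 5)) hcont hA0 hAr
    hsgn hGv hs1 hs2
  have harc : arccos (rr h u * cos (π / 5) / rr h u) = π / 5 := by
    rw [mul_div_cancel_left₀ _ hrr0.ne']
    exact arccos_cos (by positivity) (by linarith [Real.pi_pos])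
  rw [harc] at hloc
  have hbound : ∀ a, 0 < a →
      ∫ ψ in (0 : ℝ)..(π / 2), max (HH t h (rr h u) - HH t h (a / cos ψ)) 0 ≤
        ∫ ψ in (0 : ℝ)..(π / 5), (HH t h (rr h u) - HH t h (rr h u * cos (π / 5) / cos ψ)) :=
    hloc
  refine ⟨rr h u,
    ∫ ψ in (0 : ℝ)..(π / 5), (HH t h (rr h u) - HH t h (rr h u * cos (π / 5) / cos ψ)),
    hrr0, hrrR, hGv, ?_, hbound, ?_⟩
  · refine le_trans ?_ (hbound 1 one_pos)
    apply intervalIntegral.integral_nonneg (by positivity)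
    intro ψ _
    exact le_max_right _ _
  · have hHc : Continuous (HH t h) := pyr_cont t h
    have hii : IntervalIntegrable (fun ψ => HH t h (rr h u * cos (π / 5) / cos ψ)) volume 0
        (π / 5) := by
      apply ContinuousOn.intervalIntegrable
      apply hHc.comp_continuousOn
      apply ContinuousOn.div continuousOn_const continuous_cos.continuousOn
      intro ψ hψ
      rw [uIcc_of_le (by positivity)] at hψ
      exact (pyr_cos hψ).ne'
    rw [intervalIntegral.integral_sub intervalIntegrable_const hii,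
      intervalIntegral.integral_const]
    rw [smul_eq_mul]
    ring

/-! ## The value of the pentagon -/

theorem int_sec : ∫ ψ in (0 : ℝ)..(π / 5), c2 / cos ψ ^ 2 = c2 * tan (π / 5) := by
  have h1 : ∀ ψ ∈ uIcc (0 : ℝ) (π / 5),
      HasDerivAt (fun x => c2 * tan x) (c2 / cos ψ ^ 2) ψ := by
    intro ψ hψ
    rw [uIcc_of_le (by positivity)] at hψ
    have h2 : cos ψ ≠ 0 := (pyr_cos hψ).ne'
    have h3 := (Real.hasDerivAt_tan h2).const_mul c2
    refine h3.congr_deriv ?_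
    ring
  have h2 : IntervalIntegrable (fun ψ : ℝ => c2 / cos ψ ^ 2) volume 0 (π / 5) := by
    apply ContinuousOn.intervalIntegrable
    rw [uIcc_of_le (by positivity)]
    apply ContinuousOn.div continuousOn_const (by fun_prop)
    intro ψ hψ
    have := pyr_cos hψ
    positivity
  rw [intervalIntegral.integral_eq_sub_of_hasDerivAt h1 h2, tan_zero]
  ring

/-- The exact value of the inscribed regular pentagon, if the ball of radius `t` does not reach
the sides. -/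
theorem pent_val {t h u : ℝ} (ht : 0 < t) (hh : 0 < h) (hu : h < u)
    (htW : t ^ 2 ≤ h ^ 2 * s2 + u ^ 2 * c2) :
    -10 * (∫ ψ in (0 : ℝ)..(π / 5), HH t h (rr h u * cos (π / 5) / cos ψ)) =
      (t ^ 3 + bet t) * (2 * π - 10 * arctan (h * tan (π / 5) / u)) -
        5 * c2 * tan (π / 5) * (1 - kap t) * (h * (u ^ 2 - h ^ 2)) -
        π * (max (t - h) 0) ^ 2 * (2 * t + h) := by
  have h5 : (0 : ℝ) ≤ π / 5 := by positivity
  have hcap : t ^ 3 + h ^ 3 / 2 - 3 / 2 * t ^ 2 * h - h * Bf t h =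
      (max (t - h) 0) ^ 2 * (2 * t + h) / 2 := by
    rcases le_or_gt h t with hht | hht
    · rw [Bf, if_pos hht, max_eq_left (by linarith)]
      ring
    · rw [p_BF.2.2 t h ht hht.le, max_eq_right (by linarith)]
      field_simp
      ring
  have key : ∀ ψ ∈ uIcc (0 : ℝ) (π / 5), - HH t h (rr h u * cos (π / 5) / cos ψ) =
      - (1 - kap t) * (h * (u ^ 2 - h ^ 2)) / 2 * (c2 / cos ψ ^ 2) -
      (t ^ 3 + bet t) * (h / √(h ^ 2 + (u ^ 2 - h ^ 2) * (c2 / cos ψ ^ 2))) +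
      ((t ^ 3 + bet t) - (max (t - h) 0) ^ 2 * (2 * t + h) / 2) := by
    intro ψ hψ
    rw [uIcc_of_le h5] at hψ
    have hg := pyr_g hψ
    have hpos := pyr_pos hh hu hg.1
    rw [pyr_cl p_HB ht hh hu hψ]
    set S := √(h ^ 2 + (u ^ 2 - h ^ 2) * (c2 / cos ψ ^ 2)) with hS
    have hsq : S ^ 2 = h ^ 2 + (u ^ 2 - h ^ 2) * (c2 / cos ψ ^ 2) := Real.sq_sqrt hpos.le
    have hS0 : 0 < S := Real.sqrt_pos.mpr hpos
    have htS : t ≤ S := by
      rw [hS]
      apply Real.le_sqrt_of_sq_le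
      refine htW.trans ?_
      have e1 : c2 ≤ c2 / cos ψ ^ 2 := by
        rw [le_div_iff₀ (by have := pyr_cos hψ; positivity)]
        have := cos_sq_le_one ψ
        nlinarith [c2_pos']
      have e2 : 0 ≤ u ^ 2 - h ^ 2 := by nlinarith
      have e3 := mul_le_mul_of_nonneg_left e1 e2
      have e4 := s2_add_c2
      have e5 : s2 = 1 - c2 := by linarith
      rw [e5]
      nlinarith
    rw [p_BF.2.2 t S ht htS, hsq]
    have e6 : h / S = h * (1 / S) := by ring
    have e7 : t ^ 3 / S = t ^ 3 * (1 / S) := by ring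
    rw [e6, e7]
    linear_combination (-1) * hcap
  -- integrability
  have i1 : IntervalIntegrable (fun ψ : ℝ => c2 / cos ψ ^ 2) volume 0 (π / 5) := by
    apply ContinuousOn.intervalIntegrable
    rw [uIcc_of_le h5]
    apply ContinuousOn.div continuousOn_const (by fun_prop)
    intro ψ hψ
    have := pyr_cos hψ
    positivity
  have i2 : IntervalIntegrable
      (fun ψ => h / √(h ^ 2 + (u ^ 2 - h ^ 2) * (c2 / cos ψ ^ 2))) volume 0 (π / 5) := by
    apply ContinuousOn.intervalIntegrable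
    rw [uIcc_of_le h5]
    apply ContinuousOn.div continuousOn_const
    · apply ContinuousOn.sqrt
      apply ContinuousOn.add continuousOn_const
      apply ContinuousOn.mul continuousOn_const
      apply ContinuousOn.div continuousOn_const (by fun_prop)
      intro ψ hψ
      have := pyr_cos hψ
      positivity
    · intro ψ hψ
      exact (Real.sqrt_pos.mpr (pyr_pos hh hu (pyr_g hψ).1)).ne'
  have hI : (∫ ψ in (0 : ℝ)..(π / 5), - HH t h (rr h u * cos (π / 5) / cos ψ)) =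
      - (1 - kap t) * (h * (u ^ 2 - h ^ 2)) / 2 * (c2 * tan (π / 5)) -
      (t ^ 3 + bet t) * arctan (h * tan (π / 5) / u) +
      ((t ^ 3 + bet t) - (max (t - h) 0) ^ 2 * (2 * t + h) / 2) * (π / 5) := by
    rw [intervalIntegral.integral_congr key, intervalIntegral.integral_add
      ((i1.const_mul _).sub (i2.const_mul _)) intervalIntegrable_const,
      intervalIntegral.integral_sub (i1.const_mul _) (i2.const_mul _),
      intervalIntegral.integral_const_mul, intervalIntegral.integral_const_mul, int_sec,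
      p_OMG h u hh hu, intervalIntegral.integral_const, smul_eq_mul]
    ring
  rw [intervalIntegral.integral_neg] at hI
  linarith

/-! ## The radius of the best pentagon -/

theorem th_lo : (1.202558 : ℝ) < th := by
  by_contra hcon
  push Not at hcon
  have h1 : th ^ 3 ≤ 1.202558 ^ 3 := pow_le_pow_left₀ th_pos.le hcon 3
  rw [th_cube] at h1
  have h2 := ds1_RW.1
  norm_num at h1
  linarith

theorem th_hi : th < (1.20256 : ℝ) := by
  by_contra hcon
  push Not at hcon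
  have h1 : (1.20256 : ℝ) ^ 3 ≤ th ^ 3 := pow_le_pow_left₀ (by norm_num) hcon 3
  rw [th_cube] at h1
  have h2 := ds1_RW.2
  norm_num at h1
  linarith

theorem root_u {h : ℝ} (h1 : 1 ≤ h) (hth : h < th) :
    ∃ u, h < u ∧ u ≤ R ∧ u * (h ^ 2 * s2 + u ^ 2 * c2) = R * W0 := by
  have hR1 := R_lo'
  have hhR : h ≤ R := by linarith [th_hi]
  have hcont : ContinuousOn (fun u : ℝ => u * (h ^ 2 * s2 + u ^ 2 * c2)) (Icc h R) := by
    fun_prop
  have hf1 : h * (h ^ 2 * s2 + h ^ 2 * c2) < R * W0 := by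
    have e1 : h * (h ^ 2 * s2 + h ^ 2 * c2) = h ^ 3 := by
      linear_combination h ^ 3 * s2_add_c2
    rw [e1, ← th_cube]
    exact pow_lt_pow_left₀ hth (by linarith) (by norm_num)
  have hf2 : R * W0 ≤ R * (h ^ 2 * s2 + R ^ 2 * c2) := by
    rw [W0_sc]
    apply mul_le_mul_of_nonneg_left _ R_pos.le
    have e1 : 1 ≤ h ^ 2 := by nlinarith
    nlinarith [s2_pos']
  obtain ⟨u, hu, hu2⟩ := intermediate_value_Icc hhR hcont
    (⟨hf1.le, hf2⟩ : R * W0 ∈ Icc _ _)
  simp only at hu2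
  refine ⟨u, ?_, hu.2, hu2⟩
  rcases lt_or_eq_of_le hu.1 with h2 | h2
  · exact h2
  · exfalso
    rw [← h2] at hu2
    linarith

/-- Properties of the parameters for `t² ≤ W0`. -/
theorem bet_low {t : ℝ} (htW : t ^ 2 ≤ W0) : t ^ 3 + bet t = (1 - kap t) * (R * W0) := by
  rw [bet, gg, max_eq_right (by linarith)]
  simp
  ring

theorem t_hi {t : ℝ} (ht : 1 ≤ t) (htW : t ^ 2 ≤ W0) : t ≤ 1.1756 := by
  have : W0 < 1.381966012 := by
    rw [W0]
    have h5 : (2.236067977 : ℝ) < √5 := by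
      rw [show (2.236067977 : ℝ) = √(2.236067977 ^ 2) by rw [Real.sqrt_sq (by norm_num)]]
      exact Real.sqrt_lt_sqrt (by norm_num) (by norm_num)
    linarith
  nlinarith

theorem kap_low {t : ℝ} (ht : 1 ≤ t) (htW : t ^ 2 ≤ W0) : 0 < 1 - kap t := by
  have h1 := p_KEX.2 t ht htW
  have h2 := ds1_D t ht (t_hi ht htW)
  have h3 : 0 < (1 - kap t) * S0 := by
    rw [h1]
    have := Real.pi_pos
    positivity
  exact (pos_iff_pos_of_mul_pos h3).2 S0_pos

/-- The value at `h = 1`, `u = R`. -/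
theorem gw_one {t : ℝ} (ht : 1 ≤ t) (htW : t ^ 2 ≤ W0) :
    (1 - kap t) * gw 1 R = π / 3 * bet t + π * ((t - 1) ^ 2 * (2 * t + 1)) := by
  have h1 := p_KEX.2 t ht htW
  have h2 := bet_low htW
  have hR := R_pos
  have hat : arctan (1 * tan (π / 5) / R) = π / 6 := by
    have e : R / √3 / R = (√3)⁻¹ := by
      field_simp
    rw [one_mul, tan36_R, e, arctan_inv_sqrt_three]
  have hS : 5 * c2 * tan (π / 5) * (1 * (R ^ 2 - 1 ^ 2)) = 10 * S0 := by
    have e1 := W0_one
    have e2 : W0 - 1 = a0 ^ 2 := by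
      rw [W0_eq]
      ring
    rw [S0, ← e2, e1]
    ring
  rw [gw, hat, hS]
  linear_combination (-(10 : ℝ)) * h1 - (π / 3) * h2

/-- **The local lemma with the exact value**, for `t² ≤ W0`. -/
theorem CB_val {t h : ℝ} (ht1 : 1 ≤ t) (htW : t ^ 2 ≤ W0) (hh1 : 1 ≤ h) (hth : h < th) :
    ∃ u, h < u ∧ u ≤ R ∧ u * (h ^ 2 * s2 + u ^ 2 * c2) = R * W0 ∧
    ∃ ρ' τ', 0 < ρ' ∧ ρ' ≤ rr h R ∧ 0 ≤ G t (kap t) (bet t) h ρ' ∧ 0 ≤ τ' ∧
    (∀ a, 0 < a →
      ∫ ψ in (0 : ℝ)..(π / 2), max (HH t h ρ' - HH t h (a / cos ψ)) 0 ≤ τ') ∧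
    - 2 * π * HH t h ρ' + 10 * τ' =
      (1 - kap t) * gw h u - π * (max (t - h) 0) ^ 2 * (2 * t + h) := by
  have ht0 : 0 < t := by linarith
  have hh0 : 0 < h := by linarith
  have htR : t < R := by linarith [t_hi ht1 htW, R_lo']
  have hk := kap_low ht1 htW
  have hk0 := (tKAP t ht1 htR).1
  obtain ⟨u, hhu, huR, hF⟩ := root_u hh1 hth
  have hu0 : 0 < u := by linarith
  have hW' : W0 ≤ h ^ 2 * s2 + u ^ 2 * c2 := by
    have h1 : u * W0 ≤ u * (h ^ 2 * s2 + u ^ 2 * c2) := by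
      rw [hF]
      exact mul_le_mul_of_nonneg_right huR W0_pos'.le
    exact le_of_mul_le_mul_left h1 hu0
  have hWu : h ^ 2 * s2 + u ^ 2 * c2 < u ^ 2 := by
    have e1 : h ^ 2 < u ^ 2 := pow_lt_pow_left₀ hhu hh0.le (by norm_num)
    have e2 := s2_add_c2
    have e3 : c2 = 1 - s2 := by linarith
    rw [e3]
    nlinarith [s2_pos']
  have htu : t < u := by
    have : t ^ 2 < u ^ 2 := by linarith
    exact lt_of_pow_lt_pow_left₀ 2 hu0.le this
  have hu5 : u * ggu t (kap t) u (h ^ 2 * s2 + u ^ 2 * c2) = t ^ 3 + bet t := by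
    rw [ggu, max_eq_right (by linarith), Real.sqrt_zero, bet_low htW, ← hF]
    simp
    ring
  have hu6 : max (t ^ 2 - h ^ 2) 0 * (R ^ 2 - 1) ≤ (t ^ 2 - 1) * (u ^ 2 - h ^ 2) := by
    rcases le_or_gt t h with hht | hht
    · rw [max_eq_right (by nlinarith), zero_mul]
      apply mul_nonneg <;> nlinarith
    · rw [max_eq_left (by nlinarith)]
      have ht1' : 1 < t := by linarith
      have hden : 0 < t ^ 2 - 1 := by nlinarith
      have hR2 : 0 < R ^ 2 - 1 := by nlinarith [R_lo']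
      have hth2 : 0 < t ^ 2 - h ^ 2 := by nlinarith
      set U := √(h ^ 2 + (t ^ 2 - h ^ 2) * (R ^ 2 - 1) / (t ^ 2 - 1)) with hU
      have hU2 : U ^ 2 = h ^ 2 + (t ^ 2 - h ^ 2) * (R ^ 2 - 1) / (t ^ 2 - 1) := by
        rw [hU]
        apply Real.sq_sqrt
        positivity
      have hU0 : 0 < U := by
        rw [hU]
        apply Real.sqrt_pos.mpr
        positivity
      obtain ⟨h1, h2, h3⟩ := p_MU t (kap t) h U hh1 hht htR hk0 (by linarith) hU0 hU2
      have e1 : R * ggu t (kap t) R W0 = (1 - kap t) * (R * W0) := by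
        rw [ggu, max_eq_right (by linarith), Real.sqrt_zero]
        simp
        ring
      have e2 : (1 - kap t) * (h ^ 2 * s2 + U ^ 2 * c2) ≤
          ggu t (kap t) U (h ^ 2 * s2 + U ^ 2 * c2) := by
        rw [ggu]
        have : 0 ≤ √(max (t ^ 2 - (h ^ 2 * s2 + U ^ 2 * c2)) 0) ^ 3 /
            √(U ^ 2 - (h ^ 2 * s2 + U ^ 2 * c2)) := by positivity
        linarith
      have e3 : (1 - kap t) * (U * (h ^ 2 * s2 + U ^ 2 * c2)) ≤ (1 - kap t) * (R * W0) := by
        rw [← e1]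
        refine le_trans ?_ h3
        have := mul_le_mul_of_nonneg_left e2 hU0.le
        linarith
      have e4 : U * (h ^ 2 * s2 + U ^ 2 * c2) ≤ u * (h ^ 2 * s2 + u ^ 2 * c2) := by
        rw [hF]
        exact le_of_mul_le_mul_left e3 hk
      have e5 : U ≤ u := by
        by_contra hcon
        push Not at hcon
        have e6 : u ^ 2 < U ^ 2 := pow_lt_pow_left₀ hcon hu0.le (by norm_num)
        have e7 : h ^ 2 * s2 + u ^ 2 * c2 < h ^ 2 * s2 + U ^ 2 * c2 := by
          nlinarith [c2_pos']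
        have e8 : 0 < h ^ 2 * s2 + u ^ 2 * c2 := by linarith [W0_pos']
        have e9 : u * (h ^ 2 * s2 + u ^ 2 * c2) < U * (h ^ 2 * s2 + U ^ 2 * c2) :=
          mul_lt_mul hcon e7.le e8 hU0.le
        linarith
      have e6 : U ^ 2 ≤ u ^ 2 := pow_le_pow_left₀ hU0.le e5 2
      have e7 : (t ^ 2 - h ^ 2) * (R ^ 2 - 1) = (t ^ 2 - 1) * (U ^ 2 - h ^ 2) := by
        rw [hU2]
        field_simp
        ring
      rw [e7]
      apply mul_le_mul_of_nonneg_left _ hden.le
      linarith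
  obtain ⟨ρ', τ', a1, a2, a3, a4, a5, a6⟩ := CB_u ht1 htR hh1 hhu htu huR hu5 hu6
  refine ⟨u, hhu, huR, hF, ρ', τ', a1, a2, a3, a4, a5, ?_⟩
  rw [a6, pent_val ht0 hh0 hhu (htW.trans hW'), bet_low htW, gw]
  ring

end Pool.Agent.SDL
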