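import Pool.Agent.SDL.SlopePI0
import Pool.Agent.SDL.Steep2
import Pool.Agent.SDL.SlopeV

set_option autoImplicit false

/-!
# SDL: the slope of the best pentagon for `W0 ≤ t²`, part 2: stationarity and integrals
-/

open MeasureTheory Set Real

namespace Pool.Agent.SDL

open Pool.Agent.SDC

/-! ## Stationarity -/

/-- The case `W' ≤ t²`: the inequality of the stationarity. -/
theorem stat_q {T κ D A B u P W x q : ℝ} (hu0 : 0 < u) (hR : 0 < B)
    (hP : u ^ 2 = W + P) (hq : q ^ 2 * P = T - W) (hD0 : 0 < D)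
    (hD : D = (1 - κ) * (T - A * x ^ 2) + A * x ^ 3) (hT : B ^ 2 - T = A * (1 - x ^ 2))
    (hs : u * ((1 - κ) * W + P * q ^ 3) = B * D) :
    A * (D * (1 - x ^ 2) - 2 * B ^ 2 * x ^ 2 * ((1 - κ) - x)) ≤
      P * (D * (1 - q ^ 2) - 2 * B ^ 2 * q ^ 2 * ((1 - κ) - q)) := by
  -- `u³ ≥ 3 B² u - 2 B³`
  have h1 : 0 ≤ (u - B) ^ 2 * (u + 2 * B) := by positivity
  -- multiply by `D / u`
  have h2 : 0 ≤ D * ((u - B) ^ 2 * (u + 2 * B)) := mul_nonneg hD0.le h1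
  have h3 : D * ((u - B) ^ 2 * (u + 2 * B)) = u * (D * u ^ 2 - 3 * B ^ 2 * D +
      2 * B ^ 2 * ((1 - κ) * W + P * q ^ 3)) := by
    linear_combination (-(2 * B ^ 2)) * hs
  rw [h3] at h2
  have h4 := nonneg_of_mul_nonneg_right h2 hu0
  have h5 : P * (D * (1 - q ^ 2) - 2 * B ^ 2 * q ^ 2 * ((1 - κ) - q)) -
      A * (D * (1 - x ^ 2) - 2 * B ^ 2 * x ^ 2 * ((1 - κ) - x)) =
      D * u ^ 2 - 3 * B ^ 2 * D + 2 * B ^ 2 * ((1 - κ) * W + P * q ^ 3) := by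
    linear_combination (-D) * hP + (-D - 2 * B ^ 2 * (1 - κ)) * hq + D * hT +
      (2 * B ^ 2) * hD
  linarith

/-- The case `t² ≤ W'`. -/
theorem stat_0 {T κ D A B u P W x : ℝ} (hu0 : 0 < u) (hR : 0 < B)
    (hP : u ^ 2 = W + P) (hD0 : 0 < D)
    (hD : D = (1 - κ) * (T - A * x ^ 2) + A * x ^ 3) (hT : B ^ 2 - T = A * (1 - x ^ 2))
    (hs : u * ((1 - κ) * W) = B * D) :
    A * (D * (1 - x ^ 2) - 2 * B ^ 2 * x ^ 2 * ((1 - κ) - x)) ≤
      P * D + (W - T) * (D + 2 * B ^ 2 * (1 - κ)) := by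
  have h1 : 0 ≤ (u - B) ^ 2 * (u + 2 * B) := by positivity
  have h2 : 0 ≤ D * ((u - B) ^ 2 * (u + 2 * B)) := mul_nonneg hD0.le h1
  have h3 : D * ((u - B) ^ 2 * (u + 2 * B)) = u * (D * u ^ 2 - 3 * B ^ 2 * D +
      2 * B ^ 2 * ((1 - κ) * W)) := by
    linear_combination (-(2 * B ^ 2)) * hs
  rw [h3] at h2
  have h4 := nonneg_of_mul_nonneg_right h2 hu0
  have h5 : P * D + (W - T) * (D + 2 * B ^ 2 * (1 - κ)) -
      A * (D * (1 - x ^ 2) - 2 * B ^ 2 * x ^ 2 * ((1 - κ) - x)) =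
      D * u ^ 2 - 3 * B ^ 2 * D + 2 * B ^ 2 * ((1 - κ) * W) := by
    linear_combination (-D) * hP + D * hT + (2 * B ^ 2) * hD
  linarith

theorem zf_wf (κ x q : ℝ) : zf x q - κ * wf q =
    ((1 - κ) * W0 + (R ^ 2 - W0) * x ^ 3) * (1 - q ^ 2) - 2 * R ^ 2 * q ^ 2 * ((1 - κ) - q) := by
  unfold zf wf
  ring

/-- `κ` can be removed. -/
theorem rem_kap {P κ x q : ℝ} (h0 : 0 ≤ q) (h1 : q ≤ x) (h2 : x ≤ 0.6384) (hκ0 : 0 ≤ κ)
    (hκ1 : κ ≤ 0.1)
    (h : (R ^ 2 - W0) * (zf x x - κ * wf x) ≤ P * (zf x q - κ * wf q)) :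
    (R ^ 2 - W0) * zf x x ≤ P * zf x q := by
  have hx : 0 ≤ x := h0.trans h1
  have hA := A_lo'
  have hW := W0_hi'
  have hW' := W0_lo'
  have hz1 := zf_pos hx h2
  have hzq := zf_le h0 h1 h2
  have hzw := zw_nonneg h0 h1 h2
  have hw : wf q ≤ 1.381967 := by
    unfold wf
    have : 0 ≤ 2 * R ^ 2 * q ^ 2 := by positivity
    have : 0 ≤ W0 * q ^ 2 := mul_nonneg (by linarith) (sq_nonneg q)
    linarith
  have hk : κ * wf q ≤ 0.14 := by
    rcases le_or_gt 0 (wf q) with hwf | hwf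
    · calc κ * wf q ≤ 0.1 * 1.381967 := mul_le_mul hκ1 hw hwf (by norm_num)
        _ ≤ 0.14 := by norm_num
    · have := mul_nonpos_of_nonneg_of_nonpos hκ0 hwf.le
      linarith
  have hpos : 0 < zf x q - κ * wf q := by linarith
  by_contra hcon
  push Not at hcon
  have e1 : P * zf x q * (zf x q - κ * wf q) < (R ^ 2 - W0) * zf x x * (zf x q - κ * wf q) :=
    mul_lt_mul_of_pos_right hcon hpos
  have e2 := mul_le_mul_of_nonneg_right h (show 0 ≤ zf x q by linarith)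
  have e3 : 0 ≤ (R ^ 2 - W0) * κ * (zf x x * wf q - zf x q * wf x) :=
    mul_nonneg (mul_nonneg (by linarith) hκ0) (by linarith)
  linarith

/-! ## The integral -/

/-- The lower bound of the slope integral. -/
theorem int_lo {t h u κ q w : ℝ} (hu : h ^ 2 < u ^ 2) (hq0 : 0 ≤ q) (hq1 : q ≤ 1)
    (hw0 : 0 ≤ w) (hwq : w = 0 ∨ q = 0)
    (he : h ^ 2 * s2 + u ^ 2 * c2 - t ^ 2 = w - q ^ 2 * (s2 * (u ^ 2 - h ^ 2))) :
    w * (π / 5) + s2 * (u ^ 2 - h ^ 2) * tan (π / 5) * (QV q - κ * (c2 / s2)) ≤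
    ∫ ψ in (0 : ℝ)..(π / 5), (max (h ^ 2 + (u ^ 2 - h ^ 2) * (c2 / cos ψ ^ 2) - t ^ 2) 0
      - κ * ((u ^ 2 - h ^ 2) * (c2 / cos ψ ^ 2))) := by
  have h5 : (0 : ℝ) ≤ π / 5 := by positivity
  have hs := s2_pos'
  have hc := c2_pos'
  have hT := tan36_pos
  have hTs : tan (π / 5) ^ 2 = s2 / c2 := by
    rw [tan_eq_sin_div_cos, div_pow, ← s2_eq, ← c2_eq]
  set P := s2 * (u ^ 2 - h ^ 2) with hP
  have hP0 : 0 < P := mul_pos hs (by linarith)
  have key : ∀ ψ ∈ uIcc (0 : ℝ) (π / 5),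
      max (h ^ 2 + (u ^ 2 - h ^ 2) * (c2 / cos ψ ^ 2) - t ^ 2) 0
        - κ * ((u ^ 2 - h ^ 2) * (c2 / cos ψ ^ 2)) =
      w + P * max ((tan ψ / tan (π / 5)) ^ 2 - q ^ 2) 0 -
        κ * (u ^ 2 - h ^ 2) * (c2 / cos ψ ^ 2) := by
    intro ψ hψ
    rw [uIcc_of_le h5] at hψ
    have hcos := pyr_cos hψ
    have e1 : (u ^ 2 - h ^ 2) * (c2 / cos ψ ^ 2) =
        (u ^ 2 - h ^ 2) * c2 + P * (tan ψ / tan (π / 5)) ^ 2 := by
      rw [div_pow, hTs, hP, tan_eq_sin_div_cos, div_pow]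
      have e2 := Real.sin_sq_add_cos_sq ψ
      have e3 : sin ψ ^ 2 = 1 - cos ψ ^ 2 := by linarith
      rw [e3]
      field_simp
      ring
    have e4 : h ^ 2 + (u ^ 2 - h ^ 2) * (c2 / cos ψ ^ 2) - t ^ 2 =
        w + P * ((tan ψ / tan (π / 5)) ^ 2 - q ^ 2) := by
      rw [e1]
      have e5 : s2 = 1 - c2 := by linarith [s2_add_c2]
      have e6 : h ^ 2 * s2 + u ^ 2 * c2 = h ^ 2 + (u ^ 2 - h ^ 2) * c2 := by
        rw [e5]
        ring
      linarith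
    have e7 : max (h ^ 2 + (u ^ 2 - h ^ 2) * (c2 / cos ψ ^ 2) - t ^ 2) 0 =
        w + P * max ((tan ψ / tan (π / 5)) ^ 2 - q ^ 2) 0 := by
      rw [e4]
      rcases hwq with h1 | h1
      · rw [h1, zero_add, zero_add, mul_max_of_nonneg _ _ hP0.le, mul_zero]
      · rw [h1]
        have e8 : 0 ≤ (tan ψ / tan (π / 5)) ^ 2 - 0 ^ 2 := by
          have := sq_nonneg (tan ψ / tan (π / 5))
          linarith
        rw [max_eq_left e8, max_eq_left]
        positivity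
    rw [e7]
    ring
  rw [intervalIntegral.integral_congr key]
  have i1 : IntervalIntegrable (fun ψ : ℝ => c2 / cos ψ ^ 2) volume 0 (π / 5) := by
    apply ContinuousOn.intervalIntegrable
    rw [uIcc_of_le h5]
    apply ContinuousOn.div continuousOn_const (by fun_prop)
    intro ψ hψ
    have := pyr_cos hψ
    positivity
  have i2 : IntervalIntegrable (fun ψ : ℝ => max ((tan ψ / tan (π / 5)) ^ 2 - q ^ 2) 0)
      volume 0 (π / 5) := by
    apply ContinuousOn.intervalIntegrable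
    rw [uIcc_of_le h5]
    have ht : ContinuousOn (fun ψ => tan ψ) (Icc (0 : ℝ) (π / 5)) := fun ψ hψ =>
      (Real.hasDerivAt_tan (pyr_cos hψ).ne').continuousAt.continuousWithinAt
    exact (((ht.div_const _).pow 2).sub continuousOn_const).sup continuousOn_const
  have hI : (∫ ψ in (0 : ℝ)..(π / 5), (w + P * max ((tan ψ / tan (π / 5)) ^ 2 - q ^ 2) 0 -
        κ * (u ^ 2 - h ^ 2) * (c2 / cos ψ ^ 2))) =
      w * (π / 5) + P * (∫ ψ in (0 : ℝ)..(π / 5), max ((tan ψ / tan (π / 5)) ^ 2 - q ^ 2) 0) -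
        κ * (u ^ 2 - h ^ 2) * (c2 * tan (π / 5)) := by
    rw [intervalIntegral.integral_sub
      (intervalIntegrable_const.add (i2.const_mul P)) (i1.const_mul _),
      intervalIntegral.integral_add intervalIntegrable_const (i2.const_mul P),
      intervalIntegral.integral_const_mul, intervalIntegral.integral_const_mul, int_sec,
      intervalIntegral.integral_const, smul_eq_mul]
    ring
  rw [hI]
  have hV : tan (π / 5) * QV q ≤
      ∫ ψ in (0 : ℝ)..(π / 5), max ((tan ψ / tan (π / 5)) ^ 2 - q ^ 2) 0 := V_lo hq0 hq1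
  have hV2 := mul_le_mul_of_nonneg_left hV hP0.le
  have e9 : P * (c2 / s2) = (u ^ 2 - h ^ 2) * c2 := by
    rw [hP]
    field_simp
  have e10 : P * tan (π / 5) * (QV q - κ * (c2 / s2)) =
      P * (tan (π / 5) * QV q) - κ * (u ^ 2 - h ^ 2) * (c2 * tan (π / 5)) := by
    linear_combination (-(κ * tan (π / 5))) * e9
  linarith

end Pool.Agent.SDL
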