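import Pool.Agent.SDL.Steep3
import Pool.Agent.SDL.Wts

set_option autoImplicit false

/-!
# SDL: the linear weight `max (1 - (h-1)/0.2033) 0` is admissible for `t² ≤ W0`
-/

open MeasureTheory Set Real
open scoped RealInnerProductSpace

namespace Pool.Agent.SDL

open Pool.Agent.SDC

/-- The linear weight with the slope `1/l`. -/
noncomputable def LW (l h : ℝ) : ℝ := max (1 - (h - 1) / l) 0

theorem LW_nonneg (l h : ℝ) : 0 ≤ LW l h := le_max_right _ _

theorem LW_ge (l h : ℝ) : 1 - (h - 1) / l ≤ LW l h := le_max_left _ _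

/-- **The linear weight is admissible for `t² ≤ W0`.** -/
theorem FW_low {t : ℝ} (ht1 : 1 ≤ t) (htW : t ^ 2 ≤ W0) : FW t (LW 0.2033) := by
  have ht2 := t_hi ht1 htW
  have htR : t < R := by linarith [R_lo']
  have hβ := (tBET t ht1 htR).1
  have hc0 : 0 ≤ π / 3 * bet t := by positivity
  apply FW_of ht1 htR (LW_nonneg _)
  · intro h r hth hh2 _ hr
    exact disc_lin ht1 htW hth hh2 hr
  · intro h hh1 _ hor
    obtain ⟨ρ', τ', a1, a2, a3, a4, a5, a6⟩ := CB_lin ht1 htW hh1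
      (hor.imp (fun h => h.le) (fun h => h.le))
    exact ⟨ρ', τ', a1, a2, a3, a4, a5, a6.trans (mul_le_mul_of_nonneg_left (LW_ge _ _) hc0)⟩
  · intro h gM hh1 hhR hor _ hg1 hJ
    exact (C2_lin ht1 htW hh1 hhR.le (hor.imp (fun h => h.le) (fun h => h.le)) hg1 hJ).trans
      (mul_le_mul_of_nonneg_left (LW_ge _ _) hc0)

/-- Larger slopes give larger weights. -/
theorem LW_mono {l l' h : ℝ} (hl : 0 < l) (hll : l ≤ l') (hh : 1 ≤ h) : LW l h ≤ LW l' h := by
  apply max_le_max _ le_rfl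
  have : (h - 1) / l' ≤ (h - 1) / l := div_le_div_of_nonneg_left (by linarith) hl hll
  linarith

/-- **The packing inequality for the radii `t² ≤ W0`** under the linear condition on the
neighbours. -/
theorem ineq_low {X : Set E3} (hX : ∀ x ∈ X, ∀ y ∈ X, x ≠ y → (2 : ℝ) ≤ dist x y) {c : E3}
    (hc : c ∈ X) {r : ℝ} (hr : 0 ≤ r) (hrW : (1 + r) ^ 2 ≤ W0)
    (hsum : ∀ S : Finset E3, (∀ y ∈ S, y ∈ X ∧ y ≠ c ∧ dist y c < 2 * RO) →
      ∑ y ∈ S, LW 0.2033 (dist y c / 2) ≤ 12) : Ineq X c r := by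
  have htR : 1 + r < R := by linarith [t_hi (by linarith : 1 ≤ 1 + r) hrW, R_lo']
  exact NWf hX hc hr htR (LW_nonneg _) (FW_low (by linarith) hrW) hsum

end Pool.Agent.SDL
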