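import Pool.Agent.SDL.Defs

set_option autoImplicit false

/-!
# SDL, steep drop, part 1: the value of the inscribed pentagon as a function of the height

`gw h u` is the value of the regular pentagon inscribed in the ball of radius `u`, at height `h`.
If `u (h² s2 + u² c2) = R W0` then `gw h u / ((ϑ-h)² (2ϑ+h))` is at most its value at `h = 1`,
`u = R`, where `ϑ³ = R W0`.
-/

open MeasureTheory Set Real

namespace Pool.Agent.SDL

open Pool.Agent.SDC

/-- The value of the pentagon of circumradius `u` at the height `h`. -/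
noncomputable def gw (h u : ℝ) : ℝ :=
  R * W0 * (2 * π - 10 * arctan (h * tan (π / 5) / u)) -
    5 * c2 * tan (π / 5) * (h * (u ^ 2 - h ^ 2))

/-- The third root of `R W0`. -/
noncomputable def th : ℝ := (R * W0) ^ ((1 : ℝ) / 3)

/-- The function `S`. -/
noncomputable def Sw (w : ℝ) : ℝ := c2 + s2 * w ^ 2

/-- The function `N = S^(-1/3)`. -/
noncomputable def Nw (w : ℝ) : ℝ := Sw w ^ (-(1 / 3) : ℝ)

/-- The function `E`. -/
noncomputable def Ew (w : ℝ) : ℝ :=
  2 * π - 10 * arctan (tan (π / 5) * w) - 5 * c2 * tan (π / 5) * (w * (1 - w ^ 2) / Sw w)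

/-- The function `p`. -/
noncomputable def pw (w : ℝ) : ℝ := 1 - 3 / 2 * (w * Nw w) + (w * Nw w) ^ 3 / 2

theorem W0_pos' : 0 < W0 := by linarith [W0_lo]

theorem RW_pos : 0 < R * W0 := mul_pos R_pos W0_pos'

theorem th_cube : th ^ 3 = R * W0 := by
  rw [th, ← Real.rpow_natCast, ← Real.rpow_mul RW_pos.le]
  norm_num

theorem th_pos : 0 < th := Real.rpow_pos_of_pos RW_pos _

theorem c2_pos' : 0 < c2 := by linarith [c2_lo]

theorem s2_pos' : 0 < s2 := by linarith [s2_lo]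

theorem Sw_pos (w : ℝ) : 0 < Sw w := by
  have h1 := c2_pos'
  have h2 := s2_pos'
  unfold Sw
  positivity

theorem Nw_pos (w : ℝ) : 0 < Nw w := Real.rpow_pos_of_pos (Sw_pos w) _

theorem Nw_cube (w : ℝ) : Nw w ^ 3 * Sw w = 1 := by
  have h := Sw_pos w
  rw [Nw, ← Real.rpow_natCast, ← Real.rpow_mul h.le]
  nth_rewrite 2 [← Real.rpow_one (Sw w)]
  rw [← Real.rpow_add h]
  norm_num

/-- `S N = S^(2/3)`. -/
theorem SN_eq (w : ℝ) : Sw w * Nw w = Sw w ^ ((2 : ℝ) / 3) := by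
  have h := Sw_pos w
  rw [Nw]
  nth_rewrite 1 [← Real.rpow_one (Sw w)]
  rw [← Real.rpow_add h]
  norm_num

theorem Sw_one : Sw 1 = 1 := by
  unfold Sw
  linarith [s2_add_c2]

theorem Nw_one : Nw 1 = 1 := by
  rw [Nw, Sw_one, Real.one_rpow]

theorem Ew_one : Ew 1 = 0 := by
  unfold Ew
  rw [mul_one, arctan_tan (by linarith [Real.pi_pos]) (by linarith [Real.pi_pos])]
  ring

theorem pw_one : pw 1 = 0 := by
  unfold pw
  rw [Nw_one]
  norm_num

theorem Sw_hasDerivAt (w : ℝ) : HasDerivAt Sw (2 * s2 * w) w := by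
  have h : HasDerivAt Sw (s2 * (((2 : ℕ) : ℝ) * w ^ (2 - 1))) w :=
    ((hasDerivAt_pow 2 w).const_mul s2).const_add c2
  refine h.congr_deriv ?_
  push_cast
  ring

theorem Nw_hasDerivAt (w : ℝ) : HasDerivAt Nw (-(1 / 3) * (Nw w / Sw w) * (2 * s2 * w)) w := by
  have h := Sw_pos w
  have h1 := (Sw_hasDerivAt w).rpow_const (p := (-(1 / 3) : ℝ)) (Or.inl h.ne')
  have h2 : Sw w ^ (-(1 / 3) - 1 : ℝ) = Nw w / Sw w := by
    rw [Real.rpow_sub_one h.ne', Nw]
  rw [h2] at h1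
  have h3 : HasDerivAt Nw (2 * s2 * w * -(1 / 3) * (Nw w / Sw w)) w := h1
  refine h3.congr_deriv ?_
  ring

theorem Ew_hasDerivAt (w : ℝ) : HasDerivAt Ew
    (-(5 * c2 * tan (π / 5) * ((1 - w ^ 2) * (3 * c2 + s2 * w ^ 2)) / Sw w ^ 2)) w := by
  have hS := Sw_pos w
  have h1 : HasDerivAt (fun w : ℝ => arctan (tan (π / 5) * w))
      (1 / (1 + (tan (π / 5) * w) ^ 2) * tan (π / 5)) w := by
    have := ((hasDerivAt_id w).const_mul (tan (π / 5))).arctan
    simpa using this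
  have h2 : HasDerivAt (fun w : ℝ => w * (1 - w ^ 2)) (1 - 3 * w ^ 2) w := by
    have h : HasDerivAt (fun w : ℝ => w * (1 - w ^ 2))
        (1 * (1 - w ^ 2) + w * -(((2 : ℕ) : ℝ) * w ^ (2 - 1))) w :=
      (hasDerivAt_id w).mul ((hasDerivAt_pow 2 w).const_sub 1)
    refine h.congr_deriv ?_
    push_cast
    ring
  have h3 := h2.div (Sw_hasDerivAt w) hS.ne'
  have h4 := ((h1.const_mul 10).const_sub (2 * π)).sub (h3.const_mul (5 * c2 * tan (π / 5)))
  have hc := c2_pos'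
  have e1 : 1 + (tan (π / 5) * w) ^ 2 = Sw w / c2 := by
    have hT : tan (π / 5) ^ 2 = s2 / c2 := by
      rw [tan_eq_sin_div_cos, div_pow, ← s2_eq, ← c2_eq]
    rw [mul_pow, hT, Sw]
    field_simp
  rw [e1] at h4
  have h5 : HasDerivAt Ew (-(10 * (1 / (Sw w / c2) * tan (π / 5))) - 5 * c2 * tan (π / 5) *
      (((1 - 3 * w ^ 2) * Sw w - w * (1 - w ^ 2) * (2 * s2 * w)) / Sw w ^ 2)) w := h4
  refine h5.congr_deriv ?_
  have e2 : 3 * c2 + s2 * w ^ 2 = 3 * Sw w - 2 * s2 * w ^ 2 := by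
    unfold Sw
    ring
  rw [e2]
  field_simp
  ring

theorem pw_hasDerivAt (w : ℝ) : HasDerivAt pw
    (-((Sw w * Nw w - w ^ 2) * (3 * c2 + s2 * w ^ 2) / (2 * Sw w ^ 2))) w := by
  have hS := Sw_pos w
  have h1 : HasDerivAt (fun w => w * Nw w)
      (1 * Nw w + w * (-(1 / 3) * (Nw w / Sw w) * (2 * s2 * w))) w :=
    (hasDerivAt_id w).mul (Nw_hasDerivAt w)
  have h2 := ((h1.const_mul (3 / 2)).const_sub 1).add ((h1.pow 3).div_const 2)
  have h3 : HasDerivAt pw (-(3 / 2 * (1 * Nw w + w * (-(1 / 3) * (Nw w / Sw w) * (2 * s2 * w)))) +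
      ((3 : ℕ) : ℝ) * (w * Nw w) ^ (3 - 1) *
        (1 * Nw w + w * (-(1 / 3) * (Nw w / Sw w) * (2 * s2 * w))) / 2) w := h2
  refine h3.congr_deriv ?_
  have e1 : 3 * c2 + s2 * w ^ 2 = 3 * Sw w - 2 * s2 * w ^ 2 := by
    unfold Sw
    ring
  have e2 : Nw w ^ 3 = 1 / Sw w := by
    rw [eq_div_iff hS.ne']
    exact Nw_cube w
  rw [e1]
  have e3 : (Sw w * Nw w - w ^ 2) = Sw w * Nw w * (1 - w ^ 2 * Nw w ^ 2) := by
    have : w ^ 2 = Sw w * Nw w * (w ^ 2 * Nw w ^ 2) := by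
      calc w ^ 2 = w ^ 2 * (Nw w ^ 3 * Sw w) := by rw [Nw_cube, mul_one]
        _ = _ := by ring
    linarith
  rw [e3]
  push_cast
  field_simp
  ring

/-- Concavity of `S^(2/3)` in `w²`. -/
theorem M_conc {w v : ℝ} (h0 : 0 ≤ w) (hwv : w ≤ v) (hv : v < 1) :
    (1 - Sw v * Nw v) * (1 - w ^ 2) ≤ (1 - Sw w * Nw w) * (1 - v ^ 2) := by
  have hz : w ^ 2 ≤ v ^ 2 := pow_le_pow_left₀ h0 hwv 2
  have hv2 : v ^ 2 < 1 := by nlinarith
  have hw2 : 0 < 1 - w ^ 2 := by linarith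
  set a := (1 - v ^ 2) / (1 - w ^ 2) with ha
  set b := (v ^ 2 - w ^ 2) / (1 - w ^ 2) with hb
  have ha0 : 0 ≤ a := div_nonneg (by linarith) hw2.le
  have hb0 : 0 ≤ b := div_nonneg (by linarith) hw2.le
  have hab : a + b = 1 := by
    rw [ha, hb, ← add_div, div_eq_one_iff_eq hw2.ne']
    ring
  have hconc := Real.concaveOn_rpow (p := (2 : ℝ) / 3) (by norm_num) (by norm_num)
  have h1 := hconc.2 (x := Sw w) (Set.mem_Ici.2 (Sw_pos w).le) (y := Sw 1)
    (Set.mem_Ici.2 (Sw_pos 1).le) ha0 hb0 hab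
  simp only [smul_eq_mul] at h1
  have e1 : a * Sw w + b * Sw 1 = Sw v := by
    have e2 : a * (1 - w ^ 2) = 1 - v ^ 2 := div_mul_cancel₀ _ hw2.ne'
    have e3 : b = 1 - a := by linarith
    rw [Sw_one, e3]
    unfold Sw
    have e4 := s2_add_c2
    have e5 : c2 = 1 - s2 := by linarith
    rw [e5]
    linear_combination (- s2) * e2
  rw [e1, ← SN_eq, ← SN_eq, ← SN_eq, Sw_one, Nw_one, mul_one, mul_one] at h1
  have h2 := mul_le_mul_of_nonneg_right h1 hw2.le
  have e6 : (a * (Sw w * Nw w) + b) * (1 - w ^ 2) =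
      (Sw w * Nw w) * (1 - v ^ 2) + (v ^ 2 - w ^ 2) := by
    have e2 : a * (1 - w ^ 2) = 1 - v ^ 2 := div_mul_cancel₀ _ hw2.ne'
    have e3 : b * (1 - w ^ 2) = v ^ 2 - w ^ 2 := div_mul_cancel₀ _ hw2.ne'
    linear_combination (Sw w * Nw w) * e2 + e3
  rw [e6] at h2
  linarith

/-- `M > w²`. -/
theorem M_gt {w : ℝ} (h0 : 0 ≤ w) (h1 : w < 1) : w ^ 2 < Sw w * Nw w := by
  have h2 : w ^ 2 < 1 := by nlinarith
  have h3 : Sw w ≤ 1 := by
    unfold Sw
    nlinarith [s2_add_c2, s2_pos']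
  have h4 : w ^ 2 < Sw w := by
    unfold Sw
    nlinarith [s2_add_c2, c2_pos']
  have h5 : Sw w ≤ Sw w * Nw w := by
    rw [SN_eq]
    nth_rewrite 1 [← Real.rpow_one (Sw w)]
    exact Real.rpow_le_rpow_of_exponent_ge (Sw_pos w) h3 (by norm_num)
  linarith

/-- The ratio `E/p` decreases. -/
theorem ratio_w {w1 w0 : ℝ} (h0 : 0 < w1) (h1 : w1 ≤ w0) (h2 : w0 < 1) :
    Ew w0 * pw w1 ≤ Ew w1 * pw w0 := by
  have hT := tan36_pos
  have hc := c2_pos'
  have hs := s2_pos'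
  have hM0 := M_gt (by linarith : 0 ≤ w0) h2
  have hz0 : w0 ^ 2 < 1 := by nlinarith
  set K := 10 * c2 * tan (π / 5) with hK
  have hK0 : 0 < K := by positivity
  set c := K * (1 - w0 ^ 2) / (Sw w0 * Nw w0 - w0 ^ 2) with hcdef
  have hden : 0 < Sw w0 * Nw w0 - w0 ^ 2 := by linarith
  have hc0 : 0 < c := div_pos (mul_pos hK0 (by linarith)) hden
  have hcM : c * (Sw w0 * Nw w0 - w0 ^ 2) = K * (1 - w0 ^ 2) := div_mul_cancel₀ _ hden.ne'
  -- the derivative of `A = E - c p`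
  have hA : ∀ w, HasDerivAt (fun w => Ew w - c * pw w)
      ((3 * c2 + s2 * w ^ 2) / (2 * Sw w ^ 2) *
        (c * (Sw w * Nw w - w ^ 2) - K * (1 - w ^ 2))) w := by
    intro w
    have h : HasDerivAt (fun w => Ew w - c * pw w) _ w :=
      (Ew_hasDerivAt w).sub ((pw_hasDerivAt w).const_mul c)
    refine h.congr_deriv ?_
    have hS := Sw_pos w
    rw [hK]
    field_simp
    ring
  have hpre : ∀ w, 0 ≤ (3 * c2 + s2 * w ^ 2) / (2 * Sw w ^ 2) := by
    intro w
    have hS := Sw_pos w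
    positivity
  -- signs
  have hpos : ∀ w, w0 ≤ w → w < 1 → 0 ≤ c * (Sw w * Nw w - w ^ 2) - K * (1 - w ^ 2) := by
    intro w hw hw1
    have hm := M_conc (by linarith : 0 ≤ w0) hw hw1
    have hden' : 0 < Sw w0 * Nw w0 - w0 ^ 2 := hden
    have key : 0 ≤ (c * (Sw w * Nw w - w ^ 2) - K * (1 - w ^ 2)) *
        (Sw w0 * Nw w0 - w0 ^ 2) := by
      have e : (c * (Sw w * Nw w - w ^ 2) - K * (1 - w ^ 2)) * (Sw w0 * Nw w0 - w0 ^ 2) =
          K * ((1 - Sw w0 * Nw w0) * (1 - w ^ 2) - (1 - Sw w * Nw w) * (1 - w0 ^ 2)) := by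
        linear_combination (Sw w * Nw w - w ^ 2) * hcM
      rw [e]
      exact mul_nonneg hK0.le (by linarith)
    exact nonneg_of_mul_nonneg_left key hden'
  have hneg : ∀ w, 0 ≤ w → w ≤ w0 → c * (Sw w * Nw w - w ^ 2) - K * (1 - w ^ 2) ≤ 0 := by
    intro w hw hww
    have hm := M_conc hw hww h2
    have key : (c * (Sw w * Nw w - w ^ 2) - K * (1 - w ^ 2)) *
        (Sw w0 * Nw w0 - w0 ^ 2) ≤ 0 := by
      have e : (c * (Sw w * Nw w - w ^ 2) - K * (1 - w ^ 2)) * (Sw w0 * Nw w0 - w0 ^ 2) =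
          K * ((1 - Sw w0 * Nw w0) * (1 - w ^ 2) - (1 - Sw w * Nw w) * (1 - w0 ^ 2)) := by
        linear_combination (Sw w * Nw w - w ^ 2) * hcM
      rw [e]
      exact mul_nonpos_of_nonneg_of_nonpos hK0.le (by linarith)
    by_contra hcon
    push Not at hcon
    have := mul_pos hcon hden
    linarith
  have hcont : Continuous (fun w => Ew w - c * pw w) :=
    continuous_iff_continuousAt.2 fun w => (hA w).continuousAt
  have hmono : MonotoneOn (fun w => Ew w - c * pw w) (Icc w0 1) := by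
    apply monotoneOn_of_deriv_nonneg (convex_Icc _ _) hcont.continuousOn
    · intro w _
      exact (hA w).differentiableAt.differentiableWithinAt
    · intro w hw
      rw [interior_Icc] at hw
      rw [(hA w).deriv]
      exact mul_nonneg (hpre w) (hpos w hw.1.le hw.2)
  have hanti : AntitoneOn (fun w => Ew w - c * pw w) (Icc w1 w0) := by
    apply antitoneOn_of_deriv_nonpos (convex_Icc _ _) hcont.continuousOn
    · intro w _
      exact (hA w).differentiableAt.differentiableWithinAt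
    · intro w hw
      rw [interior_Icc] at hw
      rw [(hA w).deriv]
      exact mul_nonpos_of_nonneg_of_nonpos (hpre w) (hneg w (by linarith [hw.1]) hw.2.le)
  have a1 := hmono (left_mem_Icc.2 h2.le) (right_mem_Icc.2 h2.le) h2.le
  have a2 := hanti (left_mem_Icc.2 h1) (right_mem_Icc.2 h1) h1
  simp only [Ew_one, pw_one, mul_zero, sub_zero] at a1
  simp only at a2
  -- `p` is antitone
  have hpa : AntitoneOn pw (Icc w1 1) := by
    apply antitoneOn_of_deriv_nonpos (convex_Icc _ _)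
    · exact (continuous_iff_continuousAt.2 fun w => (pw_hasDerivAt w).continuousAt).continuousOn
    · intro w _
      exact (pw_hasDerivAt w).differentiableAt.differentiableWithinAt
    · intro w hw
      rw [interior_Icc] at hw
      rw [(pw_hasDerivAt w).deriv]
      have hM := M_gt (by linarith [hw.1] : 0 ≤ w) hw.2
      have hS := Sw_pos w
      have : 0 ≤ (Sw w * Nw w - w ^ 2) * (3 * c2 + s2 * w ^ 2) / (2 * Sw w ^ 2) := by
        apply div_nonneg _ (by positivity)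
        exact mul_nonneg (by linarith) (by positivity)
      linarith
  have p01 : pw w0 ≤ pw w1 := hpa ⟨le_refl _, by linarith⟩ ⟨h1, h2.le⟩ h1
  have p0 : 0 ≤ pw w0 := by
    have := hpa ⟨h1, h2.le⟩ ⟨by linarith, le_refl _⟩ h2.le
    rwa [pw_one] at this
  have k1 : Ew w0 * (pw w1 - pw w0) ≤ c * pw w0 * (pw w1 - pw w0) :=
    mul_le_mul_of_nonneg_right (by linarith) (by linarith)
  have k2 : c * (pw w1 - pw w0) * pw w0 ≤ (Ew w1 - Ew w0) * pw w0 :=
    mul_le_mul_of_nonneg_right (by linarith) p0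
  linarith

/-- The value in the variable `w = h/u`. -/
theorem gw_w {h u : ℝ} (hh : 0 < h) (hu : 0 < u)
    (hF : u * (h ^ 2 * s2 + u ^ 2 * c2) = R * W0) :
    gw h u = R * W0 * Ew (h / u) ∧ h = th * (h / u * Nw (h / u)) := by
  have e1 : u ^ 3 * Sw (h / u) = R * W0 := by
    rw [← hF]
    unfold Sw
    field_simp
    ring
  have hS := Sw_pos (h / u)
  constructor
  · unfold gw Ew
    have e2 : R * W0 * (h / u * (1 - (h / u) ^ 2) / Sw (h / u)) = h * (u ^ 2 - h ^ 2) := by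
      rw [← e1]
      field_simp
    have e3 : tan (π / 5) * (h / u) = h * tan (π / 5) / u := by ring
    rw [e3]
    linear_combination (- 5 * c2 * tan (π / 5)) * (- e2)
  · have e2 : (th * Nw (h / u)) ^ 3 = u ^ 3 := by
      rw [mul_pow, th_cube, ← e1]
      calc u ^ 3 * Sw (h / u) * Nw (h / u) ^ 3 = u ^ 3 * (Nw (h / u) ^ 3 * Sw (h / u)) := by ring
        _ = u ^ 3 := by rw [Nw_cube, mul_one]
    have e3 : th * Nw (h / u) = u :=
      (pow_left_inj₀ (mul_pos th_pos (Nw_pos _)).le hu.le (by norm_num)).1 e2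
    calc h = h / u * u := by field_simp
      _ = h / u * (th * Nw (h / u)) := by rw [e3]
      _ = _ := by ring

/-- **The ratio lemma.** -/
theorem gw_ratio {h u : ℝ} (h1 : 1 ≤ h) (hhu : h < u) (huR : u ≤ R)
    (hF : u * (h ^ 2 * s2 + u ^ 2 * c2) = R * W0) :
    (th - 1) ^ 2 * (2 * th + 1) * gw h u ≤ (th - h) ^ 2 * (2 * th + h) * gw 1 R := by
  have hh : 0 < h := by linarith
  have hu : 0 < u := by linarith
  have hR := R_pos
  have hR1 := R_one
  have hFR : R * (1 ^ 2 * s2 + R ^ 2 * c2) = R * W0 := by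
    rw [W0_sc]
    ring
  obtain ⟨a1, a2⟩ := gw_w hh hu hF
  obtain ⟨b1, b2⟩ := gw_w one_pos hR hFR
  have hw1 : (1 : ℝ) / R ≤ h / u := by
    rw [div_le_div_iff₀ hR hu]
    nlinarith
  have hw0 : h / u < 1 := (div_lt_one hu).2 hhu
  have hw1p : 0 < 1 / R := by positivity
  have key := ratio_w hw1p hw1 hw0
  have hth := th_pos
  have e1 : (th - h) ^ 2 * (2 * th + h) = 2 * th ^ 3 * pw (h / u) := by
    have : pw (h / u) = 1 - 3 / 2 * (h / th) + (h / th) ^ 3 / 2 := by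
      have e : h / u * Nw (h / u) = h / th := by
        rw [eq_div_iff hth.ne']
        linarith
      rw [pw, e]
    rw [this]
    field_simp
    ring
  have e2 : (th - 1) ^ 2 * (2 * th + 1) = 2 * th ^ 3 * pw (1 / R) := by
    have : pw (1 / R) = 1 - 3 / 2 * (1 / th) + (1 / th) ^ 3 / 2 := by
      have e : 1 / R * Nw (1 / R) = 1 / th := by
        rw [eq_div_iff hth.ne']
        linarith
      rw [pw, e]
    rw [this]
    field_simp
    ring
  rw [e1, e2, a1, b1]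
  have h3 : 0 < 2 * th ^ 3 * (R * W0) := by
    have := RW_pos
    positivity
  have h4 := mul_le_mul_of_nonneg_left key h3.le
  linarith

end Pool.Agent.SDL
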