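import Pool.Agent.SDL.Steep2
import Pool.Agent.SDL.P_C2
import Pool.Agent.SDL.P_BM
import Pool.Agent.SDL.P_WT

set_option autoImplicit false

/-!
# SDL, steep drop, part 3: the linear bounds for `t² ≤ W0`

The weight of a facet at height `h` is `1 - (h - 1)/0.2033`.
-/

open MeasureTheory Set Real

namespace Pool.Agent.SDL

open Pool.Agent.SDC

/-- Bounds of `1 - κ`. -/
theorem kap_bd {t : ℝ} (ht : 1 ≤ t) (htW : t ^ 2 ≤ W0) :
    0.754693 * (9 * t ^ 2 - 5 * t ^ 3 - 3) ≤ 1 - kap t ∧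
    1 - kap t ≤ 0.75471 * (9 * t ^ 2 - 5 * t ^ 3 - 3) := by
  have h1 := p_KEX.2 t ht htW
  have h2 := ds1_D t ht (t_hi ht htW)
  have hk := kap_low ht htW
  have p1 := Real.pi_gt_d6
  have p2 := Real.pi_lt_d6
  have s1 := S0_lo
  have s3 := S0_hi
  set P := 9 * t ^ 2 - 5 * t ^ 3 - 3 with hP
  set k := 1 - kap t with hkk
  have e1 : 0.10471973 * P ≤ k * 0.138758 := by
    have a1 : k * S0 ≤ k * 0.138758 := mul_le_mul_of_nonneg_left s3.le hk.le
    have a2 : 0.10471973 * P ≤ π / 30 * P := mul_le_mul_of_nonneg_right (by linarith) (by linarith)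
    linarith
  have e2 : k * 0.138756 ≤ 0.10471977 * P := by
    have a1 : k * 0.138756 ≤ k * S0 := mul_le_mul_of_nonneg_left s1.le hk.le
    have a2 : π / 30 * P ≤ 0.10471977 * P := mul_le_mul_of_nonneg_right (by linarith) (by linarith)
    linarith
  constructor
  · linarith
  · linarith

/-- Bounds of `β`. -/
theorem bet_bd {t : ℝ} (ht : 1 ≤ t) (htW : t ^ 2 ≤ W0) :
    0.754693 * (9 * t ^ 2 - 5 * t ^ 3 - 3) * 1.202558 ^ 3 - t ^ 3 ≤ bet t ∧
    bet t ≤ 0.75471 * (9 * t ^ 2 - 5 * t ^ 3 - 3) * 1.73908 - t ^ 3 := by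
  have h1 := bet_low htW
  obtain ⟨k1, k2⟩ := kap_bd ht htW
  have hk := kap_low ht htW
  have h2 := ds1_D t ht (t_hi ht htW)
  have r1 := th_cube
  have r2 := ds1_RW.2
  have r3 : (1.202558 : ℝ) ^ 3 ≤ R * W0 := by
    rw [← r1]
    exact pow_le_pow_left₀ (by norm_num) th_lo.le 3
  constructor
  · have : 0.754693 * (9 * t ^ 2 - 5 * t ^ 3 - 3) * 1.202558 ^ 3 ≤ (1 - kap t) * (R * W0) :=
      mul_le_mul k1 r3 (by norm_num) hk.le
    linarith
  · have : (1 - kap t) * (R * W0) ≤ 0.75471 * (9 * t ^ 2 - 5 * t ^ 3 - 3) * 1.73908 :=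
      mul_le_mul k2 r2.le RW_pos.le (by linarith)
    linarith

/-- The cubic inequality at `h = 1`. -/
theorem lin_ii {t : ℝ} (ht : 1 ≤ t) (ht2 : t ≤ 1.1756) :
    6 * (1.20256 - t) * (t - 1) * (1.20256 ^ 2 * (t + 1) - t - 1.202558) ≤
    (0.754693 * (9 * t ^ 2 - 5 * t ^ 3 - 3) * 1.202558 ^ 3 - t ^ 3) / 3 *
      (3 * 1.202558 ^ 2 - 3 - (1.20256 - 1) ^ 2 * (2 * 1.20256 + 1) / 0.2033) := by
  have hu : 0 ≤ t - 1 := by linarith
  have hv : 0 ≤ 1.1756 - t := by linarith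
  linarith only [pow_nonneg hv 3, mul_nonneg hu (pow_nonneg hv 2),
    mul_nonneg (pow_nonneg hu 2) hv, pow_nonneg hu 3]

/-- The cubic inequality for the slope. -/
theorem lin_i {t : ℝ} (ht : 1 ≤ t) (ht2 : t ≤ 1.1756) :
    (0.75471 * (9 * t ^ 2 - 5 * t ^ 3 - 3) * 1.73908 - t ^ 3) / 3 ≤
      (1.202558 - t) * (2 * (1.202558 ^ 2 + 1.202558 * t + t ^ 2) - 3 * (1.20256 + t)) := by
  have hu : 0 ≤ t - 1 := by linarith
  have hv : 0 ≤ 1.1756 - t := by linarith
  linarith only [pow_nonneg hv 3, mul_nonneg hu (pow_nonneg hv 2),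
    mul_nonneg (pow_nonneg hu 2) hv, pow_nonneg hu 3]

/-- The polynomial inequality for `1 ≤ h ≤ t`. -/
theorem lin_poly {t h θ β : ℝ} (ht : 1 ≤ t) (ht2 : t ≤ 1.1756) (hh : 1 ≤ h)
    (hθ1 : 1.202558 < θ) (hθ2 : θ < 1.20256)
    (hβ1 : 0.754693 * (9 * t ^ 2 - 5 * t ^ 3 - 3) * 1.202558 ^ 3 - t ^ 3 ≤ β)
    (hβ2 : β ≤ 0.75471 * (9 * t ^ 2 - 5 * t ^ 3 - 3) * 1.73908 - t ^ 3) (hβ0 : 0 ≤ β) :
    (θ - t) * (6 * t ^ 2 * θ ^ 2 - 2 * (θ ^ 2 + θ * t + t ^ 2) * (1 + h + h ^ 2) +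
      3 * (θ + t) * (h * (1 + h))) ≤
    β / 3 * (3 * θ ^ 2 - h ^ 2 - h - 1 - (θ - 1) ^ 2 * (2 * θ + 1) / 0.2033) := by
  -- the value at `h = 1`
  have h1 : 6 * (θ - t) * (t - 1) * (θ ^ 2 * (t + 1) - t - θ) ≤
      β / 3 * (3 * θ ^ 2 - 3 - (θ - 1) ^ 2 * (2 * θ + 1) / 0.2033) := by
    have a1 := lin_ii ht ht2
    have hθsq1 : 1.202558 ^ 2 ≤ θ ^ 2 := pow_le_pow_left₀ (by norm_num) hθ1.le 2
    have hθsq2 : θ ^ 2 ≤ 1.20256 ^ 2 := pow_le_pow_left₀ (by linarith) hθ2.le 2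
    have a2 : θ ^ 2 * (t + 1) - t - θ ≤ 1.20256 ^ 2 * (t + 1) - t - 1.202558 := by
      have := mul_le_mul_of_nonneg_right hθsq2 (show 0 ≤ t + 1 by linarith)
      linarith
    have a3 : 0 ≤ θ ^ 2 * (t + 1) - t - θ := by
      have := mul_le_mul_of_nonneg_right hθsq1 (show 0 ≤ t + 1 by linarith only [ht])
      linarith only [this, ht, hθ2]
    have a4 : 6 * (θ - t) * (t - 1) * (θ ^ 2 * (t + 1) - t - θ) ≤
        6 * (1.20256 - t) * (t - 1) * (1.20256 ^ 2 * (t + 1) - t - 1.202558) := by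
      apply mul_le_mul _ a2 a3
      · apply mul_nonneg <;> linarith
      · apply mul_le_mul_of_nonneg_right _ (by linarith)
        linarith
    have a5 : 3 * 1.202558 ^ 2 - 3 - (1.20256 - 1) ^ 2 * (2 * 1.20256 + 1) / 0.2033 ≤
        3 * θ ^ 2 - 3 - (θ - 1) ^ 2 * (2 * θ + 1) / 0.2033 := by
      have b1 : (θ - 1) ^ 2 ≤ (1.20256 - 1) ^ 2 :=
        pow_le_pow_left₀ (by linarith) (by linarith) 2
      have b2 : (θ - 1) ^ 2 * (2 * θ + 1) ≤ (1.20256 - 1) ^ 2 * (2 * 1.20256 + 1) :=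
        mul_le_mul b1 (by linarith) (by linarith) (by norm_num)
      have b3 : (θ - 1) ^ 2 * (2 * θ + 1) / 0.2033 ≤
          (1.20256 - 1) ^ 2 * (2 * 1.20256 + 1) / 0.2033 :=
        div_le_div_of_nonneg_right b2 (by norm_num)
      linarith
    have a6 : (0.754693 * (9 * t ^ 2 - 5 * t ^ 3 - 3) * 1.202558 ^ 3 - t ^ 3) / 3 *
        (3 * 1.202558 ^ 2 - 3 - (1.20256 - 1) ^ 2 * (2 * 1.20256 + 1) / 0.2033) ≤
        β / 3 * (3 * θ ^ 2 - 3 - (θ - 1) ^ 2 * (2 * θ + 1) / 0.2033) := by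
      apply mul_le_mul _ a5 (by norm_num) (by linarith)
      linarith
    linarith
  -- the slope
  have h2 : β / 3 ≤ (θ - t) * (2 * (θ ^ 2 + θ * t + t ^ 2) - 3 * (θ + t)) := by
    have a1 := lin_i ht ht2
    have hθsq1 : 1.202558 ^ 2 ≤ θ ^ 2 := pow_le_pow_left₀ (by norm_num) hθ1.le 2
    have a2 : 2 * (1.202558 ^ 2 + 1.202558 * t + t ^ 2) - 3 * (1.20256 + t) ≤
        2 * (θ ^ 2 + θ * t + t ^ 2) - 3 * (θ + t) := by
      have := mul_le_mul_of_nonneg_right hθ1.le (show 0 ≤ t by linarith only [ht])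
      linarith only [this, hθsq1, hθ2]
    have a3 : 0 ≤ 2 * (1.202558 ^ 2 + 1.202558 * t + t ^ 2) - 3 * (1.20256 + t) := by
      nlinarith only [ht]
    have a4 : (1.202558 - t) * (2 * (1.202558 ^ 2 + 1.202558 * t + t ^ 2) - 3 * (1.20256 + t)) ≤
        (θ - t) * (2 * (θ ^ 2 + θ * t + t ^ 2) - 3 * (θ + t)) := by
      apply mul_le_mul (by linarith) a2 a3 (by linarith)
    linarith
  -- both sides are affine in `h + h²`
  have h3 : 0 ≤ h ^ 2 + h - 2 := by nlinarith only [hh]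
  have h4 := mul_le_mul_of_nonneg_right h2 h3
  linarith only [h1, h4]

theorem lin_iden (t h θ β : ℝ) :
    (θ - h) ^ 2 * (2 * θ + h) * (β / 3 + (t - 1) ^ 2 * (2 * t + 1)) -
      (θ - 1) ^ 2 * (2 * θ + 1) * ((t - h) ^ 2 * (2 * t + h)) -
      (θ - 1) ^ 2 * (2 * θ + 1) * (β / 3 * (1 - (h - 1) / 0.2033)) =
    (h - 1) * ((θ - t) * (6 * t ^ 2 * θ ^ 2 - 2 * (θ ^ 2 + θ * t + t ^ 2) * (1 + h + h ^ 2) +
      3 * (θ + t) * (h * (1 + h)))) -
    (h - 1) * (β / 3 * (3 * θ ^ 2 - h ^ 2 - h - 1 - (θ - 1) ^ 2 * (2 * θ + 1) / 0.2033)) := by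
  ring

theorem lin_iden2 (h θ β : ℝ) :
    (θ - h) ^ 2 * (2 * θ + h) * (β / 3) -
      (θ - 1) ^ 2 * (2 * θ + 1) * (β / 3 * (1 - (h - 1) / 0.2033)) =
    - (β / 3 *
      ((3 * θ ^ 2 - h ^ 2 - h - 1 - (θ - 1) ^ 2 * (2 * θ + 1) / 0.2033) * (h - 1))) := by
  ring

/-- **The linear bound of the local lemma.** -/
theorem CB_lin {t h : ℝ} (ht1 : 1 ≤ t) (htW : t ^ 2 ≤ W0) (hh1 : 1 ≤ h)
    (hor : h ≤ t ∨ h ≤ 1.02) :
    ∃ ρ' τ', 0 < ρ' ∧ ρ' ≤ rr h R ∧ 0 ≤ G t (kap t) (bet t) h ρ' ∧ 0 ≤ τ' ∧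
    (∀ a, 0 < a →
      ∫ ψ in (0 : ℝ)..(π / 2), max (HH t h ρ' - HH t h (a / cos ψ)) 0 ≤ τ') ∧
    - 2 * π * HH t h ρ' + 10 * τ' ≤ π / 3 * bet t * (1 - (h - 1) / 0.2033) := by
  have ht2 := t_hi ht1 htW
  have hθ1 := th_lo
  have hθ2 := th_hi
  have htR : t < R := by linarith [R_lo']
  have hβ0 := (tBET t ht1 htR).1
  have hhθ : h < th := by
    rcases hor with h1 | h1 <;> linarith
  obtain ⟨u, hhu, huR, hF, ρ', τ', a1, a2, a3, a4, a5, a6⟩ := CB_val ht1 htW hh1 hhθ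
  refine ⟨ρ', τ', a1, a2, a3, a4, a5, ?_⟩
  rw [a6]
  have hr := gw_ratio hh1 hhu huR hF
  have hg := gw_one ht1 htW
  have hk := kap_low ht1 htW
  obtain ⟨b1, b2⟩ := bet_bd ht1 htW
  have hN1 : 0 < (th - 1) ^ 2 * (2 * th + 1) := by
    have : 0 < th - 1 := by linarith
    positivity
  have hpi := Real.pi_pos
  -- multiply by `N1`
  have key : (th - h) ^ 2 * (2 * th + h) * (bet t / 3 + (t - 1) ^ 2 * (2 * t + 1)) -
      (th - 1) ^ 2 * (2 * th + 1) * ((max (t - h) 0) ^ 2 * (2 * t + h)) ≤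
      (th - 1) ^ 2 * (2 * th + 1) * (bet t / 3 * (1 - (h - 1) / 0.2033)) := by
    rcases le_or_gt h t with hht | hht
    · rw [max_eq_left (by linarith)]
      have hp := lin_poly ht1 ht2 hh1 hθ1 hθ2 b1 b2 hβ0
      have hp2 := mul_le_mul_of_nonneg_left hp (sub_nonneg.2 hh1)
      have e0 := lin_iden t h th (bet t)
      linarith
    · rw [max_eq_right (by linarith)]
      have hh2 : h ≤ 1.02 := by
        rcases hor with h1 | h1
        · linarith
        · exact h1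
      have hb3 := C2_bet p_KEX ht1 (by linarith)
      have c1 : (t - 1) ^ 2 * (2 * t + 1) ≤ 0.0608 * (h - 1) := by
        have d1 : (t - 1) ^ 2 ≤ 0.02 * (h - 1) := by
          have := mul_nonneg (show 0 ≤ t - 1 by linarith only [ht1])
            (show 0 ≤ 0.02 - (t - 1) by linarith only [hht, hh2])
          linarith only [this, hht]
        have d2 : 2 * t + 1 ≤ 3.04 := by linarith
        calc (t - 1) ^ 2 * (2 * t + 1) ≤ (0.02 * (h - 1)) * 3.04 := by
              apply mul_le_mul d1 d2 (by linarith)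
              have : 0 ≤ h - 1 := by linarith
              positivity
          _ = _ := by ring
      have c2' : (th - h) ^ 2 * (2 * th + h) ≤ 0.15 := by
        have d1 : (th - h) ^ 2 ≤ 0.20256 ^ 2 := pow_le_pow_left₀ (by linarith) (by linarith) 2
        have d2 : 2 * th + h ≤ 3.5 := by linarith
        calc (th - h) ^ 2 * (2 * th + h) ≤ 0.20256 ^ 2 * 3.5 :=
              mul_le_mul d1 d2 (by linarith) (by norm_num)
          _ ≤ _ := by norm_num
      have c3 : (th - h) ^ 2 * (2 * th + h) * ((t - 1) ^ 2 * (2 * t + 1)) ≤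
          0.15 * (0.0608 * (h - 1)) := by
        apply mul_le_mul c2' c1
        · apply mul_nonneg (sq_nonneg _)
          linarith
        · norm_num
      have c4 : (0.5 : ℝ) ≤ 3 * th ^ 2 - h ^ 2 - h - 1 - (th - 1) ^ 2 * (2 * th + 1) / 0.2033 := by
        have d1 : (th - 1) ^ 2 * (2 * th + 1) ≤ 0.14 := by
          have d1 : (th - 1) ^ 2 ≤ 0.20256 ^ 2 := pow_le_pow_left₀ (by linarith) (by linarith) 2
          have d2 : 2 * th + 1 ≤ 3.41 := by linarith
          calc (th - 1) ^ 2 * (2 * th + 1) ≤ 0.20256 ^ 2 * 3.41 :=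
                mul_le_mul d1 d2 (by linarith) (by norm_num)
            _ ≤ _ := by norm_num
        have d3 : (th - 1) ^ 2 * (2 * th + 1) / 0.2033 ≤ 0.7 := by
          rw [div_le_iff₀ (by norm_num)]
          linarith
        have k1 : 1.202558 ^ 2 ≤ th ^ 2 := pow_le_pow_left₀ (by norm_num) hθ1.le 2
        have k2 : h ^ 2 ≤ 1.02 ^ 2 := pow_le_pow_left₀ (by linarith only [hh1]) hh2 2
        linarith only [d3, k1, k2, hh2]
      have c5 : 0.3 / 3 * (0.5 * (h - 1)) ≤ bet t / 3 *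
          ((3 * th ^ 2 - h ^ 2 - h - 1 - (th - 1) ^ 2 * (2 * th + 1) / 0.2033) * (h - 1)) := by
        apply mul_le_mul (by linarith)
        · exact mul_le_mul_of_nonneg_right c4 (by linarith)
        · have : 0 ≤ h - 1 := by linarith
          positivity
        · linarith
      have e0 := lin_iden2 h th (bet t)
      rw [zero_pow two_ne_zero, zero_mul, mul_zero, sub_zero]
      linarith
  have hfin : (th - 1) ^ 2 * (2 * th + 1) * ((1 - kap t) * gw h u -
      π * (max (t - h) 0) ^ 2 * (2 * t + h)) ≤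
      (th - 1) ^ 2 * (2 * th + 1) * (π / 3 * bet t * (1 - (h - 1) / 0.2033)) := by
    have d1 := mul_le_mul_of_nonneg_left hr hk.le
    have d2 := mul_le_mul_of_nonneg_left key hpi.le
    have d3 : (1 - kap t) * ((th - h) ^ 2 * (2 * th + h) * gw 1 R) =
        (th - h) ^ 2 * (2 * th + h) * (π / 3 * bet t + π * ((t - 1) ^ 2 * (2 * t + 1))) := by
      rw [← hg]
      ring
    rw [d3] at d1
    linarith
  exact le_of_mul_le_mul_left hfin hN1

/-! ## The disc bound -/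

/-- The polynomial inequality. -/
theorem lin_disc_poly (h : ℝ) (h1 : 1.02 ≤ h) (h2 : h ≤ 1.1756) :
    6 * (1.73908 + h ^ 3 / 2 - 3 / 2 * 1.20255 ^ 2 * h) * (9 * h ^ 2 - 5 * h ^ 3 - 3) ≤
      (1.739076 * (9 * h ^ 2 - 5 * h ^ 3 - 3) - 1.32505 * h ^ 3) * (1 - (h - 1) / 0.2033) := by
  have hu : 0 ≤ h - 1.02 := by linarith
  have hv : 0 ≤ 1.1756 - h := by linarith
  norm_num
  linarith [pow_nonneg hv 6, mul_nonneg hu (pow_nonneg hv 5),
    mul_nonneg (pow_nonneg hu 2) (pow_nonneg hv 4), mul_nonneg (pow_nonneg hu 3)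
    (pow_nonneg hv 3), mul_nonneg (pow_nonneg hu 4) (pow_nonneg hv 2),
    mul_nonneg (pow_nonneg hu 5) hv, pow_nonneg hu 6]

/-- **The linear disc bound.** -/
theorem disc_lin {t h r : ℝ} (ht1 : 1 ≤ t) (htW : t ^ 2 ≤ W0) (hth : t ≤ h) (hh2 : 1.02 ≤ h)
    (hr : 0 ≤ r) : - (bet t / 6 * max (1 - (h - 1) / 0.2033) 0) ≤ HH t h r := by
  have ht2 := t_hi ht1 htW
  have ht0 : 0 < t := by linarith
  have hh0 : 0 < h := by linarith
  have htR : t < R := by linarith [R_lo']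
  have hβ0 := (tBET t ht1 htR).1
  have hk := kap_low ht1 htW
  have hX := bet_low htW
  obtain ⟨k1, k2⟩ := kap_bd ht1 htW
  have hD := ds1_D t ht1 ht2
  obtain ⟨q1, q2⟩ := ds1_RW
  set ρ := h * cc r with hρ
  have hρh : h ≤ ρ := by
    rw [hρ]
    exact le_mul_of_one_le_right hh0.le (cc_one r)
  have hρ0 : 0 < ρ := by linarith
  have hval : - HH t h r = (1 - kap t) * ((ρ - h) * (R * W0 / ρ - h * (ρ + h) / 2)) := by
    rw [p_HB t h r ht0 hh0 hr, ← hρ, bb, p_BF.2.2 t ρ ht0 (by linarith),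
      p_BF.2.2 t h ht0 hth]
    have e1 : (1 - kap t) * ((ρ - h) * (R * W0 / ρ - h * (ρ + h) / 2)) =
        (ρ - h) * ((1 - kap t) * (R * W0) / ρ - (1 - kap t) * (h * (ρ + h) / 2)) := by ring
    rw [e1, ← hX]
    field_simp
    ring
  have hmax0 : 0 ≤ max (1 - (h - 1) / 0.2033) 0 := le_max_right _ _
  have hmain : (1 - kap t) * ((ρ - h) * (R * W0 / ρ - h * (ρ + h) / 2)) ≤
      bet t / 6 * max (1 - (h - 1) / 0.2033) 0 := by
    rcases le_or_gt 1.2026 h with hh3 | hh3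
    · have h1 := ds1_f0 h ρ (R * W0) hh3 hρh q2
      have h2 : (1 - kap t) * ((ρ - h) * (R * W0 / ρ - h * (ρ + h) / 2)) ≤ 0 :=
        mul_nonpos_of_nonneg_of_nonpos hk.le h1
      have h3 : 0 ≤ bet t / 6 * max (1 - (h - 1) / 0.2033) 0 := by positivity
      linarith
    · have hf := ds1_f h ρ (R * W0) hh0.le hρ0 q1 q2
      set F := 1.73908 + h ^ 3 / 2 - 3 / 2 * 1.20255 ^ 2 * h with hF
      have hF0 : 0 ≤ F := by
        rw [hF]
        linarith [mul_nonneg (sq_nonneg (1.20255 - h)) (show 0 ≤ 1.20255 + h / 2 by linarith)]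
      have hw0 : 0 ≤ 1 - (h - 1) / 0.2033 := by
        rw [sub_nonneg, div_le_one (by norm_num)]
        linarith
      rw [max_eq_left hw0]
      set w := 1 - (h - 1) / 0.2033 with hw
      -- `6 F P ≤ (RW P - S t³) w`
      have hstep : 6 * F * (9 * t ^ 2 - 5 * t ^ 3 - 3) ≤
          (1.739076 * (9 * t ^ 2 - 5 * t ^ 3 - 3) - 1.32505 * t ^ 3) * w := by
        rcases le_or_gt h 1.1756 with hh4 | hh4
        · exact ds1_step t h 1.32505 F w 1.739076 ht1 hth hh4 (by norm_num) hw0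
            (lin_disc_poly h hh2 hh4)
        · apply ds1_step t 1.1756 1.32505 F w 1.739076 ht1 ht2 le_rfl (by norm_num) hw0
          rw [hF, hw]
          have e1 := mul_nonneg (mul_nonneg (show 0 ≤ h - 1.1756 by linarith)
            (show 0 ≤ 1.2026 - h by linarith)) (show 0 ≤ h + 2.3782 by linarith)
          norm_num
          linarith only [e1, hh3, hh4]
      -- multiply by `0.7547`
      set P := 9 * t ^ 2 - 5 * t ^ 3 - 3 with hP
      have hb : (1 - kap t) * (1.739076 * P - 1.32505 * t ^ 3) ≤ bet t * P := by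
        have c1 : (1 - kap t) * 1.32505 ≥ 0 := by positivity
        have c2 : P ≤ (1 - kap t) * 1.32505 := by
          have : 0.754693 * P * 1.32505 ≤ (1 - kap t) * 1.32505 :=
            mul_le_mul_of_nonneg_right k1 (by norm_num)
          have h5 : P ≤ 0.754693 * P * 1.32505 := by
            linarith only [hD]
          linarith
        have c3 : P * t ^ 3 ≤ (1 - kap t) * 1.32505 * t ^ 3 :=
          mul_le_mul_of_nonneg_right c2 (by positivity)
        have c4 : (1 - kap t) * 1.739076 * P ≤ (1 - kap t) * (R * W0) * P := by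
          apply mul_le_mul_of_nonneg_right _ (by linarith)
          exact mul_le_mul_of_nonneg_left q1.le hk.le
        have c5 : bet t = (1 - kap t) * (R * W0) - t ^ 3 := by linarith
        rw [c5]
        linarith
      have d1 : (1 - kap t) * ((ρ - h) * (R * W0 / ρ - h * (ρ + h) / 2)) ≤ (1 - kap t) * F :=
        mul_le_mul_of_nonneg_left hf hk.le
      have d2 : 6 * ((1 - kap t) * F) * P ≤ bet t * w * P := by
        have e1 := mul_le_mul_of_nonneg_left hstep hk.le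
        have e2 := mul_le_mul_of_nonneg_right hb hw0
        linarith
      have d3 : 6 * ((1 - kap t) * F) ≤ bet t * w :=
        le_of_mul_le_mul_right d2 (by linarith)
      linarith
  linarith

/-! ## Six near sides -/

/-- **The linear bound for the facets with six near sides.** -/
theorem C2_lin {t h gM : ℝ} (ht1 : 1 ≤ t) (htW : t ^ 2 ≤ W0) (hh1 : 1 ≤ h) (hhR : h ≤ R)
    (hor : h ≤ t ∨ h ≤ 1.02) (hg1 : gM ≤ 1.1 * Bf t R)
    (hJ : 4.68 * gM - 0.703 * Dl t ≤ - 10 * J0 t) :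
    - 2 * π * HH t h (rr h R) - 2 * π * h * Dl t + 2 * h * (2.34 * gM + 2.79 * Dl t) ≤
      π / 3 * bet t * (1 - (h - 1) / 0.2033) := by
  obtain ⟨hBnn, -⟩ := p_BF
  have ht2 := t_hi ht1 htW
  have htR : t < R := by linarith [R_lo']
  have ht0 : 0 < t := by linarith
  have hh0 : 0 < h := by linarith
  have hκ := (tKAP t ht1 htR).1
  have hβ := (tBET t ht1 htR).1
  have hB := hBnn t R ht0 R_pos
  have hΔ : 0 ≤ Dl t := by
    rw [Dl]
    have := p_BM t ht1 htR (Set.mem_Ici.2 (le_refl R)) (Set.mem_Ici.2 R_lt_RO.le) R_lt_RO.le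
    linarith
  have hidn := tIDN t ht1 htR
  obtain ⟨k1, k2⟩ := kap_bd ht1 htW
  obtain ⟨b1, b2⟩ := bet_bd ht1 htW
  have hD := ds1_D t ht1 ht2
  have hpi1 := Real.pi_gt_d6
  have hpi2 := Real.pi_lt_d6
  have hR0 := R_pos
  -- the value of `HH` at height `h`
  have e1 : HH t h (rr h R) = h * (bb t R - Bf t h) + kap t * h ^ 3 / 2 - bet t := by
    rw [p_HB t h (rr h R) ht0 hh0 (Real.sqrt_nonneg _), C2_cc hh1 hhR]
  have e2 : alp t = bb t R + kap t / 2 - bet t := by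
    have h3 := p_HB t 1 rv ht0 one_pos rv_pos.le
    rw [one_mul, cc_rv] at h3
    have h4 : Bf t 1 = 0 := by
      rw [Bf, if_pos ht1]
    rw [h4] at h3
    have h5 : alp t = HH t 1 rv := rfl
    rw [h5, h3]
    ring_nf
  have e3 : bb t R = Bf t R + bet t / R - kap t * R ^ 2 / 2 := rfl
  have h9 : 0 ≤ h - 1 := by linarith
  -- `B ≥ 0.0098`
  have hB2 : 0.0098 ≤ Bf t R := by
    rw [p_BF.2.2 t R ht0 htR.le]
    have f1 : R ^ 2 / 2 + t ^ 3 / R - 3 / 2 * t ^ 2 = (R - t) ^ 2 * (R + 2 * t) / (2 * R) := by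
      field_simp
      ring
    rw [f1, le_div_iff₀ (by positivity)]
    have f2 : (0.0828 : ℝ) ^ 2 ≤ (R - t) ^ 2 :=
      pow_le_pow_left₀ (by norm_num) (by linarith [R_lo']) 2
    obtain ⟨x, hx⟩ : ∃ x, x = R - t := ⟨_, rfl⟩
    have f3 : R + 2 * t = 3 * R - 2 * x := by rw [hx]; ring
    have f4 : 0.0828 ≤ x := by rw [hx]; linarith [R_lo']
    have f5 : x ≤ 0.26 := by rw [hx]; linarith [R_hi']
    rw [f3, ← hx]
    have r1 := R_lo'
    have r2 := R_hi'
    have f6 : 0.0828 ^ 2 * (3 * R - 2 * 0.0828) ≤ x ^ 2 * (3 * R - 2 * x) := by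
      have g1 : 0 ≤ (x - 0.0828) * (3 * R * (x + 0.0828) - 2 * (x ^ 2 + 0.0828 * x + 0.0828 ^ 2)) := by
        apply mul_nonneg (by linarith only [f4])
        nlinarith only [f4, f5, r1]
      linarith only [g1]
    linarith only [f6, r1]
  -- the drop
  have hdrop : 2 * π * h * Bf t h + 0.1581 * bet t * (h - 1) ≤
      (1.135 * Bf t R + π * kap t * (3 - R ^ 2)) * (h - 1) := by
    have hK : 4.4497 * kap t ≤ π * kap t * (3 - R ^ 2) := by
      have f1 : (4.4497 : ℝ) ≤ π * (3 - R ^ 2) := by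
        have := mul_le_mul hpi1.le (show 1.4164074 ≤ 3 - R ^ 2 by linarith only [R_sq_hi])
          (by norm_num) Real.pi_pos.le
        norm_num at this ⊢
        linarith only [this]
      have := mul_le_mul_of_nonneg_right f1 hκ
      linarith
    by_cases hht : h ≤ t
    · rw [Bf, if_pos hht, mul_zero, zero_add]
      apply mul_le_mul_of_nonneg_right _ h9
      have hpoly : 0.1581 * (0.75471 * (9 * t ^ 2 - 5 * t ^ 3 - 3) * 1.73908 - t ^ 3) ≤
          1.135 * 0.0098 + 4.4497 * (1 - 0.75471 * (9 * t ^ 2 - 5 * t ^ 3 - 3)) := by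
        have hu : 0 ≤ t - 1 := by linarith
        have hv : 0 ≤ 1.1756 - t := by linarith
        linarith only [pow_nonneg hv 3, mul_nonneg hu (pow_nonneg hv 2),
          mul_nonneg (pow_nonneg hu 2) hv, pow_nonneg hu 3]
      linarith
    · have hh2 : h ≤ 1.02 := hor.resolve_left hht
      push Not at hht
      have e4 : 2 * π * h * Bf t h = π * ((h - t) ^ 2 * (h + 2 * t)) := by
        rw [Bf, if_neg (not_le.2 hht)]
        field_simp
      have h5 : (h - t) ^ 2 * (h + 2 * t) ≤ 0.0612 * (h - 1) := by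
        have h6 : (h - t) ^ 2 ≤ 0.02 * (h - 1) := by
          have := mul_nonneg (show 0 ≤ h - t by linarith only [hht])
            (show 0 ≤ 0.02 - (h - t) by linarith only [ht1, hh2])
          linarith only [this, ht1]
        have h7 : h + 2 * t ≤ 3.06 := by linarith
        have h8 : 0 ≤ h + 2 * t := by linarith
        calc (h - t) ^ 2 * (h + 2 * t) ≤ (0.02 * (h - 1)) * (h + 2 * t) :=
              mul_le_mul_of_nonneg_right h6 h8
          _ ≤ (0.02 * (h - 1)) * 3.06 := mul_le_mul_of_nonneg_left h7 (by positivity)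
          _ = 0.0612 * (h - 1) := by ring
      have h10 : π * ((h - t) ^ 2 * (h + 2 * t)) ≤ 0.1923 * (h - 1) := by
        calc π * ((h - t) ^ 2 * (h + 2 * t)) ≤ π * (0.0612 * (h - 1)) :=
              mul_le_mul_of_nonneg_left h5 Real.pi_pos.le
          _ ≤ 3.1416 * (0.0612 * (h - 1)) := by
              apply mul_le_mul_of_nonneg_right (by linarith) (by positivity)
          _ ≤ _ := by linarith only [h9]
      rw [e4]
      have ht3 : t ≤ 1.02 := by linarith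
      have hP1 : 9 * t ^ 2 - 5 * t ^ 3 - 3 ≤ 1.06 := by
        linarith only [sq_nonneg (t - 1), pow_nonneg (sub_nonneg.2 ht1) 3, ht3]
      have hκ2 : 0.2 ≤ kap t := by linarith
      have hβ2 : bet t ≤ 0.4 := by
        have : 1 ≤ t ^ 3 := one_le_pow₀ ht1
        linarith only [b2, hP1, this]
      have h11 : 0.1923 + 0.1581 * bet t ≤ 1.135 * Bf t R + π * kap t * (3 - R ^ 2) := by
        linarith
      have h12 := mul_le_mul_of_nonneg_right h11 h9
      linarith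
  -- main computation
  have hZ : 2 * π * (bet t / R) + 1.135 * Bf t R + π * kap t * (3 - R ^ 2) ≤
      2 * π * bb t R - 4.68 * gM + (2 * π - 5.58) * Dl t + 3 * π * kap t := by
    rw [e3]
    have h10 : 0 ≤ (2 * π - 5.58) * Dl t := mul_nonneg (by linarith) hΔ
    have h11 : 4.68 * gM + 1.135 * Bf t R ≤ 2 * π * Bf t R := by
      have : (5.148 + 1.135) * Bf t R ≤ 2 * π * Bf t R :=
        mul_le_mul_of_nonneg_right (by linarith) hB
      linarith
    linarith
  have hL1 : 2 * π * bet t - (2 * π * bb t R - 4.68 * gM + (2 * π - 5.58) * Dl t)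
      - π * kap t ≤ π / 3 * bet t := by
    have h10 : 0.703 * Dl t ≤ (2 * π - 5.58) * Dl t :=
      mul_le_mul_of_nonneg_right (by linarith) hΔ
    have h11 : 2 * π * alp t = 2 * π * bb t R + π * kap t - 2 * π * bet t := by
      rw [e2]
      ring
    linarith
  have hcub : 3 * (h - 1) ≤ h ^ 3 - 1 := by
    linarith only [mul_nonneg h9 h9, mul_nonneg (mul_nonneg h9 h9) h9]
  have hκc : π * kap t * (3 * (h - 1)) ≤ π * kap t * (h ^ 3 - 1) :=
    mul_le_mul_of_nonneg_left hcub (mul_nonneg Real.pi_pos.le hκ)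
  have hZ' := mul_le_mul_of_nonneg_left hZ h9
  -- `2 π / R - (π/3)/0.2033 ≥ - 0.1581`
  have hpR : π / 3 / 0.2033 - 2 * π / R ≤ 0.1581 := by
    have h3 : 2 * π / 1.258409 ≤ 2 * π / R := by
      apply div_le_div_of_nonneg_left (by positivity) R_pos R_hi'.le
    have h4 : (4.9929 : ℝ) ≤ 2 * π / 1.258409 := by
      rw [le_div_iff₀ (by norm_num)]
      linarith
    have h5 : π / 3 / 0.2033 ≤ 5.151 := by
      rw [div_le_iff₀ (by norm_num)]
      linarith
    linarith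
  have hpR' : (π / 3 / 0.2033 - 2 * π / R) * (bet t * (h - 1)) ≤ 0.1581 * (bet t * (h - 1)) :=
    mul_le_mul_of_nonneg_right hpR (mul_nonneg hβ h9)
  rw [e1]
  have e5 : (π / 3 / 0.2033 - 2 * π / R) * (bet t * (h - 1)) =
      π / 3 * bet t * ((h - 1) / 0.2033) - (h - 1) * (2 * π * (bet t / R)) := by
    ring
  rw [e5] at hpR'
  linarith only [hpR', hZ', hκc, hL1, hdrop]

end Pool.Agent.SDL
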