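import Mathlib

set_option autoImplicit false

/-!
# ThreePoint: positivity of the three point kernels on the sphere

For unit vectors `e` (the pole), `x`, `y` with `u = ⟪e, x⟫`, `v = ⟪e, y⟫`, `t = ⟪x, y⟫` the number
`Sk k u v t` is `(1 - u²)^(k/2) (1 - v²)^(k/2) cos (k φ)`, `φ` the angle at the pole.
-/

open scoped RealInnerProductSpace ComplexConjugate

namespace Pool.Agent.SDL

/-- The kernels of the three point bound. -/
def Sk {K : Type} [CommRing K] : ℕ → K → K → K → K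
  | 0, _, _, _ => 1
  | 1, u, v, t => t - u * v
  | (k + 2), u, v, t =>
      2 * (t - u * v) * Sk (k + 1) u v t - (1 - u ^ 2) * (1 - v ^ 2) * Sk k u v t

theorem Sk_symm {K : Type} [CommRing K] (k : ℕ) (u v t : K) : Sk k u v t = Sk k v u t := by
  induction k using Nat.twoStepInduction with
  | zero => rfl
  | one => simp only [Sk]; ring
  | more k h0 h1 =>
    simp only [Sk]
    rw [h0, h1]
    ring

/-- Powers of a complex number. -/
theorem re_pow (p : ℂ) (k : ℕ) :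
    (p ^ (k + 2)).re = 2 * p.re * (p ^ (k + 1)).re - Complex.normSq p * (p ^ k).re := by
  have h1 : p ^ (k + 2) = ((2 * p.re : ℝ) : ℂ) * p ^ (k + 1) -
      ((Complex.normSq p : ℝ) : ℂ) * p ^ k := by
    have h2 : ((2 * p.re : ℝ) : ℂ) = p + conj p := by
      rw [Complex.add_conj]
    have h3 : ((Complex.normSq p : ℝ) : ℂ) = p * conj p := by
      rw [Complex.mul_conj]
    rw [h2, h3]
    ring
  rw [h1, Complex.sub_re, Complex.re_ofReal_mul, Complex.re_ofReal_mul]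

/-- The projection to the plane orthogonal to the pole as a complex number. -/
theorem exists_proj (e : EuclideanSpace ℝ (Fin 3)) (he : ‖e‖ = 1) :
    ∃ z : EuclideanSpace ℝ (Fin 3) → ℂ, ∀ x y,
      (z x * conj (z y)).re = ⟪x, y⟫ - ⟪e, x⟫ * ⟪e, y⟫ := by
  have hc : Module.finrank ℝ (EuclideanSpace ℝ (Fin 3)) = Fintype.card (Fin 3) := by simp
  have ho : Orthonormal ℝ (({0} : Set (Fin 3)).domRestrict fun _ => e) := by
    constructor
    · intro i
      exact he
    · intro i j hij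
      exfalso
      apply hij
      ext1
      have h1 := i.2
      have h2 := j.2
      rw [Set.mem_singleton_iff] at h1 h2
      rw [h1, h2]
  obtain ⟨b, hb⟩ := ho.exists_orthonormalBasis_extension_of_card_eq hc
  have hb0 : b 0 = e := hb 0 rfl
  refine ⟨fun x => ⟨⟪b 1, x⟫, ⟪b 2, x⟫⟩, fun x y => ?_⟩
  have h1 := b.sum_inner_mul_inner x y
  rw [Fin.sum_univ_three, hb0] at h1
  rw [real_inner_comm e x, real_inner_comm (b 1) x, real_inner_comm (b 2) x] at h1
  simp only [Complex.mul_re, Complex.conj_re, Complex.conj_im]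
  linarith

/-- The kernel is the real part of a power. -/
theorem Sk_eq {e x y : EuclideanSpace ℝ (Fin 3)} (hx : ‖x‖ = 1) (hy : ‖y‖ = 1)
    {z : EuclideanSpace ℝ (Fin 3) → ℂ}
    (hz : ∀ x y, (z x * conj (z y)).re = ⟪x, y⟫ - ⟪e, x⟫ * ⟪e, y⟫) (k : ℕ) :
    Sk k ⟪e, x⟫ ⟪e, y⟫ ⟪x, y⟫ = ((z x * conj (z y)) ^ k).re := by
  have hn : ∀ x : EuclideanSpace ℝ (Fin 3), ‖x‖ = 1 → Complex.normSq (z x) = 1 - ⟪e, x⟫ ^ 2 := by
    intro x hx
    have h1 := hz x x
    rw [Complex.mul_conj, Complex.ofReal_re, real_inner_self_eq_norm_sq, hx] at h1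
    rw [h1]
    ring
  induction k using Nat.twoStepInduction with
  | zero => simp [Sk]
  | one => rw [pow_one, hz]; rfl
  | more k h0 h1 =>
    rw [re_pow, ← h0, ← h1, hz, map_mul, Complex.normSq_conj, hn x hx, hn y hy]
    rfl

/-- Positivity of the kernels. -/
theorem sum_Sk_nonneg {ι : Type*} (s : Finset ι) (n : ι → EuclideanSpace ℝ (Fin 3))
    (hn : ∀ i, ‖n i‖ = 1) (e : EuclideanSpace ℝ (Fin 3)) (he : ‖e‖ = 1) (c : ι → ℝ) (k : ℕ) :
    0 ≤ ∑ i ∈ s, ∑ j ∈ s, c i * c j * Sk k ⟪e, n i⟫ ⟪e, n j⟫ ⟪n i, n j⟫ := by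
  obtain ⟨z, hz⟩ := exists_proj e he
  have h1 : ∑ i ∈ s, ∑ j ∈ s, c i * c j * Sk k ⟪e, n i⟫ ⟪e, n j⟫ ⟪n i, n j⟫ =
      Complex.normSq (∑ i ∈ s, (c i : ℂ) * z (n i) ^ k) := by
    have h2 : ((Complex.normSq (∑ i ∈ s, (c i : ℂ) * z (n i) ^ k) : ℝ) : ℂ) =
        ∑ i ∈ s, ∑ j ∈ s, ((c i * c j : ℝ) : ℂ) * (z (n i) * conj (z (n j))) ^ k := by
      rw [← Complex.mul_conj, map_sum, Finset.sum_mul_sum]
      refine Finset.sum_congr rfl fun i _ => Finset.sum_congr rfl fun j _ => ?_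
      rw [map_mul, Complex.conj_ofReal, map_pow, mul_pow]
      push_cast
      ring
    have h3 := congrArg Complex.re h2
    rw [Complex.ofReal_re, Complex.re_sum] at h3
    rw [h3]
    refine Finset.sum_congr rfl fun i _ => ?_
    rw [Complex.re_sum]
    refine Finset.sum_congr rfl fun j _ => ?_
    rw [Complex.re_ofReal_mul, Sk_eq (hn i) (hn j) hz]
  rw [h1]
  exact Complex.normSq_nonneg _

/-- Positivity of the kernel of order zero with a constant. -/
theorem sum_zero_nonneg {ι : Type*} (s : Finset ι) (a : ℝ) (c : ι → ℝ) :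
    0 ≤ a ^ 2 + 2 * a * ∑ i ∈ s, c i + ∑ i ∈ s, ∑ j ∈ s, c i * c j := by
  rw [← Finset.sum_mul_sum]
  nlinarith [sq_nonneg (a + ∑ i ∈ s, c i)]

/-! ## Sums over triples -/

section triples

variable {ι : Type*} [Fintype ι] [DecidableEq ι]

/-- The sum over the ordered triples of different points. -/
def sum3 (f : ι → ι → ι → ℝ) : ℝ :=
  ∑ i, ∑ j ∈ Finset.univ.erase i, ∑ m ∈ (Finset.univ.erase i).erase j, f i j m

theorem sum3_add (f g : ι → ι → ι → ℝ) :
    sum3 (fun i j m => f i j m + g i j m) = sum3 f + sum3 g := by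
  simp only [sum3, Finset.sum_add_distrib]

theorem sum3_congr {f g : ι → ι → ι → ℝ}
    (h : ∀ i j m, i ≠ j → i ≠ m → j ≠ m → f i j m = g i j m) : sum3 f = sum3 g := by
  unfold sum3
  refine Finset.sum_congr rfl fun i _ => Finset.sum_congr rfl fun j hj =>
    Finset.sum_congr rfl fun m hm => ?_
  rw [Finset.mem_erase] at hj
  rw [Finset.mem_erase, Finset.mem_erase] at hm
  exact h i j m (fun e => hj.1 e.symm) (fun e => hm.2.1 e.symm) fun e => hm.1 e.symm

/-- The sum over the triples as a sum over all triples. -/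
theorem sum3_eq (f : ι → ι → ι → ℝ) :
    sum3 f = ∑ i, ∑ j, ∑ m, if i ≠ j ∧ i ≠ m ∧ j ≠ m then f i j m else 0 := by
  unfold sum3
  refine Finset.sum_congr rfl fun i _ => ?_
  have h1 : Finset.univ.erase i = Finset.univ.filter fun j => i ≠ j := by
    ext j
    simp [eq_comm]
  rw [h1, Finset.sum_filter]
  refine Finset.sum_congr rfl fun j _ => ?_
  by_cases hij : i ≠ j
  · rw [if_pos hij]
    have h2 : (Finset.univ.filter fun j => i ≠ j).erase j =
        Finset.univ.filter fun m => i ≠ j ∧ i ≠ m ∧ j ≠ m := by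
      ext m
      simp only [Finset.mem_erase, Finset.mem_filter, Finset.mem_univ, true_and]
      constructor
      · rintro ⟨h3, h4⟩
        exact ⟨hij, h4, fun e => h3 e.symm⟩
      · rintro ⟨-, h4, h3⟩
        exact ⟨fun e => h3 e.symm, h4⟩
    rw [h2, Finset.sum_filter]
  · rw [if_neg hij]
    symm
    apply Finset.sum_eq_zero
    intro m _
    rw [if_neg]
    rintro ⟨h3, -, -⟩
    exact hij h3

theorem sum3_swap (f : ι → ι → ι → ℝ) : sum3 (fun i j m => f i m j) = sum3 f := by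
  rw [sum3_eq, sum3_eq]
  refine Finset.sum_congr rfl fun i _ => ?_
  rw [Finset.sum_comm]
  refine Finset.sum_congr rfl fun j _ => Finset.sum_congr rfl fun m _ => ?_
  congr 1
  apply propext
  constructor
  · rintro ⟨h1, h2, h3⟩
    exact ⟨h2, h1, h3.symm⟩
  · rintro ⟨h1, h2, h3⟩
    exact ⟨h2, h1, h3.symm⟩

theorem sum3_swap' (f : ι → ι → ι → ℝ) : sum3 (fun i j m => f j i m) = sum3 f := by
  rw [sum3_eq, sum3_eq, Finset.sum_comm]
  refine Finset.sum_congr rfl fun i _ => Finset.sum_congr rfl fun j _ =>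
    Finset.sum_congr rfl fun m _ => ?_
  congr 1
  apply propext
  constructor
  · rintro ⟨h1, h2, h3⟩
    exact ⟨h1.symm, h3, h2⟩
  · rintro ⟨h1, h2, h3⟩
    exact ⟨h1.symm, h3, h2⟩

/-- A function with a nonnegative sum over the triples: some triple has a nonnegative symmetric
sum. -/
theorem exists_sym (h3 : 3 ≤ Fintype.card ι) (f : ι → ι → ι → ℝ) (hf : 0 ≤ sum3 f) :
    ∃ i j m, i ≠ j ∧ i ≠ m ∧ j ≠ m ∧
      0 ≤ f i j m + f i m j + f j i m + f j m i + f m i j + f m j i := by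
  by_contra hcon
  push Not at hcon
  set g : ι → ι → ι → ℝ := fun i j m =>
    f i j m + f i m j + f j i m + f j m i + f m i j + f m j i with hg
  have h1 : sum3 g = 6 * sum3 f := by
    have e1 := sum3_swap f
    have e2 := sum3_swap' f
    have e3 : sum3 (fun i j m => f j m i) = sum3 f := by
      rw [← e1, ← sum3_swap' fun i j m => f i m j]
    have e4 : sum3 (fun i j m => f m i j) = sum3 f := by
      rw [← e2, ← sum3_swap fun i j m => f j i m]
    have e5 : sum3 (fun i j m => f m j i) = sum3 f := by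
      rw [← e3, ← sum3_swap fun i j m => f j m i]
    simp only [hg, sum3_add]
    rw [e1, e2, e3, e4, e5]
    ring
  obtain ⟨a, b, c, hab, hac, hbc⟩ := Fintype.two_lt_card_iff.mp h3
  have h2 : sum3 g < 0 := by
    unfold sum3
    have hn : ∀ i j m : ι, j ∈ Finset.univ.erase i → m ∈ (Finset.univ.erase i).erase j →
        g i j m < 0 := by
      intro i j m hj hm
      rw [Finset.mem_erase] at hj
      rw [Finset.mem_erase, Finset.mem_erase] at hm
      exact hcon i j m (fun e => hj.1 e.symm) (fun e => hm.2.1 e.symm) fun e => hm.1 e.symm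
    apply Finset.sum_neg'
    · intro i _
      exact Finset.sum_nonpos fun j hj => Finset.sum_nonpos fun m hm => (hn i j m hj hm).le
    · refine ⟨a, Finset.mem_univ a, ?_⟩
      apply Finset.sum_neg'
      · intro j hj
        exact Finset.sum_nonpos fun m hm => (hn a j m hj hm).le
      · refine ⟨b, Finset.mem_erase.mpr ⟨hab.symm, Finset.mem_univ b⟩, ?_⟩
        apply Finset.sum_neg'
        · intro m hm
          exact (hn a b m (Finset.mem_erase.mpr ⟨hab.symm, Finset.mem_univ b⟩) hm).le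
        · have hc : c ∈ (Finset.univ.erase a).erase b :=
            Finset.mem_erase.mpr ⟨hbc.symm, Finset.mem_erase.mpr ⟨hac.symm, Finset.mem_univ c⟩⟩
          exact ⟨c, hc, hn a b c (Finset.mem_erase.mpr ⟨hab.symm, Finset.mem_univ b⟩) hc⟩
  linarith

/-- Terms of one and two points spread over the triples. -/
theorem sum3_spread (h3 : 3 ≤ Fintype.card ι) (c : ι → ℝ) (P : ι → ι → ℝ)
    (Q : ι → ι → ι → ℝ) :
    sum3 (fun i j m => Q i j m + P i j / (Fintype.card ι - 2 : ℝ) +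
      c i / ((Fintype.card ι - 1 : ℝ) * (Fintype.card ι - 2 : ℝ))) =
    ∑ i, (c i + ∑ j ∈ Finset.univ.erase i, P i j +
      ∑ j ∈ Finset.univ.erase i, ∑ m ∈ (Finset.univ.erase i).erase j, Q i j m) := by
  have hN : (3 : ℝ) ≤ Fintype.card ι := by exact_mod_cast h3
  have c1 : ∀ i : ι, ((Finset.univ.erase i).card : ℝ) = Fintype.card ι - 1 := by
    intro i
    rw [Finset.card_erase_of_mem (Finset.mem_univ i), Finset.card_univ, Nat.cast_sub (by omega)]
    norm_num
  have c2 : ∀ i j : ι, j ∈ Finset.univ.erase i →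
      (((Finset.univ.erase i).erase j).card : ℝ) = Fintype.card ι - 2 := by
    intro i j hj
    rw [Finset.card_erase_of_mem hj, Finset.card_erase_of_mem (Finset.mem_univ i),
      Finset.card_univ, Nat.cast_sub (by omega), Nat.cast_sub (by omega)]
    norm_num
    ring
  unfold sum3
  refine Finset.sum_congr rfl fun i _ => ?_
  have h4 : ∀ j ∈ Finset.univ.erase i, ∑ m ∈ (Finset.univ.erase i).erase j,
      (Q i j m + P i j / (Fintype.card ι - 2 : ℝ) +
        c i / ((Fintype.card ι - 1 : ℝ) * (Fintype.card ι - 2 : ℝ))) =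
      ∑ m ∈ (Finset.univ.erase i).erase j, Q i j m + P i j +
        c i / (Fintype.card ι - 1 : ℝ) := by
    intro j hj
    rw [Finset.sum_add_distrib, Finset.sum_add_distrib, Finset.sum_const, Finset.sum_const,
      nsmul_eq_mul, nsmul_eq_mul, c2 i j hj]
    have h5 : (Fintype.card ι - 2 : ℝ) ≠ 0 := by linarith
    have h6 : (Fintype.card ι - 1 : ℝ) ≠ 0 := by linarith
    field_simp
  rw [Finset.sum_congr rfl h4, Finset.sum_add_distrib, Finset.sum_add_distrib, Finset.sum_const,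
    nsmul_eq_mul, c1 i]
  have h6 : (Fintype.card ι - 1 : ℝ) ≠ 0 := by linarith
  field_simp
  ring

/-- The multiplier of the total mark. -/
theorem sum3_mult (h3 : 3 ≤ Fintype.card ι) (x : ι → ℝ) (q : ι → ι → ℝ) :
    sum3 (fun i j m => q j m * (x i + (x j + x m - ∑ l, x l) / (Fintype.card ι - 2 : ℝ))) = 0 := by
  have hN : (3 : ℝ) ≤ Fintype.card ι := by exact_mod_cast h3
  have h0 : sum3 (fun i j m => q j m *
      (x i + (x j + x m - ∑ l, x l) / (Fintype.card ι - 2 : ℝ))) =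
      sum3 (fun j m i => q j m *
        (x i + (x j + x m - ∑ l, x l) / (Fintype.card ι - 2 : ℝ))) := by
    have e2 := sum3_swap' (fun j i m => q j m *
        (x i + (x j + x m - ∑ l, x l) / (Fintype.card ι - 2 : ℝ)))
    have e1 := sum3_swap (fun j m i => q j m *
        (x i + (x j + x m - ∑ l, x l) / (Fintype.card ι - 2 : ℝ)))
    exact e2.trans e1
  rw [h0]
  unfold sum3
  refine Finset.sum_eq_zero fun j _ => Finset.sum_eq_zero fun m hm => ?_
  rw [← Finset.mul_sum]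
  have h1 : ∑ i ∈ (Finset.univ.erase j).erase m,
      (x i + (x j + x m - ∑ l, x l) / (Fintype.card ι - 2 : ℝ)) = 0 := by
    rw [Finset.sum_add_distrib, Finset.sum_const, nsmul_eq_mul, Finset.card_erase_of_mem hm,
      Finset.card_erase_of_mem (Finset.mem_univ j), Finset.card_univ, Nat.cast_sub (by omega),
      Nat.cast_sub (by omega), Finset.sum_erase_eq_sub hm,
      Finset.sum_erase_eq_sub (Finset.mem_univ j)]
    have h5 : (Fintype.card ι - 2 : ℝ) ≠ 0 := by linarith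
    push_cast
    have h6 : (Fintype.card ι : ℝ) - 1 - 1 = Fintype.card ι - 2 := by ring
    rw [h6]
    field_simp
    ring
  rw [h1, mul_zero]

end triples

/-! ## The three point bound -/

theorem Sk_diag {K : Type} [CommRing K] (k : ℕ) (u : K) : Sk k u u 1 = (1 - u ^ 2) ^ k := by
  induction k using Nat.twoStepInduction with
  | zero => simp [Sk]
  | one => simp only [Sk]; ring
  | more k h0 h1 =>
    simp only [Sk]
    rw [h0, h1]
    ring

section main

variable {β : Type} [Fintype β] (k : β → ℕ) (d : β → ℝ → ℝ) (a : β → ℝ → ℝ)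
  (g : β → ℝ → ℝ → ℝ) (q : ℝ → ℝ → ℝ → ℝ) (c1 : ℝ → ℝ) (c2 : ℝ → ℝ → ℝ → ℝ)

/-- The function of an ordered triple (pole, point, point): `u`, `v` the inner products with the
pole, `t` the inner product of the two points, `X`, `Y`, `W` the marks, `N` the number of points,
`L` the total mark. -/
noncomputable def Zo (N L u v t X Y W : ℝ) : ℝ :=
  ∑ b, (d b X * (g b u Y * g b v W * Sk (k b) u v t) +
    d b X * (2 * a b X * g b u Y + g b u Y ^ 2 * (1 - u ^ 2) ^ k b) / (N - 2) +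
    d b X * a b X ^ 2 / ((N - 1) * (N - 2))) + q t Y W * (X + (Y + W - L) / (N - 2)) +
    c2 u X Y / (N - 2) + c1 X / ((N - 1) * (N - 2))

/-- The symmetric function of a triple. -/
noncomputable def Zs (N L u v t X Y W : ℝ) : ℝ :=
  Zo k d a g q c1 c2 N L u v t X Y W + Zo k d a g q c1 c2 N L v u t X W Y +
    Zo k d a g q c1 c2 N L u t v Y X W + Zo k d a g q c1 c2 N L t u v Y W X +
    Zo k d a g q c1 c2 N L v t u W X Y + Zo k d a g q c1 c2 N L t v u W Y X

variable {ι : Type*} [Fintype ι] [DecidableEq ι]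

/-- The sum over all ordered triples is nonnegative. -/
theorem sum3_Zo_nonneg (h3 : 3 ≤ Fintype.card ι) (n : ι → EuclideanSpace ℝ (Fin 3))
    (hn : ∀ i, ‖n i‖ = 1) (x : ι → ℝ) (hd : ∀ b i, 0 ≤ d b (x i))
    (ha : ∀ b, k b ≠ 0 → ∀ X, a b X = 0)
    (h2p : 0 ≤ ∑ i, (c1 (x i) + ∑ j ∈ Finset.univ.erase i, c2 ⟪n i, n j⟫ (x i) (x j))) :
    0 ≤ sum3 fun i j m => Zo k d a g q c1 c2 (Fintype.card ι) (∑ l, x l) ⟪n i, n j⟫ ⟪n i, n m⟫
      ⟪n j, n m⟫ (x i) (x j) (x m) := by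
  set Q : ι → ι → ι → ℝ := fun i j m => ∑ b, d b (x i) * (g b ⟪n i, n j⟫ (x j) *
    g b ⟪n i, n m⟫ (x m) * Sk (k b) ⟪n i, n j⟫ ⟪n i, n m⟫ ⟪n j, n m⟫) with hQ
  set P : ι → ι → ℝ := fun i j => ∑ b, d b (x i) * (2 * a b (x i) * g b ⟪n i, n j⟫ (x j) +
    g b ⟪n i, n j⟫ (x j) ^ 2 * (1 - ⟪n i, n j⟫ ^ 2) ^ k b) with hP
  set c : ι → ℝ := fun i => ∑ b, d b (x i) * a b (x i) ^ 2 with hc
  have h1 : sum3 (fun i j m => Zo k d a g q c1 c2 (Fintype.card ι) (∑ l, x l) ⟪n i, n j⟫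
      ⟪n i, n m⟫ ⟪n j, n m⟫ (x i) (x j) (x m)) =
      sum3 (fun i j m => Q i j m + P i j / (Fintype.card ι - 2 : ℝ) +
        c i / ((Fintype.card ι - 1 : ℝ) * (Fintype.card ι - 2 : ℝ))) +
      sum3 (fun i j m => 0 + c2 ⟪n i, n j⟫ (x i) (x j) / (Fintype.card ι - 2 : ℝ) +
        c1 (x i) / ((Fintype.card ι - 1 : ℝ) * (Fintype.card ι - 2 : ℝ))) := by
    have e1 := sum3_mult h3 x fun j m => q ⟪n j, n m⟫ (x j) (x m)
    have e2 := sum3_add (fun i j m => Q i j m + P i j / (Fintype.card ι - 2 : ℝ) +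
        c i / ((Fintype.card ι - 1 : ℝ) * (Fintype.card ι - 2 : ℝ)))
      (fun i j m => q ⟪n j, n m⟫ (x j) (x m) *
        (x i + (x j + x m - ∑ l, x l) / (Fintype.card ι - 2 : ℝ)))
    rw [e1, add_zero] at e2
    rw [← e2, ← sum3_add]
    apply sum3_congr
    intro i j m _ _ _
    simp only [Zo, hQ, hP, hc, Finset.sum_div, Finset.sum_add_distrib]
    ring
  rw [h1]
  refine add_nonneg ?_ ?_
  swap
  · rw [sum3_spread h3 (fun i => c1 (x i)) (fun i j => c2 ⟪n i, n j⟫ (x i) (x j)) fun _ _ _ => 0]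
    simpa using h2p
  rw [sum3_spread h3]
  apply Finset.sum_nonneg
  intro i _
  have h2 : c i + ∑ j ∈ Finset.univ.erase i, P i j +
      ∑ j ∈ Finset.univ.erase i, ∑ m ∈ (Finset.univ.erase i).erase j, Q i j m =
      ∑ b, d b (x i) * (a b (x i) ^ 2 +
        2 * a b (x i) * ∑ j ∈ Finset.univ.erase i, g b ⟪n i, n j⟫ (x j) +
        ∑ j ∈ Finset.univ.erase i, ∑ m ∈ Finset.univ.erase i, g b ⟪n i, n j⟫ (x j) *
          g b ⟪n i, n m⟫ (x m) * Sk (k b) ⟪n i, n j⟫ ⟪n i, n m⟫ ⟪n j, n m⟫) := by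
    have e3 : ∀ b, ∑ j ∈ Finset.univ.erase i, ∑ m ∈ Finset.univ.erase i,
        g b ⟪n i, n j⟫ (x j) * g b ⟪n i, n m⟫ (x m) *
          Sk (k b) ⟪n i, n j⟫ ⟪n i, n m⟫ ⟪n j, n m⟫ =
        ∑ j ∈ Finset.univ.erase i, (g b ⟪n i, n j⟫ (x j) ^ 2 * (1 - ⟪n i, n j⟫ ^ 2) ^ k b +
          ∑ m ∈ (Finset.univ.erase i).erase j, g b ⟪n i, n j⟫ (x j) *
            g b ⟪n i, n m⟫ (x m) * Sk (k b) ⟪n i, n j⟫ ⟪n i, n m⟫ ⟪n j, n m⟫) := by
      intro b
      refine Finset.sum_congr rfl fun j hj => ?_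
      rw [← Finset.add_sum_erase _ _ hj, real_inner_self_eq_norm_sq, hn j, one_pow, Sk_diag]
      ring
    simp only [hQ, hP, hc, e3]
    simp only [mul_add, Finset.sum_add_distrib, Finset.mul_sum, Finset.sum_comm (s := Finset.univ)
      (t := Finset.univ.erase i)]
    have e4 : ∀ j, ∑ m ∈ (Finset.univ.erase i).erase j, ∑ b, d b (x i) *
        (g b ⟪n i, n j⟫ (x j) * g b ⟪n i, n m⟫ (x m) *
          Sk (k b) ⟪n i, n j⟫ ⟪n i, n m⟫ ⟪n j, n m⟫) =
        ∑ b, ∑ m ∈ (Finset.univ.erase i).erase j, d b (x i) *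
        (g b ⟪n i, n j⟫ (x j) * g b ⟪n i, n m⟫ (x m) *
          Sk (k b) ⟪n i, n j⟫ ⟪n i, n m⟫ ⟪n j, n m⟫) := fun j => Finset.sum_comm
    simp only [e4]
    ring
  rw [h2]
  apply Finset.sum_nonneg
  intro b _
  apply mul_nonneg (hd b i)
  by_cases hk0 : k b = 0
  · rw [hk0]
    have h4 := sum_zero_nonneg (Finset.univ.erase i) (a b (x i))
      fun j => g b ⟪n i, n j⟫ (x j)
    simp only [Sk, mul_one]
    exact h4
  · rw [ha b hk0 (x i)]
    have h4 := sum_Sk_nonneg (Finset.univ.erase i) n hn (n i) (hn i)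
      (fun j => g b ⟪n i, n j⟫ (x j)) (k b)
    beta_reduce at h4
    linarith

/-- The three point bound: some triple of different points has a nonnegative value. -/
theorem exists_Zs_nonneg (h3 : 3 ≤ Fintype.card ι) (n : ι → EuclideanSpace ℝ (Fin 3))
    (hn : ∀ i, ‖n i‖ = 1) (x : ι → ℝ) (hd : ∀ b i, 0 ≤ d b (x i))
    (ha : ∀ b, k b ≠ 0 → ∀ X, a b X = 0)
    (h2p : 0 ≤ ∑ i, (c1 (x i) + ∑ j ∈ Finset.univ.erase i, c2 ⟪n i, n j⟫ (x i) (x j))) :
    ∃ i j m, i ≠ j ∧ i ≠ m ∧ j ≠ m ∧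
      0 ≤ Zs k d a g q c1 c2 (Fintype.card ι) (∑ l, x l) ⟪n i, n j⟫ ⟪n i, n m⟫ ⟪n j, n m⟫
        (x i) (x j) (x m) := by
  obtain ⟨i, j, m, h1, h2, h4, h5⟩ :=
    exists_sym h3 _ (sum3_Zo_nonneg k d a g q c1 c2 h3 n hn x hd ha h2p)
  refine ⟨i, j, m, h1, h2, h4, ?_⟩
  unfold Zs
  rw [real_inner_comm (n i) (n j), real_inner_comm (n i) (n m), real_inner_comm (n j) (n m)] at h5
  exact h5

end main

/-- Two point kernels: the hypothesis `h2p` for a sum of squares. -/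
theorem two_point {ι : Type*} [Fintype ι] [DecidableEq ι] {γ : Type} [Fintype γ]
    (n : ι → EuclideanSpace ℝ (Fin 3)) (hn : ∀ i, ‖n i‖ = 1) (x : ι → ℝ)
    (E : γ → ℝ → ℝ) (D : γ → ℝ) (hD : ∀ b, 0 ≤ D b) (f : γ → ℝ → ℝ)
    (hE : ∀ b, ∀ c : ι → ℝ, 0 ≤ ∑ i, ∑ j, c i * c j * E b ⟪n i, n j⟫) :
    0 ≤ ∑ i, ((∑ b, D b * (f b (x i) ^ 2 * E b 1)) + ∑ j ∈ Finset.univ.erase i,
      ∑ b, D b * (f b (x i) * f b (x j) * E b ⟪n i, n j⟫)) := by
  have h1 : ∑ i, ((∑ b, D b * (f b (x i) ^ 2 * E b 1)) + ∑ j ∈ Finset.univ.erase i,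
      ∑ b, D b * (f b (x i) * f b (x j) * E b ⟪n i, n j⟫)) =
      ∑ b, D b * ∑ i, ∑ j, f b (x i) * f b (x j) * E b ⟪n i, n j⟫ := by
    have e1 : ∀ i, (∑ b, D b * (f b (x i) ^ 2 * E b 1)) + ∑ j ∈ Finset.univ.erase i,
        ∑ b, D b * (f b (x i) * f b (x j) * E b ⟪n i, n j⟫) =
        ∑ j, ∑ b, D b * (f b (x i) * f b (x j) * E b ⟪n i, n j⟫) := by
      intro i
      rw [← Finset.add_sum_erase _ _ (Finset.mem_univ i), real_inner_self_eq_norm_sq, hn i,
        one_pow]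
      congr 1
      refine Finset.sum_congr rfl fun b _ => ?_
      ring
    simp only [e1]
    simp only [Finset.mul_sum]
    have e2 : ∀ i, ∑ j, ∑ b, D b * (f b (x i) * f b (x j) * E b ⟪n i, n j⟫) =
        ∑ b, ∑ j, D b * (f b (x i) * f b (x j) * E b ⟪n i, n j⟫) := fun i => Finset.sum_comm
    simp only [e2]
    rw [Finset.sum_comm]
  rw [h1]
  exact Finset.sum_nonneg fun b _ => mul_nonneg (hD b) (hE b _)

end Pool.Agent.SDL
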